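import Pool.Agent.Lib.MP_18566a_pr.T.Defs

set_option autoImplicit false

namespace MP18

open Finset PowerSeries

theorem Bd_nonneg {r C : ℝ} {A : PS} (h : Bd r A C) : 0 ≤ C := by
  simpa using h 0

theorem Bd_mono {r C D : ℝ} {A : PS} (h : Bd r A C) (hCD : C ≤ D) : Bd r A D :=
  fun N => (h N).trans hCD

theorem Bd_weight {r s C : ℝ} {A : PS} (h : Bd s A C) (hr : 0 ≤ r) (hrs : r ≤ s) : Bd r A C :=
  fun N => (Finset.sum_le_sum fun n _ =>
    mul_le_mul_of_nonneg_left (pow_le_pow_left₀ hr hrs n) (abs_nonneg _)).trans (h N)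

theorem Bd_zero {r : ℝ} : Bd r 0 0 := fun N => by simp

theorem A1_aux_pow {r : ℝ} (hr : 0 ≤ r) (n : ℕ) : Bd r (X ^ n) (r ^ n) := by
  intro N
  have e : ∑ m ∈ range N, |coeff m (X ^ n : PS)| * r ^ m =
      ∑ m ∈ range N, if m = n then r ^ n else 0 := by
    apply Finset.sum_congr rfl
    intro m _
    rw [coeff_X_pow]
    split_ifs with h
    · rw [h, abs_one, one_mul]
    · rw [abs_zero, zero_mul]
  rw [e, Finset.sum_ite_eq']
  split_ifs
  · exact le_rfl
  · exact pow_nonneg hr n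

theorem Bd_one {r : ℝ} (hr : 0 ≤ r) : Bd r 1 1 := by
  simpa using A1_aux_pow hr 0

theorem Bd_X {r : ℝ} (hr : 0 ≤ r) : Bd r X r := by
  simpa using A1_aux_pow hr 1

theorem Bd_Xpow {r : ℝ} (hr : 0 ≤ r) (n : ℕ) : Bd r (X ^ n) (r ^ n) := A1_aux_pow hr n

theorem A1_aux_neg {r C : ℝ} {A : PS} (h : Bd r A C) : Bd r (-A) C := by
  intro N
  have e : ∑ n ∈ range N, |coeff n (-A)| * r ^ n = ∑ n ∈ range N, |coeff n A| * r ^ n := by
    apply Finset.sum_congr rfl
    intro n _
    rw [map_neg, abs_neg]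
  rw [e]
  exact h N

theorem A1_aux_add {r C D : ℝ} {A B : PS} (hr : 0 ≤ r) (hA : Bd r A C) (hB : Bd r B D) :
    Bd r (A + B) (C + D) := by
  intro N
  calc ∑ n ∈ range N, |coeff n (A + B)| * r ^ n
      ≤ ∑ n ∈ range N, (|coeff n A| * r ^ n + |coeff n B| * r ^ n) := by
        apply Finset.sum_le_sum
        intro n _
        rw [map_add, ← add_mul]
        exact mul_le_mul_of_nonneg_right (abs_add_le _ _) (pow_nonneg hr n)
    _ = ∑ n ∈ range N, |coeff n A| * r ^ n + ∑ n ∈ range N, |coeff n B| * r ^ n :=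
        Finset.sum_add_distrib
    _ ≤ C + D := add_le_add (hA N) (hB N)

theorem Bd_nab {r : ℝ} (hr : 0 ≤ r) : Bd r nab (1 + r) := by
  unfold nab
  rw [sub_eq_add_neg]
  exact A1_aux_add hr (Bd_one hr) (A1_aux_neg (Bd_X hr))

theorem Bd_neg {r C : ℝ} {A : PS} (h : Bd r A C) : Bd r (-A) C := A1_aux_neg h

theorem Bd_add {r C D : ℝ} {A B : PS} (hr : 0 ≤ r) (hA : Bd r A C) (hB : Bd r B D) :
    Bd r (A + B) (C + D) := A1_aux_add hr hA hB

theorem Bd_sub {r C D : ℝ} {A B : PS} (hr : 0 ≤ r) (hA : Bd r A C) (hB : Bd r B D) :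
    Bd r (A - B) (C + D) := by
  rw [sub_eq_add_neg]
  exact Bd_add hr hA (Bd_neg hB)

theorem Bd_smul {r C : ℝ} {A : PS} (c : ℝ) (h : Bd r A C) : Bd r (c • A) (|c| * C) := by
  intro N
  have e : ∑ n ∈ range N, |coeff n (c • A)| * r ^ n = |c| * ∑ n ∈ range N, |coeff n A| * r ^ n := by
    rw [Finset.mul_sum]
    apply Finset.sum_congr rfl
    intro n _
    rw [coeff_smul, smul_eq_mul, abs_mul, mul_assoc]
  rw [e]
  exact mul_le_mul_of_nonneg_left (h N) (abs_nonneg c)

theorem Bd_mul {r C D : ℝ} {A B : PS} (hr : 0 ≤ r) (hA : Bd r A C) (hB : Bd r B D) :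
    Bd r (A * B) (C * D) := by
  intro N
  have e1 : ∑ n ∈ range N, |coeff n (A * B)| * r ^ n ≤ ∑ n ∈ range N, ∑ p ∈ antidiagonal n,
      (|coeff p.1 A| * r ^ p.1) * (|coeff p.2 B| * r ^ p.2) := by
    apply Finset.sum_le_sum
    intro n _
    rw [coeff_mul]
    refine (mul_le_mul_of_nonneg_right (Finset.abs_sum_le_sum_abs _ _) (pow_nonneg hr n)).trans ?_
    rw [Finset.sum_mul]
    apply Finset.sum_le_sum
    intro p hp
    rw [abs_mul, ← mem_antidiagonal.1 hp, pow_add]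
    apply le_of_eq
    ring
  have e2 : ∑ n ∈ range N, ∑ p ∈ antidiagonal n,
      (|coeff p.1 A| * r ^ p.1) * (|coeff p.2 B| * r ^ p.2) =
      ∑ p ∈ (range N).biUnion (fun n => antidiagonal n),
      (|coeff p.1 A| * r ^ p.1) * (|coeff p.2 B| * r ^ p.2) := by
    rw [Finset.sum_biUnion]
    intro m _ n _ hmn
    rw [Function.onFun, Finset.disjoint_left]
    intro p hp hp'
    exact hmn ((mem_antidiagonal.1 hp).symm.trans (mem_antidiagonal.1 hp'))
  have e3 : ∑ p ∈ (range N).biUnion (fun n => antidiagonal n),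
      (|coeff p.1 A| * r ^ p.1) * (|coeff p.2 B| * r ^ p.2) ≤ ∑ p ∈ range N ×ˢ range N,
      (|coeff p.1 A| * r ^ p.1) * (|coeff p.2 B| * r ^ p.2) := by
    apply Finset.sum_le_sum_of_subset_of_nonneg
    · intro p hp
      obtain ⟨n, hn, hp⟩ := Finset.mem_biUnion.1 hp
      rw [Finset.mem_product, Finset.mem_range, Finset.mem_range]
      rw [Finset.mem_range] at hn
      rw [HasAntidiagonal.mem_antidiagonal] at hp
      omega
    · intro p _ _
      positivity
  have e4 : ∑ p ∈ range N ×ˢ range N, (|coeff p.1 A| * r ^ p.1) * (|coeff p.2 B| * r ^ p.2) =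
      (∑ n ∈ range N, |coeff n A| * r ^ n) * ∑ n ∈ range N, |coeff n B| * r ^ n := by
    rw [Finset.sum_mul_sum, Finset.sum_product]
  calc _ ≤ _ := e1
    _ = _ := e2
    _ ≤ _ := e3
    _ = _ := e4
    _ ≤ C * D := by
      apply mul_le_mul (hA N) (hB N) _ (Bd_nonneg hA)
      apply Finset.sum_nonneg
      intro n _
      positivity

theorem Bd_pow {r C : ℝ} {A : PS} (hr : 0 ≤ r) (hA : Bd r A C) (k : ℕ) :
    Bd r (A ^ k) (C ^ k) := by
  induction k with
  | zero => simpa using Bd_one hr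
  | succ k ih =>
    rw [pow_succ, pow_succ]
    exact Bd_mul hr ih hA

theorem Bd_coeff {r C : ℝ} {A : PS} (hr : 0 ≤ r) (h : Bd r A C) (n : ℕ) :
    |coeff n A| * r ^ n ≤ C := by
  refine le_trans ?_ (h (n + 1))
  exact Finset.single_le_sum (f := fun m => |coeff m A| * r ^ m) (fun m _ => by positivity)
    (Finset.mem_range.2 (Nat.lt_succ_self n))

theorem Bd_rescale_iff {r C : ℝ} {A : PS} (hr : 0 ≤ r) :
    Bd 1 (rescale r A) C ↔ Bd r A C := by
  unfold Bd
  have e : ∀ N, ∑ n ∈ range N, |coeff n (rescale r A)| * 1 ^ n =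
      ∑ n ∈ range N, |coeff n A| * r ^ n := by
    intro N
    apply Finset.sum_congr rfl
    intro n _
    rw [coeff_rescale, abs_mul, abs_of_nonneg (pow_nonneg hr n)]
    ring
  simp only [e]

/-- sup bound by the norm of the difference -/
theorem Bd_nab_coeff {d : ℝ} {A : PS} (h : Bd 1 (nab * A) d) (n : ℕ) : |coeff n A| ≤ d := by
  have e0 : coeff 0 (nab * A) = coeff 0 A := by
    unfold nab
    rw [sub_mul, one_mul, map_sub, coeff_zero_X_mul, sub_zero]
  have e1 : ∀ m, coeff (m + 1) (nab * A) = coeff (m + 1) A - coeff m A := by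
    intro m
    unfold nab
    rw [sub_mul, one_mul, map_sub, coeff_succ_X_mul]
  have e2 : ∀ m, coeff m A = ∑ j ∈ range (m + 1), coeff j (nab * A) := by
    intro m
    induction m with
    | zero => simp [e0]
    | succ m ih =>
      rw [Finset.sum_range_succ, ← ih, e1]
      ring
  rw [e2]
  refine (Finset.abs_sum_le_sum_abs _ _).trans ?_
  have h' := h (n + 1)
  simpa using h'

end MP18
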