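import Pool.Agent.Lib.MP_18566a_pr.T.A1

set_option autoImplicit false

namespace MP18

open Finset PowerSeries

theorem A2_aux_cc : constantCoeff nab ≠ 0 := by
  unfold nab
  simp

theorem nab_mul_inv : nab * nab⁻¹ = 1 := PowerSeries.mul_inv_cancel _ A2_aux_cc

theorem nab_psi {A : PS} : nab * psi A = A⁻¹ - 1 := by
  unfold psi
  rw [mul_comm, mul_assoc, mul_comm nab⁻¹, nab_mul_inv, mul_one]

theorem nab_kap {k : PS} : nab * kap k = k - 1 := by
  unfold kap
  rw [mul_comm, mul_assoc, mul_comm nab⁻¹, nab_mul_inv, mul_one]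

theorem mul_inv_PS {A : PS} (h : coeff 0 A ≠ 0) : A * A⁻¹ = 1 :=
  PowerSeries.mul_inv_cancel _ (by rwa [coeff_zero_eq_constantCoeff_apply] at h)

theorem mul_inv_rev_PS (A B : PS) : (A * B)⁻¹ = A⁻¹ * B⁻¹ := by
  rw [PowerSeries.mul_inv_rev, mul_comm]

/-- two right inverses of the same series agree -/
theorem inv_unique_PS {A B : PS} (h : A * B = 1) : A⁻¹ = B := by
  have hA : constantCoeff A ≠ 0 := by
    intro h0
    have h1 := congrArg constantCoeff h
    rw [map_mul, h0, zero_mul, map_one] at h1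
    exact zero_ne_one h1
  calc A⁻¹ = A⁻¹ * (A * B) := by rw [h, mul_one]
    _ = B := by rw [← mul_assoc, PowerSeries.inv_mul_cancel _ hA, one_mul]

theorem Bd_inv_one_sub {r q : ℝ} {B : PS} (hr : 0 ≤ r) (hB : Bd r B q) (hq : q < 1) :
    coeff 0 (1 - B) ≠ 0 ∧ Bd r (1 - B)⁻¹ (1 / (1 - q)) := by
  have hB0 : |coeff 0 B| ≤ q := by
    have := Bd_coeff hr hB 0
    rwa [pow_zero, mul_one] at this
  have h0 : coeff 0 (1 - B) ≠ 0 := by
    rw [map_sub]
    intro h
    have h1 : coeff 0 (1 : PS) = 1 := by simp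
    rw [h1] at h
    have h2 : coeff 0 B = 1 := by linarith
    rw [h2, abs_one] at hB0
    linarith
  refine ⟨h0, fun N => ?_⟩
  set C : PS := (1 - B)⁻¹ with hC
  have hmul : (1 - B) * C = 1 := mul_inv_PS h0
  have hCe : C = 1 + B * C := by
    have : C - B * C = 1 := by
      rw [← hmul]
      ring
    rw [← this]
    ring
  set S : ℝ := ∑ n ∈ range N, |coeff n C| * r ^ n with hS
  set C' : PS := PowerSeries.mk (fun n => if n < N then coeff n C else 0) with hC'
  have hBC' : Bd r C' S := by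
    intro M
    have h1 : ∀ n ∈ range M, |coeff n C'| * r ^ n = if n ∈ range N then |coeff n C| * r ^ n else 0 := by
      intro n _
      rw [hC', coeff_mk]
      by_cases hn : n < N
      · rw [if_pos hn, if_pos (mem_range.2 hn)]
      · rw [if_neg hn, if_neg (fun h => hn (mem_range.1 h)), abs_zero, zero_mul]
    rw [sum_congr rfl h1, ← sum_filter, hS]
    refine sum_le_sum_of_subset_of_nonneg (fun n hn => (mem_filter.1 hn).2) fun n _ _ => ?_
    positivity
  have hprod := Bd_mul hr hB hBC' N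
  have hco : ∀ n ∈ range N, coeff n (B * C') = coeff n (B * C) := by
    intro n hn
    rw [mem_range] at hn
    rw [coeff_mul, coeff_mul]
    refine sum_congr rfl fun p hp => ?_
    rw [HasAntidiagonal.mem_antidiagonal] at hp
    rw [hC', coeff_mk, if_pos (by omega)]
  rw [sum_congr rfl fun n hn => by rw [hco n hn]] at hprod
  have hone := Bd_one hr N
  have hle : S ≤ 1 + q * S := by
    calc S ≤ ∑ n ∈ range N, (|coeff n (1 : PS)| * r ^ n + |coeff n (B * C)| * r ^ n) := by
          rw [hS]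
          refine sum_le_sum fun n _ => ?_
          rw [← add_mul]
          refine mul_le_mul_of_nonneg_right ?_ (by positivity)
          calc |coeff n C| = |coeff n (1 : PS) + coeff n (B * C)| := by
                rw [← map_add, ← hCe]
            _ ≤ _ := abs_add_le _ _
      _ ≤ 1 + q * S := by
          rw [sum_add_distrib]
          linarith
  rw [le_div_iff₀ (by linarith)]
  linarith

theorem Bd_inv_add {r M μ : ℝ} {A B : PS} (hr : 0 ≤ r) (hA0 : coeff 0 A ≠ 0)
    (hA : Bd r A⁻¹ M) (hB : Bd r B μ) (h : M * μ < 1) :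
    coeff 0 (A + B) ≠ 0 ∧ Bd r (A + B)⁻¹ (M / (1 - M * μ)) := by
  have hE : Bd r (-(A⁻¹ * B)) (M * μ) := Bd_neg (Bd_mul hr hA hB)
  obtain ⟨h1, h2⟩ := Bd_inv_one_sub hr hE h
  have hAB : A + B = A * (1 - -(A⁻¹ * B)) := by
    have h3 := mul_inv_PS hA0
    calc A + B = A + 1 * B := by rw [one_mul]
      _ = A + (A * A⁻¹) * B := by rw [h3]
      _ = _ := by ring
  rw [hAB]
  constructor
  · rw [coeff_zero_eq_constantCoeff_apply, map_mul]
    rw [coeff_zero_eq_constantCoeff_apply] at h1 hA0
    exact mul_ne_zero hA0 h1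
  · rw [mul_inv_rev_PS]
    have := Bd_mul hr hA h2
    rwa [mul_one_div] at this

end MP18
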