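import Pool.Agent.Lib.MP_18566a_pr.T.A1

set_option autoImplicit false

namespace MP18

open Finset PowerSeries

theorem Adm_one {y : ℕ} : Adm 1 y := by
  refine ⟨le_rfl, ?_⟩
  rw [one_pow]
  norm_num

theorem Adm_le {r : ℝ} {y' y : ℕ} (h : Adm r y) (hy : y' ≤ y) : Adm r y' :=
  ⟨h.1, (pow_le_pow_right₀ h.1 hy).trans h.2⟩

/-- the concrete weight -/
theorem Adm_R {y : ℕ} (hy : 0 < y) : Adm (1 + 1 / (10 ^ 8 * y)) y := by
  have hy' : (0 : ℝ) < y := by exact_mod_cast hy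
  have ht : (0 : ℝ) < 1 / (10 ^ 8 * y) := by positivity
  refine ⟨by linarith, ?_⟩
  have h1 : 1 + 1 / (10 ^ 8 * (y : ℝ)) ≤ Real.exp (1 / (10 ^ 8 * y)) := by
    have := Real.add_one_le_exp (1 / (10 ^ 8 * (y : ℝ)))
    linarith
  have h2 := pow_le_pow_left₀ (by linarith) h1 y
  refine h2.trans ?_
  rw [← Real.exp_nat_mul]
  have h3 : (y : ℝ) * (1 / (10 ^ 8 * y)) = 1 / 10 ^ 8 := by
    field_simp
  rw [h3]
  have h4 : |(1 / 10 ^ 8 : ℝ)| ≤ 1 := by
    rw [abs_of_pos (by positivity)]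
    norm_num
  have h5 := Real.abs_exp_sub_one_le h4
  have h6 : |(1 / 10 ^ 8 : ℝ)| = 1 / 10 ^ 8 := abs_of_pos (by positivity)
  rw [h6] at h5
  have h7 := (le_abs_self _).trans h5
  have h8 : (2 : ℝ) * (1 / 10 ^ 8) ≤ 1 / 10 ^ 7 := by norm_num
  linarith

theorem Adm_pow10 {r : ℝ} {y n : ℕ} (h : Adm r y) (hn : n ≤ 10 * y) :
    r ^ n ≤ 1 + 1 / 10 ^ 5 := by
  have h1 : r ^ n ≤ r ^ (10 * y) := pow_le_pow_right₀ h.1 hn
  have h2 : r ^ (10 * y) = (r ^ y) ^ 10 := by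
    rw [mul_comm, pow_mul]
  have h0 : 0 ≤ r ^ y := pow_nonneg (by linarith [h.1]) y
  have h3 : (r ^ y) ^ 10 ≤ (1 + 1 / 10 ^ 7 : ℝ) ^ 10 := pow_le_pow_left₀ h0 h.2 10
  have h4 : (1 + 1 / 10 ^ 7 : ℝ) ^ 10 ≤ 1 + 1 / 10 ^ 5 := by norm_num
  rw [h2] at h1
  exact h1.trans (h3.trans h4)

theorem Bd_supp {r C : ℝ} {y : ℕ} {A : PS} (hr : Adm r y) (hA : ∀ n, 10 * y < n → coeff n A = 0)
    (h : Bd 1 A C) : Bd r A ((1 + 1 / 10 ^ 5) * C) := by
  intro N
  have h1 : ∀ n ∈ range N, |coeff n A| * r ^ n ≤ (1 + 1 / 10 ^ 5) * (|coeff n A| * 1 ^ n) := by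
    intro n _
    rw [one_pow, mul_one]
    by_cases hn : n ≤ 10 * y
    · rw [mul_comm (1 + 1 / 10 ^ 5 : ℝ)]
      exact mul_le_mul_of_nonneg_left (Adm_pow10 hr hn) (abs_nonneg _)
    · rw [hA n (not_le.1 hn), abs_zero, zero_mul, mul_zero]
  refine (Finset.sum_le_sum h1).trans ?_
  rw [← Finset.mul_sum]
  exact mul_le_mul_of_nonneg_left (h N) (by positivity)

theorem A3_lin {x : ℝ} (hx : 0 < x) (l : ℕ) : (l : ℝ) * x ≤ (1 + x) ^ l := by
  have h1 := one_add_mul_le_pow (by linarith : (-2 : ℝ) ≤ x) l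
  linarith

/-- first moment from a weighted norm -/
theorem mom1 {x C : ℝ} {A : PS} (hx : 0 < x) (h : Bd (1 + x) A C) (N : ℕ) :
    ∑ l ∈ range N, |coeff l A| * l ≤ C / x := by
  rw [le_div_iff₀ hx, Finset.sum_mul]
  refine (Finset.sum_le_sum fun l _ => ?_).trans (h N)
  rw [mul_assoc]
  exact mul_le_mul_of_nonneg_left (A3_lin hx l) (abs_nonneg _)

theorem A3_quad {x : ℝ} (hx : 0 < x) (l : ℕ) :
    1 + l * x + l * (l - 1) / 2 * x ^ 2 ≤ (1 + x) ^ l := by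
  induction l with
  | zero => norm_num
  | succ l ih =>
    have h1 : (0 : ℝ) ≤ (l : ℝ) * (l - 1) := by
      rcases Nat.eq_zero_or_pos l with h0 | h0
      · subst h0; norm_num
      · have : (1 : ℝ) ≤ l := by exact_mod_cast h0
        nlinarith
    have h2 : (1 + l * x + l * (l - 1) / 2 * x ^ 2) * (1 + x) ≤ (1 + x) ^ l * (1 + x) :=
      mul_le_mul_of_nonneg_right ih (by linarith)
    rw [pow_succ]
    refine le_trans ?_ h2
    push_cast
    have h3 : (0 : ℝ) ≤ (l : ℝ) * (l - 1) * x ^ 3 := by positivity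
    nlinarith

/-- second moment from a weighted norm -/
theorem mom2 {x C : ℝ} {A : PS} (hx : 0 < x) (hx1 : x ≤ 1) (h : Bd (1 + x) A C) (N : ℕ) :
    ∑ l ∈ range N, |coeff l A| * (l : ℝ) ^ 2 ≤ 2 * C / x ^ 2 := by
  have hx2 : 0 < x ^ 2 := by positivity
  rw [le_div_iff₀ hx2, Finset.sum_mul]
  have h1 : ∀ l ∈ range N, |coeff l A| * (l : ℝ) ^ 2 * x ^ 2 ≤ 2 * (|coeff l A| * (1 + x) ^ l) := by
    intro l _
    have h2 := A3_quad hx l
    have h3 : (l : ℝ) ^ 2 * x ^ 2 ≤ 2 * (1 + x) ^ l := by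
      have h4 : (0 : ℝ) ≤ l * x := by positivity
      have h5 : (l : ℝ) * x * x ≤ l * x := mul_le_of_le_one_right h4 hx1
      nlinarith
    calc |coeff l A| * (l : ℝ) ^ 2 * x ^ 2 = |coeff l A| * ((l : ℝ) ^ 2 * x ^ 2) := by ring
      _ ≤ |coeff l A| * (2 * (1 + x) ^ l) := mul_le_mul_of_nonneg_left h3 (abs_nonneg _)
      _ = _ := by ring
  refine (Finset.sum_le_sum h1).trans ?_
  rw [← Finset.mul_sum]
  exact mul_le_mul_of_nonneg_left (h N) (by norm_num)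

/-- tails from a weighted norm -/
theorem tail_bd {x C : ℝ} {A : PS} (hx : 0 < x) (h : Bd (1 + x) A C) {m : ℕ} (hm : 0 < m) (N : ℕ) :
    ∑ l ∈ (range N).filter (fun l => m ≤ l), |coeff l A| ≤ C / (m * x) := by
  have hm' : (0 : ℝ) < m := by exact_mod_cast hm
  rw [le_div_iff₀ (by positivity), Finset.sum_mul]
  have h1 : ∀ l ∈ (range N).filter (fun l => m ≤ l), |coeff l A| * (m * x) ≤
      |coeff l A| * (1 + x) ^ l := by
    intro l hl
    rw [Finset.mem_filter] at hl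
    refine mul_le_mul_of_nonneg_left ?_ (abs_nonneg _)
    have h2 : (m : ℝ) ≤ l := by exact_mod_cast hl.2
    exact (mul_le_mul_of_nonneg_right h2 hx.le).trans (A3_lin hx l)
  refine (Finset.sum_le_sum h1).trans ?_
  refine (Finset.sum_le_sum_of_subset_of_nonneg (Finset.filter_subset _ _) fun l _ _ => ?_).trans
    (h N)
  exact mul_nonneg (abs_nonneg _) (pow_nonneg (by linarith) l)

theorem A3_conv {s x1 : ℝ} (hs : 1 ≤ s) (hx1 : 0 < x1) (hs1 : s ≤ 1 + x1) (n : ℕ) :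
    s ^ n - 1 ≤ (s - 1) / x1 * (1 + x1) ^ n := by
  have hθ0 : 0 ≤ (s - 1) / x1 := div_nonneg (by linarith) hx1.le
  have hθ1 : (s - 1) / x1 ≤ 1 := by
    rw [div_le_one hx1]
    linarith
  have hconv := (convexOn_pow (𝕜 := ℝ) n).2 (Set.mem_Ici.2 zero_le_one)
    (Set.mem_Ici.2 (by linarith : (0 : ℝ) ≤ 1 + x1)) (by linarith : 0 ≤ 1 - (s - 1) / x1) hθ0
    (by ring)
  simp only [smul_eq_mul] at hconv
  have h1 : (1 - (s - 1) / x1) * 1 + (s - 1) / x1 * (1 + x1) = s := by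
    field_simp
    ring
  rw [h1, one_pow, mul_one] at hconv
  linarith

/-- general form: both weights -/
theorem A3_reweight {r s x1 C : ℝ} {A : PS} (hr : 1 ≤ r) (hrs : r ≤ s) (hx1 : 0 < x1)
    (hs : s ≤ 1 + x1) (h : Bd (1 + x1) A C) :
    Bd 1 (rescale s A - rescale r A) (C * ((s - 1) / x1)) := by
  intro N
  have hθ0 : 0 ≤ (s - 1) / x1 := div_nonneg (by linarith) hx1.le
  have h1 : ∀ n ∈ range N, |coeff n (rescale s A - rescale r A)| * 1 ^ n ≤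
      |coeff n A| * (1 + x1) ^ n * ((s - 1) / x1) := by
    intro n _
    rw [one_pow, mul_one, map_sub, coeff_rescale, coeff_rescale, ← sub_mul, abs_mul]
    have h2 : r ^ n ≤ s ^ n := pow_le_pow_left₀ (by linarith) hrs n
    have h3 : 1 ≤ r ^ n := one_le_pow₀ hr
    rw [abs_of_nonneg (by linarith)]
    have h4 := A3_conv (hr.trans hrs) hx1 hs n
    have h5 : s ^ n - r ^ n ≤ (s - 1) / x1 * (1 + x1) ^ n := by linarith
    calc (s ^ n - r ^ n) * |coeff n A| ≤ ((s - 1) / x1 * (1 + x1) ^ n) * |coeff n A| :=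
          mul_le_mul_of_nonneg_right h5 (abs_nonneg _)
      _ = _ := by ring
  refine (Finset.sum_le_sum h1).trans ?_
  rw [← Finset.sum_mul]
  exact mul_le_mul_of_nonneg_right (h N) hθ0

/-- change of weight: convexity of `s ↦ (1 + s)^n` -/
theorem Bd_reweight {x x1 C : ℝ} {A : PS} (hx : 0 ≤ x) (hx1 : 0 < x1) (hxx : x ≤ x1)
    (h : Bd (1 + x1) A C) : Bd 1 (rescale (1 + x) A - A) (C * (x / x1)) := by
  have h1 := A3_reweight (le_refl (1 : ℝ)) (by linarith : (1 : ℝ) ≤ 1 + x) hx1 (by linarith) h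
  have h2 : rescale (1 : ℝ) A = A := by
    rw [rescale_one]
    rfl
  rw [h2, add_sub_cancel_left] at h1
  exact h1

/-- general form: both weights -/
theorem Bd_reweight2 {r s x1 C : ℝ} {A : PS} (hr : 1 ≤ r) (hrs : r ≤ s) (hx1 : 0 < x1)
    (hs : s ≤ 1 + x1) (h : Bd (1 + x1) A C) :
    Bd 1 (rescale s A - rescale r A) (C * ((s - 1) / x1)) :=
  A3_reweight hr hrs hx1 hs h

end MP18
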