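import Pool.Agent.Lib.MP_18566a_pr.T.A1

set_option autoImplicit false

namespace MP18

open Finset PowerSeries

theorem cv_eq_coeff (A : PS) (u : ℕ → ℝ) (n : ℕ) :
    cv A u n = coeff n (A * PowerSeries.mk u) := by
  rw [PowerSeries.coeff_mul]
  simp only [PowerSeries.coeff_mk]
  rw [Finset.Nat.sum_antidiagonal_eq_sum_range_succ (fun i j => coeff i A * u j) n]
  rfl

theorem A4_mk (A : PS) (u : ℕ → ℝ) : PowerSeries.mk (fun m => cv A u m) = A * PowerSeries.mk u := by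
  ext m
  rw [PowerSeries.coeff_mk, cv_eq_coeff]

theorem A4_cum (u : ℕ → ℝ) : PowerSeries.mk (fun m => ∑ j ∈ range (m + 1), u j) =
    PowerSeries.mk u * (PowerSeries.mk 1 : PS) := by
  rw [← A4_mk]
  ext m
  rw [PowerSeries.coeff_mk, PowerSeries.coeff_mk]
  unfold cv
  apply Finset.sum_congr rfl
  intro j _
  rw [PowerSeries.coeff_mk]
  simp

theorem A4_nab_one : nab * (PowerSeries.mk 1 : PS) = 1 := by
  unfold nab
  rw [mul_comm]
  exact PowerSeries.mk_one_mul_one_sub_eq_one ℝ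

theorem A4_nab_zero (F : PS) : coeff 0 (nab * F) = coeff 0 F := by
  unfold nab
  rw [sub_mul, one_mul, map_sub]
  simp

theorem A4_nab_succ (F : PS) (n : ℕ) : coeff (n + 1) (nab * F) = coeff (n + 1) F - coeff n F := by
  unfold nab
  rw [sub_mul, one_mul, map_sub, PowerSeries.coeff_succ_X_mul]

theorem A4_dif (u : ℕ → ℝ) : PowerSeries.mk (fun m => if m = 0 then u 0 else u m - u (m - 1)) =
    nab * PowerSeries.mk u := by
  ext m
  cases m with
  | zero => rw [A4_nab_zero, PowerSeries.coeff_mk, PowerSeries.coeff_mk]; simp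
  | succ m =>
    rw [A4_nab_succ, PowerSeries.coeff_mk, PowerSeries.coeff_mk, PowerSeries.coeff_mk]
    simp

theorem cv_add_left (A B : PS) (u : ℕ → ℝ) (n : ℕ) : cv (A + B) u n = cv A u n + cv B u n := by
  rw [cv_eq_coeff, cv_eq_coeff, cv_eq_coeff, add_mul, map_add]

theorem cv_sub_left (A B : PS) (u : ℕ → ℝ) (n : ℕ) : cv (A - B) u n = cv A u n - cv B u n := by
  rw [cv_eq_coeff, cv_eq_coeff, cv_eq_coeff, sub_mul, map_sub]

theorem cv_smul_left (c : ℝ) (A : PS) (u : ℕ → ℝ) (n : ℕ) : cv (c • A) u n = c * cv A u n := by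
  rw [cv_eq_coeff, cv_eq_coeff, smul_mul_assoc, PowerSeries.coeff_smul, smul_eq_mul]

theorem cv_one_left (u : ℕ → ℝ) (n : ℕ) : cv 1 u n = u n := by
  rw [cv_eq_coeff, one_mul, PowerSeries.coeff_mk]

theorem cv_zero_left (u : ℕ → ℝ) (n : ℕ) : cv 0 u n = 0 := by
  rw [cv_eq_coeff, zero_mul, map_zero]

theorem cv_mul (A B : PS) (u : ℕ → ℝ) (n : ℕ) : cv (A * B) u n = cv A (fun m => cv B u m) n := by
  rw [cv_eq_coeff, cv_eq_coeff, A4_mk, mul_assoc]

theorem cv_add_right (A : PS) (u v : ℕ → ℝ) (n : ℕ) :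
    cv A (fun m => u m + v m) n = cv A u n + cv A v n := by
  unfold cv
  rw [← Finset.sum_add_distrib]
  exact Finset.sum_congr rfl fun j _ => by ring

theorem cv_sub_right (A : PS) (u v : ℕ → ℝ) (n : ℕ) :
    cv A (fun m => u m - v m) n = cv A u n - cv A v n := by
  unfold cv
  rw [← Finset.sum_sub_distrib]
  exact Finset.sum_congr rfl fun j _ => by ring

theorem cv_smul_right (c : ℝ) (A : PS) (u : ℕ → ℝ) (n : ℕ) :
    cv A (fun m => c * u m) n = c * cv A u n := by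
  unfold cv
  rw [Finset.mul_sum]
  exact Finset.sum_congr rfl fun j _ => by ring

theorem cv_congr_left {A B : PS} {u : ℕ → ℝ} {n : ℕ} (h : ∀ l ≤ n, coeff l A = coeff l B) :
    cv A u n = cv B u n := by
  unfold cv
  refine Finset.sum_congr rfl fun j hj => ?_
  rw [h j (Nat.lt_succ_iff.1 (Finset.mem_range.1 hj))]

theorem cv_congr_right {A : PS} {u v : ℕ → ℝ} {n : ℕ} (h : ∀ l ≤ n, u l = v l) :
    cv A u n = cv A v n := by
  unfold cv
  refine Finset.sum_congr rfl fun j _ => ?_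
  rw [h (n - j) (Nat.sub_le _ _)]

theorem cv_bound {A : PS} {C M : ℝ} {u : ℕ → ℝ} {n : ℕ} (h : Bd 1 A C)
    (hu : ∀ m ≤ n, |u m| ≤ M) : |cv A u n| ≤ C * M := by
  have hM : 0 ≤ M := (abs_nonneg _).trans (hu n le_rfl)
  have h1 := h (n + 1)
  simp only [one_pow, mul_one] at h1
  unfold cv
  calc |∑ j ∈ range (n + 1), coeff j A * u (n - j)|
      ≤ ∑ j ∈ range (n + 1), |coeff j A * u (n - j)| := Finset.abs_sum_le_sum_abs _ _
    _ ≤ ∑ j ∈ range (n + 1), |coeff j A| * M := by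
        refine Finset.sum_le_sum fun j _ => ?_
        rw [abs_mul]
        exact mul_le_mul_of_nonneg_left (hu _ (Nat.sub_le _ _)) (abs_nonneg _)
    _ = (∑ j ∈ range (n + 1), |coeff j A|) * M := by rw [Finset.sum_mul]
    _ ≤ C * M := mul_le_mul_of_nonneg_right h1 hM

theorem cv_nab_zero (u : ℕ → ℝ) : cv nab u 0 = u 0 := by
  rw [cv_eq_coeff, A4_nab_zero, PowerSeries.coeff_mk]

theorem cv_nab_succ (u : ℕ → ℝ) (n : ℕ) : cv nab u (n + 1) = u (n + 1) - u n := by
  rw [cv_eq_coeff, A4_nab_succ, PowerSeries.coeff_mk, PowerSeries.coeff_mk]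

/-- cumulative sums commute with convolution -/
theorem cv_cum (A : PS) (u : ℕ → ℝ) (n : ℕ) :
    ∑ j ∈ range (n + 1), cv A u j = cv A (fun m => ∑ j ∈ range (m + 1), u j) n := by
  rw [cv_eq_coeff, A4_cum, ← mul_assoc, ← A4_mk A u, ← A4_cum, PowerSeries.coeff_mk]

theorem cv_rescale (ρ : ℝ) (A : PS) (u : ℕ → ℝ) (n : ℕ) :
    cv (rescale ρ A) (fun m => ρ ^ m * u m) n = ρ ^ n * cv A u n := by
  unfold cv
  rw [Finset.mul_sum]
  refine Finset.sum_congr rfl fun j hj => ?_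
  have hj' : j ≤ n := Nat.lt_succ_iff.1 (Finset.mem_range.1 hj)
  rw [PowerSeries.coeff_rescale]
  have h1 : ρ ^ n = ρ ^ j * ρ ^ (n - j) := by
    rw [← pow_add, Nat.add_sub_cancel' hj']
  rw [h1]
  ring

/-- difference of a convolution -/
theorem cv_diff (A : PS) (u : ℕ → ℝ) (n : ℕ) :
    cv A u (n + 1) - cv A u n = cv A (fun m => if m = 0 then u 0 else u m - u (m - 1)) (n + 1) := by
  rw [cv_eq_coeff A u, cv_eq_coeff A u, ← A4_nab_succ, cv_eq_coeff, A4_dif]
  congr 1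
  ring

/-- a series with small difference sees only the cumulative sums -/
theorem cv_nab_cum (A : PS) (u : ℕ → ℝ) (n : ℕ) :
    cv A u n = cv (nab * A) (fun m => ∑ j ∈ range (m + 1), u j) n := by
  rw [cv_eq_coeff, cv_eq_coeff, A4_cum]
  congr 1
  calc A * PowerSeries.mk u = A * PowerSeries.mk u * (nab * (PowerSeries.mk 1 : PS)) := by
        rw [A4_nab_one, mul_one]
    _ = nab * A * (PowerSeries.mk u * (PowerSeries.mk 1 : PS)) := by ring

end MP18
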