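import Pool.Agent.Lib.MP_18566a_pr.T.A1
import Pool.Agent.Lib.MP_18566a_pr.T.A2

set_option autoImplicit false

namespace MP18

open Finset PowerSeries

private theorem A5_term {A : PS} {z : ℂ} (hz : ‖z‖ ≤ 1) (n : ℕ) :
    ‖((coeff n A : ℝ) : ℂ) * z ^ n‖ ≤ |coeff n A| * 1 ^ n := by
  rw [norm_mul, norm_pow, Complex.norm_real, Real.norm_eq_abs, one_pow]
  exact mul_le_mul_of_nonneg_left (pow_le_one₀ (norm_nonneg _) hz) (abs_nonneg _)

theorem ev_summable {A : PS} {C : ℝ} {z : ℂ} (h : Bd 1 A C) (hz : ‖z‖ ≤ 1) :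
    Summable (fun n => ‖((coeff n A : ℝ) : ℂ) * z ^ n‖) := by
  refine summable_of_sum_range_le (c := C) (fun n => norm_nonneg _) fun N => ?_
  exact le_trans (Finset.sum_le_sum fun n _ => A5_term hz n) (h N)

theorem ev_norm {A : PS} {C : ℝ} {z : ℂ} (h : Bd 1 A C) (hz : ‖z‖ ≤ 1) : ‖ev A z‖ ≤ C := by
  unfold ev
  refine le_trans (norm_tsum_le_tsum_norm (ev_summable h hz)) ?_
  refine Real.tsum_le_of_sum_range_le (fun n => norm_nonneg _) fun N => ?_
  exact le_trans (Finset.sum_le_sum fun n _ => A5_term hz n) (h N)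

theorem ev_one (z : ℂ) : ev 1 z = 1 := by
  unfold ev
  rw [tsum_eq_single 0]
  · simp
  · intro n hn
    rw [coeff_one, if_neg hn]
    simp

theorem ev_zero (z : ℂ) : ev 0 z = 0 := by
  unfold ev
  simp

theorem ev_X (z : ℂ) : ev X z = z := by
  unfold ev
  rw [tsum_eq_single 1]
  · simp
  · intro n hn
    rw [coeff_X, if_neg hn]
    simp

theorem ev_Xpow (n : ℕ) (z : ℂ) : ev (X ^ n) z = z ^ n := by
  unfold ev
  rw [tsum_eq_single n]
  · rw [coeff_X_pow, if_pos rfl]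
    simp
  · intro k hk
    rw [coeff_X_pow, if_neg hk]
    simp

theorem ev_nab (z : ℂ) : ev nab z = 1 - z := by
  unfold ev nab
  rw [tsum_eq_sum (s := range 2)]
  · rw [Finset.sum_range_succ, Finset.sum_range_one]
    rw [map_sub, map_sub, coeff_one, coeff_one, coeff_X, coeff_X]
    norm_num
    ring
  · intro n hn
    rw [Finset.mem_range, not_lt] at hn
    rw [map_sub, coeff_one, coeff_X, if_neg (by omega), if_neg (by omega)]
    simp

theorem ev_add {A B : PS} {C D : ℝ} {z : ℂ} (hA : Bd 1 A C) (hB : Bd 1 B D) (hz : ‖z‖ ≤ 1) :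
    ev (A + B) z = ev A z + ev B z := by
  unfold ev
  rw [← Summable.tsum_add (ev_summable hA hz).of_norm (ev_summable hB hz).of_norm]
  refine tsum_congr fun n => ?_
  rw [map_add]
  push_cast
  ring

theorem ev_sub {A B : PS} {C D : ℝ} {z : ℂ} (hA : Bd 1 A C) (hB : Bd 1 B D) (hz : ‖z‖ ≤ 1) :
    ev (A - B) z = ev A z - ev B z := by
  unfold ev
  rw [← Summable.tsum_sub (ev_summable hA hz).of_norm (ev_summable hB hz).of_norm]
  refine tsum_congr fun n => ?_
  rw [map_sub]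
  push_cast
  ring

theorem ev_smul (c : ℝ) (A : PS) (z : ℂ) : ev (c • A) z = c * ev A z := by
  unfold ev
  rw [← tsum_mul_left]
  refine tsum_congr fun n => ?_
  rw [map_smul, smul_eq_mul]
  push_cast
  ring

theorem ev_mul {A B : PS} {C D : ℝ} {z : ℂ} (hA : Bd 1 A C) (hB : Bd 1 B D) (hz : ‖z‖ ≤ 1) :
    ev (A * B) z = ev A z * ev B z := by
  unfold ev
  rw [tsum_mul_tsum_eq_tsum_sum_antidiagonal_of_summable_norm (ev_summable hA hz)
    (ev_summable hB hz)]
  refine tsum_congr fun n => ?_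
  rw [coeff_mul, Complex.ofReal_sum, Finset.sum_mul]
  refine Finset.sum_congr rfl fun p hp => ?_
  rw [Finset.HasAntidiagonal.mem_antidiagonal] at hp
  rw [← hp, pow_add]
  push_cast
  ring

theorem ev_pow {A : PS} {C : ℝ} {z : ℂ} (hA : Bd 1 A C) (hz : ‖z‖ ≤ 1) (k : ℕ) :
    ev (A ^ k) z = ev A z ^ k := by
  induction k with
  | zero => rw [pow_zero, pow_zero, ev_one]
  | succ k ih => rw [pow_succ, pow_succ, ev_mul (Bd_pow zero_le_one hA k) hA hz, ih]

theorem ev_inv {A : PS} {C D : ℝ} {z : ℂ} (h0 : coeff 0 A ≠ 0) (hA : Bd 1 A C)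
    (hB : Bd 1 A⁻¹ D) (hz : ‖z‖ ≤ 1) : ev A z ≠ 0 ∧ ev A⁻¹ z = (ev A z)⁻¹ := by
  have h := ev_mul hA hB hz
  rw [mul_inv_PS h0, ev_one] at h
  have h1 : ev A z ≠ 0 := left_ne_zero_of_mul_eq_one h.symm
  exact ⟨h1, eq_inv_of_mul_eq_one_right h.symm⟩

theorem ev_Cpl_one {A : PS} {y : ℕ} {m : ℝ} (h : Cpl A y m) : ev A 1 = m := by
  unfold ev
  rw [tsum_eq_sum (s := range y)]
  · rw [← h.2, Complex.ofReal_sum]
    refine Finset.sum_congr rfl fun n _ => ?_
    rw [one_pow, mul_one]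
  · intro n hn
    rw [Finset.mem_range, not_lt] at hn
    rw [h.1 n hn]
    simp

theorem ev_conj (A : PS) (z : ℂ) : ev A ((starRingEnd ℂ) z) = (starRingEnd ℂ) (ev A z) := by
  unfold ev
  rw [Complex.conj_tsum]
  refine tsum_congr fun n => ?_
  rw [map_mul, Complex.conj_ofReal, map_pow]

end MP18
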