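import Pool.Agent.Lib.MP_18566a_pr.T.A4
import Pool.Agent.Lib.MP_18566a_pr.T.A5

set_option autoImplicit false

namespace MP18

open Finset PowerSeries

/-- orthogonality of the characters of the cyclic group -/
theorem B1_aux1 {M : ℕ} {ζ : ℂ} (hζ : IsPrimitiveRoot ζ M) (hn : ‖ζ‖ = 1) {p n : ℕ} (hp : p < M)
    (hnM : n < M) :
    ∑ k ∈ range M, ((ζ ^ k) ^ p * ((starRingEnd ℂ) (ζ ^ k)) ^ n) = if p = n then (M : ℂ) else 0 := by
  have hζ0 : ζ ≠ 0 := by
    intro h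
    rw [h, norm_zero] at hn
    norm_num at hn
  have hconj : (starRingEnd ℂ) ζ = ζ⁻¹ := (Complex.inv_eq_conj hn).symm
  have e : ∀ k ∈ range M, ((ζ ^ k) ^ p * ((starRingEnd ℂ) (ζ ^ k)) ^ n) = (ζ ^ p * (ζ⁻¹) ^ n) ^ k := by
    intro k _
    rw [map_pow, hconj, mul_pow, ← pow_mul, ← pow_mul, ← pow_mul, ← pow_mul, mul_comm k p, mul_comm k n]
  rw [Finset.sum_congr rfl e]
  by_cases h : p = n
  · rw [if_pos h, h]
    have : ζ ^ n * (ζ⁻¹) ^ n = 1 := by
      rw [← mul_pow, mul_inv_cancel₀ hζ0, one_pow]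
    simp only [this, one_pow, sum_const, card_range, nsmul_eq_mul, mul_one]
  · rw [if_neg h]
    have hw : ζ ^ p * (ζ⁻¹) ^ n ≠ 1 := by
      intro h1
      apply h
      apply hζ.pow_inj hp hnM
      rw [inv_pow] at h1
      exact (mul_inv_eq_one₀ (pow_ne_zero n hζ0)).1 h1
    have hwM : (ζ ^ p * (ζ⁻¹) ^ n) ^ M = 1 := by
      rw [mul_pow, ← pow_mul, ← pow_mul, mul_comm p M, mul_comm n M, pow_mul, pow_mul, hζ.pow_eq_one, inv_pow,
        hζ.pow_eq_one, inv_one, one_pow, one_pow, mul_one]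
    rw [geom_sum_eq hw, hwM, sub_self, zero_div]

/-- the finite convolution as a double sum -/
theorem B1_aux2 {L N : ℕ} (hLN : N ≤ L) (c u : ℕ → ℝ) (n : ℕ) (hn : n < N) :
    ∑ l ∈ range L, ∑ m ∈ range N, (if l + m = n then c l * u m else 0) =
      ∑ j ∈ range (n + 1), c j * u (n - j) := by
  have h1 : ∀ l ∈ range L, ∑ m ∈ range N, (if l + m = n then c l * u m else 0) =
      if l < n + 1 then c l * u (n - l) else 0 := by
    intro l _
    by_cases hl : l < n + 1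
    · rw [if_pos hl, Finset.sum_eq_single (n - l)]
      · rw [if_pos (by omega)]
      · intro m _ hm
        rw [if_neg (by omega)]
      · intro h
        exact absurd (Finset.mem_range.2 (by omega)) h
    · rw [if_neg hl]
      apply Finset.sum_eq_zero
      intro m _
      rw [if_neg (by omega)]
  rw [Finset.sum_congr rfl h1, ← Finset.sum_filter]
  apply Finset.sum_congr
  · ext l
    simp only [Finset.mem_filter, Finset.mem_range]
    omega
  · intro l _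
    rfl

/-- the mean over the roots of unity -/
theorem B1_aux3 {M L N : ℕ} (hLN : N ≤ L) (hM : L + N ≤ M) {ζ : ℂ} (hζ : IsPrimitiveRoot ζ M)
    (hn : ‖ζ‖ = 1) (c u : ℕ → ℝ) :
    ∑ k ∈ range M, ((∑ l ∈ range L, (c l : ℂ) * (ζ ^ k) ^ l) *
      ((∑ m ∈ range N, (u m : ℂ) * (ζ ^ k) ^ m) * (starRingEnd ℂ) (∑ m ∈ range N, (u m : ℂ) * (ζ ^ k) ^ m))) =
      (M : ℂ) * ((∑ n ∈ range N, u n * ∑ j ∈ range (n + 1), c j * u (n - j) : ℝ) : ℂ) := by
  have e1 : ∀ k ∈ range M, ((∑ l ∈ range L, (c l : ℂ) * (ζ ^ k) ^ l) *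
      ((∑ m ∈ range N, (u m : ℂ) * (ζ ^ k) ^ m) * (starRingEnd ℂ) (∑ m ∈ range N, (u m : ℂ) * (ζ ^ k) ^ m))) =
      ∑ n ∈ range N, ∑ l ∈ range L, ∑ m ∈ range N,
        ((u n : ℂ) * ((c l : ℂ) * (u m : ℂ))) * ((ζ ^ k) ^ (l + m) * ((starRingEnd ℂ) (ζ ^ k)) ^ n) := by
    intro k _
    have e2 : (starRingEnd ℂ) (∑ m ∈ range N, (u m : ℂ) * (ζ ^ k) ^ m) =
        ∑ n ∈ range N, (u n : ℂ) * ((starRingEnd ℂ) (ζ ^ k)) ^ n := by
      rw [map_sum]
      apply Finset.sum_congr rfl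
      intro n _
      rw [map_mul, map_pow, Complex.conj_ofReal]
    rw [e2, ← mul_assoc, Finset.mul_sum]
    apply Finset.sum_congr rfl
    intro n _
    rw [Finset.sum_mul_sum, Finset.sum_mul]
    apply Finset.sum_congr rfl
    intro l _
    rw [Finset.sum_mul]
    apply Finset.sum_congr rfl
    intro m _
    rw [pow_add]
    ring
  rw [Finset.sum_congr rfl e1, Finset.sum_comm]
  have e3 : ∀ n ∈ range N, ∑ k ∈ range M, ∑ l ∈ range L, ∑ m ∈ range N,
        ((u n : ℂ) * ((c l : ℂ) * (u m : ℂ))) * ((ζ ^ k) ^ (l + m) * ((starRingEnd ℂ) (ζ ^ k)) ^ n) =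
      (M : ℂ) * ((u n * ∑ j ∈ range (n + 1), c j * u (n - j) : ℝ) : ℂ) := by
    intro n hnN
    rw [Finset.sum_comm]
    have e4 : ∀ l ∈ range L, ∑ k ∈ range M, ∑ m ∈ range N,
        ((u n : ℂ) * ((c l : ℂ) * (u m : ℂ))) * ((ζ ^ k) ^ (l + m) * ((starRingEnd ℂ) (ζ ^ k)) ^ n) =
        (M : ℂ) * (u n : ℂ) * ((∑ m ∈ range N, (if l + m = n then c l * u m else 0) : ℝ) : ℂ) := by
      intro l hl
      rw [Finset.sum_comm, Complex.ofReal_sum, Finset.mul_sum]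
      apply Finset.sum_congr rfl
      intro m hm
      rw [← Finset.mul_sum, B1_aux1 hζ hn (by
        have := Finset.mem_range.1 hl
        have := Finset.mem_range.1 hm
        omega) (by
        have := Finset.mem_range.1 hnN
        omega)]
      split_ifs with h
      · push_cast
        ring
      · simp
    rw [Finset.sum_congr rfl e4, ← Finset.mul_sum, ← Complex.ofReal_sum, B1_aux2 hLN c u n (Finset.mem_range.1 hnN)]
    push_cast
    ring
  rw [Finset.sum_congr rfl e3, ← Finset.mul_sum, ← Complex.ofReal_sum]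

/-- the tail of an absolutely convergent series -/
theorem B1_aux4 {κ : PS} {C : ℝ} (hκ : Bd 1 κ C) : Summable (fun n => |coeff n κ|) := by
  apply summable_of_sum_range_le (c := C)
  · intro n
    exact abs_nonneg _
  · intro n
    have := hκ n
    simpa using this

theorem B1_aux5 {κ : PS} {C : ℝ} (hκ : Bd 1 κ C) (L : ℕ) {z : ℂ} (hz : ‖z‖ = 1) :
    (∑ l ∈ range L, ((coeff l κ : ℝ) : ℂ) * z ^ l).re ≤ (ev κ z).re + ∑' k, |coeff (k + L) κ| := by
  have hs := B1_aux4 hκ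
  have hnorm : ∀ n, ‖((coeff n κ : ℝ) : ℂ) * z ^ n‖ = |coeff n κ| := by
    intro n
    rw [norm_mul, norm_pow, hz, one_pow, mul_one, Complex.norm_real, Real.norm_eq_abs]
  have hs1 : Summable (fun n => ((coeff n κ : ℝ) : ℂ) * z ^ n) := by
    apply Summable.of_norm
    simp only [hnorm]
    exact hs
  have h1 : ∑ l ∈ range L, ((coeff l κ : ℝ) : ℂ) * z ^ l + ∑' k, ((coeff (k + L) κ : ℝ) : ℂ) * z ^ (k + L) =
      ev κ z := by
    unfold ev
    exact hs1.sum_add_tsum_nat_add L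
  have hs2 : Summable (fun k => |coeff (k + L) κ|) := (summable_nat_add_iff L).2 hs
  have h2 : ‖∑' k, ((coeff (k + L) κ : ℝ) : ℂ) * z ^ (k + L)‖ ≤ ∑' k, |coeff (k + L) κ| := by
    have h3 : Summable (fun k => ‖((coeff (k + L) κ : ℝ) : ℂ) * z ^ (k + L)‖) := by
      simp only [hnorm]
      exact hs2
    refine (norm_tsum_le_tsum_norm h3).trans ?_
    simp only [hnorm]
    exact le_rfl
  have h4 : (∑ l ∈ range L, ((coeff l κ : ℝ) : ℂ) * z ^ l).re =
      (ev κ z).re - (∑' k, ((coeff (k + L) κ : ℝ) : ℂ) * z ^ (k + L)).re := by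
    rw [← h1, Complex.add_re]
    ring
  have h5 := (Complex.abs_re_le_norm (∑' k, ((coeff (k + L) κ : ℝ) : ℂ) * z ^ (k + L))).trans h2
  have h6 := (abs_le.1 h5).1
  rw [h4]
  linarith

theorem B1_aux6 {κ : PS} {C γ : ℝ} (hκ : Bd 1 κ C)
    (h : ∀ z : ℂ, ‖z‖ = 1 → (ev κ z).re ≤ γ) (N : ℕ) (u : ℕ → ℝ) (L : ℕ) (hL : N + 1 ≤ L) :
    ∑ n ∈ range N, u n * cv κ u n ≤ (γ + ∑' k, |coeff (k + L) κ|) * ∑ n ∈ range N, (u n) ^ 2 := by
  set M := L + N with hM
  have hM0 : M ≠ 0 := by omega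
  set ζ : ℂ := Complex.exp (2 * Real.pi * Complex.I / M) with hζd
  have hζ : IsPrimitiveRoot ζ M := Complex.isPrimitiveRoot_exp M hM0
  have hn : ‖ζ‖ = 1 := hζ.norm'_eq_one hM0
  have hk : ∀ k : ℕ, ‖ζ ^ k‖ = 1 := fun k => by rw [norm_pow, hn, one_pow]
  set UU : ℕ → ℂ := fun k => ∑ m ∈ range N, (u m : ℂ) * (ζ ^ k) ^ m with hUU
  have hre : ∀ (x y : ℂ), (x * (y * (starRingEnd ℂ) y)).re = x.re * ‖y‖ ^ 2 := by
    intro x y
    rw [Complex.mul_conj, Complex.normSq_eq_norm_sq]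
    rw [Complex.re_mul_ofReal]
  have h1 := congrArg Complex.re (B1_aux3 (by omega : N ≤ L) (le_refl M) hζ hn (fun l => coeff l κ) u)
  have h2 := congrArg Complex.re (B1_aux3 (by omega : N ≤ L) (le_refl M) hζ hn (fun l => if l = 0 then 1 else 0) u)
  rw [Complex.re_sum, ← Complex.ofReal_natCast, ← Complex.ofReal_mul, Complex.ofReal_re] at h1 h2
  simp only [hre] at h1 h2
  have h3 : ∀ k ∈ range M, (∑ l ∈ range L, (((if l = 0 then 1 else 0 : ℝ)) : ℂ) * (ζ ^ k) ^ l).re *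
      ‖∑ m ∈ range N, (u m : ℂ) * (ζ ^ k) ^ m‖ ^ 2 = ‖∑ m ∈ range N, (u m : ℂ) * (ζ ^ k) ^ m‖ ^ 2 := by
    intro k _
    rw [Finset.sum_eq_single 0]
    · simp
    · intro l _ hl
      simp [hl]
    · intro h0
      exact absurd (Finset.mem_range.2 (by omega)) h0
  rw [Finset.sum_congr rfl h3] at h2
  have h4 : ∀ n ∈ range N, u n * ∑ j ∈ range (n + 1), (if j = 0 then 1 else 0 : ℝ) * u (n - j) = u n ^ 2 := by
    intro n _
    rw [Finset.sum_eq_single 0]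
    · simp [pow_two]
    · intro l _ hl
      simp [hl]
    · intro h0
      exact absurd (Finset.mem_range.2 (by omega)) h0
  rw [Finset.sum_congr rfl h4] at h2
  have h5 : (M : ℝ) * ∑ n ∈ range N, u n * cv κ u n ≤
      (M : ℝ) * ((γ + ∑' k, |coeff (k + L) κ|) * ∑ n ∈ range N, (u n) ^ 2) := by
    have h6 : (M : ℝ) * ∑ n ∈ range N, u n * cv κ u n =
        ∑ k ∈ range M, (∑ l ∈ range L, ((coeff l κ : ℝ) : ℂ) * (ζ ^ k) ^ l).re *
          ‖∑ m ∈ range N, (u m : ℂ) * (ζ ^ k) ^ m‖ ^ 2 := by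
      rw [h1]
      rfl
    rw [h6]
    have h7 : (M : ℝ) * ((γ + ∑' k, |coeff (k + L) κ|) * ∑ n ∈ range N, (u n) ^ 2) =
        ∑ k ∈ range M, (γ + ∑' k, |coeff (k + L) κ|) * ‖∑ m ∈ range N, (u m : ℂ) * (ζ ^ k) ^ m‖ ^ 2 := by
      rw [← Finset.mul_sum, h2]
      ring
    rw [h7]
    apply Finset.sum_le_sum
    intro k _
    apply mul_le_mul_of_nonneg_right _ (by positivity)
    have h8 := B1_aux5 hκ L (hk k)
    have h9 := h (ζ ^ k) (hk k)
    linarith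
  exact le_of_mul_le_mul_left h5 (by positivity)

/-- Parseval -/
theorem EN_of_PR {κ : PS} {C γ : ℝ} (hκ : Bd 1 κ C)
    (h : ∀ z : ℂ, ‖z‖ = 1 → (ev κ z).re ≤ γ) : EN κ γ := by
  intro N u
  have h1 : Filter.Tendsto (fun L : ℕ => (γ + ∑' k, |coeff (k + L) κ|) * ∑ n ∈ range N, (u n) ^ 2) Filter.atTop
      (nhds ((γ + 0) * ∑ n ∈ range N, (u n) ^ 2)) :=
    (tendsto_const_nhds.add (tendsto_sum_nat_add (fun k => |coeff k κ|))).mul_const _
  rw [add_zero] at h1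
  refine ge_of_tendsto h1 ?_
  filter_upwards [Filter.eventually_ge_atTop (N + 1)] with L hL
  exact B1_aux6 hκ h N u L hL

end MP18
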