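import Pool.Agent.Lib.MP_18566a_pr.T.A4

set_option autoImplicit false

namespace MP18

open Finset PowerSeries

private theorem B2_aux1 (N : ℕ) (D : ℕ → ℝ) (u : ℕ → ℝ) :
    ∑ n ∈ range N, u n * ∑ j ∈ range (n + 1), D j * u (n - j)
      ≤ (∑ j ∈ range N, |D j|) * ∑ n ∈ range N, (u n) ^ 2 := by
  have h1 : ∑ n ∈ range N, u n * ∑ j ∈ range (n + 1), D j * u (n - j)
      = ∑ n ∈ range N, ∑ j ∈ range N, if j ≤ n then D j * (u n * u (n - j)) else 0 := by
    apply Finset.sum_congr rfl
    intro n hn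
    rw [Finset.mul_sum, ← Finset.sum_filter]
    apply Finset.sum_congr
    · ext j
      rw [Finset.mem_filter, Finset.mem_range, Finset.mem_range] at *
      omega
    · intro j _
      ring
  rw [h1, Finset.sum_comm, Finset.sum_mul]
  apply Finset.sum_le_sum
  intro j _
  have h2 : ∀ n, (if j ≤ n then D j * (u n * u (n - j)) else 0)
      ≤ |D j| * (1 / 2 * (u n) ^ 2 + 1 / 2 * (if j ≤ n then (u (n - j)) ^ 2 else 0)) := by
    intro n
    split_ifs with h
    · calc D j * (u n * u (n - j)) ≤ |D j * (u n * u (n - j))| := le_abs_self _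
        _ = |D j| * |u n * u (n - j)| := abs_mul _ _
        _ ≤ |D j| * (1 / 2 * (u n) ^ 2 + 1 / 2 * (u (n - j)) ^ 2) := by
            apply mul_le_mul_of_nonneg_left _ (abs_nonneg _)
            rw [abs_le]
            constructor
            · nlinarith [sq_nonneg (u n + u (n - j))]
            · nlinarith [sq_nonneg (u n - u (n - j))]
    · positivity
  calc ∑ n ∈ range N, (if j ≤ n then D j * (u n * u (n - j)) else 0)
      ≤ ∑ n ∈ range N,
        |D j| * (1 / 2 * (u n) ^ 2 + 1 / 2 * (if j ≤ n then (u (n - j)) ^ 2 else 0)) :=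
        Finset.sum_le_sum fun n _ => h2 n
    _ = |D j| * (1 / 2 * ∑ n ∈ range N, (u n) ^ 2
        + 1 / 2 * ∑ n ∈ range N, (if j ≤ n then (u (n - j)) ^ 2 else 0)) := by
        rw [← Finset.mul_sum, Finset.sum_add_distrib, ← Finset.mul_sum, ← Finset.mul_sum]
    _ ≤ |D j| * (1 / 2 * ∑ n ∈ range N, (u n) ^ 2 + 1 / 2 * ∑ n ∈ range N, (u n) ^ 2) := by
        apply mul_le_mul_of_nonneg_left _ (abs_nonneg _)
        have h3 : ∑ n ∈ range N, (if j ≤ n then (u (n - j)) ^ 2 else 0)
            ≤ ∑ n ∈ range N, (u n) ^ 2 := by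
          rw [← Finset.sum_filter]
          have h4 : ∑ n ∈ (range N).filter (fun n => j ≤ n), (u (n - j)) ^ 2
              = ∑ m ∈ ((range N).filter (fun n => j ≤ n)).image (fun n => n - j), (u m) ^ 2 := by
            rw [Finset.sum_image]
            intro a ha b hb hab
            simp only [Finset.coe_filter, Finset.mem_range, Set.mem_ofPred_eq] at ha hb hab
            omega
          rw [h4]
          apply Finset.sum_le_sum_of_subset_of_nonneg
          · intro m hm
            rw [Finset.mem_image] at hm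
            obtain ⟨n, hn, rfl⟩ := hm
            rw [Finset.mem_filter, Finset.mem_range] at hn
            rw [Finset.mem_range]
            omega
          · intro _ _ _
            positivity
        linarith
    _ = |D j| * ∑ n ∈ range N, (u n) ^ 2 := by ring

theorem EN_perturb {κ Δ : PS} {γ μ : ℝ} (h : EN κ γ) (hΔ : Bd 1 Δ μ) : EN (κ + Δ) (γ + μ) := by
  intro N u
  have h1 := h N u
  have h2 := B2_aux1 N (fun j => coeff j Δ) u
  have h3 : ∑ j ∈ range N, |coeff j Δ| ≤ μ := by
    have := hΔ N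
    simpa using this
  have h4 : (0 : ℝ) ≤ ∑ n ∈ range N, (u n) ^ 2 := Finset.sum_nonneg fun n _ => by positivity
  have h5 := mul_le_mul_of_nonneg_right h3 h4
  have h6 : ∑ n ∈ range N, u n * cv (κ + Δ) u n
      = ∑ n ∈ range N, u n * cv κ u n
        + ∑ n ∈ range N, u n * ∑ j ∈ range (n + 1), coeff j Δ * u (n - j) := by
    rw [← Finset.sum_add_distrib]
    apply Finset.sum_congr rfl
    intro n _
    rw [cv_add_left, mul_add]
    rfl
  rw [h6]
  calc _ ≤ γ * ∑ n ∈ range N, (u n) ^ 2 + μ * ∑ n ∈ range N, (u n) ^ 2 :=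
        add_le_add h1 (le_trans h2 h5)
    _ = _ := by ring

theorem EN_smul {κ : PS} {γ t : ℝ} (h : EN κ γ) (ht : 0 ≤ t) : EN (t • κ) (t * γ) := by
  intro N u
  have h1 := mul_le_mul_of_nonneg_left (h N u) ht
  calc ∑ n ∈ range N, u n * cv (t • κ) u n = t * ∑ n ∈ range N, u n * cv κ u n := by
        rw [Finset.mul_sum]
        apply Finset.sum_congr rfl
        intro n _
        rw [cv_smul_left]
        ring
    _ ≤ t * (γ * ∑ n ∈ range N, (u n) ^ 2) := h1
    _ = _ := by ring

theorem EN_mono {κ : PS} {γ γ' : ℝ} (h : EN κ γ) (hh : γ ≤ γ') : EN κ γ' := by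
  intro N u
  exact le_trans (h N u) (mul_le_mul_of_nonneg_right hh
    (Finset.sum_nonneg fun n _ => by positivity))

private theorem B2_max (N : ℕ) (hN : 0 < N) (u : ℕ → ℝ) :
    ∃ m < N, ∀ n < N, |u n| ≤ |u m| := by
  obtain ⟨m, hm, h⟩ := Finset.exists_max_image (range N) (fun n => |u n|)
    ⟨0, Finset.mem_range.2 hN⟩
  exact ⟨m, Finset.mem_range.1 hm, fun n hn => h n (Finset.mem_range.2 hn)⟩

theorem SP_of_norm {κ : PS} {q c : ℝ} (h : Bd 1 κ q) (hq : q < 2 * c) :
    SP κ c (1 / (2 * c - q)) := by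
  intro N cf u g G hc he hg n hn
  obtain ⟨m, hm, hmax⟩ := B2_max N (by omega) u
  have hq0 : 0 ≤ q := Bd_nonneg h
  have h1 : |cv κ u m| ≤ q * |u m| :=
    cv_bound h (fun k hk => hmax k (by omega))
  have h2 := he m hm
  have h3 : |2 * cf m * u m| ≤ G + q * |u m| := by
    have : 2 * cf m * u m = g m + cv κ u m := by linarith
    rw [this]
    exact le_trans (abs_add_le _ _) (add_le_add (hg m hm) h1)
  rw [abs_mul, abs_mul, abs_two] at h3
  have h4 : c ≤ |cf m| := le_trans (hc m hm) (le_abs_self _)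
  have h5 : 2 * c * |u m| ≤ 2 * |cf m| * |u m| := by
    apply mul_le_mul_of_nonneg_right _ (abs_nonneg _)
    linarith
  have h6 : (2 * c - q) * |u m| ≤ G := by linarith
  have h7 : |u m| ≤ 1 / (2 * c - q) * G := by
    rw [one_div, ← div_eq_inv_mul, le_div_iff₀ (by linarith)]
    linarith
  exact le_trans (hmax n hn) h7

theorem SP_mono {κ : PS} {c c' A A' : ℝ} (h : SP κ c A) (hc : c ≤ c') (hA : A ≤ A') :
    SP κ c' A' := by
  intro N cf u g G hc' he hg n hn
  have hG : 0 ≤ G := le_trans (abs_nonneg _) (hg n hn)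
  exact le_trans (h N cf u g G (fun k hk => le_trans hc (hc' k hk)) he hg n hn)
    (mul_le_mul_of_nonneg_right hA hG)

theorem SP_perturb {κ Δ : PS} {c A μ : ℝ} (h : SP κ c A) (hA : 0 ≤ A) (hΔ : Bd 1 Δ μ)
    (hμ : A * μ ≤ 1 / 2) : SP (κ + Δ) c (2 * A) := by
  intro N cf u g G hc he hg n hn
  obtain ⟨m, hm, hmax⟩ := B2_max N (by omega) u
  have h1 : ∀ k < N, |g k + cv Δ u k| ≤ G + μ * |u m| := by
    intro k hk
    refine le_trans (abs_add_le _ _) (add_le_add (hg k hk) ?_)
    exact cv_bound hΔ (fun l hl => hmax l (by omega))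
  have h2 : ∀ k < N, 2 * cf k * u k - cv κ u k = g k + cv Δ u k := by
    intro k hk
    have := he k hk
    rw [cv_add_left] at this
    linarith
  have h3 := h N cf u (fun k => g k + cv Δ u k) (G + μ * |u m|) hc h2 h1 m hm
  have h4 : A * μ * |u m| ≤ 1 / 2 * |u m| := mul_le_mul_of_nonneg_right hμ (abs_nonneg _)
  have h5 : |u m| ≤ 2 * A * G := by nlinarith
  exact le_trans (hmax n hn) h5

end MP18
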