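import Pool.Agent.Lib.MP_18566a_pr.T.A4

set_option autoImplicit false

namespace MP18

open Finset PowerSeries

/-- the kernel matters only below the length of the window -/
theorem SP_window {κ κ' : PS} {c A : ℝ} (h : SP κ c A) {N : ℕ}
    (hκ : ∀ l < N, coeff l κ' = coeff l κ) {cf u g : ℕ → ℝ} {G : ℝ}
    (hc : ∀ n < N, c ≤ cf n) (he : ∀ n < N, 2 * cf n * u n - cv κ' u n = g n)
    (hg : ∀ n < N, |g n| ≤ G) : ∀ n < N, |u n| ≤ A * G := by
  refine h N cf u g G hc (fun n hn => ?_) hg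
  rw [← he n hn, cv_congr_left (fun l hl => hκ l (lt_of_le_of_lt hl hn))]

/-- forward windows `[n1, n2)` -/
theorem SP_forward {κ : PS} {c A : ℝ} (h : SP κ c A) {n1 n2 : ℕ} {cf u g : ℕ → ℝ} {G : ℝ}
    (hc : ∀ n, n1 ≤ n → n < n2 → c ≤ cf n)
    (he : ∀ n, n1 ≤ n → n < n2 →
      2 * cf n * u n - ∑ l ∈ range (n - n1 + 1), coeff l κ * u (n - l) = g n)
    (hg : ∀ n, n1 ≤ n → n < n2 → |g n| ≤ G) : ∀ n, n1 ≤ n → n < n2 → |u n| ≤ A * G := by
  intro n hn1 hn2
  have h1 := h (n2 - n1) (fun j => cf (n1 + j)) (fun j => u (n1 + j)) (fun j => g (n1 + j)) G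
    (fun j hj => hc (n1 + j) (by omega) (by omega)) (fun j hj => ?_)
    (fun j hj => hg (n1 + j) (by omega) (by omega)) (n - n1) (by omega)
  · have h2 : n1 + (n - n1) = n := by omega
    simp only [h2] at h1
    exact h1
  · rw [← he (n1 + j) (by omega) (by omega)]
    congr 1
    unfold cv
    have h2 : n1 + j - n1 + 1 = j + 1 := by omega
    rw [h2]
    refine Finset.sum_congr rfl fun l hl => ?_
    rw [Finset.mem_range] at hl
    have h3 : n1 + (j - l) = n1 + j - l := by omega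
    simp only [h3]

theorem B3_back {κ : PS} {c A : ℝ} (h : SP κ c A) {n1 n2 : ℕ} {cf u g : ℕ → ℝ} {G : ℝ}
    (hc : ∀ n, n1 ≤ n → n < n2 → c ≤ cf n)
    (he : ∀ n, n1 ≤ n → n < n2 →
      2 * cf n * u n - ∑ l ∈ range (n2 - n), coeff l κ * u (n + l) = g n)
    (hg : ∀ n, n1 ≤ n → n < n2 → |g n| ≤ G) : ∀ n, n1 ≤ n → n < n2 → |u n| ≤ A * G := by
  intro n hn1 hn2
  have h1 := h (n2 - n1) (fun j => cf (n2 - 1 - j)) (fun j => u (n2 - 1 - j))
    (fun j => g (n2 - 1 - j)) G
    (fun j hj => hc (n2 - 1 - j) (by omega) (by omega)) (fun j hj => ?_)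
    (fun j hj => hg (n2 - 1 - j) (by omega) (by omega)) (n2 - 1 - n) (by omega)
  · have h2 : n2 - 1 - (n2 - 1 - n) = n := by omega
    simp only [h2] at h1
    exact h1
  · rw [← he (n2 - 1 - j) (by omega) (by omega)]
    congr 1
    unfold cv
    have h2 : n2 - (n2 - 1 - j) = j + 1 := by omega
    rw [h2]
    refine Finset.sum_congr rfl fun l hl => ?_
    rw [Finset.mem_range] at hl
    have h3 : n2 - 1 - (j - l) = n2 - 1 - j + l := by omega
    simp only [h3]

/-- backward windows `[n1, n2)`, complex valued -/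
theorem SP_backward {κ : PS} {c A : ℝ} (h : SP κ c A) (hA : 0 ≤ A) {n1 n2 : ℕ} {cf : ℕ → ℝ}
    {u g : ℕ → ℂ} {G : ℝ}
    (hc : ∀ n, n1 ≤ n → n < n2 → c ≤ cf n)
    (he : ∀ n, n1 ≤ n → n < n2 →
      2 * (cf n : ℂ) * u n - ∑ l ∈ range (n2 - n), ((coeff l κ : ℝ) : ℂ) * u (n + l) = g n)
    (hg : ∀ n, n1 ≤ n → n < n2 → ‖g n‖ ≤ G) : ∀ n, n1 ≤ n → n < n2 → ‖u n‖ ≤ 2 * A * G := by
  intro n hn1 hn2
  have hre := B3_back h (u := fun n => (u n).re) (g := fun n => (g n).re) (G := G) hc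
    (fun n a b => ?_) (fun n a b => (Complex.abs_re_le_norm _).trans (hg n a b)) n hn1 hn2
  · have him := B3_back h (u := fun n => (u n).im) (g := fun n => (g n).im) (G := G) hc
      (fun n a b => ?_) (fun n a b => (Complex.abs_im_le_norm _).trans (hg n a b)) n hn1 hn2
    · have h1 := Complex.norm_le_abs_re_add_abs_im (u n)
      calc ‖u n‖ ≤ |(u n).re| + |(u n).im| := h1
        _ ≤ A * G + A * G := add_le_add hre him
        _ = 2 * A * G := by ring
    · have h2 := congrArg Complex.im (he n a b)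
      have h3 : 2 * (cf n : ℂ) * u n = ((2 * cf n : ℝ) : ℂ) * u n := by
        push_cast
        ring
      rw [h3, Complex.sub_im, Complex.im_ofReal_mul, Complex.im_sum] at h2
      simp only [Complex.im_ofReal_mul] at h2
      exact h2
  · have h2 := congrArg Complex.re (he n a b)
    have h3 : 2 * (cf n : ℂ) * u n = ((2 * cf n : ℝ) : ℂ) * u n := by
      push_cast
      ring
    rw [h3, Complex.sub_re, Complex.re_ofReal_mul, Complex.re_sum] at h2
    simp only [Complex.re_ofReal_mul] at h2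
    exact h2

end MP18
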