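import Pool.Agent.Lib.MP_18566a_pr.T.B2

set_option autoImplicit false

namespace MP18

open Finset PowerSeries

/-- geometric sum of the squared weights -/
private theorem B4_geo {x : ℝ} (hx : 0 < x) (hx1 : x ≤ 1) (m : ℕ) :
    ∑ n ∈ range (m + 1), ((1 + x) ^ n) ^ 2 ≤ ((1 + x) ^ m) ^ 2 * (4 / (3 * x)) := by
  have h1 : ∀ k : ℕ, (∑ n ∈ range k, ((1 + x) ^ n) ^ 2) * ((1 + x) ^ 2 - 1) =
      ((1 + x) ^ k) ^ 2 - 1 := by
    intro k
    induction k with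
    | zero => simp
    | succ k ih =>
      rw [Finset.sum_range_succ, add_mul, ih]
      ring
  have h2 := h1 (m + 1)
  have h3 : (0 : ℝ) < (1 + x) ^ 2 - 1 := by nlinarith
  set P := ∑ n ∈ range (m + 1), ((1 + x) ^ n) ^ 2 with hP
  set r : ℝ := ((1 + x) ^ m) ^ 2 with hr
  have hr0 : 0 < r := by positivity
  have h4 : ((1 + x) ^ (m + 1)) ^ 2 = (1 + x) ^ 2 * r := by
    rw [hr]
    ring
  rw [h4] at h2
  have h5 : P * ((1 + x) ^ 2 - 1) ≤ (1 + x) ^ 2 * r := by linarith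
  have h6 : 3 * x * (1 + x) ^ 2 ≤ 4 * ((1 + x) ^ 2 - 1) := by
    have h60 : 0 ≤ x * ((1 - x) * (3 * x + 5)) :=
      mul_nonneg hx.le (mul_nonneg (by linarith) (by linarith))
    have h61 : 4 * ((1 + x) ^ 2 - 1) - 3 * x * (1 + x) ^ 2 = x * ((1 - x) * (3 * x + 5)) := by
      ring
    linarith
  have h7 : P * (3 * x) ≤ r * 4 := by
    have h8 : P * (3 * x) * ((1 + x) ^ 2 - 1) ≤ r * 4 * ((1 + x) ^ 2 - 1) := by
      calc P * (3 * x) * ((1 + x) ^ 2 - 1) = (P * ((1 + x) ^ 2 - 1)) * (3 * x) := by ring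
        _ ≤ ((1 + x) ^ 2 * r) * (3 * x) := mul_le_mul_of_nonneg_right h5 (by positivity)
        _ = (3 * x * (1 + x) ^ 2) * r := by ring
        _ ≤ (4 * ((1 + x) ^ 2 - 1)) * r := mul_le_mul_of_nonneg_right h6 hr0.le
        _ = r * 4 * ((1 + x) ^ 2 - 1) := by ring
    exact le_of_mul_le_mul_right h8 h3
  have h9 : r * (4 / (3 * x)) = r * 4 / (3 * x) := by ring
  rw [h9, le_div_iff₀ (by positivity)]
  exact h7

/-- energy estimate -/
private theorem B4_energy {κ : PS} {c x δ : ℝ} (hx : 0 < x) (hx1 : x ≤ 1) (hδ : 0 < δ)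
    (hEN : EN (rescale (1 + x) κ) (2 * c - δ)) {N : ℕ} {cf u g : ℕ → ℝ} {G : ℝ} (hG : 0 ≤ G)
    (hc : ∀ n < N, c ≤ cf n) (he : ∀ n < N, 2 * cf n * u n - cv κ u n = g n)
    (hg : ∀ n < N, |g n| ≤ G) {n1 : ℕ} (hn1 : n1 < N) :
    δ ^ 2 * ∑ n ∈ range (n1 + 1), ((1 + x) ^ n * u n) ^ 2 ≤
      G ^ 2 * (((1 + x) ^ n1) ^ 2 * (4 / (3 * x))) := by
  have h1 := hEN (n1 + 1) (fun n => (1 + x) ^ n * u n)
  set E := ∑ n ∈ range (n1 + 1), ((1 + x) ^ n * u n) ^ 2 with hE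
  set P := ∑ n ∈ range (n1 + 1), ((1 + x) ^ n) ^ 2 with hP
  have h2 : ∑ n ∈ range (n1 + 1), ((1 + x) ^ n * u n) *
      cv (rescale (1 + x) κ) (fun n => (1 + x) ^ n * u n) n ≥
      2 * c * E - (δ / 2 * E + G ^ 2 / (2 * δ) * P) := by
    have h3 : 2 * c * E - (δ / 2 * E + G ^ 2 / (2 * δ) * P) =
        ∑ n ∈ range (n1 + 1), (2 * c * ((1 + x) ^ n * u n) ^ 2 -
          (δ / 2 * ((1 + x) ^ n * u n) ^ 2 + G ^ 2 / (2 * δ) * ((1 + x) ^ n) ^ 2)) := by
      rw [Finset.sum_sub_distrib, Finset.sum_add_distrib, ← Finset.mul_sum, ← Finset.mul_sum,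
        ← Finset.mul_sum]
    rw [h3]
    apply Finset.sum_le_sum
    intro n hn
    rw [Finset.mem_range] at hn
    have hnN : n < N := by omega
    rw [cv_rescale]
    have h4 : cv κ u n = 2 * cf n * u n - g n := by
      have := he n hnN
      linarith
    rw [h4]
    set w : ℝ := (1 + x) ^ n with hw
    have hcn := hc n hnN
    have h5 : c * (w * u n) ^ 2 ≤ cf n * (w * u n) ^ 2 :=
      mul_le_mul_of_nonneg_right hcn (sq_nonneg _)
    have h6 : (w * u n) * (w * g n) ≤ δ / 2 * (w * u n) ^ 2 + G ^ 2 / (2 * δ) * w ^ 2 := by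
      have h7 : (w * u n) * (w * g n) ≤
          δ / 2 * (w * u n) ^ 2 + (w * g n) ^ 2 / (2 * δ) := by
        have h8 : 0 ≤ (δ * (w * u n) - w * g n) ^ 2 / (2 * δ) := by positivity
        have h9 : (δ * (w * u n) - w * g n) ^ 2 / (2 * δ) =
            δ / 2 * (w * u n) ^ 2 + (w * g n) ^ 2 / (2 * δ) - (w * u n) * (w * g n) := by
          field_simp
          ring
        linarith
      have h10 : (w * g n) ^ 2 / (2 * δ) ≤ G ^ 2 / (2 * δ) * w ^ 2 := by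
        have h11 : (w * g n) ^ 2 ≤ G ^ 2 * w ^ 2 := by
          rw [mul_pow, mul_comm]
          apply mul_le_mul_of_nonneg_right _ (sq_nonneg _)
          rw [← sq_abs]
          exact pow_le_pow_left₀ (abs_nonneg _) (hg n hnN) 2
        calc (w * g n) ^ 2 / (2 * δ) ≤ (G ^ 2 * w ^ 2) / (2 * δ) :=
              div_le_div_of_nonneg_right h11 (by positivity)
          _ = G ^ 2 / (2 * δ) * w ^ 2 := by ring
      linarith
    have h12 : (w * u n) * (w * (2 * cf n * u n - g n)) =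
        2 * (cf n * (w * u n) ^ 2) - (w * u n) * (w * g n) := by ring
    rw [h12]
    linarith
  have h13 : δ / 2 * E ≤ G ^ 2 / (2 * δ) * P := by linarith
  have h14 : δ ^ 2 * E ≤ G ^ 2 * P := by
    have h15 : (δ / 2 * E) * (2 * δ) ≤ (G ^ 2 / (2 * δ) * P) * (2 * δ) :=
      mul_le_mul_of_nonneg_right h13 (by positivity)
    have h16 : (G ^ 2 / (2 * δ) * P) * (2 * δ) = G ^ 2 * P := by
      field_simp
    rw [h16] at h15
    nlinarith
  exact le_trans h14 (mul_le_mul_of_nonneg_left (B4_geo hx hx1 n1) (sq_nonneg _))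

/-- the middle part of the kernel -/
private theorem B4_mid {Ms : PS} {x σ Cm : ℝ} (hx : 0 < x)
    (hσ : ∀ n, |coeff n Ms| * (1 + x) ^ n ≤ σ) (hCm : Bd (1 + x) Ms Cm) (u : ℕ → ℝ) (n1 : ℕ) :
    (cv Ms u n1) ^ 2 ≤ σ * Cm * ((((1 + x) ^ n1)⁻¹) ^ 2 *
      ∑ n ∈ range (n1 + 1), ((1 + x) ^ n * u n) ^ 2) := by
  have hρ : (0 : ℝ) < 1 + x := by linarith
  have hσ0 : 0 ≤ σ := le_trans (by positivity) (hσ 0)
  have h1 : |cv Ms u n1| ≤ ∑ j ∈ range (n1 + 1),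
      (|coeff j Ms| * (1 + x) ^ j) * (((1 + x) ^ j)⁻¹ * |u (n1 - j)|) := by
    unfold cv
    refine le_trans (Finset.abs_sum_le_sum_abs _ _) (le_of_eq ?_)
    apply Finset.sum_congr rfl
    intro j _
    rw [abs_mul]
    have : ((1 + x) ^ j) ≠ 0 := (pow_pos hρ j).ne'
    field_simp
  have h2 : (cv Ms u n1) ^ 2 ≤ (∑ j ∈ range (n1 + 1),
      (|coeff j Ms| * (1 + x) ^ j) * (((1 + x) ^ j)⁻¹ * |u (n1 - j)|)) ^ 2 := by
    rw [← sq_abs]
    exact pow_le_pow_left₀ (abs_nonneg _) h1 2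
  have h3 := Finset.sum_mul_sq_le_sq_mul_sq (range (n1 + 1))
    (fun j => |coeff j Ms| * (1 + x) ^ j) (fun j => ((1 + x) ^ j)⁻¹ * |u (n1 - j)|)
  have h4 : ∑ j ∈ range (n1 + 1), (|coeff j Ms| * (1 + x) ^ j) ^ 2 ≤ σ * Cm := by
    calc ∑ j ∈ range (n1 + 1), (|coeff j Ms| * (1 + x) ^ j) ^ 2
        ≤ ∑ j ∈ range (n1 + 1), σ * (|coeff j Ms| * (1 + x) ^ j) := by
          apply Finset.sum_le_sum
          intro j _
          rw [pow_two]
          exact mul_le_mul_of_nonneg_right (hσ j) (by positivity)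
      _ = σ * ∑ j ∈ range (n1 + 1), |coeff j Ms| * (1 + x) ^ j := by rw [Finset.mul_sum]
      _ ≤ σ * Cm := mul_le_mul_of_nonneg_left (hCm (n1 + 1)) hσ0
  have h5 : ∑ j ∈ range (n1 + 1), (((1 + x) ^ j)⁻¹ * |u (n1 - j)|) ^ 2 =
      (((1 + x) ^ n1)⁻¹) ^ 2 * ∑ n ∈ range (n1 + 1), ((1 + x) ^ n * u n) ^ 2 := by
    rw [Finset.mul_sum, ← Finset.sum_range_reflect]
    apply Finset.sum_congr rfl
    intro j hj
    rw [Finset.mem_range] at hj
    have e1 : n1 + 1 - 1 - j = n1 - j := by omega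
    have e2 : n1 - (n1 - j) = j := by omega
    rw [e1, e2, mul_pow, sq_abs]
    have e3 : (1 + x) ^ n1 = (1 + x) ^ (n1 - j) * (1 + x) ^ j := by
      rw [← pow_add]
      congr 1
      omega
    rw [e3]
    have e4 : ((1 + x) ^ (n1 - j)) ≠ 0 := (pow_pos hρ _).ne'
    have e5 : ((1 + x) ^ j) ≠ 0 := (pow_pos hρ _).ne'
    field_simp
  rw [h5] at h3
  refine le_trans h2 (le_trans h3 ?_)
  apply mul_le_mul_of_nonneg_right h4
  apply mul_nonneg (sq_nonneg _)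
  exact Finset.sum_nonneg fun n _ => sq_nonneg _

/-- bootstrap from the energy estimate -/
theorem SP_boot {κ1 Ms Mt : PS} {c A μ x δ σ Cm : ℝ} (hA : 0 ≤ A) (h1 : SP κ1 c A)
    (hMt : Bd 1 Mt μ) (hμ : A * μ ≤ 1 / 2) (hx : 0 < x) (hx1 : x ≤ 1) (hδ : 0 < δ)
    (hEN : EN (rescale (1 + x) (κ1 + Ms + Mt)) (2 * c - δ))
    (hσ : ∀ n, |coeff n Ms| * (1 + x) ^ n ≤ σ) (hCm : Bd (1 + x) Ms Cm) :
    SP (κ1 + Ms + Mt) c (2 * A * (1 + Real.sqrt (4 * σ * Cm / (3 * x)) / δ)) := by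
  intro N cf u g G hc he hg
  rcases Nat.eq_zero_or_pos N with hN | hN
  · intro n hn
    omega
  have hG : 0 ≤ G := le_trans (abs_nonneg _) (hg 0 hN)
  have hσ0 : 0 ≤ σ := le_trans (by positivity) (hσ 0)
  have hCm0 : 0 ≤ Cm := by
    have := hCm 0
    simpa using this
  set S : ℝ := Real.sqrt (4 * σ * Cm / (3 * x)) with hS
  have hS0 : 0 ≤ S := Real.sqrt_nonneg _
  have hSsq : S ^ 2 = 4 * σ * Cm / (3 * x) := Real.sq_sqrt (by positivity)

  have hmid : ∀ n < N, |cv Ms u n| ≤ S / δ * G := by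
    intro n hn
    have e1 := B4_energy hx hx1 hδ hEN hG hc he hg hn
    have e2 := B4_mid hx hσ hCm u n
    set E := ∑ n ∈ range (n + 1), ((1 + x) ^ n * u n) ^ 2 with hE
    have hp : (0 : ℝ) < (1 + x) ^ n := pow_pos (by linarith) n
    have e3 : δ ^ 2 * ((((1 + x) ^ n)⁻¹) ^ 2 * E) ≤ G ^ 2 * (4 / (3 * x)) := by
      calc δ ^ 2 * ((((1 + x) ^ n)⁻¹) ^ 2 * E) = (((1 + x) ^ n)⁻¹) ^ 2 * (δ ^ 2 * E) := by ring
        _ ≤ (((1 + x) ^ n)⁻¹) ^ 2 * (G ^ 2 * (((1 + x) ^ n) ^ 2 * (4 / (3 * x)))) :=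
            mul_le_mul_of_nonneg_left e1 (sq_nonneg _)
        _ = G ^ 2 * (4 / (3 * x)) := by
            field_simp
    have e4 : δ ^ 2 * (cv Ms u n) ^ 2 ≤ (S * G) ^ 2 := by
      calc δ ^ 2 * (cv Ms u n) ^ 2 ≤ δ ^ 2 * (σ * Cm * ((((1 + x) ^ n)⁻¹) ^ 2 * E)) :=
            mul_le_mul_of_nonneg_left e2 (sq_nonneg _)
        _ = σ * Cm * (δ ^ 2 * ((((1 + x) ^ n)⁻¹) ^ 2 * E)) := by ring
        _ ≤ σ * Cm * (G ^ 2 * (4 / (3 * x))) :=
            mul_le_mul_of_nonneg_left e3 (mul_nonneg hσ0 hCm0)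
        _ = (4 * σ * Cm / (3 * x)) * G ^ 2 := by ring
        _ = (S * G) ^ 2 := by
            rw [← hSsq]
            ring
    have e5 : (δ * |cv Ms u n|) ^ 2 ≤ (S * G) ^ 2 := by
      rw [mul_pow, sq_abs]
      exact e4
    have e6 : δ * |cv Ms u n| ≤ S * G :=
      le_of_sq_le_sq e5 (mul_nonneg hS0 hG)
    have e7 : S / δ * G = S * G / δ := by ring
    rw [e7, le_div_iff₀ hδ]
    linarith

  obtain ⟨m, hm, hmax⟩ := Finset.exists_max_image (range N) (fun n => |u n|)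
    ⟨0, Finset.mem_range.mpr hN⟩
  rw [Finset.mem_range] at hm
  set M : ℝ := |u m| with hM
  have hM0 : 0 ≤ M := abs_nonneg _
  have hmax' : ∀ n < N, |u n| ≤ M := fun n hn => hmax n (Finset.mem_range.mpr hn)
  have hμ0 : 0 ≤ μ := by
    have := hMt 0
    simpa using this
  have hfin := h1 N cf u (fun n => g n + cv Ms u n + cv Mt u n) (G + S / δ * G + μ * M) hc
    (by
      intro n hn
      have := he n hn
      rw [cv_add_left, cv_add_left] at this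
      linarith)
    (by
      intro n hn
      have b1 := hg n hn
      have b2 := hmid n hn
      have b3 : |cv Mt u n| ≤ μ * M :=
        cv_bound hMt (fun l hl => hmax' l (by omega))
      calc |g n + cv Ms u n + cv Mt u n| ≤ |g n + cv Ms u n| + |cv Mt u n| := abs_add_le _ _
        _ ≤ |g n| + |cv Ms u n| + |cv Mt u n| := by
            have := abs_add_le (g n) (cv Ms u n)
            linarith
        _ ≤ G + S / δ * G + μ * M := by linarith) m hm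
  have hfin' : M ≤ A * (G + S / δ * G + μ * M) := hfin
  have b4 : A * μ * M ≤ 1 / 2 * M := mul_le_mul_of_nonneg_right hμ hM0
  intro n hn
  refine le_trans (hmax' n hn) ?_
  have b5 : A * (G + S / δ * G + μ * M) = A * G * (1 + S / δ) + A * μ * M := by ring
  rw [b5] at hfin'
  have b6 : 2 * A * (1 + S / δ) * G = 2 * (A * G * (1 + S / δ)) := by ring
  rw [b6]
  linarith

end MP18
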