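import Pool.Agent.Lib.MP_18566a_pr.T.Defs

set_option autoImplicit false

namespace MP18

open Finset PowerSeries

theorem aa_lo : 0.6869582451 ≤ aa := (Classical.choose_spec exists_tuned).1

theorem aa_hi : aa ≤ 0.6869582453 := (Classical.choose_spec exists_tuned).2.1

theorem aa_tune : Tune aa := (Classical.choose_spec exists_tuned).2.2

/-- bounds of powers of `1 + aa` -/
theorem C0_aux1 : (4.80079321 : ℝ) ≤ (1 + aa) ^ 3 ∧ (1 + aa) ^ 3 ≤ 4.8007932142 := by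
  have h1 := aa_lo
  have h2 := aa_hi
  have h3 : (1.6869582451 : ℝ) ≤ 1 + aa := by linarith
  have h4 : 1 + aa ≤ (1.6869582453 : ℝ) := by linarith
  constructor
  · have := pow_le_pow_left₀ (by norm_num : (0 : ℝ) ≤ 1.6869582451) h3 3
    refine le_trans (by norm_num) this
  · have := pow_le_pow_left₀ (by linarith : (0 : ℝ) ≤ 1 + aa) h4 3
    refine le_trans this (by norm_num)

theorem C0_aux2 : (0 : ℝ) < (1 + aa) ^ 3 := by
  have := C0_aux1.1
  linarith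

/-- bounds of `aa ^ 2` -/
theorem C0_aux3 : (0.471911630 : ℝ) ≤ aa ^ 2 ∧ aa ^ 2 ≤ 0.471911631 := by
  have h1 := aa_lo
  have h2 := aa_hi
  constructor
  · have := pow_le_pow_left₀ (by norm_num : (0 : ℝ) ≤ 0.6869582451) h1 2
    refine le_trans (by norm_num) this
  · have := pow_le_pow_left₀ (by linarith : (0 : ℝ) ≤ aa) h2 2
    refine le_trans this (by norm_num)

/-- bounds of `aa ^ 3` -/
theorem C0_aux4 : (0.324183585 : ℝ) ≤ aa ^ 3 ∧ aa ^ 3 ≤ 0.324183586 := by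
  have h1 := aa_lo
  have h2 := aa_hi
  constructor
  · have := pow_le_pow_left₀ (by norm_num : (0 : ℝ) ≤ 0.6869582451) h1 3
    refine le_trans (by norm_num) this
  · have := pow_le_pow_left₀ (by linarith : (0 : ℝ) ≤ aa) h2 3
    refine le_trans this (by norm_num)

theorem p0_bd : 0.20829891 ≤ p0 ∧ p0 ≤ 0.20829892 := by
  have h1 := C0_aux1
  have hp := C0_aux2
  unfold p0 p0f
  rw [le_div_iff₀ hp, div_le_iff₀ hp]
  constructor
  · linarith [h1.2]
  · linarith [h1.1]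

theorem p1_bd : 0.42927796 ≤ p1 ∧ p1 ≤ 0.42927797 := by
  have h1 := C0_aux1
  have hp := C0_aux2
  have h2 := aa_lo
  have h3 := aa_hi
  unfold p1 p1f
  rw [le_div_iff₀ hp, div_le_iff₀ hp]
  constructor
  · linarith [h1.2]
  · linarith [h1.1]

theorem p2_bd : 0.29489603 ≤ p2 ∧ p2 ≤ 0.29489604 := by
  have h1 := C0_aux1
  have hp := C0_aux2
  have h2 := C0_aux3
  unfold p2 p2f
  rw [le_div_iff₀ hp, div_le_iff₀ hp]
  constructor
  · linarith [h1.2, h2.1]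
  · linarith [h1.1, h2.2]

theorem p3_bd : 0.06752708 ≤ p3 ∧ p3 ≤ 0.06752709 := by
  have h1 := C0_aux1
  have hp := C0_aux2
  have h2 := C0_aux4
  unfold p3 p3f
  rw [le_div_iff₀ hp, div_le_iff₀ hp]
  constructor
  · linarith [h1.2, h2.1]
  · linarith [h1.1, h2.2]

theorem p_sum : p0 + p1 + p2 + p3 = 1 := by
  have hp := C0_aux2
  unfold p0 p1 p2 p3 p0f p1f p2f p3f
  rw [← add_div, ← add_div, ← add_div, div_eq_one_iff_eq hp.ne']
  ring

theorem S0_eq : S0 = p0 - p1 + p2 - p3 := by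
  unfold S0 p0 p1 p2 p3 p0f p1f p2f p3f
  rw [div_pow, ← sub_div, ← add_div, ← sub_div]
  congr 1
  ring

theorem S0_bd : 0.006389896 ≤ S0 ∧ S0 ≤ 0.006389897 := by
  have h1 := C0_aux1
  have hp := C0_aux2
  have h2 := aa_lo
  have h3 := aa_hi
  have h4 : (0.3130417547 : ℝ) ≤ 1 - aa := by linarith
  have h5 : 1 - aa ≤ (0.3130417549 : ℝ) := by linarith
  have h6 := pow_le_pow_left₀ (by norm_num : (0 : ℝ) ≤ 0.3130417547) h4 3
  have h7 := pow_le_pow_left₀ (by linarith : (0 : ℝ) ≤ 1 - aa) h5 3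
  unfold S0
  rw [div_pow, le_div_iff₀ hp, div_le_iff₀ hp]
  constructor
  · refine le_trans ?_ h6
    refine le_trans (mul_le_mul_of_nonneg_left h1.2 (by norm_num)) (by norm_num)
  · refine le_trans h7 ?_
    refine le_trans ?_ (mul_le_mul_of_nonneg_left h1.1 (by norm_num))
    norm_num

theorem ff_pos : 0 < ff := by
  unfold ff
  positivity

theorem C0_aux5 : ff ≤ 1 / 10 ^ 20 := by
  unfold ff
  apply one_div_le_one_div_of_le (by positivity)
  exact pow_le_pow_right₀ (by norm_num) (by norm_num)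

theorem C0_aux6 {p lo hi lo' : ℝ} (h : lo ≤ p ∧ p ≤ hi) (h0 : 0 ≤ lo) (h1 : hi ≤ 1)
    (h2 : lo' ≤ lo - 1 / 10 ^ 20) : lo' ≤ (1 - ff) * p ∧ (1 - ff) * p ≤ hi := by
  have hf := ff_pos
  have hf2 := C0_aux5
  obtain ⟨ha, hb⟩ := h
  have h3 : ff * p ≤ ff * 1 := mul_le_mul_of_nonneg_left (by linarith) hf.le
  have h4 : 0 ≤ ff * p := mul_nonneg hf.le (by linarith)
  constructor
  · nlinarith
  · nlinarith

theorem phi_bd : 0.20829890 ≤ phi ∧ phi ≤ 0.20829892 :=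
  C0_aux6 p0_bd (by norm_num) (by norm_num) (by norm_num)

theorem q1_bd : 0.42927795 ≤ q1 ∧ q1 ≤ 0.42927797 :=
  C0_aux6 p1_bd (by norm_num) (by norm_num) (by norm_num)

theorem q2_bd : 0.29489602 ≤ q2 ∧ q2 ≤ 0.29489604 :=
  C0_aux6 p2_bd (by norm_num) (by norm_num) (by norm_num)

theorem q3_bd : 0.06752707 ≤ q3 ∧ q3 ≤ 0.06752709 :=
  C0_aux6 p3_bd (by norm_num) (by norm_num) (by norm_num)

theorem bb_bd : 4.8 * ff ≤ bb ∧ bb ≤ 4.81 * ff := by
  have h := phi_bd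
  have hf := ff_pos
  have hp : 0 < phi := by linarith [h.1]
  unfold bb
  rw [le_div_iff₀ hp, div_le_iff₀ hp]
  constructor
  · nlinarith [h.2]
  · nlinarith [h.1]

theorem mass_sum : phi + ff + q1 + q2 + q3 = 1 := by
  have h := p_sum
  unfold phi q1 q2 q3
  linear_combination (1 - ff) * h

theorem tune_eq : 1 - 2 * (1 - phi) ^ 2 + 2 * (q2 + q3) ^ 2 - 2 * q3 ^ 2 = - (bb * S0) := by
  have h := aa_tune
  unfold Tune at h
  unfold phi q2 q3 bb S0 phi p0 p2 p3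
  rw [h]
  ring

theorem Np_bd : 0.2555385 ≤ Np ∧ Np ≤ 0.2555387 := by
  obtain ⟨a1, a2⟩ := p1_bd
  obtain ⟨b1, b2⟩ := p2_bd
  obtain ⟨c1, c2⟩ := p3_bd
  have e1 : (0.42927796 * 0.42927796 : ℝ) ≤ p1 * p1 :=
    mul_le_mul a1 a1 (by norm_num) (by linarith)
  have e2 : p1 * p1 ≤ (0.42927797 * 0.42927797 : ℝ) :=
    mul_le_mul a2 a2 (by linarith) (by norm_num)
  have f1 : (0.42927796 * 0.29489603 : ℝ) ≤ p1 * p2 :=
    mul_le_mul a1 b1 (by norm_num) (by linarith)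
  have f2 : p1 * p2 ≤ (0.42927797 * 0.29489604 : ℝ) :=
    mul_le_mul a2 b2 (by linarith) (by norm_num)
  have g1 : (0.42927796 * 0.06752708 : ℝ) ≤ p1 * p3 :=
    mul_le_mul a1 c1 (by norm_num) (by linarith)
  have g2 : p1 * p3 ≤ (0.42927797 * 0.06752709 : ℝ) :=
    mul_le_mul a2 c2 (by linarith) (by norm_num)
  have i1 : (0.29489603 * 0.29489603 : ℝ) ≤ p2 * p2 :=
    mul_le_mul b1 b1 (by norm_num) (by linarith)
  have i2 : p2 * p2 ≤ (0.29489604 * 0.29489604 : ℝ) :=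
    mul_le_mul b2 b2 (by linarith) (by norm_num)
  have j1 : (0.29489603 * 0.06752708 : ℝ) ≤ p2 * p3 :=
    mul_le_mul b1 c1 (by norm_num) (by linarith)
  have j2 : p2 * p3 ≤ (0.29489604 * 0.06752709 : ℝ) :=
    mul_le_mul b2 c2 (by linarith) (by norm_num)
  have k1 : (0.06752708 * 0.06752708 : ℝ) ≤ p3 * p3 :=
    mul_le_mul c1 c1 (by norm_num) (by linarith)
  have k2 : p3 * p3 ≤ (0.06752709 * 0.06752709 : ℝ) :=
    mul_le_mul c2 c2 (by linarith) (by norm_num)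
  have e : Np = p1 * p1 + 2 * (p1 * p2) + 2 * (p1 * p3) - 2 * (p2 * p2) - 4 * (p2 * p3)
      + 3 * (p3 * p3) := by
    unfold Np
    ring
  rw [e]
  constructor
  · linarith
  · linarith

end MP18
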