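import Pool.Agent.Lib.MP_18566a_pr.T.A1

set_option autoImplicit false

namespace MP18

open Finset PowerSeries

theorem coeff_sq (A : PS) (n : ℕ) : coeff n (sq A) = coeff n A * (2 * Cum A n - coeff n A) := by
  unfold sq
  rw [coeff_mk]

theorem C1a_aux1 (A : PS) (n : ℕ) : Cum A (n + 1) = Cum A n + coeff (n + 1) A := by
  unfold Cum
  rw [sum_range_succ]

theorem C1a_aux2 (A : PS) : Cum A 0 = coeff 0 A := by
  unfold Cum
  rw [sum_range_one]

theorem C1a_aux3 (A B : PS) (n : ℕ) : Cum (A + B) n = Cum A n + Cum B n := by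
  unfold Cum
  rw [← sum_add_distrib]
  apply sum_congr rfl
  intro j _
  rw [map_add]

theorem C1a_aux4 (c : ℝ) (A : PS) (n : ℕ) : Cum (c • A) n = c * Cum A n := by
  unfold Cum
  rw [mul_sum]
  apply sum_congr rfl
  intro j _
  rw [map_smul, smul_eq_mul]

theorem Cum_sq (A : PS) (n : ℕ) : Cum (sq A) n = (Cum A n) ^ 2 := by
  induction n with
  | zero =>
    rw [C1a_aux2, C1a_aux2, coeff_sq, C1a_aux2]
    ring
  | succ n ih =>
    rw [C1a_aux1, ih, coeff_sq, C1a_aux1]
    ring

theorem sq_smul (c : ℝ) (A : PS) : sq (c • A) = c ^ 2 • sq A := by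
  ext n
  rw [coeff_sq, map_smul, map_smul, coeff_sq, C1a_aux4, smul_eq_mul, smul_eq_mul]
  ring

theorem C1a_aux5 (n : ℕ) : Cum (1 : PS) n = 1 := by
  induction n with
  | zero =>
    rw [C1a_aux2, coeff_one, if_pos rfl]
  | succ n ih =>
    rw [C1a_aux1, ih, coeff_one, if_neg (Nat.succ_ne_zero n), add_zero]

theorem sq_one : sq (1 : PS) = 1 := by
  ext n
  rw [coeff_sq, C1a_aux5, coeff_one]
  by_cases h : n = 0
  · rw [if_pos h]
    norm_num
  · rw [if_neg h, zero_mul]

theorem C1a_aux6 (m : ℕ) (A : PS) {n : ℕ} (h : m ≤ n) : Cum (X ^ m * A) n = Cum A (n - m) := by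
  unfold Cum
  have e : n + 1 = m + (n - m + 1) := by omega
  rw [e, sum_range_add]
  have e1 : ∑ x ∈ range m, coeff x (X ^ m * A) = 0 := by
    apply sum_eq_zero
    intro j hj
    have hj' := mem_range.1 hj
    rw [coeff_X_pow_mul', if_neg (by omega)]
  rw [e1, zero_add]
  apply sum_congr rfl
  intro j _
  rw [coeff_X_pow_mul', if_pos (by omega)]
  congr 2
  omega

theorem sq_Xpow_mul (m : ℕ) (A : PS) : sq (X ^ m * A) = X ^ m * sq A := by
  ext n
  rw [coeff_sq, coeff_X_pow_mul', coeff_X_pow_mul']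
  by_cases h : m ≤ n
  · rw [if_pos h, if_pos h, C1a_aux6 m A h, coeff_sq]
  · rw [if_neg h, if_neg h, zero_mul]

/-- general cross term: increments of the product of the two cumulative sums -/
theorem C1a_aux7 (A B : PS) : sq (A + B) = sq A + sq B +
    2 • PowerSeries.mk (fun n => coeff n A * Cum B n + (Cum A n - coeff n A) * coeff n B) := by
  ext n
  rw [two_smul, map_add, map_add, map_add, coeff_mk, coeff_sq, coeff_sq, coeff_sq, map_add,
    C1a_aux3]
  ring

theorem sq_add_Cpl {A B : PS} {y : ℕ} {M : ℝ} (hA : Cpl A y M) (hB : ∀ n < y, coeff n B = 0) :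
    sq (A + B) = sq A + (2 * M) • B + sq B := by
  obtain ⟨hA0, hAM⟩ := hA
  ext n
  rw [C1a_aux7, two_smul, map_add, map_add, map_add, coeff_mk, map_add, map_add, map_smul,
    smul_eq_mul]
  rcases lt_or_ge n y with h | h
  · have h1 : Cum B n = 0 := by
      unfold Cum
      apply sum_eq_zero
      intro j hj
      have hj' := mem_range.1 hj
      exact hB j (by omega)
    rw [h1, hB n h]
    ring
  · have h1 : Cum A n = M := by
      unfold Cum
      have e : n + 1 = y + (n + 1 - y) := by omega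
      rw [e, sum_range_add, hAM]
      have e1 : ∑ x ∈ range (n + 1 - y), coeff (y + x) A = 0 := by
        apply sum_eq_zero
        intro j _
        exact hA0 _ (by omega)
      rw [e1, add_zero]
    rw [h1, hA0 n h]
    ring

/-- general cross term: increments of the product of the two cumulative sums -/
theorem sq_add (A B : PS) : sq (A + B) = sq A + sq B +
    2 • PowerSeries.mk (fun n => coeff n A * Cum B n + (Cum A n - coeff n A) * coeff n B) :=
  C1a_aux7 A B

end MP18
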