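import Pool.Agent.Lib.MP_18566a_pr.T.A2
import Pool.Agent.Lib.MP_18566a_pr.T.C1a

set_option autoImplicit false

namespace MP18

open Finset PowerSeries

theorem mul_congr_PS {A A' B B' : PS} {N : ℕ} (h : ∀ l < N, coeff l A = coeff l A')
    (h' : ∀ l < N, coeff l B = coeff l B') : ∀ l < N, coeff l (A * B) = coeff l (A' * B') := by
  intro l hl
  rw [coeff_mul, coeff_mul]
  apply Finset.sum_congr rfl
  intro p hp
  have hp' := Finset.HasAntidiagonal.mem_antidiagonal.mp hp
  rw [h p.1 (by omega), h' p.2 (by omega)]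

theorem sq_congr {A B : PS} {N : ℕ} (h : ∀ l < N, coeff l A = coeff l B) :
    ∀ l < N, coeff l (sq A) = coeff l (sq B) := by
  intro l hl
  rw [coeff_sq, coeff_sq]
  have hC : Cum A l = Cum B l := by
    unfold Cum
    apply Finset.sum_congr rfl
    intro j hj
    exact h j (by have := Finset.mem_range.mp hj; omega)
  rw [hC, h l hl]

theorem inv_congr_PS {A B : PS} {N : ℕ} (hA : coeff 0 A ≠ 0) (h : ∀ l < N, coeff l A = coeff l B) :
    ∀ l < N, coeff l A⁻¹ = coeff l B⁻¹ := by
  intro l
  induction l using Nat.strong_induction_on with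
  | _ l ih =>
    intro hl
    have hc : constantCoeff A = constantCoeff B := by
      rw [← coeff_zero_eq_constantCoeff_apply, ← coeff_zero_eq_constantCoeff_apply]
      exact h 0 (by omega)
    rw [PowerSeries.coeff_inv, PowerSeries.coeff_inv]
    by_cases hl0 : l = 0
    · rw [if_pos hl0, if_pos hl0, hc]
    · rw [if_neg hl0, if_neg hl0, hc]
      congr 1
      apply Finset.sum_congr rfl
      intro p hp
      have hp' := Finset.HasAntidiagonal.mem_antidiagonal.mp hp
      by_cases hp2 : p.2 < l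
      · rw [if_pos hp2, if_pos hp2, h p.1 (by omega), ih p.2 hp2 (by omega)]
      · rw [if_neg hp2, if_neg hp2]

theorem ker_congr {A B : PS} {N : ℕ} (hA : coeff 0 A ≠ 0) (h : ∀ l < N, coeff l A = coeff l B) :
    ∀ l < N, coeff l (ker A) = coeff l (ker B) := by
  unfold ker
  exact mul_congr_PS (sq_congr h) (inv_congr_PS hA h)

theorem ker_smul {c : ℝ} (hc : c ≠ 0) (A : PS) : ker (c • A) = c • ker A := by
  unfold ker
  rw [sq_smul, PowerSeries.smul_inv, smul_mul_smul_comm]
  congr 1
  field_simp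

theorem coeff_zero_ker {A : PS} (hA : coeff 0 A ≠ 0) : coeff 0 (ker A) = coeff 0 A := by
  unfold ker
  have h1 : coeff 0 (A⁻¹) = (coeff 0 A)⁻¹ := by
    rw [coeff_zero_eq_constantCoeff_apply, coeff_zero_eq_constantCoeff_apply,
      PowerSeries.constantCoeff_inv]
  rw [coeff_mul]
  simp only [Finset.Nat.antidiagonal_zero, Finset.sum_singleton]
  rw [coeff_sq, h1]
  have hC : Cum A 0 = coeff 0 A := by simp [Cum]
  rw [hC]
  field_simp
  ring

theorem ker_mul_self {A : PS} (hA : coeff 0 A ≠ 0) : ker A * A = sq A := by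
  unfold ker
  rw [mul_assoc, mul_comm A⁻¹ A, mul_inv_PS hA, mul_one]

end MP18
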