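import Pool.Agent.Lib.MP_18566a_pr.T.C1a
import Pool.Agent.Lib.MP_18566a_pr.T.A2

set_option autoImplicit false

namespace MP18

open Finset PowerSeries

theorem C1c_aux1 (A : PS) (n : ℕ) : Cum A n = ∑ j ∈ range n, coeff j A + coeff n A := by
  unfold Cum
  rw [Finset.sum_range_succ]

theorem sq_nn {A : PS} (hA : ∀ n, 0 ≤ coeff n A) : ∀ n, 0 ≤ coeff n (sq A) := by
  intro n
  rw [coeff_sq]
  have h1 := C1c_aux1 A n
  have h2 : 0 ≤ ∑ j ∈ range n, coeff j A := Finset.sum_nonneg (fun j _ => hA j)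
  have h3 := hA n
  exact mul_nonneg h3 (by linarith)

theorem Cum_le {A : PS} {C : ℝ} (h : Bd 1 A C) (n : ℕ) : |Cum A n| ≤ C := by
  unfold Cum
  refine (Finset.abs_sum_le_sum_abs _ _).trans ?_
  have := h (n + 1)
  simpa using this

theorem C1c_aux2 {A : PS} {C : ℝ} (h : Bd 1 A C) (n : ℕ) :
    |∑ j ∈ range n, coeff j A| ≤ C := by
  refine (Finset.abs_sum_le_sum_abs _ _).trans ?_
  have := h n
  simpa using this

theorem Bd_sq {A : PS} {r C D : ℝ} (hr : 0 ≤ r) (hD : Bd 1 A D) (h : Bd r A C) :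
    Bd r (sq A) (2 * D * C) := by
  intro N
  have hD0 : 0 ≤ D := by
    have := hD 0
    simpa using this
  have key : ∀ n ∈ range N, |coeff n (sq A)| * r ^ n ≤ (2 * D) * (|coeff n A| * r ^ n) := by
    intro n _
    rw [coeff_sq, abs_mul]
    have h1 := C1c_aux1 A n
    have h2 := Cum_le hD n
    have h3 := C1c_aux2 hD n
    have h4 : 2 * Cum A n - coeff n A = Cum A n + ∑ j ∈ range n, coeff j A := by
      rw [h1]; ring
    have h5 : |2 * Cum A n - coeff n A| ≤ 2 * D := by
      rw [h4]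
      refine (abs_add_le _ _).trans ?_
      linarith
    have h6 : 0 ≤ r ^ n := pow_nonneg hr n
    have h7 : 0 ≤ |coeff n A| * r ^ n := mul_nonneg (abs_nonneg _) h6
    calc |coeff n A| * |2 * Cum A n - coeff n A| * r ^ n
        = |2 * Cum A n - coeff n A| * (|coeff n A| * r ^ n) := by ring
      _ ≤ (2 * D) * (|coeff n A| * r ^ n) := mul_le_mul_of_nonneg_right h5 h7
  calc ∑ n ∈ range N, |coeff n (sq A)| * r ^ n
      ≤ ∑ n ∈ range N, (2 * D) * (|coeff n A| * r ^ n) := Finset.sum_le_sum key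
    _ = (2 * D) * ∑ n ∈ range N, |coeff n A| * r ^ n := by rw [Finset.mul_sum]
    _ ≤ (2 * D) * C := mul_le_mul_of_nonneg_left (h N) (by linarith)

theorem C1c_aux3 {A : PS} {y n : ℕ} {m : ℝ} (h : Cpl A y m) (hn : y ≤ n) :
    ∑ j ∈ range n, coeff j A = m := by
  rw [← h.2]
  symm
  apply Finset.sum_subset
  · intro a ha
    rw [Finset.mem_range] at *
    omega
  · intro a _ ha
    rw [Finset.mem_range] at ha
    exact h.1 a (by omega)

/-- norm of a nonnegative law -/
theorem Bd_of_Cpl {A : PS} {y : ℕ} {m : ℝ} (hA : ∀ n, 0 ≤ coeff n A) (h : Cpl A y m) :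
    Bd 1 A m := by
  intro N
  have h1 : ∑ n ∈ range N, |coeff n A| * (1 : ℝ) ^ n = ∑ n ∈ range N, coeff n A := by
    apply Finset.sum_congr rfl
    intro n _
    rw [one_pow, mul_one, abs_of_nonneg (hA n)]
  rw [h1, ← C1c_aux3 h (le_max_left y N)]
  apply Finset.sum_le_sum_of_subset_of_nonneg
  · intro a ha
    rw [Finset.mem_range] at *
    exact lt_of_lt_of_le ha (le_max_right y N)
  · intro a _ _
    exact hA a

theorem Cum_of_Cpl {A : PS} {y n : ℕ} {m : ℝ} (h : Cpl A y m) (hn : y ≤ n + 1) :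
    Cum A n = m := C1c_aux3 h hn

theorem Cpl_sq {A : PS} {y : ℕ} {m : ℝ} (h : Cpl A y m) : Cpl (sq A) y (m ^ 2) := by
  refine ⟨?_, ?_⟩
  · intro n hn
    rw [coeff_sq, h.1 n hn, zero_mul]
  · rcases Nat.eq_zero_or_pos y with hy | hy
    · subst hy
      have h2 := h.2
      simp only [Finset.range_zero, Finset.sum_empty] at h2 ⊢
      rw [← h2]
      norm_num
    · obtain ⟨k, rfl⟩ : ∃ k, y = k + 1 := ⟨y - 1, by omega⟩
      have h1 := Cum_sq A k
      rw [Cum_of_Cpl h le_rfl] at h1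
      exact h1

theorem Cpl_mono {A : PS} {y Y : ℕ} {m : ℝ} (h : Cpl A y m) (hY : y ≤ Y) : Cpl A Y m :=
  ⟨fun n hn => h.1 n (hY.trans hn), C1c_aux3 h hY⟩

theorem Cpl_smul {A : PS} {y : ℕ} {m : ℝ} (c : ℝ) (h : Cpl A y m) : Cpl (c • A) y (c * m) := by
  refine ⟨fun n hn => ?_, ?_⟩
  · rw [PowerSeries.coeff_smul, h.1 n hn, smul_zero]
  · rw [← h.2, Finset.mul_sum]
    apply Finset.sum_congr rfl
    intro n _
    rw [PowerSeries.coeff_smul, smul_eq_mul]

theorem Cpl_add {A B : PS} {y : ℕ} {m m' : ℝ} (h : Cpl A y m) (h' : Cpl B y m') :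
    Cpl (A + B) y (m + m') := by
  refine ⟨fun n hn => ?_, ?_⟩
  · rw [map_add, h.1 n hn, h'.1 n hn, add_zero]
  · rw [← h.2, ← h'.2, ← Finset.sum_add_distrib]
    apply Finset.sum_congr rfl
    intro n _
    rw [map_add]

theorem Cpl_mul {A B : PS} {y Y : ℕ} {m m' : ℝ} (h : Cpl A (y + 1) m) (h' : Cpl B (Y + 1) m') :
    Cpl (A * B) (y + Y + 1) (m * m') := by
  refine ⟨?_, ?_⟩
  · intro n hn
    rw [coeff_mul]
    apply Finset.sum_eq_zero
    intro p hp
    have hp' := Finset.HasAntidiagonal.mem_antidiagonal.mp hp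
    by_cases h1 : y + 1 ≤ p.1
    · rw [h.1 _ h1, zero_mul]
    · rw [h'.1 p.2 (by omega), mul_zero]
  · have e1 : ((PowerSeries.trunc (y + 1) A : Polynomial ℝ) : PS) = A := by
      ext n
      rw [Polynomial.coeff_coe, PowerSeries.coeff_trunc]
      by_cases hn : n < y + 1
      · rw [if_pos hn]
      · rw [if_neg hn, h.1 n (by omega)]
    have e2 : ((PowerSeries.trunc (Y + 1) B : Polynomial ℝ) : PS) = B := by
      ext n
      rw [Polynomial.coeff_coe, PowerSeries.coeff_trunc]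
      by_cases hn : n < Y + 1
      · rw [if_pos hn]
      · rw [if_neg hn, h'.1 n (by omega)]
    set P := PowerSeries.trunc (y + 1) A with hP
    set Q := PowerSeries.trunc (Y + 1) B with hQ
    have d1 : P.natDegree < y + 1 := PowerSeries.natDegree_trunc_lt A y
    have d2 : Q.natDegree < Y + 1 := PowerSeries.natDegree_trunc_lt B Y
    have d3 : (P * Q).natDegree < y + Y + 1 := by
      have := Polynomial.natDegree_mul_le (p := P) (q := Q)
      omega
    have v1 : P.eval 1 = m := by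
      rw [Polynomial.eval_eq_sum_range' d1, ← h.2]
      apply Finset.sum_congr rfl
      intro n _
      rw [one_pow, mul_one, ← Polynomial.coeff_coe, e1]
    have v2 : Q.eval 1 = m' := by
      rw [Polynomial.eval_eq_sum_range' d2, ← h'.2]
      apply Finset.sum_congr rfl
      intro n _
      rw [one_pow, mul_one, ← Polynomial.coeff_coe, e2]
    have v3 : (P * Q).eval 1 = ∑ n ∈ range (y + Y + 1), coeff n (A * B) := by
      rw [Polynomial.eval_eq_sum_range' d3]
      apply Finset.sum_congr rfl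
      intro n _
      rw [one_pow, mul_one, ← Polynomial.coeff_coe, Polynomial.coe_mul, e1, e2]
    rw [← v3, Polynomial.eval_mul, v1, v2]

theorem Cum_mono {A : PS} (hA : ∀ n, 0 ≤ coeff n A) {m n : ℕ} (h : m ≤ n) :
    Cum A m ≤ Cum A n := by
  unfold Cum
  apply Finset.sum_le_sum_of_subset_of_nonneg
  · intro a ha
    rw [Finset.mem_range] at *
    omega
  · intro a _ _
    exact hA a

theorem low_mul {A B : PS} {m n : ℕ} (hA : ∀ k < m, coeff k A = 0) (hB : ∀ k < n, coeff k B = 0) :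
    ∀ k < m + n, coeff k (A * B) = 0 := by
  intro k hk
  rw [coeff_mul]
  apply Finset.sum_eq_zero
  intro p hp
  have hp' := Finset.HasAntidiagonal.mem_antidiagonal.mp hp
  by_cases h1 : p.1 < m
  · rw [hA _ h1, zero_mul]
  · rw [hB p.2 (by omega), mul_zero]

/-- the auxiliary function of the telescoping estimate -/
theorem C1c_aux4 {x y : ℝ} (hx : 0 ≤ x) (hxy : x ≤ y) (hy : y ≤ 1) :
    |y ^ 2 - x ^ 2 - (y - x)| ≤
      (if y ≤ 1 / 2 then y - y ^ 2 else 1 / 2 - y + y ^ 2)
        - (if x ≤ 1 / 2 then x - x ^ 2 else 1 / 2 - x + x ^ 2) := by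
  rw [abs_le]
  by_cases h1 : y ≤ 1 / 2
  · have h2 : x ≤ 1 / 2 := hxy.trans h1
    rw [if_pos h1, if_pos h2]
    constructor
    · nlinarith
    · nlinarith [mul_nonneg (sub_nonneg.mpr hxy) (sub_nonneg.mpr (by linarith : x + y ≤ 1))]
  · rw [if_neg h1]
    push Not at h1
    by_cases h2 : x ≤ 1 / 2
    · rw [if_pos h2]
      constructor
      · nlinarith [sq_nonneg (y - 1 / 2)]
      · nlinarith [sq_nonneg (x - 1 / 2)]
    · rw [if_neg h2]
      push Not at h2
      constructor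
      · nlinarith [mul_nonneg (sub_nonneg.mpr hxy) (sub_nonneg.mpr (by linarith : 1 ≤ x + y))]
      · nlinarith

/-- `sq` of a law against the law itself -/
theorem Bd_sq_sub {A : PS} (hA : ∀ n, 0 ≤ coeff n A) (hC : ∀ n, Cum A n ≤ 1) :
    Bd 1 (sq A - A) (1 / 2) := by
  have hc0 : ∀ n, 0 ≤ ∑ j ∈ range n, coeff j A := fun n => Finset.sum_nonneg (fun j _ => hA j)
  have hc1 : ∀ n, ∑ j ∈ range n, coeff j A ≤ 1 := by
    intro n
    rcases Nat.eq_zero_or_pos n with hn | hn
    · subst hn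
      simp
    · obtain ⟨k, rfl⟩ : ∃ k, n = k + 1 := ⟨n - 1, by omega⟩
      exact hC k
  have key : ∀ N : ℕ, ∑ n ∈ range N, |coeff n (sq A - A)| * (1 : ℝ) ^ n ≤
      (if ∑ j ∈ range N, coeff j A ≤ 1 / 2 then
        ∑ j ∈ range N, coeff j A - (∑ j ∈ range N, coeff j A) ^ 2
       else 1 / 2 - ∑ j ∈ range N, coeff j A + (∑ j ∈ range N, coeff j A) ^ 2) := by
    intro N
    induction N with
    | zero => simp
    | succ N ih =>
      rw [Finset.sum_range_succ (fun n => |coeff n (sq A - A)| * (1 : ℝ) ^ n)]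
      have e1 : coeff N (sq A - A) = (∑ j ∈ range (N + 1), coeff j A) ^ 2
          - (∑ j ∈ range N, coeff j A) ^ 2
          - ((∑ j ∈ range (N + 1), coeff j A) - ∑ j ∈ range N, coeff j A) := by
        rw [map_sub, coeff_sq, C1c_aux1, Finset.sum_range_succ (fun j => coeff j A)]
        ring
      have h3 := C1c_aux4 (hc0 N) (by
        rw [Finset.sum_range_succ (fun j => coeff j A)]
        have := hA N
        linarith : ∑ j ∈ range N, coeff j A ≤ ∑ j ∈ range (N + 1), coeff j A) (hc1 (N + 1))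
      rw [← e1] at h3
      rw [one_pow, mul_one]
      linarith
  intro N
  refine (key N).trans ?_
  have a0 := hc0 N
  have a1 := hc1 N
  split_ifs with h
  · nlinarith [sq_nonneg (∑ j ∈ range N, coeff j A)]
  · nlinarith

end MP18
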