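import Pool.Agent.Lib.MP_18566a_pr.T.C1c

set_option autoImplicit false

namespace MP18

open Finset PowerSeries

/-- pointwise product of the coefficients -/
noncomputable def C2_had (A B : PS) : PS := PowerSeries.mk fun n => coeff n A * coeff n B

/-- the factor `G` with `sq A = C2_had A G` -/
noncomputable def C2_G (A : PS) : PS := PowerSeries.mk fun n => 2 * Cum A n - coeff n A

theorem C2_aux1 (A : PS) : sq A = C2_had A (C2_G A) := by
  ext n
  rw [coeff_sq, C2_had, C2_G, coeff_mk, coeff_mk]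

theorem C2_aux2 (A B : PS) :
    nab * C2_had A B = C2_had (nab * A) B + C2_had (X * A) (nab * B) := by
  ext n
  simp only [nab, C2_had, sub_mul, one_mul, map_sub, map_add, coeff_mk]
  rcases n with _ | n
  · simp only [PowerSeries.coeff_zero_X_mul]
    ring
  · simp only [PowerSeries.coeff_succ_X_mul, coeff_mk]
    ring

theorem C2_aux3 (A B C : PS) : C2_had A (B + C) = C2_had A B + C2_had A C := by
  ext n
  simp only [C2_had, map_add, coeff_mk]
  ring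

theorem C2_aux4 (A B C : PS) : C2_had (A + B) C = C2_had A C + C2_had B C := by
  ext n
  simp only [C2_had, map_add, coeff_mk]
  ring

theorem C2_aux5 (A : PS) : nab * C2_G A = (1 + X) * A := by
  ext n
  simp only [nab, C2_G, sub_mul, add_mul, one_mul, map_sub, map_add, coeff_mk]
  rcases n with _ | n
  · simp only [PowerSeries.coeff_zero_X_mul]
    rw [C1c_aux1]
    simp only [Finset.range_zero, Finset.sum_empty]
    ring
  · simp only [PowerSeries.coeff_succ_X_mul, coeff_mk]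
    have h1 := C1c_aux1 A (n + 1)
    have h2 : ∑ j ∈ range (n + 1), coeff j A = Cum A n := rfl
    rw [h1, h2]
    ring

/-- sum bound times sup bound -/
theorem C2_aux6 {A B : PS} {c g : ℝ} (hA : Bd 1 A c) (hg : ∀ n, |coeff n B| ≤ g) :
    Bd 1 (C2_had A B) (c * g) := by
  intro N
  have hg0 : 0 ≤ g := (abs_nonneg _).trans (hg 0)
  calc ∑ n ∈ range N, |coeff n (C2_had A B)| * (1 : ℝ) ^ n
      ≤ ∑ n ∈ range N, (|coeff n A| * (1 : ℝ) ^ n) * g := by
        apply Finset.sum_le_sum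
        intro n _
        rw [C2_had, coeff_mk, abs_mul, one_pow, mul_one, mul_one]
        exact mul_le_mul_of_nonneg_left (hg n) (abs_nonneg _)
    _ = (∑ n ∈ range N, |coeff n A| * (1 : ℝ) ^ n) * g := by rw [Finset.sum_mul]
    _ ≤ c * g := mul_le_mul_of_nonneg_right (hA N) hg0

theorem C2_aux7 {A B : PS} {c g : ℝ} (hA : ∀ n, |coeff n A| ≤ g) (hB : Bd 1 B c) :
    Bd 1 (C2_had A B) (g * c) := by
  have h : C2_had A B = C2_had B A := by
    ext n
    simp only [C2_had, coeff_mk]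
    ring
  rw [h, mul_comm g c]
  exact C2_aux6 hB hA

theorem C2_aux8 {A : PS} {c : ℝ} (h : Bd 1 A c) (k : ℕ) : Bd 1 (X ^ k * A) c := by
  have := Bd_mul (r := 1) (by norm_num) (Bd_Xpow (r := 1) (by norm_num) k) h
  rwa [one_pow, one_mul] at this

theorem C2_aux9 {A : PS} {c : ℝ} (h : Bd 1 A c) : Bd 1 ((1 + X) * A) (2 * c) := by
  have h1 : Bd 1 (1 + X : PS) (1 + 1) :=
    Bd_add (by norm_num) (Bd_one (by norm_num)) (Bd_X (by norm_num))
  have h2 := Bd_mul (r := 1) (by norm_num) h1 h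
  norm_num at h2
  exact h2

/-- `|G| ≤ 2` -/
theorem C2_aux10 {A : PS} (hA : Bd 1 A 1) (n : ℕ) : |coeff n (C2_G A)| ≤ 2 := by
  rw [C2_G, coeff_mk]
  have h1 := C1c_aux1 A n
  have h2 := Cum_le hA n
  have h3 := C1c_aux2 hA n
  have h4 : 2 * Cum A n - coeff n A = Cum A n + ∑ j ∈ range n, coeff j A := by
    rw [h1]; ring
  rw [h4]
  refine (abs_add_le _ _).trans ?_
  linarith

/-- sup bound of `nab * G` -/
theorem C2_aux11 {A : PS} {d1 : ℝ} (h1 : Bd 1 (nab * A) d1) (n : ℕ) :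
    |coeff n (nab * C2_G A)| ≤ 2 * d1 := by
  rw [C2_aux5]
  apply Bd_nab_coeff
  have e : nab * ((1 + X) * A) = (1 + X) * (nab * A) := by ring
  rw [e]
  exact C2_aux9 h1

/-- sup bound of a shift -/
theorem C2_aux12 {A : PS} {d1 : ℝ} (h1 : Bd 1 (nab * A) d1) (k n : ℕ) :
    |coeff n (X ^ k * A)| ≤ d1 := by
  apply Bd_nab_coeff
  have e : nab * (X ^ k * A) = X ^ k * (nab * A) := by ring
  rw [e]
  exact C2_aux8 h1 k

theorem C2_aux13 (A : PS) : nab * sq A =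
    C2_had (nab * A) (C2_G A) + C2_had (X ^ 1 * A) (nab * C2_G A) := by
  rw [C2_aux1, C2_aux2, pow_one]

theorem C2_aux14 (A : PS) : nab ^ 2 * sq A =
    C2_had (nab ^ 2 * A) (C2_G A) + (C2_had (X ^ 1 * (nab * A)) (nab * C2_G A)
      + C2_had (X ^ 1 * (nab * A)) (nab * C2_G A)) + C2_had (X ^ 2 * A) ((1 + X) * (nab * A)) := by
  have e0 : nab ^ 2 * sq A = nab * (nab * sq A) := by ring
  have e1 : nab * (nab * A) = nab ^ 2 * A := by ring
  have e2 : X * (nab * A) = X ^ 1 * (nab * A) := by ring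
  have e3 : nab * (X ^ 1 * A) = X ^ 1 * (nab * A) := by ring
  have e4 : X * (X ^ 1 * A) = X ^ 2 * A := by ring
  have e5 : nab * (nab * C2_G A) = (1 + X) * (nab * A) := by
    rw [C2_aux5]; ring
  rw [e0, C2_aux13, mul_add, C2_aux2, C2_aux2 (X ^ 1 * A), e1, e2, e3, e4, e5]
  ring

theorem C2_aux15 (A : PS) : nab ^ 3 * sq A =
    C2_had (nab ^ 3 * A) (C2_G A) + (C2_had (X ^ 1 * (nab ^ 2 * A)) (nab * C2_G A)
      + C2_had (X ^ 1 * (nab ^ 2 * A)) (nab * C2_G A)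
      + C2_had (X ^ 1 * (nab ^ 2 * A)) (nab * C2_G A))
      + (C2_had (X ^ 2 * (nab * A)) ((1 + X) * (nab * A))
        + C2_had (X ^ 2 * (nab * A)) ((1 + X) * (nab * A))
        + C2_had (X ^ 2 * (nab * A)) ((1 + X) * (nab * A)))
      + C2_had (X ^ 3 * A) ((1 + X) * (nab ^ 2 * A)) := by
  have e0 : nab ^ 3 * sq A = nab * (nab ^ 2 * sq A) := by ring
  have e1 : nab * (nab ^ 2 * A) = nab ^ 3 * A := by ring
  have e2 : X * (nab ^ 2 * A) = X ^ 1 * (nab ^ 2 * A) := by ring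
  have e3 : nab * (X ^ 1 * (nab * A)) = X ^ 1 * (nab ^ 2 * A) := by ring
  have e4 : X * (X ^ 1 * (nab * A)) = X ^ 2 * (nab * A) := by ring
  have e5 : nab * (nab * C2_G A) = (1 + X) * (nab * A) := by
    rw [C2_aux5]; ring
  have e6 : nab * (X ^ 2 * A) = X ^ 2 * (nab * A) := by ring
  have e7 : X * (X ^ 2 * A) = X ^ 3 * A := by ring
  have e8 : nab * ((1 + X) * (nab * A)) = (1 + X) * (nab ^ 2 * A) := by ring
  rw [e0, C2_aux14, mul_add, mul_add, mul_add, C2_aux2, C2_aux2 (X ^ 1 * (nab * A)),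
    C2_aux2 (X ^ 2 * A), e1, e2, e3, e4, e5, e6, e7, e8]
  ring

theorem Bd_nab_sq {A : PS} {d1 : ℝ} (hA : Bd 1 A 1) (h1 : Bd 1 (nab * A) d1) :
    Bd 1 (nab * sq A) (4 * d1) := by
  rw [C2_aux13]
  have a1 := C2_aux6 h1 (C2_aux10 hA)
  have a2 := C2_aux6 (C2_aux8 hA 1) (C2_aux11 h1)
  refine Bd_mono (Bd_add (by norm_num) a1 a2) (le_of_eq ?_)
  ring

theorem Bd_nab2_sq {A : PS} {d1 d2 : ℝ} (hA : Bd 1 A 1) (h1 : Bd 1 (nab * A) d1)
    (h2 : Bd 1 (nab ^ 2 * A) d2) : Bd 1 (nab ^ 2 * sq A) (2 * d2 + 6 * d1 ^ 2) := by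
  rw [C2_aux14]
  have a1 := C2_aux6 h2 (C2_aux10 hA)
  have a2 := C2_aux6 (C2_aux8 h1 1) (C2_aux11 h1)
  have a3 := C2_aux7 (C2_aux12 h1 2) (C2_aux9 h1)
  have z : (0 : ℝ) ≤ 1 := by norm_num
  refine Bd_mono (Bd_add z (Bd_add z a1 (Bd_add z a2 a2)) a3) (le_of_eq ?_)
  ring

theorem Bd_nab3_sq {A : PS} {d1 d2 d3 : ℝ} (hA : Bd 1 A 1) (h1 : Bd 1 (nab * A) d1)
    (h2 : Bd 1 (nab ^ 2 * A) d2) (h3 : Bd 1 (nab ^ 3 * A) d3) :
    Bd 1 (nab ^ 3 * sq A) (2 * d3 + 14 * d1 * d2) := by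
  rw [C2_aux15]
  have a1 := C2_aux6 h3 (C2_aux10 hA)
  have a2 := C2_aux6 (C2_aux8 h2 1) (C2_aux11 h1)
  have b1 : Bd 1 (nab * ((1 + X) * (nab * A))) (2 * d2) := by
    have e : nab * ((1 + X) * (nab * A)) = (1 + X) * (nab ^ 2 * A) := by ring
    rw [e]
    exact C2_aux9 h2
  have a3 := C2_aux6 (C2_aux8 h1 2) (Bd_nab_coeff b1)
  have a4 := C2_aux7 (C2_aux12 h1 3) (C2_aux9 h2)
  have z : (0 : ℝ) ≤ 1 := by norm_num
  refine Bd_mono (Bd_add z (Bd_add z (Bd_add z a1 (Bd_add z (Bd_add z a2 a2) a2))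
    (Bd_add z (Bd_add z a3 a3) a3)) a4) (le_of_eq ?_)
  ring

end MP18
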