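import Pool.Agent.Lib.MP_18566a_pr.T.C1c

set_option autoImplicit false

namespace MP18

open Finset PowerSeries

theorem coeff_U (n j : ℕ) : coeff j (U n) = if j < n then 1 / (n : ℝ) else 0 := by
  rw [U, PowerSeries.coeff_mk]

theorem U_nn (n j : ℕ) : 0 ≤ coeff j (U n) := by
  rw [coeff_U]; split_ifs <;> positivity

theorem Cpl_U {n : ℕ} (hn : 0 < n) : Cpl (U n) n 1 := by
  constructor
  · intro j hj
    rw [coeff_U, if_neg (by omega)]
  · rw [Finset.sum_congr rfl (fun j hj => by
      rw [coeff_U, if_pos (Finset.mem_range.1 hj)] : ∀ j ∈ range n, coeff j (U n) = 1 / (n : ℝ))]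
    rw [Finset.sum_const, Finset.card_range, nsmul_eq_mul]
    have : (n : ℝ) ≠ 0 := by positivity
    field_simp

theorem nab_U (n : ℕ) : nab * U n = (1 / (n : ℝ)) • (1 - X ^ n) := by
  ext k
  rw [nab, sub_mul, one_mul, map_sub, coeff_U, map_smul, map_sub, PowerSeries.coeff_X_pow,
    PowerSeries.coeff_one, smul_eq_mul]
  cases k with
  | zero =>
    rw [PowerSeries.coeff_zero_X_mul]
    by_cases hn : n = 0
    · subst hn; simp
    · have h0 : 0 < n := Nat.pos_of_ne_zero hn
      rw [if_pos h0, if_pos rfl, if_neg (by omega)]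
      ring
  | succ k =>
    rw [PowerSeries.coeff_succ_X_mul, coeff_U]
    rw [if_neg (Nat.succ_ne_zero k)]
    by_cases h1 : k + 1 < n
    · rw [if_pos h1, if_pos (by omega), if_neg (by omega)]; ring
    · by_cases h2 : k + 1 = n
      · rw [if_neg h1, if_pos (by omega), if_pos h2]; ring
      · rw [if_neg h1, if_neg (by omega), if_neg h2]; ring

theorem Bd_U (n : ℕ) : Bd 1 (U n) 1 := by
  rcases Nat.eq_zero_or_pos n with h | h
  · subst h
    intro N
    rw [Finset.sum_eq_zero]
    · norm_num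
    · intro j _
      rw [coeff_U, if_neg (by omega)]; simp
  · exact Bd_of_Cpl (U_nn n) (Cpl_U h)

theorem Bd_nab_U (n : ℕ) : Bd 1 (nab * U n) (2 / n) := by
  rw [nab_U]
  have h1 : Bd 1 ((1 : PS) - X ^ n) (1 + 1) := by
    have h := Bd_sub (zero_le_one) (Bd_one (r := 1) zero_le_one) (Bd_Xpow (r := 1) zero_le_one n)
    simpa using h
  have h2 := Bd_smul (1 / (n : ℝ)) h1
  refine Bd_mono h2 (le_of_eq ?_)
  rw [abs_of_nonneg (by positivity)]
  ring

end MP18
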