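import Pool.Agent.Lib.MP_18566a_pr.T.Defs

set_option autoImplicit false

namespace MP18

open Finset PowerSeries

theorem C4g_aux1 {y' y W W' V : ℕ} (g : Geo y' y W W' V) : (10 ^ 250 : ℝ) * y' ≤ y := by
  have h := g.sep
  unfold L0 at h
  exact h

theorem C4g_aux2 {y' y W W' V : ℕ} (g : Geo y' y W W' V) : (1 : ℝ) ≤ y' := by
  have h := g.pos
  exact_mod_cast h

theorem Geo.y_pos {y' y W W' V : ℕ} (g : Geo y' y W W' V) : 0 < y := by
  have h1 := C4g_aux1 g
  have h2 := C4g_aux2 g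
  have h3 : (0 : ℝ) < y := by
    have : (0 : ℝ) < 10 ^ 250 * y' := by positivity
    linarith
  exact_mod_cast h3

theorem Geo.W_pos {y' y W W' V : ℕ} (g : Geo y' y W W' V) : 0 < W := by
  have h1 : (0 : ℝ) < y := by exact_mod_cast g.y_pos
  have h2 := g.Wlo
  have h3 : 0 < ww * y / 2 := by
    unfold ww
    positivity
  have h4 : (0 : ℝ) < W := by linarith
  exact_mod_cast h4

theorem Geo.W'_pos {y' y W W' V : ℕ} (g : Geo y' y W W' V) : 0 < W' := by
  have h1 : (0 : ℝ) < W := by exact_mod_cast g.W_pos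
  have h2 := g.W'lo
  have h4 : (0 : ℝ) < W' := by linarith
  exact_mod_cast h4

/-- the half width is tiny -/
theorem Geo.mid_le {y' y W W' V : ℕ} (g : Geo y' y W W' V) :
    (mid W W' : ℝ) ≤ 6 / 10 * W ∧ (10 ^ 6 : ℝ) * mid W W' ≤ y := by
  have h1 : (0 : ℝ) < W := by exact_mod_cast g.W_pos
  have h2 : (mid W W' : ℝ) ≤ W / 2 + W' := by
    have e1 : 2 * mid W W' ≤ W + 2 * W' := by
      unfold mid
      omega
    have e2 : ((2 * mid W W' : ℕ) : ℝ) ≤ ((W + 2 * W' : ℕ) : ℝ) := by exact_mod_cast e1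
    push_cast at e2
    linarith
  have h3 := g.W'hi
  have h4 : (mid W W' : ℝ) ≤ 6 / 10 * W := by linarith
  refine ⟨h4, ?_⟩
  have h5 := g.Whi
  have h6 : (0 : ℝ) < y := by exact_mod_cast g.y_pos
  have h7 : (W : ℝ) ≤ y / 10 ^ 6 := by
    refine h5.trans ?_
    unfold ww
    rw [div_mul_eq_mul_div, one_mul]
    apply div_le_div_of_nonneg_left h6.le (by norm_num)
    norm_num
  have h8 : (mid W W' : ℝ) ≤ y / 10 ^ 6 := by linarith
  rw [le_div_iff₀ (by norm_num)] at h8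
  linarith

theorem Geo.y'_le {y' y W W' V : ℕ} (g : Geo y' y W W' V) : 10 ^ 6 * y' ≤ y := by
  have h1 := C4g_aux1 g
  have h2 := C4g_aux2 g
  have h3 : (10 ^ 6 : ℝ) * y' ≤ 10 ^ 250 * y' := by
    apply mul_le_mul_of_nonneg_right _ (by linarith)
    norm_num
  have h4 : (10 ^ 6 : ℝ) * y' ≤ y := h3.trans h1
  exact_mod_cast h4

theorem Geo.V_le {y' y W W' V : ℕ} (g : Geo y' y W W' V) : V ≤ y' := by
  have h1 := g.Vhi
  have h2 := C4g_aux2 g
  have h3 : (V : ℝ) ≤ y' := by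
    refine h1.trans ?_
    have : 2 * vv * (y' : ℝ) ≤ 1 * y' := by
      apply mul_le_mul_of_nonneg_right _ (by linarith)
      unfold vv
      norm_num
    linarith
  exact_mod_cast h3

theorem Geo.V_small {y' y W W' V : ℕ} (g : Geo y' y W W' V) : 10 ^ 6 * V ≤ y := by
  have h1 := g.V_le
  have h2 := g.y'_le
  omega

end MP18
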