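import Pool.Agent.Lib.MP_18566a_pr.T.C3
import Pool.Agent.Lib.MP_18566a_pr.T.A3
import Pool.Agent.Lib.MP_18566a_pr.T.C4g

set_option autoImplicit false

namespace MP18

open Finset PowerSeries

theorem C4a_aux1 {A B : PS} (hA : ∀ n, 0 ≤ coeff n A) (hB : ∀ n, 0 ≤ coeff n B) (n : ℕ) :
    0 ≤ coeff n (A * B) := by
  rw [coeff_mul]
  exact sum_nonneg fun p _ => mul_nonneg (hA _) (hB _)

theorem C4a_aux2 (n : ℕ) : 0 ≤ coeff n (1 : PS) := by
  rw [coeff_one]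
  split_ifs
  · exact zero_le_one
  · exact le_refl 0

theorem C4a_aux3 {A : PS} (hA : ∀ n, 0 ≤ coeff n A) (j n : ℕ) : 0 ≤ coeff n (A ^ j) := by
  induction j generalizing n with
  | zero =>
    rw [pow_zero]
    exact C4a_aux2 n
  | succ j ih =>
    rw [pow_succ]
    exact C4a_aux1 ih hA n

/-- palindromes of degree `d` -/
def C4a_Pal (A : PS) (d : ℕ) : Prop :=
  ∃ p : Polynomial ℝ, (p : PS) = A ∧ p.natDegree ≤ d ∧ p.reflect d = p

theorem C4a_aux4 {A B : PS} {d e : ℕ} (hA : C4a_Pal A d) (hB : C4a_Pal B e) :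
    C4a_Pal (A * B) (d + e) := by
  obtain ⟨p, hp1, hp2, hp3⟩ := hA
  obtain ⟨q, hq1, hq2, hq3⟩ := hB
  refine ⟨p * q, ?_, ?_, ?_⟩
  · rw [Polynomial.coe_mul, hp1, hq1]
  · exact le_trans Polynomial.natDegree_mul_le (Nat.add_le_add hp2 hq2)
  · rw [Polynomial.reflect_mul _ _ hp2 hq2, hp3, hq3]

theorem C4a_aux5 {n : ℕ} (hn : 0 < n) : C4a_Pal (U n) (n - 1) := by
  refine ⟨trunc n (U n), ?_, ?_, ?_⟩
  · ext i
    rw [Polynomial.coeff_coe, coeff_trunc, coeff_U]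
    split_ifs <;> rfl
  · rw [Polynomial.natDegree_le_iff_coeff_eq_zero]
    intro i hi
    rw [coeff_trunc, if_neg (by omega)]
  · ext i
    rw [Polynomial.coeff_reflect, coeff_trunc, coeff_trunc, coeff_U, coeff_U]
    rcases Nat.lt_or_ge (n - 1) i with h | h
    · rw [Polynomial.revAt_eq_self_of_lt h]
    · rw [Polynomial.revAt_le h, if_pos (by omega), if_pos (by omega), if_pos (by omega),
        if_pos (by omega)]

theorem C4a_aux6 {A : PS} {d n : ℕ} (hA : C4a_Pal A d) (hn : n ≤ d) :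
    coeff n A = coeff (d - n) A := by
  obtain ⟨p, hp1, _, hp3⟩ := hA
  have h : p.coeff n = p.coeff (d - n) := by
    conv_lhs => rw [← hp3]
    rw [Polynomial.coeff_reflect, Polynomial.revAt_le hn]
  rw [← hp1, Polynomial.coeff_coe, Polynomial.coeff_coe, h]

theorem C4a_aux7 {W W' : ℕ} (hW : Odd W) (hW' : 0 < W') :
    (W - 1) + ((W' - 1) + (W' - 1)) = 2 * mid W W' := by
  unfold mid
  obtain ⟨k, hk⟩ := hW
  omega

theorem bsh_nn (W W' n : ℕ) : 0 ≤ coeff n (bsh W W') := by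
  unfold bsh
  exact C4a_aux1 (U_nn W) (C4a_aux3 (U_nn W') 2) n

theorem bsh_symm {W W' : ℕ} (hW : Odd W) (hW' : 0 < W') {n : ℕ} (hn : n ≤ 2 * mid W W') :
    coeff n (bsh W W') = coeff (2 * mid W W' - n) (bsh W W') := by
  have h := C4a_aux4 (C4a_aux5 hW.pos) (C4a_aux4 (C4a_aux5 hW') (C4a_aux5 hW'))
  rw [C4a_aux7 hW hW', ← pow_two] at h
  exact C4a_aux6 h hn

theorem Cpl_bsh {W W' : ℕ} (hW : Odd W) (hW' : 0 < W') :
    Cpl (bsh W W') (2 * mid W W' + 1) 1 := by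
  have hWp := hW.pos
  have h1 : Cpl (U W) ((W - 1) + 1) 1 := by
    rw [Nat.sub_add_cancel hWp]
    exact Cpl_U hWp
  have h2 : Cpl (U W') ((W' - 1) + 1) 1 := by
    rw [Nat.sub_add_cancel hW']
    exact Cpl_U hW'
  have h := Cpl_mul h1 (Cpl_mul h2 h2)
  rw [C4a_aux7 hW hW', mul_one, mul_one, ← pow_two] at h
  exact h

theorem bet_nn (y W W' n : ℕ) : 0 ≤ coeff n (bet y W W') := by
  unfold bet
  rw [coeff_X_pow_mul']
  split_ifs
  · exact bsh_nn W W' _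
  · exact le_refl 0

theorem bet_pow_nn (y W W' j n : ℕ) : 0 ≤ coeff n (bet y W W' ^ j) :=
  C4a_aux3 (bet_nn y W W') j n

theorem bet_low {y' y W W' V : ℕ} (g : Geo y' y W W' V) (j : ℕ) :
    ∀ n < j * (3 * y - mid W W'), coeff n (bet y W W' ^ j) = 0 := by
  intro n hn
  unfold bet
  rw [mul_pow, ← pow_mul, coeff_X_pow_mul', if_neg]
  rw [mul_comm]
  omega

theorem C4a_aux8 (k : ℕ) : Cpl (X ^ k : PS) (k + 1) 1 := by
  constructor
  · intro n hn
    rw [coeff_X_pow, if_neg (by omega)]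
  · rw [sum_range_succ, coeff_X_pow, if_pos rfl, sum_eq_zero, zero_add]
    intro i hi
    have hi' := mem_range.1 hi
    rw [coeff_X_pow, if_neg (by omega)]

theorem C4a_aux9 {y' y W W' V : ℕ} (g : Geo y' y W W' V) : 10 ^ 6 * mid W W' ≤ y := by
  have h := g.mid_le.2
  exact_mod_cast h

theorem C4a_aux10 {y' y W W' V : ℕ} (g : Geo y' y W W' V) :
    Cpl (bet y W W') (3 * y + mid W W' + 1) 1 := by
  have h := Cpl_mul (C4a_aux8 (3 * y - mid W W')) (Cpl_bsh g.odd g.W'_pos)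
  rw [mul_one] at h
  have hm := C4a_aux9 g
  have e : 3 * y - mid W W' + 2 * mid W W' + 1 = 3 * y + mid W W' + 1 := by omega
  rw [e] at h
  exact h

theorem Cpl_bet_pow {y' y W W' V : ℕ} (g : Geo y' y W W' V) (j : ℕ) :
    Cpl (bet y W W' ^ j) (j * (3 * y + mid W W') + 1) 1 := by
  induction j with
  | zero =>
    rw [pow_zero, zero_mul, zero_add]
    have h := C4a_aux8 0
    rw [pow_zero] at h
    exact h
  | succ j ih =>
    have h := Cpl_mul ih (C4a_aux10 g)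
    rw [mul_one] at h
    rw [pow_succ, Nat.succ_mul]
    exact h

theorem Bd_bet_pow {y' y W W' V : ℕ} (g : Geo y' y W W' V) (j : ℕ) :
    Bd 1 (bet y W W' ^ j) 1 :=
  Bd_of_Cpl (bet_pow_nn y W W' j) (Cpl_bet_pow g j)

theorem C4a_aux11 (k : ℕ) : Bd 1 (X ^ k : PS) 1 := by
  have h := Bd_Xpow (r := 1) zero_le_one k
  rw [one_pow] at h
  exact h

theorem C4a_aux12 (y W W' i : ℕ) : bet y W W' ^ (i + 1) =
    bet y W W' ^ i * (X ^ (3 * y - mid W W') * (U W * U W' ^ 2)) := by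
  rw [pow_succ]
  rfl

theorem Bd_nab_bet_pow {y' y W W' V : ℕ} (g : Geo y' y W W' V) {j : ℕ} (hj : 1 ≤ j) :
    Bd 1 (nab * bet y W W' ^ j) (2 / W) := by
  obtain ⟨i, rfl⟩ : ∃ i, j = i + 1 := ⟨j - 1, by omega⟩
  have e : nab * bet y W W' ^ (i + 1) = (nab * U W) * (X ^ (3 * y - mid W W') *
      (U W' * (U W' * bet y W W' ^ i))) := by
    rw [C4a_aux12]
    ring
  rw [e]
  have h := Bd_mul zero_le_one (Bd_nab_U W) (Bd_mul zero_le_one (C4a_aux11 (3 * y - mid W W'))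
    (Bd_mul zero_le_one (Bd_U W') (Bd_mul zero_le_one (Bd_U W') (Bd_bet_pow g i))))
  refine Bd_mono h (le_of_eq ?_)
  ring

theorem Bd_nab2_bet_pow {y' y W W' V : ℕ} (g : Geo y' y W W' V) {j : ℕ} (hj : 1 ≤ j) :
    Bd 1 (nab ^ 2 * bet y W W' ^ j) (4 / (W * W')) := by
  obtain ⟨i, rfl⟩ : ∃ i, j = i + 1 := ⟨j - 1, by omega⟩
  have e : nab ^ 2 * bet y W W' ^ (i + 1) = (nab * U W) * (X ^ (3 * y - mid W W') *
      ((nab * U W') * (U W' * bet y W W' ^ i))) := by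
    rw [C4a_aux12]
    ring
  rw [e]
  have h := Bd_mul zero_le_one (Bd_nab_U W) (Bd_mul zero_le_one (C4a_aux11 (3 * y - mid W W'))
    (Bd_mul zero_le_one (Bd_nab_U W') (Bd_mul zero_le_one (Bd_U W') (Bd_bet_pow g i))))
  refine Bd_mono h (le_of_eq ?_)
  have h1 : (W : ℝ) ≠ 0 := Nat.cast_ne_zero.2 g.W_pos.ne'
  have h2 : (W' : ℝ) ≠ 0 := Nat.cast_ne_zero.2 g.W'_pos.ne'
  field_simp
  norm_num

theorem Bd_nab3_bet_pow {y' y W W' V : ℕ} (g : Geo y' y W W' V) {j : ℕ} (hj : 1 ≤ j) :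
    Bd 1 (nab ^ 3 * bet y W W' ^ j) (8 / (W * W' ^ 2)) := by
  obtain ⟨i, rfl⟩ : ∃ i, j = i + 1 := ⟨j - 1, by omega⟩
  have e : nab ^ 3 * bet y W W' ^ (i + 1) = (nab * U W) * (X ^ (3 * y - mid W W') *
      ((nab * U W') * ((nab * U W') * bet y W W' ^ i))) := by
    rw [C4a_aux12]
    ring
  rw [e]
  have h := Bd_mul zero_le_one (Bd_nab_U W) (Bd_mul zero_le_one (C4a_aux11 (3 * y - mid W W'))
    (Bd_mul zero_le_one (Bd_nab_U W') (Bd_mul zero_le_one (Bd_nab_U W') (Bd_bet_pow g i))))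
  refine Bd_mono h (le_of_eq ?_)
  have h1 : (W : ℝ) ≠ 0 := Nat.cast_ne_zero.2 g.W_pos.ne'
  have h2 : (W' : ℝ) ≠ 0 := Nat.cast_ne_zero.2 g.W'_pos.ne'
  field_simp
  norm_num

/-- weighted norm of one step -/
theorem Bd_bet_r {y' y W W' V : ℕ} (g : Geo y' y W W' V) {r : ℝ} (hr : Adm r y) :
    Bd r (bet y W W') (1 + 1 / 10 ^ 5) := by
  have h1 : Bd 1 (bet y W W') 1 := by
    have h := Bd_bet_pow g 1
    rw [pow_one] at h
    exact h
  have h2 : ∀ n, 10 * y < n → coeff n (bet y W W') = 0 := by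
    intro n hn
    have hm := C4a_aux9 g
    exact (C4a_aux10 g).1 n (by omega)
  have h := Bd_supp hr h2 h1
  rw [mul_one] at h
  exact h

end MP18
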