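import Pool.Agent.Lib.MP_18566a_pr.T.C4a
import Pool.Agent.Lib.MP_18566a_pr.T.C0
import Pool.Agent.Lib.MP_18566a_pr.T.C2

set_option autoImplicit false

namespace MP18

open Finset PowerSeries

theorem C4b_aux1 : 0 ≤ q1 := by
  have := q1_bd.1
  linarith

theorem C4b_aux2 : 0 ≤ q2 := by
  have := q2_bd.1
  linarith

theorem C4b_aux3 : 0 ≤ q3 := by
  have := q3_bd.1
  linarith

theorem C4b_aux4 (y W W' n : ℕ) : coeff n (Qs y W W') = q1 * coeff n (bet y W W')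
    + q2 * coeff n (bet y W W' ^ 2) + q3 * coeff n (bet y W W' ^ 3) := by
  unfold Qs
  rw [map_add, map_add, map_smul, map_smul, map_smul, smul_eq_mul, smul_eq_mul, smul_eq_mul]

theorem Qs_nn (y W W' n : ℕ) : 0 ≤ coeff n (Qs y W W') := by
  rw [C4b_aux4]
  have h1 := mul_nonneg C4b_aux1 (bet_nn y W W' n)
  have h2 := mul_nonneg C4b_aux2 (bet_pow_nn y W W' 2 n)
  have h3 := mul_nonneg C4b_aux3 (bet_pow_nn y W W' 3 n)
  linarith

theorem C4b_aux5 {y' y W W' V : ℕ} (g : Geo y' y W W' V) :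
    ∀ n < 3 * y - mid W W', coeff n (bet y W W') = 0 := by
  intro n hn
  have h := bet_low g 1 n (by omega)
  rw [pow_one] at h
  exact h

theorem C4b_aux6 {y' y W W' V : ℕ} (g : Geo y' y W W' V) :
    Cpl (bet y W W') (3 * y + mid W W' + 1) 1 := by
  have h := Cpl_bet_pow g 1
  rw [pow_one, one_mul] at h
  exact h

theorem Qs_low {y' y W W' V : ℕ} (g : Geo y' y W W' V) :
    ∀ n < 3 * y - mid W W', coeff n (Qs y W W') = 0 := by
  intro n hn
  rw [C4b_aux4, C4b_aux5 g n hn, bet_low g 2 n (by omega), bet_low g 3 n (by omega)]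
  ring

theorem Cpl_Qs {y' y W W' V : ℕ} (g : Geo y' y W W' V) :
    Cpl (Qs y W W') (9 * y + 3 * mid W W' + 1) (q1 + q2 + q3) := by
  have h1 := Cpl_smul q1 (Cpl_mono (C4b_aux6 g)
    (by omega : 3 * y + mid W W' + 1 ≤ 9 * y + 3 * mid W W' + 1))
  have h2 := Cpl_smul q2 (Cpl_mono (Cpl_bet_pow g 2)
    (by omega : 2 * (3 * y + mid W W') + 1 ≤ 9 * y + 3 * mid W W' + 1))
  have h3 := Cpl_smul q3 (Cpl_mono (Cpl_bet_pow g 3)
    (by omega : 3 * (3 * y + mid W W') + 1 ≤ 9 * y + 3 * mid W W' + 1))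
  have h := Cpl_add (Cpl_add h1 h2) h3
  rw [mul_one, mul_one, mul_one] at h
  exact h

theorem C4b_aux7 : q1 + q2 + q3 ≤ 0.791702 := by
  have h1 := q1_bd.2
  have h2 := q2_bd.2
  have h3 := q3_bd.2
  linarith

theorem Bd_Qs {y' y W W' V : ℕ} (g : Geo y' y W W' V) : Bd 1 (Qs y W W') 0.7918 := by
  have h := Bd_of_Cpl (Qs_nn y W W') (Cpl_Qs g)
  refine Bd_mono h ?_
  have := C4b_aux7
  linarith

theorem C4b_aux8 {B : PS} {C : ℝ} {y W W' : ℕ} (h1 : Bd 1 (B * bet y W W') C)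
    (h2 : Bd 1 (B * bet y W W' ^ 2) C) (h3 : Bd 1 (B * bet y W W' ^ 3) C) :
    Bd 1 (B * Qs y W W') (0.791702 * C) := by
  have e : B * Qs y W W' = q1 • (B * bet y W W') + q2 • (B * bet y W W' ^ 2)
      + q3 • (B * bet y W W' ^ 3) := by
    unfold Qs
    rw [mul_add, mul_add, mul_smul_comm, mul_smul_comm, mul_smul_comm]
  rw [e]
  have h := Bd_add zero_le_one (Bd_add zero_le_one (Bd_smul q1 h1) (Bd_smul q2 h2))
    (Bd_smul q3 h3)
  refine Bd_mono h ?_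
  rw [abs_of_nonneg C4b_aux1, abs_of_nonneg C4b_aux2, abs_of_nonneg C4b_aux3]
  have hC := Bd_nonneg h1
  have := mul_le_mul_of_nonneg_right C4b_aux7 hC
  linarith

theorem C4b_aux9 {x c d : ℝ} (hx : 0 ≤ x) (hcd : 0.791702 * c ≤ d) :
    0.791702 * (c / x) ≤ d / x := by
  rw [← mul_div_assoc]
  exact div_le_div_of_nonneg_right hcd hx

theorem Bd_nab_Qs {y' y W W' V : ℕ} (g : Geo y' y W W' V) :
    Bd 1 (nab * Qs y W W') (1.584 / W) := by
  have h1 := Bd_nab_bet_pow g (le_refl 1)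
  rw [pow_one] at h1
  have h := C4b_aux8 h1 (Bd_nab_bet_pow g (by norm_num : 1 ≤ 2))
    (Bd_nab_bet_pow g (by norm_num : 1 ≤ 3))
  exact Bd_mono h (C4b_aux9 (Nat.cast_nonneg W) (by norm_num))

theorem Bd_nab2_Qs {y' y W W' V : ℕ} (g : Geo y' y W W' V) :
    Bd 1 (nab ^ 2 * Qs y W W') (3.168 / (W * W')) := by
  have h1 := Bd_nab2_bet_pow g (le_refl 1)
  rw [pow_one] at h1
  have h := C4b_aux8 h1 (Bd_nab2_bet_pow g (by norm_num : 1 ≤ 2))
    (Bd_nab2_bet_pow g (by norm_num : 1 ≤ 3))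
  exact Bd_mono h (C4b_aux9 (by positivity) (by norm_num))

theorem Bd_nab3_Qs {y' y W W' V : ℕ} (g : Geo y' y W W' V) :
    Bd 1 (nab ^ 3 * Qs y W W') (6.336 / (W * W' ^ 2)) := by
  have h1 := Bd_nab3_bet_pow g (le_refl 1)
  rw [pow_one] at h1
  have h := C4b_aux8 h1 (Bd_nab3_bet_pow g (by norm_num : 1 ≤ 2))
    (Bd_nab3_bet_pow g (by norm_num : 1 ≤ 3))
  exact Bd_mono h (C4b_aux9 (by positivity) (by norm_num))

theorem C4b_aux10 {y' y W W' V : ℕ} (g : Geo y' y W W' V) : 10 ^ 6 * mid W W' ≤ y := by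
  have h := g.mid_le.2
  exact_mod_cast h

theorem sq_Qs {y' y W W' V : ℕ} (g : Geo y' y W W' V) :
    sq (Qs y W W') = q1 ^ 2 • sq (bet y W W') + (2 * q1 * q2) • bet y W W' ^ 2
      + q2 ^ 2 • sq (bet y W W' ^ 2) + (2 * (q1 + q2) * q3) • bet y W W' ^ 3
      + q3 ^ 2 • sq (bet y W W' ^ 3) := by
  have hm := C4b_aux10 g
  have hy := g.y_pos
  have h1 := Cpl_smul q1 (C4b_aux6 g)
  have h2 := Cpl_smul q2 (Cpl_bet_pow g 2)
  have h12 := Cpl_add (Cpl_mono h1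
    (by omega : 3 * y + mid W W' + 1 ≤ 2 * (3 * y + mid W W') + 1)) h2
  have e1 : sq (q1 • bet y W W' + q2 • bet y W W' ^ 2) = sq (q1 • bet y W W')
      + (2 * (q1 * 1)) • (q2 • bet y W W' ^ 2) + sq (q2 • bet y W W' ^ 2) := by
    refine sq_add_Cpl h1 ?_
    intro n hn
    rw [map_smul, bet_low g 2 n (by omega), smul_zero]
  have e2 : sq (q1 • bet y W W' + q2 • bet y W W' ^ 2 + q3 • bet y W W' ^ 3)
      = sq (q1 • bet y W W' + q2 • bet y W W' ^ 2)
      + (2 * (q1 * 1 + q2 * 1)) • (q3 • bet y W W' ^ 3) + sq (q3 • bet y W W' ^ 3) := by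
    refine sq_add_Cpl h12 ?_
    intro n hn
    rw [map_smul, bet_low g 3 n (by omega), smul_zero]
  have e3 : Qs y W W' = q1 • bet y W W' + q2 • bet y W W' ^ 2 + q3 • bet y W W' ^ 3 := rfl
  rw [e3, e2, e1, sq_smul, sq_smul, sq_smul, smul_smul, smul_smul, mul_one, mul_one]

theorem TT_nn (y V n : ℕ) : 0 ≤ coeff n (TT y V) := by
  unfold TT
  rw [coeff_X_pow_mul']
  split_ifs
  · exact U_nn V _
  · exact le_refl 0

theorem TT_low (y V : ℕ) : ∀ n < y, coeff n (TT y V) = 0 := by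
  intro n hn
  unfold TT
  rw [coeff_X_pow_mul', if_neg (by omega)]

theorem Cpl_TT {y V : ℕ} (hV : 0 < V) : Cpl (TT y V) (y + V) 1 := by
  have h2 : Cpl (U V) ((V - 1) + 1) 1 := by
    rw [Nat.sub_add_cancel hV]
    exact Cpl_U hV
  have h := Cpl_mul (C4a_aux8 y) h2
  have e : y + (V - 1) + 1 = y + V := by omega
  rw [mul_one, e] at h
  exact h

theorem Bd_nab_TT (y V : ℕ) : Bd 1 (nab * TT y V) (2 / V) := by
  have e : nab * TT y V = X ^ y * (nab * U V) := by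
    unfold TT
    ring
  rw [e]
  have h := Bd_mul zero_le_one (C4a_aux11 y) (Bd_nab_U V)
  rw [one_mul] at h
  exact h

theorem C4b_aux11 (y W W' V n : ℕ) : coeff n (QQ y W W' V) = ff * coeff n (TT y V)
    + coeff n (Qs y W W') := by
  unfold QQ
  rw [map_add, map_smul, smul_eq_mul]

theorem QQ_nn (y W W' V n : ℕ) : 0 ≤ coeff n (QQ y W W' V) := by
  rw [C4b_aux11]
  have h1 := mul_nonneg ff_pos.le (TT_nn y V n)
  have h2 := Qs_nn y W W' n
  linarith

theorem QQ_low {y' y W W' V : ℕ} (g : Geo y' y W W' V) :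
    ∀ n < y, coeff n (QQ y W W' V) = 0 := by
  intro n hn
  have hm := C4b_aux10 g
  rw [C4b_aux11, TT_low y V n hn, Qs_low g n (by omega)]
  ring

theorem Cpl_QQ {y' y W W' V : ℕ} (g : Geo y' y W W' V) :
    Cpl (QQ y W W' V) (9 * y + 3 * mid W W' + 1) (1 - phi) := by
  have hV := g.V_small
  have h1 := Cpl_smul ff (Cpl_mono (Cpl_TT (y := y) g.Vpos)
    (by omega : y + V ≤ 9 * y + 3 * mid W W' + 1))
  have h := Cpl_add h1 (Cpl_Qs g)
  have e : ff * 1 + (q1 + q2 + q3) = 1 - phi := by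
    have := mass_sum
    linarith
  rw [e] at h
  exact h

theorem sq_QQ {y' y W W' V : ℕ} (g : Geo y' y W W' V) :
    sq (QQ y W W' V) = ff ^ 2 • sq (TT y V) + (2 * ff) • Qs y W W' + sq (Qs y W W') := by
  have hV := g.V_small
  have hm := C4b_aux10 g
  have h1 := Cpl_smul ff (Cpl_TT (y := y) g.Vpos)
  have e : sq (ff • TT y V + Qs y W W') = sq (ff • TT y V) + (2 * (ff * 1)) • Qs y W W'
      + sq (Qs y W W') := by
    refine sq_add_Cpl h1 ?_
    intro n hn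
    exact Qs_low g n (by omega)
  have e3 : QQ y W W' V = ff • TT y V + Qs y W W' := rfl
  rw [e3, e, sq_smul, mul_one]

end MP18
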