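import Pool.Agent.Lib.MP_18566a_pr.T.C4b
import Pool.Agent.Lib.MP_18566a_pr.T.A3

set_option autoImplicit false

namespace MP18

open Finset PowerSeries

variable {y' y W W' V : ℕ} {a0 : PS} {r : ℝ}

/-- the step polynomial -/
noncomputable def Pb (y W W' : ℕ) : PS :=
  p0 • 1 + p1 • bet y W W' + p2 • bet y W W' ^ 2 + p3 • bet y W W' ^ 3

theorem Pb_eq (y W W' : ℕ) : Pb y W W' = p0 • (1 + aa • bet y W W') ^ 3 := by
  have hp : 0 < (1 + aa) ^ 3 := by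
    have := aa_lo
    have h0 : 0 < 1 + aa := by linarith
    positivity
  have h1 : p1 = 3 * aa * p0 := by
    unfold p1 p0 p1f p0f
    field_simp
  have h2 : p2 = 3 * aa ^ 2 * p0 := by
    unfold p2 p0 p2f p0f
    field_simp
  have h3 : p3 = aa ^ 3 * p0 := by
    unfold p3 p0 p3f p0f
    field_simp
  unfold Pb
  rw [h1, h2, h3]
  simp only [PowerSeries.smul_eq_C_mul, map_mul, map_pow, map_ofNat]
  ring

private theorem D1f_aux1 (g : Geo y' y W W' V) : (0 : ℝ) < y' ∧ (0 : ℝ) < W ∧ (0 : ℝ) < W' ∧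
    (0 : ℝ) < V ∧ (10 : ℝ) ^ 250 * y' ≤ y ∧ (y : ℝ) ≤ 2 * 10 ^ 73 * W ∧ (W : ℝ) ≤ 2000 * W' ∧
    (y' : ℝ) ≤ 10 ^ 83 * V := by
  have h1 := g.pos
  have h2 := g.W_pos
  have h3 := g.W'_pos
  have h4 := g.Vpos
  have h5 := g.sep
  have h6 := g.Wlo
  have h7 := g.W'lo
  have h8 := g.Vlo
  unfold L0 at h5
  unfold ww at h6
  unfold vv at h8
  refine ⟨by exact_mod_cast h1, by exact_mod_cast h2, by exact_mod_cast h3, by exact_mod_cast h4,
    h5, by linarith, by linarith, by linarith⟩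

theorem small1 (g : Geo y' y W W' V) : (y' : ℝ) / W ≤ 1 / 10 ^ 170 := by
  obtain ⟨h1, h2, h3, h4, h5, h6, h7, h8⟩ := D1f_aux1 g
  rw [div_le_iff₀ h2]
  linarith

theorem small2 (g : Geo y' y W W' V) : (y' : ℝ) / W' ≤ 1 / 10 ^ 165 := by
  obtain ⟨h1, h2, h3, h4, h5, h6, h7, h8⟩ := D1f_aux1 g
  rw [div_le_iff₀ h3]
  linarith

theorem small3 (g : Geo y' y W W' V) : (y' : ℝ) * (1.6 / W + 2.1 * ff / V) ≤ 1 / 10 ^ 50 := by
  obtain ⟨h1, h2, h3, h4, h5, h6, h7, h8⟩ := D1f_aux1 g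
  have h9 := small1 g
  have h10 : (y' : ℝ) / V ≤ 10 ^ 83 := by
    rw [div_le_iff₀ h4]
    exact h8
  have h11 : (y' : ℝ) * (1.6 / W + 2.1 * ff / V) = 1.6 * (y' / W) + 2.1 * ff * (y' / V) := by
    ring
  rw [h11]
  have h12 : 2.1 * ff * ((y' : ℝ) / V) ≤ 2.1 * ff * 10 ^ 83 :=
    mul_le_mul_of_nonneg_left h10 (mul_pos (by norm_num) ff_pos).le
  have h13 : 2.1 * ff * 10 ^ 83 ≤ (1 / 10 ^ 51 : ℝ) := by
    unfold ff
    norm_num
  have h14 : (1.6 : ℝ) * (1 / 10 ^ 170) + 1 / 10 ^ 51 ≤ 1 / 10 ^ 50 := by norm_num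
  linarith

theorem small4 (g : Geo y' y W W' V) : (W' : ℝ) / W ≤ 1 / 1000 := by
  obtain ⟨h1, h2, h3, h4, h5, h6, h7, h8⟩ := D1f_aux1 g
  have h9 := g.W'hi
  rw [div_le_iff₀ h2]
  linarith

private theorem D1f_aux2 (g : Geo y' y W W' V) (hr : Adm r y) :
    ∃ Z : PS, Pb y W W' * Z = 1 ∧ Bd r Z 157 := by
  have hr0 : 0 ≤ r := by
    have := hr.1
    linarith
  have haa1 := aa_lo
  have haa2 := aa_hi
  have hb := Bd_bet_r g hr
  have h1 : Bd r (-(aa • bet y W W')) (|aa| * (1 + 1 / 10 ^ 5)) := Bd_neg (Bd_smul aa hb)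
  have habs : |aa| = aa := abs_of_pos (by linarith)
  rw [habs] at h1
  have hq : aa * (1 + 1 / 10 ^ 5) ≤ 0.68696512 := by
    nlinarith
  have h1' : Bd r (-(aa • bet y W W')) 0.68696512 := Bd_mono h1 hq
  obtain ⟨h2, h3⟩ := Bd_inv_one_sub hr0 h1' (by norm_num)
  set A : PS := 1 - -(aa • bet y W W') with hA
  have hA' : 1 + aa • bet y W W' = A := by
    rw [hA, sub_neg_eq_add]
  have h4 : A * A⁻¹ = 1 := mul_inv_PS h2
  have hp0 := p0_bd
  have hp0pos : 0 < p0 := by linarith [hp0.1]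
  refine ⟨p0⁻¹ • A⁻¹ ^ 3, ?_, ?_⟩
  · rw [Pb_eq, hA']
    simp only [PowerSeries.smul_eq_C_mul]
    have e1 : (C p0 : PS) * A ^ 3 * (C p0⁻¹ * A⁻¹ ^ 3) = C p0 * C p0⁻¹ * (A * A⁻¹) ^ 3 := by ring
    rw [e1, h4, ← map_mul, mul_inv_cancel₀ hp0pos.ne', map_one]
    ring
  · have h5 := Bd_smul p0⁻¹ (Bd_pow hr0 h3 3)
    refine Bd_mono h5 ?_
    rw [abs_of_pos (inv_pos.2 hp0pos)]
    have h6 : p0⁻¹ ≤ 1 / 0.20829891 := by
      rw [inv_eq_one_div]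
      exact one_div_le_one_div_of_le (by norm_num) hp0.1
    have h7 : (0 : ℝ) ≤ (1 / (1 - 0.68696512)) ^ 3 := by positivity
    calc p0⁻¹ * (1 / (1 - 0.68696512)) ^ 3 ≤ 1 / 0.20829891 * (1 / (1 - 0.68696512)) ^ 3 :=
          mul_le_mul_of_nonneg_right h6 h7
      _ ≤ 157 := by norm_num

private theorem D1f_aux3 {A Z : PS} (h : A * Z = 1) : coeff 0 A ≠ 0 := by
  intro h0
  have h1 : constantCoeff (A * Z) = 1 := by
    rw [h, map_one]
  rw [map_mul] at h1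
  rw [coeff_zero_eq_constantCoeff] at h0
  rw [h0, zero_mul] at h1
  exact zero_ne_one h1

theorem D1 (g : Geo y' y W W' V) (hr : Adm r y) :
    coeff 0 (Pb y W W') ≠ 0 ∧ Bd r (Pb y W W')⁻¹ 157 := by
  obtain ⟨Z, h1, h2⟩ := D1f_aux2 g hr
  refine ⟨D1f_aux3 h1, ?_⟩
  rw [inv_unique_PS h1]
  exact h2

private theorem D1f_aux4 (g : Geo y' y W W' V) (hr : Adm r y) :
    Bd r (TT y V) (1 + 1 / 10 ^ 5) := by
  have h1 : Bd 1 (TT y V) 1 := Bd_of_Cpl (TT_nn y V) (Cpl_TT g.Vpos)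
  have h2 := Bd_supp hr (A := TT y V) ?_ h1
  · rw [mul_one] at h2
    exact h2
  · intro n hn
    apply (Cpl_TT g.Vpos).1
    have h3 := g.V_small
    omega

private theorem D1f_aux5 (y W W' V : ℕ) : phi • (1 : PS) + QQ y W W' V =
    (1 - ff) • Pb y W W' + ff • TT y V := by
  unfold QQ Qs Pb phi q1 q2 q3
  simp only [PowerSeries.smul_eq_C_mul, map_mul, map_sub, map_one]
  ring

theorem D2 (g : Geo y' y W W' V) (hr : Adm r y) :
    coeff 0 (phi • 1 + QQ y W W' V) ≠ 0 ∧ Bd r (phi • 1 + QQ y W W' V)⁻¹ 158 := by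
  have hr0 : 0 ≤ r := by
    have := hr.1
    linarith
  obtain ⟨Z, h1, h2⟩ := D1f_aux2 g hr
  have hff := ff_pos
  have hff1 : ff ≤ 1 / 10 ^ 20 := by
    unfold ff
    norm_num
  have h1ff : 0 < 1 - ff := by
    have : (1 / 10 ^ 20 : ℝ) < 1 := by norm_num
    linarith
  have h3 : ((1 - ff) • Pb y W W') * ((1 - ff)⁻¹ • Z) = 1 := by
    simp only [PowerSeries.smul_eq_C_mul]
    have e1 : (C (1 - ff) : PS) * Pb y W W' * (C (1 - ff)⁻¹ * Z) =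
        C (1 - ff) * C (1 - ff)⁻¹ * (Pb y W W' * Z) := by ring
    rw [e1, h1, ← map_mul, mul_inv_cancel₀ h1ff.ne', map_one, mul_one]
  have h4 : Bd r ((1 - ff) • Pb y W W')⁻¹ 157.5 := by
    rw [inv_unique_PS h3]
    refine Bd_mono (Bd_smul (1 - ff)⁻¹ h2) ?_
    rw [abs_of_pos (inv_pos.2 h1ff), inv_mul_le_iff₀ h1ff]
    have : (157.5 : ℝ) * (1 / 10 ^ 20) ≤ 0.5 := by norm_num
    nlinarith
  have h5 : Bd r (ff • TT y V) (1 / 10 ^ 10) := by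
    refine Bd_mono (Bd_smul ff (D1f_aux4 g hr)) ?_
    rw [abs_of_pos hff]
    have h6 : ff * (1 + 1 / 10 ^ 5) ≤ 1 / 10 ^ 20 * (1 + 1 / 10 ^ 5) :=
      mul_le_mul_of_nonneg_right hff1 (by norm_num)
    have h7 : (1 / 10 ^ 20 * (1 + 1 / 10 ^ 5) : ℝ) ≤ 1 / 10 ^ 10 := by norm_num
    linarith
  obtain ⟨h8, h9⟩ := Bd_inv_add hr0 (D1f_aux3 h3) h4 h5 (by norm_num)
  rw [D1f_aux5]
  refine ⟨h8, Bd_mono h9 ?_⟩
  norm_num

private theorem D1f_aux6 (g : Geo y' y W W' V) {n : ℕ} (hn : 10 * y ≤ n) :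
    coeff n (QQ y W W' V) = 0 := by
  apply (Cpl_QQ g).1
  have h1 : (10 ^ 6 : ℕ) * mid W W' ≤ y := by
    have := g.mid_le.2
    exact_mod_cast this
  have h2 := g.y'_le
  have h3 := g.pos
  omega

theorem D3 (g : Geo y' y W W' V) (hr : Adm r y) :
    Bd r (nab * QQ y W W' V) (1.6 / W + 2.1 * ff / V) := by
  have hff := ff_pos
  obtain ⟨h1, h2, h3, h4, h5, h6, h7, h8⟩ := D1f_aux1 g
  have e1 : nab * QQ y W W' V = ff • (nab * TT y V) + nab * Qs y W W' := by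
    unfold QQ
    simp only [PowerSeries.smul_eq_C_mul]
    ring
  have h9 : Bd 1 (nab * QQ y W W' V) (|ff| * (2 / V) + 1.584 / W) := by
    rw [e1]
    exact Bd_add zero_le_one (Bd_smul ff (Bd_nab_TT y V)) (Bd_nab_Qs g)
  have h10 := Bd_supp hr (A := nab * QQ y W W' V) ?_ h9
  · refine Bd_mono h10 ?_
    rw [abs_of_pos hff]
    have e2 : (1 + 1 / 10 ^ 5) * (ff * (2 / (V : ℝ)) + 1.584 / W) =
        (1 + 1 / 10 ^ 5) * 1.584 / W + (1 + 1 / 10 ^ 5) * 2 * ff / V := by ring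
    rw [e2]
    apply add_le_add
    · apply div_le_div_of_nonneg_right _ h2.le
      norm_num
    · apply div_le_div_of_nonneg_right _ h4.le
      apply mul_le_mul_of_nonneg_right _ hff.le
      norm_num
  · intro n hn
    obtain ⟨m, rfl⟩ : ∃ m, n = m + 1 := ⟨n - 1, by omega⟩
    unfold nab
    rw [sub_mul, one_mul, map_sub, PowerSeries.coeff_succ_X_mul, D1f_aux6 g (by omega),
      D1f_aux6 g (by omega), sub_zero]

theorem D3b (g : Geo y' y W W' V) (hr : Adm r y) : Bd r (QQ y W W' V) 0.8 := by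
  have h1 : Bd 1 (QQ y W W' V) (1 - phi) := Bd_of_Cpl (QQ_nn y W W' V) (Cpl_QQ g)
  have h2 := Bd_supp hr (A := QQ y W W' V) (fun n hn => D1f_aux6 g (by omega)) h1
  refine Bd_mono h2 ?_
  have h3 := phi_bd.1
  nlinarith

end MP18
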