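import Pool.Agent.Lib.MP_18566a_pr.T.D1f
import Pool.Agent.Lib.MP_18566a_pr.T.C1b

set_option autoImplicit false

namespace MP18

open Finset PowerSeries

variable {y' y W W' V : ℕ} {a0 : PS} {r : ℝ}

/-- input of the one step estimates: bounds for the old law -/
structure In (y' y : ℕ) (a0 : PS) : Prop where
  lb : LB y' a0
  cpl : Cpl a0 y 1

theorem D2f_le (g : Geo y' y W W' V) : y' ≤ y := by
  have h := g.y'_le
  omega

theorem D2f_adm (g : Geo y' y W W' V) (hr : Adm r y) : Adm r y' := Adm_le hr (D2f_le g)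

theorem D2f_c0 (h : In y' y a0) : coeff 0 a0 ≠ 0 := h.lb.pos.ne'

theorem D2f_inv (h : In y' y a0) : a0 * a0⁻¹ = 1 := mul_inv_PS (D2f_c0 h)

theorem D4 (g : Geo y' y W W' V) (h : In y' y a0) :
    QQ y W W' V * a0⁻¹ = QQ y W W' V + psi a0 * (nab * QQ y W W' V) := by
  have h1 : nab * psi a0 = a0⁻¹ - 1 := nab_psi
  linear_combination (-QQ y W W' V) * h1

theorem D4b (g : Geo y' y W W' V) (h : In y' y a0) (hr : Adm r y) :
    Bd r (psi a0 * (nab * QQ y W W' V)) (1 / 10 ^ 45) := by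
  have hr0 : (0 : ℝ) ≤ r := le_trans zero_le_one hr.1
  have h1 := h.lb.ps r (D2f_adm g hr)
  have h2 := D3 g hr
  refine Bd_mono (Bd_mul hr0 h1 h2) ?_
  have h3 := small3 g
  have h4 : (10 : ℝ) ^ 4 * y' * (1.6 / W + 2.1 * ff / V) =
      10 ^ 4 * (y' * (1.6 / W + 2.1 * ff / V)) := by ring
  rw [h4]
  refine (mul_le_mul_of_nonneg_left h3 (by positivity)).trans ?_
  norm_num

theorem D2f_Z (g : Geo y' y W W' V) (h : In y' y a0) :
    phi • 1 + QQ y W W' V * a0⁻¹ =
      (phi • 1 + QQ y W W' V) + psi a0 * (nab * QQ y W W' V) := by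
  rw [D4 g h, add_assoc]

theorem D5 (g : Geo y' y W W' V) (h : In y' y a0) (hr : Adm r y) :
    coeff 0 (phi • 1 + QQ y W W' V * a0⁻¹) ≠ 0 ∧ Bd r (RR a0 y W W' V) 160 := by
  have hr0 : (0 : ℝ) ≤ r := le_trans zero_le_one hr.1
  obtain ⟨h1, h2⟩ := D2 g hr
  have h3 := D4b g h hr
  obtain ⟨h4, h5⟩ := Bd_inv_add hr0 h1 h2 h3 (by norm_num)
  unfold RR
  rw [D2f_Z g h]
  refine ⟨h4, Bd_mono h5 ?_⟩
  norm_num

theorem D5b (g : Geo y' y W W' V) (h : In y' y a0) :
    aF a0 y W W' V = a0 * (phi • 1 + QQ y W W' V * a0⁻¹) ∧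
    (aF a0 y W W' V)⁻¹ = RR a0 y W W' V * a0⁻¹ ∧ coeff 0 (aF a0 y W W' V) ≠ 0 := by
  have h1 : aF a0 y W W' V = a0 * (phi • 1 + QQ y W W' V * a0⁻¹) := by
    have h2 := D2f_inv h
    have h3 : phi • a0 = a0 * (phi • (1 : PS)) := by
      rw [mul_smul_comm, mul_one]
    unfold aF
    rw [h3]
    linear_combination (-QQ y W W' V) * h2
  refine ⟨h1, ?_, ?_⟩
  · rw [h1, mul_inv_rev_PS, mul_comm]
    rfl
  · rw [h1, coeff_zero_eq_constantCoeff_apply, map_mul]
    have h4 := (D5 g h Adm_one).1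
    have h5 := D2f_c0 h
    rw [coeff_zero_eq_constantCoeff_apply] at h4 h5
    exact mul_ne_zero h5 h4

/-- tails of the new mass -/
noncomputable def tQ (y W W' V : ℕ) : PS := ((1 - phi) • 1 - QQ y W W' V) * nab⁻¹

/-- the series of partial sums -/
theorem D2f_cum (B : PS) : B * nab⁻¹ = PowerSeries.mk fun n => Cum B n := by
  have h1 : nab * (PowerSeries.mk fun n => Cum B n) = B := by
    ext n
    unfold nab
    rw [sub_mul, one_mul, map_sub]
    cases n with
    | zero =>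
      rw [coeff_zero_X_mul, coeff_mk, sub_zero]
      simp [Cum]
    | succ n =>
      rw [coeff_succ_X_mul, coeff_mk, coeff_mk]
      unfold Cum
      rw [sum_range_succ _ (n + 1)]
      ring
  have h2 : nab * nab⁻¹ = 1 := nab_mul_inv
  calc B * nab⁻¹ = (nab * (PowerSeries.mk fun n => Cum B n)) * nab⁻¹ := by rw [h1]
    _ = (PowerSeries.mk fun n => Cum B n) * (nab * nab⁻¹) := by ring
    _ = _ := by rw [h2, mul_one]

theorem D2f_coeff_tQ (y W W' V n : ℕ) :
    coeff n (tQ y W W' V) = (1 - phi) - Cum (QQ y W W' V) n := by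
  unfold tQ
  rw [D2f_cum, coeff_mk]
  unfold Cum
  have h1 : ∀ j, coeff j ((1 - phi) • (1 : PS) - QQ y W W' V) =
      (if j = 0 then (1 - phi) else 0) - coeff j (QQ y W W' V) := by
    intro j
    rw [map_sub, coeff_smul, coeff_one]
    split_ifs <;> simp
  simp only [h1]
  rw [sum_sub_distrib, sum_ite_eq' (range (n + 1)) 0 (fun _ => 1 - phi),
    if_pos (mem_range.2 (Nat.succ_pos n))]

theorem D6a (g : Geo y' y W W' V) (hr : Adm r y) : Bd r (tQ y W W' V) (8 * y) := by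
  have hr0 : (0 : ℝ) ≤ r := le_trans zero_le_one hr.1
  have hmid := g.mid_le.2
  have hy : (0 : ℝ) < y := by exact_mod_cast g.y_pos
  have hmid0 : (0 : ℝ) ≤ mid W W' := Nat.cast_nonneg _
  have hmid' : (3 : ℝ) * mid W W' ≤ y / 10 ^ 5 := by
    rw [le_div_iff₀ (by positivity)]
    nlinarith
  have hphi := phi_bd

  have hzero : ∀ n, 9 * y + 3 * mid W W' ≤ n → coeff n (tQ y W W' V) = 0 := by
    intro n hn
    rw [D2f_coeff_tQ, Cum_of_Cpl (Cpl_QQ g) (by omega)]
    ring
  have hval : ∀ n, |coeff n (tQ y W W' V)| ≤ 0.7918 := by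
    intro n
    rw [D2f_coeff_tQ]
    have h1 : 0 ≤ Cum (QQ y W W' V) n := by
      unfold Cum
      exact sum_nonneg fun j _ => QQ_nn _ _ _ _ _
    have h2 : Cum (QQ y W W' V) n ≤ 1 - phi := by
      have h3 := Cum_mono (QQ_nn y W W' V) (le_max_left n (9 * y + 3 * mid W W'))
      rw [Cum_of_Cpl (Cpl_QQ g) (n := max n (9 * y + 3 * mid W W'))
        (by have := le_max_right n (9 * y + 3 * mid W W'); omega)] at h3
      exact h3
    rw [abs_of_nonneg (by linarith)]
    linarith [hphi.1]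
  intro N
  have hterm : ∀ n ∈ range N, |coeff n (tQ y W W' V)| * r ^ n ≤
      if n < 9 * y + 3 * mid W W' then 0.7918 * (1 + 1 / 10 ^ 5) else 0 := by
    intro n _
    split_ifs with hn
    · have h10 : n ≤ 10 * y := by
        have h11 : (3 * mid W W' : ℝ) ≤ y := by
          refine hmid'.trans ?_
          rw [div_le_iff₀ (by positivity)]
          nlinarith
        have h12 : 3 * mid W W' ≤ y := by exact_mod_cast h11
        omega
      exact mul_le_mul (hval n) (Adm_pow10 hr h10) (pow_nonneg hr0 _) (by norm_num)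
    · rw [hzero n (not_lt.1 hn), abs_zero, zero_mul]
  refine (sum_le_sum hterm).trans ?_
  rw [← sum_filter, sum_const, nsmul_eq_mul]
  have hcard : (((range N).filter (fun n => n < 9 * y + 3 * mid W W')).card : ℝ) ≤
      9 * y + 3 * mid W W' := by
    have h1 : (range N).filter (fun n => n < 9 * y + 3 * mid W W') ⊆
        range (9 * y + 3 * mid W W') := by
      intro n hn
      exact mem_range.2 (mem_filter.1 hn).2
    have h2 := card_le_card h1
    rw [card_range] at h2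
    exact_mod_cast h2
  refine (mul_le_mul_of_nonneg_right hcard (by norm_num)).trans ?_
  have h3 : (9 : ℝ) * y + 3 * mid W W' ≤ 10 * y * (91 / 100) := by
    have : (y : ℝ) / 10 ^ 5 ≤ y / 10 := by
      apply div_le_div_of_nonneg_left hy.le (by norm_num) (by norm_num)
    linarith
  refine (mul_le_mul_of_nonneg_right h3 (by norm_num)).trans ?_
  nlinarith

theorem D6b (g : Geo y' y W W' V) (h : In y' y a0) :
    (RR a0 y W W' V - 1) * nab⁻¹ = RR a0 y W W' V * (tQ y W W' V - QQ y W W' V * psi a0) := by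
  have h1 : (phi • 1 + QQ y W W' V * a0⁻¹) * RR a0 y W W' V = 1 :=
    mul_inv_PS (D5 g h Adm_one).1
  rw [D2f_Z g h] at h1
  have h2 : nab * nab⁻¹ = 1 := nab_mul_inv
  have h3 : ((1 - phi) • (1 : PS)) = 1 - phi • (1 : PS) := by
    rw [sub_smul, one_smul]
  unfold tQ
  rw [h3]
  linear_combination (nab⁻¹ : PS) * h1 - (RR a0 y W W' V * psi a0 * QQ y W W' V) * h2

theorem D6 (g : Geo y' y W W' V) (h : In y' y a0) (hr : Adm r y) :
    Bd r (psi (aF a0 y W W' V)) (1400 * y) := by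
  have hr0 : (0 : ℝ) ≤ r := le_trans zero_le_one hr.1
  have h2 : nab * nab⁻¹ = 1 := nab_mul_inv
  have h3 : nab * psi a0 = a0⁻¹ - 1 := nab_psi
  have h1 : psi (aF a0 y W W' V) = RR a0 y W W' V * psi a0 +
      RR a0 y W W' V * (tQ y W W' V - QQ y W W' V * psi a0) := by
    rw [← D6b g h]
    have h4 : psi (aF a0 y W W' V) = ((aF a0 y W W' V)⁻¹ - 1) * nab⁻¹ := rfl
    rw [h4, (D5b g h).2.1]
    linear_combination (-(RR a0 y W W' V) * nab⁻¹) * h3 +
      (RR a0 y W W' V * psi a0) * h2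
  rw [h1]
  have hps := h.lb.ps r (D2f_adm g hr)
  have hRR := (D5 g h hr).2
  have hb := Bd_add hr0 (Bd_mul hr0 hRR hps)
    (Bd_mul hr0 hRR (Bd_sub hr0 (D6a g hr) (Bd_mul hr0 (D3b g hr) hps)))
  refine Bd_mono hb ?_
  have h5 : (10 : ℝ) ^ 6 * y' ≤ y := by exact_mod_cast g.y'_le
  have h6 : L0 * y' ≤ y := g.sep
  have h7 : (10 : ℝ) ^ 10 * y' ≤ L0 * y' := by
    refine mul_le_mul_of_nonneg_right ?_ (Nat.cast_nonneg _)
    unfold L0
    exact pow_le_pow_right₀ (by norm_num) (by norm_num)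
  nlinarith [h6.trans' h7]

end MP18
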