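import Pool.Agent.Lib.MP_18566a_pr.T.D2f

set_option autoImplicit false

namespace MP18

open Finset PowerSeries

variable {y' y W W' V : ℕ} {a0 : PS} {r : ℝ}

private theorem D3f_L0 (g : Geo y' y W W' V) : (10 : ℝ) ^ 250 ≤ y := by
  have h1 := g.sep
  have h2 : (1 : ℝ) ≤ y' := by exact_mod_cast g.pos
  have h3 : (0 : ℝ) < L0 := by unfold L0; positivity
  have h4 : L0 * 1 ≤ L0 * y' := mul_le_mul_of_nonneg_left h2 h3.le
  have h5 : L0 = (10 : ℝ) ^ 250 := rfl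
  rw [mul_one] at h4
  rw [← h5]
  linarith

private theorem D3f_Wpos (g : Geo y' y W W' V) : (0 : ℝ) < W ∧ (0 : ℝ) < W' := by
  have h1 := D3f_L0 g
  have hw : (0 : ℝ) < ww := by unfold ww; positivity
  have hy : (0 : ℝ) < y := lt_of_lt_of_le (by positivity) h1
  have h2 : (0 : ℝ) < W := lt_of_lt_of_le (by positivity) g.Wlo
  refine ⟨h2, lt_of_lt_of_le (by positivity) g.W'lo⟩

private theorem D3f_mid (g : Geo y' y W W' V) : 3 * mid W W' + 4 ≤ y := by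
  have h1 := D3f_L0 g
  obtain ⟨hW, hW'⟩ := D3f_Wpos g
  have hww : ww ≤ 1 / 100 := by
    unfold ww
    apply one_div_le_one_div_of_le (by norm_num)
    norm_num
  have hy : (0 : ℝ) < y := lt_of_lt_of_le (by positivity) h1
  have h2 : (W : ℝ) ≤ y / 100 := by
    refine g.Whi.trans ?_
    calc ww * y ≤ 1 / 100 * y := mul_le_mul_of_nonneg_right hww hy.le
      _ = y / 100 := by ring
  have h3 : (W' : ℝ) ≤ y / 100 := by
    refine g.W'hi.trans ?_
    linarith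
  have h4 : (mid W W' : ℝ) ≤ W + W' := by
    unfold mid
    have : (W - 1) / 2 + (W' - 1) ≤ W + W' := by omega
    exact_mod_cast this
  have h5 : (100 : ℝ) ≤ y := by
    refine le_trans ?_ h1
    norm_num
  have h6 : (3 * mid W W' + 4 : ℝ) ≤ y := by linarith
  exact_mod_cast h6

private theorem D3f_yy (g : Geo y' y W W' V) : y' ≤ y := by
  have h1 := g.sep
  have h2 : (1 : ℝ) ≤ L0 := by
    unfold L0
    exact one_le_pow₀ (by norm_num)
  have h3 : (y' : ℝ) ≤ L0 * y' := by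
    have : (0 : ℝ) ≤ y' := Nat.cast_nonneg _
    nlinarith
  exact_mod_cast h3.trans h1

private theorem D3f_nab {A : PS} {m : ℕ} (h : ∀ n, m ≤ n → coeff n A = 0) :
    ∀ n, m + 1 ≤ n → coeff n (nab * A) = 0 := by
  intro n hn
  obtain ⟨k, rfl⟩ : ∃ k, n = k + 1 := ⟨n - 1, by omega⟩
  unfold nab
  rw [sub_mul, one_mul, map_sub, PowerSeries.coeff_succ_X_mul, h (k + 1) (by omega),
    h k (by omega), sub_zero]

private theorem D3f_nabk {A : PS} {m : ℕ} (h : ∀ n, m ≤ n → coeff n A = 0) (k : ℕ) :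
    ∀ n, m + k ≤ n → coeff n (nab ^ k * A) = 0 := by
  induction k with
  | zero => simpa using h
  | succ k ih =>
    have := D3f_nab ih
    intro n hn
    rw [pow_succ', mul_assoc]
    exact this n (by omega)

private theorem D3f_two {s : ℝ} (hs : 0 ≤ s) : Bd s (2 : PS) 2 := by
  have h := Bd_add hs (Bd_one hs) (Bd_one hs)
  have e : (1 : PS) + 1 = 2 := by norm_num
  rw [e] at h
  norm_num at h
  exact h

/-- the factor of `Qs` in `Gs` -/
private theorem D3f_fac (g : Geo y' y W W' V) (h : In y' y a0) (hr : Adm r y) :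
    Bd r (phi • (2 - ker a0) + (2 * ff) • (1 : PS)) 8.332 := by
  have hr0 : (0 : ℝ) ≤ r := zero_le_one.trans hr.1
  have hk := h.lb.kn r (Adm_le hr (D3f_yy g))
  have h1 := Bd_smul phi (Bd_sub hr0 (D3f_two hr0) hk)
  have h2 := Bd_smul (2 * ff) (Bd_one hr0)
  have h3 := Bd_add hr0 h1 h2
  refine Bd_mono h3 ?_
  have hp := phi_bd
  have hf := ff_pos
  have hf2 : ff ≤ 1 / 10 ^ 8 := by
    unfold ff
    apply one_div_le_one_div_of_le (by norm_num)
    norm_num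
  rw [abs_of_nonneg (by linarith [hp.1]), abs_of_nonneg (by linarith)]
  nlinarith [hp.2]

private theorem D3f_Q1 (g : Geo y' y W W' V) : Bd 1 (Qs y W W') 1 :=
  Bd_mono (Bd_Qs g) (by norm_num)

/-- total estimate from the two pieces -/
private theorem D3f_main (g : Geo y' y W W' V) (h : In y' y a0) (hr : Adm r y) (k : ℕ) (hk : k ≤ 3)
    {c d : ℝ} (h1 : Bd 1 (nab ^ k * Qs y W W') c) (h2 : Bd 1 (nab ^ k * sq (Qs y W W')) d) :
    Bd r (nab ^ k * Gs a0 y W W') (8.332 * ((1 + 1 / 10 ^ 5) * c) + (1 + 1 / 10 ^ 5) * d) := by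
  have hr0 : (0 : ℝ) ≤ r := zero_le_one.trans hr.1
  have hm := D3f_mid g
  have hC := Cpl_Qs g
  have hS := Cpl_sq hC
  have h3 : Bd r (nab ^ k * Qs y W W') ((1 + 1 / 10 ^ 5) * c) :=
    Bd_supp hr (fun n hn => D3f_nabk hC.1 k n (by omega)) h1
  have h4 : Bd r (nab ^ k * sq (Qs y W W')) ((1 + 1 / 10 ^ 5) * d) :=
    Bd_supp hr (fun n hn => D3f_nabk hS.1 k n (by omega)) h2
  have h5 := Bd_add hr0 (Bd_mul hr0 (D3f_fac g h hr) h3) h4
  have e : nab ^ k * Gs a0 y W W' = (phi • (2 - ker a0) + (2 * ff) • (1 : PS)) *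
      (nab ^ k * Qs y W W') + nab ^ k * sq (Qs y W W') := by
    unfold Gs
    ring
  rw [e]
  exact h5

theorem D7a (g : Geo y' y W W' V) (h : In y' y a0) (hr : Adm r y) :
    Bd r (Gs a0 y W W') 7.24 := by
  have h1 : Bd 1 (nab ^ 0 * Qs y W W') 0.7918 := by
    rw [pow_zero, one_mul]
    exact Bd_Qs g
  have h2 : Bd 1 (nab ^ 0 * sq (Qs y W W')) ((q1 + q2 + q3) ^ 2) := by
    rw [pow_zero, one_mul]
    exact Bd_of_Cpl (sq_nn (fun n => Qs_nn y W W' n)) (Cpl_sq (Cpl_Qs g))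
  have h3 := D3f_main g h hr 0 (by norm_num) h1 h2
  rw [pow_zero, one_mul] at h3
  refine Bd_mono h3 ?_
  have a1 := q1_bd
  have a2 := q2_bd
  have a3 := q3_bd
  have h4 : (q1 + q2 + q3) ^ 2 ≤ 0.6269 := by
    have : q1 + q2 + q3 ≤ 0.7917011 := by linarith [a1.2, a2.2, a3.2]
    have h0 : 0 ≤ q1 + q2 + q3 := by linarith [a1.1, a2.1, a3.1]
    nlinarith
  nlinarith

theorem D7b (g : Geo y' y W W' V) (h : In y' y a0) (hr : Adm r y) :
    Bd r (nab * Gs a0 y W W') (19.6 / W) := by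
  obtain ⟨hW, hW'⟩ := D3f_Wpos g
  have h0 := Bd_nab_Qs g
  have h1 : Bd 1 (nab ^ 1 * Qs y W W') (1.584 / W) := by
    rw [pow_one]
    exact h0
  have h2 : Bd 1 (nab ^ 1 * sq (Qs y W W')) (4 * (1.584 / W)) := by
    rw [pow_one]
    exact Bd_nab_sq (D3f_Q1 g) h0
  have h3 := D3f_main g h hr 1 (by norm_num) h1 h2
  rw [pow_one] at h3
  refine Bd_mono h3 ?_
  have e : 8.332 * ((1 + 1 / 10 ^ 5) * (1.584 / (W : ℝ))) + (1 + 1 / 10 ^ 5) * (4 * (1.584 / (W : ℝ)))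
      = (8.332 * ((1 + 1 / 10 ^ 5) * 1.584) + (1 + 1 / 10 ^ 5) * (4 * 1.584)) / W := by
    ring
  rw [e]
  apply div_le_div_of_nonneg_right _ hW.le
  norm_num

theorem D7c (g : Geo y' y W W' V) (h : In y' y a0) (hr : Adm r y) :
    Bd r (nab ^ 2 * Gs a0 y W W') (33 / (W * W')) := by
  obtain ⟨hW, hW'⟩ := D3f_Wpos g
  have h4 := small4 g
  have h2 := Bd_nab2_sq (D3f_Q1 g) (Bd_nab_Qs g) (Bd_nab2_Qs g)
  have h3 := D3f_main g h hr 2 (by norm_num) (Bd_nab2_Qs g) h2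
  refine Bd_mono h3 ?_
  have e : 8.332 * ((1 + 1 / 10 ^ 5) * (3.168 / ((W : ℝ) * W'))) +
      (1 + 1 / 10 ^ 5) * (2 * (3.168 / ((W : ℝ) * W')) + 6 * (1.584 / (W : ℝ)) ^ 2)
      = (8.332 * ((1 + 1 / 10 ^ 5) * 3.168) + (1 + 1 / 10 ^ 5) * (2 * 3.168 +
        6 * 1.584 ^ 2 * (W' / W))) / (W * W') := by
    field_simp
  rw [e]
  apply div_le_div_of_nonneg_right _ (by positivity)
  nlinarith

theorem D7d (g : Geo y' y W W' V) (h : In y' y a0) (hr : Adm r y) :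
    Bd r (nab ^ 3 * Gs a0 y W W') (66 / (W * W' ^ 2)) := by
  obtain ⟨hW, hW'⟩ := D3f_Wpos g
  have h4 := small4 g
  have h2 := Bd_nab3_sq (D3f_Q1 g) (Bd_nab_Qs g) (Bd_nab2_Qs g) (Bd_nab3_Qs g)
  have h3 := D3f_main g h hr 3 (by norm_num) (Bd_nab3_Qs g) h2
  refine Bd_mono h3 ?_
  have e : 8.332 * ((1 + 1 / 10 ^ 5) * (6.336 / ((W : ℝ) * W' ^ 2))) +
      (1 + 1 / 10 ^ 5) * (2 * (6.336 / ((W : ℝ) * W' ^ 2)) +
        14 * (1.584 / (W : ℝ)) * (3.168 / (W * W')))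
      = (8.332 * ((1 + 1 / 10 ^ 5) * 6.336) + (1 + 1 / 10 ^ 5) * (2 * 6.336 +
        14 * 1.584 * 3.168 * (W' / W))) / (W * W' ^ 2) := by
    field_simp
  rw [e]
  apply div_le_div_of_nonneg_right _ (by positivity)
  nlinarith

private theorem D3f_smul (c : ℝ) (A : PS) : c • A = C c * A :=
  PowerSeries.smul_eq_C_mul A c

theorem GsGt (g : Geo y' y W W' V) :
    Gs a0 y W W' + Gt a0 y V
      = phi • ((2 - ker a0) * QQ y W W' V) + sq (QQ y W W' V) := by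
  rw [sq_QQ g]
  unfold Gs Gt QQ
  simp only [D3f_smul, map_mul, map_pow]
  ring

theorem ms_eq (g : Geo y' y W W' V) (h : In y' y a0) :
    ms a0 y W W' V = RR a0 y W W' V * (Gs a0 y W W' + psi a0 * (nab * Gs a0 y W W')) := by
  have h1 : a0⁻¹ = 1 + nab * psi a0 := by
    rw [nab_psi]
    ring
  unfold ms
  rw [h1]
  ring

theorem mt_eq (g : Geo y' y W W' V) (h : In y' y a0) :
    mt a0 y W W' V = RR a0 y W W' V * (Gt a0 y V + psi a0 * (nab * Gt a0 y V)) := by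
  have h1 : a0⁻¹ = 1 + nab * psi a0 := by
    rw [nab_psi]
    ring
  unfold mt
  rw [h1]
  ring

end MP18
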