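import Pool.Agent.Lib.MP_18566a_pr.T.D3f

set_option autoImplicit false

namespace MP18

open Finset PowerSeries

variable {y' y W W' V : ℕ} {a0 : PS} {r : ℝ}

theorem D4f_aux1 (g : Geo y' y W W' V) (hr : Adm r y) : Adm r y' :=
  Adm_le hr (by have := g.y'_le; omega)

theorem D4f_aux2 (hr : Adm r y) : 0 ≤ r := le_trans zero_le_one hr.1

/-- general form of the bounds for `RR * (G + psi a0 * H)` -/
theorem D4f_aux3 (g : Geo y' y W W' V) (h : In y' y a0) (hr : Adm r y) {G H : PS} {c d : ℝ}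
    (hG : Bd r G c) (hH : Bd r H d) :
    Bd r (RR a0 y W W' V * (G + psi a0 * H)) (160 * (c + 10 ^ 4 * y' * d)) :=
  Bd_mul (D4f_aux2 hr) (D5 g h hr).2 (Bd_add (D4f_aux2 hr) hG
    (Bd_mul (D4f_aux2 hr) (h.lb.ps r (D4f_aux1 g hr)) hH))

theorem D4f_aux4 (g : Geo y' y W W' V) : (0 : ℝ) < W := Nat.cast_pos.2 g.W_pos

theorem D4f_aux5 (g : Geo y' y W W' V) : (0 : ℝ) < W' := Nat.cast_pos.2 g.W'_pos

theorem D4f_aux6 (g : Geo y' y W W' V) : (y' : ℝ) / W ≤ 1 / 10 ^ 20 := by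
  refine le_trans (small1 g) ?_
  apply one_div_le_one_div_of_le (by positivity)
  exact pow_le_pow_right₀ (by norm_num) (by norm_num)

theorem D4f_aux7 (g : Geo y' y W W' V) : (y' : ℝ) / W' ≤ 1 / 10 ^ 20 := by
  refine le_trans (small2 g) ?_
  apply one_div_le_one_div_of_le (by positivity)
  exact pow_le_pow_right₀ (by norm_num) (by norm_num)

theorem D8a (g : Geo y' y W W' V) (h : In y' y a0) (hr : Adm r y) :
    Bd r (ms a0 y W W' V) 1200 := by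
  rw [ms_eq g h]
  refine Bd_mono (D4f_aux3 g h hr (D7a g h hr) (D7b g h hr)) ?_
  have h1 := D4f_aux6 g
  have e : 160 * (7.24 + 10 ^ 4 * (y' : ℝ) * (19.6 / W)) = 160 * 7.24
      + 31360000 * ((y' : ℝ) / W) := by ring
  rw [e]
  have h2 : (1 : ℝ) / 10 ^ 20 ≤ 1 / 10 ^ 10 := by norm_num
  have h3 : (1 : ℝ) / 10 ^ 10 * 31360000 ≤ 1 := by norm_num
  linarith

theorem D8b (g : Geo y' y W W' V) (h : In y' y a0) (hr : Adm r y) :
    Bd r (nab * ms a0 y W W' V) (3200 / W) := by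
  have e : nab * ms a0 y W W' V = RR a0 y W W' V * ((nab * Gs a0 y W W')
      + psi a0 * (nab ^ 2 * Gs a0 y W W')) := by
    rw [ms_eq g h]
    ring
  rw [e]
  refine Bd_mono (D4f_aux3 g h hr (D7b g h hr) (D7c g h hr)) ?_
  have h1 := D4f_aux7 g
  have hW := D4f_aux4 g
  have hW' := D4f_aux5 g
  have e : 160 * (19.6 / (W : ℝ) + 10 ^ 4 * (y' : ℝ) * (33 / (W * W'))) =
      (3136 + 52800000 * ((y' : ℝ) / W')) / W := by
    field_simp
    ring
  rw [e]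
  apply div_le_div_of_nonneg_right _ hW.le
  have h3 : (1 : ℝ) / 10 ^ 20 * 52800000 ≤ 1 := by norm_num
  linarith

theorem D8c (g : Geo y' y W W' V) (h : In y' y a0) (hr : Adm r y) :
    Bd r (nab ^ 2 * ms a0 y W W' V) (5400 / (W * W')) := by
  have e : nab ^ 2 * ms a0 y W W' V = RR a0 y W W' V * ((nab ^ 2 * Gs a0 y W W')
      + psi a0 * (nab ^ 3 * Gs a0 y W W')) := by
    rw [ms_eq g h]
    ring
  rw [e]
  refine Bd_mono (D4f_aux3 g h hr (D7c g h hr) (D7d g h hr)) ?_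
  have h1 := D4f_aux7 g
  have hW := D4f_aux4 g
  have hW' := D4f_aux5 g
  have e : 160 * (33 / ((W : ℝ) * W') + 10 ^ 4 * (y' : ℝ) * (66 / (W * W' ^ 2))) =
      (5280 + 105600000 * ((y' : ℝ) / W')) / (W * W') := by
    field_simp
    ring
  rw [e]
  apply div_le_div_of_nonneg_right _ (mul_pos hW hW').le
  have h3 : (1 : ℝ) / 10 ^ 20 * 105600000 ≤ 1 := by norm_num
  linarith

/-- products keep the vanishing of the first coefficients -/
theorem D4f_aux8 {A B : PS} {n : ℕ} (hB : ∀ k < n, coeff k B = 0) :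
    ∀ k < n, coeff k (A * B) = 0 := by
  intro k hk
  have h := low_mul (A := A) (m := 0) (fun k hk => absurd hk (Nat.not_lt_zero k)) hB
  exact h k (by omega)

theorem D4f_aux9 {A : PS} {n : ℕ} (hA : ∀ k < n, coeff k A = 0) :
    ∀ k < n, coeff k (sq A) = 0 := by
  intro k hk
  rw [coeff_sq, hA k hk, zero_mul]

theorem D4f_aux10 (A : PS) (n : ℕ) : coeff (n + 1) (nab * A) = coeff (n + 1) A - coeff n A := by
  unfold nab
  rw [sub_mul, one_mul, map_sub, coeff_succ_X_mul]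

theorem D4f_aux11 (hr : Adm r y) (g : Geo y' y W W' V) :
    Bd r (TT y V) (1 + 1 / 10 ^ 5) := by
  have hV := g.V_small
  have hc := Cpl_TT (y := y) g.Vpos
  have h := Bd_supp hr (A := TT y V) (C := 1) (fun n hn => hc.1 n (by omega))
    (Bd_of_Cpl (TT_nn y V) hc)
  rw [mul_one] at h
  exact h

theorem D4f_aux12 (hr : Adm r y) (g : Geo y' y W W' V) :
    Bd r (nab * TT y V) ((1 + 1 / 10 ^ 5) * (2 / V)) := by
  have hV := g.V_small
  have hy := g.y_pos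
  have hc := Cpl_TT (y := y) g.Vpos
  refine Bd_supp hr ?_ (Bd_nab_TT y V)
  intro n hn
  obtain ⟨m, rfl⟩ : ∃ m, n = m + 1 := ⟨n - 1, by omega⟩
  rw [D4f_aux10, hc.1 (m + 1) (by omega), hc.1 m (by omega), sub_zero]

theorem D4f_aux13 (hr : Adm r y) (g : Geo y' y W W' V) :
    Bd r (sq (TT y V)) 3 := by
  have hc := Cpl_TT (y := y) g.Vpos
  refine Bd_mono (Bd_sq (D4f_aux2 hr) (Bd_of_Cpl (TT_nn y V) hc) (D4f_aux11 hr g)) ?_
  norm_num

theorem D4f_aux14 (hr : Adm r y) (g : Geo y' y W W' V) :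
    Bd r (nab * sq (TT y V)) (9 / V) := by
  have hV := g.V_small
  have hy := g.y_pos
  have hc := Cpl_TT (y := y) g.Vpos
  have hV0 : (0 : ℝ) < V := Nat.cast_pos.2 g.Vpos
  have h1 : Bd 1 (nab * sq (TT y V)) (4 * (2 / V)) :=
    Bd_nab_sq (Bd_of_Cpl (TT_nn y V) hc) (Bd_nab_TT y V)
  have h2 : ∀ n, y + V ≤ n → coeff n (sq (TT y V)) = 0 := by
    intro n hn
    rw [coeff_sq, hc.1 n hn, zero_mul]
  have h3 := Bd_supp hr (A := nab * sq (TT y V)) (C := 4 * (2 / V)) (by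
    intro n hn
    obtain ⟨m, rfl⟩ : ∃ m, n = m + 1 := ⟨n - 1, by omega⟩
    rw [D4f_aux10, h2 (m + 1) (by omega), h2 m (by omega), sub_zero]) h1
  refine Bd_mono h3 ?_
  have e : (1 + 1 / 10 ^ 5) * (4 * (2 / (V : ℝ))) = (8 * (1 + 1 / 10 ^ 5)) / V := by
    ring
  rw [e]
  apply div_le_div_of_nonneg_right _ hV0.le
  norm_num

theorem D4f_aux15 (h : In y' y a0) (g : Geo y' y W W' V) (hr : Adm r y) :
    Bd r (2 - ker a0) 40 := by
  have h0 := D4f_aux2 hr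
  have h1 : Bd r (1 + 1 : PS) (1 + 1) := Bd_add h0 (Bd_one h0) (Bd_one h0)
  have h2 := Bd_sub h0 h1 (h.lb.kn r (D4f_aux1 g hr))
  rw [one_add_one_eq_two] at h2
  exact Bd_mono h2 (by norm_num)

theorem D4f_aux16 : ff ^ 2 ≤ ff * (1 / 10 ^ 20) := by
  rw [pow_two]
  exact mul_le_mul_of_nonneg_left C0_aux5 ff_pos.le

theorem D4f_aux17 (h : In y' y a0) (g : Geo y' y W W' V) (hr : Adm r y) :
    Bd r (Gt a0 y V) (8.4 * ff) := by
  have h0 := D4f_aux2 hr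
  unfold Gt
  have h1 := Bd_add h0 (Bd_smul (phi * ff) (Bd_mul h0 (D4f_aux15 h g hr) (D4f_aux11 hr g)))
    (Bd_smul (ff ^ 2) (D4f_aux13 hr g))
  refine Bd_mono h1 ?_
  have hf := ff_pos
  have hp := phi_bd
  rw [abs_of_nonneg (mul_nonneg (by linarith [hp.1]) hf.le), abs_of_nonneg (sq_nonneg ff)]
  have h2 := D4f_aux16
  have h3 : phi * ff ≤ 0.20829892 * ff := mul_le_mul_of_nonneg_right hp.2 hf.le
  linarith

theorem D4f_aux18 (h : In y' y a0) (g : Geo y' y W W' V) (hr : Adm r y) :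
    Bd r (nab * Gt a0 y V) (16.7 * ff / V) := by
  have h0 := D4f_aux2 hr
  have e : nab * Gt a0 y V = (phi * ff) • ((2 - ker a0) * (nab * TT y V))
      + ff ^ 2 • (nab * sq (TT y V)) := by
    unfold Gt
    rw [mul_add, mul_smul_comm, mul_smul_comm, mul_left_comm]
  rw [e]
  have h1 := Bd_add h0 (Bd_smul (phi * ff) (Bd_mul h0 (D4f_aux15 h g hr) (D4f_aux12 hr g)))
    (Bd_smul (ff ^ 2) (D4f_aux14 hr g))
  refine Bd_mono h1 ?_
  have hf := ff_pos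
  have hp := phi_bd
  have hV0 : (0 : ℝ) < V := Nat.cast_pos.2 g.Vpos
  rw [abs_of_nonneg (mul_nonneg (by linarith [hp.1]) hf.le), abs_of_nonneg (sq_nonneg ff)]
  have h2 := D4f_aux16
  have h3 : phi * ff ≤ 0.20829892 * ff := mul_le_mul_of_nonneg_right hp.2 hf.le
  have e2 : phi * ff * (40 * ((1 + 1 / 10 ^ 5) * (2 / (V : ℝ)))) + ff ^ 2 * (9 / V)
      = (phi * ff * (80 * (1 + 1 / 10 ^ 5)) + ff ^ 2 * 9) / V := by
    ring
  rw [e2]
  apply div_le_div_of_nonneg_right _ hV0.le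
  linarith

theorem D4f_aux19 (g : Geo y' y W W' V) : (y' : ℝ) / V ≤ 10 ^ 83 := by
  have hV0 : (0 : ℝ) < V := Nat.cast_pos.2 g.Vpos
  rw [div_le_iff₀ hV0]
  have h1 := g.Vlo
  unfold vv at h1
  have h2 : (10 : ℝ) ^ 83 * (1 / 10 ^ 83 * y') ≤ 10 ^ 83 * V :=
    mul_le_mul_of_nonneg_left h1 (by positivity)
  have h3 : (10 : ℝ) ^ 83 * (1 / 10 ^ 83 * y') = y' := by
    rw [← mul_assoc, mul_one_div_cancel (by positivity), one_mul]
  linarith

theorem D9 (g : Geo y' y W W' V) (h : In y' y a0) (hr : Adm r y) :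
    Bd r (mt a0 y W W' V) (1 / 10 ^ 49) := by
  rw [mt_eq g h]
  refine Bd_mono (D4f_aux3 g h hr (D4f_aux17 h g hr) (D4f_aux18 h g hr)) ?_
  have h1 := D4f_aux19 g
  have hf := ff_pos
  have e : 160 * (8.4 * ff + 10 ^ 4 * (y' : ℝ) * (16.7 * ff / V)) = ff * (1344
      + 26720000 * ((y' : ℝ) / V)) := by ring
  rw [e]
  have h2 : ff * (1344 + 26720000 * ((y' : ℝ) / V)) ≤ ff * (1344 + 26720000 * 10 ^ 83) :=
    mul_le_mul_of_nonneg_left (by linarith) hf.le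
  refine le_trans h2 ?_
  unfold ff
  norm_num

theorem D4f_aux20 (g : Geo y' y W W' V) : ∀ n < y, coeff n (Qs y W W') = 0 := by
  intro n hn
  have hm := C4b_aux10 g
  exact Qs_low g n (by omega)

theorem D4f_aux21 {A B : PS} {n : ℕ} (hA : ∀ k < n, coeff k A = 0)
    (hB : ∀ k < n, coeff k B = 0) : ∀ k < n, coeff k (A + B) = 0 := by
  intro k hk
  rw [map_add, hA k hk, hB k hk, add_zero]

theorem D4f_aux22 {A : PS} {n : ℕ} (c : ℝ) (hA : ∀ k < n, coeff k A = 0) :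
    ∀ k < n, coeff k (c • A) = 0 := by
  intro k hk
  rw [map_smul, hA k hk, smul_zero]

/-- `ms` and `mt` start at `y` -/
theorem ms_low (g : Geo y' y W W' V) (h : In y' y a0) :
    ∀ n < y, coeff n (ms a0 y W W' V) = 0 := by
  have h1 : ∀ n < y, coeff n (Gs a0 y W W') = 0 := by
    unfold Gs
    exact D4f_aux21 (D4f_aux8 (D4f_aux20 g)) (D4f_aux9 (D4f_aux20 g))
  unfold ms
  rw [mul_comm]
  exact D4f_aux8 (D4f_aux8 h1)

theorem mt_low (g : Geo y' y W W' V) (h : In y' y a0) :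
    ∀ n < y, coeff n (mt a0 y W W' V) = 0 := by
  have h1 : ∀ n < y, coeff n (Gt a0 y V) = 0 := by
    unfold Gt
    exact D4f_aux21 (D4f_aux22 _ (D4f_aux8 (TT_low y V))) (D4f_aux22 _ (D4f_aux9 (TT_low y V)))
  unfold mt
  rw [mul_comm]
  exact D4f_aux8 (D4f_aux8 h1)

theorem D10 (g : Geo y' y W W' V) (h : In y' y a0) :
    ker (aF a0 y W W' V) = phi • ker a0 + ms a0 y W W' V + mt a0 y W W' V := by
  have h1 : sq (aF a0 y W W' V) = phi ^ 2 • sq a0 + (2 * (phi * 1)) • QQ y W W' V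
      + sq (QQ y W W' V) := by
    have e : aF a0 y W W' V = phi • a0 + QQ y W W' V := rfl
    rw [e, sq_add_Cpl (Cpl_smul phi h.cpl) (QQ_low g), sq_smul]
  have h2 := (D5b (W := W) (W' := W') (V := V) g h).2.1
  have h3 : (phi • 1 + QQ y W W' V * a0⁻¹) * RR a0 y W W' V = 1 :=
    mul_inv_PS (D5 g h Adm_one).1
  have h4 : ms a0 y W W' V + mt a0 y W W' V = RR a0 y W W' V *
      (phi • ((2 - ker a0) * QQ y W W' V) + sq (QQ y W W' V)) * a0⁻¹ := by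
    rw [← GsGt g]
    unfold ms mt
    ring
  have h5 : ker a0 = sq a0 * a0⁻¹ := rfl
  have h6 : ker (aF a0 y W W' V) = sq (aF a0 y W W' V) * (aF a0 y W W' V)⁻¹ := rfl
  rw [add_assoc, h4, h6, h1, h2]
  rw [h5]
  obtain ⟨R, hR⟩ : ∃ R, R = RR a0 y W W' V := ⟨_, rfl⟩
  obtain ⟨Q, hQ⟩ : ∃ Q, Q = QQ y W W' V := ⟨_, rfl⟩
  obtain ⟨I, hI⟩ : ∃ I, I = a0⁻¹ := ⟨_, rfl⟩
  obtain ⟨S, hS⟩ : ∃ S, S = sq a0 := ⟨_, rfl⟩
  rw [← hR, ← hQ, ← hI] at h3
  rw [← hR, ← hQ, ← hI, ← hS]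
  simp only [smul_eq_C_mul, map_mul, map_pow, map_one, map_ofNat] at h3 ⊢
  linear_combination (C phi * S * I) * h3

end MP18
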