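import Pool.Agent.Lib.MP_18566a_pr.T.D4f

set_option autoImplicit false

namespace MP18

open Finset PowerSeries

variable {y' y W W' V : ℕ} {a0 : PS} {r : ℝ}

private theorem D5f_aux1 (A : PS) (n : ℕ) : coeff n (A * nab⁻¹) = Cum A n := by
  have h1 : nab * (A * nab⁻¹) = A := by
    rw [mul_comm A, ← mul_assoc, nab_mul_inv, one_mul]
  generalize A * nab⁻¹ = B at h1
  have h2 : ∀ k, coeff k (nab * B) = coeff k A := fun k => by rw [h1]
  induction n with
  | zero =>
    have := h2 0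
    rw [nab, sub_mul, one_mul, map_sub, PowerSeries.coeff_zero_X_mul, sub_zero] at this
    rw [this, Cum]
    simp
  | succ n ih =>
    have := h2 (n + 1)
    rw [nab, sub_mul, one_mul, map_sub, PowerSeries.coeff_succ_X_mul] at this
    have h3 : Cum A (n + 1) = Cum A n + coeff (n + 1) A := by
      rw [Cum, Finset.sum_range_succ]; rfl
    rw [h3, ← ih, ← this]; ring

theorem D11a (g : Geo y' y W W' V) (hr : Adm r y) :
    Bd r ((sq (QQ y W W' V) - ((1 - phi) ^ 2) • 1) * nab⁻¹) (6 * y) := by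
  have hcoef : ∀ n, coeff n ((sq (QQ y W W' V) - ((1 - phi) ^ 2) • 1) * nab⁻¹)
      = (Cum (QQ y W W' V) n) ^ 2 - (1 - phi) ^ 2 := by
    intro n
    rw [D5f_aux1, ← Cum_sq, Cum, Cum]
    simp only [map_sub, map_smul, PowerSeries.coeff_one, smul_eq_mul, Finset.sum_sub_distrib]
    congr 1
    rw [Finset.sum_eq_single 0]
    · simp
    · intro b _ hb
      simp [hb]
    · intro h
      simp at h
  have hC0 : ∀ n, 0 ≤ Cum (QQ y W W' V) n := fun n =>
    Finset.sum_nonneg fun j _ => QQ_nn y W W' V j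
  have hC1 : ∀ n, Cum (QQ y W W' V) n ≤ 1 - phi := by
    intro n
    have h1 := Cum_mono (QQ_nn y W W' V) (le_max_left n (9 * y + 3 * mid W W' + 1))
    have e := Cum_of_Cpl (Cpl_QQ g) (n := max n (9 * y + 3 * mid W W' + 1)) (by
      have := le_max_right n (9 * y + 3 * mid W W' + 1); omega)
    rwa [e] at h1
  have hy : (0 : ℝ) < y := by exact_mod_cast g.y_pos
  obtain ⟨hm1, hm2⟩ := g.mid_le
  have hM : 9 * y + 3 * mid W W' ≤ 10 * y := by
    have : (9 * y + 3 * mid W W' : ℝ) ≤ 10 * y := by nlinarith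
    exact_mod_cast this
  have hphi := phi_bd
  have hb : ∀ n, |coeff n ((sq (QQ y W W' V) - ((1 - phi) ^ 2) • 1) * nab⁻¹)| * r ^ n
      ≤ if n < 9 * y + 3 * mid W W' then 0.627 * (1 + 1 / 10 ^ 5) else 0 := by
    intro n
    rw [hcoef]
    split_ifs with h
    · have h1 : |Cum (QQ y W W' V) n ^ 2 - (1 - phi) ^ 2| ≤ 0.627 := by
        have e1 := hC0 n
        have e2 := hC1 n
        rw [abs_le]
        constructor
        · nlinarith [sq_nonneg (Cum (QQ y W W' V) n)]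
        · nlinarith
      have h2 : r ^ n ≤ 1 + 1 / 10 ^ 5 := Adm_pow10 hr (by omega)
      exact mul_le_mul h1 h2 (pow_nonneg (by linarith [hr.1]) n) (by norm_num)
    · rw [Cum_of_Cpl (Cpl_QQ g) (by omega)]
      simp
  intro N
  calc ∑ n ∈ range N, |coeff n ((sq (QQ y W W' V) - ((1 - phi) ^ 2) • 1) * nab⁻¹)| * r ^ n
      ≤ ∑ n ∈ range N, (if n < 9 * y + 3 * mid W W' then 0.627 * (1 + 1 / 10 ^ 5) else (0 : ℝ)) :=
        Finset.sum_le_sum fun n _ => hb n
    _ = ∑ n ∈ (range N).filter (fun n => n < 9 * y + 3 * mid W W'),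
          (0.627 * (1 + 1 / 10 ^ 5) : ℝ) := by rw [Finset.sum_filter]
    _ ≤ ((9 * y + 3 * mid W W' : ℕ) : ℝ) * (0.627 * (1 + 1 / 10 ^ 5)) := by
        rw [Finset.sum_const, nsmul_eq_mul]
        apply mul_le_mul_of_nonneg_right _ (by norm_num)
        have : ((range N).filter (fun n => n < 9 * y + 3 * mid W W')).card
            ≤ (range (9 * y + 3 * mid W W')).card := by
          apply Finset.card_le_card
          intro n hn
          rw [Finset.mem_filter] at hn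
          exact Finset.mem_range.2 hn.2
        rw [Finset.card_range] at this
        exact_mod_cast this
    _ ≤ 6 * y := by
        push_cast
        nlinarith

private theorem D5f_aux2 {k0 Q : PS} (c : ℝ) (P : PS) :
    (c • ((2 - k0) * Q) + P - (1 - c) • 1) * nab⁻¹
      = c • (-(((1 - c) • 1 - Q) * nab⁻¹) - kap k0 * Q) + (P - ((1 - c) ^ 2) • 1) * nab⁻¹ := by
  simp only [kap, PowerSeries.smul_eq_C_mul]
  have h1 : (C (1 - c) : PS) = 1 - C c := by rw [map_sub, map_one]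
  have h2 : (C ((1 - c) ^ 2) : PS) = (1 - C c) ^ 2 := by rw [map_pow, map_sub, map_one]
  rw [h1, h2]
  ring

private theorem D5f_G (g : Geo y' y W W' V) (h : In y' y a0) (hr : Adm r y) :
    Bd r (Gs a0 y W W' + Gt a0 y V) 8 := by
  have hr0 : 0 ≤ r := by linarith [hr.1]
  have hphi := phi_bd
  rw [GsGt g]
  have hyy : y' ≤ y := by have := g.y'_le; omega
  have hk := h.lb.kn r (Adm_le hr hyy)
  have h2 : Bd r (2 : PS) 2 := by
    have := Bd_smul (2 : ℝ) (Bd_one hr0)
    have e : (2 : ℝ) • (1 : PS) = 2 := by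
      rw [PowerSeries.smul_eq_C_mul, mul_one]
      exact map_ofNat _ 2
    rw [e] at this
    simpa using this
  have hq := D3b g hr
  have h3 := Bd_smul phi (Bd_mul hr0 (Bd_sub hr0 h2 hk) hq)
  have hq1 := D3b g (Adm_one (y := y))
  have h4 := Bd_sq hr0 hq1 hq
  refine Bd_mono (Bd_add hr0 h3 h4) ?_
  rw [abs_of_nonneg (by linarith [hphi.1])]
  nlinarith [hphi.1, hphi.2]

theorem D11b (g : Geo y' y W W' V) (h : In y' y a0) (hr : Adm r y) :
    Bd r ((Gs a0 y W W' + Gt a0 y V - (1 - phi) • 1) * nab⁻¹) (10 * y) := by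
  have hr0 : 0 ≤ r := by linarith [hr.1]
  have hphi := phi_bd
  have hyy' := g.y'_le
  have hyy : y' ≤ y := by omega
  rw [GsGt g, D5f_aux2]
  have hk := h.lb.kp r (Adm_le hr hyy)
  have h1 := D6a g hr
  rw [tQ] at h1
  have h2 := Bd_mul hr0 hk (D3b g hr)
  have h3 := Bd_smul phi (Bd_sub hr0 (Bd_neg h1) h2)
  refine Bd_mono (Bd_add hr0 h3 (D11a g hr)) ?_
  rw [abs_of_nonneg (by linarith [hphi.1])]
  have hy1 : (10 ^ 6 : ℝ) * y' ≤ y := by exact_mod_cast hyy'
  have hy0 : (0 : ℝ) ≤ y' := by positivity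
  have hy2 : (0 : ℝ) ≤ y := by positivity
  have e1 : (8 * (y : ℝ) + 10 ^ 5 * y' * 0.8) ≤ 9 * y := by nlinarith
  have e2 : phi * (8 * (y : ℝ) + 10 ^ 5 * y' * 0.8) ≤ 0.3 * (9 * y) :=
    mul_le_mul (by linarith [hphi.2]) e1 (by positivity) (by norm_num)
  linarith

private theorem D5f_aux3 (c : ℝ) (k0 R G p N : PS) :
    (c • k0 + R * (G + p * (nab * G)) - 1) * N
      = c • ((k0 - 1) * N) + R * ((G - (1 - c) • 1) * N + p * G * (nab * N))
        + (1 - c) • ((R - 1) * N) := by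
  simp only [PowerSeries.smul_eq_C_mul]
  have h1 : (C (1 - c) : PS) = 1 - C c := by rw [map_sub, map_one]
  rw [h1]
  ring

theorem D11 (g : Geo y' y W W' V) (h : In y' y a0) (hr : Adm r y) :
    Bd r (kap (ker (aF a0 y W W' V))) (3000 * y) := by
  have hr0 : 0 ≤ r := by linarith [hr.1]
  have hphi := phi_bd
  have hyy' := g.y'_le
  have hyy : y' ≤ y := by omega
  have e1 : kap (ker (aF a0 y W W' V))
      = phi • kap (ker a0)
        + RR a0 y W W' V * ((Gs a0 y W W' + Gt a0 y V - (1 - phi) • 1) * nab⁻¹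
          + psi a0 * (Gs a0 y W W' + Gt a0 y V))
        + (1 - phi) • (RR a0 y W W' V * (tQ y W W' V - QQ y W W' V * psi a0)) := by
    rw [← D6b g h, kap, D10 g h, ms_eq g h, mt_eq g h]
    have e2 : phi • ker a0 + RR a0 y W W' V * (Gs a0 y W W' + psi a0 * (nab * Gs a0 y W W'))
        + RR a0 y W W' V * (Gt a0 y V + psi a0 * (nab * Gt a0 y V)) - 1
        = phi • ker a0 + RR a0 y W W' V * ((Gs a0 y W W' + Gt a0 y V)
          + psi a0 * (nab * (Gs a0 y W W' + Gt a0 y V))) - 1 := by ring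
    rw [e2, D5f_aux3, nab_mul_inv, mul_one]
    rfl
  rw [e1]
  have hR := (D5 g h hr).2
  have hk := h.lb.kp r (Adm_le hr hyy)
  have hp := h.lb.ps r (Adm_le hr hyy)
  have hG := D5f_G g h hr
  have hq := D3b g hr
  have b1 := Bd_smul phi hk
  have b2 := Bd_mul hr0 hR (Bd_add hr0 (D11b g h hr) (Bd_mul hr0 hp hG))
  have b3 := Bd_smul (1 - phi) (Bd_mul hr0 hR (Bd_sub hr0 (D6a g hr) (Bd_mul hr0 hq hp)))
  refine Bd_mono (Bd_add hr0 (Bd_add hr0 b1 b2) b3) ?_
  rw [abs_of_nonneg (by linarith [hphi.1]), abs_of_nonneg (by linarith [hphi.2])]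
  have hy1 : (10 ^ 6 : ℝ) * y' ≤ y := by exact_mod_cast hyy'
  have hy0 : (0 : ℝ) ≤ y' := by positivity
  have hy2 : (0 : ℝ) ≤ y := by positivity
  have e2 : phi * (10 ^ 5 * (y' : ℝ)) ≤ 0.3 * (10 ^ 5 * y') :=
    mul_le_mul_of_nonneg_right (by linarith [hphi.2]) (by positivity)
  have e3 : (1 - phi) * (160 * (8 * (y : ℝ) + 0.8 * (10 ^ 4 * y')))
      ≤ 0.8 * (160 * (8 * (y : ℝ) + 0.8 * (10 ^ 4 * y'))) :=
    mul_le_mul_of_nonneg_right (by linarith [hphi.1]) (by positivity)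
  nlinarith

end MP18
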