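import Pool.Agent.Lib.MP_18566a_pr.T.D5f

set_option autoImplicit false

namespace MP18

open Finset PowerSeries

variable {y' y W W' V : ℕ} {a0 : PS} {r : ℝ}

/-- the limit shape of the new part of the kernel -/
noncomputable def Q0 (y W W' : ℕ) : PS :=
  p1 • bet y W W' + p2 • bet y W W' ^ 2 + p3 • bet y W W' ^ 3

noncomputable def m0 (y W W' : ℕ) : PS := (p0 • Q0 y W W' + sq (Q0 y W W')) * (Pb y W W')⁻¹

theorem D6f_aux1 (y W W' : ℕ) : Qs y W W' = (1 - ff) • Q0 y W W' := by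
  unfold Qs Q0 q1 q2 q3
  rw [smul_add, smul_add, smul_smul, smul_smul, smul_smul]

theorem D6f_aux2 (y W W' : ℕ) : Pb y W W' = p0 • 1 + Q0 y W W' := by
  unfold Pb Q0
  rw [add_assoc, add_assoc, add_assoc]

theorem D6f_aux3 (g : Geo y' y W W' V) (hr : Adm r y) : Bd r (Q0 y W W') 0.792 := by
  have hr0 : 0 ≤ r := le_trans zero_le_one hr.1
  have hb := Bd_bet_r g hr
  have hb2 := Bd_pow hr0 hb 2
  have hb3 := Bd_pow hr0 hb 3
  obtain ⟨b1, b2⟩ := p1_bd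
  obtain ⟨d1, d2⟩ := p2_bd
  obtain ⟨e1, e2⟩ := p3_bd
  have h1 := Bd_add hr0 (Bd_add hr0 (Bd_smul p1 hb) (Bd_smul p2 hb2)) (Bd_smul p3 hb3)
  refine Bd_mono h1 ?_
  rw [abs_of_nonneg (by linarith : 0 ≤ p1), abs_of_nonneg (by linarith : 0 ≤ p2),
    abs_of_nonneg (by linarith : 0 ≤ p3)]
  norm_num
  linarith

theorem D6f_aux4 (g : Geo y' y W W' V) (hr : Adm r y) : Bd r (sq (Q0 y W W')) 1.26 := by
  have hr0 : 0 ≤ r := le_trans zero_le_one hr.1
  have h1 := D6f_aux3 g hr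
  have h2 : Bd 1 (Q0 y W W') 0.792 := Bd_weight h1 zero_le_one hr.1
  exact Bd_mono (Bd_sq hr0 h2 h1) (by norm_num)

theorem D6f_aux5 (g : Geo y' y W W' V) (hr : Adm r y) :
    Bd r (p0 • Q0 y W W' + sq (Q0 y W W')) 1.5 := by
  have hr0 : 0 ≤ r := le_trans zero_le_one hr.1
  obtain ⟨a1, a2⟩ := p0_bd
  refine Bd_mono (Bd_add hr0 (Bd_smul p0 (D6f_aux3 g hr)) (D6f_aux4 g hr)) ?_
  rw [abs_of_nonneg (by linarith : 0 ≤ p0)]
  norm_num
  linarith

theorem D6f_aux6 (A : PS) {N : ℕ} (h : ∀ n, N ≤ n → coeff n A = 0) :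
    ∀ n, N + 1 ≤ n → coeff n (nab * A) = 0 := by
  intro n hn
  obtain ⟨m, rfl⟩ : ∃ m, n = m + 1 := ⟨n - 1, by omega⟩
  unfold nab
  rw [sub_mul, one_mul, map_sub, PowerSeries.coeff_succ_X_mul, h (m + 1) (by omega),
    h m (by omega), sub_zero]

theorem D6f_aux7 (g : Geo y' y W W' V) : 3 * mid W W' + 1 ≤ y := by
  have h1 := g.mid_le.2
  have h2 := g.y'_le
  have h3 := g.pos
  have h4 : 10 ^ 6 * mid W W' ≤ y := by exact_mod_cast h1
  omega

theorem D6f_aux8 (g : Geo y' y W W' V) (hr : Adm r y) : Bd r (nab * Qs y W W') (1.6 / W) := by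
  have h1 := Bd_nab_Qs g
  have hsup : ∀ n, 10 * y < n → coeff n (nab * Qs y W W') = 0 := by
    intro n hn
    refine D6f_aux6 _ (Cpl_Qs g).1 n ?_
    have := D6f_aux7 g
    omega
  refine Bd_mono (Bd_supp hr hsup h1) ?_
  have hW : (0 : ℝ) < W := by exact_mod_cast g.W_pos
  rw [← mul_div_assoc]
  apply div_le_div_of_nonneg_right _ hW.le
  norm_num

theorem D6f_aux9 (g : Geo y' y W W' V) (hr : Adm r y) : Bd r (TT y V) (1 + 1 / 10 ^ 5) := by
  have hc := Cpl_TT (y := y) g.Vpos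
  have h1 : Bd 1 (TT y V) 1 := Bd_of_Cpl (TT_nn y V) hc
  have hsup : ∀ n, 10 * y < n → coeff n (TT y V) = 0 := by
    intro n hn
    refine hc.1 n ?_
    have h2 := g.V_small
    omega
  refine Bd_mono (Bd_supp hr hsup h1) ?_
  norm_num

/-- the difference of the two inverses -/
theorem D6f_aux10 (g : Geo y' y W W' V) (h : In y' y a0) (hr : Adm r y) :
    Bd r (RR a0 y W W' V - (Pb y W W')⁻¹) (3 / 10 ^ 41) := by
  have hr0 : 0 ≤ r := le_trans zero_le_one hr.1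
  obtain ⟨hR0, hRR⟩ := D5 g h hr
  obtain ⟨hP0, hP⟩ := D1 g hr
  have e1 := mul_inv_PS hR0
  have e2 := mul_inv_PS hP0
  have hRR' : (phi • 1 + QQ y W W' V * a0⁻¹)⁻¹ = RR a0 y W W' V := rfl
  rw [hRR'] at e1
  have hD4 := D4 g h
  have hD4b := D4b g h hr
  obtain ⟨a1, a2⟩ := p0_bd
  have hff := ff_pos

  have hdiff : Pb y W W' - (phi • 1 + QQ y W W' V * a0⁻¹) =
      ff • Pb y W W' - ff • TT y V - psi a0 * (nab * QQ y W W' V) := by
    rw [hD4]
    have hQQ : QQ y W W' V = ff • TT y V + Qs y W W' := rfl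
    have hphi : phi = (1 - ff) * p0 := rfl
    rw [hQQ, D6f_aux1, D6f_aux2, hphi]
    simp only [PowerSeries.smul_eq_C_mul, map_sub, map_mul, map_one]
    ring
  have hfac : RR a0 y W W' V - (Pb y W W')⁻¹ =
      RR a0 y W W' V * (Pb y W W' - (phi • 1 + QQ y W W' V * a0⁻¹)) * (Pb y W W')⁻¹ := by
    have e3 : RR a0 y W W' V * (Pb y W W' - (phi • 1 + QQ y W W' V * a0⁻¹)) * (Pb y W W')⁻¹ =
        RR a0 y W W' V * (Pb y W W' * (Pb y W W')⁻¹) -
          ((phi • 1 + QQ y W W' V * a0⁻¹) * RR a0 y W W' V) * (Pb y W W')⁻¹ := by ring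
    rw [e3, e1, e2, mul_one, one_mul]
  rw [hfac, hdiff]
  have hPb : Bd r (Pb y W W') 1.01 := by
    rw [D6f_aux2]
    refine Bd_mono (Bd_add hr0 (Bd_smul p0 (Bd_one hr0)) (D6f_aux3 g hr)) ?_
    rw [abs_of_nonneg (by linarith : 0 ≤ p0)]
    linarith
  have h1 := Bd_sub hr0 (Bd_sub hr0 (Bd_smul ff hPb) (Bd_smul ff (D6f_aux9 g hr))) hD4b
  refine Bd_mono (Bd_mul hr0 (Bd_mul hr0 hRR h1) hP) ?_
  rw [abs_of_pos hff]
  unfold ff
  norm_num

/-- the difference of the numerators -/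
theorem D6f_aux11 (g : Geo y' y W W' V) (h : In y' y a0) (hr : Adm r y) :
    Bd r (Gs a0 y W W' - (p0 • Q0 y W W' + sq (Q0 y W W'))) (1 / 10 ^ 130) := by
  have hr0 : 0 ≤ r := le_trans zero_le_one hr.1
  have hy' := g.y'_le
  have hr' : Adm r y' := Adm_le hr (by omega)
  have hff := ff_pos
  have e1 : Gs a0 y W W' - (p0 • Q0 y W W' + sq (Q0 y W W')) =
      ((1 - ff) ^ 2 - 1) • (p0 • Q0 y W W' + sq (Q0 y W W')) -
        phi • (kap (ker a0) * (nab * Qs y W W')) + (2 * ff) • Qs y W W' := by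
    have h1 : kap (ker a0) * (nab * Qs y W W') = (ker a0 - 1) * Qs y W W' := by
      rw [← mul_assoc, mul_comm (kap (ker a0)) nab, nab_kap]
    rw [h1]
    unfold Gs
    have hphi : phi = (1 - ff) * p0 := rfl
    rw [D6f_aux1, sq_smul, hphi]
    simp only [PowerSeries.smul_eq_C_mul, map_sub, map_mul, map_pow, map_one, map_ofNat]
    ring
  rw [e1]
  have hk := h.lb.kp r hr'
  have h2 := Bd_mul hr0 hk (D6f_aux8 g hr)
  have hQs : Bd r (Qs y W W') (|1 - ff| * 0.792) := by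
    rw [D6f_aux1]
    exact Bd_smul _ (D6f_aux3 g hr)
  refine Bd_mono (Bd_add hr0 (Bd_sub hr0 (Bd_smul _ (D6f_aux5 g hr)) (Bd_smul phi h2))
    (Bd_smul _ hQs)) ?_
  have hs := small1 g
  have hs0 : (0 : ℝ) ≤ (y' : ℝ) / W := by positivity
  obtain ⟨f1, f2⟩ := phi_bd
  have e2 : (10 : ℝ) ^ 5 * y' * (1.6 / W) = 160000 * ((y' : ℝ) / W) := by ring
  rw [e2, abs_of_nonneg (by linarith : 0 ≤ phi)]
  have e3 : phi * (160000 * ((y' : ℝ) / W)) ≤ 1 * (160000 * (1 / 10 ^ 170)) :=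
    mul_le_mul (by linarith) (by linarith) (by positivity) zero_le_one
  have hf1 : ff ≤ 1 / 2 := by
    unfold ff
    norm_num
  have e4 : |(1 - ff) ^ 2 - 1| ≤ 2 * ff := by
    rw [abs_le]
    constructor
    · nlinarith
    · nlinarith
  have e5 : |1 - ff| ≤ 1 := by
    rw [abs_le]
    constructor
    · linarith
    · linarith
  have e6 : |2 * ff| = 2 * ff := abs_of_nonneg (by linarith)
  rw [e6]
  have e7 : |(1 - ff) ^ 2 - 1| * 1.5 ≤ 2 * ff * 1.5 :=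
    mul_le_mul_of_nonneg_right e4 (by norm_num)
  have e8 : 2 * ff * (|1 - ff| * 0.792) ≤ 2 * ff * (1 * 0.792) :=
    mul_le_mul_of_nonneg_left (mul_le_mul_of_nonneg_right e5 (by norm_num)) (by linarith)
  have e9 : 2 * ff * 1.5 + 1 * (160000 * (1 / 10 ^ 170)) + 2 * ff * (1 * 0.792) ≤ 1 / 10 ^ 130 := by
    unfold ff
    norm_num
  linarith

theorem D12 (g : Geo y' y W W' V) (h : In y' y a0) (hr : Adm r y) :
    Bd r (ms a0 y W W' V + mt a0 y W W' V - m0 y W W') (1 / 10 ^ 35) := by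
  have hr0 : 0 ≤ r := le_trans zero_le_one hr.1
  have hy' := g.y'_le
  have hr' : Adm r y' := Adm_le hr (by omega)
  have hRR := (D5 g h hr).2
  have hps := h.lb.ps r hr'
  have hG := D7b g h hr
  have e1 : ms a0 y W W' V + mt a0 y W W' V - m0 y W W' =
      mt a0 y W W' V + RR a0 y W W' V * (Gs a0 y W W' - (p0 • Q0 y W W' + sq (Q0 y W W'))) +
        RR a0 y W W' V * (psi a0 * (nab * Gs a0 y W W')) +
        (RR a0 y W W' V - (Pb y W W')⁻¹) * (p0 • Q0 y W W' + sq (Q0 y W W')) := by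
    rw [ms_eq g h]
    unfold m0
    ring
  rw [e1]
  have h1 := Bd_mul hr0 hRR (D6f_aux11 g h hr)
  have h2 := Bd_mul hr0 hRR (Bd_mul hr0 hps hG)
  have h3 := Bd_mul hr0 (D6f_aux10 g h hr) (D6f_aux5 g hr)
  refine Bd_mono (Bd_add hr0 (Bd_add hr0 (Bd_add hr0 (D9 g h hr) h1) h2) h3) ?_
  have hs := small1 g
  have e2 : (10 : ℝ) ^ 4 * y' * (19.6 / W) = 196000 * ((y' : ℝ) / W) := by ring
  rw [e2]
  have e3 : (160 : ℝ) * (196000 * ((y' : ℝ) / W)) ≤ 160 * (196000 * (1 / 10 ^ 170)) := by linarith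
  have e4 : (1 : ℝ) / 10 ^ 49 + 160 * (1 / 10 ^ 130) + 160 * (196000 * (1 / 10 ^ 170)) +
      3 / 10 ^ 41 * 1.5 ≤ 1 / 10 ^ 35 := by norm_num
  linarith

end MP18
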