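import Pool.Agent.Lib.MP_18566a_pr.T.D6f

set_option autoImplicit false

namespace MP18

open Finset PowerSeries

variable {y' y W W' V : ℕ} {a0 : PS} {r : ℝ}

/-- polynomial with given list of coefficients -/
noncomputable def D7a_pe : List ℝ → PS → PS
  | [], _ => 0
  | c :: t, b => c • 1 + b * D7a_pe t b

noncomputable def D7a_pn : List ℝ → ℝ → ℝ
  | [], _ => 0
  | c :: t, B => c + B * D7a_pn t B

noncomputable def D7a_cv (α β γ δ : ℝ) : ℝ → ℝ → ℝ → List ℝ → List ℝ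
  | x, y, z, [] => [β * x + γ * y + δ * z, γ * x + δ * y, δ * x]
  | x, y, z, c :: t => (α * c + β * x + γ * y + δ * z) :: D7a_cv α β γ δ c x y t

theorem D7a_aux1 {b : PS} {B : ℝ} (hr : 0 ≤ r) (hb : Bd r b B) {L L' : List ℝ}
    (h : List.Forall₂ (fun c u => |c| ≤ u) L L') : Bd r (D7a_pe L b) (D7a_pn L' B) := by
  induction h with
  | nil => exact Bd_zero
  | cons h1 _ ih =>
    refine Bd_add hr ?_ (Bd_mul hr hb ih)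
    refine Bd_mono (Bd_smul _ (Bd_one hr)) ?_
    rw [mul_one]
    exact h1

theorem D7a_aux2 (α β γ δ : ℝ) (b : PS) (L : List ℝ) : ∀ x y z : ℝ,
    D7a_pe (D7a_cv α β γ δ x y z L) b =
      (α • 1 + β • b + γ • b ^ 2 + δ • b ^ 3) * D7a_pe L b + (β * x + γ * y + δ * z) • 1 +
        (γ * x + δ * y) • b + (δ * x) • b ^ 2 := by
  induction L with
  | nil =>
    intro x y z
    simp only [D7a_cv, D7a_pe, PowerSeries.smul_eq_C_mul, map_add, map_mul]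
    ring
  | cons c t ih =>
    intro x y z
    simp only [D7a_cv, D7a_pe, ih]
    simp only [PowerSeries.smul_eq_C_mul, map_add, map_mul]
    ring

/-- approximate inverse of `(1 + aa x)^3` -/
noncomputable def D7a_R : List ℝ :=
  [100 / 100, -206 / 100, 283 / 100, -324 / 100, 333 / 100, -319 / 100, 291 / 100, -255 /
    100, 216 / 100, -179 / 100, 144 / 100, -114 / 100, 88 / 100, -67 / 100, 49 / 100, -36 /
    100, 25 / 100, -17 / 100, 11 / 100, -7 / 100, 4 / 100]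

theorem D7a_aux3 : 2.0608747 ≤ 3 * aa ∧ 3 * aa ≤ 2.0608748 ∧ 1.4157348 ≤ 3 * aa ^ 2 ∧
    3 * aa ^ 2 ≤ 1.415735 ∧ 0.3241834 ≤ aa ^ 3 ∧ aa ^ 3 ≤ 0.3241836 := by
  have h1 := aa_lo
  have h2 := aa_hi
  have h3 : (0.6869582451 : ℝ) ^ 2 ≤ aa ^ 2 := pow_le_pow_left₀ (by norm_num) h1 2
  have h4 : aa ^ 2 ≤ (0.6869582453 : ℝ) ^ 2 := pow_le_pow_left₀ (by linarith) h2 2
  have h5 : (0.6869582451 : ℝ) ^ 3 ≤ aa ^ 3 := pow_le_pow_left₀ (by norm_num) h1 3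
  have h6 : aa ^ 3 ≤ (0.6869582453 : ℝ) ^ 3 := pow_le_pow_left₀ (by linarith) h2 3
  norm_num at h3 h4 h5 h6
  refine ⟨by linarith, by linarith, by linarith, by linarith, by linarith, by linarith⟩

theorem D7a_aux4 :
    (1.313965 ≤ p1 + p1 ^ 2 / p0 ∧ p1 + p1 ^ 2 / p0 ≤ 1.313967) ∧
    (1.927877 ≤ p2 + 2 * p1 * p2 / p0 + p2 ^ 2 / p0 ∧
      p2 + 2 * p1 * p2 / p0 + p2 ^ 2 / p0 ≤ 1.927879) ∧
    (0.558948 ≤ p3 + 2 * (p1 + p2) * p3 / p0 + p3 ^ 2 / p0 ∧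
      p3 + 2 * (p1 + p2) * p3 / p0 + p3 ^ 2 / p0 ≤ 0.55895) := by
  obtain ⟨a1, a2⟩ := p0_bd
  obtain ⟨b1, b2⟩ := p1_bd
  obtain ⟨d1, d2⟩ := p2_bd
  obtain ⟨e1, e2⟩ := p3_bd
  have hp0 : 0 < p0 := by linarith
  have hp1 : 0 < p1 := by linarith
  have hp2 : 0 < p2 := by linarith
  have hp3 : 0 < p3 := by linarith

  obtain ⟨q, hq⟩ : ∃ q, q = 1 / p0 := ⟨_, rfl⟩
  have hqp : q * p0 = 1 := by
    rw [hq]
    field_simp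
  have hq0 : 0 < q := by
    rw [hq]
    positivity
  have q1 : 4.800793 ≤ q := by
    rw [hq, le_div_iff₀ hp0]
    nlinarith
  have q2 : q ≤ 4.800794 := by
    rw [hq, div_le_iff₀ hp0]
    nlinarith
  have key : ∀ {u v ul uh vl vh : ℝ}, 0 ≤ ul → ul ≤ u → u ≤ uh → 0 ≤ vl → vl ≤ v → v ≤ vh →
      ul * vl * 4.800793 ≤ u * v * q ∧ u * v * q ≤ uh * vh * 4.800794 := by
    intro u v ul uh vl vh h1 h2 h3 h4 h5 h6
    have hu : 0 ≤ u := h1.trans h2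
    have hv : 0 ≤ v := h4.trans h5
    constructor
    · exact mul_le_mul (mul_le_mul h2 h5 h4 hu) q1 (by norm_num) (by positivity)
    · exact mul_le_mul (mul_le_mul h3 h6 hv (hu.trans h3)) q2 hq0.le
        (mul_nonneg (hu.trans h3) (hv.trans h6))
  obtain ⟨k1, k2⟩ := key (by norm_num) b1 b2 (by norm_num) b1 b2
  obtain ⟨k3, k4⟩ := key (by norm_num) b1 b2 (by norm_num) d1 d2
  obtain ⟨k5, k6⟩ := key (by norm_num) d1 d2 (by norm_num) d1 d2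
  obtain ⟨k7, k8⟩ := key (by norm_num) b1 b2 (by norm_num) e1 e2
  obtain ⟨k9, k10⟩ := key (by norm_num) d1 d2 (by norm_num) e1 e2
  obtain ⟨k11, k12⟩ := key (by norm_num) e1 e2 (by norm_num) e1 e2
  norm_num at k1 k2 k3 k4 k5 k6 k7 k8 k9 k10 k11 k12
  have r1 : p1 + p1 ^ 2 / p0 = p1 + p1 * p1 * q := by
    rw [hq]
    ring
  have r2 : p2 + 2 * p1 * p2 / p0 + p2 ^ 2 / p0 = p2 + 2 * (p1 * p2 * q) + p2 * p2 * q := by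
    rw [hq]
    ring
  have r3 : p3 + 2 * (p1 + p2) * p3 / p0 + p3 ^ 2 / p0 =
      p3 + 2 * (p1 * p3 * q) + 2 * (p2 * p3 * q) + p3 * p3 * q := by
    rw [hq]
    ring
  rw [r1, r2, r3]
  refine ⟨⟨by linarith, by linarith⟩, ⟨by linarith, by linarith⟩, ⟨by linarith, by linarith⟩⟩

noncomputable def D7a_UN : List ℝ :=
  [0, 131400 / 10 ^ 5, 77893 / 10 ^ 5, 30608 / 10 ^ 5, 4725 / 10 ^ 5, 28903 / 10 ^ 5, 41732
    / 10 ^ 5, 46503 / 10 ^ 5, 47650 / 10 ^ 5, 45142 / 10 ^ 5, 38693 / 10 ^ 5, 35150 / 10 ^ 5,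
    27774 / 10 ^ 5, 23664 / 10 ^ 5, 17901 / 10 ^ 5, 15599 / 10 ^ 5, 9717 / 10 ^ 5, 9169 / 10 ^
    5, 5741 / 10 ^ 5, 4350 / 10 ^ 5, 2510 / 10 ^ 5, 2094 / 10 ^ 5, 3802 / 10 ^ 5, 2239 / 10 ^
    5]

noncomputable def D7a_UM : List ℝ :=
  [880 / 10 ^ 6, 338 / 10 ^ 6, 51 / 10 ^ 6, 8528 / 10 ^ 6, 3177 / 10 ^ 6, 154 / 10 ^ 6,
    10488 / 10 ^ 6, 9593 / 10 ^ 6, 5266 / 10 ^ 6, 17652 / 10 ^ 6, 6275 / 10 ^ 6, 11033 / 10 ^
    6, 3549 / 10 ^ 6, 14514 / 10 ^ 6, 13438 / 10 ^ 6, 15413 / 10 ^ 6, 5601 / 10 ^ 6, 3127 / 10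
    ^ 6, 2938 / 10 ^ 6, 3647 / 10 ^ 6, 18999 / 10 ^ 6, 33942 / 10 ^ 6, 12973 / 10 ^ 6]

theorem D7a_aux5 {c1 c2 c3 : ℝ} (h1 : 1.313965 ≤ c1) (h2 : c1 ≤ 1.313967)
    (h3 : 1.927877 ≤ c2) (h4 : c2 ≤ 1.927879) (h5 : 0.558948 ≤ c3) (h6 : c3 ≤ 0.55895) :
    List.Forall₂ (fun c u => |c| ≤ u) (D7a_cv 0 c1 c2 c3 0 0 0 D7a_R) D7a_UN := by
  simp only [D7a_cv, D7a_R, D7a_UN, List.forall₂_cons, List.Forall₂.nil, and_true]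
  refine ⟨?_, ?_, ?_, ?_, ?_, ?_, ?_, ?_, ?_, ?_, ?_, ?_, ?_, ?_, ?_, ?_, ?_, ?_, ?_, ?_, ?_, ?_,
    ?_, ?_⟩ <;> rw [abs_le] <;> constructor <;> linarith

theorem D7a_aux6 {c1 c2 c3 : ℝ} (h1 : 2.0608747 ≤ c1) (h2 : c1 ≤ 2.0608748)
    (h3 : 1.4157348 ≤ c2) (h4 : c2 ≤ 1.415735) (h5 : 0.3241834 ≤ c3) (h6 : c3 ≤ 0.3241836) :
    ∃ t, D7a_cv 1 c1 c2 c3 0 0 0 D7a_R = 1 :: t ∧ List.Forall₂ (fun c u => |c| ≤ u) t D7a_UM := by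
  refine ⟨(D7a_cv 1 c1 c2 c3 0 0 0 D7a_R).tail, ?_, ?_⟩
  · simp only [D7a_cv, D7a_R, List.tail_cons]
    norm_num
  · simp only [D7a_cv, D7a_R, D7a_UM, List.tail_cons, List.forall₂_cons, List.Forall₂.nil, and_true]
    refine ⟨?_, ?_, ?_, ?_, ?_, ?_, ?_, ?_, ?_, ?_, ?_, ?_, ?_, ?_, ?_, ?_, ?_, ?_, ?_, ?_, ?_,
      ?_, ?_⟩ <;> rw [abs_le] <;> constructor <;> linarith

theorem D7a_aux7 : D7a_pn D7a_UN (1 + 1 / 10 ^ 5) ≤ 6.533 := by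
  norm_num [D7a_pn, D7a_UN]

theorem D7a_aux8 : (1 + 1 / 10 ^ 5) * D7a_pn D7a_UM (1 + 1 / 10 ^ 5) ≤ 0.2017 := by
  norm_num [D7a_pn, D7a_UM]

noncomputable def Numb (y W W' : ℕ) : PS :=
  (p0 * p1 + p1 ^ 2) • bet y W W' + (p0 * p2 + 2 * p1 * p2 + p2 ^ 2) • bet y W W' ^ 2
    + (p0 * p3 + 2 * (p1 + p2) * p3 + p3 ^ 2) • bet y W W' ^ 3

theorem D13a (g : Geo y' y W W' V) (hr : Adm r y) :
    Bd r (Numb y W W' * (Pb y W W')⁻¹) 8.23 := by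
  have hr0 : 0 ≤ r := le_trans zero_le_one hr.1
  obtain ⟨b, hb⟩ : ∃ b, b = bet y W W' := ⟨_, rfl⟩
  have hB : Bd r b (1 + 1 / 10 ^ 5) := by
    rw [hb]
    exact Bd_bet_r g hr
  obtain ⟨a1, a2⟩ := p0_bd
  have hp0 : p0 ≠ 0 := by linarith
  obtain ⟨⟨u1, u2⟩, ⟨u3, u4⟩, ⟨u5, u6⟩⟩ := D7a_aux4
  obtain ⟨v1, v2, v3, v4, v5, v6⟩ := D7a_aux3
  have hN := D7a_aux1 hr0 hB (D7a_aux5 u1 u2 u3 u4 u5 u6)
  obtain ⟨t, ht, htM⟩ := D7a_aux6 v1 v2 v3 v4 v5 v6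
  have hM := Bd_mul hr0 hB (D7a_aux1 hr0 hB htM)

  have hprod : (1 + aa • b) ^ 3 * D7a_pe D7a_R b = 1 - -(b * D7a_pe t b) := by
    have h1 := D7a_aux2 1 (3 * aa) (3 * aa ^ 2) (aa ^ 3) b D7a_R 0 0 0
    rw [ht] at h1
    have h2 : D7a_pe (1 :: t) b = 1 + b * D7a_pe t b := by
      simp only [D7a_pe, one_smul]
    rw [h2] at h1
    have h3 : (1 + aa • b) ^ 3 = (1 : ℝ) • 1 + (3 * aa) • b + (3 * aa ^ 2) • b ^ 2 +
        aa ^ 3 • b ^ 3 := by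
      simp only [PowerSeries.smul_eq_C_mul, map_mul, map_pow, map_one, map_ofNat]
      ring
    rw [h3, sub_neg_eq_add, h1]
    simp only [mul_zero, add_zero, zero_smul]
  have hE := Bd_neg (Bd_mono hM D7a_aux8)
  obtain ⟨hE0, hEi⟩ := Bd_inv_one_sub hr0 hE (by norm_num)
  obtain ⟨Ei, hEi'⟩ : ∃ Ei, Ei = (1 - -(b * D7a_pe t b))⁻¹ := ⟨_, rfl⟩
  have hE1 := mul_inv_PS hE0
  rw [← hEi'] at hEi hE1
  have hPinv : (Pb y W W')⁻¹ = p0⁻¹ • (D7a_pe D7a_R b * Ei) := by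
    apply inv_unique_PS
    rw [Pb_eq, ← hb, smul_mul_smul_comm, mul_inv_cancel₀ hp0, one_smul, ← mul_assoc, hprod, hE1]
  have hNum : Numb y W W' * (Pb y W W')⁻¹ =
      D7a_pe (D7a_cv 0 (p1 + p1 ^ 2 / p0) (p2 + 2 * p1 * p2 / p0 + p2 ^ 2 / p0)
        (p3 + 2 * (p1 + p2) * p3 / p0 + p3 ^ 2 / p0) 0 0 0 D7a_R) b * Ei := by
    have e1 : Numb y W W' = p0 • ((0 : ℝ) • 1 + (p1 + p1 ^ 2 / p0) • b +
        (p2 + 2 * p1 * p2 / p0 + p2 ^ 2 / p0) • b ^ 2 +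
        (p3 + 2 * (p1 + p2) * p3 / p0 + p3 ^ 2 / p0) • b ^ 3) := by
      have s1 : p0 * (p1 + p1 ^ 2 / p0) = p0 * p1 + p1 ^ 2 := by
        field_simp
      have s2 : p0 * (p2 + 2 * p1 * p2 / p0 + p2 ^ 2 / p0) =
          p0 * p2 + 2 * p1 * p2 + p2 ^ 2 := by
        field_simp
      have s3 : p0 * (p3 + 2 * (p1 + p2) * p3 / p0 + p3 ^ 2 / p0) =
          p0 * p3 + 2 * (p1 + p2) * p3 + p3 ^ 2 := by
        field_simp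
      unfold Numb
      rw [← hb, smul_add, smul_add, smul_add, smul_smul, smul_smul, smul_smul, smul_smul,
        mul_zero, zero_smul, zero_add, s1, s2, s3]
    rw [D7a_aux2, hPinv, e1, smul_mul_smul_comm, mul_inv_cancel₀ hp0, one_smul]
    simp only [mul_zero, add_zero, zero_smul]
    exact (mul_assoc _ _ _).symm
  rw [hNum]
  refine Bd_mono (Bd_mul hr0 (Bd_mono hN D7a_aux7) hEi) ?_
  norm_num

end MP18
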