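import Pool.Agent.Lib.MP_18566a_pr.T.D7a

set_option autoImplicit false

namespace MP18

open Finset PowerSeries

variable {y' y W W' V : ℕ} {a0 : PS} {r : ℝ}

theorem D7f_aux1 : (1 - ff : ℝ) ≠ 0 := by
  unfold ff
  norm_num

theorem D7f_aux2 (g : Geo y' y W W' V) :
    sq (Q0 y W W') = p1 ^ 2 • sq (bet y W W') + (2 * p1 * p2) • bet y W W' ^ 2
      + p2 ^ 2 • sq (bet y W W' ^ 2) + (2 * (p1 + p2) * p3) • bet y W W' ^ 3
      + p3 ^ 2 • sq (bet y W W' ^ 3) := by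
  have h1 : Qs y W W' = (1 - ff) • Q0 y W W' := by
    unfold Qs Q0 q1 q2 q3
    simp only [smul_add, smul_smul]
  have h2 := sq_Qs g
  rw [h1, sq_smul] at h2
  have h3 : (1 - ff) ^ 2 • sq (Q0 y W W') = (1 - ff) ^ 2 • (p1 ^ 2 • sq (bet y W W') + (2 * p1 * p2) • bet y W W' ^ 2
      + p2 ^ 2 • sq (bet y W W' ^ 2) + (2 * (p1 + p2) * p3) • bet y W W' ^ 3
      + p3 ^ 2 • sq (bet y W W' ^ 3)) := by
    rw [h2]
    simp only [smul_add, smul_smul]
    unfold q1 q2 q3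
    congr 1
    · congr 1
      · congr 1
        · congr 1
          · congr 1
            ring
          · congr 1
            ring
        · congr 1
          ring
      · congr 1
        ring
    · congr 1
      ring
  exact smul_right_injective PS (pow_ne_zero 2 D7f_aux1) h3

theorem m0_eq (g : Geo y' y W W' V) :
    m0 y W W' = Numb y W W' * (Pb y W W')⁻¹
      + p1 ^ 2 • ((sq (bet y W W') - bet y W W') * (Pb y W W')⁻¹)
      + p2 ^ 2 • ((sq (bet y W W' ^ 2) - bet y W W' ^ 2) * (Pb y W W')⁻¹)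
      + p3 ^ 2 • ((sq (bet y W W' ^ 3) - bet y W W' ^ 3) * (Pb y W W')⁻¹) := by
  unfold m0
  rw [D7f_aux2 g]
  unfold Q0 Numb
  simp only [PowerSeries.smul_eq_C_mul, map_add, map_mul, map_pow, map_ofNat]
  ring

theorem D7f_aux3 (g : Geo y' y W W' V) (hr : Adm r y) (j : ℕ) (hj : j ≤ 3) :
    Bd r ((sq (bet y W W' ^ j) - bet y W W' ^ j) * (Pb y W W')⁻¹) ((1 + 1 / 10 ^ 5) * (1 / 2) * 157) := by
  have hr0 : 0 ≤ r := le_trans zero_le_one hr.1
  refine Bd_mul hr0 (Bd_supp hr ?_ (Bd_sq_sub (bet_pow_nn y W W' j) ?_)) (D1 g hr).2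
  · intro n hn
    have h1 := Cpl_bet_pow g j
    have h2 := Cpl_sq h1
    have hmid : 10 ^ 6 * mid W W' ≤ y := by
      have := g.mid_le.2
      exact_mod_cast this
    have h3 : j * (3 * y + mid W W') + 1 ≤ n := by
      have : j * (3 * y + mid W W') ≤ 3 * (3 * y + mid W W') := Nat.mul_le_mul_right _ hj
      omega
    rw [map_sub, h1.1 n h3, h2.1 n h3, sub_zero]
  · intro n
    exact (le_abs_self _).trans (Cum_le (Bd_bet_pow g j) n)

theorem D7f_aux4 : p1 ^ 2 + p2 ^ 2 + p3 ^ 2 ≤ 0.2759 := by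
  obtain ⟨a1, a2⟩ := p1_bd
  obtain ⟨b1, b2⟩ := p2_bd
  obtain ⟨c1, c2⟩ := p3_bd
  have h1 : p1 ^ 2 ≤ 0.42927797 ^ 2 := pow_le_pow_left₀ (by linarith) a2 2
  have h2 : p2 ^ 2 ≤ 0.29489604 ^ 2 := pow_le_pow_left₀ (by linarith) b2 2
  have h3 : p3 ^ 2 ≤ 0.06752709 ^ 2 := pow_le_pow_left₀ (by linarith) c2 2
  norm_num at h1 h2 h3 ⊢
  linarith

theorem D13 (g : Geo y' y W W' V) (hr : Adm r y) : Bd r (m0 y W W') 29.9 := by
  have hr0 : 0 ≤ r := le_trans zero_le_one hr.1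
  rw [m0_eq g]
  have h1 := D7f_aux3 g hr 1 (by norm_num)
  rw [pow_one] at h1
  have h2 := D7f_aux3 g hr 2 (by norm_num)
  have h3 := D7f_aux3 g hr 3 (by norm_num)
  have h0 := D13a g hr
  refine Bd_mono (Bd_add hr0 (Bd_add hr0 (Bd_add hr0 h0 (Bd_smul _ h1)) (Bd_smul _ h2)) (Bd_smul _ h3)) ?_
  rw [abs_of_nonneg (sq_nonneg p1), abs_of_nonneg (sq_nonneg p2), abs_of_nonneg (sq_nonneg p3)]
  have h4 := D7f_aux4
  norm_num at h4 ⊢
  linarith

theorem D14 (g : Geo y' y W W' V) (h : In y' y a0) (hr : Adm r y) :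
    Bd r (ker (aF a0 y W W' V)) 37.85 := by
  have hr0 : 0 ≤ r := le_trans zero_le_one hr.1
  have hy : y' ≤ y := by
    have := g.y'_le
    omega
  have e : ker (aF a0 y W W' V) =
      phi • ker a0 + (ms a0 y W W' V + mt a0 y W W' V - m0 y W W') + m0 y W W' := by
    rw [D10 g h]
    ring
  rw [e]
  refine Bd_mono (Bd_add hr0 (Bd_add hr0 (Bd_smul _ (h.lb.kn r (Adm_le hr hy))) (D12 g h hr)) (D13 g hr)) ?_
  obtain ⟨a1, a2⟩ := phi_bd
  rw [abs_of_nonneg (by linarith)]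
  norm_num at a2 ⊢
  linarith

end MP18
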