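import Pool.Agent.Lib.MP_18566a_pr.T.D6f

set_option autoImplicit false

namespace MP18

open Finset PowerSeries

variable {y' y W W' V : ℕ} {a0 : PS} {r : ℝ}

/-- parts of `m0` near `3y` and near `6y` -/
noncomputable def M3 (y W W' : ℕ) : PS :=
  p1 • bet y W W' + (p1 ^ 2 / p0) • sq (bet y W W')

noncomputable def M6 (y W W' : ℕ) : PS :=
  (p2 + 2 * p1 * p2 / p0) • bet y W W' ^ 2 + (p2 ^ 2 / p0) • sq (bet y W W' ^ 2)
    - (3 * aa) • (bet y W W' * M3 y W W')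

theorem D8f_aux_sq1 (g : Geo y' y W W' V) (j : ℕ) : Bd 1 (sq (bet y W W' ^ j)) 1 := by
  have h := Bd_of_Cpl (sq_nn (bet_pow_nn y W W' j)) (Cpl_sq (Cpl_bet_pow g j))
  simpa using h

theorem D8f_aux_p1 : p1 = 3 * aa * p0 := by
  simp only [p1, p0, p1f, p0f]; ring

theorem D8f_aux_p2 : p2 = 3 * aa ^ 2 * p0 := by
  simp only [p2, p0, p2f, p0f]; ring

theorem D8f_aux_p3 : p3 = aa ^ 3 * p0 := by
  simp only [p3, p0, p3f, p0f]; ring

theorem M3_bd (g : Geo y' y W W' V) : Bd 1 (M3 y W W') 1.315 := by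
  have hb : Bd 1 (bet y W W') 1 := by simpa using Bd_bet_pow g 1
  have hs : Bd 1 (sq (bet y W W')) 1 := by simpa using D8f_aux_sq1 g 1
  have h0 := p0_bd
  have h1 := p1_bd
  have hp0 : 0 < p0 := by linarith [h0.1]
  have hp1 : 0 < p1 := by linarith [h1.1]
  have h := Bd_add (by norm_num : (0 : ℝ) ≤ 1) (Bd_smul p1 hb) (Bd_smul (p1 ^ 2 / p0) hs)
  refine Bd_mono h ?_
  rw [abs_of_pos hp1, abs_of_pos (by positivity : 0 < p1 ^ 2 / p0)]
  have h2 : p1 ^ 2 / p0 ≤ 0.8848 := by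
    rw [div_le_iff₀ hp0]
    nlinarith [h0.1, h0.2, h1.1, h1.2]
  linarith [h1.2]

theorem M6_bd (g : Geo y' y W W' V) : Bd 1 (M6 y W W') 4.64 := by
  have hb : Bd 1 (bet y W W') 1 := by simpa using Bd_bet_pow g 1
  have hb2 : Bd 1 (bet y W W' ^ 2) 1 := Bd_bet_pow g 2
  have hs : Bd 1 (sq (bet y W W' ^ 2)) 1 := D8f_aux_sq1 g 2
  have h0 := p0_bd
  have h1 := p1_bd
  have h2 := p2_bd
  have hp0 : 0 < p0 := by linarith [h0.1]
  have hp1 : 0 < p1 := by linarith [h1.1]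
  have hp2 : 0 < p2 := by linarith [h2.1]
  have ha : 0 < aa := by linarith [aa_lo]
  have hm : Bd 1 (bet y W W' * M3 y W W') (1 * 1.315) :=
    Bd_mul (by norm_num : (0 : ℝ) ≤ 1) hb (M3_bd g)
  have h := Bd_sub (by norm_num : (0 : ℝ) ≤ 1)
    (Bd_add (by norm_num : (0 : ℝ) ≤ 1) (Bd_smul (p2 + 2 * p1 * p2 / p0) hb2)
      (Bd_smul (p2 ^ 2 / p0) hs)) (Bd_smul (3 * aa) hm)
  refine Bd_mono h ?_
  rw [abs_of_pos (by positivity : 0 < p2 + 2 * p1 * p2 / p0),
    abs_of_pos (by positivity : 0 < p2 ^ 2 / p0), abs_of_pos (by positivity : 0 < 3 * aa)]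
  have h3 : 2 * p1 * p2 / p0 ≤ 1.2155 := by
    rw [div_le_iff₀ hp0]
    have : p1 * p2 ≤ 0.42927797 * 0.29489604 := mul_le_mul h1.2 h2.2 hp2.le (by norm_num)
    nlinarith [h0.1]
  have h4 : p2 ^ 2 / p0 ≤ 0.4175 := by
    rw [div_le_iff₀ hp0]
    have : p2 * p2 ≤ 0.29489604 * 0.29489604 := mul_le_mul h2.2 h2.2 hp2.le (by norm_num)
    nlinarith [h0.1]
  have h5 := aa_hi
  linarith [h2.2]

/-- support of the powers of one step -/
theorem D8f_aux_supp (g : Geo y' y W W' V) (j n : ℕ) (h : coeff n (bet y W W' ^ j) ≠ 0) :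
    j * (3 * y - mid W W') ≤ n ∧ n ≤ j * (3 * y + mid W W') := by
  constructor
  · by_contra hc
    exact h (bet_low g j n (not_le.mp hc))
  · by_contra hc
    exact h ((Cpl_bet_pow g j).1 n (by omega))

theorem D8f_aux_mid (g : Geo y' y W W' V) : mid W W' ≤ y := by
  have h := (Geo.mid_le g).2
  have h0 : (0 : ℝ) ≤ mid W W' := by positivity
  have : (mid W W' : ℝ) ≤ y := by nlinarith
  exact_mod_cast this

theorem M3_supp (g : Geo y' y W W' V) : ∀ n, coeff n (M3 y W W') ≠ 0 →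
    3 * y - mid W W' ≤ n ∧ n ≤ 3 * y + mid W W' := by
  intro n hn
  have hne : coeff n (bet y W W') ≠ 0 := by
    intro hz
    apply hn
    simp [M3, coeff_sq, hz]
  have := D8f_aux_supp g 1 n (by simpa using hne)
  omega

theorem M6_supp (g : Geo y' y W W' V) : ∀ n, coeff n (M6 y W W') ≠ 0 →
    6 * y - 2 * mid W W' ≤ n ∧ n ≤ 6 * y + 2 * mid W W' := by
  intro n hn
  have hmid := D8f_aux_mid g
  by_cases h2 : coeff n (bet y W W' ^ 2) = 0
  · have hprod : coeff n (bet y W W' * M3 y W W') ≠ 0 := by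
      intro hz
      apply hn
      simp [M6, coeff_sq, h2, hz]
    rw [coeff_mul] at hprod
    obtain ⟨p, hp, hpne⟩ := Finset.exists_ne_zero_of_sum_ne_zero hprod
    rw [Finset.HasAntidiagonal.mem_antidiagonal] at hp
    have ha : coeff p.1 (bet y W W') ≠ 0 := left_ne_zero_of_mul hpne
    have hb : coeff p.2 (M3 y W W') ≠ 0 := right_ne_zero_of_mul hpne
    have h3 := D8f_aux_supp g 1 p.1 (by simpa using ha)
    have h4 := M3_supp g p.2 hb
    omega
  · have := D8f_aux_supp g 2 n h2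
    omega

/-- the squared increments of `Q0` -/
theorem D8f_aux_sqQ0 (g : Geo y' y W W' V) :
    sq (Q0 y W W') = p1 ^ 2 • sq (bet y W W') + (2 * p1 * p2) • bet y W W' ^ 2
      + p2 ^ 2 • sq (bet y W W' ^ 2) + (2 * (p1 + p2) * p3) • bet y W W' ^ 3
      + p3 ^ 2 • sq (bet y W W' ^ 3) := by
  have hf : (1 - ff : ℝ) ≠ 0 := by
    have : ff < 1 := by unfold ff; norm_num
    linarith
  have hQ : Qs y W W' = (1 - ff) • Q0 y W W' := by
    simp only [Qs, Q0, q1, q2, q3, smul_add, smul_smul]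
  have h := sq_Qs g
  rw [hQ, sq_smul] at h
  have h' : sq (Q0 y W W') = ((1 - ff) ^ 2)⁻¹ • ((1 - ff) ^ 2 • sq (Q0 y W W')) := by
    rw [smul_smul, inv_mul_cancel₀ (pow_ne_zero 2 hf), one_smul]
  rw [h', h]
  simp only [smul_add, smul_smul, q1, q2, q3]
  have e1 : ((1 - ff) ^ 2)⁻¹ * ((1 - ff) * p1) ^ 2 = p1 ^ 2 := by field_simp
  have e2 : ((1 - ff) ^ 2)⁻¹ * (2 * ((1 - ff) * p1) * ((1 - ff) * p2)) = 2 * p1 * p2 := by
    field_simp
  have e3 : ((1 - ff) ^ 2)⁻¹ * ((1 - ff) * p2) ^ 2 = p2 ^ 2 := by field_simp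
  have e4 : ((1 - ff) ^ 2)⁻¹ * (2 * ((1 - ff) * p1 + (1 - ff) * p2) * ((1 - ff) * p3))
      = 2 * (p1 + p2) * p3 := by field_simp
  have e5 : ((1 - ff) ^ 2)⁻¹ * ((1 - ff) * p3) ^ 2 = p3 ^ 2 := by field_simp
  rw [e1, e2, e3, e4, e5]

/-- what remains of `m0` after the first two steps, times `Pb` -/
theorem D8f_aux_rest (g : Geo y' y W W' V) :
    p0 • Q0 y W W' + sq (Q0 y W W') - (M3 y W W' + M6 y W W') * Pb y W W'
      = (p0 * p3 + 2 * (p1 + p2) * p3) • bet y W W' ^ 3 + p3 ^ 2 • sq (bet y W W' ^ 3)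
        - p1 • (bet y W W' * M6 y W W')
        - (p2 • (bet y W W' ^ 2 * (M3 y W W' + M6 y W W'))
          + p3 • (bet y W W' ^ 3 * (M3 y W W' + M6 y W W'))) := by
  have hp0 : p0 ≠ 0 := by
    have := p0_bd.1
    intro h; rw [h] at this; norm_num at this
  rw [D8f_aux_sqQ0 g]
  have hM3 : p0 • M3 y W W' = (p0 * p1) • bet y W W' + p1 ^ 2 • sq (bet y W W') := by
    simp only [M3, smul_add, smul_smul]
    congr 2
    field_simp
  have hM6 : p0 • M6 y W W' = (p0 * p2 + 2 * p1 * p2) • bet y W W' ^ 2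
      + p2 ^ 2 • sq (bet y W W' ^ 2) - p1 • (bet y W W' * M3 y W W') := by
    have e1 : p0 * (p2 + 2 * p1 * p2 / p0) = p0 * p2 + 2 * p1 * p2 := by field_simp
    have e2 : p0 * (p2 ^ 2 / p0) = p2 ^ 2 := by field_simp
    have e3 : p0 * (3 * aa) = p1 := by rw [D8f_aux_p1]; ring
    simp only [M6, smul_add, smul_sub, smul_smul]
    rw [e1, e2, e3]
  have hM3' := hM3
  have hM6' := hM6
  simp only [smul_eq_C_mul] at hM3' hM6'
  simp only [Q0, Pb, smul_eq_C_mul, map_add, map_mul, map_pow, map_ofNat] at hM3' hM6' ⊢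
  linear_combination (-1 : PS) * hM3' - hM6'

theorem M9_low (g : Geo y' y W W' V) : ∀ n < 9 * y - 3 * mid W W',
    coeff n (m0 y W W' - M3 y W W' - M6 y W W') = 0 := by
  have hmid := D8f_aux_mid g
  set m := 3 * y - mid W W' with hm
  have hlow1 : ∀ k < m, coeff k (bet y W W') = 0 := by
    intro k hk
    have := bet_low g 1 k (by simpa using hk)
    simpa using this
  have hlowM3 : ∀ k < m, coeff k (M3 y W W') = 0 := by
    intro k hk
    by_contra h
    have := M3_supp g k h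
    omega
  have hlowM6 : ∀ k < 2 * m, coeff k (M6 y W W') = 0 := by
    intro k hk
    by_contra h
    have := M6_supp g k h
    omega
  have hlow2 : ∀ k < 2 * m, coeff k (bet y W W' ^ 2) = 0 := fun k hk => bet_low g 2 k hk
  have hlow3 : ∀ k < 3 * m, coeff k (bet y W W' ^ 3) = 0 := fun k hk => bet_low g 3 k hk
  have hlowS : ∀ k < m, coeff k (M3 y W W' + M6 y W W') = 0 := by
    intro k hk
    rw [map_add, hlowM3 k hk, hlowM6 k (by omega), add_zero]

  have hR : ∀ k < 3 * m, coeff k (p0 • Q0 y W W' + sq (Q0 y W W')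
      - (M3 y W W' + M6 y W W') * Pb y W W') = 0 := by
    intro k hk
    rw [D8f_aux_rest g]
    have t1 : coeff k (bet y W W' ^ 3) = 0 := hlow3 k hk
    have t2 : coeff k (sq (bet y W W' ^ 3)) = 0 := by rw [coeff_sq, t1, zero_mul]
    have t3 : coeff k (bet y W W' * M6 y W W') = 0 :=
      low_mul hlow1 hlowM6 k (by omega)
    have t4 : coeff k (bet y W W' ^ 2 * (M3 y W W' + M6 y W W')) = 0 :=
      low_mul hlow2 hlowS k (by omega)
    have t5 : coeff k (bet y W W' ^ 3 * (M3 y W W' + M6 y W W')) = 0 :=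
      low_mul hlow3 hlowS k (by omega)
    simp only [map_sub, map_add, PowerSeries.coeff_smul, t1, t2, t3, t4, t5, smul_zero, add_zero,
      sub_zero]
  have hPb : Pb y W W' * (Pb y W W')⁻¹ = 1 :=
    mul_inv_PS (D1 g (Adm_one : Adm 1 y)).1
  have hEq : m0 y W W' - M3 y W W' - M6 y W W'
      = (p0 • Q0 y W W' + sq (Q0 y W W') - (M3 y W W' + M6 y W W') * Pb y W W')
        * (Pb y W W')⁻¹ := by
    unfold m0
    linear_combination (M3 y W W' + M6 y W W') * hPb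
  intro n hn
  rw [hEq]
  exact low_mul hR (fun k hk => absurd hk (Nat.not_lt_zero k) : ∀ k < 0, coeff k (Pb y W W')⁻¹ = 0)
    n (by omega)

end MP18
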