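import Pool.Agent.Lib.MP_18566a_pr.T.D7f
import Pool.Agent.Lib.MP_18566a_pr.T.B1
import Pool.Agent.Lib.MP_18566a_pr.T.B2
import Pool.Agent.Lib.MP_18566a_pr.T.B4

set_option autoImplicit false

namespace MP18

open Finset PowerSeries

variable {y' y W W' V : ℕ} {a0 : PS} {r : ℝ}

theorem D9a_aux1 {x : ℝ} {y : ℕ} (hy : 0 < y) (hx : 0 ≤ x) (hx1 : x ≤ 1 / (10 ^ 8 * y)) :
    Adm (1 + x) y := by
  have h := (Adm_R hy).2
  refine ⟨by linarith, ?_⟩
  refine le_trans ?_ h
  exact pow_le_pow_left₀ (by linarith) (by linarith) y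

theorem D9a_aux2 (s : ℝ) (M : PS) :
    nab * rescale s M = rescale s (nab * M) + (s - 1) • (X * rescale s M) := by
  have h1 : rescale s nab = 1 - s • (X : PS) := by
    unfold nab
    rw [map_sub, map_one]
    congr 1
    ext n
    rw [coeff_rescale]
    simp only [map_smul, smul_eq_mul, coeff_X]
    split_ifs with h
    · subst h
      simp
    · simp
  rw [map_mul, h1]
  unfold nab
  rw [sub_mul, sub_mul, one_mul, sub_smul, one_smul, smul_mul_assoc]
  abel

theorem D9a_aux3 (s t : ℝ) (M : PS) : rescale s (t • M) = t • rescale s M := by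
  ext n
  simp only [coeff_rescale, map_smul, smul_eq_mul]
  ring

theorem D16 (g : Geo y' y W W' V) (h : In y' y a0) {x : ℝ} (hx : 0 ≤ x)
    (hx1 : x ≤ 1 / (10 ^ 8 * y)) (n : ℕ) :
    |coeff n (ms a0 y W W' V)| * (1 + x) ^ n ≤ 3300 / W := by
  have hy : 0 < y := g.y_pos
  have hyR : (0 : ℝ) < y := by exact_mod_cast hy
  have hW : (0 : ℝ) < W := by
    have := g.W_pos
    exact_mod_cast this
  have hs0 : (0 : ℝ) ≤ 1 + x := by linarith
  have hadm := D9a_aux1 hy hx hx1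
  set M := ms a0 y W W' V with hM
  have h1 : Bd 1 (rescale (1 + x) (nab * M)) (3200 / W) :=
    (Bd_rescale_iff hs0).mpr (D8b g h hadm)
  have h2 : Bd 1 (rescale (1 + x) M) 1200 := (Bd_rescale_iff hs0).mpr (D8a g h hadm)
  have h3 : Bd 1 ((1 + x - 1) • (X * rescale (1 + x) M)) (|1 + x - 1| * (1 * 1200)) :=
    Bd_smul _ (Bd_mul zero_le_one (Bd_X zero_le_one) h2)
  have h4 : Bd 1 (nab * rescale (1 + x) M) (3200 / W + |1 + x - 1| * (1 * 1200)) := by
    rw [D9a_aux2]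
    exact Bd_add zero_le_one h1 h3
  have h5 := Bd_nab_coeff h4 n
  have e1 : coeff n (rescale (1 + x) M) = (1 + x) ^ n * coeff n M := coeff_rescale _ _ _
  rw [e1, abs_mul, abs_of_nonneg (pow_nonneg hs0 n)] at h5
  have e2 : |1 + x - 1| = x := by
    rw [add_sub_cancel_left, abs_of_nonneg hx]
  rw [e2] at h5
  have h6 : x * (1 * 1200) ≤ 100 / W := by
    have hWy : (W : ℝ) ≤ y := by
      have := g.Whi
      unfold ww at this
      have h7 : (1 : ℝ) / 10 ^ 73 ≤ 1 := by norm_num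
      nlinarith
    calc x * (1 * 1200) ≤ 1 / (10 ^ 8 * y) * (1 * 1200) :=
          mul_le_mul_of_nonneg_right hx1 (by norm_num)
      _ ≤ 100 / y := by
          rw [div_mul_eq_mul_div, div_le_div_iff₀ (by positivity) hyR]
          nlinarith
      _ ≤ 100 / W := div_le_div_of_nonneg_left (by norm_num) hW hWy
  have h7 : (3300 : ℝ) / W = 3200 / W + 100 / W := by ring
  rw [h7, mul_comm]
  linarith

/-- sup-norm stability at level 9/10 -/
theorem S1F (g : Geo y' y W W' V) (h : In y' y a0)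
    (hpr : ∀ z : ℂ, ‖z‖ = 1 → (ev (ker (aF a0 y W W' V)) z).re ≤ 2 + 155 / 100 * bb) :
    ∀ t, 0 ≤ t → t ≤ phi → SP (t • ker (aF a0 y W W' V)) (9 / 10) (A1 / 4) := by
  intro t ht0 ht1
  have hy : 0 < y := g.y_pos
  have hyR : (0 : ℝ) < y := by exact_mod_cast hy
  have hy1 : (1 : ℝ) ≤ y := by exact_mod_cast hy
  have hW : (0 : ℝ) < W := by
    have := g.W_pos
    exact_mod_cast this
  obtain ⟨hphi0, hphi1⟩ := phi_bd
  have hphi : 0 < phi := by linarith
  have ht2 : t ≤ 0.20829892 := by linarith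
  have ht3 : t ≤ 1 := by linarith
  have habs : |t| = t := abs_of_nonneg ht0
  set K := ker (aF a0 y W W' V) with hK
  have hsplit : t • K = (t * phi) • ker a0 + t • ms a0 y W W' V + t • mt a0 y W W' V := by
    rw [hK, D10 g h, smul_add, smul_add, smul_smul]

  have hk0 : Bd 1 (ker a0) 38 := h.lb.kn 1 Adm_one
  have hk1 : Bd 1 ((t * phi) • ker a0) 1.6489 := by
    refine Bd_mono (Bd_smul (t * phi) hk0) ?_
    rw [abs_of_nonneg (mul_nonneg ht0 hphi.le)]
    have h1 : t * phi ≤ 0.20829892 * 0.20829892 :=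
      mul_le_mul ht2 hphi1 hphi.le (by norm_num)
    have h2 : (0.20829892 * 0.20829892 : ℝ) * 38 ≤ 1.6489 := by norm_num
    nlinarith
  have hsp1 : SP ((t * phi) • ker a0) (9 / 10) 6.7 := by
    refine SP_mono (SP_of_norm hk1 (c := 9 / 10) (by norm_num)) (le_refl _) ?_
    norm_num

  set x : ℝ := 1 / (10 ^ 9 * y) with hx
  have hx0 : 0 < x := by positivity
  have hxx : x ≤ 1 / (10 ^ 8 * y) := by
    rw [hx]
    apply one_div_le_one_div_of_le (by positivity)
    nlinarith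
  have hx1 : x ≤ 1 := by
    rw [hx, div_le_one (by positivity)]
    nlinarith
  have hadm := D9a_aux1 hy hx0.le hxx

  have hK1 : Bd 1 K 37.85 := D14 g h Adm_one
  have hEN0 : EN K (2 + 155 / 100 * bb) := EN_of_PR hK1 hpr
  have hKR : Bd (1 + 1 / (10 ^ 8 * (y : ℝ))) K 37.85 := D14 g h (Adm_R hy)
  have hrew := Bd_reweight hx0.le (by positivity : (0 : ℝ) < 1 / (10 ^ 8 * y)) hxx hKR
  have hratio : x / (1 / (10 ^ 8 * (y : ℝ))) = 1 / 10 := by
    rw [hx]
    field_simp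
  rw [hratio] at hrew
  have hEN1 := EN_perturb hEN0 hrew
  rw [add_sub_cancel] at hEN1
  have hEN2 := EN_smul hEN1 ht0
  have hbb : bb ≤ 1 / 10 ^ 3 := by
    have h1 := bb_bd.2
    have h2 : ff ≤ 1 / 10 ^ 4 := by
      unfold ff
      norm_num
    linarith
  have hbb0 : 0 < bb := by
    have h1 := bb_bd.1
    have h2 := ff_pos
    linarith
  have hEN3 : EN (rescale (1 + x) ((t * phi) • ker a0 + t • ms a0 y W W' V +
      t • mt a0 y W W' V)) (2 * (9 / 10) - 1 / 2) := by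
    rw [← hsplit, D9a_aux3]
    refine EN_mono hEN2 ?_
    have h1 : 2 + 155 / 100 * bb + 37.85 * (1 / 10) ≤ 5.8 := by linarith
    have h2 : 0 ≤ 2 + 155 / 100 * bb + 37.85 * (1 / 10) := by linarith
    calc t * (2 + 155 / 100 * bb + 37.85 * (1 / 10)) ≤ 0.20829892 * 5.8 :=
          mul_le_mul ht2 h1 h2 (by norm_num)
      _ ≤ 2 * (9 / 10) - 1 / 2 := by norm_num

  have hMt : Bd 1 (t • mt a0 y W W' V) (1 / 10 ^ 49) := by
    refine Bd_mono (Bd_smul t (D9 g h Adm_one)) ?_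
    rw [habs]
    have : (0 : ℝ) < 1 / 10 ^ 49 := by positivity
    nlinarith
  have hσ : ∀ n, |coeff n (t • ms a0 y W W' V)| * (1 + x) ^ n ≤ 3300 / W := by
    intro n
    have h1 := D16 g h hx0.le hxx n
    have h2 : coeff n (t • ms a0 y W W' V) = t * coeff n (ms a0 y W W' V) := by
      simp only [map_smul, smul_eq_mul]
    rw [h2, abs_mul, habs, mul_assoc]
    have h3 : 0 ≤ |coeff n (ms a0 y W W' V)| * (1 + x) ^ n := by positivity
    nlinarith
  have hCm : Bd (1 + x) (t • ms a0 y W W' V) 1200 := by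
    refine Bd_mono (Bd_smul t (D8a g h hadm)) ?_
    rw [habs]
    nlinarith
  have hboot := SP_boot (c := 9 / 10) (A := 6.7) (by norm_num) hsp1 hMt (by norm_num) hx0 hx1
    (by norm_num : (0 : ℝ) < 1 / 2) hEN3 hσ hCm
  rw [hsplit]
  refine SP_mono hboot (le_refl _) ?_

  have hyW : (y : ℝ) ≤ 2 * 10 ^ 73 * W := by
    have h1 := g.Wlo
    unfold ww at h1
    have h2 : (1 : ℝ) / 10 ^ 73 * y / 2 * (2 * 10 ^ 73) = y := by
      field_simp
    calc (y : ℝ) = (1 : ℝ) / 10 ^ 73 * y / 2 * (2 * 10 ^ 73) := h2.symm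
      _ ≤ W * (2 * 10 ^ 73) := mul_le_mul_of_nonneg_right h1 (by positivity)
      _ = 2 * 10 ^ 73 * W := by ring
  have hsq : Real.sqrt (4 * (3300 / (W : ℝ)) * 1200 / (3 * x)) ≤ 4 * 10 ^ 44 := by
    apply Real.sqrt_le_iff.mpr
    refine ⟨by positivity, ?_⟩
    have e1 : 4 * (3300 / (W : ℝ)) * 1200 / (3 * x) = 5280000 * 10 ^ 9 * (y / W) := by
      rw [hx]
      field_simp
      norm_num
    rw [e1]
    have e2 : (y : ℝ) / W ≤ 2 * 10 ^ 73 := by
      rw [div_le_iff₀ hW]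
      exact hyW
    calc (5280000 * 10 ^ 9 * (y / W) : ℝ) ≤ 5280000 * 10 ^ 9 * (2 * 10 ^ 73) :=
          mul_le_mul_of_nonneg_left e2 (by norm_num)
      _ ≤ (4 * 10 ^ 44) ^ 2 := by norm_num
  have e3 : 2 * 6.7 * (1 + Real.sqrt (4 * (3300 / (W : ℝ)) * 1200 / (3 * x)) / (1 / 2)) ≤
      2 * 6.7 * (1 + 4 * 10 ^ 44 / (1 / 2)) := by
    apply mul_le_mul_of_nonneg_left _ (by norm_num)
    linarith
  refine e3.trans ?_
  unfold A1
  norm_num

end MP18
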