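import Pool.Agent.Lib.MP_18566a_pr.T.D9a

set_option autoImplicit false

namespace MP18

open Finset PowerSeries

variable {y' y W W' V : ℕ} {a0 : PS} {r : ℝ}

theorem D9f_aux1 (s t : ℝ) (M : PS) : rescale s (rescale t M) = rescale (s * t) M := by
  ext n
  simp only [coeff_rescale]
  rw [mul_pow]
  ring

theorem D9f_aux2 {r s C : ℝ} {A : PS} (hr : 0 ≤ r) (hs : 0 ≤ s) (h : Bd (s * r) A C) :
    Bd s (rescale r A) C := by
  rw [← Bd_rescale_iff hs, D9f_aux1, Bd_rescale_iff (mul_nonneg hs hr)]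
  exact h

set_option exponentiation.threshold 3000 in
/-- sup-norm stability at level c0, with weights -/
theorem S0F (g : Geo y' y W W' V) (h : In y' y a0)
    (hpr : ∀ z : ℂ, ‖z‖ = 1 → (ev (ker (aF a0 y W W' V)) z).re ≤ 2 + 155 / 100 * bb) :
    ∀ ρ, 1 ≤ ρ → ρ ≤ 1 + nu / y →
      SP (rescale ρ (ker (aF a0 y W W' V))) c0 (A0 / 4) := by
  intro ρ hρ1 hρ2
  have hy : 0 < y := g.y_pos
  have hyR : (0 : ℝ) < y := by exact_mod_cast hy
  have hy1 : (1 : ℝ) ≤ y := by exact_mod_cast hy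
  have hy' : 0 < y' := g.pos
  have hy'R : (0 : ℝ) < y' := by exact_mod_cast hy'
  have hW : (0 : ℝ) < W := by
    have := g.W_pos
    exact_mod_cast this
  have hy'y : (y' : ℝ) ≤ y := by
    have h1 : (10 ^ 6 * y' : ℕ) ≤ y := g.y'_le
    have h2 : ((10 ^ 6 * y' : ℕ) : ℝ) ≤ y := by exact_mod_cast h1
    push_cast at h2
    nlinarith
  obtain ⟨hphi0, hphi1⟩ := phi_bd
  have hphi : 0 < phi := by linarith
  have hff0 : 0 < ff := ff_pos
  have hff1 : ff = 1 / 10 ^ 140 := rfl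
  have hnu : nu = ff / 10 ^ 12 := rfl
  have hnu0 : 0 < nu := by
    rw [hnu]
    positivity
  have hnu1 : nu ≤ 1 / 10 ^ 152 := by
    rw [hnu, hff1]
    norm_num
  have hbb := bb_bd
  set K := ker (aF a0 y W W' V) with hK
  set x : ℝ := nu / y with hx
  have hx0 : 0 < x := by positivity
  have hx_le : x ≤ nu := by
    rw [hx]
    exact div_le_self hnu0.le hy1
  have hx1 : x ≤ 1 := by
    have : (1 : ℝ) / 10 ^ 152 ≤ 1 := by norm_num
    linarith

  set s : ℝ := (1 + x) * ρ with hs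
  have hs1 : 1 ≤ s := by
    rw [hs]
    nlinarith
  have hs0 : 0 ≤ s := by linarith
  have hs2 : s - 1 ≤ 3 * x := by
    have h1 : s ≤ (1 + x) * (1 + x) := mul_le_mul_of_nonneg_left hρ2 (by linarith)
    nlinarith
  have hx3 : 3 * x ≤ 1 / (10 ^ 8 * y) := by
    rw [hx, ← mul_div_assoc, div_le_div_iff₀ hyR (by positivity)]
    have h1 : 3 * nu * 10 ^ 8 ≤ 1 := by
      have : (1 : ℝ) / 10 ^ 152 * (3 * 10 ^ 8) ≤ 1 := by norm_num
      nlinarith
    nlinarith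
  have hsx : s - 1 ≤ 1 / (10 ^ 8 * y) := hs2.trans hx3
  have hadms : Adm s y := by
    have := D9a_aux1 hy (sub_nonneg.mpr hs1) hsx
    rwa [add_sub_cancel] at this
  have hρx : ρ - 1 ≤ 1 / (10 ^ 8 * y) := by
    have h1 : ρ - 1 ≤ x := by linarith
    have h2 : x ≤ 3 * x := by linarith
    linarith
  have hadmρ : Adm ρ y := by
    have := D9a_aux1 hy (sub_nonneg.mpr hρ1) hρx
    rwa [add_sub_cancel] at this
  have hρ0 : 0 ≤ ρ := by linarith

  have hsplit : rescale ρ K = rescale ρ (phi • ker a0) + rescale ρ (ms a0 y W W' V) +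
      rescale ρ (mt a0 y W W' V) := by
    rw [hK, D10 g h, map_add, map_add]

  have hk1 : SP (phi • ker a0) (9 / 10) A1 := h.lb.s1 phi hphi.le (le_refl _)
  have hkR : Bd (1 + 1 / (10 ^ 8 * (y' : ℝ))) (phi • ker a0) (phi * 38) := by
    have := Bd_smul phi (h.lb.kn _ (Adm_R hy'))
    rwa [abs_of_pos hphi] at this
  have hρx' : ρ - 1 ≤ 1 / (10 ^ 8 * y') := by
    refine hρx.trans ?_
    apply one_div_le_one_div_of_le (by positivity)
    nlinarith
  have hrew1 := Bd_reweight (sub_nonneg.mpr hρ1) (by positivity : (0 : ℝ) < 1 / (10 ^ 8 * y'))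
    hρx' hkR
  rw [add_sub_cancel] at hrew1
  have hsmall : (ρ - 1) / (1 / (10 ^ 8 * (y' : ℝ))) ≤ 1 / 10 ^ 100 := by
    rw [div_div_eq_mul_div, div_one]
    have h1 : ρ - 1 ≤ nu / y := by linarith
    have h2 : (y' : ℝ) / y ≤ 1 := (div_le_one hyR).mpr hy'y
    calc (ρ - 1) * (10 ^ 8 * (y' : ℝ)) ≤ nu / y * (10 ^ 8 * y') :=
          mul_le_mul_of_nonneg_right h1 (by positivity)
      _ = nu * 10 ^ 8 * (y' / y) := by
          field_simp
      _ ≤ nu * 10 ^ 8 * 1 := mul_le_mul_of_nonneg_left h2 (by positivity)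
      _ ≤ 1 / 10 ^ 152 * 10 ^ 8 * 1 := by
          apply mul_le_mul_of_nonneg_right _ zero_le_one
          exact mul_le_mul_of_nonneg_right hnu1 (by positivity)
      _ ≤ 1 / 10 ^ 100 := by norm_num
  have hsp1 : SP (rescale ρ (phi • ker a0)) c0 (2 * A1) := by
    have h1 : A1 * (phi * 38 * ((ρ - 1) / (1 / (10 ^ 8 * (y' : ℝ))))) ≤ 1 / 2 := by
      have h2 : phi * 38 * ((ρ - 1) / (1 / (10 ^ 8 * (y' : ℝ)))) ≤ 1 * 38 * (1 / 10 ^ 100) := by
        apply mul_le_mul _ hsmall _ (by norm_num)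
        · nlinarith
        · apply div_nonneg (by linarith) (by positivity)
      unfold A1
      calc (10 : ℝ) ^ 47 * (phi * 38 * ((ρ - 1) / (1 / (10 ^ 8 * (y' : ℝ))))) ≤
            10 ^ 47 * (1 * 38 * (1 / 10 ^ 100)) := mul_le_mul_of_nonneg_left h2 (by positivity)
        _ ≤ 1 / 2 := by norm_num
    have h3 := SP_perturb hk1 (by unfold A1; positivity) hrew1 h1
    rw [add_sub_cancel] at h3
    refine SP_mono h3 ?_ (le_refl _)
    unfold c0
    have : 0 < bb := by linarith [hbb.1]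
    linarith

  have hK1 : Bd 1 K 37.85 := D14 g h Adm_one
  have hEN0 : EN K (2 + 155 / 100 * bb) := EN_of_PR hK1 hpr
  have hKR : Bd (1 + 1 / (10 ^ 8 * (y : ℝ))) K 37.85 := D14 g h (Adm_R hy)
  have hrew := Bd_reweight (sub_nonneg.mpr hs1) (by positivity : (0 : ℝ) < 1 / (10 ^ 8 * y))
    hsx hKR
  rw [add_sub_cancel] at hrew
  have hEN1 := EN_perturb hEN0 hrew
  rw [add_sub_cancel] at hEN1
  have hratio : (s - 1) / (1 / (10 ^ 8 * (y : ℝ))) ≤ 3 * 10 ^ 8 * nu := by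
    rw [div_div_eq_mul_div, div_one]
    calc (s - 1) * (10 ^ 8 * (y : ℝ)) ≤ 3 * x * (10 ^ 8 * y) :=
          mul_le_mul_of_nonneg_right hs2 (by positivity)
      _ = 3 * 10 ^ 8 * nu := by
          rw [hx]
          field_simp
  have hEN3 : EN (rescale (1 + x) (rescale ρ (phi • ker a0) + rescale ρ (ms a0 y W W' V) +
      rescale ρ (mt a0 y W W' V))) (2 * c0 - ff) := by
    rw [← hsplit, D9f_aux1]
    refine EN_mono hEN1 ?_
    have h1 : 37.85 * ((s - 1) / (1 / (10 ^ 8 * (y : ℝ)))) ≤ 37.85 * (3 * 10 ^ 8 * nu) :=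
      mul_le_mul_of_nonneg_left hratio (by norm_num)
    have h2 : 37.85 * (3 * 10 ^ 8 * nu) ≤ 2 / 10 * ff := by
      rw [hnu]
      nlinarith
    unfold c0
    linarith [hbb.1]

  have hMt : Bd 1 (rescale ρ (mt a0 y W W' V)) (1 / 10 ^ 49) :=
    (Bd_rescale_iff hρ0).mpr (D9 g h hadmρ)
  have hσ : ∀ n, |coeff n (rescale ρ (ms a0 y W W' V))| * (1 + x) ^ n ≤ 3300 / W := by
    intro n
    have h1 := D16 g h (sub_nonneg.mpr hs1) hsx n
    rw [add_sub_cancel] at h1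
    rw [coeff_rescale, abs_mul, abs_of_nonneg (pow_nonneg hρ0 n)]
    calc ρ ^ n * |coeff n (ms a0 y W W' V)| * (1 + x) ^ n =
          |coeff n (ms a0 y W W' V)| * s ^ n := by
          rw [hs, mul_pow]
          ring
      _ ≤ 3300 / W := h1
  have hCm : Bd (1 + x) (rescale ρ (ms a0 y W W' V)) 1200 :=
    D9f_aux2 hρ0 (by linarith) (D8a g h hadms)
  have hμ : 2 * A1 * (1 / 10 ^ 49) ≤ 1 / 2 := by
    unfold A1
    norm_num
  have hboot := SP_boot (c := c0) (A := 2 * A1) (by unfold A1; positivity) hsp1 hMt hμ hx0 hx1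
    hff0 hEN3 hσ hCm
  rw [hsplit]
  refine SP_mono hboot (le_refl _) ?_

  have hyW : (y : ℝ) ≤ 2 * 10 ^ 73 * W := by
    have h1 := g.Wlo
    unfold ww at h1
    have h2 : (1 : ℝ) / 10 ^ 73 * y / 2 * (2 * 10 ^ 73) = y := by
      field_simp
    calc (y : ℝ) = (1 : ℝ) / 10 ^ 73 * y / 2 * (2 * 10 ^ 73) := h2.symm
      _ ≤ W * (2 * 10 ^ 73) := mul_le_mul_of_nonneg_right h1 (by positivity)
      _ = 2 * 10 ^ 73 * W := by ring
  have hsq : Real.sqrt (4 * (3300 / (W : ℝ)) * 1200 / (3 * x)) ≤ 2 * 10 ^ 116 := by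
    apply Real.sqrt_le_iff.mpr
    refine ⟨by positivity, ?_⟩
    have e1 : 4 * (3300 / (W : ℝ)) * 1200 / (3 * x) = 5280000 / nu * (y / W) := by
      rw [hx]
      field_simp
      norm_num
    rw [e1]
    have e2 : (y : ℝ) / W ≤ 2 * 10 ^ 73 := by
      rw [div_le_iff₀ hW]
      exact hyW
    have e3 : 5280000 / nu = 5280000 * 10 ^ 152 := by
      rw [hnu, hff1]
      field_simp
    rw [e3]
    calc (5280000 * 10 ^ 152 * (y / W) : ℝ) ≤ 5280000 * 10 ^ 152 * (2 * 10 ^ 73) :=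
          mul_le_mul_of_nonneg_left e2 (by positivity)
      _ ≤ (2 * 10 ^ 116) ^ 2 := by norm_num
  have e4 : Real.sqrt (4 * (3300 / (W : ℝ)) * 1200 / (3 * x)) / ff ≤ 2 * 10 ^ 116 / ff :=
    div_le_div_of_nonneg_right hsq hff0.le
  have e5 : 2 * (10 : ℝ) ^ 116 / ff = 2 * 10 ^ 116 * 10 ^ 140 := by
    rw [hff1]
    field_simp
  rw [e5] at e4
  have e3 : 2 * (2 * A1) * (1 + Real.sqrt (4 * (3300 / (W : ℝ)) * 1200 / (3 * x)) / ff) ≤
      2 * (2 * A1) * (1 + 2 * 10 ^ 116 * 10 ^ 140) := by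
    apply mul_le_mul_of_nonneg_left _ (by unfold A1; positivity)
    linarith
  refine e3.trans ?_
  unfold A1 A0
  norm_num

end MP18
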