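import Pool.Agent.Lib.MP_18566a_pr.T.Tun

/-! MP_18566a_pr: definitions shared by all files of the disproof (N = 2). -/

set_option autoImplicit false

namespace MP18

open Finset PowerSeries

noncomputable section

/-- real power series = real sequences -/
abbrev PS := PowerSeries ℝ

/-- backward difference operator, multiplication by 1 - X -/
def nab : PS := 1 - X

/-- cumulative sums -/
def Cum (A : PS) (n : ℕ) : ℝ := ∑ j ∈ range (n + 1), coeff j A

/-- increments of the squared cumulative sum -/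
def sq (A : PS) : PS := PowerSeries.mk fun n => coeff n A * (2 * Cum A n - coeff n A)

/-- uniform law on `{0,...,n-1}` -/
def U (n : ℕ) : PS := PowerSeries.mk fun j => if j < n then 1 / (n : ℝ) else 0

/-- weighted l1 bound -/
def Bd (r : ℝ) (A : PS) (C : ℝ) : Prop := ∀ N : ℕ, ∑ n ∈ range N, |coeff n A| * r ^ n ≤ C

/-- `A` vanishes from `y` on and has total sum `m` -/
def Cpl (A : PS) (y : ℕ) (m : ℝ) : Prop :=
  (∀ n, y ≤ n → coeff n A = 0) ∧ ∑ n ∈ range y, coeff n A = m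

def psi (A : PS) : PS := (A⁻¹ - 1) * nab⁻¹

def ker (A : PS) : PS := sq A * A⁻¹

def kap (k : PS) : PS := (k - 1) * nab⁻¹

/-- convolution of a series with a function -/
def cv (A : PS) (u : ℕ → ℝ) (n : ℕ) : ℝ := ∑ j ∈ range (n + 1), coeff j A * u (n - j)

/-- evaluation at a complex point -/
def ev (A : PS) (z : ℂ) : ℂ := ∑' n, ((coeff n A : ℝ) : ℂ) * z ^ n

/-- admissible weight for the unit `y` -/
def Adm (r : ℝ) (y : ℕ) : Prop := 1 ≤ r ∧ r ^ y ≤ 1 + 1 / 10 ^ 7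

/-- sup-norm stability of `2 c u - κ * u = g` with constant `A` -/
def SP (κ : PS) (c A : ℝ) : Prop :=
  ∀ (N : ℕ) (cf u g : ℕ → ℝ) (G : ℝ),
    (∀ n < N, c ≤ cf n) → (∀ n < N, 2 * cf n * u n - cv κ u n = g n) →
    (∀ n < N, |g n| ≤ G) → ∀ n < N, |u n| ≤ A * G

/-- energy bound of the quadratic form of `κ` -/
def EN (κ : PS) (γ : ℝ) : Prop :=
  ∀ (N : ℕ) (u : ℕ → ℝ), ∑ n ∈ range N, u n * cv κ u n ≤ γ * ∑ n ∈ range N, (u n) ^ 2

/-! ### numerical constants -/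

/-- relative width of the steps -/
def ww : ℝ := 1 / 10 ^ 73
/-- relative width of the trigger -/
def vv : ℝ := 1 / 10 ^ 83
/-- minimal ratio of scales in the one-step estimates -/
def L0 : ℝ := 10 ^ 250
/-- stability constant at level 9/10 -/
def A1 : ℝ := 10 ^ 47
/-- stability constant at level c0 -/
def A0 : ℝ := 10 ^ 155 * 10 ^ 155
/-- weight parameter -/
def nu : ℝ := ff / 10 ^ 12

/-- the tuned parameter -/
def aa : ℝ := Classical.choose exists_tuned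

def p0 : ℝ := p0f aa
def p1 : ℝ := p1f aa
def p2 : ℝ := p2f aa
def p3 : ℝ := p3f aa
def q1 : ℝ := (1 - ff) * p1
def q2 : ℝ := (1 - ff) * p2
def q3 : ℝ := (1 - ff) * p3
/-- mass kept at the previous scales -/
def phi : ℝ := (1 - ff) * p0
def bb : ℝ := ff / phi
def S0 : ℝ := ((1 - aa) / (1 + aa)) ^ 3
/-- critical level after the trigger (with a margin) -/
def c0 : ℝ := 1 + 9 / 10 * bb
/-- derivative constant at the root -/
def Np : ℝ := (p1 ^ 2 + 2 * p1 * (p2 + p3)) - 2 * (p2 ^ 2 + 2 * p2 * p3) + 3 * p3 ^ 2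

/-! ### geometry of one step -/

/-- `y'` old unit, `y` new unit, `W, W'` widths of the step, `V` width of the trigger -/
structure Geo (y' y W W' V : ℕ) : Prop where
  pos : 0 < y'
  sep : L0 * y' ≤ y
  odd : Odd W
  Wlo : ww * y / 2 ≤ W
  Whi : (W : ℝ) ≤ ww * y
  W'lo : (W : ℝ) / 2000 ≤ W'
  W'hi : (W' : ℝ) ≤ W / 1000
  Vlo : vv * y' ≤ V
  Vhi : (V : ℝ) ≤ 2 * vv * y'
  Vpos : 0 < V

/-- half width of one step -/
def mid (W W' : ℕ) : ℕ := (W - 1) / 2 + (W' - 1)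

/-- shape of one step, centred at `mid W W'` -/
def bsh (W W' : ℕ) : PS := U W * U W' ^ 2

/-- one step, centred at `3y` -/
def bet (y W W' : ℕ) : PS := X ^ (3 * y - mid W W') * bsh W W'

/-- the trigger -/
def TT (y V : ℕ) : PS := X ^ y * U V

/-- the smooth part of the new mass -/
def Qs (y W W' : ℕ) : PS := q1 • bet y W W' + q2 • bet y W W' ^ 2 + q3 • bet y W W' ^ 3

def QQ (y W W' V : ℕ) : PS := ff • TT y V + Qs y W W'

/-- the new law before the slope -/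
def aF (a0 : PS) (y W W' V : ℕ) : PS := phi • a0 + QQ y W W' V

def RR (a0 : PS) (y W W' V : ℕ) : PS := (phi • 1 + QQ y W W' V * a0⁻¹)⁻¹

def Gs (a0 : PS) (y W W' : ℕ) : PS :=
  (phi • (2 - ker a0) + (2 * ff) • 1) * Qs y W W' + sq (Qs y W W')

def Gt (a0 : PS) (y V : ℕ) : PS :=
  (phi * ff) • ((2 - ker a0) * TT y V) + ff ^ 2 • sq (TT y V)

def ms (a0 : PS) (y W W' V : ℕ) : PS := RR a0 y W W' V * Gs a0 y W W' * a0⁻¹
def mt (a0 : PS) (y W W' V : ℕ) : PS := RR a0 y W W' V * Gt a0 y V * a0⁻¹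

/-- properties of the law of a level with unit `y` -/
structure LB (y : ℕ) (a : PS) : Prop where
  nn : ∀ n, 0 ≤ coeff n a
  pos : 0 < coeff 0 a
  ps : ∀ r, Adm r y → Bd r (psi a) (10 ^ 4 * y)
  kn : ∀ r, Adm r y → Bd r (ker a) 38
  kp : ∀ r, Adm r y → Bd r (kap (ker a)) (10 ^ 5 * y)
  pr : ∀ z : ℂ, ‖z‖ = 1 → (ev (ker a) z).re ≤ 2 + 16 / 10 * bb
  s1 : ∀ t, 0 ≤ t → t ≤ phi → SP (t • ker a) (9 / 10) A1
  s0 : ∀ ρ, 1 ≤ ρ → ρ ≤ 1 + nu / y → SP (rescale ρ (ker a)) c0 A0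

/-- the same with margins (before the slope is added) -/
structure LBm (y : ℕ) (a : PS) : Prop where
  nn : ∀ n, 0 ≤ coeff n a
  pos : 0 < coeff 0 a
  ps : ∀ r, Adm r y → Bd r (psi a) (6000 * y)
  kn : ∀ r, Adm r y → Bd r (ker a) (379 / 10)
  kp : ∀ r, Adm r y → Bd r (kap (ker a)) (60000 * y)
  pr : ∀ z : ℂ, ‖z‖ = 1 → (ev (ker a) z).re ≤ 2 + 155 / 100 * bb
  s1 : ∀ t, 0 ≤ t → t ≤ phi → SP (t • ker a) (9 / 10) (A1 / 4)
  s0 : ∀ ρ, 1 ≤ ρ → ρ ≤ 1 + nu / y → SP (rescale ρ (ker a)) c0 (A0 / 4)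

/-- the slope -/
def slo (y Y : ℕ) : PS := X ^ y * U (Y - y)

/-- unnormalised law with slope of total mass `kb` on `[y, Y)` -/
def aT (a0 : PS) (y W W' V : ℕ) (kb : ℝ) (Y : ℕ) : PS := aF a0 y W W' V + kb • slo y Y

/-- the law of the next level -/
def aN (a0 : PS) (y W W' V : ℕ) (kb : ℝ) (Y : ℕ) : PS := (1 + kb)⁻¹ • aT a0 y W W' V kb Y

end

end MP18
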