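import Pool.Agent.Lib.MP_18566a_pr.T.C4a
import Pool.Agent.Lib.MP_18566a_pr.T.A5
import Pool.Agent.Lib.MP_18566a_pr.T.C1b

set_option autoImplicit false

namespace MP18

open Finset PowerSeries

/-- symmetric law with centre `m` -/
structure Sym (A : PS) (m : ℕ) : Prop where
  nn : ∀ n, 0 ≤ coeff n A
  cpl : Cpl A (2 * m + 1) 1
  symm : ∀ n ≤ 2 * m, coeff n A = coeff (2 * m - n) A

noncomputable def rhoS (A : PS) (m : ℕ) (ω : ℝ) : ℝ :=
  ∑ n ∈ range (2 * m + 1), coeff n A * Real.cos (ω * ((n : ℝ) - m))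

noncomputable def hS (A : PS) (m : ℕ) (ω : ℝ) : ℝ :=
  ∑ n ∈ range (2 * m + 1), coeff n A * (2 * Cum A n - coeff n A - 1) * Real.sin (ω * ((n : ℝ) - m))

noncomputable def etS (A : PS) (m : ℕ) (ω : ℝ) : ℝ :=
  ∑ n ∈ range (2 * m + 1), coeff n A * ((n : ℝ) - m) * Real.sin (ω * ((n : ℝ) - m))

noncomputable def chS (A : PS) (m : ℕ) (t : ℂ) : ℂ :=
  ∑ n ∈ range (2 * m + 1), ((coeff n A : ℝ) : ℂ) * Complex.cosh (t * ((n : ℂ) - m))

noncomputable def shS (A : PS) (m : ℕ) (t : ℂ) : ℂ :=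
  ∑ n ∈ range (2 * m + 1),
    ((coeff n A * (2 * Cum A n - coeff n A - 1) : ℝ) : ℂ) * Complex.sinh (t * ((n : ℂ) - m))

theorem E1_conv {R : Type*} [CommRing R] (α β : ℕ → R) {a b : ℕ} (hα : ∀ i, a + 1 ≤ i → α i = 0)
    (hβ : ∀ j, b + 1 ≤ j → β j = 0) (f : ℕ → R) :
    ∑ n ∈ range (a + b + 1), (∑ p ∈ antidiagonal n, α p.1 * β p.2) * f n
      = ∑ i ∈ range (a + 1), ∑ j ∈ range (b + 1), α i * β j * f (i + j) := by
  have h1 := sum_product (range (a + 1)) (range (b + 1))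
    (fun p : ℕ × ℕ => α p.1 * β p.2 * f (p.1 + p.2))
  have h2 := sum_fiberwise_of_maps_to (s := range (a + 1) ×ˢ range (b + 1))
    (t := range (a + b + 1)) (g := fun p : ℕ × ℕ => p.1 + p.2)
    (by
      intro p hp
      rw [mem_product, mem_range, mem_range] at hp
      rw [mem_range]
      omega)
    (fun p : ℕ × ℕ => α p.1 * β p.2 * f (p.1 + p.2))
  have h3 : ∑ i ∈ range (a + 1), ∑ j ∈ range (b + 1), α i * β j * f (i + j) =
      ∑ p ∈ range (a + 1) ×ˢ range (b + 1), α p.1 * β p.2 * f (p.1 + p.2) := h1.symm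
  rw [h3, ← h2]
  refine sum_congr rfl fun n hn => ?_
  rw [sum_mul]
  have h4 : ∑ p ∈ antidiagonal n, α p.1 * β p.2 * f n =
      ∑ p ∈ antidiagonal n, α p.1 * β p.2 * f (p.1 + p.2) := by
    refine sum_congr rfl fun p hp => ?_
    rw [HasAntidiagonal.mem_antidiagonal.1 hp]
  rw [h4]
  symm
  apply sum_subset
  · intro p hp
    rw [mem_filter] at hp
    exact HasAntidiagonal.mem_antidiagonal.2 hp.2
  · intro p hp hp2
    rw [HasAntidiagonal.mem_antidiagonal] at hp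
    by_cases c1 : a + 1 ≤ p.1
    · rw [hα _ c1, zero_mul, zero_mul]
    · by_cases c2 : b + 1 ≤ p.2
      · rw [hβ _ c2, mul_zero, zero_mul]
      · exfalso
        apply hp2
        rw [mem_filter, mem_product, mem_range, mem_range]
        exact ⟨⟨by omega, by omega⟩, hp⟩

/-- sums against a product of two finitely supported series -/
theorem conv_sum {A B : PS} {a b : ℕ} {m m' : ℝ} (hA : Cpl A (a + 1) m) (hB : Cpl B (b + 1) m')
    (f : ℕ → ℂ) :
    ∑ n ∈ range (a + b + 1), ((coeff n (A * B) : ℝ) : ℂ) * f n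
      = ∑ i ∈ range (a + 1), ∑ j ∈ range (b + 1),
          ((coeff i A : ℝ) : ℂ) * ((coeff j B : ℝ) : ℂ) * f (i + j) := by
  rw [← E1_conv (fun i => ((coeff i A : ℝ) : ℂ)) (fun j => ((coeff j B : ℝ) : ℂ))
    (fun i hi => by rw [hA.1 i hi, Complex.ofReal_zero])
    (fun j hj => by rw [hB.1 j hj, Complex.ofReal_zero]) f]
  refine sum_congr rfl fun n _ => ?_
  rw [PowerSeries.coeff_mul]
  push_cast
  rfl

theorem conv_sum_real {A B : PS} {a b : ℕ} {m m' : ℝ} (hA : Cpl A (a + 1) m)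
    (hB : Cpl B (b + 1) m') (f : ℕ → ℝ) :
    ∑ n ∈ range (a + b + 1), coeff n (A * B) * f n
      = ∑ i ∈ range (a + 1), ∑ j ∈ range (b + 1), coeff i A * coeff j B * f (i + j) := by
  rw [← E1_conv (fun i => coeff i A) (fun j => coeff j B) (fun i hi => hA.1 i hi)
    (fun j hj => hB.1 j hj) f]
  refine sum_congr rfl fun n _ => ?_
  rw [PowerSeries.coeff_mul]

/-- a law supported in `[0, M]`, symmetric about `M / 2` -/
structure E1_SymG (A : PS) (M : ℕ) : Prop where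
  nn : ∀ n, 0 ≤ coeff n A
  cpl : Cpl A (M + 1) 1
  symm : ∀ n ≤ M, coeff n A = coeff (M - n) A

theorem E1_SymG_mul {A B : PS} {M K : ℕ} (hA : E1_SymG A M) (hB : E1_SymG B K) :
    E1_SymG (A * B) (M + K) := by
  refine ⟨fun n => ?_, ⟨fun n hn => ?_, ?_⟩, fun n hn => ?_⟩
  · rw [PowerSeries.coeff_mul]
    exact sum_nonneg fun p _ => mul_nonneg (hA.nn _) (hB.nn _)
  · rw [PowerSeries.coeff_mul]
    refine sum_eq_zero fun p hp => ?_
    rw [HasAntidiagonal.mem_antidiagonal] at hp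
    by_cases c1 : M + 1 ≤ p.1
    · rw [hA.cpl.1 _ c1, zero_mul]
    · rw [hB.cpl.1 _ (by omega), mul_zero]
  · have h := conv_sum_real hA.cpl hB.cpl (fun _ => 1)
    simp only [mul_one] at h
    rw [h, ← sum_mul_sum, hA.cpl.2, hB.cpl.2, one_mul]
  · have key : ∀ n' ≤ M + K, coeff n' (A * B) = ∑ i ∈ range (M + 1), ∑ j ∈ range (K + 1),
        coeff i A * coeff j B * (if i + j = n' then 1 else 0) := by
      intro n' hn'
      rw [← conv_sum_real hA.cpl hB.cpl (fun l => if l = n' then (1 : ℝ) else 0)]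
      simp only [mul_ite, mul_one, mul_zero]
      rw [sum_ite_eq' (range (M + K + 1)) n', if_pos (mem_range.2 (by omega))]
    rw [key n hn, key (M + K - n) (by omega)]
    rw [← sum_range_reflect]
    refine sum_congr rfl fun i hi => ?_
    rw [← sum_range_reflect]
    refine sum_congr rfl fun j hj => ?_
    rw [mem_range] at hi hj
    have e1 : M + 1 - 1 - i = M - i := by omega
    have e2 : K + 1 - 1 - j = K - j := by omega
    rw [e1, e2, ← hA.symm i (by omega), ← hB.symm j (by omega)]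
    congr 1
    by_cases c : M - i + (K - j) = n
    · rw [if_pos c, if_pos (by omega)]
    · rw [if_neg c, if_neg (by omega)]

theorem E1_to {A : PS} {m M : ℕ} (h : 2 * m = M) (hA : E1_SymG A M) : Sym A m := by
  subst h
  exact ⟨hA.nn, hA.cpl, hA.symm⟩

theorem E1_of {A : PS} {m : ℕ} (hA : Sym A m) : E1_SymG A (2 * m) :=
  ⟨hA.nn, hA.cpl, hA.symm⟩

theorem E1_SymG_U {W : ℕ} (hW : 0 < W) : E1_SymG (U W) (W - 1) := by
  refine ⟨U_nn W, ?_, fun n hn => ?_⟩
  · have := Cpl_U hW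
    rw [Nat.sub_add_cancel hW]
    exact this
  · rw [coeff_U, coeff_U, if_pos (by omega), if_pos (by omega)]

theorem Sym_mul {A B : PS} {m k : ℕ} (hA : Sym A m) (hB : Sym B k) : Sym (A * B) (m + k) :=
  E1_to (by ring) (E1_SymG_mul (E1_of hA) (E1_of hB))

theorem Sym_pow {A : PS} {m : ℕ} (hA : Sym A m) (j : ℕ) : Sym (A ^ j) (j * m) := by
  induction j with
  | zero =>
    refine ⟨fun n => ?_, ⟨fun n hn => ?_, ?_⟩, fun n hn => ?_⟩
    · rw [pow_zero, PowerSeries.coeff_one]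
      split_ifs <;> norm_num
    · rw [pow_zero, PowerSeries.coeff_one, if_neg (by omega)]
    · rw [pow_zero, zero_mul, mul_zero, zero_add, sum_range_one, PowerSeries.coeff_one,
        if_pos rfl]
    · rw [zero_mul, mul_zero] at hn ⊢
      have h0 : n = 0 := by omega
      rw [h0, Nat.sub_zero]
  | succ j ih =>
    have h := Sym_mul ih hA
    rw [← pow_succ] at h
    have e : (j + 1) * m = j * m + m := by ring
    rw [e]
    exact h

theorem Sym_U {W : ℕ} (hW : Odd W) : Sym (U W) ((W - 1) / 2) := by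
  obtain ⟨k, rfl⟩ := hW
  exact E1_to (by omega) (E1_SymG_U (by omega))

theorem Sym_U2 {W : ℕ} (hW : 0 < W) : Sym (U W * U W) (W - 1) :=
  E1_to (by omega) (E1_SymG_mul (E1_SymG_U hW) (E1_SymG_U hW))

theorem Sym_bsh {W W' : ℕ} (hW : Odd W) (hW' : 0 < W') : Sym (bsh W W') (mid W W') := by
  unfold bsh mid
  rw [pow_two]
  exact Sym_mul (Sym_U hW) (Sym_U2 hW')

/-- an odd sum vanishes -/
theorem E1_odd {R : Type*} [Field R] [CharZero R] (m : ℕ) (c : ℕ → R)
    (h : ∀ n ≤ 2 * m, c (2 * m - n) = - c n) : ∑ n ∈ range (2 * m + 1), c n = 0 := by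
  have h1 := sum_range_reflect c (2 * m + 1)
  have h2 : ∑ j ∈ range (2 * m + 1), c (2 * m + 1 - 1 - j) = - ∑ n ∈ range (2 * m + 1), c n := by
    rw [← sum_neg_distrib]
    refine sum_congr rfl fun j hj => ?_
    rw [mem_range] at hj
    rw [Nat.add_sub_cancel, h j (by omega)]
  rw [h2] at h1
  have h3 : (2 : R) * ∑ n ∈ range (2 * m + 1), c n = 0 := by
    linear_combination -h1
  exact (mul_eq_zero.1 h3).resolve_left two_ne_zero

theorem E1_Cum {A : PS} {m : ℕ} (hA : Sym A m) (n : ℕ) (hn : n ≤ 2 * m) :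
    Cum A n + Cum A (2 * m - n) = 1 + coeff n A := by
  induction n with
  | zero =>
    have h1 : Cum A (2 * m - 0) = 1 := hA.cpl.2
    have h2 : Cum A 0 = coeff 0 A := by
      unfold Cum
      rw [zero_add, sum_range_one]
    rw [h1, h2, add_comm]
  | succ n ih =>
    have h1 := ih (by omega)
    have h2 : Cum A (n + 1) = Cum A n + coeff (n + 1) A := by
      unfold Cum
      rw [sum_range_succ]
    have h3 : Cum A (2 * m - n) = Cum A (2 * m - (n + 1)) + coeff (2 * m - n) A := by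
      have e : 2 * m - n = (2 * m - (n + 1)) + 1 := by omega
      unfold Cum
      rw [e, sum_range_succ]
    have h4 := hA.symm n (by omega)
    linarith

theorem E1_w {A : PS} {m : ℕ} (hA : Sym A m) (n : ℕ) (hn : n ≤ 2 * m) :
    2 * Cum A (2 * m - n) - coeff (2 * m - n) A - 1 = -(2 * Cum A n - coeff n A - 1) := by
  have h1 := E1_Cum hA n hn
  have h2 := hA.symm n hn
  linarith

theorem E1_ev {A : PS} {N : ℕ} (h : ∀ n, N ≤ n → coeff n A = 0) (z : ℂ) :
    ev A z = ∑ n ∈ range N, ((coeff n A : ℝ) : ℂ) * z ^ n := by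
  unfold ev
  apply tsum_eq_sum
  intro n hn
  rw [mem_range, not_lt] at hn
  rw [h n hn, Complex.ofReal_zero, zero_mul]

theorem E1_cast {m n : ℕ} (hn : n ≤ 2 * m) : ((2 * m - n : ℕ) : ℂ) - m = -((n : ℂ) - m) := by
  rw [Nat.cast_sub hn]
  push_cast
  ring

theorem E1_castR {m n : ℕ} (hn : n ≤ 2 * m) : ((2 * m - n : ℕ) : ℝ) - m = -((n : ℝ) - m) := by
  rw [Nat.cast_sub hn]
  push_cast
  ring

theorem E1_sinh {A : PS} {m : ℕ} (hA : Sym A m) (t : ℂ) :
    ∑ n ∈ range (2 * m + 1), ((coeff n A : ℝ) : ℂ) * Complex.sinh (t * ((n : ℂ) - m)) = 0 := by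
  refine E1_odd m _ fun n hn => ?_
  rw [← hA.symm n hn, E1_cast hn, mul_neg, Complex.sinh_neg, mul_neg]

theorem E1_exp (t : ℂ) (n m : ℕ) : Complex.exp t ^ n =
    Complex.exp (t * m) * (Complex.cosh (t * ((n : ℂ) - m)) + Complex.sinh (t * ((n : ℂ) - m))) := by
  rw [Complex.cosh_add_sinh, ← Complex.exp_add, ← Complex.exp_nat_mul]
  congr 1
  ring

theorem ev_Sym_c {A : PS} {m : ℕ} (hA : Sym A m) (t : ℂ) :
    ev A (Complex.exp t) = Complex.exp (t * m) * chS A m t := by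
  rw [E1_ev hA.cpl.1]
  have h1 : ∀ n ∈ range (2 * m + 1), ((coeff n A : ℝ) : ℂ) * Complex.exp t ^ n =
      Complex.exp (t * m) * (((coeff n A : ℝ) : ℂ) * Complex.cosh (t * ((n : ℂ) - m)) +
        ((coeff n A : ℝ) : ℂ) * Complex.sinh (t * ((n : ℂ) - m))) := by
    intro n _
    rw [E1_exp t n m]
    ring
  rw [sum_congr rfl h1, ← mul_sum, sum_add_distrib, E1_sinh hA, add_zero]
  rfl

theorem ev_sq_Sym_c {A : PS} {m : ℕ} (hA : Sym A m) (t : ℂ) :
    ev (sq A) (Complex.exp t) = Complex.exp (t * m) * (chS A m t + shS A m t) := by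
  have h0 : ∀ n, 2 * m + 1 ≤ n → coeff n (sq A) = 0 := by
    intro n hn
    rw [coeff_sq, hA.cpl.1 n hn, zero_mul]
  rw [E1_ev h0]
  have h1 : ∀ n ∈ range (2 * m + 1), ((coeff n (sq A) : ℝ) : ℂ) * Complex.exp t ^ n =
      Complex.exp (t * m) * ((((coeff n A : ℝ) : ℂ) * Complex.cosh (t * ((n : ℂ) - m)) +
        ((coeff n A : ℝ) : ℂ) * Complex.sinh (t * ((n : ℂ) - m))) +
        (((coeff n A * (2 * Cum A n - coeff n A - 1) : ℝ) : ℂ) * Complex.cosh (t * ((n : ℂ) - m)) +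
        ((coeff n A * (2 * Cum A n - coeff n A - 1) : ℝ) : ℂ) *
          Complex.sinh (t * ((n : ℂ) - m)))) := by
    intro n _
    rw [E1_exp t n m, coeff_sq]
    push_cast
    ring
  have h2 : ∑ n ∈ range (2 * m + 1), ((coeff n A * (2 * Cum A n - coeff n A - 1) : ℝ) : ℂ) *
      Complex.cosh (t * ((n : ℂ) - m)) = 0 := by
    refine E1_odd m _ fun n hn => ?_
    rw [E1_w hA n hn, ← hA.symm n hn, E1_cast hn, mul_neg t, Complex.cosh_neg]
    push_cast
    ring
  rw [sum_congr rfl h1, ← mul_sum, sum_add_distrib, sum_add_distrib, sum_add_distrib, E1_sinh hA,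
    h2, add_zero, zero_add]
  rfl

theorem chS_I (A : PS) (m : ℕ) (ω : ℝ) :
    chS A m (ω * Complex.I) = ((rhoS A m ω : ℝ) : ℂ) := by
  unfold chS rhoS
  rw [Complex.ofReal_sum]
  refine sum_congr rfl fun n _ => ?_
  have e : (ω : ℂ) * Complex.I * ((n : ℂ) - m) = ((ω * ((n : ℝ) - m) : ℝ) : ℂ) * Complex.I := by
    push_cast
    ring
  rw [e, Complex.cosh_mul_I, ← Complex.ofReal_cos]
  push_cast
  rfl

theorem shS_I (A : PS) (m : ℕ) (ω : ℝ) :
    shS A m (ω * Complex.I) = Complex.I * ((hS A m ω : ℝ) : ℂ) := by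
  unfold shS hS
  rw [Complex.ofReal_sum, mul_sum]
  refine sum_congr rfl fun n _ => ?_
  have e : (ω : ℂ) * Complex.I * ((n : ℂ) - m) = ((ω * ((n : ℝ) - m) : ℝ) : ℂ) * Complex.I := by
    push_cast
    ring
  rw [e, Complex.sinh_mul_I, ← Complex.ofReal_sin, Complex.ofReal_mul (coeff n A * _)]
  ring

theorem chS_mul {A B : PS} {m k : ℕ} (hA : Sym A m) (hB : Sym B k) (t : ℂ) :
    chS (A * B) (m + k) t = chS A m t * chS B k t := by
  have h := conv_sum hA.cpl hB.cpl (fun n => Complex.cosh (t * ((n : ℂ) - ((m + k : ℕ) : ℂ))))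
  unfold chS
  have e : 2 * (m + k) + 1 = 2 * m + 2 * k + 1 := by ring
  rw [e, h]
  have h1 : ∀ i ∈ range (2 * m + 1), ∀ j ∈ range (2 * k + 1),
      ((coeff i A : ℝ) : ℂ) * ((coeff j B : ℝ) : ℂ) *
        Complex.cosh (t * (((i + j : ℕ) : ℂ) - ((m + k : ℕ) : ℂ))) =
      ((coeff i A : ℝ) : ℂ) * Complex.cosh (t * ((i : ℂ) - m)) *
        (((coeff j B : ℝ) : ℂ) * Complex.cosh (t * ((j : ℂ) - k))) +
      ((coeff i A : ℝ) : ℂ) * Complex.sinh (t * ((i : ℂ) - m)) *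
        (((coeff j B : ℝ) : ℂ) * Complex.sinh (t * ((j : ℂ) - k))) := by
    intro i _ j _
    have e2 : t * (((i + j : ℕ) : ℂ) - ((m + k : ℕ) : ℂ)) =
        t * ((i : ℂ) - m) + t * ((j : ℂ) - k) := by
      push_cast
      ring
    rw [e2, Complex.cosh_add]
    ring
  rw [sum_congr rfl fun i hi => sum_congr rfl (h1 i hi)]
  simp only [sum_add_distrib]
  rw [← sum_mul_sum, ← sum_mul_sum, E1_sinh hA, zero_mul, add_zero]

theorem rhoS_mul {A B : PS} {m k : ℕ} (hA : Sym A m) (hB : Sym B k) (ω : ℝ) :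
    rhoS (A * B) (m + k) ω = rhoS A m ω * rhoS B k ω := by
  have h := chS_mul hA hB (ω * Complex.I)
  rw [chS_I, chS_I, chS_I, ← Complex.ofReal_mul] at h
  exact Complex.ofReal_injective h

theorem rhoS_pow {A : PS} {m : ℕ} (hA : Sym A m) (j : ℕ) (ω : ℝ) :
    rhoS (A ^ j) (j * m) ω = rhoS A m ω ^ j := by
  induction j with
  | zero =>
    unfold rhoS
    rw [zero_mul, mul_zero, zero_add, sum_range_one, pow_zero, pow_zero, PowerSeries.coeff_one,
      if_pos rfl]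
    simp
  | succ j ih =>
    have e : (j + 1) * m = j * m + m := by ring
    rw [pow_succ, e, rhoS_mul (Sym_pow hA j) hA, ih, pow_succ]

theorem rhoS_le {A : PS} {m : ℕ} (hA : Sym A m) (ω : ℝ) : rhoS A m ω ≤ 1 := by
  unfold rhoS
  rw [← hA.cpl.2]
  refine sum_le_sum fun n _ => ?_
  exact mul_le_of_le_one_right (hA.nn n) (Real.cos_le_one _)

theorem E1_sin {A : PS} {m : ℕ} (hA : Sym A m) (ω : ℝ) :
    ∑ n ∈ range (2 * m + 1), coeff n A * Real.sin (ω * ((n : ℝ) - m)) = 0 := by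
  refine E1_odd m _ fun n hn => ?_
  rw [← hA.symm n hn, E1_castR hn, mul_neg, Real.sin_neg, mul_neg]

theorem etS_sq {A : PS} {m : ℕ} (hA : Sym A m) (ω : ℝ) :
    etS (A * A) (m + m) ω = 2 * rhoS A m ω * etS A m ω := by
  have h := conv_sum_real hA.cpl hA.cpl (fun n => ((n : ℝ) - ((m + m : ℕ) : ℝ)) *
    Real.sin (ω * ((n : ℝ) - ((m + m : ℕ) : ℝ))))
  have h0 : etS (A * A) (m + m) ω = ∑ n ∈ range (2 * m + 2 * m + 1), coeff n (A * A) *
      (((n : ℝ) - ((m + m : ℕ) : ℝ)) * Real.sin (ω * ((n : ℝ) - ((m + m : ℕ) : ℝ)))) := by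
    unfold etS
    have e : 2 * (m + m) + 1 = 2 * m + 2 * m + 1 := by ring
    rw [e]
    refine sum_congr rfl fun n _ => ?_
    rw [mul_assoc]
  rw [h0, h]
  have h1 : ∀ i ∈ range (2 * m + 1), ∀ j ∈ range (2 * m + 1),
      coeff i A * coeff j A * ((((i + j : ℕ) : ℝ) - ((m + m : ℕ) : ℝ)) *
        Real.sin (ω * (((i + j : ℕ) : ℝ) - ((m + m : ℕ) : ℝ)))) =
      (coeff i A * ((i : ℝ) - m) * Real.sin (ω * ((i : ℝ) - m))) *
        (coeff j A * Real.cos (ω * ((j : ℝ) - m))) +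
      (coeff i A * ((i : ℝ) - m) * Real.cos (ω * ((i : ℝ) - m))) *
        (coeff j A * Real.sin (ω * ((j : ℝ) - m))) +
      (coeff i A * Real.sin (ω * ((i : ℝ) - m))) *
        (coeff j A * ((j : ℝ) - m) * Real.cos (ω * ((j : ℝ) - m))) +
      (coeff i A * Real.cos (ω * ((i : ℝ) - m))) *
        (coeff j A * ((j : ℝ) - m) * Real.sin (ω * ((j : ℝ) - m))) := by
    intro i _ j _
    have e2 : ω * (((i + j : ℕ) : ℝ) - ((m + m : ℕ) : ℝ)) =
        ω * ((i : ℝ) - m) + ω * ((j : ℝ) - m) := by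
      push_cast
      ring
    rw [e2, Real.sin_add]
    push_cast
    ring
  rw [sum_congr rfl fun i hi => sum_congr rfl (h1 i hi)]
  simp only [sum_add_distrib]
  rw [← sum_mul_sum, ← sum_mul_sum, ← sum_mul_sum, ← sum_mul_sum, E1_sin hA, zero_mul, mul_zero]
  unfold rhoS etS
  ring

end MP18
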