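import Pool.Agent.Lib.MP_18566a_pr.T.E1

set_option autoImplicit false

namespace MP18

open Finset PowerSeries

noncomputable def varS (A : PS) (m : ℕ) : ℝ :=
  ∑ n ∈ range (2 * m + 1), coeff n A * ((n : ℝ) - m) ^ 2

noncomputable def giniS (A : PS) (m : ℕ) : ℝ :=
  ∑ i ∈ range (2 * m + 1), ∑ j ∈ range (2 * m + 1), coeff i A * coeff j A * |(i : ℝ) - j|

theorem cs_sin {A : PS} {m : ℕ} (hA : Sym A m) (w : ℕ → ℝ) (ω : ℝ) :
    (∑ n ∈ range (2 * m + 1), coeff n A * w n * Real.sin (ω * ((n : ℝ) - m))) ^ 2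
      ≤ (∑ n ∈ range (2 * m + 1), coeff n A * (w n) ^ 2) * min 1 (2 * (1 - rhoS A m ω)) := by
  have hsum := hA.cpl.2
  have h1 : (∑ n ∈ range (2 * m + 1), coeff n A * w n * Real.sin (ω * ((n : ℝ) - m))) ^ 2
      ≤ (∑ n ∈ range (2 * m + 1), coeff n A * (w n) ^ 2) *
        ∑ n ∈ range (2 * m + 1), coeff n A * Real.sin (ω * ((n : ℝ) - m)) ^ 2 := by
    refine Finset.sum_sq_le_sum_mul_sum_of_sq_le_mul _ (fun n _ => mul_nonneg (hA.nn n) (sq_nonneg _))
      (fun n _ => mul_nonneg (hA.nn n) (sq_nonneg _)) (fun n _ => le_of_eq (by ring))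
  refine h1.trans (mul_le_mul_of_nonneg_left ?_ (Finset.sum_nonneg fun n _ => mul_nonneg (hA.nn n) (sq_nonneg _)))
  refine le_min ?_ ?_
  · rw [← hsum]
    refine Finset.sum_le_sum fun n _ => ?_
    have h2 := Real.sin_sq_le_one (ω * ((n : ℝ) - m))
    nlinarith [hA.nn n]
  · have h3 : 2 * (1 - rhoS A m ω) = ∑ n ∈ range (2 * m + 1), coeff n A * (2 * (1 - Real.cos (ω * ((n : ℝ) - m)))) := by
      unfold rhoS
      have h4 : ∀ n ∈ range (2 * m + 1), coeff n A * (2 * (1 - Real.cos (ω * ((n : ℝ) - m)))) =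
          2 * (coeff n A - coeff n A * Real.cos (ω * ((n : ℝ) - m))) := fun n _ => by ring
      rw [Finset.sum_congr rfl h4, ← Finset.mul_sum, Finset.sum_sub_distrib, hsum]
    rw [h3]
    refine Finset.sum_le_sum fun n _ => mul_le_mul_of_nonneg_left ?_ (hA.nn n)
    have h5 := Real.sin_sq_add_cos_sq (ω * ((n : ℝ) - m))
    have h6 := Real.cos_le_one (ω * ((n : ℝ) - m))
    have h7 := Real.neg_one_le_cos (ω * ((n : ℝ) - m))
    nlinarith

private theorem E2_aux1 {A : PS} (hA : ∀ n, 0 ≤ coeff n A) (N : ℕ) :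
    ∑ n ∈ range N, coeff n A * (2 * Cum A n - coeff n A - 1) ^ 2 ≤ ((2 * ∑ n ∈ range N, coeff n A - 1) ^ 3 + 1) / 6 := by
  induction N with
  | zero => norm_num
  | succ N ih =>
    have h1 : Cum A N = ∑ n ∈ range N, coeff n A + coeff N A := by
      unfold Cum
      rw [Finset.sum_range_succ]
    rw [Finset.sum_range_succ, Finset.sum_range_succ, h1]
    set S := ∑ n ∈ range N, coeff n A
    have h2 := hA N
    set a := coeff N A
    have h3 : a * (2 * (S + a) - a - 1) ^ 2 ≤ ((2 * (S + a) - 1) ^ 3 - (2 * S - 1) ^ 3) / 6 := by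
      have h4 : ((2 * (S + a) - 1) ^ 3 - (2 * S - 1) ^ 3) / 6 - a * (2 * (S + a) - a - 1) ^ 2 = a ^ 3 / 3 := by ring
      have h5 : 0 ≤ a ^ 3 / 3 := by positivity
      linarith
    linarith

theorem mid_third {A : PS} {m : ℕ} (hA : Sym A m) :
    ∑ n ∈ range (2 * m + 1), coeff n A * (2 * Cum A n - coeff n A - 1) ^ 2 ≤ 1 / 3 := by
  have h := E2_aux1 hA.nn (2 * m + 1)
  rw [hA.cpl.2] at h
  refine h.trans (le_of_eq ?_)
  norm_num

private noncomputable def E2_sg (n j : ℕ) : ℝ := if j < n then 1 else if n < j then -1 else 0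

private theorem E2_aux2 {A : PS} {m : ℕ} (hA : Sym A m) {n : ℕ} (hn : n ∈ range (2 * m + 1)) :
    2 * Cum A n - coeff n A - 1 = ∑ j ∈ range (2 * m + 1), coeff j A * E2_sg n j := by
  have hn' := Finset.mem_range.1 hn
  have h1 : Cum A n = ∑ j ∈ range (2 * m + 1), if j ≤ n then coeff j A else 0 := by
    unfold Cum
    rw [← Finset.sum_filter]
    refine Finset.sum_congr ?_ fun _ _ => rfl
    ext j
    simp only [Finset.mem_range, Finset.mem_filter]
    omega
  have h2 : coeff n A = ∑ j ∈ range (2 * m + 1), if j = n then coeff j A else 0 := by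
    rw [Finset.sum_ite_eq' (range (2 * m + 1)) n (fun j => coeff j A), if_pos hn]
  have h3 : (1 : ℝ) = ∑ j ∈ range (2 * m + 1), coeff j A := hA.cpl.2.symm
  calc 2 * Cum A n - coeff n A - 1
      = 2 * (∑ j ∈ range (2 * m + 1), if j ≤ n then coeff j A else 0) -
        (∑ j ∈ range (2 * m + 1), if j = n then coeff j A else 0) - ∑ j ∈ range (2 * m + 1), coeff j A := by
        rw [← h1, ← h2, ← h3]
    _ = ∑ j ∈ range (2 * m + 1), coeff j A * E2_sg n j := by
        rw [Finset.mul_sum, ← Finset.sum_sub_distrib, ← Finset.sum_sub_distrib]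
        refine Finset.sum_congr rfl fun j _ => ?_
        unfold E2_sg
        rcases lt_trichotomy j n with h | h | h
        · rw [if_pos h.le, if_neg h.ne, if_pos h]
          ring
        · subst h
          simp
          ring
        · rw [if_neg (not_le.2 h), if_neg h.ne', if_neg (not_lt.2 h.le), if_pos h]
          ring

private theorem E2_sg_mul (i j : ℕ) : E2_sg i j * ((i : ℝ) - j) = |(i : ℝ) - j| := by
  unfold E2_sg
  rcases lt_trichotomy j i with h | h | h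
  · have : (j : ℝ) < i := by exact_mod_cast h
    rw [if_pos h, abs_of_pos (by linarith)]
    ring
  · subst h
    simp
  · have : (i : ℝ) < j := by exact_mod_cast h
    rw [if_neg (not_lt.2 h.le), if_pos h, abs_of_neg (by linarith)]
    ring

private theorem E2_sg_symm (i j : ℕ) : E2_sg j i = - E2_sg i j := by
  unfold E2_sg
  rcases lt_trichotomy j i with h | h | h
  · rw [if_neg (not_lt.2 h.le), if_pos h, if_pos h]
  · subst h
    simp
  · rw [if_pos h, if_neg (not_lt.2 h.le), if_pos h]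
    ring

theorem gini_half {A : PS} {m : ℕ} (hA : Sym A m) :
    ∑ n ∈ range (2 * m + 1), coeff n A * (2 * Cum A n - coeff n A - 1) * ((n : ℝ) - m)
      = giniS A m / 2 := by
  have h1 : ∑ n ∈ range (2 * m + 1), coeff n A * (2 * Cum A n - coeff n A - 1) * ((n : ℝ) - m) =
      ∑ i ∈ range (2 * m + 1), ∑ j ∈ range (2 * m + 1), coeff i A * coeff j A * E2_sg i j * ((i : ℝ) - m) := by
    refine Finset.sum_congr rfl fun i hi => ?_
    rw [E2_aux2 hA hi, Finset.mul_sum, Finset.sum_mul]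
    exact Finset.sum_congr rfl fun j _ => by ring
  have h2 : ∑ i ∈ range (2 * m + 1), ∑ j ∈ range (2 * m + 1), coeff i A * coeff j A * E2_sg i j * ((i : ℝ) - m) =
      ∑ i ∈ range (2 * m + 1), ∑ j ∈ range (2 * m + 1), coeff i A * coeff j A * (- E2_sg i j) * ((j : ℝ) - m) := by
    rw [Finset.sum_comm]
    refine Finset.sum_congr rfl fun i _ => Finset.sum_congr rfl fun j _ => ?_
    rw [E2_sg_symm i j]
    ring
  have h3 : giniS A m = ∑ i ∈ range (2 * m + 1), ∑ j ∈ range (2 * m + 1), coeff i A * coeff j A * E2_sg i j * ((i : ℝ) - m) +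
      ∑ i ∈ range (2 * m + 1), ∑ j ∈ range (2 * m + 1), coeff i A * coeff j A * (- E2_sg i j) * ((j : ℝ) - m) := by
    unfold giniS
    rw [← Finset.sum_add_distrib]
    refine Finset.sum_congr rfl fun i _ => ?_
    rw [← Finset.sum_add_distrib]
    refine Finset.sum_congr rfl fun j _ => ?_
    rw [← E2_sg_mul]
    ring
  rw [← h2] at h3
  rw [h1, h3]
  ring

theorem gini_mul {A B : PS} {m k : ℕ} (hA : Sym A m) (hB : Sym B k) :
    giniS A m ≤ giniS (A * B) (m + k) := by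
  have hAB : 2 * (m + k) + 1 = 2 * m + 2 * k + 1 := by ring
  have h1 : giniS (A * B) (m + k) = ∑ i ∈ range (2 * m + 1), ∑ j ∈ range (2 * k + 1), coeff i A * coeff j B *
      ∑ i' ∈ range (2 * m + 1), ∑ j' ∈ range (2 * k + 1), coeff i' A * coeff j' B * |((i + j : ℕ) : ℝ) - ((i' + j' : ℕ) : ℝ)| := by
    unfold giniS
    rw [hAB]
    have h2 : ∀ p ∈ range (2 * m + 2 * k + 1), ∑ q ∈ range (2 * m + 2 * k + 1), coeff p (A * B) * coeff q (A * B) * |(p : ℝ) - q| =
        coeff p (A * B) * ∑ i' ∈ range (2 * m + 1), ∑ j' ∈ range (2 * k + 1), coeff i' A * coeff j' B * |(p : ℝ) - ((i' + j' : ℕ) : ℝ)| := by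
      intro p _
      rw [← conv_sum_real hA.cpl hB.cpl (fun q => |(p : ℝ) - q|), Finset.mul_sum]
      exact Finset.sum_congr rfl fun q _ => by ring
    rw [Finset.sum_congr rfl h2]
    exact conv_sum_real hA.cpl hB.cpl (fun p => ∑ i' ∈ range (2 * m + 1), ∑ j' ∈ range (2 * k + 1),
      coeff i' A * coeff j' B * |(p : ℝ) - ((i' + j' : ℕ) : ℝ)|)
  have h3 : giniS (A * B) (m + k) = ∑ i ∈ range (2 * m + 1), ∑ i' ∈ range (2 * m + 1), coeff i A * coeff i' A *
      ∑ j ∈ range (2 * k + 1), ∑ j' ∈ range (2 * k + 1), coeff j B * coeff j' B * |((i + j : ℕ) : ℝ) - ((i' + j' : ℕ) : ℝ)| := by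
    rw [h1]
    refine Finset.sum_congr rfl fun i _ => ?_
    simp only [Finset.mul_sum]
    rw [Finset.sum_comm]
    refine Finset.sum_congr rfl fun i' _ => Finset.sum_congr rfl fun j _ => Finset.sum_congr rfl fun j' _ => ?_
    ring
  rw [h3]
  unfold giniS
  refine Finset.sum_le_sum fun i _ => Finset.sum_le_sum fun i' _ =>
    mul_le_mul_of_nonneg_left ?_ (mul_nonneg (hA.nn i) (hA.nn i'))
  have h4 : ∑ j ∈ range (2 * k + 1), ∑ j' ∈ range (2 * k + 1), coeff j B * coeff j' B * |((i + j : ℕ) : ℝ) - ((i' + j' : ℕ) : ℝ)| =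
      ∑ j ∈ range (2 * k + 1), ∑ j' ∈ range (2 * k + 1), coeff j B * coeff j' B * |((i + j' : ℕ) : ℝ) - ((i' + j : ℕ) : ℝ)| := by
    rw [Finset.sum_comm]
    exact Finset.sum_congr rfl fun j _ => Finset.sum_congr rfl fun j' _ => by ring
  have h5 : ∑ j ∈ range (2 * k + 1), ∑ j' ∈ range (2 * k + 1), coeff j B * coeff j' B = 1 := by
    simp only [← Finset.mul_sum]
    rw [← Finset.sum_mul, hB.cpl.2, one_mul]
  have h6 : ∑ j ∈ range (2 * k + 1), ∑ j' ∈ range (2 * k + 1), coeff j B * coeff j' B * (2 * |(i : ℝ) - i'|) ≤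
      ∑ j ∈ range (2 * k + 1), ∑ j' ∈ range (2 * k + 1), (coeff j B * coeff j' B * |((i + j : ℕ) : ℝ) - ((i' + j' : ℕ) : ℝ)| +
        coeff j B * coeff j' B * |((i + j' : ℕ) : ℝ) - ((i' + j : ℕ) : ℝ)|) := by
    refine Finset.sum_le_sum fun j _ => Finset.sum_le_sum fun j' _ => ?_
    rw [← mul_add]
    refine mul_le_mul_of_nonneg_left ?_ (mul_nonneg (hB.nn j) (hB.nn j'))
    push_cast
    have h7 := abs_add_le ((i : ℝ) + j - (i' + j')) ((i : ℝ) + j' - (i' + j))
    have h8 : (i : ℝ) + j - (i' + j') + ((i : ℝ) + j' - (i' + j)) = 2 * (i - i') := by ring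
    rw [h8, abs_mul, abs_two] at h7
    exact h7
  simp only [Finset.sum_add_distrib] at h6
  rw [← h4] at h6
  simp only [← Finset.sum_mul] at h6
  rw [h5] at h6
  linarith

private theorem E2_mean {A : PS} {m : ℕ} (hA : Sym A m) :
    ∑ n ∈ range (2 * m + 1), coeff n A * ((n : ℝ) - m) = 0 := by
  have h1 : ∑ n ∈ range (2 * m + 1), coeff n A * ((n : ℝ) - m) = - ∑ n ∈ range (2 * m + 1), coeff n A * ((n : ℝ) - m) := by
    rw [← Finset.sum_neg_distrib, ← Finset.sum_range_reflect]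
    refine Finset.sum_congr rfl fun n hn => ?_
    have hn' := Finset.mem_range.1 hn
    have e : 2 * m + 1 - 1 - n = 2 * m - n := by omega
    rw [e, ← hA.symm n (by omega), Nat.cast_sub (by omega)]
    push_cast
    ring
  linarith

theorem var_mul {A B : PS} {m k : ℕ} (hA : Sym A m) (hB : Sym B k) :
    varS (A * B) (m + k) = varS A m + varS B k := by
  have hAB : 2 * (m + k) + 1 = 2 * m + 2 * k + 1 := by ring
  have h1 : varS (A * B) (m + k) = ∑ i ∈ range (2 * m + 1), ∑ j ∈ range (2 * k + 1), coeff i A * coeff j B *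
      (((i + j : ℕ) : ℝ) - ((m + k : ℕ) : ℝ)) ^ 2 := by
    unfold varS
    rw [hAB]
    exact conv_sum_real hA.cpl hB.cpl (fun n => ((n : ℝ) - ((m + k : ℕ) : ℝ)) ^ 2)
  have h2 : ∀ i ∈ range (2 * m + 1), ∑ j ∈ range (2 * k + 1), coeff i A * coeff j B *
      (((i + j : ℕ) : ℝ) - ((m + k : ℕ) : ℝ)) ^ 2 = coeff i A * ((i : ℝ) - m) ^ 2 + coeff i A * varS B k := by
    intro i _
    have h3 : ∀ j ∈ range (2 * k + 1), coeff i A * coeff j B * (((i + j : ℕ) : ℝ) - ((m + k : ℕ) : ℝ)) ^ 2 =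
        coeff i A * ((i : ℝ) - m) ^ 2 * coeff j B + 2 * (coeff i A * ((i : ℝ) - m)) * (coeff j B * ((j : ℝ) - k)) +
          coeff i A * (coeff j B * ((j : ℝ) - k) ^ 2) := by
      intro j _
      push_cast
      ring
    rw [Finset.sum_congr rfl h3, Finset.sum_add_distrib, Finset.sum_add_distrib, ← Finset.mul_sum, ← Finset.mul_sum,
      ← Finset.mul_sum, hB.cpl.2, E2_mean hB]
    unfold varS
    ring
  rw [h1, Finset.sum_congr rfl h2, Finset.sum_add_distrib, ← Finset.sum_mul, hA.cpl.2]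
  unfold varS
  ring

private theorem E2_s1 (N : ℕ) : ∑ n ∈ range N, (n : ℝ) = N * (N - 1) / 2 := by
  induction N with
  | zero => simp
  | succ N ih =>
    rw [Finset.sum_range_succ, ih]
    push_cast
    ring

private theorem E2_s2 (N : ℕ) : ∑ n ∈ range N, (n : ℝ) ^ 2 = (N - 1) * N * (2 * N - 1) / 6 := by
  induction N with
  | zero => simp
  | succ N ih =>
    rw [Finset.sum_range_succ, ih]
    push_cast
    ring

private theorem E2_U {W n : ℕ} (hn : n ∈ range W) : coeff n (U W) = 1 / (W : ℝ) := by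
  unfold U
  rw [PowerSeries.coeff_mk, if_pos (Finset.mem_range.1 hn)]

private theorem E2_cplU {W : ℕ} (hW : 0 < W) : Cpl (U W) (W - 1 + 1) 1 := by
  have e : W - 1 + 1 = W := by omega
  rw [e]
  refine ⟨fun n hn => ?_, ?_⟩
  · unfold U
    rw [PowerSeries.coeff_mk, if_neg (not_lt.2 hn)]
  · rw [Finset.sum_congr rfl fun n hn => E2_U hn, Finset.sum_const, Finset.card_range, nsmul_eq_mul]
    have : (W : ℝ) ≠ 0 := by
      have : 0 < (W : ℝ) := by exact_mod_cast hW
      exact this.ne'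
    field_simp

theorem var_U {W : ℕ} (hW : Odd W) : varS (U W) ((W - 1) / 2) = ((W : ℝ) ^ 2 - 1) / 12 := by
  obtain ⟨q, rfl⟩ := hW
  have e : (2 * q + 1 - 1) / 2 = q := by omega
  unfold varS
  rw [e]
  have h1 : ∀ n ∈ range (2 * q + 1), coeff n (U (2 * q + 1)) * ((n : ℝ) - q) ^ 2 =
      1 / ((2 * q + 1 : ℕ) : ℝ) * ((n : ℝ) ^ 2 - 2 * q * n + q ^ 2) := by
    intro n hn
    rw [E2_U hn]
    ring
  rw [Finset.sum_congr rfl h1, ← Finset.mul_sum, Finset.sum_add_distrib, Finset.sum_sub_distrib, ← Finset.mul_sum, E2_s1, E2_s2,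
    Finset.sum_const, Finset.card_range, nsmul_eq_mul]
  have h2 : ((2 * q + 1 : ℕ) : ℝ) ≠ 0 := by
    push_cast
    positivity
  push_cast at h2 ⊢
  field_simp
  ring

theorem var_U2 {W : ℕ} (hW : 0 < W) : varS (U W * U W) (W - 1) = ((W : ℝ) ^ 2 - 1) / 6 := by
  have e1 : 2 * (W - 1) + 1 = (W - 1) + (W - 1) + 1 := by ring
  have e2 : W - 1 + 1 = W := by omega
  have hW0 : (W : ℝ) ≠ 0 := by
    have : 0 < (W : ℝ) := by exact_mod_cast hW
    exact this.ne'
  have e3 : ((W - 1 : ℕ) : ℝ) = W - 1 := by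
    rw [Nat.cast_sub hW, Nat.cast_one]
  unfold varS
  rw [e1, conv_sum_real (E2_cplU hW) (E2_cplU hW) (fun n => ((n : ℝ) - ((W - 1 : ℕ) : ℝ)) ^ 2), e2, e3]
  have h1 : ∀ i ∈ range W, ∑ j ∈ range W, coeff i (U W) * coeff j (U W) * (((i + j : ℕ) : ℝ) - (W - 1)) ^ 2 =
      1 / (W : ℝ) ^ 2 * (W * ((i : ℝ) ^ 2 - 2 * (W - 1) * i + (W - 1) ^ 2) + 2 * ((i : ℝ) - (W - 1)) * (W * (W - 1) / 2) +
        (W - 1) * W * (2 * W - 1) / 6) := by
    intro i hi
    have h2 : ∀ j ∈ range W, coeff i (U W) * coeff j (U W) * (((i + j : ℕ) : ℝ) - (W - 1)) ^ 2 =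
        1 / (W : ℝ) ^ 2 * (((i : ℝ) - (W - 1)) ^ 2 + 2 * ((i : ℝ) - (W - 1)) * j + (j : ℝ) ^ 2) := by
      intro j hj
      rw [E2_U hi, E2_U hj]
      push_cast
      ring
    rw [Finset.sum_congr rfl h2, ← Finset.mul_sum, Finset.sum_add_distrib, Finset.sum_add_distrib, ← Finset.mul_sum, E2_s1, E2_s2,
      Finset.sum_const, Finset.card_range, nsmul_eq_mul]
    ring
  rw [Finset.sum_congr rfl h1, ← Finset.mul_sum, Finset.sum_add_distrib, Finset.sum_add_distrib, ← Finset.mul_sum,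
    Finset.sum_add_distrib, Finset.sum_sub_distrib, ← Finset.mul_sum, ← Finset.sum_mul, ← Finset.mul_sum, Finset.sum_sub_distrib,
    E2_s1, E2_s2, Finset.sum_const, Finset.card_range, nsmul_eq_mul, Finset.sum_const, Finset.card_range, nsmul_eq_mul,
    Finset.sum_const, Finset.card_range, nsmul_eq_mul]
  field_simp
  ring

end MP18
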