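import Pool.Agent.Lib.MP_18566a_pr.T.E2

set_option autoImplicit false

namespace MP18

open Finset PowerSeries

private theorem E2b_U {W n : ℕ} (hn : n ∈ range W) : coeff n (U W) = 1 / (W : ℝ) := by
  unfold U
  rw [PowerSeries.coeff_mk, if_pos (Finset.mem_range.1 hn)]

private theorem E2b_cplU {W : ℕ} (hW : 0 < W) : Cpl (U W) (W - 1 + 1) 1 := by
  have e : W - 1 + 1 = W := by omega
  rw [e]
  refine ⟨fun n hn => ?_, ?_⟩
  · unfold U
    rw [PowerSeries.coeff_mk, if_neg (not_lt.2 hn)]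
  · rw [Finset.sum_congr rfl fun n hn => E2b_U hn, Finset.sum_const, Finset.card_range, nsmul_eq_mul]
    have : (W : ℝ) ≠ 0 := by
      have : 0 < (W : ℝ) := by exact_mod_cast hW
      exact this.ne'
    field_simp

/-- double sums of a function of the distance, step -/
private theorem E2b_step (P : ℝ → ℝ) (W : ℕ) :
    ∑ i ∈ range (W + 1), ∑ j ∈ range (W + 1), P |(i : ℝ) - j| =
      ∑ i ∈ range W, ∑ j ∈ range W, P |(i : ℝ) - j| + 2 * ∑ d ∈ range W, P ((d : ℝ) + 1) + P 0 := by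
  have h1 : ∀ i ∈ range W, ∑ j ∈ range (W + 1), P |(i : ℝ) - j| = ∑ j ∈ range W, P |(i : ℝ) - j| + P ((W : ℝ) - i) := by
    intro i hi
    have hi' : (i : ℝ) < W := by exact_mod_cast Finset.mem_range.1 hi
    rw [Finset.sum_range_succ, abs_sub_comm (i : ℝ) W, abs_of_pos (by linarith : (0 : ℝ) < (W : ℝ) - i)]
  have h2 : ∑ j ∈ range (W + 1), P |(W : ℝ) - j| = ∑ j ∈ range W, P ((W : ℝ) - j) + P 0 := by
    rw [Finset.sum_range_succ, sub_self, abs_zero]
    congr 1
    refine Finset.sum_congr rfl fun j hj => ?_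
    have hj' : (j : ℝ) < W := by exact_mod_cast Finset.mem_range.1 hj
    rw [abs_of_pos (by linarith : (0 : ℝ) < (W : ℝ) - j)]
  have h3 : ∑ j ∈ range W, P ((W : ℝ) - j) = ∑ d ∈ range W, P ((d : ℝ) + 1) := by
    rw [← Finset.sum_range_reflect]
    refine Finset.sum_congr rfl fun d hd => ?_
    have hd' := Finset.mem_range.1 hd
    congr 1
    have e : W - 1 - d = W - (d + 1) := by omega
    rw [e, Nat.cast_sub (by omega)]
    push_cast
    ring
  rw [Finset.sum_range_succ, Finset.sum_congr rfl h1, Finset.sum_add_distrib, h2, h3]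
  ring

private theorem E2b_d1 (W : ℕ) : ∑ d ∈ range W, ((d : ℝ) + 1) = W * (W + 1) / 2 := by
  induction W with
  | zero => simp
  | succ W ih =>
    rw [Finset.sum_range_succ, ih]
    push_cast
    ring

private theorem E2b_d2 (W : ℕ) : ∑ d ∈ range W, ((d : ℝ) + 1) ^ 2 = (W : ℝ) * (W + 1) * (2 * W + 1) / 6 := by
  induction W with
  | zero => simp
  | succ W ih =>
    rw [Finset.sum_range_succ, ih]
    push_cast
    ring

private theorem E2b_d3 (W : ℕ) : ∑ d ∈ range W, ((d : ℝ) + 1) ^ 3 = (W : ℝ) ^ 2 * (W + 1) ^ 2 / 4 := by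
  induction W with
  | zero => simp
  | succ W ih =>
    rw [Finset.sum_range_succ, ih]
    push_cast
    ring

private theorem E2b_S1 (W : ℕ) : ∑ i ∈ range W, ∑ j ∈ range W, |(i : ℝ) - j| = W * ((W : ℝ) ^ 2 - 1) / 3 := by
  induction W with
  | zero => simp
  | succ W ih =>
    rw [E2b_step (fun x => x) W, ih, E2b_d1]
    push_cast
    ring

private theorem E2b_S2 (W : ℕ) : ∑ i ∈ range W, ∑ j ∈ range W, |(i : ℝ) - j| ^ 2 = (W : ℝ) ^ 2 * ((W : ℝ) ^ 2 - 1) / 6 := by
  induction W with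
  | zero => simp
  | succ W ih =>
    rw [E2b_step (fun x => x ^ 2) W, ih, E2b_d2]
    push_cast
    ring

private theorem E2b_S3 (W : ℕ) : ∑ i ∈ range W, ∑ j ∈ range W, |(i : ℝ) - j| ^ 3 =
    ((W : ℝ) - 1) * W * (W + 1) * (3 * (W : ℝ) ^ 2 - 2) / 30 := by
  induction W with
  | zero => simp
  | succ W ih =>
    rw [E2b_step (fun x => x ^ 3) W, ih, E2b_d3]
    push_cast
    ring

private theorem E2b_abs (t x : ℕ) : ∑ j ∈ range (t + x), |(j : ℝ) - t| = t * (t + 1) / 2 + x * (x - 1) / 2 := by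
  rw [Finset.sum_range_add]
  congr 1
  · have h1 : ∑ j ∈ range t, |(j : ℝ) - t| = ∑ j ∈ range t, ((t : ℝ) - j) := by
      refine Finset.sum_congr rfl fun j hj => ?_
      have hj' : (j : ℝ) < t := by exact_mod_cast Finset.mem_range.1 hj
      rw [abs_sub_comm, abs_of_pos (by linarith)]
    rw [h1]
    clear h1
    have h2 : ∀ N : ℕ, ∑ j ∈ range N, (j : ℝ) = N * (N - 1) / 2 := by
      intro N
      induction N with
      | zero => simp
      | succ N ih =>
        rw [Finset.sum_range_succ, ih]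
        push_cast
        ring
    rw [Finset.sum_sub_distrib, h2, Finset.sum_const, Finset.card_range, nsmul_eq_mul]
    ring
  · have h1 : ∑ j ∈ range x, |((t + j : ℕ) : ℝ) - t| = ∑ j ∈ range x, (j : ℝ) := by
      refine Finset.sum_congr rfl fun j _ => ?_
      push_cast
      rw [add_sub_cancel_left, abs_of_nonneg (Nat.cast_nonneg j)]
    rw [h1]
    clear h1
    induction x with
    | zero => simp
    | succ x ih =>
      rw [Finset.sum_range_succ, ih]
      push_cast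
      ring

/-- the inner double sum -/
private theorem E2b_h (x W : ℕ) (hx : x ≤ W) : ∑ j ∈ range W, ∑ l ∈ range W, |(x : ℝ) + j - l| =
    W * ((W : ℝ) ^ 2 - 1) / 3 + W * (x : ℝ) ^ 2 - ((x : ℝ) ^ 3 - x) / 3 := by
  obtain ⟨t, rfl⟩ := Nat.exists_eq_add_of_le' hx
  clear hx
  induction t with
  | zero =>
    have h1 : ∀ j ∈ range (0 + x), ∑ l ∈ range (0 + x), |(x : ℝ) + j - l| = ∑ l ∈ range (0 + x), ((x : ℝ) + j - l) := by
      intro j _
      refine Finset.sum_congr rfl fun l hl => ?_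
      have hl' : (l : ℝ) < x := by
        have := Finset.mem_range.1 hl
        rw [zero_add] at this
        exact_mod_cast this
      have hj : (0 : ℝ) ≤ j := Nat.cast_nonneg j
      rw [abs_of_pos (by linarith)]
    rw [Finset.sum_congr rfl h1]
    simp only [Finset.sum_sub_distrib, Finset.sum_add_distrib, Finset.sum_const, Finset.card_range, nsmul_eq_mul]
    rw [← Finset.mul_sum]
    push_cast
    ring
  | succ t ih =>
    have e : t + 1 + x = (t + x) + 1 := by ring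
    rw [e, Finset.sum_range_succ]
    have h1 : ∀ j ∈ range (t + x), ∑ l ∈ range (t + x + 1), |(x : ℝ) + j - l| =
        ∑ l ∈ range (t + x), |(x : ℝ) + j - l| + |(j : ℝ) - t| := by
      intro j _
      rw [Finset.sum_range_succ]
      congr 2
      push_cast
      ring
    have h2 : ∑ l ∈ range (t + x + 1), |(x : ℝ) + (t + x : ℕ) - l| = ∑ l ∈ range (t + x + 1), ((x : ℝ) + (t + x : ℕ) - l) := by
      refine Finset.sum_congr rfl fun l hl => ?_
      have hl' : (l : ℝ) < (t + x : ℕ) + 1 := by exact_mod_cast Finset.mem_range.1 hl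
      have hl2 : (l : ℝ) ≤ (t + x : ℕ) := by exact_mod_cast Nat.lt_succ_iff.1 (Finset.mem_range.1 hl)
      have hx0 : (0 : ℝ) ≤ x := Nat.cast_nonneg x
      rw [abs_of_nonneg (by linarith)]
    have h3 : ∀ N : ℕ, ∑ j ∈ range N, (j : ℝ) = N * (N - 1) / 2 := by
      intro N
      induction N with
      | zero => simp
      | succ N ih =>
        rw [Finset.sum_range_succ, ih]
        push_cast
        ring
    rw [Finset.sum_congr rfl h1, Finset.sum_add_distrib, ih, E2b_abs, h2, Finset.sum_sub_distrib, h3, Finset.sum_const,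
      Finset.card_range, nsmul_eq_mul]
    push_cast
    ring

private theorem E2b_h' (i k W : ℕ) (hi : i ∈ range W) (hk : k ∈ range W) :
    ∑ j ∈ range W, ∑ l ∈ range W, |((i + j : ℕ) : ℝ) - ((k + l : ℕ) : ℝ)| =
      W * ((W : ℝ) ^ 2 - 1) / 3 + W * |(i : ℝ) - k| ^ 2 - (|(i : ℝ) - k| ^ 3 - |(i : ℝ) - k|) / 3 := by
  have hi' := Finset.mem_range.1 hi
  have hk' := Finset.mem_range.1 hk
  rcases le_total k i with h | h
  · obtain ⟨x, rfl⟩ := Nat.exists_eq_add_of_le h
    have h1 : |((k + x : ℕ) : ℝ) - k| = x := by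
      push_cast
      rw [add_sub_cancel_left, abs_of_nonneg (Nat.cast_nonneg x)]
    rw [h1, ← E2b_h x W (by omega)]
    refine Finset.sum_congr rfl fun j _ => Finset.sum_congr rfl fun l _ => ?_
    congr 1
    push_cast
    ring
  · obtain ⟨x, rfl⟩ := Nat.exists_eq_add_of_le h
    have h1 : |(i : ℝ) - ((i + x : ℕ) : ℝ)| = x := by
      rw [abs_sub_comm]
      push_cast
      rw [add_sub_cancel_left, abs_of_nonneg (Nat.cast_nonneg x)]
    rw [h1, ← E2b_h x W (by omega), Finset.sum_comm]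
    refine Finset.sum_congr rfl fun j _ => Finset.sum_congr rfl fun l _ => ?_
    rw [abs_sub_comm]
    congr 1
    push_cast
    ring

theorem gini_U {W : ℕ} (hW : Odd W) :
    giniS (U W) ((W - 1) / 2) = ((W : ℝ) ^ 2 - 1) / (3 * W) := by
  obtain ⟨q, rfl⟩ := hW
  have e : 2 * ((2 * q + 1 - 1) / 2) + 1 = 2 * q + 1 := by omega
  have h2 : ((2 * q + 1 : ℕ) : ℝ) ≠ 0 := by
    push_cast
    positivity
  unfold giniS
  rw [e]
  have h1 : ∀ i ∈ range (2 * q + 1), ∑ j ∈ range (2 * q + 1), coeff i (U (2 * q + 1)) * coeff j (U (2 * q + 1)) * |(i : ℝ) - j| =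
      1 / ((2 * q + 1 : ℕ) : ℝ) ^ 2 * ∑ j ∈ range (2 * q + 1), |(i : ℝ) - j| := by
    intro i hi
    rw [Finset.mul_sum]
    refine Finset.sum_congr rfl fun j hj => ?_
    rw [E2b_U hi, E2b_U hj]
    ring
  rw [Finset.sum_congr rfl h1, ← Finset.mul_sum, E2b_S1]
  field_simp

theorem gini_U2 {W : ℕ} (hW : 0 < W) :
    giniS (U W * U W) (W - 1) = ((W : ℝ) ^ 2 - 1) * (7 * (W : ℝ) ^ 2 + 2) / (15 * (W : ℝ) ^ 3) := by
  have e1 : 2 * (W - 1) + 1 = (W - 1) + (W - 1) + 1 := by ring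
  have e2 : W - 1 + 1 = W := by omega
  have hW0 : (W : ℝ) ≠ 0 := by
    have : 0 < (W : ℝ) := by exact_mod_cast hW
    exact this.ne'
  unfold giniS
  rw [e1]
  have h1 : ∀ p ∈ range ((W - 1) + (W - 1) + 1), ∑ q ∈ range ((W - 1) + (W - 1) + 1),
      coeff p (U W * U W) * coeff q (U W * U W) * |(p : ℝ) - q| =
      coeff p (U W * U W) * ∑ k ∈ range W, ∑ l ∈ range W, coeff k (U W) * coeff l (U W) * |(p : ℝ) - ((k + l : ℕ) : ℝ)| := by
    intro p _
    have h2 := conv_sum_real (E2b_cplU hW) (E2b_cplU hW) (fun q => |(p : ℝ) - q|)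
    rw [e2] at h2
    rw [← h2, Finset.mul_sum]
    exact Finset.sum_congr rfl fun q _ => by ring
  rw [Finset.sum_congr rfl h1, conv_sum_real (E2b_cplU hW) (E2b_cplU hW) (fun p => ∑ k ∈ range W, ∑ l ∈ range W,
    coeff k (U W) * coeff l (U W) * |(p : ℝ) - ((k + l : ℕ) : ℝ)|), e2]
  have h3 : ∀ i ∈ range W, ∑ j ∈ range W, coeff i (U W) * coeff j (U W) * (∑ k ∈ range W, ∑ l ∈ range W,
      coeff k (U W) * coeff l (U W) * |((i + j : ℕ) : ℝ) - ((k + l : ℕ) : ℝ)|) =
      1 / (W : ℝ) ^ 4 * ∑ k ∈ range W, (W * ((W : ℝ) ^ 2 - 1) / 3 + W * |(i : ℝ) - k| ^ 2 - (|(i : ℝ) - k| ^ 3 - |(i : ℝ) - k|) / 3) := by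
    intro i hi
    have h4 : ∀ j ∈ range W, coeff i (U W) * coeff j (U W) * (∑ k ∈ range W, ∑ l ∈ range W,
        coeff k (U W) * coeff l (U W) * |((i + j : ℕ) : ℝ) - ((k + l : ℕ) : ℝ)|) =
        ∑ k ∈ range W, 1 / (W : ℝ) ^ 4 * ∑ l ∈ range W, |((i + j : ℕ) : ℝ) - ((k + l : ℕ) : ℝ)| := by
      intro j hj
      rw [Finset.mul_sum]
      refine Finset.sum_congr rfl fun k hk => ?_
      rw [Finset.mul_sum, Finset.mul_sum]
      refine Finset.sum_congr rfl fun l hl => ?_
      rw [E2b_U hi, E2b_U hj, E2b_U hk, E2b_U hl]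
      ring
    rw [Finset.sum_congr rfl h4, Finset.sum_comm, Finset.mul_sum]
    refine Finset.sum_congr rfl fun k hk => ?_
    rw [← Finset.mul_sum, E2b_h' i k W hi hk]
  rw [Finset.sum_congr rfl h3, ← Finset.mul_sum]
  simp only [Finset.sum_sub_distrib, Finset.sum_add_distrib, ← Finset.mul_sum, ← Finset.sum_div]
  rw [E2b_S1, E2b_S2, E2b_S3]
  simp only [Finset.sum_const, Finset.card_range, nsmul_eq_mul]
  field_simp
  ring

end MP18
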