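import Pool.Agent.Lib.MP_18566a_pr.T.E2b

set_option autoImplicit false

namespace MP18

open Finset PowerSeries

theorem E3_min_nonneg {A : PS} {m : ℕ} (hA : Sym A m) (ω : ℝ) :
    0 ≤ min 1 (2 * (1 - rhoS A m ω)) := by
  have := rhoS_le hA ω
  exact le_min zero_le_one (by linarith)

/-- Cauchy-Schwarz for the difference of the sine transforms -/
theorem E3_key {A : PS} {m : ℕ} (hA : Sym A m) (c ω : ℝ) :
    (hS A m ω - c * etS A m ω) ^ 2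
      ≤ (1 / 3 - c * giniS A m + c ^ 2 * varS A m) * min 1 (2 * (1 - rhoS A m ω)) := by
  have h1 := cs_sin hA (fun n => (2 * Cum A n - coeff n A - 1) - c * ((n : ℝ) - m)) ω
  have e1 : ∑ n ∈ range (2 * m + 1), coeff n A * ((2 * Cum A n - coeff n A - 1) - c * ((n : ℝ) - m))
      * Real.sin (ω * ((n : ℝ) - m)) = hS A m ω - c * etS A m ω := by
    unfold hS etS
    rw [mul_sum, ← sum_sub_distrib]
    refine sum_congr rfl fun n _ => ?_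
    ring
  have e2 : ∑ n ∈ range (2 * m + 1), coeff n A * ((2 * Cum A n - coeff n A - 1) - c * ((n : ℝ) - m)) ^ 2
      = ∑ n ∈ range (2 * m + 1), coeff n A * (2 * Cum A n - coeff n A - 1) ^ 2
        - 2 * c * ∑ n ∈ range (2 * m + 1), coeff n A * (2 * Cum A n - coeff n A - 1) * ((n : ℝ) - m)
        + c ^ 2 * varS A m := by
    unfold varS
    rw [mul_sum, mul_sum, ← sum_sub_distrib, ← sum_add_distrib]
    refine sum_congr rfl fun n _ => ?_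
    ring
  simp only [e1] at h1
  rw [e2, gini_half hA] at h1
  refine h1.trans (mul_le_mul_of_nonneg_right ?_ (E3_min_nonneg hA ω))
  have := mid_third hA
  linarith

theorem E3_W {y' y W W' V : ℕ} (g : Geo y' y W W' V) :
    (10 : ℝ) ^ 100 ≤ W ∧ (1 : ℝ) ≤ W' ∧ (W' : ℝ) / W ≤ 1 / 1000 := by
  have h1 : (1 : ℝ) ≤ y' := by exact_mod_cast g.pos
  have h2 : (10 : ℝ) ^ 250 ≤ y := by
    have := g.sep
    unfold L0 at this
    have h3 : (10 : ℝ) ^ 250 * 1 ≤ 10 ^ 250 * y' := mul_le_mul_of_nonneg_left h1 (by positivity)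
    linarith
  have h3 : (10 : ℝ) ^ 100 ≤ W := by
    have h4 := g.Wlo
    unfold ww at h4
    refine le_trans ?_ h4
    have h5 : 1 / 10 ^ 73 * (10 : ℝ) ^ 250 / 2 ≤ 1 / 10 ^ 73 * (y : ℝ) / 2 := by
      gcongr
    refine le_trans ?_ h5
    norm_num
  have hWpos : (0 : ℝ) < W := lt_of_lt_of_le (by positivity) h3
  refine ⟨h3, ?_, ?_⟩
  · have h4 := g.W'lo
    have h5 : (0 : ℝ) < W' := lt_of_lt_of_le (by positivity) h4
    have h6 : 0 < W' := by exact_mod_cast h5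
    exact_mod_cast h6
  · rw [div_le_iff₀ hWpos]
    have := g.W'hi
    linarith

/-- numerical facts on `u = 1 / W ^ 2` and `v = (W' / W) ^ 2` -/
theorem E3_nums {y' y W W' V : ℕ} (g : Geo y' y W W' V) :
    0 < (W : ℝ) ∧ 0 ≤ 1 / (W : ℝ) ^ 2 ∧ 1 / (W : ℝ) ^ 2 ≤ 1 / 10 ^ 9 ∧
      0 ≤ ((W' : ℝ) ^ 2 - 1) / (W : ℝ) ^ 2 ∧ ((W' : ℝ) ^ 2 - 1) / (W : ℝ) ^ 2 ≤ 1 / 10 ^ 6 := by
  obtain ⟨h1, h2, h3⟩ := E3_W g
  have hW : (0 : ℝ) < W := lt_of_lt_of_le (by positivity) h1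
  have hW9 : (10 : ℝ) ^ 9 ≤ W := le_trans (by norm_num) h1
  refine ⟨hW, by positivity, ?_, ?_, ?_⟩
  · rw [div_le_div_iff₀ (by positivity) (by positivity)]
    nlinarith
  · apply div_nonneg _ (by positivity)
    nlinarith
  · have e : ((W' : ℝ) ^ 2 - 1) / (W : ℝ) ^ 2 = ((W' : ℝ) / W) ^ 2 - 1 / (W : ℝ) ^ 2 := by
      field_simp
    rw [e]
    have h4 : 0 ≤ (W' : ℝ) / W := by positivity
    have h5 : 0 ≤ 1 / (W : ℝ) ^ 2 := by positivity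
    nlinarith

theorem E3_W'pos {y' y W W' V : ℕ} (g : Geo y' y W W' V) : 0 < W' := by
  have := (E3_W g).2.1
  have h2 : (0 : ℝ) < W' := by linarith
  exact_mod_cast h2

theorem E3_Wpos {y' y W W' V : ℕ} (g : Geo y' y W W' V) : 0 < W := by
  have := (E3_nums g).1
  exact_mod_cast this

theorem E3_symU2 {W' : ℕ} (h : 0 < W') : Sym (U W' ^ 2) (W' - 1) := by
  have := Sym_U2 h
  rwa [← pow_two] at this

theorem E3_var {y' y W W' V : ℕ} (g : Geo y' y W W' V) :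
    varS (bsh W W') (mid W W') = ((W : ℝ) ^ 2 - 1) / 12 + ((W' : ℝ) ^ 2 - 1) / 6 := by
  have hW' := E3_W'pos g
  unfold bsh mid
  have h := var_U2 hW'
  rw [← pow_two] at h
  rw [var_mul (Sym_U g.odd) (E3_symU2 hW'), var_U g.odd, h]

theorem E3_gini {y' y W W' V : ℕ} (g : Geo y' y W W' V) :
    ((W : ℝ) ^ 2 - 1) / (3 * W) ≤ giniS (bsh W W') (mid W W') := by
  have hW' := E3_W'pos g
  have := gini_mul (Sym_U g.odd) (E3_symU2 hW')
  rw [gini_U g.odd] at this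
  exact this

theorem E3_var2 {y' y W W' V : ℕ} (g : Geo y' y W W' V) :
    varS (bsh W W' ^ 2) (2 * mid W W') = ((W : ℝ) ^ 2 - 1) / 6 + ((W' : ℝ) ^ 2 - 1) / 3 := by
  have hW' := E3_W'pos g
  have hb := Sym_bsh g.odd hW'
  have h := var_mul hb hb
  rw [← pow_two, ← two_mul] at h
  rw [h, E3_var g]
  ring

theorem E3_gini2 {y' y W W' V : ℕ} (g : Geo y' y W W' V) :
    ((W : ℝ) ^ 2 - 1) * (7 * (W : ℝ) ^ 2 + 2) / (15 * (W : ℝ) ^ 3)
      ≤ giniS (bsh W W' ^ 2) (2 * mid W W') := by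
  have hW' := E3_W'pos g
  have hW := E3_Wpos g
  have h2 : Sym (U W' ^ 2 * U W' ^ 2) ((W' - 1) + (W' - 1)) :=
    Sym_mul (E3_symU2 hW') (E3_symU2 hW')
  have h := gini_mul (Sym_U2 hW) h2
  rw [gini_U2 hW] at h
  have e1 : U W * U W * (U W' ^ 2 * U W' ^ 2) = bsh W W' ^ 2 := by
    unfold bsh
    ring
  have e2 : W - 1 + (W' - 1 + (W' - 1)) = 2 * mid W W' := by
    obtain ⟨k, hk⟩ := g.odd
    unfold mid
    omega
  rw [e1, e2] at h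
  exact h

theorem sh_eta {y' y W W' V : ℕ} (g : Geo y' y W W' V) (ω : ℝ) :
    (2 / W * etS (bsh W W') (mid W W') ω) ^ 2
      ≤ 3334 / 10000 * min 1 (2 * (1 - rhoS (bsh W W') (mid W W') ω)) := by
  obtain ⟨hW, hu, hu', hv, hv'⟩ := E3_nums g
  have hb := Sym_bsh g.odd (E3_W'pos g)
  have h1 := cs_sin hb (fun n => 2 / W * ((n : ℝ) - mid W W')) ω
  have e1 : ∑ n ∈ range (2 * mid W W' + 1), coeff n (bsh W W') * (2 / W * ((n : ℝ) - mid W W'))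
      * Real.sin (ω * ((n : ℝ) - mid W W')) = 2 / W * etS (bsh W W') (mid W W') ω := by
    unfold etS
    rw [mul_sum]
    refine sum_congr rfl fun n _ => ?_
    ring
  have e2 : ∑ n ∈ range (2 * mid W W' + 1), coeff n (bsh W W') * (2 / W * ((n : ℝ) - mid W W')) ^ 2
      = (2 / W) ^ 2 * varS (bsh W W') (mid W W') := by
    unfold varS
    rw [mul_sum]
    refine sum_congr rfl fun n _ => ?_
    ring
  simp only [e1] at h1
  rw [e2, E3_var g] at h1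
  refine h1.trans (mul_le_mul_of_nonneg_right ?_ (E3_min_nonneg hb ω))
  have e3 : (2 / (W : ℝ)) ^ 2 * (((W : ℝ) ^ 2 - 1) / 12 + ((W' : ℝ) ^ 2 - 1) / 6)
      = 1 / 3 - 1 / 3 * (1 / (W : ℝ) ^ 2) + 2 / 3 * (((W' : ℝ) ^ 2 - 1) / (W : ℝ) ^ 2) := by
    field_simp
    ring
  rw [e3]
  linarith

theorem sh_r1 {y' y W W' V : ℕ} (g : Geo y' y W W' V) (ω : ℝ) :
    (hS (bsh W W') (mid W W') ω - 2 / W * etS (bsh W W') (mid W W') ω) ^ 2
      ≤ (4 / 1000) ^ 2 * min 1 (2 * (1 - rhoS (bsh W W') (mid W W') ω)) := by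
  obtain ⟨hW, hu, hu', hv, hv'⟩ := E3_nums g
  have hb := Sym_bsh g.odd (E3_W'pos g)
  refine (E3_key hb (2 / W) ω).trans (mul_le_mul_of_nonneg_right ?_ (E3_min_nonneg hb ω))
  rw [E3_var g]
  have h1 : 2 / (W : ℝ) * (((W : ℝ) ^ 2 - 1) / (3 * W)) ≤ 2 / (W : ℝ) * giniS (bsh W W') (mid W W') :=
    mul_le_mul_of_nonneg_left (E3_gini g) (by positivity)
  have e1 : 2 / (W : ℝ) * (((W : ℝ) ^ 2 - 1) / (3 * W)) = 2 / 3 - 2 / 3 * (1 / (W : ℝ) ^ 2) := by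
    field_simp
  have e3 : (2 / (W : ℝ)) ^ 2 * (((W : ℝ) ^ 2 - 1) / 12 + ((W' : ℝ) ^ 2 - 1) / 6)
      = 1 / 3 - 1 / 3 * (1 / (W : ℝ) ^ 2) + 2 / 3 * (((W' : ℝ) ^ 2 - 1) / (W : ℝ) ^ 2) := by
    field_simp
    ring
  rw [e3]
  rw [e1] at h1
  have hn : ((4 : ℝ) / 1000) ^ 2 = 16 / 10 ^ 6 := by norm_num
  rw [hn]
  linarith

theorem sh_r2 {y' y W W' V : ℕ} (g : Geo y' y W W' V) (ω : ℝ) :
    (hS (bsh W W' ^ 2) (2 * mid W W') ω
        - 14 / 10 * rhoS (bsh W W') (mid W W') ω * (2 / W * etS (bsh W W') (mid W W') ω)) ^ 2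
      ≤ (95 / 1000) ^ 2 * min 1 (2 * (1 - rhoS (bsh W W') (mid W W') ω ^ 2)) := by
  obtain ⟨hW, hu, hu', hv, hv'⟩ := E3_nums g
  have hb := Sym_bsh g.odd (E3_W'pos g)
  have hb2 := Sym_pow hb 2
  have e0 : 14 / 10 * rhoS (bsh W W') (mid W W') ω * (2 / W * etS (bsh W W') (mid W W') ω)
      = 14 / 10 / W * etS (bsh W W' ^ 2) (2 * mid W W') ω := by
    have h := etS_sq hb ω
    rw [← pow_two, ← two_mul] at h
    rw [h]
    ring
  rw [e0]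
  have h0 := E3_key hb2 (14 / 10 / W) ω
  rw [rhoS_pow hb] at h0
  have hmin := E3_min_nonneg hb2 ω
  rw [rhoS_pow hb] at hmin
  refine h0.trans (mul_le_mul_of_nonneg_right ?_ hmin)
  rw [E3_var2 g]
  have h1 : 14 / 10 / (W : ℝ) * (((W : ℝ) ^ 2 - 1) * (7 * (W : ℝ) ^ 2 + 2) / (15 * (W : ℝ) ^ 3))
      ≤ 14 / 10 / (W : ℝ) * giniS (bsh W W' ^ 2) (2 * mid W W') :=
    mul_le_mul_of_nonneg_left (E3_gini2 g) (by positivity)
  have e1 : 14 / 10 / (W : ℝ) * (((W : ℝ) ^ 2 - 1) * (7 * (W : ℝ) ^ 2 + 2) / (15 * (W : ℝ) ^ 3))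
      = 14 / 150 * (7 - 5 * (1 / (W : ℝ) ^ 2) - 2 * (1 / (W : ℝ) ^ 2) ^ 2) := by
    field_simp
    ring
  have e3 : (14 / 10 / (W : ℝ)) ^ 2 * (((W : ℝ) ^ 2 - 1) / 6 + ((W' : ℝ) ^ 2 - 1) / 3)
      = 196 / 600 - 196 / 600 * (1 / (W : ℝ) ^ 2)
        + 196 / 300 * (((W' : ℝ) ^ 2 - 1) / (W : ℝ) ^ 2) := by
    field_simp
    ring
  rw [e3]
  rw [e1] at h1
  have h4 : (1 / (W : ℝ) ^ 2) ^ 2 ≤ 1 / (W : ℝ) ^ 2 := by
    have : 1 / (W : ℝ) ^ 2 ≤ 1 := hu'.trans (by norm_num)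
    nlinarith
  have hn : ((95 : ℝ) / 1000) ^ 2 = 9025 / 10 ^ 6 := by norm_num
  rw [hn]
  linarith

theorem sh_h3 {y' y W W' V : ℕ} (g : Geo y' y W W' V) (ω : ℝ) :
    (hS (bsh W W' ^ 3) (3 * mid W W') ω) ^ 2
      ≤ 1 / 3 * min 1 (2 * (1 - rhoS (bsh W W') (mid W W') ω ^ 3)) := by
  have hb := Sym_bsh g.odd (E3_W'pos g)
  have hb3 := Sym_pow hb 3
  have h0 := E3_key hb3 0 ω
  rw [rhoS_pow hb] at h0
  have e : hS (bsh W W' ^ 3) (3 * mid W W') ω - 0 * etS (bsh W W' ^ 3) (3 * mid W W') ω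
      = hS (bsh W W' ^ 3) (3 * mid W W') ω := by ring
  have e2 : (1 / 3 - 0 * giniS (bsh W W' ^ 3) (3 * mid W W')
      + 0 ^ 2 * varS (bsh W W' ^ 3) (3 * mid W W')) = (1 / 3 : ℝ) := by ring
  rw [e, e2] at h0
  exact h0

end MP18
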