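import Pool.Agent.Lib.MP_18566a_pr.T.E1

set_option autoImplicit false

namespace MP18

open Finset PowerSeries

theorem E3b_cplU {W : ℕ} (hW : 0 < W) : Cpl (U W) W 1 := by
  have hW0 : (W : ℝ) ≠ 0 := by exact_mod_cast hW.ne'
  constructor
  · intro n hn
    unfold U
    rw [PowerSeries.coeff_mk, if_neg (by omega)]
  · rw [Finset.sum_congr rfl (g := fun _ => 1 / (W : ℝ))]
    · rw [Finset.sum_const, Finset.card_range, nsmul_eq_mul]
      field_simp
    · intro n hn
      unfold U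
      rw [PowerSeries.coeff_mk, if_pos (Finset.mem_range.1 hn)]

/-- the Fejer factor is nonnegative -/
theorem E3b_fejer {W : ℕ} (hW : 0 < W) (ω : ℝ) : 0 ≤ rhoS (U W * U W) (W - 1) ω := by
  have hc := E3b_cplU hW
  have hc' : Cpl (U W) (W - 1 + 1) 1 := by
    rwa [Nat.sub_add_cancel hW]
  have h1 := conv_sum_real hc' hc' (fun n => Real.cos (ω * ((n : ℝ) - ((W - 1 : ℕ) : ℝ))))
  have e0 : W - 1 + (W - 1) + 1 = 2 * (W - 1) + 1 := by omega
  rw [e0, Nat.sub_add_cancel hW] at h1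
  unfold rhoS
  rw [h1]
  have h2 : ∀ i ∈ range W, ∑ j ∈ range W, coeff i (U W) * coeff j (U W) *
      Real.cos (ω * (((i + j : ℕ) : ℝ) - ((W - 1 : ℕ) : ℝ))) =
      (1 / (W : ℝ)) ^ 2 * (Real.cos (ω * i) * ∑ j ∈ range W, Real.cos (ω * j) +
        Real.sin (ω * i) * ∑ j ∈ range W, Real.sin (ω * j)) := by
    intro i hi
    rw [← Finset.sum_range_reflect, Finset.mul_sum, Finset.mul_sum, ← Finset.sum_add_distrib,
      Finset.mul_sum]
    apply Finset.sum_congr rfl
    intro j hj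
    have hj' := Finset.mem_range.1 hj
    have hi' := Finset.mem_range.1 hi
    unfold U
    rw [PowerSeries.coeff_mk, PowerSeries.coeff_mk, if_pos hi', if_pos (by omega)]
    have e1 : (((i + (W - 1 - j) : ℕ) : ℝ) - ((W - 1 : ℕ) : ℝ)) = (i : ℝ) - j := by
      have e2 : W - 1 - j + j = W - 1 := by omega
      have e3 : (((W - 1 - j : ℕ) : ℝ) + j) = ((W - 1 : ℕ) : ℝ) := by exact_mod_cast e2
      push_cast
      linarith
    rw [e1, mul_sub, Real.cos_sub]
    ring
  rw [Finset.sum_congr rfl h2, ← Finset.mul_sum, Finset.sum_add_distrib, ← Finset.sum_mul,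
    ← Finset.sum_mul]
  have h3 := mul_self_nonneg (∑ j ∈ range W, Real.cos (ω * j))
  have h4 := mul_self_nonneg (∑ j ∈ range W, Real.sin (ω * j))
  positivity

/-- the Dirichlet factor -/
theorem E3b_rho {W : ℕ} (hW : Odd W) (ω : ℝ) : (W : ℝ) * rhoS (U W) ((W - 1) / 2) ω =
    ∑ n ∈ range W, Real.cos (ω * ((n : ℝ) - (((W - 1) / 2 : ℕ) : ℝ))) := by
  obtain ⟨m, hm⟩ := hW
  have e1 : (W - 1) / 2 = m := by omega
  have e2 : 2 * m + 1 = W := hm.symm
  have hW0 : (W : ℝ) ≠ 0 := by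
    have : 0 < W := by omega
    exact_mod_cast this.ne'
  unfold rhoS
  rw [e1, e2, Finset.mul_sum]
  apply Finset.sum_congr rfl
  intro n hn
  unfold U
  rw [PowerSeries.coeff_mk, if_pos (Finset.mem_range.1 hn)]
  field_simp

theorem E3b_dir {W : ℕ} (hW : Odd W) (ω : ℝ) :
    Real.sin (ω / 2) * ((W : ℝ) * rhoS (U W) ((W - 1) / 2) ω) = Real.sin (W * (ω / 2)) := by
  rw [E3b_rho hW]
  have hW' := hW
  obtain ⟨m, hm⟩ := hW'
  have e1 : (W - 1) / 2 = m := by omega
  rw [e1]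
  have key : ∀ N : ℕ, 2 * (Real.sin (ω / 2) * ∑ n ∈ range N, Real.cos (ω * ((n : ℝ) - m))) =
      Real.sin (ω * ((N : ℝ) - m - 1 / 2)) - Real.sin (ω * (0 - (m : ℝ) - 1 / 2)) := by
    intro N
    induction N with
    | zero => simp
    | succ N ih =>
      rw [Finset.sum_range_succ, mul_add, mul_add, ih]
      have e3 : ω * (((N + 1 : ℕ) : ℝ) - m - 1 / 2) = ω * ((N : ℝ) - m) + ω / 2 := by
        push_cast
        ring
      have e4 : ω * ((N : ℝ) - m - 1 / 2) = ω * ((N : ℝ) - m) - ω / 2 := by ring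
      rw [e3, e4, Real.sin_add, Real.sin_sub]
      ring
  have h1 := key W
  have e5 : ω * ((W : ℝ) - m - 1 / 2) = W * (ω / 2) := by
    rw [hm]
    push_cast
    ring
  have e6 : ω * (0 - (m : ℝ) - 1 / 2) = -(W * (ω / 2)) := by
    rw [hm]
    push_cast
    ring
  rw [e5, e6, Real.sin_neg] at h1
  linarith

/-- for small positive frequencies -/
theorem E3b_small {W : ℕ} (hW : Odd W) {y : ℝ} (hy0 : 0 ≤ y) (hy1 : y ≤ Real.pi / 2)
    (hy2 : Real.sin y ≤ 1 / 200) : -(1 / 3) ≤ rhoS (U W) ((W - 1) / 2) (2 * y) := by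
  have hW0 : 0 < W := hW.pos
  have hWr : (1 : ℝ) ≤ W := by exact_mod_cast hW0
  rcases hy0.eq_or_lt with h0 | h0
  · have h1 := E3b_rho hW (2 * y)
    rw [← h0] at h1 ⊢
    simp only [mul_zero, zero_mul, Real.cos_zero, Finset.sum_const, Finset.card_range,
      nsmul_eq_mul, mul_one] at h1 ⊢
    have h2 : rhoS (U W) ((W - 1) / 2) 0 = 1 :=
      mul_left_cancel₀ (show (W : ℝ) ≠ 0 by linarith) (h1.trans (mul_one _).symm)
    rw [h2]
    norm_num
  · have h1 := E3b_dir hW (2 * y)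
    have e1 : 2 * y / 2 = y := by ring
    rw [e1] at h1
    have hpi := Real.pi_gt_three
    have hpi4 := Real.pi_lt_four
    have hj := Real.mul_le_sin h0.le hy1
    have hyb : y ≤ 1 / 100 := by
      have h3 : 2 / Real.pi * y ≤ 1 / 200 := hj.trans hy2
      rw [div_mul_eq_mul_div, div_le_iff₀ (by linarith)] at h3
      linarith
    have hsin : 0 < Real.sin y := Real.sin_pos_of_pos_of_lt_pi h0 (by linarith)
    by_cases hc : (W : ℝ) * y ≤ Real.pi
    · have h2 : 0 ≤ Real.sin (W * y) := Real.sin_nonneg_of_nonneg_of_le_pi (by positivity) hc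
      rw [← h1] at h2
      have h3 : 0 ≤ (W : ℝ) * rhoS (U W) ((W - 1) / 2) (2 * y) := by
        by_contra hcon
        push Not at hcon
        nlinarith
      have h4 : 0 ≤ rhoS (U W) ((W - 1) / 2) (2 * y) := by
        by_contra hcon
        push Not at hcon
        nlinarith
      linarith
    · push Not at hc
      have h2 := Real.sin_gt_sub_cube h0
      have h3 : 99 / 100 * y ≤ Real.sin y := by
        nlinarith [mul_pos h0 h0]
      have h4 : 3 ≤ (W : ℝ) * Real.sin y := by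
        have h5 : (W : ℝ) * (99 / 100 * y) ≤ W * Real.sin y :=
          mul_le_mul_of_nonneg_left h3 (by linarith)
        have h6 : (W : ℝ) * (99 / 100 * y) = 99 / 100 * (W * y) := by ring
        have := Real.pi_gt_d2
        nlinarith
      have h5 : -1 ≤ Real.sin (W * y) := Real.neg_one_le_sin _
      rw [← h1] at h5
      by_contra hcon
      push Not at hcon
      nlinarith

theorem E3b_per {W : ℕ} (hW : Odd W) (ω : ℝ) (k : ℤ) :
    rhoS (U W) ((W - 1) / 2) ω = rhoS (U W) ((W - 1) / 2) |ω - k * (2 * Real.pi)| := by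
  have hW0 : (W : ℝ) ≠ 0 := by exact_mod_cast hW.pos.ne'
  apply mul_left_cancel₀ hW0
  rw [E3b_rho hW, E3b_rho hW]
  apply Finset.sum_congr rfl
  intro n _
  set m : ℕ := (W - 1) / 2
  have h1 : ∀ x : ℝ, Real.cos (|x| * ((n : ℝ) - m)) = Real.cos (x * ((n : ℝ) - m)) := by
    intro x
    rcases abs_cases x with h | h
    · rw [h.1]
    · rw [h.1, neg_mul, Real.cos_neg]
  rw [h1]
  have e1 : (ω - k * (2 * Real.pi)) * ((n : ℝ) - m) =
      ω * ((n : ℝ) - m) - ((k * ((n : ℤ) - (m : ℤ)) : ℤ) : ℝ) * (2 * Real.pi) := by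
    push_cast
    ring
  rw [e1, Real.cos_sub_int_mul_two_pi]

theorem E3b_D {W : ℕ} (hW : Odd W) {ω : ℝ}
    (hω : ‖1 - Complex.exp (ω * Complex.I)‖ ≤ 1 / 100) :
    -(1 / 3) ≤ rhoS (U W) ((W - 1) / 2) ω := by
  have hpi := Real.pi_pos
  set k : ℤ := round (ω / (2 * Real.pi)) with hk
  have h1 := abs_sub_round (ω / (2 * Real.pi))
  rw [← hk] at h1
  rw [E3b_per hW ω k]
  set θ : ℝ := |ω - k * (2 * Real.pi)| with hθ
  have h2 : θ ≤ Real.pi := by
    have e1 : ω - k * (2 * Real.pi) = (ω / (2 * Real.pi) - k) * (2 * Real.pi) := by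
      field_simp
    rw [hθ, e1, abs_mul, abs_of_pos (show 0 < 2 * Real.pi by linarith)]
    nlinarith
  have hcos : Real.cos θ = Real.cos ω := by
    rw [hθ, Real.cos_abs, Real.cos_sub_int_mul_two_pi]
  have h3 : ‖1 - Complex.exp (ω * Complex.I)‖ ^ 2 = 2 - 2 * Real.cos ω := by
    rw [← Complex.normSq_eq_norm_sq, Complex.normSq_apply]
    simp only [Complex.sub_re, Complex.one_re, Complex.sub_im, Complex.one_im,
      Complex.exp_ofReal_mul_I_re, Complex.exp_ofReal_mul_I_im]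
    have := Real.sin_sq_add_cos_sq ω
    nlinarith
  have h4 : 2 - 2 * Real.cos θ ≤ (1 / 100) ^ 2 := by
    rw [hcos, ← h3]
    exact pow_le_pow_left₀ (norm_nonneg _) hω 2
  have h5 : Real.cos θ = 1 - 2 * Real.sin (θ / 2) ^ 2 := by
    have e2 : θ = 2 * (θ / 2) := by ring
    have h6 := Real.cos_two_mul (θ / 2)
    rw [← e2] at h6
    have h7 := Real.sin_sq_add_cos_sq (θ / 2)
    linarith
  have hθ0 : 0 ≤ θ := abs_nonneg _
  have h8 : Real.sin (θ / 2) ≤ 1 / 200 := by
    apply le_of_sq_le_sq _ (by norm_num)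
    rw [h5] at h4
    nlinarith
  have h9 := E3b_small hW (y := θ / 2) (by linarith) (by linarith) h8
  have e3 : 2 * (θ / 2) = θ := by ring
  rwa [e3] at h9

theorem sh_lo {y' y W W' V : ℕ} (g : Geo y' y W W' V) {ω : ℝ}
    (hω : ‖1 - Complex.exp (ω * Complex.I)‖ ≤ 1 / 100) :
    -(1 / 3) ≤ rhoS (bsh W W') (mid W W') ω := by
  have hW' : 0 < W' := by
    have h1 := g.W'lo
    have h2 : (0 : ℝ) < W := by exact_mod_cast g.odd.pos
    have h3 : (0 : ℝ) < W' := by linarith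
    exact_mod_cast h3
  have e1 : bsh W W' = U W * (U W' * U W') := by
    unfold bsh
    rw [pow_two]
  rw [e1]
  unfold mid
  rw [rhoS_mul (Sym_U g.odd) (Sym_U2 hW')]
  have h1 := E3b_D g.odd hω
  have h2 := E3b_fejer hW' ω
  have h3 := rhoS_le (Sym_U2 hW') ω
  rcases le_or_gt 0 (rhoS (U W) ((W - 1) / 2) ω) with h4 | h4
  · have := mul_nonneg h4 h2
    linarith
  · nlinarith

end MP18
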