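import Pool.Agent.Lib.MP_18566a_pr.T.E4p
import Pool.Agent.Lib.MP_18566a_pr.T.E4q

set_option autoImplicit false

namespace MP18

open Finset PowerSeries

/-- the constraints on the shape numbers -/
structure ShapeC (ρ η r1 r2 h3 : ℝ) : Prop where
  lo : -(1 / 3) ≤ ρ
  hi : ρ ≤ 1
  et : η ^ 2 ≤ 3334 / 10000 * min 1 (2 * (1 - ρ))
  c1 : r1 ^ 2 ≤ (4 / 1000) ^ 2 * min 1 (2 * (1 - ρ))
  c2 : r2 ^ 2 ≤ (95 / 1000) ^ 2 * min 1 (2 * (1 - ρ ^ 2))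
  c3 : h3 ^ 2 ≤ 1 / 3 * min 1 (2 * (1 - ρ ^ 3))

/-- E4, auxiliary: the inequality from a polynomial bound with caps `m1, m2, m3`. -/
private theorem E4_aux1 {c s ρ η r1 r2 h3 m1 m2 m3 : ℝ} (hcs : c ^ 2 + s ^ 2 = 1)
    (e1 : η ^ 2 ≤ 3334 / 10000 * m1) (e2 : r1 ^ 2 ≤ (4 / 1000) ^ 2 * m1)
    (e3 : r2 ^ 2 ≤ (95 / 1000) ^ 2 * m2) (e4 : h3 ^ 2 ≤ 1 / 3 * m3)
    (hL : 0 ≤ Lf m1 m2 m3 ρ c) :
    12 / 10000 * ((1 + c) + (1 - ρ)) ≤ gf hp0 hp1 hp2 hp3 ρ c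
      + s * (hp1 ^ 2 * (η + r1) * I1f hp0 hp2 hp3 ρ c
        + hp2 ^ 2 * (14 / 10 * ρ * η + r2) * I2f hp0 hp1 hp3 ρ c
        + hp3 ^ 2 * h3 * I3f hp0 hp1 hp2 ρ c) := by
  unfold Lf at hL
  have hJ : Jf hp0 hp1 hp2 hp3 ρ c = hp1 ^ 2 * I1f hp0 hp2 hp3 ρ c
      + 14 / 10 * ρ * hp2 ^ 2 * I2f hp0 hp1 hp3 ρ c := rfl
  have hX : s * (hp1 ^ 2 * (η + r1) * I1f hp0 hp2 hp3 ρ c
        + hp2 ^ 2 * (14 / 10 * ρ * η + r2) * I2f hp0 hp1 hp3 ρ c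
        + hp3 ^ 2 * h3 * I3f hp0 hp1 hp2 ρ c) =
      s * (η * Jf hp0 hp1 hp2 hp3 ρ c + (hp1 ^ 2 * r1 * I1f hp0 hp2 hp3 ρ c
        + hp2 ^ 2 * r2 * I2f hp0 hp1 hp3 ρ c + hp3 ^ 2 * h3 * I3f hp0 hp1 hp2 ρ c)) := by
    rw [hJ]; ring
  rw [hX]
  generalize Jf hp0 hp1 hp2 hp3 ρ c = J at *
  generalize I1f hp0 hp2 hp3 ρ c = I1 at *
  generalize I2f hp0 hp1 hp3 ρ c = I2 at *
  generalize I3f hp0 hp1 hp2 ρ c = I3 at *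
  generalize gf hp0 hp1 hp2 hp3 ρ c = g at *
  generalize hp1 = p1 at *
  generalize hp2 = p2 at *
  generalize hp3 = p3 at *
  have h1 : η ^ 2 * J ^ 2 ≤ 3334 / 10000 * m1 * J ^ 2 := mul_le_mul_of_nonneg_right e1 (sq_nonneg J)
  have h2 : r1 ^ 2 * (p1 ^ 4 * I1 ^ 2) ≤ (4 / 1000) ^ 2 * m1 * (p1 ^ 4 * I1 ^ 2) :=
    mul_le_mul_of_nonneg_right e2 (by positivity)
  have h3' : r2 ^ 2 * (p2 ^ 4 * I2 ^ 2) ≤ (95 / 1000) ^ 2 * m2 * (p2 ^ 4 * I2 ^ 2) :=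
    mul_le_mul_of_nonneg_right e3 (by positivity)
  have h4 : h3 ^ 2 * (p3 ^ 4 * I3 ^ 2) ≤ 1 / 3 * m3 * (p3 ^ 4 * I3 ^ 2) :=
    mul_le_mul_of_nonneg_right e4 (by positivity)
  have h5 : (η * J + (p1 ^ 2 * r1 * I1 + p2 ^ 2 * r2 * I2 + p3 ^ 2 * h3 * I3)) ^ 2 ≤
      2 * (η ^ 2 * J ^ 2) + 6 * (r1 ^ 2 * (p1 ^ 4 * I1 ^ 2) + r2 ^ 2 * (p2 ^ 4 * I2 ^ 2) +
        h3 ^ 2 * (p3 ^ 4 * I3 ^ 2)) := by
    have q1 := sq_nonneg (η * J - (p1 ^ 2 * r1 * I1 + p2 ^ 2 * r2 * I2 + p3 ^ 2 * h3 * I3))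
    have q2 := sq_nonneg (p1 ^ 2 * r1 * I1 - p2 ^ 2 * r2 * I2)
    have q3 := sq_nonneg (p1 ^ 2 * r1 * I1 - p3 ^ 2 * h3 * I3)
    have q4 := sq_nonneg (p2 ^ 2 * r2 * I2 - p3 ^ 2 * h3 * I3)
    nlinarith [q1, q2, q3, q4]
  have h6 := mul_nonneg (show (0 : ℝ) ≤ 15 / 2000 by norm_num)
    (sq_nonneg (s + 200 / 3 * (η * J + (p1 ^ 2 * r1 * I1 + p2 ^ 2 * r2 * I2 + p3 ^ 2 * h3 * I3))))
  have h7 : 15 / 2000 * (s + 200 / 3 * (η * J + (p1 ^ 2 * r1 * I1 + p2 ^ 2 * r2 * I2 + p3 ^ 2 * h3 * I3))) ^ 2 =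
      15 / 2000 * s ^ 2 + s * (η * J + (p1 ^ 2 * r1 * I1 + p2 ^ 2 * r2 * I2 + p3 ^ 2 * h3 * I3)) +
        100 / 3 * (η * J + (p1 ^ 2 * r1 * I1 + p2 ^ 2 * r2 * I2 + p3 ^ 2 * h3 * I3)) ^ 2 := by ring
  rw [h7] at h6
  have h8 : s ^ 2 = 1 - c ^ 2 := by linarith
  rw [h8] at h6
  linarith

theorem base_hat {c s ρ η r1 r2 h3 : ℝ} (hcs : c ^ 2 + s ^ 2 = 1) (h : ShapeC ρ η r1 r2 h3) :
    12 / 10000 * ((1 + c) + (1 - ρ)) ≤ gf hp0 hp1 hp2 hp3 ρ c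
      + s * (hp1 ^ 2 * (η + r1) * I1f hp0 hp2 hp3 ρ c
        + hp2 ^ 2 * (14 / 10 * ρ * η + r2) * I2f hp0 hp1 hp3 ρ c
        + hp3 ^ 2 * h3 * I3f hp0 hp1 hp2 ρ c) := by
  have hc2 : c ^ 2 ≤ 1 := by nlinarith [sq_nonneg s]
  have hc := abs_le.1 ((sq_le_one_iff_abs_le_one c).1 hc2)
  have hlo := h.lo
  have hhi := h.hi
  rcases le_total (1 / 2) ρ with hρ | hρ
  · refine E4_aux1 hcs ?_ ?_ ?_ ?_ (Lf_case1 hρ hhi hc.1 hc.2)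
    · exact h.et.trans (mul_le_mul_of_nonneg_left (min_le_right _ _) (by norm_num))
    · exact h.c1.trans (mul_le_mul_of_nonneg_left (min_le_right _ _) (by norm_num))
    · refine h.c2.trans (mul_le_mul_of_nonneg_left ((min_le_right _ _).trans ?_) (by norm_num))
      nlinarith
    · refine h.c3.trans (mul_le_mul_of_nonneg_left ((min_le_right _ _).trans ?_) (by norm_num))
      have h1 : 0 ≤ (1 - ρ) * (2 - ρ - ρ ^ 2) := by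
        apply mul_nonneg (by linarith)
        nlinarith
      nlinarith [h1]
  · refine E4_aux1 hcs ?_ ?_ ?_ ?_ (Lf_case2 hlo hρ hc.1 hc.2)
    · exact h.et.trans (mul_le_mul_of_nonneg_left (min_le_left _ _) (by norm_num))
    · exact h.c1.trans (mul_le_mul_of_nonneg_left (min_le_left _ _) (by norm_num))
    · exact h.c2.trans (mul_le_mul_of_nonneg_left (min_le_left _ _) (by norm_num))
    · exact h.c3.trans (mul_le_mul_of_nonneg_left (min_le_left _ _) (by norm_num))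

end MP18
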