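import Pool.Agent.Lib.MP_18566a_pr.T.Defs

/-!
MODULE E4d (helper44, MP_18566a_pr): definitions for the base inequality (no job).
-/

set_option autoImplicit false

namespace MP18

open Finset PowerSeries

noncomputable def n1f (p1 p2 p3 : ℝ) : ℝ := p1 ^ 2 + 2 * p1 * (p2 + p3)
noncomputable def n2f (p2 p3 : ℝ) : ℝ := p2 ^ 2 + 2 * p2 * p3
noncomputable def n3f (p3 : ℝ) : ℝ := p3 ^ 2

/-- real part of `Z M(X) conj(P(X))` -/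
noncomputable def gf (p0 p1 p2 p3 ρ c : ℝ) : ℝ :=
  (n1f p1 p2 p3 - n2f p2 p3 + n3f p3) * p0
  + ((n1f p1 p2 p3 - n2f p2 p3 + n3f p3) * p1 + n1f p1 p2 p3 * p0) * ρ * c
  + ((n1f p1 p2 p3 - n2f p2 p3 + n3f p3) * p2 + n2f p2 p3 * p0) * ρ ^ 2 * (2 * c ^ 2 - 1)
  + ((n1f p1 p2 p3 - n2f p2 p3 + n3f p3) * p3 + n3f p3 * p0) * ρ ^ 3 * (4 * c ^ 3 - 3 * c)
  + n1f p1 p2 p3 * p1 * ρ ^ 2
  + (n1f p1 p2 p3 * p2 + n2f p2 p3 * p1) * ρ ^ 3 * c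
  + (n1f p1 p2 p3 * p3 + n3f p3 * p1) * ρ ^ 4 * (2 * c ^ 2 - 1)
  + n2f p2 p3 * p2 * ρ ^ 4
  + (n2f p2 p3 * p3 + n3f p3 * p2) * ρ ^ 5 * c
  + n3f p3 * p3 * ρ ^ 6

noncomputable def I1f (p0 p2 p3 ρ c : ℝ) : ℝ := p0 - p2 * ρ ^ 2 - 2 * p3 * ρ ^ 3 * c
noncomputable def I2f (p0 p1 p3 ρ c : ℝ) : ℝ := 2 * p0 * c + p1 * ρ - p3 * ρ ^ 3
noncomputable def I3f (p0 p1 p2 ρ c : ℝ) : ℝ := (4 * c ^ 2 - 1) * p0 + 2 * p1 * ρ * c + p2 * ρ ^ 2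

noncomputable def hp0 : ℝ := 208299 / 10 ^ 6
noncomputable def hp1 : ℝ := 429278 / 10 ^ 6
noncomputable def hp2 : ℝ := 294896 / 10 ^ 6
noncomputable def hp3 : ℝ := 67527 / 10 ^ 6

noncomputable def Jf (p0 p1 p2 p3 ρ c : ℝ) : ℝ :=
  p1 ^ 2 * I1f p0 p2 p3 ρ c + 14 / 10 * ρ * p2 ^ 2 * I2f p0 p1 p3 ρ c

/-- the polynomial with caps m1 m2 m3 -/
noncomputable def Lf (m1 m2 m3 ρ c : ℝ) : ℝ :=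
  gf hp0 hp1 hp2 hp3 ρ c - 15 / 2000 * (1 - c ^ 2)
  - 100 / 3 * (2 * (3334 / 10000) * m1 * (Jf hp0 hp1 hp2 hp3 ρ c) ^ 2
      + 6 * ((4 / 1000) ^ 2 * hp1 ^ 4 * m1 * (I1f hp0 hp2 hp3 ρ c) ^ 2
        + (95 / 1000) ^ 2 * hp2 ^ 4 * m2 * (I2f hp0 hp1 hp3 ρ c) ^ 2
        + 1 / 3 * hp3 ^ 4 * m3 * (I3f hp0 hp1 hp2 ρ c) ^ 2))
  - 12 / 10000 * ((1 - ρ) + (1 + c))

end MP18
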