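import Pool.Agent.Lib.MP_18566a_pr.T.E4
import Pool.Agent.Lib.MP_18566a_pr.T.C0

set_option autoImplicit false

namespace MP18

open Finset PowerSeries

/-- closeness of two numbers together with a common bound -/
def E5Cl (a b e A : ℝ) : Prop := |a - b| ≤ e ∧ |a| ≤ A ∧ |b| ≤ A

theorem E5_mul {a b e A a' b' e' A' : ℝ} (h : E5Cl a b e A) (h' : E5Cl a' b' e' A') :
    E5Cl (a * a') (b * b') (A * e' + e * A') (A * A') := by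
  obtain ⟨h1, h2, h3⟩ := h
  obtain ⟨k1, k2, k3⟩ := h'
  have hA : 0 ≤ A := (abs_nonneg _).trans h2
  have hA' : 0 ≤ A' := (abs_nonneg _).trans k2
  have he : 0 ≤ e := (abs_nonneg _).trans h1
  have he' : 0 ≤ e' := (abs_nonneg _).trans k1
  refine ⟨?_, ?_, ?_⟩
  · have e1 : a * a' - b * b' = a * (a' - b') + (a - b) * b' := by ring
    rw [e1]
    calc |a * (a' - b') + (a - b) * b'| ≤ |a * (a' - b')| + |(a - b) * b'| := abs_add_le _ _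
      _ = |a| * |a' - b'| + |a - b| * |b'| := by rw [abs_mul, abs_mul]
      _ ≤ A * e' + e * A' :=
        add_le_add (mul_le_mul h2 k1 (abs_nonneg _) hA) (mul_le_mul h1 k3 (abs_nonneg _) he)
  · rw [abs_mul]
    exact mul_le_mul h2 k2 (abs_nonneg _) hA
  · rw [abs_mul]
    exact mul_le_mul h3 k3 (abs_nonneg _) hA

theorem E5_add {a b e A a' b' e' A' : ℝ} (h : E5Cl a b e A) (h' : E5Cl a' b' e' A') :
    E5Cl (a + a') (b + b') (e + e') (A + A') := by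
  obtain ⟨h1, h2, h3⟩ := h
  obtain ⟨k1, k2, k3⟩ := h'
  refine ⟨?_, (abs_add_le _ _).trans (add_le_add h2 k2), (abs_add_le _ _).trans (add_le_add h3 k3)⟩
  have e1 : a + a' - (b + b') = (a - b) + (a' - b') := by ring
  rw [e1]
  exact (abs_add_le _ _).trans (add_le_add h1 k1)

theorem E5_sub {a b e A a' b' e' A' : ℝ} (h : E5Cl a b e A) (h' : E5Cl a' b' e' A') :
    E5Cl (a - a') (b - b') (e + e') (A + A') := by
  obtain ⟨h1, h2, h3⟩ := h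
  obtain ⟨k1, k2, k3⟩ := h'
  refine ⟨?_, (abs_sub _ _).trans (add_le_add h2 k2), (abs_sub _ _).trans (add_le_add h3 k3)⟩
  have e1 : a - a' - (b - b') = (a - b) - (a' - b') := by ring
  rw [e1]
  exact (abs_sub _ _).trans (add_le_add h1 k1)

theorem E5_const (x : ℝ) {A : ℝ} (h : |x| ≤ A) : E5Cl x x 0 A := by
  refine ⟨by simp, h, h⟩

theorem E5_mono {a b e A e' A' : ℝ} (h : E5Cl a b e A) (he : e ≤ e') (hA : A ≤ A') :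
    E5Cl a b e' A' := ⟨h.1.trans he, h.2.1.trans hA, h.2.2.trans hA⟩

theorem E5_p0 : E5Cl p0 hp0 (1 / 10 ^ 7) (21 / 100) := by
  obtain ⟨h1, h2⟩ := p0_bd
  unfold hp0
  refine ⟨?_, ?_, ?_⟩ <;> rw [abs_le] <;> constructor <;> norm_num at * <;> linarith

theorem E5_p1 : E5Cl p1 hp1 (1 / 10 ^ 7) (43 / 100) := by
  obtain ⟨h1, h2⟩ := p1_bd
  unfold hp1
  refine ⟨?_, ?_, ?_⟩ <;> rw [abs_le] <;> constructor <;> norm_num at * <;> linarith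

theorem E5_p2 : E5Cl p2 hp2 (1 / 10 ^ 7) (30 / 100) := by
  obtain ⟨h1, h2⟩ := p2_bd
  unfold hp2
  refine ⟨?_, ?_, ?_⟩ <;> rw [abs_le] <;> constructor <;> norm_num at * <;> linarith

theorem E5_p3 : E5Cl p3 hp3 (1 / 10 ^ 7) (7 / 100) := by
  obtain ⟨h1, h2⟩ := p3_bd
  unfold hp3
  refine ⟨?_, ?_, ?_⟩ <;> rw [abs_le] <;> constructor <;> norm_num at * <;> linarith

theorem E5_n1 : E5Cl (n1f p1 p2 p3) (n1f hp1 hp2 hp3) (35 / 10 ^ 8) (51 / 100) := by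
  have h := E5_add (E5_mul E5_p1 E5_p1)
    (E5_mul (E5_mul (E5_const 2 (A := 2) (by norm_num)) E5_p1) (E5_add E5_p2 E5_p3))
  have h' := E5_mono h (e' := 35 / 10 ^ 8) (A' := 51 / 100) (by norm_num) (by norm_num)
  have e1 : n1f p1 p2 p3 = p1 * p1 + 2 * p1 * (p2 + p3) := by unfold n1f; ring
  have e2 : n1f hp1 hp2 hp3 = hp1 * hp1 + 2 * hp1 * (hp2 + hp3) := by unfold n1f; ring
  rw [e1, e2]
  exact h'

theorem E5_n2 : E5Cl (n2f p2 p3) (n2f hp2 hp3) (15 / 10 ^ 8) (14 / 100) := by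
  have h := E5_add (E5_mul E5_p2 E5_p2)
    (E5_mul (E5_mul (E5_const 2 (A := 2) (by norm_num)) E5_p2) E5_p3)
  have h' := E5_mono h (e' := 15 / 10 ^ 8) (A' := 14 / 100) (by norm_num) (by norm_num)
  have e1 : n2f p2 p3 = p2 * p2 + 2 * p2 * p3 := by unfold n2f; ring
  have e2 : n2f hp2 hp3 = hp2 * hp2 + 2 * hp2 * hp3 := by unfold n2f; ring
  rw [e1, e2]
  exact h'

theorem E5_n3 : E5Cl (n3f p3) (n3f hp3) (2 / 10 ^ 8) (1 / 100) := by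
  have h := E5_mul E5_p3 E5_p3
  have h' := E5_mono h (e' := 2 / 10 ^ 8) (A' := 1 / 100) (by norm_num) (by norm_num)
  have e1 : n3f p3 = p3 * p3 := by unfold n3f; ring
  have e2 : n3f hp3 = hp3 * hp3 := by unfold n3f; ring
  rw [e1, e2]
  exact h'

theorem E5_m0 : E5Cl (n1f p1 p2 p3 - n2f p2 p3 + n3f p3)
    (n1f hp1 hp2 hp3 - n2f hp2 hp3 + n3f hp3) (52 / 10 ^ 8) (66 / 100) :=
  E5_mono (E5_add (E5_sub E5_n1 E5_n2) E5_n3) (by norm_num) (by norm_num)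

theorem E5_m1 : E5Cl (n2f p2 p3 - n3f p3) (n2f hp2 hp3 - n3f hp3) (17 / 10 ^ 8) (15 / 100) :=
  E5_mono (E5_sub E5_n2 E5_n3) (by norm_num) (by norm_num)

/-- the symmetric form of `gf` -/
theorem E5_gf (a b d f ρ c : ℝ) :
    gf a b d f ρ c =
      (n1f b d f - n2f d f + n3f f) * a * (1 + ρ * c)
      + (n1f b d f - n2f d f + n3f f) * b * (ρ * (c + ρ))
      + (n1f b d f - n2f d f + n3f f) * d * (ρ ^ 2 * ((2 * c ^ 2 - 1) + ρ * c))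
      + (n1f b d f - n2f d f + n3f f) * f * (ρ ^ 3 * ((4 * c ^ 3 - 3 * c) + ρ * (2 * c ^ 2 - 1)))
      + (n2f d f - n3f f) * a * (ρ * (c + ρ * (2 * c ^ 2 - 1)))
      + (n2f d f - n3f f) * b * (ρ ^ 2 * (1 + ρ * c))
      + (n2f d f - n3f f) * d * (ρ ^ 3 * (c + ρ))
      + (n2f d f - n3f f) * f * (ρ ^ 4 * ((2 * c ^ 2 - 1) + ρ * c))
      + n3f f * a * (ρ ^ 2 * ((2 * c ^ 2 - 1) + ρ * (4 * c ^ 3 - 3 * c)))
      + n3f f * b * (ρ ^ 3 * (c + ρ * (2 * c ^ 2 - 1)))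
      + n3f f * d * (ρ ^ 4 * (1 + ρ * c))
      + n3f f * f * (ρ ^ 5 * (c + ρ)) := by
  unfold gf n1f n2f n3f
  ring

theorem E5_pow {ρ x B : ℝ} (n : ℕ) (h : |ρ| ≤ 1) (hx : |x| ≤ B) : |ρ ^ n * x| ≤ B := by
  rw [abs_mul, abs_pow]
  calc |ρ| ^ n * |x| ≤ 1 * |x| :=
        mul_le_mul_of_nonneg_right (pow_le_one₀ (abs_nonneg _) h) (abs_nonneg _)
    _ ≤ B := by rw [one_mul]; exact hx

theorem E5_term {a b e A x B : ℝ} (h : E5Cl a b e A) (hx : |x| ≤ B) : |(a - b) * x| ≤ e * B := by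
  rw [abs_mul]
  exact mul_le_mul h.1 hx (abs_nonneg _) ((abs_nonneg _).trans h.1)

theorem E5_gfdiff {c ρ : ℝ} (hc1 : -1 ≤ c) (hc2 : c ≤ 1) (h1 : -(1 / 3) ≤ ρ) (h2 : ρ ≤ 1) :
    |gf p0 p1 p2 p3 ρ c - gf hp0 hp1 hp2 hp3 ρ c| ≤ 15 / 10 ^ 5 * ((1 + c) + (1 - ρ)) := by
  have hρ : |ρ| ≤ 1 := abs_le.2 ⟨by linarith, h2⟩
  obtain ⟨τ, hτ⟩ : ∃ τ : ℝ, τ = (1 + c) + (1 - ρ) := ⟨_, rfl⟩
  have hal : 0 ≤ 1 + c := by linarith
  have hga : 0 ≤ 1 - ρ := by linarith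
  have hτ0 : 0 ≤ τ := by linarith

  have t1 : |c + 1| ≤ 1 * (1 + c) := by rw [abs_le]; constructor <;> linarith
  have t2 : |(2 * c ^ 2 - 1) - 1| ≤ 4 * (1 + c) := by
    rw [abs_le]; constructor <;> nlinarith
  have t3 : |(4 * c ^ 3 - 3 * c) + 1| ≤ 9 * (1 + c) := by
    have e : (4 * c ^ 3 - 3 * c) + 1 = (1 + c) * (2 * c - 1) ^ 2 := by ring
    rw [e, abs_mul, abs_of_nonneg hal, abs_of_nonneg (sq_nonneg _)]
    have : (2 * c - 1) ^ 2 ≤ 9 := by nlinarith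
    nlinarith
  have key : ∀ (x y B1 B2 sg : ℝ), |sg| = 1 → |x - sg| ≤ B1 * (1 + c) → |y + sg| ≤ B2 * (1 + c) →
      B1 + B2 ≤ 13 → |x + ρ * y| ≤ 13 * τ := by
    intro x y B1 B2 sg hs hx hy hB
    have e : x + ρ * y = (x - sg) + ρ ^ 1 * (y + sg) + sg * (1 - ρ) := by ring
    rw [e]
    have h3 : |sg * (1 - ρ)| = 1 - ρ := by rw [abs_mul, hs, one_mul, abs_of_nonneg hga]
    have h4 := E5_pow 1 hρ hy
    calc |(x - sg) + ρ ^ 1 * (y + sg) + sg * (1 - ρ)|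
        ≤ |(x - sg) + ρ ^ 1 * (y + sg)| + |sg * (1 - ρ)| := abs_add_le _ _
      _ ≤ |x - sg| + |ρ ^ 1 * (y + sg)| + |sg * (1 - ρ)| := by
        gcongr; exact abs_add_le _ _
      _ ≤ B1 * (1 + c) + B2 * (1 + c) + (1 - ρ) := by rw [h3]; linarith
      _ ≤ 13 * τ := by rw [hτ]; nlinarith
  have r01 : |1 + ρ * c| ≤ 13 * τ := key 1 c 0 1 1 (by norm_num) (by simp) t1 (by norm_num)
  have r10 : |c + ρ| ≤ 13 * τ := by
    have := key c 1 1 0 (-1) (by norm_num) (by simpa using t1) (by simp) (by norm_num)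
    simpa using this
  have r21 : |(2 * c ^ 2 - 1) + ρ * c| ≤ 13 * τ :=
    key (2 * c ^ 2 - 1) c 4 1 1 (by norm_num) t2 t1 (by norm_num)
  have r32 : |(4 * c ^ 3 - 3 * c) + ρ * (2 * c ^ 2 - 1)| ≤ 13 * τ :=
    key (4 * c ^ 3 - 3 * c) (2 * c ^ 2 - 1) 9 4 (-1) (by norm_num) (by simpa using t3)
      (by simpa [sub_eq_add_neg] using t2) (by norm_num)
  have r12 : |c + ρ * (2 * c ^ 2 - 1)| ≤ 13 * τ :=
    key c (2 * c ^ 2 - 1) 1 4 (-1) (by norm_num) (by simpa using t1)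
      (by simpa [sub_eq_add_neg] using t2) (by norm_num)
  have r23 : |(2 * c ^ 2 - 1) + ρ * (4 * c ^ 3 - 3 * c)| ≤ 13 * τ :=
    key (2 * c ^ 2 - 1) (4 * c ^ 3 - 3 * c) 4 9 1 (by norm_num) t2 t3 (by norm_num)
  have pw : ∀ (n : ℕ) (x : ℝ), |x| ≤ 13 * τ → |ρ ^ n * x| ≤ 13 * τ := fun n x hx => E5_pow n hρ hx
  have a1 := E5_term (E5_mul E5_m0 E5_p0) r01
  have a2 := E5_term (E5_mul E5_m0 E5_p1) (pw 1 _ r10)
  have a3 := E5_term (E5_mul E5_m0 E5_p2) (pw 2 _ r21)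
  have a4 := E5_term (E5_mul E5_m0 E5_p3) (pw 3 _ r32)
  have a5 := E5_term (E5_mul E5_m1 E5_p0) (pw 1 _ r12)
  have a6 := E5_term (E5_mul E5_m1 E5_p1) (pw 2 _ r01)
  have a7 := E5_term (E5_mul E5_m1 E5_p2) (pw 3 _ r10)
  have a8 := E5_term (E5_mul E5_m1 E5_p3) (pw 4 _ r21)
  have a9 := E5_term (E5_mul E5_n3 E5_p0) (pw 2 _ r23)
  have a10 := E5_term (E5_mul E5_n3 E5_p1) (pw 3 _ r12)
  have a11 := E5_term (E5_mul E5_n3 E5_p2) (pw 4 _ r01)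
  have a12 := E5_term (E5_mul E5_n3 E5_p3) (pw 5 _ r10)
  rw [pow_one] at a2 a5
  have hfin : gf p0 p1 p2 p3 ρ c - gf hp0 hp1 hp2 hp3 ρ c =
      ((n1f p1 p2 p3 - n2f p2 p3 + n3f p3) * p0 - (n1f hp1 hp2 hp3 - n2f hp2 hp3 + n3f hp3) * hp0)
          * (1 + ρ * c)
      + ((n1f p1 p2 p3 - n2f p2 p3 + n3f p3) * p1 - (n1f hp1 hp2 hp3 - n2f hp2 hp3 + n3f hp3) * hp1)
          * (ρ * (c + ρ))
      + ((n1f p1 p2 p3 - n2f p2 p3 + n3f p3) * p2 - (n1f hp1 hp2 hp3 - n2f hp2 hp3 + n3f hp3) * hp2)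
          * (ρ ^ 2 * ((2 * c ^ 2 - 1) + ρ * c))
      + ((n1f p1 p2 p3 - n2f p2 p3 + n3f p3) * p3 - (n1f hp1 hp2 hp3 - n2f hp2 hp3 + n3f hp3) * hp3)
          * (ρ ^ 3 * ((4 * c ^ 3 - 3 * c) + ρ * (2 * c ^ 2 - 1)))
      + ((n2f p2 p3 - n3f p3) * p0 - (n2f hp2 hp3 - n3f hp3) * hp0)
          * (ρ * (c + ρ * (2 * c ^ 2 - 1)))
      + ((n2f p2 p3 - n3f p3) * p1 - (n2f hp2 hp3 - n3f hp3) * hp1) * (ρ ^ 2 * (1 + ρ * c))
      + ((n2f p2 p3 - n3f p3) * p2 - (n2f hp2 hp3 - n3f hp3) * hp2) * (ρ ^ 3 * (c + ρ))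
      + ((n2f p2 p3 - n3f p3) * p3 - (n2f hp2 hp3 - n3f hp3) * hp3)
          * (ρ ^ 4 * ((2 * c ^ 2 - 1) + ρ * c))
      + (n3f p3 * p0 - n3f hp3 * hp0) * (ρ ^ 2 * ((2 * c ^ 2 - 1) + ρ * (4 * c ^ 3 - 3 * c)))
      + (n3f p3 * p1 - n3f hp3 * hp1) * (ρ ^ 3 * (c + ρ * (2 * c ^ 2 - 1)))
      + (n3f p3 * p2 - n3f hp3 * hp2) * (ρ ^ 4 * (1 + ρ * c))
      + (n3f p3 * p3 - n3f hp3 * hp3) * (ρ ^ 5 * (c + ρ)) := by
    rw [E5_gf p0 p1 p2 p3, E5_gf hp0 hp1 hp2 hp3]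
    ring
  rw [hfin, ← hτ]
  rw [abs_le] at a1 a2 a3 a4 a5 a6 a7 a8 a9 a10 a11 a12 ⊢
  constructor
  · linarith [a1.1, a2.1, a3.1, a4.1, a5.1, a6.1, a7.1, a8.1, a9.1, a10.1, a11.1, a12.1]
  · linarith [a1.2, a2.2, a3.2, a4.2, a5.2, a6.2, a7.2, a8.2, a9.2, a10.2, a11.2, a12.2]

theorem E5_prod {s x a g K L : ℝ} (ha : 0 ≤ a) (hg : 0 ≤ g) (hs : s ^ 2 ≤ K * a)
    (hx : x ^ 2 ≤ L * g) (hK : 0 ≤ K) (hKL : K * L ≤ 4) : |s * x| ≤ a + g := by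
  apply abs_le_of_sq_le_sq _ (by linarith)
  have h1 : (s * x) ^ 2 ≤ (K * a) * (L * g) := by
    rw [mul_pow]
    exact mul_le_mul hs hx (sq_nonneg _) (mul_nonneg hK ha)
  have h2 : (K * a) * (L * g) ≤ 4 * (a * g) := by
    have : (K * a) * (L * g) = (K * L) * (a * g) := by ring
    rw [this]
    exact mul_le_mul_of_nonneg_right hKL (mul_nonneg ha hg)
  nlinarith [sq_nonneg (a - g)]

theorem base {c s ρ η r1 r2 h3 : ℝ} (hcs : c ^ 2 + s ^ 2 = 1) (h : ShapeC ρ η r1 r2 h3) :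
    1 / 1000 * ((1 + c) + (1 - ρ)) ≤ gf p0 p1 p2 p3 ρ c
      + s * (p1 ^ 2 * (η + r1) * I1f p0 p2 p3 ρ c
        + p2 ^ 2 * (14 / 10 * ρ * η + r2) * I2f p0 p1 p3 ρ c
        + p3 ^ 2 * h3 * I3f p0 p1 p2 ρ c) := by
  have hb := base_hat hcs h
  have hc1 : -1 ≤ c := by nlinarith [sq_nonneg s, sq_nonneg (c - 1)]
  have hc2 : c ≤ 1 := by nlinarith [sq_nonneg s, sq_nonneg (c + 1)]
  have hg := E5_gfdiff hc1 hc2 h.lo h.hi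
  have hal : 0 ≤ 1 + c := by linarith
  have hga : 0 ≤ 1 - ρ := by linarith [h.hi]
  have hlo := h.lo
  have hhi := h.hi
  have hρ : |ρ| ≤ 1 := abs_le.2 ⟨by linarith, hhi⟩
  have hc : |c| ≤ 1 := abs_le.2 ⟨hc1, hc2⟩
  have hs : s ^ 2 ≤ 2 * (1 + c) := by nlinarith
  have b1 : |s * η| ≤ (1 + c) + (1 - ρ) := by
    refine E5_prod (K := 2) (L := 6668 / 10000) hal hga hs ?_ (by norm_num) (by norm_num)
    have := h.et
    have h2 := min_le_right (1 : ℝ) (2 * (1 - ρ))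
    linarith
  have b2 : |s * r1| ≤ (1 + c) + (1 - ρ) := by
    refine E5_prod (K := 2) (L := 1) hal hga hs ?_ (by norm_num) (by norm_num)
    have := h.c1
    have h2 := min_le_right (1 : ℝ) (2 * (1 - ρ))
    norm_num at this
    linarith
  have b3 : |s * r2| ≤ (1 + c) + (1 - ρ) := by
    refine E5_prod (K := 2) (L := 1) hal hga hs ?_ (by norm_num) (by norm_num)
    have := h.c2
    have h2 := min_le_right (1 : ℝ) (2 * (1 - ρ ^ 2))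
    have h4 : 1 - ρ ^ 2 ≤ 2 * (1 - ρ) := by nlinarith
    norm_num at this
    linarith
  have b4 : |s * h3| ≤ (1 + c) + (1 - ρ) := by
    refine E5_prod (K := 2) (L := 2) hal hga hs ?_ (by norm_num) (by norm_num)
    have := h.c3
    have h2 := min_le_right (1 : ℝ) (2 * (1 - ρ ^ 3))
    have h4 : 1 - ρ ^ 3 ≤ 3 * (1 - ρ) := by
      have : 3 * (1 - ρ) - (1 - ρ ^ 3) = (1 - ρ) * (2 - ρ - ρ ^ 2) := by ring
      have h5 : 0 ≤ (1 - ρ) * (2 - ρ - ρ ^ 2) := mul_nonneg hga (by nlinarith)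
      linarith
    linarith
  have hρ1 : ∀ n : ℕ, |ρ ^ n| ≤ 1 := fun n => by
    rw [abs_pow]; exact pow_le_one₀ (abs_nonneg _) hρ
  have hρc : ∀ n : ℕ, |ρ ^ n * c| ≤ 1 := fun n => E5_pow n hρ hc
  have k1 : E5Cl (p1 ^ 2 * I1f p0 p2 p3 ρ c) (hp1 ^ 2 * I1f hp0 hp2 hp3 ρ c) (1 / 10 ^ 6) 1 := by
    have hh := E5_mul (E5_mul E5_p1 E5_p1)
      (E5_sub (E5_sub E5_p0 (E5_mul E5_p2 (E5_const (ρ ^ 2) (hρ1 2))))
        (E5_mul (E5_mul (E5_const 2 (A := 2) (by norm_num)) E5_p3) (E5_const (ρ ^ 3 * c) (hρc 3))))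
    have h' := E5_mono hh (e' := 1 / 10 ^ 6) (A' := 1) (by norm_num) (by norm_num)
    have e1 : ∀ a b d f : ℝ, b ^ 2 * I1f a d f ρ c
        = b * b * (a - d * ρ ^ 2 - 2 * f * (ρ ^ 3 * c)) := by
      intro a b d f; unfold I1f; ring
    rw [e1 p0 p1 p2 p3, e1 hp0 hp1 hp2 hp3]
    exact h'
  have k2 : E5Cl (p2 ^ 2 * I2f p0 p1 p3 ρ c) (hp2 ^ 2 * I2f hp0 hp1 hp3 ρ c) (1 / 10 ^ 6) 1 := by
    have hh := E5_mul (E5_mul E5_p2 E5_p2)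
      (E5_sub (E5_add (E5_mul (E5_mul (E5_const 2 (A := 2) (by norm_num)) E5_p0) (E5_const c hc))
        (E5_mul E5_p1 (E5_const ρ hρ)))
        (E5_mul E5_p3 (E5_const (ρ ^ 3) (hρ1 3))))
    have h' := E5_mono hh (e' := 1 / 10 ^ 6) (A' := 1) (by norm_num) (by norm_num)
    have e1 : ∀ a b d f : ℝ, d ^ 2 * I2f a b f ρ c
        = d * d * (2 * a * c + b * ρ - f * ρ ^ 3) := by
      intro a b d f; unfold I2f; ring
    rw [e1 p0 p1 p2 p3, e1 hp0 hp1 hp2 hp3]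
    exact h'
  have k3 : E5Cl (p3 ^ 2 * I3f p0 p1 p2 ρ c) (hp3 ^ 2 * I3f hp0 hp1 hp2 ρ c) (1 / 10 ^ 6) 1 := by
    have hc4 : |4 * c ^ 2 - 1| ≤ 3 := by rw [abs_le]; constructor <;> nlinarith
    have hh := E5_mul (E5_mul E5_p3 E5_p3)
      (E5_add (E5_add (E5_mul (E5_const (4 * c ^ 2 - 1) hc4) E5_p0)
        (E5_mul (E5_mul (E5_const 2 (A := 2) (by norm_num)) E5_p1) (E5_const (ρ ^ 1 * c) (hρc 1))))
        (E5_mul E5_p2 (E5_const (ρ ^ 2) (hρ1 2))))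
    have h' := E5_mono hh (e' := 1 / 10 ^ 6) (A' := 1) (by norm_num) (by norm_num)
    have e1 : ∀ a b d f : ℝ, f ^ 2 * I3f a b d ρ c
        = f * f * ((4 * c ^ 2 - 1) * a + 2 * b * (ρ ^ 1 * c) + d * ρ ^ 2) := by
      intro a b d f; unfold I3f; ring
    rw [e1 p0 p1 p2 p3, e1 hp0 hp1 hp2 hp3]
    exact h'
  obtain ⟨τ, hτ⟩ : ∃ τ : ℝ, τ = (1 + c) + (1 - ρ) := ⟨_, rfl⟩
  rw [← hτ] at hg b1 b2 b3 b4 hb ⊢
  have hτ0 : 0 ≤ τ := by linarith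
  have d1 := E5_term k1 b1
  have d2 := E5_term k1 b2
  have d3 := E5_term k2 (E5_pow 1 hρ b1)
  have d4 := E5_term k2 b3
  have d5 := E5_term k3 b4
  have hfin : gf p0 p1 p2 p3 ρ c
      + s * (p1 ^ 2 * (η + r1) * I1f p0 p2 p3 ρ c
        + p2 ^ 2 * (14 / 10 * ρ * η + r2) * I2f p0 p1 p3 ρ c
        + p3 ^ 2 * h3 * I3f p0 p1 p2 ρ c)
      = (gf hp0 hp1 hp2 hp3 ρ c
      + s * (hp1 ^ 2 * (η + r1) * I1f hp0 hp2 hp3 ρ c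
        + hp2 ^ 2 * (14 / 10 * ρ * η + r2) * I2f hp0 hp1 hp3 ρ c
        + hp3 ^ 2 * h3 * I3f hp0 hp1 hp2 ρ c))
      + (gf p0 p1 p2 p3 ρ c - gf hp0 hp1 hp2 hp3 ρ c)
      + ((p1 ^ 2 * I1f p0 p2 p3 ρ c - hp1 ^ 2 * I1f hp0 hp2 hp3 ρ c) * (s * η)
      + (p1 ^ 2 * I1f p0 p2 p3 ρ c - hp1 ^ 2 * I1f hp0 hp2 hp3 ρ c) * (s * r1)
      + 14 / 10 * ((p2 ^ 2 * I2f p0 p1 p3 ρ c - hp2 ^ 2 * I2f hp0 hp1 hp3 ρ c)
          * (ρ ^ 1 * (s * η)))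
      + (p2 ^ 2 * I2f p0 p1 p3 ρ c - hp2 ^ 2 * I2f hp0 hp1 hp3 ρ c) * (s * r2)
      + (p3 ^ 2 * I3f p0 p1 p2 ρ c - hp3 ^ 2 * I3f hp0 hp1 hp2 ρ c) * (s * h3)) := by ring
  rw [hfin]
  rw [abs_le] at hg d1 d2 d3 d4 d5
  linarith [hg.1, d1.1, d2.1, d3.1, d4.1, d5.1]

end MP18
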