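import Pool.Agent.Lib.MP_18566a_pr.T.E5

set_option autoImplicit false

namespace MP18

open Finset PowerSeries

theorem E6_prod (u v a0 a1 a2 a3 b0 b1 b2 b3 : ℂ) (h : u * v = 1) :
    (a0 + a1 * u + a2 * u ^ 2 + a3 * u ^ 3) * (b0 + b1 * v + b2 * v ^ 2 + b3 * v ^ 3)
      = (a0 * b0 + a1 * b1 + a2 * b2 + a3 * b3) + (a1 * b0 + a2 * b1 + a3 * b2) * u
        + (a2 * b0 + a3 * b1) * u ^ 2 + a3 * b0 * u ^ 3 + (a0 * b1 + a1 * b2 + a2 * b3) * v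
        + (a0 * b2 + a1 * b3) * v ^ 2 + a0 * b3 * v ^ 3 := by
  linear_combination (a1 * b1 + a2 * b2 * (u * v + 1) + a3 * b3 * ((u * v) ^ 2 + u * v + 1)
    + a2 * b1 * u + a3 * b2 * u * (u * v + 1) + a3 * b1 * u ^ 2 + a1 * b2 * v
    + a2 * b3 * v * (u * v + 1) + a1 * b3 * v ^ 2) * h

theorem E6_re {u : ℂ} {ρ e1 e2 e3 c s m0 n1 n2 n3 P0 P1 P2 P3 : ℝ} (hcs : c ^ 2 + s ^ 2 = 1)
    (hre : u.re = c) (him : u.im = s) :
    (((m0 : ℂ) + n1 * (ρ * u) + n2 * (ρ * u) ^ 2 + n3 * (ρ * u) ^ 3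
        - Complex.I * (e1 * u + e2 * u ^ 2 + e3 * u ^ 3))
      * (starRingEnd ℂ) ((P0 : ℂ) + P1 * (ρ * u) + P2 * (ρ * u) ^ 2 + P3 * (ρ * u) ^ 3)).re
      = (m0 * P0 + (m0 * P1 + n1 * P0) * ρ * c + (m0 * P2 + n2 * P0) * ρ ^ 2 * (2 * c ^ 2 - 1)
        + (m0 * P3 + n3 * P0) * ρ ^ 3 * (4 * c ^ 3 - 3 * c) + n1 * P1 * ρ ^ 2
        + (n1 * P2 + n2 * P1) * ρ ^ 3 * c + (n1 * P3 + n3 * P1) * ρ ^ 4 * (2 * c ^ 2 - 1)
        + n2 * P2 * ρ ^ 4 + (n2 * P3 + n3 * P2) * ρ ^ 5 * c + n3 * P3 * ρ ^ 6)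
        + s * (e1 * I1f P0 P2 P3 ρ c + e2 * I2f P0 P1 P3 ρ c + e3 * I3f P0 P1 P2 ρ c) := by
  set v : ℂ := (starRingEnd ℂ) u with hv
  have huv : u * v = 1 := by
    apply Complex.ext
    · simp only [Complex.mul_re, hv, Complex.conj_re, Complex.conj_im, hre, him, Complex.one_re]
      linear_combination hcs
    · simp only [Complex.mul_im, hv, Complex.conj_re, Complex.conj_im, hre, him, Complex.one_im]
      ring
  have hvre : v.re = c := by rw [hv, Complex.conj_re, hre]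
  have hvim : v.im = -s := by rw [hv, Complex.conj_im, him]
  have u2re : (u ^ 2).re = 2 * c ^ 2 - 1 := by
    rw [pow_two, Complex.mul_re, hre, him]
    linear_combination (-1 : ℝ) * hcs
  have u2im : (u ^ 2).im = 2 * c * s := by
    rw [pow_two, Complex.mul_im, hre, him]; ring
  have u3re : (u ^ 3).re = 4 * c ^ 3 - 3 * c := by
    rw [pow_succ, Complex.mul_re, u2re, u2im, hre, him]
    linear_combination (-2 * c) * hcs
  have u3im : (u ^ 3).im = s * (4 * c ^ 2 - 1) := by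
    rw [pow_succ, Complex.mul_im, u2re, u2im, hre, him]; ring
  have v2re : (v ^ 2).re = 2 * c ^ 2 - 1 := by
    rw [pow_two, Complex.mul_re, hvre, hvim]
    linear_combination (-1 : ℝ) * hcs
  have v2im : (v ^ 2).im = -(2 * c * s) := by
    rw [pow_two, Complex.mul_im, hvre, hvim]; ring
  have v3re : (v ^ 3).re = 4 * c ^ 3 - 3 * c := by
    rw [pow_succ, Complex.mul_re, v2re, v2im, hvre, hvim]
    linear_combination (-2 * c) * hcs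
  have v3im : (v ^ 3).im = -(s * (4 * c ^ 2 - 1)) := by
    rw [pow_succ, Complex.mul_im, v2re, v2im, hvre, hvim]; ring
  have hconj : (starRingEnd ℂ) ((P0 : ℂ) + P1 * (ρ * u) + P2 * (ρ * u) ^ 2 + P3 * (ρ * u) ^ 3)
      = (P0 : ℂ) + ((P1 * ρ : ℝ) : ℂ) * v + ((P2 * ρ ^ 2 : ℝ) : ℂ) * v ^ 2
        + ((P3 * ρ ^ 3 : ℝ) : ℂ) * v ^ 3 := by
    simp only [map_add, map_mul, map_pow, Complex.conj_ofReal, ← hv]
    push_cast
    ring
  have hF : ((m0 : ℂ) + n1 * (ρ * u) + n2 * (ρ * u) ^ 2 + n3 * (ρ * u) ^ 3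
        - Complex.I * (e1 * u + e2 * u ^ 2 + e3 * u ^ 3))
      = (m0 : ℂ) + (((n1 * ρ : ℝ) : ℂ) - Complex.I * (e1 : ℂ)) * u
        + (((n2 * ρ ^ 2 : ℝ) : ℂ) - Complex.I * (e2 : ℂ)) * u ^ 2
        + (((n3 * ρ ^ 3 : ℝ) : ℂ) - Complex.I * (e3 : ℂ)) * u ^ 3 := by
    push_cast
    ring
  rw [hconj, hF, E6_prod _ _ _ _ _ _ _ _ _ _ huv]
  simp only [Complex.add_re, Complex.add_im, Complex.mul_re, Complex.mul_im, Complex.sub_re,
    Complex.sub_im, Complex.ofReal_re, Complex.ofReal_im, Complex.I_re, Complex.I_im, hre, him,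
    hvre, hvim, u2re, u2im, u3re, u3im, v2re, v2im, v3re, v3im]
  unfold I1f I2f I3f
  ring

/-- the bound of the error term -/
theorem E6_err {u : ℂ} {ρ η r1 r2 h3 g : ℝ} (hu : ‖u‖ = 1) (h : ShapeC ρ η r1 r2 h3)
    (hg : 0 ≤ g) (hg2 : g ^ 2 = 1 - ρ) :
    ‖(((p1 ^ 2 * (η + r1) : ℝ) : ℂ) * u + ((p2 ^ 2 * (14 / 10 * ρ * η + r2) : ℝ) : ℂ) * u ^ 2
      + ((p3 ^ 2 * h3 : ℝ) : ℂ) * u ^ 3)‖ ≤ g := by
  obtain ⟨lo, hi, et, c1, c2, c3⟩ := h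
  have m1 := min_le_right (1 : ℝ) (2 * (1 - ρ))
  have m2 := min_le_right (1 : ℝ) (2 * (1 - ρ ^ 2))
  have m3 := min_le_right (1 : ℝ) (2 * (1 - ρ ^ 3))
  have hρ : |ρ| ≤ 1 := abs_le.mpr ⟨by linarith, hi⟩
  have e1 : |η| ≤ g := by
    apply abs_le_of_sq_le_sq _ hg
    nlinarith
  have e2 : |r1| ≤ g := by
    apply abs_le_of_sq_le_sq _ hg
    nlinarith
  have e3 : |r2| ≤ g := by
    apply abs_le_of_sq_le_sq _ hg
    have : (1 - ρ ^ 2) ≤ 2 * (1 - ρ) := by nlinarith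
    nlinarith
  have e4 : |h3| ≤ 2 * g := by
    apply abs_le_of_sq_le_sq _ (by linarith)
    have : (1 - ρ ^ 3) ≤ 3 * (1 - ρ) := by nlinarith [sq_nonneg ρ, sq_nonneg (ρ - 1)]
    nlinarith
  have f1 : |η + r1| ≤ 2 * g := (abs_add_le _ _).trans (by linarith)
  have f2 : |14 / 10 * ρ * η + r2| ≤ 24 / 10 * g := by
    refine (abs_add_le _ _).trans ?_
    have : |14 / 10 * ρ * η| ≤ 14 / 10 * g := by
      rw [abs_mul, abs_mul, abs_of_pos (by norm_num : (0 : ℝ) < 14 / 10)]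
      have : |ρ| * |η| ≤ 1 * g := mul_le_mul hρ e1 (abs_nonneg _) (by norm_num)
      linarith
    linarith
  have q1' : p1 ^ 2 ≤ 0.185 := by nlinarith [p1_bd.1, p1_bd.2]
  have q2' : p2 ^ 2 ≤ 0.09 := by nlinarith [p2_bd.1, p2_bd.2]
  have q3' : p3 ^ 2 ≤ 0.01 := by nlinarith [p3_bd.1, p3_bd.2]
  refine (norm_add₃_le).trans ?_
  rw [norm_mul, norm_mul, norm_mul, norm_pow, norm_pow, hu, Complex.norm_real, Complex.norm_real,
    Complex.norm_real, Real.norm_eq_abs, Real.norm_eq_abs, Real.norm_eq_abs, abs_mul, abs_mul,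
    abs_mul, abs_of_nonneg (sq_nonneg p1), abs_of_nonneg (sq_nonneg p2),
    abs_of_nonneg (sq_nonneg p3)]
  have g1 : p1 ^ 2 * |η + r1| ≤ 0.185 * (2 * g) :=
    mul_le_mul q1' f1 (abs_nonneg _) (by norm_num)
  have g2 : p2 ^ 2 * |14 / 10 * ρ * η + r2| ≤ 0.09 * (24 / 10 * g) :=
    mul_le_mul q2' f2 (abs_nonneg _) (by norm_num)
  have g3 : p3 ^ 2 * |h3| ≤ 0.01 * (2 * g) :=
    mul_le_mul q3' e4 (abs_nonneg _) (by norm_num)
  linarith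

theorem E6_ff : 0 < ff ∧ ff ≤ 1 / 10 ^ 10 := by
  constructor
  · exact ff_pos
  · unfold ff
    norm_num

/-- real part of a product is at least minus the product of the norms -/
theorem E6_re_ge (a b : ℂ) : -(‖a‖ * ‖b‖) ≤ (a * (starRingEnd ℂ) b).re := by
  have h := Complex.abs_re_le_norm (a * (starRingEnd ℂ) b)
  rw [norm_mul, Complex.norm_conj] at h
  exact (abs_le.mp h).1

theorem E6_n1 : n1f p1 p2 p3 ≤ 0.5 ∧ 0.49 ≤ n1f p1 p2 p3 := by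
  have hp1 := p1_bd
  have hp2 := p2_bd
  have hp3 := p3_bd
  rw [n1f]
  constructor <;> nlinarith [hp1.1, hp1.2, hp2.1, hp2.2, hp3.1, hp3.2]

theorem E6_n2 : n2f p2 p3 ≤ 0.13 ∧ 0.12 ≤ n2f p2 p3 := by
  have hp2 := p2_bd
  have hp3 := p3_bd
  rw [n2f]
  constructor <;> nlinarith [hp2.1, hp2.2, hp3.1, hp3.2]

theorem E6_n3 : n3f p3 ≤ 0.01 ∧ 0 ≤ n3f p3 := by
  have hp3 := p3_bd
  rw [n3f]
  constructor <;> nlinarith [hp3.1, hp3.2]

theorem E6_Zaux {ρ c z t : ℝ} (hlo : -(1 / 3) ≤ ρ) (hhi : ρ ≤ 1) (hc1 : 0 ≤ 1 + c)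
    (ht2 : t ^ 2 = (1 + c) + (1 - ρ)) (hz : z ^ 2 = (1 - ρ) ^ 2 + 2 * ρ * (1 + c)) :
    z ^ 2 ≤ 2 * t ^ 2 := by
  rw [ht2, hz]
  have e2 : (1 - ρ) ^ 2 ≤ 2 * (1 - ρ) := by nlinarith
  have e3 : 2 * ρ * (1 + c) ≤ 2 * (1 + c) := by nlinarith
  linarith

theorem E6_Zaux2 {z t : ℝ} (ht : 0 ≤ t) (h : z ^ 2 ≤ 2 * t ^ 2) : z ≤ 15 / 10 * t := by
  have h2 : z ^ 2 ≤ (15 / 10 * t) ^ 2 := by nlinarith [sq_nonneg t]
  exact (abs_le_of_sq_le_sq' h2 (by linarith)).2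

theorem E6_A1aux {S0 x y N : ℝ} (hS0 : 0 ≤ S0) (hx : -y ≤ x)
    (e1 : N = S0 ^ 2 + 2 * S0 * x + y ^ 2) :
    1 / 2 * S0 ^ 2 - 2 * S0 * y ≤ 15 / 10 * N - S0 * (S0 + x) := by
  rw [e1]
  have e4 : 0 ≤ y ^ 2 := sq_nonneg _
  have e5 : S0 * (-y) ≤ S0 * x := mul_le_mul_of_nonneg_left hx hS0
  nlinarith

theorem E6_B1 {S0 b f N y : ℝ} (h1 : 4.8 * f ≤ b) (h2 : b ≤ 4.81 * f) (hf : 0 < f) (hy : 0 ≤ y)
    (h3 : 0.006389896 ≤ S0) (h4 : S0 ≤ 0.006389897) (h : 1 / 2 * S0 ^ 2 - 2 * S0 * y ≤ N) :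
    97 / 10 ^ 6 * f - 1 / 10 * f * y ≤ b * N := by
  have hb : 0 < b := by linarith
  have e1 : b * (1 / 2 * S0 ^ 2 - 2 * S0 * y) ≤ b * N := mul_le_mul_of_nonneg_left h hb.le
  have e2' : 0.0000408 ≤ S0 ^ 2 := by nlinarith
  have e3 : 97 / 10 ^ 6 * f ≤ b * (1 / 2 * S0 ^ 2) := by
    have : (4.8 * f) * (1 / 2 * 0.0000408) ≤ b * (1 / 2 * S0 ^ 2) :=
      mul_le_mul h1 (by linarith) (by norm_num) hb.le
    linarith
  have e4 : b * (2 * S0 * y) ≤ 1 / 10 * f * y := by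
    have : b * (2 * S0) ≤ (4.81 * f) * (2 * 0.0064) :=
      mul_le_mul h2 (by linarith) (by linarith) (by positivity)
    have e5 : b * (2 * S0) ≤ 1 / 10 * f := by linarith
    calc b * (2 * S0 * y) = (b * (2 * S0)) * y := by ring
      _ ≤ (1 / 10 * f) * y := mul_le_mul_of_nonneg_right e5 hy
  have e6 : b * (1 / 2 * S0 ^ 2 - 2 * S0 * y) = b * (1 / 2 * S0 ^ 2) - b * (2 * S0 * y) := by ring
  linarith

theorem E6_B4 {f t R : ℝ} (hf : 0 < f) (hf' : f ≤ 1 / 10 ^ 10) (ht : 0 ≤ t)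
    (h : (1 - f) * (1 / 1000 * t ^ 2) - f * (25 / 10 * t) ≤ R) :
    9 / 10 ^ 4 * t ^ 2 - 3 * f * t ≤ (1 - f) ^ 2 * R := by
  have e1 := mul_le_mul_of_nonneg_left h (sq_nonneg (1 - f))
  have e2 : (1 - f) ^ 2 ≤ 1 := by nlinarith
  have e3 : (1 - f) ^ 2 * (f * (25 / 10 * t)) ≤ 1 * (f * (25 / 10 * t)) :=
    mul_le_mul_of_nonneg_right e2 (by positivity)
  have e4 : 0.9 ≤ (1 - f) ^ 2 * (1 - f) := by
    have h1 : (0.99 : ℝ) ≤ 1 - f := by linarith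
    have h2 : (0.98 : ℝ) ≤ (1 - f) ^ 2 := by nlinarith
    have h3 : (0.98 : ℝ) * 0.99 ≤ (1 - f) ^ 2 * (1 - f) :=
      mul_le_mul h2 h1 (by norm_num) (by positivity)
    linarith
  have e5 : 0.9 * (1 / 1000 * t ^ 2) ≤ (1 - f) ^ 2 * (1 - f) * (1 / 1000 * t ^ 2) :=
    mul_le_mul_of_nonneg_right e4 (by positivity)
  have e6 : 0 ≤ f * t := by positivity
  have e7 : (1 - f) ^ 2 * ((1 - f) * (1 / 1000 * t ^ 2) - f * (25 / 10 * t))
      = (1 - f) ^ 2 * (1 - f) * (1 / 1000 * t ^ 2) - (1 - f) ^ 2 * (f * (25 / 10 * t)) := by ring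
  rw [e7] at e1
  linarith

theorem E6_B6 {f t : ℝ} (hf : 0 < f) (hf' : f ≤ 1 / 10 ^ 10) :
    0 < 97 / 10 ^ 6 * f + 9 / 10 ^ 4 * t ^ 2 - 12 * f * t - 12 * f ^ 2 := by
  have e1 := sq_nonneg (t - 20000 / 3 * f)
  have e2 : 9 / 10 ^ 4 * t ^ 2 - 12 * f * t
      = 9 / 10 ^ 4 * (t - 20000 / 3 * f) ^ 2 - 40000 * f ^ 2 := by ring
  have e3 : f ^ 2 ≤ 1 / 10 ^ 10 * f := by
    rw [pow_two]; exact mul_le_mul_of_nonneg_right hf' hf.le
  linarith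

theorem PRK_abs {u T T2 : ℂ} {ρ η r1 r2 h3 : ℝ} (hu : ‖u‖ = 1) (hT : ‖T‖ ≤ 1) (hT2 : ‖T2‖ ≤ 1)
    (h : ShapeC ρ η r1 r2 h3) {X S S2 : ℂ} (hX : X = ρ * u)
    (hS : S = phi + ff * T + q1 * X + q2 * X ^ 2 + q3 * X ^ 3)
    (hS2 : S2 = phi ^ 2 + 2 * phi * (ff * T + q1 * X + q2 * X ^ 2 + q3 * X ^ 3)
      + ff ^ 2 * T2 + 2 * ff * (q1 * X + q2 * X ^ 2 + q3 * X ^ 3)
      + q1 ^ 2 * (X + Complex.I * ((η + r1 : ℝ) : ℂ) * u) + 2 * q1 * q2 * X ^ 2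
      + q2 ^ 2 * (X ^ 2 + Complex.I * ((14 / 10 * ρ * η + r2 : ℝ) : ℂ) * u ^ 2)
      + 2 * (q1 + q2) * q3 * X ^ 3 + q3 ^ 2 * (X ^ 3 + Complex.I * (h3 : ℂ) * u ^ 3)) :
    0 < ((2 * S - S2) * (starRingEnd ℂ) S).re + 15 / 10 * bb * ‖S‖ ^ 2 := by
  have hf := E6_ff.1
  have hf' := E6_ff.2
  have lo := h.lo
  have hi := h.hi
  have hρ : |ρ| ≤ 1 := abs_le.mpr ⟨by linarith, hi⟩
  set c : ℝ := u.re with hc
  set s : ℝ := u.im with hs
  have hcs : c ^ 2 + s ^ 2 = 1 := by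
    have h1 := Complex.sq_norm u
    rw [hu, Complex.normSq_apply] at h1
    rw [hc, hs]
    linarith
  have hc1 : 0 ≤ 1 + c := by nlinarith [sq_nonneg s]

  have hp0 := p0_bd
  have hp1 := p1_bd
  have hp2 := p2_bd
  have hp3 := p3_bd
  have hbb := bb_bd
  have hS0 := S0_bd
  have hphi := phi_bd

  set E : ℂ := ((p1 ^ 2 * (η + r1) : ℝ) : ℂ) * u
      + ((p2 ^ 2 * (14 / 10 * ρ * η + r2) : ℝ) : ℂ) * u ^ 2
      + ((p3 ^ 2 * h3 : ℝ) : ℂ) * u ^ 3 with hE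
  set P : ℂ := (p0 : ℂ) + p1 * (ρ * u) + p2 * (ρ * u) ^ 2 + p3 * (ρ * u) ^ 3 with hP
  set n1 : ℝ := n1f p1 p2 p3 with hn1
  set n2 : ℝ := n2f p2 p3 with hn2
  set n3 : ℝ := n3f p3 with hn3
  set F : ℂ := ((n1 - n2 + n3 : ℝ) : ℂ) + n1 * (ρ * u) + n2 * (ρ * u) ^ 2 + n3 * (ρ * u) ^ 3
      - Complex.I * E with hF

  have hFP : 1 / 1000 * ((1 + c) + (1 - ρ)) ≤ (F * (starRingEnd ℂ) P).re := by
    have hb := base hcs h
    have he := E6_re (u := u) (ρ := ρ) (e1 := p1 ^ 2 * (η + r1))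
      (e2 := p2 ^ 2 * (14 / 10 * ρ * η + r2)) (e3 := p3 ^ 2 * h3) (m0 := n1 - n2 + n3) (n1 := n1)
      (n2 := n2) (n3 := n3) (P0 := p0) (P1 := p1) (P2 := p2) (P3 := p3) hcs rfl rfl
    rw [hF, hP, hE]
    rw [he]
    refine hb.trans (le_of_eq ?_)
    unfold gf
    rw [← hn1, ← hn2, ← hn3]

  have hSP : S = (1 - ff) * P + ff * T := by
    rw [hS, hP, hX]
    simp only [phi, q1, q2, q3]
    push_cast
    ring
  have hms := mass_sum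
  have hq : (1 : ℝ) - phi - ff = q1 + q2 + q3 := by linarith
  have ht := tune_eq
  have k1 : 2 * (1 - phi - ff) * q1 - q1 ^ 2 = (1 - ff) ^ 2 * n1 := by
    rw [hq, hn1, n1f]; simp only [q1, q2, q3]; ring
  have k2 : 2 * (1 - phi - ff) * q2 - (2 * q1 * q2 + q2 ^ 2) = (1 - ff) ^ 2 * n2 := by
    rw [hq, hn2, n2f]; simp only [q1, q2, q3]; ring
  have k3 : 2 * (1 - phi - ff) * q3 - (2 * (q1 + q2) * q3 + q3 ^ 2) = (1 - ff) ^ 2 * n3 := by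
    rw [hq, hn3, n3f]; simp only [q1, q2, q3]; ring
  have k0 : 2 * phi - phi ^ 2 = -(bb * S0) + 2 * ff * (1 - phi) - ff ^ 2
      + (1 - ff) ^ 2 * (n1 - n2 + n3) := by
    have e1 : (1 - ff) ^ 2 * (n1 - n2 + n3) = (1 - ff) ^ 2 * n1 - (1 - ff) ^ 2 * n2
        + (1 - ff) ^ 2 * n3 := by ring
    rw [e1, ← k1, ← k2, ← k3, ← ht, hq]
    have e2 : phi = 1 - ff - q1 - q2 - q3 := by linarith
    rw [e2]
    ring
  have hN : 2 * S - S2 = ((-(bb * S0) : ℝ) : ℂ) + ((2 * ff * (1 - phi) : ℝ) : ℂ) * (1 + T)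
      - ((ff ^ 2 : ℝ) : ℂ) * (1 + T2) + (((1 - ff) ^ 2 : ℝ) : ℂ) * F := by
    have k0' : (2 * phi - phi ^ 2 : ℂ) = -(bb * S0) + 2 * ff * (1 - phi) - ff ^ 2
      + (1 - ff) ^ 2 * (n1 - n2 + n3) := by exact_mod_cast k0
    have k1' : (2 * (1 - phi - ff) * q1 - q1 ^ 2 : ℂ) = (1 - ff) ^ 2 * n1 := by exact_mod_cast k1
    have k2' : (2 * (1 - phi - ff) * q2 - (2 * q1 * q2 + q2 ^ 2) : ℂ) = (1 - ff) ^ 2 * n2 := by
      exact_mod_cast k2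
    have k3' : (2 * (1 - phi - ff) * q3 - (2 * (q1 + q2) * q3 + q3 ^ 2) : ℂ)
      = (1 - ff) ^ 2 * n3 := by exact_mod_cast k3
    have j1 : (q1 : ℂ) = (1 - ff) * p1 := by simp only [q1]; push_cast; ring
    have j2 : (q2 : ℂ) = (1 - ff) * p2 := by simp only [q2]; push_cast; ring
    have j3 : (q3 : ℂ) = (1 - ff) * p3 := by simp only [q3]; push_cast; ring
    have j1' : (q1 : ℂ) ^ 2 = (1 - ff) ^ 2 * p1 ^ 2 := by rw [j1]; ring
    have j2' : (q2 : ℂ) ^ 2 = (1 - ff) ^ 2 * p2 ^ 2 := by rw [j2]; ring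
    have j3' : (q3 : ℂ) ^ 2 = (1 - ff) ^ 2 * p3 ^ 2 := by rw [j3]; ring
    rw [hS, hS2, hF, hE, ← hX]
    push_cast
    linear_combination k0' + X * k1' + X ^ 2 * k2' + X ^ 3 * k3'
      - Complex.I * (η + r1) * u * j1' - Complex.I * (14 / 10 * ρ * η + r2) * u ^ 2 * j2'
      - Complex.I * h3 * u ^ 3 * j3'

  set g : ℝ := Real.sqrt (1 - ρ) with hg
  have hg0 : 0 ≤ g := Real.sqrt_nonneg _
  have hg2 : g ^ 2 = 1 - ρ := Real.sq_sqrt (by linarith)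
  set t : ℝ := Real.sqrt ((1 + c) + (1 - ρ)) with htdef
  have ht0 : 0 ≤ t := Real.sqrt_nonneg _
  have ht2 : t ^ 2 = (1 + c) + (1 - ρ) := Real.sq_sqrt (by linarith)
  have hgt : g ≤ t := Real.sqrt_le_sqrt (by linarith)
  have hEn : ‖E‖ ≤ g := E6_err hu h hg0 hg2
  have hXn : ‖X‖ ≤ 1 := by
    rw [hX, norm_mul, hu, Complex.norm_real, Real.norm_eq_abs, mul_one]
    exact hρ
  set Z : ℂ := 1 + X with hZ
  have hZn2 : ‖Z‖ ^ 2 ≤ 2 * t ^ 2 := by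
    refine E6_Zaux lo hi hc1 ht2 ?_
    rw [hZ, hX, Complex.sq_norm, Complex.normSq_apply]
    simp only [Complex.add_re, Complex.add_im, Complex.mul_re, Complex.mul_im, Complex.one_re,
      Complex.one_im, Complex.ofReal_re, Complex.ofReal_im, ← hc, ← hs]
    linear_combination ρ ^ 2 * hcs
  have hZn : ‖Z‖ ≤ 15 / 10 * t := E6_Zaux2 ht0 hZn2
  have hn1v : n1 ≤ 0.5 ∧ 0.49 ≤ n1 := E6_n1
  have hn2v : n2 ≤ 0.13 ∧ 0.12 ≤ n2 := E6_n2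
  have hn3v : n3 ≤ 0.01 ∧ 0 ≤ n3 := E6_n3
  have hFn : ‖F‖ ≤ 25 / 10 * t := by
    have e1 : F = Z * (((n1 - n2 + n3 : ℝ) : ℂ) + ((n2 - n3 : ℝ) : ℂ) * X + (n3 : ℂ) * X ^ 2)
        - Complex.I * E := by
      rw [hF, hZ, hX]
      push_cast
      ring
    have e2 : ‖(((n1 - n2 + n3 : ℝ) : ℂ) + ((n2 - n3 : ℝ) : ℂ) * X + (n3 : ℂ) * X ^ 2)‖ ≤ 1 := by
      refine (norm_add₃_le).trans ?_
      rw [norm_mul, norm_mul, norm_pow, Complex.norm_real, Complex.norm_real, Complex.norm_real,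
        Real.norm_eq_abs, Real.norm_eq_abs, Real.norm_eq_abs,
        abs_of_nonneg (by linarith [hn1v.1, hn1v.2, hn2v.1, hn2v.2, hn3v.1, hn3v.2]
          : 0 ≤ n1 - n2 + n3),
        abs_of_nonneg (by linarith [hn1v.1, hn1v.2, hn2v.1, hn2v.2, hn3v.1, hn3v.2]
          : 0 ≤ n2 - n3),
        abs_of_nonneg hn3v.2]
      have e3 : (n2 - n3) * ‖X‖ ≤ (n2 - n3) * 1 :=
        mul_le_mul_of_nonneg_left hXn (by linarith [hn2v.2, hn3v.1])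
      have e4 : n3 * ‖X‖ ^ 2 ≤ n3 * 1 :=
        mul_le_mul_of_nonneg_left (pow_le_one₀ (norm_nonneg _) hXn) hn3v.2
      linarith [hn1v.1, hn2v.1, hn3v.1]
    rw [e1]
    refine (norm_sub_le _ _).trans ?_
    rw [norm_mul, norm_mul, Complex.norm_I, one_mul]
    have e5 : ‖Z‖ * ‖(((n1 - n2 + n3 : ℝ) : ℂ) + ((n2 - n3 : ℝ) : ℂ) * X + (n3 : ℂ) * X ^ 2)‖
        ≤ ‖Z‖ * 1 := mul_le_mul_of_nonneg_left e2 (norm_nonneg _)
    linarith
  have hPn : ‖P‖ ≤ 1 := by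
    rw [hP, ← hX]
    refine (norm_add_le _ _).trans ?_
    have e1 := norm_add₃_le (a := (p0 : ℂ)) (b := (p1 : ℂ) * X) (c := (p2 : ℂ) * X ^ 2)
    have a0 : ‖(p0 : ℂ)‖ = p0 := by
      rw [Complex.norm_real, Real.norm_eq_abs, abs_of_nonneg (by linarith [hp0.1])]
    have a1 : ‖(p1 : ℂ) * X‖ ≤ p1 := by
      rw [norm_mul, Complex.norm_real, Real.norm_eq_abs, abs_of_nonneg (by linarith [hp1.1])]
      exact mul_le_of_le_one_right (by linarith [hp1.1]) hXn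
    have a2 : ‖(p2 : ℂ) * X ^ 2‖ ≤ p2 := by
      rw [norm_mul, norm_pow, Complex.norm_real, Real.norm_eq_abs,
        abs_of_nonneg (by linarith [hp2.1])]
      exact mul_le_of_le_one_right (by linarith [hp2.1]) (pow_le_one₀ (norm_nonneg _) hXn)
    have a3 : ‖(p3 : ℂ) * X ^ 3‖ ≤ p3 := by
      rw [norm_mul, norm_pow, Complex.norm_real, Real.norm_eq_abs,
        abs_of_nonneg (by linarith [hp3.1])]
      exact mul_le_of_le_one_right (by linarith [hp3.1]) (pow_le_one₀ (norm_nonneg _) hXn)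
    have := p_sum
    linarith
  have hSn : ‖S‖ ≤ 1 := by
    rw [hSP]
    refine (norm_add_le _ _).trans ?_
    have a1 : ‖((1 : ℂ) - ff) * P‖ ≤ (1 - ff) * 1 := by
      rw [norm_mul]
      have : ‖((1 : ℂ) - ff)‖ = 1 - ff := by
        have e : ((1 : ℂ) - ff) = ((1 - ff : ℝ) : ℂ) := by push_cast; ring
        rw [e, Complex.norm_real, Real.norm_eq_abs, abs_of_nonneg (by linarith)]
      rw [this]
      exact mul_le_mul_of_nonneg_left hPn (by linarith)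
    have a2 : ‖(ff : ℂ) * T‖ ≤ ff * 1 := by
      rw [norm_mul, Complex.norm_real, Real.norm_eq_abs, abs_of_pos hf]
      exact mul_le_mul_of_nonneg_left hT hf.le
    linarith
  set d : ℂ := S - S0 with hd
  have hdn : ‖d‖ ≤ 2 * t + 2 * ff := by
    have e1 : d = Z * ((p1 : ℂ) + p2 * (X - 1) + p3 * (X ^ 2 - X + 1)) + (ff : ℂ) * (T - P) := by
      have e2 : (S0 : ℂ) = p0 - p1 + p2 - p3 := by exact_mod_cast S0_eq
      rw [hd, hSP, e2, hZ, hP, ← hX]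
      ring
    have e3 : ‖((p1 : ℂ) + p2 * (X - 1) + p3 * (X ^ 2 - X + 1))‖ ≤ 13 / 10 := by
      refine (norm_add₃_le).trans ?_
      rw [norm_mul, norm_mul, Complex.norm_real, Complex.norm_real, Complex.norm_real,
        Real.norm_eq_abs, Real.norm_eq_abs, Real.norm_eq_abs,
        abs_of_nonneg (by linarith [hp1.1] : 0 ≤ p1), abs_of_nonneg (by linarith [hp2.1] : 0 ≤ p2),
        abs_of_nonneg (by linarith [hp3.1] : 0 ≤ p3)]
      have b1 : ‖X - 1‖ ≤ 2 := by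
        refine (norm_sub_le _ _).trans ?_
        rw [norm_one]; linarith
      have b2 : ‖X ^ 2 - X + 1‖ ≤ 3 := by
        refine (norm_add_le _ _).trans ?_
        have := norm_sub_le (X ^ 2) X
        rw [norm_pow] at this
        have b3 : ‖X‖ ^ 2 ≤ 1 := pow_le_one₀ (norm_nonneg _) hXn
        rw [norm_one]; linarith
      have b4 : p2 * ‖X - 1‖ ≤ 0.2949 * 2 :=
        mul_le_mul (by linarith [hp2.2]) b1 (norm_nonneg _) (by norm_num)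
      have b5 : p3 * ‖X ^ 2 - X + 1‖ ≤ 0.0676 * 3 :=
        mul_le_mul (by linarith [hp3.2]) b2 (norm_nonneg _) (by norm_num)
      linarith [hp1.2]
    rw [e1]
    refine (norm_add_le _ _).trans ?_
    rw [norm_mul, norm_mul, Complex.norm_real, Real.norm_eq_abs, abs_of_pos hf]
    have b6 : ‖T - P‖ ≤ 2 := (norm_sub_le _ _).trans (by linarith)
    have b7 : ‖Z‖ * ‖((p1 : ℂ) + p2 * (X - 1) + p3 * (X ^ 2 - X + 1))‖ ≤ (15 / 10 * t) * (13 / 10) :=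
      mul_le_mul hZn e3 (norm_nonneg _) (by positivity)
    have b8 : ff * ‖T - P‖ ≤ ff * 2 := mul_le_mul_of_nonneg_left b6 hf.le
    linarith

  have hSd : S = S0 + d := by rw [hd]; ring
  have A1 : 1 / 2 * S0 ^ 2 - 2 * S0 * ‖d‖ ≤ 15 / 10 * ‖S‖ ^ 2 - S0 * S.re := by
    have e1 : ‖S‖ ^ 2 = S0 ^ 2 + 2 * S0 * d.re + ‖d‖ ^ 2 := by
      rw [Complex.sq_norm, Complex.sq_norm, Complex.normSq_apply, Complex.normSq_apply, hSd]
      simp only [Complex.add_re, Complex.add_im, Complex.ofReal_re, Complex.ofReal_im]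
      ring
    have e2 : S.re = S0 + d.re := by rw [hSd]; simp
    have e3 := (abs_le.mp (Complex.abs_re_le_norm d)).1
    rw [e2]
    exact E6_A1aux (by linarith [hS0.1]) e3 e1
  have A2 : -(2 * ‖d‖) ≤ ((1 + T) * (starRingEnd ℂ) S).re := by
    have e1 : ((1 + T) * (starRingEnd ℂ) S) = (S0 : ℂ) * (1 + T) + (1 + T) * (starRingEnd ℂ) d := by
      rw [hSd, map_add, Complex.conj_ofReal]
      ring
    have e2 := E6_re_ge (1 + T) d
    have e3 : ‖1 + T‖ ≤ 2 := (norm_add_le _ _).trans (by rw [norm_one]; linarith)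
    have e4 : ‖1 + T‖ * ‖d‖ ≤ 2 * ‖d‖ := mul_le_mul_of_nonneg_right e3 (norm_nonneg _)
    have e5 : 0 ≤ (1 + T).re := by
      have := (abs_le.mp (Complex.abs_re_le_norm T)).1
      simp only [Complex.add_re, Complex.one_re]
      linarith
    rw [e1, Complex.add_re, Complex.re_ofReal_mul]
    have e6 : 0 ≤ S0 * (1 + T).re := mul_nonneg (by linarith [hS0.1]) e5
    linarith
  have A3 : ((1 + T2) * (starRingEnd ℂ) S).re ≤ 2 := by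
    have e1 := Complex.re_le_norm ((1 + T2) * (starRingEnd ℂ) S)
    rw [norm_mul, Complex.norm_conj] at e1
    have e3 : ‖1 + T2‖ ≤ 2 := (norm_add_le _ _).trans (by rw [norm_one]; linarith)
    have e4 : ‖1 + T2‖ * ‖S‖ ≤ 2 * 1 := mul_le_mul e3 hSn (norm_nonneg _) (by norm_num)
    linarith
  have A4 : (1 - ff) * (1 / 1000 * t ^ 2) - ff * (25 / 10 * t) ≤ (F * (starRingEnd ℂ) S).re := by
    have e1 : F * (starRingEnd ℂ) S = ((1 - ff : ℝ) : ℂ) * (F * (starRingEnd ℂ) P)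
        + (ff : ℂ) * (F * (starRingEnd ℂ) T) := by
      rw [hSP, map_add, map_mul, map_mul, map_sub, map_one, Complex.conj_ofReal]
      push_cast
      ring
    have e2 := E6_re_ge F T
    have e3 : ‖F‖ * ‖T‖ ≤ (25 / 10 * t) * 1 := mul_le_mul hFn hT (norm_nonneg _) (by positivity)
    rw [e1, Complex.add_re, Complex.re_ofReal_mul, Complex.re_ofReal_mul]
    have e4 : (1 - ff) * (1 / 1000 * t ^ 2) ≤ (1 - ff) * (F * (starRingEnd ℂ) P).re := by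
      apply mul_le_mul_of_nonneg_left _ (by linarith)
      rw [ht2]; exact hFP
    have e5 : ff * (-(25 / 10 * t)) ≤ ff * (F * (starRingEnd ℂ) T).re :=
      mul_le_mul_of_nonneg_left (by linarith) hf.le
    linarith
  have hsum : ((2 * S - S2) * (starRingEnd ℂ) S).re + 15 / 10 * bb * ‖S‖ ^ 2
      = bb * (15 / 10 * ‖S‖ ^ 2 - S0 * S.re)
        + 2 * ff * (1 - phi) * ((1 + T) * (starRingEnd ℂ) S).re
        - ff ^ 2 * ((1 + T2) * (starRingEnd ℂ) S).re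
        + (1 - ff) ^ 2 * (F * (starRingEnd ℂ) S).re := by
    have e1 : (2 * S - S2) * (starRingEnd ℂ) S = ((-(bb * S0) : ℝ) : ℂ) * (starRingEnd ℂ) S
        + ((2 * ff * (1 - phi) : ℝ) : ℂ) * ((1 + T) * (starRingEnd ℂ) S)
        - ((ff ^ 2 : ℝ) : ℂ) * ((1 + T2) * (starRingEnd ℂ) S)
        + (((1 - ff) ^ 2 : ℝ) : ℂ) * (F * (starRingEnd ℂ) S) := by
      rw [hN]; ring
    rw [e1, Complex.add_re, Complex.sub_re, Complex.add_re, Complex.re_ofReal_mul,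
      Complex.re_ofReal_mul, Complex.re_ofReal_mul, Complex.re_ofReal_mul, Complex.conj_re]
    ring
  rw [hsum]
  have hd0 : 0 ≤ ‖d‖ := norm_nonneg _
  have B1 : 97 / 10 ^ 6 * ff - 1 / 10 * ff * ‖d‖ ≤ bb * (15 / 10 * ‖S‖ ^ 2 - S0 * S.re) :=
    E6_B1 hbb.1 hbb.2 hf hd0 hS0.1 hS0.2 A1
  have B2 : -(4 * ff * ‖d‖) ≤ 2 * ff * (1 - phi) * ((1 + T) * (starRingEnd ℂ) S).re := by
    have e0 : 0 ≤ 2 * ff * (1 - phi) := by
      have : 0 ≤ 1 - phi := by linarith [hphi.2]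
      positivity
    have e1 := mul_le_mul_of_nonneg_left A2 e0
    have e2 : 2 * ff * (1 - phi) * (2 * ‖d‖) ≤ 2 * ff * 1 * (2 * ‖d‖) := by
      apply mul_le_mul_of_nonneg_right _ (by positivity)
      apply mul_le_mul_of_nonneg_left _ (by positivity)
      linarith [hphi.1]
    linarith
  have B3 : ff ^ 2 * ((1 + T2) * (starRingEnd ℂ) S).re ≤ ff ^ 2 * 2 :=
    mul_le_mul_of_nonneg_left A3 (sq_nonneg _)
  have B4 : 9 / 10 ^ 4 * t ^ 2 - 3 * ff * t ≤ (1 - ff) ^ 2 * (F * (starRingEnd ℂ) S).re :=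
    E6_B4 hf hf' ht0 A4
  have B5 : ff * ‖d‖ ≤ ff * (2 * t + 2 * ff) := mul_le_mul_of_nonneg_left hdn hf.le
  have B6 : 0 < 97 / 10 ^ 6 * ff + 9 / 10 ^ 4 * t ^ 2 - 12 * ff * t - 12 * ff ^ 2 := E6_B6 hf hf'
  have B7 : ff * (2 * t + 2 * ff) = 2 * (ff * t) + 2 * ff ^ 2 := by ring
  have B8 : 12 * ff * t = 12 * (ff * t) := by ring
  have B9 : 3 * ff * t = 3 * (ff * t) := by ring
  have B10 : 4 * ff * ‖d‖ = 4 * (ff * ‖d‖) := by ring
  have B11 : 1 / 10 * ff * ‖d‖ = 1 / 10 * (ff * ‖d‖) := by ring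
  have B12 : 0 ≤ ff * t := by positivity
  have B13 : 0 ≤ ff ^ 2 := by positivity
  rw [B7] at B5
  rw [B8] at B6
  rw [B9] at B4
  rw [B10] at B2
  rw [B11] at B1
  clear_value F P E d Z
  linarith only [B1, B2, B3, B4, B5, B6, B12, B13]

end MP18
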