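import Pool.Agent.Lib.MP_18566a_pr.T.E6
import Pool.Agent.Lib.MP_18566a_pr.T.E3
import Pool.Agent.Lib.MP_18566a_pr.T.E3b
import Pool.Agent.Lib.MP_18566a_pr.T.C4b

set_option autoImplicit false

namespace MP18

open Finset PowerSeries

theorem E7_mid_le {y' y W W' V : ℕ} (g : Geo y' y W W' V) : mid W W' ≤ 3 * y := by
  have h := g.mid_le.2
  have h0 : (0 : ℝ) ≤ mid W W' := Nat.cast_nonneg _
  have h1 : (mid W W' : ℝ) ≤ ((3 * y : ℕ) : ℝ) := by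
    push_cast
    have hy : (0 : ℝ) ≤ y := Nat.cast_nonneg _
    nlinarith
  exact_mod_cast h1

theorem E7_norm (ω : ℝ) : ‖Complex.exp (ω * Complex.I)‖ = 1 :=
  Complex.norm_exp_ofReal_mul_I ω

theorem E7_ev_Xmul {A : PS} {C : ℝ} {z : ℂ} (h : Bd 1 A C) (hz : ‖z‖ ≤ 1) (k : ℕ) :
    ev (X ^ k * A) z = z ^ k * ev A z := by
  rw [ev_mul (Bd_Xpow zero_le_one k) h hz, ev_Xpow]

theorem E7_zpow {y' y W W' V : ℕ} (g : Geo y' y W W' V) (ω : ℝ) (j : ℕ) :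
    Complex.exp (ω * Complex.I) ^ ((3 * y - mid W W') * j) *
      Complex.exp (ω * Complex.I * ((j * mid W W' : ℕ) : ℂ))
      = (Complex.exp (ω * Complex.I) ^ (3 * y)) ^ j := by
  have h1 : Complex.exp (ω * Complex.I * ((j * mid W W' : ℕ) : ℂ))
      = Complex.exp (ω * Complex.I) ^ (j * mid W W') := by
    rw [← Complex.exp_nat_mul, mul_comm]
  rw [h1, ← pow_add, ← pow_mul]
  congr 1
  have h2 := E7_mid_le g
  obtain ⟨d, hd⟩ := Nat.exists_eq_add_of_le h2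
  rw [hd]
  have : mid W W' + d - mid W W' = d := by omega
  rw [this]
  ring

theorem ev_bet {y' y W W' V : ℕ} (g : Geo y' y W W' V) (ω : ℝ) :
    ev (bet y W W') (Complex.exp (ω * Complex.I))
      = ((rhoS (bsh W W') (mid W W') ω : ℝ) : ℂ) * Complex.exp (ω * Complex.I) ^ (3 * y) := by
  have hS := Sym_bsh g.odd g.W'_pos
  unfold bet
  rw [E7_ev_Xmul (Bd_of_Cpl hS.nn hS.cpl) (le_of_eq (E7_norm ω)), ev_Sym_c hS, chS_I,
    ← mul_assoc]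
  have h := E7_zpow g ω 1
  rw [mul_one, one_mul, pow_one] at h
  rw [h, mul_comm]

theorem ev_sq_bet {y' y W W' V : ℕ} (g : Geo y' y W W' V) (ω : ℝ) (j : ℕ) :
    ev (sq (bet y W W' ^ j)) (Complex.exp (ω * Complex.I))
      = (((rhoS (bsh W W') (mid W W') ω ^ j : ℝ) : ℂ)
          + Complex.I * ((hS (bsh W W' ^ j) (j * mid W W') ω : ℝ) : ℂ))
        * (Complex.exp (ω * Complex.I) ^ (3 * y)) ^ j := by
  have hS0 := Sym_bsh g.odd g.W'_pos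
  have hS := Sym_pow hS0 j
  have hB1 : Bd 1 (bsh W W' ^ j) 1 := Bd_of_Cpl hS.nn hS.cpl
  have hB2 := Bd_sq zero_le_one hB1 hB1
  have hb : bet y W W' ^ j = X ^ ((3 * y - mid W W') * j) * bsh W W' ^ j := by
    unfold bet
    rw [mul_pow, ← pow_mul]
  rw [hb, sq_Xpow_mul, E7_ev_Xmul hB2 (le_of_eq (E7_norm ω)), ev_sq_Sym_c hS, chS_I, shS_I,
    rhoS_pow hS0, ← mul_assoc, E7_zpow g ω j, mul_comm]

theorem PRK {y' y W W' V : ℕ} (g : Geo y' y W W' V) {z : ℂ} (hz : ‖z‖ = 1) (hz1 : ‖1 - z‖ ≤ 1 / 100) :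
    ((phi ^ 2 + 2 * phi * ev (QQ y W W' V) z + ev (sq (QQ y W W' V)) z)
      / (phi + ev (QQ y W W' V) z)).re ≤ 2 + 15 / 10 * bb := by
  obtain ⟨ω, hω⟩ : ∃ ω : ℝ, z = Complex.exp (ω * Complex.I) := by
    refine ⟨Complex.arg z, ?_⟩
    have := Complex.norm_mul_exp_arg_mul_I z
    rw [hz, Complex.ofReal_one, one_mul] at this
    exact this.symm
  have hz' : ‖z‖ ≤ 1 := le_of_eq hz
  have hSb := Sym_bsh g.odd g.W'_pos

  set ρ : ℝ := rhoS (bsh W W') (mid W W') ω with hρ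
  set η : ℝ := 2 / W * etS (bsh W W') (mid W W') ω with hη
  set u : ℂ := z ^ (3 * y) with hu
  have hu1 : ‖u‖ = 1 := by rw [hu, norm_pow, hz, one_pow]
  have hbT1 : Bd 1 (TT y V) 1 := Bd_of_Cpl (TT_nn y V) (Cpl_TT g.Vpos)
  have hT : ‖ev (TT y V) z‖ ≤ 1 := ev_norm hbT1 hz'
  have hbT2 : Bd 1 (sq (TT y V)) 1 := by
    have := Bd_of_Cpl (sq_nn (TT_nn y V)) (Cpl_sq (Cpl_TT (y := y) g.Vpos))
    rwa [one_pow] at this
  have hT2 : ‖ev (sq (TT y V)) z‖ ≤ 1 := ev_norm hbT2 hz'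
  have hshape : ShapeC ρ η (hS (bsh W W') (mid W W') ω - η)
      (hS (bsh W W' ^ 2) (2 * mid W W') ω - 14 / 10 * ρ * η)
      (hS (bsh W W' ^ 3) (3 * mid W W') ω) := by
    refine ⟨?_, rhoS_le hSb ω, sh_eta g ω, sh_r1 g ω, sh_r2 g ω, sh_h3 g ω⟩
    apply sh_lo g
    rw [← hω]
    exact hz1

  have hb1 : Bd 1 (bet y W W') 1 := by
    have := Bd_bet_pow g 1
    rwa [pow_one] at this
  have e1 : ev (bet y W W') z = ρ * u := by
    rw [hu, hω]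
    exact ev_bet g ω
  have e2 : ev (bet y W W' ^ 2) z = (ρ * u) ^ 2 := by rw [ev_pow hb1 hz', e1]
  have e3 : ev (bet y W W' ^ 3) z = (ρ * u) ^ 3 := by rw [ev_pow hb1 hz', e1]
  have s1 : ev (sq (bet y W W')) z
      = (((ρ : ℝ) : ℂ) + Complex.I * ((hS (bsh W W') (mid W W') ω : ℝ) : ℂ)) * u := by
    have := ev_sq_bet g ω 1
    rw [pow_one, pow_one, pow_one, pow_one, one_mul, ← hω] at this
    exact this
  have s2 : ev (sq (bet y W W' ^ 2)) z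
      = (((ρ ^ 2 : ℝ) : ℂ) + Complex.I * ((hS (bsh W W' ^ 2) (2 * mid W W') ω : ℝ) : ℂ)) * u ^ 2 := by
    have := ev_sq_bet g ω 2
    rw [← hω] at this
    exact this
  have s3 : ev (sq (bet y W W' ^ 3)) z
      = (((ρ ^ 3 : ℝ) : ℂ) + Complex.I * ((hS (bsh W W' ^ 3) (3 * mid W W') ω : ℝ) : ℂ)) * u ^ 3 := by
    have := ev_sq_bet g ω 3
    rw [← hω] at this
    exact this

  have hb2 := Bd_bet_pow g 2
  have hb3 := Bd_bet_pow g 3
  have hs1 := Bd_sq zero_le_one hb1 hb1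
  have hs2 := Bd_sq zero_le_one hb2 hb2
  have hs3 := Bd_sq zero_le_one hb3 hb3
  have hQs : ev (Qs y W W') z = q1 * (ρ * u) + q2 * (ρ * u) ^ 2 + q3 * (ρ * u) ^ 3 := by
    unfold Qs
    rw [ev_add (Bd_add zero_le_one (Bd_smul q1 hb1) (Bd_smul q2 hb2)) (Bd_smul q3 hb3) hz',
      ev_add (Bd_smul q1 hb1) (Bd_smul q2 hb2) hz', ev_smul, ev_smul, ev_smul, e1, e2, e3]
  have hQQ : ev (QQ y W W' V) z
      = ff * ev (TT y V) z + (q1 * (ρ * u) + q2 * (ρ * u) ^ 2 + q3 * (ρ * u) ^ 3) := by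
    unfold QQ
    rw [ev_add (Bd_smul ff hbT1) (Bd_Qs g) hz', ev_smul, hQs]
  have c1 := Bd_smul (q1 ^ 2) hs1
  have c2 := Bd_smul (2 * q1 * q2) hb2
  have c3 := Bd_smul (q2 ^ 2) hs2
  have c4 := Bd_smul (2 * (q1 + q2) * q3) hb3
  have c5 := Bd_smul (q3 ^ 2) hs3
  have d2 := Bd_add zero_le_one c1 c2
  have d3 := Bd_add zero_le_one d2 c3
  have d4 := Bd_add zero_le_one d3 c4
  have d5 := Bd_add zero_le_one d4 c5
  have hsQs : ev (sq (Qs y W W')) z = (q1 : ℂ) ^ 2 * ev (sq (bet y W W')) z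
      + 2 * q1 * q2 * (ρ * u) ^ 2 + (q2 : ℂ) ^ 2 * ev (sq (bet y W W' ^ 2)) z
      + 2 * (q1 + q2) * q3 * (ρ * u) ^ 3 + (q3 : ℂ) ^ 2 * ev (sq (bet y W W' ^ 3)) z := by
    rw [sq_Qs g, ev_add d4 c5 hz', ev_add d3 c4 hz', ev_add d2 c3 hz', ev_add c1 c2 hz',
      ev_smul, ev_smul, ev_smul, ev_smul, ev_smul, e2, e3]
    push_cast
    ring
  have hbsQs : Bd 1 (sq (Qs y W W')) _ := Bd_sq zero_le_one (Bd_Qs g) (Bd_Qs g)
  have hsQQ : ev (sq (QQ y W W' V)) z = (ff : ℂ) ^ 2 * ev (sq (TT y V)) z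
      + 2 * ff * (q1 * (ρ * u) + q2 * (ρ * u) ^ 2 + q3 * (ρ * u) ^ 3)
      + ev (sq (Qs y W W')) z := by
    rw [sq_QQ g, ev_add (Bd_add zero_le_one (Bd_smul (ff ^ 2) hbT2) (Bd_smul (2 * ff) (Bd_Qs g)))
      hbsQs hz', ev_add (Bd_smul (ff ^ 2) hbT2) (Bd_smul (2 * ff) (Bd_Qs g)) hz',
      ev_smul, ev_smul, hQs]
    push_cast
    ring
  have key := PRK_abs (u := u) (T := ev (TT y V) z) (T2 := ev (sq (TT y V)) z) hu1 hT hT2 hshape
    (X := ρ * u) (S := phi + ev (QQ y W W' V) z)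
    (S2 := phi ^ 2 + 2 * phi * ev (QQ y W W' V) z + ev (sq (QQ y W W' V)) z) rfl
    (by rw [hQQ]; ring)
    (by
      rw [hsQQ, hsQs, hQQ, s1, s2, s3]
      push_cast
      ring)
  set S : ℂ := phi + ev (QQ y W W' V) z with hSdef
  set S2 : ℂ := phi ^ 2 + 2 * phi * ev (QQ y W W' V) z + ev (sq (QQ y W W' V)) z with hS2def
  have hS0 : S ≠ 0 := by
    intro h0
    rw [h0] at key
    simp at key
  have hn : 0 < ‖S‖ ^ 2 := by
    have := norm_pos_iff.2 hS0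
    positivity
  have hdiv : (S2 / S).re = (S2 * (starRingEnd ℂ) S).re / ‖S‖ ^ 2 := by
    rw [Complex.div_re, ← Complex.normSq_eq_norm_sq]
    simp only [Complex.mul_re, Complex.conj_re, Complex.conj_im]
    ring
  have hSS : (S * (starRingEnd ℂ) S).re = ‖S‖ ^ 2 := by
    rw [Complex.mul_conj, Complex.ofReal_re, Complex.normSq_eq_norm_sq]
  have hexp : ((2 * S - S2) * (starRingEnd ℂ) S).re = 2 * ‖S‖ ^ 2 - (S2 * (starRingEnd ℂ) S).re := by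
    rw [← hSS]
    have : (2 * S - S2) * (starRingEnd ℂ) S
        = 2 * (S * (starRingEnd ℂ) S) - S2 * (starRingEnd ℂ) S := by ring
    rw [this, Complex.sub_re]
    congr 1
    rw [show (2 : ℂ) = ((2 : ℝ) : ℂ) by norm_num, Complex.re_ofReal_mul]
  rw [hdiv, div_le_iff₀ hn]
  rw [hexp] at key
  nlinarith [key]

end MP18
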