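import Pool.Agent.Lib.MP_18566a_pr.T.A5
import Pool.Agent.Lib.MP_18566a_pr.T.D7f

set_option autoImplicit false

namespace MP18

open Finset PowerSeries

theorem E_high {y' y W W' V : ℕ} {a0 : PS} (g : Geo y' y W W' V) (h : In y' y a0) {z : ℂ}
    (hz : ‖z‖ = 1) (hhigh : ff / 10 ^ 11 ≤ ‖1 - z‖ * y') :
    ‖ev (ms a0 y W W' V) z‖ ≤ 1 / 20 := by
  have hz' : ‖z‖ ≤ 1 := hz.le
  have hy' : 0 < (y' : ℝ) := by exact_mod_cast g.pos
  have hW : 0 < (W : ℝ) := by exact_mod_cast g.W_pos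
  have hRR := (D5 g h (Adm_one (y := y))).2
  have hGs := D7a g h (Adm_one (y := y))
  have hnG := D7b g h (Adm_one (y := y))
  have hps := h.lb.ps 1 Adm_one
  have hnab := Bd_nab (r := 1) zero_le_one
  have hsm := small1 g
  have e1 : ev (nab * Gs a0 y W W') z = (1 - z) * ev (Gs a0 y W W') z := by
    rw [ev_mul hnab hGs hz', ev_nab]
  have b0 : ‖ev (nab * Gs a0 y W W') z‖ ≤ 19.6 / W := ev_norm hnG hz'
  have b1 : ‖1 - z‖ * ‖ev (Gs a0 y W W') z‖ ≤ 19.6 / W := by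
    rw [← norm_mul, ← e1]
    exact b0
  have b2 : ‖ev (Gs a0 y W W') z‖ ≤ 1 / 10 ^ 15 := by
    have h1 : ff / 10 ^ 11 * ‖ev (Gs a0 y W W') z‖ ≤ 19.6 * (1 / 10 ^ 170) := by
      calc ff / 10 ^ 11 * ‖ev (Gs a0 y W W') z‖
          ≤ ‖1 - z‖ * y' * ‖ev (Gs a0 y W W') z‖ :=
            mul_le_mul_of_nonneg_right hhigh (norm_nonneg _)
        _ = ‖1 - z‖ * ‖ev (Gs a0 y W W') z‖ * y' := by ring
        _ ≤ 19.6 / W * y' := mul_le_mul_of_nonneg_right b1 hy'.le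
        _ = 19.6 * (y' / W) := by ring
        _ ≤ 19.6 * (1 / 10 ^ 170) := mul_le_mul_of_nonneg_left hsm (by norm_num)
    unfold ff at h1
    norm_num at h1 ⊢
    linarith
  have b3 : ‖ev (psi a0 * (nab * Gs a0 y W W')) z‖ ≤ 1 / 10 ^ 15 := by
    rw [ev_mul hps hnG hz', norm_mul]
    calc ‖ev (psi a0) z‖ * ‖ev (nab * Gs a0 y W W') z‖ ≤ (10 ^ 4 * y') * (19.6 / W) :=
          mul_le_mul (ev_norm hps hz') b0 (norm_nonneg _) (by positivity)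
      _ = 10 ^ 4 * 19.6 * (y' / W) := by ring
      _ ≤ 10 ^ 4 * 19.6 * (1 / 10 ^ 170) := mul_le_mul_of_nonneg_left hsm (by norm_num)
      _ ≤ 1 / 10 ^ 15 := by norm_num
  rw [ms_eq g h, ev_mul hRR (Bd_add zero_le_one hGs (Bd_mul zero_le_one hps hnG)) hz', norm_mul,
    ev_add hGs (Bd_mul zero_le_one hps hnG) hz']
  calc ‖ev (RR a0 y W W' V) z‖ *
      ‖ev (Gs a0 y W W') z + ev (psi a0 * (nab * Gs a0 y W W')) z‖
      ≤ 160 * (1 / 10 ^ 15 + 1 / 10 ^ 15) :=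
        mul_le_mul (ev_norm hRR hz') ((norm_add_le _ _).trans (add_le_add b2 b3))
          (norm_nonneg _) (by norm_num)
    _ ≤ 1 / 20 := by norm_num

end MP18
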