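import Pool.Agent.Lib.MP_18566a_pr.T.E8l
import Pool.Agent.Lib.MP_18566a_pr.T.E8h

set_option autoImplicit false

namespace MP18

open Finset PowerSeries

theorem PR_F {y' y W W' V : ℕ} {a0 : PS} (g : Geo y' y W W' V) (h : In y' y a0) :
    ∀ z : ℂ, ‖z‖ = 1 → (ev (ker (aF a0 y W W' V)) z).re ≤ 2 + 155 / 100 * bb := by
  intro z hz
  have hz' : ‖z‖ ≤ 1 := hz.le
  have hy' : (1 : ℝ) ≤ y' := by exact_mod_cast g.pos
  have hff := ff_pos
  have hbb := bb_bd
  by_cases hc : ‖1 - z‖ * y' ≤ ff / 10 ^ 11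
  · have h1 := E_low g h hz hc
    have h2 : ‖1 - z‖ ≤ 1 / 100 := by
      have h3 : ‖1 - z‖ * 1 ≤ ‖1 - z‖ * y' := mul_le_mul_of_nonneg_left hy' (norm_nonneg _)
      have h4 : ff / 10 ^ 11 ≤ 1 / 100 := by
        unfold ff
        norm_num
      linarith
    have h3 := PRK g hz h2
    have h4 := (Complex.abs_re_le_norm _).trans h1
    rw [Complex.sub_re] at h4
    have h5 := (abs_le.1 h4).2
    linarith [hbb.1]
  · have h1 := E_high g h hz (not_le.1 hc).le
    have hms := D8a g h (Adm_one (y := y))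
    have hmt := D9 g h (Adm_one (y := y))
    have hk := h.lb.kn 1 Adm_one
    have h2 : ‖ev (mt a0 y W W' V) z‖ ≤ 1 / 10 ^ 49 := ev_norm hmt hz'
    have h3 := h.lb.pr z hz
    have hphi := phi_bd
    have hk' := Bd_smul phi hk
    rw [D10 g h, ev_add (Bd_add zero_le_one hk' hms) hmt hz', ev_add hk' hms hz', ev_smul]
    have h4 := (abs_le.1 ((Complex.abs_re_le_norm _).trans h1)).2
    have h5 := (abs_le.1 ((Complex.abs_re_le_norm _).trans h2)).2
    rw [Complex.add_re, Complex.add_re, Complex.re_ofReal_mul]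
    have h6 : phi * (ev (ker a0) z).re ≤ phi * (2 + 16 / 10 * bb) :=
      mul_le_mul_of_nonneg_left h3 (by linarith [hphi.1])
    have hbb1 : bb ≤ 1 := by
      refine hbb.2.trans ?_
      unfold ff
      norm_num
    have hbb0 : 0 ≤ bb := by linarith [hbb.1]
    have h7 : phi * (2 + 16 / 10 * bb) ≤ 1 := by
      have h8 : phi * (2 + 16 / 10 * bb) ≤ 0.20829892 * (2 + 16 / 10 * bb) :=
        mul_le_mul_of_nonneg_right hphi.2 (by linarith)
      linarith
    have h8 : (1 : ℝ) / 10 ^ 49 ≤ 1 / 20 := by norm_num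
    linarith

end MP18
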