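import Pool.Agent.Lib.MP_18566a_pr.T.D7f
import Pool.Agent.Lib.MP_18566a_pr.T.E7

set_option autoImplicit false

namespace MP18

open Finset PowerSeries

/-- the algebraic identity -/
private theorem E8l_id {phi e a Q sq R S Si : ℂ} (hS : S = phi + Q) (hSi : S * Si = 1)
    (hR : R * (S + a * Q) = 1) :
    phi * (1 + e) + R * ((phi * (1 - e) * Q + sq) + a * (phi * (1 - e) * Q + sq))
      - (phi ^ 2 + 2 * phi * Q + sq) * Si =
    phi * e - R * Si * (a * Q) * (phi * (1 - e) * Q + sq)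
      + R * (a * (phi * (1 - e) * Q + sq)) - Si * (phi * e * Q) := by
  subst hS
  linear_combination (phi * (1 - e) * Q + sq) * (Si * hR - R * hSi) - phi * hSi

/-- the estimate -/
private theorem E8l_est {phi e a Q G R Si : ℂ} {x : ℝ} (hx : 0 ≤ x)
    (h1 : ‖phi‖ ≤ 0.21) (h2 : ‖e‖ ≤ 10 ^ 5 * x) (h3 : ‖a‖ ≤ 10 ^ 4 * x) (h4 : ‖Q‖ ≤ 0.8)
    (h5 : ‖G‖ ≤ 8) (h6 : ‖R‖ ≤ 160) (h7 : ‖Si‖ ≤ 158) :
    ‖phi * e - R * Si * (a * Q) * G + R * (a * G) - Si * (phi * e * Q)‖ ≤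
      2 * 10 ^ 9 * x := by
  have hx4 : 0 ≤ 10 ^ 4 * x := by positivity
  have hx5 : 0 ≤ 10 ^ 5 * x := by positivity
  have t1 : ‖phi * e‖ ≤ 0.21 * (10 ^ 5 * x) := by
    rw [norm_mul]
    exact mul_le_mul h1 h2 (norm_nonneg _) (by norm_num)
  have haQ : ‖a * Q‖ ≤ 10 ^ 4 * x * 0.8 := by
    rw [norm_mul]
    exact mul_le_mul h3 h4 (norm_nonneg _) hx4
  have haG : ‖a * G‖ ≤ 10 ^ 4 * x * 8 := by
    rw [norm_mul]
    exact mul_le_mul h3 h5 (norm_nonneg _) hx4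
  have hRS : ‖R * Si‖ ≤ 160 * 158 := by
    rw [norm_mul]
    exact mul_le_mul h6 h7 (norm_nonneg _) (by norm_num)
  have t2 : ‖R * Si * (a * Q) * G‖ ≤ 160 * 158 * (10 ^ 4 * x * 0.8) * 8 := by
    rw [norm_mul]
    refine mul_le_mul ?_ h5 (norm_nonneg _) (by positivity)
    rw [norm_mul]
    exact mul_le_mul hRS haQ (norm_nonneg _) (by norm_num)
  have t3 : ‖R * (a * G)‖ ≤ 160 * (10 ^ 4 * x * 8) := by
    rw [norm_mul]
    exact mul_le_mul h6 haG (norm_nonneg _) (by norm_num)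
  have t4 : ‖Si * (phi * e * Q)‖ ≤ 158 * (0.21 * (10 ^ 5 * x) * 0.8) := by
    rw [norm_mul]
    refine mul_le_mul h7 ?_ (norm_nonneg _) (by norm_num)
    rw [norm_mul]
    exact mul_le_mul t1 h4 (norm_nonneg _) (by positivity)
  have u1 := norm_sub_le (phi * e) (R * Si * (a * Q) * G)
  have u2 := norm_add_le (phi * e - R * Si * (a * Q) * G) (R * (a * G))
  have u3 := norm_sub_le (phi * e - R * Si * (a * Q) * G + R * (a * G)) (Si * (phi * e * Q))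
  have hn : 0.21 * (10 ^ 5 * x) + 160 * 158 * (10 ^ 4 * x * 0.8) * 8 + 160 * (10 ^ 4 * x * 8)
      + 158 * (0.21 * (10 ^ 5 * x) * 0.8) ≤ 2 * 10 ^ 9 * x := by
    norm_num
    linarith
  linarith

theorem E_low_gen {y' y W W' V : ℕ} {a0 : PS} (g : Geo y' y W W' V) (h : In y' y a0) {z : ℂ}
    (hz : ‖z‖ ≤ 1) :
    phi + ev (QQ y W W' V) z ≠ 0 ∧ ‖(phi + ev (QQ y W W' V) z)⁻¹‖ ≤ 158 ∧
    ‖ev (ker (aF a0 y W W' V)) z
      - (phi ^ 2 + 2 * phi * ev (QQ y W W' V) z + ev (sq (QQ y W W' V)) z)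
        / (phi + ev (QQ y W W' V) z)‖ ≤ 2 * 10 ^ 9 * (‖1 - z‖ * y') := by
  have hz' : ‖z‖ ≤ 1 := hz
  have hy' : 0 < (y' : ℝ) := by exact_mod_cast g.pos
  have a1 := Adm_one (y := y)
  have hff := ff_pos
  have hphi := phi_bd

  have hRR := (D5 g h a1).2
  have hGs := D7a g h a1
  have hps := h.lb.ps 1 Adm_one
  have hkp := h.lb.kp 1 Adm_one
  have hkn := h.lb.kn 1 Adm_one
  have hnab := Bd_nab (r := 1) zero_le_one
  have hQ := D3b g a1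
  have hsq := Bd_sq zero_le_one hQ hQ
  have hms := D8a g h a1
  have hmt := D9 g h a1
  have h2 : Bd 1 (2 : PS) (1 + 1) := by
    have h3 := Bd_add zero_le_one (Bd_one (r := 1) zero_le_one) (Bd_one (r := 1) zero_le_one)
    have h4 : (1 : PS) + 1 = 2 := by norm_num
    rwa [h4] at h3
  have ev2 : ev (2 : PS) z = 2 := by
    have h4 : (2 : PS) = 1 + 1 := by norm_num
    rw [h4, ev_add (Bd_one (r := 1) zero_le_one) (Bd_one (r := 1) zero_le_one) hz', ev_one]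
    norm_num
  have h2k := Bd_sub zero_le_one h2 hkn
  have h2kQ := Bd_smul phi (Bd_mul zero_le_one h2k hQ)
  obtain ⟨B1, hGG⟩ : ∃ B1, Bd 1 (Gs a0 y W W' + Gt a0 y V) B1 := by
    rw [GsGt g]
    exact ⟨_, Bd_add zero_le_one h2kQ hsq⟩
  obtain ⟨B2, hGt⟩ : ∃ B2, Bd 1 (Gt a0 y V) B2 := by
    have h3 := Bd_sub zero_le_one hGG hGs
    rw [add_sub_cancel_left] at h3
    exact ⟨_, h3⟩
  have hphi1 := Bd_smul phi (Bd_one (r := 1) zero_le_one)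

  obtain ⟨k, hk⟩ : ∃ k : ℂ, k = ev (ker a0) z := ⟨_, rfl⟩
  obtain ⟨Q, hQv⟩ : ∃ Q : ℂ, Q = ev (QQ y W W' V) z := ⟨_, rfl⟩
  obtain ⟨s, hs⟩ : ∃ s : ℂ, s = ev (sq (QQ y W W' V)) z := ⟨_, rfl⟩
  obtain ⟨R, hR⟩ : ∃ R : ℂ, R = ev (RR a0 y W W' V) z := ⟨_, rfl⟩
  obtain ⟨p, hp⟩ : ∃ p : ℂ, p = ev (psi a0) z := ⟨_, rfl⟩
  have hG : ev (Gs a0 y W W') z + ev (Gt a0 y V) z = phi * (2 - k) * Q + s := by
    rw [← ev_add hGs hGt hz', GsGt g, ev_add h2kQ hsq hz', ev_smul, ev_mul h2k hQ hz',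
      ev_sub h2 hkn hz', ev2, ← hk, ← hQv, ← hs]
    ring
  have hmsv : ev (ms a0 y W W' V) z =
      R * (ev (Gs a0 y W W') z + p * ((1 - z) * ev (Gs a0 y W W') z)) := by
    have hn := Bd_mul zero_le_one hnab hGs
    rw [ms_eq g h, ev_mul hRR (Bd_add zero_le_one hGs (Bd_mul zero_le_one hps hn)) hz',
      ev_add hGs (Bd_mul zero_le_one hps hn) hz', ev_mul hps hn hz', ev_mul hnab hGs hz',
      ev_nab, ← hR, ← hp]
  have hmtv : ev (mt a0 y W W' V) z =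
      R * (ev (Gt a0 y V) z + p * ((1 - z) * ev (Gt a0 y V) z)) := by
    have hn := Bd_mul zero_le_one hnab hGt
    rw [mt_eq g h, ev_mul hRR (Bd_add zero_le_one hGt (Bd_mul zero_le_one hps hn)) hz',
      ev_add hGt (Bd_mul zero_le_one hps hn) hz', ev_mul hps hn hz', ev_mul hnab hGt hz',
      ev_nab, ← hR, ← hp]
  have hker : ev (ker (aF a0 y W W' V)) z = phi * k + R * ((phi * (2 - k) * Q + s) +
      p * (1 - z) * (phi * (2 - k) * Q + s)) := by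
    have hk' := Bd_smul phi hkn
    rw [D10 g h, ev_add (Bd_add zero_le_one hk' hms) hmt hz', ev_add hk' hms hz', ev_smul,
      hmsv, hmtv, ← hk, ← hG]
    ring

  have hS0 := ev_inv (D2 g a1).1 (Bd_add zero_le_one hphi1 hQ) (D2 g a1).2 hz'
  have hSv : ev (phi • 1 + QQ y W W' V) z = phi + Q := by
    rw [ev_add hphi1 hQ hz', ev_smul, ev_one, mul_one, ← hQv]
  rw [hSv] at hS0
  have hSi : ‖((phi : ℂ) + Q)⁻¹‖ ≤ 158 := by
    rw [← hS0.2]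
    exact ev_norm (D2 g a1).2 hz'

  have hnQ := Bd_mul zero_le_one hnab hQ
  have hpnQ := Bd_mul zero_le_one hps hnQ
  have hD : phi • 1 + QQ y W W' V * a0⁻¹ =
      phi • 1 + (QQ y W W' V + psi a0 * (nab * QQ y W W' V)) := by rw [D4 g h]
  obtain ⟨B3, hBd⟩ : ∃ B3, Bd 1 (phi • 1 + QQ y W W' V * a0⁻¹) B3 := by
    rw [hD]
    exact ⟨_, Bd_add zero_le_one hphi1 (Bd_add zero_le_one hQ hpnQ)⟩
  have hR0 := ev_inv (D5 g h a1).1 hBd (D5 g h a1).2 hz'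
  have hRv : ev (phi • 1 + QQ y W W' V * a0⁻¹) z = (phi + Q) + p * (1 - z) * Q := by
    rw [hD, ev_add hphi1 (Bd_add zero_le_one hQ hpnQ) hz', ev_smul, ev_one, mul_one,
      ev_add hQ hpnQ hz', ev_mul hps hnQ hz', ev_mul hnab hQ hz', ev_nab, ← hQv, ← hp]
    ring
  have hR1 : R * ((phi + Q) + p * (1 - z) * Q) = 1 := by
    rw [← hRv, hR]
    have h3 : ev (RR a0 y W W' V) z = (ev (phi • 1 + QQ y W W' V * a0⁻¹) z)⁻¹ := hR0.2
    rw [h3, inv_mul_cancel₀ hR0.1]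

  have hp1 : ‖p * (1 - z)‖ ≤ 10 ^ 4 * (‖1 - z‖ * y') := by
    rw [norm_mul]
    have h3 : ‖p‖ ≤ 10 ^ 4 * y' := by
      rw [hp]
      exact ev_norm hps hz'
    calc ‖p‖ * ‖1 - z‖ ≤ 10 ^ 4 * y' * ‖1 - z‖ := mul_le_mul_of_nonneg_right h3 (norm_nonneg _)
      _ = 10 ^ 4 * (‖1 - z‖ * y') := by ring
  have hk1 : ‖k - 1‖ ≤ 10 ^ 5 * (‖1 - z‖ * y') := by
    have h3 : k - 1 = (1 - z) * ev (kap (ker a0)) z := by
      have h4 : ev (nab * kap (ker a0)) z = (1 - z) * ev (kap (ker a0)) z := by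
        rw [ev_mul hnab hkp hz', ev_nab]
      rw [← h4, nab_kap, ev_sub hkn (Bd_one (r := 1) zero_le_one) hz', ev_one, ← hk]
    rw [h3, norm_mul]
    calc ‖1 - z‖ * ‖ev (kap (ker a0)) z‖ ≤ ‖1 - z‖ * (10 ^ 5 * y') :=
          mul_le_mul_of_nonneg_left (ev_norm hkp hz') (norm_nonneg _)
      _ = 10 ^ 5 * (‖1 - z‖ * y') := by ring
  have hφn : ‖(phi : ℂ)‖ ≤ 0.21 := by
    rw [Complex.norm_real, Real.norm_of_nonneg (by linarith [hphi.1])]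
    linarith [hphi.2]
  have hQn : ‖Q‖ ≤ 0.8 := by
    rw [hQv]
    exact ev_norm hQ hz'
  have hsn : ‖s‖ ≤ 1.28 := by
    rw [hs]
    refine (ev_norm hsq hz').trans ?_
    norm_num
  have hRn : ‖R‖ ≤ 160 := by
    rw [hR]
    exact ev_norm hRR hz'
  have hkn' : ‖k‖ ≤ 38 := by
    rw [hk]
    exact ev_norm hkn hz'
  have hGn : ‖(phi : ℂ) * (1 - (k - 1)) * Q + s‖ ≤ 8 := by
    have i1 : ‖(1 : ℂ) - (k - 1)‖ ≤ 40 := by
      have e0 : (1 : ℂ) - (k - 1) = 2 - k := by ring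
      rw [e0]
      have := norm_sub_le (2 : ℂ) k
      rw [Complex.norm_ofNat] at this
      linarith
    have i2 : ‖(phi : ℂ) * (1 - (k - 1))‖ ≤ 0.21 * 40 := by
      rw [norm_mul]
      exact mul_le_mul hφn i1 (norm_nonneg _) (by norm_num)
    have i3 : ‖(phi : ℂ) * (1 - (k - 1)) * Q‖ ≤ 0.21 * 40 * 0.8 := by
      rw [norm_mul]
      exact mul_le_mul i2 hQn (norm_nonneg _) (by norm_num)
    have i4 := norm_add_le ((phi : ℂ) * (1 - (k - 1)) * Q) s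
    have i5 : (0.21 : ℝ) * 40 * 0.8 + 1.28 ≤ 8 := by norm_num
    linarith
  have hest := E8l_est (phi := (phi : ℂ)) (e := k - 1) (a := p * (1 - z)) (Q := Q)
    (R := R) (Si := ((phi : ℂ) + Q)⁻¹) (x := ‖1 - z‖ * y') (by positivity)
    hφn hk1 hp1 hQn hGn hRn hSi
  rw [← E8l_id (S := (phi : ℂ) + Q) rfl (mul_inv_cancel₀ hS0.1) hR1] at hest
  rw [hker, ← hQv, ← hs, div_eq_mul_inv]
  have e1 : (phi : ℂ) * (1 + (k - 1)) = phi * k := by ring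
  have e2 : (phi : ℂ) * (1 - (k - 1)) = phi * (2 - k) := by ring
  rw [e1, e2] at hest
  exact ⟨hS0.1, hSi, hest⟩

theorem E_low {y' y W W' V : ℕ} {a0 : PS} (g : Geo y' y W W' V) (h : In y' y a0) {z : ℂ}
    (hz : ‖z‖ = 1) (hlow : ‖1 - z‖ * y' ≤ ff / 10 ^ 11) :
    ‖ev (ker (aF a0 y W W' V)) z
      - (phi ^ 2 + 2 * phi * ev (QQ y W W' V) z + ev (sq (QQ y W W' V)) z)
        / (phi + ev (QQ y W W' V) z)‖ ≤ ff / 10 := by
  refine (E_low_gen g h hz.le).2.2.trans ?_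
  have hff := ff_pos
  calc 2 * 10 ^ 9 * (‖1 - z‖ * y') ≤ 2 * 10 ^ 9 * (ff / 10 ^ 11) :=
        mul_le_mul_of_nonneg_left hlow (by norm_num)
    _ ≤ ff / 10 := by
        norm_num
        linarith

end MP18
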