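import Pool.Agent.Lib.MP_18566a_pr.T.E8
import Pool.Agent.Lib.MP_18566a_pr.T.D9f

set_option autoImplicit false

namespace MP18

open Finset PowerSeries

theorem LBm_aF {y' y W W' V : ℕ} {a0 : PS} (g : Geo y' y W W' V) (h : In y' y a0) :
    LBm y (aF a0 y W W' V) := by
  have hphi : 0 < phi := lt_of_lt_of_le (by norm_num) phi_bd.1
  have hy : (0 : ℝ) ≤ y := Nat.cast_nonneg y
  have hpr := PR_F g h
  have hc : ∀ n, coeff n (aF a0 y W W' V) = phi * coeff n a0 + coeff n (QQ y W W' V) := by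
    intro n
    unfold aF
    rw [map_add, PowerSeries.coeff_smul, smul_eq_mul]
  refine ⟨?_, ?_, ?_, ?_, ?_, hpr, S1F g h hpr, S0F g h hpr⟩
  · intro n
    rw [hc]
    exact add_nonneg (mul_nonneg hphi.le (h.lb.nn n)) (QQ_nn y W W' V n)
  · rw [hc]
    exact add_pos_of_pos_of_nonneg (mul_pos hphi h.lb.pos) (QQ_nn y W W' V 0)
  · intro r hr
    exact Bd_mono (D6 g h hr) (by nlinarith)
  · intro r hr
    exact Bd_mono (D14 g h hr) (by norm_num)
  · intro r hr
    exact Bd_mono (D11 g h hr) (by nlinarith)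

theorem Cpl_aF {y' y W W' V : ℕ} {a0 : PS} (g : Geo y' y W W' V) (h : In y' y a0) :
    Cpl (aF a0 y W W' V) (9 * y + 3 * mid W W' + 1) 1 := by
  have h1 : Cpl (phi • a0) (9 * y + 3 * mid W W' + 1) (phi * 1) :=
    Cpl_mono (Cpl_smul phi h.cpl) (by omega)
  have h2 := Cpl_add h1 (Cpl_QQ g)
  have e : phi * 1 + (1 - phi) = 1 := by ring
  rw [e] at h2
  exact h2

end MP18
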