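import Pool.Agent.Lib.MP_18566a_pr.T.E9

set_option autoImplicit false

namespace MP18

open Finset PowerSeries

theorem slo_coeff {y Y l : ℕ} (h : y < Y) :
    coeff l (slo y Y) = if y ≤ l ∧ l < Y then 1 / ((Y : ℝ) - y) else 0 := by
  unfold slo
  rw [PowerSeries.coeff_X_pow_mul']
  by_cases h1 : y ≤ l
  · rw [if_pos h1, coeff_U]
    by_cases h2 : l < Y
    · rw [if_pos (by omega), if_pos ⟨h1, h2⟩, Nat.cast_sub h.le]
    · rw [if_neg (by omega), if_neg (fun hh => h2 hh.2)]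
  · rw [if_neg h1, if_neg (fun hh => h1 hh.1)]

theorem slo_nn (y Y n : ℕ) : 0 ≤ coeff n (slo y Y) := by
  unfold slo
  rw [PowerSeries.coeff_X_pow_mul']
  split
  · exact U_nn _ _
  · exact le_refl _

theorem F1_slo_hi {y Y : ℕ} (h : y < Y) {n : ℕ} (hn : Y ≤ n) : coeff n (slo y Y) = 0 := by
  rw [slo_coeff h, if_neg (by omega)]

theorem F1_slo_lo {y Y : ℕ} {n : ℕ} (hn : n < y) : coeff n (slo y Y) = 0 := by
  unfold slo
  rw [PowerSeries.coeff_X_pow_mul', if_neg (by omega)]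

theorem Cpl_slo {y Y : ℕ} (h : y < Y) : Cpl (slo y Y) Y 1 := by
  refine ⟨fun n hn => F1_slo_hi h hn, ?_⟩
  have h0 : 0 < Y - y := by omega
  have h1 := (Cpl_U h0).2
  have h2 : Y = y + (Y - y) := by omega
  rw [h2, Finset.sum_range_add]
  have h3 : ∑ x ∈ range y, coeff x (slo y (y + (Y - y))) = 0 :=
    Finset.sum_eq_zero fun x hx => F1_slo_lo (Finset.mem_range.1 hx)
  rw [h3, zero_add]
  have h4 : ∀ x ∈ range (Y - y), coeff (y + x) (slo y (y + (Y - y))) = coeff x (U (Y - y)) := by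
    intro x _
    unfold slo
    rw [add_comm y x, PowerSeries.coeff_X_pow_mul]
    congr 2
    omega
  rw [Finset.sum_congr rfl h4, h1]

/-- weighted norm of a series supported below `Y` -/
theorem F1_Bd_supp {A : PS} {Y : ℕ} {r C : ℝ} (hr : 1 ≤ r) (hA : ∀ n, Y < n → coeff n A = 0)
    (h : Bd 1 A C) : Bd r A (r ^ Y * C) := by
  intro N
  have h1 : ∀ n ∈ range N, |coeff n A| * r ^ n ≤ r ^ Y * (|coeff n A| * 1 ^ n) := by
    intro n _
    by_cases hn : n ≤ Y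
    · have h2 : r ^ n ≤ r ^ Y := pow_le_pow_right₀ hr hn
      rw [one_pow, mul_one, mul_comm (r ^ Y)]
      exact mul_le_mul_of_nonneg_left h2 (abs_nonneg _)
    · rw [hA n (by omega)]
      simp
  calc ∑ n ∈ range N, |coeff n A| * r ^ n ≤ ∑ n ∈ range N, r ^ Y * (|coeff n A| * 1 ^ n) :=
        Finset.sum_le_sum h1
    _ = r ^ Y * ∑ n ∈ range N, |coeff n A| * 1 ^ n := by rw [Finset.mul_sum]
    _ ≤ r ^ Y * C := mul_le_mul_of_nonneg_left (h N) (by positivity)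

theorem Bd_slo {y Y : ℕ} {r : ℝ} (h : y < Y) (hr : 1 ≤ r) : Bd r (slo y Y) (r ^ Y) := by
  have h1 : Bd 1 (slo y Y) 1 := Bd_of_Cpl (fun n => slo_nn y Y n) (Cpl_slo h)
  have h2 := F1_Bd_supp (Y := Y) hr (fun n hn => F1_slo_hi h hn.le) h1
  rwa [mul_one] at h2

theorem F1_nab_slo {y Y : ℕ} (h : y < Y) :
    nab * slo y Y = (1 / ((Y : ℝ) - y)) • (X ^ y - X ^ Y) := by
  unfold slo
  have e1 : nab * (X ^ y * U (Y - y)) = X ^ y * (nab * U (Y - y)) := by ring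
  rw [e1, nab_U, Nat.cast_sub h.le, mul_smul_comm]
  congr 1
  rw [mul_sub, mul_one, ← pow_add]
  congr 2
  omega

theorem Bd_nab_slo {y Y : ℕ} {r : ℝ} (hy : 0 < y) (h : 10 * y ≤ Y) (hr : 1 ≤ r) :
    Bd r (nab * slo y Y) (r ^ Y / (4 * y)) := by
  have hyY : y < Y := by omega
  have hr0 : (0 : ℝ) ≤ r := by linarith
  rw [F1_nab_slo hyY]
  have h1 : Bd r (X ^ y - X ^ Y : PS) (r ^ y + r ^ Y) :=
    Bd_sub hr0 (Bd_Xpow hr0 y) (Bd_Xpow hr0 Y)
  have h2 := Bd_smul (1 / ((Y : ℝ) - y)) h1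
  refine Bd_mono h2 ?_
  have hyr : (0 : ℝ) < y := by exact_mod_cast hy
  have hY : (10 : ℝ) * y ≤ Y := by exact_mod_cast h
  have hd : 9 * (y : ℝ) ≤ Y - y := by linarith
  have hdp : (0 : ℝ) < Y - y := by linarith
  have h3 : r ^ y ≤ r ^ Y := pow_le_pow_right₀ hr hyY.le
  have h4 : (0 : ℝ) < r ^ Y := by positivity
  rw [abs_of_pos (by positivity)]
  calc 1 / ((Y : ℝ) - y) * (r ^ y + r ^ Y) ≤ 1 / (9 * (y : ℝ)) * (2 * r ^ Y) := by
        apply mul_le_mul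
        · exact one_div_le_one_div_of_le (by positivity) hd
        · linarith
        · positivity
        · positivity
    _ = (8 / 9) * (r ^ Y / (4 * y)) := by field_simp; ring
    _ ≤ r ^ Y / (4 * y) := by
        have : 0 < r ^ Y / (4 * (y : ℝ)) := by positivity
        linarith

noncomputable def rE (a0 : PS) (y W W' V : ℕ) (kb : ℝ) (Y : ℕ) : PS :=
  kb • (slo y Y * (aF a0 y W W' V)⁻¹)

noncomputable def cE (a0 : PS) (y W W' V Y : ℕ) : PS :=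
  PowerSeries.mk (fun n => coeff n (aF a0 y W W' V) * Cum (slo y Y) n
    + (Cum (aF a0 y W W' V) n - coeff n (aF a0 y W W' V)) * coeff n (slo y Y))

noncomputable def xE (a0 : PS) (y W W' V : ℕ) (kb : ℝ) (Y : ℕ) : PS :=
  (2 * kb) • cE a0 y W W' V Y + kb ^ 2 • sq (slo y Y) - kb • (ker (aF a0 y W W' V) * slo y Y)

theorem F1_inv_eq (A : PS) : A⁻¹ = 1 + nab * psi A := by
  rw [nab_psi]
  ring

theorem F_rE {y' y W W' V Y : ℕ} {a0 : PS} {r kb : ℝ} (g : Geo y' y W W' V) (h : In y' y a0)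
    (hr : Adm r y) (hY : 10 * y ≤ Y) (hk0 : 0 ≤ kb) :
    Bd r (rE a0 y W W' V kb Y) (400 * kb * r ^ Y) := by
  have hy := g.y_pos
  have hyY : y < Y := by omega
  have hr1 := hr.1
  have hr0 : (0 : ℝ) ≤ r := by linarith
  have hyr : (0 : ℝ) < y := by exact_mod_cast hy
  have e1 : rE a0 y W W' V kb Y
      = kb • (slo y Y + psi (aF a0 y W W' V) * (nab * slo y Y)) := by
    unfold rE
    rw [F1_inv_eq]
    congr 1
    ring
  rw [e1]
  have h1 := Bd_add hr0 (Bd_slo hyY hr1) (Bd_mul hr0 (D6 g h hr) (Bd_nab_slo hy hY hr1))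
  have h2 := Bd_smul kb h1
  refine Bd_mono h2 ?_
  rw [abs_of_nonneg hk0]
  have h3 : (0 : ℝ) < r ^ Y := by positivity
  have h4 : 1400 * (y : ℝ) * (r ^ Y / (4 * y)) = 350 * r ^ Y := by field_simp; ring
  rw [h4]
  have h5 : 0 ≤ kb * r ^ Y := by positivity
  nlinarith

theorem F1_coeff0_slo {y' y W W' V Y : ℕ} (g : Geo y' y W W' V) : coeff 0 (slo y Y) = 0 :=
  F1_slo_lo g.y_pos

theorem F1_coeff0_mul (A B : PS) : coeff 0 (A * B) = coeff 0 A * coeff 0 B := by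
  simp [PowerSeries.coeff_mul]

theorem F_aT {y' y W W' V Y : ℕ} {a0 : PS} {kb : ℝ} (g : Geo y' y W W' V) (h : In y' y a0)
    (hY : 10 * y ≤ Y) (hk0 : 0 ≤ kb) :
    aT a0 y W W' V kb Y = aF a0 y W W' V * (1 + rE a0 y W W' V kb Y) ∧
    (aT a0 y W W' V kb Y)⁻¹ = (aF a0 y W W' V)⁻¹ * (1 + rE a0 y W W' V kb Y)⁻¹ ∧
    coeff 0 (aT a0 y W W' V kb Y) ≠ 0 ∧ coeff 0 (1 + rE a0 y W W' V kb Y) ≠ 0 := by
  have hF := (D5b g h).2.2
  have h1 : aT a0 y W W' V kb Y = aF a0 y W W' V * (1 + rE a0 y W W' V kb Y) := by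
    unfold aT rE
    have e1 := mul_inv_PS hF
    have e2 : aF a0 y W W' V * (1 + kb • (slo y Y * (aF a0 y W W' V)⁻¹))
        = aF a0 y W W' V + kb • (slo y Y * (aF a0 y W W' V * (aF a0 y W W' V)⁻¹)) := by
      rw [mul_add, mul_one, mul_smul_comm]
      congr 2
      ring
    rw [e2, e1, mul_one]
  refine ⟨h1, ?_, ?_, ?_⟩
  · rw [h1, mul_inv_rev_PS]
  · unfold aT
    rw [map_add, PowerSeries.coeff_smul, F1_coeff0_slo g, smul_zero, add_zero]
    exact hF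
  · unfold rE
    rw [map_add, PowerSeries.coeff_smul, F1_coeff0_mul, F1_coeff0_slo g, zero_mul, smul_zero, add_zero]
    simp

theorem F1_Cum_smul (c : ℝ) (A : PS) (n : ℕ) : Cum (c • A) n = c * Cum A n := by
  unfold Cum
  rw [Finset.mul_sum]
  apply Finset.sum_congr rfl
  intro j _
  rw [PowerSeries.coeff_smul, smul_eq_mul]

theorem F1_sq_aT (a0 : PS) (y W W' V Y : ℕ) (kb : ℝ) :
    sq (aT a0 y W W' V kb Y) = sq (aF a0 y W W' V) + (2 * kb) • cE a0 y W W' V Y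
      + kb ^ 2 • sq (slo y Y) := by
  unfold aT
  rw [sq_add, sq_smul]
  have e1 : (2 : ℕ) • (PowerSeries.mk (fun n => coeff n (aF a0 y W W' V) * Cum (kb • slo y Y) n
      + (Cum (aF a0 y W W' V) n - coeff n (aF a0 y W W' V)) * coeff n (kb • slo y Y)) : PS)
      = (2 * kb) • cE a0 y W W' V Y := by
    apply PowerSeries.ext
    intro n
    unfold cE
    rw [PowerSeries.coeff_smul, map_nsmul, PowerSeries.coeff_mk, PowerSeries.coeff_mk,
      F1_Cum_smul, PowerSeries.coeff_smul, nsmul_eq_mul]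
    push_cast
    ring
  rw [e1]
  ring

theorem F_DT {y' y W W' V Y : ℕ} {a0 : PS} {kb : ℝ} (g : Geo y' y W W' V) (h : In y' y a0)
    (hY : 10 * y ≤ Y) (hk0 : 0 ≤ kb) :
    ker (aT a0 y W W' V kb Y) - ker (aF a0 y W W' V)
      = (xE a0 y W W' V kb Y + psi (aF a0 y W W' V) * (nab * xE a0 y W W' V kb Y))
        * (1 + rE a0 y W W' V kb Y)⁻¹ := by
  obtain ⟨-, h2, -, h4⟩ := F_aT (kb := kb) g h hY hk0
  have h5 := mul_inv_PS h4
  set q := (1 + rE a0 y W W' V kb Y)⁻¹ with hq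
  have h6 : ker (aT a0 y W W' V kb Y)
      = (sq (aF a0 y W W' V) + (2 * kb) • cE a0 y W W' V Y + kb ^ 2 • sq (slo y Y))
        * ((aF a0 y W W' V)⁻¹ * q) := by
    unfold ker
    rw [h2, F1_sq_aT]
  have h7 : ker (aF a0 y W W' V)
      = sq (aF a0 y W W' V) * (aF a0 y W W' V)⁻¹ * ((1 + rE a0 y W W' V kb Y) * q) := by
    rw [h5, mul_one]
    rfl
  have h8 : xE a0 y W W' V kb Y + psi (aF a0 y W W' V) * (nab * xE a0 y W W' V kb Y)
      = xE a0 y W W' V kb Y * (aF a0 y W W' V)⁻¹ := by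
    rw [F1_inv_eq]
    ring
  rw [h8]
  have h9 : ker (aT a0 y W W' V kb Y) - ker (aF a0 y W W' V)
      = (sq (aF a0 y W W' V) + (2 * kb) • cE a0 y W W' V Y + kb ^ 2 • sq (slo y Y))
        * ((aF a0 y W W' V)⁻¹ * q)
        - sq (aF a0 y W W' V) * (aF a0 y W W' V)⁻¹ * ((1 + rE a0 y W W' V kb Y) * q) := by
    rw [h6, ← h7]
  rw [h9]
  unfold xE rE ker
  simp only [PowerSeries.smul_eq_C_mul]
  ring

theorem F1_cE_bd {y' y W W' V Y : ℕ} {a0 : PS} {r : ℝ} (g : Geo y' y W W' V) (h : In y' y a0)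
    (hr : Adm r y) (hY : 10 * y ≤ Y) : Bd r (cE a0 y W W' V Y) (2.1 * r ^ Y) := by
  have hy := g.y_pos
  have hyY : y < Y := by omega
  have hr1 := hr.1
  have hr0 : (0 : ℝ) ≤ r := by linarith
  have hFnn := (LBm_aF g h).nn
  have hFc := Cpl_aF g h
  have hF1 : Bd 1 (aF a0 y W W' V) 1 := Bd_of_Cpl hFnn hFc
  have hs1 : Bd 1 (slo y Y) 1 := Bd_of_Cpl (fun n => slo_nn y Y n) (Cpl_slo hyY)
  have hmid := g.mid_le.2
  have hsupp : ∀ n, 10 * y < n → coeff n (aF a0 y W W' V) = 0 := by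
    intro n hn
    apply hFc.1
    have h1 : (3 * mid W W' : ℕ) ≤ y := by
      have h2 : (3 : ℝ) * (mid W W' : ℕ) ≤ y := by
        have h3 : (0 : ℝ) ≤ (mid W W' : ℕ) := Nat.cast_nonneg _
        nlinarith
      exact_mod_cast h2
    omega
  have hFr : Bd r (aF a0 y W W' V) ((1 + 1 / 10 ^ 5) * 1) := Bd_supp hr hsupp hF1
  have hsr := Bd_slo hyY hr1
  have hCs0 : ∀ n, 0 ≤ Cum (slo y Y) n := fun n =>
    Finset.sum_nonneg fun j _ => slo_nn y Y j
  have hCs1 : ∀ n, Cum (slo y Y) n ≤ 1 := fun n => (abs_le.1 (Cum_le hs1 n)).2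
  have hCF : ∀ n, Cum (aF a0 y W W' V) n - coeff n (aF a0 y W W' V)
      = ∑ j ∈ range n, coeff j (aF a0 y W W' V) := by
    intro n
    unfold Cum
    rw [Finset.sum_range_succ]
    ring
  have hCF0 : ∀ n, 0 ≤ Cum (aF a0 y W W' V) n - coeff n (aF a0 y W W' V) := by
    intro n
    rw [hCF]
    exact Finset.sum_nonneg fun j _ => hFnn j
  have hCF1 : ∀ n, Cum (aF a0 y W W' V) n - coeff n (aF a0 y W W' V) ≤ 1 := by
    intro n
    have h1 := (abs_le.1 (Cum_le hF1 n)).2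
    have h2 := hFnn n
    linarith
  intro N
  have hterm : ∀ n ∈ range N, |coeff n (cE a0 y W W' V Y)| * r ^ n
      ≤ |coeff n (aF a0 y W W' V)| * r ^ n + |coeff n (slo y Y)| * r ^ n := by
    intro n _
    unfold cE
    rw [PowerSeries.coeff_mk]
    have h0 : 0 ≤ coeff n (aF a0 y W W' V) * Cum (slo y Y) n
        + (Cum (aF a0 y W W' V) n - coeff n (aF a0 y W W' V)) * coeff n (slo y Y) :=
      add_nonneg (mul_nonneg (hFnn n) (hCs0 n)) (mul_nonneg (hCF0 n) (slo_nn y Y n))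
    rw [abs_of_nonneg h0, abs_of_nonneg (hFnn n), abs_of_nonneg (slo_nn y Y n), ← add_mul]
    apply mul_le_mul_of_nonneg_right _ (by positivity)
    apply add_le_add
    · calc coeff n (aF a0 y W W' V) * Cum (slo y Y) n ≤ coeff n (aF a0 y W W' V) * 1 :=
          mul_le_mul_of_nonneg_left (hCs1 n) (hFnn n)
        _ = _ := mul_one _
    · calc (Cum (aF a0 y W W' V) n - coeff n (aF a0 y W W' V)) * coeff n (slo y Y)
          ≤ 1 * coeff n (slo y Y) := mul_le_mul_of_nonneg_right (hCF1 n) (slo_nn y Y n)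
        _ = _ := one_mul _
  have h1 : (1 : ℝ) ≤ r ^ Y := one_le_pow₀ hr1
  calc ∑ n ∈ range N, |coeff n (cE a0 y W W' V Y)| * r ^ n
      ≤ ∑ n ∈ range N, (|coeff n (aF a0 y W W' V)| * r ^ n + |coeff n (slo y Y)| * r ^ n) :=
        Finset.sum_le_sum hterm
    _ = ∑ n ∈ range N, |coeff n (aF a0 y W W' V)| * r ^ n
        + ∑ n ∈ range N, |coeff n (slo y Y)| * r ^ n := Finset.sum_add_distrib
    _ ≤ (1 + 1 / 10 ^ 5) * 1 + r ^ Y := add_le_add (hFr N) (hsr N)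
    _ ≤ 2.1 * r ^ Y := by
        norm_num
        linarith

theorem F_xE {y' y W W' V Y : ℕ} {a0 : PS} {r kb : ℝ} (g : Geo y' y W W' V) (h : In y' y a0)
    (hr : Adm r y) (hY : 10 * y ≤ Y) (hk0 : 0 ≤ kb) (hk1 : kb ≤ 1) :
    Bd r (xE a0 y W W' V kb Y) (50 * kb * r ^ Y) := by
  have hy := g.y_pos
  have hyY : y < Y := by omega
  have hr1 := hr.1
  have hr0 : (0 : ℝ) ≤ r := by linarith
  have hs1 : Bd 1 (slo y Y) 1 := Bd_of_Cpl (fun n => slo_nn y Y n) (Cpl_slo hyY)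
  have hsr := Bd_slo hyY hr1
  have h1 := Bd_smul (2 * kb) (F1_cE_bd g h hr hY)
  have h2 := Bd_smul (kb ^ 2) (Bd_sq hr0 hs1 hsr)
  have h3 := Bd_smul kb (Bd_mul hr0 (D14 g h hr) hsr)
  have h4 := Bd_sub hr0 (Bd_add hr0 h1 h2) h3
  unfold xE
  refine Bd_mono h4 ?_
  rw [abs_of_nonneg (by positivity : (0 : ℝ) ≤ 2 * kb), abs_of_nonneg (by positivity : (0 : ℝ) ≤ kb ^ 2),
    abs_of_nonneg hk0]
  have h5 : (0 : ℝ) < r ^ Y := by positivity
  have h6 : kb ^ 2 * r ^ Y ≤ kb * r ^ Y := by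
    apply mul_le_mul_of_nonneg_right _ h5.le
    nlinarith
  have h7 : 0 ≤ kb * r ^ Y := by positivity
  nlinarith

end MP18
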