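import Pool.Agent.Lib.MP_18566a_pr.T.F1

set_option autoImplicit false

namespace MP18

open Finset PowerSeries

theorem F2_coeff_nab_succ (A : PS) (n : ℕ) : coeff (n + 1) (nab * A) = coeff (n + 1) A - coeff n A := by
  unfold nab
  rw [sub_mul, one_mul, map_sub, PowerSeries.coeff_succ_X_mul]

theorem F2_coeff_nab_zero (A : PS) : coeff 0 (nab * A) = coeff 0 A := by
  unfold nab
  rw [sub_mul, one_mul, map_sub, PowerSeries.coeff_zero_X_mul, sub_zero]

theorem F2_dom {r : ℝ} (hr : 0 ≤ r) {A B1 B2 B3 B4 B5 : PS} {C1 C2 C3 C4 C5 : ℝ}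
    (h : ∀ n, |coeff n A| ≤ |coeff n B1| + |coeff n B2| + |coeff n B3| + |coeff n B4| + |coeff n B5|)
    (h1 : Bd r B1 C1) (h2 : Bd r B2 C2) (h3 : Bd r B3 C3) (h4 : Bd r B4 C4) (h5 : Bd r B5 C5) :
    Bd r A (C1 + C2 + C3 + C4 + C5) := by
  intro N
  have hterm : ∀ n ∈ range N, |coeff n A| * r ^ n ≤ |coeff n B1| * r ^ n + |coeff n B2| * r ^ n
      + |coeff n B3| * r ^ n + |coeff n B4| * r ^ n + |coeff n B5| * r ^ n := by
    intro n _
    have h0 := mul_le_mul_of_nonneg_right (h n) (pow_nonneg hr n)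
    calc |coeff n A| * r ^ n ≤ _ := h0
      _ = _ := by ring
  have hsum := Finset.sum_le_sum hterm
  simp only [Finset.sum_add_distrib] at hsum
  have a1 := h1 N
  have a2 := h2 N
  have a3 := h3 N
  have a4 := h4 N
  have a5 := h5 N
  linarith

theorem F2_Cum_slo_le {y Y : ℕ} (h : y < Y) (k : ℕ) :
    Cum (slo y Y) (y + k) ≤ ((k : ℝ) + 1) * (1 / ((Y : ℝ) - y)) := by
  unfold Cum
  have e1 : y + k + 1 = y + (k + 1) := by ring
  rw [e1, Finset.sum_range_add]
  have h3 : ∑ x ∈ range y, coeff x (slo y Y) = 0 :=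
    Finset.sum_eq_zero fun x hx => F1_slo_lo (Finset.mem_range.1 hx)
  rw [h3, zero_add]
  have hd : (0 : ℝ) < (Y : ℝ) - y := by
    have : (y : ℝ) < Y := by exact_mod_cast h
    linarith
  have h4 : ∀ x ∈ range (k + 1), coeff (y + x) (slo y Y) ≤ 1 / ((Y : ℝ) - y) := by
    intro x _
    rw [slo_coeff h]
    split
    · exact le_refl _
    · positivity
  have h5 := Finset.sum_le_card_nsmul _ _ _ h4
  rw [Finset.card_range, nsmul_eq_mul] at h5
  push_cast at h5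
  exact h5

theorem F2_Cum_slo_lt {y Y n : ℕ} (hn : n < y) : Cum (slo y Y) n = 0 := by
  unfold Cum
  apply Finset.sum_eq_zero
  intro x hx
  apply F1_slo_lo
  have := Finset.mem_range.1 hx
  omega

theorem F2_inv_y {y' y W W' V : ℕ} (g : Geo y' y W W' V) : 1 / (y : ℝ) ≤ 1 / 10 ^ 73 * (1 / W) := by
  have hy := g.y_pos
  have hW := g.W_pos
  have hyr : (0 : ℝ) < y := by exact_mod_cast hy
  have hWr : (0 : ℝ) < W := by exact_mod_cast hW
  have h1 := g.Whi
  unfold ww at h1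
  have h2 : 1 / (1 / 10 ^ 73 * (y : ℝ)) ≤ 1 / W := one_div_le_one_div_of_le hWr h1
  have h3 : 1 / (y : ℝ) = 1 / 10 ^ 73 * (1 / (1 / 10 ^ 73 * (y : ℝ))) := by
    field_simp
  rw [h3]
  exact mul_le_mul_of_nonneg_left h2 (by positivity)

/-- the new law times the cumulative sums of the slope -/
theorem F2_first {y' y W W' V Y : ℕ} {a0 : PS} (g : Geo y' y W W' V) (h : In y' y a0)
    (hY : 10 * y ≤ Y) (n : ℕ) :
    |coeff (n + 1) (aF a0 y W W' V) - coeff n (aF a0 y W W' V)| * Cum (slo y Y) (n + 1)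
      ≤ |coeff (n + 1) (nab * Qs y W W')| + |coeff (n + 1) ((1 / (4 * (y : ℝ))) • (X ^ y : PS))|
        + |coeff (n + 1) ((1 / (4 * (y : ℝ))) • (X ^ (y + V) : PS))| := by
  have hy := g.y_pos
  have hyY : y < Y := by omega
  have hyr : (0 : ℝ) < y := by exact_mod_cast hy
  have hYr : (10 : ℝ) * y ≤ Y := by exact_mod_cast hY
  have hd : 9 * (y : ℝ) ≤ (Y : ℝ) - y := by linarith
  have hdinv : 1 / ((Y : ℝ) - y) ≤ 1 / (9 * y) := one_div_le_one_div_of_le (by positivity) hd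
  have hs1 : Bd 1 (slo y Y) 1 := Bd_of_Cpl (fun n => slo_nn y Y n) (Cpl_slo hyY)
  have hCs0 : ∀ n, 0 ≤ Cum (slo y Y) n := fun n => Finset.sum_nonneg fun j _ => slo_nn y Y j
  have hCs1 : ∀ n, Cum (slo y Y) n ≤ 1 := fun n => (abs_le.1 (Cum_le hs1 n)).2
  have hff := ff_pos
  have hff1 : ff ≤ 1 / 10 := by
    unfold ff
    norm_num
  have hphi := phi_bd
  have hVp := g.Vpos
  have hVr : (1 : ℝ) ≤ V := by exact_mod_cast hVp

  have hdec : coeff (n + 1) (aF a0 y W W' V) - coeff n (aF a0 y W W' V)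
      = phi * (coeff (n + 1) a0 - coeff n a0) + ff * (coeff (n + 1) (TT y V) - coeff n (TT y V))
        + coeff (n + 1) (nab * Qs y W W') := by
    rw [F2_coeff_nab_succ]
    unfold aF QQ
    simp only [map_add, PowerSeries.coeff_smul, smul_eq_mul]
    ring
  have hTT : ∀ m, coeff m (TT y V) = if y ≤ m ∧ m < y + V then 1 / (V : ℝ) else 0 := by
    intro m
    unfold TT
    rw [PowerSeries.coeff_X_pow_mul']
    by_cases h1 : y ≤ m
    · rw [if_pos h1, coeff_U]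
      by_cases h2 : m < y + V
      · rw [if_pos (by omega), if_pos ⟨h1, h2⟩]
      · rw [if_neg (by omega), if_neg (fun hh => h2 hh.2)]
    · rw [if_neg h1, if_neg (fun hh => h1 hh.1)]
  have hx1 : coeff (n + 1) ((1 / (4 * (y : ℝ))) • (X ^ y : PS)) = if n + 1 = y then 1 / (4 * (y : ℝ)) else 0 := by
    rw [PowerSeries.coeff_smul, PowerSeries.coeff_X_pow, smul_eq_mul]
    split <;> simp
  have hx2 : coeff (n + 1) ((1 / (4 * (y : ℝ))) • (X ^ (y + V) : PS))
      = if n + 1 = y + V then 1 / (4 * (y : ℝ)) else 0 := by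
    rw [PowerSeries.coeff_smul, PowerSeries.coeff_X_pow, smul_eq_mul]
    split <;> simp
  have h4y : 0 < 1 / (4 * (y : ℝ)) := by positivity
  have habs2 : (0 : ℝ) ≤ |if n + 1 = y + V then 1 / (4 * (y : ℝ)) else 0| := abs_nonneg _
  have habs1 : (0 : ℝ) ≤ |if n + 1 = y then 1 / (4 * (y : ℝ)) else 0| := abs_nonneg _
  rw [hx1, hx2]
  have hQ : |coeff (n + 1) (nab * Qs y W W')| * Cum (slo y Y) (n + 1)
      ≤ |coeff (n + 1) (nab * Qs y W W')| := by
    calc _ ≤ |coeff (n + 1) (nab * Qs y W W')| * 1 :=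
          mul_le_mul_of_nonneg_left (hCs1 _) (abs_nonneg _)
      _ = _ := mul_one _
  have htri : |coeff (n + 1) (aF a0 y W W' V) - coeff n (aF a0 y W W' V)| * Cum (slo y Y) (n + 1)
      ≤ |phi * (coeff (n + 1) a0 - coeff n a0)
          + ff * (coeff (n + 1) (TT y V) - coeff n (TT y V))| * Cum (slo y Y) (n + 1)
        + |coeff (n + 1) (nab * Qs y W W')| * Cum (slo y Y) (n + 1) := by
    rw [hdec, ← add_mul]
    exact mul_le_mul_of_nonneg_right (abs_add_le _ _) (hCs0 _)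
  rcases lt_trichotomy (n + 1) y with hlt | heq | hgt
  · rw [F2_Cum_slo_lt hlt, mul_zero]
    have := abs_nonneg (coeff (n + 1) (nab * Qs y W W'))
    linarith
  ·
    have hE : Cum (slo y Y) (n + 1) ≤ 1 / (9 * y) := by
      rw [heq]
      have h1 := F2_Cum_slo_le hyY 0
      rw [add_zero] at h1
      push_cast at h1
      rw [zero_add, one_mul] at h1
      exact h1.trans hdinv
    have ha1 : coeff (n + 1) a0 = 0 := h.cpl.1 _ (by omega)
    have ha2 : 0 ≤ coeff n a0 := h.lb.nn n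
    have ha3 : coeff n a0 ≤ 1 := by
      have hb : Bd 1 a0 1 := Bd_of_Cpl h.lb.nn h.cpl
      have := Bd_coeff (by norm_num) hb n
      rw [one_pow, mul_one] at this
      exact (abs_le.1 this).2
    have ht1 : coeff (n + 1) (TT y V) = 1 / (V : ℝ) := by
      rw [hTT, if_pos (by omega)]
    have ht2 : coeff n (TT y V) = 0 := by
      rw [hTT, if_neg (by omega)]
    have hV1 : 1 / (V : ℝ) ≤ 1 := by
      rw [div_le_one (by linarith)]
      exact hVr
    have hV0 : 0 < 1 / (V : ℝ) := by positivity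
    have hb : |phi * (coeff (n + 1) a0 - coeff n a0)
          + ff * (coeff (n + 1) (TT y V) - coeff n (TT y V))| ≤ 1 := by
      rw [ha1, ht1, ht2, zero_sub, sub_zero, abs_le]
      constructor
      · nlinarith
      · nlinarith
    have h1 : |phi * (coeff (n + 1) a0 - coeff n a0)
          + ff * (coeff (n + 1) (TT y V) - coeff n (TT y V))| * Cum (slo y Y) (n + 1)
          ≤ 1 * (1 / (9 * y)) :=
      mul_le_mul hb hE (hCs0 _) (by norm_num)
    have h2 : (1 : ℝ) / (9 * y) ≤ 1 / (4 * y) :=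
      one_div_le_one_div_of_le (by positivity) (by linarith)
    rw [if_pos heq, abs_of_pos h4y]
    linarith
  · have ha1 : coeff (n + 1) a0 = 0 := h.cpl.1 _ (by omega)
    have ha2 : coeff n a0 = 0 := h.cpl.1 _ (by omega)
    by_cases hV : n + 1 = y + V
    · have hE : Cum (slo y Y) (n + 1) ≤ ((V : ℝ) + 1) * (1 / (9 * y)) := by
        rw [hV]
        exact (F2_Cum_slo_le hyY V).trans (mul_le_mul_of_nonneg_left hdinv (by positivity))
      have ht1 : coeff (n + 1) (TT y V) = 0 := by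
        rw [hTT, if_neg (by omega)]
      have ht2 : coeff n (TT y V) = 1 / (V : ℝ) := by
        rw [hTT, if_pos (by omega)]
      have hb : |phi * (coeff (n + 1) a0 - coeff n a0)
          + ff * (coeff (n + 1) (TT y V) - coeff n (TT y V))| = ff * (1 / (V : ℝ)) := by
        rw [ha1, ha2, ht1, ht2, sub_zero, mul_zero, zero_add, zero_sub, mul_neg, abs_neg,
          abs_of_nonneg (by positivity)]
      have h1 : |phi * (coeff (n + 1) a0 - coeff n a0)
          + ff * (coeff (n + 1) (TT y V) - coeff n (TT y V))| * Cum (slo y Y) (n + 1)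
          ≤ ff * (1 / (V : ℝ)) * (((V : ℝ) + 1) * (1 / (9 * y))) := by
        rw [hb]
        exact mul_le_mul_of_nonneg_left hE (by positivity)
      have h2 : ff * (1 / (V : ℝ)) * (((V : ℝ) + 1) * (1 / (9 * y))) ≤ 1 / (4 * y) := by
        have h3 : (1 / (V : ℝ)) * ((V : ℝ) + 1) ≤ 2 := by
          rw [one_div, ← div_eq_inv_mul, div_le_iff₀ (by linarith)]
          linarith
        calc ff * (1 / (V : ℝ)) * (((V : ℝ) + 1) * (1 / (9 * y)))
            = ff * ((1 / (V : ℝ)) * ((V : ℝ) + 1)) * (1 / (9 * y)) := by ring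
          _ ≤ (1 / 10) * 2 * (1 / (9 * y)) := by
              apply mul_le_mul_of_nonneg_right _ (by positivity)
              exact mul_le_mul hff1 h3 (by positivity) (by norm_num)
          _ = (4 / 45) * (1 / (4 * y)) := by field_simp; norm_num
          _ ≤ 1 / (4 * y) := by linarith
      rw [if_pos hV, abs_of_pos h4y]
      linarith
    · have ht : coeff (n + 1) (TT y V) - coeff n (TT y V) = 0 := by
        rw [hTT, hTT]
        by_cases h1 : n + 1 < y + V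
        · rw [if_pos (by omega), if_pos (by omega), sub_self]
        · rw [if_neg (by omega), if_neg (by omega), sub_self]
      have hb : |phi * (coeff (n + 1) a0 - coeff n a0)
          + ff * (coeff (n + 1) (TT y V) - coeff n (TT y V))| * Cum (slo y Y) (n + 1) = 0 := by
        rw [ha1, ha2, ht]
        simp
      linarith

theorem F2_cE {y' y W W' V Y : ℕ} {a0 : PS} {r : ℝ} (g : Geo y' y W W' V) (h : In y' y a0)
    (hr : Adm r y) (hY : 10 * y ≤ Y) :
    Bd r (nab * cE a0 y W W' V Y) (1.6 * r ^ Y / W) := by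
  have hy := g.y_pos
  have hW := g.W_pos
  have hWr : (0 : ℝ) < W := by exact_mod_cast hW
  have hyY : y < Y := by omega
  have hr1 := hr.1
  have hr0 : (0 : ℝ) ≤ r := by linarith
  have hyr : (0 : ℝ) < y := by exact_mod_cast hy
  have hYr : (10 : ℝ) * y ≤ Y := by exact_mod_cast hY
  have hd : 9 * (y : ℝ) ≤ (Y : ℝ) - y := by linarith
  have hdinv : 1 / ((Y : ℝ) - y) ≤ 1 / (9 * y) := one_div_le_one_div_of_le (by positivity) hd
  have hFnn := (LBm_aF g h).nn
  have hFc := Cpl_aF g h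
  have hF1 : Bd 1 (aF a0 y W W' V) 1 := Bd_of_Cpl hFnn hFc
  have hmid := g.mid_le.2
  have hmid3 : (3 * mid W W' : ℕ) ≤ y := by
    have h2 : (3 : ℝ) * (mid W W' : ℕ) ≤ y := by
      have h3 : (0 : ℝ) ≤ (mid W W' : ℕ) := Nat.cast_nonneg _
      nlinarith
    exact_mod_cast h2
  have hmid1 : 3 * mid W W' + 1 ≤ y ∨ y = 0 := by
    left
    have h2 : (3 : ℝ) * (mid W W' : ℕ) < y := by
      have h3 : (0 : ℝ) ≤ (mid W W' : ℕ) := Nat.cast_nonneg _
      nlinarith
    have : (3 * mid W W' : ℕ) < y := by exact_mod_cast h2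
    omega
  have hsupp : ∀ n, 10 * y < n → coeff n (aF a0 y W W' V) = 0 := by
    intro n hn
    apply hFc.1
    omega
  have hFr : Bd r (aF a0 y W W' V) ((1 + 1 / 10 ^ 5) * 1) := Bd_supp hr hsupp hF1
  have hQs : Bd r (nab * Qs y W W') ((1 + 1 / 10 ^ 5) * (1.584 / W)) := by
    apply Bd_supp hr _ (Bd_nab_Qs g)
    intro n hn
    obtain ⟨m, rfl⟩ : ∃ m, n = m + 1 := ⟨n - 1, by omega⟩
    rw [F2_coeff_nab_succ, (Cpl_Qs g).1 _ (by omega), (Cpl_Qs g).1 _ (by omega), sub_zero]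
  have hb2 : Bd r ((1 / (4 * (y : ℝ))) • (X ^ y : PS)) (|1 / (4 * (y : ℝ))| * r ^ y) :=
    Bd_smul _ (Bd_Xpow hr0 y)
  have hb3 : Bd r ((1 / (4 * (y : ℝ))) • (X ^ (y + V) : PS)) (|1 / (4 * (y : ℝ))| * r ^ (y + V)) :=
    Bd_smul _ (Bd_Xpow hr0 (y + V))
  have hb4 : Bd r ((2 / (9 * (y : ℝ))) • (X * aF a0 y W W' V))
      (|2 / (9 * (y : ℝ))| * (r * ((1 + 1 / 10 ^ 5) * 1))) :=
    Bd_smul _ (Bd_mul hr0 (Bd_X hr0) hFr)
  have hb5 := Bd_nab_slo hy hY hr1
  have hdom : ∀ n, |coeff n (nab * cE a0 y W W' V Y)| ≤ |coeff n (nab * Qs y W W')|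
      + |coeff n ((1 / (4 * (y : ℝ))) • (X ^ y : PS))|
      + |coeff n ((1 / (4 * (y : ℝ))) • (X ^ (y + V) : PS))|
      + |coeff n ((2 / (9 * (y : ℝ))) • (X * aF a0 y W W' V))|
      + |coeff n (nab * slo y Y)| := by
    intro n
    rcases n with _ | n
    · have h0 : coeff 0 (nab * cE a0 y W W' V Y) = 0 := by
        rw [F2_coeff_nab_zero]
        unfold cE
        rw [PowerSeries.coeff_mk, F2_Cum_slo_lt hy, F1_slo_lo hy]
        ring
      rw [h0, abs_zero]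
      positivity
    · have e0 : coeff (n + 1) (nab * cE a0 y W W' V Y)
          = (coeff (n + 1) (aF a0 y W W' V) - coeff n (aF a0 y W W' V)) * Cum (slo y Y) (n + 1)
            + coeff n (aF a0 y W W' V) * (coeff (n + 1) (slo y Y) + coeff n (slo y Y))
            + Cum (aF a0 y W W' V) n * coeff (n + 1) (nab * slo y Y) := by
        rw [F2_coeff_nab_succ, F2_coeff_nab_succ]
        unfold cE
        rw [PowerSeries.coeff_mk, PowerSeries.coeff_mk]
        have e1 : Cum (slo y Y) (n + 1) = Cum (slo y Y) n + coeff (n + 1) (slo y Y) := by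
          unfold Cum
          rw [Finset.sum_range_succ _ (n + 1)]
        have e2 : Cum (aF a0 y W W' V) (n + 1)
            = Cum (aF a0 y W W' V) n + coeff (n + 1) (aF a0 y W W' V) := by
          unfold Cum
          rw [Finset.sum_range_succ _ (n + 1)]
        rw [e1, e2]
        ring
      rw [e0]
      have hCum0 : 0 ≤ Cum (slo y Y) (n + 1) := Finset.sum_nonneg fun j _ => slo_nn y Y j
      have t1 : |(coeff (n + 1) (aF a0 y W W' V) - coeff n (aF a0 y W W' V))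
          * Cum (slo y Y) (n + 1)| ≤ |coeff (n + 1) (nab * Qs y W W')|
            + |coeff (n + 1) ((1 / (4 * (y : ℝ))) • (X ^ y : PS))|
            + |coeff (n + 1) ((1 / (4 * (y : ℝ))) • (X ^ (y + V) : PS))| := by
        rw [abs_mul, abs_of_nonneg hCum0]
        exact F2_first g h hY n
      have hsle : ∀ m, coeff m (slo y Y) ≤ 1 / (9 * y) := by
        intro m
        rw [slo_coeff hyY]
        split
        · exact hdinv
        · positivity
      have t2 : |coeff n (aF a0 y W W' V) * (coeff (n + 1) (slo y Y) + coeff n (slo y Y))|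
          ≤ |coeff (n + 1) ((2 / (9 * (y : ℝ))) • (X * aF a0 y W W' V))| := by
        rw [PowerSeries.coeff_smul, PowerSeries.coeff_succ_X_mul, smul_eq_mul]
        have p1 := hFnn n
        have p2 := slo_nn y Y (n + 1)
        have p3 := slo_nn y Y n
        rw [abs_of_nonneg (mul_nonneg p1 (add_nonneg p2 p3)), abs_of_nonneg (by positivity),
          mul_comm (2 / (9 * (y : ℝ)))]
        apply mul_le_mul_of_nonneg_left _ p1
        have q1 := hsle (n + 1)
        have q2 := hsle n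
        have q3 : (2 : ℝ) / (9 * y) = 1 / (9 * y) + 1 / (9 * y) := by ring
        rw [q3]
        exact add_le_add q1 q2
      have t3 : |Cum (aF a0 y W W' V) n * coeff (n + 1) (nab * slo y Y)|
          ≤ |coeff (n + 1) (nab * slo y Y)| := by
        rw [abs_mul]
        calc _ ≤ 1 * |coeff (n + 1) (nab * slo y Y)| :=
              mul_le_mul_of_nonneg_right (Cum_le hF1 n) (abs_nonneg _)
          _ = _ := one_mul _
      have t4 := abs_add_le ((coeff (n + 1) (aF a0 y W W' V) - coeff n (aF a0 y W W' V))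
          * Cum (slo y Y) (n + 1)
            + coeff n (aF a0 y W W' V) * (coeff (n + 1) (slo y Y) + coeff n (slo y Y)))
          (Cum (aF a0 y W W' V) n * coeff (n + 1) (nab * slo y Y))
      have t5 := abs_add_le ((coeff (n + 1) (aF a0 y W W' V) - coeff n (aF a0 y W W' V))
          * Cum (slo y Y) (n + 1))
          (coeff n (aF a0 y W W' V) * (coeff (n + 1) (slo y Y) + coeff n (slo y Y)))
      linarith
  have hall := F2_dom hr0 hdom hQs hb2 hb3 hb4 hb5
  refine Bd_mono hall ?_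
  have hiy := F2_inv_y g
  have hV : y + V ≤ Y := by
    have := g.V_small
    omega
  have p1 : r ^ y ≤ r ^ Y := pow_le_pow_right₀ hr1 hyY.le
  have p2 : r ^ (y + V) ≤ r ^ Y := pow_le_pow_right₀ hr1 hV
  have p3 : r ≤ r ^ Y := by
    calc r = r ^ 1 := (pow_one r).symm
      _ ≤ r ^ Y := pow_le_pow_right₀ hr1 (by omega)
  have p4 : (1 : ℝ) ≤ r ^ Y := one_le_pow₀ hr1
  have p5 : (0 : ℝ) < r ^ Y := by positivity
  rw [abs_of_pos (by positivity : (0 : ℝ) < 1 / (4 * (y : ℝ))),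
    abs_of_pos (by positivity : (0 : ℝ) < 2 / (9 * (y : ℝ)))]
  have q1 : 1 / (4 * (y : ℝ)) * r ^ y ≤ 1 / (4 * (y : ℝ)) * r ^ Y :=
    mul_le_mul_of_nonneg_left p1 (by positivity)
  have q2 : 1 / (4 * (y : ℝ)) * r ^ (y + V) ≤ 1 / (4 * (y : ℝ)) * r ^ Y :=
    mul_le_mul_of_nonneg_left p2 (by positivity)
  have q3 : 2 / (9 * (y : ℝ)) * (r * ((1 + 1 / 10 ^ 5) * 1)) ≤ 1 / (4 * (y : ℝ)) * r ^ Y := by
    have e1 : 2 / (9 * (y : ℝ)) * (r * ((1 + 1 / 10 ^ 5) * 1))
        = (8 / 9 * (1 + 1 / 10 ^ 5)) * (1 / (4 * (y : ℝ)) * r) := by field_simp; norm_num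
    rw [e1]
    have e2 : 1 / (4 * (y : ℝ)) * r ≤ 1 / (4 * (y : ℝ)) * r ^ Y :=
      mul_le_mul_of_nonneg_left p3 (by positivity)
    have e3 : 0 ≤ 1 / (4 * (y : ℝ)) * r := by positivity
    have e4 : (8 / 9 * (1 + 1 / 10 ^ 5) : ℝ) ≤ 1 := by norm_num
    nlinarith
  have q4 : r ^ Y / (4 * (y : ℝ)) = 1 / (4 * (y : ℝ)) * r ^ Y := by ring
  have q5 : 1 / (4 * (y : ℝ)) * r ^ Y = 1 / 4 * (1 / (y : ℝ)) * r ^ Y := by field_simp
  have q6 : 1 / (y : ℝ) * r ^ Y ≤ 1 / 10 ^ 73 * (1 / W) * r ^ Y :=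
    mul_le_mul_of_nonneg_right hiy p5.le
  have q7 : 1 / 10 ^ 73 * (1 / (W : ℝ)) * r ^ Y ≤ 1 / 1000 * (1 / W * r ^ Y) := by
    have e1 : 0 < 1 / (W : ℝ) * r ^ Y := by positivity
    have e2 : (1 / 10 ^ 73 : ℝ) ≤ 1 / 1000 := by norm_num
    calc 1 / 10 ^ 73 * (1 / (W : ℝ)) * r ^ Y = 1 / 10 ^ 73 * (1 / (W : ℝ) * r ^ Y) := by ring
      _ ≤ _ := mul_le_mul_of_nonneg_right e2 e1.le
  have q8 : (1 + 1 / 10 ^ 5) * (1.584 / (W : ℝ)) ≤ 1.59 * (1 / W * r ^ Y) := by
    have e1 : 0 < 1 / (W : ℝ) := by positivity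
    have e2 : 1 / (W : ℝ) ≤ 1 / W * r ^ Y := by nlinarith
    have e3 : (1.584 : ℝ) / W = 1.584 * (1 / W) := by ring
    rw [e3]
    norm_num at *
    nlinarith
  have q9 : 1.6 * r ^ Y / W = 1.6 * (1 / W * r ^ Y) := by ring
  rw [q9, q4]
  have e1 : 0 < 1 / (W : ℝ) * r ^ Y := by positivity
  have q10 : 1 / (4 * (y : ℝ)) * r ^ Y ≤ 1 / 4000 * (1 / W * r ^ Y) := by
    rw [q5]
    have : 1 / 4 * (1 / (y : ℝ)) * r ^ Y = 1 / 4 * (1 / (y : ℝ) * r ^ Y) := by ring
    rw [this]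
    linarith
  norm_num at *
  linarith

theorem F_nab_xE {y' y W W' V Y : ℕ} {a0 : PS} {r kb : ℝ} (g : Geo y' y W W' V) (h : In y' y a0)
    (hr : Adm r y) (hY : 10 * y ≤ Y) (hk0 : 0 ≤ kb) (hk1 : kb ≤ 1) :
    Bd r (nab * xE a0 y W W' V kb Y) (10 * kb * r ^ Y / W) := by
  have hy := g.y_pos
  have hW := g.W_pos
  have hWr : (0 : ℝ) < W := by exact_mod_cast hW
  have hyY : y < Y := by omega
  have hr1 := hr.1
  have hr0 : (0 : ℝ) ≤ r := by linarith
  have hyr : (0 : ℝ) < y := by exact_mod_cast hy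
  have hs1 : Bd 1 (slo y Y) 1 := Bd_of_Cpl (fun n => slo_nn y Y n) (Cpl_slo hyY)
  have e1 : nab * xE a0 y W W' V kb Y = (2 * kb) • (nab * cE a0 y W W' V Y)
      + kb ^ 2 • (nab * sq (slo y Y)) - kb • (ker (aF a0 y W W' V) * (nab * slo y Y)) := by
    unfold xE
    simp only [PowerSeries.smul_eq_C_mul]
    ring
  have h1 := Bd_smul (2 * kb) (F2_cE g h hr hY)
  have hns1 : Bd 1 (nab * slo y Y) (1 / (4 * y)) := by
    have := Bd_nab_slo hy hY (le_refl (1 : ℝ))
    rwa [one_pow] at this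
  have hsq1 := Bd_nab_sq hs1 hns1
  have hsqr : Bd r (nab * sq (slo y Y)) (r ^ Y * (4 * (1 / (4 * y)))) := by
    apply F1_Bd_supp hr1 _ hsq1
    intro n hn
    obtain ⟨m, rfl⟩ : ∃ m, n = m + 1 := ⟨n - 1, by omega⟩
    rw [F2_coeff_nab_succ, coeff_sq, coeff_sq, F1_slo_hi hyY (by omega), F1_slo_hi hyY (by omega)]
    ring
  have h2 := Bd_smul (kb ^ 2) hsqr
  have h3 := Bd_smul kb (Bd_mul hr0 (D14 g h hr) (Bd_nab_slo hy hY hr1))
  have h4 := Bd_sub hr0 (Bd_add hr0 h1 h2) h3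
  rw [e1]
  refine Bd_mono h4 ?_
  rw [abs_of_nonneg (by positivity : (0 : ℝ) ≤ 2 * kb), abs_of_nonneg (by positivity : (0 : ℝ) ≤ kb ^ 2),
    abs_of_nonneg hk0]
  have hiy := F2_inv_y g
  have p5 : (0 : ℝ) < r ^ Y := by positivity
  have p6 : 0 ≤ kb * r ^ Y := by positivity
  have e2 : 2 * kb * (1.6 * r ^ Y / W) = 3.2 * (kb * r ^ Y * (1 / W)) := by ring
  have e3 : kb ^ 2 * (r ^ Y * (4 * (1 / (4 * (y : ℝ))))) = kb * (kb * r ^ Y * (1 / y)) := by
    field_simp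
  have e4 : kb * (37.85 * (r ^ Y / (4 * (y : ℝ)))) = 37.85 / 4 * (kb * r ^ Y * (1 / y)) := by
    field_simp
  have e5 : 10 * kb * r ^ Y / W = 10 * (kb * r ^ Y * (1 / W)) := by ring
  have q1 : kb * r ^ Y * (1 / y) ≤ kb * r ^ Y * (1 / 10 ^ 73 * (1 / W)) :=
    mul_le_mul_of_nonneg_left hiy p6
  have q2 : kb * r ^ Y * (1 / 10 ^ 73 * (1 / (W : ℝ))) ≤ 1 / 1000 * (kb * r ^ Y * (1 / W)) := by
    have a1 : 0 ≤ kb * r ^ Y * (1 / (W : ℝ)) := by positivity
    have a2 : (1 / 10 ^ 73 : ℝ) ≤ 1 / 1000 := by norm_num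
    calc kb * r ^ Y * (1 / 10 ^ 73 * (1 / (W : ℝ))) = 1 / 10 ^ 73 * (kb * r ^ Y * (1 / (W : ℝ))) := by ring
      _ ≤ _ := mul_le_mul_of_nonneg_right a2 a1
  have q3 : 0 ≤ kb * r ^ Y * (1 / (y : ℝ)) := by positivity
  have q4 : kb * (kb * r ^ Y * (1 / (y : ℝ))) ≤ 1 * (kb * r ^ Y * (1 / (y : ℝ))) :=
    mul_le_mul_of_nonneg_right hk1 q3
  have q5 : 0 ≤ kb * r ^ Y * (1 / (W : ℝ)) := by positivity
  rw [e2, e3, e4, e5]
  linarith

theorem DT_bd {y' y W W' V Y : ℕ} {a0 : PS} {r kb : ℝ} (g : Geo y' y W W' V) (h : In y' y a0)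
    (hr : Adm r y) (hY : 10 * y ≤ Y) (hk0 : 0 ≤ kb) (hk : kb * r ^ Y ≤ 1 / 1000) :
    Bd r (ker (aT a0 y W W' V kb Y) - ker (aF a0 y W W' V)) (10 ^ 80 * kb * r ^ Y) := by
  have hy := g.y_pos
  have hW := g.W_pos
  have hWr : (0 : ℝ) < W := by exact_mod_cast hW
  have hr1 := hr.1
  have hr0 : (0 : ℝ) ≤ r := by linarith
  have hyr : (0 : ℝ) < y := by exact_mod_cast hy
  have p4 : (1 : ℝ) ≤ r ^ Y := one_le_pow₀ hr1
  have p6 : 0 ≤ kb * r ^ Y := by positivity
  have hk1 : kb ≤ 1 := by nlinarith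
  rw [F_DT g h hY hk0]
  have h1 := Bd_add hr0 (F_xE g h hr hY hk0 hk1) (Bd_mul hr0 (D6 g h hr) (F_nab_xE g h hr hY hk0 hk1))
  have hE := F_rE (kb := kb) g h hr hY hk0
  have hq : 400 * kb * r ^ Y < 1 := by nlinarith
  have h2 := (Bd_inv_one_sub hr0 (Bd_neg hE) hq).2
  rw [sub_neg_eq_add] at h2
  have h3 := Bd_mul hr0 h1 h2
  refine Bd_mono h3 ?_
  have hyW : (y : ℝ) / W ≤ 2 * 10 ^ 73 := by
    rw [div_le_iff₀ hWr]
    have h4 := g.Wlo
    unfold ww at h4
    have h5 : (y : ℝ) = 2 * 10 ^ 73 * (1 / 10 ^ 73 * y / 2) := by field_simp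
    calc (y : ℝ) = 2 * 10 ^ 73 * (1 / 10 ^ 73 * y / 2) := h5
      _ ≤ 2 * 10 ^ 73 * W := mul_le_mul_of_nonneg_left h4 (by positivity)
  have e1 : 1400 * (y : ℝ) * (10 * kb * r ^ Y / W) = 14000 * ((y : ℝ) / W) * (kb * r ^ Y) := by ring
  have e2 : 14000 * ((y : ℝ) / W) * (kb * r ^ Y) ≤ 14000 * (2 * 10 ^ 73) * (kb * r ^ Y) := by
    apply mul_le_mul_of_nonneg_right _ p6
    exact mul_le_mul_of_nonneg_left hyW (by norm_num)
  have e3 : 50 * kb * r ^ Y + 1400 * (y : ℝ) * (10 * kb * r ^ Y / W)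
      ≤ 10 ^ 78 * (kb * r ^ Y) := by
    rw [e1]
    have : 50 * kb * r ^ Y = 50 * (kb * r ^ Y) := by ring
    rw [this]
    nlinarith
  have e4 : 1 / (1 - 400 * kb * r ^ Y) ≤ 2 := by
    rw [div_le_iff₀ (by linarith)]
    nlinarith
  have e5 : 0 < 1 - 400 * kb * r ^ Y := by linarith
  calc (50 * kb * r ^ Y + 1400 * (y : ℝ) * (10 * kb * r ^ Y / W)) * (1 / (1 - 400 * kb * r ^ Y))
      ≤ (10 ^ 78 * (kb * r ^ Y)) * 2 := by
        apply mul_le_mul e3 e4 (by positivity) (by positivity)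
    _ ≤ 10 ^ 80 * kb * r ^ Y := by nlinarith

theorem DT_low {y' y W W' V Y : ℕ} {a0 : PS} {kb : ℝ} (g : Geo y' y W W' V) (h : In y' y a0)
    (hY : 10 * y ≤ Y) (hk0 : 0 ≤ kb) :
    ∀ n < y, coeff n (ker (aT a0 y W W' V kb Y)) = phi * coeff n (ker a0) := by
  intro n hn
  have h0 := (F_aT (kb := kb) g h hY hk0).2.2.1
  have hphi : phi ≠ 0 := by
    have := phi_bd.1
    intro hh
    rw [hh] at this
    norm_num at this
  have h1 : ∀ l < y, coeff l (aT a0 y W W' V kb Y) = coeff l (phi • a0) := by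
    intro l hl
    have hz : coeff l (kb • slo y Y) = 0 := by
      rw [PowerSeries.coeff_smul, F1_slo_lo hl, smul_zero]
    unfold aT aF
    rw [map_add, map_add, QQ_low g l hl, hz, add_zero, add_zero]
  have h2 := ker_congr h0 h1 n hn
  rw [h2, ker_smul hphi, PowerSeries.coeff_smul, smul_eq_mul]

end MP18
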