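import Pool.Agent.Lib.MP_18566a_pr.T.F2

set_option autoImplicit false

namespace MP18

open Finset PowerSeries

/-- dividing by nab gives the cumulative sums -/
theorem F3_aux1 (B : PS) (n : ℕ) : coeff n (B * nab⁻¹) = Cum B n := by
  have h1 : (PowerSeries.mk fun n => Cum B n) * nab = B := by
    ext n
    rw [nab, mul_sub, mul_one, map_sub]
    cases n with
    | zero =>
      rw [coeff_mk, PowerSeries.coeff_zero_mul_X, sub_zero, Cum]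
      simp
    | succ n =>
      rw [coeff_mk, PowerSeries.coeff_succ_mul_X, coeff_mk, Cum, Cum, sum_range_succ _ (n + 1)]
      ring
  have h2 : B * nab⁻¹ = PowerSeries.mk fun n => Cum B n := by
    conv_lhs => rw [← h1]
    rw [mul_assoc, nab_mul_inv, mul_one]
  rw [h2, coeff_mk]

theorem F3_aux2 (A B : PS) (n : ℕ) : Cum (A - B) n = Cum A n - Cum B n := by
  simp only [Cum, map_sub, sum_sub_distrib]

theorem F3_aux3 (n : ℕ) : Cum (1 : PS) n = 1 := by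
  rw [Cum, sum_eq_single 0]
  · simp
  · intro j _ hj
    rw [PowerSeries.coeff_one, if_neg hj]
  · intro h
    exact absurd (mem_range.2 (Nat.succ_pos n)) h

theorem F3_aux4 {B : PS} {Y : ℕ} {r : ℝ} (hr : 1 ≤ r) (h0 : ∀ n, 0 ≤ Cum B n) (h1 : ∀ n, Cum B n ≤ 1)
    (hY : ∀ n, Y ≤ n → Cum B n = 1) : Bd r ((B - 1) * nab⁻¹) (Y * r ^ Y) := by
  intro N
  have hr0 : (0 : ℝ) ≤ r := by linarith
  have h2 : ∀ n, |coeff n ((B - 1) * nab⁻¹)| * r ^ n ≤ if n < Y then r ^ Y else 0 := by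
    intro n
    rw [F3_aux1, F3_aux2, F3_aux3]
    split_ifs with hn
    · have h3 : |Cum B n - 1| ≤ 1 := by
        rw [abs_le]
        constructor <;> linarith [h0 n, h1 n]
      calc |Cum B n - 1| * r ^ n ≤ 1 * r ^ n := mul_le_mul_of_nonneg_right h3 (pow_nonneg hr0 n)
        _ = r ^ n := one_mul _
        _ ≤ r ^ Y := pow_le_pow_right₀ hr hn.le
    · rw [hY n (not_lt.1 hn), sub_self, abs_zero, zero_mul]
  calc ∑ n ∈ range N, |coeff n ((B - 1) * nab⁻¹)| * r ^ n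
      ≤ ∑ n ∈ range N, (if n < Y then r ^ Y else 0) := sum_le_sum fun n _ => h2 n
    _ = ((range N).filter (fun n => n < Y)).card * r ^ Y := by
        rw [← sum_filter, sum_const, nsmul_eq_mul]
    _ ≤ Y * r ^ Y := by
        refine mul_le_mul_of_nonneg_right ?_ (pow_nonneg hr0 Y)
        have h3 : (range N).filter (fun n => n < Y) ⊆ range Y := by
          intro n hn
          exact mem_range.2 (mem_filter.1 hn).2
        have h4 := card_le_card h3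
        rw [card_range] at h4
        exact_mod_cast h4

theorem F3_aux5 {A : PS} {Y : ℕ} (hA : ∀ n, 0 ≤ coeff n A) (hc : Cpl A Y 1) :
    (∀ n, 0 ≤ Cum A n) ∧ (∀ n, Cum A n ≤ 1) ∧ (∀ n, Y ≤ n → Cum A n = 1) := by
  refine ⟨fun n => sum_nonneg fun j _ => hA j, fun n => ?_, fun n hn => Cum_of_Cpl hc (by omega)⟩
  have h1 := Cum_mono hA (le_max_left n Y)
  rw [Cum_of_Cpl hc (le_trans (le_max_right n Y) (Nat.le_succ _))] at h1
  exact h1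

theorem F3_cumaF {y' y W W' V Y : ℕ} {a0 : PS} (g : Geo y' y W W' V) (h : In y' y a0)
    (hY : 10 * y ≤ Y) : (∀ n, 0 ≤ Cum (aF a0 y W W' V) n) ∧ (∀ n, Cum (aF a0 y W W' V) n ≤ 1) ∧
      (∀ n, Y ≤ n → Cum (aF a0 y W W' V) n = 1) := by
  refine F3_aux5 (LBm_aF g h).nn (Cpl_mono (Cpl_aF g h) ?_)
  have h1 := g.mid_le.2
  have h2 := g.y'_le
  have h3 := g.pos
  have h4 : (10 ^ 6 : ℕ) * mid W W' ≤ y := by exact_mod_cast h1
  omega

theorem F3_cume {y Y : ℕ} (hy : 0 < y) (hY : 10 * y ≤ Y) : (∀ n, 0 ≤ Cum (slo y Y) n) ∧ (∀ n, Cum (slo y Y) n ≤ 1) ∧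
      (∀ n, Y ≤ n → Cum (slo y Y) n = 1) :=
  F3_aux5 (slo_nn y Y) (Cpl_slo (by omega))

theorem F3_cumc (a0 : PS) (y W W' V Y n : ℕ) :
    Cum (cE a0 y W W' V Y) n = Cum (aF a0 y W W' V) n * Cum (slo y Y) n := by
  have h1 := Cum_sq (aF a0 y W W' V + slo y Y) n
  rw [sq_add] at h1
  have hadd : ∀ A B : PS, Cum (A + B) n = Cum A n + Cum B n := by
    intro A B
    simp only [Cum, map_add, sum_add_distrib]
  rw [hadd, hadd, hadd, Cum_sq, Cum_sq, two_smul, hadd] at h1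
  have h2 : Cum (cE a0 y W W' V Y) n + Cum (cE a0 y W W' V Y) n =
      2 * (Cum (aF a0 y W W' V) n * Cum (slo y Y) n) := by
    have h3 : Cum (cE a0 y W W' V Y) n + Cum (cE a0 y W W' V Y) n =
        (Cum (aF a0 y W W' V) n + Cum (slo y Y) n) ^ 2 - Cum (aF a0 y W W' V) n ^ 2 - Cum (slo y Y) n ^ 2 := by
      unfold cE
      linarith
    rw [h3]
    ring
  linarith

theorem F3_e {y Y : ℕ} {r : ℝ} (hr : 1 ≤ r) (hy : 0 < y) (hY : 10 * y ≤ Y) :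
    Bd r ((slo y Y - 1) * nab⁻¹) (Y * r ^ Y) := by
  obtain ⟨h1, h2, h3⟩ := F3_cume hy hY
  exact F3_aux4 hr h1 h2 h3

theorem F3_sqe {y Y : ℕ} {r : ℝ} (hr : 1 ≤ r) (hy : 0 < y) (hY : 10 * y ≤ Y) :
    Bd r ((sq (slo y Y) - 1) * nab⁻¹) (Y * r ^ Y) := by
  obtain ⟨h1, h2, h3⟩ := F3_cume hy hY
  refine F3_aux4 hr (fun n => ?_) (fun n => ?_) (fun n hn => ?_)
  · rw [Cum_sq]
    exact sq_nonneg _
  · rw [Cum_sq]
    exact pow_le_one₀ (h1 n) (h2 n)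
  · rw [Cum_sq, h3 n hn, one_pow]

theorem F3_ce {y' y W W' V Y : ℕ} {a0 : PS} {r : ℝ} (g : Geo y' y W W' V) (h : In y' y a0)
    (hr : 1 ≤ r) (hY : 10 * y ≤ Y) : Bd r ((cE a0 y W W' V Y - 1) * nab⁻¹) (Y * r ^ Y) := by
  obtain ⟨h1, h2, h3⟩ := F3_cume g.y_pos hY
  obtain ⟨k1, k2, k3⟩ := F3_cumaF g h hY
  refine F3_aux4 hr (fun n => ?_) (fun n => ?_) (fun n hn => ?_)
  · rw [F3_cumc]
    exact mul_nonneg (k1 n) (h1 n)
  · rw [F3_cumc]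
    exact mul_le_one₀ (k2 n) (h1 n) (h2 n)
  · rw [F3_cumc, k3 n hn, h3 n hn, one_mul]

/-- basic numbers -/
theorem F3_num {y' y W W' V Y : ℕ} {r kb : ℝ} (g : Geo y' y W W' V)
    (hr : Adm r y) (hY : 10 * y ≤ Y) (hk0 : 0 ≤ kb) (hk : kb * r ^ Y ≤ 1 / 1000) :
    1 ≤ r ^ Y ∧ kb ≤ 1 / 1000 ∧ (y : ℝ) ≤ Y / 10 ∧ (0 : ℝ) < y := by
  have h1 : 1 ≤ r ^ Y := one_le_pow₀ hr.1
  refine ⟨h1, ?_, ?_, by exact_mod_cast g.y_pos⟩
  · calc kb = kb * 1 := (mul_one _).symm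
      _ ≤ kb * r ^ Y := mul_le_mul_of_nonneg_left h1 hk0
      _ ≤ _ := hk
  · have : ((10 * y : ℕ) : ℝ) ≤ Y := by exact_mod_cast hY
    push_cast at this
    linarith

/-- the inverse of 1 + rE -/
theorem F3_inv {y' y W W' V Y : ℕ} {a0 : PS} {r kb : ℝ} (g : Geo y' y W W' V) (h : In y' y a0)
    (hr : Adm r y) (hY : 10 * y ≤ Y) (hk0 : 0 ≤ kb) (hk : kb * r ^ Y ≤ 1 / 1000) :
    Bd r (1 + rE a0 y W W' V kb Y)⁻¹ (5 / 3) := by
  have h1 := Bd_neg (F_rE g h hr hY hk0)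
  have hr0 : (0 : ℝ) ≤ r := by linarith [hr.1]
  have h2 : Bd r (-rE a0 y W W' V kb Y) (2 / 5) := Bd_mono h1 (by linarith)
  have h3 := (Bd_inv_one_sub hr0 h2 (by norm_num)).2
  rw [sub_neg_eq_add] at h3
  exact Bd_mono h3 (by norm_num)

/-- `(rE - k) / nab` -/
theorem F3_rEk {y' y W W' V Y : ℕ} {a0 : PS} {r kb : ℝ} (g : Geo y' y W W' V) (h : In y' y a0)
    (hr : Adm r y) (hY : 10 * y ≤ Y) (hk0 : 0 ≤ kb) (hk : kb * r ^ Y ≤ 1 / 1000) :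
    Bd r ((rE a0 y W W' V kb Y - kb • 1) * nab⁻¹) (141 * kb * r ^ Y * Y) := by
  have hr0 : (0 : ℝ) ≤ r := by linarith [hr.1]
  obtain ⟨n1, n2, n3, n4⟩ := F3_num g hr hY hk0 hk
  have he : (rE a0 y W W' V kb Y - kb • 1) * nab⁻¹ =
      kb • ((slo y Y - 1) * nab⁻¹ + psi (aF a0 y W W' V) * slo y Y) := by
    have h1 : (aF a0 y W W' V)⁻¹ = 1 + nab * psi (aF a0 y W W' V) := by
      rw [nab_psi]
      ring
    unfold rE
    rw [h1, ← smul_sub, smul_mul_assoc]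
    congr 1
    have h2 : (slo y Y * (1 + nab * psi (aF a0 y W W' V)) - 1) * nab⁻¹ =
        (slo y Y - 1) * nab⁻¹ + (nab * nab⁻¹) * (psi (aF a0 y W W' V) * slo y Y) := by ring
    rw [h2, nab_mul_inv, one_mul]
  rw [he]
  have h3 := F3_e (Y := Y) hr.1 g.y_pos hY
  have h4 := Bd_mul hr0 (D6 g h hr) (Bd_slo (Y := Y) (r := r) (show y < Y by have := g.y_pos; omega) hr.1)
  have h5 := Bd_smul kb (Bd_add hr0 h3 h4)
  refine Bd_mono h5 ?_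
  rw [abs_of_nonneg hk0]
  have h6 : (Y : ℝ) * r ^ Y + 1400 * y * r ^ Y ≤ 141 * r ^ Y * Y := by
    have h7 : (0 : ℝ) ≤ r ^ Y := by linarith
    nlinarith
  calc kb * (Y * r ^ Y + 1400 * y * r ^ Y) ≤ kb * (141 * r ^ Y * Y) := mul_le_mul_of_nonneg_left h6 hk0
    _ = 141 * kb * r ^ Y * Y := by ring

theorem F3_kerk {y' y W W' V Y : ℕ} {a0 : PS} {r kb : ℝ} (g : Geo y' y W W' V) (h : In y' y a0)
    (hr : Adm r y) (hY : 10 * y ≤ Y) (hk0 : 0 ≤ kb) (hk : kb * r ^ Y ≤ 1 / 1000) :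
    Bd r ((ker (aF a0 y W W' V) * slo y Y - 1) * nab⁻¹) (338 * r ^ Y * Y) := by
  have hr0 : (0 : ℝ) ≤ r := by linarith [hr.1]
  obtain ⟨n1, n2, n3, n4⟩ := F3_num g hr hY hk0 hk
  have he : (ker (aF a0 y W W' V) * slo y Y - 1) * nab⁻¹ =
      ker (aF a0 y W W' V) * ((slo y Y - 1) * nab⁻¹) + kap (ker (aF a0 y W W' V)) := by
    unfold kap
    ring
  rw [he]
  have h1 := Bd_mul hr0 (D14 g h hr) (F3_e (Y := Y) hr.1 g.y_pos hY)
  refine Bd_mono (Bd_add hr0 h1 (D11 g h hr)) ?_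
  have h7 : (0 : ℝ) ≤ Y * (r ^ Y - 1) := mul_nonneg (Nat.cast_nonneg Y) (by linarith)
  nlinarith

theorem F3_xk {y' y W W' V Y : ℕ} {a0 : PS} {r kb : ℝ} (g : Geo y' y W W' V) (h : In y' y a0)
    (hr : Adm r y) (hY : 10 * y ≤ Y) (hk0 : 0 ≤ kb) (hk : kb * r ^ Y ≤ 1 / 1000) :
    Bd r ((xE a0 y W W' V kb Y - (kb * (1 + kb)) • 1) * nab⁻¹) (341 * kb * r ^ Y * Y) := by
  have hr0 : (0 : ℝ) ≤ r := by linarith [hr.1]
  obtain ⟨n1, n2, n3, n4⟩ := F3_num g hr hY hk0 hk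
  have he : (xE a0 y W W' V kb Y - (kb * (1 + kb)) • 1) * nab⁻¹ =
      (2 * kb) • ((cE a0 y W W' V Y - 1) * nab⁻¹) + kb ^ 2 • ((sq (slo y Y) - 1) * nab⁻¹)
        - kb • ((ker (aF a0 y W W' V) * slo y Y - 1) * nab⁻¹) := by
    unfold xE
    have h1 : (kb * (1 + kb)) • (1 : PS) = (2 * kb) • 1 + kb ^ 2 • 1 - kb • 1 := by
      rw [← add_smul, ← sub_smul]
      congr 1
      ring
    rw [h1]
    simp only [← smul_mul_assoc, smul_sub]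
    ring
  rw [he]
  have h1 := Bd_smul (2 * kb) (F3_ce g h hr.1 hY)
  have h2 := Bd_smul (kb ^ 2) (F3_sqe (Y := Y) hr.1 g.y_pos hY)
  have h3 := Bd_smul kb (F3_kerk g h hr hY hk0 hk)
  refine Bd_mono (Bd_sub hr0 (Bd_add hr0 h1 h2) h3) ?_
  rw [abs_of_nonneg hk0, abs_of_nonneg (by linarith : (0 : ℝ) ≤ 2 * kb), abs_of_nonneg (by positivity : (0 : ℝ) ≤ kb ^ 2)]
  have h4 : (0 : ℝ) ≤ r ^ Y * Y := mul_nonneg (by linarith) (Nat.cast_nonneg Y)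
  have h5 : kb ^ 2 ≤ kb := by nlinarith
  have h6 : kb ^ 2 * (r ^ Y * Y) ≤ kb * (r ^ Y * Y) := mul_le_mul_of_nonneg_right h5 h4
  nlinarith

theorem DT_kap {y' y W W' V Y : ℕ} {a0 : PS} {r kb : ℝ} (g : Geo y' y W W' V) (h : In y' y a0)
    (hr : Adm r y) (hY : 10 * y ≤ Y) (hk0 : 0 ≤ kb) (hk : kb * r ^ Y ≤ 1 / 1000) :
    Bd r ((ker (aT a0 y W W' V kb Y) - ker (aF a0 y W W' V) - kb • 1) * nab⁻¹)
      (10 ^ 6 * kb * r ^ Y * Y) := by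
  have hr0 : (0 : ℝ) ≤ r := by linarith [hr.1]
  obtain ⟨n1, n2, n3, n4⟩ := F3_num g hr hY hk0 hk
  have hinv : (1 + rE a0 y W W' V kb Y) * (1 + rE a0 y W W' V kb Y)⁻¹ = 1 :=
    mul_inv_PS (F_aT g h hY hk0).2.2.2
  have he : (ker (aT a0 y W W' V kb Y) - ker (aF a0 y W W' V) - kb • 1) * nab⁻¹ =
      (1 + rE a0 y W W' V kb Y)⁻¹ * ((xE a0 y W W' V kb Y - (kb * (1 + kb)) • 1) * nab⁻¹
        + psi (aF a0 y W W' V) * xE a0 y W W' V kb Y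
        - kb • ((rE a0 y W W' V kb Y - kb • 1) * nab⁻¹)) := by
    rw [F_DT g h hY hk0]
    have h0 : psi (aF a0 y W W' V) * xE a0 y W W' V kb Y =
        (psi (aF a0 y W W' V) * (nab * xE a0 y W W' V kb Y)) * nab⁻¹ := by
      have : (psi (aF a0 y W W' V) * (nab * xE a0 y W W' V kb Y)) * nab⁻¹ =
        (nab * nab⁻¹) * (psi (aF a0 y W W' V) * xE a0 y W W' V kb Y) := by ring
      rw [this, nab_mul_inv, one_mul]
    rw [h0]
    have h1 : (kb * (1 + kb)) • (1 : PS) = kb • 1 + (kb * kb) • 1 := by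
      rw [← add_smul]
      congr 1
      ring
    have h2 : kb • ((rE a0 y W W' V kb Y - kb • 1) * nab⁻¹) =
        (kb • rE a0 y W W' V kb Y - (kb * kb) • 1) * nab⁻¹ := by
      rw [← smul_mul_assoc, smul_sub, smul_smul]
    rw [h1, h2]
    have h3 : (kb • (1 : PS)) = (1 + rE a0 y W W' V kb Y)⁻¹ * (kb • 1 + kb • rE a0 y W W' V kb Y) := by
      have h4 : kb • (1 : PS) + kb • rE a0 y W W' V kb Y = kb • (1 + rE a0 y W W' V kb Y) := by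
        rw [smul_add]
      rw [h4, mul_smul_comm, mul_comm, hinv]
    calc ((xE a0 y W W' V kb Y + psi (aF a0 y W W' V) * (nab * xE a0 y W W' V kb Y)) * (1 + rE a0 y W W' V kb Y)⁻¹
          - kb • 1) * nab⁻¹
        = ((xE a0 y W W' V kb Y + psi (aF a0 y W W' V) * (nab * xE a0 y W W' V kb Y)) * (1 + rE a0 y W W' V kb Y)⁻¹
          - (1 + rE a0 y W W' V kb Y)⁻¹ * (kb • 1 + kb • rE a0 y W W' V kb Y)) * nab⁻¹ := by rw [← h3]
      _ = _ := by ring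
  rw [he]
  have hkb1 : kb ≤ 1 := by linarith
  have b1 := F3_xk g h hr hY hk0 hk
  have b2 := Bd_mul hr0 (D6 g h hr) (F_xE g h hr hY hk0 hkb1)
  have b3 := Bd_smul kb (F3_rEk g h hr hY hk0 hk)
  have b4 := Bd_mul hr0 (F3_inv g h hr hY hk0 hk) (Bd_sub hr0 (Bd_add hr0 b1 b2) b3)
  refine Bd_mono b4 ?_
  rw [abs_of_nonneg hk0]
  have h4 : (0 : ℝ) ≤ kb * r ^ Y := mul_nonneg hk0 (by linarith)
  have h5 : (0 : ℝ) ≤ kb * r ^ Y * Y := mul_nonneg h4 (Nat.cast_nonneg Y)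
  have h6 : kb * (kb * r ^ Y * Y) ≤ 1 / 1000 * (kb * r ^ Y * Y) := mul_le_mul_of_nonneg_right n2 h5
  have h7 : (kb * r ^ Y) * y ≤ (kb * r ^ Y) * (Y / 10) := mul_le_mul_of_nonneg_left n3 h4
  nlinarith

theorem psi_aN {y' y W W' V Y : ℕ} {a0 : PS} {r kb : ℝ} (g : Geo y' y W W' V) (h : In y' y a0)
    (hr : Adm r y) (hY : 10 * y ≤ Y) (hk0 : 0 ≤ kb) (hk : kb * r ^ Y ≤ 1 / 1000) :
    Bd r (psi (aN a0 y W W' V kb Y)) (2500 * y + 1000 * kb * r ^ Y * Y) := by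
  have hr0 : (0 : ℝ) ≤ r := by linarith [hr.1]
  obtain ⟨n1, n2, n3, n4⟩ := F3_num g hr hY hk0 hk
  have hinv : (1 + rE a0 y W W' V kb Y) * (1 + rE a0 y W W' V kb Y)⁻¹ = 1 :=
    mul_inv_PS (F_aT g h hY hk0).2.2.2
  have hk1 : (1 + kb) ≠ 0 := by linarith
  have hN : (aN a0 y W W' V kb Y)⁻¹ = (1 + kb) • ((aF a0 y W W' V)⁻¹ * (1 + rE a0 y W W' V kb Y)⁻¹) := by
    apply inv_unique_PS
    rw [← (F_aT g h hY hk0).2.1]
    unfold aN
    rw [smul_mul_smul_comm, inv_mul_cancel₀ hk1, mul_inv_PS (F_aT g h hY hk0).2.2.1, one_smul]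
  have he : psi (aN a0 y W W' V kb Y) = (1 + rE a0 y W W' V kb Y)⁻¹ *
      ((1 + kb) • psi (aF a0 y W W' V) - (rE a0 y W W' V kb Y - kb • 1) * nab⁻¹) := by
    unfold psi
    rw [hN]
    have h3 : (1 : PS) = (1 + rE a0 y W W' V kb Y)⁻¹ * (1 + rE a0 y W W' V kb Y) := by
      rw [mul_comm, hinv]
    calc ((1 + kb) • ((aF a0 y W W' V)⁻¹ * (1 + rE a0 y W W' V kb Y)⁻¹) - 1) * nab⁻¹
        = ((1 + kb) • ((aF a0 y W W' V)⁻¹ * (1 + rE a0 y W W' V kb Y)⁻¹)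
            - (1 + rE a0 y W W' V kb Y)⁻¹ * (1 + rE a0 y W W' V kb Y)) * nab⁻¹ := by rw [← h3]
      _ = _ := by
          have h5 : ∀ (c : ℝ) (B : PS), c • B = (c • (1 : PS)) * B := by
            intro c B
            rw [smul_mul_assoc, one_mul]
          have h6 : (1 + kb) • (1 : PS) = 1 + kb • 1 := by rw [add_smul, one_smul]
          rw [h5 (1 + kb) ((aF a0 y W W' V)⁻¹ * (1 + rE a0 y W W' V kb Y)⁻¹),
            h5 (1 + kb) (((aF a0 y W W' V)⁻¹ - 1) * nab⁻¹), h6]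
          ring
  rw [he]
  have b1 := Bd_smul (1 + kb) (D6 g h hr)
  have b4 := Bd_mul hr0 (F3_inv g h hr hY hk0 hk) (Bd_sub hr0 b1 (F3_rEk g h hr hY hk0 hk))
  refine Bd_mono b4 ?_
  rw [abs_of_nonneg (by linarith : (0 : ℝ) ≤ 1 + kb)]
  have h4 : (0 : ℝ) ≤ kb * r ^ Y := mul_nonneg hk0 (by linarith)
  have h5 : (0 : ℝ) ≤ kb * r ^ Y * Y := mul_nonneg h4 (Nat.cast_nonneg Y)
  have h6 : kb * y ≤ 1 / 1000 * y := mul_le_mul_of_nonneg_right n2 n4.le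
  nlinarith

end MP18
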