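import Pool.Agent.Lib.MP_18566a_pr.T.F3

set_option autoImplicit false

namespace MP18

open Finset PowerSeries

/-- bound for r^Y -/
theorem F4_pow {y Y : ℕ} {r Lm : ℝ} (hr : Adm r y) (hL : (Y : ℝ) ≤ Lm * y) : r ^ Y ≤ 2 ^ ⌈Lm⌉₊ := by
  have h1 : Y ≤ y * ⌈Lm⌉₊ := by
    have h2 : (Y : ℝ) ≤ ((y * ⌈Lm⌉₊ : ℕ) : ℝ) := by
      push_cast
      calc (Y : ℝ) ≤ Lm * y := hL
        _ ≤ ⌈Lm⌉₊ * y := mul_le_mul_of_nonneg_right (Nat.le_ceil Lm) (Nat.cast_nonneg y)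
        _ = y * ⌈Lm⌉₊ := mul_comm _ _
    exact_mod_cast h2
  calc r ^ Y ≤ r ^ (y * ⌈Lm⌉₊) := pow_le_pow_right₀ hr.1 h1
    _ = (r ^ y) ^ ⌈Lm⌉₊ := pow_mul _ _ _
    _ ≤ 2 ^ ⌈Lm⌉₊ := by
      refine pow_le_pow_left₀ (pow_nonneg (by linarith [hr.1]) _) ?_ _
      have := hr.2
      norm_num at this ⊢
      linarith

/-- the weights near the root are admissible -/
theorem F4_adm {y : ℕ} {ρ : ℝ} (hy : 0 < y) (h1 : 1 ≤ ρ) (h2 : ρ ≤ 1 + nu / y) : Adm ρ y := by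
  refine ⟨h1, ?_⟩
  have h3 := (Adm_R hy).2
  have hy' : (0 : ℝ) < y := by exact_mod_cast hy
  have hnu : nu ≤ 1 / 10 ^ 8 := by
    unfold nu ff
    norm_num
  have h4 : ρ ≤ 1 + 1 / (10 ^ 8 * y) := by
    refine h2.trans ?_
    have h5 : nu / y ≤ (1 / 10 ^ 8) / y := div_le_div_of_nonneg_right hnu hy'.le
    have h6 : ((1 : ℝ) / 10 ^ 8) / y = 1 / (10 ^ 8 * y) := by rw [div_div]
    linarith
  exact (pow_le_pow_left₀ (by linarith) h4 y).trans h3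

set_option exponentiation.threshold 3000 in
theorem LB_aN (Lm : ℝ) : ∃ κ1 : ℝ, 0 < κ1 ∧ ∀ (y' y W W' V Y : ℕ) (a0 : PS) (kb : ℝ),
    Geo y' y W W' V → In y' y a0 → 10 * y ≤ Y → (Y : ℝ) ≤ Lm * y → 0 ≤ kb → kb ≤ κ1 →
    LB y (aN a0 y W W' V kb Y) ∧ Cpl (aN a0 y W W' V kb Y) Y 1 := by
  have hM : (1 : ℝ) ≤ 2 ^ ⌈Lm⌉₊ := one_le_pow₀ (by norm_num)
  have hM2 : (0 : ℝ) < 2 ^ ⌈Lm⌉₊ * (⌈Lm⌉₊ + 1) := by positivity
  refine ⟨1 / 10 ^ 1000 / (2 ^ ⌈Lm⌉₊ * (⌈Lm⌉₊ + 1)), by positivity, ?_⟩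
  intro y' y W W' V Y a0 kb g h hY hL hk0 hk1
  have hy : 0 < y := g.y_pos
  have hy' : (0 : ℝ) < y := by exact_mod_cast hy

  have hsm : ∀ r, Adm r y → kb * r ^ Y ≤ 1 / 10 ^ 1000 ∧ kb * r ^ Y * Y ≤ 1 / 10 ^ 1000 * y := by
    intro r hr
    have h1 : kb * r ^ Y ≤ 1 / 10 ^ 1000 / (⌈Lm⌉₊ + 1) := by
      calc kb * r ^ Y ≤ (1 / 10 ^ 1000 / (2 ^ ⌈Lm⌉₊ * (⌈Lm⌉₊ + 1))) * 2 ^ ⌈Lm⌉₊ :=
            mul_le_mul hk1 (F4_pow hr hL) (pow_nonneg (by linarith [hr.1]) _) (by positivity)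
        _ = 1 / 10 ^ 1000 / (⌈Lm⌉₊ + 1) := by
            field_simp
    have h2 : (0 : ℝ) ≤ ⌈Lm⌉₊ := Nat.cast_nonneg _
    have h3 : (0 : ℝ) < 1 / 10 ^ 1000 := by positivity
    constructor
    · refine h1.trans ?_
      rw [div_le_iff₀ (by linarith)]
      nlinarith
    · calc kb * r ^ Y * Y ≤ (1 / 10 ^ 1000 / (⌈Lm⌉₊ + 1)) * (Lm * y) :=
            mul_le_mul h1 hL (Nat.cast_nonneg _) (by positivity)
        _ ≤ (1 / 10 ^ 1000 / (⌈Lm⌉₊ + 1)) * ((⌈Lm⌉₊ + 1) * y) := by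
            refine mul_le_mul_of_nonneg_left ?_ (by positivity)
            refine mul_le_mul_of_nonneg_right ?_ hy'.le
            linarith [Nat.le_ceil Lm]
        _ = 1 / 10 ^ 1000 * y := by field_simp
  have hsm3 : ∀ r, Adm r y → kb * r ^ Y ≤ 1 / 1000 := by
    intro r hr
    refine (hsm r hr).1.trans ?_
    norm_num
  have hk : kb ≤ 1 / 10 ^ 1000 := by
    have := (hsm 1 Adm_one).1
    rwa [one_pow, mul_one] at this
  have hm := LBm_aF g h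
  have h1k : (0 : ℝ) < 1 + kb := by linarith
  have hinv0 : (0 : ℝ) ≤ (1 + kb)⁻¹ := by positivity
  have hinv1 : (1 + kb)⁻¹ ≤ 1 := inv_le_one_of_one_le₀ (by linarith)
  have hinvk : (1 + kb)⁻¹ * (1 + kb) = 1 := inv_mul_cancel₀ h1k.ne'
  set Δ : PS := ker (aT a0 y W W' V kb Y) - ker (aF a0 y W W' V) with hΔ
  have hker : ker (aN a0 y W W' V kb Y) = (1 + kb)⁻¹ • (ker (aF a0 y W W' V) + Δ) := by
    unfold aN
    rw [ker_smul (inv_ne_zero h1k.ne'), hΔ]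
    congr 1
    ring
  have hΔb : ∀ r, Adm r y → Bd r Δ (1 / 10 ^ 900) := by
    intro r hr
    refine Bd_mono (DT_bd g h hr hY hk0 (hsm3 r hr)) ?_
    have h2 := (hsm r hr).1
    calc (10 : ℝ) ^ 80 * kb * r ^ Y = 10 ^ 80 * (kb * r ^ Y) := by ring
      _ ≤ 10 ^ 80 * (1 / 10 ^ 1000) := mul_le_mul_of_nonneg_left h2 (by positivity)
      _ ≤ 1 / 10 ^ 900 := by norm_num
  refine ⟨⟨?_, ?_, ?_, ?_, ?_, ?_, ?_, ?_⟩, ?_⟩
  · intro n
    unfold aN aT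
    rw [PowerSeries.coeff_smul, map_add, PowerSeries.coeff_smul]
    simp only [smul_eq_mul]
    exact mul_nonneg hinv0 (add_nonneg (hm.nn n) (mul_nonneg hk0 (slo_nn y Y n)))
  · unfold aN aT
    rw [PowerSeries.coeff_smul, map_add, PowerSeries.coeff_smul]
    simp only [smul_eq_mul]
    exact mul_pos (inv_pos.2 h1k) (add_pos_of_pos_of_nonneg hm.pos (mul_nonneg hk0 (slo_nn y Y 0)))
  · intro r hr
    refine Bd_mono (psi_aN g h hr hY hk0 (hsm3 r hr)) ?_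
    have h2 := (hsm r hr).2
    have h3 : (1 : ℝ) / 10 ^ 1000 * y ≤ 1 * y := by
      refine mul_le_mul_of_nonneg_right ?_ hy'.le
      norm_num
    nlinarith
  · intro r hr
    have hr0 : (0 : ℝ) ≤ r := by linarith [hr.1]
    rw [hker]
    have h2 := Bd_smul (1 + kb)⁻¹ (Bd_add hr0 (hm.kn r hr) (hΔb r hr))
    refine Bd_mono h2 ?_
    rw [abs_of_nonneg hinv0]
    have h3 : (379 / 10 : ℝ) + 1 / 10 ^ 900 ≤ 38 := by norm_num
    calc (1 + kb)⁻¹ * (379 / 10 + 1 / 10 ^ 900) ≤ 1 * 38 :=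
          mul_le_mul hinv1 h3 (by positivity) (by norm_num)
      _ = 38 := one_mul _
  · intro r hr
    have hr0 : (0 : ℝ) ≤ r := by linarith [hr.1]
    have he : kap (ker (aN a0 y W W' V kb Y)) = (1 + kb)⁻¹ • (kap (ker (aF a0 y W W' V)) + (Δ - kb • 1) * nab⁻¹) := by
      unfold kap
      rw [hker]
      have h2 : (1 : PS) = (1 + kb)⁻¹ • ((1 + kb) • 1) := by rw [smul_smul, hinvk, one_smul]
      conv_lhs => rw [h2]
      rw [← smul_sub, smul_mul_assoc, add_smul, one_smul]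
      congr 1
      ring
    rw [he]
    have h2 := Bd_smul (1 + kb)⁻¹ (Bd_add hr0 (hm.kp r hr) (DT_kap g h hr hY hk0 (hsm3 r hr)))
    refine Bd_mono h2 ?_
    rw [abs_of_nonneg hinv0]
    have h3 := (hsm r hr).2
    have h4 : (10 : ℝ) ^ 6 * kb * r ^ Y * (Y : ℝ) ≤ 1 * (y : ℝ) := by
      have c1 : (10 : ℝ) ^ 6 * kb * r ^ Y * (Y : ℝ) = 10 ^ 6 * (kb * r ^ Y * (Y : ℝ)) := by ring
      have c2 : (10 : ℝ) ^ 6 * (kb * r ^ Y * (Y : ℝ)) ≤ 10 ^ 6 * (1 / 10 ^ 1000 * (y : ℝ)) :=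
        mul_le_mul_of_nonneg_left h3 (by positivity)
      have c3 : (10 : ℝ) ^ 6 * (1 / 10 ^ 1000 * (y : ℝ)) = (10 ^ 6 * (1 / 10 ^ 1000)) * (y : ℝ) := by ring
      have c4 : ((10 : ℝ) ^ 6 * (1 / 10 ^ 1000)) * (y : ℝ) ≤ 1 * (y : ℝ) := by
        refine mul_le_mul_of_nonneg_right ?_ hy'.le
        norm_num
      rw [c1]
      exact c2.trans (c3.le.trans c4)
    have h5 : (0 : ℝ) ≤ 10 ^ 6 * kb * r ^ Y * Y := by
      have : 0 ≤ r ^ Y := pow_nonneg hr0 Y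
      positivity
    calc (1 + kb)⁻¹ * (60000 * y + 10 ^ 6 * kb * r ^ Y * Y) ≤ 1 * (60000 * y + 1 * y) :=
          mul_le_mul hinv1 (by linarith) (by positivity) (by norm_num)
      _ ≤ 10 ^ 5 * y := by nlinarith
  · intro z hz
    have b1 := hm.kn 1 Adm_one
    have b2 := hΔb 1 Adm_one
    rw [hker, ev_smul, ev_add b1 b2 hz.le, Complex.re_ofReal_mul, Complex.add_re]
    have h2 := hm.pr z hz
    have h3 : (ev Δ z).re ≤ 1 / 10 ^ 900 := (Complex.re_le_norm _).trans (ev_norm b2 hz.le)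
    have h4 := bb_bd.1
    have h5 : (1 : ℝ) / 10 ^ 900 ≤ 5 / 100 * bb := by
      have h6 : (1 : ℝ) / 10 ^ 900 ≤ 5 / 100 * (4.8 * ff) := by
        unfold ff
        norm_num
      linarith
    have h7 : (ev (ker (aF a0 y W W' V)) z).re + (ev Δ z).re ≤ 2 + 16 / 10 * bb := by linarith
    have h8 : (0 : ℝ) ≤ 2 + 16 / 10 * bb := by
      have : 0 < ff := ff_pos
      linarith
    calc (1 + kb)⁻¹ * ((ev (ker (aF a0 y W W' V)) z).re + (ev Δ z).re)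
        ≤ (1 + kb)⁻¹ * (2 + 16 / 10 * bb) := mul_le_mul_of_nonneg_left h7 hinv0
      _ ≤ 1 * (2 + 16 / 10 * bb) := mul_le_mul_of_nonneg_right hinv1 h8
      _ = _ := one_mul _
  · intro t ht0 ht1
    rw [hker, smul_smul, smul_add]
    have ht' : 0 ≤ t * (1 + kb)⁻¹ := mul_nonneg ht0 hinv0
    have ht2 : t * (1 + kb)⁻¹ ≤ phi := by
      calc t * (1 + kb)⁻¹ ≤ t * 1 := mul_le_mul_of_nonneg_left hinv1 ht0
        _ ≤ phi := by linarith
    have h2 := hm.s1 (t * (1 + kb)⁻¹) ht' ht2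
    have h3 := Bd_smul (t * (1 + kb)⁻¹) (hΔb 1 Adm_one)
    have h4 : |t * (1 + kb)⁻¹| * (1 / 10 ^ 900) ≤ 1 / 10 ^ 900 := by
      rw [abs_of_nonneg ht']
      have h5 : t * (1 + kb)⁻¹ ≤ 1 := ht2.trans (by linarith [phi_bd.2])
      calc t * (1 + kb)⁻¹ * (1 / 10 ^ 900) ≤ 1 * (1 / 10 ^ 900) :=
            mul_le_mul_of_nonneg_right h5 (by positivity)
        _ = _ := one_mul _
    have hA : (0 : ℝ) ≤ A1 / 4 := by
      unfold A1
      positivity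
    have h5 := SP_perturb h2 hA (Bd_mono h3 h4) (by
      unfold A1
      norm_num)
    refine SP_mono h5 (_root_.le_refl _) ?_
    have : (0 : ℝ) ≤ A1 := by
      unfold A1
      positivity
    linarith
  · intro ρ h1 h2
    have hρ := F4_adm hy h1 h2
    have hρ0 : (0 : ℝ) ≤ ρ := by linarith
    have hdec : ker (aN a0 y W W' V kb Y) = ker (aF a0 y W W' V) +
        (1 + kb)⁻¹ • (Δ - kb • ker (aF a0 y W W' V)) := by
      have h3 : (1 + kb)⁻¹ • (ker (aF a0 y W W' V) + Δ) = (1 + kb)⁻¹ • ((1 + kb) • ker (aF a0 y W W' V)) +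
          (1 + kb)⁻¹ • (Δ - kb • ker (aF a0 y W W' V)) := by
        rw [← smul_add, add_smul, one_smul]
        congr 1
        ring
      rw [hker, h3, smul_smul, hinvk, one_smul]
    rw [hdec, map_add]
    have h3 := Bd_smul (1 + kb)⁻¹ (Bd_sub hρ0 (hΔb ρ hρ) (Bd_smul kb (hm.kn ρ hρ)))
    have h4 : |(1 + kb)⁻¹| * (1 / 10 ^ 900 + |kb| * (379 / 10)) ≤ 1 / 10 ^ 800 := by
      rw [abs_of_nonneg hinv0, abs_of_nonneg hk0]
      have h5 : (1 : ℝ) / 10 ^ 900 + kb * (379 / 10) ≤ 1 / 10 ^ 900 + 1 / 10 ^ 1000 * (379 / 10) := by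
        have := mul_le_mul_of_nonneg_right hk (by norm_num : (0 : ℝ) ≤ 379 / 10)
        linarith
      calc (1 + kb)⁻¹ * (1 / 10 ^ 900 + kb * (379 / 10)) ≤ 1 * (1 / 10 ^ 900 + 1 / 10 ^ 1000 * (379 / 10)) :=
            mul_le_mul hinv1 h5 (by positivity) (by norm_num)
        _ ≤ 1 / 10 ^ 800 := by norm_num
    have h5 : Bd 1 (rescale ρ ((1 + kb)⁻¹ • (Δ - kb • ker (aF a0 y W W' V)))) (1 / 10 ^ 800) :=
      (Bd_rescale_iff hρ0).2 (Bd_mono h3 h4)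
    have hA : (0 : ℝ) ≤ A0 / 4 := by
      unfold A0
      positivity
    have h6 := SP_perturb (hm.s0 ρ h1 h2) hA h5 (by
      unfold A0
      norm_num)
    refine SP_mono h6 (_root_.le_refl _) ?_
    have : (0 : ℝ) ≤ A0 := by
      unfold A0
      positivity
    linarith
  · have h2 : Cpl (aF a0 y W W' V) Y 1 := by
      refine Cpl_mono (Cpl_aF g h) ?_
      have h1 := g.mid_le.2
      have h2 := g.y'_le
      have h3 := g.pos
      have h4 : (10 ^ 6 : ℕ) * mid W W' ≤ y := by exact_mod_cast h1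
      omega
    have h3 := Cpl_smul (1 + kb)⁻¹ (Cpl_add h2 (Cpl_smul kb (Cpl_slo (y := y) (Y := Y) (by omega))))
    rw [mul_one, hinvk] at h3
    exact h3

end MP18
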