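import Pool.Agent.Lib.MP_18566a_pr.T.E3
import Pool.Agent.Lib.MP_18566a_pr.T.C0
import Pool.Agent.Lib.MP_18566a_pr.T.E4d

set_option autoImplicit false

namespace MP18

open Finset PowerSeries

noncomputable def GG (A : PS) (m : ℕ) : ℝ :=
  ∑ n ∈ range (2 * m + 1), coeff n A * (2 * Cum A n - coeff n A - 1) * ((n : ℝ) - m)

/-- remainder of the exponential series after the quadratic term -/
theorem G0_aux1 {x : ℂ} (hx : ‖x‖ ≤ 1) : ‖Complex.exp x - (1 + x + x ^ 2 / 2)‖ ≤ 2 / 9 * ‖x‖ ^ 3 := by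
  have h := Complex.exp_bound hx (by norm_num : 0 < 3)
  have e : ∑ m ∈ range 3, x ^ m / (m.factorial : ℂ) = 1 + x + x ^ 2 / 2 := by
    rw [sum_range_succ, sum_range_succ, sum_range_one]
    norm_num [Nat.factorial]
  rw [e] at h
  refine le_trans h (le_of_eq ?_)
  norm_num [Nat.factorial]
  ring

theorem G0_aux2 {x : ℂ} (hx : ‖x‖ ≤ 1 / 100) : ‖Complex.cosh x - 1‖ ≤ 51 / 100 * ‖x‖ ^ 2 := by
  have hx1 : ‖x‖ ≤ 1 := by linarith
  have h1 := G0_aux1 hx1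
  have h2 := G0_aux1 (x := -x) (by rw [norm_neg]; exact hx1)
  rw [norm_neg] at h2
  have e : Complex.cosh x - 1 = (1 / 2 : ℂ) * (Complex.exp x - (1 + x + x ^ 2 / 2))
      + (1 / 2 : ℂ) * (Complex.exp (-x) - (1 + -x + (-x) ^ 2 / 2)) + (1 / 2 : ℂ) * x ^ 2 := by
    rw [Complex.cosh]
    ring
  have hh : ‖(1 / 2 : ℂ)‖ = 1 / 2 := by norm_num
  rw [e]
  have h3 := norm_add₃_le (a := (1 / 2 : ℂ) * (Complex.exp x - (1 + x + x ^ 2 / 2)))
    (b := (1 / 2 : ℂ) * (Complex.exp (-x) - (1 + -x + (-x) ^ 2 / 2))) (c := (1 / 2 : ℂ) * x ^ 2)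
  rw [norm_mul, norm_mul, norm_mul, hh, norm_pow] at h3
  have h4 : 2 / 9 * ‖x‖ ^ 3 ≤ 2 / 9 * (1 / 100 * ‖x‖ ^ 2) := by
    have h5 : ‖x‖ ^ 3 = ‖x‖ * ‖x‖ ^ 2 := by ring
    rw [h5]
    exact mul_le_mul_of_nonneg_left (mul_le_mul_of_nonneg_right hx (by positivity)) (by norm_num)
  have h6 : 0 ≤ ‖x‖ ^ 2 := by positivity
  linarith

theorem G0_aux3 {x : ℂ} (hx : ‖x‖ ≤ 1) : ‖Complex.sinh x - x‖ ≤ 2 / 9 * ‖x‖ ^ 3 := by
  have h1 := G0_aux1 hx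
  have h2 := G0_aux1 (x := -x) (by rw [norm_neg]; exact hx)
  rw [norm_neg] at h2
  have e : Complex.sinh x - x = (1 / 2 : ℂ) * (Complex.exp x - (1 + x + x ^ 2 / 2))
      - (1 / 2 : ℂ) * (Complex.exp (-x) - (1 + -x + (-x) ^ 2 / 2)) := by
    rw [Complex.sinh]
    ring
  have hh : ‖(1 / 2 : ℂ)‖ = 1 / 2 := by norm_num
  rw [e]
  have h3 := norm_sub_le ((1 / 2 : ℂ) * (Complex.exp x - (1 + x + x ^ 2 / 2)))
    ((1 / 2 : ℂ) * (Complex.exp (-x) - (1 + -x + (-x) ^ 2 / 2)))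
  rw [norm_mul, norm_mul, hh] at h3
  linarith

theorem G0_aux4 {A : PS} {m : ℕ} (hA : Sym A m) {n : ℕ} (hn : n < 2 * m + 1) :
    |(n : ℝ) - m| ≤ m := by
  have h1 : (n : ℝ) ≤ 2 * m := by exact_mod_cast Nat.lt_succ_iff.1 hn
  have h2 : (0 : ℝ) ≤ n := Nat.cast_nonneg n
  rw [abs_le]
  constructor <;> linarith

/-- the weights `2 Cum - coeff - 1` are bounded by `1` -/
theorem G0_aux5 {A : PS} {m : ℕ} (hA : Sym A m) (n : ℕ) :
    |2 * Cum A n - coeff n A - 1| ≤ 1 := by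
  have h1 : Cum A n ≤ 1 := le_trans (le_abs_self _) (Cum_le (Bd_of_Cpl hA.nn hA.cpl) n)
  have h2 : coeff n A ≤ Cum A n := by
    unfold Cum
    exact single_le_sum (fun i _ => hA.nn i) (mem_range.2 (Nat.lt_succ_self n))
  have h3 := hA.nn n
  rw [abs_le]
  constructor <;> linarith

theorem G0_aux6 {y' y W W' V : ℕ} (g : Geo y' y W W' V) {t : ℂ} (ht : ‖t‖ * y ≤ 32 / 10) :
    ‖t‖ * mid W W' ≤ 192 / 100 * ww := by
  have h1 := g.mid_le.1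
  have h2 := g.Whi
  have h3 : (mid W W' : ℝ) ≤ 6 / 10 * (ww * y) := by linarith
  have h4 : 0 < ww := by
    unfold ww
    positivity
  calc ‖t‖ * mid W W' ≤ ‖t‖ * (6 / 10 * (ww * y)) :=
        mul_le_mul_of_nonneg_left h3 (norm_nonneg t)
    _ = 6 / 10 * ww * (‖t‖ * y) := by ring
    _ ≤ 6 / 10 * ww * (32 / 10) := mul_le_mul_of_nonneg_left ht (by positivity)
    _ = 192 / 100 * ww := by ring

theorem G0_aux7 (t : ℂ) (n m : ℕ) : ‖t * ((n : ℂ) - m)‖ = ‖t‖ * |(n : ℝ) - m| := by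
  rw [norm_mul]
  congr 1
  have e : ((n : ℂ) - m) = (((n : ℝ) - m : ℝ) : ℂ) := by push_cast; ring
  rw [e, Complex.norm_real, Real.norm_eq_abs]

theorem G0_aux8 : 0 < ww ∧ ww ≤ 1 / 10 ^ 10 := by
  unfold ww
  constructor
  · positivity
  · norm_num

theorem G_ch {y' y W W' V : ℕ} (g : Geo y' y W W' V) {t : ℂ} (ht : ‖t‖ * y ≤ 32 / 10) :
    ‖chS (bsh W W') (mid W W') t - 1‖ ≤ 2 * ww ^ 2 := by
  have hA := Sym_bsh g.odd g.W'_pos
  obtain ⟨hw0, hw1⟩ := G0_aux8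
  have h1 := G0_aux6 g ht
  have hs : ∑ n ∈ range (2 * mid W W' + 1), ((coeff n (bsh W W') : ℝ) : ℂ) = 1 := by
    rw [← Complex.ofReal_sum, hA.cpl.2, Complex.ofReal_one]
  have e : chS (bsh W W') (mid W W') t - 1 = ∑ n ∈ range (2 * mid W W' + 1),
      ((coeff n (bsh W W') : ℝ) : ℂ) * (Complex.cosh (t * ((n : ℂ) - mid W W')) - 1) := by
    unfold chS
    rw [← hs, ← sum_sub_distrib]
    apply sum_congr rfl
    intro n _
    rw [hs]
    ring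
  rw [e]
  refine le_trans (norm_sum_le _ _) ?_
  have h2 : ∀ n ∈ range (2 * mid W W' + 1), ‖((coeff n (bsh W W') : ℝ) : ℂ)
      * (Complex.cosh (t * ((n : ℂ) - mid W W')) - 1)‖ ≤ coeff n (bsh W W') * (2 * ww ^ 2) := by
    intro n hn
    have hn' := G0_aux4 hA (mem_range.1 hn)
    have h3 : ‖t * ((n : ℂ) - mid W W')‖ ≤ 192 / 100 * ww := by
      rw [G0_aux7]
      exact le_trans (mul_le_mul_of_nonneg_left hn' (norm_nonneg t)) h1
    have h4 : ‖t * ((n : ℂ) - mid W W')‖ ≤ 1 / 100 := by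
      refine le_trans h3 ?_
      have : (1 : ℝ) / 10 ^ 10 ≤ 1 / 1000 := by norm_num
      linarith
    have h5 := G0_aux2 h4
    rw [norm_mul, Complex.norm_real, Real.norm_eq_abs, abs_of_nonneg (hA.nn n)]
    apply mul_le_mul_of_nonneg_left _ (hA.nn n)
    refine le_trans h5 ?_
    have h6 : ‖t * ((n : ℂ) - mid W W')‖ ^ 2 ≤ (192 / 100 * ww) ^ 2 :=
      pow_le_pow_left₀ (norm_nonneg _) h3 2
    nlinarith [sq_nonneg ww]
  refine le_trans (sum_le_sum h2) ?_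
  rw [← sum_mul, hA.cpl.2, one_mul]

theorem G_sh {y' y W W' V : ℕ} (g : Geo y' y W W' V) {t : ℂ} (ht : ‖t‖ * y ≤ 32 / 10) {j : ℕ}
    (hj : j ≤ 3) :
    ‖shS (bsh W W' ^ j) (j * mid W W') t - t * ((GG (bsh W W' ^ j) (j * mid W W') : ℝ) : ℂ)‖
      ≤ ww ^ 2 := by
  have hA := Sym_pow (Sym_bsh g.odd g.W'_pos) j
  obtain ⟨hw0, hw1⟩ := G0_aux8
  have h1 := G0_aux6 g ht
  obtain ⟨A, hAe⟩ : ∃ A, A = bsh W W' ^ j := ⟨_, rfl⟩
  obtain ⟨m, hm⟩ : ∃ m, m = j * mid W W' := ⟨_, rfl⟩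
  rw [← hAe, ← hm] at hA
  rw [← hAe, ← hm]
  have hm1 : ‖t‖ * (m : ℝ) ≤ 6 * ww := by
    rw [hm]
    push_cast
    have hj' : (j : ℝ) ≤ 3 := by exact_mod_cast hj
    calc ‖t‖ * ((j : ℝ) * mid W W') = j * (‖t‖ * mid W W') := by ring
      _ ≤ 3 * (192 / 100 * ww) := mul_le_mul hj' h1 (by positivity) (by norm_num)
      _ ≤ 6 * ww := by linarith
  have e : shS A m t - t * ((GG A m : ℝ) : ℂ) = ∑ n ∈ range (2 * m + 1),
      ((coeff n A * (2 * Cum A n - coeff n A - 1) : ℝ) : ℂ)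
        * (Complex.sinh (t * ((n : ℂ) - m)) - t * ((n : ℂ) - m)) := by
    unfold shS GG
    rw [Complex.ofReal_sum, mul_sum, ← sum_sub_distrib]
    apply sum_congr rfl
    intro n _
    push_cast
    ring
  rw [e]
  refine le_trans (norm_sum_le _ _) ?_
  have h2 : ∀ n ∈ range (2 * m + 1), ‖((coeff n A * (2 * Cum A n - coeff n A - 1) : ℝ) : ℂ)
      * (Complex.sinh (t * ((n : ℂ) - m)) - t * ((n : ℂ) - m))‖ ≤ coeff n A * ww ^ 2 := by
    intro n hn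
    have hn' := G0_aux4 hA (mem_range.1 hn)
    have h3 : ‖t * ((n : ℂ) - m)‖ ≤ 6 * ww := by
      rw [G0_aux7]
      exact le_trans (mul_le_mul_of_nonneg_left hn' (norm_nonneg t)) hm1
    have h4 : ‖t * ((n : ℂ) - m)‖ ≤ 1 := by
      refine le_trans h3 ?_
      have : (1 : ℝ) / 10 ^ 10 ≤ 1 / 1000 := by norm_num
      linarith
    have h5 := G0_aux3 h4
    rw [norm_mul, Complex.norm_real, Real.norm_eq_abs, abs_mul, abs_of_nonneg (hA.nn n),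
      mul_assoc]
    apply mul_le_mul_of_nonneg_left _ (hA.nn n)
    have h6 : ‖t * ((n : ℂ) - m)‖ ^ 3 ≤ (6 * ww) ^ 3 :=
      pow_le_pow_left₀ (norm_nonneg _) h3 3
    have h7 : ‖Complex.sinh (t * ((n : ℂ) - m)) - t * ((n : ℂ) - m)‖ ≤ ww ^ 2 := by
      refine le_trans h5 ?_
      have h8 : 2 / 9 * (6 * ww) ^ 3 = 48 * ww * ww ^ 2 := by ring
      have h9 : 48 * ww * ww ^ 2 ≤ 1 * ww ^ 2 := by
        apply mul_le_mul_of_nonneg_right _ (by positivity)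
        have : (1 : ℝ) / 10 ^ 10 ≤ 1 / 1000 := by norm_num
        linarith
      linarith
    calc |2 * Cum A n - coeff n A - 1|
          * ‖Complex.sinh (t * ((n : ℂ) - m)) - t * ((n : ℂ) - m)‖
        ≤ 1 * ww ^ 2 := mul_le_mul (G0_aux5 hA n) h7 (norm_nonneg _) zero_le_one
      _ = ww ^ 2 := one_mul _
  refine le_trans (sum_le_sum h2) ?_
  rw [← sum_mul, hA.cpl.2, one_mul]

theorem GG_bd {y' y W W' V : ℕ} (g : Geo y' y W W' V) (j : ℕ) :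
    |GG (bsh W W' ^ j) (j * mid W W')| ≤ 6 / 10 * j * W := by
  have hA := Sym_pow (Sym_bsh g.odd g.W'_pos) j
  have hmid := g.mid_le.1
  obtain ⟨A, hAe⟩ : ∃ A, A = bsh W W' ^ j := ⟨_, rfl⟩
  obtain ⟨m, hm⟩ : ∃ m, m = j * mid W W' := ⟨_, rfl⟩
  rw [← hAe, ← hm] at hA
  rw [← hAe, ← hm]
  have hm1 : (m : ℝ) ≤ 6 / 10 * j * W := by
    rw [hm]
    push_cast
    calc (j : ℝ) * mid W W' ≤ j * (6 / 10 * W) :=
          mul_le_mul_of_nonneg_left hmid (Nat.cast_nonneg j)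
      _ = 6 / 10 * j * W := by ring
  refine le_trans ?_ hm1
  unfold GG
  refine le_trans (abs_sum_le_sum_abs _ _) ?_
  have h2 : ∀ n ∈ range (2 * m + 1),
      |coeff n A * (2 * Cum A n - coeff n A - 1) * ((n : ℝ) - m)| ≤ coeff n A * m := by
    intro n hn
    have hn' := G0_aux4 hA (mem_range.1 hn)
    rw [abs_mul, abs_mul, abs_of_nonneg (hA.nn n), mul_assoc]
    apply mul_le_mul_of_nonneg_left _ (hA.nn n)
    calc |2 * Cum A n - coeff n A - 1| * |(n : ℝ) - m| ≤ 1 * m :=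
          mul_le_mul (G0_aux5 hA n) hn' (abs_nonneg _) zero_le_one
      _ = m := one_mul _
  refine le_trans (sum_le_sum h2) ?_
  rw [← sum_mul, hA.cpl.2, one_mul]

theorem N1_alg (X T T2 D1 D2 D3 S S2 : ℂ)
    (hS : S = phi + (ff * T + q1 * X + q2 * X ^ 2 + q3 * X ^ 3))
    (hS2 : S2 = phi ^ 2 + 2 * phi * (ff * T + q1 * X + q2 * X ^ 2 + q3 * X ^ 3)
      + (ff ^ 2 * T2 + 2 * ff * (q1 * X + q2 * X ^ 2 + q3 * X ^ 3)
        + (q1 ^ 2 * (X + D1) + 2 * q1 * q2 * X ^ 2 + q2 ^ 2 * (X ^ 2 + D2)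
        + 2 * (q1 + q2) * q3 * X ^ 3 + q3 ^ 2 * (X ^ 3 + D3)))) :
    2 * S - S2 = - (bb * S0) + 2 * ff * (1 - phi) * (1 + T) - ff ^ 2 * (1 + T2)
      + (1 - ff) ^ 2 * ((1 + X) * ((n1f p1 p2 p3 - n2f p2 p3 + n3f p3)
        + (n2f p2 p3 - n3f p3) * X + n3f p3 * X ^ 2))
      - (q1 ^ 2 * D1 + q2 ^ 2 * D2 + q3 ^ 2 * D3) := by
  have hm : (phi : ℂ) + ff + q1 + q2 + q3 = 1 := by
    have := mass_sum
    exact_mod_cast this
  have ht : 1 - 2 * (1 - (phi : ℂ)) ^ 2 + 2 * ((q2 : ℂ) + q3) ^ 2 - 2 * (q3 : ℂ) ^ 2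
      = - ((bb : ℂ) * S0) := by
    have := tune_eq
    exact_mod_cast this
  have h1 : (q1 : ℂ) = (1 - ff) * p1 := by
    have : q1 = (1 - ff) * p1 := rfl
    rw [this]
    push_cast
    ring
  have h2 : (q2 : ℂ) = (1 - ff) * p2 := by
    have : q2 = (1 - ff) * p2 := rfl
    rw [this]
    push_cast
    ring
  have h3 : (q3 : ℂ) = (1 - ff) * p3 := by
    have : q3 = (1 - ff) * p3 := rfl
    rw [this]
    push_cast
    ring
  rw [hS, hS2]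
  unfold n1f n2f n3f
  push_cast
  rw [h1, h2, h3] at hm ⊢
  rw [h2, h3] at ht
  linear_combination (-(1 - (phi : ℂ) - ff + ((1 - ff) * p1 + (1 - ff) * p2 + (1 - ff) * p3))
    - 2 * ((1 - ff) * p1) * X - 2 * ((1 - ff) * p2) * X ^ 2 - 2 * ((1 - ff) * p3) * X ^ 3) * hm
    + ht

end MP18
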