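import Pool.Agent.Lib.MP_18566a_pr.T.G0
import Pool.Agent.Lib.MP_18566a_pr.T.E7

set_option autoImplicit false

namespace MP18

open Finset PowerSeries

/-- the real part of the frequency shift -/
noncomputable def e1r (y W W' : ℕ) : ℝ :=
  Real.pi / y * (-(q1 ^ 2 * GG (bsh W W') (mid W W')) + q2 ^ 2 * GG (bsh W W' ^ 2) (2 * mid W W')
    - q3 ^ 2 * GG (bsh W W' ^ 3) (3 * mid W W'))

theorem G1_aux1 : q1 ^ 2 ≤ 0.1843 ∧ q2 ^ 2 ≤ 0.087 ∧ q3 ^ 2 ≤ 0.00457 := by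
  have h1 := q1_bd
  have h2 := q2_bd
  have h3 := q3_bd
  refine ⟨?_, ?_, ?_⟩
  · refine le_trans (pow_le_pow_left₀ (by linarith [h1.1]) h1.2 2) (by norm_num)
  · refine le_trans (pow_le_pow_left₀ (by linarith [h2.1]) h2.2 2) (by norm_num)
  · refine le_trans (pow_le_pow_left₀ (by linarith [h3.1]) h3.2 2) (by norm_num)

theorem G1_aux2 {y' y W W' V : ℕ} (g : Geo y' y W W' V) : (W : ℝ) / y ≤ ww := by
  have hy : (0 : ℝ) < y := Nat.cast_pos.2 g.y_pos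
  rw [div_le_iff₀ hy]
  exact g.Whi

theorem G1_aux3 {y' y W W' V : ℕ} (g : Geo y' y W W' V) (j : ℕ) :
    |Real.pi / y * GG (bsh W W' ^ j) (j * mid W W')| ≤ 1885 / 1000 * j * ww := by
  have hy : (0 : ℝ) < y := Nat.cast_pos.2 g.y_pos
  have h1 := GG_bd g j
  have h2 := G1_aux2 g
  have hpi := Real.pi_pos
  have hp2 : Real.pi ≤ 3.1416 := Real.pi_lt_d4.le
  have hj : (0 : ℝ) ≤ j := Nat.cast_nonneg j
  have hw : 0 ≤ ww := by
    unfold ww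
    positivity
  rw [abs_mul, abs_of_pos (by positivity : 0 < Real.pi / y)]
  calc Real.pi / y * |GG (bsh W W' ^ j) (j * mid W W')| ≤ Real.pi / y * (6 / 10 * j * W) :=
        mul_le_mul_of_nonneg_left h1 (by positivity)
    _ = 6 / 10 * j * Real.pi * (W / y) := by ring
    _ ≤ 6 / 10 * j * Real.pi * ww := mul_le_mul_of_nonneg_left h2 (by positivity)
    _ ≤ 6 / 10 * j * 3.1416 * ww := by
        apply mul_le_mul_of_nonneg_right _ hw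
        exact mul_le_mul_of_nonneg_left hp2 (by positivity)
    _ ≤ 1885 / 1000 * j * ww := by
        apply mul_le_mul_of_nonneg_right _ hw
        linarith

theorem e1r_bd {y' y W W' V : ℕ} (g : Geo y' y W W' V) : |e1r y W W'| ≤ 71 / 100 * ww := by
  obtain ⟨a1, a2, a3⟩ := G1_aux1
  have hw : 0 ≤ ww := by
    unfold ww
    positivity
  have h1 := G1_aux3 g 1
  have h2 := G1_aux3 g 2
  have h3 := G1_aux3 g 3
  rw [pow_one, one_mul] at h1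
  obtain ⟨g1, hg1⟩ : ∃ g1 : ℝ, g1 = Real.pi / y * GG (bsh W W') (mid W W') := ⟨_, rfl⟩
  obtain ⟨g2, hg2⟩ : ∃ g2 : ℝ, g2 = Real.pi / y * GG (bsh W W' ^ 2) (2 * mid W W') := ⟨_, rfl⟩
  obtain ⟨g3, hg3⟩ : ∃ g3 : ℝ, g3 = Real.pi / y * GG (bsh W W' ^ 3) (3 * mid W W') := ⟨_, rfl⟩
  rw [← hg1] at h1
  rw [← hg2] at h2
  rw [← hg3] at h3
  have e : e1r y W W' = -(q1 ^ 2 * g1) + q2 ^ 2 * g2 - q3 ^ 2 * g3 := by
    rw [hg1, hg2, hg3]
    unfold e1r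
    ring
  rw [e]
  push_cast at h1 h2 h3
  have b1 : |q1 ^ 2 * g1| ≤ 0.1843 * (1885 / 1000 * 1 * ww) := by
    rw [abs_mul, abs_of_nonneg (sq_nonneg q1)]
    exact mul_le_mul a1 h1 (abs_nonneg _) (by norm_num)
  have b2 : |q2 ^ 2 * g2| ≤ 0.087 * (1885 / 1000 * 2 * ww) := by
    rw [abs_mul, abs_of_nonneg (sq_nonneg q2)]
    exact mul_le_mul a2 h2 (abs_nonneg _) (by norm_num)
  have b3 : |q3 ^ 2 * g3| ≤ 0.00457 * (1885 / 1000 * 3 * ww) := by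
    rw [abs_mul, abs_of_nonneg (sq_nonneg q3)]
    exact mul_le_mul a3 h3 (abs_nonneg _) (by norm_num)
  have c1 := abs_le.1 b1
  have c2 := abs_le.1 b2
  have c3 := abs_le.1 b3
  rw [abs_le]
  constructor <;> nlinarith [c1.1, c1.2, c2.1, c2.2, c3.1, c3.2]

theorem G1_aux4 : 0 ≤ n2f p2 p3 - 2 * n3f p3 ∧ n2f p2 p3 - 2 * n3f p3 ≤ 0.13 ∧ 0 ≤ n3f p3 ∧
    n3f p3 ≤ 0.01 := by
  obtain ⟨b1, b2⟩ := p2_bd
  obtain ⟨c1, c2⟩ := p3_bd
  have i1 : (0.29489603 * 0.29489603 : ℝ) ≤ p2 * p2 :=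
    mul_le_mul b1 b1 (by norm_num) (by linarith)
  have i2 : p2 * p2 ≤ (0.29489604 * 0.29489604 : ℝ) :=
    mul_le_mul b2 b2 (by linarith) (by norm_num)
  have j1 : (0.29489603 * 0.06752708 : ℝ) ≤ p2 * p3 :=
    mul_le_mul b1 c1 (by norm_num) (by linarith)
  have j2 : p2 * p3 ≤ (0.29489604 * 0.06752709 : ℝ) :=
    mul_le_mul b2 c2 (by linarith) (by norm_num)
  have k1 : (0.06752708 * 0.06752708 : ℝ) ≤ p3 * p3 :=
    mul_le_mul c1 c1 (by norm_num) (by linarith)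
  have k2 : p3 * p3 ≤ (0.06752709 * 0.06752709 : ℝ) :=
    mul_le_mul c2 c2 (by linarith) (by norm_num)
  unfold n2f n3f
  refine ⟨by nlinarith, by nlinarith, sq_nonneg _, by nlinarith⟩

theorem G1_aux5 : 0 < ww ∧ ww ≤ 1 / 10 ^ 20 ∧ ff = 10 ^ 6 * ww ^ 2 := by
  unfold ww ff
  refine ⟨by positivity, by norm_num, by norm_num⟩

theorem G1_nr {x : ℝ} (hx : 0 ≤ x) : ‖(x : ℂ)‖ = x := by
  rw [Complex.norm_real, Real.norm_eq_abs, abs_of_nonneg hx]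

/-- the abstract estimate of `2 S - S2` -/
theorem G1_aux6 {X T T2 D1 D2 D3 S S2 sg : ℂ} {e1 : ℝ}
    (hS : S = phi + (ff * T + q1 * X + q2 * X ^ 2 + q3 * X ^ 3))
    (hS2 : S2 = phi ^ 2 + 2 * phi * (ff * T + q1 * X + q2 * X ^ 2 + q3 * X ^ 3)
      + (ff ^ 2 * T2 + 2 * ff * (q1 * X + q2 * X ^ 2 + q3 * X ^ 3)
        + (q1 ^ 2 * (X + D1) + 2 * q1 * q2 * X ^ 2 + q2 ^ 2 * (X ^ 2 + D2)
        + 2 * (q1 + q2) * q3 * X ^ 3 + q3 ^ 2 * (X ^ 3 + D3))))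
    (hX : ‖X‖ ≤ 1) (hXs : ‖1 + X + 3 * sg‖ ≤ 11 * ww ^ 2) (hsg : ‖sg‖ ≤ ww)
    (hT : ‖1 + T‖ ≤ 1 / 10 ^ 10) (hT2 : ‖T2‖ ≤ 1)
    (hD : ‖Complex.I * e1 - (q1 ^ 2 * D1 + q2 ^ 2 * D2 + q3 ^ 2 * D3)‖ ≤ 75 / 10 * ww ^ 2) :
    ‖2 * S - S2 + bb * S0 + 3 * Np * sg + Complex.I * e1‖ ≤ 20 * ww ^ 2 := by
  obtain ⟨hw0, hw1, hfw⟩ := G1_aux5
  obtain ⟨n1, n2, n3, n4⟩ := G1_aux4
  have hN := Np_bd
  have hp := phi_bd
  have hf0 := ff_pos
  have hf2 : 0 ≤ 2 * ff := by linarith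
  have hw2 : 0 < ww ^ 2 := pow_pos hw0 2
  have hwsq : ww ^ 2 ≤ 1 / 10 ^ 20 * ww := by
    rw [pow_two]
    exact mul_le_mul_of_nonneg_right hw1 hw0.le
  have hf1 : ff ≤ 1 / 10 ^ 20 := by
    unfold ff
    norm_num

  have h1X : ‖1 + X‖ ≤ 31 / 10 * ww := by
    have e : 1 + X = (1 + X + 3 * sg) - 3 * sg := by ring
    rw [e]
    refine le_trans (norm_sub_le _ _) ?_
    rw [norm_mul]
    have h3 : ‖(3 : ℂ)‖ = 3 := by norm_num
    rw [h3]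
    have : (11 : ℝ) * ww ^ 2 ≤ 1 / 10 * ww := by
      have : (11 : ℝ) * (1 / 10 ^ 20 * ww) ≤ 1 / 10 * ww := by
        have : (11 : ℝ) * (1 / 10 ^ 20) ≤ 1 / 10 := by norm_num
        nlinarith
      linarith
    linarith
  have h1X' : ‖1 + X‖ ≤ 1 := by
    have : (31 : ℝ) / 10 * (1 / 10 ^ 20) ≤ 1 := by norm_num
    linarith

  obtain ⟨M, hM⟩ : ∃ M : ℂ, M = (n1f p1 p2 p3 - n2f p2 p3 + n3f p3)
        + (n2f p2 p3 - n3f p3) * X + n3f p3 * X ^ 2 := ⟨_, rfl⟩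
  have hMN : M - Np = (1 + X) * (((n2f p2 p3 - 2 * n3f p3 : ℝ) : ℂ) + ((n3f p3 : ℝ) : ℂ) * X) := by
    have e : ((Np : ℝ) : ℂ) = ((n1f p1 p2 p3 - 2 * n2f p2 p3 + 3 * n3f p3 : ℝ) : ℂ) := by
      congr 1
    rw [hM, e]
    push_cast
    ring
  have hK : ‖((n2f p2 p3 - 2 * n3f p3 : ℝ) : ℂ) + ((n3f p3 : ℝ) : ℂ) * X‖ ≤ 2 / 10 := by
    refine le_trans (norm_add_le _ _) ?_
    rw [norm_mul, G1_nr n1, G1_nr n3]
    have : n3f p3 * ‖X‖ ≤ n3f p3 * 1 := mul_le_mul_of_nonneg_left hX n3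
    linarith
  have hMN2 : ‖M - Np‖ ≤ 62 / 100 * ww := by
    rw [hMN, norm_mul]
    have : ‖1 + X‖ * ‖((n2f p2 p3 - 2 * n3f p3 : ℝ) : ℂ) + ((n3f p3 : ℝ) : ℂ) * X‖
        ≤ 31 / 10 * ww * (2 / 10) := mul_le_mul h1X hK (norm_nonneg _) (by positivity)
    linarith
  have hNn : ‖(Np : ℂ)‖ ≤ 0.256 := by
    rw [G1_nr (by linarith [hN.1])]
    linarith [hN.2]
  have hM1 : ‖M‖ ≤ 1 := by
    have e : M = (M - Np) + Np := by ring
    rw [e]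
    refine le_trans (norm_add_le _ _) ?_
    have : (62 : ℝ) / 100 * (1 / 10 ^ 20) ≤ 1 / 10 := by norm_num
    linarith

  have key := N1_alg X T T2 D1 D2 D3 S S2 hS hS2
  rw [← hM] at key
  have e : 2 * S - S2 + bb * S0 + 3 * Np * sg + Complex.I * e1
      = ((2 * ff * (1 - phi) : ℝ) : ℂ) * (1 + T) - ((ff ^ 2 : ℝ) : ℂ) * (1 + T2)
        + Np * (1 + X + 3 * sg) + (1 + X) * (M - Np)
        - ((2 * ff - ff ^ 2 : ℝ) : ℂ) * ((1 + X) * M)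
        + (Complex.I * e1 - (q1 ^ 2 * D1 + q2 ^ 2 * D2 + q3 ^ 2 * D3)) := by
    rw [key]
    push_cast
    ring
  rw [e]
  have t1 : ‖((2 * ff * (1 - phi) : ℝ) : ℂ) * (1 + T)‖ ≤ 1 / 1000 * ww ^ 2 := by
    rw [norm_mul, G1_nr (mul_nonneg hf2 (by linarith [hp.2]))]
    have a1 : 2 * ff * (1 - phi) ≤ 2 * ff * 1 :=
      mul_le_mul_of_nonneg_left (by linarith [hp.1]) hf2
    calc 2 * ff * (1 - phi) * ‖1 + T‖ ≤ 2 * ff * 1 * (1 / 10 ^ 10) :=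
          mul_le_mul a1 hT (norm_nonneg _) (by linarith)
      _ = 2 * 10 ^ 6 * (1 / 10 ^ 10) * ww ^ 2 := by rw [hfw]; ring
      _ ≤ 1 / 1000 * ww ^ 2 := mul_le_mul_of_nonneg_right (by norm_num) hw2.le
  have t2 : ‖((ff ^ 2 : ℝ) : ℂ) * (1 + T2)‖ ≤ 1 / 1000 * ww ^ 2 := by
    rw [norm_mul, G1_nr (sq_nonneg ff)]
    have a1 : ‖1 + T2‖ ≤ 2 := by
      refine le_trans (norm_add_le _ _) ?_
      rw [norm_one]
      linarith
    calc ff ^ 2 * ‖1 + T2‖ ≤ ff ^ 2 * 2 := mul_le_mul_of_nonneg_left a1 (sq_nonneg ff)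
      _ = ff * (2 * ff) := by ring
      _ ≤ 1 / 10 ^ 20 * (2 * ff) := mul_le_mul_of_nonneg_right hf1 hf2
      _ = 1 / 10 ^ 20 * (2 * 10 ^ 6) * ww ^ 2 := by rw [hfw]; ring
      _ ≤ 1 / 1000 * ww ^ 2 := mul_le_mul_of_nonneg_right (by norm_num) hw2.le
  have t3 : ‖Np * (1 + X + 3 * sg)‖ ≤ 2.816 * ww ^ 2 := by
    rw [norm_mul]
    calc ‖(Np : ℂ)‖ * ‖1 + X + 3 * sg‖ ≤ 0.256 * (11 * ww ^ 2) :=
          mul_le_mul hNn hXs (norm_nonneg _) (by norm_num)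
      _ = 2.816 * ww ^ 2 := by ring
  have t4 : ‖(1 + X) * (M - Np)‖ ≤ 1.922 * ww ^ 2 := by
    rw [norm_mul]
    calc ‖1 + X‖ * ‖M - Np‖ ≤ 31 / 10 * ww * (62 / 100 * ww) :=
          mul_le_mul h1X hMN2 (norm_nonneg _) (by positivity)
      _ = 1.922 * ww ^ 2 := by ring
  have t5 : ‖((2 * ff - ff ^ 2 : ℝ) : ℂ) * ((1 + X) * M)‖ ≤ 1 / 1000 * ww ^ 2 := by
    have a0 : 0 ≤ 2 * ff - ff ^ 2 := by nlinarith
    rw [norm_mul, G1_nr a0, norm_mul]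
    have a1 : ‖1 + X‖ * ‖M‖ ≤ 31 / 10 * ww * 1 := mul_le_mul h1X hM1 (norm_nonneg _) (by positivity)
    calc (2 * ff - ff ^ 2) * (‖1 + X‖ * ‖M‖) ≤ 2 * ff * (31 / 10 * ww * 1) := by
          apply mul_le_mul _ a1 (mul_nonneg (norm_nonneg _) (norm_nonneg _)) hf2
          linarith [sq_nonneg ff]
      _ = 62 / 10 * 10 ^ 6 * ww * ww ^ 2 := by rw [hfw]; ring
      _ ≤ 1 / 1000 * ww ^ 2 := by
          apply mul_le_mul_of_nonneg_right _ hw2.le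
          have : (62 : ℝ) / 10 * 10 ^ 6 * (1 / 10 ^ 20) ≤ 1 / 1000 := by norm_num
          linarith
  refine le_trans (norm_add_le _ _) ?_
  refine le_trans (add_le_add (norm_sub_le _ _) le_rfl) ?_
  refine le_trans (add_le_add (add_le_add (norm_add_le _ _) le_rfl) le_rfl) ?_
  refine le_trans (add_le_add (add_le_add (add_le_add (norm_add_le _ _) le_rfl) le_rfl) le_rfl) ?_
  refine le_trans (add_le_add (add_le_add (add_le_add (add_le_add (norm_sub_le _ _) le_rfl)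
    le_rfl) le_rfl) le_rfl) ?_
  linarith

/-- the abstract estimate of `S` -/
theorem G1_aux7 {X T S sg : ℂ}
    (hS : S = phi + (ff * T + q1 * X + q2 * X ^ 2 + q3 * X ^ 3))
    (hX : ‖X‖ ≤ 1) (hXs : ‖1 + X + 3 * sg‖ ≤ 11 * ww ^ 2) (hsg : ‖sg‖ ≤ ww)
    (hT : ‖T‖ ≤ 1) : ‖S - S0‖ ≤ 10 * ww := by
  obtain ⟨hw0, hw1, hfw⟩ := G1_aux5
  have hf0 := ff_pos
  have hp0 := p0_bd
  have hp1 := p1_bd
  have hp2 := p2_bd
  have hp3 := p3_bd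
  have hwsq : ww ^ 2 ≤ 1 / 10 ^ 20 * ww := by
    rw [pow_two]
    exact mul_le_mul_of_nonneg_right hw1 hw0.le
  have h1X : ‖1 + X‖ ≤ 31 / 10 * ww := by
    have e : 1 + X = (1 + X + 3 * sg) - 3 * sg := by ring
    rw [e]
    refine le_trans (norm_sub_le _ _) ?_
    rw [norm_mul]
    have h3 : ‖(3 : ℂ)‖ = 3 := by norm_num
    rw [h3]
    have : (11 : ℝ) * ww ^ 2 ≤ 1 / 10 * ww := by
      have : (11 : ℝ) * (1 / 10 ^ 20 * ww) ≤ 1 / 10 * ww := by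
        have : (11 : ℝ) * (1 / 10 ^ 20) ≤ 1 / 10 := by norm_num
        nlinarith
      linarith
    linarith
  have h1 : (q1 : ℂ) = (1 - ff) * p1 := by
    have : q1 = (1 - ff) * p1 := rfl
    rw [this]
    push_cast
    ring
  have h2 : (q2 : ℂ) = (1 - ff) * p2 := by
    have : q2 = (1 - ff) * p2 := rfl
    rw [this]
    push_cast
    ring
  have h3 : (q3 : ℂ) = (1 - ff) * p3 := by
    have : q3 = (1 - ff) * p3 := rfl
    rw [this]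
    push_cast
    ring
  have h4 : (phi : ℂ) = (1 - ff) * p0 := by
    have : phi = (1 - ff) * p0 := rfl
    rw [this]
    push_cast
    ring
  have h5 : (S0 : ℂ) = p0 - p1 + p2 - p3 := by
    rw [S0_eq]
    push_cast
    ring
  have e : S - S0 = (1 + X) * ((p1 : ℂ) + (p2 : ℂ) * (X - 1) + (p3 : ℂ) * (X ^ 2 - X + 1))
      + (ff : ℂ) * (T - (p0 + p1 * X + p2 * X ^ 2 + p3 * X ^ 3)) := by
    rw [hS, h1, h2, h3, h4, h5]
    ring
  rw [e]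
  have hX2 : ‖X ^ 2‖ ≤ 1 := by
    rw [norm_pow]
    exact pow_le_one₀ (norm_nonneg _) hX
  have hX3 : ‖X ^ 3‖ ≤ 1 := by
    rw [norm_pow]
    exact pow_le_one₀ (norm_nonneg _) hX
  have a1 : ‖X - 1‖ ≤ 2 := by
    refine le_trans (norm_sub_le _ _) ?_
    rw [norm_one]
    linarith
  have a2 : ‖X ^ 2 - X + 1‖ ≤ 3 := by
    refine le_trans (norm_add_le _ _) ?_
    rw [norm_one]
    have := norm_sub_le (X ^ 2) X
    linarith
  have b1 : ‖(p1 : ℂ) + (p2 : ℂ) * (X - 1) + (p3 : ℂ) * (X ^ 2 - X + 1)‖ ≤ 2 := by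
    refine le_trans (norm_add_le _ _) ?_
    refine le_trans (add_le_add (norm_add_le _ _) le_rfl) ?_
    rw [norm_mul, norm_mul, G1_nr (by linarith [hp1.1]), G1_nr (by linarith [hp2.1]),
      G1_nr (by linarith [hp3.1])]
    have c1 : p2 * ‖X - 1‖ ≤ 0.3 * 2 := mul_le_mul (by linarith [hp2.2]) a1 (norm_nonneg _)
      (by norm_num)
    have c2 : p3 * ‖X ^ 2 - X + 1‖ ≤ 0.07 * 3 := mul_le_mul (by linarith [hp3.2]) a2
      (norm_nonneg _) (by norm_num)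
    linarith [hp1.2]
  have b2 : ‖T - (p0 + p1 * X + p2 * X ^ 2 + p3 * X ^ 3)‖ ≤ 3 := by
    refine le_trans (norm_sub_le _ _) ?_
    have c0 : ‖(p0 : ℂ) + p1 * X + p2 * X ^ 2 + p3 * X ^ 3‖ ≤ p0 + p1 * 1 + p2 * 1 + p3 * 1 := by
      refine le_trans (norm_add_le _ _) ?_
      refine le_trans (add_le_add (norm_add_le _ _) le_rfl) ?_
      refine le_trans (add_le_add (add_le_add (norm_add_le _ _) le_rfl) le_rfl) ?_
      rw [norm_mul, norm_mul, norm_mul, G1_nr (by linarith [hp0.1]), G1_nr (by linarith [hp1.1]),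
        G1_nr (by linarith [hp2.1]), G1_nr (by linarith [hp3.1])]
      have d1 : p1 * ‖X‖ ≤ p1 * 1 := mul_le_mul_of_nonneg_left hX (by linarith [hp1.1])
      have d2 : p2 * ‖X ^ 2‖ ≤ p2 * 1 := mul_le_mul_of_nonneg_left hX2 (by linarith [hp2.1])
      have d3 : p3 * ‖X ^ 3‖ ≤ p3 * 1 := mul_le_mul_of_nonneg_left hX3 (by linarith [hp3.1])
      linarith
    have := p_sum
    linarith
  refine le_trans (norm_add_le _ _) ?_
  rw [norm_mul, norm_mul, G1_nr hf0.le]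
  have c1 : ‖1 + X‖ * ‖(p1 : ℂ) + (p2 : ℂ) * (X - 1) + (p3 : ℂ) * (X ^ 2 - X + 1)‖
      ≤ 31 / 10 * ww * 2 := mul_le_mul h1X b1 (norm_nonneg _) (by positivity)
  have c2 : ff * ‖T - (p0 + p1 * X + p2 * X ^ 2 + p3 * X ^ 3)‖ ≤ ff * 3 :=
    mul_le_mul_of_nonneg_left b2 hf0.le
  have c3 : ff * 3 ≤ ww := by
    rw [hfw]
    have : (10 : ℝ) ^ 6 * (1 / 10 ^ 20) * 3 ≤ 1 := by norm_num
    nlinarith
  linarith

theorem G1_aux8 {y' y W W' V : ℕ} (g : Geo y' y W W' V) {z : ℂ} (hz : ‖z‖ ≤ 1) :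
    ev (Qs y W W') z = q1 * ev (bet y W W') z + q2 * ev (bet y W W') z ^ 2
      + q3 * ev (bet y W W') z ^ 3 ∧
    ev (QQ y W W' V) z = ff * ev (TT y V) z + (q1 * ev (bet y W W') z
      + q2 * ev (bet y W W') z ^ 2 + q3 * ev (bet y W W') z ^ 3) := by
  have B1 := Bd_bet_pow g 1
  rw [pow_one] at B1
  have B2 := Bd_bet_pow g 2
  have B3 := Bd_bet_pow g 3
  have BT : Bd 1 (TT y V) 1 := Bd_of_Cpl (TT_nn y V) (Cpl_TT g.Vpos)
  have h1 : ev (Qs y W W') z = q1 * ev (bet y W W') z + q2 * ev (bet y W W') z ^ 2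
      + q3 * ev (bet y W W') z ^ 3 := by
    unfold Qs
    rw [ev_add (Bd_add zero_le_one (Bd_smul q1 B1) (Bd_smul q2 B2)) (Bd_smul q3 B3) hz,
      ev_add (Bd_smul q1 B1) (Bd_smul q2 B2) hz, ev_smul, ev_smul, ev_smul,
      ev_pow B1 hz 2, ev_pow B1 hz 3]
  refine ⟨h1, ?_⟩
  unfold QQ
  rw [ev_add (Bd_smul ff BT) (Bd_Qs g) hz, ev_smul, h1]

theorem G1_aux9 {y' y W W' V : ℕ} (g : Geo y' y W W' V) {z : ℂ} (hz : ‖z‖ ≤ 1) :
    ev (sq (QQ y W W' V)) z = ff ^ 2 * ev (sq (TT y V)) z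
      + 2 * ff * (q1 * ev (bet y W W') z + q2 * ev (bet y W W') z ^ 2
        + q3 * ev (bet y W W') z ^ 3)
      + (q1 ^ 2 * ev (sq (bet y W W')) z + 2 * q1 * q2 * ev (bet y W W') z ^ 2
        + q2 ^ 2 * ev (sq (bet y W W' ^ 2)) z + 2 * (q1 + q2) * q3 * ev (bet y W W') z ^ 3
        + q3 ^ 2 * ev (sq (bet y W W' ^ 3)) z) := by
  have B1 := Bd_bet_pow g 1
  rw [pow_one] at B1
  have B2 := Bd_bet_pow g 2
  have B3 := Bd_bet_pow g 3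
  have BT : Bd 1 (TT y V) 1 := Bd_of_Cpl (TT_nn y V) (Cpl_TT g.Vpos)
  have S1 := Bd_sq zero_le_one B1 B1
  have S2 := Bd_sq zero_le_one B2 B2
  have S3 := Bd_sq zero_le_one B3 B3
  have ST := Bd_sq zero_le_one BT BT
  have SQ := Bd_sq zero_le_one (Bd_Qs g) (Bd_Qs g)
  rw [sq_QQ g, ev_add (Bd_add zero_le_one (Bd_smul (ff ^ 2) ST) (Bd_smul (2 * ff) (Bd_Qs g)))
    SQ hz, ev_add (Bd_smul (ff ^ 2) ST) (Bd_smul (2 * ff) (Bd_Qs g)) hz, ev_smul, ev_smul,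
    (G1_aux8 g hz).1, sq_Qs g]
  have T1 := Bd_smul (q1 ^ 2) S1
  have T2 := Bd_smul (2 * q1 * q2) B2
  have T3 := Bd_smul (q2 ^ 2) S2
  have T4 := Bd_smul (2 * (q1 + q2) * q3) B3
  have T5 := Bd_smul (q3 ^ 2) S3
  have T12 := Bd_add zero_le_one T1 T2
  have T123 := Bd_add zero_le_one T12 T3
  have T1234 := Bd_add zero_le_one T123 T4
  rw [ev_add T1234 T5 hz, ev_add T123 T4 hz, ev_add T12 T3 hz, ev_add T1 T2 hz, ev_smul, ev_smul,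
    ev_smul, ev_smul, ev_smul, ev_pow B1 hz 2, ev_pow B1 hz 3]
  push_cast
  ring

theorem G1_aux10 {y' y W W' V : ℕ} (g : Geo y' y W W' V) {t z : ℂ} (hzt : z = Complex.exp t)
    (hz : ‖z‖ ≤ 1) (j : ℕ) :
    ev (bet y W W' ^ j) z = (z ^ y) ^ (3 * j) * chS (bsh W W' ^ j) (j * mid W W') t ∧
    ev (sq (bet y W W' ^ j)) z = (z ^ y) ^ (3 * j) * (chS (bsh W W' ^ j) (j * mid W W') t
      + shS (bsh W W' ^ j) (j * mid W W') t) := by
  have hA := Sym_pow (Sym_bsh g.odd g.W'_pos) j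
  have hm : 10 ^ 6 * mid W W' ≤ y := by
    have h := g.mid_le.2
    exact_mod_cast h
  have BA : Bd 1 (bsh W W' ^ j) 1 := Bd_of_Cpl hA.nn hA.cpl
  have SA := Bd_sq zero_le_one BA BA
  have e1 : bet y W W' ^ j = X ^ ((3 * y - mid W W') * j) * bsh W W' ^ j := by
    unfold bet
    rw [mul_pow, ← pow_mul]
  have e2 : Complex.exp (t * ((j * mid W W' : ℕ) : ℂ)) = z ^ (j * mid W W') := by
    rw [hzt, ← Complex.exp_nat_mul, mul_comm]
  have e3 : z ^ ((3 * y - mid W W') * j) * z ^ (j * mid W W') = (z ^ y) ^ (3 * j) := by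
    rw [← pow_add, ← pow_mul]
    congr 1
    have h3 : 3 * y = (3 * y - mid W W') + mid W W' := by omega
    calc (3 * y - mid W W') * j + j * mid W W' = ((3 * y - mid W W') + mid W W') * j := by ring
      _ = 3 * y * j := by rw [← h3]
      _ = y * (3 * j) := by ring
  have BX : Bd 1 (X ^ ((3 * y - mid W W') * j) : PS) (1 ^ ((3 * y - mid W W') * j)) :=
    Bd_Xpow zero_le_one _
  constructor
  · rw [e1, ev_mul BX BA hz, ev_Xpow]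
    have h1 := ev_Sym_c hA t
    rw [← hzt, e2] at h1
    rw [h1, ← mul_assoc, e3]
  · rw [e1, sq_Xpow_mul, ev_mul BX SA hz, ev_Xpow]
    have h1 := ev_sq_Sym_c hA t
    rw [← hzt, e2] at h1
    rw [h1, ← mul_assoc, e3]

theorem G1_aux11 {z : ℂ} (hz : ‖z‖ ≤ 1) (n : ℕ) : ‖z ^ n - 1‖ ≤ n * ‖z - 1‖ := by
  induction n with
  | zero => simp
  | succ n ih =>
    have e : z ^ (n + 1) - 1 = z ^ n * (z - 1) + (z ^ n - 1) := by ring
    rw [e]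
    refine le_trans (norm_add_le _ _) ?_
    rw [norm_mul, norm_pow]
    have h1 : ‖z‖ ^ n ≤ 1 := pow_le_one₀ (norm_nonneg _) hz
    have h2 : ‖z‖ ^ n * ‖z - 1‖ ≤ 1 * ‖z - 1‖ := mul_le_mul_of_nonneg_right h1 (norm_nonneg _)
    push_cast
    linarith

/-- a law near the origin has transform near `1` -/
theorem G1_aux12 {A : PS} {v : ℕ} (hA : ∀ n, 0 ≤ coeff n A) (hc : Cpl A v 1) {z : ℂ}
    (hz : ‖z‖ ≤ 1) : ‖ev A z - 1‖ ≤ v * ‖z - 1‖ := by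
  have h1 : ev A z = ∑ n ∈ range v, ((coeff n A : ℝ) : ℂ) * z ^ n := by
    unfold ev
    apply tsum_eq_sum
    intro n hn
    rw [mem_range, not_lt] at hn
    rw [hc.1 n hn, Complex.ofReal_zero, zero_mul]
  have h2 : (1 : ℂ) = ∑ n ∈ range v, ((coeff n A : ℝ) : ℂ) := by
    rw [← Complex.ofReal_sum, hc.2, Complex.ofReal_one]
  have h3 : ev A z - 1 = ∑ n ∈ range v, ((coeff n A : ℝ) : ℂ) * (z ^ n - 1) := by
    rw [h1]
    nth_rewrite 1 [h2]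
    rw [← sum_sub_distrib]
    apply sum_congr rfl
    intro n _
    ring
  rw [h3]
  refine le_trans (norm_sum_le _ _) ?_
  have h4 : ∀ n ∈ range v, ‖((coeff n A : ℝ) : ℂ) * (z ^ n - 1)‖
      ≤ coeff n A * (v * ‖z - 1‖) := by
    intro n hn
    have hn' : (n : ℝ) ≤ v := by exact_mod_cast (mem_range.1 hn).le
    rw [norm_mul, Complex.norm_real, Real.norm_eq_abs, abs_of_nonneg (hA n)]
    apply mul_le_mul_of_nonneg_left _ (hA n)
    exact le_trans (G1_aux11 hz n) (mul_le_mul_of_nonneg_right hn' (norm_nonneg _))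
  refine le_trans (sum_le_sum h4) ?_
  rw [← sum_mul, hc.2, one_mul]

theorem G1_aux13 {y' y W W' V : ℕ} (g : Geo y' y W W' V) {sg : ℂ} (h1 : ‖sg‖ ≤ ww) :
    ‖(Complex.I * Real.pi + sg) / y‖ * y ≤ 32 / 10 := by
  have hy : (0 : ℝ) < y := Nat.cast_pos.2 g.y_pos
  have hp2 : Real.pi ≤ 3.1416 := Real.pi_lt_d4.le
  obtain ⟨hw0, hw1, _⟩ := G1_aux5
  rw [norm_div, Complex.norm_natCast, div_mul_cancel₀ _ hy.ne']
  refine le_trans (norm_add_le _ _) ?_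
  rw [norm_mul, Complex.norm_I, one_mul, G1_nr Real.pi_pos.le]
  have : (1 : ℝ) / 10 ^ 20 ≤ 1 / 1000 := by norm_num
  linarith

theorem G1_aux14 {y' y W W' V : ℕ} (g : Geo y' y W W' V) {sg : ℂ} (h1 : ‖sg‖ ≤ ww) {j : ℕ}
    (hj1 : 1 ≤ j) (hj : j ≤ 3) :
    ‖shS (bsh W W' ^ j) (j * mid W W') ((Complex.I * Real.pi + sg) / y)
      - Complex.I * ((Real.pi / y * GG (bsh W W' ^ j) (j * mid W W') : ℝ) : ℂ)‖
      ≤ (1 + 6 / 10 * j) * ww ^ 2 ∧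
    ‖shS (bsh W W' ^ j) (j * mid W W') ((Complex.I * Real.pi + sg) / y)‖ ≤ 2 * j * ww := by
  have hy : (0 : ℝ) < y := Nat.cast_pos.2 g.y_pos
  obtain ⟨hw0, hw1, _⟩ := G1_aux5
  have hj0 : (1 : ℝ) ≤ j := by exact_mod_cast hj1
  have hj3 : (j : ℝ) ≤ 3 := by exact_mod_cast hj
  have h2 := G_sh g (G1_aux13 g h1) hj
  have h3 := GG_bd g j
  have h4 := G1_aux3 g j
  have h5 := G1_aux2 g
  obtain ⟨s, hs⟩ : ∃ s, s = shS (bsh W W' ^ j) (j * mid W W') ((Complex.I * Real.pi + sg) / y) :=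
    ⟨_, rfl⟩
  obtain ⟨G, hG⟩ : ∃ G, G = GG (bsh W W' ^ j) (j * mid W W') := ⟨_, rfl⟩
  rw [← hs, ← hG] at h2
  rw [← hG] at h3 h4
  rw [← hs, ← hG]
  have hyc : (y : ℂ) ≠ 0 := Nat.cast_ne_zero.2 g.y_pos.ne'
  have e1 : s - Complex.I * ((Real.pi / y * G : ℝ) : ℂ)
      = (s - (Complex.I * Real.pi + sg) / y * ((G : ℝ) : ℂ)) + sg / y * ((G : ℝ) : ℂ) := by
    push_cast
    field_simp
    ring
  have b1 : ‖sg / y * ((G : ℝ) : ℂ)‖ ≤ 6 / 10 * j * ww ^ 2 := by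
    rw [norm_mul, norm_div, Complex.norm_natCast, Complex.norm_real, Real.norm_eq_abs]
    calc ‖sg‖ / y * |G| ≤ ww / y * (6 / 10 * j * W) := by
          apply mul_le_mul _ h3 (abs_nonneg _) (by positivity)
          exact div_le_div_of_nonneg_right h1 hy.le
      _ = 6 / 10 * j * ww * (W / y) := by ring
      _ ≤ 6 / 10 * j * ww * ww := mul_le_mul_of_nonneg_left h5 (by positivity)
      _ = 6 / 10 * j * ww ^ 2 := by ring
  have c1 : ‖s - Complex.I * ((Real.pi / y * G : ℝ) : ℂ)‖ ≤ (1 + 6 / 10 * j) * ww ^ 2 := by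
    rw [e1]
    refine le_trans (norm_add_le _ _) ?_
    linarith
  refine ⟨c1, ?_⟩
  have e2 : s = (s - Complex.I * ((Real.pi / y * G : ℝ) : ℂ))
      + Complex.I * ((Real.pi / y * G : ℝ) : ℂ) := by ring
  rw [e2]
  refine le_trans (norm_add_le _ _) ?_
  rw [norm_mul, Complex.norm_I, one_mul, Complex.norm_real, Real.norm_eq_abs]
  have hwsq : ww ^ 2 ≤ 1 / 10 ^ 20 * ww := by
    rw [pow_two]
    exact mul_le_mul_of_nonneg_right hw1 hw0.le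
  have d1 : (1 + 6 / 10 * (j : ℝ)) * ww ^ 2 ≤ (1 + 6 / 10 * 3) * (1 / 10 ^ 20 * ww) :=
    mul_le_mul (by linarith) hwsq (by positivity) (by norm_num)
  have d2 : (1 + 6 / 10 * 3) * (1 / 10 ^ 20 * ww) ≤ 115 / 1000 * 1 * ww := by
    have : (1 + 6 / 10 * 3) * (1 / 10 ^ 20 : ℝ) ≤ 115 / 1000 * 1 := by norm_num
    nlinarith
  have d3 : 115 / 1000 * 1 * ww ≤ 115 / 1000 * j * ww := by
    apply mul_le_mul_of_nonneg_right _ hw0.le
    linarith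
  linarith

/-- the perturbation terms -/
theorem G1_aux15 {v s G : ℂ} {a b c : ℝ} (h1 : ‖v‖ ≤ a) (h2 : ‖s‖ ≤ b)
    (h3 : ‖s - G‖ ≤ c) : ‖v * s + (s - G)‖ ≤ a * b + c := by
  refine le_trans (norm_add_le _ _) ?_
  rw [norm_mul]
  have : ‖v‖ * ‖s‖ ≤ a * b := mul_le_mul h1 h2 (norm_nonneg _) (le_trans (norm_nonneg _) h1)
  linarith

theorem G_exp {y' y W W' V : ℕ} (g : Geo y' y W W' V) {sg z : ℂ} (h1 : ‖sg‖ ≤ ww) (h2 : sg.re ≤ 0)
    (hz : z = Complex.exp ((Complex.I * Real.pi + sg) / y)) :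
    ‖2 * (phi + ev (QQ y W W' V) z)
        - (phi ^ 2 + 2 * phi * ev (QQ y W W' V) z + ev (sq (QQ y W W' V)) z)
        + bb * S0 + 3 * Np * sg + Complex.I * e1r y W W'‖ ≤ 20 * ww ^ 2 ∧
    ‖phi + ev (QQ y W W' V) z - S0‖ ≤ 10 * ww := by
  have hy : (0 : ℝ) < y := Nat.cast_pos.2 g.y_pos
  have hyc : (y : ℂ) ≠ 0 := Nat.cast_ne_zero.2 g.y_pos.ne'
  obtain ⟨hw0, hw1, hfw⟩ := G1_aux5
  obtain ⟨a1, a2, a3⟩ := G1_aux1
  obtain ⟨t, ht⟩ : ∃ t : ℂ, t = (Complex.I * Real.pi + sg) / y := ⟨_, rfl⟩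
  have htn := G1_aux13 g h1
  have hs1 := G1_aux14 g h1 (le_refl 1) (by norm_num)
  have hs2 := G1_aux14 g h1 (j := 2) (by norm_num) (by norm_num)
  have hs3 := G1_aux14 g h1 (j := 3) (by norm_num) (le_refl 3)
  have hch := G_ch g htn
  rw [← ht] at hz htn hs1 hs2 hs3 hch

  have htr : t.re ≤ 0 := by
    have e : t.re = sg.re / y := by
      rw [ht, Complex.div_natCast_re, Complex.add_re, Complex.mul_re, Complex.I_re, Complex.I_im,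
        Complex.ofReal_re, Complex.ofReal_im]
      ring
    rw [e]
    exact div_nonpos_of_nonpos_of_nonneg h2 hy.le
  have hz1 : ‖z‖ ≤ 1 := by
    rw [hz, Complex.norm_exp]
    exact Real.exp_le_one_iff.2 htr
  have hu : z ^ y = -Complex.exp sg := by
    rw [hz, ← Complex.exp_nat_mul]
    have e : (y : ℂ) * t = Real.pi * Complex.I + sg := by
      rw [ht]
      field_simp
    rw [e, Complex.exp_add, Complex.exp_pi_mul_I]
    ring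
  have hen : ‖Complex.exp sg‖ ≤ 1 := by
    rw [Complex.norm_exp]
    exact Real.exp_le_one_iff.2 h2

  have hww : ww ≤ 1 / 1000 := by
    refine le_trans hw1 (by norm_num)
  have hex : ∀ k : ℕ, k ≤ 9 → ‖Complex.exp sg ^ k - 1‖ ≤ 2 * k * ww := by
    intro k hk
    have hk' : (k : ℝ) ≤ 9 := by exact_mod_cast hk
    rw [← Complex.exp_nat_mul]
    have e1 : ‖(k : ℂ) * sg‖ ≤ k * ww := by
      rw [norm_mul, Complex.norm_natCast]
      exact mul_le_mul_of_nonneg_left h1 (Nat.cast_nonneg k)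
    have e2 : (k : ℝ) * ww ≤ 1 := by
      calc (k : ℝ) * ww ≤ 9 * (1 / 1000) := mul_le_mul hk' hww hw0.le (by norm_num)
        _ ≤ 1 := by norm_num
    refine le_trans (Complex.norm_exp_sub_one_le (le_trans e1 e2)) ?_
    linarith

  have hbz := G1_aux10 g hz hz1 1
  rw [pow_one, pow_one, one_mul] at hbz
  have hX1 : ‖ev (bet y W W') z‖ ≤ 1 := by
    have B1 := Bd_bet_pow g 1
    rw [pow_one] at B1
    exact ev_norm B1 hz1
  have hXs : ‖1 + ev (bet y W W') z + 3 * sg‖ ≤ 11 * ww ^ 2 := by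
    have e0 : Complex.exp (3 * sg) = Complex.exp sg ^ 3 := by
      rw [← Complex.exp_nat_mul]
      norm_num
    have e : 1 + ev (bet y W W') z + 3 * sg = -(Complex.exp (3 * sg) - 1 - 3 * sg)
        - Complex.exp sg ^ 3 * (chS (bsh W W') (mid W W') t - 1) := by
      rw [hbz.1, hu, e0]
      ring
    rw [e]
    refine le_trans (norm_sub_le _ _) ?_
    rw [norm_neg, norm_mul, norm_pow]
    have n3 : ‖3 * sg‖ ≤ 3 * ww := by
      rw [norm_mul]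
      have : ‖(3 : ℂ)‖ = 3 := by norm_num
      rw [this]
      linarith
    have c1 := Complex.norm_exp_sub_one_sub_id_le (x := 3 * sg) (le_trans n3 (by linarith))
    have c2 : ‖3 * sg‖ ^ 2 ≤ (3 * ww) ^ 2 := pow_le_pow_left₀ (norm_nonneg _) n3 2
    have c3 : ‖Complex.exp sg‖ ^ 3 ≤ 1 := pow_le_one₀ (norm_nonneg _) hen
    have c4 : ‖Complex.exp sg‖ ^ 3 * ‖chS (bsh W W') (mid W W') t - 1‖ ≤ 1 * (2 * ww ^ 2) :=
      mul_le_mul c3 hch (norm_nonneg _) zero_le_one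
    nlinarith

  have BU : ‖ev (U V) z - 1‖ ≤ V * ‖z - 1‖ := G1_aux12 (U_nn V) (Cpl_U g.Vpos) hz1
  have hTT : ev (TT y V) z = z ^ y * ev (U V) z := by
    unfold TT
    rw [ev_mul (Bd_Xpow zero_le_one y) (Bd_U V) hz1, ev_Xpow]
  have hUn : ‖ev (U V) z‖ ≤ 1 := ev_norm (Bd_U V) hz1
  have hT1 : ‖ev (TT y V) z‖ ≤ 1 :=
    ev_norm (Bd_of_Cpl (TT_nn y V) (Cpl_TT g.Vpos)) hz1
  have hT2 : ‖ev (sq (TT y V)) z‖ ≤ 1 := by
    have h := ev_norm (Bd_of_Cpl (sq_nn (TT_nn y V)) (Cpl_sq (Cpl_TT (y := y) g.Vpos))) hz1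
    rw [one_pow] at h
    exact h
  have hz2 : ‖z - 1‖ * y ≤ 64 / 10 := by
    have ht1 : ‖t‖ ≤ 1 := by
      have hy6 : (10 : ℝ) ^ 6 ≤ y := by
        have h3 := g.y'_le
        have h4 := g.pos
        have h5 : 10 ^ 6 ≤ y := by omega
        exact_mod_cast h5
      have h3 : ‖t‖ * 10 ^ 6 ≤ 32 / 10 :=
        le_trans (mul_le_mul_of_nonneg_left hy6 (norm_nonneg t)) htn
      linarith
    have h3 := Complex.norm_exp_sub_one_le ht1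
    rw [← hz] at h3
    calc ‖z - 1‖ * y ≤ 2 * ‖t‖ * y := mul_le_mul_of_nonneg_right h3 hy.le
      _ = 2 * (‖t‖ * y) := by ring
      _ ≤ 64 / 10 := by linarith
  have hVz : (V : ℝ) * ‖z - 1‖ ≤ 1 / 10 ^ 20 := by
    have h3 := g.Vhi
    have h4 : (10 : ℝ) ^ 6 * y' ≤ y := by exact_mod_cast g.y'_le
    unfold vv at h3
    have h5 : (V : ℝ) ≤ 1 / 10 ^ 80 * y := by
      have h6 : 2 * (1 / 10 ^ 83) * (y' : ℝ) ≤ 2 * (1 / 10 ^ 83) * y := by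
        apply mul_le_mul_of_nonneg_left _ (by positivity)
        have : (0 : ℝ) ≤ y' := Nat.cast_nonneg y'
        linarith
      have h7 : 2 * (1 / 10 ^ 83) * (y : ℝ) ≤ 1 / 10 ^ 80 * y := by
        apply mul_le_mul_of_nonneg_right _ hy.le
        norm_num
      linarith
    calc (V : ℝ) * ‖z - 1‖ ≤ 1 / 10 ^ 80 * y * ‖z - 1‖ :=
          mul_le_mul_of_nonneg_right h5 (norm_nonneg _)
      _ = 1 / 10 ^ 80 * (‖z - 1‖ * y) := by ring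
      _ ≤ 1 / 10 ^ 80 * (64 / 10) := mul_le_mul_of_nonneg_left hz2 (by positivity)
      _ ≤ 1 / 10 ^ 20 := by norm_num
  have hT : ‖1 + ev (TT y V) z‖ ≤ 1 / 10 ^ 10 := by
    have e : 1 + ev (TT y V) z = -(Complex.exp sg ^ 1 - 1)
        - Complex.exp sg * (ev (U V) z - 1) := by
      rw [hTT, hu]
      ring
    rw [e]
    refine le_trans (norm_sub_le _ _) ?_
    rw [norm_neg, norm_mul]
    have c1 := hex 1 (by norm_num)
    have c2 : ‖Complex.exp sg‖ * ‖ev (U V) z - 1‖ ≤ 1 * (1 / 10 ^ 20) :=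
      mul_le_mul hen (le_trans BU hVz) (norm_nonneg _) zero_le_one
    push_cast at c1
    have c3 : (2 : ℝ) * 1 * (1 / 10 ^ 20) + 1 * (1 / 10 ^ 20) ≤ 1 / 10 ^ 10 := by norm_num
    linarith

  have hd1 := G1_aux10 g hz hz1 1
  have hd2 := G1_aux10 g hz hz1 2
  have hd3 := G1_aux10 g hz hz1 3
  obtain ⟨g1, hg1⟩ : ∃ g1 : ℝ, g1 = Real.pi / y * GG (bsh W W') (mid W W') := ⟨_, rfl⟩
  obtain ⟨g2, hg2⟩ : ∃ g2 : ℝ, g2 = Real.pi / y * GG (bsh W W' ^ 2) (2 * mid W W') := ⟨_, rfl⟩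
  obtain ⟨g3, hg3⟩ : ∃ g3 : ℝ, g3 = Real.pi / y * GG (bsh W W' ^ 3) (3 * mid W W') := ⟨_, rfl⟩
  have he1 : e1r y W W' = -(q1 ^ 2 * g1) + q2 ^ 2 * g2 - q3 ^ 2 * g3 := by
    rw [hg1, hg2, hg3]
    unfold e1r
    ring
  rw [pow_one, pow_one, one_mul] at hd1
  rw [pow_one, one_mul] at hs1
  rw [← hg1] at hs1
  rw [← hg2] at hs2
  rw [← hg3] at hs3
  obtain ⟨s1, hss1⟩ : ∃ s1, s1 = shS (bsh W W') (mid W W') t := ⟨_, rfl⟩
  obtain ⟨s2, hss2⟩ : ∃ s2, s2 = shS (bsh W W' ^ 2) (2 * mid W W') t := ⟨_, rfl⟩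
  obtain ⟨s3, hss3⟩ : ∃ s3, s3 = shS (bsh W W' ^ 3) (3 * mid W W') t := ⟨_, rfl⟩
  rw [← hss1] at hs1 hd1
  rw [← hss2] at hs2 hd2
  rw [← hss3] at hs3 hd3
  obtain ⟨X, hX⟩ : ∃ X, X = ev (bet y W W') z := ⟨_, rfl⟩
  have B1 := Bd_bet_pow g 1
  rw [pow_one] at B1
  have hX2 : ev (bet y W W' ^ 2) z = X ^ 2 := by rw [ev_pow B1 hz1 2, hX]
  have hX3 : ev (bet y W W' ^ 3) z = X ^ 3 := by rw [ev_pow B1 hz1 3, hX]
  obtain ⟨E, hE⟩ : ∃ E, E = Complex.exp sg := ⟨_, rfl⟩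
  rw [hu, ← hE] at hd1 hd2 hd3
  have f1 : ev (sq (bet y W W')) z = X + -(E ^ 3 * s1) := by
    rw [hd1.2, hX, hd1.1]
    ring
  have f2 : ev (sq (bet y W W' ^ 2)) z = X ^ 2 + E ^ 6 * s2 := by
    rw [hd2.2, ← hX2, hd2.1]
    ring
  have f3 : ev (sq (bet y W W' ^ 3)) z = X ^ 3 + -(E ^ 9 * s3) := by
    rw [hd3.2, ← hX3, hd3.1]
    ring
  have hD : ‖Complex.I * ((e1r y W W' : ℝ) : ℂ) - (q1 ^ 2 * -(E ^ 3 * s1) + q2 ^ 2 * (E ^ 6 * s2)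
      + q3 ^ 2 * -(E ^ 9 * s3))‖ ≤ 75 / 10 * ww ^ 2 := by
    have e : Complex.I * ((e1r y W W' : ℝ) : ℂ) - (q1 ^ 2 * -(E ^ 3 * s1) + q2 ^ 2 * (E ^ 6 * s2)
        + q3 ^ 2 * -(E ^ 9 * s3))
        = ((q1 ^ 2 : ℝ) : ℂ) * ((E ^ 3 - 1) * s1 + (s1 - Complex.I * ((g1 : ℝ) : ℂ)))
        - ((q2 ^ 2 : ℝ) : ℂ) * ((E ^ 6 - 1) * s2 + (s2 - Complex.I * ((g2 : ℝ) : ℂ)))
        + ((q3 ^ 2 : ℝ) : ℂ) * ((E ^ 9 - 1) * s3 + (s3 - Complex.I * ((g3 : ℝ) : ℂ))) := by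
      rw [he1]
      push_cast
      ring
    rw [e]
    have k1 := G1_aux15 (hex 3 (by norm_num)) hs1.2 hs1.1
    have k2 := G1_aux15 (hex 6 (by norm_num)) hs2.2 hs2.1
    have k3 := G1_aux15 (hex 9 (by norm_num)) hs3.2 hs3.1
    rw [← hE] at k1 k2 k3
    refine le_trans (norm_add_le _ _) ?_
    refine le_trans (add_le_add (norm_sub_le _ _) le_rfl) ?_
    rw [norm_mul, norm_mul, norm_mul, G1_nr (sq_nonneg q1), G1_nr (sq_nonneg q2),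
      G1_nr (sq_nonneg q3)]
    have m1 := mul_le_mul a1 k1 (norm_nonneg _) (by norm_num)
    have m2 := mul_le_mul a2 k2 (norm_nonneg _) (by norm_num)
    have m3 := mul_le_mul a3 k3 (norm_nonneg _) (by norm_num)
    push_cast at m1 m2 m3
    have r1 : 0.1843 * (2 * 3 * ww * (2 * 1 * ww) + (1 + 6 / 10 * 1) * ww ^ 2)
        = 2.50648 * ww ^ 2 := by ring
    have r2 : 0.087 * (2 * 6 * ww * (2 * 2 * ww) + (1 + 6 / 10 * 2) * ww ^ 2)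
        = 4.3674 * ww ^ 2 := by ring
    have r3 : 0.00457 * (2 * 9 * ww * (2 * 3 * ww) + (1 + 6 / 10 * 3) * ww ^ 2)
        = 0.506356 * ww ^ 2 := by ring
    rw [r1] at m1
    rw [r2] at m2
    rw [r3] at m3
    have r4 : 0 ≤ ww ^ 2 := sq_nonneg ww
    linarith
  have hev := (G1_aux8 g hz1).2
  have hev2 := G1_aux9 g hz1
  rw [f1, f2, f3, ← hX] at hev2
  rw [← hX] at hev
  rw [← hX] at hX1 hXs
  constructor
  · exact G1_aux6 (X := X) (T := ev (TT y V) z) (T2 := ev (sq (TT y V)) z)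
      (D1 := -(E ^ 3 * s1)) (D2 := E ^ 6 * s2) (D3 := -(E ^ 9 * s3)) (by rw [hev]; ring)
      (by rw [hev, hev2]; ring) hX1 hXs h1 hT hT2 hD
  · exact G1_aux7 (X := X) (T := ev (TT y V) z) (by rw [hev]; ring) hX1 hXs h1 hT1

end MP18
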