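import Pool.Agent.Lib.MP_18566a_pr.T.G1
import Pool.Agent.Lib.MP_18566a_pr.T.E8l
import Pool.Agent.Lib.MP_18566a_pr.T.D7f

set_option autoImplicit false

namespace MP18

open Finset PowerSeries

theorem G2_aux1 {K : PS} {C : ℝ} (hK : Bd 1 K C) :
    DifferentiableOn ℂ (fun z => ev K z) (Metric.ball 0 1) := by
  have hs : Summable (fun n => |coeff n K|) := by
    apply summable_of_sum_range_le (c := C) (fun n => abs_nonneg _)
    intro n
    have h := hK n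
    simp only [one_pow, mul_one] at h
    exact h
  unfold ev
  apply Complex.differentiableOn_tsum_of_summable_norm hs
  · intro n
    exact ((differentiable_id.pow n).const_mul _).differentiableOn
  · exact Metric.isOpen_ball
  · intro n w hw
    rw [norm_mul, Complex.norm_real, Real.norm_eq_abs, norm_pow]
    have h1 : ‖w‖ < 1 := by
      rw [Metric.mem_ball, dist_zero_right] at hw
      exact hw
    have h2 : ‖w‖ ^ n ≤ 1 := pow_le_one₀ (norm_nonneg _) h1.le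
    calc |coeff n K| * ‖w‖ ^ n ≤ |coeff n K| * 1 := mul_le_mul_of_nonneg_left h2 (abs_nonneg _)
      _ = |coeff n K| := mul_one _

theorem G2_aux2 {y' y W W' V : ℕ} (g : Geo y' y W W' V) {sg : ℂ} :
    ((Complex.I * Real.pi + sg) / y).re = sg.re / y := by
  rw [Complex.div_natCast_re, Complex.add_re, Complex.mul_re, Complex.I_re, Complex.I_im,
    Complex.ofReal_re, Complex.ofReal_im]
  ring

theorem G2_aux3 {y' y W W' V : ℕ} (g : Geo y' y W W' V) {sg : ℂ} (h1 : ‖sg‖ ≤ ww)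
    (h2 : sg.re ≤ 0) :
    ‖Complex.exp ((Complex.I * Real.pi + sg) / y)‖ ≤ 1 ∧
    2 * 10 ^ 9 * (‖1 - Complex.exp ((Complex.I * Real.pi + sg) / y)‖ * y') ≤ ww ^ 2 := by
  have hy : (0 : ℝ) < y := Nat.cast_pos.2 g.y_pos
  have htn := G1_aux13 g h1
  have hre := G2_aux2 g (sg := sg)
  obtain ⟨t, ht⟩ : ∃ t : ℂ, t = (Complex.I * Real.pi + sg) / y := ⟨_, rfl⟩
  rw [← ht] at htn hre
  rw [← ht]
  constructor
  · rw [Complex.norm_exp, hre]
    exact Real.exp_le_one_iff.2 (div_nonpos_of_nonpos_of_nonneg h2 hy.le)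
  · have ht1 : ‖t‖ ≤ 1 := by
      have hy6 : (10 : ℝ) ^ 6 ≤ y := by
        have h3 := g.y'_le
        have h4 := g.pos
        have h5 : 10 ^ 6 ≤ y := by omega
        exact_mod_cast h5
      have h3 : ‖t‖ * 10 ^ 6 ≤ 32 / 10 :=
        le_trans (mul_le_mul_of_nonneg_left hy6 (norm_nonneg t)) htn
      linarith
    have h3 := Complex.norm_exp_sub_one_le ht1
    rw [← norm_sub_rev] at h3
    have h4 := g.sep
    unfold L0 at h4
    have h5 : (y' : ℝ) ≤ 1 / 10 ^ 250 * y := by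
      rw [one_div, inv_mul_eq_div, le_div_iff₀ (by positivity)]
      linarith
    have h6 : ‖1 - Complex.exp t‖ * y' ≤ 64 / 10 * (1 / 10 ^ 250) := by
      calc ‖1 - Complex.exp t‖ * y' ≤ 2 * ‖t‖ * (1 / 10 ^ 250 * y) :=
            mul_le_mul h3 h5 (Nat.cast_nonneg _) (by positivity)
        _ = 2 * (1 / 10 ^ 250) * (‖t‖ * y) := by ring
        _ ≤ 2 * (1 / 10 ^ 250) * (32 / 10) := mul_le_mul_of_nonneg_left htn (by positivity)
        _ = 64 / 10 * (1 / 10 ^ 250) := by ring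
    refine le_trans (mul_le_mul_of_nonneg_left h6 (by positivity)) ?_
    unfold ww
    norm_num

/-- the kernel near the frequency `pi / y` -/
theorem G2_aux4 {y' y W W' V : ℕ} {a0 : PS} (g : Geo y' y W W' V) (h : In y' y a0) {sg : ℂ}
    (h1 : ‖sg‖ ≤ ww) (h2 : sg.re ≤ 0) :
    ∃ S R e : ℂ, ev (ker (aF a0 y W W' V)) (Complex.exp ((Complex.I * Real.pi + sg) / y)) - 2
      = (bb * S0 + 3 * Np * sg + Complex.I * e1r y W W' + R) / S + e ∧ ‖R‖ ≤ 20 * ww ^ 2 ∧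
      ‖e‖ ≤ ww ^ 2 ∧ ‖S‖ ≤ S0 + 10 * ww ∧ S ≠ 0 ∧ ‖S⁻¹‖ ≤ 158 := by
  obtain ⟨z, hz⟩ : ∃ z : ℂ, z = Complex.exp ((Complex.I * Real.pi + sg) / y) := ⟨_, rfl⟩
  have h3 := G_exp g h1 h2 hz
  have h4 := G2_aux3 g h1 h2
  rw [← hz] at h4
  have h5 := E_low_gen g h h4.1
  rw [← hz]
  obtain ⟨S, hS⟩ : ∃ S : ℂ, S = phi + ev (QQ y W W' V) z := ⟨_, rfl⟩
  obtain ⟨S2, hS2⟩ : ∃ S2 : ℂ, S2 = phi ^ 2 + 2 * phi * ev (QQ y W W' V) z
    + ev (sq (QQ y W W' V)) z := ⟨_, rfl⟩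
  rw [← hS, ← hS2] at h3 h5
  obtain ⟨h6, h7, h8⟩ := h5
  refine ⟨S, -(2 * S - S2 + bb * S0 + 3 * Np * sg + Complex.I * e1r y W W'),
    ev (ker (aF a0 y W W' V)) z - S2 / S, ?_, ?_, ?_, ?_, h6, h7⟩
  · field_simp
    ring
  · rw [norm_neg]
    exact h3.1
  · exact le_trans h8 h4.2
  · have e : S = (S - S0) + S0 := by ring
    rw [e]
    refine le_trans (norm_add_le _ _) ?_
    have hs := S0_bd.1
    rw [G1_nr (by linarith)]
    linarith [h3.2]

theorem G2_aux5 : 12 / 100 * ff ≤ bb * S0 / Np ∧ bb * S0 / Np ≤ 1203 / 10000 * ff := by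
  have hb := bb_bd
  have hs := S0_bd
  have hN := Np_bd
  have hf := ff_pos
  have hNp : 0 < Np := by linarith [hN.1]
  have h1 : 4.8 * ff * 0.006389896 ≤ bb * S0 :=
    mul_le_mul hb.1 hs.1 (by norm_num) (by linarith [hb.1])
  have h2 : bb * S0 ≤ 4.81 * ff * 0.006389897 :=
    mul_le_mul hb.2 hs.2 (by linarith [hs.1]) (by linarith)
  rw [le_div_iff₀ hNp, div_le_iff₀ hNp]
  constructor
  · have h3 : 12 / 100 * ff * Np ≤ 12 / 100 * ff * 0.2555387 :=
      mul_le_mul_of_nonneg_left hN.2 (by linarith)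
    linarith
  · have h3 : 1203 / 10000 * ff * 0.2555385 ≤ 1203 / 10000 * ff * Np :=
      mul_le_mul_of_nonneg_left hN.1 (by linarith)
    linarith

theorem root {y' y W W' V : ℕ} {a0 : PS} (g : Geo y' y W W' V) (h : In y' y a0) :
    ∃ sg z : ℂ, ‖sg‖ ≤ ww ∧ -(7 / 100 * ff) ≤ sg.re ∧ sg.re ≤ -(1 / 100 * ff) ∧
      z = Complex.exp ((Complex.I * Real.pi + sg) / y) ∧ ev (ker (aF a0 y W W' V)) z = 2 := by
  have hy : (0 : ℝ) < y := Nat.cast_pos.2 g.y_pos
  have hN := Np_bd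
  have hNp : 0 < Np := by linarith [hN.1]
  have hf := ff_pos
  have hs := S0_bd
  have hb := bb_bd
  obtain ⟨hw0, hw1, hfw⟩ := G1_aux5
  obtain ⟨hA1, hA2⟩ := G2_aux5
  obtain ⟨A, hA⟩ : ∃ A, A = bb * S0 / Np := ⟨_, rfl⟩
  rw [← hA] at hA1 hA2
  have hAN : A * Np = bb * S0 := by
    rw [hA]
    field_simp
  have he1 := e1r_bd g
  obtain ⟨e1, he1d⟩ : ∃ e1, e1 = e1r y W W' := ⟨_, rfl⟩
  rw [← he1d] at he1
  obtain ⟨B, hB⟩ : ∃ B, B = e1 / (3 * Np) := ⟨_, rfl⟩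
  have hB1 : |B| ≤ 93 / 100 * ww := by
    rw [hB, abs_div, abs_of_pos (by linarith : 0 < 3 * Np), div_le_iff₀ (by linarith)]
    have : 93 / 100 * ww * (3 * 0.2555385) ≤ 93 / 100 * ww * (3 * Np) :=
      mul_le_mul_of_nonneg_left (by linarith [hN.1]) (by linarith)
    linarith
  obtain ⟨c, hc⟩ : ∃ c : ℂ, c = ⟨-(A / 3), -B⟩ := ⟨_, rfl⟩
  have hcre : c.re = -(A / 3) := by rw [hc]
  have hcim : c.im = -B := by rw [hc]
  have hfw2 : ff ≤ 1 / 100 * ww := by
    rw [hfw, pow_two, ← mul_assoc]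
    apply mul_le_mul_of_nonneg_right _ hw0.le
    calc (10 : ℝ) ^ 6 * ww ≤ 10 ^ 6 * (1 / 10 ^ 20) := mul_le_mul_of_nonneg_left hw1 (by norm_num)
      _ ≤ 1 / 100 := by norm_num
  obtain ⟨r, hr⟩ : ∃ r, r = A / 6 := ⟨_, rfl⟩
  have hr0 : 0 < r := by rw [hr]; linarith

  have hball : ∀ sg ∈ Metric.closedBall c r, ‖sg‖ ≤ ww ∧ -(7 / 100 * ff) ≤ sg.re ∧
      sg.re ≤ -(1 / 100 * ff) := by
    intro sg hsg
    rw [Metric.mem_closedBall, dist_eq_norm] at hsg
    have k1 := le_trans (Complex.abs_re_le_norm (sg - c)) hsg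
    rw [Complex.sub_re, hcre, abs_le] at k1
    refine ⟨?_, by linarith [k1.1], by linarith [k1.2]⟩
    have k2 : ‖c‖ ≤ A / 3 + 93 / 100 * ww := by
      refine le_trans (Complex.norm_le_abs_re_add_abs_im c) ?_
      rw [hcre, hcim, abs_neg, abs_neg, abs_of_nonneg (by linarith : 0 ≤ A / 3)]
      linarith
    have k3 : ‖sg‖ ≤ ‖sg - c‖ + ‖c‖ := by
      have := norm_add_le (sg - c) c
      rwa [sub_add_cancel] at this
    linarith

  obtain ⟨K, hK⟩ : ∃ K, K = ker (aF a0 y W W' V) := ⟨_, rfl⟩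
  have hKb : Bd 1 K 37.85 := by
    rw [hK]
    exact D14 g h Adm_one
  obtain ⟨f, hfd⟩ : ∃ f : ℂ → ℂ, f = fun sg =>
    ev K (Complex.exp ((Complex.I * Real.pi + sg) / y)) := ⟨_, rfl⟩
  have hfa : ∀ sg, f sg = ev K (Complex.exp ((Complex.I * Real.pi + sg) / y)) := by
    intro sg
    rw [hfd]
  obtain ⟨Uo, hUo⟩ : ∃ Uo : Set ℂ, Uo = {sg : ℂ | sg.re < 0} := ⟨_, rfl⟩
  have hUo1 : IsOpen Uo := by
    rw [hUo]
    exact isOpen_lt Complex.continuous_re continuous_const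
  have hUo2 : IsPreconnected Uo := by
    rw [hUo]
    exact (convex_halfSpace_re_lt 0).isPreconnected
  have hmem : ∀ sg, sg ∈ Uo ↔ sg.re < 0 := by
    intro sg
    rw [hUo]
    rfl
  have hdiff : DifferentiableOn ℂ f Uo := by
    rw [hfd]
    refine (G2_aux1 hKb).comp (t := Metric.ball 0 1) ?_ ?_
    · refine Differentiable.differentiableOn ?_
      exact ((differentiable_id.const_add _).div_const _).cexp
    · intro sg hsg
      rw [Metric.mem_ball, dist_zero_right, Complex.norm_exp, G2_aux2 g]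
      exact Real.exp_lt_one_iff.2 (div_neg_of_neg_of_pos ((hmem sg).1 hsg) hy)
  have hsub : Metric.closedBall c r ⊆ Uo := by
    intro sg hsg
    rw [hmem]
    have := (hball sg hsg).2.2
    linarith

  have hlin : ∀ sg : ℂ, (bb : ℂ) * S0 + 3 * Np * sg + Complex.I * ((e1 : ℝ) : ℂ)
      = 3 * Np * (sg - c) := by
    intro sg
    have e2 : (c : ℂ) = ((-(A / 3) : ℝ) : ℂ) + ((-B : ℝ) : ℂ) * Complex.I := by
      apply Complex.ext
      · simp [hcre]
      · simp [hcim]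
    have e3 : ((A : ℝ) : ℂ) * Np = bb * S0 := by exact_mod_cast hAN
    have e4 : ((B : ℝ) : ℂ) * (3 * Np) = e1 := by
      have : B * (3 * Np) = e1 := by
        rw [hB]
        field_simp
      exact_mod_cast this
    rw [e2]
    push_cast
    linear_combination (-1 : ℂ) * e3 - Complex.I * e4
  have hest : ∀ sg ∈ Metric.closedBall c r, ∃ S R e : ℂ, f sg - 2
      = (3 * Np * (sg - c) + R) / S + e ∧ ‖R‖ ≤ 20 * ww ^ 2 ∧
      ‖e‖ ≤ ww ^ 2 ∧ ‖S‖ ≤ S0 + 10 * ww ∧ S ≠ 0 ∧ ‖S⁻¹‖ ≤ 158 := by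
    intro sg hsg
    have hb1 := hball sg hsg
    obtain ⟨S, R, e, k1, k2⟩ := G2_aux4 g h hb1.1 (by linarith [hb1.2.2])
    refine ⟨S, R, e, ?_, k2⟩
    rw [hfa, hK, k1, ← he1d, hlin sg]
  have hw2 : ww ^ 2 = 1 / 10 ^ 6 * ff := by
    rw [hfw]
    ring

  have hcen : ‖f c - 2‖ ≤ 4 / 1000 * ff := by
    obtain ⟨S, R, e, k1, k2, k3, k4, k5, k6⟩ := hest c (Metric.mem_closedBall_self hr0.le)
    rw [k1, sub_self, mul_zero, zero_add, div_eq_mul_inv]
    refine le_trans (norm_add_le _ _) ?_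
    rw [norm_mul]
    have m1 : ‖R‖ * ‖S⁻¹‖ ≤ 20 * ww ^ 2 * 158 :=
      mul_le_mul k2 k6 (norm_nonneg _) (mul_nonneg (by norm_num) (sq_nonneg _))
    rw [hw2] at m1 k3
    linarith

  have hsph : ∀ sg ∈ Metric.sphere c r, 23 / 10 * ff ≤ ‖f sg - f c‖ := by
    intro sg hsg
    obtain ⟨S, R, e, k1, k2, k3, k4, k5, k6⟩ := hest sg (Metric.sphere_subset_closedBall hsg)
    have hd : ‖sg - c‖ = r := by
      rw [← dist_eq_norm]
      exact hsg
    have m1 : ‖(3 * Np * (sg - c) : ℂ)‖ = bb * S0 / 2 := by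
      have e3 : (3 * Np * (sg - c) : ℂ) = ((3 * Np : ℝ) : ℂ) * (sg - c) := by push_cast; ring
      rw [e3, norm_mul, G1_nr (by linarith), hd, hr, ← hAN]
      ring
    have m2 : 4.8 * ff * 0.006389896 ≤ bb * S0 :=
      mul_le_mul hb.1 hs.1 (by norm_num) (by linarith [hb.1])
    have m3 : 1531 / 100000 * ff ≤ ‖3 * Np * (sg - c) + R‖ := by
      have m4 : ‖(3 * Np * (sg - c) : ℂ)‖ ≤ ‖3 * Np * (sg - c) + R‖ + ‖R‖ := by
        have := norm_sub_le (3 * Np * (sg - c) + R) R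
        rwa [add_sub_cancel_right] at this
      rw [m1] at m4
      rw [hw2] at k2
      linarith
    have hS0 : 0 < ‖S‖ := norm_pos_iff.2 k5
    have hS1 : ‖S‖ ≤ 639 / 100000 := by
      have : (10 : ℝ) * (1 / 10 ^ 20) ≤ 1 / 10 ^ 10 := by norm_num
      have h10 : (0.006389897 : ℝ) + 1 / 10 ^ 10 ≤ 639 / 100000 := by norm_num
      linarith [hs.2]
    have m5 : 239 / 100 * ff ≤ ‖(3 * Np * (sg - c) + R) / S‖ := by
      rw [norm_div, le_div_iff₀ hS0]
      have : 239 / 100 * ff * ‖S‖ ≤ 239 / 100 * ff * (639 / 100000) :=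
        mul_le_mul_of_nonneg_left hS1 (by linarith)
      linarith
    have m6 : ‖(3 * Np * (sg - c) + R) / S‖ ≤ ‖f sg - 2‖ + ‖e‖ := by
      have e4 : (3 * Np * (sg - c) + R) / S = (f sg - 2) - e := by
        rw [k1]
        ring
      rw [e4]
      exact norm_sub_le _ _
    have m7 : ‖f sg - 2‖ ≤ ‖f sg - f c‖ + ‖f c - 2‖ := by
      have := norm_add_le (f sg - f c) (f c - 2)
      rwa [sub_add_sub_cancel] at this
    rw [hw2] at k3
    linarith

  have hfreq : ∃ᶠ z in nhds c, f z ≠ f c := by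
    by_contra hcon
    rw [Filter.not_frequently] at hcon
    have hev : f =ᶠ[nhds c] (fun _ => f c) := by
      filter_upwards [hcon] with z hz
      exact not_not.1 hz
    have hcU : c ∈ Uo := hsub (Metric.mem_closedBall_self hr0.le)
    have heq := (hdiff.analyticOnNhd hUo1).eqOn_of_preconnected_of_eventuallyEq
      analyticOnNhd_const hUo2 hcU hev
    have hpt : c + (r : ℂ) ∈ Metric.sphere c r := by
      rw [mem_sphere_iff_norm, add_sub_cancel_left, G1_nr hr0.le]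
    have k1 := hsph _ hpt
    have k2 := heq (hsub (Metric.sphere_subset_closedBall hpt))
    rw [k2, sub_self, norm_zero] at k1
    linarith
  have hdc : DiffContOnCl ℂ f (Metric.ball c r) := by
    apply DifferentiableOn.diffContOnCl
    rw [closure_ball c hr0.ne']
    exact hdiff.mono hsub
  have himg := hdc.ball_subset_image_closedBall hr0 hsph hfreq
  have h2 : (2 : ℂ) ∈ Metric.ball (f c) (23 / 10 * ff / 2) := by
    rw [Metric.mem_ball, dist_comm, dist_eq_norm]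
    linarith
  obtain ⟨sg, hsg, hsg2⟩ := himg h2
  have hb1 := hball sg hsg
  refine ⟨sg, Complex.exp ((Complex.I * Real.pi + sg) / y), hb1.1, hb1.2.1, hb1.2.2, rfl, ?_⟩
  rw [← hK, ← hfa]
  exact hsg2

end MP18
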