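import Pool.Agent.Lib.MP_18566a_pr.T.H1
import Pool.Agent.Lib.MP_18566a_pr.T.B3

set_option autoImplicit false

namespace MP18

open Finset PowerSeries

/-- data of one transition: units y'' < y' < y, laws a00, a0 -/
structure TD (Λ : ℝ) (y'' y' y W W' V : ℕ) (a00 a0 : PS) (φ' : ℝ) : Prop where
  geo : Geo y' y W W' V
  inn : In y' y a0
  lb00 : LB y'' a00
  pos'' : 0 < y''
  hL : L0 ≤ Λ
  sep1 : Λ * y'' ≤ y'
  sep2 : Λ * y' ≤ y
  φ0 : 0 ≤ φ'
  φ1 : φ' ≤ phi
  win : ∀ l < y', coeff l (ker a0) = φ' * coeff l (ker a00)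

/-- the root -/
def Rt (y : ℕ) (z : ℂ) : Prop :=
  ∃ sg : ℂ, ‖sg‖ ≤ ww ∧ -(7 / 100 * ff) ≤ sg.re ∧ sg.re ≤ -(1 / 100 * ff) ∧
    z = Complex.exp ((Complex.I * Real.pi + sg) / y)

theorem H0_aux_norm {y : ℕ} {z sg : ℂ}
    (hz : z = Complex.exp ((Complex.I * Real.pi + sg) / y)) : ‖z‖ = Real.exp (sg.re / y) := by
  rw [hz, Complex.norm_exp]
  congr 1
  rw [Complex.div_natCast_re]
  simp

theorem H0_aux_ff : 0 < ff := ff_pos

theorem Rt.lt_one {y : ℕ} {z : ℂ} (hy : 0 < y) (h : Rt y z) : ‖z‖ < 1 := by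
  obtain ⟨sg, h1, h2, h3, hz⟩ := h
  rw [H0_aux_norm hz, Real.exp_lt_one_iff]
  have hy' : (0 : ℝ) < y := by exact_mod_cast hy
  apply div_neg_of_neg_of_pos _ hy'
  have := ff_pos
  linarith

theorem Rt.pow_le {y : ℕ} {z : ℂ} (hy : 0 < y) (h : Rt y z) (n : ℕ) :
    ‖z‖ ^ n ≤ Real.exp (-(ff / 100) * (n / y)) := by
  obtain ⟨sg, h1, h2, h3, hz⟩ := h
  rw [H0_aux_norm hz, ← Real.exp_nat_mul]
  apply Real.exp_le_exp.mpr
  have hy' : (0 : ℝ) < y := by exact_mod_cast hy
  have hn : (0 : ℝ) ≤ (n : ℝ) / y := by positivity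
  have : (n : ℝ) * (sg.re / y) = sg.re * (n / y) := by ring
  rw [this]
  apply mul_le_mul_of_nonneg_right _ hn
  linarith

theorem Rt.pow_ge {y n : ℕ} {z : ℂ} (hy : 0 < y) (h : Rt y z) (hn : n ≤ 20 * y) :
    99 / 100 ≤ ‖z‖ ^ n := by
  obtain ⟨sg, h1, h2, h3, hz⟩ := h
  rw [H0_aux_norm hz, ← Real.exp_nat_mul]
  have hy' : (0 : ℝ) < y := by exact_mod_cast hy
  have hn1 : (n : ℝ) / y ≤ 20 := by
    rw [div_le_iff₀ hy']
    exact_mod_cast hn
  have hn0 : (0 : ℝ) ≤ (n : ℝ) / y := by positivity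
  have h4 : (n : ℝ) * (sg.re / y) = sg.re * (n / y) := by ring
  rw [h4]
  have h5 := Real.add_one_le_exp (sg.re * ((n : ℝ) / y))
  have hff : ff = 1 / 10 ^ 140 := rfl
  have hf : ff ≤ 1 / 1000 := by
    rw [hff]
    norm_num
  have hf0 := ff_pos
  have h6 : -(7 / 100 * ff) * 20 ≤ sg.re * ((n : ℝ) / y) := by
    have h7 : -(7 / 100 * ff) * ((n : ℝ) / y) ≤ sg.re * ((n : ℝ) / y) :=
      mul_le_mul_of_nonneg_right h2 hn0
    have h8 : -(7 / 100 * ff) * 20 ≤ -(7 / 100 * ff) * ((n : ℝ) / y) := by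
      have : 0 ≤ 7 / 100 * ff := mul_nonneg (by norm_num) hf0.le
      nlinarith
    linarith
  linarith

theorem Rt.sub_le {y : ℕ} {z : ℂ} (hy : 0 < y) (h : Rt y z) : ‖1 - z‖ ≤ 4 / y := by
  obtain ⟨sg, h1, h2, h3, hz⟩ := h
  have hy' : (0 : ℝ) < y := by exact_mod_cast hy
  have hff := ff_pos
  set t : ℂ := (Complex.I * Real.pi + sg) / y with ht
  have hre : t.re = sg.re / y := by
    rw [ht, Complex.div_natCast_re]
    simp
  have him : t.im = (Real.pi + sg.im) / y := by
    rw [ht, Complex.div_natCast_im]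
    simp
  have hre0 : t.re ≤ 0 := by
    rw [hre]
    apply div_nonpos_of_nonpos_of_nonneg _ hy'.le
    linarith
  have e1 : Complex.exp t = (Real.exp t.re : ℂ) * Complex.exp (Complex.I * (t.im : ℂ)) := by
    rw [Complex.ofReal_exp, ← Complex.exp_add]
    congr 1
    rw [mul_comm Complex.I]
    exact (Complex.re_add_im t).symm
  have e2 : 1 - Complex.exp t = -((Real.exp t.re : ℂ) * (Complex.exp (Complex.I * (t.im : ℂ)) - 1)
      + ((Real.exp t.re - 1 : ℝ) : ℂ)) := by
    rw [e1]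
    push_cast
    ring
  have e3 : ‖Complex.exp (Complex.I * (t.im : ℂ)) - 1‖ ≤ |t.im| := by
    have := Real.norm_exp_I_mul_ofReal_sub_one_le (x := t.im)
    simpa using this
  have e4 : Real.exp t.re ≤ 1 := Real.exp_le_one_iff.mpr hre0
  have e5 : |Real.exp t.re - 1| ≤ -t.re := by
    rw [abs_of_nonpos (by linarith)]
    have := Real.add_one_le_exp t.re
    linarith
  have e6 : ‖1 - z‖ ≤ |t.im| + -t.re := by
    rw [hz, e2, norm_neg]
    refine (norm_add_le _ _).trans ?_
    rw [norm_mul, Complex.norm_real, Complex.norm_real, Real.norm_eq_abs, Real.norm_eq_abs,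
      abs_of_pos (Real.exp_pos _)]
    have : Real.exp t.re * ‖Complex.exp (Complex.I * (t.im : ℂ)) - 1‖ ≤ 1 * |t.im| :=
      mul_le_mul e4 e3 (norm_nonneg _) zero_le_one
    linarith
  have hww : ww = 1 / 10 ^ 73 := rfl
  have e7 : |sg.im| ≤ ww := (Complex.abs_im_le_norm sg).trans h1
  have e8 : |sg.re| ≤ ww := (Complex.abs_re_le_norm sg).trans h1
  have hw : ww ≤ 1 / 100 := by
    rw [hww]
    norm_num
  have e9 : |t.im| ≤ (Real.pi + ww) / y := by
    rw [him, abs_div, abs_of_pos hy']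
    apply div_le_div_of_nonneg_right _ hy'.le
    refine (abs_add_le _ _).trans ?_
    rw [abs_of_pos Real.pi_pos]
    linarith
  have e10 : -t.re ≤ ww / y := by
    rw [hre, ← neg_div]
    apply div_le_div_of_nonneg_right _ hy'.le
    exact (neg_le_abs _).trans e8
  have hpi := Real.pi_lt_d2
  calc ‖1 - z‖ ≤ |t.im| + -t.re := e6
    _ ≤ (Real.pi + ww) / y + ww / y := add_le_add e9 e10
    _ = (Real.pi + ww + ww) / y := by ring
    _ ≤ 4 / y := by
      apply div_le_div_of_nonneg_right _ hy'.le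
      linarith

theorem Rt.gap {y : ℕ} {z : ℂ} (hy : 0 < y) (h : Rt y z) : ff / (200 * y) ≤ 1 - ‖z‖ := by
  obtain ⟨sg, h1, h2, h3, hz⟩ := h
  rw [H0_aux_norm hz]
  have hy' : (0 : ℝ) < y := by exact_mod_cast hy
  have hy1 : (1 : ℝ) ≤ y := by exact_mod_cast hy
  have hff := ff_pos
  have hffd : ff = 1 / 10 ^ 140 := rfl
  have hf1 : ff ≤ 1 := by
    rw [hffd]
    norm_num
  set s : ℝ := -sg.re / y with hs
  have hs1 : ff / 100 / y ≤ s := by
    rw [hs]
    apply div_le_div_of_nonneg_right _ hy'.le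
    linarith
  have hs0 : 0 < s := lt_of_lt_of_le (div_pos (div_pos hff (by norm_num)) hy') hs1
  have hs2 : s ≤ 1 := by
    rw [hs, div_le_one hy']
    linarith
  have e0 : sg.re / y = -s := by
    rw [hs]
    ring
  rw [e0, Real.exp_neg]
  have e1 := Real.add_one_le_exp s
  have e2 : (Real.exp s)⁻¹ ≤ (s + 1)⁻¹ := inv_anti₀ (by linarith) e1
  have e3 : (s + 1)⁻¹ ≤ 1 - s / 2 := by
    rw [inv_le_iff_one_le_mul₀ (by linarith)]
    nlinarith
  have e4 : ff / (200 * y) = ff / 100 / y / 2 := by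
    field_simp
    norm_num
  rw [e4]
  linarith

/-- adjoint solution -/
structure Adj (a0 : PS) (y W W' V : ℕ) (z : ℂ) (ψ : ℕ → ℂ) : Prop where
  hz : ev (ker (aF a0 y W W' V)) z = 2
  rt : Rt y z
  tail : ∀ n, N0 y ≤ n → ψ n = z ^ n
  eqn : ∀ n, y ≤ n → 2 * ((Cum (aF a0 y W W' V) n : ℝ) : ℂ) * ψ n
    = ∑' l, ((coeff l (ker (aF a0 y W W' V)) : ℝ) : ℂ) * ψ (n + l)

/-- summability of a kernel against a bounded sequence -/
theorem H0_aux_summable {k : PS} {C B : ℝ} {u : ℕ → ℂ} (hk : Bd 1 k C) (hu : ∀ n, ‖u n‖ ≤ B) :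
    Summable (fun l => ((coeff l k : ℝ) : ℂ) * u l) := by
  have h1 : Summable (fun l => |coeff l k|) := by
    apply summable_of_sum_range_le (c := C) (fun n => abs_nonneg _)
    intro n
    have := hk n
    simpa using this
  apply Summable.of_norm_bounded (g := fun l => |coeff l k| * B) (h1.mul_right B)
  intro l
  rw [norm_mul, Complex.norm_real, Real.norm_eq_abs]
  exact mul_le_mul_of_nonneg_left (hu l) (abs_nonneg _)

theorem H0_aux_k0 {y' y W W' V : ℕ} {a0 : PS} (g : Geo y' y W W' V) (h : In y' y a0) :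
    coeff 0 (ker (aF a0 y W W' V)) ≤ phi := by
  have h0 := (D5b g h).2.2
  rw [coeff_zero_ker h0]
  have h1 : coeff 0 (aF a0 y W W' V) = phi * coeff 0 a0 := by
    unfold aF
    rw [map_add, QQ_low g 0 g.y_pos, add_zero, PowerSeries.coeff_smul, smul_eq_mul]
  rw [h1]
  have h2 : coeff 0 a0 ≤ 1 := by
    have hb := Bd_of_Cpl h.lb.nn h.cpl 1
    rw [Finset.sum_range_one, pow_zero, mul_one] at hb
    exact (le_abs_self _).trans hb
  have h3 := phi_bd.1
  nlinarith

theorem Adj_exists {y' y W W' V : ℕ} {a0 : PS} (g : Geo y' y W W' V) (h : In y' y a0) {z : ℂ}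
    (hz : ev (ker (aF a0 y W W' V)) z = 2) (rt : Rt y z) : ∃ ψ, Adj a0 y W W' V z ψ := by
  set k := ker (aF a0 y W W' V) with hk
  set Φ : ℕ → ℝ := Cum (aF a0 y W W' V) with hΦ
  have hkB : Bd 1 k 37.85 := D14 g h Adm_one
  have hz1 : ‖z‖ ≤ 1 := (rt.lt_one g.y_pos).le
  have key : ∀ m : ℕ, ∃ ψ : ℕ → ℂ, (∃ B : ℝ, ∀ n, ‖ψ n‖ ≤ B) ∧ (∀ n, N0 y ≤ n → ψ n = z ^ n) ∧
      (∀ n, y ≤ n → N0 y ≤ n + m → 2 * ((Φ n : ℝ) : ℂ) * ψ n
        = ∑' l, ((coeff l k : ℝ) : ℂ) * ψ (n + l)) := by
    intro m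
    induction m with
    | zero =>
      refine ⟨fun n => z ^ n, ⟨1, fun n => ?_⟩, fun n _ => rfl, fun n hn hn2 => ?_⟩
      · rw [norm_pow]
        exact pow_le_one₀ (norm_nonneg _) hz1
      · have h1 : Φ n = 1 := Cum_aF_one g h (by omega)
        rw [h1]
        have h2 : ∀ l, ((coeff l k : ℝ) : ℂ) * z ^ (n + l) = z ^ n * (((coeff l k : ℝ) : ℂ) * z ^ l) := by
          intro l
          rw [pow_add]
          ring
        simp only [h2]
        rw [tsum_mul_left]
        have h3 : ∑' l, ((coeff l k : ℝ) : ℂ) * z ^ l = 2 := hz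
        rw [h3]
        push_cast
        ring
    | succ m ih =>
      obtain ⟨ψ, ⟨B, hB⟩, htail, heq⟩ := ih
      by_cases hc : m + 1 ≤ N0 y ∧ y ≤ N0 y - (m + 1)
      · obtain ⟨hc1, hc2⟩ := hc
        set n0 := N0 y - (m + 1) with hn0
        set φ0 : ℕ → ℂ := Function.update ψ n0 0 with hφ0
        set S : ℂ := ∑' l, ((coeff l k : ℝ) : ℂ) * φ0 (n0 + l) with hS
        set dd : ℂ := 2 * ((Φ n0 : ℝ) : ℂ) - ((coeff 0 k : ℝ) : ℂ) with hdd
        have hdd0 : dd ≠ 0 := by
          have h1 := (Cum_aF_ge g h (n := n0) (by omega)).1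
          have h2 := H0_aux_k0 g h
          have h3 := phi_bd.1
          have h4 : (0 : ℝ) < 2 * Φ n0 - coeff 0 k := by
            have : phi ≤ Φ n0 := h1
            have : coeff 0 k ≤ phi := h2
            linarith
          have h5 : dd = ((2 * Φ n0 - coeff 0 k : ℝ) : ℂ) := by
            rw [hdd]
            push_cast
            ring
          rw [h5]
          exact_mod_cast h4.ne'
        set v : ℂ := S / dd with hv
        set ψ' : ℕ → ℂ := Function.update ψ n0 v with hψ'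
        have hne : ∀ n, n ≠ n0 → ψ' n = ψ n := fun n hn => Function.update_of_ne hn _ _
        have hne0 : ∀ n, n ≠ n0 → φ0 n = ψ n := fun n hn => Function.update_of_ne hn _ _
        have hself : ψ' n0 = v := Function.update_self _ _ _
        have hself0 : φ0 n0 = 0 := Function.update_self _ _ _
        have hB0 : 0 ≤ B := (norm_nonneg _).trans (hB 0)
        have hφB : ∀ n, ‖φ0 n‖ ≤ B := by
          intro n
          by_cases hn : n = n0
          · rw [hn, hself0, norm_zero]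
            exact hB0
          · rw [hne0 n hn]
            exact hB n
        refine ⟨ψ', ⟨max B ‖v‖, fun n => ?_⟩, fun n hn => ?_, fun n hn hn2 => ?_⟩
        · by_cases hn : n = n0
          · rw [hn, hself]
            exact le_max_right _ _
          · rw [hne n hn]
            exact (hB n).trans (le_max_left _ _)
        · rw [hne n (by omega)]
          exact htail n hn
        · by_cases hnn : n = n0
          · subst hnn
            have e1 : ∀ l, ((coeff l k : ℝ) : ℂ) * ψ' (n0 + l)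
                = (if l = 0 then ((coeff 0 k : ℝ) : ℂ) * v else 0)
                  + ((coeff l k : ℝ) : ℂ) * φ0 (n0 + l) := by
              intro l
              by_cases hl : l = 0
              · subst hl
                simp [hself, hself0]
              · rw [if_neg hl, zero_add, hne _ (by omega), hne0 _ (by omega)]
            simp only [e1]
            have s1 : Summable (fun l : ℕ => (if l = 0 then ((coeff 0 k : ℝ) : ℂ) * v else 0)) := by
              apply summable_of_ne_finset_zero (s := {0})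
              intro b hb
              simp at hb
              simp [hb]
            have s2 : Summable (fun l => ((coeff l k : ℝ) : ℂ) * φ0 (n0 + l)) :=
              H0_aux_summable hkB (fun l => hφB (n0 + l))
            rw [s1.tsum_add s2, tsum_ite_eq, hself, ← hS]
            have e2 : v * dd = S := by
              rw [hv]
              exact div_mul_cancel₀ _ hdd0
            rw [← e2, hdd]
            ring
          · have hgt : n0 < n := by omega
            rw [hne n hnn, heq n hn (by omega)]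
            apply tsum_congr
            intro l
            rw [hne _ (by omega)]
      · refine ⟨ψ, ⟨B, hB⟩, htail, fun n hn hn2 => ?_⟩
        apply heq n hn
        by_contra hcon
        apply hc
        omega
  obtain ⟨ψ, _, h2, h3⟩ := key (N0 y)
  exact ⟨ψ, ⟨hz, rt, h2, fun n hn => h3 n hn (by omega)⟩⟩

end MP18
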