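import Pool.Agent.Lib.MP_18566a_pr.T.E9

set_option autoImplicit false

namespace MP18

open Finset PowerSeries

/-- end of the transition region -/
def N0 (y : ℕ) : ℕ := 9 * y + y / 2

theorem H1_aux1 (A B : PS) (n : ℕ) : Cum (A + B) n = Cum A n + Cum B n := by
  unfold Cum
  rw [← sum_add_distrib]
  apply sum_congr rfl
  intro j _
  rw [map_add]

theorem H1_aux2 (c : ℝ) (A : PS) (n : ℕ) : Cum (c • A) n = c * Cum A n := by
  unfold Cum
  rw [mul_sum]
  apply sum_congr rfl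
  intro j _
  rw [map_smul, smul_eq_mul]

/-- cumulative sums of a nonnegative law lie between `0` and its mass -/
theorem H1_aux3 {A : PS} {y : ℕ} (hA : ∀ n, 0 ≤ coeff n A) (h : Cpl A y 1) (n : ℕ) :
    0 ≤ Cum A n ∧ Cum A n ≤ 1 := by
  constructor
  · unfold Cum
    exact sum_nonneg fun j _ => hA j
  · exact le_trans (le_abs_self _) (Cum_le (Bd_of_Cpl hA h) n)

theorem H1_aux4 {A : PS} {m n : ℕ} (h : ∀ k < m, coeff k A = 0) (hn : n < m) : Cum A n = 0 := by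
  unfold Cum
  apply sum_eq_zero
  intro j hj
  have hj' := mem_range.1 hj
  exact h j (by omega)

theorem H1_aux5 {y' y W W' V : ℕ} (g : Geo y' y W W' V) : 10 ^ 6 * mid W W' ≤ y := by
  have h := g.mid_le.2
  exact_mod_cast h

theorem H1_aux6 {y' y W W' V : ℕ} (g : Geo y' y W W' V) : 10 ^ 6 ≤ y := by
  have h := g.y'_le
  have h1 := g.pos
  omega

/-- decomposition of the cumulative sums -/
theorem H1_aux7 (a0 : PS) (y W W' V n : ℕ) : Cum (aF a0 y W W' V) n =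
    phi * Cum a0 n + (ff * Cum (TT y V) n + (q1 * Cum (bet y W W') n
      + q2 * Cum (bet y W W' ^ 2) n + q3 * Cum (bet y W W' ^ 3) n)) := by
  unfold aF QQ Qs
  rw [H1_aux1, H1_aux1, H1_aux1, H1_aux1, H1_aux2, H1_aux2, H1_aux2, H1_aux2, H1_aux2]

theorem H1_aux8 {y' y W W' V : ℕ} (g : Geo y' y W W' V) (j : ℕ) (n : ℕ) :
    0 ≤ Cum (bet y W W' ^ j) n ∧ Cum (bet y W W' ^ j) n ≤ 1 :=
  H1_aux3 (bet_pow_nn y W W' j) (Cpl_bet_pow g j) n

theorem H1_aux9 {y' y W W' V : ℕ} (g : Geo y' y W W' V) (j : ℕ) {n : ℕ}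
    (hn : j * (3 * y + mid W W') ≤ n) : Cum (bet y W W' ^ j) n = 1 :=
  Cum_of_Cpl (Cpl_bet_pow g j) (by omega)

theorem H1_aux10 {y' y W W' V : ℕ} (g : Geo y' y W W' V) (j : ℕ) {n : ℕ}
    (hn : n < j * (3 * y - mid W W')) : Cum (bet y W W' ^ j) n = 0 :=
  H1_aux4 (bet_low g j) hn

theorem H1_aux11 {y' y W W' V : ℕ} (g : Geo y' y W W' V) (n : ℕ) :
    0 ≤ Cum (TT y V) n ∧ Cum (TT y V) n ≤ 1 :=
  H1_aux3 (TT_nn y V) (Cpl_TT g.Vpos) n

theorem H1_aux12 {y' y W W' V : ℕ} (g : Geo y' y W W' V) {n : ℕ} (hn : y + V ≤ n + 1) :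
    Cum (TT y V) n = 1 :=
  Cum_of_Cpl (Cpl_TT g.Vpos) hn

theorem H1_aux13 : 0 ≤ q1 ∧ 0 ≤ q2 ∧ 0 ≤ q3 ∧ 0 ≤ phi := by
  have h1 := q1_bd.1
  have h2 := q2_bd.1
  have h3 := q3_bd.1
  have h4 := phi_bd.1
  refine ⟨by linarith, by linarith, by linarith, by linarith⟩

/-- mass facts of aF -/
theorem Cum_aF_ge {y' y W W' V n : ℕ} {a0 : PS} (g : Geo y' y W W' V) (h : In y' y a0)
    (hn : y ≤ n + 1) : phi ≤ Cum (aF a0 y W W' V) n ∧ Cum (aF a0 y W W' V) n ≤ 1 := by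
  obtain ⟨hq1, hq2, hq3, hp⟩ := H1_aux13
  have hf := ff_pos
  have hm := mass_sum
  have hT := H1_aux11 (V := V) g n
  have h1 := H1_aux8 g 1 n
  rw [pow_one] at h1
  have h2 := H1_aux8 g 2 n
  have h3 := H1_aux8 g 3 n
  rw [H1_aux7, Cum_of_Cpl h.cpl hn, mul_one]
  have e1 := mul_nonneg hf.le hT.1
  have e2 := mul_nonneg hq1 h1.1
  have e3 := mul_nonneg hq2 h2.1
  have e4 := mul_nonneg hq3 h3.1
  have f1 := mul_le_mul_of_nonneg_left hT.2 hf.le
  have f2 := mul_le_mul_of_nonneg_left h1.2 hq1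
  have f3 := mul_le_mul_of_nonneg_left h2.2 hq2
  have f4 := mul_le_mul_of_nonneg_left h3.2 hq3
  constructor
  · linarith
  · linarith

theorem Cum_aF_ge' {y' y W W' V n : ℕ} {a0 : PS} (g : Geo y' y W W' V) (h : In y' y a0)
    (hn : y + V ≤ n + 1) : phi + ff ≤ Cum (aF a0 y W W' V) n := by
  obtain ⟨hq1, hq2, hq3, hp⟩ := H1_aux13
  have h1 := H1_aux8 g 1 n
  rw [pow_one] at h1
  have h2 := H1_aux8 g 2 n
  have h3 := H1_aux8 g 3 n
  rw [H1_aux7, Cum_of_Cpl h.cpl (by omega), mul_one, H1_aux12 g hn, mul_one]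
  have e2 := mul_nonneg hq1 h1.1
  have e3 := mul_nonneg hq2 h2.1
  have e4 := mul_nonneg hq3 h3.1
  linarith

theorem Cum_aF_one {y' y W W' V n : ℕ} {a0 : PS} (g : Geo y' y W W' V) (h : In y' y a0)
    (hn : N0 y ≤ n + 1) : Cum (aF a0 y W W' V) n = 1 := by
  have hy := H1_aux6 g
  have hm := H1_aux5 g
  have hV := g.V_small
  unfold N0 at hn
  have e1 : 3 * y + mid W W' ≤ n := by omega
  have h1 := H1_aux9 g 1 (n := n) (by omega)
  rw [pow_one] at h1
  rw [H1_aux7, Cum_of_Cpl h.cpl (by omega), H1_aux12 g (by omega), h1,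
    H1_aux9 g 2 (by omega), H1_aux9 g 3 (by omega)]
  have := mass_sum
  linarith

/-- plateaus and the trigger -/
theorem Cum_aF_trig {y' y W W' V n : ℕ} {a0 : PS} (g : Geo y' y W W' V) (h : In y' y a0)
    (h1 : y ≤ n) (h2 : n < y + V) :
    Cum (aF a0 y W W' V) n = phi + ff * ((n : ℝ) - y + 1) / V := by
  have hy := H1_aux6 g
  have hm := H1_aux5 g
  have hV := g.V_small
  have hT : Cum (TT y V) n = ((n : ℝ) - y + 1) / V := by
    have e : n + 1 = y + (n + 1 - y) := by omega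
    unfold Cum TT
    rw [e, sum_range_add]
    have e1 : ∑ x ∈ range y, coeff x (X ^ y * U V) = 0 := by
      apply sum_eq_zero
      intro j hj
      have hj' := mem_range.1 hj
      rw [coeff_X_pow_mul', if_neg (by omega)]
    have e2 : ∀ x ∈ range (n + 1 - y), coeff (y + x) (X ^ y * U V) = 1 / (V : ℝ) := by
      intro j hj
      have hj' := mem_range.1 hj
      rw [coeff_X_pow_mul', if_pos (by omega), coeff_U, if_pos (by omega)]
    rw [e1, sum_congr rfl e2, sum_const, card_range, nsmul_eq_mul, zero_add,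
      Nat.cast_sub (by omega)]
    push_cast
    ring
  have hb := H1_aux10 g 1 (n := n) (by omega)
  rw [pow_one] at hb
  rw [H1_aux7, Cum_of_Cpl h.cpl (by omega), hT, hb, H1_aux10 g 2 (by omega),
    H1_aux10 g 3 (by omega)]
  ring

theorem Cum_aF_p0 {y' y W W' V n : ℕ} {a0 : PS} (g : Geo y' y W W' V) (h : In y' y a0)
    (h1 : y + V ≤ n + 1) (h2 : n < 3 * y - mid W W') : Cum (aF a0 y W W' V) n = phi + ff := by
  have hm := H1_aux5 g
  have hb := H1_aux10 g 1 (n := n) (by omega)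
  rw [pow_one] at hb
  rw [H1_aux7, Cum_of_Cpl h.cpl (by omega), H1_aux12 g h1, hb, H1_aux10 g 2 (by omega),
    H1_aux10 g 3 (by omega)]
  ring

theorem Cum_aF_p1 {y' y W W' V n : ℕ} {a0 : PS} (g : Geo y' y W W' V) (h : In y' y a0)
    (h1 : 3 * y + mid W W' ≤ n) (h2 : n < 6 * y - 2 * mid W W') :
    Cum (aF a0 y W W' V) n = phi + ff + q1 := by
  have hm := H1_aux5 g
  have hV := g.V_small
  have hb := H1_aux9 g 1 (n := n) (by omega)
  rw [pow_one] at hb
  rw [H1_aux7, Cum_of_Cpl h.cpl (by omega), H1_aux12 g (by omega), hb, H1_aux10 g 2 (by omega),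
    H1_aux10 g 3 (by omega)]
  ring

theorem Cum_aF_p2 {y' y W W' V n : ℕ} {a0 : PS} (g : Geo y' y W W' V) (h : In y' y a0)
    (h1 : 6 * y + 2 * mid W W' ≤ n) (h2 : n < 9 * y - 3 * mid W W') :
    Cum (aF a0 y W W' V) n = 1 - q3 := by
  have hm := H1_aux5 g
  have hV := g.V_small
  have hb := H1_aux9 g 1 (n := n) (by omega)
  rw [pow_one] at hb
  rw [H1_aux7, Cum_of_Cpl h.cpl (by omega), H1_aux12 g (by omega), hb, H1_aux9 g 2 (by omega),
    H1_aux10 g 3 (by omega)]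
  have := mass_sum
  linarith

theorem H1_aux14 (a0 : PS) (y W W' V n : ℕ) : coeff n (aF a0 y W W' V) =
    phi * coeff n a0 + (ff * coeff n (TT y V) + coeff n (Qs y W W')) := by
  unfold aF QQ
  rw [map_add, map_add, map_smul, map_smul, smul_eq_mul, smul_eq_mul]

theorem H1_aux15 {y' y W W' V n : ℕ} {a0 : PS} (g : Geo y' y W W' V) (h : In y' y a0)
    (hn : y + V ≤ n) : coeff n (aF a0 y W W' V) = coeff n (Qs y W W') := by
  rw [H1_aux14, h.cpl.1 n (by omega), (Cpl_TT (y := y) g.Vpos).1 n hn]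
  ring

theorem H1_aux16 (A : PS) (n : ℕ) : coeff (n + 1) (nab * A) = coeff (n + 1) A - coeff n A := by
  unfold nab
  rw [sub_mul, one_mul, map_sub, coeff_succ_X_mul]

/-- coefficients of aF -/
theorem aF_coeff_bd {y' y W W' V n : ℕ} {a0 : PS} (g : Geo y' y W W' V) (h : In y' y a0)
    (hn : y + V ≤ n) : |coeff n (aF a0 y W W' V)| ≤ 2 / W ∧
      |coeff (n + 1) (aF a0 y W W' V) - coeff n (aF a0 y W W' V)| ≤ 4 / (W * W') := by
  rw [H1_aux15 g h hn, H1_aux15 g h (by omega)]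
  constructor
  · refine le_trans (Bd_nab_coeff (Bd_nab_Qs g) n) ?_
    apply div_le_div_of_nonneg_right _ (Nat.cast_nonneg W)
    norm_num
  · rw [← H1_aux16]
    have e : nab ^ 2 * Qs y W W' = nab * (nab * Qs y W W') := by ring
    have h2 := Bd_nab2_Qs g
    rw [e] at h2
    refine le_trans (Bd_nab_coeff h2 (n + 1)) ?_
    apply div_le_div_of_nonneg_right _ (by positivity)
    norm_num

theorem aF_coeff_bd' {y' y W W' V n : ℕ} {a0 : PS} (g : Geo y' y W W' V) (h : In y' y a0)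
    (hn : y ≤ n) : |coeff n (aF a0 y W W' V)| ≤ 1 / y' := by
  have hy' : (0 : ℝ) < y' := Nat.cast_pos.2 g.pos
  have hW : (0 : ℝ) < W := Nat.cast_pos.2 g.W_pos
  have hV : (0 : ℝ) < V := Nat.cast_pos.2 g.Vpos
  have hf := ff_pos
  rw [H1_aux14, h.cpl.1 n hn, mul_zero, zero_add]
  have h1 : |coeff n (Qs y W W')| ≤ 1.584 / W := Bd_nab_coeff (Bd_nab_Qs g) n
  have h2 : |coeff n (TT y V)| ≤ 1 / V := by
    unfold TT
    rw [coeff_X_pow_mul', if_pos hn, coeff_U]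
    split_ifs
    · rw [abs_of_nonneg (by positivity)]
    · rw [abs_zero]
      positivity
  have h3 : 1.584 / (W : ℝ) ≤ 1 / 2 * (1 / y') := by
    have h4 := small1 g
    have h5 : (y' : ℝ) / W ≤ 1 / 4 := by
      refine le_trans h4 ?_
      norm_num
    have e1 : 1.584 / (W : ℝ) = 1.584 * ((y' : ℝ) / W) * (1 / y') := by
      field_simp
    rw [e1]
    apply mul_le_mul_of_nonneg_right _ (by positivity)
    linarith
  have h6 : ff * (1 / V) ≤ 1 / 2 * (1 / y') := by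
    have h7 := g.Vlo
    unfold vv at h7
    have h8 : 1 / (V : ℝ) ≤ 10 ^ 83 * (1 / y') := by
      rw [div_le_iff₀ hV]
      have e1 : (10 : ℝ) ^ 83 * (1 / y') * (1 / 10 ^ 83 * y') = 1 := by
        field_simp
      have e2 : (10 : ℝ) ^ 83 * (1 / y') * (1 / 10 ^ 83 * y') ≤ 10 ^ 83 * (1 / y') * V :=
        mul_le_mul_of_nonneg_left h7 (by positivity)
      linarith
    have h9 : ff * 10 ^ 83 ≤ 1 / 2 := by
      unfold ff
      norm_num
    calc ff * (1 / V) ≤ ff * (10 ^ 83 * (1 / y')) := mul_le_mul_of_nonneg_left h8 hf.le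
      _ = ff * 10 ^ 83 * (1 / y') := by ring
      _ ≤ 1 / 2 * (1 / y') := mul_le_mul_of_nonneg_right h9 (by positivity)
  have h10 : |ff * coeff n (TT y V)| ≤ ff * (1 / V) := by
    rw [abs_mul, abs_of_pos hf]
    exact mul_le_mul_of_nonneg_left h2 hf.le
  calc |ff * coeff n (TT y V) + coeff n (Qs y W W')|
      ≤ |ff * coeff n (TT y V)| + |coeff n (Qs y W W')| := abs_add_le _ _
    _ ≤ 1 / y' := by linarith

end MP18
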