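import Pool.Agent.Lib.MP_18566a_pr.T.H0

set_option autoImplicit false

namespace MP18

open Finset PowerSeries

theorem H2_phi_pos : 0 < phi := by
  have := phi_bd.1
  linarith [show (0 : ℝ) < 0.20829890 by norm_num]

theorem H2_A0_ge : 1 ≤ A0 := by
  unfold A0
  have h1 : (1 : ℝ) ≤ 10 ^ 155 := one_le_pow₀ (by norm_num)
  nlinarith

/-- coefficients of the kernel below `y` -/
theorem H2_low {y' y W W' V : ℕ} {a0 : PS} (g : Geo y' y W W' V) (h : In y' y a0) :
    ∀ l < y, coeff l (ker (aF a0 y W W' V)) = phi * coeff l (ker a0) := by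
  have hphi : phi ≠ 0 := H2_phi_pos.ne'
  have h0 : coeff 0 (phi • a0) ≠ 0 := by
    have := h.lb.pos
    rw [PowerSeries.coeff_smul, smul_eq_mul]
    exact mul_ne_zero hphi this.ne'
  have hc : ∀ l < y, coeff l (phi • a0) = coeff l (aF a0 y W W' V) := by
    intro l hl
    unfold aF
    rw [map_add, QQ_low g l hl, add_zero]
  intro l hl
  rw [← ker_congr h0 hc l hl, ker_smul hphi, PowerSeries.coeff_smul, smul_eq_mul]

theorem H2_sum {k : PS} {C : ℝ} (hk : Bd 1 k C) (m : ℕ) :
    Summable (fun l => |coeff (l + m) k|) ∧ ∑' l, |coeff (l + m) k| ≤ C := by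
  have hb : ∀ N : ℕ, ∑ n ∈ range N, |coeff n k| ≤ C := by
    intro N
    have := hk N
    simpa using this
  have hs : Summable (fun l => |coeff l k|) :=
    summable_of_sum_range_le (fun _ => abs_nonneg _) hb
  have hs' : Summable (fun l => |coeff (l + m) k|) := (summable_nat_add_iff m).2 hs
  refine ⟨hs', ?_⟩
  have h1 := hs.sum_add_tsum_nat_add m
  have h2 : ∑' l, |coeff l k| ≤ C := Real.tsum_le_of_sum_range_le (fun _ => abs_nonneg _) hb
  have h3 : 0 ≤ ∑ i ∈ range m, |coeff i k| := Finset.sum_nonneg fun _ _ => abs_nonneg _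
  linarith

/-- splitting of the convolution at `m` with a bound of the tail -/
theorem H2_tail {k : PS} {C M : ℝ} (hk : Bd 1 k C) {f : ℕ → ℂ} {m : ℕ}
    (hM : ∀ l, m ≤ l → ‖f l‖ ≤ M) (hM0 : 0 ≤ M) :
    ‖∑' l, ((coeff l k : ℝ) : ℂ) * f l - ∑ l ∈ range m, ((coeff l k : ℝ) : ℂ) * f l‖ ≤ C * M := by
  obtain ⟨hs, hle⟩ := H2_sum hk m
  have hs2 : HasSum (fun l => |coeff (l + m) k| * M) ((∑' l, |coeff (l + m) k|) * M) :=
    hs.hasSum.mul_right M
  have hb : ∀ l, ‖((coeff (l + m) k : ℝ) : ℂ) * f (l + m)‖ ≤ |coeff (l + m) k| * M := by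
    intro l
    rw [norm_mul, Complex.norm_real, Real.norm_eq_abs]
    exact mul_le_mul_of_nonneg_left (hM _ (by omega)) (abs_nonneg _)
  have hsum : Summable (fun l => ((coeff (l + m) k : ℝ) : ℂ) * f (l + m)) :=
    Summable.of_norm_bounded hs2.summable hb
  have hsum' : Summable (fun l => ((coeff l k : ℝ) : ℂ) * f l) :=
    (summable_nat_add_iff (f := fun l => ((coeff l k : ℝ) : ℂ) * f l) m).1 hsum
  have h1 := hsum'.sum_add_tsum_nat_add m
  rw [← h1, add_sub_cancel_left]
  calc ‖∑' l, ((coeff (l + m) k : ℝ) : ℂ) * f (l + m)‖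
      ≤ (∑' l, |coeff (l + m) k|) * M := tsum_of_norm_bounded hs2 hb
    _ ≤ C * M := mul_le_mul_of_nonneg_right hle hM0

theorem H2_step {y' y W W' V : ℕ} {a0 : PS} (geo : Geo y' y W W' V) (h : In y' y a0)
    {u g : ℕ → ℂ} {G M : ℝ} {n1 n2 : ℕ} (h1 : y + V ≤ n1) (h2 : n2 ≤ N0 y) (h12 : n2 ≤ n1 + y)
    (hM : ∀ n, n2 ≤ n → ‖u n‖ ≤ M)
    (he : ∀ n, y + V ≤ n → n < N0 y → 2 * ((Cum (aF a0 y W W' V) n : ℝ) : ℂ) * u n
      - ∑' l, ((coeff l (ker (aF a0 y W W' V)) : ℝ) : ℂ) * u (n + l) = g n)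
    (hg : ∀ n, y + V ≤ n → n < N0 y → ‖g n‖ ≤ G) (hG : 0 ≤ G) (hM0 : 0 ≤ M) :
    ∀ n, n1 ≤ n → n < n2 → ‖u n‖ ≤ 400 * A0 * (G + M) := by
  have hphi := H2_phi_pos
  have hphi2 := phi_bd.1
  have hA := H2_A0_ge
  have hk : Bd 1 (ker (aF a0 y W W' V)) 37.85 := D14 geo h Adm_one
  have hSP : SP (ker a0) c0 A0 := by
    have := h.lb.s0 1 le_rfl (by
      have : 0 ≤ nu / (y' : ℝ) := by
        unfold nu
        have := ff_pos
        positivity
      linarith)
    rwa [PowerSeries.rescale_one, RingHom.id_apply] at this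
  have hphiC : (phi : ℂ) ≠ 0 := by exact_mod_cast hphi.ne'
  intro n hn1 hn2
  have key := SP_backward (κ := ker a0) (c := c0) (A := A0) hSP (by linarith) (n1 := n1) (n2 := n2)
    (cf := fun n => Cum (aF a0 y W W' V) n / phi) (u := u)
    (g := fun n => (g n + (∑' l, ((coeff l (ker (aF a0 y W W' V)) : ℝ) : ℂ) * u (n + l)
      - ∑ l ∈ range (n2 - n), ((coeff l (ker (aF a0 y W W' V)) : ℝ) : ℂ) * u (n + l))) / phi)
    (G := (G + 37.85 * M) / phi) ?_ ?_ ?_ n hn1 hn2
  · refine key.trans ?_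
    have e1 : (G + 37.85 * M) / phi ≤ 200 * (G + M) := by
      rw [div_le_iff₀ hphi]
      nlinarith
    calc 2 * A0 * ((G + 37.85 * M) / phi) ≤ 2 * A0 * (200 * (G + M)) :=
          mul_le_mul_of_nonneg_left e1 (by linarith)
      _ = 400 * A0 * (G + M) := by ring
  · intro m hm1 hm2
    have h3 := Cum_aF_ge' geo h (n := m) (by omega)
    rw [le_div_iff₀ hphi]
    unfold c0 bb
    have hff := ff_pos
    have : (1 + 9 / 10 * (ff / phi)) * phi = phi + 9 / 10 * ff := by
      field_simp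
    rw [this]
    linarith
  · intro m hm1 hm2
    have e := he m (by omega) (by omega)
    have e2 : ∑ l ∈ range (n2 - m), ((coeff l (ker (aF a0 y W W' V)) : ℝ) : ℂ) * u (m + l)
        = (phi : ℂ) * ∑ l ∈ range (n2 - m), ((coeff l (ker a0) : ℝ) : ℂ) * u (m + l) := by
      rw [Finset.mul_sum]
      apply Finset.sum_congr rfl
      intro l hl
      rw [Finset.mem_range] at hl
      rw [H2_low geo h l (by omega)]
      push_cast
      ring
    show 2 * ((Cum (aF a0 y W W' V) m / phi : ℝ) : ℂ) * u m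
      - ∑ l ∈ range (n2 - m), ((coeff l (ker a0) : ℝ) : ℂ) * u (m + l) = _
    rw [e2, ← e]
    push_cast
    field_simp
    ring
  · intro m hm1 hm2
    have hgm := hg m (by omega) (by omega)
    have ht := H2_tail (k := ker (aF a0 y W W' V)) (C := 37.85) (M := M) hk
      (f := fun l => u (m + l)) (m := n2 - m) (fun l hl => hM _ (by omega)) hM0
    show ‖(g m + (∑' l, ((coeff l (ker (aF a0 y W W' V)) : ℝ) : ℂ) * u (m + l)
      - ∑ l ∈ range (n2 - m), ((coeff l (ker (aF a0 y W W' V)) : ℝ) : ℂ) * u (m + l))) / phi‖ ≤ _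
    rw [norm_div, Complex.norm_real, Real.norm_eq_abs, abs_of_pos hphi]
    apply div_le_div_of_nonneg_right _ hphi.le
    exact (norm_add_le _ _).trans (add_le_add hgm ht)

theorem backward : ∃ K : ℝ, 1 ≤ K ∧ ∀ (y' y W W' V : ℕ) (a0 : PS),
    Geo y' y W W' V → In y' y a0 → ∀ (u g : ℕ → ℂ) (G B : ℝ),
    (∀ n, N0 y ≤ n → ‖u n‖ ≤ B) →
    (∀ n, y + V ≤ n → n < N0 y → 2 * ((Cum (aF a0 y W W' V) n : ℝ) : ℂ) * u n
      - ∑' l, ((coeff l (ker (aF a0 y W W' V)) : ℝ) : ℂ) * u (n + l) = g n) →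
    (∀ n, y + V ≤ n → n < N0 y → ‖g n‖ ≤ G) → 0 ≤ G →
    ∀ n, y + V ≤ n → ‖u n‖ ≤ K * (B + G) := by
  have hA := H2_A0_ge
  refine ⟨(800 * A0) ^ 9, one_le_pow₀ (by linarith), ?_⟩
  intro y' y W W' V a0 geo h u g G B hB he hg hG
  have hB0 : 0 ≤ B := (norm_nonneg _).trans (hB (N0 y) le_rfl)
  have key : ∀ j : ℕ, ∀ n, y + V ≤ n → N0 y ≤ n + j * y → ‖u n‖ ≤ (800 * A0) ^ j * (B + G) := by
    intro j
    induction j with
    | zero =>
      intro n _ hn2
      rw [pow_zero, one_mul]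
      exact (hB n (by omega)).trans (by linarith)
    | succ j ih =>
      intro n hn1 hn2
      have hK1 : 1 ≤ (800 * A0) ^ j := one_le_pow₀ (by linarith)
      have hKM : 0 ≤ (800 * A0) ^ j * (B + G) := by positivity
      have hup : (800 * A0) ^ j * (B + G) ≤ (800 * A0) ^ (j + 1) * (B + G) := by
        apply mul_le_mul_of_nonneg_right _ (by linarith)
        rw [pow_succ]
        exact le_mul_of_one_le_right (by positivity) (by linarith)
      by_cases hj : N0 y ≤ n + j * y
      · exact (ih n hn1 hj).trans hup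
      · push Not at hj

        have hst := H2_step geo h (u := u) (g := g) (G := G) (M := (800 * A0) ^ j * (B + G))
          (n1 := n) (n2 := max (y + V) (N0 y - j * y)) hn1 ?_ ?_ ?_ he hg hG hKM n le_rfl ?_
        · refine hst.trans ?_
          rw [pow_succ]
          have e : (800 * A0) ^ j * (800 * A0) * (B + G)
              = 400 * A0 * ((800 * A0) ^ j * (B + G) + (800 * A0) ^ j * (B + G)) := by ring
          rw [e]
          apply mul_le_mul_of_nonneg_left _ (by linarith)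
          have : G ≤ (800 * A0) ^ j * (B + G) := by nlinarith
          linarith
        · rw [max_le_iff]
          constructor
          · omega
          · omega
        · rw [max_le_iff]
          constructor
          · omega
          · have : (j + 1) * y = j * y + y := by ring
            omega
        · intro m hm
          rw [max_le_iff] at hm
          exact ih m hm.1 (by omega)
        · rw [lt_max_iff]
          right
          omega
  intro n hn
  apply key 9 n hn
  unfold N0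
  omega

end MP18
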