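import Pool.Agent.Lib.MP_18566a_pr.T.H2

set_option autoImplicit false

namespace MP18

open Finset PowerSeries

/-- the adjoint operator -/
noncomputable def H3_L (Φ : ℕ → ℝ) (k : PS) (u : ℕ → ℂ) (n : ℕ) : ℂ :=
  2 * ((Φ n : ℝ) : ℂ) * u n - ∑' l, ((coeff l k : ℝ) : ℂ) * u (n + l)

theorem H3_aux_summable {k : PS} {C B : ℝ} {u : ℕ → ℂ} (hk : Bd 1 k C) (hu : ∀ n, ‖u n‖ ≤ B)
    (n : ℕ) : Summable (fun l => ((coeff l k : ℝ) : ℂ) * u (n + l)) := by
  have h1 : Summable (fun l => |coeff l k|) := by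
    apply summable_of_sum_range_le (c := C) (fun n => abs_nonneg _)
    intro n
    have := hk n
    simpa using this
  apply Summable.of_norm_bounded (g := fun l => |coeff l k| * B) (h1.mul_right B)
  intro l
  rw [norm_mul, Complex.norm_real, Real.norm_eq_abs]
  exact mul_le_mul_of_nonneg_left (hu _) (abs_nonneg _)

/-- difference of the operator -/
theorem H3_aux_L {Φ : ℕ → ℝ} {k : PS} {C B : ℝ} {u : ℕ → ℂ} (hk : Bd 1 k C)
    (hu : ∀ n, ‖u n‖ ≤ B) (n : ℕ) :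
    H3_L Φ k (fun m => u (m + 1) - u m) n
      = H3_L Φ k u (n + 1) - H3_L Φ k u n - 2 * ((Φ (n + 1) - Φ n : ℝ) : ℂ) * u (n + 1) := by
  unfold H3_L
  have s1 := H3_aux_summable hk hu (n + 1)
  have s2 := H3_aux_summable hk hu n
  have e1 : ∑' l, ((coeff l k : ℝ) : ℂ) * (u (n + l + 1) - u (n + l))
      = ∑' l, ((coeff l k : ℝ) : ℂ) * u (n + 1 + l) - ∑' l, ((coeff l k : ℝ) : ℂ) * u (n + l) := by
    rw [← s1.tsum_sub s2]
    apply tsum_congr
    intro l
    rw [show n + l + 1 = n + 1 + l from by ring, mul_sub]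
  simp only
  rw [e1]
  push_cast
  ring

theorem H3_aux_bounded {y' y W W' V : ℕ} {a0 : PS} {z : ℂ} {ψ : ℕ → ℂ}
    (g : Geo y' y W W' V) (ha : Adj a0 y W W' V z ψ) : ∃ B : ℝ, ∀ n, ‖ψ n‖ ≤ B := by
  refine ⟨1 + ∑ n ∈ range (N0 y), ‖ψ n‖, fun n => ?_⟩
  by_cases hn : n < N0 y
  · have h1 : ‖ψ n‖ ≤ ∑ n ∈ range (N0 y), ‖ψ n‖ :=
      Finset.single_le_sum (f := fun n => ‖ψ n‖) (fun i _ => norm_nonneg _) (mem_range.mpr hn)
    linarith
  · have h1 : 0 ≤ ∑ n ∈ range (N0 y), ‖ψ n‖ := Finset.sum_nonneg (fun i _ => norm_nonneg _)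
    rw [ha.tail n (by omega), norm_pow]
    have : ‖z‖ ^ n ≤ 1 := pow_le_one₀ (norm_nonneg _) (ha.rt.lt_one g.y_pos).le
    linarith

theorem H3_aux_W {y' y W W' V : ℕ} (g : Geo y' y W W' V) :
    (2 : ℝ) / W ≤ 4 * (1 / ww) / y ∧ (4 : ℝ) / (W * W') ≤ 32000 * (1 / ww) ^ 2 / (y : ℝ) ^ 2 := by
  have hy : (0 : ℝ) < y := by exact_mod_cast g.y_pos
  have hW : (0 : ℝ) < W := by exact_mod_cast g.W_pos
  have hW' : (0 : ℝ) < W' := by exact_mod_cast g.W'_pos
  have hw : 0 < ww := by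
    have : ww = 1 / 10 ^ 73 := rfl
    rw [this]
    norm_num
  have h1 := g.Wlo
  have h2 := g.W'lo
  generalize ww = w at *
  constructor
  · rw [div_le_div_iff₀ hW hy]
    have h3 : 4 * (1 / w) * W = 4 * W / w := by ring
    rw [h3, le_div_iff₀ hw]
    nlinarith
  · have h4 : (w * y / 2) ^ 2 ≤ (W : ℝ) ^ 2 := by
      apply pow_le_pow_left₀ _ h1
      positivity
    have h5 : (W : ℝ) ^ 2 / 2000 ≤ W * W' := by
      have : (W : ℝ) * (W / 2000) ≤ W * W' := mul_le_mul_of_nonneg_left h2 hW.le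
      calc (W : ℝ) ^ 2 / 2000 = (W : ℝ) * (W / 2000) := by ring
        _ ≤ _ := this
    have h6 : (w * y) ^ 2 / 8000 ≤ (W : ℝ) * W' := by
      calc (w * y) ^ 2 / 8000 = (w * y / 2) ^ 2 / 2000 := by ring
        _ ≤ (W : ℝ) ^ 2 / 2000 := by linarith
        _ ≤ _ := h5
    have h7 : 0 < (w * y) ^ 2 / 8000 := by positivity
    calc (4 : ℝ) / (W * W') ≤ 4 / ((w * y) ^ 2 / 8000) :=
          div_le_div_of_nonneg_left (by norm_num) h7 h6
      _ = 32000 * (1 / w) ^ 2 / (y : ℝ) ^ 2 := by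
        field_simp
        norm_num

theorem H3_aux_Cum {A : PS} (n : ℕ) : Cum A (n + 1) - Cum A n = coeff (n + 1) A := by
  unfold Cum
  rw [Finset.sum_range_succ _ (n + 1)]
  ring

theorem psi_bds : ∃ C : ℝ, 1 ≤ C ∧ ∀ (y' y W W' V : ℕ) (a0 : PS) (z : ℂ) (ψ : ℕ → ℂ),
    Geo y' y W W' V → In y' y a0 → Adj a0 y W W' V z ψ → ∀ n, y + V ≤ n →
    ‖ψ n‖ ≤ C ∧ ‖ψ (n + 1) - ψ n‖ ≤ C / y ∧ ‖ψ (n + 2) - 2 * ψ (n + 1) + ψ n‖ ≤ C / (y : ℝ) ^ 2 := by
  obtain ⟨K, hK1, hback⟩ := backward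
  have hw : 0 < ww := by
    have : ww = 1 / 10 ^ 73 := rfl
    rw [this]
    norm_num
  set q : ℝ := 1 / ww with hq
  have hq0 : 0 < q := one_div_pos.mpr hw
  have hK0 : 0 < K := by linarith
  set C1 : ℝ := K * (4 + 8 * q * K) with hC1
  set C2 : ℝ := K * (16 + (64000 * q ^ 2 * K + 16 * q * C1)) with hC2
  have hC10 : 0 < C1 := by positivity
  have hC20 : 0 < C2 := by positivity
  refine ⟨K + C1 + C2, by linarith, ?_⟩
  intro y' y W W' V a0 z ψ g hin ha
  have hy : (0 : ℝ) < y := by exact_mod_cast g.y_pos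
  obtain ⟨hw1, hw2⟩ := H3_aux_W g
  rw [← hq] at hw1 hw2
  set k := ker (aF a0 y W W' V) with hk
  set Φ : ℕ → ℝ := Cum (aF a0 y W W' V) with hΦ
  have hkB : Bd 1 k 37.85 := D14 g hin Adm_one
  obtain ⟨B, hB⟩ := H3_aux_bounded g ha
  have hz1 : ‖z‖ ≤ 1 := (ha.rt.lt_one g.y_pos).le
  have hzs : ‖z - 1‖ ≤ 4 / y := by
    rw [norm_sub_rev]
    exact ha.rt.sub_le g.y_pos
  have hzn : ∀ n, ‖z ^ n‖ ≤ 1 := fun n => by
    rw [norm_pow]
    exact pow_le_one₀ (norm_nonneg _) hz1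

  have L0' : ∀ n, y ≤ n → H3_L Φ k ψ n = 0 := by
    intro n hn
    unfold H3_L
    rw [← ha.eqn n hn]
    exact sub_self _
  have b0 : ∀ n, y + V ≤ n → ‖ψ n‖ ≤ K := by
    have := hback y' y W W' V a0 g hin ψ (fun _ => 0) 0 1 (fun n hn => by
      rw [ha.tail n hn]
      exact hzn n) (fun n hn _ => L0' n (by omega)) (fun n _ _ => by simp) le_rfl
    intro n hn
    have h := this n hn
    linarith

  set u : ℕ → ℂ := fun m => ψ (m + 1) - ψ m with hu
  have hBu : ∀ n, ‖u n‖ ≤ B + B := fun n => (norm_sub_le _ _).trans (add_le_add (hB _) (hB _))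
  have L1 : ∀ n, y ≤ n → H3_L Φ k u n
      = -(2 * ((coeff (n + 1) (aF a0 y W W' V) : ℝ) : ℂ) * ψ (n + 1)) := by
    intro n hn
    rw [hu, H3_aux_L hkB hB, L0' n hn, L0' (n + 1) (by omega), H3_aux_Cum]
    ring
  have a1 : ∀ n, y + V ≤ n → |coeff n (aF a0 y W W' V)| ≤ 4 * q / y :=
    fun n hn => (aF_coeff_bd g hin hn).1.trans hw1
  have a2 : ∀ n, y + V ≤ n → |coeff (n + 1) (aF a0 y W W' V) - coeff n (aF a0 y W W' V)|
      ≤ 32000 * q ^ 2 / (y : ℝ) ^ 2 :=
    fun n hn => (aF_coeff_bd g hin hn).2.trans hw2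
  have b1 : ∀ n, y + V ≤ n → ‖u n‖ ≤ C1 / y := by
    have := hback y' y W W' V a0 g hin u
      (fun n => -(2 * ((coeff (n + 1) (aF a0 y W W' V) : ℝ) : ℂ) * ψ (n + 1)))
      (8 * q * K / y) (4 / y) (fun n hn => by
        have e1 : u n = z ^ n * (z - 1) := by
          rw [hu]
          simp only
          rw [ha.tail n hn, ha.tail (n + 1) (by omega)]
          ring
        rw [e1, norm_mul]
        calc ‖z ^ n‖ * ‖z - 1‖ ≤ 1 * (4 / y) := mul_le_mul (hzn n) hzs (norm_nonneg _) zero_le_one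
          _ = 4 / y := one_mul _) (fun n hn _ => L1 n (by omega)) (fun n hn _ => by
        rw [norm_neg, norm_mul, norm_mul, Complex.norm_real, Real.norm_eq_abs]
        have h1 := a1 (n + 1) (by omega)
        have h2 := b0 (n + 1) (by omega)
        have h3 : ‖(2 : ℂ)‖ = 2 := by simp
        rw [h3]
        calc 2 * |coeff (n + 1) (aF a0 y W W' V)| * ‖ψ (n + 1)‖
            ≤ 2 * (4 * q / y) * K := by
              apply mul_le_mul _ h2 (norm_nonneg _) (by positivity)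
              linarith
          _ = 8 * q * K / y := by ring) (by positivity)
    intro n hn
    have h := this n hn
    refine h.trans (le_of_eq ?_)
    rw [hC1]
    ring

  set u2 : ℕ → ℂ := fun m => u (m + 1) - u m with hu2
  have L2 : ∀ n, y ≤ n → H3_L Φ k u2 n
      = -(2 * ((coeff (n + 2) (aF a0 y W W' V) - coeff (n + 1) (aF a0 y W W' V) : ℝ) : ℂ) * ψ (n + 2)
        + 4 * ((coeff (n + 1) (aF a0 y W W' V) : ℝ) : ℂ) * u (n + 1)) := by
    intro n hn
    rw [hu2, H3_aux_L hkB hBu, L1 n hn, L1 (n + 1) (by omega), H3_aux_Cum]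
    have e1 : u (n + 1) = ψ (n + 2) - ψ (n + 1) := rfl
    rw [e1]
    push_cast
    ring
  have b2 : ∀ n, y + V ≤ n → ‖u2 n‖ ≤ C2 / (y : ℝ) ^ 2 := by
    have := hback y' y W W' V a0 g hin u2
      (fun n => -(2 * ((coeff (n + 2) (aF a0 y W W' V) - coeff (n + 1) (aF a0 y W W' V) : ℝ) : ℂ)
        * ψ (n + 2) + 4 * ((coeff (n + 1) (aF a0 y W W' V) : ℝ) : ℂ) * u (n + 1)))
      ((64000 * q ^ 2 * K + 16 * q * C1) / (y : ℝ) ^ 2) (16 / (y : ℝ) ^ 2) (fun n hn => by
        have e1 : u2 n = z ^ n * ((z - 1) * (z - 1)) := by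
          rw [hu2, hu]
          simp only
          rw [ha.tail n hn, ha.tail (n + 1) (by omega), ha.tail (n + 1 + 1) (by omega)]
          ring
        rw [e1, norm_mul, norm_mul]
        have h4 : ‖z - 1‖ * ‖z - 1‖ ≤ (4 / y) * (4 / y) :=
          mul_le_mul hzs hzs (norm_nonneg _) (by positivity)
        calc ‖z ^ n‖ * (‖z - 1‖ * ‖z - 1‖) ≤ 1 * ((4 / y) * (4 / y)) :=
              mul_le_mul (hzn n) h4 (by positivity) zero_le_one
          _ = 16 / (y : ℝ) ^ 2 := by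
            field_simp
            norm_num) (fun n hn _ => L2 n (by omega)) (fun n hn _ => by
        rw [norm_neg]
        refine (norm_add_le _ _).trans ?_
        rw [norm_mul, norm_mul, norm_mul, norm_mul, Complex.norm_real, Complex.norm_real,
          Real.norm_eq_abs, Real.norm_eq_abs]
        have h1 := a1 (n + 1) (by omega)
        have h1' := a2 (n + 1) (by omega)
        have h2 := b0 (n + 2) (by omega)
        have h2' := b1 (n + 1) (by omega)
        have h3 : ‖(2 : ℂ)‖ = 2 := by simp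
        have h4 : ‖(4 : ℂ)‖ = 4 := by simp
        rw [h3, h4]
        have h5 : 2 * |coeff (n + 2) (aF a0 y W W' V) - coeff (n + 1) (aF a0 y W W' V)|
            * ‖ψ (n + 2)‖ ≤ 2 * (32000 * q ^ 2 / (y : ℝ) ^ 2) * K := by
          apply mul_le_mul _ h2 (norm_nonneg _) (by positivity)
          linarith
        have h6 : 4 * |coeff (n + 1) (aF a0 y W W' V)| * ‖u (n + 1)‖
            ≤ 4 * (4 * q / y) * (C1 / y) := by
          apply mul_le_mul _ h2' (norm_nonneg _) (by positivity)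
          linarith
        calc _ ≤ 2 * (32000 * q ^ 2 / (y : ℝ) ^ 2) * K + 4 * (4 * q / y) * (C1 / y) :=
              add_le_add h5 h6
          _ = (64000 * q ^ 2 * K + 16 * q * C1) / (y : ℝ) ^ 2 := by
            field_simp
            ring) (by positivity)
    intro n hn
    have h := this n hn
    refine h.trans (le_of_eq ?_)
    rw [hC2]
    ring
  intro n hn
  refine ⟨(b0 n hn).trans (by linarith), (b1 n hn).trans ?_, ?_⟩
  · apply div_le_div_of_nonneg_right _ hy.le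
    linarith
  · have e1 : ψ (n + 2) - 2 * ψ (n + 1) + ψ n = u2 n := by
      rw [hu2, hu]
      simp only
      ring
    rw [e1]
    refine (b2 n hn).trans ?_
    apply div_le_div_of_nonneg_right _ (by positivity)
    linarith

end MP18
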