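import Pool.Agent.Lib.MP_18566a_pr.T.H3

set_option autoImplicit false

namespace MP18

open Finset PowerSeries

noncomputable def wf (a0 : PS) (y W W' V : ℕ) (ψ : ℕ → ℂ) (n : ℕ) : ℂ :=
  ∑' l, ((coeff l (ms a0 y W W' V + mt a0 y W W' V) : ℝ) : ℂ) * ψ (n + l)

theorem ev_ker_one {y' y : ℕ} {a0 : PS} (h : In y' y a0) : ev (ker a0) 1 = 1 := by
  have h0 : coeff 0 a0 ≠ 0 := h.lb.pos.ne'
  have hk : Bd 1 (ker a0) 38 := h.lb.kn 1 Adm_one
  have ha : Bd 1 a0 1 := Bd_of_Cpl h.lb.nn h.cpl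
  have h1 : ev (ker a0 * a0) 1 = ev (ker a0) 1 * ev a0 1 := ev_mul hk ha (by simp)
  rw [ker_mul_self h0, ev_Cpl_one h.cpl, ev_Cpl_one (Cpl_sq h.cpl)] at h1
  simpa using h1.symm

/-- norm of a convolution at infinity -/
theorem H4_aux_norm {m : PS} {M D : ℝ} {u : ℕ → ℂ} {n : ℕ} (hm : Bd 1 m M) (hD : 0 ≤ D)
    (hu : ∀ l, coeff l m = 0 ∨ ‖u (n + l)‖ ≤ D) :
    ‖∑' l, ((coeff l m : ℝ) : ℂ) * u (n + l)‖ ≤ M * D := by
  have h1 : ∀ N, ∑ l ∈ range N, |coeff l m| * D ≤ M * D := by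
    intro N
    rw [← Finset.sum_mul]
    apply mul_le_mul_of_nonneg_right _ hD
    have := hm N
    simpa using this
  have s1 : Summable (fun l => |coeff l m| * D) :=
    summable_of_sum_range_le (fun l => mul_nonneg (abs_nonneg _) hD) h1
  have h2 : ∀ l, ‖((coeff l m : ℝ) : ℂ) * u (n + l)‖ ≤ |coeff l m| * D := by
    intro l
    rw [norm_mul, Complex.norm_real, Real.norm_eq_abs]
    rcases hu l with h | h
    · rw [h]
      simp
    · exact mul_le_mul_of_nonneg_left h (abs_nonneg _)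
  exact (tsum_of_norm_bounded s1.hasSum h2).trans
    (Real.tsum_le_of_sum_range_le (fun l => mul_nonneg (abs_nonneg _) hD) h1)

theorem H4_aux_tel {u : ℕ → ℂ} {N : ℕ} {D : ℝ} (hu : ∀ n, N ≤ n → ‖u (n + 1) - u n‖ ≤ D) {n : ℕ}
    (hn : N ≤ n) (l : ℕ) : ‖u (n + l) - u n‖ ≤ l * D := by
  induction l with
  | zero => simp
  | succ l ih =>
    have e1 : u (n + (l + 1)) - u n = (u (n + l + 1) - u (n + l)) + (u (n + l) - u n) := by
      rw [← add_assoc]
      ring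
    rw [e1]
    refine (norm_add_le _ _).trans ?_
    have := hu (n + l) (by omega)
    push_cast
    linarith

theorem H4_aux_mB {y' y W W' V : ℕ} {a0 : PS} (g : Geo y' y W W' V) (h : In y' y a0) :
    Bd 1 (ms a0 y W W' V + mt a0 y W W' V) 1201 := by
  have h1 := Bd_add zero_le_one (D8a g h (Adm_one (y := y))) (D9 g h (Adm_one (y := y)))
  apply Bd_mono h1
  norm_num

theorem w_alg : ∃ C : ℝ, 1 ≤ C ∧ ∀ (Λ : ℝ) (y'' y' y W W' V : ℕ) (a00 a0 : PS) (φ' : ℝ) (z : ℂ)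
    (ψ : ℕ → ℂ), TD Λ y'' y' y W W' V a00 a0 φ' → Adj a0 y W W' V z ψ → ∀ n, y + V ≤ n →
    ‖(2 * ((Cum (aF a0 y W W' V) n : ℝ) : ℂ) - phi) * ψ n - wf a0 y W W' V ψ n‖ ≤ C / Λ := by
  obtain ⟨C, hC1, hC⟩ := psi_bds
  refine ⟨38 * 10 ^ 8 * C, by linarith, ?_⟩
  intro Λ y'' y' y W W' V a00 a0 φ' z ψ td ha n hn
  have g := td.geo
  have hin := td.inn
  have hy : (0 : ℝ) < y := by exact_mod_cast g.y_pos
  have hy' : (0 : ℝ) < y' := by exact_mod_cast g.pos
  have hΛ : 0 < Λ := by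
    have h1 := td.hL
    have h2 : L0 = 10 ^ 250 := rfl
    have h3 : (0 : ℝ) < L0 := by
      rw [h2]
      positivity
    linarith
  have hb := hC y' y W W' V a0 z ψ g hin ha
  obtain ⟨B, hB⟩ := H3_aux_bounded g ha
  have hk0 : Bd 1 (ker a0) 38 := hin.lb.kn 1 Adm_one
  have hmB := H4_aux_mB g hin
  have s0 := H3_aux_summable hk0 hB n
  have sm := H3_aux_summable hmB hB n
  have sc : Summable (fun l => ((coeff l (ker a0) : ℝ) : ℂ) * ψ n) :=
    H3_aux_summable (u := fun _ => ψ n) hk0 (fun _ => hB n) 0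
  have e1 : ∑' l, ((coeff l (ker (aF a0 y W W' V)) : ℝ) : ℂ) * ψ (n + l)
      = phi * (∑' l, ((coeff l (ker a0) : ℝ) : ℂ) * ψ (n + l)) + wf a0 y W W' V ψ n := by
    unfold wf
    rw [← tsum_mul_left, ← (s0.mul_left (phi : ℂ)).tsum_add sm]
    apply tsum_congr
    intro l
    rw [D10 g hin, add_assoc, map_add, PowerSeries.coeff_smul, smul_eq_mul]
    push_cast
    ring
  have e2 : ∑' l, ((coeff l (ker a0) : ℝ) : ℂ) * ψ n = ψ n := by
    rw [tsum_mul_right]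
    have h1 : ∑' l, ((coeff l (ker a0) : ℝ) : ℂ) = ev (ker a0) 1 := by
      unfold ev
      apply tsum_congr
      intro l
      rw [one_pow, mul_one]
    rw [h1, ev_ker_one hin, one_mul]
  have e3 : (2 * ((Cum (aF a0 y W W' V) n : ℝ) : ℂ) - phi) * ψ n - wf a0 y W W' V ψ n
      = phi * ∑' l, ((coeff l (ker a0) : ℝ) : ℂ) * (ψ (n + l) - ψ n) := by
    have h1 : ∑' l, ((coeff l (ker a0) : ℝ) : ℂ) * (ψ (n + l) - ψ n)
        = (∑' l, ((coeff l (ker a0) : ℝ) : ℂ) * ψ (n + l)) - ψ n := by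
      have h2 : ∑' l, ((coeff l (ker a0) : ℝ) : ℂ) * (ψ (n + l) - ψ n)
          = (∑' l, ((coeff l (ker a0) : ℝ) : ℂ) * ψ (n + l))
            - ∑' l, ((coeff l (ker a0) : ℝ) : ℂ) * ψ n := by
        rw [← s0.tsum_sub sc]
        apply tsum_congr
        intro l
        ring
      rw [h2, e2]
    rw [h1, sub_mul, ha.eqn n (by omega), e1]
    ring
  rw [e3, norm_mul]

  set x : ℝ := 1 / (10 ^ 8 * y') with hx
  have hx0 : 0 < x := by positivity
  have hkx : Bd (1 + x) (ker a0) 38 := hin.lb.kn _ (Adm_R g.pos)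
  have hmom := mom1 hx0 hkx
  have hD : 0 ≤ C / y := by positivity
  have h1 : ∀ N, ∑ l ∈ range N, |coeff l (ker a0)| * l * (C / y) ≤ 38 / x * (C / y) := by
    intro N
    rw [← Finset.sum_mul]
    exact mul_le_mul_of_nonneg_right (hmom N) hD
  have s1 : Summable (fun l : ℕ => |coeff l (ker a0)| * l * (C / y)) :=
    summable_of_sum_range_le (fun l => by positivity) h1
  have h2 : ∀ l : ℕ, ‖((coeff l (ker a0) : ℝ) : ℂ) * (ψ (n + l) - ψ n)‖
      ≤ |coeff l (ker a0)| * l * (C / y) := by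
    intro l
    rw [norm_mul, Complex.norm_real, Real.norm_eq_abs, mul_assoc]
    apply mul_le_mul_of_nonneg_left _ (abs_nonneg _)
    exact H4_aux_tel (fun m hm => (hb m hm).2.1) hn l
  have h3 : ‖∑' l, ((coeff l (ker a0) : ℝ) : ℂ) * (ψ (n + l) - ψ n)‖ ≤ 38 / x * (C / y) :=
    (tsum_of_norm_bounded s1.hasSum h2).trans
      (Real.tsum_le_of_sum_range_le (fun l => by positivity) h1)
  have h4 : ‖(phi : ℂ)‖ ≤ 1 := by
    rw [Complex.norm_real, Real.norm_eq_abs, abs_le]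
    have h5 := phi_bd
    constructor <;> linarith
  have h6 : (y' : ℝ) / y ≤ 1 / Λ := by
    rw [div_le_div_iff₀ hy hΛ]
    have := td.sep2
    linarith
  calc ‖(phi : ℂ)‖ * ‖∑' l, ((coeff l (ker a0) : ℝ) : ℂ) * (ψ (n + l) - ψ n)‖
      ≤ 1 * (38 / x * (C / y)) := mul_le_mul h4 h3 (norm_nonneg _) zero_le_one
    _ = 38 * 10 ^ 8 * C * ((y' : ℝ) / y) := by
      rw [hx]
      field_simp
    _ ≤ 38 * 10 ^ 8 * C * (1 / Λ) := by
      apply mul_le_mul_of_nonneg_left h6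
      positivity
    _ = 38 * 10 ^ 8 * C / Λ := by ring

theorem w_bds : ∃ C : ℝ, 1 ≤ C ∧ ∀ (y' y W W' V : ℕ) (a0 : PS) (z : ℂ) (ψ : ℕ → ℂ),
    Geo y' y W W' V → In y' y a0 → Adj a0 y W W' V z ψ → ∀ j, V ≤ j →
    ‖wf a0 y W W' V ψ j‖ ≤ C ∧
    ‖wf a0 y W W' V ψ (j + 1) - wf a0 y W W' V ψ j‖ ≤ C / y ∧
    ‖wf a0 y W W' V ψ (j + 2) - 2 * wf a0 y W W' V ψ (j + 1) + wf a0 y W W' V ψ j‖
      ≤ C / (y : ℝ) ^ 2 := by
  obtain ⟨C, hC1, hC⟩ := psi_bds
  refine ⟨1201 * C, by linarith, ?_⟩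
  intro y' y W W' V a0 z ψ g hin ha j hj
  have hy : (0 : ℝ) < y := by exact_mod_cast g.y_pos
  have hb := hC y' y W W' V a0 z ψ g hin ha
  obtain ⟨B, hB⟩ := H3_aux_bounded g ha
  have hmB := H4_aux_mB g hin
  set m := ms a0 y W W' V + mt a0 y W W' V with hm
  have hlow : ∀ l, l < y → coeff l m = 0 := by
    intro l hl
    rw [hm, map_add, ms_low g hin l hl, mt_low g hin l hl, add_zero]
  have hw : ∀ i, wf a0 y W W' V ψ i = ∑' l, ((coeff l m : ℝ) : ℂ) * ψ (i + l) := fun i => rfl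
  have s := fun i => H3_aux_summable hmB hB i
  refine ⟨?_, ?_, ?_⟩
  · rw [hw]
    apply H4_aux_norm hmB (by linarith)
    intro l
    by_cases hl : l < y
    · exact Or.inl (hlow l hl)
    · exact Or.inr (hb (j + l) (by omega)).1
  · have e1 : wf a0 y W W' V ψ (j + 1) - wf a0 y W W' V ψ j
        = ∑' l, ((coeff l m : ℝ) : ℂ) * (fun i => ψ (i + 1) - ψ i) (j + l) := by
      rw [hw, hw, ← (s (j + 1)).tsum_sub (s j)]
      apply tsum_congr
      intro l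
      simp only
      rw [show j + 1 + l = j + l + 1 from by ring]
      ring
    rw [e1, mul_div_assoc]
    refine H4_aux_norm (u := fun i => ψ (i + 1) - ψ i) (n := j) hmB (by positivity) ?_
    intro l
    by_cases hl : l < y
    · exact Or.inl (hlow l hl)
    · exact Or.inr (hb (j + l) (by omega)).2.1
  · have e1 : wf a0 y W W' V ψ (j + 2) - 2 * wf a0 y W W' V ψ (j + 1) + wf a0 y W W' V ψ j
        = ∑' l, ((coeff l m : ℝ) : ℂ) * (fun i => ψ (i + 2) - 2 * ψ (i + 1) + ψ i) (j + l) := by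
      have h1 : ∑' l, ((coeff l m : ℝ) : ℂ) * (fun i => ψ (i + 2) - 2 * ψ (i + 1) + ψ i) (j + l)
          = ∑' l, (((coeff l m : ℝ) : ℂ) * ψ (j + 2 + l)
            - 2 * (((coeff l m : ℝ) : ℂ) * ψ (j + 1 + l)) + ((coeff l m : ℝ) : ℂ) * ψ (j + l)) := by
        apply tsum_congr
        intro l
        simp only
        rw [show j + 1 + l = j + l + 1 from by ring, show j + 2 + l = j + l + 2 from by ring]
        ring
      rw [h1, (((s (j + 2)).sub ((s (j + 1)).mul_left 2))).tsum_add (s j),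
        (s (j + 2)).tsum_sub ((s (j + 1)).mul_left 2), tsum_mul_left, hw, hw, hw]
    rw [e1, mul_div_assoc]
    refine H4_aux_norm (u := fun i => ψ (i + 2) - 2 * ψ (i + 1) + ψ i) (n := j) hmB (by positivity) ?_
    intro l
    by_cases hl : l < y
    · exact Or.inl (hlow l hl)
    · exact Or.inr (hb (j + l) (by omega)).2.2

end MP18
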