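import Pool.Agent.Lib.MP_18566a_pr.T.H4

set_option autoImplicit false

namespace MP18

open Finset PowerSeries

theorem H5_aux1 {A : PS} {C M : ℝ} {y : ℕ} (hA : Bd 1 A C) (hlow : ∀ l < y, coeff l A = 0)
    (u : ℕ → ℂ) (hM : 0 ≤ M) (hu : ∀ l, y ≤ l → ‖u l‖ ≤ M) :
    ‖∑' l, ((coeff l A : ℝ) : ℂ) * u l‖ ≤ C * M := by
  have hb : ∀ N : ℕ, ∑ n ∈ range N, |coeff n A| ≤ C := by
    intro N
    have := hA N
    simpa using this
  have hs : Summable (fun l => |coeff l A|) :=
    summable_of_sum_range_le (fun n => abs_nonneg _) hb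
  have hC : ∑' l, |coeff l A| ≤ C :=
    Real.tsum_le_of_sum_range_le (fun n => abs_nonneg _) hb
  have h1 : HasSum (fun l => |coeff l A| * M) ((∑' l, |coeff l A|) * M) :=
    hs.hasSum.mul_right M
  refine (tsum_of_norm_bounded h1 fun l => ?_).trans (mul_le_mul_of_nonneg_right hC hM)
  rw [norm_mul, Complex.norm_real, Real.norm_eq_abs]
  by_cases hl : l < y
  · rw [hlow l hl, abs_zero, zero_mul, zero_mul]
  · exact mul_le_mul_of_nonneg_left (hu l (not_lt.1 hl)) (abs_nonneg _)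

theorem psi_abs : ∃ C : ℝ, 1 ≤ C ∧ ∀ (Λ : ℝ) (y'' y' y W W' V : ℕ) (a00 a0 : PS) (φ' : ℝ) (z : ℂ)
    (ψ : ℕ → ℂ), C ≤ Λ → TD Λ y'' y' y W W' V a00 a0 φ' → Adj a0 y W W' V z ψ → ∀ n, y + V ≤ n →
    ‖ψ n‖ ≤ 10 ^ 20 := by
  obtain ⟨Cw, hCw1, hCw⟩ := w_alg
  refine ⟨100 * Cw, by linarith, ?_⟩
  intro Λ y'' y' y W W' V a00 a0 φ' z ψ hΛ hTD hAdj
  have g := hTD.geo
  have h := hTD.inn
  have hadm : Adm 1 y := ⟨le_refl _, by rw [one_pow]; norm_num⟩
  have hΛ0 : 0 < Λ := by linarith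
  have hy'1 : (0 : ℝ) < y' := by exact_mod_cast g.pos
  have hL0 : (1 : ℝ) ≤ L0 := by
    unfold L0
    exact one_le_pow₀ (by norm_num)
  have hy : 0 < y := by
    have h1 : (0 : ℝ) < y := lt_of_lt_of_le (by positivity) g.sep
    exact_mod_cast h1
  have hB : Bd 1 (ms a0 y W W' V + mt a0 y W W' V) 30 := by
    have h1 := Bd_add (zero_le_one) (D12 g h hadm) (D13 (W' := W') g hadm)
    rw [sub_add_cancel] at h1
    refine Bd_mono h1 ?_
    have h2 : (1 : ℝ) / 10 ^ 35 ≤ 1 / 10 := by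
      apply one_div_le_one_div_of_le (by norm_num)
      norm_num
    linarith
  have hlow : ∀ l < y, coeff l (ms a0 y W W' V + mt a0 y W W' V) = 0 := by
    intro l hl
    rw [map_add, ms_low g h l hl, mt_low g h l hl, add_zero]
  have hphi := phi_bd
  have key : ∀ j : ℕ, ∀ n, y + V ≤ n → N0 y ≤ n + j * y → ‖ψ n‖ ≤ 145 ^ j := by
    intro j
    induction j with
    | zero =>
      intro n _ hn
      rw [hAdj.tail n (by simpa using hn), norm_pow, pow_zero]
      exact pow_le_one₀ (norm_nonneg _) (Rt.lt_one hy hAdj.rt).le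
    | succ j ih =>
      intro n hn hn2
      have h1 := hCw Λ y'' y' y W W' V a00 a0 φ' z ψ hTD hAdj n hn
      have h2 : ‖wf a0 y W W' V ψ n‖ ≤ 30 * 145 ^ j := by
        unfold wf
        apply H5_aux1 hB hlow (fun l => ψ (n + l)) (by positivity)
        intro l hl
        apply ih
        · omega
        · have e : (j + 1) * y = j * y + y := by ring
          rw [e] at hn2
          omega
      have h3 : Cw / Λ ≤ 1 / 100 := by
        rw [div_le_div_iff₀ hΛ0 (by norm_num)]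
        linarith
      have h4 : phi ≤ 2 * Cum (aF a0 y W W' V) n - phi := by
        have := (Cum_aF_ge g h (n := n) (by omega)).1
        linarith
      have h5 : ‖(2 * ((Cum (aF a0 y W W' V) n : ℝ) : ℂ) - phi) * ψ n‖ ≤ 30 * 145 ^ j + 1 / 100 := by
        have h6 : (2 * ((Cum (aF a0 y W W' V) n : ℝ) : ℂ) - phi) * ψ n =
            ((2 * ((Cum (aF a0 y W W' V) n : ℝ) : ℂ) - phi) * ψ n - wf a0 y W W' V ψ n) +
              wf a0 y W W' V ψ n := by ring
        rw [h6]
        refine (norm_add_le _ _).trans ?_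
        linarith
      have h7 : ‖(2 * ((Cum (aF a0 y W W' V) n : ℝ) : ℂ) - phi) * ψ n‖ =
          (2 * Cum (aF a0 y W W' V) n - phi) * ‖ψ n‖ := by
        have e : (2 * ((Cum (aF a0 y W W' V) n : ℝ) : ℂ) - phi) =
            ((2 * Cum (aF a0 y W W' V) n - phi : ℝ) : ℂ) := by push_cast; ring
        rw [norm_mul, e, Complex.norm_real, Real.norm_eq_abs, abs_of_nonneg]
        linarith
      rw [h7] at h5
      have h8 : (0.2 : ℝ) * ‖ψ n‖ ≤ 30 * 145 ^ j + 1 / 100 := by
        refine le_trans ?_ h5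
        apply mul_le_mul_of_nonneg_right _ (norm_nonneg _)
        linarith
      have h9 : (0.20829890 : ℝ) * ‖ψ n‖ ≤ 30 * 145 ^ j + 1 / 100 := by
        refine le_trans ?_ h5
        apply mul_le_mul_of_nonneg_right _ (norm_nonneg _)
        linarith
      have h10 : (1 : ℝ) ≤ 145 ^ j := one_le_pow₀ (by norm_num)
      rw [pow_succ]
      nlinarith
  intro n hn
  have h1 := key 9 n hn (by
    unfold N0
    omega)
  refine h1.trans ?_
  norm_num

end MP18
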