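import Pool.Agent.Lib.MP_18566a_pr.T.H5
import Pool.Agent.Lib.MP_18566a_pr.T.D8f

set_option autoImplicit false

namespace MP18

open Finset PowerSeries

theorem H6_aux1 {A : PS} {C M : ℝ} {f : ℕ → ℂ} (hA : Bd 1 A C) (hM : 0 ≤ M)
    (hf : ∀ l, coeff l A ≠ 0 → ‖f l‖ ≤ M) :
    Summable (fun l => ((coeff l A : ℝ) : ℂ) * f l) ∧
    ‖∑' l, ((coeff l A : ℝ) : ℂ) * f l‖ ≤ C * M := by
  have h1 : ∀ l, ‖((coeff l A : ℝ) : ℂ) * f l‖ ≤ |coeff l A| * M := by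
    intro l
    rw [norm_mul, Complex.norm_real, Real.norm_eq_abs]
    by_cases h : coeff l A = 0
    · rw [h]; simp
    · exact mul_le_mul_of_nonneg_left (hf l h) (abs_nonneg _)
  have hs : ∀ N, ∑ l ∈ range N, |coeff l A| * M ≤ C * M := by
    intro N
    rw [← Finset.sum_mul]
    have := hA N
    simp only [one_pow, mul_one] at this
    exact mul_le_mul_of_nonneg_right this hM
  have hn : ∀ l, 0 ≤ |coeff l A| * M := fun l => mul_nonneg (abs_nonneg _) hM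
  have hs0 : Summable (fun l => |coeff l A| * M) := summable_of_sum_range_le hn hs
  have hs1 : Summable (fun l => ‖((coeff l A : ℝ) : ℂ) * f l‖) :=
    Summable.of_nonneg_of_le (fun _ => norm_nonneg _) h1 hs0
  refine ⟨hs1.of_norm, (norm_tsum_le_tsum_norm hs1).trans ?_⟩
  refine (hs1.tsum_le_tsum h1 hs0).trans ?_
  exact Real.tsum_le_of_sum_range_le hn hs

theorem H6_aux2 {A B : PS} {f : ℕ → ℂ}
    (hA : Summable (fun l => ((coeff l A : ℝ) : ℂ) * f l))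
    (hB : Summable (fun l => ((coeff l B : ℝ) : ℂ) * f l)) :
    ∑' l, ((coeff l (A + B) : ℝ) : ℂ) * f l =
      ∑' l, ((coeff l A : ℝ) : ℂ) * f l + ∑' l, ((coeff l B : ℝ) : ℂ) * f l := by
  rw [← hA.tsum_add hB]
  apply tsum_congr
  intro l
  rw [map_add]
  push_cast
  ring

/-- norm of the new part of the kernel -/
theorem H6_mbd {y' y W W' V : ℕ} {a0 : PS} (g : Geo y' y W W' V) (h : In y' y a0) :
    Bd 1 (ms a0 y W W' V + mt a0 y W W' V) 30 := by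
  have h1 := D12 g h (Adm_one (y := y))
  have h2 := D13 g (Adm_one (y := y))
  have h3 := Bd_add (by norm_num) h1 h2
  rw [sub_add_cancel] at h3
  exact Bd_mono h3 (by norm_num)

/-- evaluation of the new part at the root -/
theorem H6_ev {y' y W W' V : ℕ} {a0 : PS} (g : Geo y' y W W' V) (h : In y' y a0) {z : ℂ}
    {ψ : ℕ → ℂ} (ad : Adj a0 y W W' V z ψ) :
    ‖ev (ms a0 y W W' V + mt a0 y W W' V) z - (2 - phi)‖ ≤ 1 / 10 ^ 5 := by
  have hy := g.y_pos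
  have hz1 : ‖z‖ ≤ 1 := (ad.rt.lt_one hy).le
  have hk := h.lb.kn 1 Adm_one
  have hkp := h.lb.kp 1 Adm_one
  have hm := H6_mbd g h
  have hphi := phi_bd
  have e1 : ev (ker (aF a0 y W W' V)) z =
      phi * ev (ker a0) z + ev (ms a0 y W W' V + mt a0 y W W' V) z := by
    rw [D10 g h, add_assoc, ev_add (Bd_smul phi hk) hm hz1, ev_smul]
  rw [ad.hz] at e1
  have e2 : ev (ker a0) z - 1 = (1 - z) * ev (kap (ker a0)) z := by
    have h1 : ev (nab * kap (ker a0)) z = (1 - z) * ev (kap (ker a0)) z := by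
      rw [ev_mul (Bd_nab zero_le_one) hkp hz1, ev_nab]
    rw [nab_kap, ev_sub hk (Bd_one zero_le_one) hz1, ev_one] at h1
    exact h1
  have e3 : ev (ms a0 y W W' V + mt a0 y W W' V) z - (2 - phi) =
      -(phi * ((1 - z) * ev (kap (ker a0)) z)) := by
    rw [← e2]
    linear_combination -e1
  rw [e3, norm_neg, norm_mul, norm_mul, Complex.norm_real, Real.norm_eq_abs]
  have h4 := ad.rt.sub_le hy
  have h5 := ev_norm hkp hz1
  have hyR : (0 : ℝ) < y := by exact_mod_cast hy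
  have hy'R : (0 : ℝ) < y' := by exact_mod_cast g.pos
  have hsep := g.sep
  have h6 : ‖1 - z‖ * ‖ev (kap (ker a0)) z‖ ≤ 4 / y * (10 ^ 5 * y') :=
    mul_le_mul h4 h5 (norm_nonneg _) (by positivity)
  have h7 : (4 : ℝ) / y * (10 ^ 5 * y') ≤ 1 / 10 ^ 5 := by
    rw [div_mul_eq_mul_div, div_le_div_iff₀ hyR (by norm_num)]
    have : (10 : ℝ) ^ 20 * y' ≤ y := by
      refine le_trans ?_ hsep
      apply mul_le_mul_of_nonneg_right _ hy'R.le
      unfold L0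
      norm_num
    nlinarith
  have h8 : |phi| ≤ 1 := by
    rw [abs_of_nonneg (by linarith [hphi.1])]
    linarith [hphi.2]
  calc |phi| * (‖1 - z‖ * ‖ev (kap (ker a0)) z‖) ≤ 1 * (1 / 10 ^ 5) := by
        apply mul_le_mul h8 (h6.trans h7) (by positivity) zero_le_one
    _ = 1 / 10 ^ 5 := one_mul _

/-- difference from the pure exponential -/
noncomputable def H6D (z : ℂ) (ψ : ℕ → ℂ) (n : ℕ) : ℂ := ψ n - z ^ n

theorem H6_basic {y' y W W' V : ℕ} {a0 : PS} (g : Geo y' y W W' V) (h : In y' y a0) {z : ℂ}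
    {ψ : ℕ → ℂ} (ad : Adj a0 y W W' V z ψ)
    (hp : ∀ n, y + V ≤ n → ‖ψ n‖ ≤ 10 ^ 20) {n : ℕ} (hn : y + V ≤ n)
    (hw : ‖(2 * ((Cum (aF a0 y W W' V) n : ℝ) : ℂ) - phi) * ψ n - wf a0 y W W' V ψ n‖
      ≤ 1 / 10 ^ 4) :
    ‖(2 * ((Cum (aF a0 y W W' V) n : ℝ) : ℂ) - phi) * H6D z ψ n
      - (2 - 2 * ((Cum (aF a0 y W W' V) n : ℝ) : ℂ)) * z ^ n
      - ∑' l, ((coeff l (m0 y W W') : ℝ) : ℂ) * H6D z ψ (n + l)‖ ≤ 1 / 1000 := by
  have hy := g.y_pos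
  have hz1 : ‖z‖ ≤ 1 := (ad.rt.lt_one hy).le
  have hm := H6_mbd g h
  have hzp : ∀ k, ‖z ^ k‖ ≤ 1 := fun k => by
    rw [norm_pow]
    exact pow_le_one₀ (norm_nonneg _) hz1
  have hD : ∀ k, y + V ≤ k → ‖H6D z ψ k‖ ≤ 10 ^ 20 + 1 := fun k hk =>
    (norm_sub_le _ _).trans (add_le_add (hp k hk) (hzp k))
  set m : PS := ms a0 y W W' V + mt a0 y W W' V with hmdef

  obtain ⟨s1, -⟩ := H6_aux1 (f := fun l => ψ (n + l)) hm (by norm_num : (0 : ℝ) ≤ 10 ^ 20)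
    (fun l _ => hp (n + l) (by omega))
  obtain ⟨s2, -⟩ := H6_aux1 (f := fun l => z ^ (n + l)) hm zero_le_one (fun l _ => hzp (n + l))
  obtain ⟨s3, b3⟩ := H6_aux1 (f := fun l => H6D z ψ (n + l)) (D12 g h (Adm_one (y := y)))
    (by norm_num : (0 : ℝ) ≤ 10 ^ 20 + 1) (fun l _ => hD (n + l) (by omega))
  obtain ⟨s4, -⟩ := H6_aux1 (f := fun l => H6D z ψ (n + l)) (D13 g (Adm_one (y := y)))
    (by norm_num : (0 : ℝ) ≤ 10 ^ 20 + 1) (fun l _ => hD (n + l) (by omega))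
  have e1 : ∑' l, ((coeff l m : ℝ) : ℂ) * z ^ (n + l) = z ^ n * ev m z := by
    unfold ev
    rw [← tsum_mul_left]
    apply tsum_congr
    intro l
    rw [pow_add]
    ring
  have e2 : wf a0 y W W' V ψ n - z ^ n * ev m z =
      ∑' l, ((coeff l m : ℝ) : ℂ) * H6D z ψ (n + l) := by
    rw [← e1]
    unfold wf
    rw [← hmdef, ← s1.tsum_sub s2]
    apply tsum_congr
    intro l
    unfold H6D
    ring
  have e3 : ∑' l, ((coeff l m : ℝ) : ℂ) * H6D z ψ (n + l) =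
      ∑' l, ((coeff l (m - m0 y W W') : ℝ) : ℂ) * H6D z ψ (n + l) +
      ∑' l, ((coeff l (m0 y W W') : ℝ) : ℂ) * H6D z ψ (n + l) := by
    rw [← H6_aux2 s3 s4]
    rw [sub_add_cancel]
  have e4 : (2 * ((Cum (aF a0 y W W' V) n : ℝ) : ℂ) - phi) * H6D z ψ n
      - (2 - 2 * ((Cum (aF a0 y W W' V) n : ℝ) : ℂ)) * z ^ n
      - ∑' l, ((coeff l (m0 y W W') : ℝ) : ℂ) * H6D z ψ (n + l) =
      ((2 * ((Cum (aF a0 y W W' V) n : ℝ) : ℂ) - phi) * ψ n - wf a0 y W W' V ψ n)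
      + z ^ n * (ev m z - (2 - phi))
      + ∑' l, ((coeff l (m - m0 y W W') : ℝ) : ℂ) * H6D z ψ (n + l) := by
    have e5 := e2.trans e3
    have e6 : ∑' l, ((coeff l (m0 y W W') : ℝ) : ℂ) * H6D z ψ (n + l) =
      wf a0 y W W' V ψ n - z ^ n * ev m z
      - ∑' l, ((coeff l (m - m0 y W W') : ℝ) : ℂ) * H6D z ψ (n + l) := by
      rw [e5]; ring
    rw [e6]
    unfold H6D
    ring
  rw [e4]
  have b5 : ‖z ^ n * (ev m z - (2 - phi))‖ ≤ 1 / 10 ^ 5 := by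
    rw [norm_mul]
    calc ‖z ^ n‖ * ‖ev m z - (2 - phi)‖ ≤ 1 * (1 / 10 ^ 5) :=
          mul_le_mul (hzp n) (H6_ev g h ad) (norm_nonneg _) zero_le_one
      _ = 1 / 10 ^ 5 := one_mul _
  refine (norm_add_le _ _).trans ((add_le_add ((norm_add_le _ _).trans (add_le_add hw b5)) b3).trans ?_)
  norm_num

/-- value of the sum against `m0` -/
theorem H6_split {y' y W W' V : ℕ} (g : Geo y' y W W' V) {f : ℕ → ℂ} {B B3 B6 : ℝ}
    (hB : ∀ l, ‖f l‖ ≤ B) (hB3 : 0 ≤ B3) (hB6 : 0 ≤ B6)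
    (h3 : ∀ l, 3 * y - mid W W' ≤ l → l ≤ 3 * y + mid W W' → ‖f l‖ ≤ B3)
    (h6 : ∀ l, 6 * y - 2 * mid W W' ≤ l → l ≤ 6 * y + 2 * mid W W' → ‖f l‖ ≤ B6)
    (h9 : ∀ l, 9 * y - 3 * mid W W' ≤ l → f l = 0) :
    ‖∑' l, ((coeff l (m0 y W W') : ℝ) : ℂ) * f l‖ ≤ 1.315 * B3 + 4.64 * B6 := by
  have hB0 : 0 ≤ B := (norm_nonneg _).trans (hB 0)
  obtain ⟨s3, b3⟩ := H6_aux1 (f := f) (M3_bd g) hB3 (fun l hl => by
    obtain ⟨h1, h2⟩ := M3_supp g l hl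
    exact h3 l h1 h2)
  obtain ⟨s6, b6⟩ := H6_aux1 (f := f) (M6_bd g) hB6 (fun l hl => by
    obtain ⟨h1, h2⟩ := M6_supp g l hl
    exact h6 l h1 h2)
  have h9bd : Bd 1 (m0 y W W' - M3 y W W' - M6 y W W') (29.9 + 1.315 + 4.64) :=
    Bd_sub zero_le_one (Bd_sub zero_le_one (D13 g (Adm_one (y := y))) (M3_bd g)) (M6_bd g)
  obtain ⟨s9, b9⟩ := H6_aux1 (f := f) h9bd le_rfl (fun l hl => by
    have : 9 * y - 3 * mid W W' ≤ l := by
      by_contra hcon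
      exact hl (M9_low g l (by omega))
    rw [h9 l this, norm_zero])
  rw [mul_zero] at b9
  have e : m0 y W W' = (m0 y W W' - M3 y W W' - M6 y W W') + (M3 y W W' + M6 y W W') := by
    ring
  have s36 : Summable (fun l => ((coeff l (M3 y W W' + M6 y W W') : ℝ) : ℂ) * f l) := by
    have := s3.add s6
    refine this.congr (fun l => ?_)
    rw [map_add]
    push_cast
    ring
  rw [e, H6_aux2 s9 s36, H6_aux2 s3 s6]
  refine (norm_add_le _ _).trans ?_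
  have := norm_add_le (∑' l, ((coeff l (M3 y W W') : ℝ) : ℂ) * f l)
    (∑' l, ((coeff l (M6 y W W') : ℝ) : ℂ) * f l)
  linarith

theorem psi_one : ∃ C : ℝ, 1 ≤ C ∧ ∀ (Λ : ℝ) (y'' y' y W W' V : ℕ) (a00 a0 : PS) (φ' : ℝ) (z : ℂ)
    (ψ : ℕ → ℂ), C ≤ Λ → TD Λ y'' y' y W W' V a00 a0 φ' → Adj a0 y W W' V z ψ →
    1 ≤ ‖ψ (y + V)‖ := by
  obtain ⟨C1, hC1, halg⟩ := w_alg
  obtain ⟨C2, hC2, habs⟩ := psi_abs
  refine ⟨10 ^ 4 * C1 + C2, by nlinarith, ?_⟩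
  intro Λ y'' y' y W W' V a00 a0 φ' z ψ hΛ td ad
  have g := td.geo
  have h := td.inn
  have hy := g.y_pos
  have hyR : (0 : ℝ) < y := by exact_mod_cast hy
  have hz1 : ‖z‖ ≤ 1 := (ad.rt.lt_one hy).le
  have hzp : ∀ k, ‖z ^ k‖ ≤ 1 := fun k => by
    rw [norm_pow]
    exact pow_le_one₀ (norm_nonneg _) hz1
  have hp : ∀ n, y + V ≤ n → ‖ψ n‖ ≤ 10 ^ 20 :=
    habs Λ y'' y' y W W' V a00 a0 φ' z ψ (by nlinarith) td ad
  have hΛ0 : 0 < Λ := by nlinarith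
  have hw : ∀ n, y + V ≤ n →
      ‖(2 * ((Cum (aF a0 y W W' V) n : ℝ) : ℂ) - phi) * ψ n - wf a0 y W W' V ψ n‖ ≤ 1 / 10 ^ 4 := by
    intro n hn
    refine (halg Λ y'' y' y W W' V a00 a0 φ' z ψ td ad n hn).trans ?_
    rw [div_le_div_iff₀ hΛ0 (by norm_num)]
    nlinarith
  have hD : ∀ k, y + V ≤ k → ‖H6D z ψ k‖ ≤ 10 ^ 20 + 1 := fun k hk =>
    (norm_sub_le _ _).trans (add_le_add (hp k hk) (hzp k))
  have hDz : ∀ k, N0 y ≤ k → H6D z ψ k = 0 := fun k hk => by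
    unfold H6D
    rw [ad.tail k hk, sub_self]
  have hmid : 10 ^ 6 * mid W W' ≤ y := by exact_mod_cast g.mid_le.2
  have hV : 10 ^ 6 * V ≤ y := g.V_small
  have hphi := phi_bd
  have hq1 := q1_bd
  have hq3 := q3_bd
  have hff : 0 < ff := ff_pos
  have hff1 : ff ≤ 1 / 10 ^ 10 := by
    unfold ff
    norm_num
  have hbas := fun {n : ℕ} (hn : y + V ≤ n) => H6_basic g h ad hp hn (hw n hn)
  unfold N0 at hDz

  have near7 : ∀ n, 34 * y ≤ 5 * n → 5 * n ≤ 36 * y → ‖H6D z ψ n‖ ≤ 0.0826 := by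
    intro n h1 h2
    have hn : y + V ≤ n := by omega
    have b1 := hbas hn
    have b2 := H6_split g (f := fun l => H6D z ψ (n + l)) (B := 10 ^ 20 + 1) (B3 := 0) (B6 := 0)
      (fun l => hD (n + l) (by omega)) le_rfl le_rfl
      (fun l hl _ => by
        show ‖H6D z ψ (n + l)‖ ≤ 0
        rw [hDz (n + l) (by omega), norm_zero])
      (fun l hl _ => by
        show ‖H6D z ψ (n + l)‖ ≤ 0
        rw [hDz (n + l) (by omega), norm_zero])
      (fun l hl => hDz (n + l) (by omega))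
    rw [Cum_aF_p2 g h (n := n) (by omega) (by omega)] at b1
    have b3 : ‖(2 * ((1 - q3 : ℝ) : ℂ) - phi) * H6D z ψ n‖ ≤ 1 / 1000 + 2 * q3 := by
      have b4 : ‖(2 - 2 * ((1 - q3 : ℝ) : ℂ)) * z ^ n‖ ≤ 2 * q3 := by
        rw [norm_mul]
        have : (2 - 2 * ((1 - q3 : ℝ) : ℂ)) = ((2 * q3 : ℝ) : ℂ) := by push_cast; ring
        rw [this, Complex.norm_real, Real.norm_eq_abs, abs_of_nonneg (by linarith [hq3.1])]
        have := hzp n
        nlinarith [hq3.1]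
      have e : (2 * ((1 - q3 : ℝ) : ℂ) - phi) * H6D z ψ n =
        ((2 * ((1 - q3 : ℝ) : ℂ) - phi) * H6D z ψ n - (2 - 2 * ((1 - q3 : ℝ) : ℂ)) * z ^ n
          - ∑' l, ((coeff l (m0 y W W') : ℝ) : ℂ) * H6D z ψ (n + l))
        + (2 - 2 * ((1 - q3 : ℝ) : ℂ)) * z ^ n
        + ∑' l, ((coeff l (m0 y W W') : ℝ) : ℂ) * H6D z ψ (n + l) := by ring
      rw [e]
      refine (norm_add_le _ _).trans ?_
      have := norm_add_le ((2 * ((1 - q3 : ℝ) : ℂ) - phi) * H6D z ψ n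
          - (2 - 2 * ((1 - q3 : ℝ) : ℂ)) * z ^ n
          - ∑' l, ((coeff l (m0 y W W') : ℝ) : ℂ) * H6D z ψ (n + l))
        ((2 - 2 * ((1 - q3 : ℝ) : ℂ)) * z ^ n)
      linarith
    rw [norm_mul] at b3
    have e5 : (2 * ((1 - q3 : ℝ) : ℂ) - phi) = ((2 * (1 - q3) - phi : ℝ) : ℂ) := by push_cast; ring
    rw [e5, Complex.norm_real, Real.norm_eq_abs, abs_of_nonneg (by linarith [hq3.2, hphi.2])] at b3
    by_contra hcon
    push Not at hcon
    nlinarith [hq3.2, hphi.2, hq3.1]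

  have near4 : ∀ n, 39 * y ≤ 10 * n → 10 * n ≤ 41 * y → ‖H6D z ψ n‖ ≤ 0.783 := by
    intro n h1 h2
    have hn : y + V ≤ n := by omega
    have b1 := hbas hn
    have b2 := H6_split g (f := fun l => H6D z ψ (n + l)) (B := 10 ^ 20 + 1) (B3 := 0.0826)
      (B6 := 0) (fun l => hD (n + l) (by omega)) (by norm_num) le_rfl
      (fun l hl hl' => near7 (n + l) (by omega) (by omega))
      (fun l hl _ => by
        show ‖H6D z ψ (n + l)‖ ≤ 0
        rw [hDz (n + l) (by omega), norm_zero])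
      (fun l hl => hDz (n + l) (by omega))
    rw [Cum_aF_p1 g h (n := n) (by omega) (by omega)] at b1
    set Φ : ℝ := phi + ff + q1 with hΦ
    have b3 : ‖(2 * (Φ : ℂ) - phi) * H6D z ψ n‖ ≤
        1 / 1000 + (2 - 2 * Φ) + (1.315 * 0.0826 + 4.64 * 0) := by
      have b4 : ‖(2 - 2 * (Φ : ℂ)) * z ^ n‖ ≤ 2 - 2 * Φ := by
        rw [norm_mul]
        have : (2 - 2 * (Φ : ℂ)) = ((2 - 2 * Φ : ℝ) : ℂ) := by push_cast; ring
        have h0 : 0 ≤ 2 - 2 * Φ := by linarith [hq1.2, hphi.2]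
        rw [this, Complex.norm_real, Real.norm_eq_abs, abs_of_nonneg h0]
        have := hzp n
        nlinarith
      have e : (2 * (Φ : ℂ) - phi) * H6D z ψ n =
        ((2 * (Φ : ℂ) - phi) * H6D z ψ n - (2 - 2 * (Φ : ℂ)) * z ^ n
          - ∑' l, ((coeff l (m0 y W W') : ℝ) : ℂ) * H6D z ψ (n + l))
        + (2 - 2 * (Φ : ℂ)) * z ^ n
        + ∑' l, ((coeff l (m0 y W W') : ℝ) : ℂ) * H6D z ψ (n + l) := by ring
      rw [e]
      refine (norm_add_le _ _).trans ?_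
      have := norm_add_le ((2 * (Φ : ℂ) - phi) * H6D z ψ n
          - (2 - 2 * (Φ : ℂ)) * z ^ n
          - ∑' l, ((coeff l (m0 y W W') : ℝ) : ℂ) * H6D z ψ (n + l))
        ((2 - 2 * (Φ : ℂ)) * z ^ n)
      linarith
    rw [norm_mul] at b3
    have e5 : (2 * (Φ : ℂ) - phi) = ((2 * Φ - phi : ℝ) : ℂ) := by push_cast; ring
    rw [e5, Complex.norm_real, Real.norm_eq_abs,
      abs_of_nonneg (by linarith [hq1.1, hphi.1])] at b3
    by_contra hcon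
    push Not at hcon
    nlinarith [hq1.2, hphi.2, hq1.1, hphi.1]

  have hn : y + V ≤ y + V := le_rfl
  have b1 := hbas hn
  have b2 := H6_split g (f := fun l => H6D z ψ (y + V + l)) (B := 10 ^ 20 + 1) (B3 := 0.783)
    (B6 := 0.0826) (fun l => hD (y + V + l) (by omega)) (by norm_num) (by norm_num)
    (fun l hl hl' => near4 (y + V + l) (by omega) (by omega))
    (fun l hl hl' => near7 (y + V + l) (by omega) (by omega))
    (fun l hl => hDz (y + V + l) (by omega))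
  rw [Cum_aF_p0 g h (n := y + V) (by omega) (by omega)] at b1
  have hge := ad.rt.pow_ge hy (n := y + V) (by omega)
  rw [← norm_pow] at hge
  have e : (2 * ((phi + ff : ℝ) : ℂ) - phi) * ψ (y + V) =
      ((2 * ((phi + ff : ℝ) : ℂ) - phi) * H6D z ψ (y + V)
        - (2 - 2 * ((phi + ff : ℝ) : ℂ)) * z ^ (y + V)
        - ∑' l, ((coeff l (m0 y W W') : ℝ) : ℂ) * H6D z ψ (y + V + l))
      + ∑' l, ((coeff l (m0 y W W') : ℝ) : ℂ) * H6D z ψ (y + V + l)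
      + (2 - phi) * z ^ (y + V) := by
    unfold H6D
    ring
  have b6 : ‖(2 - (phi : ℂ)) * z ^ (y + V)‖ ≤ ‖(2 * ((phi + ff : ℝ) : ℂ) - phi) * ψ (y + V)‖
      + 1 / 1000 + (1.315 * 0.783 + 4.64 * 0.0826) := by
    have e7 : (2 - (phi : ℂ)) * z ^ (y + V) = (2 * ((phi + ff : ℝ) : ℂ) - phi) * ψ (y + V)
      - ((2 * ((phi + ff : ℝ) : ℂ) - phi) * H6D z ψ (y + V)
        - (2 - 2 * ((phi + ff : ℝ) : ℂ)) * z ^ (y + V)
        - ∑' l, ((coeff l (m0 y W W') : ℝ) : ℂ) * H6D z ψ (y + V + l))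
      - ∑' l, ((coeff l (m0 y W W') : ℝ) : ℂ) * H6D z ψ (y + V + l) := by
      rw [e]; ring
    rw [e7]
    refine (norm_sub_le _ _).trans ?_
    have := norm_sub_le ((2 * ((phi + ff : ℝ) : ℂ) - phi) * ψ (y + V))
      ((2 * ((phi + ff : ℝ) : ℂ) - phi) * H6D z ψ (y + V)
        - (2 - 2 * ((phi + ff : ℝ) : ℂ)) * z ^ (y + V)
        - ∑' l, ((coeff l (m0 y W W') : ℝ) : ℂ) * H6D z ψ (y + V + l))
    linarith
  rw [norm_mul, norm_mul] at b6
  have e8 : (2 - (phi : ℂ)) = ((2 - phi : ℝ) : ℂ) := by push_cast; ring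
  have e9 : (2 * ((phi + ff : ℝ) : ℂ) - phi) = ((phi + 2 * ff : ℝ) : ℂ) := by push_cast; ring
  rw [e8, e9, Complex.norm_real, Complex.norm_real, Real.norm_eq_abs, Real.norm_eq_abs,
    abs_of_nonneg (by linarith [hphi.2]), abs_of_nonneg (by linarith [hphi.1])] at b6
  by_contra hcon
  push Not at hcon
  have b7 : (2 - phi) * (99 / 100) ≤ (2 - phi) * ‖z ^ (y + V)‖ :=
    mul_le_mul_of_nonneg_left hge (by linarith [hphi.2])
  have b8 : (phi + 2 * ff) * ‖ψ (y + V)‖ ≤ (phi + 2 * ff) * 1 :=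
    mul_le_mul_of_nonneg_left hcon.le (by linarith [hphi.1])
  linarith [hphi.1, hphi.2]

end MP18
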