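import Pool.Agent.Lib.MP_18566a_pr.T.H6

set_option autoImplicit false

namespace MP18

open Finset PowerSeries

theorem H7_tele {f : ℕ → ℂ} {N : ℕ} {D : ℝ} (h : ∀ j, N ≤ j → ‖f (j + 1) - f j‖ ≤ D) (l : ℕ) :
    ∀ m, N ≤ m → ‖f (m + l) - f m‖ ≤ l * D := by
  intro m hm
  induction l with
  | zero => simp
  | succ l ih =>
    have h1 := h (m + l) (by omega)
    have e : f (m + (l + 1)) - f m = (f (m + l + 1) - f (m + l)) + (f (m + l) - f m) := by
      rw [← add_assoc]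
      ring
    rw [e]
    refine (norm_add_le _ _).trans ?_
    push_cast
    linarith

theorem H7_tsum_lin {A : PS} {C x B : ℝ} (hx : 0 < x) (hA : Bd (1 + x) A C) (hB : 0 ≤ B)
    {u : ℕ → ℂ} (hu : ∀ l, ‖u l‖ ≤ B * l) :
    ‖∑' l, ((coeff l A : ℝ) : ℂ) * u l‖ ≤ B * (C / x) := by
  have h1 : ∀ N, ∑ l ∈ range N, |coeff l A| * (l : ℝ) ≤ C / x := fun N => mom1 hx hA N
  have hs : Summable (fun l : ℕ => |coeff l A| * (l : ℝ)) :=
    summable_of_sum_range_le (fun l => mul_nonneg (abs_nonneg _) (Nat.cast_nonneg l)) h1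
  have ht : ∑' l : ℕ, |coeff l A| * (l : ℝ) ≤ C / x := hs.tsum_le_of_sum_range_le h1
  have hg : HasSum (fun l : ℕ => B * (|coeff l A| * (l : ℝ)))
      (B * ∑' l : ℕ, |coeff l A| * (l : ℝ)) := hs.hasSum.mul_left B
  refine (tsum_of_norm_bounded hg fun l => ?_).trans (mul_le_mul_of_nonneg_left ht hB)
  rw [norm_mul, Complex.norm_real, Real.norm_eq_abs]
  calc |coeff l A| * ‖u l‖ ≤ |coeff l A| * (B * l) :=
        mul_le_mul_of_nonneg_left (hu l) (abs_nonneg _)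
    _ = B * (|coeff l A| * l) := by ring

theorem H7_summ {A : PS} {C B : ℝ} (h : Bd 1 A C) {u : ℕ → ℂ} (hu : ∀ l, ‖u l‖ ≤ B) :
    Summable (fun l => ((coeff l A : ℝ) : ℂ) * u l) := by
  have h1 := ev_summable h (z := 1) (by simp)
  simp only [one_pow, mul_one] at h1
  refine Summable.of_norm_bounded (h1.mul_right B) fun l => ?_
  rw [norm_mul]
  exact mul_le_mul_of_nonneg_left (hu l) (norm_nonneg _)

theorem H7_ev1 (A : PS) : ∑' l, ((coeff l A : ℝ) : ℂ) = ev A 1 := by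
  unfold ev
  simp

theorem H7_kerone {y : ℕ} {a : PS} (h : LB y a) : ev (ker a) 1 = 1 := by
  have h1 : ker a = 1 + nab * kap (ker a) := by
    rw [nab_kap]
    ring
  have hB := h.kp 1 Adm_one
  have hn : Bd 1 nab (1 + 1) := Bd_nab zero_le_one
  rw [h1, ev_add (Bd_one zero_le_one) (Bd_mul zero_le_one hn hB) (by simp),
    ev_mul hn hB (by simp), ev_one, ev_nab]
  simp

/-- a convolution with values cut at `N` -/
theorem H7_cut {A : PS} {u : ℕ → ℂ} {n N : ℕ} (hn : n ≤ N) :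
    ∑' l, ((coeff l A : ℝ) : ℂ) * (if n + l < N then u (n + l) else 0)
      = ∑ l ∈ range (N - n), ((coeff l A : ℝ) : ℂ) * u (n + l) := by
  rw [tsum_eq_sum (s := range (N - n))]
  · refine sum_congr rfl fun l hl => ?_
    rw [mem_range] at hl
    rw [if_pos (by omega)]
  · intro l hl
    rw [mem_range, not_lt] at hl
    rw [if_neg (by omega), mul_zero]

theorem H7_eq {Λ : ℝ} {y'' y' y W W' V : ℕ} {a00 a0 : PS} {φ' : ℝ} {z : ℂ} {ψ : ℕ → ℂ}
    (td : TD Λ y'' y' y W W' V a00 a0 φ') (ad : Adj a0 y W W' V z ψ) {C1 C2 C3 : ℝ}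
    (hC3 : 0 ≤ C3)
    (h1 : ∀ n, y + V ≤ n → ‖ψ n‖ ≤ C1 ∧ ‖ψ (n + 1) - ψ n‖ ≤ C1 / y)
    (h2 : ‖(2 * ((Cum (aF a0 y W W' V) (y + V) : ℝ) : ℂ) - phi) * ψ (y + V)
      - wf a0 y W W' V ψ (y + V)‖ ≤ C2 / Λ)
    (h3 : ∀ j, V ≤ j → ‖wf a0 y W W' V ψ (j + 1) - wf a0 y W W' V ψ j‖ ≤ C3 / y)
    {n : ℕ} (hn1 : y ≤ n) (hn2 : n < y + V) :
    ‖2 * ((Cum (aF a0 y W W' V) n : ℝ) : ℂ) * (ψ n - ψ (y + V))
      - ((phi : ℝ) : ℂ) * ∑ l ∈ range (y + V - n),
        ((coeff l (ker a0) : ℝ) : ℂ) * (ψ (n + l) - ψ (y + V))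
      - 2 * (((phi : ℝ) : ℂ) + ((ff : ℝ) : ℂ) - ((Cum (aF a0 y W W' V) n : ℝ) : ℂ)) * ψ (y + V)‖
      ≤ (10 ^ 10 * C1 + C2 + C3) / Λ := by
  have g := td.geo
  have hy : 0 < y := g.y_pos
  have hyR : (0 : ℝ) < y := by exact_mod_cast hy
  have hy' : 0 < y' := g.pos
  have hy'R : (0 : ℝ) < y' := by exact_mod_cast hy'
  have hΛ : 0 < Λ := lt_of_lt_of_le (by unfold L0; positivity) td.hL
  have hC1 : 0 ≤ C1 := (norm_nonneg _).trans (h1 (y + V) le_rfl).1
  have hyy : (y' : ℝ) / y ≤ 1 / Λ := by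
    rw [div_le_div_iff₀ hyR hΛ]
    have := td.sep2
    linarith
  have hVy : V ≤ y' := g.V_le
  have hVyR : (V : ℝ) ≤ y' := by exact_mod_cast hVy
  have hyV : y' ≤ y := by
    have h := g.y'_le
    omega

  have hB : ∀ m, ‖ψ m‖ ≤ C1 + ∑ j ∈ range (y + V), ‖ψ j‖ := by
    intro m
    by_cases c : y + V ≤ m
    · have h5 : 0 ≤ ∑ j ∈ range (y + V), ‖ψ j‖ := sum_nonneg fun _ _ => norm_nonneg _
      have := (h1 m c).1
      linarith
    · have h5 : ‖ψ m‖ ≤ ∑ j ∈ range (y + V), ‖ψ j‖ :=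
        single_le_sum (f := fun j => ‖ψ j‖) (fun _ _ => norm_nonneg _)
          (mem_range.2 (not_le.1 c))
      linarith
  set B : ℝ := C1 + ∑ j ∈ range (y + V), ‖ψ j‖ with hBdef
  set P : ℂ := ψ (y + V) with hP
  set Φ : ℂ := ((Cum (aF a0 y W W' V) n : ℝ) : ℂ) with hΦ
  have hk0 : Bd 1 (ker a0) 38 := td.inn.lb.kn 1 Adm_one
  have hm : Bd 1 (ms a0 y W W' V + mt a0 y W W' V) (1200 + 1 / 10 ^ 49) :=
    Bd_add zero_le_one (D8a g td.inn Adm_one) (D9 g td.inn Adm_one)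
  have s1 : Summable (fun l => ((coeff l (ker a0) : ℝ) : ℂ) * ψ (n + l)) :=
    H7_summ hk0 fun l => hB (n + l)
  have s2 : Summable (fun l => ((coeff l (ms a0 y W W' V + mt a0 y W W' V) : ℝ) : ℂ) * ψ (n + l)) :=
    H7_summ hm fun l => hB (n + l)
  have e1 := ad.eqn n hn1
  have e2 : ∑' l, ((coeff l (ker (aF a0 y W W' V)) : ℝ) : ℂ) * ψ (n + l) =
      ((phi : ℝ) : ℂ) * ∑' l, ((coeff l (ker a0) : ℝ) : ℂ) * ψ (n + l) +
        wf a0 y W W' V ψ n := by
    have h4 : ∀ l, ((coeff l (ker (aF a0 y W W' V)) : ℝ) : ℂ) * ψ (n + l) =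
        ((phi : ℝ) : ℂ) * (((coeff l (ker a0) : ℝ) : ℂ) * ψ (n + l)) +
        ((coeff l (ms a0 y W W' V + mt a0 y W W' V) : ℝ) : ℂ) * ψ (n + l) := by
      intro l
      rw [D10 g td.inn, add_assoc, map_add, map_smul, smul_eq_mul, Complex.ofReal_add,
        Complex.ofReal_mul]
      ring
    rw [tsum_congr h4, (s1.mul_left _).tsum_add s2, tsum_mul_left]
    rfl

  have hχ : ∀ m, ‖ψ m - P‖ ≤ 2 * B := by
    intro m
    refine (norm_sub_le _ _).trans ?_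
    have h5 := hB m
    have h6 := hB (y + V)
    linarith
  have s3 : Summable (fun l => ((coeff l (ker a0) : ℝ) : ℂ) * (ψ (n + l) - P)) :=
    H7_summ hk0 fun l => hχ (n + l)
  have s4 : Summable (fun l => ((coeff l (ker a0) : ℝ) : ℂ) * P) :=
    H7_summ (u := fun _ => P) hk0 fun l => hB (y + V)
  have e3 : ∑' l, ((coeff l (ker a0) : ℝ) : ℂ) * ψ (n + l) =
      (∑' l, ((coeff l (ker a0) : ℝ) : ℂ) * (ψ (n + l) - P)) + P := by
    have h4 : ∀ l, ((coeff l (ker a0) : ℝ) : ℂ) * ψ (n + l) =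
        ((coeff l (ker a0) : ℝ) : ℂ) * (ψ (n + l) - P) + ((coeff l (ker a0) : ℝ) : ℂ) * P := by
      intro l
      ring
    rw [tsum_congr h4, s3.tsum_add s4, tsum_mul_right, H7_ev1, ev_ker_one td.inn, one_mul]

  set T : ℂ := ∑' l, ((coeff l (ker a0) : ℝ) : ℂ) *
    (if n + l < y + V then 0 else ψ (n + l) - P) with hT
  have hb1 : ∀ l, ‖(if n + l < y + V then ψ (n + l) - P else 0 : ℂ)‖ ≤ 2 * B := by
    intro l
    split_ifs
    · exact hχ _
    · rw [norm_zero]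
      exact (norm_nonneg _).trans (hχ 0)
  have hb2 : ∀ l, ‖(if n + l < y + V then 0 else ψ (n + l) - P : ℂ)‖ ≤ 2 * B := by
    intro l
    split_ifs
    · rw [norm_zero]
      exact (norm_nonneg _).trans (hχ 0)
    · exact hχ _
  have e4 : ∑' l, ((coeff l (ker a0) : ℝ) : ℂ) * (ψ (n + l) - P) =
      (∑ l ∈ range (y + V - n), ((coeff l (ker a0) : ℝ) : ℂ) * (ψ (n + l) - P)) + T := by
    have h4 : ∀ l, ((coeff l (ker a0) : ℝ) : ℂ) * (ψ (n + l) - P) =
        ((coeff l (ker a0) : ℝ) : ℂ) * (if n + l < y + V then ψ (n + l) - P else 0) +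
        ((coeff l (ker a0) : ℝ) : ℂ) * (if n + l < y + V then 0 else ψ (n + l) - P) := by
      intro l
      split_ifs <;> ring
    rw [tsum_congr h4, (H7_summ hk0 hb1).tsum_add (H7_summ hk0 hb2),
      H7_cut (u := fun m => ψ m - P) hn2.le]
  have hTn : ‖T‖ ≤ C1 / y * (38 / (1 / (10 ^ 8 * y'))) := by
    refine H7_tsum_lin (by positivity) (td.inn.lb.kn _ (Adm_R hy')) (by positivity) ?_
    intro l
    split_ifs with c
    · rw [norm_zero]
      positivity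
    · obtain ⟨i, hi⟩ := Nat.exists_eq_add_of_le (not_lt.1 c)
      rw [hi, hP]
      refine (H7_tele (f := ψ) (fun j hj => (h1 j hj).2) i (y + V) le_rfl).trans ?_
      rw [mul_comm]
      refine mul_le_mul_of_nonneg_left ?_ (by positivity)
      exact_mod_cast (by omega : i ≤ l)
  have hw : ‖wf a0 y W W' V ψ n - wf a0 y W W' V ψ (y + V)‖ ≤ C3 / Λ := by
    have h4 := H7_tele (f := wf a0 y W W' V ψ) h3 (y + V - n) n (by omega)
    rw [show n + (y + V - n) = y + V by omega] at h4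
    rw [norm_sub_rev]
    refine h4.trans ?_
    have h5 : ((y + V - n : ℕ) : ℝ) ≤ y' := by exact_mod_cast (by omega : y + V - n ≤ y')
    calc ((y + V - n : ℕ) : ℝ) * (C3 / y) ≤ y' * (C3 / y) :=
          mul_le_mul_of_nonneg_right h5 (by positivity)
      _ = C3 * (y' / y) := by ring
      _ ≤ C3 * (1 / Λ) := mul_le_mul_of_nonneg_left hyy hC3
      _ = C3 / Λ := by ring
  have hΦ2 : Cum (aF a0 y W W' V) (y + V) = phi + ff := by
    refine Cum_aF_p0 g td.inn (by omega) ?_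
    have h5 := g.V_small
    have h6 : 10 ^ 6 * mid W W' ≤ y := by exact_mod_cast g.mid_le.2
    omega
  rw [hΦ2] at h2
  have e5 : 2 * Φ * (ψ n - P) - ((phi : ℝ) : ℂ) * ∑ l ∈ range (y + V - n),
        ((coeff l (ker a0) : ℝ) : ℂ) * (ψ (n + l) - P)
      - 2 * (((phi : ℝ) : ℂ) + ((ff : ℝ) : ℂ) - Φ) * P =
      ((phi : ℝ) : ℂ) * T + (wf a0 y W W' V ψ n - wf a0 y W W' V ψ (y + V)) -
        ((2 * ((phi + ff : ℝ) : ℂ) - phi) * P - wf a0 y W W' V ψ (y + V)) := by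
    rw [e2, e3, e4] at e1
    push_cast
    linear_combination e1
  rw [e5]
  refine (norm_sub_le _ _).trans ?_
  have h8 := norm_add_le (((phi : ℝ) : ℂ) * T)
    (wf a0 y W W' V ψ n - wf a0 y W W' V ψ (y + V))
  rw [norm_mul, Complex.norm_real, Real.norm_eq_abs] at h8
  have hphi := phi_bd
  have h9 : |phi| * ‖T‖ ≤ 10 ^ 10 * C1 / Λ := by
    rw [abs_of_nonneg (by linarith [hphi.1])]
    have h10 : ‖T‖ ≤ 38 * 10 ^ 8 * (C1 / Λ) := by
      refine hTn.trans ?_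
      have h11 : C1 / y * (38 / (1 / (10 ^ 8 * (y' : ℝ)))) = 38 * 10 ^ 8 * (C1 * (y' / y)) := by
        field_simp
      rw [h11]
      have h12 : C1 * ((y' : ℝ) / y) ≤ C1 * (1 / Λ) := mul_le_mul_of_nonneg_left hyy hC1
      have h13 : C1 * (1 / Λ) = C1 / Λ := by ring
      linarith
    have h14 : 0 ≤ C1 / Λ := by positivity
    have h15 : 10 ^ 10 * C1 / Λ = 10 ^ 10 * (C1 / Λ) := by ring
    rw [h15]
    calc phi * ‖T‖ ≤ 1 * ‖T‖ :=
          mul_le_mul_of_nonneg_right (by linarith [hphi.2]) (norm_nonneg _)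
      _ ≤ 10 ^ 10 * (C1 / Λ) := by nlinarith
  have h16 : (10 ^ 10 * C1 + C2 + C3) / Λ = 10 ^ 10 * C1 / Λ + C3 / Λ + C2 / Λ := by ring
  rw [h16]
  linarith

/-- the comparison function -/
noncomputable def H7_ct (y V m : ℕ) : ℝ := if m < y + V then ff * ((y : ℝ) + V - 1 - m) / V else 0

theorem H7_ct_bd {y V m : ℕ} (hV : 0 < V) (hm : y ≤ m) : 0 ≤ H7_ct y V m ∧ H7_ct y V m ≤ ff := by
  unfold H7_ct
  have hVR : (0 : ℝ) < V := by exact_mod_cast hV
  have hff : 0 < ff := ff_pos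
  split_ifs with c
  · have h1 : (m : ℝ) + 1 ≤ y + V := by exact_mod_cast c
    have h2 : (y : ℝ) ≤ m := by exact_mod_cast hm
    constructor
    · apply div_nonneg (mul_nonneg hff.le (by linarith)) hVR.le
    · rw [div_le_iff₀ hVR]
      exact mul_le_mul_of_nonneg_left (by linarith) hff.le
  · exact ⟨le_rfl, hff.le⟩

theorem H7_ct_lip {y V n : ℕ} (hV : 0 < V) (hn : n < y + V) (l : ℕ) :
    |H7_ct y V n - H7_ct y V (n + l)| ≤ ff / V * l := by
  unfold H7_ct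
  have hVR : (0 : ℝ) < V := by exact_mod_cast hV
  have hff : 0 < ff := ff_pos
  rw [if_pos hn]
  split_ifs with c
  · have e : ff * ((y : ℝ) + V - 1 - n) / V - ff * ((y : ℝ) + V - 1 - ((n + l : ℕ) : ℝ)) / V =
        ff / V * l := by
      push_cast
      field_simp
      ring
    rw [e, abs_of_nonneg (by positivity)]
  · have h1 : (n : ℝ) + 1 ≤ y + V := by exact_mod_cast hn
    have h2 : (y : ℝ) + V ≤ n + l := by exact_mod_cast not_lt.1 c
    rw [sub_zero, abs_of_nonneg (div_nonneg (mul_nonneg hff.le (by linarith)) hVR.le)]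
    have e : ff * ((y : ℝ) + V - 1 - n) / V = ff / V * ((y : ℝ) + V - 1 - n) := by ring
    rw [e]
    exact mul_le_mul_of_nonneg_left (by linarith) (by positivity)

/-- the defect of the comparison function -/
theorem H7_R {y'' y V n : ℕ} {a00 : PS} (h : LB y'' a00) (hy'' : 0 < y'') (hV : 0 < V)
    (hn : y ≤ n) (hn2 : n < y + V) :
    ‖((H7_ct y V n : ℝ) : ℂ) - ∑ l ∈ range (y + V - n),
      ((coeff l (ker a00) : ℝ) : ℂ) * ((H7_ct y V (n + l) : ℝ) : ℂ)‖ ≤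
      ff / V * (38 / (1 / (10 ^ 8 * y''))) := by
  have hVR : (0 : ℝ) < V := by exact_mod_cast hV
  have hyR : (0 : ℝ) < y'' := by exact_mod_cast hy''
  have hff : 0 < ff := ff_pos
  have hk : Bd 1 (ker a00) 38 := h.kn 1 Adm_one
  have hb : ∀ m, y ≤ m → ‖((H7_ct y V m : ℝ) : ℂ)‖ ≤ ff := by
    intro m hm
    rw [Complex.norm_real, Real.norm_eq_abs, abs_of_nonneg (H7_ct_bd hV hm).1]
    exact (H7_ct_bd hV hm).2
  have s1 : Summable (fun l => ((coeff l (ker a00) : ℝ) : ℂ) * ((H7_ct y V n : ℝ) : ℂ)) :=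
    H7_summ (u := fun _ => ((H7_ct y V n : ℝ) : ℂ)) hk fun _ => hb n hn
  have s2 : Summable (fun l => ((coeff l (ker a00) : ℝ) : ℂ) * ((H7_ct y V (n + l) : ℝ) : ℂ)) :=
    H7_summ (u := fun l => ((H7_ct y V (n + l) : ℝ) : ℂ)) hk fun l => hb (n + l) (by omega)
  have e1 : ∑ l ∈ range (y + V - n),
      ((coeff l (ker a00) : ℝ) : ℂ) * ((H7_ct y V (n + l) : ℝ) : ℂ) =
      ∑' l, ((coeff l (ker a00) : ℝ) : ℂ) * ((H7_ct y V (n + l) : ℝ) : ℂ) := by
    rw [← H7_cut (u := fun m => ((H7_ct y V m : ℝ) : ℂ)) hn2.le]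
    refine tsum_congr fun l => ?_
    split_ifs with c
    · rfl
    · congr 1
      unfold H7_ct
      rw [if_neg c, Complex.ofReal_zero]
  have e2 : ((H7_ct y V n : ℝ) : ℂ) =
      ∑' l, ((coeff l (ker a00) : ℝ) : ℂ) * ((H7_ct y V n : ℝ) : ℂ) := by
    rw [tsum_mul_right, H7_ev1, H7_kerone h, one_mul]
  rw [e1, e2, ← s1.tsum_sub s2]
  have e3 : ∀ l, ((coeff l (ker a00) : ℝ) : ℂ) * ((H7_ct y V n : ℝ) : ℂ) -
      ((coeff l (ker a00) : ℝ) : ℂ) * ((H7_ct y V (n + l) : ℝ) : ℂ) =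
      ((coeff l (ker a00) : ℝ) : ℂ) * ((H7_ct y V n - H7_ct y V (n + l) : ℝ) : ℂ) := by
    intro l
    push_cast
    ring
  rw [tsum_congr e3]
  refine H7_tsum_lin (by positivity) (h.kn _ (Adm_R hy'')) (by positivity) ?_
  intro l
  rw [Complex.norm_real, Real.norm_eq_abs]
  exact H7_ct_lip hV hn2 l

theorem psi_win : ∃ C : ℝ, 1 ≤ C ∧ ∀ (Λ : ℝ) (y'' y' y W W' V : ℕ) (a00 a0 : PS) (φ' : ℝ) (z : ℂ)
    (ψ : ℕ → ℂ), C ≤ Λ → TD Λ y'' y' y W W' V a00 a0 φ' → Adj a0 y W W' V z ψ →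
    ∀ n, y ≤ n → n < y + V → ‖ψ n - ψ (y + V)‖ ≤ 12 * ff * ‖ψ (y + V)‖ := by
  obtain ⟨C1, hC1, b1⟩ := psi_bds
  obtain ⟨C2, hC2, b2⟩ := w_alg
  obtain ⟨C3, hC3, b3⟩ := w_bds
  obtain ⟨C4, hC4, b4⟩ := psi_one
  refine ⟨C4 + 10 ^ 143 + 10 ^ 190 * (10 ^ 10 * C1 + C2 + C3), ?_, ?_⟩
  · have : (0 : ℝ) ≤ 10 ^ 190 * (10 ^ 10 * C1 + C2 + C3) := by positivity
    have h0 : (0 : ℝ) ≤ 10 ^ 143 := by positivity
    linarith
  intro Λ y'' y' y W W' V a00 a0 φ' z ψ hΛC td ad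
  set C' : ℝ := 10 ^ 10 * C1 + C2 + C3 with hC'
  have hC'0 : 0 ≤ C' := by positivity
  have g := td.geo
  have hV : 0 < V := g.Vpos
  have hVR : (0 : ℝ) < V := by exact_mod_cast hV
  have hy'' : 0 < y'' := td.pos''
  have hy''R : (0 : ℝ) < y'' := by exact_mod_cast hy''
  have hy'R : (0 : ℝ) < y' := by exact_mod_cast g.pos
  have hΛ4 : C4 ≤ Λ := by
    have h0 : (0 : ℝ) ≤ 10 ^ 143 := by positivity
    have : (0 : ℝ) ≤ 10 ^ 190 * C' := by positivity
    linarith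
  have hΛ1 : (10 : ℝ) ^ 143 ≤ Λ := by
    have : (0 : ℝ) ≤ 10 ^ 190 * C' := by positivity
    linarith
  have hΛ2 : 10 ^ 190 * C' ≤ Λ := by
    have h0 : (0 : ℝ) ≤ 10 ^ 143 := by positivity
    linarith
  have hΛ : 0 < Λ := lt_of_lt_of_le (by positivity) hΛ1
  have hff : 0 < ff := ff_pos
  have hphi := phi_bd
  have hphi0 : 0 < phi := by linarith [hphi.1]
  set P : ℂ := ψ (y + V) with hP
  have hP1 : 1 ≤ ‖P‖ := b4 Λ y'' y' y W W' V a00 a0 φ' z ψ hΛ4 td ad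
  have hE : ∀ n, y ≤ n → n < y + V → _ := fun n hn1 hn2 =>
    H7_eq td ad (by linarith : (0 : ℝ) ≤ C3)
      (fun n hn => ⟨(b1 y' y W W' V a0 z ψ g td.inn ad n hn).1,
        (b1 y' y W W' V a0 z ψ g td.inn ad n hn).2.1⟩)
      (b2 Λ y'' y' y W W' V a00 a0 φ' z ψ td ad (y + V) le_rfl)
      (fun j hj => (b3 y' y W W' V a0 z ψ g td.inn ad j hj).2.1) hn1 hn2
  have hφ0 := td.φ0
  have hφ1 := td.φ1
  set dd : ℝ := phi * (2 - φ') with hdd
  have hdd1 : 0.3732 ≤ dd := by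
    have h5 : 1.79170108 ≤ 2 - φ' := by linarith [hphi.2]
    have h6 : 0.20829890 * 1.79170108 ≤ phi * (2 - φ') :=
      mul_le_mul hphi.1 h5 (by norm_num) hphi0.le
    linarith
  have hdd0 : 0 < dd := by linarith
  set α : ℂ := 2 * P / (dd : ℂ) with hα
  have hαn : ‖α‖ ≤ 5.37 * ‖P‖ := by
    rw [hα, norm_div, norm_mul, Complex.norm_real, Real.norm_eq_abs, abs_of_pos hdd0,
      Complex.norm_ofNat, div_le_iff₀ hdd0]
    nlinarith [norm_nonneg P]
  have hαd : α * (dd : ℂ) = 2 * P := by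
    rw [hα]
    exact div_mul_cancel₀ _ (by exact_mod_cast hdd0.ne')

  have hΦ : ∀ n, y ≤ n → n < y + V → Cum (aF a0 y W W' V) n = phi + ff - H7_ct y V n := by
    intro n hn1 hn2
    rw [Cum_aF_trig g td.inn hn1 hn2]
    unfold H7_ct
    rw [if_pos hn2]
    field_simp
    ring
  set u : ℕ → ℂ := fun m => ψ m - P - α * ((H7_ct y V m : ℝ) : ℂ) with hu
  set G : ℝ := (C' / Λ + 2 * (5.37 * ‖P‖) * ff * ff + 5.37 * ‖P‖ * (ff * (10 ^ 93 / Λ))) / phi
    with hG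
  have key : ∀ n, y ≤ n → n < y + V → ‖u n‖ ≤ 2 * A1 * G := by
    refine SP_backward (κ := φ' • ker a00) (c := 9 / 10) (A := A1) (td.lb00.s1 φ' hφ0 hφ1)
      (by unfold A1; positivity) (n1 := y) (n2 := y + V)
      (cf := fun n => Cum (aF a0 y W W' V) n / phi) (u := u)
      (g := fun n => 2 * ((Cum (aF a0 y W W' V) n / phi : ℝ) : ℂ) * u n -
        ∑ l ∈ range (y + V - n), ((coeff l (φ' • ker a00) : ℝ) : ℂ) * u (n + l)) (G := G)
      ?_ (fun n _ _ => rfl) ?_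
    · intro n hn1 hn2
      show 9 / 10 ≤ Cum (aF a0 y W W' V) n / phi
      rw [le_div_iff₀ hphi0, hΦ n hn1 hn2]
      have := (H7_ct_bd hV hn1).2
      linarith
    · intro n hn1 hn2
      show ‖2 * ((Cum (aF a0 y W W' V) n / phi : ℝ) : ℂ) * u n -
        ∑ l ∈ range (y + V - n), ((coeff l (φ' • ker a00) : ℝ) : ℂ) * u (n + l)‖ ≤ G
      have hEn := hE n hn1 hn2
      have hRn := H7_R td.lb00 hy'' hV hn1 hn2
      have hc0 := (H7_ct_bd (m := n) hV hn1).1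
      have hc1 := (H7_ct_bd (m := n) hV hn1).2
      rw [hΦ n hn1 hn2] at hEn ⊢
      set c : ℝ := H7_ct y V n with hc
      set R : ℂ := ((c : ℝ) : ℂ) - ∑ l ∈ range (y + V - n),
        ((coeff l (ker a00) : ℝ) : ℂ) * ((H7_ct y V (n + l) : ℝ) : ℂ) with hR
      set E : ℂ := 2 * ((phi + ff - c : ℝ) : ℂ) * (ψ n - ψ (y + V))
        - ((phi : ℝ) : ℂ) * ∑ l ∈ range (y + V - n),
          ((coeff l (ker a0) : ℝ) : ℂ) * (ψ (n + l) - ψ (y + V))
        - 2 * (((phi : ℝ) : ℂ) + ((ff : ℝ) : ℂ) - ((phi + ff - c : ℝ) : ℂ)) * ψ (y + V) with hEdef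
      have hsum1 : ∑ l ∈ range (y + V - n), ((coeff l (ker a0) : ℝ) : ℂ) * (ψ (n + l) - P) =
          ∑ l ∈ range (y + V - n), ((coeff l (φ' • ker a00) : ℝ) : ℂ) * (ψ (n + l) - P) := by
        refine sum_congr rfl fun l hl => ?_
        rw [mem_range] at hl
        have hVy := g.V_le
        rw [td.win l (by omega), map_smul, smul_eq_mul]
      have hsum2 : ∑ l ∈ range (y + V - n), ((coeff l (φ' • ker a00) : ℝ) : ℂ) * u (n + l) =
          ∑ l ∈ range (y + V - n), ((coeff l (ker a0) : ℝ) : ℂ) * (ψ (n + l) - P) -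
          α * φ' * (((c : ℝ) : ℂ) - R) := by
        rw [hsum1, hR, sub_sub_cancel, mul_sum, ← sum_sub_distrib]
        refine sum_congr rfl fun l _ => ?_
        rw [map_smul, smul_eq_mul, hu]
        push_cast
        ring
      have hfin : ((phi : ℝ) : ℂ) * (2 * (((phi + ff - c) / phi : ℝ) : ℂ) * u n -
          ∑ l ∈ range (y + V - n), ((coeff l (φ' • ker a00) : ℝ) : ℂ) * u (n + l)) =
          E - 2 * α * ((ff - c : ℝ) : ℂ) * ((c : ℝ) : ℂ) -
            α * ((phi * φ' : ℝ) : ℂ) * R := by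
        have hp : ((phi : ℝ) : ℂ) ≠ 0 := by exact_mod_cast hphi0.ne'
        have hun : u n = ψ n - P - α * ((c : ℝ) : ℂ) := rfl
        rw [hsum2, hun, hEdef]
        rw [hdd] at hαd
        push_cast at hαd ⊢
        field_simp
        linear_combination (-((c : ℝ) : ℂ)) * hαd
      have hnorm : phi * ‖2 * (((phi + ff - c) / phi : ℝ) : ℂ) * u n -
          ∑ l ∈ range (y + V - n), ((coeff l (φ' • ker a00) : ℝ) : ℂ) * u (n + l)‖ ≤
          C' / Λ + 2 * (5.37 * ‖P‖) * ff * ff + 5.37 * ‖P‖ * (ff * (10 ^ 93 / Λ)) := by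
        have h5 : phi * ‖2 * (((phi + ff - c) / phi : ℝ) : ℂ) * u n -
          ∑ l ∈ range (y + V - n), ((coeff l (φ' • ker a00) : ℝ) : ℂ) * u (n + l)‖ =
          ‖((phi : ℝ) : ℂ) * (2 * (((phi + ff - c) / phi : ℝ) : ℂ) * u n -
          ∑ l ∈ range (y + V - n), ((coeff l (φ' • ker a00) : ℝ) : ℂ) * u (n + l))‖ := by
          rw [norm_mul, Complex.norm_real, Real.norm_eq_abs, abs_of_pos hphi0]
        rw [h5, hfin]
        refine (norm_sub_le _ _).trans (add_le_add ((norm_sub_le _ _).trans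
          (add_le_add hEn ?_)) ?_)
        · rw [norm_mul, norm_mul, norm_mul, Complex.norm_real, Complex.norm_real,
            Real.norm_eq_abs, Real.norm_eq_abs, abs_of_nonneg hc0,
            abs_of_nonneg (by linarith : (0 : ℝ) ≤ ff - c), Complex.norm_ofNat]
          have t1 : 2 * ‖α‖ ≤ 2 * (5.37 * ‖P‖) := by linarith
          have t2 : 0 ≤ 2 * (5.37 * ‖P‖) := by positivity
          exact mul_le_mul (mul_le_mul t1 (by linarith) (by linarith) t2) hc1 hc0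
            (mul_nonneg t2 hff.le)
        · rw [norm_mul, norm_mul, Complex.norm_real, Real.norm_eq_abs,
            abs_of_nonneg (mul_nonneg hphi0.le hφ0)]
          have t1 : phi * φ' ≤ 1 := by nlinarith [hphi.2]
          have t2 : ff / V * (38 / (1 / (10 ^ 8 * (y'' : ℝ)))) ≤ ff * (10 ^ 93 / Λ) := by
            have t3 : ff / V * (38 / (1 / (10 ^ 8 * (y'' : ℝ)))) =
                ff * (38 * 10 ^ 8 * (y'' / V)) := by
              field_simp
            rw [t3]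
            refine mul_le_mul_of_nonneg_left ?_ hff.le
            have t4 : (y'' : ℝ) / V ≤ 10 ^ 83 / Λ := by
              rw [div_le_div_iff₀ hVR hΛ]
              have t5 := g.Vlo
              have t6 := td.sep1
              have t7 : (y' : ℝ) ≤ 10 ^ 83 * V := by
                have : (y' : ℝ) = 10 ^ 83 * (vv * y') := by
                  unfold vv
                  field_simp
                rw [this]
                exact mul_le_mul_of_nonneg_left t5 (by positivity)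
              linarith
            have t8 : (10 : ℝ) ^ 93 / Λ = 10 ^ 10 * (10 ^ 83 / Λ) := by
              rw [← mul_div_assoc, ← pow_add]
            have t9 : (0 : ℝ) ≤ 10 ^ 83 / Λ := by positivity
            rw [t8]
            nlinarith
          have t10 : ‖R‖ ≤ ff * (10 ^ 93 / Λ) := hRn.trans t2
          calc ‖α‖ * (phi * φ') * ‖R‖ ≤ 5.37 * ‖P‖ * 1 * (ff * (10 ^ 93 / Λ)) :=
                mul_le_mul (mul_le_mul hαn t1 (mul_nonneg hphi0.le hφ0) (by positivity)) t10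
                  (norm_nonneg _) (by positivity)
            _ = 5.37 * ‖P‖ * (ff * (10 ^ 93 / Λ)) := by ring
      rw [hG, le_div_iff₀ hphi0, mul_comm]
      exact hnorm
  intro n hn1 hn2
  have h5 := key n hn1 hn2
  have h6 : 2 * A1 * G ≤ ff * ‖P‖ := by
    have t0 : 2 * A1 * G = (2 * A1 / phi) * (C' / Λ + 2 * (5.37 * ‖P‖) * ff * ff +
        5.37 * ‖P‖ * (ff * (10 ^ 93 / Λ))) := by
      rw [hG]
      ring
    have t1 : 2 * A1 / phi ≤ 10 ^ 48 := by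
      rw [div_le_iff₀ hphi0]
      unfold A1
      have : (10 : ℝ) ^ 48 = 10 * 10 ^ 47 := by norm_num
      rw [this]
      have h10 : (0 : ℝ) < 10 ^ 47 := by positivity
      nlinarith [hphi.1]
    have hPn : 0 ≤ ‖P‖ := norm_nonneg P
    have t2 : 10 ^ 48 * (C' / Λ) ≤ ff * ‖P‖ / 4 := by
      have t3 : C' / Λ ≤ 1 / 10 ^ 190 := by
        rw [div_le_div_iff₀ hΛ (by positivity)]
        linarith
      have t4 : (10 : ℝ) ^ 48 * (1 / 10 ^ 190) ≤ ff / 4 := by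
        unfold ff
        norm_num
      have t5 : 10 ^ 48 * (C' / Λ) ≤ 10 ^ 48 * (1 / 10 ^ 190) :=
        mul_le_mul_of_nonneg_left t3 (by positivity)
      have t6 : ff / 4 ≤ ff * ‖P‖ / 4 := by nlinarith
      linarith
    have t7 : 10 ^ 48 * (2 * (5.37 * ‖P‖) * ff * ff) ≤ ff * ‖P‖ / 4 := by
      have t8 : (10 : ℝ) ^ 48 * (2 * 5.37 * ff) ≤ 1 / 4 := by
        unfold ff
        norm_num
      have t9 : 10 ^ 48 * (2 * (5.37 * ‖P‖) * ff * ff) =
          (10 ^ 48 * (2 * 5.37 * ff)) * (ff * ‖P‖) := by ring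
      have t10 : 0 ≤ ff * ‖P‖ := by positivity
      rw [t9]
      nlinarith
    have t11 : 10 ^ 48 * (5.37 * ‖P‖ * (ff * (10 ^ 93 / Λ))) ≤ ff * ‖P‖ / 4 := by
      have t12 : (10 : ℝ) ^ 48 * (5.37 * (10 ^ 93 / Λ)) ≤ 1 / 4 := by
        have t13 : (10 : ℝ) ^ 93 / Λ ≤ 10 ^ 93 / 10 ^ 143 :=
          div_le_div_of_nonneg_left (by positivity) (by positivity) hΛ1
        have t14 : (10 : ℝ) ^ 48 * (5.37 * (10 ^ 93 / 10 ^ 143)) ≤ 1 / 4 := by norm_num
        have t15 : (10 : ℝ) ^ 48 * (5.37 * (10 ^ 93 / Λ)) ≤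
            10 ^ 48 * (5.37 * (10 ^ 93 / 10 ^ 143)) :=
          mul_le_mul_of_nonneg_left (mul_le_mul_of_nonneg_left t13 (by norm_num)) (by positivity)
        linarith
      have t16 : 10 ^ 48 * (5.37 * ‖P‖ * (ff * (10 ^ 93 / Λ))) =
          (10 ^ 48 * (5.37 * (10 ^ 93 / Λ))) * (ff * ‖P‖) := by ring
      have t17 : 0 ≤ ff * ‖P‖ := by positivity
      rw [t16]
      nlinarith
    have t18 : 0 ≤ C' / Λ + 2 * (5.37 * ‖P‖) * ff * ff + 5.37 * ‖P‖ * (ff * (10 ^ 93 / Λ)) := by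
      positivity
    rw [t0]
    have t19 := mul_le_mul_of_nonneg_right t1 t18
    have t20 : 0 ≤ ff * ‖P‖ := by positivity
    linarith
  have h7 : ψ n - P = u n + α * ((H7_ct y V n : ℝ) : ℂ) := by
    rw [hu]
    ring
  have h8 : ‖α * ((H7_ct y V n : ℝ) : ℂ)‖ ≤ 5.37 * ‖P‖ * ff := by
    rw [norm_mul, Complex.norm_real, Real.norm_eq_abs, abs_of_nonneg (H7_ct_bd hV hn1).1]
    exact mul_le_mul hαn (H7_ct_bd hV hn1).2 (H7_ct_bd hV hn1).1 (by positivity)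
  rw [h7]
  refine (norm_add_le _ _).trans ?_
  have h9 : 0 ≤ ff * ‖P‖ := by positivity
  linarith

end MP18
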