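import Pool.Agent.Lib.MP_18566a_pr.T.H7

set_option autoImplicit false

namespace MP18

open Finset PowerSeries

/-- cumulative sums of a function -/
noncomputable def csum (d : ℕ → ℝ) (n : ℕ) : ℝ := ∑ j ∈ range (n + 1), d j

noncomputable def AN (a0 : PS) (y W W' V : ℕ) (ψ : ℕ → ℂ) (D : ℕ → ℝ) (N : ℕ) : ℂ :=
  ∑ j ∈ range N, (D j : ℂ)
    * ∑' l, ((coeff (N - j + l) (ker (aF a0 y W W' V)) : ℝ) : ℂ) * ψ (N + l)

theorem I1_aux1 {A : PS} {C : ℝ} (h : Bd 1 A C) (N : ℕ) : ∑ n ∈ range N, |coeff n A| ≤ C := by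
  have := h N
  simpa using this

theorem I1_aux2 {A : PS} {C : ℝ} (h : Bd 1 A C) : Summable fun n => |coeff n A| :=
  summable_of_sum_range_le (fun _ => abs_nonneg _) (I1_aux1 h)

theorem I1_aux3 {y' y W W' V : ℕ} (g : Geo y' y W W' V) : 0 < y := by
  have h1 : (1 : ℝ) ≤ y' := by exact_mod_cast g.pos
  have h2 := g.sep
  have h3 : (1 : ℝ) ≤ L0 := by
    unfold L0
    exact one_le_pow₀ (by norm_num)
  have : (0 : ℝ) < y := by nlinarith
  exact_mod_cast this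

theorem I1_aux4 {a0 : PS} {y W W' V : ℕ} {z : ℂ} {ψ : ℕ → ℂ} (hy : 0 < y)
    (hA : Adj a0 y W W' V z ψ) : ∃ B : ℝ, ∀ n, ‖ψ n‖ ≤ B := by
  refine ⟨∑ n ∈ range (N0 y), ‖ψ n‖ + 1, fun n => ?_⟩
  by_cases hn : N0 y ≤ n
  · rw [hA.tail n hn, norm_pow]
    have h1 := hA.rt.lt_one hy
    have h2 : ‖z‖ ^ n ≤ 1 := pow_le_one₀ (norm_nonneg _) h1.le
    have h3 : 0 ≤ ∑ n ∈ range (N0 y), ‖ψ n‖ := Finset.sum_nonneg fun _ _ => norm_nonneg _
    linarith
  · have h1 := Finset.single_le_sum (f := fun n => ‖ψ n‖) (fun i _ => norm_nonneg _)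
      (Finset.mem_range.2 (not_le.1 hn))
    linarith

theorem I1_aux5 {k : PS} {ψ : ℕ → ℂ} {B : ℝ} (hk : Summable fun n => |coeff n k|)
    (hB : ∀ n, ‖ψ n‖ ≤ B) (c M : ℕ) :
    Summable fun l => ((coeff (c + l) k : ℝ) : ℂ) * ψ (M + l) := by
  have h1 : Summable fun l => |coeff (c + l) k| := by
    have := (summable_nat_add_iff c).2 hk
    refine this.congr fun l => ?_
    rw [Nat.add_comm]
  refine Summable.of_norm_bounded (g := fun l => |coeff (c + l) k| * B) (h1.mul_right B) ?_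
  intro l
  rw [norm_mul, Complex.norm_real, Real.norm_eq_abs]
  exact mul_le_mul_of_nonneg_left (hB _) (abs_nonneg _)

theorem AN_step {y' y W W' V : ℕ} {a0 : PS} {z : ℂ} {ψ : ℕ → ℂ} (g : Geo y' y W W' V)
    (h : In y' y a0) (hA : Adj a0 y W W' V z ψ) (D : ℕ → ℝ) {N : ℕ} (hN : y ≤ N) :
    AN a0 y W W' V ψ D (N + 1) - AN a0 y W W' V ψ D N
      = ψ N * ((2 * Cum (aF a0 y W W' V) N * D N - cv (ker (aF a0 y W W' V)) D N : ℝ) : ℂ) := by
  have hy := I1_aux3 g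
  obtain ⟨B, hB⟩ := I1_aux4 hy hA
  have hks : Summable fun n => |coeff n (ker (aF a0 y W W' V))| := I1_aux2 (D14 g h Adm_one)
  have heq := hA.eqn N hN
  unfold AN
  generalize ker (aF a0 y W W' V) = k at hks heq ⊢
  have hS := I1_aux5 hks hB
  have peel : ∀ c, ∑' l, ((coeff (c + l) k : ℝ) : ℂ) * ψ (N + l)
      = ((coeff c k : ℝ) : ℂ) * ψ N + ∑' l, ((coeff (c + 1 + l) k : ℝ) : ℂ) * ψ (N + 1 + l) := by
    intro c
    rw [(hS c N).tsum_eq_zero_add]
    simp only [Nat.add_zero]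
    congr 1
    apply tsum_congr
    intro l
    rw [show c + (l + 1) = c + 1 + l by omega, show N + (l + 1) = N + 1 + l by omega]
  have p0 := peel 0
  simp only [Nat.zero_add] at p0
  rw [p0] at heq
  have hcv : cv k D N = ∑ j ∈ range N, D j * coeff (N - j) k + D N * coeff 0 k := by
    unfold cv
    rw [← Finset.sum_range_reflect, Finset.sum_range_succ]
    congr 1
    · apply Finset.sum_congr rfl
      intro j hj
      have hj' := Finset.mem_range.1 hj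
      rw [show N + 1 - 1 - j = N - j by omega, show N - (N - j) = j by omega, mul_comm]
    · rw [show N + 1 - 1 - N = 0 by omega, Nat.sub_zero, mul_comm]
  rw [Finset.sum_range_succ, hcv]
  have e1 : ∀ j ∈ range N, (D j : ℂ) * ∑' l, ((coeff (N + 1 - j + l) k : ℝ) : ℂ) * ψ (N + 1 + l)
      = (D j : ℂ) * (∑' l, ((coeff (N - j + l) k : ℝ) : ℂ) * ψ (N + l))
        - (D j : ℂ) * ((coeff (N - j) k : ℝ) : ℂ) * ψ N := by
    intro j hj
    have hj' := Finset.mem_range.1 hj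
    rw [peel (N - j), show N + 1 - j = N - j + 1 by omega]
    ring
  rw [Finset.sum_congr rfl e1, Finset.sum_sub_distrib, ← Finset.sum_mul]
  rw [show N + 1 - N = 1 by omega]
  push_cast
  have e2 : ∑' l, ((coeff (1 + l) k : ℝ) : ℂ) * ψ (N + 1 + l)
      = 2 * ((Cum (aF a0 y W W' V) N : ℝ) : ℂ) * ψ N - ((coeff 0 k : ℝ) : ℂ) * ψ N := by
    rw [heq]; ring
  rw [e2]
  ring

/-- summation by parts -/
theorem I1_aux6 (D : ℕ → ℝ) (n : ℕ) : ∀ f : ℕ → ℝ,
    ∑ j ∈ range (n + 1), D j * f (n + 1 - j)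
      = ∑ j ∈ range (n + 1), csum D j * (f (n + 1 - j) - f (n - j)) + csum D n * f 0 := by
  induction n with
  | zero =>
    intro f
    simp only [csum, Finset.sum_range_one, Nat.zero_add, Nat.sub_zero]
    ring
  | succ n ih =>
    intro f
    rw [Finset.sum_range_succ, Finset.sum_range_succ (fun j => csum D j * _)]
    have h1 : ∀ j ∈ range (n + 1), D j * f (n + 1 + 1 - j) = D j * f (n + 1 - j + 1) := by
      intro j hj
      have hj' := Finset.mem_range.1 hj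
      rw [show n + 1 + 1 - j = n + 1 - j + 1 by omega]
    have h2 : ∀ j ∈ range (n + 1), csum D j * (f (n + 1 + 1 - j) - f (n + 1 - j))
        = csum D j * (f (n + 1 - j + 1) - f (n - j + 1)) := by
      intro j hj
      have hj' := Finset.mem_range.1 hj
      rw [show n + 1 + 1 - j = n + 1 - j + 1 by omega, show n - j + 1 = n + 1 - j by omega]
    have ih' := ih fun i => f (i + 1)
    rw [Finset.sum_congr rfl h1, Finset.sum_congr rfl h2]
    have h3 : csum D (n + 1) = csum D n + D (n + 1) := by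
      unfold csum
      rw [Finset.sum_range_succ]
    rw [show n + 1 + 1 - (n + 1) = 1 by omega, Nat.sub_self, h3]
    beta_reduce at ih'
    rw [Nat.zero_add] at ih'
    linear_combination ih'

/-- the primitive of the convolution -/
noncomputable def I1_E (k : PS) (D : ℕ → ℝ) (n m : ℕ) : ℝ :=
  ∑ j ∈ range (n + 1), csum D j * coeff (n - j + m) k + csum D n * ∑ i ∈ range m, coeff i k

theorem I1_aux7 (k : PS) (D : ℕ → ℝ) (n l : ℕ) :
    ∑ j ∈ range (n + 1), D j * coeff (n + 1 - j + l) k = I1_E k D n (l + 1) - I1_E k D n l := by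
  have h := I1_aux6 D n fun i => coeff (i + l) k
  beta_reduce at h
  rw [h]
  unfold I1_E
  rw [Finset.sum_range_succ (fun i => coeff i k) l]
  have h1 : ∑ j ∈ range (n + 1), csum D j * (coeff (n + 1 - j + l) k - coeff (n - j + l) k)
      = ∑ j ∈ range (n + 1), csum D j * coeff (n - j + (l + 1)) k
        - ∑ j ∈ range (n + 1), csum D j * coeff (n - j + l) k := by
    rw [← Finset.sum_sub_distrib]
    apply Finset.sum_congr rfl
    intro j hj
    have hj' := Finset.mem_range.1 hj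
    rw [show n + 1 - j + l = n - j + (l + 1) by omega]
    ring
  rw [h1, Nat.zero_add]
  ring

theorem I1_aux8 {k : PS} {C M : ℝ} (hk : ∀ N, ∑ n ∈ range N, |coeff n k| ≤ C) {D : ℕ → ℝ} {n : ℕ}
    (hM : ∀ j < n + 1, |csum D j| ≤ M) (m : ℕ) : |I1_E k D n m| ≤ C * M := by
  have hM0 : 0 ≤ M := (abs_nonneg _).trans (hM 0 (by omega))
  unfold I1_E
  have h1 : |∑ j ∈ range (n + 1), csum D j * coeff (n - j + m) k|
      ≤ M * ∑ j ∈ range (n + 1), |coeff (m + j) k| := by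
    refine (Finset.abs_sum_le_sum_abs _ _).trans ?_
    rw [← Finset.sum_range_reflect (fun j => |coeff (m + j) k|), Finset.mul_sum]
    apply Finset.sum_le_sum
    intro j hj
    have hj' := Finset.mem_range.1 hj
    rw [abs_mul, show m + (n + 1 - 1 - j) = n - j + m by omega]
    exact mul_le_mul_of_nonneg_right (hM j hj') (abs_nonneg _)
  have h2 : |csum D n * ∑ i ∈ range m, coeff i k| ≤ M * ∑ i ∈ range m, |coeff i k| := by
    rw [abs_mul]
    exact mul_le_mul (hM n (by omega)) (Finset.abs_sum_le_sum_abs _ _) (abs_nonneg _) hM0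
  have h3 := hk (m + (n + 1))
  rw [Finset.sum_range_add] at h3
  calc _ ≤ _ := abs_add_le _ _
    _ ≤ M * ∑ j ∈ range (n + 1), |coeff (m + j) k| + M * ∑ i ∈ range m, |coeff i k| :=
        add_le_add h1 h2
    _ = (∑ i ∈ range m, |coeff i k| + ∑ j ∈ range (n + 1), |coeff (m + j) k|) * M := by ring
    _ ≤ C * M := mul_le_mul_of_nonneg_right h3 hM0

/-- summation by parts for a geometric series -/
theorem I1_aux9 {E : ℕ → ℝ} {K : ℝ} (hE : ∀ m, |E m| ≤ K) {z : ℂ} (hz : ‖z‖ < 1) (N : ℕ) :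
    ‖∑' l, ((E (l + 1) - E l : ℝ) : ℂ) * z ^ (N + l)‖
      ≤ K * ‖z‖ ^ N * (‖1 - z‖ / (1 - ‖z‖) + 1) := by
  have hK : 0 ≤ K := (abs_nonneg _).trans (hE 0)
  have hgeo : Summable fun l : ℕ => ‖z‖ ^ l := summable_geometric_of_lt_one (norm_nonneg _) hz
  have hs : ∀ (F : ℕ → ℝ), (∀ m, |F m| ≤ K) → ∀ P, Summable fun l => (F l : ℂ) * z ^ (P + l) := by
    intro F hF P
    refine Summable.of_norm_bounded (g := fun l => K * ‖z‖ ^ P * ‖z‖ ^ l) (hgeo.mul_left _) ?_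
    intro l
    rw [norm_mul, Complex.norm_real, Real.norm_eq_abs, norm_pow, pow_add, mul_assoc]
    exact mul_le_mul_of_nonneg_right (hF l) (by positivity)
  have s1 := hs (fun l => E (l + 1)) (fun m => hE _) N
  have s0 := hs E hE N
  have e1 : ∑' l, ((E (l + 1) - E l : ℝ) : ℂ) * z ^ (N + l)
      = ∑' l, (E (l + 1) : ℂ) * z ^ (N + l) - ∑' l, (E l : ℂ) * z ^ (N + l) := by
    rw [← s1.tsum_sub s0]
    apply tsum_congr
    intro l
    push_cast
    ring
  have e2 : ∑' l, (E l : ℂ) * z ^ (N + l) = (E 0 : ℂ) * z ^ N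
      + z * ∑' l, (E (l + 1) : ℂ) * z ^ (N + l) := by
    rw [s0.tsum_eq_zero_add, ← tsum_mul_left]
    simp only [Nat.add_zero]
    congr 1
    apply tsum_congr
    intro l
    rw [show N + (l + 1) = (N + l) + 1 by omega, pow_succ]
    ring
  have e3 : ‖∑' l, (E (l + 1) : ℂ) * z ^ (N + l)‖ ≤ K * ‖z‖ ^ N * (1 - ‖z‖)⁻¹ := by
    refine tsum_of_norm_bounded (g := fun l => K * ‖z‖ ^ N * ‖z‖ ^ l) ?_ ?_
    · exact (hasSum_geometric_of_lt_one (norm_nonneg _) hz).mul_left _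
    · intro l
      rw [norm_mul, Complex.norm_real, Real.norm_eq_abs, norm_pow, pow_add, mul_assoc]
      exact mul_le_mul_of_nonneg_right (hE _) (by positivity)
  rw [e1, e2]
  have e4 : ∑' l, (E (l + 1) : ℂ) * z ^ (N + l) - ((E 0 : ℂ) * z ^ N
      + z * ∑' l, (E (l + 1) : ℂ) * z ^ (N + l))
      = (1 - z) * (∑' l, (E (l + 1) : ℂ) * z ^ (N + l)) - (E 0 : ℂ) * z ^ N := by ring
  rw [e4]
  refine (norm_sub_le _ _).trans ?_
  rw [norm_mul, norm_mul, Complex.norm_real, Real.norm_eq_abs, norm_pow]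
  have e5 : |E 0| * ‖z‖ ^ N ≤ K * ‖z‖ ^ N := mul_le_mul_of_nonneg_right (hE 0) (by positivity)
  have e6 : ‖1 - z‖ * ‖∑' l, (E (l + 1) : ℂ) * z ^ (N + l)‖
      ≤ ‖1 - z‖ * (K * ‖z‖ ^ N * (1 - ‖z‖)⁻¹) :=
    mul_le_mul_of_nonneg_left e3 (norm_nonneg _)
  calc _ ≤ ‖1 - z‖ * (K * ‖z‖ ^ N * (1 - ‖z‖)⁻¹) + K * ‖z‖ ^ N := add_le_add e6 e5
    _ = _ := by rw [div_eq_mul_inv]; ring

theorem AN_far {y' y W W' V : ℕ} {a0 : PS} {z : ℂ} {ψ : ℕ → ℂ} (g : Geo y' y W W' V)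
    (h : In y' y a0) (hA : Adj a0 y W W' V z ψ) (D : ℕ → ℝ) {N : ℕ} (hN : N0 y ≤ N) {M : ℝ}
    (hM : ∀ n < N, |csum D n| ≤ M) :
    ‖AN a0 y W W' V ψ D N‖ ≤ 10 ^ 5 / ff * ‖z‖ ^ N * M := by
  have hy := I1_aux3 g
  obtain ⟨B, hB⟩ := I1_aux4 hy hA
  have hkb := I1_aux1 (D14 g h Adm_one)
  have hks : Summable fun n => |coeff n (ker (aF a0 y W W' V))| := I1_aux2 (D14 g h Adm_one)
  obtain ⟨n, rfl⟩ : ∃ n, N = n + 1 := ⟨N - 1, by unfold N0 at hN; omega⟩
  have hM0 : 0 ≤ M := (abs_nonneg _).trans (hM 0 (by omega))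
  have hz1 := hA.rt.lt_one hy
  unfold AN
  generalize ker (aF a0 y W W' V) = k at hkb hks ⊢
  have hS := I1_aux5 hks hB
  have e1 : ∑ j ∈ range (n + 1), (D j : ℂ)
      * ∑' l, ((coeff (n + 1 - j + l) k : ℝ) : ℂ) * ψ (n + 1 + l)
      = ∑' l, ((I1_E k D n (l + 1) - I1_E k D n l : ℝ) : ℂ) * z ^ (n + 1 + l) := by
    have h1 : ∀ j ∈ range (n + 1), (D j : ℂ)
        * ∑' l, ((coeff (n + 1 - j + l) k : ℝ) : ℂ) * ψ (n + 1 + l)
        = ∑' l, (D j : ℂ) * (((coeff (n + 1 - j + l) k : ℝ) : ℂ) * ψ (n + 1 + l)) := by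
      intro j _
      rw [tsum_mul_left]
    rw [Finset.sum_congr rfl h1, ← Summable.tsum_finsetSum fun j _ => (hS (n + 1 - j) (n + 1)).mul_left _]
    apply tsum_congr
    intro l
    rw [← I1_aux7, hA.tail (n + 1 + l) (by omega)]
    push_cast
    rw [Finset.sum_mul]
    apply Finset.sum_congr rfl
    intro j _
    ring
  rw [e1]
  refine (I1_aux9 (fun m => I1_aux8 hkb hM m) hz1 (n + 1)).trans ?_
  have hff : 0 < ff := by unfold ff; positivity
  have hff1 : ff ≤ 1 := by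
    unfold ff
    rw [div_le_one (by positivity)]
    exact one_le_pow₀ (by norm_num)
  have hyR : (0 : ℝ) < y := by exact_mod_cast hy
  have h2 := hA.rt.sub_le hy
  have h3 := hA.rt.gap hy
  have h4 : ‖1 - z‖ / (1 - ‖z‖) ≤ 800 / ff := by
    rw [div_le_div_iff₀ (by linarith) hff]
    calc ‖1 - z‖ * ff ≤ 4 / y * ff := mul_le_mul_of_nonneg_right h2 hff.le
      _ = 800 * (ff / (200 * y)) := by field_simp; norm_num
      _ ≤ 800 * (1 - ‖z‖) := by linarith
  have h5 : ‖1 - z‖ / (1 - ‖z‖) + 1 ≤ 801 / ff := by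
    have : 1 ≤ 1 / ff := by rw [le_div_iff₀ hff]; linarith
    calc _ ≤ 800 / ff + 1 / ff := add_le_add h4 this
      _ = 801 / ff := by ring
  have h6 : 0 ≤ ‖z‖ ^ (n + 1) := by positivity
  calc 37.85 * M * ‖z‖ ^ (n + 1) * (‖1 - z‖ / (1 - ‖z‖) + 1)
      ≤ 37.85 * M * ‖z‖ ^ (n + 1) * (801 / ff) :=
        mul_le_mul_of_nonneg_left h5 (by positivity)
    _ = (37.85 * 801) / ff * ‖z‖ ^ (n + 1) * M := by ring
    _ ≤ 10 ^ 5 / ff * ‖z‖ ^ (n + 1) * M := by
        gcongr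
        norm_num

end MP18
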