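import Pool.Agent.Lib.MP_18566a_pr.T.I1

set_option autoImplicit false

namespace MP18

open Finset PowerSeries

/-- hypotheses on the state below `y` (in the units of the new level) -/
structure DH (ε : ℝ) (y' y : ℕ) (D : ℕ → ℝ) (S : ℝ) : Prop where
  S0' : 0 ≤ S
  h1 : ∀ n < y, |csum D n| ≤ S
  h2 : ∀ n < y, |D n| ≤ 10 ^ 4 * S / (ww * y')
  h4 : ∀ n < y, |∑ j ∈ range (n + 1), csum D j| ≤ 10 ^ 4 * y' * S
  h5 : ∑ n ∈ range y', |D n| ≤ ε * S

theorem I2_aux_shift {f : ℕ → ℝ} (hf : ∀ n, 0 ≤ f n) {K : ℝ} (h : ∀ N, ∑ n ∈ range N, f n ≤ K)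
    (m N : ℕ) : ∑ l ∈ range N, f (m + l) ≤ K := by
  have h1 : ∑ l ∈ range N, f (m + l) ≤ ∑ n ∈ range (m + N), f n := by
    rw [sum_range_add]
    exact le_add_of_nonneg_left (sum_nonneg fun i _ => hf i)
  exact h1.trans (h _)

/-- the double sum with one first moment -/
theorem I2_aux_double {f : ℕ → ℝ} (hf : ∀ n, 0 ≤ f n) {M : ℝ}
    (h : ∀ N, ∑ n ∈ range N, f n * (n : ℝ) ^ 2 ≤ M) (y N : ℕ) :
    ∑ j ∈ range y, ∑ l ∈ range N, f (y - j + l) * (l : ℝ) ≤ M := by
  have e1 : ∑ j ∈ range y, ∑ l ∈ range N, f (y - j + l) * (l : ℝ)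
      = ∑ i ∈ range y, ∑ l ∈ range N, f (i + 1 + l) * (l : ℝ) := by
    rw [← sum_range_reflect]
    apply sum_congr rfl
    intro j hj
    rw [mem_range] at hj
    have : y - (y - 1 - j) = j + 1 := by omega
    rw [this]
  rw [e1]
  have e2 : ∀ i ∈ range y, ∑ l ∈ range N, f (i + 1 + l) * (l : ℝ)
      ≤ ∑ m ∈ range (y + 1 + N), (if i < m then f m * (m : ℝ) else 0) := by
    intro i hi
    rw [mem_range] at hi
    have e3 : ∑ l ∈ range N, f (i + 1 + l) * (l : ℝ)
        ≤ ∑ l ∈ range N, (if i < i + 1 + l then f (i + 1 + l) * ((i + 1 + l : ℕ) : ℝ) else 0) := by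
      apply sum_le_sum
      intro l _
      rw [if_pos (by omega)]
      apply mul_le_mul_of_nonneg_left _ (hf _)
      push_cast
      have : (0 : ℝ) ≤ i := Nat.cast_nonneg i
      linarith
    refine e3.trans ?_
    have e4 : ∑ l ∈ range N, (if i < i + 1 + l then f (i + 1 + l) * ((i + 1 + l : ℕ) : ℝ) else 0)
        ≤ ∑ m ∈ range (i + 1 + N), (if i < m then f m * (m : ℝ) else 0) := by
      rw [sum_range_add (fun m => if i < m then f m * (m : ℝ) else 0)]
      apply le_add_of_nonneg_left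
      apply sum_nonneg
      intro m _
      split_ifs
      · exact mul_nonneg (hf _) (Nat.cast_nonneg _)
      · exact le_rfl
    refine e4.trans ?_
    apply sum_le_sum_of_subset_of_nonneg
    · intro m hm
      rw [mem_range] at hm ⊢
      omega
    · intro m _ _
      split_ifs
      · exact mul_nonneg (hf _) (Nat.cast_nonneg _)
      · exact le_rfl
  refine (sum_le_sum e2).trans ?_
  rw [sum_comm]
  refine le_trans ?_ (h (y + 1 + N))
  apply sum_le_sum
  intro m _
  rw [← sum_filter, sum_const, nsmul_eq_mul]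
  have hc : (((range y).filter (fun i => i < m)).card : ℝ) ≤ m := by
    have : ((range y).filter (fun i => i < m)).card ≤ (range m).card := by
      apply card_le_card
      intro i hi
      rw [mem_filter] at hi
      exact mem_range.2 hi.2
    rw [card_range] at this
    exact_mod_cast this
  have h3 : 0 ≤ f m * (m : ℝ) := mul_nonneg (hf _) (Nat.cast_nonneg _)
  calc (((range y).filter (fun i => i < m)).card : ℝ) * (f m * (m : ℝ))
      ≤ (m : ℝ) * (f m * (m : ℝ)) := mul_le_mul_of_nonneg_right hc h3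
    _ = f m * (m : ℝ) ^ 2 := by ring

theorem I2_aux_real (k D : ℕ → ℝ) {y : ℕ} (hy : 1 ≤ y) :
    ∑ j ∈ range y, D j * (1 - ∑ i ∈ range (y - j), k i)
      = csum D (y - 1) - ∑ i ∈ range y, k i * csum D (y - 1 - i) := by
  have e1 : csum D (y - 1) = ∑ j ∈ range y, D j := by
    unfold csum
    rw [Nat.sub_add_cancel hy]
  have e2 : ∑ i ∈ range y, k i * csum D (y - 1 - i)
      = ∑ i ∈ range y, ∑ j ∈ range (y - i), k i * D j := by
    apply sum_congr rfl
    intro i hi
    rw [mem_range] at hi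
    unfold csum
    rw [mul_sum]
    have : y - 1 - i + 1 = y - i := by omega
    rw [this]
  rw [e1, e2]
  have e3 : ∑ i ∈ range y, ∑ j ∈ range (y - i), k i * D j
      = ∑ j ∈ range y, ∑ i ∈ range (y - j), k i * D j := by
    apply sum_comm'
    intro i j
    simp only [mem_range]
    omega
  rw [e3, ← sum_sub_distrib]
  apply sum_congr rfl
  intro j _
  rw [mul_sub, mul_one, ← sum_mul, mul_comm (D j)]

/-- the abstract estimate -/
theorem I2_aux_main (k D : ℕ → ℝ) (ψ : ℕ → ℂ) (P : ℂ) {y V : ℕ} {ph K1 M2 a b Dm : ℝ}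
    (hy : 1 ≤ y) (hk1 : ∀ N, ∑ n ∈ range N, |k n| ≤ K1)
    (hk2 : ∀ N, ∑ n ∈ range N, |k n| * (n : ℝ) ^ 2 ≤ M2)
    (hks : ∑' n, ((k n : ℝ) : ℂ) = 1) (ha : 0 ≤ a) (hb : 0 ≤ b)
    (hE : ∀ l, ‖ψ (y + l) - P‖ ≤ (if l < V then a else 0) + (l : ℝ) * b)
    (hDm : 0 ≤ Dm) (hD : ∀ j < y, |D j| ≤ Dm) (hp0 : 0 ≤ ph) (hp1 : ph ≤ 1) :
    ‖∑ j ∈ range y, (D j : ℂ) * ∑' l, ((ph * k (y - j + l) : ℝ) : ℂ) * ψ (y + l)
      - P * ((ph * (csum D (y - 1) - ∑ i ∈ range y, k i * csum D (y - 1 - i)) : ℝ) : ℂ)‖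
      ≤ Dm * (a * (V * K1) + b * M2) := by
  have hkn : ∀ n, 0 ≤ |k n| := fun n => abs_nonneg _
  have hsum : Summable fun n => |k n| := summable_of_sum_range_le hkn hk1
  have hsumC : Summable fun n => ((k n : ℝ) : ℂ) := by
    apply Summable.of_norm
    simpa using hsum

  set E : ℕ → ℝ := fun l => (if l < V then a else 0) + (l : ℝ) * b with hEdef
  have hE0 : ∀ l, 0 ≤ E l := by
    intro l
    simp only [hEdef]
    have : (0 : ℝ) ≤ l := Nat.cast_nonneg l
    split_ifs <;> positivity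

  have hdouble := fun N => I2_aux_double hkn hk2 y N
  have hK10 : 0 ≤ K1 := by simpa using hk1 0
  have hM20 : 0 ≤ M2 := by simpa using hk2 0

  have hpart : ∀ N, ∑ l ∈ range N, ∑ j ∈ range y, |k (y - j + l)| * E l
      ≤ a * (V * K1) + b * M2 := by
    intro N
    have e1 : ∑ l ∈ range N, ∑ j ∈ range y, |k (y - j + l)| * E l
        = ∑ l ∈ range N, ∑ j ∈ range y, |k (y - j + l)| * (if l < V then a else 0)
          + b * ∑ j ∈ range y, ∑ l ∈ range N, |k (y - j + l)| * (l : ℝ) := by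
      rw [sum_comm (s := range y), mul_sum, ← sum_add_distrib]
      apply sum_congr rfl
      intro l _
      rw [mul_sum, ← sum_add_distrib]
      apply sum_congr rfl
      intro j _
      simp only [hEdef]
      ring
    rw [e1]
    apply add_le_add
    · have e2 : ∀ l, ∑ j ∈ range y, |k (y - j + l)| * (if l < V then a else 0)
          ≤ (if l < V then a * K1 else 0) := by
        intro l
        by_cases hl : l < V
        · rw [if_pos hl, if_pos hl, ← sum_mul, mul_comm]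
          apply mul_le_mul_of_nonneg_left _ ha
          have e3 : ∑ j ∈ range y, |k (y - j + l)| = ∑ i ∈ range y, |k (l + 1 + i)| := by
            rw [← sum_range_reflect]
            apply sum_congr rfl
            intro j hj
            rw [mem_range] at hj
            congr 2
            omega
          rw [e3]
          exact I2_aux_shift hkn hk1 (l + 1) y
        · rw [if_neg hl, if_neg hl]
          simp
      refine (sum_le_sum fun l _ => e2 l).trans ?_
      rw [← sum_filter, sum_const, nsmul_eq_mul]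
      have hc : (((range N).filter (fun l => l < V)).card : ℝ) ≤ V := by
        have : ((range N).filter (fun l => l < V)).card ≤ (range V).card := by
          apply card_le_card
          intro i hi
          rw [mem_filter] at hi
          exact mem_range.2 hi.2
        rw [card_range] at this
        exact_mod_cast this
      calc (((range N).filter (fun l => l < V)).card : ℝ) * (a * K1)
          ≤ (V : ℝ) * (a * K1) := mul_le_mul_of_nonneg_right hc (mul_nonneg ha hK10)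
        _ = a * (V * K1) := by ring
    · exact mul_le_mul_of_nonneg_left (hdouble N) hb
  set G : ℕ → ℝ := fun l => ∑ j ∈ range y, |k (y - j + l)| * E l with hG
  have hG0 : ∀ l, 0 ≤ G l := fun l => sum_nonneg fun j _ => mul_nonneg (hkn _) (hE0 l)
  have hGs : Summable G := summable_of_sum_range_le hG0 hpart
  have hGt : ∑' l, G l ≤ a * (V * K1) + b * M2 := Real.tsum_le_of_sum_range_le hG0 hpart

  have hs1 : ∀ j ∈ range y, Summable fun l => |k (y - j + l)| * E l := by
    intro j hj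
    apply Summable.of_nonneg_of_le (fun l => mul_nonneg (hkn _) (hE0 l)) _ hGs
    intro l
    exact single_le_sum (f := fun j => |k (y - j + l)| * E l)
      (fun i _ => mul_nonneg (hkn _) (hE0 l)) hj
  have hs2 : ∀ j ∈ range y, Summable fun l =>
      ((ph * k (y - j + l) : ℝ) : ℂ) * (ψ (y + l) - P) := by
    intro j hj
    apply Summable.of_norm_bounded (hs1 j hj)
    intro l
    rw [norm_mul, Complex.norm_real, Real.norm_eq_abs, abs_mul, abs_of_nonneg hp0]
    calc ph * |k (y - j + l)| * ‖ψ (y + l) - P‖ ≤ 1 * |k (y - j + l)| * E l := by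
          apply mul_le_mul _ (hE l) (norm_nonneg _)
          · positivity
          · exact mul_le_mul_of_nonneg_right hp1 (hkn _)
      _ = _ := by ring
  have hs3 : ∀ j : ℕ, Summable fun l => ((k (y - j + l) : ℝ) : ℂ) := by
    intro j
    have := (summable_nat_add_iff (y - j)).2 hsumC
    refine this.congr ?_
    intro l
    rw [add_comm]
  have ht3 : ∀ j : ℕ, ∑' l, ((k (y - j + l) : ℝ) : ℂ)
      = ((1 - ∑ i ∈ range (y - j), k i : ℝ) : ℂ) := by
    intro j
    have h := hsumC.sum_add_tsum_nat_add (y - j)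
    rw [hks] at h
    have e : ∑' l, ((k (y - j + l) : ℝ) : ℂ) = ∑' l, ((k (l + (y - j)) : ℝ) : ℂ) := by
      apply tsum_congr
      intro l
      rw [add_comm]
    rw [e]
    push_cast
    rw [← h]
    ring
  have hper : ∀ j ∈ range y, ∑' l, ((ph * k (y - j + l) : ℝ) : ℂ) * ψ (y + l)
      = ∑' l, ((ph * k (y - j + l) : ℝ) : ℂ) * (ψ (y + l) - P)
        + P * ((ph * (1 - ∑ i ∈ range (y - j), k i) : ℝ) : ℂ) := by
    intro j hj
    have e1 : ∑' l, ((ph * k (y - j + l) : ℝ) : ℂ) * P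
        = P * ((ph * (1 - ∑ i ∈ range (y - j), k i) : ℝ) : ℂ) := by
      have e2 : ∀ l, ((ph * k (y - j + l) : ℝ) : ℂ) * P
          = (P * (ph : ℂ)) * ((k (y - j + l) : ℝ) : ℂ) := by
        intro l
        push_cast
        ring
      rw [tsum_congr e2, tsum_mul_left, ht3 j]
      push_cast
      ring
    have hs4 : Summable fun l => ((ph * k (y - j + l) : ℝ) : ℂ) * P := by
      have e2 : ∀ l, (P * (ph : ℂ)) * ((k (y - j + l) : ℝ) : ℂ)
          = ((ph * k (y - j + l) : ℝ) : ℂ) * P := by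
        intro l
        push_cast
        ring
      exact ((hs3 j).mul_left (P * (ph : ℂ))).congr e2
    rw [← e1, ← (hs2 j hj).tsum_add hs4]
    apply tsum_congr
    intro l
    ring

  have htot : ∑ j ∈ range y, (D j : ℂ) * ∑' l, ((ph * k (y - j + l) : ℝ) : ℂ) * ψ (y + l)
      - P * ((ph * (csum D (y - 1) - ∑ i ∈ range y, k i * csum D (y - 1 - i)) : ℝ) : ℂ)
      = ∑' l, ∑ j ∈ range y, (D j : ℂ) * (((ph * k (y - j + l) : ℝ) : ℂ) * (ψ (y + l) - P)) := by
    rw [Summable.tsum_finsetSum (fun j hj => (hs2 j hj).mul_left (D j : ℂ))]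
    rw [← I2_aux_real k D hy]
    have e5 : P * ((ph * ∑ j ∈ range y, D j * (1 - ∑ i ∈ range (y - j), k i) : ℝ) : ℂ)
        = ∑ j ∈ range y, (D j : ℂ) * (P * ((ph * (1 - ∑ i ∈ range (y - j), k i) : ℝ) : ℂ)) := by
      rw [mul_sum]
      rw [Complex.ofReal_sum, mul_sum]
      apply sum_congr rfl
      intro j _
      push_cast
      ring
    rw [e5, ← sum_sub_distrib]
    apply sum_congr rfl
    intro j hj
    rw [hper j hj, tsum_mul_left]
    ring
  rw [htot]
  have hfin : ‖∑' l, ∑ j ∈ range y,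
      (D j : ℂ) * (((ph * k (y - j + l) : ℝ) : ℂ) * (ψ (y + l) - P))‖ ≤ Dm * ∑' l, G l := by
    apply tsum_of_norm_bounded (hGs.hasSum.mul_left Dm)
    intro l
    refine (norm_sum_le _ _).trans ?_
    simp only [hG]
    rw [mul_sum]
    apply sum_le_sum
    intro j hj
    rw [norm_mul, norm_mul, Complex.norm_real, Complex.norm_real, Real.norm_eq_abs,
      Real.norm_eq_abs, abs_mul, abs_of_nonneg hp0]
    have h1 : ph * |k (y - j + l)| * ‖ψ (y + l) - P‖ ≤ |k (y - j + l)| * E l := by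
      calc ph * |k (y - j + l)| * ‖ψ (y + l) - P‖ ≤ 1 * |k (y - j + l)| * E l := by
            apply mul_le_mul _ (hE l) (norm_nonneg _)
            · positivity
            · exact mul_le_mul_of_nonneg_right hp1 (hkn _)
        _ = _ := by ring
    exact mul_le_mul (hD j (mem_range.1 hj)) h1
      (mul_nonneg (mul_nonneg hp0 (hkn _)) (norm_nonneg _)) hDm
  exact hfin.trans (mul_le_mul_of_nonneg_left hGt hDm)

theorem I2_aux_tel {ψ : ℕ → ℂ} {m : ℕ} {c : ℝ} (h : ∀ n, m ≤ n → ‖ψ (n + 1) - ψ n‖ ≤ c) (l : ℕ) :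
    ‖ψ (m + l) - ψ m‖ ≤ l * c := by
  induction l with
  | zero => simp
  | succ l ih =>
    have e : ψ (m + (l + 1)) - ψ m = (ψ (m + l + 1) - ψ (m + l)) + (ψ (m + l) - ψ m) := by
      rw [← add_assoc]
      ring
    rw [e]
    refine (norm_add_le _ _).trans ?_
    have := h (m + l) (by omega)
    push_cast
    linarith

set_option exponentiation.threshold 3000

theorem I2a : ∃ C : ℝ, 1 ≤ C ∧ ∀ (Λ ε : ℝ) (y'' y' y W W' V : ℕ) (a00 a0 : PS) (φ' : ℝ) (z : ℂ)
    (ψ : ℕ → ℂ) (D : ℕ → ℝ) (S : ℝ), C ≤ Λ → TD Λ y'' y' y W W' V a00 a0 φ' →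
    Adj a0 y W W' V z ψ → DH ε y' y D S →
    ‖∑ j ∈ range y, (D j : ℂ) * ∑' l, ((phi * coeff (y - j + l) (ker a0) : ℝ) : ℂ) * ψ (y + l)
      - ψ (y + V) * ((phi * (csum D (y - 1) - cv (ker a0) (csum D) (y - 1)) : ℝ) : ℂ)‖
      ≤ (1 / 100 * ff + C / Λ) * ‖ψ (y + V)‖ * S := by
  obtain ⟨C1, hC1, H1⟩ := psi_win
  obtain ⟨C2, hC2, H2⟩ := psi_bds
  obtain ⟨C3, hC3, H3⟩ := psi_one
  refine ⟨C1 + C3 + C2 * (76 * 10 ^ 93), ?_, ?_⟩
  · have : 0 ≤ C2 * (76 * 10 ^ 93) := by positivity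
    linarith
  intro Λ ε y'' y' y W W' V a00 a0 φ' z ψ D S hΛ T A hD
  have hpos : 0 ≤ C2 * (76 * 10 ^ 93 : ℝ) := by positivity
  have hΛ1 : C1 ≤ Λ := by linarith
  have hΛ3 : C3 ≤ Λ := by linarith
  have hΛpos : 0 < Λ := by linarith
  have hP1 := H3 Λ y'' y' y W W' V a00 a0 φ' z ψ hΛ3 T A
  have hwin := H1 Λ y'' y' y W W' V a00 a0 φ' z ψ hΛ1 T A
  have hbds := H2 y' y W W' V a0 z ψ T.geo T.inn A
  have hy'pos : 0 < y' := T.geo.pos
  have hy'R : (0 : ℝ) < y' := by exact_mod_cast hy'pos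
  have hsep2 := T.sep2
  have hyR : (0 : ℝ) < y := lt_of_lt_of_le (mul_pos hΛpos hy'R) hsep2
  have hy : 1 ≤ y := by
    have : 0 < y := by exact_mod_cast hyR
    omega
  have hS := hD.S0'
  set P := ψ (y + V) with hPdef
  have hPn : 0 ≤ ‖P‖ := norm_nonneg _
  have hff : (0 : ℝ) < ff := by unfold ff; positivity
  have hww : (0 : ℝ) < ww := by unfold ww; positivity

  have hk1 : ∀ N, ∑ n ∈ range N, |coeff n (ker a0)| ≤ 38 := by
    intro N
    have := T.inn.lb.kn 1 Adm_one N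
    simpa using this
  have hx : (0 : ℝ) < 1 / (10 ^ 8 * y') := by positivity
  have hx1 : (1 : ℝ) / (10 ^ 8 * y') ≤ 1 := by
    rw [div_le_one (by positivity)]
    have : (1 : ℝ) ≤ y' := by exact_mod_cast hy'pos
    nlinarith
  have hk2 : ∀ N, ∑ n ∈ range N, |coeff n (ker a0)| * (n : ℝ) ^ 2
      ≤ 2 * 38 / (1 / (10 ^ 8 * y')) ^ 2 := by
    intro N
    exact mom2 hx hx1 (T.inn.lb.kn _ (Adm_R hy'pos)) N
  have hks : ∑' n, ((coeff n (ker a0) : ℝ) : ℂ) = 1 := by
    have := ev_ker_one T.inn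
    unfold ev at this
    simpa using this
  have hE : ∀ l, ‖ψ (y + l) - P‖ ≤ (if l < V then 12 * ff * ‖P‖ else 0) + (l : ℝ) * (C2 / y) := by
    intro l
    by_cases hl : l < V
    · rw [if_pos hl]
      have h1 := hwin (y + l) (by omega) (by omega)
      have h2 : 0 ≤ (l : ℝ) * (C2 / y) := by positivity
      linarith
    · rw [if_neg hl, zero_add]
      have h1 := I2_aux_tel (ψ := ψ) (m := y + V) (c := C2 / y)
        (fun n hn => (hbds n hn).2.1) (l - V)
      have e1 : y + V + (l - V) = y + l := by omega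
      rw [e1] at h1
      refine h1.trans ?_
      apply mul_le_mul_of_nonneg_right _ (by positivity)
      exact_mod_cast Nat.sub_le l V
  have hDm : 0 ≤ 10 ^ 4 * S / (ww * y') :=
    div_nonneg (mul_nonneg (by norm_num) hS) (mul_nonneg hww.le hy'R.le)
  have hph : 0 ≤ phi ∧ phi ≤ 1 := by
    have := phi_bd
    constructor <;> linarith [this.1, this.2]
  have hmain := I2_aux_main (fun n => coeff n (ker a0)) D ψ P (V := V) (ph := phi) hy hk1 hk2 hks
    (a := 12 * ff * ‖P‖) (b := C2 / y) (by positivity) (by positivity) hE hDm hD.h2 hph.1 hph.2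
  have ecv : cv (ker a0) (csum D) (y - 1)
      = ∑ i ∈ range y, coeff i (ker a0) * csum D (y - 1 - i) := by
    unfold cv
    rw [Nat.sub_add_cancel hy]
  rw [ecv]
  refine hmain.trans ?_

  have hV : (V : ℝ) ≤ 2 * vv * y' := T.geo.Vhi
  have hn1 : 10 ^ 4 * S / (ww * y') * (12 * ff * ‖P‖ * (V * 38)) ≤ 1 / 100 * ff * ‖P‖ * S := by
    have h1 : 10 ^ 4 * S / (ww * y') * (12 * ff * ‖P‖ * (V * 38))
        ≤ 10 ^ 4 * S / (ww * y') * (12 * ff * ‖P‖ * (2 * vv * y' * 38)) := by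
      apply mul_le_mul_of_nonneg_left _ hDm
      apply mul_le_mul_of_nonneg_left _ (by positivity)
      linarith
    refine h1.trans ?_
    have h2 : 10 ^ 4 * S / (ww * y') * (12 * ff * ‖P‖ * (2 * vv * y' * 38))
        = (10 ^ 4 * 12 * 2 * 38 * (vv / ww)) * (ff * ‖P‖ * S) := by
      field_simp
    rw [h2]
    have h3 : (10 ^ 4 * 12 * 2 * 38 * (vv / ww) : ℝ) ≤ 1 / 100 := by
      unfold vv ww
      norm_num
    have h4 : 0 ≤ ff * ‖P‖ * S := by positivity
    calc (10 ^ 4 * 12 * 2 * 38 * (vv / ww)) * (ff * ‖P‖ * S) ≤ 1 / 100 * (ff * ‖P‖ * S) :=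
          mul_le_mul_of_nonneg_right h3 h4
      _ = _ := by ring
  have hn2 : 10 ^ 4 * S / (ww * y') * (C2 / y * (2 * 38 / (1 / (10 ^ 8 * y')) ^ 2))
      ≤ C2 * (76 * 10 ^ 93) / Λ * ‖P‖ * S := by
    have h1 : 10 ^ 4 * S / (ww * y') * (C2 / y * (2 * 38 / (1 / (10 ^ 8 * y')) ^ 2))
        = (C2 * (76 * 10 ^ 93) * S) * (y' / y) := by
      unfold ww
      field_simp
      ring
    rw [h1]
    have h2 : (y' : ℝ) / y ≤ 1 / Λ := by
      rw [div_le_div_iff₀ hyR hΛpos]
      linarith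
    have h3 : 0 ≤ C2 * (76 * 10 ^ 93) * S := by positivity
    calc (C2 * (76 * 10 ^ 93) * S) * (y' / y) ≤ (C2 * (76 * 10 ^ 93) * S) * (1 / Λ) :=
          mul_le_mul_of_nonneg_left h2 h3
      _ = (C2 * (76 * 10 ^ 93) / Λ * S) * 1 := by ring
      _ ≤ (C2 * (76 * 10 ^ 93) / Λ * S) * ‖P‖ := by
          apply mul_le_mul_of_nonneg_left hP1
          positivity
      _ = _ := by ring
  have hn3 : C2 * (76 * 10 ^ 93) / Λ * ‖P‖ * S ≤ (C1 + C3 + C2 * (76 * 10 ^ 93)) / Λ * ‖P‖ * S := by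
    apply mul_le_mul_of_nonneg_right _ hS
    apply mul_le_mul_of_nonneg_right _ hPn
    apply div_le_div_of_nonneg_right _ hΛpos.le
    linarith
  calc 10 ^ 4 * S / (ww * y') * (12 * ff * ‖P‖ * (V * 38)
        + C2 / y * (2 * 38 / (1 / (10 ^ 8 * y')) ^ 2))
      = 10 ^ 4 * S / (ww * y') * (12 * ff * ‖P‖ * (V * 38))
        + 10 ^ 4 * S / (ww * y') * (C2 / y * (2 * 38 / (1 / (10 ^ 8 * y')) ^ 2)) := by ring
    _ ≤ 1 / 100 * ff * ‖P‖ * S + (C1 + C3 + C2 * (76 * 10 ^ 93)) / Λ * ‖P‖ * S :=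
        add_le_add hn1 (hn2.trans hn3)
    _ = _ := by ring

end MP18
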