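import Pool.Agent.Lib.MP_18566a_pr.T.I1
import Pool.Agent.Lib.MP_18566a_pr.T.I2

set_option autoImplicit false

namespace MP18

open Finset PowerSeries

/-- Abel summation -/
theorem I3_aux_abel (F f : ℕ → ℂ) {a b : ℕ} (hab : a ≤ b) :
    ∑ j ∈ Ico a b, F j * f j = (∑ j ∈ range b, F j) * f b - (∑ j ∈ range a, F j) * f a
      - ∑ j ∈ Ico a b, (∑ i ∈ range (j + 1), F i) * (f (j + 1) - f j) := by
  induction b, hab using Nat.le_induction with
  | base => simp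
  | succ b hb ih =>
    rw [Finset.sum_Ico_succ_top hb, Finset.sum_Ico_succ_top hb, ih, Finset.sum_range_succ]
    ring

theorem I3_aux_tsum {m : PS} {C K : ℝ} (hm : Bd 1 m C) {f : ℕ → ℂ} (hK : 0 ≤ K)
    (hf : ∀ l, coeff l m ≠ 0 → ‖f l‖ ≤ K) :
    Summable (fun l => ((coeff l m : ℝ) : ℂ) * f l) ∧
      ‖∑' l, ((coeff l m : ℝ) : ℂ) * f l‖ ≤ C * K := by
  have h1 : ∀ l, ‖((coeff l m : ℝ) : ℂ) * f l‖ ≤ |coeff l m| * K := by
    intro l
    rw [norm_mul, Complex.norm_real, Real.norm_eq_abs]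
    by_cases h : coeff l m = 0
    · simp [h]
    · exact mul_le_mul_of_nonneg_left (hf l h) (abs_nonneg _)
  have h2 : ∀ N, ∑ l ∈ range N, |coeff l m| * K ≤ C * K := by
    intro N
    rw [← Finset.sum_mul]
    have := hm N
    simp only [one_pow, mul_one] at this
    exact mul_le_mul_of_nonneg_right this hK
  have h0 : ∀ l, 0 ≤ |coeff l m| * K := fun l => mul_nonneg (abs_nonneg _) hK
  have h3 : Summable (fun l => |coeff l m| * K) := summable_of_sum_range_le h0 h2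
  have h4 : Summable (fun l => ‖((coeff l m : ℝ) : ℂ) * f l‖) :=
    Summable.of_nonneg_of_le (fun _ => norm_nonneg _) h1 h3
  refine ⟨h4.of_norm, ?_⟩
  calc ‖∑' l, ((coeff l m : ℝ) : ℂ) * f l‖ ≤ ∑' l, ‖((coeff l m : ℝ) : ℂ) * f l‖ :=
        norm_tsum_le_tsum_norm h4
    _ ≤ ∑' l, |coeff l m| * K := Summable.tsum_le_tsum h1 h4 h3
    _ ≤ C * K := Real.tsum_le_of_sum_range_le h0 h2

theorem I3_aux_ff : 12 * ff ≤ 1 ∧ 0 < ff := by
  unfold ff
  constructor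
  · norm_num
  · positivity

/-- bound of psi from `y` on -/
theorem I3_aux_psi {y V : ℕ} {ψ : ℕ → ℂ} {C1 : ℝ}
    (h1 : 1 ≤ ‖ψ (y + V)‖) (hC1 : 1 ≤ C1)
    (hb : ∀ n, y + V ≤ n → ‖ψ n‖ ≤ C1)
    (hw : ∀ n, y ≤ n → n < y + V → ‖ψ n - ψ (y + V)‖ ≤ 12 * ff * ‖ψ (y + V)‖) :
    ∀ n, y ≤ n → ‖ψ n‖ ≤ (2 + C1) * ‖ψ (y + V)‖ := by
  intro n hn
  have hP : 0 ≤ ‖ψ (y + V)‖ := norm_nonneg _
  rcases lt_or_ge n (y + V) with h | h
  · have h2 := hw n hn h
    have h3 : ‖ψ n‖ ≤ ‖ψ n - ψ (y + V)‖ + ‖ψ (y + V)‖ := by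
      have := norm_add_le (ψ n - ψ (y + V)) (ψ (y + V))
      simpa using this
    have h4 := mul_le_mul_of_nonneg_right I3_aux_ff.1 hP
    nlinarith
  · have h2 := hb n h
    nlinarith

/-- bound of the slow part -/
theorem I3_aux_wf {y' y W W' V : ℕ} {a0 : PS} {ψ : ℕ → ℂ} {K : ℝ} (g : Geo y' y W W' V)
    (h : In y' y a0) (hK : 0 ≤ K) (hψ : ∀ n, y ≤ n → ‖ψ n‖ ≤ K) (j : ℕ) :
    Summable (fun l => ((coeff l (ms a0 y W W' V + mt a0 y W W' V) : ℝ) : ℂ) * ψ (j + l)) ∧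
      ‖wf a0 y W W' V ψ j‖ ≤ 1201 * K := by
  have hm : Bd 1 (ms a0 y W W' V + mt a0 y W W' V) 1201 := by
    refine Bd_mono (Bd_add zero_le_one (D8a g h Adm_one) (D9 g h Adm_one)) ?_
    norm_num
  refine I3_aux_tsum hm hK (f := fun l => ψ (j + l)) fun l hl => hψ _ ?_
  by_contra hlt
  push Not at hlt
  apply hl
  rw [map_add, ms_low g h l (by omega), mt_low g h l (by omega), add_zero]

theorem I3_aux_split {y' y W W' V : ℕ} {a0 : PS} {ψ : ℕ → ℂ} {K : ℝ} (g : Geo y' y W W' V)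
    (h : In y' y a0) (hK : 0 ≤ K) (hψ : ∀ n, y ≤ n → ‖ψ n‖ ≤ K) {j : ℕ} (hj : j < y) :
    ∑' l, ((coeff (y - j + l) (ker (aF a0 y W W' V)) : ℝ) : ℂ) * ψ (y + l)
      = (∑' l, ((phi * coeff (y - j + l) (ker a0) : ℝ) : ℂ) * ψ (y + l))
        + wf a0 y W W' V ψ j := by
  have hk0 : Bd 1 (phi • ker a0) (|phi| * 38) := Bd_smul phi (h.lb.kn 1 Adm_one)
  have hs0 : Summable (fun l => ((phi * coeff (y - j + l) (ker a0) : ℝ) : ℂ) * ψ (y + l)) := by
    have h1 : Summable (fun l => ((coeff l (phi • ker a0) : ℝ) : ℂ)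
        * (if y ≤ j + l then ψ (j + l) else 0)) := by
      refine (I3_aux_tsum hk0 hK fun l _ => ?_).1
      split_ifs with hh
      · exact hψ _ hh
      · simpa using hK
    have h2 := (summable_nat_add_iff (y - j)).2 h1
    refine h2.congr fun l => ?_
    have e1 : y ≤ j + (l + (y - j)) := by omega
    rw [if_pos e1]
    have e2 : j + (l + (y - j)) = y + l := by omega
    have e3 : l + (y - j) = y - j + l := by omega
    rw [e2, e3]
    simp
  have hs1 := (I3_aux_wf g h hK hψ j).1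
  have e1 : wf a0 y W W' V ψ j
      = ∑' l, ((coeff (y - j + l) (ms a0 y W W' V + mt a0 y W W' V) : ℝ) : ℂ) * ψ (y + l) := by
    unfold wf
    rw [← hs1.sum_add_tsum_nat_add (y - j)]
    have : ∑ i ∈ range (y - j), ((coeff i (ms a0 y W W' V + mt a0 y W W' V) : ℝ) : ℂ) * ψ (j + i)
        = 0 := by
      refine Finset.sum_eq_zero fun l hl => ?_
      have hl' := Finset.mem_range.1 hl
      rw [map_add, ms_low g h l (by omega), mt_low g h l (by omega)]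
      simp
    rw [this, zero_add]
    refine tsum_congr fun l => ?_
    have e2 : j + (l + (y - j)) = y + l := by omega
    have e3 : l + (y - j) = y - j + l := by omega
    rw [e2, e3]
  have hs2 : Summable (fun l => ((coeff (y - j + l) (ms a0 y W W' V + mt a0 y W W' V) : ℝ) : ℂ)
      * ψ (y + l)) := by
    have h2 := (summable_nat_add_iff (y - j)).2 hs1
    refine h2.congr fun l => ?_
    have e2 : j + (l + (y - j)) = y + l := by omega
    have e3 : l + (y - j) = y - j + l := by omega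
    rw [e2, e3]
  rw [e1, ← hs0.tsum_add hs2]
  refine tsum_congr fun l => ?_
  rw [D10 g h, ← add_mul]
  congr 1
  simp only [map_add, map_smul, smul_eq_mul]
  push_cast
  ring

theorem I2b : ∃ C : ℝ, 1 ≤ C ∧ ∀ (Λ ε : ℝ) (y'' y' y W W' V : ℕ) (a00 a0 : PS) (φ' : ℝ) (z : ℂ)
    (ψ : ℕ → ℂ) (D : ℕ → ℝ) (S : ℝ), C ≤ Λ → TD Λ y'' y' y W W' V a00 a0 φ' →
    Adj a0 y W W' V z ψ → DH ε y' y D S → 0 ≤ ε →
    ‖∑ j ∈ range y, (D j : ℂ) * wf a0 y W W' V ψ j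
      - ψ (y + V) * (((phi + 2 * ff) * csum D (y - 1) : ℝ) : ℂ)‖
      ≤ C * (1 / Λ + ε) * ‖ψ (y + V)‖ * S := by
  obtain ⟨C1, hC1, H1⟩ := psi_bds
  obtain ⟨C2, hC2, H2⟩ := w_alg
  obtain ⟨C3, hC3, H3⟩ := w_bds
  obtain ⟨C4, hC4, H4⟩ := psi_one
  obtain ⟨C7, hC7, H7⟩ := psi_win
  refine ⟨C4 + C7 + 1201 * (2 + C1) + C3 + C2 + C3 + 3 * 10 ^ 4 * C3, by linarith, ?_⟩
  intro Λ ε y'' y' y W W' V a00 a0 φ' z ψ D S hΛ hT hA hD hε
  have g := hT.geo
  have hin := hT.inn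
  have hΛ4 : C4 ≤ Λ := by linarith
  have hΛ7 : C7 ≤ Λ := by linarith
  have hΛ0 : 0 < Λ := by linarith
  have hy' : 0 < y' := g.pos
  have hy'R : (0 : ℝ) < y' := by exact_mod_cast hy'
  have hsep : Λ * y' ≤ y := hT.sep2
  have hyR : (0 : ℝ) < y := lt_of_lt_of_le (by positivity) hsep
  have hratio : (y' : ℝ) / y ≤ 1 / Λ := by
    rw [div_le_div_iff₀ hyR hΛ0]
    linarith
  have hVy' : V ≤ y' := by
    have h1 := g.Vhi
    have h2 : 2 * vv * (y' : ℝ) ≤ y' := by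
      have : 2 * vv ≤ 1 := by unfold vv; norm_num
      nlinarith
    exact_mod_cast h1.trans h2
  have hy'y : y' ≤ y := by
    have : (y' : ℝ) ≤ y := by
      have h1 : (1 : ℝ) ≤ Λ := by linarith
      nlinarith
    exact_mod_cast this
  have hVy : V ≤ y := hVy'.trans hy'y
  have hP1 := H4 Λ y'' y' y W W' V a00 a0 φ' z ψ hΛ4 hT hA
  set P := ψ (y + V) with hP
  have hP0 : 0 ≤ ‖P‖ := norm_nonneg _
  have hS0 := hD.S0'
  have hψ := I3_aux_psi hP1 hC1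
    (fun n hn => (H1 y' y W W' V a0 z ψ g hin hA n hn).1)
    (H7 Λ y'' y' y W W' V a00 a0 φ' z ψ hΛ7 hT hA)
  have hK0 : 0 ≤ (2 + C1) * ‖P‖ := by positivity
  have hwf := fun j => (I3_aux_wf g hin hK0 hψ j).2
  have hbd := H3 y' y W W' V a0 z ψ g hin hA
  set w := wf a0 y W W' V ψ with hw

  have hG : ∀ n, (∑ j ∈ range (n + 1), (D j : ℂ)) = ((csum D n : ℝ) : ℂ) := by
    intro n; unfold csum; push_cast; rfl
  have hGV : ‖∑ j ∈ range V, (D j : ℂ)‖ ≤ ε * S := by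
    refine (norm_sum_le _ _).trans ?_
    refine le_trans (le_of_eq ?_) ((Finset.sum_le_sum_of_subset_of_nonneg
      (Finset.range_subset_range.2 hVy') fun i _ _ => abs_nonneg (D i)).trans hD.h5)
    exact Finset.sum_congr rfl fun i _ => by rw [Complex.norm_real, Real.norm_eq_abs]
  have hA1 : ‖∑ j ∈ range V, (D j : ℂ) * w j‖ ≤ 1201 * ((2 + C1) * ‖P‖) * (ε * S) := by
    refine (norm_sum_le _ _).trans ?_
    calc ∑ i ∈ range V, ‖(D i : ℂ) * w i‖ ≤ ∑ i ∈ range V, |D i| * (1201 * ((2 + C1) * ‖P‖)) := by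
          refine Finset.sum_le_sum fun i _ => ?_
          rw [norm_mul, Complex.norm_real, Real.norm_eq_abs]
          exact mul_le_mul_of_nonneg_left (hwf i) (abs_nonneg _)
      _ = (∑ i ∈ range V, |D i|) * (1201 * ((2 + C1) * ‖P‖)) := by rw [Finset.sum_mul]
      _ ≤ (ε * S) * (1201 * ((2 + C1) * ‖P‖)) := by
          refine mul_le_mul_of_nonneg_right ?_ (by positivity)
          exact (Finset.sum_le_sum_of_subset_of_nonneg
            (Finset.range_subset_range.2 hVy') fun i _ _ => abs_nonneg (D i)).trans hD.h5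
      _ = _ := by ring

  have hab1 := I3_aux_abel (fun j => (D j : ℂ)) w hVy
  have hy1 : y - 1 + 1 = y := Nat.sub_add_cancel (hy'.trans_le hy'y)
  have hGy : (∑ j ∈ range y, (D j : ℂ)) = ((csum D (y - 1) : ℝ) : ℂ) := by
    rw [← hG (y - 1), hy1]

  have hab2 := I3_aux_abel (fun j => ((csum D j : ℝ) : ℂ)) (fun j => w (j + 1) - w j) hVy
  have hH : ∀ n, n ≤ y → ‖∑ j ∈ range n, ((csum D j : ℝ) : ℂ)‖ ≤ 10 ^ 4 * y' * S := by
    intro n hn
    rcases Nat.eq_zero_or_pos n with h0 | h0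
    · subst h0
      simp only [Finset.range_zero, Finset.sum_empty, norm_zero]
      positivity
    · have := hD.h4 (n - 1) (by omega)
      rw [Nat.sub_add_cancel h0] at this
      rw [← Complex.ofReal_sum, Complex.norm_real, Real.norm_eq_abs]
      exact this
  have hB : ‖∑ j ∈ Ico V y, ((csum D j : ℝ) : ℂ) * (w (j + 1) - w j)‖
      ≤ 3 * 10 ^ 4 * C3 * (1 / Λ) * S := by
    rw [hab2]
    have b1 : ‖(∑ j ∈ range y, ((csum D j : ℝ) : ℂ)) * (w (y + 1) - w y)‖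
        ≤ 10 ^ 4 * y' * S * (C3 / y) := by
      rw [norm_mul]
      exact mul_le_mul (hH y le_rfl) (hbd y hVy).2.1 (norm_nonneg _) (by positivity)
    have b2 : ‖(∑ j ∈ range V, ((csum D j : ℝ) : ℂ)) * (w (V + 1) - w V)‖
        ≤ 10 ^ 4 * y' * S * (C3 / y) := by
      rw [norm_mul]
      exact mul_le_mul (hH V hVy) (hbd V le_rfl).2.1 (norm_nonneg _) (by positivity)
    have b3 : ‖∑ j ∈ Ico V y, (∑ i ∈ range (j + 1), ((csum D i : ℝ) : ℂ))
        * (w (j + 1 + 1) - w (j + 1) - (w (j + 1) - w j))‖ ≤ 10 ^ 4 * y' * S * (C3 / y) := by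
      refine (norm_sum_le _ _).trans ?_
      have : ∀ j ∈ Ico V y, ‖(∑ i ∈ range (j + 1), ((csum D i : ℝ) : ℂ))
          * (w (j + 1 + 1) - w (j + 1) - (w (j + 1) - w j))‖
          ≤ 10 ^ 4 * y' * S * (C3 / (y : ℝ) ^ 2) := by
        intro j hj
        have hj' := Finset.mem_Ico.1 hj
        rw [norm_mul]
        refine mul_le_mul (hH (j + 1) (by omega)) ?_ (norm_nonneg _) (by positivity)
        have := (hbd j hj'.1).2.2
        refine le_trans (le_of_eq ?_) this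
        congr 1
        have e : j + 1 + 1 = j + 2 := by omega
        rw [e]
        ring
      refine (Finset.sum_le_card_nsmul _ _ _ this).trans ?_
      rw [Nat.card_Ico, nsmul_eq_mul]
      have hle : ((y - V : ℕ) : ℝ) ≤ y := by exact_mod_cast Nat.sub_le _ _
      calc ((y - V : ℕ) : ℝ) * (10 ^ 4 * y' * S * (C3 / (y : ℝ) ^ 2))
          ≤ (y : ℝ) * (10 ^ 4 * y' * S * (C3 / (y : ℝ) ^ 2)) :=
            mul_le_mul_of_nonneg_right hle (by positivity)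
        _ = 10 ^ 4 * y' * S * (C3 / y) := by field_simp
    have b4 : 10 ^ 4 * (y' : ℝ) * S * (C3 / y) ≤ 10 ^ 4 * C3 * (1 / Λ) * S := by
      have : 10 ^ 4 * (y' : ℝ) * S * (C3 / y) = 10 ^ 4 * C3 * (y' / y) * S := by ring
      rw [this]
      gcongr
    refine (norm_sub_le _ _).trans ?_
    have := norm_sub_le ((∑ j ∈ range y, ((csum D j : ℝ) : ℂ)) * (w (y + 1) - w y))
      ((∑ j ∈ range V, ((csum D j : ℝ) : ℂ)) * (w (V + 1) - w V))
    linarith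

  have hwy : ‖w y - ((phi + 2 * ff : ℝ) : ℂ) * P‖ ≤ (C2 + C3) * (1 / Λ) := by
    have c1 := H2 Λ y'' y' y W W' V a00 a0 φ' z ψ hT hA (y + V) le_rfl
    have hmid : y + V < 3 * y - mid W W' := by
      have m1 : 10 ^ 6 * mid W W' ≤ y := by exact_mod_cast g.mid_le.2
      have m2 := g.V_small
      have m3 := g.y_pos
      omega
    have c2 := Cum_aF_p0 g hin (Nat.le_succ (y + V)) hmid
    rw [c2] at c1
    have c3 : ∀ k, ‖w (y + k) - w y‖ ≤ k * (C3 / y) := by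
      intro k
      induction k with
      | zero => simp
      | succ k ih =>
        have e : w (y + (k + 1)) - w y = (w (y + k + 1) - w (y + k)) + (w (y + k) - w y) := by
          rw [← add_assoc]; ring
        rw [e]
        refine (norm_add_le _ _).trans ?_
        have := (hbd (y + k) (by omega)).2.1
        push_cast
        linarith
    have c4 := c3 V
    have c5 : (V : ℝ) * (C3 / y) ≤ C3 * (1 / Λ) := by
      have h1 : (V : ℝ) ≤ y' := by exact_mod_cast hVy'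
      calc (V : ℝ) * (C3 / y) ≤ y' * (C3 / y) := mul_le_mul_of_nonneg_right h1 (by positivity)
        _ = C3 * (y' / y) := by ring
        _ ≤ C3 * (1 / Λ) := by gcongr
    have e : w y - ((phi + 2 * ff : ℝ) : ℂ) * P
        = -((2 * ((phi + ff : ℝ) : ℂ) - phi) * ψ (y + V) - wf a0 y W W' V ψ (y + V))
          - (w (y + V) - w y) := by
      rw [← hP, ← hw]
      push_cast
      ring
    rw [e]
    refine (norm_sub_le _ _).trans ?_
    rw [norm_neg]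
    have c6 : C2 / Λ = C2 * (1 / Λ) := by ring
    linarith

  have hsplit : ∑ j ∈ range y, (D j : ℂ) * w j
      = (∑ j ∈ range V, (D j : ℂ) * w j) + ∑ j ∈ Ico V y, (D j : ℂ) * w j := by
    rw [Finset.sum_range_add_sum_Ico _ hVy]
  have hv : |csum D (y - 1)| ≤ S := hD.h1 (y - 1) (by omega)
  have hfin : ∑ j ∈ range y, (D j : ℂ) * w j - P * (((phi + 2 * ff) * csum D (y - 1) : ℝ) : ℂ)
      = (∑ j ∈ range V, (D j : ℂ) * w j)
        + ((csum D (y - 1) : ℝ) : ℂ) * (w y - ((phi + 2 * ff : ℝ) : ℂ) * P)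
        - (∑ j ∈ range V, (D j : ℂ)) * w V
        - ∑ j ∈ Ico V y, ((csum D j : ℝ) : ℂ) * (w (j + 1) - w j) := by
    rw [hsplit, hab1, hGy]
    simp only [hG]
    push_cast
    ring
  rw [hfin]
  have d1 : ‖((csum D (y - 1) : ℝ) : ℂ) * (w y - ((phi + 2 * ff : ℝ) : ℂ) * P)‖
      ≤ S * ((C2 + C3) * (1 / Λ)) := by
    rw [norm_mul, Complex.norm_real, Real.norm_eq_abs]
    exact mul_le_mul hv hwy (norm_nonneg _) hS0
  have d2 : ‖(∑ j ∈ range V, (D j : ℂ)) * w V‖ ≤ ε * S * C3 := by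
    rw [norm_mul]
    exact mul_le_mul hGV (hbd V le_rfl).1 (norm_nonneg _) (by positivity)
  have d3 := norm_sub_le ((∑ j ∈ range V, (D j : ℂ) * w j)
        + ((csum D (y - 1) : ℝ) : ℂ) * (w y - ((phi + 2 * ff : ℝ) : ℂ) * P)
        - (∑ j ∈ range V, (D j : ℂ)) * w V)
        (∑ j ∈ Ico V y, ((csum D j : ℝ) : ℂ) * (w (j + 1) - w j))
  have d4 := norm_sub_le ((∑ j ∈ range V, (D j : ℂ) * w j)
        + ((csum D (y - 1) : ℝ) : ℂ) * (w y - ((phi + 2 * ff : ℝ) : ℂ) * P))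
        ((∑ j ∈ range V, (D j : ℂ)) * w V)
  have d5 := norm_add_le (∑ j ∈ range V, (D j : ℂ) * w j)
        (((csum D (y - 1) : ℝ) : ℂ) * (w y - ((phi + 2 * ff : ℝ) : ℂ) * P))
  have htot : ‖(∑ j ∈ range V, (D j : ℂ) * w j)
        + ((csum D (y - 1) : ℝ) : ℂ) * (w y - ((phi + 2 * ff : ℝ) : ℂ) * P)
        - (∑ j ∈ range V, (D j : ℂ)) * w V
        - ∑ j ∈ Ico V y, ((csum D j : ℝ) : ℂ) * (w (j + 1) - w j)‖
      ≤ 1201 * ((2 + C1) * ‖P‖) * (ε * S) + S * ((C2 + C3) * (1 / Λ)) + ε * S * C3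
        + 3 * 10 ^ 4 * C3 * (1 / Λ) * S := by linarith
  refine htot.trans ?_
  have hL : 0 ≤ 1 / Λ := by positivity
  have p1 : S * ((C2 + C3) * (1 / Λ)) ≤ (C2 + C3) * (1 / Λ + ε) * ‖P‖ * S := by
    have : S * ((C2 + C3) * (1 / Λ)) = (C2 + C3) * (1 / Λ) * 1 * S := by ring
    rw [this]
    gcongr
    linarith
  have p2 : ε * S * C3 ≤ C3 * (1 / Λ + ε) * ‖P‖ * S := by
    have : ε * S * C3 = C3 * ε * 1 * S := by ring
    rw [this]
    gcongr
    linarith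
  have p3 : 3 * 10 ^ 4 * C3 * (1 / Λ) * S ≤ 3 * 10 ^ 4 * C3 * (1 / Λ + ε) * ‖P‖ * S := by
    have : 3 * 10 ^ 4 * C3 * (1 / Λ) * S = 3 * 10 ^ 4 * C3 * (1 / Λ) * 1 * S := by ring
    rw [this]
    gcongr
    linarith
  have p4 : 1201 * ((2 + C1) * ‖P‖) * (ε * S) ≤ 1201 * (2 + C1) * (1 / Λ + ε) * ‖P‖ * S := by
    have : 1201 * ((2 + C1) * ‖P‖) * (ε * S) = 1201 * (2 + C1) * ε * ‖P‖ * S := by ring
    rw [this]
    gcongr
    linarith
  have p5 : 0 ≤ (C4 + C7) * (1 / Λ + ε) * ‖P‖ * S := by positivity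
  nlinarith [p1, p2, p3, p4, p5]

theorem AN_near : ∃ C : ℝ, 1 ≤ C ∧ ∀ (Λ ε : ℝ) (y'' y' y W W' V : ℕ) (a00 a0 : PS) (φ' : ℝ) (z : ℂ)
    (ψ : ℕ → ℂ) (D : ℕ → ℝ) (S : ℝ), C ≤ Λ → TD Λ y'' y' y W W' V a00 a0 φ' →
    Adj a0 y W W' V z ψ → DH ε y' y D S → 0 ≤ ε →
    ‖AN a0 y W W' V ψ D y
      - ψ (y + V) * ((2 * ff * csum D (y - 1)
          + phi * (2 * csum D (y - 1) - cv (ker a0) (csum D) (y - 1)) : ℝ) : ℂ)‖
      ≤ (1 / 50 * ff + C * (1 / Λ + ε)) * ‖ψ (y + V)‖ * S := by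
  obtain ⟨Ca, hCa, Ha⟩ := I2a
  obtain ⟨Cb, hCb, Hb⟩ := I2b
  obtain ⟨C1, hC1, H1⟩ := psi_bds
  obtain ⟨C4, hC4, H4⟩ := psi_one
  obtain ⟨C7, hC7, H7⟩ := psi_win
  refine ⟨Ca + Cb + C1 + C4 + C7, by linarith, ?_⟩
  intro Λ ε y'' y' y W W' V a00 a0 φ' z ψ D S hΛ hT hA hD hε
  have g := hT.geo
  have hin := hT.inn
  have hΛ0 : 0 < Λ := by linarith
  have ha := Ha Λ ε y'' y' y W W' V a00 a0 φ' z ψ D S (by linarith) hT hA hD
  have hb := Hb Λ ε y'' y' y W W' V a00 a0 φ' z ψ D S (by linarith) hT hA hD hε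
  have hP1 := H4 Λ y'' y' y W W' V a00 a0 φ' z ψ (by linarith) hT hA
  have hψ := I3_aux_psi hP1 hC1
    (fun n hn => (H1 y' y W W' V a0 z ψ g hin hA n hn).1)
    (H7 Λ y'' y' y W W' V a00 a0 φ' z ψ (by linarith) hT hA)
  have hK0 : 0 ≤ (2 + C1) * ‖ψ (y + V)‖ := by positivity
  have hS0 := hD.S0'
  have e : AN a0 y W W' V ψ D y
      - ψ (y + V) * ((2 * ff * csum D (y - 1)
          + phi * (2 * csum D (y - 1) - cv (ker a0) (csum D) (y - 1)) : ℝ) : ℂ)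
      = (∑ j ∈ range y, (D j : ℂ) * ∑' l, ((phi * coeff (y - j + l) (ker a0) : ℝ) : ℂ) * ψ (y + l)
      - ψ (y + V) * ((phi * (csum D (y - 1) - cv (ker a0) (csum D) (y - 1)) : ℝ) : ℂ))
      + (∑ j ∈ range y, (D j : ℂ) * wf a0 y W W' V ψ j
      - ψ (y + V) * (((phi + 2 * ff) * csum D (y - 1) : ℝ) : ℂ)) := by
    have e1 : AN a0 y W W' V ψ D y
        = ∑ j ∈ range y, (D j : ℂ) * ((∑' l, ((phi * coeff (y - j + l) (ker a0) : ℝ) : ℂ) * ψ (y + l))
        + wf a0 y W W' V ψ j) := by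
      unfold AN
      refine Finset.sum_congr rfl fun j hj => ?_
      rw [I3_aux_split g hin hK0 hψ (Finset.mem_range.1 hj)]
    rw [e1]
    simp only [mul_add, Finset.sum_add_distrib]
    push_cast
    ring
  rw [e]
  refine (norm_add_le _ _).trans ((add_le_add ha hb).trans ?_)
  have hff := I3_aux_ff.2
  have hP0 : 0 ≤ ‖ψ (y + V)‖ := norm_nonneg _
  have hL : 0 ≤ 1 / Λ := by positivity
  have q1 : Ca / Λ ≤ Ca * (1 / Λ + ε) := by
    have : Ca / Λ = Ca * (1 / Λ) := by ring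
    rw [this]
    gcongr
    linarith
  have q2 : 0 ≤ (C1 + C4 + C7) * (1 / Λ + ε) := by positivity
  have q3 : (1 / 100 * ff + Ca / Λ) + Cb * (1 / Λ + ε)
      ≤ 1 / 50 * ff + (Ca + Cb + C1 + C4 + C7) * (1 / Λ + ε) := by nlinarith
  have q4 := mul_le_mul_of_nonneg_right (mul_le_mul_of_nonneg_right q3 hP0) hS0
  nlinarith [q4]

end MP18
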