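import Pool.Agent.Lib.MP_18566a_pr.T.I1
import Pool.Agent.Lib.MP_18566a_pr.T.F4

set_option autoImplicit false

namespace MP18

open Finset PowerSeries

noncomputable def kbY (κ : ℝ) (y Y : ℕ) : ℝ := κ * ((Y : ℝ) - y) / y

noncomputable def FT (a0 : PS) (y W W' V : ℕ) (κ : ℝ) (YM : ℕ) : PS :=
  aT a0 y W W' V (kbY κ y YM) YM

/-- slope data -/
structure SL (κ : ℝ) (y YM : ℕ) : Prop where
  hY : 10 * y ≤ YM
  κ0 : 0 ≤ κ
  κ1 : κ ≤ 1
  kb : kbY κ y YM ≤ 1 / 10 ^ 90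

theorem kbY_nonneg {κ : ℝ} {y YM : ℕ} (s : SL κ y YM) : 0 ≤ kbY κ y YM := by
  unfold kbY
  have h1 : (y : ℝ) ≤ YM := by
    have := s.hY
    exact_mod_cast (by omega : y ≤ YM)
  exact div_nonneg (mul_nonneg s.κ0 (by linarith)) (Nat.cast_nonneg _)

theorem J0_coeff_aF (a0 : PS) (y W W' V n : ℕ) :
    coeff n (aF a0 y W W' V) = phi * coeff n a0 + coeff n (QQ y W W' V) := by
  unfold aF
  rw [map_add, PowerSeries.coeff_smul, smul_eq_mul]

theorem J0_coeff_FT (a0 : PS) (y W W' V : ℕ) (κ : ℝ) (YM n : ℕ) :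
    coeff n (FT a0 y W W' V κ YM) = coeff n (aF a0 y W W' V) + kbY κ y YM * coeff n (slo y YM) := by
  unfold FT aT
  rw [map_add, PowerSeries.coeff_smul, smul_eq_mul]

theorem J0_Cum_FT (a0 : PS) (y W W' V : ℕ) (κ : ℝ) (YM n : ℕ) :
    Cum (FT a0 y W W' V κ YM) n = Cum (aF a0 y W W' V) n + kbY κ y YM * Cum (slo y YM) n := by
  unfold Cum
  rw [mul_sum, ← sum_add_distrib]
  exact sum_congr rfl fun j _ => J0_coeff_FT a0 y W W' V κ YM j

theorem J0_yY {y' y W W' V YM : ℕ} {κ : ℝ} (g : Geo y' y W W' V) (s : SL κ y YM) : y < YM := by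
  have h1 := g.y_pos
  have h2 := s.hY
  omega

theorem J0_phi_pos : 0 < phi := by
  have := phi_bd.1
  linarith

theorem FT_coeff_low {y' y W W' V YM n : ℕ} {a0 : PS} {κ : ℝ} (g : Geo y' y W W' V)
    (h : In y' y a0) (s : SL κ y YM) (hn : n < y) :
    coeff n (FT a0 y W W' V κ YM) = phi * coeff n a0 := by
  rw [J0_coeff_FT, J0_coeff_aF, QQ_low g n hn, F1_slo_lo hn]
  ring

theorem FT_coeff_ge {y' y W W' V YM n : ℕ} {a0 : PS} {κ : ℝ} (g : Geo y' y W W' V)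
    (h : In y' y a0) (s : SL κ y YM) (hn : y ≤ n) (hn2 : n < YM) :
    coeff n (FT a0 y W W' V κ YM) = coeff n (aF a0 y W W' V) + κ / y := by
  have hy := g.y_pos
  have hyY := J0_yY g s
  have h1 : (0 : ℝ) < y := by exact_mod_cast hy
  have h2 : (0 : ℝ) < (YM : ℝ) - y := by
    have : (y : ℝ) < YM := by exact_mod_cast hyY
    linarith
  rw [J0_coeff_FT, slo_coeff hyY, if_pos ⟨hn, hn2⟩]
  unfold kbY
  field_simp

theorem FT_nn {y' y W W' V YM : ℕ} {a0 : PS} {κ : ℝ} (g : Geo y' y W W' V)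
    (h : In y' y a0) (s : SL κ y YM) (n : ℕ) : 0 ≤ coeff n (FT a0 y W W' V κ YM) := by
  rw [J0_coeff_FT, J0_coeff_aF]
  have h1 := mul_nonneg J0_phi_pos.le (h.lb.nn n)
  have h2 := QQ_nn y W W' V n
  have h3 := mul_nonneg (kbY_nonneg s) (slo_nn y YM n)
  linarith

theorem FT_pos {y' y W W' V YM : ℕ} {a0 : PS} {κ : ℝ} (g : Geo y' y W W' V)
    (h : In y' y a0) (s : SL κ y YM) : 0 < coeff 0 (FT a0 y W W' V κ YM) := by
  rw [FT_coeff_low g h s g.y_pos]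
  exact mul_pos J0_phi_pos h.lb.pos

theorem J0_Cum_slo_nonneg (y YM n : ℕ) : 0 ≤ Cum (slo y YM) n :=
  sum_nonneg fun j _ => slo_nn y YM j

theorem J0_Cum_slo_le {y YM : ℕ} (h : y < YM) (n : ℕ) : Cum (slo y YM) n ≤ 1 := by
  have h1 := Bd_slo h (le_refl (1 : ℝ))
  rw [one_pow] at h1
  exact (le_abs_self _).trans (Cum_le h1 n)

theorem Cum_FT {y' y W W' V YM n : ℕ} {a0 : PS} {κ : ℝ} (g : Geo y' y W W' V)
    (h : In y' y a0) (s : SL κ y YM) :
    Cum (aF a0 y W W' V) n ≤ Cum (FT a0 y W W' V κ YM) n ∧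
    Cum (FT a0 y W W' V κ YM) n ≤ Cum (aF a0 y W W' V) n + kbY κ y YM := by
  rw [J0_Cum_FT]
  have h1 := kbY_nonneg s
  have h2 := J0_Cum_slo_nonneg y YM n
  have h3 := J0_Cum_slo_le (J0_yY g s) n
  constructor
  · have := mul_nonneg h1 h2
    linarith
  · have := mul_le_mul_of_nonneg_left h3 h1
    linarith

theorem Cum_FT_low {y' y W W' V YM n : ℕ} {a0 : PS} {κ : ℝ} (g : Geo y' y W W' V)
    (h : In y' y a0) (s : SL κ y YM) (hn : n < y) :
    Cum (FT a0 y W W' V κ YM) n = phi * Cum a0 n := by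
  unfold Cum
  rw [mul_sum]
  refine sum_congr rfl fun j hj => ?_
  rw [mem_range] at hj
  exact FT_coeff_low g h s (by omega)

theorem J0_Cum_slo {y YM : ℕ} (h : y < YM) {m : ℕ} (h1 : y ≤ m) (h2 : m ≤ YM) :
    ∑ j ∈ range m, coeff j (slo y YM) = ((m : ℝ) - y) * (1 / ((YM : ℝ) - y)) := by
  induction m, h1 using Nat.le_induction with
  | base =>
    rw [sub_self, zero_mul]
    refine sum_eq_zero fun j hj => ?_
    rw [mem_range] at hj
    exact F1_slo_lo hj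
  | succ m hm ih =>
    rw [sum_range_succ, ih (by omega), slo_coeff h, if_pos ⟨hm, by omega⟩]
    push_cast
    ring

theorem Cum_FT_plat {y' y W W' V YM n : ℕ} {a0 : PS} {κ : ℝ} (g : Geo y' y W W' V)
    (h : In y' y a0) (s : SL κ y YM) (hn : N0 y ≤ n + 1) (hn2 : n < YM) :
    Cum (FT a0 y W W' V κ YM) n = 1 + κ * ((n : ℝ) + 1 - y) / y := by
  have hy := g.y_pos
  have hyY := J0_yY g s
  have h1 : (0 : ℝ) < y := by exact_mod_cast hy
  have h2 : (0 : ℝ) < (YM : ℝ) - y := by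
    have : (y : ℝ) < YM := by exact_mod_cast hyY
    linarith
  have h3 : y ≤ n + 1 := by
    unfold N0 at hn
    omega
  rw [J0_Cum_FT, Cum_aF_one g h hn]
  have h4 : Cum (slo y YM) n = (((n + 1 : ℕ) : ℝ) - y) * (1 / ((YM : ℝ) - y)) :=
    J0_Cum_slo hyY h3 (by omega)
  rw [h4]
  unfold kbY
  push_cast
  field_simp

theorem J0_kb_small {κ : ℝ} {y YM : ℕ} (s : SL κ y YM) :
    kbY κ y YM * 1 ^ YM ≤ 1 / 1000 := by
  rw [one_pow, mul_one]
  refine s.kb.trans ?_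
  norm_num

theorem Bd_ker_diff {y' y W W' V YM : ℕ} {a0 : PS} {κ : ℝ} (g : Geo y' y W W' V)
    (h : In y' y a0) (s : SL κ y YM) :
    Bd 1 (ker (FT a0 y W W' V κ YM) - ker (aF a0 y W W' V)) (10 ^ 80 * kbY κ y YM) := by
  have h1 := DT_bd g h (Adm_one (y := y)) s.hY (kbY_nonneg s) (J0_kb_small s)
  rw [one_pow, mul_one] at h1
  exact h1

theorem Bd_ker_FT {y' y W W' V YM : ℕ} {a0 : PS} {κ : ℝ} (g : Geo y' y W W' V)
    (h : In y' y a0) (s : SL κ y YM) : Bd 1 (ker (FT a0 y W W' V κ YM)) 38 := by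
  have h1 := D14 g h (Adm_one (y := y))
  have h2 := Bd_add zero_le_one h1 (Bd_ker_diff g h s)
  rw [add_sub_cancel] at h2
  refine Bd_mono h2 ?_
  have h3 : (10 : ℝ) ^ 80 * kbY κ y YM ≤ 10 ^ 80 * (1 / 10 ^ 90) :=
    mul_le_mul_of_nonneg_left s.kb (by positivity)
  have h4 : (10 : ℝ) ^ 80 * (1 / 10 ^ 90) ≤ 0.15 := by norm_num
  linarith

theorem ker_FT_low {y' y W W' V YM l : ℕ} {a0 : PS} {κ : ℝ} (g : Geo y' y W W' V)
    (h : In y' y a0) (s : SL κ y YM) (hl : l < y) :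
    coeff l (ker (FT a0 y W W' V κ YM)) = phi * coeff l (ker a0) :=
  DT_low g h s.hY (kbY_nonneg s) l hl

theorem FT_trunc {y W W' V YM Y l : ℕ} {a0 : PS} {κ : ℝ} (hy : 0 < y) (h1 : y < Y) (h2 : Y ≤ YM)
    (hl : l < Y) :
    coeff l (FT a0 y W W' V κ YM) = coeff l (aT a0 y W W' V (kbY κ y Y) Y) := by
  have e : coeff l (aT a0 y W W' V (kbY κ y Y) Y) =
      coeff l (aF a0 y W W' V) + kbY κ y Y * coeff l (slo y Y) := J0_coeff_FT a0 y W W' V κ Y l
  rw [e, J0_coeff_FT]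
  congr 1
  have p1 : (0 : ℝ) < y := by exact_mod_cast hy
  have p2 : (0 : ℝ) < (Y : ℝ) - y := by
    have : (y : ℝ) < Y := by exact_mod_cast h1
    linarith
  have p3 : (0 : ℝ) < (YM : ℝ) - y := by
    have : (y : ℝ) < YM := by exact_mod_cast (by omega : y < YM)
    linarith
  rw [slo_coeff h1, slo_coeff (by omega)]
  by_cases hyl : y ≤ l
  · rw [if_pos ⟨hyl, by omega⟩, if_pos ⟨hyl, hl⟩]
    unfold kbY
    field_simp
  · rw [if_neg (fun q => hyl q.1), if_neg (fun q => hyl q.1)]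
    ring

theorem FT_diff {y' y W W' V YM n : ℕ} {a0 : PS} {κ : ℝ} (g : Geo y' y W W' V)
    (h : In y' y a0) (s : SL κ y YM) (hn : y ≤ n) :
    |coeff n (FT a0 y W W' V κ YM)| ≤ 2 / y' := by
  have hy := g.y_pos
  have hyY := J0_yY g s
  have p1 : (0 : ℝ) < y := by exact_mod_cast hy
  have p1' : (0 : ℝ) < y' := by exact_mod_cast g.pos
  have p2 : (0 : ℝ) < (YM : ℝ) - y := by
    have : (y : ℝ) < YM := by exact_mod_cast hyY
    linarith
  have h1 := aF_coeff_bd' g h hn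
  have h2 : |kbY κ y YM * coeff n (slo y YM)| ≤ κ / y := by
    rw [slo_coeff hyY]
    split_ifs with hh
    · rw [abs_of_nonneg (mul_nonneg (kbY_nonneg s) (by positivity))]
      apply le_of_eq
      unfold kbY
      field_simp
    · rw [mul_zero, abs_zero]
      exact div_nonneg s.κ0 p1.le
  have h3 : κ / y ≤ 1 / y' := by
    have h4 : (y' : ℝ) ≤ y := by
      have h5 := g.y'_le
      exact_mod_cast (by omega : y' ≤ y)
    exact div_le_div₀ zero_le_one s.κ1 p1' h4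
  rw [J0_coeff_FT]
  have h6 := abs_add_le (coeff n (aF a0 y W W' V)) (kbY κ y YM * coeff n (slo y YM))
  have h7 : (2 : ℝ) / y' = 1 / y' + 1 / y' := by ring
  rw [h7]
  linarith

end MP18
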