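import Pool.Agent.Lib.MP_18566a_pr.T.J0

set_option autoImplicit false

namespace MP18

open Finset PowerSeries

/-- forward equation on `[y, N)` -/
def Eqn (a0 : PS) (y W W' V : ℕ) (κ : ℝ) (YM N : ℕ) (D : ℕ → ℝ) : Prop :=
  ∀ n, y ≤ n → n < N → (2 * Cum (FT a0 y W W' V κ YM) n - D n) * D n
    = cv (ker (FT a0 y W W' V κ YM)) D n

theorem J1_step {k κ0 : PS} {F D : ℕ → ℝ} {c A M : ℝ} {n1 n2 : ℕ} (hk : Bd 1 k 38)
    (hsp : SP κ0 c A) (h0 : ∀ l, n1 + l < n2 → coeff l k = phi * coeff l κ0)
    (hM : ∀ n < n1, |D n| ≤ M) (hM0 : 0 ≤ M)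
    (heq : ∀ n, n1 ≤ n → n < n2 → (2 * F n - D n) * D n = cv k D n)
    (hc : ∀ n, n1 ≤ n → n < n2 → c ≤ (F n - D n / 2) / phi) :
    ∀ n, n1 ≤ n → n < n2 → |D n| ≤ A * (38 * M / phi) := by
  have hphi := J0_phi_pos
  refine SP_forward hsp hc (g := fun n => 2 * ((F n - D n / 2) / phi) * D n
    - ∑ l ∈ range (n - n1 + 1), coeff l κ0 * D (n - l)) (fun n _ _ => rfl) ?_
  intro n hn1 hn2
  have h1 := heq n hn1 hn2
  unfold cv at h1
  have h2 : ∑ l ∈ range (n + 1), coeff l k * D (n - l) =
      (∑ l ∈ range (n - n1 + 1), coeff l k * D (n - l)) +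
        ∑ l ∈ Ico (n - n1 + 1) (n + 1), coeff l k * D (n - l) := by
    rw [range_eq_Ico, range_eq_Ico, sum_Ico_consecutive _ (Nat.zero_le _) (by omega)]
  have h3 : ∑ l ∈ range (n - n1 + 1), coeff l k * D (n - l) =
      phi * ∑ l ∈ range (n - n1 + 1), coeff l κ0 * D (n - l) := by
    rw [mul_sum]
    refine sum_congr rfl fun l hl => ?_
    rw [mem_range] at hl
    rw [h0 l (by omega), mul_assoc]
  rw [h2, h3] at h1
  have h4 : 2 * ((F n - D n / 2) / phi) * D n
      - ∑ l ∈ range (n - n1 + 1), coeff l κ0 * D (n - l) =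
      (∑ l ∈ Ico (n - n1 + 1) (n + 1), coeff l k * D (n - l)) / phi := by
    field_simp
    linarith
  show |2 * ((F n - D n / 2) / phi) * D n
      - ∑ l ∈ range (n - n1 + 1), coeff l κ0 * D (n - l)| ≤ 38 * M / phi
  rw [h4, abs_div, abs_of_pos hphi]
  apply div_le_div_of_nonneg_right _ hphi.le
  calc |∑ l ∈ Ico (n - n1 + 1) (n + 1), coeff l k * D (n - l)|
      ≤ ∑ l ∈ Ico (n - n1 + 1) (n + 1), |coeff l k * D (n - l)| := abs_sum_le_sum_abs _ _
    _ ≤ ∑ l ∈ Ico (n - n1 + 1) (n + 1), |coeff l k| * M := by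
        refine sum_le_sum fun l hl => ?_
        rw [mem_Ico] at hl
        rw [abs_mul]
        exact mul_le_mul_of_nonneg_left (hM _ (by omega)) (abs_nonneg _)
    _ ≤ ∑ l ∈ range (n + 1), |coeff l k| * M := by
        refine sum_le_sum_of_subset_of_nonneg ?_ fun l _ _ => mul_nonneg (abs_nonneg _) hM0
        intro l hl
        rw [mem_Ico] at hl
        rw [mem_range]
        omega
    _ = (∑ l ∈ range (n + 1), |coeff l k| * 1 ^ l) * M := by
        rw [sum_mul]
        exact sum_congr rfl fun l _ => by rw [one_pow, mul_one]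
    _ ≤ 38 * M := mul_le_mul_of_nonneg_right (hk (n + 1)) hM0

theorem fwd_apriori : ∃ K : ℝ, 1 ≤ K ∧ ∀ (Λ : ℝ) (y'' y' y W W' V : ℕ) (a00 a0 : PS) (φ' κ : ℝ)
    (YM N : ℕ) (D : ℕ → ℝ) (B : ℝ), TD Λ y'' y' y W W' V a00 a0 φ' → SL κ y YM → N ≤ YM → 0 ≤ B →
    (∀ n < y, |D n| ≤ B) → Eqn a0 y W W' V κ YM N D → (∀ n < N, |D n| ≤ ff / 10) →
    ∀ n < N, |D n| ≤ K ^ (n / y + 1) * B := by
  have hphi := J0_phi_pos
  have hphi1 := phi_bd.1
  have hff := ff_pos
  have hff1 : ff ≤ 1 / 10 ^ 10 := by
    unfold ff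
    norm_num
  obtain ⟨K, hKdef⟩ : ∃ K : ℝ, K = 1000 * A0 := ⟨_, rfl⟩
  have hA0 : (1 : ℝ) ≤ A0 := by
    unfold A0
    norm_num
  have hA1 : A1 ≤ A0 := by
    unfold A0 A1
    norm_num
  have hA1' : 0 < A1 := by
    unfold A1
    norm_num
  have hK1 : 1 ≤ K := by linarith
  have hK0 : 0 ≤ K := by linarith
  have key0 : A0 * (38 / phi) ≤ K := by
    have h1 : 38 / phi ≤ 1000 := by
      rw [div_le_iff₀ hphi]
      linarith
    rw [hKdef, mul_comm 1000]
    exact mul_le_mul_of_nonneg_left h1 (by linarith)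
  have key1 : A1 * (38 / phi) ≤ K :=
    (mul_le_mul_of_nonneg_right hA1 (by positivity)).trans key0
  refine ⟨K, hK1, ?_⟩
  intro Λ y'' y' y W W' V a00 a0 φ' κ YM N D B td s hN hB hD0 he hD n hn
  have g := td.geo
  have h := td.inn
  have hy := g.y_pos
  have hV := g.V_le
  have hyy := g.y'_le
  have hkb := Bd_ker_FT g h s
  have claim : ∀ i n : ℕ, n < N → n < y + V + i * y → |D n| ≤ K ^ (i + 1) * B := by
    intro i
    induction i with
    | zero =>
      intro n hn hn2
      have hB1 : B ≤ K ^ (0 + 1) * B := by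
        rw [zero_add, pow_one]
        exact le_mul_of_one_le_left hB hK1
      rcases lt_or_ge n y with hny | hny
      · exact (hD0 n hny).trans hB1
      · have h1 := J1_step (n1 := y) (n2 := min N (y + V)) (M := B)
          (F := Cum (FT a0 y W W' V κ YM)) (D := D) hkb (td.lb00.s1 φ' td.φ0 td.φ1)
          (fun l hl => by
            have hl2 : l < y' := by
              have := lt_of_lt_of_le hl (min_le_right _ _)
              omega
            rw [ker_FT_low g h s (by omega), td.win l hl2, PowerSeries.coeff_smul, smul_eq_mul])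
          hD0 hB
          (fun n hn1 hn2 => he n hn1 (lt_of_lt_of_le hn2 (min_le_left _ _)))
          (fun n hn1 hn2 => by
            have a1 := (Cum_aF_ge g h (by omega : y ≤ n + 1)).1
            have a2 := (Cum_FT (n := n) g h s).1
            have a3 := abs_le.1 (hD n (lt_of_lt_of_le hn2 (min_le_left _ _)))
            rw [le_div_iff₀ hphi]
            nlinarith [a3.2]) n hny (lt_min hn (by omega))
        calc |D n| ≤ A1 * (38 * B / phi) := h1
          _ = (A1 * (38 / phi)) * B := by ring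
          _ ≤ K * B := mul_le_mul_of_nonneg_right key1 hB
          _ = K ^ (0 + 1) * B := by ring
    | succ i ih =>
      intro n hn hn2
      have hM0 : 0 ≤ K ^ (i + 1) * B := mul_nonneg (pow_nonneg hK0 _) hB
      have hM1 : K ^ (i + 1) * B ≤ K ^ (i + 1 + 1) * B :=
        mul_le_mul_of_nonneg_right (pow_le_pow_right₀ hK1 (by omega)) hB
      rcases lt_or_ge n (y + V + i * y) with hny | hny
      · exact (ih n hn hny).trans hM1
      · have hs0 := h.lb.s0 1 (le_refl 1) (by
          have : 0 ≤ nu / y' := by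
            unfold nu
            positivity
          linarith)
        rw [PowerSeries.rescale_one, RingHom.id_apply] at hs0
        have h1 := J1_step (n1 := y + V + i * y) (n2 := min N (y + V + (i + 1) * y))
          (M := K ^ (i + 1) * B)
          (F := Cum (FT a0 y W W' V κ YM)) (D := D) hkb hs0
          (fun l hl => by
            have hl2 : l < y := by
              have := lt_of_lt_of_le hl (min_le_right _ _)
              rw [add_mul, one_mul] at this
              omega
            exact ker_FT_low g h s hl2)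
          (fun n hn1 => ih n (by omega) hn1) hM0
          (fun n hn1 hn2 => he n (by omega) (lt_of_lt_of_le hn2 (min_le_left _ _)))
          (fun n hn1 hn2 => by
            have a1 := Cum_aF_ge' g h (by omega : y + V ≤ n + 1)
            have a2 := (Cum_FT (n := n) g h s).1
            have a3 := abs_le.1 (hD n (lt_of_lt_of_le hn2 (min_le_left _ _)))
            rw [le_div_iff₀ hphi]
            have a4 : c0 * phi = phi + 9 / 10 * ff := by
              unfold c0 bb
              field_simp
            rw [a4]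
            linarith [a3.2]) n hny (lt_min hn hn2)
        calc |D n| ≤ A0 * (38 * (K ^ (i + 1) * B) / phi) := h1
          _ = (A0 * (38 / phi)) * (K ^ (i + 1) * B) := by ring
          _ ≤ K * (K ^ (i + 1) * B) := mul_le_mul_of_nonneg_right key0 hM0
          _ = K ^ (i + 1 + 1) * B := by ring
  apply claim (n / y) n hn
  have h1 := Nat.lt_succ_self (n / y)
  have h2 : n < (n / y + 1) * y := (Nat.div_lt_iff_lt_mul hy).1 h1
  rw [add_mul, one_mul] at h2
  omega

end MP18
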