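import Pool.Agent.Lib.MP_18566a_pr.T.J1

set_option autoImplicit false

namespace MP18

open Finset PowerSeries

theorem J2_quad {p g : ℝ} (hp : 1 / 5 ≤ p) (hg : |g| ≤ 1 / 1000) :
    ∃ x : ℝ, p * x - x ^ 2 = g ∧ |x| ≤ 10 * |g| := by
  have h1 := (abs_le.1 hg).2
  have hd : 0 ≤ p ^ 2 - 4 * g := by nlinarith
  obtain ⟨s, hs⟩ : ∃ s : ℝ, s = Real.sqrt (p ^ 2 - 4 * g) := ⟨_, rfl⟩
  have hs0 : 0 ≤ s := by
    rw [hs]
    exact Real.sqrt_nonneg _
  have hs2 : s ^ 2 = p ^ 2 - 4 * g := by
    rw [hs]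
    exact Real.sq_sqrt hd
  refine ⟨(p - s) / 2, by nlinarith, ?_⟩
  have h2 : (p - s) / 2 * (p + s) = 2 * g := by nlinarith
  have h3 : |(p - s) / 2| * (p + s) = 2 * |g| := by
    have h4 := congrArg abs h2
    rw [abs_mul, abs_mul, abs_of_nonneg (by linarith : 0 ≤ p + s), abs_two] at h4
    exact h4
  have h5 : 0 ≤ |(p - s) / 2| := abs_nonneg _
  nlinarith

theorem fwd_exists (Lm : ℕ) : ∃ K δ : ℝ, 1 ≤ K ∧ 0 < δ ∧ ∀ (Λ : ℝ) (y'' y' y W W' V : ℕ)
    (a00 a0 : PS) (φ' κ : ℝ) (YM : ℕ) (d : ℕ → ℝ) (B : ℝ), TD Λ y'' y' y W W' V a00 a0 φ' →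
    SL κ y YM → YM ≤ Lm * y → 0 ≤ B → B ≤ δ → (∀ n < y, |d n| ≤ B) →
    ∃ D : ℕ → ℝ, (∀ n < y, D n = d n) ∧ Eqn a0 y W W' V κ YM YM D ∧ (∀ n < YM, |D n| ≤ ff / 10) := by
  obtain ⟨K, hK1, hK⟩ := fwd_apriori
  have hK0 : 0 < K := by linarith
  have hff := ff_pos
  have hff1 : ff ≤ 1 := by
    unfold ff
    norm_num
  obtain ⟨δ, hδ⟩ : ∃ δ : ℝ, δ = ff / (10 ^ 6 * K ^ (Lm + 3)) := ⟨_, rfl⟩
  have hδ0 : 0 < δ := by
    rw [hδ]
    positivity
  refine ⟨K, δ, hK1, hδ0, ?_⟩
  intro Λ y'' y' y W W' V a00 a0 φ' κ YM d B td s hYM hB hBδ hd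
  have g := td.geo
  have h := td.inn
  have hy := g.y_pos
  have hyY := J0_yY g s
  have hkb := Bd_ker_FT g h s

  have hM : K ^ (Lm + 1) * B ≤ ff / 10 ^ 6 := by
    have h1 : K ^ (Lm + 1) ≤ K ^ (Lm + 3) := pow_le_pow_right₀ hK1 (by omega)
    calc K ^ (Lm + 1) * B ≤ K ^ (Lm + 3) * δ :=
          mul_le_mul h1 hBδ hB (by positivity)
      _ = ff / 10 ^ 6 := by
          rw [hδ]
          field_simp
  have hM0 : 0 ≤ K ^ (Lm + 1) * B := by positivity
  have hBM : B ≤ K ^ (Lm + 1) * B := le_mul_of_one_le_left hB (one_le_pow₀ hK1)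
  have claim : ∀ N, y ≤ N → N ≤ YM → ∃ D : ℕ → ℝ, (∀ n < y, D n = d n) ∧
      Eqn a0 y W W' V κ YM N D ∧ (∀ n < N, |D n| ≤ ff / 10) := by
    intro N hN
    induction N, hN using Nat.le_induction with
    | base =>
      intro _
      refine ⟨d, fun _ _ => rfl, ?_, ?_⟩
      · intro n h1 h2
        omega
      · intro n hn
        have h1 := hd n hn
        linarith
    | succ N hN ih =>
      intro hN1
      obtain ⟨D, hD1, hD2, hD3⟩ := ih (by omega)
      have hap := hK Λ y'' y' y W W' V a00 a0 φ' κ YM N D B td s (by omega) hB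
        (fun n hn => by rw [hD1 n hn]; exact hd n hn) hD2 hD3
      have hDM : ∀ n < N, |D n| ≤ K ^ (Lm + 1) * B := by
        intro n hn
        have h1 : n / y < Lm := by
          rw [Nat.div_lt_iff_lt_mul hy]
          omega
        exact (hap n hn).trans (mul_le_mul_of_nonneg_right
          (pow_le_pow_right₀ hK1 (by omega)) hB)
      obtain ⟨k, hk⟩ : ∃ k : PS, k = ker (FT a0 y W W' V κ YM) := ⟨_, rfl⟩
      obtain ⟨F, hF⟩ : ∃ F : ℝ, F = Cum (FT a0 y W W' V κ YM) N := ⟨_, rfl⟩
      obtain ⟨gg, hgg⟩ : ∃ gg : ℝ, gg = ∑ l ∈ Ico 1 (N + 1), coeff l k * D (N - l) := ⟨_, rfl⟩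
      have hgb : |gg| ≤ 38 * (K ^ (Lm + 1) * B) := by
        rw [hgg]
        calc |∑ l ∈ Ico 1 (N + 1), coeff l k * D (N - l)|
            ≤ ∑ l ∈ Ico 1 (N + 1), |coeff l k * D (N - l)| := abs_sum_le_sum_abs _ _
          _ ≤ ∑ l ∈ Ico 1 (N + 1), |coeff l k| * (K ^ (Lm + 1) * B) := by
              refine sum_le_sum fun l hl => ?_
              rw [mem_Ico] at hl
              rw [abs_mul]
              exact mul_le_mul_of_nonneg_left (hDM _ (by omega)) (abs_nonneg _)
          _ ≤ ∑ l ∈ range (N + 1), |coeff l k| * (K ^ (Lm + 1) * B) := by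
              refine sum_le_sum_of_subset_of_nonneg ?_ fun l _ _ => mul_nonneg (abs_nonneg _) hM0
              intro l hl
              rw [mem_Ico] at hl
              rw [mem_range]
              omega
          _ = (∑ l ∈ range (N + 1), |coeff l k| * 1 ^ l) * (K ^ (Lm + 1) * B) := by
              rw [sum_mul]
              exact sum_congr rfl fun l _ => by rw [one_pow, mul_one]
          _ ≤ 38 * (K ^ (Lm + 1) * B) := by
              rw [hk]
              exact mul_le_mul_of_nonneg_right (hkb (N + 1)) hM0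
      have hnn := FT_nn g h s
      have hpos := FT_pos g h s
      have hk0 : coeff 0 k ≤ F := by
        rw [hk, hF, coeff_zero_ker hpos.ne']
        have h1 := Cum_mono hnn (Nat.zero_le N)
        have h2 : Cum (FT a0 y W W' V κ YM) 0 = coeff 0 (FT a0 y W W' V κ YM) := by
          unfold Cum
          rw [zero_add, sum_range_one]
        rw [h2] at h1
        exact h1
      have hFphi : 1 / 5 ≤ F := by
        rw [hF]
        have a1 := (Cum_aF_ge g h (by omega : y ≤ N + 1)).1
        have a2 := (Cum_FT (n := N) g h s).1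
        have a3 := phi_bd.1
        linarith
      obtain ⟨x, hx1, hx2⟩ := J2_quad (p := 2 * F - coeff 0 k) (g := gg) (by linarith) (by linarith)
      have hupd : ∀ n < N, Function.update D N x n = D n := fun n hn =>
        Function.update_of_ne (by omega) _ _
      refine ⟨Function.update D N x, fun n hn => ?_, ?_, ?_⟩
      · rw [hupd n (by omega)]
        exact hD1 n hn
      · intro n h1 h2
        rcases Nat.lt_succ_iff_lt_or_eq.1 h2 with h3 | h3
        · rw [hupd n h3, hD2 n h1 h3]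
          exact cv_congr_right fun l hl => (hupd l (by omega)).symm
        · rw [h3, Function.update_self]
          rw [← hk, ← hF]
          have h4 : cv k (Function.update D N x) N = coeff 0 k * x + gg := by
            unfold cv
            rw [range_eq_Ico, sum_eq_sum_Ico_succ_bot (by omega), Nat.sub_zero,
              Function.update_self, hgg]
            congr 1
            refine sum_congr rfl fun l hl => ?_
            rw [mem_Ico] at hl
            rw [hupd _ (by omega)]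
          rw [h4]
          linarith
      · intro n hn
        rcases Nat.lt_succ_iff_lt_or_eq.1 hn with h3 | h3
        · rw [hupd n h3]
          exact hD3 n h3
        · rw [h3, Function.update_self]
          linarith
  obtain ⟨D, h1, h2, h3⟩ := claim YM hyY.le le_rfl
  exact ⟨D, h1, h2, h3⟩

end MP18
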