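import Pool.Agent.Lib.MP_18566a_pr.T.J1

set_option autoImplicit false

namespace MP18

open Finset PowerSeries

noncomputable def dd (D : ℕ → ℝ) (n : ℕ) : ℝ := if n = 0 then D 0 else D n - D (n - 1)

theorem J3_phi_pos : 0 < phi := by
  have := phi_bd.1
  linarith

theorem J3_step {k κ0 : PS} {cf u : ℕ → ℝ} {c A M S : ℝ} {n1 n2 : ℕ} (hk : Bd 1 k 38)
    (hsp : SP κ0 c A) (h0 : ∀ l, n1 + l < n2 → coeff l k = phi * coeff l κ0)
    (hM : ∀ n < n1, |u n| ≤ M) (hM0 : 0 ≤ M)
    (heq : ∀ n, n1 ≤ n → n < n2 → |2 * cf n * u n - cv k u n| ≤ S)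
    (hc : ∀ n, n1 ≤ n → n < n2 → c ≤ cf n / phi) :
    ∀ n, n1 ≤ n → n < n2 → |u n| ≤ A * ((38 * M + S) / phi) := by
  have hphi := J3_phi_pos
  refine SP_forward hsp hc (g := fun n => 2 * (cf n / phi) * u n
    - ∑ l ∈ range (n - n1 + 1), coeff l κ0 * u (n - l)) (fun n _ _ => rfl) ?_
  intro n hn1 hn2
  have h1 := heq n hn1 hn2
  unfold cv at h1
  have h2 : ∑ l ∈ range (n + 1), coeff l k * u (n - l) =
      (∑ l ∈ range (n - n1 + 1), coeff l k * u (n - l)) +
        ∑ l ∈ Ico (n - n1 + 1) (n + 1), coeff l k * u (n - l) := by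
    rw [range_eq_Ico, range_eq_Ico, sum_Ico_consecutive _ (Nat.zero_le _) (by omega)]
  have h3 : ∑ l ∈ range (n - n1 + 1), coeff l k * u (n - l) =
      phi * ∑ l ∈ range (n - n1 + 1), coeff l κ0 * u (n - l) := by
    rw [mul_sum]
    refine sum_congr rfl fun l hl => ?_
    rw [mem_range] at hl
    rw [h0 l (by omega), mul_assoc]
  have h5 : |∑ l ∈ Ico (n - n1 + 1) (n + 1), coeff l k * u (n - l)| ≤ 38 * M := by
    calc |∑ l ∈ Ico (n - n1 + 1) (n + 1), coeff l k * u (n - l)|
        ≤ ∑ l ∈ Ico (n - n1 + 1) (n + 1), |coeff l k * u (n - l)| := abs_sum_le_sum_abs _ _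
      _ ≤ ∑ l ∈ Ico (n - n1 + 1) (n + 1), |coeff l k| * M := by
          refine sum_le_sum fun l hl => ?_
          rw [mem_Ico] at hl
          rw [abs_mul]
          exact mul_le_mul_of_nonneg_left (hM _ (by omega)) (abs_nonneg _)
      _ ≤ ∑ l ∈ range (n + 1), |coeff l k| * M := by
          refine sum_le_sum_of_subset_of_nonneg ?_ fun l _ _ => mul_nonneg (abs_nonneg _) hM0
          intro l hl
          rw [mem_Ico] at hl
          rw [mem_range]
          omega
      _ = (∑ l ∈ range (n + 1), |coeff l k| * 1 ^ l) * M := by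
          rw [sum_mul]
          exact sum_congr rfl fun l _ => by rw [one_pow, mul_one]
      _ ≤ 38 * M := mul_le_mul_of_nonneg_right (hk (n + 1)) hM0
  rw [h2, h3] at h1
  have h4 : 2 * (cf n / phi) * u n
      - ∑ l ∈ range (n - n1 + 1), coeff l κ0 * u (n - l) =
      ((2 * cf n * u n - (phi * ∑ l ∈ range (n - n1 + 1), coeff l κ0 * u (n - l)
        + ∑ l ∈ Ico (n - n1 + 1) (n + 1), coeff l k * u (n - l)))
        + ∑ l ∈ Ico (n - n1 + 1) (n + 1), coeff l k * u (n - l)) / phi := by
    field_simp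
    ring
  show |2 * (cf n / phi) * u n
      - ∑ l ∈ range (n - n1 + 1), coeff l κ0 * u (n - l)| ≤ (38 * M + S) / phi
  rw [h4, abs_div, abs_of_pos hphi]
  apply div_le_div_of_nonneg_right _ hphi.le
  refine (abs_add_le _ _).trans ?_
  linarith

theorem J3_eq {k : PS} {F f D : ℕ → ℝ} {n : ℕ} (hn : 1 ≤ n) (hF : F n = F (n - 1) + f n)
    (h1 : (2 * F n - D n) * D n = cv k D n)
    (h2 : (2 * F (n - 1) - D (n - 1)) * D (n - 1) = cv k D (n - 1)) :
    2 * (F n - (D n + D (n - 1)) / 2) * dd D n - cv k (dd D) n = -2 * f n * D (n - 1) := by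
  obtain ⟨m, rfl⟩ : ∃ m, n = m + 1 := ⟨n - 1, by omega⟩
  rw [Nat.add_sub_cancel] at *
  have h3 := cv_diff k D m
  have h4 : (fun m => if m = 0 then D 0 else D m - D (m - 1)) = dd D := rfl
  rw [h4] at h3
  have h5 : dd D (m + 1) = D (m + 1) - D m := by
    unfold dd
    rw [if_neg (by omega), Nat.add_sub_cancel]
  rw [← h3, h5, ← h1, ← h2, hF]
  ring

theorem fwd_diff : ∃ K : ℝ, 1 ≤ K ∧ ∀ (Λ : ℝ) (y'' y' y W W' V : ℕ) (a00 a0 : PS) (φ' κ : ℝ)
    (YM N : ℕ) (D : ℕ → ℝ) (B B1 : ℝ), TD Λ y'' y' y W W' V a00 a0 φ' → SL κ y YM → N ≤ YM →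
    0 ≤ B → 0 ≤ B1 → (∀ n < y, |D n| ≤ B) → (∀ n < y, |dd D n| ≤ B1) →
    Eqn a0 y W W' V κ YM N D →
    (2 * phi - D (y - 1)) * D (y - 1) = cv (ker (FT a0 y W W' V κ YM)) D (y - 1) →
    (∀ n < N, |D n| ≤ ff / 10) →
    ∀ n < N, |dd D n| ≤ K ^ (n / y + 1) * (B1 + B / y') := by
  obtain ⟨K1, hK1, hK⟩ := fwd_apriori
  have hphi := J3_phi_pos
  have hphi1 := phi_bd.1
  have hff := ff_pos
  have hff1 : ff ≤ 1 / 10 ^ 10 := by
    unfold ff
    norm_num
  obtain ⟨K, hKdef⟩ : ∃ K : ℝ, K = 1000 * A0 * K1 ^ 3 := ⟨_, rfl⟩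
  have hA0 : (1 : ℝ) ≤ A0 := by
    unfold A0
    norm_num
  have hA1 : A1 ≤ A0 := by
    unfold A0 A1
    norm_num
  have hA1' : 0 < A1 := by
    unfold A1
    norm_num
  have hK3 : (1 : ℝ) ≤ K1 ^ 3 := one_le_pow₀ hK1
  have hKK : K1 ^ 3 ≤ K := by
    rw [hKdef]
    have : 1 * K1 ^ 3 ≤ 1000 * A0 * K1 ^ 3 :=
      mul_le_mul_of_nonneg_right (by linarith) (by linarith)
    linarith
  have hK1' : 1 ≤ K := hK3.trans hKK
  have hK0 : 0 ≤ K := by linarith
  have hK10 : 0 ≤ K1 := by linarith
  have key0 : A0 * (42 / phi) ≤ K := by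
    have h1 : 42 / phi ≤ 1000 := by
      rw [div_le_iff₀ hphi]
      linarith
    have h2 : A0 * (42 / phi) ≤ A0 * 1000 := mul_le_mul_of_nonneg_left h1 (by linarith)
    have h3 : 1000 * A0 * 1 ≤ 1000 * A0 * K1 ^ 3 :=
      mul_le_mul_of_nonneg_left hK3 (by linarith)
    rw [hKdef]
    linarith
  have key1 : A1 * (42 / phi) ≤ K :=
    (mul_le_mul_of_nonneg_right hA1 (by positivity)).trans key0
  refine ⟨K, hK1', ?_⟩
  intro Λ y'' y' y W W' V a00 a0 φ' κ YM N D B B1 td s hN hB hB1 hD0 hdd0 he hE hD n hn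
  have g := td.geo
  have h := td.inn
  have hy := g.y_pos
  have hy'0 := g.pos
  have hy' : (0 : ℝ) < y' := by exact_mod_cast hy'0
  have hV := g.V_le
  have hyy := g.y'_le
  have hkb := Bd_ker_FT g h s
  have hB2 : 0 ≤ B1 + B / y' := add_nonneg hB1 (div_nonneg hB hy'.le)
  have hDa := hK Λ y'' y' y W W' V a00 a0 φ' κ YM N D B td s hN hB hD0 he hD

  have hFy : Cum (FT a0 y W W' V κ YM) (y - 1) = phi := by
    rw [Cum_FT_low g h s (by omega)]
    have h1 : Cum a0 (y - 1) = 1 := by
      unfold Cum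
      rw [Nat.sub_add_cancel (by omega : 1 ≤ y)]
      exact h.cpl.2
    rw [h1, mul_one]
  have hEq : ∀ n, y ≤ n → n < N →
      |2 * (Cum (FT a0 y W W' V κ YM) n - (D n + D (n - 1)) / 2) * dd D n
        - cv (ker (FT a0 y W W' V κ YM)) (dd D) n| ≤ 4 / y' * |D (n - 1)| := by
    intro n hn1 hn2
    have h1 : (2 * Cum (FT a0 y W W' V κ YM) (n - 1) - D (n - 1)) * D (n - 1)
        = cv (ker (FT a0 y W W' V κ YM)) D (n - 1) := by
      rcases Nat.lt_or_ge (n - 1) y with h2 | h2
      · have h3 : n - 1 = y - 1 := by omega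
        rw [h3, hFy]
        exact hE
      · exact he (n - 1) h2 (by omega)
    have h4 : Cum (FT a0 y W W' V κ YM) n = Cum (FT a0 y W W' V κ YM) (n - 1)
        + coeff n (FT a0 y W W' V κ YM) := by
      unfold Cum
      rw [sum_range_succ, Nat.sub_add_cancel (by omega : 1 ≤ n)]
    have h5 := J3_eq (k := ker (FT a0 y W W' V κ YM)) (F := Cum (FT a0 y W W' V κ YM))
      (f := fun n => coeff n (FT a0 y W W' V κ YM)) (D := D) (n := n) (by omega) h4
      (he n hn1 hn2) h1
    rw [h5, abs_mul, abs_mul, abs_neg, abs_two]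
    have h6 := FT_diff g h s hn1
    have h7 : 2 * |coeff n (FT a0 y W W' V κ YM)| ≤ 4 / y' := by
      calc 2 * |coeff n (FT a0 y W W' V κ YM)| ≤ 2 * (2 / y') := by linarith
        _ = 4 / y' := by ring
    exact mul_le_mul_of_nonneg_right h7 (abs_nonneg _)
  have hpow : ∀ m i : ℕ, m < N → m < (i + 1) * y → |D m| ≤ K1 ^ (i + 1) * B := by
    intro m i hm hmi
    have h1 : m / y < i + 1 := (Nat.div_lt_iff_lt_mul hy).2 hmi
    have h2 : K1 ^ (m / y + 1) ≤ K1 ^ (i + 1) := pow_le_pow_right₀ hK1 (by omega)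
    exact (hDa m hm).trans (mul_le_mul_of_nonneg_right h2 hB)
  have claim : ∀ i n : ℕ, n < N → n < y + V + i * y →
      |dd D n| ≤ K ^ (i + 1) * (B1 + B / y') := by
    intro i
    induction i with
    | zero =>
      intro n hn hn2
      have hBB : B1 ≤ K ^ (0 + 1) * (B1 + B / y') := by
        rw [zero_add, pow_one]
        have h1 : B1 ≤ B1 + B / y' := by
          have := div_nonneg hB hy'.le
          linarith
        exact h1.trans (le_mul_of_one_le_left hB2 hK1')
      rcases lt_or_ge n y with hny | hny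
      · exact (hdd0 n hny).trans hBB
      · have h1 := J3_step (n1 := y) (n2 := min N (y + V)) (M := B1)
          (S := 4 / y' * (K1 ^ 3 * B))
          (cf := fun n => Cum (FT a0 y W W' V κ YM) n - (D n + D (n - 1)) / 2)
          (u := dd D) hkb (td.lb00.s1 φ' td.φ0 td.φ1)
          (fun l hl => by
            have hl2 : l < y' := by
              have := lt_of_lt_of_le hl (min_le_right _ _)
              omega
            rw [ker_FT_low g h s (by omega), td.win l hl2, PowerSeries.coeff_smul, smul_eq_mul])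
          hdd0 hB1
          (fun n hn1 hn2 => by
            have hnN : n < N := lt_of_lt_of_le hn2 (min_le_left _ _)
            have hnV : n < y + V := lt_of_lt_of_le hn2 (min_le_right _ _)
            refine (hEq n hn1 hnN).trans ?_
            refine mul_le_mul_of_nonneg_left ?_ (by positivity)
            have h2 := hpow (n - 1) 2 (by omega) (by omega)
            exact h2)
          (fun n hn1 hn2 => by
            have hnN : n < N := lt_of_lt_of_le hn2 (min_le_left _ _)
            have a1 := (Cum_aF_ge g h (by omega : y ≤ n + 1)).1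
            have a2 := (Cum_FT (n := n) g h s).1
            have a3 := abs_le.1 (hD n hnN)
            have a4 := abs_le.1 (hD (n - 1) (by omega))
            show 9 / 10 ≤ (Cum (FT a0 y W W' V κ YM) n - (D n + D (n - 1)) / 2) / phi
            rw [le_div_iff₀ hphi]
            nlinarith [a3.2, a4.2]) n hny (lt_min hn (by omega))
        have h3 : 4 / y' * (K1 ^ 3 * B) ≤ 4 * (K1 ^ 3 * (B1 + B / y')) := by
          have e1 : 4 / y' * (K1 ^ 3 * B) = 4 * (K1 ^ 3 * (B / y')) := by ring
          rw [e1]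
          have : K1 ^ 3 * (B / y') ≤ K1 ^ 3 * (B1 + B / y') :=
            mul_le_mul_of_nonneg_left (by linarith) (by linarith)
          linarith
        have h4 : 38 * B1 + 4 / y' * (K1 ^ 3 * B) ≤ 42 * (K1 ^ 3 * (B1 + B / y')) := by
          have h5 : B1 ≤ K1 ^ 3 * (B1 + B / y') := by
            have h6 : B1 ≤ B1 + B / y' := by
              have := div_nonneg hB hy'.le
              linarith
            exact h6.trans (le_mul_of_one_le_left hB2 hK3)
          linarith
        calc |dd D n| ≤ A1 * ((38 * B1 + 4 / y' * (K1 ^ 3 * B)) / phi) := h1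
          _ ≤ A1 * ((42 * (K1 ^ 3 * (B1 + B / y'))) / phi) :=
              mul_le_mul_of_nonneg_left (div_le_div_of_nonneg_right h4 hphi.le) hA1'.le
          _ = (A1 * (42 / phi)) * K1 ^ 3 * (B1 + B / y') := by ring
          _ ≤ K * (B1 + B / y') := by
              refine mul_le_mul_of_nonneg_right ?_ hB2
              have h7 : 42 / phi ≤ 1000 := by
                rw [div_le_iff₀ hphi]
                linarith
              have h8 : A1 * (42 / phi) ≤ 1000 * A0 := by
                have h9 : A1 * (42 / phi) ≤ A0 * 1000 :=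
                  mul_le_mul hA1 h7 (by positivity) (by linarith)
                linarith
              rw [hKdef]
              exact mul_le_mul_of_nonneg_right h8 (by linarith)
          _ = K ^ (0 + 1) * (B1 + B / y') := by ring
    | succ i ih =>
      intro n hn hn2
      have hM0 : 0 ≤ K ^ (i + 1) * (B1 + B / y') := mul_nonneg (pow_nonneg hK0 _) hB2
      have hM1 : K ^ (i + 1) * (B1 + B / y') ≤ K ^ (i + 1 + 1) * (B1 + B / y') :=
        mul_le_mul_of_nonneg_right (pow_le_pow_right₀ hK1' (by omega)) hB2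
      rcases lt_or_ge n (y + V + i * y) with hny | hny
      · exact (ih n hn hny).trans hM1
      · have hs0 := h.lb.s0 1 (_root_.le_refl 1) (by
          have : 0 ≤ nu / y' := by
            unfold nu
            positivity
          linarith)
        rw [PowerSeries.rescale_one, RingHom.id_apply] at hs0
        have h1 := J3_step (n1 := y + V + i * y) (n2 := min N (y + V + (i + 1) * y))
          (M := K ^ (i + 1) * (B1 + B / y'))
          (S := 4 / y' * (K1 ^ (i + 2 + 1) * B))
          (cf := fun n => Cum (FT a0 y W W' V κ YM) n - (D n + D (n - 1)) / 2)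
          (u := dd D) hkb hs0
          (fun l hl => by
            have hl2 : l < y := by
              have := lt_of_lt_of_le hl (min_le_right _ _)
              rw [add_mul, one_mul] at this
              omega
            exact ker_FT_low g h s hl2)
          (fun n hn1 => ih n (by omega) hn1) hM0
          (fun n hn1 hn2 => by
            have hnN : n < N := lt_of_lt_of_le hn2 (min_le_left _ _)
            have hnV : n < y + V + (i + 1) * y := lt_of_lt_of_le hn2 (min_le_right _ _)
            refine (hEq n (by omega) hnN).trans ?_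
            refine mul_le_mul_of_nonneg_left ?_ (by positivity)
            refine hpow (n - 1) (i + 2) (by omega) ?_
            have e1 : (i + 2 + 1) * y = (i + 1) * y + 2 * y := by ring
            rw [e1]
            omega)
          (fun n hn1 hn2 => by
            have hnN : n < N := lt_of_lt_of_le hn2 (min_le_left _ _)
            have a1 := Cum_aF_ge' g h (by omega : y + V ≤ n + 1)
            have a2 := (Cum_FT (n := n) g h s).1
            have a3 := abs_le.1 (hD n hnN)
            have a5 := abs_le.1 (hD (n - 1) (by omega))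
            show c0 ≤ (Cum (FT a0 y W W' V κ YM) n - (D n + D (n - 1)) / 2) / phi
            rw [le_div_iff₀ hphi]
            have a4 : c0 * phi = phi + 9 / 10 * ff := by
              unfold c0 bb
              field_simp
            rw [a4]
            linarith [a3.2, a5.2]) n hny (lt_min hn hn2)
        have h2 : K1 ^ (i + 2 + 1) ≤ K ^ (i + 1) := by
          calc K1 ^ (i + 2 + 1) ≤ K1 ^ (3 * (i + 1)) := pow_le_pow_right₀ hK1 (by omega)
            _ = (K1 ^ 3) ^ (i + 1) := by rw [pow_mul]
            _ ≤ K ^ (i + 1) := pow_le_pow_left₀ (by linarith) hKK _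
        have h3 : 4 / y' * (K1 ^ (i + 2 + 1) * B) ≤ 4 * (K ^ (i + 1) * (B1 + B / y')) := by
          have e1 : 4 / y' * (K1 ^ (i + 2 + 1) * B) = 4 * (K1 ^ (i + 2 + 1) * (B / y')) := by ring
          rw [e1]
          have hBy : 0 ≤ B / y' := div_nonneg hB hy'.le
          have : K1 ^ (i + 2 + 1) * (B / y') ≤ K ^ (i + 1) * (B1 + B / y') :=
            mul_le_mul h2 (by linarith) hBy (pow_nonneg hK0 _)
          linarith
        calc |dd D n| ≤ A0 * ((38 * (K ^ (i + 1) * (B1 + B / y'))
                + 4 / y' * (K1 ^ (i + 2 + 1) * B)) / phi) := h1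
          _ ≤ A0 * ((42 * (K ^ (i + 1) * (B1 + B / y'))) / phi) :=
              mul_le_mul_of_nonneg_left (div_le_div_of_nonneg_right (by linarith) hphi.le)
                (by linarith)
          _ = (A0 * (42 / phi)) * (K ^ (i + 1) * (B1 + B / y')) := by ring
          _ ≤ K * (K ^ (i + 1) * (B1 + B / y')) := mul_le_mul_of_nonneg_right key0 hM0
          _ = K ^ (i + 1 + 1) * (B1 + B / y') := by ring
  apply claim (n / y) n hn
  have h1 := Nat.lt_succ_self (n / y)
  have h2 : n < (n / y + 1) * y := (Nat.div_lt_iff_lt_mul hy).1 h1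
  rw [add_mul, one_mul] at h2
  omega

end MP18
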