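import Pool.Agent.Lib.MP_18566a_pr.T.J3
import Pool.Agent.Lib.MP_18566a_pr.T.I3

set_option autoImplicit false

namespace MP18

open Finset PowerSeries

noncomputable def eF (a0 : PS) (y W W' V : ℕ) (D : ℕ → ℝ) (n : ℕ) : ℝ :=
  2 * Cum (aF a0 y W W' V) n * D n - cv (ker (aF a0 y W W' V)) D n

theorem eF_bd {y' y W W' V YM N n : ℕ} {a0 : PS} {κ M : ℝ} {D : ℕ → ℝ} (g : Geo y' y W W' V)
    (h : In y' y a0) (s : SL κ y YM) (hN : N ≤ YM) (hE : Eqn a0 y W W' V κ YM N D) (h1 : y ≤ n)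
    (h2 : n < N) (hM : ∀ m ≤ n, |D m| ≤ M) :
    |eF a0 y W W' V D n| ≤ (M + 10 ^ 81 * kbY κ y YM) * M := by
  have hM0 : 0 ≤ M := (abs_nonneg _).trans (hM n (le_refl _))
  have hk := kbY_nonneg s
  have he := hE n h1 h2
  have hc := Cum_FT (n := n) g h s
  have hcv : |cv (ker (FT a0 y W W' V κ YM) - ker (aF a0 y W W' V)) D n| ≤
      10 ^ 80 * kbY κ y YM * M := cv_bound (Bd_ker_diff g h s) hM
  rw [cv_sub_left] at hcv
  set F := Cum (FT a0 y W W' V κ YM) n
  set P := Cum (aF a0 y W W' V) n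
  have e : eF a0 y W W' V D n = D n * D n + (-(2 * (F - P) * D n)) +
      (cv (ker (FT a0 y W W' V κ YM)) D n - cv (ker (aF a0 y W W' V)) D n) := by
    unfold eF
    linear_combination he
  rw [e]
  refine (abs_add_three _ _ _).trans ?_
  have a1 : |D n * D n| ≤ M * M := by
    rw [abs_mul]
    exact mul_le_mul (hM n (le_refl _)) (hM n (le_refl _)) (abs_nonneg _) hM0
  have a2 : |(-(2 * (F - P) * D n))| ≤ 2 * kbY κ y YM * M := by
    rw [abs_neg, abs_mul, abs_of_nonneg (by linarith [hc.1] : 0 ≤ 2 * (F - P))]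
    exact mul_le_mul (by linarith [hc.2]) (hM n (le_refl _)) (abs_nonneg _) (by linarith)
  have a3 : 2 * kbY κ y YM * M + 10 ^ 80 * kbY κ y YM * M ≤ 10 ^ 81 * kbY κ y YM * M := by
    have : 0 ≤ kbY κ y YM * M := mul_nonneg hk hM0
    have e10 : (10 : ℝ) ^ 81 = 10 * 10 ^ 80 := by rw [pow_succ]; ring
    have e11 : (1 : ℝ) ≤ 10 ^ 80 := one_le_pow₀ (by norm_num)
    rw [e10]
    nlinarith
  have a4 : (M + 10 ^ 81 * kbY κ y YM) * M = M * M + 10 ^ 81 * kbY κ y YM * M := by ring
  rw [a4]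
  linarith

theorem eF_low {y' y W W' V n : ℕ} {a0 : PS} {D : ℕ → ℝ} (g : Geo y' y W W' V)
    (h : In y' y a0) (h1 : n < y) :
    eF a0 y W W' V D n = phi * (2 * Cum a0 n * D n - cv (ker a0) D n) := by
  have hc : Cum (aF a0 y W W' V) n = phi * Cum a0 n := by
    unfold Cum aF
    rw [Finset.mul_sum]
    refine Finset.sum_congr rfl fun j hj => ?_
    have hj' : j < y := by
      have := Finset.mem_range.1 hj
      omega
    rw [map_add, QQ_low g j hj', add_zero, map_smul, smul_eq_mul]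
  have hv : cv (ker (aF a0 y W W' V)) D n = phi * cv (ker a0) D n := by
    rw [← cv_smul_left]
    apply cv_congr_left
    intro l hl
    have hl' : l < y := by omega
    rw [D10 g h, map_add, map_add, ms_low g h l hl', mt_low g h l hl', add_zero, add_zero]
  unfold eF
  rw [hc, hv]
  ring

theorem EE_id {y' y W W' V : ℕ} {a0 : PS} (g : Geo y' y W W' V) (h : In y' y a0) (D : ℕ → ℝ)
    (n : ℕ) : csum D n = cv (kap (ker (aF a0 y W W' V))) D n
      + ∑ j ∈ range (n + 1), (2 * (1 - Cum (aF a0 y W W' V) j) * D j + eF a0 y W W' V D j) := by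
  have e1 : cv (kap (ker (aF a0 y W W' V))) D n =
      cv (ker (aF a0 y W W' V)) (csum D) n - csum D n := by
    rw [cv_nab_cum, nab_kap, cv_sub_left, cv_one_left]
    rfl
  have e2 : ∑ j ∈ range (n + 1), cv (ker (aF a0 y W W' V)) D j =
      cv (ker (aF a0 y W W' V)) (csum D) n := cv_cum _ _ _
  have e3 : ∑ j ∈ range (n + 1), (2 * (1 - Cum (aF a0 y W W' V) j) * D j + eF a0 y W W' V D j) =
      2 * csum D n - ∑ j ∈ range (n + 1), cv (ker (aF a0 y W W' V)) D j := by
    unfold csum eF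
    rw [Finset.mul_sum, ← Finset.sum_sub_distrib]
    refine Finset.sum_congr rfl fun j _ => ?_
    ring
  rw [e1, e3, e2]
  ring

theorem K0_aux1 (c D : ℕ → ℝ) (N0' : ℕ) (hN : 0 < N0') (hc0 : ∀ j, 0 ≤ c j)
    (hanti : ∀ j, c (j + 1) ≤ c j) (hz : ∀ j, N0' ≤ j + 1 → c j = 0) {M0 : ℝ}
    (hM : ∀ j < N0', |csum D j| ≤ M0) (n : ℕ) :
    |∑ j ∈ range (n + 1), c j * D j - c n * csum D n| ≤ M0 * (c 0 - c n) := by
  induction n with
  | zero =>
    have : ∑ j ∈ range (0 + 1), c j * D j - c 0 * csum D 0 = 0 := by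
      unfold csum
      simp
    rw [this, sub_self, mul_zero, abs_zero]
  | succ n ih =>
    have e : ∑ j ∈ range (n + 1 + 1), c j * D j - c (n + 1) * csum D (n + 1) =
        (∑ j ∈ range (n + 1), c j * D j - c n * csum D n) + (c n - c (n + 1)) * csum D n := by
      have e1 : csum D (n + 1) = csum D n + D (n + 1) := by
        unfold csum
        rw [Finset.sum_range_succ]
      rw [Finset.sum_range_succ, e1]
      ring
    rw [e]
    refine (abs_add_le _ _).trans ?_
    have h1 : |(c n - c (n + 1)) * csum D n| ≤ M0 * (c n - c (n + 1)) := by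
      rw [abs_mul, abs_of_nonneg (by linarith [hanti n] : 0 ≤ c n - c (n + 1))]
      by_cases hn : n < N0'
      · rw [mul_comm M0]
        exact mul_le_mul_of_nonneg_left (hM n hn) (by linarith [hanti n])
      · have h2 : c n = 0 := hz n (by omega)
        have h3 : c (n + 1) = 0 := hz (n + 1) (by omega)
        rw [h2, h3]
        simp
    linarith

theorem abel_EE {y' y W W' V : ℕ} {a0 : PS} (g : Geo y' y W W' V) (h : In y' y a0) {D : ℕ → ℝ}
    {M0 : ℝ} (hM : ∀ j < N0 y, |csum D j| ≤ M0) (n : ℕ) :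
    |∑ j ∈ range (n + 1), (1 - Cum (aF a0 y W W' V) j) * D j| ≤ M0 := by
  have hy'1 : (0 : ℝ) < y' := by exact_mod_cast g.pos
  have hL0 : (1 : ℝ) ≤ L0 := by
    unfold L0
    exact one_le_pow₀ (by norm_num)
  have hy : 0 < y := by
    have h1 : (0 : ℝ) < y := lt_of_lt_of_le (by positivity) g.sep
    exact_mod_cast h1
  have hN : 0 < N0 y := by
    unfold N0
    omega
  have hphi : 0 ≤ phi := by linarith [phi_bd.1]
  have hnn : ∀ j, 0 ≤ coeff j (aF a0 y W W' V) := by
    intro j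
    unfold aF
    rw [map_add, map_smul, smul_eq_mul]
    exact add_nonneg (mul_nonneg hphi (h.lb.nn j)) (QQ_nn y W W' V j)
  have hsucc : ∀ j, Cum (aF a0 y W W' V) (j + 1) =
      Cum (aF a0 y W W' V) j + coeff (j + 1) (aF a0 y W W' V) := by
    intro j
    unfold Cum
    rw [Finset.sum_range_succ]
  have hmono : Monotone (Cum (aF a0 y W W' V)) := by
    apply monotone_nat_of_le_succ
    intro j
    rw [hsucc]
    linarith [hnn (j + 1)]
  have hge : ∀ j, 0 ≤ Cum (aF a0 y W W' V) j := by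
    intro j
    unfold Cum
    exact Finset.sum_nonneg fun i _ => hnn i
  have hone : ∀ j, N0 y ≤ j + 1 → Cum (aF a0 y W W' V) j = 1 := fun j hj => Cum_aF_one g h hj
  have hle : ∀ j, Cum (aF a0 y W W' V) j ≤ 1 := by
    intro j
    have h1 := hmono (show j ≤ j + N0 y by omega)
    rwa [hone (j + N0 y) (by omega)] at h1
  have hMn : 0 ≤ M0 := (abs_nonneg _).trans (hM 0 hN)
  have key := K0_aux1 (fun j => 1 - Cum (aF a0 y W W' V) j) D (N0 y) hN
    (fun j => by linarith [hle j])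
    (fun j => by
      have := hmono (show j ≤ j + 1 by omega)
      show 1 - _ ≤ 1 - _
      linarith)
    (fun j hj => by
      show 1 - _ = _
      rw [hone j hj, sub_self]) hM n
  have h2 : |(1 - Cum (aF a0 y W W' V) n) * csum D n| ≤
      M0 * (1 - Cum (aF a0 y W W' V) n) := by
    rw [abs_mul, abs_of_nonneg (by linarith [hle n] : 0 ≤ 1 - Cum (aF a0 y W W' V) n)]
    by_cases hn : n < N0 y
    · rw [mul_comm M0]
      exact mul_le_mul_of_nonneg_left (hM n hn) (by linarith [hle n])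
    · rw [hone n (by omega), sub_self, zero_mul, mul_zero]
  have h3 : ∑ j ∈ range (n + 1), (1 - Cum (aF a0 y W W' V) j) * D j =
      (∑ j ∈ range (n + 1), (1 - Cum (aF a0 y W W' V) j) * D j -
        (1 - Cum (aF a0 y W W' V) n) * csum D n) + (1 - Cum (aF a0 y W W' V) n) * csum D n := by
    ring
  rw [h3]
  refine (abs_add_le _ _).trans ?_
  have h4 : M0 * ((1 - Cum (aF a0 y W W' V) 0) - (1 - Cum (aF a0 y W W' V) n)) +
      M0 * (1 - Cum (aF a0 y W W' V) n) ≤ M0 := by
    have : M0 * ((1 - Cum (aF a0 y W W' V) 0) - (1 - Cum (aF a0 y W W' V) n)) +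
      M0 * (1 - Cum (aF a0 y W W' V) n) = M0 * (1 - Cum (aF a0 y W W' V) 0) := by ring
    rw [this]
    have h5 := hge 0
    nlinarith
  linarith

end MP18
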