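import Pool.Agent.Lib.MP_18566a_pr.T.K0
import Pool.Agent.Lib.MP_18566a_pr.T.G2

set_option autoImplicit false

namespace MP18

open Finset PowerSeries

theorem K1_aux_sum {y' y W W' V : ℕ} {a0 : PS} {z : ℂ} {ψ : ℕ → ℂ} (g : Geo y' y W W' V)
    (h : In y' y a0) (hA : Adj a0 y W W' V z ψ) (D : ℕ → ℝ) {B E : ℝ} (hB : 0 ≤ B) {N : ℕ}
    (hψ : ∀ n, y ≤ n → ‖ψ n‖ ≤ B) (hE : ∀ n, y ≤ n → n < N → |eF a0 y W W' V D n| ≤ E) :
    ∀ k : ℕ, y + k ≤ N → ‖AN a0 y W W' V ψ D (y + k) - AN a0 y W W' V ψ D y‖ ≤ k * (B * E) := by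
  intro k
  induction k with
  | zero => intro _; simp
  | succ k ih =>
    intro hk
    have h1 := ih (by omega)
    have h2 := AN_step g h hA D (N := y + k) (by omega)
    have h3 : ‖AN a0 y W W' V ψ D (y + k + 1) - AN a0 y W W' V ψ D (y + k)‖ ≤ B * E := by
      rw [h2, norm_mul, Complex.norm_real, Real.norm_eq_abs]
      have h4 := hE (y + k) (by omega) (by omega)
      have h5 := hψ (y + k) (by omega)
      have h6 : 0 ≤ E := (abs_nonneg _).trans h4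
      exact mul_le_mul h5 h4 (abs_nonneg _) hB
    have h7 : AN a0 y W W' V ψ D (y + (k + 1)) - AN a0 y W W' V ψ D y
        = (AN a0 y W W' V ψ D (y + k + 1) - AN a0 y W W' V ψ D (y + k))
          + (AN a0 y W W' V ψ D (y + k) - AN a0 y W W' V ψ D y) := by
      rw [← add_assoc]; ring
    rw [h7]
    refine (norm_add_le _ _).trans ?_
    push_cast
    linarith

theorem K1_aux_ff : 0 < ff ∧ ff ≤ 1 / 100 := by
  unfold ff
  constructor
  · positivity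
  · norm_num

theorem growth : ∃ C : ℝ, 1 ≤ C ∧ ∀ (Λ ε : ℝ) (y'' y' y W W' V : ℕ) (a00 a0 : PS) (φ' κ : ℝ)
    (YM N : ℕ) (D : ℕ → ℝ) (S Mx M : ℝ), C ≤ Λ → 0 ≤ ε → C * ε ≤ 1 →
    TD Λ y'' y' y W W' V a00 a0 φ' → SL κ y YM → N0 y ≤ N → N ≤ YM →
    Eqn a0 y W W' V κ YM N D → DH ε y' y D S →
    15 / 10 * ff * S ≤ |2 * ff * csum D (y - 1)
      + phi * (2 * csum D (y - 1) - cv (ker a0) (csum D) (y - 1))| →
    (∀ n < N, |D n| ≤ Mx) → C * N * ((Mx + 10 ^ 81 * kbY κ y YM) * Mx) ≤ ff / 10 * S →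
    (∀ n < N, |csum D n| ≤ M) →
    ff ^ 2 / 10 ^ 5 * Real.exp (ff / 100 * (N / y)) * S ≤ M := by
  obtain ⟨C1, hC1, H1⟩ := psi_bds
  obtain ⟨C2, hC2, H2⟩ := psi_win
  obtain ⟨C3, hC3, H3⟩ := psi_one
  obtain ⟨C4, hC4, H4⟩ := AN_near
  obtain ⟨hff, hff1⟩ := K1_aux_ff
  have hq : (0 : ℝ) < 20 * C4 / ff := by positivity
  refine ⟨C2 + C3 + C4 + 2 * C1 + 20 * C4 / ff, by linarith, ?_⟩
  set C := C2 + C3 + C4 + 2 * C1 + 20 * C4 / ff with hC
  have hCff : 20 * C4 ≤ C * ff := by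
    have : 20 * C4 / ff * ff = 20 * C4 := by field_simp
    have h2 : 20 * C4 / ff * ff ≤ C * ff :=
      mul_le_mul_of_nonneg_right (by rw [hC]; linarith) hff.le
    linarith
  have hC2' : 2 * C1 ≤ C := by rw [hC]; linarith
  have hCpos : 0 < C := by rw [hC]; linarith
  intro Λ ε y'' y' y W W' V a00 a0 φ' κ YM N D S Mx M hΛ hε hε1 td s hN0 hNY hE dh hlow hMx hsm hM
  have hΛ2 : C2 ≤ Λ := le_trans (by rw [hC]; linarith) hΛ
  have hΛ3 : C3 ≤ Λ := le_trans (by rw [hC]; linarith) hΛ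
  have hΛ4 : C4 ≤ Λ := le_trans (by rw [hC]; linarith) hΛ
  have hΛpos : 0 < Λ := lt_of_lt_of_le hCpos hΛ
  have g := td.geo
  have h := td.inn
  have hy : 0 < y := by
    have h1 := g.sep
    have h2 : (0 : ℝ) < y' := by exact_mod_cast g.pos
    have h3 : (0 : ℝ) < L0 := by unfold L0; positivity
    have h4 : (0 : ℝ) < y := lt_of_lt_of_le (mul_pos h3 h2) h1
    exact_mod_cast h4
  obtain ⟨sg, z, r1, r2, r3, r4, hz⟩ := root g h
  have rt : Rt y z := ⟨sg, r1, r2, r3, r4⟩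
  obtain ⟨ψ, hA⟩ := Adj_exists g h hz rt
  have hP1 := H3 Λ y'' y' y W W' V a00 a0 φ' z ψ hΛ3 td hA
  have hPb : ‖ψ (y + V)‖ ≤ C1 := (H1 y' y W W' V a0 z ψ g h hA (y + V) le_rfl).1
  have hψ : ∀ n, y ≤ n → ‖ψ n‖ ≤ 2 * C1 := by
    intro n hn
    rcases lt_or_ge n (y + V) with hlt | hge
    · have h1 := H2 Λ y'' y' y W W' V a00 a0 φ' z ψ hΛ2 td hA n hn hlt
      have h2 : ‖ψ n‖ ≤ ‖ψ n - ψ (y + V)‖ + ‖ψ (y + V)‖ := by
        have := norm_add_le (ψ n - ψ (y + V)) (ψ (y + V))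
        simpa using this
      have h3 : 12 * ff * ‖ψ (y + V)‖ ≤ ‖ψ (y + V)‖ := by
        have h0 : 0 ≤ ‖ψ (y + V)‖ := norm_nonneg _
        nlinarith
      linarith
    · have h1 := (H1 y' y W W' V a0 z ψ g h hA n hge).1
      linarith
  have hS : 0 ≤ S := dh.S0'
  have hyN : y ≤ N := by
    have : N0 y = 9 * y + y / 2 := rfl
    omega
  have hNpos : 0 < N := by omega
  have hMx0 : 0 ≤ Mx := (abs_nonneg _).trans (hMx 0 hNpos)
  have hM0 : 0 ≤ M := (abs_nonneg _).trans (hM 0 hNpos)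
  have hkb : 0 ≤ kbY κ y YM := kbY_nonneg s

  have hres : ∀ n, y ≤ n → n < N →
      |eF a0 y W W' V D n| ≤ (Mx + 10 ^ 81 * kbY κ y YM) * Mx := fun n hn1 hn2 =>
    eF_bd g h s hNY hE hn1 hn2 fun m hm => hMx m (lt_of_le_of_lt hm hn2)
  have hE0 : 0 ≤ (Mx + 10 ^ 81 * kbY κ y YM) * Mx := by positivity
  have hdiff : ‖AN a0 y W W' V ψ D N - AN a0 y W W' V ψ D y‖ ≤ ff / 10 * S := by
    have h1 := K1_aux_sum g h hA D (B := 2 * C1) (by linarith) hψ hres (N - y) (by omega)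
    have h2 : y + (N - y) = N := by omega
    rw [h2] at h1
    refine h1.trans (le_trans ?_ hsm)
    have h3 : ((N - y : ℕ) : ℝ) ≤ N := by exact_mod_cast Nat.sub_le N y
    have h4 : ((N - y : ℕ) : ℝ) * (2 * C1 * ((Mx + 10 ^ 81 * kbY κ y YM) * Mx))
        ≤ N * (2 * C1 * ((Mx + 10 ^ 81 * kbY κ y YM) * Mx)) :=
      mul_le_mul_of_nonneg_right h3 (by positivity)
    refine h4.trans ?_
    have h5 : 2 * C1 * ((Mx + 10 ^ 81 * kbY κ y YM) * Mx)
        ≤ C * ((Mx + 10 ^ 81 * kbY κ y YM) * Mx) := mul_le_mul_of_nonneg_right hC2' hE0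
    calc (N : ℝ) * (2 * C1 * ((Mx + 10 ^ 81 * kbY κ y YM) * Mx))
        ≤ N * (C * ((Mx + 10 ^ 81 * kbY κ y YM) * Mx)) :=
          mul_le_mul_of_nonneg_left h5 (Nat.cast_nonneg N)
      _ = C * N * ((Mx + 10 ^ 81 * kbY κ y YM) * Mx) := by ring

  have hnear := H4 Λ ε y'' y' y W W' V a00 a0 φ' z ψ D S hΛ4 td hA dh hε
  have herr : C4 * (1 / Λ + ε) ≤ ff / 10 := by
    have e1 : C4 * (1 / Λ) ≤ ff / 20 := by
      rw [mul_one_div, div_le_iff₀ hΛpos]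
      have : C * ff ≤ Λ * ff := mul_le_mul_of_nonneg_right hΛ hff.le
      linarith
    have e2 : C4 * ε ≤ ff / 20 := by
      have h1 : 20 * C4 * ε ≤ C * ff * ε := mul_le_mul_of_nonneg_right hCff hε
      have h2 : C * ff * ε = ff * (C * ε) := by ring
      have h3 : ff * (C * ε) ≤ ff * 1 := mul_le_mul_of_nonneg_left hε1 hff.le
      linarith
    linarith [mul_add C4 (1 / Λ) ε]
  have hAy : 138 / 100 * ff * S ≤ ‖AN a0 y W W' V ψ D y‖ := by
    set v : ℝ := 2 * ff * csum D (y - 1)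
      + phi * (2 * csum D (y - 1) - cv (ker a0) (csum D) (y - 1)) with hv
    have n1 : ‖ψ (y + V) * ((v : ℝ) : ℂ)‖ = ‖ψ (y + V)‖ * |v| := by
      rw [norm_mul, Complex.norm_real, Real.norm_eq_abs]
    have n2 : ‖ψ (y + V) * ((v : ℝ) : ℂ)‖
        ≤ ‖AN a0 y W W' V ψ D y‖ + ‖AN a0 y W W' V ψ D y - ψ (y + V) * ((v : ℝ) : ℂ)‖ := by
      have := norm_sub_le (AN a0 y W W' V ψ D y)
        (AN a0 y W W' V ψ D y - ψ (y + V) * ((v : ℝ) : ℂ))
      simpa using this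
    have n3 : (1 / 50 * ff + C4 * (1 / Λ + ε)) * ‖ψ (y + V)‖ * S
        ≤ (12 / 100 * ff) * ‖ψ (y + V)‖ * S := by
      refine mul_le_mul_of_nonneg_right (mul_le_mul_of_nonneg_right ?_ (norm_nonneg _)) hS
      linarith
    have n4 : ‖ψ (y + V)‖ * (15 / 10 * ff * S) ≤ ‖ψ (y + V)‖ * |v| :=
      mul_le_mul_of_nonneg_left hlow (norm_nonneg _)
    have n5 : 1 * (138 / 100 * ff * S) ≤ ‖ψ (y + V)‖ * (138 / 100 * ff * S) :=
      mul_le_mul_of_nonneg_right hP1 (by positivity)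
    have n6 : ‖ψ (y + V)‖ * (138 / 100 * ff * S)
        = ‖ψ (y + V)‖ * (15 / 10 * ff * S) - (12 / 100 * ff) * ‖ψ (y + V)‖ * S := by ring
    linarith
  have hAN : ff * S ≤ ‖AN a0 y W W' V ψ D N‖ := by
    have n1 : ‖AN a0 y W W' V ψ D y‖ ≤ ‖AN a0 y W W' V ψ D N‖
        + ‖AN a0 y W W' V ψ D N - AN a0 y W W' V ψ D y‖ := by
      have := norm_sub_le (AN a0 y W W' V ψ D N)
        (AN a0 y W W' V ψ D N - AN a0 y W W' V ψ D y)
      simpa using this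
    have n2 : 0 ≤ ff * S := mul_nonneg hff.le hS
    nlinarith
  have hfar := AN_far g h hA D hN0 hM
  have hpow := rt.pow_le hy N
  have hfin : ff * S ≤ 10 ^ 5 / ff * Real.exp (-(ff / 100) * (N / y)) * M := by
    refine hAN.trans (hfar.trans ?_)
    refine mul_le_mul_of_nonneg_right (mul_le_mul_of_nonneg_left hpow (by positivity)) hM0
  have hex : Real.exp (ff / 100 * (N / y)) * Real.exp (-(ff / 100) * (N / y)) = 1 := by
    rw [← Real.exp_add]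
    have : ff / 100 * ((N : ℝ) / y) + -(ff / 100) * (N / y) = 0 := by ring
    rw [this, Real.exp_zero]
  have hmul := mul_le_mul_of_nonneg_left hfin
    (show 0 ≤ ff / 10 ^ 5 * Real.exp (ff / 100 * (N / y)) by positivity)
  calc ff ^ 2 / 10 ^ 5 * Real.exp (ff / 100 * (N / y)) * S
      = ff / 10 ^ 5 * Real.exp (ff / 100 * (N / y)) * (ff * S) := by ring
    _ ≤ ff / 10 ^ 5 * Real.exp (ff / 100 * (N / y))
        * (10 ^ 5 / ff * Real.exp (-(ff / 100) * (N / y)) * M) := hmul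
    _ = (ff / ff) * (Real.exp (ff / 100 * (N / y)) * Real.exp (-(ff / 100) * (N / y))) * M := by
        field_simp
    _ = M := by rw [hex, div_self hff.ne']; ring

end MP18
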