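import Pool.Agent.Lib.MP_18566a_pr.T.K0

set_option autoImplicit false

namespace MP18

open Finset PowerSeries

theorem K2_aux1 (A : PS) (m : ℕ) : Cum (nab * A) m = coeff m A := by
  have hn : nab * A = A - X * A := by unfold nab; ring
  induction m with
  | zero =>
    simp [Cum, hn]
  | succ m ih =>
    have h1 : Cum (nab * A) (m + 1) = Cum (nab * A) m + coeff (m + 1) (nab * A) := by
      unfold Cum
      rw [Finset.sum_range_succ]
    rw [h1, ih, hn, map_sub, PowerSeries.coeff_succ_X_mul]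
    ring

theorem K2_aux2 (k : PS) (m : ℕ) : coeff m (kap k) = Cum k m - 1 := by
  rw [← K2_aux1, nab_kap]
  unfold Cum
  have h : ∀ j ∈ range (m + 1), coeff j (k - 1) = coeff j k - coeff j (1 : PS) := by
    intro j _
    rw [map_sub]
  rw [Finset.sum_congr rfl h, Finset.sum_sub_distrib]
  congr 1
  rw [Finset.sum_range_succ']
  simp [PowerSeries.coeff_one]

theorem K2_aux3 {y' : ℕ} {a : PS} (h : LB y' a) (hy : 0 < y') {m : ℕ} (hm : 0 < m) :
    |1 - Cum (ker a) m| ≤ 38 * 10 ^ 8 * y' / m := by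
  have hyR : (0 : ℝ) < y' := by exact_mod_cast hy
  have hmR : (0 : ℝ) < m := by exact_mod_cast hm
  set x : ℝ := 1 / (10 ^ 8 * y') with hx
  have hxpos : 0 < x := by positivity
  have hB := h.kn (1 + x) (Adm_R hy)
  have hK := h.kp (1 + x) (Adm_R hy)
  have key : ∀ m' : ℕ, m < m' →
      |1 - Cum (ker a) m| ≤ 38 * 10 ^ 8 * y' / m + 10 ^ 13 * (y' : ℝ) ^ 2 / m' := by
    intro m' hm'
    have hm'R : (0 : ℝ) < m' := by exact_mod_cast (lt_trans hm hm')
    have e1 : Cum (ker a) m' - Cum (ker a) m = ∑ l ∈ Ico (m + 1) (m' + 1), coeff l (ker a) := by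
      unfold Cum
      rw [← Finset.sum_range_add_sum_Ico (fun l => coeff l (ker a)) (show m + 1 ≤ m' + 1 by omega)]
      ring
    have e2 : |∑ l ∈ Ico (m + 1) (m' + 1), coeff l (ker a)| ≤ 38 / (m * x) := by
      refine (Finset.abs_sum_le_sum_abs _ _).trans ?_
      refine le_trans ?_ (tail_bd hxpos hB hm (m' + 1))
      apply Finset.sum_le_sum_of_subset_of_nonneg
      · intro l hl
        rw [Finset.mem_Ico] at hl
        rw [Finset.mem_filter, Finset.mem_range]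
        omega
      · intro l _ _
        exact abs_nonneg _
    have e3 : |coeff m' (kap (ker a))| * (1 + x) ^ m' ≤ 10 ^ 5 * y' :=
      Bd_coeff (by positivity) hK m'
    have e4 : (m' : ℝ) * x ≤ (1 + x) ^ m' := by
      have := one_add_mul_le_pow (show (-2 : ℝ) ≤ x by linarith) m'
      linarith
    have e5 : |coeff m' (kap (ker a))| * (m' * x) ≤ 10 ^ 5 * y' :=
      (mul_le_mul_of_nonneg_left e4 (abs_nonneg _)).trans e3
    have e6 : |coeff m' (kap (ker a))| ≤ 10 ^ 13 * (y' : ℝ) ^ 2 / m' := by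
      rw [le_div_iff₀ hm'R]
      have h1 : |coeff m' (kap (ker a))| * (m' * x) = (|coeff m' (kap (ker a))| * m') / (10 ^ 8 * y') := by
        rw [hx]; ring
      rw [h1, div_le_iff₀ (by positivity)] at e5
      calc |coeff m' (kap (ker a))| * (m' : ℝ) ≤ 10 ^ 5 * y' * (10 ^ 8 * y') := e5
        _ = 10 ^ 13 * (y' : ℝ) ^ 2 := by ring
    have e7 : 1 - Cum (ker a) m = (∑ l ∈ Ico (m + 1) (m' + 1), coeff l (ker a))
        - coeff m' (kap (ker a)) := by
      rw [K2_aux2, ← e1]; ring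
    have e8 : (38 : ℝ) / (m * x) = 38 * 10 ^ 8 * y' / m := by
      rw [hx]; field_simp
    rw [e7]
    refine (abs_sub _ _).trans ?_
    rw [← e8]
    linarith
  refine le_of_forall_pos_le_add ?_
  intro ε hε
  obtain ⟨n, hn⟩ := exists_nat_gt (10 ^ 13 * (y' : ℝ) ^ 2 / ε)
  have hmm : m < max n (m + 1) := by
    exact lt_of_lt_of_le (Nat.lt_succ_self m) (le_max_right _ _)
  refine (key (max n (m + 1)) hmm).trans ?_
  have hpos : (0 : ℝ) < ((max n (m + 1) : ℕ) : ℝ) := by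
    exact_mod_cast (lt_of_le_of_lt (Nat.zero_le m) hmm)
  have hle : (n : ℝ) ≤ ((max n (m + 1) : ℕ) : ℝ) := by
    exact_mod_cast le_max_left _ _
  have : 10 ^ 13 * (y' : ℝ) ^ 2 / ((max n (m + 1) : ℕ) : ℝ) ≤ ε := by
    rw [div_le_iff₀ hpos]
    rw [div_lt_iff₀ hε] at hn
    have := mul_le_mul_of_nonneg_right hle hε.le
    linarith
  linarith

theorem K2_aux4 {f : ℕ → ℝ} {L : ℝ} {N : ℕ} (h : ∀ n, n + 1 < N → |f (n + 1) - f n| ≤ L) :
    ∀ l n, l ≤ n → n < N → |f n - f (n - l)| ≤ l * L := by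
  intro l
  induction l with
  | zero =>
    intro n _ _
    simp
  | succ l ih =>
    intro n hl hn
    have h1 := ih n (by omega) hn
    have h2 := h (n - (l + 1)) (by omega)
    have h3 : n - (l + 1) + 1 = n - l := by omega
    rw [h3] at h2
    have h4 : f n - f (n - (l + 1)) = (f n - f (n - l)) + (f (n - l) - f (n - (l + 1))) := by ring
    rw [h4]
    refine (abs_add_le _ _).trans ?_
    push_cast
    linarith

theorem K2_aux5 {k : PS} {u hh D : ℕ → ℝ} {φ G : ℝ} {n n1 : ℕ} (hn : n1 ≤ n)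
    (hu : ∀ m, u m = D m - hh m)
    (hE : 2 * D n = φ * cv k D n + (2 - φ) * hh n + G) :
    2 * 1 * u n - ∑ l ∈ range (n - n1 + 1), coeff l (φ • k) * u (n - l)
      = φ * (∑ l ∈ Ico (n - n1 + 1) (n + 1), coeff l k * D (n - l)) + G
        - φ * (∑ l ∈ range (n - n1 + 1), coeff l k * (hh n - hh (n - l))
          + hh n * (1 - Cum k (n - n1))) := by
  have e1 : cv k D n = ∑ l ∈ range (n - n1 + 1), coeff l k * D (n - l)
      + ∑ l ∈ Ico (n - n1 + 1) (n + 1), coeff l k * D (n - l) := by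
    unfold cv
    rw [Finset.sum_range_add_sum_Ico (fun l => coeff l k * D (n - l))
      (show n - n1 + 1 ≤ n + 1 by omega)]
  have e2 : ∑ l ∈ range (n - n1 + 1), coeff l (φ • k) * u (n - l)
      = φ * (∑ l ∈ range (n - n1 + 1), coeff l k * D (n - l))
        - φ * (∑ l ∈ range (n - n1 + 1), coeff l k * hh (n - l)) := by
    rw [Finset.mul_sum, Finset.mul_sum, ← Finset.sum_sub_distrib]
    apply Finset.sum_congr rfl
    intro l _
    rw [hu, map_smul, smul_eq_mul]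
    ring
  have e3 : ∑ l ∈ range (n - n1 + 1), coeff l k * (hh n - hh (n - l))
      = Cum k (n - n1) * hh n - ∑ l ∈ range (n - n1 + 1), coeff l k * hh (n - l) := by
    unfold Cum
    rw [Finset.sum_mul, ← Finset.sum_sub_distrib]
    apply Finset.sum_congr rfl
    intro l _
    ring
  rw [e1] at hE
  rw [e2, e3, hu]
  linear_combination hE

theorem K2_aux6 {x S D0 M M1 Q T1 G A1' : ℝ} (hA1 : A1' = 10 ^ 47) (hx : x ≤ T1 + A1' * G)
    (hS : S ≤ D0 + x) (hD0 : 0 ≤ D0) (hMQ : 0 ≤ M * Q) (hM1Q : 0 ≤ M1 * Q)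
    (hT1 : T1 ≤ 3576 * (M * Q)) (hG : G ≤ 8 * D0 + 12 / 10 ^ 50 * S + 1 / 10 ^ 60 * (M * Q)
      + 29300 * (M1 * Q)) :
    x ≤ 5000 * (M * Q) + 20 * A1' * D0 + 10 ^ 5 * A1' * (M1 * Q) := by
  subst hA1
  have h1 : (10 : ℝ) ^ 47 * G ≤ 10 ^ 47 * (8 * D0 + 12 / 10 ^ 50 * S + 1 / 10 ^ 60 * (M * Q)
      + 29300 * (M1 * Q)) := mul_le_mul_of_nonneg_left hG (by positivity)
  have h2 : (10 : ℝ) ^ 47 * (8 * D0 + 12 / 10 ^ 50 * S + 1 / 10 ^ 60 * (M * Q)
      + 29300 * (M1 * Q)) = 8 * 10 ^ 47 * D0 + 12 / 1000 * S + 1 / 10 ^ 13 * (M * Q)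
        + 29300 * 10 ^ 47 * (M1 * Q) := by ring
  rw [h2] at h1
  nlinarith

theorem plat_D {Λ : ℝ} {y'' y' y W W' V : ℕ} {a00 a0 : PS} {φ' κ : ℝ} {YM N : ℕ} {D : ℕ → ℝ}
    {M M1 D0 : ℝ} (t : TD Λ y'' y' y W W' V a00 a0 φ') (s : SL κ y YM) (hN : N ≤ YM)
    (hE : Eqn a0 y W W' V κ YM N D) (hM : ∀ n < N, |csum D n| ≤ M)
    (hM1 : ∀ n < N0 y + y, n < N → |csum D n| ≤ M1) (hD0 : ∀ n < N0 y, |D n| ≤ D0)
    (hD00 : D0 ≤ 1 / 10 ^ 50) (hsm : ∀ n < N, |D n| ≤ 1 / 10 ^ 50)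
    (hkb : 10 ^ 81 * kbY κ y YM ≤ 1 / 10 ^ 50) :
    ∀ n, N0 y ≤ n → n < N →
      |D n| ≤ 5000 * M / (ww * y) + 20 * A1 * D0 + 10 ^ 5 * A1 * M1 / (ww * y) := by
  intro n0 hn0 hn0N
  have g := t.geo
  have hin := t.inn
  have hy : 0 < y := g.y_pos
  have hy' : 0 < y' := g.pos
  have hyR : (0 : ℝ) < y := by exact_mod_cast hy
  have hy'R : (0 : ℝ) < y' := by exact_mod_cast hy'
  have hww : (0 : ℝ) < ww := by unfold ww; positivity
  have hWR : (0 : ℝ) < W := by exact_mod_cast g.W_pos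
  have hW'R : (0 : ℝ) < W' := by exact_mod_cast g.W'_pos
  have hN0 : 0 < N0 y := by unfold N0; omega
  have hN0y : y ≤ N0 y := by unfold N0; omega
  have hN0N : N0 y < N := lt_of_le_of_lt hn0 hn0N
  have hD0nn : 0 ≤ D0 := (abs_nonneg _).trans (hD0 0 hN0)
  have hMnn : 0 ≤ M := (abs_nonneg _).trans (hM 0 (by omega))
  have hM1nn : 0 ≤ M1 := (abs_nonneg _).trans (hM1 0 (by omega) (by omega))
  obtain ⟨nx, hnx, hmax⟩ := Finset.exists_max_image (Finset.Ico (N0 y) N) (fun n => |D n|)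
    ⟨n0, Finset.mem_Ico.2 ⟨hn0, hn0N⟩⟩
  rw [Finset.mem_Ico] at hnx
  obtain ⟨x, hxdef⟩ : ∃ x, x = |D nx| := ⟨_, rfl⟩
  have hxb : ∀ n, N0 y ≤ n → n < N → |D n| ≤ x := by
    intro n h1 h2
    rw [hxdef]
    exact hmax n (Finset.mem_Ico.2 ⟨h1, h2⟩)
  have hxnn : 0 ≤ x := by rw [hxdef]; exact abs_nonneg _
  obtain ⟨S, hSdef⟩ : ∃ S, S = max D0 x := ⟨_, rfl⟩
  have hSb : ∀ m < N, |D m| ≤ S := by
    intro m hm
    rw [hSdef]
    rcases lt_or_ge m (N0 y) with h | h
    · exact (hD0 m h).trans (le_max_left _ _)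
    · exact (hxb m h hm).trans (le_max_right _ _)
  have hSnn : 0 ≤ S := by rw [hSdef]; exact hD0nn.trans (le_max_left _ _)
  have hS50 : S ≤ 1 / 10 ^ 50 := by
    rw [hSdef]
    apply max_le hD00
    rw [hxdef]
    exact hsm nx hnx.2
  have hSx : S ≤ D0 + x := by
    rw [hSdef]
    apply max_le <;> linarith

  have hphi := phi_bd
  have hk38 : Bd 1 (ker a0) 38 := hin.lb.kn 1 Adm_one
  have hkR : Bd (1 + 1 / (10 ^ 8 * y')) (ker a0) 38 := hin.lb.kn _ (Adm_R hy')

  obtain ⟨gs, hgsdef⟩ : ∃ gs : ℕ → ℝ, ∀ n, gs n = cv (ms a0 y W W' V) D n :=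
    ⟨fun n => cv (ms a0 y W W' V) D n, fun _ => rfl⟩
  have hgs2 : ∀ n, gs n = cv (nab * ms a0 y W W' V) (csum D) n := by
    intro n
    rw [hgsdef, cv_nab_cum]
    rfl
  have hgsM : ∀ n < N, |gs n| ≤ 3200 / W * M := by
    intro n hn
    rw [hgs2]
    exact cv_bound (D8b g hin Adm_one) (fun m hm => hM m (by omega))
  have hgsM1 : ∀ n < N, n < N0 y + y → |gs n| ≤ 3200 / W * M1 := by
    intro n hn hn1
    rw [hgs2]
    exact cv_bound (D8b g hin Adm_one) (fun m hm => hM1 m (by omega) (by omega))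
  have hgsd : ∀ n, n + 1 < N → |gs (n + 1) - gs n| ≤ 5400 / (W * W') * M := by
    intro n hn
    have e1 : gs (n + 1) - gs n = cv (nab ^ 2 * ms a0 y W W' V) (csum D) (n + 1) := by
      have e2 : nab ^ 2 * ms a0 y W W' V = nab * (nab * ms a0 y W W' V) := by ring
      rw [e2, cv_mul, cv_nab_succ, ← hgs2, ← hgs2]
    rw [e1]
    exact cv_bound (D8c g hin Adm_one) (fun m hm => hM m (by omega))

  have hp2 : 0 < 2 - phi := by linarith [hphi.2]
  obtain ⟨hh, hhdef⟩ : ∃ hh : ℕ → ℝ, ∀ n, hh n = gs n / (2 - phi) :=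
    ⟨fun n => gs n / (2 - phi), fun _ => rfl⟩
  have hhM : ∀ n < N, |hh n| ≤ 3200 / W * M / (2 - phi) := by
    intro n hn
    rw [hhdef, abs_div, abs_of_pos hp2]
    exact div_le_div_of_nonneg_right (hgsM n hn) hp2.le
  have hhM1 : ∀ n < N, n < N0 y + y → |hh n| ≤ 3200 / W * M1 / (2 - phi) := by
    intro n hn hn1
    rw [hhdef, abs_div, abs_of_pos hp2]
    exact div_le_div_of_nonneg_right (hgsM1 n hn hn1) hp2.le
  have hhd : ∀ n, n + 1 < N → |hh (n + 1) - hh n| ≤ 5400 / (W * W') * M / (2 - phi) := by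
    intro n hn
    rw [hhdef, hhdef, ← sub_div, abs_div, abs_of_pos hp2]
    exact div_le_div_of_nonneg_right (hgsd n hn) hp2.le
  have hhL := K2_aux4 hhd
  obtain ⟨u, hudef⟩ : ∃ u : ℕ → ℝ, ∀ n, u n = D n - hh n := ⟨fun n => D n - hh n, fun _ => rfl⟩

  obtain ⟨G, hGdef⟩ : ∃ G : ℝ, G = phi * (38 * D0) + 12 / 10 ^ 50 * S
      + phi * (38 * 10 ^ 8 * y' * (5400 / (W * W') * M / (2 - phi))
        + (3200 / W * M1 / (2 - phi) * 39 + 3200 / W * M / (2 - phi) * (38 * 10 ^ 8 * y' / y))) :=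
    ⟨_, rfl⟩
  have hsrc : ∀ n, N0 y ≤ n → n < N →
      |2 * 1 * u n - ∑ l ∈ range (n - N0 y + 1), coeff l (phi • ker a0) * u (n - l)| ≤ G := by
    intro n h1 h2
    have hCum : Cum (aF a0 y W W' V) n = 1 := Cum_aF_one g hin (by omega)
    have hEq : 2 * D n = phi * cv (ker a0) D n + (2 - phi) * hh n
        + (cv (mt a0 y W W' V) D n + eF a0 y W W' V D n) := by
      have e1 : (2 - phi) * hh n = gs n := by
        rw [hhdef]; field_simp
      rw [e1, hgsdef]
      unfold eF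
      rw [hCum, D10 g hin, cv_add_left, cv_add_left, cv_smul_left]
      ring
    rw [K2_aux5 h1 hudef hEq]
    have b1 : |∑ l ∈ Ico (n - N0 y + 1) (n + 1), coeff l (ker a0) * D (n - l)| ≤ 38 * D0 := by
      refine (Finset.abs_sum_le_sum_abs _ _).trans ?_
      have : ∑ l ∈ Ico (n - N0 y + 1) (n + 1), |coeff l (ker a0) * D (n - l)|
          ≤ ∑ l ∈ Ico (n - N0 y + 1) (n + 1), |coeff l (ker a0)| * D0 := by
        apply Finset.sum_le_sum
        intro l hl
        rw [Finset.mem_Ico] at hl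
        rw [abs_mul]
        exact mul_le_mul_of_nonneg_left (hD0 _ (by omega)) (abs_nonneg _)
      refine this.trans ?_
      rw [← Finset.sum_mul]
      refine mul_le_mul_of_nonneg_right ?_ hD0nn
      have h3 := hk38 (n + 1)
      simp only [one_pow, mul_one] at h3
      refine le_trans ?_ h3
      apply Finset.sum_le_sum_of_subset_of_nonneg
      · intro l hl
        rw [Finset.mem_Ico] at hl
        rw [Finset.mem_range]
        omega
      · intro l _ _
        exact abs_nonneg _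
    have b2 : |cv (mt a0 y W W' V) D n + eF a0 y W W' V D n| ≤ 12 / 10 ^ 50 * S := by
      have c1 : |cv (mt a0 y W W' V) D n| ≤ 1 / 10 ^ 49 * S :=
        cv_bound (D9 g hin Adm_one) (fun m hm => hSb m (by omega))
      have c2 : |eF a0 y W W' V D n| ≤ (S + 10 ^ 81 * kbY κ y YM) * S :=
        eF_bd g hin s hN hE (by omega) h2 (fun m hm => hSb m (by omega))
      have c3 : (S + 10 ^ 81 * kbY κ y YM) * S ≤ (1 / 10 ^ 50 + 1 / 10 ^ 50) * S :=
        mul_le_mul_of_nonneg_right (add_le_add hS50 hkb) hSnn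
      refine (abs_add_le _ _).trans ?_
      have c4 : (12 : ℝ) / 10 ^ 50 * S = 1 / 10 ^ 49 * S + (1 / 10 ^ 50 + 1 / 10 ^ 50) * S := by
        ring
      linarith
    have b3 : |∑ l ∈ range (n - N0 y + 1), coeff l (ker a0) * (hh n - hh (n - l))|
        ≤ 38 * 10 ^ 8 * y' * (5400 / (W * W') * M / (2 - phi)) := by
      refine (Finset.abs_sum_le_sum_abs _ _).trans ?_
      have hLnn : 0 ≤ 5400 / (W * W') * M / (2 - phi) := by positivity
      have : ∑ l ∈ range (n - N0 y + 1), |coeff l (ker a0) * (hh n - hh (n - l))|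
          ≤ ∑ l ∈ range (n - N0 y + 1), |coeff l (ker a0)| * l
            * (5400 / (W * W') * M / (2 - phi)) := by
        apply Finset.sum_le_sum
        intro l hl
        rw [Finset.mem_range] at hl
        rw [abs_mul, mul_assoc]
        exact mul_le_mul_of_nonneg_left (hhL l n (by omega) h2) (abs_nonneg _)
      refine this.trans ?_
      rw [← Finset.sum_mul]
      refine mul_le_mul_of_nonneg_right ?_ hLnn
      have h3 := mom1 (show (0 : ℝ) < 1 / (10 ^ 8 * y') by positivity) hkR (n - N0 y + 1)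
      refine h3.trans (le_of_eq ?_)
      field_simp
    have b4 : |hh n * (1 - Cum (ker a0) (n - N0 y))|
        ≤ 3200 / W * M1 / (2 - phi) * 39 + 3200 / W * M / (2 - phi) * (38 * 10 ^ 8 * y' / y) := by
      rw [abs_mul]
      have q1' : 0 ≤ 3200 / W * M1 / (2 - phi) * 39 := by positivity
      have q2' : 0 ≤ 3200 / W * M / (2 - phi) * (38 * 10 ^ 8 * y' / y) := by positivity
      rcases lt_or_ge n (N0 y + y) with h | h
      · have c1 : |1 - Cum (ker a0) (n - N0 y)| ≤ 39 := by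
          have := Cum_le hk38 (n - N0 y)
          rw [abs_le] at this ⊢
          constructor <;> linarith
        have c2 := mul_le_mul (hhM1 n h2 h) c1 (abs_nonneg _) (by positivity)
        linarith
      · have c1 : |1 - Cum (ker a0) (n - N0 y)| ≤ 38 * 10 ^ 8 * y' / y := by
          refine (K2_aux3 hin.lb hy' (show 0 < n - N0 y by omega)).trans ?_
          apply div_le_div_of_nonneg_left (by positivity) hyR
          have : y ≤ n - N0 y := by omega
          exact_mod_cast this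
        have c2 := mul_le_mul (hhM n h2) c1 (abs_nonneg _) (by positivity)
        linarith
    have hp0 : 0 ≤ phi := by linarith [hphi.1]
    have d1 : |phi * (∑ l ∈ Ico (n - N0 y + 1) (n + 1), coeff l (ker a0) * D (n - l))|
        ≤ phi * (38 * D0) := by
      rw [abs_mul, abs_of_nonneg hp0]
      exact mul_le_mul_of_nonneg_left b1 hp0
    have d2 : |phi * (∑ l ∈ range (n - N0 y + 1), coeff l (ker a0) * (hh n - hh (n - l))
          + hh n * (1 - Cum (ker a0) (n - N0 y)))|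
        ≤ phi * (38 * 10 ^ 8 * y' * (5400 / (W * W') * M / (2 - phi))
        + (3200 / W * M1 / (2 - phi) * 39
          + 3200 / W * M / (2 - phi) * (38 * 10 ^ 8 * y' / y))) := by
      rw [abs_mul, abs_of_nonneg hp0]
      refine mul_le_mul_of_nonneg_left ?_ hp0
      exact (abs_add_le _ _).trans (add_le_add b3 b4)
    refine (abs_sub _ _).trans ?_
    refine (add_le_add (abs_add_le _ _) le_rfl).trans ?_
    rw [hGdef]
    linarith
  have hp0 : 0 ≤ phi := by linarith [hphi.1]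
  have hSP : SP (phi • ker a0) (9 / 10) A1 := hin.lb.s1 phi hp0 le_rfl
  have hU := SP_forward hSP (n1 := N0 y) (n2 := N) (cf := fun _ => 1) (u := u)
    (g := fun n => 2 * 1 * u n - ∑ l ∈ range (n - N0 y + 1), coeff l (phi • ker a0) * u (n - l))
    (G := G) (fun _ _ _ => by norm_num) (fun _ _ _ => rfl) hsrc

  have hunx := hU nx hnx.1 hnx.2
  have hx1 : x ≤ 3200 / W * M / (2 - phi) + A1 * G := by
    rw [hxdef]
    have e1 : D nx = hh nx + u nx := by rw [hudef]; ring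
    rw [e1]
    exact (abs_add_le _ _).trans (add_le_add (hhM nx hnx.2) hunx)
  obtain ⟨Q, hQdef⟩ : ∃ Q : ℝ, Q = 1 / (ww * y) := ⟨_, rfl⟩
  have hwy : 0 < ww * y := mul_pos hww hyR
  have hQ : 0 < Q := by rw [hQdef]; exact one_div_pos.2 hwy
  have hWQ : 1 / (W : ℝ) ≤ 2 * Q := by
    rw [hQdef, div_le_iff₀ hWR]
    have := g.Wlo
    have e1 : (2 : ℝ) * (1 / (ww * y)) * W = W / (ww * y / 2) := by field_simp
    rw [e1, le_div_iff₀ (half_pos hwy)]
    linarith
  have hW'Q : 1 / (W' : ℝ) ≤ 4000 * Q := by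
    have h1 : 1 / (W' : ℝ) ≤ 2000 * (1 / W) := by
      rw [div_le_iff₀ hW'R]
      have := g.W'lo
      have e1 : (2000 : ℝ) * (1 / W) * W' = W' / (W / 2000) := by field_simp
      rw [e1, le_div_iff₀ (by positivity)]
      linarith
    linarith
  have hsep := g.sep
  have hL0 : (0 : ℝ) < L0 := by unfold L0; positivity
  have hyy : (y' : ℝ) / y ≤ 1 / L0 := by
    rw [div_le_div_iff₀ hyR hL0]
    linarith
  have hyQ : (y' : ℝ) * Q ≤ 1 / 10 ^ 170 := by
    have e1 : (y' : ℝ) * Q = (y' / y) * (1 / ww) := by rw [hQdef]; field_simp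
    rw [e1]
    have h1 : (y' : ℝ) / y * (1 / ww) ≤ 1 / L0 * (1 / ww) :=
      mul_le_mul_of_nonneg_right hyy (one_div_pos.2 hww).le
    refine h1.trans ?_
    unfold L0 ww
    norm_num
  have hyy2 : (y' : ℝ) / y ≤ 1 / 10 ^ 170 := by
    refine hyy.trans ?_
    unfold L0
    norm_num
  have hp2' : 1 / (2 - phi) ≤ 0.5587 := by
    rw [div_le_iff₀ hp2]
    linarith [hphi.2]
  have hp2pos : 0 < 1 / (2 - phi) := by positivity
  have hT1 : 3200 / W * M / (2 - phi) ≤ 3576 * (M * Q) := by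
    have e1 : 3200 / W * M / (2 - phi) = 3200 * (1 / W) * M * (1 / (2 - phi)) := by
      field_simp
    rw [e1]
    calc 3200 * (1 / W) * M * (1 / (2 - phi)) ≤ 3200 * (2 * Q) * M * 0.5587 := by
          gcongr
      _ = 3575.68 * (M * Q) := by ring
      _ ≤ 3576 * (M * Q) := by
          have : 0 ≤ M * Q := by positivity
          linarith
  have hT2 : 3200 / W * M1 / (2 - phi) * 39 ≤ 139452 * (M1 * Q) := by
    have e1 : 3200 / W * M1 / (2 - phi) * 39 = 3200 * (1 / W) * M1 * (1 / (2 - phi)) * 39 := by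
      field_simp
    rw [e1]
    calc 3200 * (1 / W) * M1 * (1 / (2 - phi)) * 39 ≤ 3200 * (2 * Q) * M1 * 0.5587 * 39 := by
          gcongr
      _ = 139451.52 * (M1 * Q) := by ring
      _ ≤ 139452 * (M1 * Q) := by
          have : 0 ≤ M1 * Q := by positivity
          linarith
  have hT3 : 3200 / W * M / (2 - phi) * (38 * 10 ^ 8 * y' / y) ≤ 1 / 10 ^ 100 * (M * Q) := by
    have e1 : 3200 / W * M / (2 - phi) * (38 * 10 ^ 8 * y' / y)
        = (3200 / W * M / (2 - phi)) * (38 * 10 ^ 8 * (y' / y)) := by ring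
    rw [e1]
    calc (3200 / W * M / (2 - phi)) * (38 * 10 ^ 8 * (y' / y))
        ≤ (3576 * (M * Q)) * (38 * 10 ^ 8 * (1 / 10 ^ 170)) := by
          gcongr
      _ = (3576 * 38 * 10 ^ 8 / 10 ^ 170) * (M * Q) := by ring
      _ ≤ 1 / 10 ^ 100 * (M * Q) := by
          refine mul_le_mul_of_nonneg_right ?_ (by positivity)
          norm_num
  have hT4 : 38 * 10 ^ 8 * y' * (5400 / (W * W') * M / (2 - phi)) ≤ 1 / 10 ^ 100 * (M * Q) := by
    have e1 : 38 * 10 ^ 8 * y' * (5400 / (W * W') * M / (2 - phi))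
        = 38 * 10 ^ 8 * 5400 * (y' * (1 / W) * (1 / W')) * M * (1 / (2 - phi)) := by
      field_simp
    rw [e1]
    calc 38 * 10 ^ 8 * 5400 * (y' * (1 / W) * (1 / W')) * M * (1 / (2 - phi))
        ≤ 38 * 10 ^ 8 * 5400 * (y' * (2 * Q) * (4000 * Q)) * M * 0.5587 := by
          gcongr
      _ = (38 * 10 ^ 8 * 5400 * 8000 * 0.5587) * (y' * Q) * (M * Q) := by ring
      _ ≤ (38 * 10 ^ 8 * 5400 * 8000 * 0.5587) * (1 / 10 ^ 170) * (M * Q) := by
          gcongr
      _ ≤ 1 / 10 ^ 100 * (M * Q) := by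
          refine mul_le_mul_of_nonneg_right ?_ (by positivity)
          norm_num
  have hMQ : 0 ≤ M * Q := by positivity
  have hM1Q : 0 ≤ M1 * Q := by positivity
  have hG : G ≤ 8 * D0 + 12 / 10 ^ 50 * S + 1 / 10 ^ 60 * (M * Q) + 29300 * (M1 * Q) := by
    rw [hGdef]
    have r1 : phi * (38 * D0) ≤ 8 * D0 := by
      have : phi * 38 ≤ 8 := by linarith [hphi.2]
      have := mul_le_mul_of_nonneg_right this hD0nn
      linarith
    have r2 : phi * (38 * 10 ^ 8 * y' * (5400 / (W * W') * M / (2 - phi))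
        + (3200 / W * M1 / (2 - phi) * 39 + 3200 / W * M / (2 - phi) * (38 * 10 ^ 8 * y' / y)))
        ≤ 0.21 * (1 / 10 ^ 100 * (M * Q) + (139452 * (M1 * Q) + 1 / 10 ^ 100 * (M * Q))) := by
      apply mul_le_mul (by linarith [hphi.2]) (by linarith) (by positivity) (by norm_num)
    have r3 : (0.21 : ℝ) * (1 / 10 ^ 100 * (M * Q) + (139452 * (M1 * Q) + 1 / 10 ^ 100 * (M * Q)))
        = 0.42 / 10 ^ 100 * (M * Q) + 29284.92 * (M1 * Q) := by ring
    have r4 : (0.42 : ℝ) / 10 ^ 100 * (M * Q) ≤ 1 / 10 ^ 60 * (M * Q) := by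
      refine mul_le_mul_of_nonneg_right ?_ hMQ
      norm_num
    rw [r3] at r2
    linarith
  have hfin := K2_aux6 (show A1 = 10 ^ 47 from rfl) hx1 hSx hD0nn hMQ hM1Q hT1 hG
  have e1 : 5000 * M / (ww * y) = 5000 * (M * Q) := by rw [hQdef]; ring
  have e2 : 10 ^ 5 * A1 * M1 / (ww * y) = 10 ^ 5 * A1 * (M1 * Q) := by rw [hQdef]; ring
  rw [e1, e2]
  exact (hxb n0 hn0 hn0N).trans hfin

end MP18
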