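import Pool.Agent.Lib.MP_18566a_pr.T.K0

set_option autoImplicit false

namespace MP18

open Finset PowerSeries

theorem K3_aux1 (D : ℕ → ℝ) : dd D = fun m => cv nab D m := by
  funext m
  cases m with
  | zero => simp [dd, cv_nab_zero]
  | succ m => simp [dd, cv_nab_succ]

theorem K3_aux2 (A : PS) (D : ℕ → ℝ) (n : ℕ) : cv A (dd D) n = cv (nab ^ 2 * A) (csum D) n := by
  have e : nab ^ 2 * A = nab * (A * nab) := by ring
  rw [K3_aux1, ← cv_mul, cv_nab_cum, e]
  rfl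

theorem K3_aux3 (A : PS) (D : ℕ → ℝ) (m : ℕ) :
    cv A D (m + 1) - cv A D m = cv A (dd D) (m + 1) := cv_diff A D m

theorem K3_aux4 {A : PS} {C E0 : ℝ} {E : ℕ → ℝ} {n1 n : ℕ} (hA : Bd 1 A C) (hn : n1 ≤ n)
    (hE0 : 0 ≤ E0) (hE : ∀ m < n1, |E m| ≤ E0) :
    |cv A E n - ∑ l ∈ range (n - n1 + 1), coeff l A * E (n - l)| ≤ C * E0 := by
  have h1 : cv A E n = ∑ l ∈ range (n - n1 + 1), coeff l A * E (n - l)
      + ∑ l ∈ Ico (n - n1 + 1) (n + 1), coeff l A * E (n - l) := by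
    unfold cv
    rw [range_eq_Ico, range_eq_Ico]
    exact (sum_Ico_consecutive _ (Nat.zero_le _) (by omega)).symm
  rw [h1, add_sub_cancel_left]
  calc |∑ l ∈ Ico (n - n1 + 1) (n + 1), coeff l A * E (n - l)|
      ≤ ∑ l ∈ Ico (n - n1 + 1) (n + 1), |coeff l A * E (n - l)| := abs_sum_le_sum_abs _ _
    _ ≤ ∑ l ∈ Ico (n - n1 + 1) (n + 1), |coeff l A| * E0 := by
        apply sum_le_sum
        intro l hl
        rw [mem_Ico] at hl
        rw [abs_mul]
        exact mul_le_mul_of_nonneg_left (hE _ (by omega)) (abs_nonneg _)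
    _ ≤ ∑ l ∈ range (n + 1), |coeff l A| * E0 := by
        apply sum_le_sum_of_subset_of_nonneg
        · intro l hl
          rw [mem_Ico] at hl
          exact mem_range.2 hl.2
        · intro l _ _
          positivity
    _ = (∑ l ∈ range (n + 1), |coeff l A|) * E0 := by rw [sum_mul]
    _ ≤ C * E0 := by
        apply mul_le_mul_of_nonneg_right _ hE0
        have := hA (n + 1)
        simpa using this

theorem plat_dD {Λ : ℝ} {y'' y' y W W' V : ℕ} {a00 a0 : PS} {φ' κ : ℝ} {YM N : ℕ} {D : ℕ → ℝ}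
    {M E0 Dx : ℝ} (t : TD Λ y'' y' y W W' V a00 a0 φ') (s : SL κ y YM) (hN : N ≤ YM)
    (hE : Eqn a0 y W W' V κ YM N D) (hM : ∀ n < N, |csum D n| ≤ M)
    (hE0 : ∀ n ≤ N0 y, |dd D n| ≤ E0) (hDx : ∀ n < N, |D n| ≤ Dx) (hDx1 : Dx ≤ 1 / 10 ^ 50)
    (hkb : 10 ^ 81 * kbY κ y YM ≤ 1 / 10 ^ 50) :
    ∀ n, N0 y < n → n < N →
      |dd D n| ≤ 10 ^ 9 * A1 * M / (ww * y) ^ 2 + 20 * A1 * E0 + 4 * A1 * κ * Dx / y := by
  intro n0 hn0 hn0N
  have g := t.geo
  have h := t.inn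
  have hy'0 : (0 : ℝ) < y' := by exact_mod_cast g.pos
  have hL0 : (1 : ℝ) ≤ L0 := by
    unfold L0
    norm_num
  have hy0 : (0 : ℝ) < y := lt_of_lt_of_le (by positivity) g.sep
  have hyn : 0 < y := by exact_mod_cast hy0
  have hww : (0 : ℝ) < ww := by
    unfold ww
    norm_num
  have hwy : 0 < ww * y := mul_pos hww hy0
  have hW0 : (0 : ℝ) < W := lt_of_lt_of_le (div_pos hwy two_pos) g.Wlo
  have hW'0 : (0 : ℝ) < W' := lt_of_lt_of_le (by positivity) g.W'lo
  have hN0 : y ≤ N0 y := by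
    unfold N0
    omega
  have hN0pos : 0 < N := by omega
  have hE00 : 0 ≤ E0 := (abs_nonneg _).trans (hE0 0 (Nat.zero_le _))
  have hM0 : 0 ≤ M := (abs_nonneg _).trans (hM 0 hN0pos)
  have hDx0 : 0 ≤ Dx := (abs_nonneg _).trans (hDx 0 hN0pos)
  have hκ0 := s.κ0
  have hphi := phi_bd

  obtain ⟨ns, hns, hmax⟩ := exists_max_image (Ico (N0 y + 1) N) (fun n => |dd D n|)
    ⟨n0, mem_Ico.2 ⟨hn0, hn0N⟩⟩
  rw [mem_Ico] at hns
  set X : ℝ := |dd D ns| with hX
  have hXall : ∀ n, N0 y + 1 ≤ n → n < N → |dd D n| ≤ X := fun n h1 h2 =>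
    hmax n (mem_Ico.2 ⟨h1, h2⟩)
  have hX0 : 0 ≤ X := abs_nonneg _
  have hsup : ∀ n < N, |dd D n| ≤ X + E0 := by
    intro n hn
    rcases le_or_gt n (N0 y) with h1 | h1
    · linarith [hE0 n h1]
    · linarith [hXall n h1 hn]

  have b0 : Bd 1 (phi • ker a0) (|phi| * 38) := Bd_smul phi (h.lb.kn 1 Adm_one)
  rw [abs_of_pos (by linarith [hphi.1] : 0 < phi)] at b0
  have b1 := D8c g h (Adm_one (y := y))
  have b2 := D9 g h (Adm_one (y := y))
  have b3 := Bd_ker_diff g h s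
  have hkb0 := kbY_nonneg s
  have hWW : 5400 / ((W : ℝ) * W') ≤ 44000000 / (ww * y) ^ 2 := by
    rw [div_le_div_iff₀ (mul_pos hW0 hW'0) (pow_pos hwy 2)]
    have h1 := g.Wlo
    have h2 := g.W'lo
    have h3 : ww * y / 4000 ≤ W' := by linarith
    have h4 : (ww * y / 2) * (ww * y / 4000) ≤ W * W' :=
      mul_le_mul h1 h3 (div_nonneg hwy.le (by norm_num)) hW0.le
    nlinarith
  have hs1 : SP (phi • ker a0) (9 / 10) A1 := h.lb.s1 phi (by linarith [hphi.1]) le_rfl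
  set G : ℝ := 44000000 / (ww * y) ^ 2 * M + 13 / 10 ^ 50 * (X + E0) + 8 * E0
    + 2 * κ * Dx / y with hG
  have key := SP_forward hs1 (n1 := N0 y + 1) (n2 := N) (cf := fun _ => 1) (u := dd D)
    (g := fun n => 2 * 1 * dd D n - ∑ l ∈ range (n - (N0 y + 1) + 1),
      coeff l (phi • ker a0) * dd D (n - l)) (G := G)
    (fun _ _ _ => by norm_num) (fun _ _ _ => rfl) ?_ ns hns.1 hns.2
  ·
    have hA1 : A1 = 10 ^ 47 := rfl
    have hA10 : 0 < A1 := by
      rw [hA1]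
      positivity
    have h1 : X ≤ A1 * G := key
    have h2 := hXall n0 hn0 hn0N
    have h3 : A1 * G = A1 * (44000000 / (ww * y) ^ 2 * M) + 13 / 1000 * (X + E0) + A1 * (8 * E0)
        + A1 * (2 * κ * Dx / y) := by
      rw [hG, hA1]
      ring
    have h4 : 10 ^ 9 * A1 * M / (ww * y) ^ 2 = A1 * (M / (ww * y) ^ 2) * 10 ^ 9 := by ring
    have h5 : A1 * (44000000 / (ww * y) ^ 2 * M) = A1 * (M / (ww * y) ^ 2) * 44000000 := by ring
    have h6 : 4 * A1 * κ * Dx / y = 4 * (A1 * (κ * Dx / y)) := by ring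
    have h7 : A1 * (2 * κ * Dx / y) = 2 * (A1 * (κ * Dx / y)) := by ring
    have p1 : 0 ≤ A1 * (M / (ww * y) ^ 2) :=
      mul_nonneg hA10.le (div_nonneg hM0 (pow_pos hwy 2).le)
    have p2 : 0 ≤ A1 * (κ * Dx / y) :=
      mul_nonneg hA10.le (div_nonneg (mul_nonneg hκ0 hDx0) hy0.le)
    have p3 : E0 ≤ A1 * E0 := by
      have : (1 : ℝ) ≤ A1 := by
        rw [hA1]
        norm_num
      nlinarith
    have p4 : A1 * (8 * E0) = 8 * (A1 * E0) := by ring
    have p5 : 20 * A1 * E0 = 20 * (A1 * E0) := by ring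
    rw [h3, h5, h7, p4] at h1
    rw [h4, h6, p5]
    linarith
  ·
    intro n hn hnN
    obtain ⟨m, rfl⟩ : ∃ m, n = m + 1 := ⟨n - 1, by omega⟩
    have hmN : m < N := by omega
    have e1 := hE (m + 1) (by omega) hnN
    have e2 := hE m (by omega) hmN
    have f1 := Cum_FT_plat g h s (n := m + 1) (by omega) (by omega)
    have f2 := Cum_FT_plat g h s (n := m) (by omega) (by omega)
    have e3 := K3_aux3 (ker (FT a0 y W W' V κ YM)) D m
    have e4 : cv (ker (FT a0 y W W' V κ YM)) (dd D) (m + 1)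
        = cv (phi • ker a0) (dd D) (m + 1) + cv (ms a0 y W W' V) (dd D) (m + 1)
          + cv (mt a0 y W W' V) (dd D) (m + 1)
          + cv (ker (FT a0 y W W' V κ YM) - ker (aF a0 y W W' V)) (dd D) (m + 1) := by
      rw [cv_sub_left, D10 g h, cv_add_left, cv_add_left]
      ring
    have e5 : dd D (m + 1) = D (m + 1) - D m := by simp [dd]
    have c1 : |cv (ms a0 y W W' V) (dd D) (m + 1)| ≤ 5400 / (W * W') * M := by
      rw [K3_aux2]
      exact cv_bound b1 (fun k hk => hM k (by omega))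
    have c2 : |cv (mt a0 y W W' V) (dd D) (m + 1)| ≤ 1 / 10 ^ 49 * (X + E0) :=
      cv_bound b2 (fun k hk => hsup k (by omega))
    have c3 : |cv (ker (FT a0 y W W' V κ YM) - ker (aF a0 y W W' V)) (dd D) (m + 1)|
        ≤ 10 ^ 80 * kbY κ y YM * (X + E0) := cv_bound b3 (fun k hk => hsup k (by omega))
    have c4 := K3_aux4 (E := dd D) (n1 := N0 y + 1) b0 hn hE00 (fun k hk => hE0 k (by omega))
    have c5 := hsup (m + 1) hnN
    have c6 := hDx (m + 1) hnN
    have c7 := hDx m hmN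

    have hf0 : 0 ≤ κ * (((m + 1 : ℕ) : ℝ) + 1 - y) / y := by
      have : (y : ℝ) ≤ ((m + 1 : ℕ) : ℝ) := by exact_mod_cast (by omega : y ≤ m + 1)
      apply div_nonneg _ hy0.le
      apply mul_nonneg hκ0
      linarith
    have hf1 : κ * (((m + 1 : ℕ) : ℝ) + 1 - y) / y ≤ kbY κ y YM := by
      unfold kbY
      rw [div_le_div_iff_of_pos_right hy0]
      apply mul_le_mul_of_nonneg_left _ hκ0
      have : ((m + 1 : ℕ) : ℝ) + 1 ≤ (YM : ℝ) := by exact_mod_cast (by omega : m + 1 + 1 ≤ YM)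
      linarith
    have hf2 : κ * (((m + 1 : ℕ) : ℝ) + 1 - y) / y = κ * ((m : ℝ) + 1 - y) / y + κ / y := by
      push_cast
      ring
    set f : ℝ := κ * (((m + 1 : ℕ) : ℝ) + 1 - y) / y with hf
    have f3 : κ * ((m : ℝ) + 1 - y) / y = f - κ / y := by linarith
    rw [f3] at f2
    rw [f1] at e1
    rw [f2] at e2
    have main : 2 * 1 * dd D (m + 1) - cv (phi • ker a0) (dd D) (m + 1)
        = cv (ms a0 y W W' V) (dd D) (m + 1) + cv (mt a0 y W W' V) (dd D) (m + 1)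
          + cv (ker (FT a0 y W W' V κ YM) - ker (aF a0 y W W' V)) (dd D) (m + 1)
          - 2 * f * dd D (m + 1) - 2 * (κ / y) * D m
          + (D (m + 1) + D m) * dd D (m + 1) := by
      rw [← e1, ← e2, e4] at e3
      rw [e5]
      linear_combination e3
    have d1 : |2 * f * dd D (m + 1)| ≤ 2 * kbY κ y YM * (X + E0) := by
      rw [abs_mul, abs_of_nonneg (by positivity : (0 : ℝ) ≤ 2 * f)]
      apply mul_le_mul (by linarith) c5 (abs_nonneg _) (by positivity)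
    have d2 : |2 * (κ / y) * D m| ≤ 2 * (κ / y) * Dx := by
      rw [abs_mul, abs_of_nonneg (by positivity : (0 : ℝ) ≤ 2 * (κ / y))]
      exact mul_le_mul_of_nonneg_left c7 (by positivity)
    have d3 : |(D (m + 1) + D m) * dd D (m + 1)| ≤ 2 * Dx * (X + E0) := by
      rw [abs_mul]
      apply mul_le_mul _ c5 (abs_nonneg _) (by positivity)
      exact (abs_add_le _ _).trans (by linarith)
    have hsplit : 2 * 1 * dd D (m + 1) - ∑ l ∈ range (m + 1 - (N0 y + 1) + 1),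
        coeff l (phi • ker a0) * dd D (m + 1 - l)
        = (2 * 1 * dd D (m + 1) - cv (phi • ker a0) (dd D) (m + 1))
          + (cv (phi • ker a0) (dd D) (m + 1) - ∑ l ∈ range (m + 1 - (N0 y + 1) + 1),
            coeff l (phi • ker a0) * dd D (m + 1 - l)) := by ring
    show |2 * 1 * dd D (m + 1) - ∑ l ∈ range (m + 1 - (N0 y + 1) + 1),
        coeff l (phi • ker a0) * dd D (m + 1 - l)| ≤ G
    rw [hsplit, main]
    have hXE : 0 ≤ X + E0 := by linarith
    have q1 : 5400 / ((W : ℝ) * W') * M ≤ 44000000 / (ww * y) ^ 2 * M :=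
      mul_le_mul_of_nonneg_right hWW hM0
    have q2 : 10 ^ 80 * kbY κ y YM * (X + E0) ≤ 1 / 10 ^ 51 * (X + E0) := by
      apply mul_le_mul_of_nonneg_right _ hXE
      linarith
    have q3 : 2 * kbY κ y YM * (X + E0) ≤ 2 / 10 ^ 51 * (X + E0) := by
      apply mul_le_mul_of_nonneg_right _ hXE
      linarith
    have q4 : 2 * Dx * (X + E0) ≤ 2 / 10 ^ 50 * (X + E0) := by
      apply mul_le_mul_of_nonneg_right _ hXE
      linarith
    have q5 : phi * 38 * E0 ≤ 8 * E0 := by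
      apply mul_le_mul_of_nonneg_right _ hE00
      linarith [hphi.2]
    have q6 : 2 * (κ / y) * Dx = 2 * κ * Dx / y := by ring
    rw [q6] at d2
    have a1 := abs_le.1 c1
    have a2 := abs_le.1 c2
    have a3 := abs_le.1 c3
    have a4 := abs_le.1 c4
    have a5 := abs_le.1 d1
    have a6 := abs_le.1 d2
    have a7 := abs_le.1 d3
    have r1 : 1 / 10 ^ 49 * (X + E0) + 1 / 10 ^ 51 * (X + E0) + 2 / 10 ^ 51 * (X + E0)
        + 2 / 10 ^ 50 * (X + E0) ≤ 13 / 10 ^ 50 * (X + E0) := by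
      have : 1 / 10 ^ 49 * (X + E0) + 1 / 10 ^ 51 * (X + E0) + 2 / 10 ^ 51 * (X + E0)
        + 2 / 10 ^ 50 * (X + E0) = (1 / 10 ^ 49 + 1 / 10 ^ 51 + 2 / 10 ^ 51 + 2 / 10 ^ 50)
          * (X + E0) := by ring
      rw [this]
      apply mul_le_mul_of_nonneg_right _ hXE
      norm_num
    rw [abs_le]
    constructor
    · linarith [a1.1, a2.1, a3.1, a4.1, a5.2, a6.2, a7.1]
    · linarith [a1.2, a2.2, a3.2, a4.2, a5.1, a6.1, a7.2]

end MP18
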