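import Pool.Agent.Lib.MP_18566a_pr.T.K0

set_option autoImplicit false

namespace MP18

open Finset PowerSeries

theorem K4_aux_abel (w D : ℕ → ℝ) (m : ℕ) : ∑ n ∈ range (m + 1), w n * D n
    = w m * csum D m + ∑ n ∈ range m, csum D n * (w n - w (n + 1)) := by
  induction m with
  | zero => simp [csum]
  | succ m ih =>
    rw [sum_range_succ, ih, sum_range_succ (fun n => csum D n * (w n - w (n + 1)))]
    have : csum D (m + 1) = csum D m + D (m + 1) := by
      unfold csum
      rw [sum_range_succ]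
    rw [this]
    ring

theorem K4_aux_bound {c Phi : ℕ → ℝ} {M : ℝ} (m : ℕ)
    (h : ∀ n < m, |c n| * (Phi (n + 1) - Phi n) ≤ M * (Phi (n + 1) - Phi n))
    (hmono : ∀ n < m, 0 ≤ Phi (n + 1) - Phi n) :
    |∑ n ∈ range m, c n * (Phi (n + 1) - Phi n)| ≤ M * (Phi m - Phi 0) := by
  refine (abs_sum_le_sum_abs _ _).trans ?_
  have h1 : ∑ n ∈ range m, |c n * (Phi (n + 1) - Phi n)|
      ≤ ∑ n ∈ range m, M * (Phi (n + 1) - Phi n) := by
    apply sum_le_sum
    intro n hn
    rw [mem_range] at hn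
    rw [abs_mul, abs_of_nonneg (hmono n hn)]
    exact h n hn
  refine h1.trans (le_of_eq ?_)
  rw [← mul_sum, sum_range_sub]

theorem K4_aux_aF_nn {y' y W W' V : ℕ} {a0 : PS} (h : In y' y a0) (n : ℕ) :
    0 ≤ coeff n (aF a0 y W W' V) := by
  have h1 := h.lb.nn n
  have h2 := QQ_nn y W W' V n
  have h3 := phi_bd.1
  unfold aF
  rw [map_add, PowerSeries.coeff_smul, smul_eq_mul]
  have : 0 ≤ phi * coeff n a0 := mul_nonneg (by linarith) h1
  linarith

theorem K4_aux_slo {y W W' V YM : ℕ} {a0 : PS} {κ : ℝ} (s : SL κ y YM) (n : ℕ) :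
    0 ≤ coeff n (FT a0 y W W' V κ YM) - coeff n (aF a0 y W W' V) := by
  have h1 := kbY_nonneg s
  unfold FT aT
  rw [map_add, PowerSeries.coeff_smul, smul_eq_mul, add_sub_cancel_left]
  apply mul_nonneg h1
  unfold slo
  rw [PowerSeries.coeff_X_pow_mul']
  split_ifs
  · exact U_nn _ _
  · exact _root_.le_refl _

theorem K4_aux_Cum_succ (A : PS) (n : ℕ) : Cum A (n + 1) - Cum A n = coeff (n + 1) A := by
  unfold Cum
  rw [sum_range_succ _ (n + 1)]
  ring

theorem plat_V {y' y W W' V N : ℕ} {a0 : PS} (g : Geo y' y W W' V) (h : In y' y a0) {D : ℕ → ℝ}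
    {M M0 R : ℝ} (hM : ∀ n < N, |csum D n| ≤ M) (hM0 : ∀ j < N0 y, |csum D j| ≤ M0)
    (hR : ∑ j ∈ range N, |eF a0 y W W' V D j| ≤ R) {n : ℕ} (hn : n < N) :
    |∑ j ∈ range (n + 1), csum D j| ≤ 3000 * y * M + N * (2 * M0 + R) := by
  have hy : 0 < y := Geo.y_pos g
  have hM00 : 0 ≤ M0 := (abs_nonneg _).trans (hM0 0 (by unfold N0; omega))
  have hR0 : 0 ≤ R := (sum_nonneg fun _ _ => abs_nonneg _).trans hR
  set k := kap (ker (aF a0 y W W' V)) with hk
  set EE : ℕ → ℝ := fun n => ∑ j ∈ range (n + 1),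
    (2 * (1 - Cum (aF a0 y W W' V) j) * D j + eF a0 y W W' V D j) with hEE
  have h1 : ∑ j ∈ range (n + 1), csum D j = cv k (csum D) n + ∑ j ∈ range (n + 1), EE j := by
    have e1 : ∑ j ∈ range (n + 1), csum D j = ∑ j ∈ range (n + 1), (cv k D j + EE j) := by
      apply sum_congr rfl
      intro j _
      exact EE_id g h D j
    rw [e1, sum_add_distrib, cv_cum]
    rfl
  have h2 : |cv k (csum D) n| ≤ 3000 * y * M :=
    cv_bound (D11 g h (Adm_one : Adm 1 y)) (fun m hm => hM m (lt_of_le_of_lt hm hn))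
  have h3 : ∀ j < N, |EE j| ≤ 2 * M0 + R := by
    intro j hj
    have e1 : EE j = 2 * (∑ i ∈ range (j + 1), (1 - Cum (aF a0 y W W' V) i) * D i)
        + ∑ i ∈ range (j + 1), eF a0 y W W' V D i := by
      rw [hEE, mul_sum, ← sum_add_distrib]
      apply sum_congr rfl
      intro i _
      ring
    have e2 := abel_EE g h hM0 j
    have e3 : |∑ i ∈ range (j + 1), eF a0 y W W' V D i| ≤ R := by
      refine (abs_sum_le_sum_abs _ _).trans (le_trans ?_ hR)
      apply sum_le_sum_of_subset_of_nonneg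
      · intro i hi
        rw [mem_range] at hi ⊢
        omega
      · intro i _ _
        exact abs_nonneg _
    rw [e1]
    refine (abs_add_le _ _).trans ?_
    rw [abs_mul, abs_of_pos (by norm_num : (0 : ℝ) < 2)]
    linarith
  have h4 : |∑ j ∈ range (n + 1), EE j| ≤ N * (2 * M0 + R) := by
    refine (abs_sum_le_sum_abs _ _).trans ?_
    have e1 : ∑ j ∈ range (n + 1), |EE j| ≤ ∑ _j ∈ range (n + 1), (2 * M0 + R) := by
      apply sum_le_sum
      intro j hj
      rw [mem_range] at hj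
      exact h3 j (by omega)
    refine e1.trans ?_
    rw [sum_const, card_range, nsmul_eq_mul]
    apply mul_le_mul_of_nonneg_right _ (by linarith)
    have : n + 1 ≤ N := hn
    exact_mod_cast this
  rw [h1]
  exact (abs_add_le _ _).trans (by linarith)

theorem plat_6 {y' y W W' V YM Y : ℕ} {a0 : PS} {κ M M0 R Q : ℝ} {D : ℕ → ℝ}
    (g : Geo y' y W W' V) (h : In y' y a0) (s : SL κ y YM) (hY : N0 y < Y) (hYM : Y ≤ YM)
    (hE : Eqn a0 y W W' V κ YM Y D) (hM : ∀ n < Y, |csum D n| ≤ M)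
    (hM0 : ∀ j < N0 y, |csum D j| ≤ M0)
    (hR : ∑ n ∈ range y, |(2 * Cum (FT a0 y W W' V κ YM) n - D n) * D n
      - cv (ker (FT a0 y W W' V κ YM)) D n| ≤ R)
    (hQ : ∑ n ∈ range Y, (D n) ^ 2 ≤ Q) :
    |2 * (1 + kbY κ y Y) * csum D (Y - 1) - cv (ker (FT a0 y W W' V κ YM)) (csum D) (Y - 1)|
      ≤ 2 * M0 + 2 * kbY κ y Y * M + Q + R := by
  have hy : 0 < y := Geo.y_pos g
  have hN0 : 9 * y ≤ N0 y := by unfold N0; omega
  have hM00 : 0 ≤ M0 := (abs_nonneg _).trans (hM0 0 (by omega))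
  have hMM : 0 ≤ M := (abs_nonneg _).trans (hM 0 (by omega))
  obtain ⟨m, rfl⟩ : ∃ m, Y = m + 1 := ⟨Y - 1, by omega⟩
  rw [Nat.add_sub_cancel]
  set F : ℕ → ℝ := fun n => Cum (FT a0 y W W' V κ YM) n with hF
  set Φ : ℕ → ℝ := fun n => Cum (aF a0 y W W' V) n with hΦ
  set kT := ker (FT a0 y W W' V κ YM) with hkT
  set kb := kbY κ y (m + 1) with hkb

  have hFm : F m = 1 + kb := by
    have := Cum_FT_plat (n := m) g h s (by omega) (by omega)
    rw [hF]
    simp only
    rw [this, hkb]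
    unfold kbY
    push_cast
    ring
  have hΦm : Φ m = 1 := Cum_aF_one g h (by omega)
  have hΦ0 : 0 ≤ Φ 0 := by
    rw [hΦ]
    simp only [Cum, zero_add, sum_range_one]
    exact K4_aux_aF_nn h 0
  have hG0 : 0 ≤ F 0 - Φ 0 := by
    have := (Cum_FT (n := 0) g h s).1
    simp only [hF, hΦ]
    linarith
  have hΦs : ∀ n, Φ (n + 1) - Φ n = coeff (n + 1) (aF a0 y W W' V) := fun n => K4_aux_Cum_succ _ n
  have hFs : ∀ n, F (n + 1) - F n = coeff (n + 1) (FT a0 y W W' V κ YM) :=
    fun n => K4_aux_Cum_succ _ n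

  have hid : 2 * (1 + kb) * csum D m - cv kT (csum D) m
      = 2 * (∑ n ∈ range (m + 1), (1 + kb - F n) * D n) + ∑ n ∈ range (m + 1), (D n) ^ 2
        + ∑ n ∈ range (m + 1), ((2 * F n - D n) * D n - cv kT D n) := by
    have e1 : cv kT (csum D) m = ∑ n ∈ range (m + 1), cv kT D n := (cv_cum kT D m).symm
    have e2 : csum D m = ∑ n ∈ range (m + 1), D n := rfl
    rw [e1, e2, mul_sum, mul_sum, ← sum_sub_distrib, ← sum_add_distrib, ← sum_add_distrib]
    apply sum_congr rfl
    intro n _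
    ring

  have h3 : |∑ n ∈ range (m + 1), ((2 * F n - D n) * D n - cv kT D n)| ≤ R := by
    have e1 : ∑ n ∈ range (m + 1), ((2 * F n - D n) * D n - cv kT D n)
        = ∑ n ∈ range y, ((2 * F n - D n) * D n - cv kT D n) := by
      symm
      apply sum_subset
      · intro n hn
        rw [mem_range] at hn ⊢
        omega
      · intro n hn hn2
        rw [mem_range] at hn hn2
        have := hE n (by omega) hn
        simp only [hF]
        linarith
    rw [e1]
    exact (abs_sum_le_sum_abs _ _).trans hR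
  have h2 : 0 ≤ ∑ n ∈ range (m + 1), (D n) ^ 2 := sum_nonneg fun _ _ => sq_nonneg _

  have h1 : |∑ n ∈ range (m + 1), (1 + kb - F n) * D n| ≤ M0 + M * kb := by
    have e1 : ∑ n ∈ range (m + 1), (1 + kb - F n) * D n = (1 + kb - F m) * csum D m
        + ∑ n ∈ range m, csum D n * (1 + kb - F n - (1 + kb - F (n + 1))) :=
      K4_aux_abel (fun n => 1 + kb - F n) D m
    rw [e1, hFm, sub_self, zero_mul, zero_add]
    have e2 : ∑ n ∈ range m, csum D n * (1 + kb - F n - (1 + kb - F (n + 1)))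
        = ∑ n ∈ range m, csum D n * (Φ (n + 1) - Φ n)
          + ∑ n ∈ range m, csum D n * ((fun k => F k - Φ k) (n + 1) - (fun k => F k - Φ k) n) := by
      rw [← sum_add_distrib]
      apply sum_congr rfl
      intro n _
      ring
    rw [e2]
    have b1 : |∑ n ∈ range m, csum D n * (Φ (n + 1) - Φ n)| ≤ M0 * (Φ m - Φ 0) := by
      apply K4_aux_bound
      · intro n hn
        by_cases hc : N0 y ≤ n + 1
        · have c1 : Φ n = 1 := Cum_aF_one g h hc
          have c2 : Φ (n + 1) = 1 := Cum_aF_one g h (by omega)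
          rw [c1, c2, sub_self, mul_zero, mul_zero]
        · apply mul_le_mul_of_nonneg_right (hM0 n (by omega))
          rw [hΦs]
          exact K4_aux_aF_nn h _
      · intro n _
        rw [hΦs]
        exact K4_aux_aF_nn h _
    have hmono : ∀ n < m, 0 ≤ (fun k => F k - Φ k) (n + 1) - (fun k => F k - Φ k) n := by
      intro n _
      simp only
      have := K4_aux_slo (a0 := a0) (W := W) (W' := W') (V := V) s (n + 1)
      rw [← hFs, ← hΦs] at this
      linarith
    have b2 : |∑ n ∈ range m, csum D n * ((fun k => F k - Φ k) (n + 1) - (fun k => F k - Φ k) n)|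
        ≤ M * (F m - Φ m - (F 0 - Φ 0)) := by
      refine K4_aux_bound (c := csum D) (Phi := fun k => F k - Φ k) m ?_ hmono
      intro n hn
      exact mul_le_mul_of_nonneg_right (hM n (by omega)) (hmono n hn)
    rw [hFm, hΦm] at b2
    rw [hΦm] at b1
    refine (abs_add_le _ _).trans ?_
    have c1 : M0 * (1 - Φ 0) ≤ M0 * 1 := mul_le_mul_of_nonneg_left (by linarith) hM00
    have c2 : M * (1 + kb - 1 - (F 0 - Φ 0)) ≤ M * kb :=
      mul_le_mul_of_nonneg_left (by linarith) hMM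
    linarith
  rw [hid]
  have a1 := abs_le.mp h1
  have a3 := abs_le.mp h3
  rw [abs_le]
  constructor <;> nlinarith [a1.1, a1.2, a3.1, a3.2]

end MP18
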