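import Pool.Agent.Lib.MP_18566a_pr.T.K4
import Pool.Agent.Lib.MP_18566a_pr.T.J2

set_option autoImplicit false

namespace MP18

open Finset PowerSeries

/-- sum of the residuals below `y` -/
noncomputable def res (a : PS) (d : ℕ → ℝ) (y : ℕ) : ℝ :=
  ∑ n ∈ range y, |(2 * Cum a n - d n) * d n - cv (ker a) d n|

/-- state: units `y'' < y' < y`, law `a0` (unit `y'`, complete before `y`), previous law `a00`, perturbation `d` on `[0,y)` of size `S` -/
structure St (Λ Lm : ℕ) (ε η : ℝ) (y'' y' y : ℕ) (a00 a0 : PS) (φ' : ℝ) (d : ℕ → ℝ) (S : ℝ) :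
    Prop where
  lb0 : LB y' a0
  cpl : Cpl a0 y 1
  lb00 : LB y'' a00
  pos'' : 0 < y''
  big : 10 ^ 83 ≤ y'
  sep1 : Λ * y'' ≤ y'
  sep2 : Λ * y' ≤ y
  up2 : y ≤ Lm * y'
  φ0 : 0 ≤ φ'
  φ1 : φ' ≤ phi
  win : ∀ l < y', coeff l (ker a0) = φ' * coeff l (ker a00)
  Spos : 0 < S
  s1 : ∀ n < y, |csum d n| ≤ S
  s1' : |csum d (y - 1)| = S
  s2 : ∀ n < y, |d n| ≤ 10 ^ 4 * S / (ww * y')
  s3 : ∀ n < y, |dd d n| ≤ 10 ^ 203 * S / (y' : ℝ) ^ 2
  s4 : ∀ n < y, |∑ j ∈ range (n + 1), csum d j| ≤ 10 ^ 4 * y' * S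
  s5 : ∑ n ∈ range y', |d n| ≤ ε * S
  s6 : 15 / 10 * ff * S ≤ |2 * ff * csum d (y - 1)
    + phi * (2 * csum d (y - 1) - cv (ker a0) (csum d) (y - 1))|
  s7 : S ≤ η * y'
  s8 : (2 - d (y - 1)) * d (y - 1) = cv (ker a0) d (y - 1)
  s9 : ∀ n < y, |dd d n| ≤ coeff n a0 / 2
  s10 : res a0 d y ≤ 50 * S

theorem Geo_exists {y' y : ℕ} (h1 : 10 ^ 83 ≤ y') (h2 : L0 * y' ≤ y) :
    ∃ W W' V : ℕ, Geo y' y W W' V := by
  have h1R : (10 : ℝ) ^ 83 ≤ y' := by exact_mod_cast h1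
  have hy1 : (1 : ℝ) ≤ y' := _root_.le_trans (by norm_num) h1R
  have hy : (10 : ℝ) ^ 250 ≤ y := by
    have h3 : L0 * 1 ≤ L0 * y' := mul_le_mul_of_nonneg_left hy1 (by unfold L0; positivity)
    have h4 : L0 = (10 : ℝ) ^ 250 := rfl
    rw [mul_one] at h3
    rw [← h4]
    exact h3.trans h2
  have hwy : (10000 : ℝ) ≤ ww * y := by
    have h3 : ww * (10 : ℝ) ^ 250 ≤ ww * y := mul_le_mul_of_nonneg_left hy (by unfold ww; positivity)
    refine _root_.le_trans ?_ h3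
    unfold ww
    norm_num
  obtain ⟨x, hx⟩ : ∃ x : ℝ, x = ww * y := ⟨_, rfl⟩
  rw [← hx] at hwy
  have hvy : (1 : ℝ) ≤ vv * y' := by
    have h3 : vv * (10 : ℝ) ^ 83 ≤ vv * y' := mul_le_mul_of_nonneg_left h1R (by unfold vv; positivity)
    refine _root_.le_trans ?_ h3
    unfold vv
    norm_num
  have hk0 : (0 : ℝ) ≤ 3 * x / 8 := by linarith
  have hk1 := Nat.floor_le hk0
  have hk2 := Nat.lt_floor_add_one (3 * x / 8)
  obtain ⟨q, hq⟩ : ∃ q : ℕ, q = ⌊3 * x / 8⌋₊ := ⟨_, rfl⟩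
  rw [← hq] at hk1 hk2
  have hWc : ((2 * q + 1 : ℕ) : ℝ) = 2 * q + 1 := by push_cast; ring
  have hdiv1 : (1000 : ℝ) * (((2 * q + 1) / 1000 : ℕ) : ℝ) ≤ 2 * q + 1 := by
    have h3 : 1000 * ((2 * q + 1) / 1000) ≤ 2 * q + 1 := Nat.mul_div_le _ _
    exact_mod_cast h3
  have hdiv2 : (2 * q + 1 : ℝ) < 1000 * ((((2 * q + 1) / 1000 : ℕ) : ℝ) + 1) := by
    have h3 : 2 * q + 1 < 1000 * ((2 * q + 1) / 1000 + 1) := by omega
    exact_mod_cast h3
  have hv1 := Nat.le_ceil (vv * y')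
  have hv2 := Nat.ceil_lt_add_one (a := vv * y') (by linarith)
  refine ⟨2 * q + 1, (2 * q + 1) / 1000, ⌈vv * y'⌉₊, ?_⟩
  constructor
  · have : 0 < 10 ^ 83 := by positivity
    omega
  · exact h2
  · exact ⟨q, rfl⟩
  · rw [hWc, ← hx]
    linarith
  · rw [hWc, ← hx]
    linarith
  · rw [hWc]
    linarith
  · rw [hWc]
    linarith
  · exact hv1
  · linarith
  · exact Nat.ceil_pos.2 (by linarith)

theorem St_TD {Λ Lm : ℕ} {ε η : ℝ} {y'' y' y W W' V : ℕ} {a00 a0 : PS} {φ' : ℝ} {d : ℕ → ℝ} {S : ℝ}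
    (hΛ : L0 ≤ Λ) (h : St Λ Lm ε η y'' y' y a00 a0 φ' d S) (g : Geo y' y W W' V) :
    TD Λ y'' y' y W W' V a00 a0 φ' where
  geo := g
  inn := ⟨h.lb0, h.cpl⟩
  lb00 := h.lb00
  pos'' := h.pos''
  hL := hΛ
  sep1 := by exact_mod_cast h.sep1
  sep2 := by exact_mod_cast h.sep2
  φ0 := h.φ0
  φ1 := h.φ1
  win := h.win

theorem L0_aux_csum (d : ℕ → ℝ) (c : ℝ) : csum (fun n => c * d n) = fun n => c * csum d n := by
  funext n
  unfold csum
  rw [Finset.mul_sum]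

theorem L0_aux_cv (A : PS) (u : ℕ → ℝ) (c : ℝ) (n : ℕ) :
    cv A (fun n => c * u n) n = c * cv A u n := by
  unfold cv
  rw [Finset.mul_sum]
  apply Finset.sum_congr rfl
  intro j _
  ring

theorem St_DH {Λ Lm : ℕ} {ε η : ℝ} {y'' y' y : ℕ} {a00 a0 : PS} {φ' : ℝ} {d : ℕ → ℝ} {S : ℝ}
    (hε : 0 ≤ ε) (h : St Λ Lm ε η y'' y' y a00 a0 φ' d S) :
    DH ε y' y (fun n => phi * d n) (phi * S) ∧
    15 / 10 * ff * (phi * S) ≤ |2 * ff * csum (fun n => phi * d n) (y - 1)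
      + phi * (2 * csum (fun n => phi * d n) (y - 1)
        - cv (ker a0) (csum (fun n => phi * d n)) (y - 1))| := by
  have hp : 0 ≤ phi := by
    have := phi_bd.1
    norm_num at this
    linarith
  constructor
  · constructor
    · exact mul_nonneg hp h.Spos.le
    · intro n hn
      rw [L0_aux_csum, abs_mul, abs_of_nonneg hp]
      exact mul_le_mul_of_nonneg_left (h.s1 n hn) hp
    · intro n hn
      rw [abs_mul, abs_of_nonneg hp]
      have h3 := mul_le_mul_of_nonneg_left (h.s2 n hn) hp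
      refine h3.trans (le_of_eq ?_)
      ring
    · intro n hn
      rw [L0_aux_csum, ← Finset.mul_sum, abs_mul, abs_of_nonneg hp]
      have h3 := mul_le_mul_of_nonneg_left (h.s4 n hn) hp
      refine h3.trans (le_of_eq ?_)
      ring
    · have h3 := mul_le_mul_of_nonneg_left h.s5 hp
      have e : ∑ n ∈ range y', |phi * d n| = phi * ∑ n ∈ range y', |d n| := by
        rw [Finset.mul_sum]
        apply Finset.sum_congr rfl
        intro n _
        rw [abs_mul, abs_of_nonneg hp]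
      rw [e]
      refine h3.trans (le_of_eq ?_)
      ring
  · rw [L0_aux_csum, L0_aux_cv]
    have e : 2 * ff * (phi * csum d (y - 1)) + phi * (2 * (phi * csum d (y - 1))
        - phi * cv (ker a0) (csum d) (y - 1)) = phi * (2 * ff * csum d (y - 1)
        + phi * (2 * csum d (y - 1) - cv (ker a0) (csum d) (y - 1))) := by ring
    show _ ≤ |2 * ff * (phi * csum d (y - 1)) + phi * (2 * (phi * csum d (y - 1))
        - phi * cv (ker a0) (csum d) (y - 1))|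
    rw [e, abs_mul, abs_of_nonneg hp]
    have h3 := mul_le_mul_of_nonneg_left h.s6 hp
    refine _root_.le_trans (le_of_eq ?_) h3
    ring

end MP18
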