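import Pool.Agent.Lib.MP_18566a_pr.T.L0
import Pool.Agent.Lib.MP_18566a_pr.T.K1
import Pool.Agent.Lib.MP_18566a_pr.T.K2
import Pool.Agent.Lib.MP_18566a_pr.T.K3

set_option autoImplicit false

namespace MP18

open Finset PowerSeries

structure Cst (K K2 Cg δ κ1 ε : ℝ) (Λ Lm : ℕ) (κ Gm η1 : ℝ) : Prop where
  εpos : 0 < ε
  ε1 : ε ≤ 1
  cε : Cg * ε ≤ 1
  cΛ : L0 ≤ Λ
  cΛ' : Cg ≤ Λ
  cL : Λ + 20 ≤ Lm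
  /-- growth beats everything -/
  c2 : 10 ^ 250 * (K * K2) ^ (Λ + 20) * (Lm : ℝ) ^ 4 ≤
    ε * ff * (phi * (ff ^ 2 / 10 ^ 5) * Real.exp (ff / 100 * Lm))
  κpos : 0 < κ
  κ1' : κ ≤ 1
  cκ1 : κ * Lm ≤ κ1
  cκ2 : κ * Lm * 10 ^ 245 ≤ ff
  cκ3 : Cg * (Lm : ℝ) ^ 2 * (10 ^ 81 * κ * Lm) * (10 ^ 78 * K ^ (Lm + 2)) ≤ ff / 20
  cκ4 : (Lm : ℝ) ^ 2 * (10 ^ 81 * κ * Lm) * 10 ^ 78 ≤ 1
  cG : 10 ^ 80 * K ^ (Lm + 2) * (Lm : ℝ) ≤ Gm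
  ηpos : 0 < η1
  cη1 : 10 ^ 78 * η1 ≤ δ
  cη2 : 10 ^ 78 * K ^ (Lm + 2) * η1 ≤ 1 / 10 ^ 200
  cη3 : Cg * (Lm : ℝ) ^ 2 * (10 ^ 78 * K ^ (Lm + 2)) ^ 2 * η1 ≤ ff / 20
  cη4 : 10 ^ 210 * K2 ^ (Lm + 2) * (Lm : ℝ) * η1 ≤ κ
  cη5 : 10 ^ 160 * (Lm : ℝ) ^ 2 * η1 ≤ ff / 10 ^ 6
  cη6 : 1000 * η1 ≤ κ
  cη7 : 10 ^ 240 * (Lm : ℝ) ^ 4 * K ^ (Lm + 2) * η1 ≤ ff

theorem L1_aux0 : ∀ᶠ κ in nhdsWithin (0 : ℝ) (Set.Ioi 0), 0 < κ := self_mem_nhdsWithin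

theorem L1_aux1 (A B : ℝ) (hB : 0 < B) :
    ∀ᶠ κ in nhdsWithin (0 : ℝ) (Set.Ioi 0), κ * A ≤ B := by
  have h : Filter.Tendsto (fun κ : ℝ => κ * A) (nhdsWithin 0 (Set.Ioi 0)) (nhds (0 * A)) :=
    (Filter.Tendsto.mul_const A Filter.tendsto_id).mono_left nhdsWithin_le_nhds
  rw [zero_mul] at h
  filter_upwards [h.eventually (gt_mem_nhds hB)] with κ hκ
  exact le_of_lt hκ

theorem L1_aux2 {f : ℝ} (hf : 0 < f) (N : ℕ) (c : ℝ) (hc : 0 < c) :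
    ∃ n : ℕ, N ≤ n ∧ (f / 100 * n) ^ 4 * Real.exp (-(f / 100 * n)) ≤ c := by
  have h1 : Filter.Tendsto (fun n : ℕ => f / 100 * (n : ℝ)) Filter.atTop Filter.atTop :=
    Filter.Tendsto.const_mul_atTop (by positivity) tendsto_natCast_atTop_atTop
  have h2 := (Real.tendsto_pow_mul_exp_neg_atTop_nhds_zero 4).comp h1
  have h3 := (h2.eventually (gt_mem_nhds hc)).and (Filter.eventually_ge_atTop N)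
  obtain ⟨n, hn1, hn2⟩ := h3.exists
  exact ⟨n, hn2, le_of_lt hn1⟩

theorem Cst_exists (K K2 Cg : ℝ) (hK : 1 ≤ K) (hK2 : 1 ≤ K2) (hC : 1 ≤ Cg) (δ κ1 : ℕ → ℝ)
    (hδ : ∀ n, 0 < δ n) (hκ : ∀ n, 0 < κ1 n) :
    ∃ (ε : ℝ) (Λ Lm : ℕ) (κ Gm η1 : ℝ), 1 ≤ Gm ∧ Cst K K2 Cg (δ Lm) (κ1 Lm) ε Λ Lm κ Gm η1 := by
  have hff : 0 < ff := ff_pos
  have hphi : 0 < phi := by linarith [phi_bd.1]
  have hCg : 0 < Cg := by linarith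
  have hK0 : 0 < K := by linarith
  have hK20 : 0 < K2 := by linarith
  have hε : 0 < 1 / Cg := by positivity
  have hε1 : 1 / Cg ≤ 1 := by
    rw [div_le_one hCg]; exact hC
  obtain ⟨Λ, hΛ⟩ : ∃ Λ : ℕ, max L0 Cg ≤ Λ := exists_nat_ge _
  have hc : 0 < (ff / 100) ^ 4 * (1 / Cg * ff * (phi * (ff ^ 2 / 10 ^ 5))) /
      (10 ^ 250 * (K * K2) ^ (Λ + 20)) := by positivity
  obtain ⟨Lm, hLm1, hLm2⟩ := L1_aux2 hff (Λ + 20) _ hc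
  have hLm0 : (0 : ℝ) ≤ Lm := Nat.cast_nonneg _
  obtain ⟨κ, hκ0, k1, k2, k3, k4, k5⟩ := ((L1_aux0).and ((L1_aux1 1 1 one_pos).and
    ((L1_aux1 (Lm : ℝ) (κ1 Lm) (hκ Lm)).and
    ((L1_aux1 ((Lm : ℝ) * 10 ^ 245) ff hff).and
    ((L1_aux1 (Cg * (Lm : ℝ) ^ 2 * (10 ^ 81 * Lm) * (10 ^ 78 * K ^ (Lm + 2))) (ff / 20)
      (by positivity)).and
    (L1_aux1 ((Lm : ℝ) ^ 2 * (10 ^ 81 * Lm) * 10 ^ 78) 1 one_pos)))))).exists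
  obtain ⟨η1, hη0, e1, e2, e3, e4, e5, e6, e7⟩ := ((L1_aux0).and
    ((L1_aux1 (10 ^ 78) (δ Lm) (hδ Lm)).and
    ((L1_aux1 (10 ^ 78 * K ^ (Lm + 2)) (1 / 10 ^ 200) (by positivity)).and
    ((L1_aux1 (Cg * (Lm : ℝ) ^ 2 * (10 ^ 78 * K ^ (Lm + 2)) ^ 2) (ff / 20) (by positivity)).and
    ((L1_aux1 (10 ^ 210 * K2 ^ (Lm + 2) * (Lm : ℝ)) κ hκ0).and
    ((L1_aux1 (10 ^ 160 * (Lm : ℝ) ^ 2) (ff / 10 ^ 6) (by positivity)).and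
    ((L1_aux1 1000 κ hκ0).and
    (L1_aux1 (10 ^ 240 * (Lm : ℝ) ^ 4 * K ^ (Lm + 2)) ff hff)))))))).exists
  refine ⟨1 / Cg, Λ, Lm, κ, max 1 (10 ^ 80 * K ^ (Lm + 2) * (Lm : ℝ)), η1, le_max_left _ _, ?_⟩
  refine ⟨hε, hε1, ?_, (le_max_left _ _).trans hΛ, (le_max_right _ _).trans hΛ, hLm1, ?_, hκ0,
    ?_, ?_, ?_, ?_, ?_, le_max_right _ _, hη0, ?_, ?_, ?_, ?_, ?_, ?_, ?_⟩
  · rw [mul_one_div_cancel hCg.ne']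
  · have hE : 0 < Real.exp (ff / 100 * Lm) := Real.exp_pos _
    have hA : (0 : ℝ) < 10 ^ 250 * (K * K2) ^ (Λ + 20) := by positivity
    have hf4 : (0 : ℝ) < (ff / 100) ^ 4 := by positivity
    have h1 : (ff / 100 * Lm) ^ 4 ≤ (ff / 100) ^ 4 * (1 / Cg * ff * (phi * (ff ^ 2 / 10 ^ 5))) /
      (10 ^ 250 * (K * K2) ^ (Λ + 20)) * Real.exp (ff / 100 * Lm) := by
      rw [Real.exp_neg] at hLm2
      have h2 := mul_le_mul_of_nonneg_right hLm2 hE.le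
      rwa [inv_mul_cancel_right₀ hE.ne'] at h2
    rw [mul_pow, div_mul_eq_mul_div, le_div_iff₀ hA] at h1
    have h3 : (ff / 100) ^ 4 * (10 ^ 250 * (K * K2) ^ (Λ + 20) * (Lm : ℝ) ^ 4) ≤
        (ff / 100) ^ 4 * (1 / Cg * ff * (phi * (ff ^ 2 / 10 ^ 5) * Real.exp (ff / 100 * Lm))) := by
      calc _ = (ff / 100) ^ 4 * (Lm : ℝ) ^ 4 * (10 ^ 250 * (K * K2) ^ (Λ + 20)) := by ring
        _ ≤ _ := h1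
        _ = _ := by ring
    exact le_of_mul_le_mul_left h3 hf4
  · rw [mul_one] at k1; exact k1
  · exact k2
  · rw [← mul_assoc] at k3; exact k3
  · calc _ = κ * (Cg * (Lm : ℝ) ^ 2 * (10 ^ 81 * Lm) * (10 ^ 78 * K ^ (Lm + 2))) := by ring
      _ ≤ _ := k4
  · calc _ = κ * ((Lm : ℝ) ^ 2 * (10 ^ 81 * Lm) * 10 ^ 78) := by ring
      _ ≤ _ := k5
  · rw [mul_comm]; exact e1
  · rw [mul_comm]; exact e2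
  · rw [mul_comm]; exact e3
  · rw [mul_comm]; exact e4
  · rw [mul_comm]; exact e5
  · rw [mul_comm]; exact e6
  · rw [mul_comm]; exact e7

end MP18
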