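import Pool.Agent.Lib.MP_18566a_pr.T.L1

set_option autoImplicit false

namespace MP18

open Finset PowerSeries

structure UK (K K2 Cg : ℝ) (δ κ1 : ℕ → ℝ) : Prop where
  hK : 1 ≤ K
  hK2 : 1 ≤ K2
  hCg : 1 ≤ Cg
  hδ : ∀ n, 0 < δ n
  hκ : ∀ n, 0 < κ1 n
  ap : ∀ (Λ : ℝ) (y'' y' y W W' V : ℕ) (a00 a0 : PS) (φ' κ : ℝ)
    (YM N : ℕ) (D : ℕ → ℝ) (B : ℝ), TD Λ y'' y' y W W' V a00 a0 φ' → SL κ y YM → N ≤ YM → 0 ≤ B →
    (∀ n < y, |D n| ≤ B) → Eqn a0 y W W' V κ YM N D → (∀ n < N, |D n| ≤ ff / 10) →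
    ∀ n < N, |D n| ≤ K ^ (n / y + 1) * B
  ex : ∀ (Lm : ℕ) (Λ : ℝ) (y'' y' y W W' V : ℕ)
    (a00 a0 : PS) (φ' κ : ℝ) (YM : ℕ) (d : ℕ → ℝ) (B : ℝ), TD Λ y'' y' y W W' V a00 a0 φ' →
    SL κ y YM → YM ≤ Lm * y → 0 ≤ B → B ≤ δ Lm → (∀ n < y, |d n| ≤ B) →
    ∃ D : ℕ → ℝ, (∀ n < y, D n = d n) ∧ Eqn a0 y W W' V κ YM YM D ∧ (∀ n < YM, |D n| ≤ ff / 10)
  df : ∀ (Λ : ℝ) (y'' y' y W W' V : ℕ) (a00 a0 : PS) (φ' κ : ℝ)
    (YM N : ℕ) (D : ℕ → ℝ) (B B1 : ℝ), TD Λ y'' y' y W W' V a00 a0 φ' → SL κ y YM → N ≤ YM →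
    0 ≤ B → 0 ≤ B1 → (∀ n < y, |D n| ≤ B) → (∀ n < y, |dd D n| ≤ B1) →
    Eqn a0 y W W' V κ YM N D →
    (2 * phi - D (y - 1)) * D (y - 1) = cv (ker (FT a0 y W W' V κ YM)) D (y - 1) →
    (∀ n < N, |D n| ≤ ff / 10) →
    ∀ n < N, |dd D n| ≤ K2 ^ (n / y + 1) * (B1 + B / y')
  gr : ∀ (Λ ε : ℝ) (y'' y' y W W' V : ℕ) (a00 a0 : PS) (φ' κ : ℝ)
    (YM N : ℕ) (D : ℕ → ℝ) (S Mx M : ℝ), Cg ≤ Λ → 0 ≤ ε → Cg * ε ≤ 1 →
    TD Λ y'' y' y W W' V a00 a0 φ' → SL κ y YM → N0 y ≤ N → N ≤ YM →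
    Eqn a0 y W W' V κ YM N D → DH ε y' y D S →
    15 / 10 * ff * S ≤ |2 * ff * csum D (y - 1)
      + phi * (2 * csum D (y - 1) - cv (ker a0) (csum D) (y - 1))| →
    (∀ n < N, |D n| ≤ Mx) → Cg * N * ((Mx + 10 ^ 81 * kbY κ y YM) * Mx) ≤ ff / 10 * S →
    (∀ n < N, |csum D n| ≤ M) →
    ff ^ 2 / 10 ^ 5 * Real.exp (ff / 100 * (N / y)) * S ≤ M
  lb : ∀ (Lm : ℕ) (y' y W W' V Y : ℕ) (a0 : PS) (kb : ℝ),
    Geo y' y W W' V → In y' y a0 → 10 * y ≤ Y → (Y : ℝ) ≤ Lm * y → 0 ≤ kb → kb ≤ κ1 Lm →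
    LB y (aN a0 y W W' V kb Y) ∧ Cpl (aN a0 y W W' V kb Y) Y 1

theorem UK_exists : ∃ (K K2 Cg : ℝ) (δ κ1 : ℕ → ℝ), UK K K2 Cg δ κ1 := by
  obtain ⟨K, hK, hap⟩ := fwd_apriori
  obtain ⟨K2, hK2, hdf⟩ := fwd_diff
  obtain ⟨C, hC, hgr⟩ := growth
  choose Kx δ hKx hδ hex using fwd_exists
  choose κ1 hκ hlb using fun Lm : ℕ => LB_aN (Lm : ℝ)
  exact ⟨K, K2, C, δ, κ1, ⟨hK, hK2, hC, hδ, hκ, hap, hex, hdf, hgr, hlb⟩⟩

/-- result of the forward step -/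
structure SD (K K2 : ℝ) (Λ Lm : ℕ) (κ : ℝ) (y' y W W' V : ℕ) (a0 : PS) (d : ℕ → ℝ) (S : ℝ)
    (D : ℕ → ℝ) (Y : ℕ) (S' : ℝ) : Prop where
  low : ∀ n < y, D n = phi * d n
  eqn : Eqn a0 y W W' V κ (Lm * y) (Lm * y) D
  b0 : ∀ n < Lm * y, |D n| ≤ K ^ (n / y + 1) * (10 ^ 77 * S / y')
  b1 : ∀ n < Lm * y, |dd D n| ≤ K2 ^ (n / y + 1) * (10 ^ 204 * S / (y' : ℝ) ^ 2)
  Ylo : (Λ + 1) * y ≤ Y
  Yhi : Y ≤ Lm * y
  sup : ∀ n < Y, |csum D n| ≤ S'
  at1 : |csum D (Y - 1)| = S'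
  gr : phi * (ff ^ 2 / 10 ^ 5) * Real.exp (ff / 100 * Lm) * S ≤ S'
  up : S' ≤ 10 ^ 77 * Lm * K ^ (Lm + 2) * (S / y') * y

theorem L2_csum {D : ℕ → ℝ} {n N : ℕ} {b : ℝ} (hb : 0 ≤ b) (hn : n < N)
    (h : ∀ j < N, |D j| ≤ b) : |csum D n| ≤ N * b := by
  unfold csum
  calc |∑ j ∈ range (n + 1), D j| ≤ ∑ j ∈ range (n + 1), |D j| := abs_sum_le_sum_abs _ _
    _ ≤ ∑ _j ∈ range (n + 1), b := sum_le_sum fun j hj => h j (by
        have := mem_range.1 hj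
        omega)
    _ = ((n + 1 : ℕ) : ℝ) * b := by
        rw [sum_const, card_range, nsmul_eq_mul]
    _ ≤ N * b := by
        apply mul_le_mul_of_nonneg_right _ hb
        exact_mod_cast hn

theorem L2_small {Cg L y' x N Kp a a' f η1 : ℝ} (hCg : 0 ≤ Cg) (hL : 0 ≤ L) (hy' : 0 < y')
    (hx : 0 ≤ x) (hx1 : x ≤ η1) (hK : 0 ≤ Kp) (ha : 0 ≤ a) (haa : a ≤ a') (hN0 : 0 ≤ N)
    (hN : N ≤ L ^ 2 * y') (h1 : Cg * L ^ 2 * (10 ^ 78 * Kp) ^ 2 * η1 ≤ f / 20)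
    (h2 : Cg * L ^ 2 * a' * (10 ^ 78 * Kp) ≤ f / 20) :
    Cg * N * ((Kp * (10 ^ 77 * x) + a) * (Kp * (10 ^ 77 * x))) ≤ f / 100 * (x * y') := by
  obtain ⟨P, hP⟩ : ∃ P : ℝ, P = 10 ^ 78 * Kp := ⟨_, rfl⟩
  have hP0 : 0 ≤ P := by
    rw [hP]
    positivity
  have e1 : Kp * (10 ^ 77 * x) = P * x / 10 := by
    rw [hP]
    ring
  rw [← hP] at h1 h2
  rw [e1]
  have ha' : 0 ≤ a' := ha.trans haa
  have s1 : Cg * N * ((P * x / 10 + a) * (P * x / 10))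
      ≤ Cg * (L ^ 2 * y') * ((P * x / 10 + a') * (P * x / 10)) := by
    gcongr
  have s2 : Cg * L ^ 2 * P ^ 2 * x ≤ f / 20 :=
    (mul_le_mul_of_nonneg_left hx1 (by positivity)).trans h1
  have s3 : Cg * (L ^ 2 * y') * ((P * x / 10 + a') * (P * x / 10))
      = (Cg * L ^ 2 * P ^ 2 * x) * (x * y') / 100 + (Cg * L ^ 2 * a' * P) * (x * y') / 10 := by
    ring
  have hxy : 0 ≤ x * y' := by positivity
  have s4 := mul_le_mul_of_nonneg_right s2 hxy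
  have s5 := mul_le_mul_of_nonneg_right h2 hxy
  have hf : 0 ≤ f / 20 := le_trans (by positivity) s2
  have s6 : 0 ≤ f / 20 * (x * y') := mul_nonneg hf hxy
  rw [s3] at s1
  linarith

theorem L2_lo {K K2 L S : ℝ} {Λ : ℕ} (hK : 1 ≤ K) (hK2 : 1 ≤ K2) (hL : 1 ≤ L) (hS : 0 < S) :
    10 ^ 77 * L ^ 2 * K ^ (Λ + 1) * S < 10 ^ 250 * (K * K2) ^ (Λ + 20) * L ^ 4 * S := by
  have k1 : K ^ (Λ + 1) ≤ (K * K2) ^ (Λ + 20) :=
    (pow_le_pow_right₀ hK (by omega)).trans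
      (pow_le_pow_left₀ (by positivity) (le_mul_of_one_le_right (by positivity) hK2) _)
  have l1 : L ^ 2 ≤ L ^ 4 := pow_le_pow_right₀ hL (by norm_num)
  have p0 : 0 < (K * K2) ^ (Λ + 20) * L ^ 4 := by positivity
  have m1 : L ^ 2 * K ^ (Λ + 1) ≤ L ^ 4 * (K * K2) ^ (Λ + 20) :=
    mul_le_mul l1 k1 (by positivity) (by positivity)
  apply mul_lt_mul_of_pos_right _ hS
  have m2 : (10 : ℝ) ^ 77 * ((K * K2) ^ (Λ + 20) * L ^ 4)
      < 10 ^ 250 * ((K * K2) ^ (Λ + 20) * L ^ 4) :=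
    mul_lt_mul_of_pos_right (by norm_num) p0
  have m3 : (10 : ℝ) ^ 77 * (L ^ 2 * K ^ (Λ + 1)) ≤ 10 ^ 77 * (L ^ 4 * (K * K2) ^ (Λ + 20)) :=
    mul_le_mul_of_nonneg_left m1 (by positivity)
  calc (10 : ℝ) ^ 77 * L ^ 2 * K ^ (Λ + 1) = 10 ^ 77 * (L ^ 2 * K ^ (Λ + 1)) := by ring
    _ ≤ 10 ^ 77 * (L ^ 4 * (K * K2) ^ (Λ + 20)) := m3
    _ = 10 ^ 77 * ((K * K2) ^ (Λ + 20) * L ^ 4) := by ring
    _ < 10 ^ 250 * ((K * K2) ^ (Λ + 20) * L ^ 4) := m2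
    _ = 10 ^ 250 * (K * K2) ^ (Λ + 20) * L ^ 4 := by ring

theorem L2_kb {κ : ℝ} {y Lm : ℕ} (hy : 0 < y) : kbY κ y (Lm * y) = κ * ((Lm : ℝ) - 1) := by
  have hy0 : (y : ℝ) ≠ 0 := by
    have : (0 : ℝ) < y := by exact_mod_cast hy
    exact this.ne'
  unfold kbY
  push_cast
  field_simp

theorem step_SL {K K2 Cg δ κ1 ε : ℝ} {Λ Lm : ℕ} {κ Gm η1 : ℝ} {y : ℕ}
    (c : Cst K K2 Cg δ κ1 ε Λ Lm κ Gm η1) (hy : 0 < y) (hL : 20 ≤ Lm) : SL κ y (Lm * y) := by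
  have hff : ff ≤ 1 := by
    unfold ff
    norm_num
  have hL0 : (0 : ℝ) ≤ Lm := Nat.cast_nonneg _
  refine ⟨Nat.mul_le_mul_right y (by omega), c.κpos.le, c.κ1', ?_⟩
  rw [L2_kb hy]
  have h1 := c.cκ2
  have h0 : 0 ≤ κ * Lm := mul_nonneg c.κpos.le hL0
  have h2 : κ * ((Lm : ℝ) - 1) ≤ κ * Lm := by nlinarith [c.κpos]
  have h3 : κ * Lm * 10 ^ 90 ≤ κ * Lm * 10 ^ 245 := mul_le_mul_of_nonneg_left (by norm_num) h0
  have h4 : κ * ((Lm : ℝ) - 1) * 10 ^ 90 ≤ κ * Lm * 10 ^ 90 :=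
    mul_le_mul_of_nonneg_right h2 (by positivity)
  rw [le_div_iff₀ (by positivity)]
  linarith

theorem step_D {K K2 Cg : ℝ} {δ κ1 : ℕ → ℝ} {ε : ℝ} {Λ Lm : ℕ} {κ Gm η1 η : ℝ}
    {y'' y' y W W' V : ℕ} {a00 a0 : PS} {φ' : ℝ} {d : ℕ → ℝ} {S : ℝ} (u : UK K K2 Cg δ κ1)
    (c : Cst K K2 Cg (δ Lm) (κ1 Lm) ε Λ Lm κ Gm η1) (hG : 1 ≤ Gm)
    (h : St Λ Lm ε η y'' y' y a00 a0 φ' d S) (g : Geo y' y W W' V) (hη : 0 ≤ η) (hη1 : η ≤ η1)
    (hS : S ≤ η / Gm * y') :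
    ∃ (D : ℕ → ℝ) (Y : ℕ) (S' : ℝ), SD K K2 Λ Lm κ y' y W W' V a0 d S D Y S' := by
  have hy'0 : (0 : ℝ) < y' := by exact_mod_cast g.pos
  have hy'n := g.pos
  have hyy : L0 * y' ≤ y := g.sep
  have hL0 : (1 : ℝ) ≤ L0 := by
    unfold L0
    norm_num
  have hy0 : (0 : ℝ) < y := lt_of_lt_of_le (mul_pos (by linarith) hy'0) hyy
  have hyn : 0 < y := by exact_mod_cast hy0
  have hL20 : 20 ≤ Lm := by
    have := c.cL
    omega
  have hLr : (1 : ℝ) ≤ Lm := by exact_mod_cast (by omega : 1 ≤ Lm)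
  have s := step_SL c hyn hL20
  have t := St_TD c.cΛ h g
  obtain ⟨dh, h6⟩ := St_DH c.εpos.le h
  have hphi := phi_bd
  have hphi0 : 0 < phi := by linarith [hphi.1]
  have hphi1 : phi ≤ 1 := by linarith [hphi.2]
  have hS0 := h.Spos
  have hff0 := ff_pos
  have hff1 : ff ≤ 1 := by
    unfold ff
    norm_num

  obtain ⟨x, hx⟩ : ∃ x : ℝ, x = S / y' := ⟨_, rfl⟩
  have hx0 : 0 < x := by
    rw [hx]
    positivity
  have hxS : x * y' = S := by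
    rw [hx]
    field_simp
  have hxη : x ≤ η1 := by
    rw [hx, div_le_iff₀ hy'0]
    have h1 : η / Gm ≤ η := div_le_self hη hG
    have h2 : η / Gm * y' ≤ η1 * y' := mul_le_mul_of_nonneg_right (h1.trans hη1) hy'0.le
    linarith
  obtain ⟨B, hB⟩ : ∃ B : ℝ, B = 10 ^ 77 * x := ⟨_, rfl⟩
  have hBe : B = 10 ^ 77 * S / y' := by
    rw [hB, hx]
    ring
  have hB0 : 0 < B := by
    rw [hB]
    positivity
  have hBδ : B ≤ δ Lm := by
    have h1 := c.cη1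
    have h2 : (10 : ℝ) ^ 78 * x ≤ 10 ^ 78 * η1 := mul_le_mul_of_nonneg_left hxη (by positivity)
    have h3 : B ≤ 10 ^ 78 * x := by
      rw [hB]
      apply mul_le_mul_of_nonneg_right _ hx0.le
      norm_num
    linarith
  have hd : ∀ n < y, |phi * d n| ≤ B := by
    intro n hn
    have h1 := h.s2 n hn
    have h2 : 10 ^ 4 * S / (ww * y') = B := by
      rw [hBe]
      unfold ww
      field_simp
    rw [h2] at h1
    rw [abs_mul, abs_of_pos hphi0]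
    calc phi * |d n| ≤ 1 * |d n| := mul_le_mul_of_nonneg_right hphi1 (abs_nonneg _)
      _ ≤ B := by
        rw [one_mul]
        exact h1
  obtain ⟨D, hDlow, hEq, hDff⟩ := u.ex Lm Λ y'' y' y W W' V a00 a0 φ' κ (Lm * y)
    (fun n => phi * d n) B t s le_rfl hB0.le hBδ hd
  have hDB : ∀ n < y, |D n| ≤ B := by
    intro n hn
    rw [hDlow n hn]
    exact hd n hn
  have hb0 := u.ap Λ y'' y' y W W' V a00 a0 φ' κ (Lm * y) (Lm * y) D B t s le_rfl hB0.le hDB hEq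
    hDff

  have hdd : ∀ n < y, |dd D n| ≤ 10 ^ 203 * S / (y' : ℝ) ^ 2 := by
    intro n hn
    have h1 : dd D n = phi * dd d n := by
      unfold dd
      split_ifs with h0
      · exact hDlow 0 hyn
      · rw [hDlow n hn, hDlow (n - 1) (by omega)]
        ring
    rw [h1, abs_mul, abs_of_pos hphi0]
    calc phi * |dd d n| ≤ 1 * |dd d n| := mul_le_mul_of_nonneg_right hphi1 (abs_nonneg _)
      _ ≤ 10 ^ 203 * S / (y' : ℝ) ^ 2 := by
        rw [one_mul]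
        exact h.s3 n hn
  have hy1 : (2 * phi - D (y - 1)) * D (y - 1) = cv (ker (FT a0 y W W' V κ (Lm * y))) D (y - 1) := by
    have h1 : cv (ker (FT a0 y W W' V κ (Lm * y))) D (y - 1) = cv (phi • ker a0) D (y - 1) := by
      apply cv_congr_left
      intro l hl
      rw [ker_FT_low g t.inn s (by omega), PowerSeries.coeff_smul, smul_eq_mul]
    have h2 : cv (ker a0) D (y - 1) = cv (ker a0) (fun m => phi * d m) (y - 1) := by
      apply cv_congr_right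
      intro l hl
      exact hDlow l (by omega)
    rw [h1, cv_smul_left, h2, cv_smul_right, ← h.s8, hDlow (y - 1) (by omega)]
    ring
  have hb1 := u.df Λ y'' y' y W W' V a00 a0 φ' κ (Lm * y) (Lm * y) D B
    (10 ^ 203 * S / (y' : ℝ) ^ 2) t s le_rfl hB0.le (by positivity) hDB hdd hEq hy1 hDff

  have hNpos : 0 < Lm * y := Nat.mul_pos (by omega) hyn
  obtain ⟨ns, hns, hmax⟩ := exists_max_image (range (Lm * y)) (fun n => |csum D n|)
    ⟨0, mem_range.2 hNpos⟩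
  rw [mem_range] at hns
  have hmax' : ∀ n < Lm * y, |csum D n| ≤ |csum D ns| := fun n hn => hmax n (mem_range.2 hn)
  have hK1 := u.hK
  have hK0 : 0 < K := by linarith

  have hMx : ∀ n < Lm * y, |D n| ≤ K ^ (Lm + 2) * B := by
    intro n hn
    refine (hb0 n hn).trans (mul_le_mul_of_nonneg_right ?_ hB0.le)
    apply pow_le_pow_right₀ hK1
    have := (Nat.div_lt_iff_lt_mul hyn).2 hn
    omega
  have hyL : (y : ℝ) ≤ Lm * y' := by exact_mod_cast h.up2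
  have hN : (((Lm * y : ℕ)) : ℝ) ≤ (Lm : ℝ) ^ 2 * y' := by
    push_cast
    calc (Lm : ℝ) * y ≤ Lm * (Lm * y') := mul_le_mul_of_nonneg_left hyL (by linarith)
      _ = (Lm : ℝ) ^ 2 * y' := by ring
  have hkb0 := kbY_nonneg s
  have hkb1 : kbY κ y (Lm * y) ≤ κ * Lm := by
    rw [L2_kb hyn]
    nlinarith [c.κpos]
  have hgr := u.gr Λ ε y'' y' y W W' V a00 a0 φ' κ (Lm * y) (Lm * y) D (phi * S)
    (K ^ (Lm + 2) * B) (|csum D ns|) c.cΛ' c.εpos.le c.cε t s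
    (by
      unfold N0
      have : 20 * y ≤ Lm * y := Nat.mul_le_mul_right y hL20
      omega) le_rfl hEq
    (by
      refine ⟨dh.S0', ?_, ?_, ?_, ?_⟩
      · intro n hn
        have : csum D n = csum (fun n => phi * d n) n := by
          unfold csum
          exact sum_congr rfl fun j hj => hDlow j (by
            have := mem_range.1 hj
            omega)
        rw [this]
        exact dh.h1 n hn
      · intro n hn
        rw [hDlow n hn]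
        exact dh.h2 n hn
      · intro n hn
        have : ∑ j ∈ range (n + 1), csum D j = ∑ j ∈ range (n + 1), csum (fun n => phi * d n) j := by
          apply sum_congr rfl
          intro j hj
          unfold csum
          exact sum_congr rfl fun i hi => hDlow i (by
            have h1 := mem_range.1 hj
            have h2 := mem_range.1 hi
            omega)
        rw [this]
        exact dh.h4 n hn
      · have hy'y : y' ≤ y := by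
          have h1 : (y' : ℝ) ≤ y := by nlinarith
          exact_mod_cast h1
        have : ∑ n ∈ range y', |D n| = ∑ n ∈ range y', |phi * d n| :=
          sum_congr rfl fun j hj => by
            rw [hDlow j (by
              have := mem_range.1 hj
              omega)]
        rw [this]
        exact dh.h5)
    (by
      have e1 : csum D (y - 1) = csum (fun n => phi * d n) (y - 1) := by
        unfold csum
        exact sum_congr rfl fun j hj => hDlow j (by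
          have := mem_range.1 hj
          omega)
      have e2 : cv (ker a0) (csum D) (y - 1) = cv (ker a0) (csum (fun n => phi * d n)) (y - 1) := by
        apply cv_congr_right
        intro l hl
        unfold csum
        exact sum_congr rfl fun j hj => hDlow j (by
          have := mem_range.1 hj
          omega)
      rw [e1, e2]
      exact h6)
    hMx
    (by
      have hsm := L2_small (Cg := Cg) (L := Lm) (y' := y') (x := x) (N := ((Lm * y : ℕ) : ℝ))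
        (Kp := K ^ (Lm + 2)) (a := 10 ^ 81 * kbY κ y (Lm * y)) (a' := 10 ^ 81 * κ * Lm) (f := ff)
        (η1 := η1) (by linarith [u.hCg]) (by linarith) hy'0 hx0.le hxη (pow_nonneg hK0.le _)
        (mul_nonneg (by positivity) hkb0)
        (by
          rw [mul_assoc]
          exact mul_le_mul_of_nonneg_left hkb1 (by positivity))
        (Nat.cast_nonneg _) hN c.cη3 c.cκ3
      rw [← hB, hxS] at hsm
      refine hsm.trans ?_
      have : 0 < ff * S := mul_pos hff0 hS0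
      have e1 : ff / 10 * (phi * S) = phi * (ff * S) / 10 := by ring
      have e2 : ff / 100 * S = ff * S / 100 := by ring
      rw [e1, e2]
      nlinarith [hphi.1])
    hmax'
  have hgr' : phi * (ff ^ 2 / 10 ^ 5) * Real.exp (ff / 100 * Lm) * S ≤ |csum D ns| := by
    have e1 : (((Lm * y : ℕ)) : ℝ) / y = Lm := by
      push_cast
      field_simp
    rw [e1] at hgr
    calc phi * (ff ^ 2 / 10 ^ 5) * Real.exp (ff / 100 * Lm) * S
        = ff ^ 2 / 10 ^ 5 * Real.exp (ff / 100 * Lm) * (phi * S) := by ring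
      _ ≤ _ := hgr
  refine ⟨D, ns + 1, |csum D ns|, ⟨hDlow, hEq, ?_, ?_, ?_, hns, ?_, ?_, hgr', ?_⟩⟩
  · intro n hn
    rw [← hBe]
    exact hb0 n hn
  · intro n hn
    refine (hb1 n hn).trans (mul_le_mul_of_nonneg_left ?_ (pow_nonneg (by linarith [u.hK2]) _))
    rw [hBe]
    have e1 : 10 ^ 203 * S / (y' : ℝ) ^ 2 + 10 ^ 77 * S / y' / y'
        = (10 ^ 203 + 10 ^ 77) * (S / (y' : ℝ) ^ 2) := by
      field_simp
    have e2 : 10 ^ 204 * S / (y' : ℝ) ^ 2 = 10 ^ 204 * (S / (y' : ℝ) ^ 2) := by ring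
    rw [e1, e2]
    apply mul_le_mul_of_nonneg_right _ (by positivity)
    norm_num
  · by_contra hcon
    push Not at hcon
    have hlt : ns < (Λ + 1) * y := by omega
    have hΛL : (Λ + 1) * y ≤ Lm * y := Nat.mul_le_mul_right y (by
      have := c.cL
      omega)
    have hb : ∀ j < (Λ + 1) * y, |D j| ≤ K ^ (Λ + 1) * B := by
      intro j hj
      refine (hb0 j (by omega)).trans (mul_le_mul_of_nonneg_right ?_ hB0.le)
      apply pow_le_pow_right₀ hK1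
      have := (Nat.div_lt_iff_lt_mul hyn).2 hj
      omega
    have h1 := L2_csum (mul_nonneg (pow_nonneg hK0.le _) hB0.le) hlt hb
    have h2 : (((Λ + 1) * y : ℕ) : ℝ) ≤ (Lm : ℝ) ^ 2 * y' := by
      refine le_trans ?_ hN
      exact_mod_cast hΛL
    have h3 : (((Λ + 1) * y : ℕ) : ℝ) * (K ^ (Λ + 1) * B)
        ≤ (Lm : ℝ) ^ 2 * y' * (K ^ (Λ + 1) * B) :=
      mul_le_mul_of_nonneg_right h2 (mul_nonneg (pow_nonneg hK0.le _) hB0.le)
    have h4 : (Lm : ℝ) ^ 2 * y' * (K ^ (Λ + 1) * B) = 10 ^ 77 * (Lm : ℝ) ^ 2 * K ^ (Λ + 1) * S := by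
      rw [hB, ← hxS]
      ring
    have h5 := L2_lo (K := K) (K2 := K2) (L := Lm) (S := S) (Λ := Λ) hK1 u.hK2 hLr hS0
    have h6 := mul_le_mul_of_nonneg_right c.c2 hS0.le
    have h7 : ε * ff * (phi * (ff ^ 2 / 10 ^ 5) * Real.exp (ff / 100 * Lm)) * S
        ≤ phi * (ff ^ 2 / 10 ^ 5) * Real.exp (ff / 100 * Lm) * S := by
      apply mul_le_mul_of_nonneg_right _ hS0.le
      have h8 : 0 ≤ phi * (ff ^ 2 / 10 ^ 5) * Real.exp (ff / 100 * Lm) :=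
        mul_nonneg (mul_nonneg hphi0.le (div_nonneg (pow_nonneg hff0.le 2) (by norm_num)))
          (Real.exp_pos _).le
      have h9 : ε * ff ≤ 1 := by
        have := mul_le_mul c.ε1 hff1 hff0.le zero_le_one
        linarith
      calc ε * ff * (phi * (ff ^ 2 / 10 ^ 5) * Real.exp (ff / 100 * Lm))
          ≤ 1 * (phi * (ff ^ 2 / 10 ^ 5) * Real.exp (ff / 100 * Lm)) :=
            mul_le_mul_of_nonneg_right h9 h8
        _ = _ := one_mul _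
    linarith
  · intro n hn
    exact hmax' n (by omega)
  · rw [Nat.add_sub_cancel]
  · have h1 := L2_csum (mul_nonneg (pow_nonneg hK0.le _) hB0.le) hns hMx
    refine h1.trans (le_of_eq ?_)
    rw [hBe]
    push_cast
    ring

end MP18
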