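import Pool.Agent.Lib.MP_18566a_pr.T.L2
import Pool.Agent.Lib.MP_18566a_pr.T.K4

set_option autoImplicit false

namespace MP18

open Finset PowerSeries

section
variable {K K2 Cg : ℝ} {δ κ1 : ℕ → ℝ} {ε : ℝ} {Λ Lm : ℕ} {κ Gm η1 η : ℝ}
    {y'' y' y W W' V : ℕ} {a00 a0 : PS} {φ' : ℝ} {d : ℕ → ℝ} {S : ℝ} {D : ℕ → ℝ} {Y : ℕ} {S' : ℝ}

private theorem L3_ff : ff = 1 / 10 ^ 140 := rfl

private theorem L3_ww : ww = 1 / 10 ^ 73 := rfl

private theorem L3_A1 : A1 = 10 ^ 47 := rfl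

/-- the numerical facts used below -/
private theorem L3_facts (u : UK K K2 Cg δ κ1) (c : Cst K K2 Cg (δ Lm) (κ1 Lm) ε Λ Lm κ Gm η1)
    (hG : 1 ≤ Gm) (h : St Λ Lm ε η y'' y' y a00 a0 φ' d S) (g : Geo y' y W W' V) (hη : 0 ≤ η)
    (hη1 : η ≤ η1) (hS : S ≤ η / Gm * y') (sd : SD K K2 Λ Lm κ y' y W W' V a0 d S D Y S') :
    0 < y ∧ (0 : ℝ) < y' ∧ 20 ≤ Lm ∧ (y : ℝ) ≤ Lm * y' ∧ S / y' ≤ η1 ∧
    10 ^ 250 * 10 ^ 140 * K2 ^ 11 * K ^ 11 * (Lm : ℝ) ^ 2 * S ≤ S' ∧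
    10 ^ 81 * kbY κ y (Lm * y) ≤ 1 / 10 ^ 50 := by
  have hy' : (0 : ℝ) < y' := by exact_mod_cast g.pos
  have hy : (0 : ℝ) < y := by
    have h1 := g.sep
    have h2 : (0 : ℝ) < L0 := by unfold L0; positivity
    have h3 := mul_pos h2 hy'
    linarith
  have hyn : 0 < y := by exact_mod_cast hy
  have hL20 : 20 ≤ Lm := by
    have := c.cL
    omega
  have hLr : (20 : ℝ) ≤ Lm := by exact_mod_cast hL20
  have hyL : (y : ℝ) ≤ Lm * y' := by exact_mod_cast h.up2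
  have hs : S / y' ≤ η1 := by
    rw [div_le_iff₀ hy']
    have h1 : η / Gm ≤ η1 := (div_le_self hη hG).trans hη1
    calc S ≤ η / Gm * y' := hS
      _ ≤ η1 * y' := mul_le_mul_of_nonneg_right h1 hy'.le
  have hbig : 10 ^ 250 * 10 ^ 140 * K2 ^ 11 * K ^ 11 * (Lm : ℝ) ^ 2 * S ≤ S' := by
    have hK := u.hK
    have hK2 := u.hK2
    have h1 := c.c2
    have h2 := sd.gr
    set E : ℝ := phi * (ff ^ 2 / 10 ^ 5) * Real.exp (ff / 100 * Lm) with hE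
    have hff : (0 : ℝ) < ff := by rw [L3_ff]; positivity
    have hkk : 1 ≤ K * K2 := one_le_mul_of_one_le_of_one_le hK hK2
    have h3 : (K * K2) ^ 11 ≤ (K * K2) ^ (Λ + 20) := pow_le_pow_right₀ hkk (by omega)
    have h4 : (Lm : ℝ) ^ 2 ≤ (Lm : ℝ) ^ 4 := pow_le_pow_right₀ (by linarith) (by norm_num)
    have h5 : 10 ^ 250 * ((K * K2) ^ 11 * (Lm : ℝ) ^ 2) ≤
        10 ^ 250 * (K * K2) ^ (Λ + 20) * (Lm : ℝ) ^ 4 := by
      rw [mul_assoc]
      apply mul_le_mul_of_nonneg_left _ (by positivity)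
      exact mul_le_mul h3 h4 (by positivity) (by positivity)
    have h6 : 0 < 10 ^ 250 * ((K * K2) ^ 11 * (Lm : ℝ) ^ 2) := by positivity
    have h7 : 0 < ε * ff * E := h6.trans_le (h5.trans h1)
    have h8 : 0 < E := by
      have h9 : 0 < ε * ff := mul_pos c.εpos hff
      exact (pos_iff_pos_of_mul_pos h7).1 h9
    have h9 : ε * ff * E ≤ 1 / 10 ^ 140 * E := by
      apply mul_le_mul_of_nonneg_right _ h8.le
      rw [L3_ff]
      have := c.ε1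
      have h10 : (0 : ℝ) < 1 / 10 ^ 140 := by positivity
      nlinarith
    have h10 : 10 ^ 250 * 10 ^ 140 * ((K * K2) ^ 11 * (Lm : ℝ) ^ 2) ≤ E := by
      have h11 := (h5.trans h1).trans h9
      have h12 : (10 : ℝ) ^ 140 * (10 ^ 250 * ((K * K2) ^ 11 * (Lm : ℝ) ^ 2)) ≤
          10 ^ 140 * (1 / 10 ^ 140 * E) := mul_le_mul_of_nonneg_left h11 (by positivity)
      have h13 : (10 : ℝ) ^ 140 * (1 / 10 ^ 140 * E) = E := by
        rw [← mul_assoc]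
        norm_num
      have h14 : (10 : ℝ) ^ 140 * (10 ^ 250 * ((K * K2) ^ 11 * (Lm : ℝ) ^ 2)) =
          10 ^ 250 * 10 ^ 140 * ((K * K2) ^ 11 * (Lm : ℝ) ^ 2) := by
        ring
      rw [h13, h14] at h12
      exact h12
    have h11 : 10 ^ 250 * 10 ^ 140 * K2 ^ 11 * K ^ 11 * (Lm : ℝ) ^ 2 * S =
        10 ^ 250 * 10 ^ 140 * ((K * K2) ^ 11 * (Lm : ℝ) ^ 2) * S := by
      rw [mul_pow]
      ring
    rw [h11]
    exact (mul_le_mul_of_nonneg_right h10 h.Spos.le).trans h2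
  have hkb : 10 ^ 81 * kbY κ y (Lm * y) ≤ 1 / 10 ^ 50 := by
    unfold kbY
    have h1 : ((Lm * y : ℕ) : ℝ) = Lm * y := by push_cast; ring
    have h2 : κ * (((Lm * y : ℕ) : ℝ) - y) / y = κ * (Lm - 1) := by
      rw [h1]
      field_simp
    rw [h2]
    have h3 := c.cκ2
    rw [L3_ff] at h3
    have h4 := c.κpos
    have h5 : κ * ((Lm : ℝ) - 1) ≤ κ * Lm := by nlinarith
    have h6 : κ * Lm ≤ 1 / 10 ^ 140 / 10 ^ 245 := by
      rw [le_div_iff₀ (by positivity)]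
      exact h3
    have h7 : (1 : ℝ) / 10 ^ 140 / 10 ^ 245 ≤ 1 / 10 ^ 50 / 10 ^ 81 := by norm_num
    have h8 : κ * ((Lm : ℝ) - 1) ≤ 1 / 10 ^ 50 / 10 ^ 81 := h5.trans (h6.trans h7)
    rw [le_div_iff₀ (by positivity)] at h8
    linarith
  exact ⟨hyn, hy', hL20, hyL, hs, hbig, hkb⟩

/-- everything is tiny -/
private theorem L3_tiny (u : UK K K2 Cg δ κ1) (c : Cst K K2 Cg (δ Lm) (κ1 Lm) ε Λ Lm κ Gm η1)
    (hs : S / y' ≤ η1) (hs0 : 0 ≤ S / y') {m : ℕ} (hm : m ≤ Lm + 2) :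
    K ^ m * (10 ^ 77 * S / y') ≤ 1 / 10 ^ 50 := by
  have hK := u.hK
  have h1 : K ^ m ≤ K ^ (Lm + 2) := pow_le_pow_right₀ hK hm
  have h2 : 10 ^ 77 * S / (y' : ℝ) = 10 ^ 77 * (S / y') := by ring
  rw [h2]
  have h3 : K ^ m * (10 ^ 77 * (S / y')) ≤ K ^ (Lm + 2) * (10 ^ 77 * η1) := by
    apply mul_le_mul h1 _ (by positivity) (by positivity)
    exact mul_le_mul_of_nonneg_left hs (by positivity)
  have h4 := c.cη2
  have h5 : K ^ (Lm + 2) * (10 ^ 77 * η1) = 1 / 10 * (10 ^ 78 * K ^ (Lm + 2) * η1) := by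
    ring
  rw [h5] at h3
  have h6 : (1 : ℝ) / 10 * (1 / 10 ^ 200) ≤ 1 / 10 ^ 50 := by norm_num
  linarith

theorem step_sup (u : UK K K2 Cg δ κ1) (c : Cst K K2 Cg (δ Lm) (κ1 Lm) ε Λ Lm κ Gm η1)
    (hG : 1 ≤ Gm) (h : St Λ Lm ε η y'' y' y a00 a0 φ' d S) (g : Geo y' y W W' V) (hη : 0 ≤ η)
    (hη1 : η ≤ η1) (hS : S ≤ η / Gm * y') (sd : SD K K2 Λ Lm κ y' y W W' V a0 d S D Y S') :
    ∀ n < Y, |D n| ≤ 6000 * S' / (ww * y) := by
  obtain ⟨hyn, hy', hL20, hyL, hs, hbig, hkb⟩ := L3_facts u c hG h g hη hη1 hS sd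
  have hy : (0 : ℝ) < y := by exact_mod_cast hyn
  have hLr : (20 : ℝ) ≤ Lm := by exact_mod_cast hL20
  have hK := u.hK
  have hK2 := u.hK2
  have hSpos := h.Spos
  have hs0 : 0 ≤ S / (y' : ℝ) := by positivity
  have hww : (0 : ℝ) < ww := by rw [L3_ww]; positivity
  have hwy : (0 : ℝ) < ww * y := mul_pos hww hy
  have hN0 : N0 y + y ≤ 11 * y := by
    unfold N0
    omega
  have hYL := sd.Yhi
  have hN0L : 11 * y ≤ Lm * y := Nat.mul_le_mul_right y (by omega)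

  have hlow : ∀ n < 11 * y, |D n| ≤ K ^ 11 * (10 ^ 77 * S / y') := by
    intro n hn
    have h1 := sd.b0 n (by omega)
    have h2 : n / y + 1 ≤ 11 := by
      have : n / y < 11 := Nat.div_lt_of_lt_mul (by rw [mul_comm]; exact hn)
      omega
    have h3 : K ^ (n / y + 1) ≤ K ^ 11 := pow_le_pow_right₀ hK h2
    exact h1.trans (mul_le_mul_of_nonneg_right h3 (by positivity))
  have hcs : ∀ n < N0 y + y, n < Y → |csum D n| ≤ 10 ^ 79 * Lm * K ^ 11 * S := by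
    intro n hn _
    unfold csum
    have h1 : |∑ j ∈ range (n + 1), D j| ≤ ∑ j ∈ range (n + 1), |D j| :=
      Finset.abs_sum_le_sum_abs _ _
    have h2 : ∑ j ∈ range (n + 1), |D j| ≤ (n + 1 : ℕ) • (K ^ 11 * (10 ^ 77 * S / y')) := by
      have := Finset.sum_le_card_nsmul (range (n + 1)) (fun j => |D j|)
        (K ^ 11 * (10 ^ 77 * S / y')) (fun j hj => hlow j (by
          rw [Finset.mem_range] at hj
          omega))
      rwa [Finset.card_range] at this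
    have h3 : ((n + 1 : ℕ) : ℝ) ≤ 11 * y := by
      have : n + 1 ≤ 11 * y := by omega
      exact_mod_cast this
    rw [nsmul_eq_mul] at h2
    have h4 : ((n + 1 : ℕ) : ℝ) * (K ^ 11 * (10 ^ 77 * S / y')) ≤
        11 * y * (K ^ 11 * (10 ^ 77 * S / y')) :=
      mul_le_mul_of_nonneg_right h3 (by positivity)
    have h5 : 11 * y * (K ^ 11 * (10 ^ 77 * S / y')) = 11 * 10 ^ 77 * K ^ 11 * (S * (y / y')) := by
      ring
    have h6 : (y : ℝ) / y' ≤ Lm := by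
      rw [div_le_iff₀ hy']
      exact hyL
    have h7 : 11 * 10 ^ 77 * K ^ 11 * (S * (y / y')) ≤ 11 * 10 ^ 77 * K ^ 11 * (S * Lm) := by
      apply mul_le_mul_of_nonneg_left _ (by positivity)
      exact mul_le_mul_of_nonneg_left h6 hSpos.le
    have h8 : 11 * 10 ^ 77 * K ^ 11 * (S * Lm) ≤ 10 ^ 79 * Lm * K ^ 11 * S := by
      have h9 : 0 ≤ K ^ 11 * (S * Lm) := by positivity
      have h10 : 11 * 10 ^ 77 * K ^ 11 * (S * Lm) = 11 * 10 ^ 77 * (K ^ 11 * (S * Lm)) := by ring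
      have h11 : 10 ^ 79 * Lm * K ^ 11 * S = 10 ^ 79 * (K ^ 11 * (S * Lm)) := by ring
      rw [h10, h11]
      apply mul_le_mul_of_nonneg_right _ h9
      norm_num
    linarith

  have hq : K ^ 11 * Lm * S ≤ S' / (10 ^ 250 * 10 ^ 140) := by
    rw [le_div_iff₀ (by positivity)]
    refine le_trans ?_ hbig
    have h1 : K ^ 11 * Lm * S * (10 ^ 250 * 10 ^ 140) =
        10 ^ 250 * 10 ^ 140 * 1 * K ^ 11 * (Lm : ℝ) ^ 1 * S := by ring
    rw [h1]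
    have h2 : (1 : ℝ) ≤ K2 ^ 11 := one_le_pow₀ hK2
    have h3 : (Lm : ℝ) ^ 1 ≤ (Lm : ℝ) ^ 2 := pow_le_pow_right₀ (by linarith) (by norm_num)
    gcongr
  have hS'0 : 0 ≤ S' := by
    have h1 : 0 ≤ K ^ 11 * Lm * S := by positivity
    have h2 := h1.trans hq
    have h3 := mul_nonneg h2 (by positivity : (0 : ℝ) ≤ 10 ^ 250 * 10 ^ 140)
    rwa [div_mul_cancel₀ _ (by positivity)] at h3
  have hD0 : ww * y * (K ^ 11 * (10 ^ 77 * S / y')) ≤ 10 ^ 77 * (S' / (10 ^ 250 * 10 ^ 140)) := by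
    have h6 : (y : ℝ) / y' ≤ Lm := by
      rw [div_le_iff₀ hy']
      exact hyL
    have h1 : ww * y * (K ^ 11 * (10 ^ 77 * S / y')) = ww * 10 ^ 77 * (K ^ 11 * (y / y') * S) := by
      ring
    rw [h1]
    have h2 : K ^ 11 * (y / y') * S ≤ K ^ 11 * Lm * S := by
      apply mul_le_mul_of_nonneg_right _ hSpos.le
      exact mul_le_mul_of_nonneg_left h6 (by positivity)
    have h3 : ww * 10 ^ 77 ≤ 10 ^ 77 := by
      rw [L3_ww]
      norm_num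
    exact mul_le_mul h3 (h2.trans hq) (by positivity) (by positivity)
  intro n hn
  rcases Nat.lt_or_ge n (N0 y) with hn0 | hn0
  · have h1 := hlow n (by omega)
    rw [le_div_iff₀ hwy]
    have h2 : |D n| * (ww * y) ≤ ww * y * (K ^ 11 * (10 ^ 77 * S / y')) := by
      rw [mul_comm]
      exact mul_le_mul_of_nonneg_left h1 hwy.le
    have h3 : (10 : ℝ) ^ 77 * (S' / (10 ^ 250 * 10 ^ 140)) ≤ 6000 * S' := by
      have h4 : (10 : ℝ) ^ 77 * (S' / (10 ^ 250 * 10 ^ 140)) = 10 ^ 77 / (10 ^ 250 * 10 ^ 140) * S' := by ring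
      rw [h4]
      apply mul_le_mul_of_nonneg_right _ hS'0
      norm_num
    linarith
  · have key := plat_D (St_TD c.cΛ h g) (step_SL c hyn hL20) hYL
      (fun m h1 h2 => sd.eqn m h1 (by omega)) sd.sup hcs
      (D0 := K ^ 11 * (10 ^ 77 * S / y')) (fun m hm => hlow m (by omega))
      (L3_tiny u c hs hs0 (by omega))
      (fun m hm => (sd.b0 m (by omega)).trans
        (L3_tiny u c hs hs0 (by
          have : m / y < Lm := Nat.div_lt_of_lt_mul (by rw [mul_comm]; omega)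
          omega))) hkb n hn0 hn
    refine key.trans ?_
    rw [L3_A1]
    have h1 : 20 * (10 : ℝ) ^ 47 * (K ^ 11 * (10 ^ 77 * S / y')) ≤ 1 * S' / (ww * y) := by
      rw [le_div_iff₀ hwy]
      have h2 : 20 * (10 : ℝ) ^ 47 * (K ^ 11 * (10 ^ 77 * S / y')) * (ww * y) =
          20 * 10 ^ 47 * (ww * y * (K ^ 11 * (10 ^ 77 * S / y'))) := by ring
      rw [h2]
      have h3 : 20 * (10 : ℝ) ^ 47 * (ww * y * (K ^ 11 * (10 ^ 77 * S / y'))) ≤
          20 * 10 ^ 47 * (10 ^ 77 * (S' / (10 ^ 250 * 10 ^ 140))) :=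
        mul_le_mul_of_nonneg_left hD0 (by positivity)
      have h4 : 20 * (10 : ℝ) ^ 47 * (10 ^ 77 * (S' / (10 ^ 250 * 10 ^ 140))) =
          20 * 10 ^ 47 * 10 ^ 77 / (10 ^ 250 * 10 ^ 140) * S' := by ring
      rw [h4] at h3
      refine h3.trans ?_
      apply mul_le_mul_of_nonneg_right _ hS'0
      norm_num
    have h5 : 10 ^ 5 * (10 : ℝ) ^ 47 * (10 ^ 79 * Lm * K ^ 11 * S) / (ww * y) ≤
        1 * S' / (ww * y) := by
      apply div_le_div_of_nonneg_right _ hwy.le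
      have h6 : 10 ^ 5 * (10 : ℝ) ^ 47 * (10 ^ 79 * Lm * K ^ 11 * S) =
          10 ^ 5 * 10 ^ 47 * 10 ^ 79 * (K ^ 11 * Lm * S) := by ring
      rw [h6]
      have h7 : 10 ^ 5 * (10 : ℝ) ^ 47 * 10 ^ 79 * (K ^ 11 * Lm * S) ≤
          10 ^ 5 * 10 ^ 47 * 10 ^ 79 * (S' / (10 ^ 250 * 10 ^ 140)) :=
        mul_le_mul_of_nonneg_left hq (by positivity)
      have h8 : 10 ^ 5 * (10 : ℝ) ^ 47 * 10 ^ 79 * (S' / (10 ^ 250 * 10 ^ 140)) =
          10 ^ 5 * 10 ^ 47 * 10 ^ 79 / (10 ^ 250 * 10 ^ 140) * S' := by ring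
      rw [h8] at h7
      refine h7.trans ?_
      apply mul_le_mul_of_nonneg_right _ hS'0
      norm_num
    have h9 : 6000 * S' / (ww * y) = 5000 * S' / (ww * y) + 1 * S' / (ww * y) +
        1 * S' / (ww * y) + 998 * S' / (ww * y) := by ring
    have h10 : 0 ≤ 998 * S' / (ww * y) :=
      div_nonneg (mul_nonneg (by norm_num) hS'0) hwy.le
    linarith

theorem step_dsup (u : UK K K2 Cg δ κ1) (c : Cst K K2 Cg (δ Lm) (κ1 Lm) ε Λ Lm κ Gm η1)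
    (hG : 1 ≤ Gm) (h : St Λ Lm ε η y'' y' y a00 a0 φ' d S) (g : Geo y' y W W' V) (hη : 0 ≤ η)
    (hη1 : η ≤ η1) (hS : S ≤ η / Gm * y') (sd : SD K K2 Λ Lm κ y' y W W' V a0 d S D Y S') :
    ∀ n < Y, |dd D n| ≤ 5 * 10 ^ 202 * S' / (y : ℝ) ^ 2 := by
  obtain ⟨hyn, hy', hL20, hyL, hs, hbig, hkb⟩ := L3_facts u c hG h g hη hη1 hS sd
  have hy : (0 : ℝ) < y := by exact_mod_cast hyn
  have hLr : (20 : ℝ) ≤ Lm := by exact_mod_cast hL20
  have hK := u.hK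
  have hK2 := u.hK2
  have hSpos := h.Spos
  have hs0 : 0 ≤ S / (y' : ℝ) := by positivity
  have hww : (0 : ℝ) < ww := by rw [L3_ww]; positivity
  have hy2 : (0 : ℝ) < (y : ℝ) ^ 2 := by positivity
  have hN0 : N0 y + 1 ≤ 11 * y := by
    unfold N0
    omega
  have hYL := sd.Yhi
  have hN0L : 11 * y ≤ Lm * y := Nat.mul_le_mul_right y (by omega)
  have hlow : ∀ n < 11 * y, |dd D n| ≤ K2 ^ 11 * (10 ^ 204 * S / (y' : ℝ) ^ 2) := by
    intro n hn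
    have h1 := sd.b1 n (by omega)
    have h2 : n / y + 1 ≤ 11 := by
      have : n / y < 11 := Nat.div_lt_of_lt_mul (by rw [mul_comm]; exact hn)
      omega
    have h3 : K2 ^ (n / y + 1) ≤ K2 ^ 11 := pow_le_pow_right₀ hK2 h2
    exact h1.trans (mul_le_mul_of_nonneg_right h3 (by positivity))
  have hq : K2 ^ 11 * (Lm : ℝ) ^ 2 * S ≤ S' / (10 ^ 250 * 10 ^ 140) := by
    rw [le_div_iff₀ (by positivity)]
    refine le_trans ?_ hbig
    have h1 : K2 ^ 11 * (Lm : ℝ) ^ 2 * S * (10 ^ 250 * 10 ^ 140) =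
        10 ^ 250 * 10 ^ 140 * K2 ^ 11 * 1 * (Lm : ℝ) ^ 2 * S := by
      ring
    rw [h1]
    have h2 : (1 : ℝ) ≤ K ^ 11 := one_le_pow₀ hK
    gcongr
  have hS'0 : 0 ≤ S' := by
    have h1 : 0 ≤ K2 ^ 11 * (Lm : ℝ) ^ 2 * S := by positivity
    have h2 := h1.trans hq
    have h3 := mul_nonneg h2 (by positivity : (0 : ℝ) ≤ 10 ^ 250 * 10 ^ 140)
    rwa [div_mul_cancel₀ _ (by positivity)] at h3
  have hyy : (y : ℝ) / y' ≤ Lm := by
    rw [div_le_iff₀ hy']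
    exact hyL
  have hyy0 : 0 ≤ (y : ℝ) / y' := by positivity

  have hE0 : K2 ^ 11 * (10 ^ 204 * S / (y' : ℝ) ^ 2) * (y : ℝ) ^ 2 ≤
      10 ^ 204 * (S' / (10 ^ 250 * 10 ^ 140)) := by
    have h1 : K2 ^ 11 * (10 ^ 204 * S / (y' : ℝ) ^ 2) * (y : ℝ) ^ 2 =
        10 ^ 204 * (K2 ^ 11 * ((y : ℝ) / y') ^ 2 * S) := by
      field_simp
    rw [h1]
    apply mul_le_mul_of_nonneg_left _ (by positivity)
    refine le_trans ?_ hq
    apply mul_le_mul_of_nonneg_right _ hSpos.le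
    apply mul_le_mul_of_nonneg_left _ (by positivity)
    exact pow_le_pow_left₀ hyy0 hyy 2
  intro n hn
  rcases Nat.lt_or_ge (N0 y) n with hn0 | hn0
  · have key := plat_dD (St_TD c.cΛ h g) (step_SL c hyn hL20) hYL
      (fun m h1 h2 => sd.eqn m h1 (by omega)) sd.sup
      (E0 := K2 ^ 11 * (10 ^ 204 * S / (y' : ℝ) ^ 2)) (fun m hm => hlow m (by omega))
      (Dx := K ^ (Lm + 1) * (10 ^ 77 * S / y'))
      (fun m hm => (sd.b0 m (by omega)).trans (by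
          apply mul_le_mul_of_nonneg_right _ (by positivity)
          apply pow_le_pow_right₀ hK
          have : m / y < Lm := Nat.div_lt_of_lt_mul (by rw [mul_comm]; omega)
          omega))
      (L3_tiny u c hs hs0 (by omega)) hkb n hn0 hn
    refine key.trans ?_
    rw [L3_A1]
    have h1 : 10 ^ 9 * (10 : ℝ) ^ 47 * S' / (ww * y) ^ 2 = 10 ^ 202 * S' / (y : ℝ) ^ 2 := by
      rw [L3_ww]
      field_simp
    have h2 : 20 * (10 : ℝ) ^ 47 * (K2 ^ 11 * (10 ^ 204 * S / (y' : ℝ) ^ 2)) ≤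
        1 * S' / (y : ℝ) ^ 2 := by
      rw [le_div_iff₀ hy2]
      have h3 : 20 * (10 : ℝ) ^ 47 * (K2 ^ 11 * (10 ^ 204 * S / (y' : ℝ) ^ 2)) * (y : ℝ) ^ 2 =
          20 * 10 ^ 47 * (K2 ^ 11 * (10 ^ 204 * S / (y' : ℝ) ^ 2) * (y : ℝ) ^ 2) := by ring
      rw [h3]
      have h4 : 20 * (10 : ℝ) ^ 47 * (K2 ^ 11 * (10 ^ 204 * S / (y' : ℝ) ^ 2) * (y : ℝ) ^ 2) ≤
          20 * 10 ^ 47 * (10 ^ 204 * (S' / (10 ^ 250 * 10 ^ 140))) :=
        mul_le_mul_of_nonneg_left hE0 (by positivity)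
      have h5 : 20 * (10 : ℝ) ^ 47 * (10 ^ 204 * (S' / (10 ^ 250 * 10 ^ 140))) =
          20 * 10 ^ 47 * 10 ^ 204 / (10 ^ 250 * 10 ^ 140) * S' := by ring
      rw [h5] at h4
      refine h4.trans ?_
      apply mul_le_mul_of_nonneg_right _ hS'0
      norm_num
    have h6 : 4 * (10 : ℝ) ^ 47 * κ * (K ^ (Lm + 1) * (10 ^ 77 * S / y')) / y ≤
        1 * S' / (y : ℝ) ^ 2 := by
      rw [div_le_div_iff₀ hy hy2]
      have hκ := c.κpos
      have h7 : 4 * (10 : ℝ) ^ 47 * κ * (K ^ (Lm + 1) * (10 ^ 77 * S / y')) * (y : ℝ) ^ 2 =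
          4 * 10 ^ 124 * (κ * K ^ (Lm + 1) * (y / y')) * S * y := by
        have : (10 : ℝ) ^ 124 = 10 ^ 47 * 10 ^ 77 := by norm_num
        rw [this]
        ring
      rw [h7]
      apply mul_le_mul_of_nonneg_right _ hy.le
      have h8 : κ * K ^ (Lm + 1) * (y / y') ≤ κ * K ^ (Lm + 2) * Lm := by
        apply mul_le_mul _ hyy hyy0 (by positivity)
        apply mul_le_mul_of_nonneg_left _ hκ.le
        exact pow_le_pow_right₀ hK (by omega)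
      have h9 := c.cκ3
      have h10 : 10 ^ 124 * (κ * K ^ (Lm + 2) * Lm) ≤
          Cg * (Lm : ℝ) ^ 2 * (10 ^ 81 * κ * Lm) * (10 ^ 78 * K ^ (Lm + 2)) := by
        have h11 : Cg * (Lm : ℝ) ^ 2 * (10 ^ 81 * κ * Lm) * (10 ^ 78 * K ^ (Lm + 2)) =
            Cg * (Lm : ℝ) ^ 2 * (10 ^ 81 * 10 ^ 78) * (κ * K ^ (Lm + 2) * Lm) := by ring
        rw [h11]
        apply mul_le_mul_of_nonneg_right _ (by positivity)
        have h12 : (1 : ℝ) ≤ Cg * (Lm : ℝ) ^ 2 := by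
          have h13 : (1 : ℝ) ≤ (Lm : ℝ) ^ 2 := one_le_pow₀ (by linarith)
          exact one_le_mul_of_one_le_of_one_le u.hCg h13
        calc (10 : ℝ) ^ 124 ≤ 1 * (10 ^ 81 * 10 ^ 78) := by norm_num
          _ ≤ Cg * (Lm : ℝ) ^ 2 * (10 ^ 81 * 10 ^ 78) :=
            mul_le_mul_of_nonneg_right h12 (by positivity)
      have h14 : 10 ^ 124 * (κ * K ^ (Lm + 1) * (y / y')) ≤ 1 / 4 := by
        have h15 : 10 ^ 124 * (κ * K ^ (Lm + 1) * (y / y')) ≤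
            10 ^ 124 * (κ * K ^ (Lm + 2) * Lm) := mul_le_mul_of_nonneg_left h8 (by positivity)
        have h16 : ff / 20 ≤ 1 / 4 := by
          rw [L3_ff]
          norm_num
        linarith
      have h17 : 4 * 10 ^ 124 * (κ * K ^ (Lm + 1) * (y / y')) * S ≤ 1 * S := by
        apply mul_le_mul_of_nonneg_right _ hSpos.le
        linarith
      refine h17.trans ?_
      apply mul_le_mul_of_nonneg_left _ zero_le_one
      refine le_trans ?_ hbig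
      have h18 : (1 : ℝ) ≤ K2 ^ 11 := one_le_pow₀ hK2
      have h19 : (1 : ℝ) ≤ K ^ 11 := one_le_pow₀ hK
      have h20 : (1 : ℝ) ≤ (Lm : ℝ) ^ 2 := one_le_pow₀ (by linarith)
      have h21 : (1 : ℝ) ≤ 10 ^ 250 * 10 ^ 140 := by norm_num
      have h22 : (1 : ℝ) ≤ 10 ^ 250 * 10 ^ 140 * K2 ^ 11 * K ^ 11 * (Lm : ℝ) ^ 2 :=
        one_le_mul_of_one_le_of_one_le (one_le_mul_of_one_le_of_one_le
          (one_le_mul_of_one_le_of_one_le h21 h18) h19) h20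
      calc S = 1 * S := (one_mul S).symm
        _ ≤ _ := mul_le_mul_of_nonneg_right h22 hSpos.le
    have h23 : 5 * 10 ^ 202 * S' / (y : ℝ) ^ 2 = 10 ^ 202 * S' / (y : ℝ) ^ 2 +
        4 * 10 ^ 202 * S' / (y : ℝ) ^ 2 := by ring
    have h24 : 1 * S' / (y : ℝ) ^ 2 ≤ 10 ^ 202 * S' / (y : ℝ) ^ 2 := by
      apply div_le_div_of_nonneg_right _ hy2.le
      apply mul_le_mul_of_nonneg_right _ hS'0
      norm_num
    have h25 : 4 * 10 ^ 202 * S' / (y : ℝ) ^ 2 = 4 * (10 ^ 202 * S' / (y : ℝ) ^ 2) := by ring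
    have h26 : 0 ≤ 10 ^ 202 * S' / (y : ℝ) ^ 2 :=
      div_nonneg (mul_nonneg (by norm_num) hS'0) hy2.le
    linarith
  · have h1 := hlow n (by omega)
    refine h1.trans ?_
    rw [le_div_iff₀ hy2]
    refine hE0.trans ?_
    have h2 : (10 : ℝ) ^ 204 * (S' / (10 ^ 250 * 10 ^ 140)) = 10 ^ 204 / (10 ^ 250 * 10 ^ 140) * S' := by ring
    rw [h2]
    apply mul_le_mul_of_nonneg_right _ hS'0
    norm_num

end

end MP18
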