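import Pool.Agent.Lib.MP_18566a_pr.T.L3

set_option autoImplicit false
set_option exponentiation.threshold 3000

namespace MP18

open Finset PowerSeries

section
variable {K K2 Cg : ℝ} {δ κ1 : ℕ → ℝ} {ε : ℝ} {Λ Lm : ℕ} {κ Gm η1 η : ℝ}
    {y'' y' y W W' V : ℕ} {a00 a0 : PS} {φ' : ℝ} {d : ℕ → ℝ} {S : ℝ} {D : ℕ → ℝ} {Y : ℕ} {S' : ℝ}

/-- growth beats every constant -/
theorem L3b_aux1 (u : UK K K2 Cg δ κ1) (c : Cst K K2 Cg (δ Lm) (κ1 Lm) ε Λ Lm κ Gm η1)
    (h : St Λ Lm ε η y'' y' y a00 a0 φ' d S)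
    (sd : SD K K2 Λ Lm κ y' y W W' V a0 d S D Y S') :
    10 ^ 250 * K ^ 10 * (Lm : ℝ) ^ 4 * S ≤ ε * ff * S' := by
  have hK := u.hK
  have hK2 := u.hK2
  have hKK : 1 ≤ K * K2 := by nlinarith
  have h1 : K ^ 10 ≤ (K * K2) ^ (Λ + 20) := by
    calc K ^ 10 ≤ (K * K2) ^ 10 := by
          apply pow_le_pow_left₀ (by linarith)
          nlinarith
      _ ≤ (K * K2) ^ (Λ + 20) := pow_le_pow_right₀ hKK (by omega)
  have hS := h.Spos
  have hff := ff_pos
  have he := c.εpos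
  calc 10 ^ 250 * K ^ 10 * (Lm : ℝ) ^ 4 * S
      ≤ 10 ^ 250 * (K * K2) ^ (Λ + 20) * (Lm : ℝ) ^ 4 * S := by gcongr
    _ ≤ ε * ff * (phi * (ff ^ 2 / 10 ^ 5) * Real.exp (ff / 100 * Lm)) * S := by
        apply mul_le_mul_of_nonneg_right c.c2 hS.le
    _ = ε * ff * (phi * (ff ^ 2 / 10 ^ 5) * Real.exp (ff / 100 * Lm) * S) := by ring
    _ ≤ ε * ff * S' := by
        apply mul_le_mul_of_nonneg_left sd.gr
        positivity

theorem L3b_aux2 (hG : 1 ≤ Gm) (h : St Λ Lm ε η y'' y' y a00 a0 φ' d S) (hη : 0 ≤ η)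
    (hη1 : η ≤ η1) (hS : S ≤ η / Gm * y') : S / y' ≤ η1 := by
  have hy' : (0 : ℝ) < y' := by
    have := h.big
    have h2 : 0 < y' := by
      refine lt_of_lt_of_le ?_ this
      norm_num
    exact_mod_cast h2
  rw [div_le_iff₀ hy']
  refine hS.trans ?_
  apply mul_le_mul_of_nonneg_right _ hy'.le
  exact (div_le_self hη hG).trans hη1

theorem L3b_aux3 (h : St Λ Lm ε η y'' y' y a00 a0 φ' d S) : (0 : ℝ) < y' := by
  have h2 : 0 < y' := lt_of_lt_of_le (by norm_num) h.big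
  exact_mod_cast h2

theorem L3b_aux4 (h : St Λ Lm ε η y'' y' y a00 a0 φ' d S) (g : Geo y' y W W' V) : (0 : ℝ) < y := by
  have h2 := L3b_aux3 h
  have h3 := g.sep
  have : (0 : ℝ) < L0 * y' := by unfold L0; positivity
  linarith

theorem L3b_aux5 (c : Cst K K2 Cg (δ Lm) (κ1 Lm) ε Λ Lm κ Gm η1) : (20 : ℝ) ≤ Lm := by
  have := c.cL
  have h2 : 20 ≤ Lm := by omega
  exact_mod_cast h2

/-- sum of csum over the transition region -/
theorem L3b_aux6 (u : UK K K2 Cg δ κ1) (c : Cst K K2 Cg (δ Lm) (κ1 Lm) ε Λ Lm κ Gm η1)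
    (h : St Λ Lm ε η y'' y' y a00 a0 φ' d S) (g : Geo y' y W W' V)
    (sd : SD K K2 Λ Lm κ y' y W W' V a0 d S D Y S') :
    ∀ j < N0 y, |csum D j| ≤ 10 ^ 78 * K ^ 10 * Lm * S := by
  intro j hj
  have hy' := L3b_aux3 h
  have hy := L3b_aux4 h g
  have hL := L3b_aux5 c
  have hK := u.hK
  have hSp := h.Spos
  have hyn : 0 < y := by exact_mod_cast hy
  have hLn : 20 ≤ Lm := by exact_mod_cast hL
  have hj2 : j < 10 * y := by unfold N0 at hj; omega
  have hD : ∀ n ∈ range (j + 1), |D n| ≤ K ^ 10 * (10 ^ 77 * S / y') := by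
    intro n hn
    have hn1 : n < j + 1 := Finset.mem_range.mp hn
    have hn2 : n < Lm * y := by nlinarith
    have hn3 : n / y < 10 := by
      rw [Nat.div_lt_iff_lt_mul hyn]; omega
    refine (sd.b0 n hn2).trans ?_
    apply mul_le_mul_of_nonneg_right
    · exact pow_le_pow_right₀ hK (by omega)
    · positivity
  unfold csum
  refine (Finset.abs_sum_le_sum_abs _ _).trans ?_
  refine (Finset.sum_le_sum hD).trans ?_
  rw [Finset.sum_const, Finset.card_range, nsmul_eq_mul]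
  have hj3 : ((j + 1 : ℕ) : ℝ) ≤ 10 * y := by exact_mod_cast hj2
  have hup := h.up2
  have hup' : (y : ℝ) ≤ Lm * y' := by exact_mod_cast hup
  calc ((j + 1 : ℕ) : ℝ) * (K ^ 10 * (10 ^ 77 * S / y'))
      ≤ (10 * (Lm * y')) * (K ^ 10 * (10 ^ 77 * S / y')) := by
        apply mul_le_mul_of_nonneg_right _ (by positivity)
        linarith
    _ = 10 ^ 78 * K ^ 10 * Lm * S := by
        field_simp

theorem step_s5 (u : UK K K2 Cg δ κ1) (c : Cst K K2 Cg (δ Lm) (κ1 Lm) ε Λ Lm κ Gm η1)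
    (hG : 1 ≤ Gm) (h : St Λ Lm ε η y'' y' y a00 a0 φ' d S) (g : Geo y' y W W' V)
    (sd : SD K K2 Λ Lm κ y' y W W' V a0 d S D Y S') :
    ∑ n ∈ range y, |D n| ≤ ε / 2 * S' := by
  have hy' := L3b_aux3 h
  have hy := L3b_aux4 h g
  have hL := L3b_aux5 c
  have hK := u.hK
  have hSp := h.Spos
  have hyn : 0 < y := by exact_mod_cast hy
  have hLn : 20 ≤ Lm := by exact_mod_cast hL
  have hup' : (y : ℝ) ≤ Lm * y' := by exact_mod_cast h.up2
  have h1 := L3b_aux1 u c h sd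
  have hff1 : ff ≤ 1 / 10 := by unfold ff; norm_num
  have hff := ff_pos
  have he := c.εpos
  have hD : ∀ n ∈ range y, |D n| ≤ K ^ 10 * (10 ^ 77 * S / y') := by
    intro n hn
    have hn1 : n < y := Finset.mem_range.mp hn
    have hn2 : n < Lm * y := by nlinarith
    have hn3 : n / y = 0 := Nat.div_eq_of_lt hn1
    refine (sd.b0 n hn2).trans ?_
    apply mul_le_mul_of_nonneg_right
    · exact pow_le_pow_right₀ hK (by omega)
    · positivity
  refine (Finset.sum_le_sum hD).trans ?_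
  rw [Finset.sum_const, Finset.card_range, nsmul_eq_mul]
  have hS'0 : 0 ≤ S' := by
    rw [← sd.at1]; exact abs_nonneg _
  calc (y : ℝ) * (K ^ 10 * (10 ^ 77 * S / y'))
      ≤ (Lm * y') * (K ^ 10 * (10 ^ 77 * S / y')) := by
        apply mul_le_mul_of_nonneg_right hup' (by positivity)
    _ = 10 ^ 77 * K ^ 10 * Lm * S := by
        field_simp
    _ ≤ 10 ^ 250 * K ^ 10 * (Lm : ℝ) ^ 4 * S := by
        apply mul_le_mul_of_nonneg_right _ hSp.le
        have : (Lm : ℝ) ≤ (Lm : ℝ) ^ 4 := by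
          apply le_self_pow₀ (by linarith) (by norm_num)
        have h77 : (10 : ℝ) ^ 77 ≤ 10 ^ 250 := pow_le_pow_right₀ (by norm_num) (by norm_num)
        gcongr
    _ ≤ ε * ff * S' := h1
    _ ≤ ε / 2 * S' := by
        apply mul_le_mul_of_nonneg_right _ hS'0
        nlinarith

theorem step_s9 (u : UK K K2 Cg δ κ1) (c : Cst K K2 Cg (δ Lm) (κ1 Lm) ε Λ Lm κ Gm η1)
    (hG : 1 ≤ Gm) (h : St Λ Lm ε η y'' y' y a00 a0 φ' d S) (g : Geo y' y W W' V) (hη : 0 ≤ η)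
    (hη1 : η ≤ η1) (hS : S ≤ η / Gm * y') (sd : SD K K2 Λ Lm κ y' y W W' V a0 d S D Y S') :
    ∀ n < Y, |dd D n| ≤ coeff n (FT a0 y W W' V κ (Lm * y)) / 2 := by
  intro n hn
  have hy' := L3b_aux3 h
  have hy := L3b_aux4 h g
  have hL := L3b_aux5 c
  have hyn : 0 < y := by exact_mod_cast hy
  have hLn : 20 ≤ Lm := by exact_mod_cast hL
  have hK2 := u.hK2
  have hSp := h.Spos
  have hs := L3b_aux2 hG h hη hη1 hS
  have hin : In y' y a0 := ⟨h.lb0, h.cpl⟩
  have sl : SL κ y (Lm * y) := step_SL c hyn hLn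
  have hph := phi_bd.1
  rcases lt_or_ge n y with h1 | h1
  · rw [FT_coeff_low g hin sl h1]
    have h2 : dd D n = phi * dd d n := by
      unfold dd
      split_ifs with h0
      · rw [sd.low 0 hyn]
      · rw [sd.low n h1, sd.low (n - 1) (by omega)]; ring
    rw [h2, abs_mul, abs_of_nonneg (by linarith : (0:ℝ) ≤ phi)]
    have h3 := h.s9 n h1
    calc phi * |dd d n| ≤ phi * (coeff n a0 / 2) := by
          apply mul_le_mul_of_nonneg_left h3 (by linarith)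
      _ = phi * coeff n a0 / 2 := by ring
  · have hn2 : n < Lm * y := lt_of_lt_of_le hn sd.Yhi
    rw [FT_coeff_ge g hin sl h1 hn2]
    have h2 : 0 ≤ coeff n (aF a0 y W W' V) := (LBm_aF g hin).nn n
    have h3 := sd.b1 n hn2
    have h4 : n / y + 1 ≤ Lm + 2 := by
      have : n / y < Lm := by rw [Nat.div_lt_iff_lt_mul hyn]; exact hn2
      omega
    have hup' : (y : ℝ) ≤ Lm * y' := by exact_mod_cast h.up2
    have h5 : K2 ^ (n / y + 1) * (10 ^ 204 * S / (y' : ℝ) ^ 2) ≤ κ / y / 2 := by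
      have e1 : K2 ^ (n / y + 1) ≤ K2 ^ (Lm + 2) := pow_le_pow_right₀ hK2 h4
      have e2 : S / (y' : ℝ) ^ 2 ≤ η1 * (Lm / y) := by
        have e3 : 1 / (y' : ℝ) ≤ Lm / y := by
          rw [div_le_div_iff₀ hy' hy]; linarith
        calc S / (y' : ℝ) ^ 2 = (S / y') * (1 / y') := by
              field_simp
          _ ≤ η1 * (Lm / y) := by
              apply mul_le_mul hs e3 (by positivity) c.ηpos.le
      have e4 := c.cη4
      have e5 := c.ηpos
      calc K2 ^ (n / y + 1) * (10 ^ 204 * S / (y' : ℝ) ^ 2)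
          = K2 ^ (n / y + 1) * (10 ^ 204 * (S / (y' : ℝ) ^ 2)) := by ring
        _ ≤ K2 ^ (Lm + 2) * (10 ^ 204 * (η1 * (Lm / y))) := by
            apply mul_le_mul e1 _ (by positivity) (by positivity)
            apply mul_le_mul_of_nonneg_left e2 (by positivity)
        _ = (10 ^ 210 * K2 ^ (Lm + 2) * (Lm : ℝ) * η1) / (10 ^ 6 * y) := by
            field_simp
        _ ≤ κ / (10 ^ 6 * y) := by
            apply div_le_div_of_nonneg_right e4 (by positivity)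
        _ ≤ κ / y / 2 := by
            rw [div_div]
            apply div_le_div_of_nonneg_left c.κpos.le (by positivity)
            linarith
    linarith

/-- the residual of the unnormalised new state -/
theorem L3b_aux7 (h : St Λ Lm ε η y'' y' y a00 a0 φ' d S) (g : Geo y' y W W' V)
    (s : SL κ y (Lm * y)) (sd : SD K K2 Λ Lm κ y' y W W' V a0 d S D Y S') :
    res (FT a0 y W W' V κ (Lm * y)) D y = phi ^ 2 * res a0 d y := by
  have hin : In y' y a0 := ⟨h.lb0, h.cpl⟩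
  have hph := phi_bd.1
  unfold res
  rw [Finset.mul_sum]
  apply Finset.sum_congr rfl
  intro n hn
  have hn1 : n < y := Finset.mem_range.mp hn
  rw [Cum_FT_low g hin s hn1, sd.low n hn1]
  have h1 : cv (ker (FT a0 y W W' V κ (Lm * y))) D n = phi ^ 2 * cv (ker a0) d n := by
    have e1 : cv (ker (FT a0 y W W' V κ (Lm * y))) D n
        = cv (phi • ker a0) (fun m => phi * d m) n := by
      rw [cv_congr_left (B := phi • ker a0)]
      · apply cv_congr_right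
        intro l hl
        exact sd.low l (by omega)
      · intro l hl
        rw [ker_FT_low g hin s (by omega)]
        simp
    rw [e1, cv_smul_left, cv_smul_right]
    ring
  rw [h1]
  have h2 : (2 * (phi * Cum a0 n) - phi * d n) * (phi * d n) - phi ^ 2 * cv (ker a0) d n
      = phi ^ 2 * ((2 * Cum a0 n - d n) * d n - cv (ker a0) d n) := by ring
  rw [h2, abs_mul, abs_of_nonneg (by positivity : (0:ℝ) ≤ phi ^ 2)]

theorem step_res (h : St Λ Lm ε η y'' y' y a00 a0 φ' d S) (g : Geo y' y W W' V)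
    (s : SL κ y (Lm * y)) (sd : SD K K2 Λ Lm κ y' y W W' V a0 d S D Y S') :
    res (FT a0 y W W' V κ (Lm * y)) D Y = phi ^ 2 * res a0 d y := by
  rw [← L3b_aux7 h g s sd]
  have hyY : y ≤ Y := by
    have := sd.Ylo
    nlinarith
  unfold res
  symm
  apply Finset.sum_subset (Finset.range_mono hyY)
  intro n hn hn2
  have h1 : n < Y := Finset.mem_range.mp hn
  have h2 : y ≤ n := by
    by_contra hc
    exact hn2 (Finset.mem_range.mpr (by omega))
  have h3 := sd.eqn n h2 (lt_of_lt_of_le h1 sd.Yhi)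
  rw [h3, sub_self, abs_zero]

/-- the sup of D in terms of the constants -/
theorem L3b_aux8 (u : UK K K2 Cg δ κ1) (hG : 1 ≤ Gm)
    (h : St Λ Lm ε η y'' y' y a00 a0 φ' d S) (g : Geo y' y W W' V) (hη : 0 ≤ η)
    (hη1 : η ≤ η1) (hS : S ≤ η / Gm * y') (sd : SD K K2 Λ Lm κ y' y W W' V a0 d S D Y S') :
    6000 * S' / (ww * y) ≤ 6 * 10 ^ 153 * Lm * K ^ (Lm + 2) * η1 := by
  have hy := L3b_aux4 h g
  have hK := u.hK
  have hs := L3b_aux2 hG h hη hη1 hS
  have hw : ww = 1 / 10 ^ 73 := by unfold ww; ring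
  have hwp : 0 < ww := by rw [hw]; positivity
  rw [div_le_iff₀ (by positivity)]
  have hq : (0 : ℝ) ≤ 10 ^ 77 * Lm * K ^ (Lm + 2) := by positivity
  have h1 := sd.up
  calc 6000 * S' ≤ 6000 * (10 ^ 77 * Lm * K ^ (Lm + 2) * (S / y') * y) := by linarith
    _ ≤ 6000 * (10 ^ 77 * Lm * K ^ (Lm + 2) * η1 * y) := by
        apply mul_le_mul_of_nonneg_left _ (by norm_num)
        apply mul_le_mul_of_nonneg_right _ hy.le
        exact mul_le_mul_of_nonneg_left hs hq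
    _ = 6 * 10 ^ 153 * Lm * K ^ (Lm + 2) * η1 * (ww * y) := by
        rw [hw]; ring

theorem L3b_aux9 (κ : ℝ) {y Lm : ℕ} (hy : 0 < y) : kbY κ y (Lm * y) = κ * (Lm - 1) := by
  unfold kbY
  have : (y : ℝ) ≠ 0 := by positivity
  push_cast
  field_simp

/-- sum of the squares below `y` -/
theorem L3b_aux10 (c : Cst K K2 Cg (δ Lm) (κ1 Lm) ε Λ Lm κ Gm η1)
    (hG : 1 ≤ Gm) (h : St Λ Lm ε η y'' y' y a00 a0 φ' d S) (g : Geo y' y W W' V) (hη : 0 ≤ η)
    (hη1 : η ≤ η1) (hS : S ≤ η / Gm * y') :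
    ∑ n ∈ range y, (d n) ^ 2 ≤ S := by
  have hy' := L3b_aux3 h
  have hy := L3b_aux4 h g
  have hL := L3b_aux5 c
  have hs := L3b_aux2 hG h hη hη1 hS
  have hSp := h.Spos
  have hup' : (y : ℝ) ≤ Lm * y' := by exact_mod_cast h.up2
  have hff1 : ff ≤ 1 := by unfold ff; norm_num
  have hD : ∀ n ∈ range y, (d n) ^ 2 ≤ (10 ^ 77 * (S / y')) ^ 2 := by
    intro n hn
    have hn1 : n < y := Finset.mem_range.mp hn
    rw [← sq_abs]
    apply pow_le_pow_left₀ (abs_nonneg _)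
    refine (h.s2 n hn1).trans (le_of_eq ?_)
    unfold ww
    field_simp
  refine (Finset.sum_le_sum hD).trans ?_
  rw [Finset.sum_const, Finset.card_range, nsmul_eq_mul]
  have hp := c.ηpos
  calc (y : ℝ) * (10 ^ 77 * (S / y')) ^ 2
      ≤ (Lm * y') * (10 ^ 77 * (S / y')) ^ 2 := by
        apply mul_le_mul_of_nonneg_right hup' (by positivity)
    _ = 10 ^ 154 * Lm * (S / y') * S := by
        field_simp
    _ ≤ 10 ^ 154 * Lm * η1 * S := by gcongr
    _ ≤ 1 * S := by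
        apply mul_le_mul_of_nonneg_right _ hSp.le
        have h5 := c.cη5
        have h6 : (Lm : ℝ) ≤ (Lm : ℝ) ^ 2 := le_self_pow₀ (by linarith) (by norm_num)
        have h7 : (10 : ℝ) ^ 154 ≤ 10 ^ 160 := pow_le_pow_right₀ (by norm_num) (by norm_num)
        calc 10 ^ 154 * Lm * η1 ≤ 10 ^ 160 * (Lm : ℝ) ^ 2 * η1 := by gcongr
          _ ≤ ff / 10 ^ 6 := h5
          _ ≤ 1 := by linarith
    _ = S := one_mul S

/-- sum of the residuals `eF` -/
theorem L3b_aux11 (u : UK K K2 Cg δ κ1) (c : Cst K K2 Cg (δ Lm) (κ1 Lm) ε Λ Lm κ Gm η1)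
    (hG : 1 ≤ Gm) (h : St Λ Lm ε η y'' y' y a00 a0 φ' d S) (g : Geo y' y W W' V) (hη : 0 ≤ η)
    (hη1 : η ≤ η1) (hS : S ≤ η / Gm * y') (sd : SD K K2 Λ Lm κ y' y W W' V a0 d S D Y S') :
    ∑ j ∈ range Y, |eF a0 y W W' V D j| ≤ 51 * S + (Lm * y) *
      ((6000 * S' / (ww * y) + 10 ^ 81 * κ * Lm) * (6000 * S' / (ww * y))) := by
  have hy' := L3b_aux3 h
  have hy := L3b_aux4 h g
  have hL := L3b_aux5 c
  have hyn : 0 < y := by exact_mod_cast hy
  have hLn : 20 ≤ Lm := by exact_mod_cast hL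
  have hin : In y' y a0 := ⟨h.lb0, h.cpl⟩
  have sl : SL κ y (Lm * y) := step_SL c hyn hLn
  have hyY : y ≤ Y := by
    have := sd.Ylo
    nlinarith
  have hph := phi_bd
  have hS'0 : 0 ≤ S' := by
    rw [← sd.at1]; exact abs_nonneg _
  have hwp : 0 < ww := by unfold ww; positivity
  have hκ := c.κpos
  rw [← Finset.sum_range_add_sum_Ico _ hyY]
  apply add_le_add
  · have h1 : ∀ n ∈ range y, |eF a0 y W W' V D n|
        ≤ |(2 * Cum a0 n - d n) * d n - cv (ker a0) d n| + (d n) ^ 2 := by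
      intro n hn
      have hn1 : n < y := Finset.mem_range.mp hn
      rw [eF_low g hin hn1, sd.low n hn1]
      have e1 : cv (ker a0) D n = phi * cv (ker a0) d n := by
        rw [← cv_smul_right]
        apply cv_congr_right
        intro l hl
        exact sd.low l (by omega)
      rw [e1]
      have e2 : phi * (2 * Cum a0 n * (phi * d n) - phi * cv (ker a0) d n)
          = phi ^ 2 * (((2 * Cum a0 n - d n) * d n - cv (ker a0) d n) + (d n) ^ 2) := by ring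
      rw [e2, abs_mul, abs_of_nonneg (by positivity : (0:ℝ) ≤ phi ^ 2)]
      have e3 : phi ^ 2 ≤ 1 := by nlinarith
      have e4 := abs_add_le ((2 * Cum a0 n - d n) * d n - cv (ker a0) d n) ((d n) ^ 2)
      rw [abs_of_nonneg (sq_nonneg (d n))] at e4
      have e5 := abs_nonneg (((2 * Cum a0 n - d n) * d n - cv (ker a0) d n) + (d n) ^ 2)
      nlinarith
    refine (Finset.sum_le_sum h1).trans ?_
    rw [Finset.sum_add_distrib]
    have e6 := h.s10
    unfold res at e6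
    have e7 := L3b_aux10 c hG h g hη hη1 hS
    linarith
  · have hM := step_sup u c hG h g hη hη1 hS sd
    have hE : Eqn a0 y W W' V κ (Lm * y) Y D := by
      intro n hn1 hn2
      exact sd.eqn n hn1 (lt_of_lt_of_le hn2 sd.Yhi)
    have h1 : ∀ n ∈ Finset.Ico y Y, |eF a0 y W W' V D n|
        ≤ (6000 * S' / (ww * y) + 10 ^ 81 * κ * Lm) * (6000 * S' / (ww * y)) := by
      intro n hn
      rw [Finset.mem_Ico] at hn
      refine (eF_bd g hin sl sd.Yhi hE hn.1 hn.2 (fun m hm => hM m (by omega))).trans ?_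
      apply mul_le_mul_of_nonneg_right _ (by positivity)
      rw [L3b_aux9 κ hyn]
      nlinarith
    refine (Finset.sum_le_sum h1).trans ?_
    rw [Finset.sum_const, Nat.card_Ico, nsmul_eq_mul]
    apply mul_le_mul_of_nonneg_right _ (by positivity)
    have : Y - y ≤ Lm * y := by
      have := sd.Yhi
      omega
    exact_mod_cast this

theorem step_s4 (u : UK K K2 Cg δ κ1) (c : Cst K K2 Cg (δ Lm) (κ1 Lm) ε Λ Lm κ Gm η1)
    (hG : 1 ≤ Gm) (h : St Λ Lm ε η y'' y' y a00 a0 φ' d S) (g : Geo y' y W W' V) (hη : 0 ≤ η)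
    (hη1 : η ≤ η1) (hS : S ≤ η / Gm * y') (sd : SD K K2 Λ Lm κ y' y W W' V a0 d S D Y S') :
    ∀ n < Y, |∑ j ∈ range (n + 1), csum D j| ≤ 9000 * y * S' := by
  intro n hn
  have hy' := L3b_aux3 h
  have hy := L3b_aux4 h g
  have hL := L3b_aux5 c
  have hK := u.hK
  have hin : In y' y a0 := ⟨h.lb0, h.cpl⟩
  have hSp := h.Spos
  have hS'0 : 0 ≤ S' := by
    rw [← sd.at1]; exact abs_nonneg _
  have hκ := c.κpos
  have hp := c.ηpos
  have hff := ff_pos
  have hff1 : ff ≤ 1 := by unfold ff; norm_num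
  have h1 := plat_V g hin sd.sup (L3b_aux6 u c h g sd)
    (L3b_aux11 u c hG h g hη hη1 hS sd) hn
  refine h1.trans ?_
  set M := 6000 * S' / (ww * y) with hMdef
  have hMy : M * y = 6 * 10 ^ 76 * S' := by
    rw [hMdef]; unfold ww
    field_simp
    ring
  have hM0 : 0 ≤ M := by rw [hMdef]; unfold ww; positivity
  have hq1 : 0 ≤ 10 ^ 78 * K ^ 10 * Lm * S := by positivity
  have hq2 : 0 ≤ 10 ^ 81 * κ * Lm := by positivity
  have hq3 : (0 : ℝ) ≤ Lm * y := by positivity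
  have hR0 : 0 ≤ 2 * (10 ^ 78 * K ^ 10 * Lm * S) + (51 * S + Lm * y *
      ((M + 10 ^ 81 * κ * Lm) * M)) :=
    add_nonneg (mul_nonneg (by norm_num) hq1) (add_nonneg (by linarith)
      (mul_nonneg hq3 (mul_nonneg (add_nonneg hM0 hq2) hM0)))
  have hM : M ≤ 6 * 10 ^ 153 * Lm * K ^ (Lm + 2) * η1 := L3b_aux8 u hG h g hη hη1 hS sd
  have hYL : (Y : ℝ) ≤ Lm * y := by exact_mod_cast sd.Yhi
  have hg := L3b_aux1 u c h sd
  have hε1 := c.ε1
  have hε := c.εpos

  have t1 : 10 ^ 250 * K ^ 10 * (Lm : ℝ) ^ 4 * S ≤ S' := by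
    refine hg.trans ?_
    have : ε * ff ≤ 1 := by nlinarith
    nlinarith
  have hL1 : (1 : ℝ) ≤ Lm := by linarith
  have hK10 : (1 : ℝ) ≤ K ^ 10 := one_le_pow₀ hK
  have t2 : (Lm : ℝ) * (2 * (10 ^ 78 * K ^ 10 * Lm * S)) ≤ S' := by
    refine le_trans ?_ t1
    have e1 : (Lm : ℝ) * Lm ≤ (Lm : ℝ) ^ 4 := by
      calc (Lm : ℝ) * Lm = (Lm : ℝ) ^ 2 := by ring
        _ ≤ (Lm : ℝ) ^ 4 := pow_le_pow_right₀ hL1 (by norm_num)
    have e2 : (2 : ℝ) * 10 ^ 78 ≤ 10 ^ 250 := by norm_num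
    calc (Lm : ℝ) * (2 * (10 ^ 78 * K ^ 10 * Lm * S))
        = (2 * 10 ^ 78) * (K ^ 10 * S) * (Lm * Lm) := by ring
      _ ≤ 10 ^ 250 * (K ^ 10 * S) * (Lm : ℝ) ^ 4 := by
          apply mul_le_mul _ e1 (by positivity) (by positivity)
          apply mul_le_mul_of_nonneg_right e2 (by positivity)
      _ = 10 ^ 250 * K ^ 10 * (Lm : ℝ) ^ 4 * S := by ring
  have t3 : (Lm : ℝ) * (51 * S) ≤ S' := by
    refine le_trans ?_ t1
    have e1 : (Lm : ℝ) ≤ (Lm : ℝ) ^ 4 := le_self_pow₀ hL1 (by norm_num)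
    have e2 : (51 : ℝ) ≤ 10 ^ 250 := by norm_num
    calc (Lm : ℝ) * (51 * S) = 51 * 1 * (Lm : ℝ) * S := by ring
      _ ≤ 10 ^ 250 * K ^ 10 * (Lm : ℝ) ^ 4 * S := by
          apply mul_le_mul_of_nonneg_right _ hSp.le
          apply mul_le_mul _ e1 (by positivity) (by positivity)
          exact mul_le_mul e2 hK10 (by norm_num) (by positivity)
  have t4 : (Lm : ℝ) * (Lm * (M * (6 * 10 ^ 76 * S'))) ≤ S' := by
    have e1 := c.cη7
    have e2 : (Lm : ℝ) ^ 3 ≤ (Lm : ℝ) ^ 4 := pow_le_pow_right₀ hL1 (by norm_num)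
    have e3 : (36 : ℝ) * 10 ^ 229 ≤ 10 ^ 240 := by norm_num
    calc (Lm : ℝ) * (Lm * (M * (6 * 10 ^ 76 * S')))
        = (M * (6 * 10 ^ 76 * Lm * Lm)) * S' := by ring
      _ ≤ ((6 * 10 ^ 153 * Lm * K ^ (Lm + 2) * η1) * (6 * 10 ^ 76 * Lm * Lm)) * S' := by
          apply mul_le_mul_of_nonneg_right _ hS'0
          exact mul_le_mul_of_nonneg_right hM (by positivity)
      _ = (36 * 10 ^ 229) * (Lm : ℝ) ^ 3 * (K ^ (Lm + 2) * η1) * S' := by ring
      _ ≤ 10 ^ 240 * (Lm : ℝ) ^ 4 * (K ^ (Lm + 2) * η1) * S' := by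
          apply mul_le_mul_of_nonneg_right _ hS'0
          apply mul_le_mul_of_nonneg_right _ (by positivity)
          exact mul_le_mul e3 e2 (by positivity) (by positivity)
      _ = (10 ^ 240 * (Lm : ℝ) ^ 4 * K ^ (Lm + 2) * η1) * S' := by ring
      _ ≤ 1 * S' := mul_le_mul_of_nonneg_right (e1.trans hff1) hS'0
      _ = S' := one_mul S'
  have t5 : (Lm : ℝ) * (Lm * (10 ^ 81 * κ * Lm * (6 * 10 ^ 76 * S'))) ≤ S' := by
    have e1 := c.cκ4
    have e3 : (6 : ℝ) * 10 ^ 76 ≤ 10 ^ 78 := by norm_num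
    calc (Lm : ℝ) * (Lm * (10 ^ 81 * κ * Lm * (6 * 10 ^ 76 * S')))
        = (Lm : ℝ) ^ 2 * (10 ^ 81 * κ * Lm) * (6 * 10 ^ 76) * S' := by ring
      _ ≤ (Lm : ℝ) ^ 2 * (10 ^ 81 * κ * Lm) * 10 ^ 78 * S' := by
          apply mul_le_mul_of_nonneg_right _ hS'0
          exact mul_le_mul_of_nonneg_left e3 (by positivity)
      _ ≤ 1 * S' := mul_le_mul_of_nonneg_right e1 hS'0
      _ = S' := one_mul S'
  have hbig : (Y : ℝ) * (2 * (10 ^ 78 * K ^ 10 * Lm * S) + (51 * S + Lm * y *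
      ((M + 10 ^ 81 * κ * Lm) * M))) ≤ 4 * y * S' := by
    calc (Y : ℝ) * (2 * (10 ^ 78 * K ^ 10 * Lm * S) + (51 * S + Lm * y *
          ((M + 10 ^ 81 * κ * Lm) * M)))
        ≤ (Lm * y) * (2 * (10 ^ 78 * K ^ 10 * Lm * S) + (51 * S + Lm * y *
          ((M + 10 ^ 81 * κ * Lm) * M))) := mul_le_mul_of_nonneg_right hYL hR0
      _ = y * ((Lm : ℝ) * (2 * (10 ^ 78 * K ^ 10 * Lm * S)) + Lm * (51 * S)
          + Lm * (Lm * (M * (M * y))) + Lm * (Lm * (10 ^ 81 * κ * Lm * (M * y)))) := by ring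
      _ = y * ((Lm : ℝ) * (2 * (10 ^ 78 * K ^ 10 * Lm * S)) + Lm * (51 * S)
          + Lm * (Lm * (M * (6 * 10 ^ 76 * S')))
          + Lm * (Lm * (10 ^ 81 * κ * Lm * (6 * 10 ^ 76 * S')))) := by rw [hMy]
      _ ≤ y * (S' + S' + S' + S') := by
          apply mul_le_mul_of_nonneg_left _ hy.le
          linarith
      _ = 4 * y * S' := by ring
  have : 0 ≤ (y : ℝ) * S' := by positivity
  linarith

theorem step_s6 (u : UK K K2 Cg δ κ1) (c : Cst K K2 Cg (δ Lm) (κ1 Lm) ε Λ Lm κ Gm η1)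
    (hG : 1 ≤ Gm) (h : St Λ Lm ε η y'' y' y a00 a0 φ' d S) (g : Geo y' y W W' V) (hη : 0 ≤ η)
    (hη1 : η ≤ η1) (hS : S ≤ η / Gm * y') (sd : SD K K2 Λ Lm κ y' y W W' V a0 d S D Y S') :
    |2 * (1 + kbY κ y Y) * csum D (Y - 1)
      - cv (ker (FT a0 y W W' V κ (Lm * y))) (csum D) (Y - 1)| ≤ ff / 1000 * S' := by
  have hy' := L3b_aux3 h
  have hy := L3b_aux4 h g
  have hyn : 0 < y := by exact_mod_cast hy
  have hL := L3b_aux5 c
  have hLn : 20 ≤ Lm := by exact_mod_cast hL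
  have hK := u.hK
  have hin : In y' y a0 := ⟨h.lb0, h.cpl⟩
  have sl : SL κ y (Lm * y) := step_SL c hyn hLn
  have hSp := h.Spos
  have hS'0 : 0 ≤ S' := by
    rw [← sd.at1]; exact abs_nonneg _
  have hκ := c.κpos
  have hp := c.ηpos
  have hff := ff_pos
  have hff1 : ff ≤ 1 := by unfold ff; norm_num
  have hΛ : 10 ≤ Λ := by
    have := c.cΛ
    have h2 : (10 : ℝ) ≤ L0 := by unfold L0; norm_num
    exact_mod_cast h2.trans this
  have hN0 : N0 y < Y := by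
    have := sd.Ylo
    unfold N0
    have h3 : 11 * y ≤ (Λ + 1) * y := Nat.mul_le_mul_right y (by omega)
    omega
  have hE : Eqn a0 y W W' V κ (Lm * y) Y D := by
    intro n hn1 hn2
    exact sd.eqn n hn1 (lt_of_lt_of_le hn2 sd.Yhi)
  have hM := L3b_aux8 u hG h g hη hη1 hS sd
  have hsup := step_sup u c hG h g hη hη1 hS sd
  set M := 6000 * S' / (ww * y) with hMdef
  have hMy : M * y = 6 * 10 ^ 76 * S' := by
    rw [hMdef]; unfold ww
    field_simp
    ring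
  have hM0 : 0 ≤ M := by rw [hMdef]; unfold ww; positivity
  have hYL : (Y : ℝ) ≤ Lm * y := by exact_mod_cast sd.Yhi
  have hQ : ∑ n ∈ range Y, (D n) ^ 2 ≤ (Lm * y) * (M * M) := by
    have e1 : ∀ n ∈ range Y, (D n) ^ 2 ≤ M * M := by
      intro n hn
      have hn1 := hsup n (Finset.mem_range.mp hn)
      rw [← sq_abs, pow_two]
      exact mul_le_mul hn1 hn1 (abs_nonneg _) hM0
    refine (Finset.sum_le_sum e1).trans ?_
    rw [Finset.sum_const, Finset.card_range, nsmul_eq_mul]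
    exact mul_le_mul_of_nonneg_right hYL (mul_nonneg hM0 hM0)
  have hR : ∑ n ∈ range y, |(2 * Cum (FT a0 y W W' V κ (Lm * y)) n - D n) * D n
      - cv (ker (FT a0 y W W' V κ (Lm * y))) D n| ≤ 50 * S := by
    have e1 := L3b_aux7 h g sl sd
    unfold res at e1
    rw [e1]
    have e2 := h.s10
    unfold res at e2
    have hph := phi_bd
    have e3 : phi ^ 2 ≤ 1 := by nlinarith
    have e4 : 0 ≤ ∑ n ∈ range y, |(2 * Cum a0 n - d n) * d n - cv (ker a0) d n| :=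
      Finset.sum_nonneg (fun _ _ => abs_nonneg _)
    nlinarith
  have h1 := plat_6 g hin sl hN0 sd.Yhi hE sd.sup (L3b_aux6 u c h g sd) hR hQ
  refine h1.trans ?_
  have hg := L3b_aux1 u c h sd
  have hε1 := c.ε1
  have hε := c.εpos
  have t1 : 10 ^ 250 * K ^ 10 * (Lm : ℝ) ^ 4 * S ≤ ff * S' := by
    refine hg.trans ?_
    have : ε * ff ≤ ff := by nlinarith
    exact mul_le_mul_of_nonneg_right this hS'0
  have hL1 : (1 : ℝ) ≤ Lm := by linarith
  have hK10 : (1 : ℝ) ≤ K ^ 10 := one_le_pow₀ hK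
  have hL4 : (1 : ℝ) ≤ (Lm : ℝ) ^ 4 := one_le_pow₀ hL1
  have e4 : (Lm : ℝ) ≤ (Lm : ℝ) ^ 4 := le_self_pow₀ hL1 (by norm_num)
  have t2 : 10 ^ 10 * (2 * (10 ^ 78 * K ^ 10 * Lm * S)) ≤ ff * S' := by
    refine le_trans ?_ t1
    have e2 : (2 : ℝ) * 10 ^ 88 ≤ 10 ^ 250 := by norm_num
    calc 10 ^ 10 * (2 * (10 ^ 78 * K ^ 10 * Lm * S))
        = (2 * 10 ^ 88) * (K ^ 10 * S) * Lm := by ring
      _ ≤ 10 ^ 250 * (K ^ 10 * S) * (Lm : ℝ) ^ 4 := by
          apply mul_le_mul _ e4 (by positivity) (by positivity)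
          apply mul_le_mul_of_nonneg_right e2 (by positivity)
      _ = 10 ^ 250 * K ^ 10 * (Lm : ℝ) ^ 4 * S := by ring
  have t3 : 10 ^ 10 * (50 * S) ≤ ff * S' := by
    refine le_trans ?_ t1
    have e2 : (10 : ℝ) ^ 10 * 50 ≤ 10 ^ 250 := by norm_num
    calc 10 ^ 10 * (50 * S) = (10 ^ 10 * 50) * 1 * 1 * S := by ring
      _ ≤ 10 ^ 250 * K ^ 10 * (Lm : ℝ) ^ 4 * S := by
          apply mul_le_mul_of_nonneg_right _ hSp.le
          apply mul_le_mul _ hL4 (by positivity) (by positivity)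
          exact mul_le_mul e2 hK10 (by norm_num) (by positivity)
  have t4 : 10 ^ 4 * ((Lm * y) * (M * M)) ≤ ff * S' := by
    have e1 := c.cη7
    have e2 : (Lm : ℝ) ^ 2 ≤ (Lm : ℝ) ^ 4 := pow_le_pow_right₀ hL1 (by norm_num)
    have e3 : (36 : ℝ) * 10 ^ 233 ≤ 10 ^ 240 := by norm_num
    calc 10 ^ 4 * (((Lm : ℝ) * y) * (M * M)) = 10 ^ 4 * (M * (Lm * (M * y))) := by ring
      _ = 10 ^ 4 * (M * (Lm * (6 * 10 ^ 76 * S'))) := by rw [hMy]
      _ = (M * (6 * 10 ^ 80 * Lm)) * S' := by ring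
      _ ≤ ((6 * 10 ^ 153 * Lm * K ^ (Lm + 2) * η1) * (6 * 10 ^ 80 * Lm)) * S' := by
          apply mul_le_mul_of_nonneg_right _ hS'0
          exact mul_le_mul_of_nonneg_right hM (by positivity)
      _ = (36 * 10 ^ 233) * (Lm : ℝ) ^ 2 * (K ^ (Lm + 2) * η1) * S' := by ring
      _ ≤ 10 ^ 240 * (Lm : ℝ) ^ 4 * (K ^ (Lm + 2) * η1) * S' := by
          apply mul_le_mul_of_nonneg_right _ hS'0
          apply mul_le_mul_of_nonneg_right _ (by positivity)
          exact mul_le_mul e3 e2 (by positivity) (by positivity)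
      _ = (10 ^ 240 * (Lm : ℝ) ^ 4 * K ^ (Lm + 2) * η1) * S' := by ring
      _ ≤ ff * S' := mul_le_mul_of_nonneg_right e1 hS'0
  have t5 : 10 ^ 4 * (2 * kbY κ y Y * S') ≤ ff * S' := by
    have e1 : kbY κ y Y ≤ κ * Lm := by
      unfold kbY
      rw [div_le_iff₀ hy]
      have : (Y : ℝ) - y ≤ Lm * y := by linarith
      calc κ * ((Y : ℝ) - y) ≤ κ * (Lm * y) := mul_le_mul_of_nonneg_left this hκ.le
        _ = κ * Lm * y := by ring
    have e2 := c.cκ2
    have e3 : (2 : ℝ) * 10 ^ 4 ≤ 10 ^ 245 := by norm_num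
    calc 10 ^ 4 * (2 * kbY κ y Y * S') = (2 * 10 ^ 4 * kbY κ y Y) * S' := by ring
      _ ≤ (2 * 10 ^ 4 * (κ * Lm)) * S' := by
          apply mul_le_mul_of_nonneg_right _ hS'0
          exact mul_le_mul_of_nonneg_left e1 (by norm_num)
      _ = (κ * Lm) * (2 * 10 ^ 4) * S' := by ring
      _ ≤ (κ * Lm) * 10 ^ 245 * S' := by
          apply mul_le_mul_of_nonneg_right _ hS'0
          exact mul_le_mul_of_nonneg_left e3 (by positivity)
      _ ≤ ff * S' := mul_le_mul_of_nonneg_right e2 hS'0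
  have h0 : 0 ≤ ff * S' := by positivity
  generalize 10 ^ 78 * K ^ 10 * Lm * S = q1 at t2 ⊢
  generalize (Lm : ℝ) * y * (M * M) = q2 at t4 ⊢
  generalize 2 * kbY κ y Y * S' = q3 at t5 ⊢
  generalize hq4 : ff * S' = q4 at t2 t3 t4 t5 h0
  have : ff / 1000 * S' = q4 / 1000 := by rw [← hq4]; ring
  rw [this]
  norm_num at t2 t3 t4 t5
  linarith

end

end MP18
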