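import Pool.Agent.Lib.MP_18566a_pr.T.L3b

set_option autoImplicit false

namespace MP18

open Finset PowerSeries

private theorem L4_csum (D : ℕ → ℝ) (c : ℝ) (n : ℕ) :
    csum (fun n => D n / c) n = csum D n / c := by
  unfold csum
  rw [Finset.sum_div]

private theorem L4_dd (D : ℕ → ℝ) (c : ℝ) (n : ℕ) :
    dd (fun n => D n / c) n = dd D n / c := by
  unfold dd
  split_ifs
  · rfl
  · rw [sub_div]

private theorem L4_cv {A B : PS} {c : ℝ} (hc : c ≠ 0) {n : ℕ}
    (h : ∀ l ≤ n, coeff l B = c⁻¹ * coeff l A) (u : ℕ → ℝ) :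
    cv B (fun n => u n / c) n = cv A u n / c ^ 2 := by
  unfold cv
  rw [Finset.sum_div]
  refine Finset.sum_congr rfl fun j hj => ?_
  rw [h j (Nat.lt_succ_iff.1 (Finset.mem_range.1 hj))]
  field_simp

private theorem L4_abs {x c B : ℝ} (hc : 0 < c) (h : |x| ≤ B) : |x / c| ≤ B / c := by
  rw [abs_div, abs_of_pos hc]
  exact div_le_div_of_nonneg_right h hc.le

/-- sizes of the growth constant -/
private theorem L4_G {K K2 Cg : ℝ} {δ κ1 : ℕ → ℝ} {ε : ℝ} {Λ Lm : ℕ} {κ Gm η1 : ℝ}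
    (u : UK K K2 Cg δ κ1) (c : Cst K K2 Cg (δ Lm) (κ1 Lm) ε Λ Lm κ Gm η1) :
    4 * (Lm : ℝ) ≤ phi * (ff ^ 2 / 10 ^ 5) * Real.exp (ff / 100 * Lm) ∧ 1 ≤ (Lm : ℝ) := by
  have hLm : 1 ≤ Lm := by
    have := c.cL
    omega
  have hLm' : (1 : ℝ) ≤ Lm := by exact_mod_cast hLm
  have hK : 1 ≤ K * K2 := one_le_mul_of_one_le_of_one_le u.hK u.hK2
  have hKp : 1 ≤ (K * K2) ^ (Λ + 20) := one_le_pow₀ hK
  have hff := ff_pos
  have hff1 : ff ≤ 1 := by
    unfold ff
    norm_num
  have hphi := phi_bd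
  have hG0 : 0 < phi * (ff ^ 2 / 10 ^ 5) * Real.exp (ff / 100 * Lm) := by
    have : 0 < phi := by linarith [hphi.1]
    positivity
  have h1 : ε * ff * (phi * (ff ^ 2 / 10 ^ 5) * Real.exp (ff / 100 * Lm)) ≤
      phi * (ff ^ 2 / 10 ^ 5) * Real.exp (ff / 100 * Lm) := by
    have h2 : ε * ff ≤ 1 := by
      have := mul_le_mul c.ε1 hff1 hff.le zero_le_one
      linarith
    have := mul_le_mul_of_nonneg_right h2 hG0.le
    linarith
  have h3 : 4 * (Lm : ℝ) ≤ 10 ^ 250 * (K * K2) ^ (Λ + 20) * (Lm : ℝ) ^ 4 := by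
    have h4 : (Lm : ℝ) ≤ (Lm : ℝ) ^ 4 := le_self_pow₀ hLm' (by norm_num)
    have h5 : (4 : ℝ) ≤ 10 ^ 250 * (K * K2) ^ (Λ + 20) := by
      have : (4 : ℝ) ≤ 10 ^ 250 := by norm_num
      calc (4 : ℝ) ≤ 10 ^ 250 * 1 := by rw [mul_one]; exact this
        _ ≤ 10 ^ 250 * (K * K2) ^ (Λ + 20) := mul_le_mul_of_nonneg_left hKp (by positivity)
    exact mul_le_mul h5 h4 (by linarith) (by positivity)
  exact ⟨h3.trans (c.c2.trans h1), hLm'⟩

theorem St_new {K K2 Cg : ℝ} {δ κ1 : ℕ → ℝ} {ε : ℝ} {Λ Lm : ℕ} {κ Gm η1 η : ℝ}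
    {y'' y' y W W' V : ℕ} {a00 a0 : PS} {φ' : ℝ} {d : ℕ → ℝ} {S : ℝ} {D : ℕ → ℝ} {Y : ℕ} {S' : ℝ}
    (u : UK K K2 Cg δ κ1) (c : Cst K K2 Cg (δ Lm) (κ1 Lm) ε Λ Lm κ Gm η1)
    (hG : 1 ≤ Gm) (h : St Λ Lm ε η y'' y' y a00 a0 φ' d S) (g : Geo y' y W W' V) (hη : 0 ≤ η)
    (hη1 : η ≤ η1) (hS : S ≤ η / Gm * y') (sd : SD K K2 Λ Lm κ y' y W W' V a0 d S D Y S') :
    St Λ Lm ε η y' y Y a0 (aN a0 y W W' V (kbY κ y Y) Y) (phi / (1 + kbY κ y Y))
      (fun n => D n / (1 + kbY κ y Y)) (S' / (1 + kbY κ y Y)) ∧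
    2 * (S / y') ≤ S' / (1 + kbY κ y Y) / y ∧ S' / (1 + kbY κ y Y) / y ≤ Gm * (S / y') ∧
    kbY κ y Y ≤ 1 ∧ 0 ≤ kbY κ y Y ∧
    (∀ n < y, coeff n (aN a0 y W W' V (kbY κ y Y) Y) = phi / (1 + kbY κ y Y) * coeff n a0) ∧
    res (aN a0 y W W' V (kbY κ y Y) Y) (fun n => D n / (1 + kbY κ y Y)) Y ≤ res a0 d y := by
  obtain ⟨hG4, hLm1⟩ := L4_G u c
  have hff := ff_pos
  have hff1 : ff ≤ 1 := by
    unfold ff
    norm_num
  obtain ⟨hphi1, hphi2⟩ := phi_bd
  have hphi0 : 0 < phi := by linarith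
  have hin : In y' y a0 := ⟨h.lb0, h.cpl⟩
  have hy'0 : 0 < y' := lt_of_lt_of_le (by norm_num) h.big
  have hy'R : (0 : ℝ) < y' := by exact_mod_cast hy'0
  have hΛR : (10 : ℝ) ^ 250 ≤ Λ := c.cΛ
  have hΛ20 : 20 ≤ Λ := by
    have h1 : (20 : ℝ) ≤ 10 ^ 250 := by norm_num
    exact_mod_cast h1.trans hΛR
  have hyy' : y' ≤ y := by
    calc y' = 1 * y' := (one_mul _).symm
      _ ≤ Λ * y' := Nat.mul_le_mul_right _ (by omega)
      _ ≤ y := h.sep2
  have hy0 : 0 < y := lt_of_lt_of_le hy'0 hyy'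
  have hyR : (0 : ℝ) < y := by exact_mod_cast hy0
  have hL20 : 20 ≤ Lm := by
    have := c.cL
    omega
  have sl : SL κ y (Lm * y) := step_SL c hy0 hL20
  have hYlo := sd.Ylo
  have hYhi := sd.Yhi
  have h20Y : 20 * y ≤ Y := by
    calc 20 * y ≤ (Λ + 1) * y := Nat.mul_le_mul_right _ (by omega)
      _ ≤ Y := hYlo
  have hyY : y < Y := by omega
  have hYR : (Y : ℝ) ≤ Lm * y := by exact_mod_cast hYhi
  have hyYR : (y : ℝ) < Y := by exact_mod_cast hyY

  set kb : ℝ := kbY κ y Y with hkb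
  have hkb0 : 0 ≤ kb := by
    rw [hkb]
    unfold kbY
    exact div_nonneg (mul_nonneg c.κpos.le (by linarith)) hyR.le
  have hkbL : kb ≤ κ * Lm := by
    rw [hkb]
    unfold kbY
    rw [div_le_iff₀ hyR, mul_assoc]
    exact mul_le_mul_of_nonneg_left (by linarith) c.κpos.le
  have hκL0 : 0 ≤ κ * Lm := mul_nonneg c.κpos.le (by linarith)
  have hκL1 : κ * Lm ≤ 1 := by
    have h1 := c.cκ2
    have h2 : κ * Lm * 1 ≤ κ * Lm * 10 ^ 245 := mul_le_mul_of_nonneg_left (by norm_num) hκL0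
    linarith
  have hkb1 : kb ≤ 1 := hkbL.trans hκL1
  set cc : ℝ := 1 + kb with hcc
  have hc1 : 1 ≤ cc := by linarith
  have hc2 : cc ≤ 2 := by linarith
  have hc0 : 0 < cc := by linarith
  have hcne : cc ≠ 0 := hc0.ne'
  have hci : cc⁻¹ ≤ 1 := inv_le_one_of_one_le₀ hc1
  have hci0 : 0 < cc⁻¹ := inv_pos.2 hc0
  set F : PS := FT a0 y W W' V κ (Lm * y) with hF
  set a1 : PS := aN a0 y W W' V kb Y with ha1
  have ha1' : a1 = cc⁻¹ • aT a0 y W W' V kb Y := rfl
  have htr : ∀ l < Y, coeff l F = coeff l (aT a0 y W W' V kb Y) := fun l hl =>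
    FT_trunc hy0 hyY hYhi hl
  have hcoef : ∀ l < Y, coeff l a1 = cc⁻¹ * coeff l F := by
    intro l hl
    rw [htr l hl, ha1', PowerSeries.coeff_smul, smul_eq_mul]
  have hF0 : coeff 0 F ≠ 0 := (FT_pos g hin sl).ne'
  have hker : ∀ l < Y, coeff l (ker a1) = cc⁻¹ * coeff l (ker F) := by
    intro l hl
    rw [ha1', ker_smul (inv_ne_zero hcne), PowerSeries.coeff_smul, smul_eq_mul,
      ker_congr hF0 htr l hl]
  have hcvk : ∀ n < Y, ∀ w : ℕ → ℝ, cv (ker a1) (fun n => w n / cc) n = cv (ker F) w n / cc ^ 2 :=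
    fun n hn w => L4_cv hcne (fun l hl => hker l (by omega)) w
  have hCum : ∀ n < Y, Cum a1 n = Cum F n / cc := by
    intro n hn
    unfold Cum
    rw [Finset.sum_div]
    refine Finset.sum_congr rfl fun j hj => ?_
    rw [hcoef j (by have := Finset.mem_range.1 hj; omega)]
    field_simp

  have hSpos := h.Spos
  have hS'G := sd.gr
  have hGS : 4 * (Lm : ℝ) * S ≤ S' := (mul_le_mul_of_nonneg_right hG4 hSpos.le).trans hS'G
  have hSS' : S ≤ S' := by
    have : 1 * S ≤ 4 * (Lm : ℝ) * S := mul_le_mul_of_nonneg_right (by linarith) hSpos.le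
    linarith
  have hS'pos : 0 < S' := lt_of_lt_of_le hSpos hSS'
  have hS1pos : 0 < S' / cc := div_pos hS'pos hc0
  have hS1le : S' / cc ≤ S' := div_le_self hS'pos.le hc1
  have hS1ge : S' / 2 ≤ S' / cc := div_le_div_of_nonneg_left hS'pos.le hc0 hc2

  have hup : S' ≤ Gm * (S / y') * y := by
    have h1 := sd.up
    have hK0 : 0 ≤ K ^ (Lm + 2) := by
      have := u.hK
      positivity
    have h2 : 10 ^ 77 * (Lm : ℝ) * K ^ (Lm + 2) ≤ Gm := by
      have h3 := c.cG
      have h4 : 10 ^ 77 * (Lm : ℝ) * K ^ (Lm + 2) ≤ 10 ^ 80 * K ^ (Lm + 2) * (Lm : ℝ) := by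
        have h5 : (0 : ℝ) ≤ K ^ (Lm + 2) * (Lm : ℝ) := mul_nonneg hK0 (by linarith)
        have h6 : (10 : ℝ) ^ 77 ≤ 10 ^ 80 := by norm_num
        calc 10 ^ 77 * (Lm : ℝ) * K ^ (Lm + 2) = 10 ^ 77 * (K ^ (Lm + 2) * (Lm : ℝ)) := by ring
          _ ≤ 10 ^ 80 * (K ^ (Lm + 2) * (Lm : ℝ)) := mul_le_mul_of_nonneg_right h6 h5
          _ = 10 ^ 80 * K ^ (Lm + 2) * (Lm : ℝ) := by ring
      exact h4.trans h3
    have h7 : 0 ≤ S / y' := div_nonneg hSpos.le hy'R.le
    exact h1.trans (mul_le_mul_of_nonneg_right (mul_le_mul_of_nonneg_right h2 h7) hyR.le)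
  have hSy : S / y' ≤ η / Gm := by
    rw [div_le_iff₀ hy'R]
    exact hS
  have hGm0 : 0 < Gm := by linarith

  have hres : res a1 (fun n => D n / cc) Y = phi ^ 2 * res a0 d y / cc ^ 2 := by
    rw [← step_res h g sl sd]
    unfold res
    rw [Finset.sum_div]
    refine Finset.sum_congr rfl fun n hn => ?_
    have hn' := Finset.mem_range.1 hn
    rw [hCum n hn', hcvk n hn' D]
    have e : (2 * (Cum F n / cc) - D n / cc) * (D n / cc) - cv (ker F) D n / cc ^ 2 =
        ((2 * Cum F n - D n) * D n - cv (ker F) D n) / cc ^ 2 := by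
      field_simp
    rw [e, abs_div, abs_of_pos (by positivity : (0 : ℝ) < cc ^ 2)]
  have hres0 : 0 ≤ res a0 d y := Finset.sum_nonneg fun _ _ => abs_nonneg _
  have hcc2 : 1 ≤ cc ^ 2 := one_le_pow₀ hc1
  have hphisq : phi ^ 2 ≤ 1 := by nlinarith
  have hresle : res a1 (fun n => D n / cc) Y ≤ res a0 d y := by
    rw [hres]
    have h1 : phi ^ 2 * res a0 d y / cc ^ 2 ≤ phi ^ 2 * res a0 d y :=
      div_le_self (by positivity) hcc2
    have h2 : phi ^ 2 * res a0 d y ≤ 1 * res a0 d y := mul_le_mul_of_nonneg_right hphisq hres0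
    linarith

  have hlb := u.lb Lm y' y W W' V Y a0 kb g hin (by omega) hYR hkb0 (hkbL.trans c.cκ1)
  have hY1 : Y - 1 < Y := by omega
  have hY1' : Y - 1 + 1 = Y := by omega
  have hN0 : N0 y ≤ Y - 1 + 1 := by
    unfold N0
    omega
  have hlow : ∀ n < y, coeff n a1 = phi / cc * coeff n a0 := by
    intro n hn
    rw [hcoef n (by omega), hF, FT_coeff_low g hin sl hn]
    field_simp
  refine ⟨?_, ?_, ?_, hkb1, hkb0, hlow, hresle⟩
  · refine
      { lb0 := hlb.1
        cpl := hlb.2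
        lb00 := h.lb0
        pos'' := hy'0
        big := h.big.trans hyy'
        sep1 := h.sep2
        sep2 := (Nat.mul_le_mul_right y (Nat.le_succ Λ)).trans hYlo
        up2 := hYhi
        φ0 := (div_pos hphi0 hc0).le
        φ1 := div_le_self hphi0.le hc1
        win := ?_
        Spos := hS1pos
        s1 := ?_
        s1' := ?_
        s2 := ?_
        s3 := ?_
        s4 := ?_
        s5 := ?_
        s6 := ?_
        s7 := ?_
        s8 := ?_
        s9 := ?_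
        s10 := ?_ }
    · intro l hl
      rw [hker l (by omega), hF, ker_FT_low g hin sl hl]
      field_simp
    · intro n hn
      rw [L4_csum]
      exact L4_abs hc0 (sd.sup n hn)
    · rw [L4_csum, abs_div, abs_of_pos hc0, sd.at1]
    · intro n hn
      have h1 := L4_abs hc0 (step_sup u c hG h g hη hη1 hS sd n hn)
      refine h1.trans ?_
      have hw : 0 < ww * (y : ℝ) := by
        unfold ww
        positivity
      have e : 6000 * S' / (ww * y) / cc = 6000 * (S' / cc) / (ww * y) := by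
        field_simp
      rw [e]
      refine div_le_div_of_nonneg_right ?_ hw.le
      have : (6000 : ℝ) ≤ 10 ^ 4 := by norm_num
      exact mul_le_mul_of_nonneg_right this hS1pos.le
    · intro n hn
      rw [L4_dd]
      have h1 := L4_abs hc0 (step_dsup u c hG h g hη hη1 hS sd n hn)
      refine h1.trans ?_
      have hw : 0 < (y : ℝ) ^ 2 := by positivity
      have e : 5 * 10 ^ 202 * S' / (y : ℝ) ^ 2 / cc = 5 * 10 ^ 202 * (S' / cc) / (y : ℝ) ^ 2 := by
        field_simp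
      rw [e]
      refine div_le_div_of_nonneg_right ?_ hw.le
      have : (5 : ℝ) * 10 ^ 202 ≤ 10 ^ 203 := by norm_num
      exact mul_le_mul_of_nonneg_right this hS1pos.le
    · intro n hn
      have e : ∑ j ∈ range (n + 1), csum (fun n => D n / cc) j =
          (∑ j ∈ range (n + 1), csum D j) / cc := by
        rw [Finset.sum_div]
        exact Finset.sum_congr rfl fun j _ => L4_csum D cc j
      rw [e]
      have h1 := L4_abs hc0 (step_s4 u c hG h g hη hη1 hS sd n hn)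
      refine h1.trans ?_
      have e2 : 9000 * (y : ℝ) * S' / cc = 9000 * (y : ℝ) * (S' / cc) := by
        field_simp
      rw [e2]
      refine mul_le_mul_of_nonneg_right ?_ hS1pos.le
      have : (9000 : ℝ) ≤ 10 ^ 4 := by norm_num
      exact mul_le_mul_of_nonneg_right this hyR.le
    · have e : ∑ n ∈ range y, |D n / cc| = (∑ n ∈ range y, |D n|) / cc := by
        rw [Finset.sum_div]
        refine Finset.sum_congr rfl fun n _ => ?_
        rw [abs_div, abs_of_pos hc0]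
      have h1 := step_s5 u c hG h g sd
      have h2 : (∑ n ∈ range y, |D n|) / cc ≤ ε / 2 * S' / cc :=
        div_le_div_of_nonneg_right h1 hc0.le
      show ∑ n ∈ range y, |D n / cc| ≤ ε * (S' / cc)
      rw [e]
      refine h2.trans ?_
      have e2 : ε / 2 * S' / cc = ε / 2 * (S' / cc) := by
        field_simp
      rw [e2]
      exact mul_le_mul_of_nonneg_right (by linarith [c.εpos]) hS1pos.le
    ·
      have h6 := step_s6 u c hG h g hη hη1 hS sd
      have ecs : (csum fun n => D n / cc) = fun n => csum D n / cc := by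
        funext n
        exact L4_csum D cc n
      rw [ecs, hcvk (Y - 1) hY1 (csum D)]
      set C : ℝ := csum D (Y - 1) with hC
      set X1 : ℝ := cv (ker F) (csum D) (Y - 1) with hX1
      have hCabs : |C| = S' := sd.at1
      have hX : |2 * (C / cc) - X1 / cc ^ 2| ≤ ff / 1000 * (S' / cc) := by
        have e : 2 * (C / cc) - X1 / cc ^ 2 = (2 * cc * C - X1) / cc ^ 2 := by
          field_simp
        rw [e, abs_div, abs_of_pos (by positivity : (0 : ℝ) < cc ^ 2)]
        have h7 : |2 * cc * C - X1| ≤ ff / 1000 * S' := h6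
        have h8 : |2 * cc * C - X1| / cc ^ 2 ≤ ff / 1000 * S' / cc ^ 2 :=
          div_le_div_of_nonneg_right h7 (by positivity)
        refine h8.trans ?_
        have e2 : ff / 1000 * S' / cc ^ 2 = ff / 1000 * (S' / cc) / cc := by
          field_simp
        rw [e2]
        exact div_le_self (by positivity) hc1
      have h9 : |2 * ff * (C / cc)| = 2 * ff * (S' / cc) := by
        rw [abs_mul, abs_div, hCabs, abs_of_pos hc0, abs_of_pos (by positivity)]
      have h10 : |phi * (2 * (C / cc) - X1 / cc ^ 2)| ≤ 1 * (ff / 1000 * (S' / cc)) := by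
        rw [abs_mul, abs_of_pos hphi0]
        exact mul_le_mul (by linarith) hX (abs_nonneg _) zero_le_one
      have h11 : |2 * ff * (C / cc)| - |phi * (2 * (C / cc) - X1 / cc ^ 2)| ≤
          |2 * ff * (C / cc) + phi * (2 * (C / cc) - X1 / cc ^ 2)| := by
        have := abs_sub_abs_le_abs_sub (2 * ff * (C / cc)) (-(phi * (2 * (C / cc) - X1 / cc ^ 2)))
        rw [abs_neg, sub_neg_eq_add] at this
        exact this
      have h12 : 0 < ff * (S' / cc) := mul_pos hff hS1pos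
      refine le_trans ?_ h11
      rw [h9]
      linarith
    ·
      have h1 : Gm * (S / y') ≤ η := by
        calc Gm * (S / y') ≤ Gm * (η / Gm) := mul_le_mul_of_nonneg_left hSy hGm0.le
          _ = η := by field_simp
      exact hS1le.trans (hup.trans (mul_le_mul_of_nonneg_right h1 hyR.le))
    ·
      have hE := sd.eqn (Y - 1) (by omega) (by omega)
      have hpl := Cum_FT_plat g hin sl hN0 (show Y - 1 < Lm * y by omega)
      have hcast : (((Y - 1 : ℕ) : ℝ) + 1) = Y := by exact_mod_cast hY1'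
      rw [hcast] at hpl
      have hpl' : Cum F (Y - 1) = cc := hpl
      have hE' : (2 * Cum F (Y - 1) - D (Y - 1)) * D (Y - 1) = cv (ker F) D (Y - 1) := hE
      rw [hcvk (Y - 1) hY1 D, ← hE', hpl']
      field_simp
    · intro n hn
      rw [L4_dd, hcoef n hn]
      have h1 := L4_abs hc0 (step_s9 u c hG h g hη hη1 hS sd n hn)
      refine h1.trans (le_of_eq ?_)
      field_simp
      rfl
    ·
      have h1 : res a1 (fun n => D n / cc) Y ≤ phi ^ 2 * (50 * S) := by
        rw [hres]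
        have h2 : phi ^ 2 * res a0 d y / cc ^ 2 ≤ phi ^ 2 * res a0 d y :=
          div_le_self (by positivity) hcc2
        exact h2.trans (mul_le_mul_of_nonneg_left h.s10 (by positivity))
      have h3 : phi ^ 2 * (50 * S) ≤ 1 * (50 * S) :=
        mul_le_mul_of_nonneg_right hphisq (by positivity)
      have h4 : 2 * S ≤ S' := by
        have : 2 * S ≤ 4 * (Lm : ℝ) * S := mul_le_mul_of_nonneg_right (by linarith) hSpos.le
        linarith
      linarith
  ·
    rw [le_div_iff₀ hyR]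
    have hyL : (y : ℝ) ≤ Lm * y' := by exact_mod_cast h.up2
    have h1 : 2 * (S / y') * y ≤ 2 * (S / y') * (Lm * y') :=
      mul_le_mul_of_nonneg_left hyL (by positivity)
    have h2 : 2 * (S / y') * ((Lm : ℝ) * y') = 2 * Lm * S := by
      field_simp
    linarith
  · rw [div_le_iff₀ hyR]
    exact hS1le.trans hup

end MP18
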