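import Pool.Agent.Lib.MP_18566a_pr.T.C3
import Pool.Agent.Lib.MP_18566a_pr.T.C1c
import Pool.Agent.Lib.MP_18566a_pr.T.C0
import Pool.Agent.Lib.MP_18566a_pr.T.C2

set_option autoImplicit false

namespace MP18

open Finset PowerSeries

/-- geometry of the top level -/
structure TG (Lm y' y : ℕ) : Prop where
  big : 100 ≤ y'
  sep : L0 * y' ≤ y
  up : y ≤ Lm * y'

def Vt (y' : ℕ) : ℕ := y' / 4
def n1 (y' y : ℕ) : ℕ := y + 2 * Vt y'
noncomputable def th (y : ℕ) : ℝ := 1 - 1 / y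
noncomputable def rh (y : ℕ) : ℝ := 1 + 3 / (2 * y)
noncomputable def T2 (y' y : ℕ) : PS := X ^ y * U (Vt y') ^ 2
noncomputable def Us (y' y : ℕ) : PS := X ^ y * U (2 * Vt y')
noncomputable def Eg (y' y : ℕ) : PS :=
  X ^ n1 y' y * PowerSeries.mk fun n => 1 / (y : ℝ) * th y ^ n
noncomputable def G2 (y' y : ℕ) : PS :=
  X ^ n1 y' y * PowerSeries.mk fun n => (1 - th y ^ 2) * (th y ^ 2) ^ n
noncomputable def Qc (gs : ℝ) (y' y : ℕ) : PS := bb • T2 y' y + gs • Us y' y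
noncomputable def QT (gs : ℝ) (y' y : ℕ) : PS := Qc gs y' y + gs • Eg y' y
noncomputable def phs (gs : ℝ) : ℝ := 1 - bb - 2 * gs
noncomputable def aS (gs : ℝ) (a0 : PS) (y' y : ℕ) : PS := phs gs • a0 + QT gs y' y
noncomputable def AS (Lm : ℕ) : ℝ := 4 * A0 * (1 + Lm)

/-- size of `gs` -/
structure GS (Lm : ℕ) (gs : ℝ) : Prop where
  pos : 0 < gs
  le : gs * (10 ^ 9 * AS Lm) ≤ 1

theorem TG.facts {Lm y' y : ℕ} (t : TG Lm y' y) :
    0 < y' ∧ 0 < y ∧ 1 ≤ Lm ∧ 0 < Vt y' ∧ (y' : ℝ) / 5 ≤ Vt y' ∧ (Vt y' : ℝ) ≤ y' / 4 ∧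
    (y' : ℝ) ≤ y / 10 ^ 250 ∧ (10 : ℝ) ^ 250 ≤ y := by
  have hb := t.big
  have hs := t.sep
  have hu := t.up
  have hy' : 0 < y' := by omega
  have hy'R : (100 : ℝ) ≤ y' := by exact_mod_cast hb
  have hL : L0 = (10 : ℝ) ^ 250 := rfl
  rw [hL] at hs
  have h250 : (0 : ℝ) < (10 : ℝ) ^ 250 := by positivity
  have hyR : (10 : ℝ) ^ 250 ≤ y := by
    refine le_trans ?_ hs
    have : (10 : ℝ) ^ 250 * 1 ≤ 10 ^ 250 * y' :=
      mul_le_mul_of_nonneg_left (by linarith) h250.le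
    linarith
  have hy0 : (0 : ℝ) < y := lt_of_lt_of_le h250 hyR
  have hy : 0 < y := by exact_mod_cast hy0
  refine ⟨hy', hy, ?_, ?_, ?_, ?_, ?_, hyR⟩
  · rcases Nat.eq_zero_or_pos Lm with h | h
    · rw [h] at hu
      omega
    · exact h
  · unfold Vt
    omega
  · unfold Vt
    have h : y' ≤ 4 * (y' / 4) + 3 := by omega
    have h' : (y' : ℝ) ≤ 4 * ((y' / 4 : ℕ) : ℝ) + 3 := by exact_mod_cast h
    linarith
  · unfold Vt
    have h : 4 * (y' / 4) ≤ y' := by omega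
    have h' : 4 * ((y' / 4 : ℕ) : ℝ) ≤ (y' : ℝ) := by exact_mod_cast h
    linarith
  · rw [le_div_iff₀ h250]
    linarith

theorem AS_bd (Lm : ℕ) : 10 ^ 310 ≤ AS Lm := by
  unfold AS A0
  have h : (0 : ℝ) ≤ Lm := Nat.cast_nonneg _
  have e : (10 : ℝ) ^ 310 = 10 ^ 155 * 10 ^ 155 := by rw [← pow_add]
  rw [e]
  have hp : (0 : ℝ) < 10 ^ 155 * 10 ^ 155 := by positivity
  generalize (10 : ℝ) ^ 155 * 10 ^ 155 = P at hp
  nlinarith

theorem gs_bd {Lm : ℕ} {gs : ℝ} (g : GS Lm gs) : gs ≤ 1 / 10 ^ 319 := by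
  have h1 := AS_bd Lm
  have h2 := g.le
  have h3 := g.pos
  rw [le_div_iff₀ (by positivity)]
  refine le_trans ?_ h2
  refine mul_le_mul_of_nonneg_left ?_ h3.le
  calc (10 : ℝ) ^ 319 = 10 ^ 9 * 10 ^ 310 := by rw [← pow_add]
    _ ≤ 10 ^ 9 * AS Lm := mul_le_mul_of_nonneg_left h1 (by positivity)

theorem M0_aux_bb : 0 < bb ∧ bb ≤ 1 / 10 ^ 139 := by
  obtain ⟨h1, h2⟩ := bb_bd
  have h3 := ff_pos
  refine ⟨lt_of_lt_of_le (mul_pos (by norm_num) h3) h1, ?_⟩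
  refine le_trans h2 ?_
  unfold ff
  rw [mul_one_div, div_le_div_iff₀ (by positivity) (by positivity)]
  have e : (10 : ℝ) ^ 140 = 10 * 10 ^ 139 := by rw [← pow_succ']
  rw [e]
  have hp : (0 : ℝ) < 10 ^ 139 := by positivity
  generalize (10 : ℝ) ^ 139 = P at hp
  nlinarith

theorem M0_aux_small : (1 : ℝ) / 10 ^ 139 ≤ 1 / 1000 ∧ (1 : ℝ) / 10 ^ 319 ≤ 1 / 1000 := by
  constructor
  · rw [one_div_le_one_div (by positivity) (by norm_num)]
    norm_num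
  · rw [one_div_le_one_div (by positivity) (by norm_num)]
    calc (1000 : ℝ) = 10 ^ 3 := by norm_num
      _ ≤ 10 ^ 319 := pow_le_pow_right₀ (by norm_num) (by norm_num)

theorem phs_bd {Lm : ℕ} {gs : ℝ} (g : GS Lm gs) :
    99 / 100 ≤ phs gs ∧ phs gs ≤ 1 ∧ 1 + bb ≤ 1 / phs gs ∧ 1 / phs gs ^ 2 ≤ 103 / 100 := by
  obtain ⟨h1, h2⟩ := M0_aux_bb
  have h3 := g.pos
  have h4 := gs_bd g
  obtain ⟨h5, h6⟩ := M0_aux_small
  have h7 : bb ≤ 1 / 1000 := h2.trans h5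
  have h8 : gs ≤ 1 / 1000 := h4.trans h6
  have hp : 99 / 100 ≤ phs gs := by
    unfold phs
    linarith
  refine ⟨hp, ?_, ?_, ?_⟩
  · unfold phs
    linarith
  · rw [le_div_iff₀ (by linarith)]
    unfold phs
    nlinarith
  · rw [div_le_div_iff₀ (by positivity) (by norm_num)]
    nlinarith

theorem th_bd {Lm y' y : ℕ} (t : TG Lm y' y) : 99 / 100 ≤ th y ∧ th y < 1 := by
  obtain ⟨-, -, -, -, -, -, -, hy⟩ := t.facts
  have h250 : (100 : ℝ) ≤ 10 ^ 250 := by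
    calc (100 : ℝ) = 10 ^ 2 := by norm_num
      _ ≤ 10 ^ 250 := pow_le_pow_right₀ (by norm_num) (by norm_num)
  have hy0 : (100 : ℝ) ≤ y := h250.trans hy
  unfold th
  constructor
  · have : (1 : ℝ) / y ≤ 1 / 100 := one_div_le_one_div_of_le (by norm_num) hy0
    linarith
  · have : (0 : ℝ) < 1 / y := by positivity
    linarith

theorem M0_aux_mul_nn {A B : PS} (hA : ∀ n, 0 ≤ coeff n A) (hB : ∀ n, 0 ≤ coeff n B) (n : ℕ) :
    0 ≤ coeff n (A * B) := by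
  rw [coeff_mul]
  exact Finset.sum_nonneg fun p _ => mul_nonneg (hA _) (hB _)

theorem M0_aux_X_nn (m n : ℕ) : (0 : ℝ) ≤ coeff n (X ^ m : PS) := by
  rw [coeff_X_pow]
  split_ifs <;> norm_num

theorem T2_nn (y' y n : ℕ) : 0 ≤ coeff n (T2 y' y) := by
  unfold T2
  rw [pow_two]
  exact M0_aux_mul_nn (M0_aux_X_nn y) (M0_aux_mul_nn (U_nn _) (U_nn _)) n

theorem Us_nn (y' y n : ℕ) : 0 ≤ coeff n (Us y' y) := by
  unfold Us
  exact M0_aux_mul_nn (M0_aux_X_nn y) (U_nn _) n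

theorem M0_aux_low (A : PS) (m : ℕ) : ∀ n < m, coeff n (X ^ m * A) = 0 := by
  intro n hn
  rw [coeff_X_pow_mul', if_neg (by omega)]

theorem M0_aux_hi (A : PS) (m k : ℕ) : coeff (m + k) (X ^ m * A) = coeff k A := by
  rw [coeff_X_pow_mul', if_pos (by omega), Nat.add_sub_cancel_left]

theorem Eg_nn {Lm y' y : ℕ} (t : TG Lm y' y) (n : ℕ) : 0 ≤ coeff n (Eg y' y) := by
  obtain ⟨h1, h2⟩ := th_bd t
  unfold Eg
  refine M0_aux_mul_nn (M0_aux_X_nn _) (fun k => ?_) n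
  rw [coeff_mk]
  have : (0 : ℝ) ≤ th y := by linarith
  positivity

theorem T2_low (y' y : ℕ) : ∀ n < y, coeff n (T2 y' y) = 0 := M0_aux_low _ _

theorem Us_low (y' y : ℕ) : ∀ n < y, coeff n (Us y' y) = 0 := M0_aux_low _ _

theorem Eg_low (y' y : ℕ) : ∀ n < n1 y' y, coeff n (Eg y' y) = 0 := M0_aux_low _ _

theorem G2_low (y' y : ℕ) : ∀ n < n1 y' y, coeff n (G2 y' y) = 0 := M0_aux_low _ _

theorem M0_aux_Cpl_X (m : ℕ) : Cpl (X ^ m : PS) (m + 1) 1 := by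
  constructor
  · intro n hn
    rw [coeff_X_pow, if_neg (by omega)]
  · rw [Finset.sum_range_succ, Finset.sum_eq_zero, coeff_X_pow, if_pos rfl, zero_add]
    intro j hj
    rw [Finset.mem_range] at hj
    rw [coeff_X_pow, if_neg (by omega)]

theorem M0_aux_Cpl_mul {A B : PS} {a b : ℕ} (ha : 0 < a) (hb : 0 < b) (hA : Cpl A a 1)
    (hB : Cpl B b 1) : Cpl (A * B) (a + b - 1) 1 := by
  obtain ⟨a', rfl⟩ : ∃ a', a = a' + 1 := ⟨a - 1, by omega⟩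
  obtain ⟨b', rfl⟩ : ∃ b', b = b' + 1 := ⟨b - 1, by omega⟩
  have h := Cpl_mul hA hB
  rw [one_mul] at h
  exact Cpl_mono h (by omega)

theorem Cpl_T2 {Lm y' y : ℕ} (t : TG Lm y' y) : Cpl (T2 y' y) (n1 y' y) 1 := by
  obtain ⟨-, -, -, hV, -⟩ := t.facts
  have hU := Cpl_U hV
  have h2 := M0_aux_Cpl_mul hV hV hU hU
  have h3 := M0_aux_Cpl_mul (Nat.succ_pos y) (by omega) (M0_aux_Cpl_X y) h2
  unfold T2
  rw [pow_two]
  refine Cpl_mono h3 ?_
  unfold n1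
  omega

theorem Cpl_Us {Lm y' y : ℕ} (t : TG Lm y' y) : Cpl (Us y' y) (n1 y' y) 1 := by
  obtain ⟨-, -, -, hV, -⟩ := t.facts
  have hU : Cpl (U (2 * Vt y')) (2 * Vt y') 1 := Cpl_U (by omega)
  have h3 := M0_aux_Cpl_mul (Nat.succ_pos y) (by omega) (M0_aux_Cpl_X y) hU
  unfold Us
  refine Cpl_mono h3 ?_
  unfold n1
  omega

theorem T2_le {Lm y' y : ℕ} (t : TG Lm y' y) (n : ℕ) : coeff n (T2 y' y) ≤ 1 / Vt y' := by
  obtain ⟨-, -, -, hV, -⟩ := t.facts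
  have hVR : (0 : ℝ) < Vt y' := by exact_mod_cast hV
  unfold T2
  rw [coeff_X_pow_mul']
  split_ifs with h
  · rw [pow_two, coeff_mul]
    have h1 : ∑ p ∈ antidiagonal (n - y), coeff p.1 (U (Vt y')) * coeff p.2 (U (Vt y')) ≤
        ∑ p ∈ antidiagonal (n - y), coeff p.1 (U (Vt y')) * (1 / Vt y') := by
      refine Finset.sum_le_sum fun p _ => ?_
      refine mul_le_mul_of_nonneg_left ?_ (U_nn _ _)
      rw [coeff_U]
      split_ifs
      · exact le_rfl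
      · positivity
    refine h1.trans ?_
    rw [← Finset.sum_mul]
    have h2 : ∑ p ∈ antidiagonal (n - y), coeff p.1 (U (Vt y')) ≤ 1 := by
      rw [Finset.Nat.sum_antidiagonal_eq_sum_range_succ (fun i _ => coeff i (U (Vt y')))]
      have h3 := Bd_U (Vt y') (n - y + 1)
      refine le_trans (Finset.sum_le_sum fun j _ => ?_) h3
      rw [one_pow, mul_one]
      exact le_abs_self _
    have h4 : (0 : ℝ) ≤ 1 / Vt y' := by positivity
    calc (∑ p ∈ antidiagonal (n - y), coeff p.1 (U (Vt y'))) * (1 / Vt y')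
        ≤ 1 * (1 / Vt y') := mul_le_mul_of_nonneg_right h2 h4
      _ = 1 / Vt y' := one_mul _
  · positivity

theorem Us_coeff {Lm y' y n : ℕ} (t : TG Lm y' y) (h1 : y ≤ n) (h2 : n < n1 y' y) :
    coeff n (Us y' y) = 1 / (2 * Vt y') := by
  obtain ⟨-, -, -, hV, -⟩ := t.facts
  unfold Us
  unfold n1 at h2
  rw [coeff_X_pow_mul', if_pos h1, coeff_U, if_pos (by omega)]
  push_cast
  rfl

theorem Eg_coeff {y' y n : ℕ} (h : n1 y' y ≤ n) :
    coeff n (Eg y' y) = 1 / y * th y ^ (n - n1 y' y) := by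
  unfold Eg
  rw [coeff_X_pow_mul', if_pos h, coeff_mk]

theorem M0_aux_sum {Lm y' y : ℕ} (t : TG Lm y' y) (k : ℕ) :
    ∑ j ∈ range (n1 y' y + k), coeff j (Eg y' y) = 1 - th y ^ k := by
  rw [Finset.sum_range_add]
  have h0 : ∑ x ∈ range (n1 y' y), coeff x (Eg y' y) = 0 :=
    Finset.sum_eq_zero fun j hj => Eg_low y' y j (Finset.mem_range.mp hj)
  rw [h0, zero_add]
  induction k with
  | zero => simp
  | succ k ih =>
    rw [Finset.sum_range_succ, ih, Eg_coeff (by omega), Nat.add_sub_cancel_left]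
    have : (1 : ℝ) / y = 1 - th y := by unfold th; ring
    rw [this]
    ring

theorem Cum_Eg {Lm y' y n : ℕ} (t : TG Lm y' y) (h : n1 y' y ≤ n + 1) :
    Cum (Eg y' y) n = 1 - th y ^ (n + 1 - n1 y' y) := by
  unfold Cum
  have h1 := M0_aux_sum t (n + 1 - n1 y' y)
  rwa [Nat.add_sub_cancel' h] at h1

theorem Bd_Eg {Lm y' y : ℕ} (t : TG Lm y' y) : Bd 1 (Eg y' y) 1 := by
  intro N
  obtain ⟨h1, h2⟩ := th_bd t
  have h3 : ∑ n ∈ range N, |coeff n (Eg y' y)| * (1 : ℝ) ^ n ≤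
      ∑ n ∈ range (n1 y' y + N), |coeff n (Eg y' y)| * (1 : ℝ) ^ n := by
    refine Finset.sum_le_sum_of_subset_of_nonneg ?_ ?_
    · intro j hj
      rw [Finset.mem_range] at hj ⊢
      omega
    · intro j _ _
      positivity
  refine h3.trans ?_
  have h4 : ∑ n ∈ range (n1 y' y + N), |coeff n (Eg y' y)| * (1 : ℝ) ^ n =
      ∑ n ∈ range (n1 y' y + N), coeff n (Eg y' y) := by
    refine Finset.sum_congr rfl fun j _ => ?_
    rw [one_pow, mul_one, abs_of_nonneg (Eg_nn t j)]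
  rw [h4, M0_aux_sum t N]
  have : (0 : ℝ) ≤ th y ^ N := pow_nonneg (by linarith) _
  linarith

theorem M0_aux_Bd_X (m : ℕ) : Bd 1 (X ^ m : PS) 1 := by
  have h := Bd_Xpow (r := 1) (by norm_num) m
  rwa [one_pow] at h

theorem Bd_nab_T2 {Lm y' y : ℕ} (t : TG Lm y' y) : Bd 1 (nab * T2 y' y) (2 / Vt y') := by
  have h := Bd_mul (r := 1) (by norm_num) (M0_aux_Bd_X y)
    (Bd_mul (r := 1) (by norm_num) (Bd_nab_U (Vt y')) (Bd_U (Vt y')))
  have e : nab * T2 y' y = X ^ y * (nab * U (Vt y') * U (Vt y')) := by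
    unfold T2
    ring
  rw [e]
  rwa [one_mul, mul_one] at h

theorem Bd_nab2_T2 {Lm y' y : ℕ} (t : TG Lm y' y) :
    Bd 1 (nab ^ 2 * T2 y' y) (4 / (Vt y' : ℝ) ^ 2) := by
  have h := Bd_mul (r := 1) (by norm_num) (M0_aux_Bd_X y)
    (Bd_mul (r := 1) (by norm_num) (Bd_nab_U (Vt y')) (Bd_nab_U (Vt y')))
  have e : nab ^ 2 * T2 y' y = X ^ y * (nab * U (Vt y') * (nab * U (Vt y'))) := by
    unfold T2
    ring
  rw [e]
  have e2 : (4 : ℝ) / (Vt y' : ℝ) ^ 2 = 1 * (2 / (Vt y' : ℝ) * (2 / (Vt y' : ℝ))) := by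
    ring
  rw [e2]
  exact h

theorem Bd_nab_Us {Lm y' y : ℕ} (t : TG Lm y' y) : Bd 1 (nab * Us y' y) (1 / Vt y') := by
  have h := Bd_mul (r := 1) (by norm_num) (M0_aux_Bd_X y) (Bd_nab_U (2 * Vt y'))
  have e : nab * Us y' y = X ^ y * (nab * U (2 * Vt y')) := by
    unfold Us
    ring
  rw [e]
  have e2 : (1 : ℝ) / (Vt y' : ℝ) = 1 * (2 / ((2 * Vt y' : ℕ) : ℝ)) := by
    push_cast
    rw [one_mul]
    rw [show (2 : ℝ) / (2 * (Vt y' : ℝ)) = (2 * 1) / (2 * (Vt y' : ℝ)) by ring,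
      mul_div_mul_left _ _ (by norm_num : (2 : ℝ) ≠ 0)]
  rw [e2]
  exact h

theorem sq_Eg {Lm y' y : ℕ} (t : TG Lm y' y) :
    (2 : ℝ) • Eg y' y - sq (Eg y' y) = G2 y' y := by
  ext n
  rw [map_sub, coeff_smul, coeff_sq, smul_eq_mul]
  rcases Nat.lt_or_ge n (n1 y' y) with h | h
  · rw [Eg_low y' y n h, G2_low y' y n h]
    ring
  · obtain ⟨k, rfl⟩ := Nat.exists_eq_add_of_le h
    rw [Cum_Eg t (by omega), Eg_coeff h, Nat.add_sub_cancel_left,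
      show n1 y' y + k + 1 - n1 y' y = k + 1 by omega]
    unfold G2
    rw [M0_aux_hi, coeff_mk]
    have : (1 : ℝ) / y = 1 - th y := by unfold th; ring
    rw [this, ← pow_mul, mul_comm 2 k, pow_mul, pow_succ (th y) k]
    ring

end MP18
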