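import Pool.Agent.Lib.MP_18566a_pr.T.M0

set_option autoImplicit false

namespace MP18

open Finset PowerSeries

theorem M0b_aux_bb : 0 < bb ∧ bb ≤ 1 / 10 ^ 139 := by
  obtain ⟨h1, h2⟩ := bb_bd
  have h3 := ff_pos
  refine ⟨lt_of_lt_of_le (mul_pos (by norm_num) h3) h1, ?_⟩
  refine le_trans h2 ?_
  unfold ff
  rw [mul_one_div, div_le_div_iff₀ (by positivity) (by positivity)]
  have e : (10 : ℝ) ^ 140 = 10 * 10 ^ 139 := by rw [← pow_succ']
  rw [e]
  have hp : (0 : ℝ) < 10 ^ 139 := by positivity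
  generalize (10 : ℝ) ^ 139 = P at hp
  nlinarith

theorem M0b_aux_small : (1 : ℝ) / 10 ^ 139 ≤ 1 / 1000 ∧ (1 : ℝ) / 10 ^ 319 ≤ 1 / 1000 := by
  constructor
  · rw [one_div_le_one_div (by positivity) (by norm_num)]
    norm_num
  · rw [one_div_le_one_div (by positivity) (by norm_num)]
    calc (1000 : ℝ) = 10 ^ 3 := by norm_num
      _ ≤ 10 ^ 319 := pow_le_pow_right₀ (by norm_num) (by norm_num)

theorem M0b_aux_coeff (gs : ℝ) (a0 : PS) (y' y n : ℕ) : coeff n (aS gs a0 y' y) =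
    phs gs * coeff n a0 + (bb * coeff n (T2 y' y) + gs * coeff n (Us y' y) +
      gs * coeff n (Eg y' y)) := by
  unfold aS QT Qc
  simp only [map_add, coeff_smul, smul_eq_mul]

theorem M0b_aux_Cum (gs : ℝ) (a0 : PS) (y' y n : ℕ) : Cum (aS gs a0 y' y) n =
    phs gs * Cum a0 n + (bb * Cum (T2 y' y) n + gs * Cum (Us y' y) n +
      gs * Cum (Eg y' y) n) := by
  unfold Cum
  rw [Finset.mul_sum, Finset.mul_sum, Finset.mul_sum, Finset.mul_sum, ← Finset.sum_add_distrib,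
    ← Finset.sum_add_distrib, ← Finset.sum_add_distrib]
  exact Finset.sum_congr rfl fun j _ => M0b_aux_coeff gs a0 y' y j

theorem M0b_aux_Cum0 {A : PS} {m n : ℕ} (h : ∀ k < m, coeff k A = 0) (hn : n < m) :
    Cum A n = 0 := by
  unfold Cum
  refine Finset.sum_eq_zero fun j hj => h j ?_
  rw [Finset.mem_range] at hj
  omega

section
variable {Lm y' y n : ℕ} {gs : ℝ} {a0 : PS}

theorem aS_nn (t : TG Lm y' y) (g : GS Lm gs) (h : ∀ j, 0 ≤ coeff j a0) (n : ℕ) :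
    0 ≤ coeff n (aS gs a0 y' y) := by
  rw [M0b_aux_coeff]
  obtain ⟨h1, -⟩ := phs_bd g
  have h2 : 0 ≤ phs gs := by linarith
  have h3 := M0b_aux_bb.1.le
  have h4 := g.pos.le
  exact add_nonneg (mul_nonneg h2 (h n)) (add_nonneg (add_nonneg (mul_nonneg h3 (T2_nn _ _ _))
    (mul_nonneg h4 (Us_nn _ _ _))) (mul_nonneg h4 (Eg_nn t n)))

theorem aS_low (gs : ℝ) (a0 : PS) (hn : n < y) :
    coeff n (aS gs a0 y' y) = phs gs * coeff n a0 := by
  have h1 : n < n1 y' y := lt_of_lt_of_le hn (by unfold n1; omega)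
  rw [M0b_aux_coeff, T2_low y' y n hn, Us_low y' y n hn, Eg_low y' y n h1]
  ring

theorem aS_mid (t : TG Lm y' y) (g : GS Lm gs) (c : Cpl a0 y 1) (h1 : y ≤ n)
    (h2 : n < n1 y' y) :
    gs / (2 * Vt y') ≤ coeff n (aS gs a0 y' y) ∧ coeff n (aS gs a0 y' y) ≤ 1 / Vt y' := by
  obtain ⟨-, -, -, hV, -⟩ := t.facts
  have hVR : (0 : ℝ) < Vt y' := by exact_mod_cast hV
  have hb := M0b_aux_bb.1
  have hg := g.pos
  have hs : bb + gs / 2 ≤ 1 := by
    have h5 := M0b_aux_bb.2.trans M0b_aux_small.1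
    have h6 := (gs_bd g).trans M0b_aux_small.2
    linarith
  rw [M0b_aux_coeff, c.1 n h1, Us_coeff t h1 h2, Eg_low y' y n h2]
  have h3 := T2_nn y' y n
  have h4 := T2_le t n
  have e : gs / (2 * (Vt y' : ℝ)) = gs * (1 / (2 * (Vt y' : ℝ))) := by ring
  constructor
  · have h5 := mul_nonneg hb.le h3
    rw [e]
    linarith
  · have h5 := mul_le_mul_of_nonneg_left h4 hb.le
    have h6 : bb * (1 / (Vt y' : ℝ)) + gs * (1 / (2 * (Vt y' : ℝ))) =
        (bb + gs / 2) * (1 / (Vt y' : ℝ)) := by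
      field_simp
    have h7 : (bb + gs / 2) * (1 / (Vt y' : ℝ)) ≤ 1 * (1 / (Vt y' : ℝ)) :=
      mul_le_mul_of_nonneg_right hs (by positivity)
    linarith

theorem aS_high (t : TG Lm y' y) (c : Cpl a0 y 1) (h : n1 y' y ≤ n) :
    coeff n (aS gs a0 y' y) = gs / y * th y ^ (n - n1 y' y) := by
  have hy : y ≤ n := le_trans (by unfold n1; omega) h
  rw [M0b_aux_coeff, c.1 n hy, (Cpl_T2 t).1 n h, (Cpl_Us t).1 n h, Eg_coeff h]
  ring

theorem Cum_aS_low (gs : ℝ) (a0 : PS) (hn : n < y) :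
    Cum (aS gs a0 y' y) n = phs gs * Cum a0 n := by
  have h1 : n < n1 y' y := lt_of_lt_of_le hn (by unfold n1; omega)
  rw [M0b_aux_Cum, M0b_aux_Cum0 (T2_low y' y) hn, M0b_aux_Cum0 (Us_low y' y) hn,
    M0b_aux_Cum0 (Eg_low y' y) h1]
  ring

theorem Cum_aS_high (t : TG Lm y' y) (c : Cpl a0 y 1) (h : n1 y' y ≤ n + 1) :
    Cum (aS gs a0 y' y) n = 1 - gs * th y ^ (n + 1 - n1 y' y) := by
  have hy : y ≤ n + 1 := le_trans (by unfold n1; omega) h
  rw [M0b_aux_Cum, Cum_of_Cpl c hy, Cum_of_Cpl (Cpl_T2 t) h, Cum_of_Cpl (Cpl_Us t) h, Cum_Eg t h]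
  unfold phs
  ring

theorem Cum_aS_mid (t : TG Lm y' y) (g : GS Lm gs) (hn : ∀ j, 0 ≤ coeff j a0) (c : Cpl a0 y 1)
    (h : y ≤ n + 1) : phs gs ≤ Cum (aS gs a0 y' y) n ∧ Cum (aS gs a0 y' y) n ≤ 1 := by
  constructor
  · rw [M0b_aux_Cum, Cum_of_Cpl c h]
    have h1 : 0 ≤ Cum (T2 y' y) n := Finset.sum_nonneg fun j _ => T2_nn _ _ _
    have h2 : 0 ≤ Cum (Us y' y) n := Finset.sum_nonneg fun j _ => Us_nn _ _ _
    have h3 : 0 ≤ Cum (Eg y' y) n := Finset.sum_nonneg fun j _ => Eg_nn t _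
    have h4 := mul_nonneg M0b_aux_bb.1.le h1
    have h5 := mul_nonneg g.pos.le h2
    have h6 := mul_nonneg g.pos.le h3
    linarith
  · have h1 : Cum (aS gs a0 y' y) n ≤ Cum (aS gs a0 y' y) (n + n1 y' y) :=
      Cum_mono (aS_nn t g hn) (by omega)
    refine h1.trans ?_
    rw [Cum_aS_high t c (by omega)]
    obtain ⟨h2, -⟩ := th_bd t
    have h3 : 0 ≤ gs * th y ^ (n + n1 y' y + 1 - n1 y' y) :=
      mul_nonneg g.pos.le (pow_nonneg (by linarith) _)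
    linarith

theorem aS_sum (t : TG Lm y' y) (g : GS Lm gs) (hn : ∀ j, 0 ≤ coeff j a0) (c : Cpl a0 y 1) :
    HasSum (fun j => coeff j (aS gs a0 y' y)) 1 := by
  rw [hasSum_iff_tendsto_nat_of_nonneg (aS_nn t g hn)]
  obtain ⟨h1, h2⟩ := th_bd t
  have h3 : Filter.Tendsto (fun k : ℕ => 1 - gs * th y ^ k) Filter.atTop (nhds (1 - gs * 0)) :=
    ((tendsto_pow_atTop_nhds_zero_of_lt_one (by linarith) h2).const_mul gs).const_sub 1
  rw [mul_zero, sub_zero] at h3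
  rw [← Filter.tendsto_add_atTop_iff_nat (n1 y' y)]
  refine h3.congr fun k => ?_
  rcases Nat.eq_zero_or_pos (k + n1 y' y) with h | h
  · have hk : k = 0 := by omega
    have hn1 : n1 y' y = 0 := by omega
    obtain ⟨-, hy, -⟩ := t.facts
    unfold n1 at hn1
    omega
  · obtain ⟨m, hm⟩ : ∃ m, k + n1 y' y = m + 1 := ⟨k + n1 y' y - 1, by omega⟩
    have h4 := Cum_aS_high (gs := gs) t c (n := m) (by omega)
    unfold Cum at h4
    rw [hm, h4, ← hm, Nat.add_sub_cancel]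

end

end MP18
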