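import Pool.Agent.Lib.MP_18566a_pr.T.M0b
import Pool.Agent.Lib.MP_18566a_pr.T.A3

set_option autoImplicit false

namespace MP18

open Finset PowerSeries

theorem M1_aux_bb : 0 < bb ∧ bb ≤ 1 / 10 ^ 139 := by
  obtain ⟨h1, h2⟩ := bb_bd
  have h3 := ff_pos
  refine ⟨lt_of_lt_of_le (mul_pos (by norm_num) h3) h1, ?_⟩
  refine le_trans h2 ?_
  unfold ff
  rw [mul_one_div, div_le_div_iff₀ (by positivity) (by positivity)]
  have e : (10 : ℝ) ^ 140 = 10 * 10 ^ 139 := by rw [← pow_succ']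
  rw [e]
  have hp : (0 : ℝ) < 10 ^ 139 := by positivity
  generalize (10 : ℝ) ^ 139 = P at hp
  nlinarith

theorem M1_aux_gs {Lm : ℕ} {gs : ℝ} (g : GS Lm gs) : gs ≤ 1 / 10 ^ 139 := by
  refine (gs_bd g).trans (one_div_le_one_div_of_le (by positivity) ?_)
  exact pow_le_pow_right₀ (by norm_num) (by norm_num)

theorem M1_aux_e : (1 : ℝ) / 10 ^ 139 * 10 ^ 7 ≤ 1 / 10 ^ 132 ∧ (1 : ℝ) / 10 ^ 132 ≤ 1 / 10 ^ 100 ∧
    (1 : ℝ) / 10 ^ 139 ≤ 1 / 10 ^ 4 := by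
  refine ⟨?_, one_div_le_one_div_of_le (by positivity) (pow_le_pow_right₀ (by norm_num)
    (by norm_num)), one_div_le_one_div_of_le (by positivity) (pow_le_pow_right₀ (by norm_num)
    (by norm_num))⟩
  have e : (10 : ℝ) ^ 139 = 10 ^ 132 * 10 ^ 7 := by rw [← pow_add]
  rw [e, div_mul_eq_mul_div, one_mul, div_le_div_iff₀ (by positivity) (by positivity)]
  linarith

theorem M1_aux_Bd_X (m : ℕ) : Bd 1 (X ^ m : PS) 1 := by
  have h := Bd_Xpow (r := 1) (by norm_num) m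
  rwa [one_pow] at h

theorem M1_aux_T2 (y' y : ℕ) : Bd 1 (T2 y' y) 1 := by
  have h := Bd_mul (r := 1) (by norm_num) (M1_aux_Bd_X y)
    (Bd_pow (r := 1) (by norm_num) (Bd_U (Vt y')) 2)
  rw [one_pow, one_mul] at h
  exact h

theorem M1_aux_Us (y' y : ℕ) : Bd 1 (Us y' y) 1 := by
  have h := Bd_mul (r := 1) (by norm_num) (M1_aux_Bd_X y) (Bd_U (2 * Vt y'))
  rw [one_mul] at h
  exact h

theorem M1_aux_nab_van {A : PS} {m : ℕ} (h : ∀ n, m ≤ n → coeff n A = 0) :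
    ∀ n, m + 1 ≤ n → coeff n (nab * A) = 0 := by
  intro n hn
  obtain ⟨k, rfl⟩ : ∃ k, n = k + 1 := ⟨n - 1, by omega⟩
  unfold nab
  rw [sub_mul, one_mul, map_sub, coeff_succ_X_mul, h _ (by omega), h _ (by omega), sub_zero]

/-- the geometric series -/
theorem M1_aux_geo {r q : ℝ} (hr : 0 ≤ r) (hq : 0 ≤ q) (h : q * r < 1) :
    Bd r (PowerSeries.mk fun n => q ^ n) (1 / (1 - q * r)) := by
  intro N
  have h1 : ∑ n ∈ range N, |coeff n (PowerSeries.mk fun n => q ^ n)| * r ^ n =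
      ∑ n ∈ range N, (q * r) ^ n := by
    refine Finset.sum_congr rfl fun n _ => ?_
    rw [coeff_mk, abs_of_nonneg (pow_nonneg hq n), mul_pow]
  rw [h1]
  have h2 : 0 ≤ q * r := mul_nonneg hq hr
  rw [geom_sum_eq (ne_of_lt h), ← neg_div_neg_eq, neg_sub, neg_sub]
  have h3 : 0 < 1 - q * r := by linarith
  refine div_le_div_of_nonneg_right ?_ h3.le
  have := pow_nonneg h2 N
  linarith

theorem M1_aux_nab_geo (q : ℝ) : nab * (PowerSeries.mk fun n => q ^ n) =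
    1 - (1 - q) • (X * PowerSeries.mk fun n => q ^ n) := by
  ext n
  unfold nab
  rcases n with _ | n
  · rw [sub_mul, one_mul, map_sub, map_sub, coeff_smul]
    simp
  · rw [sub_mul, one_mul, map_sub, map_sub, coeff_smul, coeff_succ_X_mul, coeff_mk, coeff_mk,
      smul_eq_mul, coeff_one, if_neg (Nat.succ_ne_zero n), pow_succ]
    ring

/-- norm of the shifted geometric law -/
theorem M1_aux_geo_nab {r q c K L : ℝ} (m : ℕ) (hr : 0 ≤ r) (hq : 0 ≤ q) (hc : 0 ≤ c)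
    (hq1 : q ≤ 1) (h : q * r < 1) (hm : r ^ m ≤ K) (hL : 1 / (1 - q * r) ≤ L) :
    Bd r (X ^ m * PowerSeries.mk fun n => c * q ^ n) (c * (K * L)) ∧
    Bd r (nab * (X ^ m * PowerSeries.mk fun n => c * q ^ n))
      (c * (K * (1 + (1 - q) * (r * L)))) := by
  have hK : 0 ≤ K := le_trans (pow_nonneg hr m) hm
  have hG := Bd_mono (M1_aux_geo hr hq h) hL
  have hX := Bd_mono (Bd_Xpow hr m) hm
  have e : (X ^ m * PowerSeries.mk fun n => c * q ^ n : PS) =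
      c • (X ^ m * PowerSeries.mk fun n => q ^ n) := by
    rw [← mul_smul_comm]
    congr 1
  constructor
  · rw [e]
    have h1 := Bd_smul c (Bd_mul hr hX hG)
    rwa [abs_of_nonneg hc] at h1
  · have e2 : nab * (X ^ m * PowerSeries.mk fun n => c * q ^ n) =
        c • (X ^ m * (1 - (1 - q) • (X * PowerSeries.mk fun n => q ^ n))) := by
      rw [e, mul_smul_comm, ← M1_aux_nab_geo]
      congr 1
      exact mul_left_comm _ _ _
    rw [e2]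
    have h1 := Bd_smul (1 - q) (Bd_mul hr (Bd_X hr) hG)
    rw [abs_of_nonneg (by linarith)] at h1
    have h2 := Bd_smul c (Bd_mul hr hX (Bd_sub hr (Bd_one hr) h1))
    rwa [abs_of_nonneg hc] at h2

section
variable {Lm y' y n : ℕ} {gs r : ℝ} {a0 A : PS}

noncomputable def Mc (y' y : ℕ) : PS := bb ^ 2 • ((2 : ℝ) • T2 y' y - sq (T2 y' y))
noncomputable def Rc (gs : ℝ) (y' y : ℕ) : PS :=
  (2 * (bb + 2 * gs)) • Qc gs y' y - sq (Qc gs y' y) - Mc y' y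

theorem M1_aux_y (t : TG Lm y' y) : (0 : ℝ) < y ∧ (0 : ℝ) < y' ∧ (0 : ℝ) < Vt y' ∧
    (y' : ℝ) / Vt y' ≤ 5 ∧ (y' : ℝ) / y ≤ 1 / 10 ^ 250 ∧ (1 : ℝ) / y ≤ 1 / 10 ^ 250 := by
  obtain ⟨h1, h2, -, h4, h5, -, h7, h8⟩ := t.facts
  have hy : (0 : ℝ) < y := by exact_mod_cast h2
  have hV : (0 : ℝ) < Vt y' := by exact_mod_cast h4
  refine ⟨hy, by exact_mod_cast h1, hV, ?_, ?_, ?_⟩
  · rw [div_le_iff₀ hV]
    linarith
  · rw [div_le_iff₀ hy]
    rw [div_mul_eq_mul_div, one_mul]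
    exact h7
  · exact one_div_le_one_div_of_le (by positivity) h8

theorem M1_aux_250 : (1 : ℝ) / 10 ^ 250 ≤ 1 / 10 ^ 12 :=
  one_div_le_one_div_of_le (by positivity) (pow_le_pow_right₀ (by norm_num) (by norm_num))

theorem rh_bd (t : TG Lm y' y) : 1 ≤ rh y ∧ rh y ≤ 1 + 2 / y := by
  obtain ⟨hy, -⟩ := M1_aux_y t
  unfold rh
  have e : (3 : ℝ) / (2 * y) = 3 / 2 * (1 / y) := by
    field_simp
  have e2 : (2 : ℝ) / y = 2 * (1 / y) := by ring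
  have h : (0 : ℝ) < 1 / y := by positivity
  rw [e, e2]
  constructor <;> linarith

theorem M1_aux_rpow {z : ℝ} (hz : 0 ≤ z) (h1 : 1 ≤ r) (h2 : r ≤ 1 + z) (m : ℕ) :
    r ^ m ≤ Real.exp (z * m) := by
  have h3 : r ≤ Real.exp z := by
    have := Real.add_one_le_exp z
    linarith
  calc r ^ m ≤ (Real.exp z) ^ m := pow_le_pow_left₀ (by linarith) h3 m
    _ = Real.exp (z * m) := by rw [← Real.exp_nat_mul, mul_comm]

theorem r_adm (t : TG Lm y' y) (h1 : 1 ≤ r) (h2 : r ≤ 1 + 2 / y) :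
    Adm r y' ∧ r ^ (n1 y' y + 1) ≤ 9 := by
  obtain ⟨hy, hy', hV, -, hyy, h1y⟩ := M1_aux_y t
  have h250 := M1_aux_250
  have hz : (0 : ℝ) ≤ 2 / y := by positivity
  refine ⟨⟨h1, ?_⟩, ?_⟩
  · have h3 := M1_aux_rpow hz h1 h2 y'
    have h4 : 2 / (y : ℝ) * y' ≤ 1 / 10 ^ 8 := by
      have : 2 / (y : ℝ) * y' = 2 * (y' / y) := by ring
      rw [this]
      have h5 : (y' : ℝ) / y ≤ 1 / 10 ^ 12 := hyy.trans h250
      norm_num at h5 ⊢
      linarith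
    have h5 : (0 : ℝ) ≤ 2 / y * y' := by positivity
    refine h3.trans ?_
    refine (Real.exp_le_exp.mpr h4).trans ?_
    refine (Real.exp_bound_div_one_sub_of_interval (by norm_num) (by norm_num)).trans ?_
    norm_num
  · have h3 := M1_aux_rpow hz h1 h2 (n1 y' y + 1)
    obtain ⟨-, -, -, -, -, h6, -, -⟩ := t.facts
    have h4 : 2 / (y : ℝ) * ((n1 y' y + 1 : ℕ) : ℝ) ≤ 2 + 1 / 10 := by
      unfold n1
      push_cast
      have e : 2 / (y : ℝ) * (y + 2 * Vt y' + 1) = 2 + 4 * (Vt y' / y) + 2 * (1 / y) := by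
        field_simp
        ring
      rw [e]
      have h7 : (Vt y' : ℝ) / y ≤ y' / y := by
        refine div_le_div_of_nonneg_right ?_ hy.le
        linarith
      have h8 : (Vt y' : ℝ) / y ≤ 1 / 10 ^ 12 := h7.trans (hyy.trans h250)
      have h9 : (1 : ℝ) / y ≤ 1 / 10 ^ 12 := h1y.trans h250
      norm_num at h8 h9 ⊢
      linarith
    refine h3.trans ((Real.exp_le_exp.mpr h4).trans ?_)
    have e1 := Real.exp_one_lt_d9
    have e2 : Real.exp (1 / 10) ≤ 1 / (1 - 1 / 10) :=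
      Real.exp_bound_div_one_sub_of_interval (by norm_num) (by norm_num)
    have e3 : Real.exp (2 + 1 / 10) = Real.exp 1 * Real.exp 1 * Real.exp (1 / 10) := by
      rw [← Real.exp_add, ← Real.exp_add]
      norm_num
    rw [e3]
    have e4 : 0 < Real.exp 1 := Real.exp_pos _
    have e5 : Real.exp 1 * Real.exp 1 ≤ 2.72 * 2.72 :=
      mul_le_mul (by linarith) (by linarith) e4.le (by norm_num)
    have e6 : 0 < Real.exp (1 / 10) := Real.exp_pos _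
    calc Real.exp 1 * Real.exp 1 * Real.exp (1 / 10) ≤ 2.72 * 2.72 * (1 / (1 - 1 / 10)) :=
          mul_le_mul e5 e2 e6.le (by norm_num)
      _ ≤ 9 := by norm_num

theorem supp9 {C : ℝ} (t : TG Lm y' y) (h1 : 1 ≤ r) (h2 : r ≤ 1 + 2 / y)
    (hA : ∀ n, n1 y' y + 1 < n → coeff n A = 0) (hC : Bd 1 A C) : Bd r A (9 * C) := by
  intro N
  obtain ⟨-, h9⟩ := r_adm t h1 h2
  have h3 := hC N
  have h4 : ∑ n ∈ range N, |coeff n A| * r ^ n ≤ ∑ n ∈ range N, 9 * (|coeff n A| * 1 ^ n) := by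
    refine Finset.sum_le_sum fun n _ => ?_
    rcases Nat.lt_or_ge (n1 y' y + 1) n with h | h
    · rw [hA n h, abs_zero, zero_mul, zero_mul, mul_zero]
    · have h5 : r ^ n ≤ 9 := (pow_le_pow_right₀ h1 h).trans h9
      rw [one_pow, mul_one, mul_comm 9]
      exact mul_le_mul_of_nonneg_left h5 (abs_nonneg _)
  rw [← Finset.mul_sum] at h4
  linarith

theorem div_a0 (h : LB y' a0) (A : PS) : A * a0⁻¹ = A + psi a0 * (nab * A) := by
  have _h := h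
  have h1 : psi a0 * (nab * A) = (nab * psi a0) * A := by ring
  rw [h1, nab_psi]
  ring

theorem M1_aux_divbd {C D E : ℝ} (t : TG Lm y' y) (h : LB y' a0) (h1 : 1 ≤ r)
    (h2 : r ≤ 1 + 2 / y) (hA : Bd r A C) (hN : Bd r (nab * A) D)
    (hE : C + 10 ^ 4 * y' * D ≤ E) : Bd r (A * a0⁻¹) E := by
  have hr : 0 ≤ r := by linarith
  rw [div_a0 h A]
  exact Bd_mono (Bd_add hr hA (Bd_mul hr (h.ps r (r_adm t h1 h2).1) hN)) hE

theorem M1_aux_Mc_van (t : TG Lm y' y) : ∀ n, n1 y' y ≤ n → coeff n (Mc y' y) = 0 := by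
  intro n hn
  unfold Mc
  rw [coeff_smul, map_sub, coeff_smul, coeff_sq, (Cpl_T2 t).1 n hn]
  simp

theorem M1_aux_Mc1 : Bd 1 (Mc y' y) (4 * bb ^ 2) := by
  have h1 := M1_aux_T2 y' y
  have h2 : Bd 1 (sq (T2 y' y)) (2 * 1 * 1) := Bd_sq (by norm_num) h1 h1
  have h3 := Bd_smul (bb ^ 2) (Bd_sub (r := 1) (by norm_num) (Bd_smul 2 h1) h2)
  refine Bd_mono h3 (le_of_eq ?_)
  rw [abs_of_nonneg (sq_nonneg bb), abs_of_pos (by norm_num : (0 : ℝ) < 2)]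
  ring

theorem M1_aux_Mc2 (t : TG Lm y' y) : Bd 1 (nab * Mc y' y) (12 / Vt y' * bb ^ 2) := by
  have h1 := M1_aux_T2 y' y
  have h2 := Bd_nab_sq h1 (Bd_nab_T2 t)
  have h3 := Bd_smul (bb ^ 2) (Bd_sub (r := 1) (by norm_num) (Bd_smul 2 (Bd_nab_T2 t)) h2)
  have e : nab * Mc y' y = bb ^ 2 • ((2 : ℝ) • (nab * T2 y' y) - nab * sq (T2 y' y)) := by
    unfold Mc
    rw [mul_smul_comm, mul_sub, mul_smul_comm]
  rw [e]
  refine Bd_mono h3 (le_of_eq ?_)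
  rw [abs_of_nonneg (sq_nonneg bb), abs_of_pos (by norm_num : (0 : ℝ) < 2)]
  ring

theorem M1_aux_Mc3 (t : TG Lm y' y) : Bd 1 (nab * (nab * Mc y' y)) (40 / Vt y' ^ 2 * bb ^ 2) := by
  have h1 := M1_aux_T2 y' y
  have h2 := Bd_nab2_sq h1 (Bd_nab_T2 t) (Bd_nab2_T2 t)
  have h3 := Bd_smul (bb ^ 2) (Bd_sub (r := 1) (by norm_num) (Bd_smul 2 (Bd_nab2_T2 t)) h2)
  have e : nab * (nab * Mc y' y) =
      bb ^ 2 • ((2 : ℝ) • (nab ^ 2 * T2 y' y) - nab ^ 2 * sq (T2 y' y)) := by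
    unfold Mc
    rw [← mul_assoc, ← pow_two, mul_smul_comm, mul_sub, mul_smul_comm]
  rw [e]
  refine Bd_mono h3 (le_of_eq ?_)
  rw [abs_of_nonneg (sq_nonneg bb), abs_of_pos (by norm_num : (0 : ℝ) < 2)]
  ring

theorem Mc_bd (t : TG Lm y' y) (h : LB y' a0) (h1 : 1 ≤ r) (h2 : r ≤ 1 + 2 / y) :
    Bd r (Mc y' y * a0⁻¹) (10 ^ 7 * bb ^ 2) ∧
    Bd r (nab * (Mc y' y * a0⁻¹)) (10 ^ 8 * bb ^ 2 / y') := by
  obtain ⟨hy, hy', hV, h5, -, -⟩ := M1_aux_y t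
  have v0 := M1_aux_Mc_van t
  have v1 := M1_aux_nab_van v0
  have v2 := M1_aux_nab_van v1
  have b0 := supp9 t h1 h2 (fun n hn => v0 n (by omega)) M1_aux_Mc1
  have b1 := supp9 t h1 h2 (fun n hn => v1 n (by omega)) (M1_aux_Mc2 t)
  have b2 := supp9 t h1 h2 (fun n hn => v2 n (by omega)) (M1_aux_Mc3 t)
  have hb : 0 ≤ bb ^ 2 := sq_nonneg bb
  constructor
  · refine M1_aux_divbd t h h1 h2 b0 b1 ?_
    have e : 9 * (4 * bb ^ 2) + 10 ^ 4 * (y' : ℝ) * (9 * (12 / Vt y' * bb ^ 2)) =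
        (36 + 1080000 * (y' / Vt y')) * bb ^ 2 := by ring
    rw [e]
    refine mul_le_mul_of_nonneg_right ?_ hb
    linarith
  · have e0 : nab * (Mc y' y * a0⁻¹) = (nab * Mc y' y) * a0⁻¹ := by ring
    rw [e0]
    refine M1_aux_divbd t h h1 h2 b1 b2 ?_
    have e : 9 * (12 / Vt y' * bb ^ 2) + 10 ^ 4 * (y' : ℝ) * (9 * (40 / Vt y' ^ 2 * bb ^ 2)) =
        (108 * (y' / Vt y') + 3600000 * (y' / Vt y') ^ 2) * (bb ^ 2 / y') := by
      field_simp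
      ring
    rw [e, mul_div_assoc]
    refine mul_le_mul_of_nonneg_right ?_ (by positivity)
    have h0 : 0 ≤ (y' : ℝ) / Vt y' := by positivity
    nlinarith

theorem M1_aux_nab_rescale (r : ℝ) (M : PS) :
    nab * rescale r M = rescale r (nab * M) + (r - 1) • (X * rescale r M) := by
  ext n
  unfold nab
  rcases n with _ | n
  · rw [sub_mul, one_mul, sub_mul, one_mul, map_sub, map_add, coeff_smul, coeff_rescale,
      coeff_rescale, map_sub]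
    simp
  · rw [sub_mul, one_mul, sub_mul, one_mul, map_sub, map_add, coeff_smul, coeff_succ_X_mul,
      coeff_rescale, coeff_rescale, coeff_rescale, map_sub, coeff_succ_X_mul, smul_eq_mul,
      pow_succ]
    ring

theorem Mc_coef (t : TG Lm y' y) (h : LB y' a0) (h1 : 1 ≤ r) (h2 : r ≤ 1 + 2 / y) (n : ℕ) :
    |coeff n (Mc y' y * a0⁻¹)| * r ^ n ≤ 2 * 10 ^ 8 * bb ^ 2 / y' := by
  obtain ⟨hy, hy', hV, h5, hyy, -⟩ := M1_aux_y t
  obtain ⟨hM, hN⟩ := Mc_bd t h h1 h2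
  have hr : 0 ≤ r := by linarith
  have hM' := (Bd_rescale_iff hr).mpr hM
  have hN' := (Bd_rescale_iff hr).mpr hN
  have hX : Bd 1 (X : PS) 1 := Bd_X (by norm_num)
  have h3 := Bd_add (r := 1) (by norm_num) hN'
    (Bd_smul (r - 1) (Bd_mul (r := 1) (by norm_num) hX hM'))
  rw [← M1_aux_nab_rescale] at h3
  have h4 := Bd_nab_coeff h3 n
  rw [coeff_rescale, abs_mul, abs_of_nonneg (pow_nonneg hr n), mul_comm] at h4
  refine h4.trans ?_
  rw [abs_of_nonneg (by linarith : (0 : ℝ) ≤ r - 1), one_mul]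
  have hb : 0 ≤ bb ^ 2 := sq_nonneg bb
  have h6 : (r - 1) * (10 ^ 7 * bb ^ 2) ≤ 2 / y * (10 ^ 7 * bb ^ 2) :=
    mul_le_mul_of_nonneg_right (by linarith) (by positivity)
  have h7 : (2 : ℝ) / y * (10 ^ 7 * bb ^ 2) = (y' / y) * (2 * 10 ^ 7) * (bb ^ 2 / y') := by
    field_simp
  have h8 : (y' : ℝ) / y ≤ 1 := by
    have := M1_aux_250
    norm_num at this ⊢
    linarith
  have h9 : (y' / y) * (2 * 10 ^ 7) * (bb ^ 2 / y') ≤ 10 ^ 8 * (bb ^ 2 / y') := by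
    refine mul_le_mul_of_nonneg_right ?_ (by positivity)
    linarith
  have e : 2 * 10 ^ 8 * bb ^ 2 / (y' : ℝ) = 10 ^ 8 * bb ^ 2 / y' + 10 ^ 8 * (bb ^ 2 / y') := by
    ring
  rw [e]
  linarith

/-- the cross term -/
noncomputable def M1_cr (y' y : ℕ) : PS := PowerSeries.mk fun n =>
  coeff n (T2 y' y) * Cum (Us y' y) n + (Cum (T2 y' y) n - coeff n (T2 y' y)) * coeff n (Us y' y)

theorem M1_aux_Cum_smul (c : ℝ) (A : PS) (n : ℕ) : Cum (c • A) n = c * Cum A n := by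
  unfold Cum
  rw [Finset.mul_sum]
  exact Finset.sum_congr rfl fun j _ => by rw [coeff_smul, smul_eq_mul]

theorem M1_aux_sqQc (gs : ℝ) (y' y : ℕ) : sq (Qc gs y' y) = bb ^ 2 • sq (T2 y' y) +
    gs ^ 2 • sq (Us y' y) + (2 * bb * gs) • M1_cr y' y := by
  unfold Qc
  rw [sq_add, sq_smul, sq_smul]
  congr 1
  ext n
  unfold M1_cr
  rw [map_nsmul, coeff_smul, coeff_mk, coeff_mk, coeff_smul, coeff_smul, M1_aux_Cum_smul,
    M1_aux_Cum_smul]
  simp only [smul_eq_mul, nsmul_eq_mul]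
  push_cast
  ring

theorem M1_aux_cr2 (y' y : ℕ) : M1_cr y' y = (1 / 2 : ℝ) • ((4 : ℝ) •
    sq ((1 / 2 : ℝ) • (T2 y' y + Us y' y)) - sq (T2 y' y) - sq (Us y' y)) := by
  rw [sq_smul, sq_add]
  ext n
  unfold M1_cr
  simp only [coeff_smul, map_sub, map_add, map_nsmul]
  rw [coeff_mk, nsmul_eq_mul]
  simp only [smul_eq_mul]
  push_cast
  ring

theorem M1_aux_cr_van (t : TG Lm y' y) : ∀ n, n1 y' y ≤ n → coeff n (M1_cr y' y) = 0 := by
  intro n hn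
  unfold M1_cr
  rw [coeff_mk, (Cpl_T2 t).1 n hn, (Cpl_Us t).1 n hn]
  ring

theorem M1_aux_H : Bd 1 ((1 / 2 : ℝ) • (T2 y' y + Us y' y)) 1 := by
  have h := Bd_smul (1 / 2) (Bd_add (r := 1) (by norm_num) (M1_aux_T2 y' y) (M1_aux_Us y' y))
  refine Bd_mono h (le_of_eq ?_)
  rw [abs_of_pos (by norm_num : (0 : ℝ) < 1 / 2)]
  norm_num

theorem M1_aux_H2 (t : TG Lm y' y) :
    Bd 1 (nab * ((1 / 2 : ℝ) • (T2 y' y + Us y' y))) (3 / 2 * (1 / Vt y')) := by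
  have h := Bd_smul (1 / 2) (Bd_add (r := 1) (by norm_num) (Bd_nab_T2 t) (Bd_nab_Us t))
  have e : nab * ((1 / 2 : ℝ) • (T2 y' y + Us y' y)) =
      (1 / 2 : ℝ) • (nab * T2 y' y + nab * Us y' y) := by
    rw [mul_smul_comm, mul_add]
  rw [e]
  refine Bd_mono h (le_of_eq ?_)
  rw [abs_of_pos (by norm_num : (0 : ℝ) < 1 / 2)]
  ring

theorem M1_aux_cr_bd : Bd 1 (M1_cr y' y) 6 := by
  have hT := M1_aux_T2 y' y
  have hU := M1_aux_Us y' y
  have hH := M1_aux_H (y' := y') (y := y)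
  have h := Bd_smul (1 / 2) (Bd_sub (r := 1) (by norm_num) (Bd_sub (r := 1) (by norm_num)
    (Bd_smul 4 (Bd_sq (by norm_num) hH hH)) (Bd_sq (by norm_num) hT hT))
    (Bd_sq (by norm_num) hU hU))
  rw [M1_aux_cr2]
  refine Bd_mono h (le_of_eq ?_)
  rw [abs_of_pos (by norm_num : (0 : ℝ) < 1 / 2), abs_of_pos (by norm_num : (0 : ℝ) < 4)]
  norm_num

theorem M1_aux_cr_nab (t : TG Lm y' y) : Bd 1 (nab * M1_cr y' y) (18 * (1 / Vt y')) := by
  have hT := Bd_nab_sq (M1_aux_T2 y' y) (Bd_nab_T2 t)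
  have hU := Bd_nab_sq (M1_aux_Us y' y) (Bd_nab_Us t)
  have hH := Bd_nab_sq (M1_aux_H (y' := y') (y := y)) (M1_aux_H2 t)
  have h := Bd_smul (1 / 2) (Bd_sub (r := 1) (by norm_num) (Bd_sub (r := 1) (by norm_num)
    (Bd_smul 4 hH) hT) hU)
  have e : nab * M1_cr y' y = (1 / 2 : ℝ) • ((4 : ℝ) •
      (nab * sq ((1 / 2 : ℝ) • (T2 y' y + Us y' y))) - nab * sq (T2 y' y) -
        nab * sq (Us y' y)) := by
    rw [M1_aux_cr2, mul_smul_comm, mul_sub, mul_sub, mul_smul_comm]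
  rw [e]
  refine Bd_mono h (le_of_eq ?_)
  rw [abs_of_pos (by norm_num : (0 : ℝ) < 1 / 2), abs_of_pos (by norm_num : (0 : ℝ) < 4)]
  ring

theorem M1_aux_Rc_eq (gs : ℝ) (y' y : ℕ) : Rc gs y' y = (4 * gs * bb) • T2 y' y +
    (2 * (bb + 2 * gs) * gs) • Us y' y - gs ^ 2 • sq (Us y' y) -
      (2 * bb * gs) • M1_cr y' y := by
  unfold Rc Mc
  rw [M1_aux_sqQc]
  unfold Qc
  ext n
  simp only [map_sub, map_add, coeff_smul, smul_eq_mul]
  ring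

theorem M1_aux_Rc1 (g : GS Lm gs) : Bd 1 (Rc gs y' y) (gs * (1 / 10)) := by
  have hT := M1_aux_T2 y' y
  have hU := M1_aux_Us y' y
  have hb := M1_aux_bb
  have hg := g.pos
  have hg2 := M1_aux_gs g
  have he := M1_aux_e.2.2
  have h := Bd_sub (r := 1) (by norm_num) (Bd_sub (r := 1) (by norm_num)
    (Bd_add (r := 1) (by norm_num) (Bd_smul (4 * gs * bb) hT)
      (Bd_smul (2 * (bb + 2 * gs) * gs) hU)) (Bd_smul (gs ^ 2) (Bd_sq (by norm_num) hU hU)))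
    (Bd_smul (2 * bb * gs) (M1_aux_cr_bd (y' := y') (y := y)))
  rw [M1_aux_Rc_eq]
  refine Bd_mono h ?_
  have p1 : 0 ≤ 4 * gs * bb := by have := hb.1; positivity
  have p2 : 0 ≤ 2 * (bb + 2 * gs) * gs := by have := hb.1; positivity
  have p3 : 0 ≤ gs ^ 2 := by positivity
  have p4 : 0 ≤ 2 * bb * gs := by have := hb.1; positivity
  rw [abs_of_nonneg p1, abs_of_nonneg p2, abs_of_nonneg p3, abs_of_nonneg p4]
  have e : 4 * gs * bb * 1 + 2 * (bb + 2 * gs) * gs * 1 + gs ^ 2 * (2 * 1 * 1) +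
      2 * bb * gs * 6 = gs * (18 * bb + 6 * gs) := by ring
  rw [e]
  refine mul_le_mul_of_nonneg_left ?_ hg.le
  have h5 : bb ≤ 1 / 10 ^ 4 := hb.2.trans he
  have h6 : gs ≤ 1 / 10 ^ 4 := hg2.trans he
  norm_num at h5 h6 ⊢
  linarith

theorem M1_aux_Rc2 (t : TG Lm y' y) (g : GS Lm gs) :
    Bd 1 (nab * Rc gs y' y) (gs * (1 / Vt y')) := by
  obtain ⟨-, -, hV, -, -, -⟩ := M1_aux_y t
  have hT := Bd_nab_T2 t
  have hU := Bd_nab_Us t
  have hU2 := Bd_nab_sq (M1_aux_Us y' y) hU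
  have hb := M1_aux_bb
  have hg := g.pos
  have hg2 := M1_aux_gs g
  have he := M1_aux_e.2.2
  have h := Bd_sub (r := 1) (by norm_num) (Bd_sub (r := 1) (by norm_num)
    (Bd_add (r := 1) (by norm_num) (Bd_smul (4 * gs * bb) hT)
      (Bd_smul (2 * (bb + 2 * gs) * gs) hU)) (Bd_smul (gs ^ 2) hU2))
    (Bd_smul (2 * bb * gs) (M1_aux_cr_nab t))
  have e0 : nab * Rc gs y' y = (4 * gs * bb) • (nab * T2 y' y) +
      (2 * (bb + 2 * gs) * gs) • (nab * Us y' y) - gs ^ 2 • (nab * sq (Us y' y)) -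
        (2 * bb * gs) • (nab * M1_cr y' y) := by
    rw [M1_aux_Rc_eq, mul_sub, mul_sub, mul_add]
    simp only [mul_smul_comm]
  rw [e0]
  refine Bd_mono h ?_
  have p1 : 0 ≤ 4 * gs * bb := by have := hb.1; positivity
  have p2 : 0 ≤ 2 * (bb + 2 * gs) * gs := by have := hb.1; positivity
  have p3 : 0 ≤ gs ^ 2 := by positivity
  have p4 : 0 ≤ 2 * bb * gs := by have := hb.1; positivity
  rw [abs_of_nonneg p1, abs_of_nonneg p2, abs_of_nonneg p3, abs_of_nonneg p4]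
  have e : 4 * gs * bb * (2 / (Vt y' : ℝ)) + 2 * (bb + 2 * gs) * gs * (1 / (Vt y' : ℝ)) +
      gs ^ 2 * (4 * (1 / (Vt y' : ℝ))) +
      2 * bb * gs * (18 * (1 / (Vt y' : ℝ))) = gs * ((46 * bb + 8 * gs) * (1 / (Vt y' : ℝ))) := by
    ring
  rw [e]
  refine mul_le_mul_of_nonneg_left ?_ hg.le
  have h5 : bb ≤ 1 / 10 ^ 4 := hb.2.trans he
  have h6 : gs ≤ 1 / 10 ^ 4 := hg2.trans he
  have h7 : 46 * bb + 8 * gs ≤ 1 := by
    norm_num at h5 h6 ⊢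
    linarith
  calc (46 * bb + 8 * gs) * (1 / (Vt y' : ℝ)) ≤ 1 * (1 / (Vt y' : ℝ)) :=
        mul_le_mul_of_nonneg_right h7 (by positivity)
    _ = 1 / (Vt y' : ℝ) := one_mul _

theorem M1_aux_Qc_van (t : TG Lm y' y) : ∀ n, n1 y' y ≤ n → coeff n (Qc gs y' y) = 0 := by
  intro n hn
  unfold Qc
  rw [map_add, coeff_smul, coeff_smul, (Cpl_T2 t).1 n hn, (Cpl_Us t).1 n hn]
  simp

theorem M1_aux_Rc_van (t : TG Lm y' y) : ∀ n, n1 y' y ≤ n → coeff n (Rc gs y' y) = 0 := by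
  intro n hn
  unfold Rc
  rw [map_sub, map_sub, coeff_smul, coeff_sq, M1_aux_Qc_van t n hn, M1_aux_Mc_van t n hn]
  simp

theorem Rc_bd (t : TG Lm y' y) (g : GS Lm gs) (h : LB y' a0) (h1 : 1 ≤ r) (h2 : r ≤ 1 + 2 / y) :
    Bd r (Rc gs y' y * a0⁻¹) (10 ^ 6 * gs) := by
  obtain ⟨hy, hy', hV, h5, -, -⟩ := M1_aux_y t
  have v0 := M1_aux_Rc_van (gs := gs) t
  have v1 := M1_aux_nab_van v0
  have b0 := supp9 t h1 h2 (fun n hn => v0 n (by omega)) (M1_aux_Rc1 g)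
  have b1 := supp9 t h1 h2 (fun n hn => v1 n (by omega)) (M1_aux_Rc2 t g)
  refine M1_aux_divbd t h h1 h2 b0 b1 ?_
  have hg := g.pos
  have e : 9 * (gs * (1 / 10)) + 10 ^ 4 * (y' : ℝ) * (9 * (gs * (1 / Vt y'))) =
      (9 / 10 + 90000 * (y' / Vt y')) * gs := by ring
  rw [e]
  refine mul_le_mul_of_nonneg_right ?_ hg.le
  linarith

theorem M1_aux_Qc1 (g : GS Lm gs) : Bd 1 (Qc gs y' y) (bb + gs) := by
  have h := Bd_add (r := 1) (by norm_num) (Bd_smul bb (M1_aux_T2 y' y))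
    (Bd_smul gs (M1_aux_Us y' y))
  rw [abs_of_pos M1_aux_bb.1, abs_of_pos g.pos, mul_one, mul_one] at h
  exact h

theorem M1_aux_Qc2 (t : TG Lm y' y) (g : GS Lm gs) :
    Bd 1 (nab * Qc gs y' y) ((2 * bb + gs) * (1 / Vt y')) := by
  have h := Bd_add (r := 1) (by norm_num) (Bd_smul bb (Bd_nab_T2 t))
    (Bd_smul gs (Bd_nab_Us t))
  rw [abs_of_pos M1_aux_bb.1, abs_of_pos g.pos] at h
  have e : nab * Qc gs y' y = bb • (nab * T2 y' y) + gs • (nab * Us y' y) := by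
    unfold Qc
    rw [mul_add, mul_smul_comm, mul_smul_comm]
  rw [e]
  refine Bd_mono h (le_of_eq ?_)
  ring

theorem M1_aux_fin {c : ℝ} (hc : c ≤ 1 / 10 ^ 139 * 10 ^ 7) : c ≤ 1 / 10 ^ 100 :=
  hc.trans (M1_aux_e.1.trans M1_aux_e.2.1)

theorem Qc_bd (t : TG Lm y' y) (g : GS Lm gs) (h : LB y' a0) (h1 : 1 ≤ r) (h2 : r ≤ 1 + 2 / y) :
    Bd r (Qc gs y' y * a0⁻¹) (1 / 10 ^ 100) := by
  obtain ⟨hy, hy', hV, h5, -, -⟩ := M1_aux_y t
  have v0 := M1_aux_Qc_van (gs := gs) t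
  have v1 := M1_aux_nab_van v0
  have b0 := supp9 t h1 h2 (fun n hn => v0 n (by omega)) (M1_aux_Qc1 g)
  have b1 := supp9 t h1 h2 (fun n hn => v1 n (by omega)) (M1_aux_Qc2 t g)
  refine M1_aux_divbd t h h1 h2 b0 b1 (M1_aux_fin ?_)
  have hg := g.pos
  have hg2 := M1_aux_gs g
  obtain ⟨hb1, hb2⟩ := M1_aux_bb
  have e : 9 * (bb + gs) + 10 ^ 4 * (y' : ℝ) * (9 * ((2 * bb + gs) * (1 / Vt y'))) =
      9 * (bb + gs) + 90000 * (2 * bb + gs) * (y' / Vt y') := by ring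
  rw [e]
  have h6 : 90000 * (2 * bb + gs) * ((y' : ℝ) / Vt y') ≤ 90000 * (2 * bb + gs) * 5 :=
    mul_le_mul_of_nonneg_left h5 (by positivity)
  have hp : (0 : ℝ) < 1 / 10 ^ 139 := by positivity
  generalize (1 : ℝ) / 10 ^ 139 = P at *
  linarith

theorem Qc_sq_bd (t : TG Lm y' y) (g : GS Lm gs) (h : LB y' a0) :
    Bd 1 (sq (Qc gs y' y) * a0⁻¹) (1 / 10 ^ 100) := by
  obtain ⟨hy, hy', hV, h5, -, -⟩ := M1_aux_y t
  have hg := g.pos
  have hg2 := M1_aux_gs g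
  obtain ⟨hb1, hb2⟩ := M1_aux_bb
  have he := M1_aux_e.2.2
  have q1 := M1_aux_Qc1 (y' := y') (y := y) g
  have h7 : bb + gs ≤ 1 := by
    have h5 : bb ≤ 1 / 10 ^ 4 := hb2.trans he
    have h6 : gs ≤ 1 / 10 ^ 4 := hg2.trans he
    norm_num at h5 h6 ⊢
    linarith
  have c0 := Bd_sq (r := 1) (by norm_num) q1 q1
  have c1 := Bd_nab_sq (Bd_mono q1 h7) (M1_aux_Qc2 t g)
  have hz : (0 : ℝ) ≤ 2 / y := by positivity
  refine M1_aux_divbd t h le_rfl (by linarith) c0 c1 (M1_aux_fin ?_)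
  have e : 2 * (bb + gs) * (bb + gs) + 10 ^ 4 * (y' : ℝ) * (4 * ((2 * bb + gs) * (1 / Vt y'))) =
      2 * (bb + gs) * (bb + gs) + 40000 * (2 * bb + gs) * (y' / Vt y') := by ring
  rw [e]
  have h6 : 40000 * (2 * bb + gs) * ((y' : ℝ) / Vt y') ≤ 40000 * (2 * bb + gs) * 5 :=
    mul_le_mul_of_nonneg_left h5 (by positivity)
  have h8 : 2 * (bb + gs) * (bb + gs) ≤ 2 * (bb + gs) * 1 :=
    mul_le_mul_of_nonneg_left h7 (by positivity)
  have hp : (0 : ℝ) < 1 / 10 ^ 139 := by positivity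
  generalize (1 : ℝ) / 10 ^ 139 = P at *
  linarith

theorem M1_aux_thq (t : TG Lm y' y) : 0 < th y ∧ th y < 1 ∧ 1 - th y = 1 / y := by
  obtain ⟨h1, h2⟩ := th_bd t
  refine ⟨by linarith, h2, ?_⟩
  unfold th
  ring

theorem Eg_bd (t : TG Lm y' y) (h : LB y' a0) : Bd 1 (Eg y' y * a0⁻¹) 2 := by
  obtain ⟨hy, hy', hV, h5, hyy, -⟩ := M1_aux_y t
  obtain ⟨q1, q2, q3⟩ := M1_aux_thq t
  have hz : (0 : ℝ) ≤ 2 / y := by positivity
  have hL : 1 / (1 - th y * 1) ≤ (y : ℝ) := by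
    rw [mul_one, q3, one_div_one_div]
  obtain ⟨-, c1⟩ := M1_aux_geo_nab (r := 1) (q := th y) (c := 1 / y) (K := 1) (L := y) (n1 y' y)
    (by norm_num) q1.le (by positivity) q2.le (by linarith) (by rw [one_pow]) hL
  refine M1_aux_divbd t h le_rfl (by linarith) (Bd_Eg t) c1 ?_
  rw [q3]
  have e : (1 : ℝ) + 10 ^ 4 * (y' : ℝ) * (1 / y * (1 * (1 + 1 / y * (1 * y)))) =
      1 + 20000 * (y' / y) := by
    field_simp
    ring
  rw [e]
  have h6 := hyy.trans M1_aux_250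
  norm_num at h6 ⊢
  linarith

theorem QT_bd (t : TG Lm y' y) (g : GS Lm gs) (h : LB y' a0) :
    Bd 1 (QT gs y' y * a0⁻¹) (1 / 10 ^ 99) := by
  obtain ⟨hy, -⟩ := M1_aux_y t
  have hz : (0 : ℝ) ≤ 2 / y := by positivity
  have h1 := Bd_add (r := 1) (by norm_num) (Qc_bd t g h le_rfl (by linarith))
    (Bd_smul gs (Eg_bd t h))
  have e : QT gs y' y * a0⁻¹ = Qc gs y' y * a0⁻¹ + gs • (Eg y' y * a0⁻¹) := by
    unfold QT
    rw [add_mul, smul_mul_assoc]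
  rw [e]
  refine Bd_mono h1 ?_
  rw [abs_of_pos g.pos]
  have h2 : gs ≤ 1 / 10 ^ 100 := (M1_aux_gs g).trans
    (one_div_le_one_div_of_le (by positivity) (pow_le_pow_right₀ (by norm_num) (by norm_num)))
  have e2 : (1 : ℝ) / 10 ^ 99 = 10 * (1 / 10 ^ 100) := by
    rw [show (10 : ℝ) ^ 100 = 10 * 10 ^ 99 by rw [← pow_succ']]
    field_simp
  rw [e2]
  have hp : (0 : ℝ) < 1 / 10 ^ 100 := by positivity
  generalize (1 : ℝ) / 10 ^ 100 = P at *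
  linarith

theorem th_rh (t : TG Lm y' y) : th y ^ 2 * rh y ≤ 1 - 1 / (2 * y) ∧
    1 + 1 / (3 * y) ≤ th y * rh y := by
  obtain ⟨hy, -, -, -, -, h6⟩ := M1_aux_y t
  have h7 := h6.trans M1_aux_250
  unfold th rh
  have hp : (0 : ℝ) < 1 / y := by positivity
  rw [show (1 : ℝ) / (2 * y) = 1 / 2 * (1 / y) by field_simp,
    show (3 : ℝ) / (2 * y) = 3 / 2 * (1 / y) by field_simp,
    show (1 : ℝ) / (3 * y) = 1 / 3 * (1 / y) by field_simp]
  generalize (1 : ℝ) / (y : ℝ) = e at *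
  have h8 : e ≤ 1 / 100 := h7.trans (by norm_num)
  have h9 : 0 < e * e := mul_pos hp hp
  have h10 : e * e * e ≤ e * e * (1 / 100) := mul_le_mul_of_nonneg_left h8 h9.le
  have h11 : e * e ≤ e * (1 / 100) := mul_le_mul_of_nonneg_left h8 hp.le
  constructor
  · nlinarith
  · nlinarith

theorem G2_bd (t : TG Lm y' y) (h : LB y' a0) : Bd (rh y) (G2 y' y * a0⁻¹) 40 := by
  obtain ⟨hy, hy', hV, h5, hyy, h1y⟩ := M1_aux_y t
  obtain ⟨q1, q2, q3⟩ := M1_aux_thq t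
  obtain ⟨r1, r2⟩ := rh_bd t
  obtain ⟨s1, -⟩ := th_rh t
  obtain ⟨-, k9⟩ := r_adm t r1 r2
  have hr : 0 ≤ rh y := by linarith
  have hz : (0 : ℝ) < 1 / (2 * y) := by positivity
  have k8 : rh y ^ n1 y' y ≤ 9 := (pow_le_pow_right₀ r1 (Nat.le_succ _)).trans k9
  have hq : th y ^ 2 ≤ 1 := pow_le_one₀ q1.le q2.le
  have hc : 0 ≤ 1 - th y ^ 2 := by linarith
  have hc2 : 1 - th y ^ 2 ≤ 2 * (1 / y) := by
    have : 1 - th y ^ 2 = (1 - th y) * (1 + th y) := by ring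
    rw [this, q3, mul_comm]
    refine mul_le_mul_of_nonneg_right (by linarith) (by positivity)
  have hL : 1 / (1 - th y ^ 2 * rh y) ≤ 2 * (y : ℝ) := by
    rw [show 2 * (y : ℝ) = 1 / (1 / (2 * y)) by rw [one_div_one_div]]
    exact one_div_le_one_div_of_le hz (by linarith)
  obtain ⟨c0, c1⟩ := M1_aux_geo_nab (r := rh y) (q := th y ^ 2) (c := 1 - th y ^ 2) (K := 9)
    (L := 2 * y) (n1 y' y) hr (by positivity) hc hq (by linarith) k8 hL
  have d0 : (1 - th y ^ 2) * (9 * (2 * (y : ℝ))) ≤ 36 := by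
    calc (1 - th y ^ 2) * (9 * (2 * (y : ℝ))) ≤ (2 * (1 / y)) * (9 * (2 * (y : ℝ))) :=
          mul_le_mul_of_nonneg_right hc2 (by positivity)
      _ = 36 := by field_simp; norm_num
  have hrh : rh y ≤ 11 / 10 := by
    have h6 := h1y.trans M1_aux_250
    have e : (2 : ℝ) / y = 2 * (1 / y) := by ring
    rw [e] at r2
    norm_num at h6 r2 ⊢
    linarith
  have d1 : (1 - th y ^ 2) * (9 * (1 + (1 - th y ^ 2) * (rh y * (2 * (y : ℝ))))) ≤
      100 * (1 / y) := by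
    have e1 : (1 - th y ^ 2) * (rh y * (2 * (y : ℝ))) ≤ 44 / 10 := by
      calc (1 - th y ^ 2) * (rh y * (2 * (y : ℝ))) ≤ (2 * (1 / y)) * (rh y * (2 * (y : ℝ))) :=
            mul_le_mul_of_nonneg_right hc2 (by positivity)
        _ = 4 * rh y := by field_simp; ring
        _ ≤ 44 / 10 := by linarith
    have e2 : 0 ≤ (1 - th y ^ 2) * (rh y * (2 * (y : ℝ))) := by positivity
    calc (1 - th y ^ 2) * (9 * (1 + (1 - th y ^ 2) * (rh y * (2 * (y : ℝ))))) ≤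
          (2 * (1 / y)) * (9 * (1 + 44 / 10)) :=
          mul_le_mul hc2 (by linarith) (by positivity) (by positivity)
      _ ≤ 100 * (1 / y) := by
        have : (0 : ℝ) < 1 / y := by positivity
        linarith
  refine M1_aux_divbd t h r1 r2 (Bd_mono c0 d0) (Bd_mono c1 d1) ?_
  have e : (36 : ℝ) + 10 ^ 4 * (y' : ℝ) * (100 * (1 / y)) = 36 + 1000000 * (y' / y) := by ring
  rw [e]
  have h6 := hyy.trans M1_aux_250
  norm_num at h6 ⊢
  linarith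

theorem G2_bd1 (t : TG Lm y' y) (h : LB y' a0) : Bd 1 (G2 y' y * a0⁻¹) 40 :=
  Bd_weight (G2_bd t h) (by norm_num) (rh_bd t).1

end

end MP18
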