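import Pool.Agent.Lib.MP_18566a_pr.T.L0

set_option autoImplicit false

namespace MP18

open Finset PowerSeries

theorem P2_bb_nonneg : 0 ≤ bb := by
  have h1 := bb_bd.1
  have h2 := ff_pos
  nlinarith

theorem P2_psi_one : psi 1 = 0 := by
  have : ((1 : PS))⁻¹ = 1 := inv_unique_PS (by simp)
  unfold psi
  rw [this, sub_self, zero_mul]

theorem P2_ker_one : ker 1 = 1 := by
  have : ((1 : PS))⁻¹ = 1 := inv_unique_PS (by simp)
  unfold ker
  rw [this, sq_one, mul_one]

theorem LB_one (y : ℕ) : LB y 1 := by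
  have hb := P2_bb_nonneg
  refine ⟨?_, ?_, ?_, ?_, ?_, ?_, ?_, ?_⟩
  · intro n
    rw [PowerSeries.coeff_one]
    split_ifs <;> norm_num
  · rw [PowerSeries.coeff_one]
    norm_num
  · intro r hr
    rw [P2_psi_one]
    exact Bd_mono Bd_zero (by positivity)
  · intro r hr
    rw [P2_ker_one]
    exact Bd_mono (Bd_one (by linarith [hr.1])) (by norm_num)
  · intro r hr
    have : kap (ker 1) = 0 := by
      rw [P2_ker_one]
      unfold kap
      rw [sub_self, zero_mul]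
    rw [this]
    exact Bd_mono Bd_zero (by positivity)
  · intro z hz
    rw [P2_ker_one, ev_one]
    simp only [Complex.one_re]
    linarith
  · intro t h0 h1
    rw [P2_ker_one]
    have hphi := phi_bd.2
    have hbd : Bd 1 (t • (1 : PS)) (|t| * 1) := Bd_smul t (Bd_one zero_le_one)
    rw [abs_of_nonneg h0, mul_one] at hbd
    have ht : t < 2 * (9 / 10) := by linarith
    refine SP_mono (SP_of_norm hbd ht) le_rfl ?_
    have h2 : 1 / (2 * (9 / 10) - t) ≤ 1 := by
      rw [div_le_one (by linarith)]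
      linarith
    refine h2.trans ?_
    unfold A1
    norm_num
  · intro ρ h1 h2
    rw [P2_ker_one, map_one]
    have hc : 1 < 2 * c0 := by unfold c0; linarith
    refine SP_mono (SP_of_norm (Bd_one zero_le_one) hc) le_rfl ?_
    have h2 : 1 / (2 * c0 - 1) ≤ 1 := by
      rw [div_le_one (by linarith)]
      unfold c0
      linarith
    refine h2.trans ?_
    unfold A0
    norm_num

/-- a triangular bump of mass `s` just before `y1` -/
structure Bump (y0 y1 : ℕ) (s : ℝ) (d : ℕ → ℝ) : Prop where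
  nn : ∀ n, 0 ≤ d n
  low : ∀ n, n < y1 - y0 / 2 → d n = 0
  high : ∀ n, y1 ≤ n + 2 → d n = 0
  tot : ∀ n, y1 ≤ n + 2 → csum d n = s
  cs : ∀ n, 0 ≤ csum d n ∧ csum d n ≤ s
  sup : ∀ n, d n ≤ 9 * s / y0
  dsup : ∀ n, |dd d n| ≤ 81 * s / (y0 : ℝ) ^ 2
  dlow : ∀ n, n < y1 - y0 / 2 → dd d n = 0
  dhigh : ∀ n, y1 ≤ n + 1 → dd d n = 0

theorem P2_aux1 (A : PS) (n : ℕ) : coeff (n + 1) (nab * A) = coeff (n + 1) A - coeff n A := by
  unfold nab
  rw [sub_mul, one_mul, map_sub, PowerSeries.coeff_succ_X_mul]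

theorem P2_U_le (m n : ℕ) : coeff n (U m) ≤ 1 / (m : ℝ) := by
  rw [coeff_U]
  split_ifs
  · exact le_rfl
  · positivity

theorem P2_UU_le (m n : ℕ) : coeff n (U m * U m) ≤ 1 / (m : ℝ) := by
  have hm : (0 : ℝ) ≤ 1 / (m : ℝ) := by positivity
  rw [PowerSeries.coeff_mul]
  calc ∑ p ∈ antidiagonal n, coeff p.1 (U m) * coeff p.2 (U m)
      ≤ ∑ p ∈ antidiagonal n, coeff p.1 (U m) * (1 / (m : ℝ)) := by
        apply Finset.sum_le_sum
        intro p _
        exact mul_le_mul_of_nonneg_left (P2_U_le m _) (U_nn _ _)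
    _ = Cum (U m) n * (1 / (m : ℝ)) := by
        rw [← Finset.sum_mul]
        congr 1
        rw [Finset.Nat.sum_antidiagonal_eq_sum_range_succ_mk]
        rfl
    _ ≤ 1 * (1 / (m : ℝ)) := by
        refine mul_le_mul_of_nonneg_right ?_ hm
        exact (le_abs_self _).trans (Cum_le (Bd_U m) n)
    _ = 1 / (m : ℝ) := one_mul _

theorem P2_mul_nn {A B : PS} (hA : ∀ n, 0 ≤ coeff n A) (hB : ∀ n, 0 ≤ coeff n B) (n : ℕ) :
    0 ≤ coeff n (A * B) := by
  rw [PowerSeries.coeff_mul]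
  exact Finset.sum_nonneg fun p _ => mul_nonneg (hA _) (hB _)

theorem P2_X_nn (p n : ℕ) : 0 ≤ coeff n (X ^ p : PS) := by
  rw [PowerSeries.coeff_X_pow]
  split_ifs <;> norm_num

theorem P2_Cpl_X (p : ℕ) : Cpl (X ^ p : PS) (p + 1) 1 := by
  constructor
  · intro n hn
    rw [PowerSeries.coeff_X_pow, if_neg (by omega)]
  · simp [PowerSeries.coeff_X_pow]

theorem P2_Cpl {m p : ℕ} (hm : 0 < m) :
    Cpl (X ^ p * (U m * U m)) (p + (2 * m - 2) + 1) 1 := by
  have h1 : Cpl (U m) ((m - 1) + 1) 1 := by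
    rw [Nat.sub_add_cancel hm]
    exact Cpl_U hm
  have h2 := Cpl_mul h1 h1
  rw [show m - 1 + (m - 1) = 2 * m - 2 by omega] at h2
  have h3 := Cpl_mul (P2_Cpl_X p) h2
  rw [mul_one, mul_one] at h3
  exact h3

theorem P2_nab (m p : ℕ) : nab * (X ^ p * (U m * U m))
    = (1 / (m : ℝ)) • (X ^ p * (U m - X ^ m * U m)) := by
  have h := nab_U m
  calc nab * (X ^ p * (U m * U m)) = X ^ p * ((nab * U m) * U m) := by ring
    _ = X ^ p * (((1 / (m : ℝ)) • (1 - X ^ m)) * U m) := by rw [h]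
    _ = (1 / (m : ℝ)) • (X ^ p * (U m - X ^ m * U m)) := by
        rw [smul_mul_assoc, mul_smul_comm]
        congr 1
        ring

theorem P2_dif (m n : ℕ) : |coeff n (U m - X ^ m * U m)| ≤ 1 / (m : ℝ) := by
  rw [map_sub, PowerSeries.coeff_X_pow_mul']
  have h1 := P2_U_le m n
  have h2 := U_nn m n
  split_ifs with hc
  · have h3 := P2_U_le m (n - m)
    have h4 := U_nn m (n - m)
    rw [abs_le]
    constructor <;> linarith
  · rw [sub_zero, abs_of_nonneg h2]
    exact h1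

theorem P2_nab_le (m p n : ℕ) : |coeff n (nab * (X ^ p * (U m * U m)))| ≤ 1 / (m : ℝ) * (1 / (m : ℝ)) := by
  have hm : (0 : ℝ) ≤ 1 / (m : ℝ) := by positivity
  rw [P2_nab, map_smul, smul_eq_mul, abs_mul, abs_of_nonneg hm]
  refine mul_le_mul_of_nonneg_left ?_ hm
  rw [PowerSeries.coeff_X_pow_mul']
  split_ifs
  · exact P2_dif m _
  · rw [abs_zero]
    exact hm

theorem bump_exists {y0 y1 : ℕ} {s : ℝ} (h : 1000 ≤ y0) (h1 : 2 * y0 ≤ y1) (hs : 0 < s) :
    ∃ d : ℕ → ℝ, Bump y0 y1 s d := by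
  obtain ⟨m, hmdef⟩ : ∃ m, m = y0 / 8 := ⟨_, rfl⟩
  obtain ⟨p, hpdef⟩ : ∃ p, p = y1 - y0 / 2 := ⟨_, rfl⟩
  obtain ⟨B, hB⟩ : ∃ B : PS, B = X ^ p * (U m * U m) := ⟨_, rfl⟩
  have hm : 0 < m := by omega
  have hp0 : 0 < p := by omega
  have hy0 : (0 : ℝ) < y0 := by exact_mod_cast (show 0 < y0 by omega)
  have hmR : (0 : ℝ) < m := by exact_mod_cast hm
  have hm9 : (1 : ℝ) / m ≤ 9 / y0 := by
    rw [div_le_div_iff₀ hmR hy0]
    have : y0 ≤ 9 * m := by omega
    rw [one_mul]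
    exact_mod_cast this
  have hCpl : Cpl B (p + (2 * m - 2) + 1) 1 := by rw [hB]; exact P2_Cpl hm
  have hend : ∀ n, y1 ≤ n + 2 → p + (2 * m - 2) + 1 ≤ n := by intro n hn; omega
  have hUU : ∀ n, 0 ≤ coeff n (U m * U m) := P2_mul_nn (U_nn m) (U_nn m)
  have hnn : ∀ n, 0 ≤ coeff n B := by
    rw [hB]
    exact P2_mul_nn (P2_X_nn p) hUU
  have hlow : ∀ n, n < p → coeff n B = 0 := by
    intro n hn
    rw [hB, PowerSeries.coeff_X_pow_mul', if_neg (by omega)]
  have hhigh : ∀ n, y1 ≤ n + 2 → coeff n B = 0 := fun n hn => hCpl.1 n (hend n hn)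
  have hcs : ∀ n, csum (fun n => s * coeff n B) n = s * Cum B n := by
    intro n
    unfold csum Cum
    rw [Finset.mul_sum]
  have hCum0 : ∀ n, 0 ≤ Cum B n := fun n => Finset.sum_nonneg fun j _ => hnn j
  have hCum1 : ∀ n, Cum B n ≤ 1 := fun n =>
    (le_abs_self _).trans (Cum_le (Bd_of_Cpl hnn hCpl) n)
  have hle : ∀ n, coeff n B ≤ 1 / (m : ℝ) := by
    intro n
    rw [hB, PowerSeries.coeff_X_pow_mul']
    split_ifs
    · exact P2_UU_le m _
    · positivity
  have hm0 : (0 : ℝ) ≤ 1 / (m : ℝ) := by positivity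
  have hnab : ∀ n, |dd (fun n => s * coeff n B) n| ≤ s * (1 / (m : ℝ) * (1 / (m : ℝ))) := by
    intro n
    unfold dd
    rcases n with _ | n
    · simp only [if_true]
      rw [hlow 0 hp0, mul_zero, abs_zero]
      positivity
    · rw [if_neg (Nat.succ_ne_zero n), Nat.add_sub_cancel, ← mul_sub, ← P2_aux1, abs_mul,
        abs_of_pos hs, hB]
      exact mul_le_mul_of_nonneg_left (P2_nab_le m p _) hs.le
  refine ⟨fun n => s * coeff n B, ⟨?_, ?_, ?_, ?_, ?_, ?_, ?_, ?_, ?_⟩⟩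
  · intro n
    exact mul_nonneg hs.le (hnn n)
  · intro n hn
    show s * coeff n B = 0
    rw [hlow n (by omega), mul_zero]
  · intro n hn
    show s * coeff n B = 0
    rw [hhigh n hn, mul_zero]
  · intro n hn
    rw [hcs, Cum_of_Cpl hCpl (le_trans (hend n hn) (Nat.le_succ n)), mul_one]
  · intro n
    rw [hcs]
    exact ⟨mul_nonneg hs.le (hCum0 n), by nlinarith [hCum1 n]⟩
  · intro n
    show s * coeff n B ≤ 9 * s / y0
    calc s * coeff n B ≤ s * (9 / y0) := mul_le_mul_of_nonneg_left ((hle n).trans hm9) hs.le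
      _ = 9 * s / y0 := by ring
  · intro n
    refine (hnab n).trans ?_
    calc s * (1 / (m : ℝ) * (1 / (m : ℝ))) ≤ s * (9 / y0 * (9 / y0)) :=
          mul_le_mul_of_nonneg_left (mul_le_mul hm9 hm9 hm0 (by positivity)) hs.le
      _ = 81 * s / (y0 : ℝ) ^ 2 := by
          field_simp
          try norm_num
  · intro n hn
    unfold dd
    rcases n with _ | n
    · simp only [if_true]
      rw [hlow 0 hp0, mul_zero]
    · rw [if_neg (Nat.succ_ne_zero n), Nat.add_sub_cancel]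
      show s * coeff (n + 1) B - s * coeff n B = 0
      rw [hlow n (by omega), hlow (n + 1) (by omega), mul_zero, sub_zero]
  · intro n hn
    unfold dd
    rcases n with _ | n
    · omega
    · rw [if_neg (Nat.succ_ne_zero n), Nat.add_sub_cancel]
      show s * coeff (n + 1) B - s * coeff n B = 0
      rw [hhigh n (by omega), hhigh (n + 1) (by omega), mul_zero, sub_zero]

end MP18
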