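import Pool.Agent.Lib.MP_18566a_pr.T.P1
import Pool.Agent.Lib.MP_18566a_pr.T.P2

set_option autoImplicit false

namespace MP18

open Finset PowerSeries

/-- packaged state -/
structure Good (Λ Lm : ℕ) (ε η : ℝ) (n M : ℕ) (R : ℝ) (y'' y' y : ℕ) (a00 a0 : PS) (φ' : ℝ)
    (d : ℕ → ℝ) (S : ℝ) : Prop where
  st : St Λ Lm ε η y'' y' y a00 a0 φ' d S
  bk : Book Λ Lm n a0 y
  My : M ≤ y
  rs : res a0 d y ≤ R * y

theorem P3_cv {A : PS} {y0 y1 n : ℕ} {φ' : ℝ} {u : ℕ → ℝ} (h0 : coeff 0 A = φ')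
    (hA : ∀ l, 0 < l → l < y0 → coeff l A = 0) (hu : ∀ m, m < y1 - y0 / 2 → u m = 0)
    (hn : n < y1) (hy : 0 < y0) (h1 : y0 ≤ y1) : cv A u n = φ' * u n := by
  unfold cv
  rw [Finset.sum_eq_single 0]
  · rw [h0, Nat.sub_zero]
  · intro j hj hj0
    rcases lt_or_ge j y0 with hc | hc
    · rw [hA j (Nat.pos_of_ne_zero hj0) hc, zero_mul]
    · rw [hu (n - j) (by have := Finset.mem_range.1 hj; omega), mul_zero]
  · intro h
    exact absurd (Finset.mem_range.2 (Nat.succ_pos n)) h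

theorem P3_nat {K K2 Cg δ κ1 ε : ℝ} {Λ Lm : ℕ} {κ Gm η1 : ℝ}
    (c : Cst K K2 Cg δ κ1 ε Λ Lm κ Gm η1) : 10 ≤ Λ := by
  have h := c.cΛ
  have h2 : (10 : ℝ) ≤ L0 := by unfold L0; norm_num
  exact_mod_cast h2.trans h

theorem P3_csum {d : ℕ → ℝ} {p : ℕ} (h : ∀ n, n < p → d n = 0) :
    ∀ n, n < p → csum d n = 0 := by
  intro n hn
  unfold csum
  apply Finset.sum_eq_zero
  intro j hj
  exact h j (by have := Finset.mem_range.1 hj; omega)

theorem P3_s4 {y0 y1 n : ℕ} {s : ℝ} {d : ℕ → ℝ} (b : Bump y0 y1 s d) (hs : 0 < s) (hn : n < y1)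
    (hy : 2 * y0 ≤ y1) :
    |∑ j ∈ range (n + 1), csum d j| ≤ 10 ^ 4 * y0 * s := by
  have h0 : 0 ≤ ∑ j ∈ range (n + 1), csum d j := Finset.sum_nonneg fun j _ => (b.cs j).1
  rw [abs_of_nonneg h0]
  have hsub : Finset.Ico (y1 - y0 / 2) (n + 1) ⊆ range (n + 1) := by
    intro j hj
    exact Finset.mem_range.2 (Finset.mem_Ico.1 hj).2
  rw [← Finset.sum_subset hsub]
  · calc ∑ j ∈ Finset.Ico (y1 - y0 / 2) (n + 1), csum d j
        ≤ (Finset.Ico (y1 - y0 / 2) (n + 1)).card • s :=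
          Finset.sum_le_card_nsmul _ _ _ fun j _ => (b.cs j).2
      _ ≤ 10 ^ 4 * y0 * s := by
          rw [Nat.card_Ico, nsmul_eq_mul]
          refine mul_le_mul_of_nonneg_right ?_ hs.le
          have : n + 1 - (y1 - y0 / 2) ≤ y0 := by omega
          have h2 : ((n + 1 - (y1 - y0 / 2) : ℕ) : ℝ) ≤ y0 := by exact_mod_cast this
          have h3 : (0 : ℝ) ≤ y0 := Nat.cast_nonneg _
          linarith
  · intro j hj hj2
    apply P3_csum b.low
    by_contra hc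
    exact hj2 (Finset.mem_Ico.2 ⟨by omega, Finset.mem_range.1 hj⟩)

theorem P3_coeff {y W W' V Y n : ℕ} {a : PS} {kb : ℝ} (h : y < Y) (hn : y ≤ n) (hn2 : n < Y) :
    coeff n (aN a y W W' V kb Y)
      = (1 + kb)⁻¹ * (coeff n (aF a y W W' V) + kb * (1 / ((Y : ℝ) - y))) := by
  unfold aN aT
  rw [map_smul, smul_eq_mul, map_add, map_smul, smul_eq_mul, slo_coeff h, if_pos ⟨hn, hn2⟩]

theorem P3_kb {K K2 Cg δ κ1 ε : ℝ} {Λ Lm : ℕ} {κ Gm η1 : ℝ}
    (c : Cst K K2 Cg δ κ1 ε Λ Lm κ Gm η1) {y0 : ℕ} (hy : 0 < y0) :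
    kbY κ y0 (Λ * y0) = κ * ((Λ : ℝ) - 1) ∧ 0 ≤ κ * ((Λ : ℝ) - 1) ∧ κ * ((Λ : ℝ) - 1) ≤ κ1 ∧
    κ * ((Λ : ℝ) - 1) ≤ 1 := by
  have hy' : (0 : ℝ) < y0 := by exact_mod_cast hy
  have hκ := c.κpos
  have h10 : (10 : ℝ) ≤ Λ := by exact_mod_cast P3_nat c
  have hL : (Λ : ℝ) + 20 ≤ Lm := by exact_mod_cast c.cL
  have h1 := c.cκ1
  have h2 := c.cκ2
  have hle : κ * ((Λ : ℝ) - 1) ≤ κ * Lm := mul_le_mul_of_nonneg_left (by linarith) hκ.le
  refine ⟨?_, mul_nonneg hκ.le (by linarith), hle.trans h1, ?_⟩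
  · unfold kbY
    push_cast
    field_simp
  · have hff : ff ≤ 1 := by unfold ff; norm_num
    have h3 : κ * Lm * 1 ≤ κ * Lm * 10 ^ 245 :=
      mul_le_mul_of_nonneg_left (by norm_num) (by positivity)
    linarith

theorem base_state {K K2 Cg : ℝ} {δ κ1 : ℕ → ℝ} {ε : ℝ} {Λ Lm : ℕ} {κ Gm η1 η : ℝ}
    (u : UK K K2 Cg δ κ1) (c : Cst K K2 Cg (δ Lm) (κ1 Lm) ε Λ Lm κ Gm η1)
    (hη : 0 < η) (hη1 : η ≤ η1) (M : ℕ) {α : ℝ} (hα : 0 < α) (hα1 : α ≤ η) :
    ∃ (y'' y' y : ℕ) (a00 a0 : PS) (φ' : ℝ) (d : ℕ → ℝ) (S : ℝ),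
      Good Λ Lm ε η 0 M (50 * α) y'' y' y a00 a0 φ' d S ∧ S = α * y' := by
  obtain ⟨Z, hZ⟩ : ∃ Z : ℕ, Z = 10 ^ 83 := ⟨_, rfl⟩
  obtain ⟨y0, hy0⟩ : ∃ y0 : ℕ, y0 = Λ * Z * (M + 1) := ⟨_, rfl⟩
  obtain ⟨y1, hy1⟩ : ∃ y1 : ℕ, y1 = Λ * y0 := ⟨_, rfl⟩
  have h10 := P3_nat c
  have hZpos : 0 < Z := by rw [hZ]; positivity
  have hZ1000 : 1000 ≤ Z := by rw [hZ]; norm_num
  have hΛZ : Λ * Z ≤ y0 := by rw [hy0]; exact Nat.le_mul_of_pos_right _ (Nat.succ_pos M)
  have hZy0 : Z ≤ y0 := le_trans (Nat.le_mul_of_pos_left Z (by omega)) hΛZ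
  have hy0pos : 0 < y0 := lt_of_lt_of_le hZpos hZy0
  have h10y : 10 * y0 ≤ y1 := by rw [hy1]; exact Nat.mul_le_mul_right _ h10
  have hΛR : L0 * (Z : ℝ) ≤ y0 := by
    calc L0 * (Z : ℝ) ≤ Λ * Z := mul_le_mul_of_nonneg_right c.cΛ (Nat.cast_nonneg _)
      _ ≤ y0 := by exact_mod_cast hΛZ
  obtain ⟨W, W', V, g⟩ := Geo_exists (y' := Z) (y := y0) (by rw [hZ]) hΛR
  have hin : In Z y0 1 := by
    refine ⟨LB_one Z, ?_, ?_⟩
    · intro n hn
      rw [PowerSeries.coeff_one, if_neg (by omega)]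
    · rw [Finset.sum_eq_single 0]
      · simp
      · intro b _ hb
        rw [PowerSeries.coeff_one, if_neg hb]
      · intro hb
        exact absurd (Finset.mem_range.2 hy0pos) hb
  have hkb := P3_kb c hy0pos
  rw [← hy1] at hkb
  obtain ⟨kb, hkbdef⟩ : ∃ kb : ℝ, kb = kbY κ y0 y1 := ⟨_, rfl⟩
  rw [← hkb.1, ← hkbdef] at hkb
  obtain ⟨-, hk0, hk1, hk2⟩ := hkb
  have hLm : (y1 : ℝ) ≤ Lm * y0 := by
    rw [hy1]
    push_cast
    refine mul_le_mul_of_nonneg_right ?_ (Nat.cast_nonneg _)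
    have := c.cL
    exact_mod_cast (by omega : Λ ≤ Lm)
  have hlb := u.lb Lm Z y0 W W' V y1 1 kb g hin h10y hLm hk0 hk1
  obtain ⟨a0, ha0⟩ : ∃ a0 : PS, a0 = aN 1 y0 W W' V kb y1 := ⟨_, rfl⟩
  rw [← ha0] at hlb
  obtain ⟨hlb0, hcpl⟩ := hlb
  have hphi := phi_bd
  have hkbp : 0 < 1 + kb := by linarith
  obtain ⟨φ', hφ⟩ : ∃ φ' : ℝ, φ' = phi / (1 + kb) := ⟨_, rfl⟩
  have hφ0 : 0 ≤ φ' := by rw [hφ]; exact div_nonneg (by linarith) hkbp.le
  have hφ1 : φ' ≤ phi := by rw [hφ]; exact div_le_self (by linarith) (by linarith)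
  have hwin : ∀ l < y0, coeff l (ker a0) = φ' * coeff l (ker (1 : PS)) := by
    intro l hl
    have h1 := DT_low g hin h10y hk0 l hl
    rw [ha0]
    unfold aN
    rw [ker_smul (inv_ne_zero hkbp.ne'), map_smul, smul_eq_mul, h1, hφ]
    ring
  have hk00 : coeff 0 (ker a0) = φ' := by
    rw [hwin 0 hy0pos, P2_ker_one, PowerSeries.coeff_one, if_pos rfl, mul_one]
  have hkl : ∀ l, 0 < l → l < y0 → coeff l (ker a0) = 0 := by
    intro l hl hl2
    rw [hwin l hl2, P2_ker_one, PowerSeries.coeff_one, if_neg (by omega), mul_zero]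
  have hy0R : (0 : ℝ) < y0 := by exact_mod_cast hy0pos
  obtain ⟨s, hs⟩ : ∃ s : ℝ, s = α * y0 := ⟨_, rfl⟩
  have hspos : 0 < s := by rw [hs]; exact mul_pos hα hy0R
  have hsy : s / y0 = α := by rw [hs]; field_simp
  obtain ⟨d, b⟩ := bump_exists (y0 := y0) (y1 := y1) (s := s) (by omega) (by omega) hspos
  have hαη : α ≤ κ / 1000 := by
    have := c.cη6
    linarith
  have hα1' : α ≤ 1 / 1000 := by
    have := c.κ1'
    linarith
  have hsup : ∀ n, d n ≤ 9 * α := by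
    intro n
    have := b.sup n
    rwa [mul_div_assoc, hsy] at this
  have hcvd : ∀ n, n < y1 → cv (ker a0) d n = φ' * d n := fun n hn =>
    P3_cv hk00 hkl b.low hn hy0pos (by omega)
  have hcvs : cv (ker a0) (csum d) (y1 - 1) = φ' * csum d (y1 - 1) :=
    P3_cv hk00 hkl (P3_csum b.low) (by omega) hy0pos (by omega)
  have htot : csum d (y1 - 1) = s := b.tot _ (by omega)
  have hCum0 : ∀ n, 0 ≤ Cum a0 n := fun n => Finset.sum_nonneg fun j _ => hlb0.nn j
  have hCum1 : ∀ n, Cum a0 n ≤ 1 := fun n =>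
    (le_abs_self _).trans (Cum_le (Bd_of_Cpl hlb0.nn hcpl) n)
  have hres : res a0 d y1 ≤ 4 * s := by
    unfold res
    have hsum : ∑ n ∈ range y1, d n = s := by
      rw [← htot]
      unfold csum
      rw [Nat.sub_add_cancel (by omega)]
    rw [← hsum, Finset.mul_sum]
    apply Finset.sum_le_sum
    intro n hn
    have hn' := Finset.mem_range.1 hn
    rw [hcvd n hn', ← sub_mul, abs_mul, abs_of_nonneg (b.nn n)]
    refine mul_le_mul_of_nonneg_right ?_ (b.nn n)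
    have h1 := hCum0 n
    have h2 := hCum1 n
    have h3 := b.nn n
    have h4 := hsup n
    rw [abs_le]
    constructor <;> linarith
  have hst : St Λ Lm ε η Z y0 y1 1 a0 φ' d s := by
    refine ⟨hlb0, hcpl, LB_one Z, hZpos, by rw [← hZ]; exact hZy0, hΛZ, le_of_eq hy1.symm, ?_, hφ0,
      hφ1, hwin, hspos, ?_, ?_, ?_, ?_, ?_, ?_, ?_, ?_, ?_, ?_, ?_⟩
    · exact_mod_cast hLm
    · intro n hn
      rw [abs_of_nonneg (b.cs n).1]
      exact (b.cs n).2
    · rw [htot, abs_of_pos hspos]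
    · intro n hn
      rw [abs_of_nonneg (b.nn n)]
      refine (b.sup n).trans ?_
      have hw : (0 : ℝ) < ww := by unfold ww; positivity
      have hw1 : ww ≤ 1 := by unfold ww; norm_num
      rw [div_le_div_iff₀ hy0R (by positivity)]
      have h1 : s * (y0 : ℝ) * ww ≤ s * y0 * 1 := mul_le_mul_of_nonneg_left hw1 (by positivity)
      have h2 : 0 < s * (y0 : ℝ) := by positivity
      nlinarith
    · intro n hn
      refine (b.dsup n).trans ?_
      refine div_le_div_of_nonneg_right ?_ (by positivity)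
      refine mul_le_mul_of_nonneg_right ?_ hspos.le
      norm_num
    · intro n hn
      exact P3_s4 b hspos hn (by omega)
    · have h0 : ∑ n ∈ range y0, |d n| = 0 := by
        apply Finset.sum_eq_zero
        intro n hn
        have hn' := Finset.mem_range.1 hn
        rw [b.low n (by omega), abs_zero]
      rw [h0]
      exact mul_nonneg c.εpos.le hspos.le
    · rw [hcvs, htot]
      have hff := ff_pos
      have h1 : 0 ≤ phi * (2 * s - φ' * s) := by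
        apply mul_nonneg (by linarith)
        nlinarith
      have h2 : 0 ≤ ff * s := by positivity
      rw [abs_of_nonneg (by nlinarith)]
      nlinarith
    · rw [hs]
      exact mul_le_mul_of_nonneg_right hα1 hy0R.le
    · rw [hcvd (y1 - 1) (by omega), b.high (y1 - 1) (by omega), mul_zero, mul_zero]
    · intro n hn
      rcases lt_or_ge n (y1 - y0 / 2) with hc | hc
      · rw [b.dlow n hc, abs_zero]
        have := hlb0.nn n
        linarith
      · have h1 := b.dsup n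
        have hlt : y0 < y1 := by omega
        have h2 := P3_coeff (a := 1) (W := W) (W' := W') (V := V) (kb := kb) hlt
          (n := n) (by omega) hn
        rw [← ha0] at h2
        have h3 : kb * (1 / ((y1 : ℝ) - y0)) = κ / y0 := by
          have h5 : (0 : ℝ) < (y1 : ℝ) - y0 := by
            have : (y0 : ℝ) < y1 := by exact_mod_cast hlt
            linarith
          rw [hkbdef]
          unfold kbY
          field_simp
        rw [h3] at h2
        have h4 : 0 ≤ coeff n (aF 1 y0 W W' V) := (LBm_aF g hin).nn n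
        have h6 : 81 * s / (y0 : ℝ) ^ 2 = 81 * α / y0 := by
          rw [hs]
          field_simp
        rw [h6] at h1
        refine h1.trans ?_
        have h7 : (1 + kb)⁻¹ ≥ 1 / 2 := by
          rw [ge_iff_le, one_div, inv_le_inv₀ (by norm_num) hkbp]
          linarith
        have h8 : 0 < κ / y0 := div_pos c.κpos hy0R
        have h9 : κ / y0 / 2 ≤ coeff n a0 := by
          rw [h2]
          nlinarith
        have h10' : 81 * α / y0 ≤ κ / y0 / 4 := by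
          rw [div_div, div_le_div_iff₀ hy0R (by positivity)]
          nlinarith
        linarith
    · linarith
  refine ⟨Z, y0, y1, 1, a0, φ', d, s, ⟨hst, Book_zero hlb0.nn hcpl, ?_, ?_⟩, hs⟩
  · have h1 : M + 1 ≤ y0 := by
      rw [hy0]
      exact Nat.le_mul_of_pos_left _ (Nat.mul_pos (by omega) hZpos)
    omega
  · refine hres.trans ?_
    rw [hs]
    have h1 : (y0 : ℝ) ≤ y1 := by exact_mod_cast (by omega : y0 ≤ y1)
    have h2 : α * (y0 : ℝ) ≤ α * y1 := mul_le_mul_of_nonneg_left h1 hα.le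
    have h3 : 0 ≤ α * (y1 : ℝ) := by positivity
    nlinarith

end MP18
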