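import Pool.Agent.Lib.MP_18566a_pr.T.M9
import Pool.Agent.Lib.MP_18566a_pr.T.P3

set_option autoImplicit false

namespace MP18

open Finset PowerSeries

/-- approximate pair of laws on `ℕ / y` -/
structure AP (Λ Lm : ℕ) (c : ℝ) (n : ℕ) (R : ℝ) (a b : PS) (y : ℕ) : Prop where
  ypos : 0 < y
  ann : ∀ j, 0 ≤ coeff j a
  bnn : ∀ j, 0 ≤ coeff j b
  asum : HasSum (fun j => coeff j a) 1
  bsum : HasSum (fun j => coeff j b) 1
  alo : ∀ i ≤ n, ∀ j, y ≤ Λ ^ i * j → (phi / 2) ^ i / 4 ≤ Cum a j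
  blo : ∀ i ≤ n, ∀ j, y ≤ Λ ^ i * j → (phi / 2) ^ i / 4 ≤ Cum b j
  ahi : ∀ i ≤ n, ∀ j, Lm ^ i * j < y → Cum a j ≤ 2 * phi ^ i
  bhi : ∀ i ≤ n, ∀ j, Lm ^ i * j < y → Cum b j ≤ 2 * phi ^ i
  atail : ∀ j, 1 - Cum a (2 * y + j) ≤ 2 * th y ^ j
  btail : ∀ j, 1 - Cum b (2 * y + j) ≤ 2 * th y ^ j
  diff : c * y ≤ |∑ j ∈ range y, (Cum a j - Cum b j)|
  res : ∃ E : PS, Bd 1 E (R * y) ∧ sq a * b - sq b * a = nab * (a * E)

theorem M10_aux_nab (A : PS) (n : ℕ) :
    coeff n (nab * A) = if n = 0 then coeff 0 A else coeff n A - coeff (n - 1) A := by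
  unfold nab
  rw [sub_mul, one_mul, map_sub]
  cases n with
  | zero => simp
  | succ n => rw [PowerSeries.coeff_succ_X_mul]; simp

theorem M10_aux_nab_mk (D : ℕ → ℝ) (n : ℕ) : coeff n (nab * PowerSeries.mk D) = dd D n := by
  rw [M10_aux_nab]
  unfold dd
  simp only [coeff_mk]

theorem M10_aux_Cum_nab (D : ℕ → ℝ) (n : ℕ) : Cum (nab * PowerSeries.mk D) n = D n := by
  unfold Cum
  induction n with
  | zero => rw [sum_range_one, M10_aux_nab_mk]; simp [dd]
  | succ n ih => rw [sum_range_succ, ih, M10_aux_nab_mk]; simp [dd]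

theorem M10_aux_nab_Cum (A : PS) : nab * PowerSeries.mk (fun n => Cum A n) = A := by
  ext n
  rw [M10_aux_nab_mk]
  unfold dd Cum
  cases n with
  | zero => simp
  | succ n =>
    rw [if_neg (Nat.succ_ne_zero n), Nat.succ_sub_one]
    show (∑ j ∈ range (n + 1 + 1), coeff j A) - ∑ j ∈ range (n + 1), coeff j A = _
    rw [sum_range_succ _ (n + 1)]
    ring

theorem M10_aux_Cum_sub (A B : PS) (n : ℕ) : Cum (A - B) n = Cum A n - Cum B n := by
  unfold Cum
  simp only [map_sub, sum_sub_distrib]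

theorem M10_aux_cv (A : PS) (D : ℕ → ℝ) :
    PowerSeries.mk (fun n => cv A D n) = A * PowerSeries.mk D := by
  ext n
  rw [coeff_mk, coeff_mul, Finset.Nat.sum_antidiagonal_eq_sum_range_succ_mk]
  unfold cv
  simp only [coeff_mk]

theorem pair_id {a : PS} (ha : coeff 0 a ≠ 0) (D : ℕ → ℝ) :
    sq a * (a - nab * PowerSeries.mk D) - sq (a - nab * PowerSeries.mk D) * a
      = nab * (a * PowerSeries.mk fun n => (2 * Cum a n - D n) * D n - cv (ker a) D n) := by
  have h1 : sq (a - nab * PowerSeries.mk D) =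
      sq a - nab * PowerSeries.mk (fun n => (2 * Cum a n - D n) * D n) := by
    rw [← M10_aux_nab_Cum (sq (a - nab * PowerSeries.mk D)), ← M10_aux_nab_Cum (sq a), ← mul_sub]
    congr 1
    ext n
    rw [map_sub, coeff_mk, coeff_mk, coeff_mk, Cum_sq, Cum_sq, M10_aux_Cum_sub, M10_aux_Cum_nab]
    ring
  have h2 : (PowerSeries.mk fun n => (2 * Cum a n - D n) * D n - cv (ker a) D n) =
      PowerSeries.mk (fun n => (2 * Cum a n - D n) * D n) - ker a * PowerSeries.mk D := by
    rw [← M10_aux_cv]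
    ext n
    simp only [map_sub, coeff_mk]
  have h3 := ker_mul_self ha
  rw [h1, h2]
  linear_combination (nab * PowerSeries.mk D) * h3

set_option exponentiation.threshold 3000 in
theorem AP_of_Good {Λ Lm n M : ℕ} {ε η gs R c : ℝ} {y'' y' y : ℕ} {a00 a0 : PS} {φ' : ℝ}
    {d : ℕ → ℝ} {S : ℝ} (hΛ : L0 ≤ Λ) (h : Good Λ Lm ε η n M R y'' y' y a00 a0 φ' d S)
    (g : GS Lm gs) (hη0 : 0 ≤ η) (hη : η * (10 ^ 256 * AS Lm ^ 2 * Lm) ≤ gs) (hc : 0 ≤ c)
    (hS : c * y' < S) : ∃ a b : PS, AP Λ Lm (c / (2 * Lm)) n R a b y := by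
  obtain ⟨D, hD, hTE, hdd, hlim⟩ := top_state hΛ h.st g hη0 hη
  have tp := St_TP hΛ h.st
  obtain ⟨hy', hy, hLm, hV0, hV1, hV2, hyy, hy250⟩ := tp.tg.facts
  obtain ⟨p1, p2, -, -⟩ := phs_bd g
  obtain ⟨t1, t2⟩ := th_bd tp.tg
  have hgs := gs_bd g
  have hgs1 : gs ≤ 1 := hgs.trans (by norm_num)
  have hphi := phi_bd
  set a : PS := aS gs a0 y' y with ha
  set b : PS := a - nab * PowerSeries.mk D with hb
  have a00nn : ∀ j, 0 ≤ coeff j a0 := h.st.lb0.nn
  have hann : ∀ j, 0 ≤ coeff j a := fun j => aS_nn tp.tg g a00nn j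
  have hcb : ∀ j, coeff j b = coeff j a - dd D j := by
    intro j
    rw [hb, map_sub, M10_aux_nab_mk]
  have hblo : ∀ j, coeff j a / 2 ≤ coeff j b := by
    intro j
    have := (abs_le.1 (hdd j)).2
    rw [hcb]; linarith
  have hbhi : ∀ j, coeff j b ≤ 3 / 2 * coeff j a := by
    intro j
    have := (abs_le.1 (hdd j)).1
    rw [hcb]; linarith
  have hbnn : ∀ j, 0 ≤ coeff j b := fun j => le_trans (by have := hann j; linarith) (hblo j)
  have hCb : ∀ j, Cum b j = Cum a j - D j := by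
    intro j
    rw [hb, M10_aux_Cum_sub, M10_aux_Cum_nab]
  have hCblo : ∀ j, Cum a j / 2 ≤ Cum b j := by
    intro j
    unfold Cum
    rw [sum_div]
    exact sum_le_sum fun i _ => hblo i
  have hCbhi : ∀ j, Cum b j ≤ 3 / 2 * Cum a j := by
    intro j
    unfold Cum
    rw [mul_sum]
    exact sum_le_sum fun i _ => hbhi i
  have hasum : HasSum (fun j => coeff j a) 1 := aS_sum tp.tg g a00nn h.st.cpl
  have hCa_lim : Filter.Tendsto (fun j => Cum a j) Filter.atTop (nhds 1) :=
    (hasum.tendsto_sum_nat).comp (Filter.tendsto_add_atTop_nat 1)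
  have hCb_lim : Filter.Tendsto (fun j => Cum b j) Filter.atTop (nhds 1) := by
    have := hCa_lim.sub hlim
    rw [sub_zero] at this
    refine this.congr fun j => ?_
    rw [hCb]
  have hbsum : HasSum (fun j => coeff j b) 1 := by
    rw [hasSum_iff_tendsto_nat_of_nonneg hbnn]
    rw [← Filter.tendsto_add_atTop_iff_nat 1]
    exact hCb_lim
  have hlow : ∀ i ≤ n, ∀ j, y ≤ Λ ^ i * j → 99 / 100 * (phi / 2) ^ i ≤ Cum a j := by
    intro i hi j hj
    have hq0 : 0 ≤ (phi / 2) ^ i := by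
      have : 0 ≤ phi / 2 := by linarith [hphi.1]
      positivity
    have hq1 : (phi / 2) ^ i ≤ 1 := by
      apply pow_le_one₀
      · linarith [hphi.1]
      · linarith [hphi.2]
    by_cases hjy : j < y
    · rw [ha, Cum_aS_low gs a0 hjy]
      have h1 := h.bk.lo i hi j hj
      calc 99 / 100 * (phi / 2) ^ i ≤ phs gs * (phi / 2) ^ i :=
            mul_le_mul_of_nonneg_right p1 hq0
        _ ≤ phs gs * Cum a0 j := mul_le_mul_of_nonneg_left h1 (by linarith)
    · have h1 := (Cum_aS_mid (n := j) tp.tg g a00nn h.st.cpl (by omega)).1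
      rw [← ha] at h1
      calc 99 / 100 * (phi / 2) ^ i ≤ 99 / 100 * 1 :=
            mul_le_mul_of_nonneg_left hq1 (by norm_num)
        _ ≤ Cum a j := by linarith
  have hhigh : ∀ i ≤ n, ∀ j, Lm ^ i * j < y → Cum a j ≤ phi ^ i := by
    intro i hi j hj
    have hjy : j < y := by
      refine lt_of_le_of_lt ?_ hj
      have : 1 ≤ Lm ^ i := Nat.one_le_pow _ _ hLm
      nlinarith
    rw [ha, Cum_aS_low gs a0 hjy]
    have h1 := h.bk.hi i hi j hj
    have h2 : 0 ≤ Cum a0 j := sum_nonneg fun i _ => a00nn i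
    calc phs gs * Cum a0 j ≤ 1 * Cum a0 j := mul_le_mul_of_nonneg_right p2 h2
      _ = Cum a0 j := one_mul _
      _ ≤ phi ^ i := h1
  have hn1 : n1 y' y ≤ 2 * y := by
    have h1 : (n1 y' y : ℝ) = y + 2 * Vt y' := by unfold n1; push_cast; ring
    have h2 : (y' : ℝ) ≤ y := by
      refine hyy.trans ?_
      rw [div_le_iff₀ (by positivity)]
      have : (0 : ℝ) ≤ y := Nat.cast_nonneg y
      nlinarith [show (1 : ℝ) ≤ 10 ^ 250 from by norm_num]
    have h3 : (n1 y' y : ℝ) ≤ ((2 * y : ℕ) : ℝ) := by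
      rw [h1]; push_cast
      have : (0 : ℝ) ≤ y' := Nat.cast_nonneg y'
      linarith
    exact_mod_cast h3
  have hta : ∀ j, 1 - Cum a (2 * y + j) ≤ th y ^ j := by
    intro j
    have h1 := Cum_aS_high (gs := gs) (n := 2 * y + j) tp.tg h.st.cpl (by omega)
    rw [← ha] at h1
    rw [h1, sub_sub_cancel]
    have h2 : th y ^ (2 * y + j + 1 - n1 y' y) ≤ th y ^ j :=
      pow_le_pow_of_le_one (by linarith) t2.le (by omega)
    have h3 : 0 ≤ th y ^ (2 * y + j + 1 - n1 y' y) := pow_nonneg (by linarith) _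
    calc gs * th y ^ (2 * y + j + 1 - n1 y' y) ≤ 1 * th y ^ (2 * y + j + 1 - n1 y' y) :=
          mul_le_mul_of_nonneg_right hgs1 h3
      _ = th y ^ (2 * y + j + 1 - n1 y' y) := one_mul _
      _ ≤ th y ^ j := h2
  have htb : ∀ m, 1 - Cum b m ≤ 3 / 2 * (1 - Cum a m) := by
    intro m
    have h1 : Filter.Tendsto (fun N => Cum b N - Cum b m) Filter.atTop (nhds (1 - Cum b m)) :=
      hCb_lim.sub_const _
    have h2 : Filter.Tendsto (fun N => 3 / 2 * (Cum a N - Cum a m)) Filter.atTop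
        (nhds (3 / 2 * (1 - Cum a m))) := (hCa_lim.sub_const _).const_mul _
    refine le_of_tendsto_of_tendsto h1 h2 ?_
    filter_upwards [Filter.eventually_ge_atTop m] with N hN
    have key : ∀ A : PS, Cum A N - Cum A m = ∑ j ∈ Finset.Ico (m + 1) (N + 1), coeff j A := by
      intro A
      unfold Cum
      rw [Finset.sum_Ico_eq_sub _ (by omega)]
    rw [key, key, mul_sum]
    exact sum_le_sum fun i _ => hbhi i
  have hphi0 : ∀ i : ℕ, 0 ≤ phi ^ i := fun i => pow_nonneg (by linarith [hphi.1]) i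
  have hq0 : ∀ i : ℕ, 0 ≤ (phi / 2) ^ i := fun i => pow_nonneg (by linarith [hphi.1]) i
  have hth0 : ∀ j : ℕ, 0 ≤ th y ^ j := fun j => pow_nonneg (by linarith) j
  refine ⟨a, b, ?_⟩
  refine
    { ypos := hy
      ann := hann
      bnn := hbnn
      asum := hasum
      bsum := hbsum
      alo := ?_
      blo := ?_
      ahi := ?_
      bhi := ?_
      atail := ?_
      btail := ?_
      diff := ?_
      res := ?_ }
  · intro i hi j hj
    have h1 := hlow i hi j hj
    have h2 := hq0 i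
    linarith
  · intro i hi j hj
    have h1 := hlow i hi j hj
    have h2 := hq0 i
    have h3 := hCblo j
    linarith
  · intro i hi j hj
    have h1 := hhigh i hi j hj
    have h2 := hphi0 i
    linarith
  · intro i hi j hj
    have h1 := hhigh i hi j hj
    have h2 := hphi0 i
    have h3 := hCbhi j
    linarith
  · intro j
    have h1 := hta j
    have h2 := hth0 j
    linarith
  · intro j
    have h1 := hta j
    have h2 := hth0 j
    have h3 := htb (2 * y + j)
    linarith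
  · have h1 : ∑ j ∈ range y, (Cum a j - Cum b j) = phs gs * csum d (y - 1) := by
      have h2 : ∑ j ∈ range y, (Cum a j - Cum b j) = ∑ j ∈ range y, phs gs * d j := by
        refine sum_congr rfl fun j hj => ?_
        rw [hCb, hD j (mem_range.1 hj)]
        ring
      rw [h2, ← mul_sum]
      unfold csum
      rw [Nat.sub_add_cancel hy]
    rw [h1, abs_mul, h.st.s1', abs_of_nonneg (by linarith : 0 ≤ phs gs)]
    have hL0 : (0 : ℝ) < Lm := by exact_mod_cast hLm
    have hup : (y : ℝ) ≤ Lm * y' := by exact_mod_cast h.st.up2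
    have hSp := h.st.Spos
    have h3 : c / (2 * Lm) * y ≤ c * y' / 2 := by
      rw [div_mul_eq_mul_div, div_le_div_iff₀ (by positivity) (by norm_num)]
      have : c * y ≤ c * (Lm * y') := mul_le_mul_of_nonneg_left hup hc
      nlinarith
    have h4 : S / 2 ≤ phs gs * S := by nlinarith
    linarith
  · have h0 : coeff 0 a ≠ 0 := (aS_fac tp.tg g h.st.lb0).2.2.1
    refine ⟨PowerSeries.mk fun n => (2 * Cum a n - D n) * D n - cv (ker a) D n, ?_, pair_id h0 D⟩
    intro N
    have hE0 : ∀ m, y ≤ m → (2 * Cum a m - D m) * D m - cv (ker a) D m = 0 := by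
      intro m hm
      have := hTE (m + 1) m hm (Nat.lt_succ_self m)
      unfold kS at this
      rw [← ha] at this
      linarith
    have hE1 : ∀ m < y, |(2 * Cum a m - D m) * D m - cv (ker a) D m| ≤
        |(2 * Cum a0 m - d m) * d m - cv (ker a0) d m| := by
      intro m hm
      have := top_E hΛ h.st g hD hm
      unfold kS at this
      rw [← ha] at this
      rw [this, abs_mul, abs_of_nonneg (sq_nonneg (phs gs))]
      have h5 : phs gs ^ 2 ≤ 1 := pow_le_one₀ (by linarith) p2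
      calc phs gs ^ 2 * |(2 * Cum a0 m - d m) * d m - cv (ker a0) d m|
          ≤ 1 * |(2 * Cum a0 m - d m) * d m - cv (ker a0) d m| :=
            mul_le_mul_of_nonneg_right h5 (abs_nonneg _)
        _ = _ := one_mul _
    have h6 : ∑ m ∈ range N, |coeff m (PowerSeries.mk fun n =>
          (2 * Cum a n - D n) * D n - cv (ker a) D n)| * (1 : ℝ) ^ m ≤
        ∑ m ∈ range y, |(2 * Cum a m - D m) * D m - cv (ker a) D m| := by
      simp only [coeff_mk, one_pow, mul_one]
      rcases le_total N y with hNy | hNy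
      · exact sum_le_sum_of_subset_of_nonneg (range_mono hNy) fun _ _ _ => abs_nonneg _
      · refine le_of_eq ?_
        symm
        refine sum_subset (range_mono hNy) fun m _ hm2 => ?_
        rw [hE0 m (by simpa using hm2), abs_zero]
    refine h6.trans ?_
    refine le_trans (sum_le_sum fun m hm => hE1 m (mem_range.1 hm)) ?_
    exact h.rs

end MP18
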