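import Pool.Agent.Lib.MP_18566a_pr.T.P3

set_option autoImplicit false

namespace MP18

open Finset PowerSeries

theorem P4_aux1 {K K2 Cg δ κ1 ε : ℝ} {Λ Lm : ℕ} {κ Gm η1 : ℝ}
    (c : Cst K K2 Cg δ κ1 ε Λ Lm κ Gm η1) : 1 ≤ Λ := by
  have h := c.cΛ
  rcases Nat.eq_zero_or_pos Λ with h0 | h0
  · exfalso
    rw [h0] at h
    have : (0 : ℝ) < L0 := by unfold L0; positivity
    simp only [Nat.cast_zero] at h
    linarith
  · exact h0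

theorem Good_step {K K2 Cg : ℝ} {δ κ1 : ℕ → ℝ} {ε : ℝ} {Λ Lm : ℕ} {κ Gm η1 η : ℝ} {n M : ℕ}
    {R : ℝ} {y'' y' y : ℕ} {a00 a0 : PS} {φ' : ℝ} {d : ℕ → ℝ} {S : ℝ}
    (u : UK K K2 Cg δ κ1) (c : Cst K K2 Cg (δ Lm) (κ1 Lm) ε Λ Lm κ Gm η1) (hG : 1 ≤ Gm)
    (hη : 0 < η) (hη1 : η ≤ η1) (hR : 0 ≤ R)
    (h : Good Λ Lm ε η n M R y'' y' y a00 a0 φ' d S) (hS : S ≤ η / Gm * y') :
    ∃ (Y : ℕ) (a1 : PS) (φ1 : ℝ) (d1 : ℕ → ℝ) (S1 : ℝ),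
      Good Λ Lm ε η (n + 1) M R y' y Y a0 a1 φ1 d1 S1 ∧
      2 * (S / y') ≤ S1 / y ∧ S1 / y ≤ Gm * (S / y') := by
  obtain ⟨Y, a1, φ1, d1, S1, st1, g1, g2, p1, p2, he, hres⟩ := St_step u c hG h.st hη.le hη1 hS
  have hΛ : 1 ≤ Λ := P4_aux1 c
  have hL : 1 ≤ Lm := by have := c.cL; omega
  have hy : 0 < y := lt_of_lt_of_le (by positivity) st1.big
  have hyY : y ≤ Y := le_trans (Nat.le_mul_of_pos_left y hΛ) st1.sep2
  refine ⟨Y, a1, φ1, d1, S1, ⟨st1, ?_, h.My.trans hyY, ?_⟩, g1, g2⟩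
  · exact Book_step h.bk h.st.lb0.nn st1.lb0.nn h.st.cpl st1.cpl hy hΛ hL st1.sep2 st1.up2 p1 p2 he
  · refine (hres.trans h.rs).trans (mul_le_mul_of_nonneg_left ?_ hR)
    exact_mod_cast hyY

theorem chain1 {K K2 Cg : ℝ} {δ κ1 : ℕ → ℝ} {ε : ℝ} {Λ Lm : ℕ} {κ Gm η1 η : ℝ}
    (u : UK K K2 Cg δ κ1) (c : Cst K K2 Cg (δ Lm) (κ1 Lm) ε Λ Lm κ Gm η1) (hG : 1 ≤ Gm)
    (hη : 0 < η) (hη1 : η ≤ η1) (M : ℕ) (k : ℕ) {α : ℝ} (hα : 0 < α) (hα1 : α * Gm ^ k ≤ η) :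
    ∃ (y'' y' y : ℕ) (a00 a0 : PS) (φ' : ℝ) (d : ℕ → ℝ) (S : ℝ),
      Good Λ Lm ε η k M (50 * α) y'' y' y a00 a0 φ' d S ∧ S ≤ α * Gm ^ k * y' := by
  induction k with
  | zero =>
    rw [pow_zero, mul_one] at hα1
    obtain ⟨y'', y', y, a00, a0, φ', d, S, hg, hS⟩ := base_state u c hη hη1 M hα hα1
    exact ⟨y'', y', y, a00, a0, φ', d, S, hg, by rw [hS, pow_zero, mul_one]⟩
  | succ k ih =>
    have hG0 : 0 < Gm := lt_of_lt_of_le one_pos hG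
    have hk : α * Gm ^ k * Gm ≤ η := by rw [mul_assoc, ← pow_succ]; exact hα1
    have hk0 : 0 ≤ α * Gm ^ k := by positivity
    have hk' : α * Gm ^ k ≤ η := (le_mul_of_one_le_right hk0 hG).trans hk
    have hk2 : α * Gm ^ k ≤ η / Gm := by rw [le_div_iff₀ hG0]; exact hk
    obtain ⟨y'', y', y, a00, a0, φ', d, S, hg, hS⟩ := ih hk'
    have hS2 : S ≤ η / Gm * y' := hS.trans (mul_le_mul_of_nonneg_right hk2 (Nat.cast_nonneg _))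
    obtain ⟨Y, a1, φ1, d1, S1, hg1, h2, h3⟩ :=
      Good_step u c hG hη hη1 (by positivity) hg hS2
    refine ⟨y', y, Y, a0, a1, φ1, d1, S1, hg1, ?_⟩
    have hy : (0 : ℝ) < y := by
      have := hg1.st.big
      exact_mod_cast (lt_of_lt_of_le (by positivity) this)
    have hy' : (0 : ℝ) < y' := by
      have := hg.st.big
      exact_mod_cast (lt_of_lt_of_le (by positivity) this)
    have e1 : S / y' ≤ α * Gm ^ k := by rw [div_le_iff₀ hy']; exact hS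
    rw [← div_le_iff₀ hy]
    calc S1 / y ≤ Gm * (S / y') := h3
      _ ≤ Gm * (α * Gm ^ k) := mul_le_mul_of_nonneg_left e1 hG0.le
      _ = α * Gm ^ (k + 1) := by ring

theorem chain2 {K K2 Cg : ℝ} {δ κ1 : ℕ → ℝ} {ε : ℝ} {Λ Lm : ℕ} {κ Gm η1 η : ℝ} {n M : ℕ} {R : ℝ}
    (u : UK K K2 Cg δ κ1) (c : Cst K K2 Cg (δ Lm) (κ1 Lm) ε Λ Lm κ Gm η1) (hG : 1 ≤ Gm)
    (hη : 0 < η) (hη1 : η ≤ η1) (hR : 0 ≤ R) (k : ℕ) {y'' y' y : ℕ} {a00 a0 : PS} {φ' : ℝ}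
    {d : ℕ → ℝ} {S : ℝ} (h : Good Λ Lm ε η n M R y'' y' y a00 a0 φ' d S)
    (hS : η / Gm * y' < 2 ^ k * S) :
    ∃ (y'' y' y : ℕ) (a00 a0 : PS) (φ' : ℝ) (d : ℕ → ℝ) (S : ℝ),
      Good Λ Lm ε η n M R y'' y' y a00 a0 φ' d S ∧ η / Gm * y' < S := by
  have hG0 : 0 < Gm := lt_of_lt_of_le one_pos hG
  induction k generalizing y'' y' y a00 a0 φ' d S with
  | zero => exact ⟨y'', y', y, a00, a0, φ', d, S, h, by simpa using hS⟩
  | succ k ih =>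
    rcases lt_or_ge (η / Gm * y') S with hc | hc
    · exact ⟨y'', y', y, a00, a0, φ', d, S, h, hc⟩
    · obtain ⟨Y, a1, φ1, d1, S1, hg1, h2, h3⟩ := Good_step u c hG hη hη1 hR h hc
      have hy : (0 : ℝ) < y := by
        have := hg1.st.big
        exact_mod_cast (lt_of_lt_of_le (by positivity) this)
      have hy' : (0 : ℝ) < y' := by
        have := h.st.big
        exact_mod_cast (lt_of_lt_of_le (by positivity) this)
      refine ih (y'' := y') (y' := y) (y := Y) (a00 := a0) (a0 := a1) (φ' := φ1) (d := d1)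
        (S := S1) ⟨hg1.st, Book_mono hg1.bk (Nat.le_succ n), hg1.My, hg1.rs⟩ ?_
      have e1 : η / Gm < 2 ^ (k + 1) * (S / y') := by
        rw [← mul_div_assoc, lt_div_iff₀ hy']; exact hS
      have e2 : η / Gm < 2 ^ k * (S1 / y) := by
        calc η / Gm < 2 ^ (k + 1) * (S / y') := e1
          _ = 2 ^ k * (2 * (S / y')) := by ring
          _ ≤ 2 ^ k * (S1 / y) := mul_le_mul_of_nonneg_left h2 (by positivity)
      rw [← mul_div_assoc, lt_div_iff₀ hy] at e2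
      exact e2

theorem chain {K K2 Cg : ℝ} {δ κ1 : ℕ → ℝ} {ε : ℝ} {Λ Lm : ℕ} {κ Gm η1 η : ℝ}
    (u : UK K K2 Cg δ κ1) (c : Cst K K2 Cg (δ Lm) (κ1 Lm) ε Λ Lm κ Gm η1) (hG : 1 ≤ Gm)
    (hη : 0 < η) (hη1 : η ≤ η1) (n M : ℕ) {R : ℝ} (hR : 0 < R) :
    ∃ (y'' y' y : ℕ) (a00 a0 : PS) (φ' : ℝ) (d : ℕ → ℝ) (S : ℝ),
      Good Λ Lm ε η n M R y'' y' y a00 a0 φ' d S ∧ η / Gm * y' < S := by
  have hG0 : 0 < Gm := lt_of_lt_of_le one_pos hG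
  have hGn : 0 < Gm ^ n := pow_pos hG0 n
  have hα : 0 < min (η / Gm ^ n) (R / 50) := lt_min (by positivity) (by positivity)
  have hα1 : min (η / Gm ^ n) (R / 50) * Gm ^ n ≤ η := by
    have := min_le_left (η / Gm ^ n) (R / 50)
    calc min (η / Gm ^ n) (R / 50) * Gm ^ n ≤ η / Gm ^ n * Gm ^ n :=
          mul_le_mul_of_nonneg_right this hGn.le
      _ = η := by field_simp
  have hα2 : 50 * min (η / Gm ^ n) (R / 50) ≤ R := by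
    have := min_le_right (η / Gm ^ n) (R / 50)
    linarith
  obtain ⟨y'', y', y, a00, a0, φ', d, S, hg, -⟩ := chain1 u c hG hη hη1 M n hα hα1
  have hg2 : Good Λ Lm ε η n M R y'' y' y a00 a0 φ' d S :=
    ⟨hg.st, hg.bk, hg.My, hg.rs.trans (mul_le_mul_of_nonneg_right hα2 (Nat.cast_nonneg _))⟩
  have hS := hg.st.Spos
  obtain ⟨k, hk⟩ := pow_unbounded_of_one_lt (η / Gm * y' / S) (one_lt_two)
  have hk2 : η / Gm * y' < 2 ^ k * S := by rwa [div_lt_iff₀ hS] at hk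
  exact chain2 u c hG hη hη1 hR.le k hg2 hk2

end MP18
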