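import Pool.Agent.Lib.MP_18566a_pr.T.M10
import Pool.Agent.Lib.MP_18566a_pr.T.P4

set_option autoImplicit false

namespace MP18

open Finset PowerSeries

theorem AP_seq : ∃ (Λ Lm : ℕ) (c : ℝ), 2 ≤ Λ ∧ 1 ≤ Lm ∧ 0 < c ∧
    ∀ k : ℕ, ∃ (a b : PS) (y : ℕ), k < y ∧ AP Λ Lm c k (1 / ((k : ℝ) + 1)) a b y := by
  obtain ⟨K, K2, Cg, δ, κ1, u⟩ := UK_exists
  obtain ⟨ε, Λ, Lm, κ, Gm, η1, hG, c⟩ := Cst_exists K K2 Cg u.hK u.hK2 u.hCg δ κ1 u.hδ u.hκ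
  have hLm : 20 ≤ Lm := le_trans (Nat.le_add_left 20 Λ) c.cL
  have hLm0 : (0 : ℝ) < (Lm : ℝ) := by
    have : (0 : ℕ) < Lm := by omega
    exact_mod_cast this
  have hAS : 0 < AS Lm := lt_of_lt_of_le (by positivity) (AS_bd Lm)
  obtain ⟨gs, hgs⟩ : ∃ gs : ℝ, gs = 1 / (10 ^ 9 * AS Lm) := ⟨_, rfl⟩
  have hgs0 : 0 < gs := by rw [hgs]; positivity
  have g : GS Lm gs := by
    refine ⟨hgs0, ?_⟩
    rw [hgs, one_div_mul_cancel (by positivity)]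
  obtain ⟨B, hB⟩ : ∃ B : ℝ, B = 10 ^ 256 * AS Lm ^ 2 * Lm := ⟨_, rfl⟩
  have hB0 : 0 < B := by
    rw [hB]
    exact mul_pos (mul_pos (pow_pos (by norm_num) _) (pow_pos hAS 2)) hLm0
  obtain ⟨η, hη⟩ : ∃ η : ℝ, η = min η1 (gs / B) := ⟨_, rfl⟩
  have hη0 : 0 < η := by
    rw [hη]
    exact lt_min c.ηpos (div_pos hgs0 hB0)
  have hη1 : η ≤ η1 := by rw [hη]; exact min_le_left _ _
  have hη2 : η * (10 ^ 256 * AS Lm ^ 2 * Lm) ≤ gs := by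
    rw [← hB, ← le_div_iff₀ hB0, hη]
    exact min_le_right _ _
  have hG0 : 0 < Gm := lt_of_lt_of_le one_pos hG
  refine ⟨Λ, Lm, η / Gm / (2 * Lm), ?_, by omega, by positivity, fun k => ?_⟩
  · have h1 : (2 : ℝ) ≤ (Λ : ℝ) := by
      refine le_trans ?_ c.cΛ
      rw [L0]
      calc (2 : ℝ) ≤ 10 ^ 1 := by norm_num
        _ ≤ 10 ^ 250 := pow_le_pow_right₀ (by norm_num) (by norm_num)
    exact_mod_cast h1
  · obtain ⟨y'', y', y, a00, a0, φ', d, S, h, hS⟩ := chain u c hG hη0 hη1 k (k + 1)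
      (R := 1 / ((k : ℝ) + 1)) (by positivity)
    obtain ⟨a, b, hab⟩ := AP_of_Good c.cΛ h g hη0.le hη2 (by positivity) hS
    exact ⟨a, b, y, h.My, hab⟩

end MP18
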