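import Pool.Agent.Lib.MP_18566a_pr.T.M1
import Pool.Agent.Lib.MP_18566a_pr.T.J3

set_option autoImplicit false

namespace MP18

open Finset PowerSeries

section
variable {Lm y' y n : ℕ} {gs : ℝ} {a0 : PS}

noncomputable def kS (gs : ℝ) (a0 : PS) (y' y : ℕ) : PS := ker (aS gs a0 y' y)

noncomputable def kx (gs : ℝ) (a0 : PS) (y' y : ℕ) : PS :=
  ker a0 - (1 / phs gs ^ 2) • (Mc y' y * a0⁻¹)
    - (1 / phs gs ^ 2) • (Rc gs y' y * a0⁻¹ + gs ^ 2 • (G2 y' y * a0⁻¹))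

noncomputable def xx (gs : ℝ) (a0 : PS) (y' y : ℕ) (D : ℕ → ℝ) (n : ℕ) : ℝ :=
  coeff n ((phs gs • 1 + QT gs y' y * a0⁻¹)⁻¹ * PowerSeries.mk D)

theorem M2_aux_bb : 0 < bb ∧ bb ≤ 1 / 10 ^ 139 := by
  obtain ⟨h1, h2⟩ := bb_bd
  have h3 := ff_pos
  refine ⟨lt_of_lt_of_le (mul_pos (by norm_num) h3) h1, ?_⟩
  refine le_trans h2 ?_
  unfold ff
  rw [mul_one_div, div_le_div_iff₀ (by positivity) (by positivity)]
  have e : (10 : ℝ) ^ 140 = 10 * 10 ^ 139 := by rw [← pow_succ']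
  rw [e]
  have hp : (0 : ℝ) < 10 ^ 139 := by positivity
  generalize (10 : ℝ) ^ 139 = P at hp
  nlinarith

/-- sizes of the small parameters -/
theorem M2_aux_small (g : GS Lm gs) : 0 < bb ∧ 0 < gs ∧ bb ≤ 1 / 10 ^ 12 ∧ gs ≤ 1 / 10 ^ 12 ∧
    (1 : ℝ) / 10 ^ 99 ≤ 1 / 10 ^ 12 := by
  refine ⟨M2_aux_bb.1, g.pos, M2_aux_bb.2.trans ?_, (gs_bd g).trans ?_, ?_⟩ <;>
  exact one_div_le_one_div_of_le (by positivity) (pow_le_pow_right₀ (by norm_num) (by norm_num))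

theorem M2_aux_QT_low (gs : ℝ) (y' y : ℕ) : ∀ l < y, coeff l (QT gs y' y) = 0 := by
  intro l hl
  have h1 : l < n1 y' y := lt_of_lt_of_le hl (by unfold n1; omega)
  unfold QT Qc
  simp only [map_add, coeff_smul, T2_low y' y l hl, Us_low y' y l hl, Eg_low y' y l h1, smul_zero,
    add_zero]

theorem M2_aux_low {A : PS} {m : ℕ} (hA : ∀ l < m, coeff l A = 0) (B : PS) :
    ∀ l < m, coeff l (A * B) = 0 := by
  have h := low_mul (n := 0) (B := B) hA (fun k hk => absurd hk (Nat.not_lt_zero k))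
  simpa using h

theorem M2_aux_QTA (gs : ℝ) (a0 : PS) (y' y : ℕ) :
    ∀ l < y, coeff l (QT gs y' y * a0⁻¹) = 0 :=
  M2_aux_low (M2_aux_QT_low gs y' y) _

theorem M2_aux_inv {c : ℝ} (hc : c ≠ 0) : (c • (1 : PS))⁻¹ = (1 / c) • 1 := by
  refine inv_unique_PS ?_
  rw [smul_mul_smul_comm, mul_one, mul_one_div_cancel hc, one_smul]

theorem aS_fac (t : TG Lm y' y) (g : GS Lm gs) (h : LB y' a0) :
    aS gs a0 y' y = a0 * (phs gs • 1 + QT gs y' y * a0⁻¹) ∧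
    coeff 0 (phs gs • 1 + QT gs y' y * a0⁻¹) ≠ 0 ∧ coeff 0 (aS gs a0 y' y) ≠ 0 ∧
    Bd 1 (phs gs • 1 + QT gs y' y * a0⁻¹)⁻¹ (102 / 100) := by
  obtain ⟨p1, p2, -, -⟩ := phs_bd g
  obtain ⟨-, hy, -⟩ := t.facts
  have hphs : phs gs ≠ 0 := by
    intro h0
    rw [h0] at p1
    norm_num at p1
  have hinv := mul_inv_PS h.pos.ne'
  have e1 : aS gs a0 y' y = a0 * (phs gs • 1 + QT gs y' y * a0⁻¹) := by
    unfold aS
    rw [mul_add, mul_smul_comm, mul_one, mul_left_comm, hinv, mul_one]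
  have hM : Bd 1 ((phs gs • (1 : PS))⁻¹) (100 / 99) := by
    rw [M2_aux_inv hphs]
    have h1 := Bd_smul (1 / phs gs) (Bd_one (r := 1) (by norm_num))
    refine Bd_mono h1 ?_
    have h2 : 0 < phs gs := by linarith
    rw [mul_one, abs_of_pos (by positivity), div_le_div_iff₀ h2 (by norm_num)]
    linarith
  have h0 : coeff 0 (phs gs • (1 : PS)) ≠ 0 := by
    rw [coeff_smul, smul_eq_mul, coeff_one, if_pos rfl, mul_one]
    exact hphs
  obtain ⟨-, -, -, -, h99⟩ := M2_aux_small g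
  obtain ⟨h2, h3⟩ := Bd_inv_add (r := 1) (by norm_num) h0 hM (QT_bd t g h) (by
    refine lt_of_le_of_lt (mul_le_mul_of_nonneg_left h99 (by norm_num)) ?_
    norm_num)
  refine ⟨e1, h2, ?_, ?_⟩
  · rw [aS_low gs a0 hy]
    exact mul_ne_zero hphs h.pos.ne'
  · refine Bd_mono h3 ?_
    have h4 : (0 : ℝ) ≤ 1 / 10 ^ 99 := by positivity
    have h5 : (1 : ℝ) / 10 ^ 99 ≤ 1 / 1000 := h99.trans (by norm_num)
    rw [div_le_iff₀ (by linarith)]
    linarith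

theorem QTA_low (gs : ℝ) (a0 : PS) (y' y : ℕ) :
    ∀ l < y, coeff l (QT gs y' y * a0⁻¹) = 0 := M2_aux_QTA gs a0 y' y

theorem M2_aux_mkxx (gs : ℝ) (a0 : PS) (y' y : ℕ) (D : ℕ → ℝ) :
    PowerSeries.mk (xx gs a0 y' y D) =
      (phs gs • 1 + QT gs y' y * a0⁻¹)⁻¹ * PowerSeries.mk D := by
  ext n
  rw [coeff_mk]
  rfl

theorem M2_aux_D (t : TG Lm y' y) (g : GS Lm gs) (h : LB y' a0) (D : ℕ → ℝ) :
    PowerSeries.mk D = (phs gs • 1 + QT gs y' y * a0⁻¹) *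
      PowerSeries.mk (xx gs a0 y' y D) := by
  obtain ⟨-, h2, -, -⟩ := aS_fac t g h
  rw [M2_aux_mkxx, ← mul_assoc, mul_inv_PS h2, one_mul]

theorem D_of_x (t : TG Lm y' y) (g : GS Lm gs) (h : LB y' a0) (D : ℕ → ℝ) (n : ℕ) :
    D n = phs gs * xx gs a0 y' y D n + cv (QT gs y' y * a0⁻¹) (xx gs a0 y' y D) n := by
  have h1 := congrArg (coeff n) (M2_aux_D t g h D)
  rw [coeff_mk, add_mul, map_add, smul_mul_assoc, one_mul, coeff_smul, coeff_mk,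
    ← cv_eq_coeff] at h1
  exact h1

theorem M2_aux_QcCpl (t : TG Lm y' y) (gs : ℝ) : Cpl (Qc gs y' y) (n1 y' y) (bb + gs) := by
  have h := Cpl_add (Cpl_smul bb (Cpl_T2 t)) (Cpl_smul gs (Cpl_Us t))
  rw [mul_one, mul_one] at h
  exact h

theorem M2_aux_Y (t : TG Lm y' y) (gs : ℝ) :
    (2 * (1 - phs gs)) • QT gs y' y - sq (QT gs y' y) =
      Mc y' y + Rc gs y' y + gs ^ 2 • G2 y' y := by
  have h1 : sq (QT gs y' y) = sq (Qc gs y' y) + (2 * (bb + gs)) • (gs • Eg y' y) +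
      sq (gs • Eg y' y) := by
    unfold QT
    refine sq_add_Cpl (M2_aux_QcCpl t gs) fun n hn => ?_
    rw [coeff_smul, Eg_low y' y n hn, smul_zero]
  rw [h1, sq_smul, ← sq_Eg t]
  unfold Rc
  unfold phs QT
  ext n
  simp only [map_sub, map_add, coeff_smul, smul_eq_mul]
  ring

theorem M2_aux_sqaS (c : Cpl a0 y 1) (gs : ℝ) (y' : ℕ) : sq (aS gs a0 y' y) =
    phs gs ^ 2 • sq a0 + (2 * phs gs) • QT gs y' y + sq (QT gs y' y) := by
  unfold aS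
  have h := Cpl_smul (phs gs) c
  rw [mul_one] at h
  rw [sq_add_Cpl h (M2_aux_QT_low gs y' y), sq_smul]

/-- the kernel in terms of the factorisation -/
theorem M2_aux_kS (t : TG Lm y' y) (g : GS Lm gs) (h : LB y' a0) (c : Cpl a0 y 1) :
    kS gs a0 y' y = (phs gs ^ 2 • ker a0 + (2 : ℝ) • (QT gs y' y * a0⁻¹) -
      (Mc y' y * a0⁻¹ + Rc gs y' y * a0⁻¹ + gs ^ 2 • (G2 y' y * a0⁻¹))) *
        (phs gs • 1 + QT gs y' y * a0⁻¹)⁻¹ := by
  obtain ⟨h1, h2, -, -⟩ := aS_fac t g h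
  have e1 : kS gs a0 y' y = sq (aS gs a0 y' y) * (aS gs a0 y' y)⁻¹ := rfl
  have e2 : (aS gs a0 y' y)⁻¹ = a0⁻¹ * (phs gs • 1 + QT gs y' y * a0⁻¹)⁻¹ := by
    rw [h1, mul_inv_rev_PS]
  have e3 : phs gs ^ 2 • ker a0 + (2 : ℝ) • (QT gs y' y * a0⁻¹) -
      (Mc y' y * a0⁻¹ + Rc gs y' y * a0⁻¹ + gs ^ 2 • (G2 y' y * a0⁻¹)) =
      sq (aS gs a0 y' y) * a0⁻¹ := by
    rw [M2_aux_sqaS c]
    have e4 : sq (QT gs y' y) = (2 * (1 - phs gs)) • QT gs y' y -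
        (Mc y' y + Rc gs y' y + gs ^ 2 • G2 y' y) := by
      rw [← M2_aux_Y t gs]
      abel
    rw [e4]
    unfold ker
    ext n
    simp only [sub_mul, add_mul, smul_mul_assoc, map_sub, map_add, coeff_smul, smul_eq_mul]
    ring
  rw [e1, e2, e3, mul_assoc]

theorem x_eq (t : TG Lm y' y) (g : GS Lm gs) (h : LB y' a0) (c : Cpl a0 y 1) (D : ℕ → ℝ) (n : ℕ) :
    2 * D n - cv (kS gs a0 y' y) D n
      = phs gs ^ 2 * (2 * (1 / phs gs) * xx gs a0 y' y D n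
          - cv (kx gs a0 y' y) (xx gs a0 y' y D) n) := by
  obtain ⟨p1, -, -, -⟩ := phs_bd g
  have hphs : phs gs ≠ 0 := by
    intro h0
    rw [h0] at p1
    norm_num at p1
  have h1 : cv (kS gs a0 y' y) D n = cv (phs gs ^ 2 • ker a0 + (2 : ℝ) • (QT gs y' y * a0⁻¹) -
      (Mc y' y * a0⁻¹ + Rc gs y' y * a0⁻¹ + gs ^ 2 • (G2 y' y * a0⁻¹)))
        (xx gs a0 y' y D) n := by
    rw [cv_eq_coeff, cv_eq_coeff, M2_aux_kS t g h c, M2_aux_mkxx, mul_assoc]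
  rw [h1, D_of_x t g h D n]
  unfold kx
  rw [cv_sub_left, cv_add_left, cv_smul_left, cv_smul_left, cv_add_left, cv_add_left, cv_smul_left,
    cv_sub_left, cv_sub_left, cv_smul_left, cv_smul_left, cv_add_left, cv_smul_left]
  field_simp
  ring

theorem M2_aux_nab (A : PS) (n : ℕ) : coeff n (nab * A) = dd (fun m => coeff m A) n := by
  unfold nab dd
  rcases n with _ | n
  · rw [if_pos rfl, sub_mul, one_mul, map_sub]
    simp
  · rw [if_neg (Nat.succ_ne_zero n), sub_mul, one_mul, map_sub, coeff_succ_X_mul,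
      Nat.add_sub_cancel]

theorem xx_dd (gs : ℝ) (a0 : PS) (y' y : ℕ) (D : ℕ → ℝ) (n : ℕ) :
    xx gs a0 y' y (dd D) n = dd (xx gs a0 y' y D) n := by
  have e : PowerSeries.mk (dd D) = nab * PowerSeries.mk D := by
    ext m
    rw [coeff_mk, M2_aux_nab]
    congr 1
    funext k
    rw [coeff_mk]
  unfold xx
  rw [e, mul_left_comm, M2_aux_nab]

theorem Bd_kS (t : TG Lm y' y) (g : GS Lm gs) (h : LB y' a0) (c : Cpl a0 y 1) :
    Bd 1 (kS gs a0 y' y) 39 := by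
  obtain ⟨p1, p2, -, -⟩ := phs_bd g
  obtain ⟨-, -, -, hP⟩ := aS_fac t g h
  obtain ⟨s1, s2, s3, s4, s5⟩ := M2_aux_small g
  have hz : (1 : ℝ) ≤ 1 + 2 / y := by
    have : (0 : ℝ) ≤ 2 / y := by positivity
    linarith
  have k0 := h.kn 1 Adm_one
  obtain ⟨m0, -⟩ := Mc_bd t h le_rfl hz
  have r0 := Rc_bd t g h le_rfl hz
  have g0 := G2_bd1 t h
  have hh := Bd_mul (r := 1) (by norm_num) (Bd_sub (r := 1) (by norm_num)
    (Bd_add (r := 1) (by norm_num) (Bd_smul (phs gs ^ 2) k0) (Bd_smul 2 (QT_bd t g h)))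
    (Bd_add (r := 1) (by norm_num) (Bd_add (r := 1) (by norm_num) m0 r0)
      (Bd_smul (gs ^ 2) g0))) hP
  rw [M2_aux_kS t g h c]
  refine Bd_mono hh ?_
  rw [abs_of_nonneg (sq_nonneg (phs gs)), abs_of_nonneg (sq_nonneg gs),
    abs_of_pos (by norm_num : (0 : ℝ) < 2)]
  have q1 : phs gs ^ 2 ≤ 1 := pow_le_one₀ (by linarith) p2
  have q2 : bb ^ 2 ≤ 1 / 10 ^ 12 := by
    have : bb ^ 2 = bb * bb := by ring
    rw [this]
    calc bb * bb ≤ bb * 1 := mul_le_mul_of_nonneg_left (s3.trans (by norm_num)) s1.le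
      _ ≤ 1 / 10 ^ 12 := by linarith
  have q3 : gs ^ 2 ≤ 1 / 10 ^ 12 := by
    have : gs ^ 2 = gs * gs := by ring
    rw [this]
    calc gs * gs ≤ gs * 1 := mul_le_mul_of_nonneg_left (s4.trans (by norm_num)) s2.le
      _ ≤ 1 / 10 ^ 12 := by linarith
  have q4 : phs gs ^ 2 * 38 + 2 * (1 / 10 ^ 99) +
      (10 ^ 7 * bb ^ 2 + 10 ^ 6 * gs + gs ^ 2 * 40) ≤ 382 / 10 := by
    norm_num at q2 q3 s4 s5 ⊢
    linarith
  calc (phs gs ^ 2 * 38 + 2 * (1 / 10 ^ 99) +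
      (10 ^ 7 * bb ^ 2 + 10 ^ 6 * gs + gs ^ 2 * 40)) * (102 / 100) ≤ 382 / 10 * (102 / 100) :=
        mul_le_mul_of_nonneg_right q4 (by norm_num)
    _ ≤ 39 := by norm_num

theorem Bd_kx (t : TG Lm y' y) (g : GS Lm gs) (h : LB y' a0) :
    Bd (rh y) (kx gs a0 y' y) 39 := by
  obtain ⟨p1, p2, -, p4⟩ := phs_bd g
  obtain ⟨s1, s2, s3, s4, s5⟩ := M2_aux_small g
  obtain ⟨r1, r2⟩ := rh_bd t
  have hr : 0 ≤ rh y := by linarith
  have k0 := h.kn (rh y) (r_adm t r1 r2).1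
  obtain ⟨m0, -⟩ := Mc_bd t h r1 r2
  have r0 := Rc_bd t g h r1 r2
  have g0 := G2_bd t h
  have hh := Bd_sub hr (Bd_sub hr k0 (Bd_smul (1 / phs gs ^ 2) m0))
    (Bd_smul (1 / phs gs ^ 2) (Bd_add hr r0 (Bd_smul (gs ^ 2) g0)))
  unfold kx
  refine Bd_mono hh ?_
  have q0 : 0 ≤ 1 / phs gs ^ 2 := by positivity
  rw [abs_of_nonneg q0, abs_of_nonneg (sq_nonneg gs)]
  have q2 : bb ^ 2 ≤ 1 / 10 ^ 12 := by
    have : bb ^ 2 = bb * bb := by ring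
    rw [this]
    calc bb * bb ≤ bb * 1 := mul_le_mul_of_nonneg_left (s3.trans (by norm_num)) s1.le
      _ ≤ 1 / 10 ^ 12 := by linarith
  have q3 : gs ^ 2 ≤ 1 / 10 ^ 12 := by
    have : gs ^ 2 = gs * gs := by ring
    rw [this]
    calc gs * gs ≤ gs * 1 := mul_le_mul_of_nonneg_left (s4.trans (by norm_num)) s2.le
      _ ≤ 1 / 10 ^ 12 := by linarith
  have q4 : 1 / phs gs ^ 2 * (10 ^ 7 * bb ^ 2) ≤ 103 / 100 * (10 ^ 7 * bb ^ 2) :=
    mul_le_mul_of_nonneg_right p4 (by positivity)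
  have q5 : 1 / phs gs ^ 2 * (10 ^ 6 * gs + gs ^ 2 * 40) ≤ 103 / 100 * (10 ^ 6 * gs + gs ^ 2 * 40) :=
    mul_le_mul_of_nonneg_right p4 (by positivity)
  have q6 : 103 / 100 * (10 ^ 7 * bb ^ 2) + 103 / 100 * (10 ^ 6 * gs + gs ^ 2 * 40) ≤ 1 := by
    norm_num at q2 q3 s4 ⊢
    linarith
  linarith

theorem kS_low (t : TG Lm y' y) (g : GS Lm gs) (h : LB y' a0) {l : ℕ} (hl : l < y) :
    coeff l (kS gs a0 y' y) = phs gs * coeff l (ker a0) := by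
  obtain ⟨p1, -, -, -⟩ := phs_bd g
  have hphs : phs gs ≠ 0 := by
    intro h0
    rw [h0] at p1
    norm_num at p1
  obtain ⟨-, -, h3, -⟩ := aS_fac t g h
  have h4 := ker_congr (A := aS gs a0 y' y) (B := phs gs • a0) (N := y) h3 (fun j hj => by
    rw [aS_low gs a0 hj, coeff_smul, smul_eq_mul]) l hl
  unfold kS
  rw [h4, ker_smul hphs, coeff_smul, smul_eq_mul]

theorem kx0 (t : TG Lm y' y) (h : LB y' a0) (c : Cpl a0 y 1) :
    0 ≤ coeff 0 (kx gs a0 y' y) ∧ coeff 0 (kx gs a0 y' y) ≤ 1 := by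
  obtain ⟨-, hy, -⟩ := t.facts
  have hn1 : 0 < n1 y' y := lt_of_lt_of_le hy (by unfold n1; omega)
  have m0 : coeff 0 (Mc y' y) = 0 := by
    unfold Mc
    rw [coeff_smul, map_sub, coeff_smul, coeff_sq, T2_low y' y 0 hy]
    simp
  have r0 : coeff 0 (Rc gs y' y) = 0 := by
    unfold Rc Qc
    rw [map_sub, map_sub, coeff_smul, coeff_sq, map_add, coeff_smul, coeff_smul,
      T2_low y' y 0 hy, Us_low y' y 0 hy, m0]
    simp
  have g0 := G2_low y' y 0 hn1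
  have hz : ∀ A : PS, coeff 0 A = 0 → coeff 0 (A * a0⁻¹) = 0 := by
    intro A hA
    refine M2_aux_low (m := 1) (fun l hl => ?_) _ 0 (by norm_num)
    obtain rfl : l = 0 := by omega
    exact hA
  have e : coeff 0 (kx gs a0 y' y) = coeff 0 a0 := by
    unfold kx
    rw [map_sub, map_sub, coeff_smul, coeff_smul, map_add, coeff_smul, hz _ m0, hz _ r0, hz _ g0,
      coeff_zero_ker h.pos.ne']
    simp
  rw [e]
  refine ⟨h.pos.le, ?_⟩
  rw [← c.2]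
  exact Finset.single_le_sum (f := fun j => coeff j a0) (fun j _ => h.nn j)
    (Finset.mem_range.mpr hy)

end

end MP18
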