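import Pool.Agent.Lib.MP_18566a_pr.T.M2
import Pool.Agent.Lib.MP_18566a_pr.T.B1
import Pool.Agent.Lib.MP_18566a_pr.T.B4

set_option autoImplicit false

namespace MP18

open Finset PowerSeries

theorem M3_aux_bb : 0 < bb ∧ bb ≤ 1 / 10 ^ 139 ∧ 1 / 10 ^ 140 ≤ bb := by
  obtain ⟨h1, h2⟩ := bb_bd
  have h3 := ff_pos
  have hff : ff = 1 / 10 ^ 140 := rfl
  refine ⟨lt_of_lt_of_le (mul_pos (by norm_num) h3) h1, ?_, ?_⟩
  · refine le_trans h2 ?_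
    rw [hff, mul_one_div, div_le_div_iff₀ (by positivity) (by positivity)]
    have e : (10 : ℝ) ^ 140 = 10 * 10 ^ 139 := by rw [← pow_succ']
    rw [e]
    have hp : (0 : ℝ) < 10 ^ 139 := by positivity
    generalize (10 : ℝ) ^ 139 = P at hp
    nlinarith
  · rw [← hff]
    linarith

theorem M3_aux_pw {m n : ℕ} (h : m ≤ n) : (1 : ℝ) / 10 ^ n ≤ 1 / 10 ^ m :=
  one_div_le_one_div_of_le (by positivity) (pow_le_pow_right₀ (by norm_num) h)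

theorem M3_aux_y {Lm y' y : ℕ} (t : TG Lm y' y) : (0 : ℝ) < y ∧ (0 : ℝ) < y' ∧
    (y' : ℝ) / y ≤ 1 / 10 ^ 250 ∧ (1 : ℝ) / y ≤ 1 / 10 ^ 250 ∧ (1 : ℝ) ≤ Lm ∧
    (y : ℝ) / y' ≤ Lm := by
  obtain ⟨h1, h2, h3, h4, h5, -, h7, h8⟩ := t.facts
  have hy : (0 : ℝ) < y := by exact_mod_cast h2
  have hy' : (0 : ℝ) < y' := by exact_mod_cast h1
  refine ⟨hy, hy', ?_, ?_, by exact_mod_cast h3, ?_⟩
  · rw [div_le_iff₀ hy]
    rw [div_mul_eq_mul_div, one_mul]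
    exact h7
  · exact one_div_le_one_div_of_le (by positivity) h8
  · rw [div_le_iff₀ hy']
    exact_mod_cast t.up

/-- the weight of the energy estimate -/
noncomputable def M3_r (y : ℕ) : ℝ := rh y * (1 + 1 / (4 * y))

theorem M3_aux_r {Lm y' y : ℕ} (t : TG Lm y' y) : 1 ≤ M3_r y ∧ M3_r y ≤ 1 + 2 / y := by
  obtain ⟨hy, -, -, h1, -⟩ := M3_aux_y t
  have h2 : (1 : ℝ) / y ≤ 1 / 10 := h1.trans ((M3_aux_pw (by norm_num : 1 ≤ 250)).trans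
    (by norm_num))
  unfold M3_r rh
  have hp : (0 : ℝ) < 1 / y := by positivity
  rw [show (3 : ℝ) / (2 * y) = 3 / 2 * (1 / y) by field_simp,
    show (1 : ℝ) / (4 * y) = 1 / 4 * (1 / y) by field_simp,
    show (2 : ℝ) / y = 2 * (1 / y) by ring]
  generalize (1 : ℝ) / (y : ℝ) = e at *
  constructor <;> nlinarith

theorem M3_aux_resc {y : ℕ} (A : PS) :
    rescale (1 + 1 / (4 * (y : ℝ))) (rescale (rh y) A) = rescale (M3_r y) A := by
  rw [rescale_rescale]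
  rfl

theorem M3_aux_EN {Lm y' y : ℕ} {a0 : PS} (t : TG Lm y' y) (h : LB y' a0) :
    EN (rescale (M3_r y) (ker a0)) (2 + 161 / 100 * bb) := by
  obtain ⟨hy, hy', hyy, h1y, -⟩ := M3_aux_y t
  obtain ⟨r1, r2⟩ := M3_aux_r t
  obtain ⟨b1, b2, b3⟩ := M3_aux_bb
  have e0 : EN (ker a0) (2 + 16 / 10 * bb) := EN_of_PR (h.kn 1 Adm_one) h.pr
  have hyn : 0 < y' := by exact_mod_cast hy'
  have k1 := h.kn _ (Adm_R hyn)
  have hx1 : (0 : ℝ) < 1 / (10 ^ 8 * y') := by positivity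
  have hle : M3_r y - 1 ≤ 2 * (1 / y) := by
    have : (2 : ℝ) / y = 2 * (1 / y) := by ring
    linarith
  have hfac : (1 : ℝ) / y = (y' / y) * (1 / y') := by field_simp
  have hy'1 : (0 : ℝ) < 1 / y' := by positivity
  have hle2 : M3_r y - 1 ≤ 2 * (1 / 10 ^ 250) * (1 / y') := by
    refine hle.trans ?_
    rw [hfac]
    have := mul_le_mul_of_nonneg_right hyy hy'1.le
    linarith
  have hxx : M3_r y - 1 ≤ 1 / (10 ^ 8 * (y' : ℝ)) := by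
    refine hle2.trans ?_
    have e : (1 : ℝ) / (10 ^ 8 * y') = 1 / 10 ^ 8 * (1 / y') := by
      rw [one_div_mul_one_div]
    rw [e]
    refine mul_le_mul_of_nonneg_right ?_ hy'1.le
    have h2 : (1 : ℝ) / 10 ^ 250 ≤ 1 / 10 ^ 9 := M3_aux_pw (by norm_num)
    calc 2 * ((1 : ℝ) / 10 ^ 250) ≤ 2 * (1 / 10 ^ 9) := by linarith
      _ ≤ 1 / 10 ^ 8 := by norm_num
  have hb := Bd_reweight (by linarith : 0 ≤ M3_r y - 1) hx1 hxx k1
  rw [show 1 + (M3_r y - 1) = M3_r y by ring] at hb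
  have hE := EN_perturb e0 hb
  rw [add_sub_cancel] at hE
  refine EN_mono hE ?_
  have h3 : (M3_r y - 1) / (1 / (10 ^ 8 * (y' : ℝ))) ≤ 2 * (1 / 10 ^ 250) * 10 ^ 8 := by
    rw [div_le_iff₀ hx1]
    have e : 2 * ((1 : ℝ) / 10 ^ 250) * 10 ^ 8 * (1 / (10 ^ 8 * y')) =
        2 * (1 / 10 ^ 250) * (1 / y') := by
      rw [show (1 : ℝ) / (10 ^ 8 * y') = 1 / 10 ^ 8 * (1 / y') by rw [one_div_mul_one_div]]
      ring
    rw [e]
    exact hle2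
  have h4 : 38 * ((M3_r y - 1) / (1 / (10 ^ 8 * (y' : ℝ)))) ≤ 1 / 100 * bb := by
    have h5 : (1 : ℝ) / 10 ^ 250 ≤ 1 / 10 ^ 200 * (1 / 10 ^ 50) := by
      rw [one_div_mul_one_div, ← pow_add]
    have h6 : (1 : ℝ) / 10 ^ 200 ≤ 1 / 10 ^ 140 := M3_aux_pw (by norm_num)
    have h7 : (1 : ℝ) / 10 ^ 200 * (1 / 10 ^ 50) ≤ bb * (1 / 10 ^ 50) :=
      mul_le_mul_of_nonneg_right (h6.trans b3) (by positivity)
    have h8 : (1 : ℝ) / 10 ^ 250 ≤ bb * (1 / 10 ^ 50) := h5.trans h7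
    calc 38 * ((M3_r y - 1) / (1 / (10 ^ 8 * (y' : ℝ)))) ≤
          38 * (2 * (1 / 10 ^ 250) * 10 ^ 8) := by linarith
      _ ≤ 38 * (2 * (bb * (1 / 10 ^ 50)) * 10 ^ 8) := by linarith
      _ = bb * (38 * 2 * (1 / 10 ^ 50) * 10 ^ 8) := by ring
      _ ≤ bb * (1 / 100) := mul_le_mul_of_nonneg_left (by norm_num) b1.le
      _ = 1 / 100 * bb := by ring
  linarith

theorem SP_top {Lm y' y : ℕ} {gs : ℝ} {a0 : PS} (t : TG Lm y' y) (g : GS Lm gs) (h : LB y' a0) :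
    SP (rescale (rh y) (kx gs a0 y' y)) (1 + bb) (AS Lm) := by
  obtain ⟨hy, hy', hyy, h1y, hL1, hL2⟩ := M3_aux_y t
  obtain ⟨r1, r2⟩ := M3_aux_r t
  obtain ⟨b1, b2, b3⟩ := M3_aux_bb
  obtain ⟨p1, p2, -, p4⟩ := phs_bd g
  obtain ⟨rh1, rh2⟩ := rh_bd t
  have hrh : 0 ≤ rh y := by linarith
  have hA0 : 0 < A0 := by unfold A0; positivity
  have hy'1 : (0 : ℝ) < 1 / y' := by positivity
  have q0 : 0 ≤ 1 / phs gs ^ 2 := by positivity

  have hnu : rh y ≤ 1 + nu / y' := by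
    unfold rh
    have e1 : (3 : ℝ) / (2 * y) = 3 / 2 * ((y' / y) * (1 / y')) := by field_simp
    have e2 : nu / (y' : ℝ) = nu * (1 / y') := by ring
    rw [e1, e2]
    have h2 : 3 / 2 * ((y' : ℝ) / y) ≤ nu := by
      have hnu2 : nu = 1 / 10 ^ 152 := by
        unfold nu ff
        rw [div_div, ← pow_add]
      rw [hnu2]
      have h3 : (1 : ℝ) / 10 ^ 250 ≤ 1 / 10 ^ 153 := M3_aux_pw (by norm_num)
      have h4 : (10 : ℝ) * (1 / 10 ^ 153) = 1 / 10 ^ 152 := by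
        rw [show (10 : ℝ) ^ 153 = 10 * 10 ^ 152 by rw [← pow_succ']]
        field_simp
      have h5 : (0 : ℝ) < 1 / 10 ^ 153 := by positivity
      rw [← h4]
      linarith
    have h6 := mul_le_mul_of_nonneg_right h2 hy'1.le
    linarith
  have s1 := h.s0 (rh y) rh1 hnu
  have s2 : SP (rescale (rh y) (ker a0)) (1 + bb) A0 := SP_mono s1 (by unfold c0; linarith) le_rfl

  obtain ⟨Ms, hMs⟩ : ∃ Ms : PS, Ms = (-(1 / phs gs ^ 2)) • rescale (rh y) (Mc y' y * a0⁻¹) :=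
    ⟨_, rfl⟩
  obtain ⟨m0, -⟩ := Mc_bd t h r1 r2
  have hr : 0 ≤ M3_r y := by linarith
  have hxp : (0 : ℝ) < 1 / (4 * y) := by positivity
  have hb2 : (0 : ℝ) ≤ bb ^ 2 := sq_nonneg bb
  have hresc : rescale (1 + 1 / (4 * (y : ℝ))) Ms =
      (-(1 / phs gs ^ 2)) • rescale (M3_r y) (Mc y' y * a0⁻¹) := by
    rw [hMs]
    ext n
    rw [coeff_rescale, coeff_smul, coeff_smul, coeff_rescale, coeff_rescale, smul_eq_mul,
      smul_eq_mul]
    unfold M3_r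
    rw [mul_pow]
    ring
  have hMsN : Bd 1 (rescale (1 + 1 / (4 * (y : ℝ))) Ms) (2 * 10 ^ 7 * bb ^ 2) := by
    rw [hresc]
    refine Bd_mono (Bd_smul _ ((Bd_rescale_iff hr).mpr m0)) ?_
    rw [abs_neg, abs_of_nonneg q0]
    have h1 := mul_le_mul_of_nonneg_right p4 (by positivity : 0 ≤ 10 ^ 7 * bb ^ 2)
    linarith
  have hCm : Bd (1 + 1 / (4 * (y : ℝ))) Ms (2 * 10 ^ 7 * bb ^ 2) :=
    (Bd_rescale_iff (by linarith)).mp hMsN
  have hσ : ∀ n, |coeff n Ms| * (1 + 1 / (4 * (y : ℝ))) ^ n ≤ 3 * 10 ^ 8 * bb ^ 2 / y' := by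
    intro n
    have h1 := Mc_coef t h r1 r2 n
    rw [hMs, coeff_smul, coeff_rescale, smul_eq_mul, abs_mul, abs_mul, abs_neg, abs_of_nonneg q0,
      abs_of_nonneg (pow_nonneg hrh n)]
    have e : 1 / phs gs ^ 2 * (rh y ^ n * |coeff n (Mc y' y * a0⁻¹)|) *
        (1 + 1 / (4 * (y : ℝ))) ^ n =
        1 / phs gs ^ 2 * (|coeff n (Mc y' y * a0⁻¹)| * M3_r y ^ n) := by
      unfold M3_r
      rw [mul_pow]
      ring
    rw [e]
    have h2 : 0 ≤ |coeff n (Mc y' y * a0⁻¹)| * M3_r y ^ n :=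
      mul_nonneg (abs_nonneg _) (pow_nonneg hr n)
    calc 1 / phs gs ^ 2 * (|coeff n (Mc y' y * a0⁻¹)| * M3_r y ^ n) ≤
          103 / 100 * (|coeff n (Mc y' y * a0⁻¹)| * M3_r y ^ n) :=
          mul_le_mul_of_nonneg_right p4 h2
      _ ≤ 103 / 100 * (2 * 10 ^ 8 * bb ^ 2 / y') := mul_le_mul_of_nonneg_left h1 (by norm_num)
      _ = 206 / 100 * (10 ^ 8 * (bb ^ 2 * (1 / y'))) := by ring
      _ ≤ 3 * (10 ^ 8 * (bb ^ 2 * (1 / y'))) :=
          mul_le_mul_of_nonneg_right (by norm_num) (by positivity)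
      _ = 3 * 10 ^ 8 * bb ^ 2 / y' := by ring
  have hEN : EN (rescale (1 + 1 / (4 * (y : ℝ))) (rescale (rh y) (ker a0) + Ms + 0))
      (2 * (1 + bb) - bb / 4) := by
    have h1 := EN_perturb (M3_aux_EN t h) hMsN
    have e : rescale (1 + 1 / (4 * (y : ℝ))) (rescale (rh y) (ker a0) + Ms + 0) =
        rescale (M3_r y) (ker a0) + rescale (1 + 1 / (4 * (y : ℝ))) Ms := by
      rw [add_zero, map_add, M3_aux_resc]
    rw [e]
    refine EN_mono h1 ?_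
    have h2 : bb ≤ 1 / 10 ^ 9 := b2.trans (M3_aux_pw (by norm_num))
    have h3 : 2 * 10 ^ 7 * bb ^ 2 ≤ bb * (1 / 50) := by
      calc 2 * 10 ^ 7 * bb ^ 2 = bb * (2 * 10 ^ 7 * bb) := by ring
        _ ≤ bb * (2 * 10 ^ 7 * (1 / 10 ^ 9)) :=
            mul_le_mul_of_nonneg_left (mul_le_mul_of_nonneg_left h2 (by norm_num)) b1.le
        _ = bb * (1 / 50) := by norm_num
    linarith
  have hx1 : (1 : ℝ) / (4 * y) ≤ 1 := by
    have e : (1 : ℝ) / (4 * y) = 1 / 4 * (1 / y) := by field_simp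
    rw [e]
    have h2 : (1 : ℝ) / 10 ^ 250 ≤ 1 / 10 ^ 0 := M3_aux_pw (by norm_num)
    rw [pow_zero] at h2
    linarith
  have hboot := SP_boot hA0.le s2 Bd_zero (by rw [mul_zero]; norm_num) hxp hx1
    (by linarith : 0 < bb / 4) hEN hσ hCm
  rw [add_zero] at hboot
  have hsq : Real.sqrt (4 * (3 * 10 ^ 8 * bb ^ 2 / y') * (2 * 10 ^ 7 * bb ^ 2) /
      (3 * (1 / (4 * (y : ℝ))))) / (bb / 4) ≤ Lm := by
    rw [div_le_iff₀ (by linarith), Real.sqrt_le_iff]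
    refine ⟨by positivity, ?_⟩
    have e1 : 4 * (3 * 10 ^ 8 * bb ^ 2 / (y' : ℝ)) * (2 * 10 ^ 7 * bb ^ 2) /
        (3 * (1 / (4 * (y : ℝ)))) = bb ^ 2 * (32 * 10 ^ 15 * bb ^ 2) * (y / y') := by
      field_simp
      ring
    rw [e1]
    have h2 : bb ≤ 1 / 10 ^ 12 := b2.trans (M3_aux_pw (by norm_num))
    have h3 : 32 * 10 ^ 15 * bb ^ 2 ≤ 1 / 16 := by
      have h4 : bb ^ 2 ≤ (1 / 10 ^ 12) ^ 2 := pow_le_pow_left₀ b1.le h2 2
      norm_num at h4 ⊢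
      linarith
    have h5 : 0 ≤ (y : ℝ) / y' := by positivity
    calc bb ^ 2 * (32 * 10 ^ 15 * bb ^ 2) * ((y : ℝ) / y') ≤ bb ^ 2 * (1 / 16) * (y / y') :=
          mul_le_mul_of_nonneg_right (mul_le_mul_of_nonneg_left h3 hb2) h5
      _ ≤ bb ^ 2 * (1 / 16) * (Lm * Lm) := by
          refine mul_le_mul_of_nonneg_left (hL2.trans ?_) (by positivity)
          nlinarith
      _ = (Lm * (bb / 4)) ^ 2 := by ring
  have hb3 : SP (rescale (rh y) (ker a0) + Ms) (1 + bb) (2 * A0 * (1 + Lm)) := by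
    refine SP_mono hboot le_rfl ?_
    refine mul_le_mul_of_nonneg_left ?_ (by positivity)
    linarith

  have hRc := Rc_bd t g h rh1 rh2
  have hG2 := G2_bd t h
  obtain ⟨Δ, hΔ⟩ : ∃ Δ : PS, Δ = (-(1 / phs gs ^ 2)) •
      rescale (rh y) (Rc gs y' y * a0⁻¹ + gs ^ 2 • (G2 y' y * a0⁻¹)) := ⟨_, rfl⟩
  have hg := g.pos
  have hΔN : Bd 1 Δ (2 * 10 ^ 6 * gs) := by
    rw [hΔ]
    refine Bd_mono (Bd_smul _ ((Bd_rescale_iff hrh).mpr (Bd_add hrh hRc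
      (Bd_smul (gs ^ 2) hG2)))) ?_
    rw [abs_neg, abs_of_nonneg q0, abs_of_nonneg (sq_nonneg gs)]
    have h1 : gs ≤ 1 := (gs_bd g).trans (by
      have := M3_aux_pw (Nat.zero_le 319)
      rwa [pow_zero, one_div_one] at this)
    have h2 : gs ^ 2 ≤ gs * 1 := by
      rw [pow_two]
      exact mul_le_mul_of_nonneg_left h1 hg.le
    calc 1 / phs gs ^ 2 * (10 ^ 6 * gs + gs ^ 2 * 40) ≤ 103 / 100 * (10 ^ 6 * gs + gs ^ 2 * 40) :=
          mul_le_mul_of_nonneg_right p4 (by positivity)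
      _ ≤ 2 * 10 ^ 6 * gs := by linarith
  have hfin := SP_perturb hb3 (by positivity) hΔN (by
    have h1 := g.le
    unfold AS at h1
    have h2 : gs * (10 ^ 9 * (4 * A0 * (1 + (Lm : ℝ)))) =
        1000 * (gs * (10 ^ 6 * (4 * A0 * (1 + Lm)))) := by ring
    have h3 : 2 * A0 * (1 + (Lm : ℝ)) * (2 * 10 ^ 6 * gs) =
        gs * (10 ^ 6 * (4 * A0 * (1 + Lm))) := by ring
    rw [h3]
    rw [h2] at h1
    linarith)
  have e : rescale (rh y) (kx gs a0 y' y) = rescale (rh y) (ker a0) + Ms + Δ := by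
    rw [hMs, hΔ]
    unfold kx
    ext n
    simp only [coeff_rescale, map_sub, map_add, coeff_smul, smul_eq_mul]
    ring
  rw [e]
  unfold AS
  rw [show 4 * A0 * (1 + (Lm : ℝ)) = 2 * (2 * A0 * (1 + Lm)) by ring]
  exact hfin

end MP18
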