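import Pool.Agent.Lib.MP_18566a_pr.T.M2

set_option autoImplicit false

namespace MP18

open Finset PowerSeries

section
variable {Lm y' y n : ℕ} {gs Z B : ℝ} {a0 : PS} {D x : ℕ → ℝ}

theorem cv_wt {A : PS} {C : ℝ} {r : ℝ} (hr : 0 < r) (hA : Bd r A C)
    (hx : ∀ m ≤ n, |x m| * r ^ m ≤ Z) : |cv A x n| * r ^ n ≤ C * Z := by
  have h1 := cv_bound (u := fun m => r ^ m * x m) (n := n) (M := Z)
    ((Bd_rescale_iff hr.le).mpr hA) (fun m hm => by
      rw [abs_mul, abs_of_nonneg (pow_nonneg hr.le m), mul_comm]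
      exact hx m hm)
  rw [cv_rescale, abs_mul, abs_of_nonneg (pow_nonneg hr.le n), mul_comm] at h1
  exact h1

theorem M4_aux_y (t : TG Lm y' y) : (0 : ℝ) < y ∧ (0 : ℝ) < y' ∧
    (y' : ℝ) / y ≤ 1 / 10 ^ 12 ∧ (1 : ℝ) / y ≤ 1 / 10 ^ 12 := by
  obtain ⟨h1, h2, -, -, -, -, h7, h8⟩ := t.facts
  have hy : (0 : ℝ) < y := by exact_mod_cast h2
  have hy' : (0 : ℝ) < y' := by exact_mod_cast h1
  have hp : (1 : ℝ) / 10 ^ 250 ≤ 1 / 10 ^ 12 :=
    one_div_le_one_div_of_le (by positivity) (pow_le_pow_right₀ (by norm_num) (by norm_num))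
  refine ⟨hy, hy', le_trans ?_ hp, le_trans ?_ hp⟩
  · rw [div_le_iff₀ hy]
    rw [div_mul_eq_mul_div, one_mul]
    exact h7
  · exact one_div_le_one_div_of_le (by positivity) h8

theorem M4_aux_rh (t : TG Lm y' y) : rh y ≤ 11 / 10 := by
  obtain ⟨-, -, -, h⟩ := M4_aux_y t
  obtain ⟨-, h2⟩ := rh_bd t
  rw [show (2 : ℝ) / y = 2 * (1 / y) by ring] at h2
  norm_num at h h2 ⊢
  linarith

/-- from weights to powers of `th` -/
theorem M4_aux_conv {v C : ℝ} (t : TG Lm y' y) (hn : n1 y' y ≤ n) (h : |v| * rh y ^ n ≤ C) :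
    |v| ≤ C * th y ^ (n - n1 y' y) := by
  obtain ⟨r1, -⟩ := rh_bd t
  obtain ⟨h1, h2⟩ := th_bd t
  obtain ⟨-, h3⟩ := th_rh t
  obtain ⟨hy, -⟩ := M4_aux_y t
  have hq : 1 ≤ th y * rh y := by
    have : (0 : ℝ) < 1 / (3 * y) := by positivity
    linarith
  obtain ⟨K, hK⟩ : ∃ K, K = n - n1 y' y := ⟨_, rfl⟩
  have hth : 0 ≤ th y ^ K := pow_nonneg (by linarith) _
  rw [← hK]
  have h4 : 1 ≤ th y ^ K * rh y ^ K := by
    rw [← mul_pow]
    exact one_le_pow₀ hq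
  have h5 : rh y ^ K ≤ rh y ^ n := pow_le_pow_right₀ r1 (by omega)
  have h6 : 1 ≤ th y ^ K * rh y ^ n := h4.trans (mul_le_mul_of_nonneg_left h5 hth)
  calc |v| = |v| * 1 := by ring
    _ ≤ |v| * (th y ^ K * rh y ^ n) := mul_le_mul_of_nonneg_left h6 (abs_nonneg _)
    _ = (|v| * rh y ^ n) * th y ^ K := by ring
    _ ≤ C * th y ^ K := mul_le_mul_of_nonneg_right h hth

theorem M4_aux_nab_geo (q : ℝ) : nab * (PowerSeries.mk fun n => q ^ n) =
    1 - (1 - q) • (X * PowerSeries.mk fun n => q ^ n) := by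
  ext n
  unfold nab
  rcases n with _ | n
  · rw [sub_mul, one_mul, map_sub, map_sub, coeff_smul]
    simp
  · rw [sub_mul, one_mul, map_sub, map_sub, coeff_smul, coeff_succ_X_mul, coeff_mk, coeff_mk,
      smul_eq_mul, coeff_one, if_neg (Nat.succ_ne_zero n), pow_succ]
    ring

theorem M4_aux_nabEg (y' y : ℕ) :
    nab * Eg y' y = (1 / (y : ℝ)) • (X ^ n1 y' y) - (1 / (y : ℝ)) • (X * Eg y' y) := by
  have e : Eg y' y = (1 / (y : ℝ)) • (X ^ n1 y' y * PowerSeries.mk fun n => th y ^ n) := by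
    unfold Eg
    rw [← mul_smul_comm]
    congr 1
  have e2 : 1 - th y = 1 / (y : ℝ) := by unfold th; ring
  rw [e, mul_smul_comm, mul_left_comm, M4_aux_nab_geo, e2, mul_sub, mul_one, smul_sub,
    mul_smul_comm, mul_smul_comm, mul_left_comm]

theorem M4_aux_EgA (h : LB y' a0) : Eg y' y * a0⁻¹ =
    Eg y' y * (1 - (1 / (y : ℝ)) • (X * psi a0)) + (1 / (y : ℝ)) • (X ^ n1 y' y * psi a0) := by
  rw [div_a0 h, M4_aux_nabEg, mul_sub, mul_sub, mul_one, mul_smul_comm, mul_smul_comm,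
    mul_smul_comm, mul_comm (psi a0) (X ^ n1 y' y)]
  rw [show psi a0 * (X * Eg y' y) = Eg y' y * (X * psi a0) by ring]
  abel

theorem M4_aux_geo (t : TG Lm y' y) (K : ℕ) :
    ∑ i ∈ range (K + 1), th y ^ i * (1 / rh y) ^ (K - i) ≤ 4 * y * th y ^ K := by
  obtain ⟨r1, -⟩ := rh_bd t
  have r3 := M4_aux_rh t
  obtain ⟨h1, h2⟩ := th_bd t
  obtain ⟨-, h3⟩ := th_rh t
  obtain ⟨hy, -⟩ := M4_aux_y t
  have hr : 0 < rh y := by linarith
  have hs : 0 < 1 / rh y := by positivity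
  have hgs := Commute.geom_sum₂_mul (Commute.all (th y) (1 / rh y)) (K + 1)
  have hS : 0 ≤ ∑ i ∈ range (K + 1), th y ^ i * (1 / rh y) ^ (K - i) :=
    Finset.sum_nonneg fun i _ => mul_nonneg (pow_nonneg (by linarith) _) (pow_nonneg hs.le _)
  rw [Nat.add_sub_cancel] at hgs
  have h4 : 1 / (4 * (y : ℝ)) ≤ th y - 1 / rh y := by
    have e : th y - 1 / rh y = (th y * rh y - 1) * (1 / rh y) := by
      field_simp
    rw [e]
    have h5 : 1 / (3 * (y : ℝ)) ≤ th y * rh y - 1 := by linarith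
    have h6 : (3 : ℝ) / 4 ≤ 1 / rh y := by
      rw [le_div_iff₀ hr]
      linarith
    calc 1 / (4 * (y : ℝ)) = 1 / (3 * y) * (3 / 4) := by field_simp
      _ ≤ (th y * rh y - 1) * (1 / rh y) :=
          mul_le_mul h5 h6 (by norm_num) (le_trans (by positivity) h5)
  have h7 : (∑ i ∈ range (K + 1), th y ^ i * (1 / rh y) ^ (K - i)) * (1 / (4 * (y : ℝ))) ≤
      th y ^ K := by
    refine (mul_le_mul_of_nonneg_left h4 hS).trans ?_
    rw [hgs]
    have h8 : 0 ≤ (1 / rh y) ^ (K + 1) := pow_nonneg hs.le _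
    have h9 : th y ^ (K + 1) ≤ th y ^ K := by
      rw [pow_succ]
      have := pow_nonneg (by linarith : 0 ≤ th y) K
      nlinarith
    linarith
  have h10 := mul_le_mul_of_nonneg_left h7 (by positivity : (0 : ℝ) ≤ 4 * y)
  refine le_trans (le_of_eq ?_) h10
  field_simp

theorem M4_aux_cvEg {w : ℕ → ℝ} (t : TG Lm y' y) (hn : n1 y' y ≤ n)
    (hw : ∀ m ≤ n, |w m| * rh y ^ m ≤ Z) :
    |cv (Eg y' y) w n| ≤ 4 * Z * th y ^ (n - n1 y' y) := by
  obtain ⟨r1, -⟩ := rh_bd t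
  obtain ⟨h1, h2⟩ := th_bd t
  obtain ⟨hy, -⟩ := M4_aux_y t
  have hr : 0 < rh y := by linarith
  have hZ : 0 ≤ Z := le_trans (mul_nonneg (abs_nonneg _) (pow_nonneg hr.le 0)) (hw 0 (Nat.zero_le _))
  obtain ⟨K, hK⟩ := Nat.exists_eq_add_of_le hn
  have hKn : n - n1 y' y = K := by omega
  rw [hKn]
  unfold cv
  rw [show n + 1 = n1 y' y + (K + 1) by omega, Finset.sum_range_add]
  have h0 : ∑ j ∈ range (n1 y' y), coeff j (Eg y' y) * w (n - j) = 0 :=
    Finset.sum_eq_zero fun j hj => by rw [Eg_low y' y j (Finset.mem_range.mp hj), zero_mul]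
  rw [h0, zero_add]
  refine (Finset.abs_sum_le_sum_abs _ _).trans ?_
  have h3 : ∑ i ∈ range (K + 1), |coeff (n1 y' y + i) (Eg y' y) * w (n - (n1 y' y + i))| ≤
      ∑ i ∈ range (K + 1), (1 / (y : ℝ) * Z) * (th y ^ i * (1 / rh y) ^ (K - i)) := by
    refine Finset.sum_le_sum fun i hi => ?_
    rw [Finset.mem_range] at hi
    have hm : n - (n1 y' y + i) = K - i := by omega
    rw [Eg_coeff (by omega), Nat.add_sub_cancel_left, hm, abs_mul]
    have hth : 0 ≤ 1 / (y : ℝ) * th y ^ i :=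
      mul_nonneg (by positivity) (pow_nonneg (by linarith) _)
    rw [abs_of_nonneg hth]
    have h5 := hw (K - i) (by omega)
    have h6 : |w (K - i)| ≤ Z * (1 / rh y) ^ (K - i) := by
      rw [one_div, inv_pow, ← div_eq_mul_inv, le_div_iff₀ (pow_pos hr _)]
      exact h5
    calc 1 / (y : ℝ) * th y ^ i * |w (K - i)| ≤
          1 / (y : ℝ) * th y ^ i * (Z * (1 / rh y) ^ (K - i)) :=
          mul_le_mul_of_nonneg_left h6 hth
      _ = 1 / (y : ℝ) * Z * (th y ^ i * (1 / rh y) ^ (K - i)) := by ring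
  refine h3.trans ?_
  rw [← Finset.mul_sum]
  calc 1 / (y : ℝ) * Z * ∑ i ∈ range (K + 1), th y ^ i * (1 / rh y) ^ (K - i) ≤
        1 / (y : ℝ) * Z * (4 * y * th y ^ K) :=
        mul_le_mul_of_nonneg_left (M4_aux_geo t K) (by positivity)
    _ = 4 * Z * th y ^ K := by field_simp

theorem cvQ_bd (t : TG Lm y' y) (g : GS Lm gs) (h : LB y' a0)
    (hx : ∀ m, m + y ≤ n → |x m| * rh y ^ m ≤ Z) (hZ : 0 ≤ Z) (hn : n1 y' y ≤ n) :
    |cv (QT gs y' y * a0⁻¹) x n| ≤ 1 / 10 ^ 50 * Z * th y ^ (n - n1 y' y) := by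
  obtain ⟨r1, r2⟩ := rh_bd t
  have r3 := M4_aux_rh t
  obtain ⟨h1, h2⟩ := th_bd t
  obtain ⟨hy, hy', hyy, h1y⟩ := M4_aux_y t
  have hr : 0 < rh y := by linarith
  have hth : 0 ≤ th y ^ (n - n1 y' y) := pow_nonneg (by linarith) _
  obtain ⟨x', hx'⟩ : ∃ x' : ℕ → ℝ, x' = fun m => if m + y ≤ n then x m else 0 := ⟨_, rfl⟩
  have hx'b : ∀ m, |x' m| * rh y ^ m ≤ Z := by
    intro m
    rw [hx']
    dsimp only
    split_ifs with hm
    · exact hx m hm
    · rw [abs_zero, zero_mul]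
      exact hZ
  have e1 : cv (QT gs y' y * a0⁻¹) x n = cv (QT gs y' y * a0⁻¹) x' n := by
    unfold cv
    refine Finset.sum_congr rfl fun j hj => ?_
    rw [Finset.mem_range] at hj
    rcases Nat.lt_or_ge j y with hjy | hjy
    · rw [QTA_low gs a0 y' y j hjy, zero_mul, zero_mul]
    · rw [hx']
      dsimp only
      rw [if_pos (by omega)]
  obtain ⟨w, hw⟩ : ∃ w : ℕ → ℝ, w = fun m => cv (1 - (1 / (y : ℝ)) • (X * psi a0)) x' m :=
    ⟨_, rfl⟩
  have e2 : QT gs y' y * a0⁻¹ = Qc gs y' y * a0⁻¹ +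
      gs • (Eg y' y * (1 - (1 / (y : ℝ)) • (X * psi a0)) +
        (1 / (y : ℝ)) • (X ^ n1 y' y * psi a0)) := by
    rw [← M4_aux_EgA h]
    unfold QT
    rw [add_mul, smul_mul_assoc]
  rw [e1, e2, cv_add_left, cv_smul_left, cv_add_left,
    cv_mul (Eg y' y) (1 - (1 / (y : ℝ)) • (X * psi a0)), ← hw, cv_smul_left]
  obtain ⟨adm, k9⟩ := r_adm t r1 r2
  have hpsi := h.ps (rh y) adm

  have a1 := M4_aux_conv t hn (cv_wt (n := n) hr (Qc_bd t g h r1 r2) (fun m _ => hx'b m))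
  have hwB : Bd (rh y) (1 - (1 / (y : ℝ)) • (X * psi a0)) 2 := by
    refine Bd_mono (Bd_sub hr.le (Bd_one hr.le) (Bd_smul _ (Bd_mul hr.le (Bd_X hr.le) hpsi))) ?_
    rw [abs_of_pos (by positivity : (0 : ℝ) < 1 / y)]
    have e : 1 + 1 / (y : ℝ) * (rh y * (10 ^ 4 * y')) = 1 + rh y * (10 ^ 4 * (y' / y)) := by
      ring
    rw [e]
    have h3 : 10 ^ 4 * ((y' : ℝ) / y) ≤ 1 / 10 ^ 8 := by
      norm_num at hyy ⊢
      linarith
    have h4 : rh y * (10 ^ 4 * ((y' : ℝ) / y)) ≤ 11 / 10 * (1 / 10 ^ 8) :=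
      mul_le_mul r3 h3 (by positivity) (by norm_num)
    norm_num at h4 ⊢
    linarith
  have hwb : ∀ m ≤ n, |w m| * rh y ^ m ≤ 2 * Z := by
    intro m _
    rw [hw]
    exact cv_wt hr hwB (fun k _ => hx'b k)
  have a2 := M4_aux_cvEg t hn hwb
  have hXp : Bd (rh y) (X ^ n1 y' y * psi a0) (9 * (10 ^ 4 * y')) := by
    refine Bd_mul hr.le (Bd_mono (Bd_Xpow hr.le _) ?_) hpsi
    exact (pow_le_pow_right₀ r1 (Nat.le_succ _)).trans k9
  have a3 := M4_aux_conv t hn (cv_wt (n := n) hr hXp (fun m _ => hx'b m))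
  generalize cv (Qc gs y' y * a0⁻¹) x' n = v1 at a1 ⊢
  generalize cv (Eg y' y) w n = v2 at a2 ⊢
  generalize cv (X ^ n1 y' y * psi a0) x' n = v3 at a3 ⊢
  generalize th y ^ (n - n1 y' y) = T at hth a1 a2 a3 ⊢
  have hg := g.pos
  have b1 : |v1 + gs * (v2 + 1 / (y : ℝ) * v3)| ≤ |v1| + gs * (|v2| + 1 / (y : ℝ) * |v3|) := by
    refine (abs_add_le _ _).trans ?_
    rw [abs_mul, abs_of_pos hg]
    have h3 := abs_add_le v2 (1 / (y : ℝ) * v3)
    rw [abs_mul, abs_of_pos (by positivity : (0 : ℝ) < 1 / y)] at h3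
    have h4 := mul_le_mul_of_nonneg_left h3 hg.le
    linarith
  refine b1.trans ?_
  have hZT : 0 ≤ Z * T := mul_nonneg hZ hth
  have b3 : 1 / (y : ℝ) * |v3| ≤ Z * T := by
    have h3 : 1 / (y : ℝ) * |v3| ≤ 1 / (y : ℝ) * (9 * (10 ^ 4 * y') * Z * T) :=
      mul_le_mul_of_nonneg_left a3 (by positivity)
    have h4 : 1 / (y : ℝ) * (9 * (10 ^ 4 * y') * Z * T) = (90000 * (y' / y)) * (Z * T) := by ring
    rw [h4] at h3
    have h5 : 90000 * ((y' : ℝ) / y) ≤ 1 := by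
      norm_num at hyy ⊢
      linarith
    have h6 := mul_le_mul_of_nonneg_right h5 hZT
    linarith
  have b4 : gs * (|v2| + 1 / (y : ℝ) * |v3|) ≤ gs * (9 * (Z * T)) := by
    refine mul_le_mul_of_nonneg_left ?_ hg.le
    have : 4 * (2 * Z) * T = 8 * (Z * T) := by ring
    linarith
  have hgs : gs ≤ 1 / 10 ^ 52 := (gs_bd g).trans
    (one_div_le_one_div_of_le (by positivity) (pow_le_pow_right₀ (by norm_num) (by norm_num)))
  have h100 : (1 : ℝ) / 10 ^ 100 ≤ 1 / 10 ^ 52 :=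
    one_div_le_one_div_of_le (by positivity) (pow_le_pow_right₀ (by norm_num) (by norm_num))
  have b5 : gs * (9 * (Z * T)) ≤ 1 / 10 ^ 52 * (9 * (Z * T)) :=
    mul_le_mul_of_nonneg_right hgs (by positivity)
  have b6 : 1 / 10 ^ 100 * Z * T ≤ 1 / 10 ^ 52 * (Z * T) := by
    rw [mul_assoc]
    exact mul_le_mul_of_nonneg_right h100 hZT
  have b7 : 1 / 10 ^ 50 * Z * T = 100 * (1 / 10 ^ 52) * (Z * T) := by
    norm_num
    ring
  rw [b7]
  have b8 : (0 : ℝ) ≤ 1 / 10 ^ 52 * (Z * T) := mul_nonneg (by positivity) hZT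
  linarith

theorem D_bd (t : TG Lm y' y) (g : GS Lm gs) (h : LB y' a0)
    (hx : ∀ m ≤ n, |xx gs a0 y' y D m| * rh y ^ m ≤ Z) (hn : n1 y' y ≤ n) :
    |D n| ≤ 2 * Z * th y ^ (n - n1 y' y) := by
  obtain ⟨p1, p2, -, -⟩ := phs_bd g
  obtain ⟨h1, h2⟩ := th_bd t
  have hZ : 0 ≤ Z := by
    have h0 := hx 0 (Nat.zero_le _)
    rw [pow_zero, mul_one] at h0
    exact (abs_nonneg _).trans h0
  have hth : 0 ≤ th y ^ (n - n1 y' y) := pow_nonneg (by linarith) _
  have a1 := cvQ_bd t g h (x := xx gs a0 y' y D) (fun m hm => hx m (by omega)) hZ hn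
  have a2 := M4_aux_conv t hn (hx n le_rfl)
  rw [D_of_x t g h D n]
  refine (abs_add_le _ _).trans ?_
  rw [abs_mul, abs_of_nonneg (by linarith : 0 ≤ phs gs)]
  have a3 : phs gs * |xx gs a0 y' y D n| ≤ 1 * |xx gs a0 y' y D n| :=
    mul_le_mul_of_nonneg_right p2 (abs_nonneg _)
  have hZT : 0 ≤ Z * th y ^ (n - n1 y' y) := mul_nonneg hZ hth
  have a4 : 1 / 10 ^ 50 * Z * th y ^ (n - n1 y' y) ≤ 1 * (Z * th y ^ (n - n1 y' y)) := by
    rw [mul_assoc]
    exact mul_le_mul_of_nonneg_right (by norm_num) hZT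
  linarith

theorem x_low (t : TG Lm y' y) (g : GS Lm gs) (h : LB y' a0) (hB : ∀ m < n1 y' y, |D m| ≤ B) :
    ∀ m < n1 y' y, |xx gs a0 y' y D m| * rh y ^ m ≤ 18 * B := by
  obtain ⟨p1, p2, -, -⟩ := phs_bd g
  obtain ⟨-, hy, -⟩ := t.facts
  obtain ⟨r1, r2⟩ := rh_bd t
  obtain ⟨-, k9⟩ := r_adm t r1 r2
  have hn1 : 0 < n1 y' y := lt_of_lt_of_le hy (by unfold n1; omega)
  have hB0 : 0 ≤ B := (abs_nonneg _).trans (hB 0 hn1)
  have h99 : (1 : ℝ) / 10 ^ 99 ≤ 1 / 10 ^ 2 :=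
    one_div_le_one_div_of_le (by positivity) (pow_le_pow_right₀ (by norm_num) (by norm_num))
  have key : ∀ m < n1 y' y, |xx gs a0 y' y D m| ≤ 2 * B := by
    intro m
    induction m using Nat.strong_induction_on with
    | _ m ih =>
      intro hm
      obtain ⟨x', hx'⟩ : ∃ x' : ℕ → ℝ, x' = fun k => if k < m then xx gs a0 y' y D k else 0 :=
        ⟨_, rfl⟩
      have e1 : cv (QT gs y' y * a0⁻¹) (xx gs a0 y' y D) m = cv (QT gs y' y * a0⁻¹) x' m := by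
        unfold cv
        refine Finset.sum_congr rfl fun j hj => ?_
        rw [Finset.mem_range] at hj
        rcases Nat.lt_or_ge j y with hjy | hjy
        · rw [QTA_low gs a0 y' y j hjy, zero_mul, zero_mul]
        · rw [hx']
          dsimp only
          rw [if_pos (by omega)]
      have hx'b : ∀ k ≤ m, |x' k| ≤ 2 * B := by
        intro k _
        rw [hx']
        dsimp only
        split_ifs with hk
        · exact ih k hk (by omega)
        · rw [abs_zero]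
          linarith
      have a1 := cv_bound (QT_bd t g h) hx'b
      have a2 := D_of_x t g h D m
      rw [e1] at a2
      have a3 : phs gs * xx gs a0 y' y D m = D m - cv (QT gs y' y * a0⁻¹) x' m := by linarith
      have a4 : phs gs * |xx gs a0 y' y D m| ≤ B + 1 / 10 ^ 99 * (2 * B) := by
        have : phs gs * |xx gs a0 y' y D m| = |phs gs * xx gs a0 y' y D m| := by
          rw [abs_mul, abs_of_nonneg (by linarith : 0 ≤ phs gs)]
        rw [this, a3]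
        refine (abs_sub _ _).trans ?_
        have := hB m hm
        linarith
      have a5 : 1 / 10 ^ 99 * (2 * B) ≤ 1 / 10 ^ 2 * (2 * B) :=
        mul_le_mul_of_nonneg_right h99 (by linarith)
      have a6 : 99 / 100 * |xx gs a0 y' y D m| ≤ phs gs * |xx gs a0 y' y D m| :=
        mul_le_mul_of_nonneg_right p1 (abs_nonneg _)
      norm_num at a4 a5 a6 ⊢
      linarith
  intro m hm
  have h1 := key m hm
  have h2 : rh y ^ m ≤ 9 := (pow_le_pow_right₀ r1 (by omega)).trans k9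
  have h3 : 0 ≤ rh y ^ m := pow_nonneg (by linarith) _
  calc |xx gs a0 y' y D m| * rh y ^ m ≤ 2 * B * 9 :=
        mul_le_mul h1 h2 h3 (by linarith)
    _ = 18 * B := by ring

end

end MP18
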