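import Pool.Agent.Lib.MP_18566a_pr.T.M2
import Pool.Agent.Lib.MP_18566a_pr.T.B3

set_option autoImplicit false

namespace MP18

open Finset PowerSeries

/-- data of the top level -/
structure TP (Lm : ℕ) (y'' y' y : ℕ) (a00 a0 : PS) (φ' : ℝ) : Prop where
  tg : TG Lm y' y
  lb0 : LB y' a0
  cpl : Cpl a0 y 1
  lb00 : LB y'' a00
  φ0 : 0 ≤ φ'
  φ1 : φ' ≤ phi
  win : ∀ l < y', coeff l (ker a0) = φ' * coeff l (ker a00)

/-- the equation on `[y, N)` -/
def TopEq (gs : ℝ) (a0 : PS) (y' y N : ℕ) (D : ℕ → ℝ) : Prop :=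
  ∀ n, y ≤ n → n < N → (2 * Cum (aS gs a0 y' y) n - D n) * D n = cv (kS gs a0 y' y) D n

section
variable {Lm y'' y' y N : ℕ} {gs φ' B B1 : ℝ} {a00 a0 : PS} {D : ℕ → ℝ}

/-- splitting of the convolution at the beginning of the window -/
theorem M5_split (K : PS) (u : ℕ → ℝ) {n : ℕ} (hn : y ≤ n) :
    cv K u n = (∑ l ∈ range (n - y + 1), coeff l K * u (n - l)) +
      ∑ l ∈ Ico (n - y + 1) (n + 1), coeff l K * u (n - l) := by
  unfold cv
  rw [Finset.sum_range_add_sum_Ico _ (by omega)]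

/-- the past part is small -/
theorem M5_past {K : PS} {C Bu : ℝ} (hK : Bd 1 K C) (hBu0 : 0 ≤ Bu) {u : ℕ → ℝ}
    (hBu : ∀ n < y, |u n| ≤ Bu) {n : ℕ} (hn : y ≤ n) :
    |∑ l ∈ Ico (n - y + 1) (n + 1), coeff l K * u (n - l)| ≤ C * Bu := by
  have h1 := hK (n + 1)
  simp only [one_pow, mul_one] at h1
  calc |∑ l ∈ Ico (n - y + 1) (n + 1), coeff l K * u (n - l)|
      ≤ ∑ l ∈ Ico (n - y + 1) (n + 1), |coeff l K * u (n - l)| := Finset.abs_sum_le_sum_abs _ _
    _ ≤ ∑ l ∈ Ico (n - y + 1) (n + 1), |coeff l K| * Bu := by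
        refine Finset.sum_le_sum (fun l hl => ?_)
        rw [Finset.mem_Ico] at hl
        rw [abs_mul]
        exact mul_le_mul_of_nonneg_left (hBu _ (by omega)) (abs_nonneg _)
    _ ≤ ∑ l ∈ range (n + 1), |coeff l K| * Bu := by
        refine Finset.sum_le_sum_of_subset_of_nonneg ?_ ?_
        · intro l hl
          rw [Finset.mem_Ico] at hl
          rw [Finset.mem_range]; exact hl.2
        · intro l _ _
          exact mul_nonneg (abs_nonneg _) hBu0
    _ = (∑ l ∈ range (n + 1), |coeff l K|) * Bu := by rw [Finset.sum_mul]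
    _ ≤ C * Bu := mul_le_mul_of_nonneg_right h1 hBu0

/-- the general stability estimate on the window -/
theorem M5_win (tp : TP Lm y'' y' y a00 a0 φ') (g : GS Lm gs) (hN : N ≤ n1 y' y) {u cf src : ℕ → ℝ}
    {Bu Sr : ℝ} (hBu0 : 0 ≤ Bu) (hBu : ∀ n < y, |u n| ≤ Bu)
    (hc : ∀ n, y ≤ n → n < N → 9 / 10 * phs gs ≤ cf n)
    (he : ∀ n, y ≤ n → n < N → 2 * cf n * u n - cv (kS gs a0 y' y) u n = src n)
    (hs : ∀ n, y ≤ n → n < N → |src n| ≤ Sr) :
    ∀ n, y ≤ n → n < N → |u n| ≤ A1 * ((39 * Bu + Sr) / phs gs) := by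
  obtain ⟨hy'0, hy0, hLm, hV, hV1, hV2, hyy, hy250⟩ := tp.tg.facts
  obtain ⟨hp1, hp2, hp3, hp4⟩ := phs_bd g
  have hp0 : 0 < phs gs := by linarith
  have hyy' : y' ≤ y := by
    have h1 : (y' : ℝ) ≤ y := by
      refine hyy.trans ?_
      rw [div_le_iff₀ (by positivity)]
      have : (1 : ℝ) ≤ 10 ^ 250 := one_le_pow₀ (by norm_num)
      nlinarith [(Nat.cast_nonneg y : (0 : ℝ) ≤ y)]
    exact_mod_cast h1
  have hlen : 2 * Vt y' ≤ y' := by unfold Vt; omega
  have hn1 : n1 y' y = y + 2 * Vt y' := rfl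
  have hSP := tp.lb00.s1 φ' tp.φ0 tp.φ1
  have hkS := Bd_kS tp.tg g tp.lb0 tp.cpl
  refine SP_forward hSP (cf := fun n => cf n / phs gs)
    (g := fun n => (src n + ∑ l ∈ Ico (n - y + 1) (n + 1), coeff l (kS gs a0 y' y) * u (n - l)) / phs gs)
    ?_ ?_ ?_
  · intro n h1 h2
    rw [le_div_iff₀ hp0]
    exact hc n h1 h2
  · intro n h1 h2
    have h3 := he n h1 h2
    rw [M5_split _ u h1] at h3
    have h4 : ∑ l ∈ range (n - y + 1), coeff l (kS gs a0 y' y) * u (n - l) =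
        phs gs * ∑ l ∈ range (n - y + 1), coeff l (φ' • ker a00) * u (n - l) := by
      rw [Finset.mul_sum]
      refine Finset.sum_congr rfl (fun l hl => ?_)
      rw [Finset.mem_range] at hl
      have hly' : l < y' := by omega
      rw [kS_low tp.tg g tp.lb0 (by omega), tp.win l hly', map_smul, smul_eq_mul]
      ring
    rw [h4] at h3
    field_simp
    linarith
  · intro n h1 h2
    rw [abs_div, abs_of_pos hp0]
    apply div_le_div_of_nonneg_right _ hp0.le
    refine (abs_add_le _ _).trans ?_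
    have := M5_past hkS hBu0 hBu h1
    have h5 := hs n h1 h2
    linarith

theorem M5_A1 : (1 : ℝ) ≤ A1 := by
  unfold A1
  exact one_le_pow₀ (by norm_num)

theorem win_D (tp : TP Lm y'' y' y a00 a0 φ') (g : GS Lm gs) (hN : N ≤ n1 y' y) (hB0 : 0 ≤ B)
    (hB : ∀ n < y, |D n| ≤ B) (hE : TopEq gs a0 y' y N D) (h10 : ∀ n < N, |D n| ≤ 1 / 10) :
    ∀ n < N, |D n| ≤ 40 * A1 * B := by
  obtain ⟨hp1, hp2, hp3, hp4⟩ := phs_bd g
  have hp0 : 0 < phs gs := by linarith
  have hA1 := M5_A1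
  have hAB : 0 ≤ A1 * B := mul_nonneg (by linarith) hB0
  intro n hn
  rcases lt_or_ge n y with h | h
  · have := hB n h
    nlinarith
  · have h1 := M5_win tp g hN (u := D) (cf := fun n => Cum (aS gs a0 y' y) n - D n / 2)
      (src := fun _ => 0) (Bu := B) (Sr := 0) hB0 hB ?_ ?_ ?_ n h hn
    · refine h1.trans ?_
      have h2 : (39 * B + 0) / phs gs ≤ 40 * B := by
        rw [div_le_iff₀ hp0]
        nlinarith
      calc A1 * ((39 * B + 0) / phs gs) ≤ A1 * (40 * B) :=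
            mul_le_mul_of_nonneg_left h2 (by linarith)
        _ = 40 * A1 * B := by ring
    · intro m hm1 hm2
      have h3 := (Cum_aS_mid tp.tg g tp.lb0.nn tp.cpl (show y ≤ m + 1 by omega)).1
      have h4 := abs_le.1 (h10 m hm2)
      linarith [h4.2]
    · intro m hm1 hm2
      have h3 := hE m hm1 hm2
      linarith
    · intro m _ _
      simp

set_option exponentiation.threshold 3000 in
theorem M5_bb (g : GS Lm gs) : 0 ≤ 1 - phs gs ∧ 1 - phs gs ≤ 1 / 10 ^ 130 := by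
  have h1 := bb_bd
  have h2 := gs_bd g
  have h3 := g.pos
  have h4 : ff = 1 / 10 ^ 140 := rfl
  rw [h4] at h1
  have h5 : (1 : ℝ) / 10 ^ 319 ≤ 1 / 10 ^ 140 :=
    one_div_le_one_div_of_le (by positivity) (pow_le_pow_right₀ (by norm_num) (by norm_num))
  have h6 : (10 : ℝ) * (1 / 10 ^ 140) ≤ 1 / 10 ^ 130 := by norm_num
  have h7 : (0 : ℝ) < 1 / 10 ^ 140 := by positivity
  unfold phs
  constructor
  · linarith [h1.1]
  · linarith [h1.2]

theorem win_dD (tp : TP Lm y'' y' y a00 a0 φ') (g : GS Lm gs) (hB0 : 0 ≤ B) (hB10 : 0 ≤ B1)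
    (hB : ∀ n < y, |D n| ≤ B) (hB1 : ∀ n < y, |dd D n| ≤ B1)
    (hE : TopEq gs a0 y' y (n1 y' y) D) (h10 : ∀ n < n1 y' y, |D n| ≤ 1 / 10)
    (hlow : (2 * phs gs - D (y - 1)) * D (y - 1) = cv (kS gs a0 y' y) D (y - 1)) :
    ∀ n < n1 y' y, |dd D n| ≤ 40 * A1 * B1 + 500 * A1 ^ 2 * B / y' := by
  obtain ⟨hy'0, hy0, hLm, hV, hV1, hV2, hyy, hy250⟩ := tp.tg.facts
  obtain ⟨hp1, hp2, hp3, hp4⟩ := phs_bd g
  obtain ⟨hq0, hq1⟩ := M5_bb g
  have hp0 : 0 < phs gs := by linarith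
  have hA1 := M5_A1
  have hy'0' : (0 : ℝ) < y' := by exact_mod_cast hy'0
  have hVr : (0 : ℝ) < Vt y' := by exact_mod_cast hV
  have hAB : 0 ≤ A1 * B := mul_nonneg (by linarith) hB0
  have hABy : 0 ≤ A1 * B / y' := div_nonneg hAB hy'0'.le
  have hD := win_D tp g le_rfl hB0 hB hE h10
  have hRHS : 0 ≤ 500 * A1 ^ 2 * B / y' := by
    apply div_nonneg _ hy'0'.le
    have : 500 * A1 ^ 2 * B = 500 * A1 * (A1 * B) := by ring
    rw [this]
    exact mul_nonneg (by linarith) hAB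

  have hEq : ∀ n, y ≤ n → n < n1 y' y →
      2 * (Cum (aS gs a0 y' y) n - (D n + D (n - 1)) / 2) * dd D n - cv (kS gs a0 y' y) (dd D) n =
        -(2 * coeff n (aS gs a0 y' y) * D (n - 1)) := by
    intro n hn1 hn2
    obtain ⟨m, rfl⟩ : ∃ m, n = m + 1 := ⟨n - 1, by omega⟩
    have e1 := hE (m + 1) hn1 hn2
    have e2 : (2 * Cum (aS gs a0 y' y) m - D m) * D m = cv (kS gs a0 y' y) D m := by
      rcases Nat.lt_or_ge m y with h | h
      · have hm : m = y - 1 := by omega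
        have h3 : Cum (aS gs a0 y' y) (y - 1) = phs gs := by
          rw [Cum_aS_low gs a0 (by omega), Cum_of_Cpl tp.cpl (by omega), mul_one]
        rw [hm, h3]
        exact hlow
      · exact hE m h (by omega)
    have e3 := cv_diff (kS gs a0 y' y) D m
    have e4 : cv (kS gs a0 y' y) (fun m => if m = 0 then D 0 else D m - D (m - 1)) (m + 1) =
        cv (kS gs a0 y' y) (dd D) (m + 1) := rfl
    rw [e4] at e3
    have e5 : Cum (aS gs a0 y' y) (m + 1) = Cum (aS gs a0 y' y) m + coeff (m + 1) (aS gs a0 y' y) := by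
      unfold Cum
      rw [Finset.sum_range_succ]
    have e6 : dd D (m + 1) = D (m + 1) - D m := by
      unfold dd
      rw [if_neg (by omega)]
      rfl
    have e7 : m + 1 - 1 = m := rfl
    rw [e7, ← e3, ← e1, ← e2, e6, e5]
    ring
  rcases Nat.lt_or_ge y (n1 y' y) with hyn | hyn
  swap
  · exfalso
    unfold n1 at hyn
    omega

  obtain ⟨M, hM, hMax⟩ := Finset.exists_max_image (Finset.Ico y (n1 y' y)) (fun n => |dd D n|)
    ⟨y, Finset.mem_Ico.2 ⟨le_rfl, hyn⟩⟩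
  rw [Finset.mem_Ico] at hM
  set Um := |dd D M| with hUm
  have hUm0 : 0 ≤ Um := abs_nonneg _
  have hmax : ∀ n, y ≤ n → n < n1 y' y → |dd D n| ≤ Um :=
    fun n h1 h2 => hMax n (Finset.mem_Ico.2 ⟨h1, h2⟩)
  have hwin := M5_win tp g le_rfl (u := dd D)
    (cf := fun n => max (Cum (aS gs a0 y' y) n - (D n + D (n - 1)) / 2) (9 / 10 * phs gs))
    (src := fun n => -(2 * coeff n (aS gs a0 y' y) * D (n - 1)) +
      2 * (max (Cum (aS gs a0 y' y) n - (D n + D (n - 1)) / 2) (9 / 10 * phs gs) -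
        (Cum (aS gs a0 y' y) n - (D n + D (n - 1)) / 2)) * dd D n)
    (Bu := B1) (Sr := 400 * (A1 * B / y') + 1 / 10 ^ 130 * Um) hB10 hB1 (fun n _ _ => le_max_right _ _)
    (fun n h1 h2 => by
      have := hEq n h1 h2
      linear_combination this) ?_
  ·
    have hfin : Um ≤ A1 * ((39 * B1 + (400 * (A1 * B / y') + 1 / 10 ^ 130 * Um)) / phs gs) :=
      hwin M hM.1 hM.2
    have hA1' : A1 = 10 ^ 47 := rfl
    have h7 : A1 * ((39 * B1 + (400 * (A1 * B / y') + 1 / 10 ^ 130 * Um)) / phs gs) * phs gs =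
        A1 * (39 * B1 + (400 * (A1 * B / y') + 1 / 10 ^ 130 * Um)) := by
      field_simp
    have h8 : Um * phs gs ≤ A1 * (39 * B1 + (400 * (A1 * B / y') + 1 / 10 ^ 130 * Um)) := by
      rw [← h7]
      exact mul_le_mul_of_nonneg_right hfin hp0.le
    have h9 : A1 * (1 / 10 ^ 130) ≤ 1 / 1000 := by
      rw [hA1']; norm_num
    have h10' : A1 * (1 / 10 ^ 130 * Um) ≤ 1 / 1000 * Um := by
      rw [← mul_assoc]
      exact mul_le_mul_of_nonneg_right h9 hUm0
    have hAB1 : 0 ≤ A1 * B1 := mul_nonneg (by linarith) hB10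
    have h11 : Um * (989 / 1000) ≤ 39 * (A1 * B1) + 400 * (A1 * (A1 * B / y')) := by
      nlinarith
    have h12 : 0 ≤ A1 * (A1 * B / y') := mul_nonneg (by linarith) hABy
    have h13 : Um ≤ 40 * A1 * B1 + 500 * A1 ^ 2 * B / y' := by
      have e8 : 500 * A1 ^ 2 * B / y' = 500 * (A1 * (A1 * B / y')) := by ring
      rw [e8]
      nlinarith
    intro n hn
    rcases lt_or_ge n y with h | h
    · have := hB1 n h
      nlinarith
    · exact (hmax n h hn).trans h13
  · intro n h1 h2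
    have h3 := (Cum_aS_mid tp.tg g tp.lb0.nn tp.cpl (show y ≤ n + 1 by omega)).1
    have h4 := abs_le.1 (h10 n h2)
    have h5 := abs_le.1 (h10 (n - 1) (by omega))
    obtain ⟨h6, h7⟩ := aS_mid tp.tg g tp.cpl h1 h2
    have h6' : 0 ≤ coeff n (aS gs a0 y' y) := aS_nn tp.tg g tp.lb0.nn n
    have h8 : |D (n - 1)| ≤ 40 * A1 * B := hD (n - 1) (by omega)
    have h9 : |2 * coeff n (aS gs a0 y' y) * D (n - 1)| ≤ 400 * (A1 * B / y') := by
      rw [abs_mul, abs_of_nonneg (by linarith)]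
      have h10 : coeff n (aS gs a0 y' y) ≤ 5 / y' := by
        refine h7.trans ?_
        rw [div_le_div_iff₀ hVr hy'0']
        linarith
      calc 2 * coeff n (aS gs a0 y' y) * |D (n - 1)| ≤ 2 * (5 / y') * (40 * A1 * B) :=
            mul_le_mul (by linarith) h8 (abs_nonneg _) (by positivity)
        _ = 400 * (A1 * B / y') := by ring
    have h11 : 0 ≤ max (Cum (aS gs a0 y' y) n - (D n + D (n - 1)) / 2) (9 / 10 * phs gs) -
        (Cum (aS gs a0 y' y) n - (D n + D (n - 1)) / 2) := by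
      have := le_max_left (Cum (aS gs a0 y' y) n - (D n + D (n - 1)) / 2) (9 / 10 * phs gs)
      linarith
    have h12 : max (Cum (aS gs a0 y' y) n - (D n + D (n - 1)) / 2) (9 / 10 * phs gs) -
        (Cum (aS gs a0 y' y) n - (D n + D (n - 1)) / 2) ≤ 1 / 10 ^ 130 / 2 := by
      have h13 : (0 : ℝ) ≤ 1 / 10 ^ 130 := by positivity
      rcases le_total (Cum (aS gs a0 y' y) n - (D n + D (n - 1)) / 2) (9 / 10 * phs gs) with h | h
      · rw [max_eq_right h]
        linarith [h4.2, h5.2]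
      · rw [max_eq_left h]
        linarith
    refine (abs_add_le _ _).trans ?_
    rw [abs_neg]
    apply add_le_add h9
    rw [abs_mul, abs_of_nonneg (by linarith)]
    exact mul_le_mul (by linarith) (hmax n h1 h2) (abs_nonneg _) (by positivity)

end

end MP18
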