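import Pool.Agent.Lib.MP_18566a_pr.T.M3
import Pool.Agent.Lib.MP_18566a_pr.T.M4
import Pool.Agent.Lib.MP_18566a_pr.T.M5

set_option autoImplicit false

namespace MP18

open Finset PowerSeries

section
variable {Lm y'' y' y N : ℕ} {gs φ' Z0 Z1 : ℝ} {a00 a0 : PS} {D : ℕ → ℝ}

/-- the equation for x beyond the window -/
theorem M6_aux1 (tp : TP Lm y'' y' y a00 a0 φ') (g : GS Lm gs) {n : ℕ} (h1 : n1 y' y ≤ n)
    (h2 : n < N) (hE : TopEq gs a0 y' y N D) :
    2 * (1 / phs gs) * xx gs a0 y' y D n - cv (kx gs a0 y' y) (xx gs a0 y' y D) n =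
      (1 / phs gs ^ 2) * (2 * (gs * th y ^ (n + 1 - n1 y' y)) * D n + D n ^ 2) := by
  have hp := (phs_bd g).1
  have hy : y ≤ n := le_trans (by unfold n1; omega) h1
  have e1 := hE n hy h2
  rw [Cum_aS_high tp.tg tp.cpl (by omega)] at e1
  have e2 := x_eq tp.tg g tp.lb0 tp.cpl D n
  rw [← e1] at e2
  have hp0 : phs gs ≠ 0 := by
    intro h0
    rw [h0] at hp
    norm_num at hp
  have hp2 : phs gs ^ 2 ≠ 0 := pow_ne_zero 2 hp0
  have e3 : 2 * (1 / phs gs) * xx gs a0 y' y D n - cv (kx gs a0 y' y) (xx gs a0 y' y D) n =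
      (1 / phs gs ^ 2) * (phs gs ^ 2 * (2 * (1 / phs gs) * xx gs a0 y' y D n
          - cv (kx gs a0 y' y) (xx gs a0 y' y D) n)) := by
    rw [← mul_assoc, one_div_mul_cancel hp2, one_mul]
  rw [e3, ← e2]
  ring

theorem M6_aux2 (t : TG Lm y' y) {n : ℕ} (h1 : n1 y' y ≤ n) :
    th y ^ (n - n1 y' y) * th y ^ (n - n1 y' y) * rh y ^ n ≤ 9 := by
  obtain ⟨b1, b2⟩ := rh_bd t
  obtain ⟨c1, c2⟩ := th_bd t
  have h9 := (r_adm t b1 b2).2
  have hq := (th_rh t).1
  have hy := t.facts.2.1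
  have hy' : (0 : ℝ) < y := by exact_mod_cast hy
  have hq1 : th y ^ 2 * rh y ≤ 1 := by
    have : (0 : ℝ) ≤ 1 / (2 * y) := by positivity
    linarith
  have hq0 : 0 ≤ th y ^ 2 * rh y := by
    have : 0 ≤ rh y := by linarith
    positivity
  obtain ⟨k, rfl⟩ := Nat.exists_eq_add_of_le h1
  have e : th y ^ (n1 y' y + k - n1 y' y) * th y ^ (n1 y' y + k - n1 y' y) * rh y ^ (n1 y' y + k) =
      rh y ^ n1 y' y * (th y ^ 2 * rh y) ^ k := by
    rw [Nat.add_sub_cancel_left, pow_add, mul_pow, ← pow_mul, ← pow_add, two_mul]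
    ring
  rw [e]
  have h3 : (th y ^ 2 * rh y) ^ k ≤ 1 := pow_le_one₀ hq0 hq1
  have h4 : rh y ^ n1 y' y ≤ rh y ^ (n1 y' y + 1) := pow_le_pow_right₀ b1 (Nat.le_succ _)
  have h5 : 0 ≤ rh y ^ n1 y' y := by
    have : 0 ≤ rh y := by linarith
    positivity
  calc rh y ^ n1 y' y * (th y ^ 2 * rh y) ^ k ≤ rh y ^ n1 y' y * 1 :=
        mul_le_mul_of_nonneg_left h3 h5
    _ ≤ 9 := by linarith

/-- the far part of a convolution in the weighted variable -/
theorem M6_aux3 {A : PS} {C Z r : ℝ} {x : ℕ → ℝ} {n k : ℕ} (hr : 0 < r) (hA : Bd r A C)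
    (_hk : k ≤ n + 1) (hZ : 0 ≤ Z) (hx : ∀ m, m + k ≤ n → |x m| * r ^ m ≤ Z) :
    |∑ l ∈ Ico k (n + 1), (coeff l A * r ^ l) * (r ^ (n - l) * x (n - l))| ≤ C * Z := by
  have h1 : ∑ l ∈ Ico k (n + 1), |coeff l A| * r ^ l ≤ C := by
    refine le_trans ?_ (hA (n + 1))
    apply Finset.sum_le_sum_of_subset_of_nonneg
    · intro l hl
      rw [Finset.mem_Ico] at hl
      exact Finset.mem_range.2 hl.2
    · intro l _ _
      positivity
  calc |∑ l ∈ Ico k (n + 1), (coeff l A * r ^ l) * (r ^ (n - l) * x (n - l))|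
      ≤ ∑ l ∈ Ico k (n + 1), |(coeff l A * r ^ l) * (r ^ (n - l) * x (n - l))| :=
        Finset.abs_sum_le_sum_abs _ _
    _ ≤ ∑ l ∈ Ico k (n + 1), (|coeff l A| * r ^ l) * Z := by
        apply Finset.sum_le_sum
        intro l hl
        rw [Finset.mem_Ico] at hl
        have e1 : |(coeff l A * r ^ l) * (r ^ (n - l) * x (n - l))| =
            (|coeff l A| * r ^ l) * (|x (n - l)| * r ^ (n - l)) := by
          rw [abs_mul, abs_mul, abs_mul, abs_of_pos (pow_pos hr l), abs_of_pos (pow_pos hr (n - l))]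
          ring
        rw [e1]
        exact mul_le_mul_of_nonneg_left (hx (n - l) (by omega)) (by positivity)
    _ = (∑ l ∈ Ico k (n + 1), |coeff l A| * r ^ l) * Z := by rw [Finset.sum_mul]
    _ ≤ C * Z := mul_le_mul_of_nonneg_right h1 hZ

theorem top_apriori (tp : TP Lm y'' y' y a00 a0 φ') (g : GS Lm gs)
    (hx : ∀ m < N, |xx gs a0 y' y D m| * rh y ^ m ≤ 1 / (400 * AS Lm)) (hZ : 0 ≤ Z0)
    (hlow : ∀ m < n1 y' y, m < N → |xx gs a0 y' y D m| * rh y ^ m ≤ Z0)
    (hE : TopEq gs a0 y' y N D) :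
    ∀ m < N, |xx gs a0 y' y D m| * rh y ^ m ≤ 80 * AS Lm * Z0 := by
  have hAS : 10 ^ 310 ≤ AS Lm := AS_bd Lm
  have hAS1 : 1 ≤ AS Lm := le_trans (one_le_pow₀ (by norm_num)) hAS
  have hASp : 0 < AS Lm := lt_of_lt_of_le one_pos hAS1
  clear hAS
  obtain ⟨b1, b2⟩ := rh_bd tp.tg
  obtain ⟨c1, c2⟩ := th_bd tp.tg
  obtain ⟨p1, p2, p3, p4⟩ := phs_bd g
  have hr0 : 0 < rh y := by linarith
  have hgs := g.pos
  have hgle := g.le
  intro m0 hm0
  set x := xx gs a0 y' y D with hxdef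
  obtain ⟨mm, hmm, hmax⟩ := Finset.exists_max_image (range N) (fun m => |x m| * rh y ^ m)
    ⟨m0, Finset.mem_range.2 hm0⟩
  rw [Finset.mem_range] at hmm
  set Z := |x mm| * rh y ^ mm with hZdef
  have hZ0 : 0 ≤ Z := by positivity
  have hZ1 : Z ≤ 1 / (400 * AS Lm) := hx mm hmm
  have hxZ : ∀ m < N, |x m| * rh y ^ m ≤ Z := fun m hm => hmax m (Finset.mem_range.2 hm)
  refine le_trans (hxZ m0 hm0) ?_

  by_cases hcase : mm < n1 y' y
  · have := hlow mm hcase hmm
    have h1 : 1 * Z0 ≤ 80 * AS Lm * Z0 := mul_le_mul_of_nonneg_right (by linarith) hZ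
    linarith
  · push Not at hcase
    have hh : ∀ n, n1 y' y ≤ n → n < N →
        |2 * (gs * th y ^ (n + 1 - n1 y' y)) * D n + D n ^ 2| * rh y ^ n ≤ 36 * (gs * Z + Z ^ 2) := by
      intro n hn1 hnN
      have hD : |D n| ≤ 2 * Z * th y ^ (n - n1 y' y) :=
        D_bd tp.tg g tp.lb0 (fun m hm => hxZ m (by omega)) hn1
      set T := th y ^ (n - n1 y' y) with hT
      have hT0 : 0 ≤ T := by positivity
      have hT1 : th y ^ (n + 1 - n1 y' y) ≤ T := by
        have : n + 1 - n1 y' y = (n - n1 y' y) + 1 := by omega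
        rw [this, pow_succ]
        have := mul_le_mul_of_nonneg_left c2.le hT0
        linarith
      have hT2 : 0 ≤ th y ^ (n + 1 - n1 y' y) := by positivity
      have hA := M6_aux2 tp.tg hn1
      rw [← hT] at hA
      have hrn : 0 < rh y ^ n := pow_pos hr0 n
      have e1 : |2 * (gs * th y ^ (n + 1 - n1 y' y)) * D n + D n ^ 2| ≤
          2 * gs * T * (2 * Z * T) + (2 * Z * T) ^ 2 := by
        have a1 : |2 * (gs * th y ^ (n + 1 - n1 y' y)) * D n| ≤ 2 * gs * T * (2 * Z * T) := by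
          rw [abs_mul, abs_of_nonneg (by positivity)]
          have := mul_le_mul hT1 hD (abs_nonneg _) hT0
          nlinarith [mul_le_mul_of_nonneg_left this hgs.le]
        have a2 : |D n ^ 2| ≤ (2 * Z * T) ^ 2 := by
          rw [abs_pow]
          exact pow_le_pow_left₀ (abs_nonneg _) hD 2
        exact le_trans (abs_add_le _ _) (add_le_add a1 a2)
      calc |2 * (gs * th y ^ (n + 1 - n1 y' y)) * D n + D n ^ 2| * rh y ^ n
          ≤ (2 * gs * T * (2 * Z * T) + (2 * Z * T) ^ 2) * rh y ^ n :=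
            mul_le_mul_of_nonneg_right e1 hrn.le
        _ = 4 * (gs * Z + Z ^ 2) * (T * T * rh y ^ n) := by ring
        _ ≤ 4 * (gs * Z + Z ^ 2) * 9 := mul_le_mul_of_nonneg_left hA (by positivity)
        _ = 36 * (gs * Z + Z ^ 2) := by ring
    have hfw := SP_forward (SP_top tp.tg g tp.lb0) (n1 := n1 y' y) (n2 := N)
      (cf := fun _ => 1 / phs gs) (u := fun n => rh y ^ n * x n)
      (g := fun n => 2 * (1 / phs gs) * (rh y ^ n * x n) - ∑ l ∈ range (n - n1 y' y + 1),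
        coeff l (rescale (rh y) (kx gs a0 y' y)) * (rh y ^ (n - l) * x (n - l)))
      (G := 38 * (gs * Z + Z ^ 2) + 39 * Z0) (fun _ _ _ => p3) (fun _ _ _ => rfl) ?_
    · have h1 := hfw mm hcase hmm
      have h2 : |rh y ^ mm * x mm| = Z := by
        rw [abs_mul, abs_of_pos (pow_pos hr0 mm), hZdef]
        ring
      rw [h2] at h1
      have h3 : AS Lm * gs ≤ 1 / 10 ^ 9 := by
        rw [le_div_iff₀ (by norm_num)]
        linarith
      have h4 : AS Lm * Z ≤ 1 / 400 := by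
        have := mul_le_mul_of_nonneg_left hZ1 hASp.le
        have e : AS Lm * (1 / (400 * AS Lm)) = 1 / 400 := by
          field_simp
        linarith
      have h5 : AS Lm * (gs * Z) ≤ 1 / 10 ^ 9 * Z := by
        have := mul_le_mul_of_nonneg_right h3 hZ0
        linarith
      have h6 : AS Lm * Z ^ 2 ≤ 1 / 400 * Z := by
        have := mul_le_mul_of_nonneg_right h4 hZ0
        nlinarith
      have h7 : 0 ≤ AS Lm * Z0 := by positivity
      nlinarith
    · intro n hn1 hnN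
      have e1 := M6_aux1 tp g hn1 hnN hE
      have e2 := cv_rescale (rh y) (kx gs a0 y' y) x n
      have e3 : cv (rescale (rh y) (kx gs a0 y' y)) (fun m => rh y ^ m * x m) n =
          ∑ l ∈ range (n - n1 y' y + 1), coeff l (rescale (rh y) (kx gs a0 y' y)) *
              (rh y ^ (n - l) * x (n - l)) +
          ∑ l ∈ Ico (n - n1 y' y + 1) (n + 1), (coeff l (kx gs a0 y' y) * rh y ^ l) *
              (rh y ^ (n - l) * x (n - l)) := by
        unfold cv
        rw [← Finset.sum_range_add_sum_Ico _ (show n - n1 y' y + 1 ≤ n + 1 by omega)]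
        congr 1
        apply Finset.sum_congr rfl
        intro l _
        rw [PowerSeries.coeff_rescale]
        ring
      have e4 : 2 * (1 / phs gs) * (rh y ^ n * x n) - ∑ l ∈ range (n - n1 y' y + 1),
          coeff l (rescale (rh y) (kx gs a0 y' y)) * (rh y ^ (n - l) * x (n - l)) =
          (1 / phs gs ^ 2) * ((2 * (gs * th y ^ (n + 1 - n1 y' y)) * D n + D n ^ 2) * rh y ^ n) +
          ∑ l ∈ Ico (n - n1 y' y + 1) (n + 1), (coeff l (kx gs a0 y' y) * rh y ^ l) *
              (rh y ^ (n - l) * x (n - l)) := by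
        have e5 : rh y ^ n * (2 * (1 / phs gs) * x n - cv (kx gs a0 y' y) x n) =
          rh y ^ n * ((1 / phs gs ^ 2) *
            (2 * (gs * th y ^ (n + 1 - n1 y' y)) * D n + D n ^ 2)) := by rw [e1]
        rw [e3] at e2
        linarith
      rw [e4]
      have f1 := M6_aux3 (n := n) (k := n - n1 y' y + 1) hr0 (Bd_kx tp.tg g tp.lb0)
        (by omega) hZ (x := x) (fun m hm => hlow m (by omega) (by omega))
      have f2 : |(1 / phs gs ^ 2) * ((2 * (gs * th y ^ (n + 1 - n1 y' y)) * D n + D n ^ 2)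
          * rh y ^ n)| ≤ 38 * (gs * Z + Z ^ 2) := by
        rw [abs_mul, abs_mul, abs_of_pos (pow_pos hr0 n), abs_of_nonneg (by positivity)]
        have f3 := hh n hn1 hnN
        have f4 : 0 ≤ |2 * (gs * th y ^ (n + 1 - n1 y' y)) * D n + D n ^ 2| * rh y ^ n := by
          positivity
        have f5 := mul_le_mul_of_nonneg_right p4 f4
        have f6 : 0 ≤ gs * Z + Z ^ 2 := by positivity
        nlinarith
      exact le_trans (abs_add_le _ _) (add_le_add f2 f1)

theorem top_step (tp : TP Lm y'' y' y a00 a0 φ') (g : GS Lm gs) (hN : n1 y' y ≤ N)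
    (hx : ∀ m < N, |xx gs a0 y' y D m| * rh y ^ m ≤ Z1) (hZ : Z1 ≤ 1 / 10 ^ 6)
    (hE : TopEq gs a0 y' y (N + 1) D) (hD : |D N| ≤ 1 / 10) :
    |xx gs a0 y' y D N| * rh y ^ N ≤ 200 * Z1 := by
  obtain ⟨b1, b2⟩ := rh_bd tp.tg
  obtain ⟨c1, c2⟩ := th_bd tp.tg
  obtain ⟨p1, p2, p3, p4⟩ := phs_bd g
  have hr0 : 0 < rh y := by linarith
  have hgs := g.pos
  have hgs2 := gs_bd g
  have hgs3 : gs ≤ 1 / 10 ^ 6 := le_trans hgs2
    (one_div_le_one_div_of_le (by positivity) (pow_le_pow_right₀ (by norm_num) (by norm_num)))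
  clear hgs2
  have hyN : y ≤ N := le_trans (by unfold n1; omega) hN
  have hy := tp.tg.facts.2.1
  set x := xx gs a0 y' y D with hxdef
  have hZ1 : 0 ≤ Z1 := by
    have := hx 0 (by omega)
    have h0 : 0 ≤ |x 0| * rh y ^ 0 := by positivity
    linarith
  have e1 := M6_aux1 tp g hN (Nat.lt_succ_self N) hE
  have hR := cvQ_bd tp.tg g tp.lb0 (x := x) (fun m hm => hx m (by omega)) hZ1 hN
  have hDx := D_of_x tp.tg g tp.lb0 D N
  obtain ⟨k1, k2⟩ := kx0 (gs := gs) tp.tg tp.lb0 tp.cpl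
  set T := th y ^ (N - n1 y' y) with hT
  have hT0 : 0 ≤ T := by positivity
  have hTle : T ≤ 1 := pow_le_one₀ (by linarith) c2.le
  have hT1 : th y ^ (N + 1 - n1 y' y) ≤ T := by
    have : N + 1 - n1 y' y = (N - n1 y' y) + 1 := by omega
    rw [this, pow_succ]
    have := mul_le_mul_of_nonneg_left c2.le hT0
    linarith
  have hT2 : 0 ≤ th y ^ (N + 1 - n1 y' y) := by positivity
  have hA := M6_aux2 tp.tg hN
  rw [← hT] at hA
  have hrn : 0 < rh y ^ N := pow_pos hr0 N

  have e3 : cv (kx gs a0 y' y) x N * rh y ^ N = coeff 0 (kx gs a0 y' y) * (x N * rh y ^ N) +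
      ∑ l ∈ Ico 1 (N + 1), (coeff l (kx gs a0 y' y) * rh y ^ l) *
              (rh y ^ (N - l) * x (N - l)) := by
    unfold cv
    rw [← Finset.sum_range_add_sum_Ico _ (show 1 ≤ N + 1 by omega), add_mul, Finset.sum_range_one,
      Nat.sub_zero, Finset.sum_mul, mul_assoc]
    congr 1
    apply Finset.sum_congr rfl
    intro l hl
    rw [Finset.mem_Ico] at hl
    have : rh y ^ N = rh y ^ l * rh y ^ (N - l) := by
      rw [← pow_add]
      congr 1
      omega
    rw [this]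
    ring
  have f1 := M6_aux3 (n := N) (k := 1) hr0 (Bd_kx tp.tg g tp.lb0)
        (by omega) hZ1 (x := x) (fun m hm => hx m (by omega))
  set S := ∑ l ∈ Ico 1 (N + 1), (coeff l (kx gs a0 y' y) * rh y ^ l) *
              (rh y ^ (N - l) * x (N - l)) with hS

  have hDN : |D N| ≤ |x N| + Z1 * T := by
    rw [hDx]
    have h1 : |phs gs * x N| ≤ |x N| := by
      rw [abs_mul, abs_of_pos (by linarith)]
      have := mul_le_mul_of_nonneg_right p2 (abs_nonneg (x N))
      linarith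
    have h2 : 1 / 10 ^ 50 * Z1 * T ≤ Z1 * T := by
      have h0 : 0 ≤ Z1 * T := by positivity
      have := mul_le_mul_of_nonneg_right (show (1 : ℝ) / 10 ^ 50 ≤ 1 by norm_num) h0
      linarith
    exact le_trans (abs_add_le _ _) (add_le_add h1 (le_trans hR h2))
  set a := |x N| with ha
  have ha0 : 0 ≤ a := abs_nonneg _
  set b := Z1 * T with hb
  have hb0 : 0 ≤ b := by positivity
  have hbZ : b ≤ Z1 := by
    have := mul_le_mul_of_nonneg_left hTle hZ1
    linarith
  set h := 2 * (gs * th y ^ (N + 1 - n1 y' y)) * D N + D N ^ 2 with hh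
  have hD0 := abs_nonneg (D N)
  have hDsq : |D N| * |D N| ≤ a / 10 + a * b + b * b := by
    have q1 : |D N| * |D N| ≤ |D N| * (a + b) := mul_le_mul_of_nonneg_left hDN hD0
    have q2 : |D N| * a ≤ 1 / 10 * a := mul_le_mul_of_nonneg_right hD ha0
    have q3 : |D N| * b ≤ (a + b) * b := mul_le_mul_of_nonneg_right hDN hb0
    nlinarith
  have hhb : |h| ≤ a * (2 * gs + 1 / 10 + Z1) + (2 * gs * Z1 + Z1 * Z1) * (T * T) := by
    have q1 : |2 * (gs * th y ^ (N + 1 - n1 y' y)) * D N| ≤ 2 * gs * T * (a + b) := by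
      rw [abs_mul, abs_of_nonneg (by positivity)]
      have := mul_le_mul hT1 hDN hD0 hT0
      nlinarith [mul_le_mul_of_nonneg_left this hgs.le]
    have q2 : |D N ^ 2| ≤ a / 10 + a * b + b * b := by
      rw [abs_pow, pow_two]
      exact hDsq
    have q3 : |h| ≤ 2 * gs * T * (a + b) + (a / 10 + a * b + b * b) :=
      le_trans (abs_add_le _ _) (add_le_add q1 q2)
    have q4 : gs * T * a ≤ gs * a := by
      have := mul_le_mul_of_nonneg_right hTle (by positivity : 0 ≤ gs * a)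
      linarith
    have q5 : a * b ≤ a * Z1 := mul_le_mul_of_nonneg_left hbZ ha0
    have q6 : 2 * gs * T * b = 2 * gs * Z1 * (T * T) := by rw [hb]; ring
    have q7 : b * b = Z1 * Z1 * (T * T) := by rw [hb]; ring
    nlinarith
  have hhr : |h| * rh y ^ N ≤ (2 * gs + 1 / 10 + Z1) * (a * rh y ^ N) +
      9 * (2 * gs * Z1 + Z1 * Z1) := by
    have q1 := mul_le_mul_of_nonneg_right hhb hrn.le
    have q2 : (2 * gs * Z1 + Z1 * Z1) * (T * T * rh y ^ N) ≤ (2 * gs * Z1 + Z1 * Z1) * 9 :=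
      mul_le_mul_of_nonneg_left hA (by positivity)
    nlinarith

  have e4 : (2 * (1 / phs gs) - coeff 0 (kx gs a0 y' y)) * (x N * rh y ^ N) =
      S + (1 / phs gs ^ 2) * (h * rh y ^ N) := by
    have e5 := congrArg (fun z => z * rh y ^ N) e1
    beta_reduce at e5
    rw [sub_mul, e3] at e5
    linarith
  have e6 : 1 ≤ 2 * (1 / phs gs) - coeff 0 (kx gs a0 y' y) := by
    have : 1 ≤ 1 / phs gs := by
      rw [le_div_iff₀ (by linarith)]
      linarith
    linarith
  have e7 : |x N * rh y ^ N| = a * rh y ^ N := by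
    rw [abs_mul, abs_of_pos hrn]
  have e8 : a * rh y ^ N ≤ 39 * Z1 + 103 / 100 * (|h| * rh y ^ N) := by
    have q1 : |(2 * (1 / phs gs) - coeff 0 (kx gs a0 y' y)) * (x N * rh y ^ N)| ≤
        39 * Z1 + 103 / 100 * (|h| * rh y ^ N) := by
      rw [e4]
      refine le_trans (abs_add_le _ _) (add_le_add f1 ?_)
      rw [abs_mul, abs_mul, abs_of_pos hrn, abs_of_nonneg (by positivity)]
      exact mul_le_mul_of_nonneg_right p4 (by positivity)
    rw [abs_mul, e7, abs_of_nonneg (by linarith)] at q1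
    have q2 : 0 ≤ a * rh y ^ N := by positivity
    have q3 := mul_le_mul_of_nonneg_right e6 q2
    linarith
  set AA := a * rh y ^ N with hAA
  have hAA0 : 0 ≤ AA := by positivity
  have r1 : (2 * gs + 1 / 10 + Z1) * AA ≤ (11 / 100) * AA := by
    apply mul_le_mul_of_nonneg_right _ hAA0
    have : (1 : ℝ) / 10 ^ 6 ≤ 1 / 1000 := by norm_num
    linarith
  have r2 : 2 * gs * Z1 + Z1 * Z1 ≤ 3 / 10 ^ 6 * Z1 := by
    have q1 := mul_le_mul_of_nonneg_right hgs3 hZ1
    have q2 := mul_le_mul_of_nonneg_right hZ hZ1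
    linarith
  linarith

end

end MP18
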