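import Pool.Agent.Lib.MP_18566a_pr.T.M6

set_option autoImplicit false

namespace MP18

open Finset PowerSeries

/-- the small root of `p x - x ^ 2 = g` -/
noncomputable def M7_rt (p g : ℝ) : ℝ := 2 * g / (p + Real.sqrt (p ^ 2 - 4 * g))

theorem M7_rt_spec {p g : ℝ} (hp : 1 / 2 ≤ p) (hg : |g| ≤ 1 / 20) :
    p * M7_rt p g - M7_rt p g ^ 2 = g ∧ |M7_rt p g| ≤ 2 * |g| / p := by
  have hg' := abs_le.1 hg
  have h0 : 0 ≤ p ^ 2 - 4 * g := by nlinarith
  have hs2 := Real.sq_sqrt h0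
  have hs := Real.sqrt_nonneg (p ^ 2 - 4 * g)
  unfold M7_rt
  set s := Real.sqrt (p ^ 2 - 4 * g) with hsdef
  have hps : 0 < p + s := by linarith
  constructor
  · have h1 : p * (2 * g / (p + s)) - (2 * g / (p + s)) ^ 2
        = (2 * g * p * (p + s) - 4 * g ^ 2) / (p + s) ^ 2 := by
      field_simp
      ring
    rw [h1, div_eq_iff (by positivity)]
    linear_combination (-g) * hs2
  · rw [abs_div, abs_mul, abs_of_pos hps, abs_of_pos (by norm_num : (0 : ℝ) < 2)]
    exact div_le_div_of_nonneg_left (by positivity) (by linarith) (by linarith)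

theorem small_root {p g : ℝ} (hp : 1 / 2 ≤ p) (hg : |g| ≤ 1 / 20) :
    ∃ x : ℝ, p * x - x ^ 2 = g ∧ |x| ≤ 2 * |g| / p :=
  ⟨_, M7_rt_spec hp hg⟩

/-- the recursive solution -/
noncomputable def M7_D (F k d : ℕ → ℝ) (y : ℕ) (n : ℕ) : ℝ :=
  if n < y then d n
  else M7_rt (2 * F n - k 0) (∑ l : Fin n, k (l + 1) * M7_D F k d y (n - (l + 1)))
termination_by n
decreasing_by
  have := l.2
  omega

theorem M7_D_low {F k d : ℕ → ℝ} {y n : ℕ} (h : n < y) : M7_D F k d y n = d n := by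
  rw [M7_D, if_pos h]

theorem M7_D_high {F k d : ℕ → ℝ} {y n : ℕ} (h : y ≤ n) :
    M7_D F k d y n =
      M7_rt (2 * F n - k 0) (∑ l ∈ range n, k (l + 1) * M7_D F k d y (n - (l + 1))) := by
  rw [M7_D, if_neg (not_lt.2 h), Finset.sum_range]

theorem M7_cv (A : PS) (u : ℕ → ℝ) (n : ℕ) :
    cv A u n = coeff 0 A * u n + ∑ l ∈ range n, coeff (l + 1) A * u (n - (l + 1)) := by
  unfold cv
  rw [Finset.sum_range_succ', add_comm]
  simp

theorem M7_sum_le {A : PS} {C K : ℝ} {u : ℕ → ℝ} {n : ℕ} (hA : Bd 1 A K) (hC : 0 ≤ C)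
    (hu : ∀ m < n, |u m| ≤ C) :
    |∑ l ∈ range n, coeff (l + 1) A * u (n - (l + 1))| ≤ K * C := by
  have h1 : ∑ l ∈ range n, |coeff (l + 1) A| ≤ K := by
    have h2 := hA (n + 1)
    rw [Finset.sum_range_succ'] at h2
    simp only [one_pow, mul_one] at h2
    linarith [abs_nonneg (coeff 0 A)]
  calc |∑ l ∈ range n, coeff (l + 1) A * u (n - (l + 1))|
      ≤ ∑ l ∈ range n, |coeff (l + 1) A * u (n - (l + 1))| := Finset.abs_sum_le_sum_abs _ _
    _ ≤ ∑ l ∈ range n, |coeff (l + 1) A| * C := by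
        refine Finset.sum_le_sum fun l hl => ?_
        rw [abs_mul]
        have := Finset.mem_range.1 hl
        exact mul_le_mul_of_nonneg_left (hu _ (by omega)) (abs_nonneg _)
    _ = (∑ l ∈ range n, |coeff (l + 1) A|) * C := by rw [Finset.sum_mul]
    _ ≤ K * C := mul_le_mul_of_nonneg_right h1 hC

theorem top_exists {Lm y'' y' y : ℕ} {gs φ' B : ℝ} {a00 a0 : PS} {d : ℕ → ℝ}
    (tp : TP Lm y'' y' y a00 a0 φ') (g : GS Lm gs) (hB0 : 0 ≤ B) (hB : ∀ n < y, |d n| ≤ B)
    (hBs : B * (10 ^ 10 * A1 * AS Lm ^ 2) ≤ 1) :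
    ∃ D : ℕ → ℝ, (∀ n < y, D n = d n) ∧ (∀ N, TopEq gs a0 y' y N D) ∧
      (∀ n < n1 y' y, |D n| ≤ 40 * A1 * B) ∧
      (∀ m, |xx gs a0 y' y D m| * rh y ^ m ≤ 57600 * AS Lm * A1 * B) := by
  obtain ⟨-, hy0, -, hV0, hV1, hV2, hyy, hyb⟩ := tp.tg.facts
  have hph := phs_bd g
  have hAS : (10 : ℝ) ^ 310 ≤ AS Lm := AS_bd Lm
  have hAS1 : (10 : ℝ) ^ 10 ≤ AS Lm :=
    le_trans (pow_le_pow_right₀ (by norm_num) (by norm_num)) hAS
  have hAS2 : (10000000000 : ℝ) ≤ AS Lm := le_trans (by norm_num) hAS1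
  have hAS3 : (1 : ℝ) ≤ AS Lm := le_trans (by norm_num) hAS1
  clear hAS hyy hyb
  have hA1 : (1 : ℝ) ≤ A1 := by unfold A1; norm_num
  have hA1p : 0 < A1 := by linarith

  have hAB : 0 ≤ A1 * B := by positivity
  have hASp : 0 < AS Lm := lt_of_lt_of_le (by positivity) hAS1
  have hsm : A1 * B * (10 ^ 10 * AS Lm ^ 2) ≤ 1 := by
    calc A1 * B * (10 ^ 10 * AS Lm ^ 2) = B * (10 ^ 10 * A1 * AS Lm ^ 2) := by ring
      _ ≤ 1 := hBs

  have hsm1 : A1 * B * AS Lm * AS Lm ≤ 1 / 10 ^ 10 := by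
    rw [le_div_iff₀ (by positivity)]
    calc A1 * B * AS Lm * AS Lm * 10 ^ 10 = A1 * B * (10 ^ 10 * AS Lm ^ 2) := by ring
      _ ≤ 1 := hsm
  have hsm2 : A1 * B * AS Lm ≤ 1 / 10 ^ 20 := by
    have h1 : 0 ≤ A1 * B * AS Lm := mul_nonneg hAB hASp.le
    have h2 : A1 * B * AS Lm * 10 ^ 10 ≤ 1 / 10 ^ 10 :=
      le_trans (mul_le_mul_of_nonneg_left hAS1 h1) hsm1
    rw [le_div_iff₀ (by positivity)]
    have h3 := mul_le_mul_of_nonneg_right h2 (by positivity : (0 : ℝ) ≤ 10 ^ 10)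
    calc A1 * B * AS Lm * 10 ^ 20 = A1 * B * AS Lm * 10 ^ 10 * 10 ^ 10 := by ring
      _ ≤ 1 / 10 ^ 10 * 10 ^ 10 := h3
      _ = 1 := by norm_num
  have hsm3 : A1 * B ≤ 1 / 10 ^ 20 := by
    refine le_trans ?_ hsm2
    have : (1 : ℝ) ≤ AS Lm := le_trans (by norm_num) hAS1
    nlinarith
  have hB1 : B ≤ A1 * B := by nlinarith
  set Z1 : ℝ := 57600 * AS Lm * A1 * B with hZ1
  have hZ1p : 0 ≤ Z1 := by positivity
  have hZ1s : Z1 ≤ 57600 / 10 ^ 20 := by
    calc Z1 = 57600 * (A1 * B * AS Lm) := by rw [hZ1]; ring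
      _ ≤ 57600 * (1 / 10 ^ 20) := by gcongr
      _ = 57600 / 10 ^ 20 := by ring
  have hZ1a : 200 * Z1 ≤ 1 / (400 * AS Lm) := by
    rw [le_div_iff₀ (by positivity)]
    calc 200 * Z1 * (400 * AS Lm) = 4608000000 * (A1 * B * AS Lm * AS Lm) := by
          rw [hZ1]; ring
      _ ≤ 4608000000 * (1 / 10 ^ 10) := by gcongr
      _ ≤ 1 := by norm_num
  have h40 : 40 * A1 * B ≤ Z1 := by
    rw [hZ1]
    have h1 : (1 : ℝ) ≤ AS Lm := le_trans (by norm_num) hAS1
    have h2 : 40 * (A1 * B) ≤ 57600 * AS Lm * (A1 * B) := by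
      apply mul_le_mul_of_nonneg_right _ hAB
      linarith
    linarith

  set kk : PS := kS gs a0 y' y with hkk
  have hkB : Bd 1 kk 39 := Bd_kS tp.tg g tp.lb0 tp.cpl
  have ha00 : coeff 0 a0 ≤ 1 := by
    have h1 := tp.cpl.2
    rw [← h1]
    exact Finset.single_le_sum (f := fun n => coeff n a0) (fun n _ => tp.lb0.nn n)
      (Finset.mem_range.2 hy0)
  have hk0 : coeff 0 kk ≤ phs gs := by
    rw [hkk, kS_low tp.tg g tp.lb0 hy0, coeff_zero_ker tp.lb0.pos.ne']
    have : 0 ≤ phs gs := by linarith [hph.1]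
    nlinarith

  set D : ℕ → ℝ := M7_D (fun n => Cum (aS gs a0 y' y) n) (fun l => coeff l kk) d y with hD
  have hDlow : ∀ n < y, D n = d n := fun n hn => M7_D_low hn
  have hDlowB : ∀ n < y, |D n| ≤ B := fun n hn => by rw [hDlow n hn]; exact hB n hn

  have step : ∀ (N : ℕ) (C : ℝ), y ≤ N → 0 ≤ C → C ≤ 1 / 10 ^ 4 → (∀ m < N, |D m| ≤ C) →
      (2 * Cum (aS gs a0 y' y) N - D N) * D N = cv kk D N ∧ |D N| ≤ 80 * C := by
    intro N C hN hC0 hC1 hC
    have hF := (Cum_aS_mid tp.tg g tp.lb0.nn tp.cpl (n := N) (by omega)).1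
    have hgb := M7_sum_le (n := N) hkB hC0 hC
    set G : ℝ := ∑ l ∈ range N, coeff (l + 1) kk * D (N - (l + 1)) with hG
    have hp : 99 / 100 ≤ 2 * Cum (aS gs a0 y' y) N - coeff 0 kk := by linarith [hph.1]
    have hG20 : |G| ≤ 1 / 20 := by
      refine hgb.trans ?_
      have : 39 * C ≤ 39 * (1 / 10 ^ 4) := by gcongr
      refine this.trans (by norm_num)
    obtain ⟨r1, r2⟩ := M7_rt_spec (p := 2 * Cum (aS gs a0 y' y) N - coeff 0 kk) (g := G)
      (by linarith) hG20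
    have hDN : D N = M7_rt (2 * Cum (aS gs a0 y' y) N - coeff 0 kk) G := by
      rw [hD, M7_D_high hN]
    rw [← hDN] at r1 r2
    refine ⟨?_, r2.trans ?_⟩
    · rw [M7_cv, ← hG]
      linear_combination r1
    · rw [div_le_iff₀ (by linarith)]
      nlinarith [abs_nonneg G]

  have claimA : ∀ N, N ≤ n1 y' y → TopEq gs a0 y' y N D ∧ ∀ n < N, |D n| ≤ 1 / 10 := by
    intro N
    induction N with
    | zero =>
      intro _
      exact ⟨fun n _ hn => absurd hn (Nat.not_lt_zero n), fun n hn => absurd hn (Nat.not_lt_zero n)⟩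
    | succ N ih =>
      intro hN
      obtain ⟨i1, i2⟩ := ih (by omega)
      have hw := win_D tp g (N := N) (by omega) hB0 hDlowB i1 i2
      rcases lt_or_ge N y with h | h
      · refine ⟨fun n h1 h2 => by omega, fun n hn => ?_⟩
        refine (hDlowB n (by omega)).trans (hB1.trans (hsm3.trans (by norm_num)))
      · obtain ⟨s1, s2⟩ := step N (40 * A1 * B) h (by positivity)
          (by
            have : 40 * (A1 * B) ≤ 40 * (1 / 10 ^ 20) := by gcongr
            rw [← mul_assoc] at this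
            exact this.trans (by norm_num)) hw
        refine ⟨fun n h1 h2 => ?_, fun n hn => ?_⟩
        · rcases Nat.lt_succ_iff_lt_or_eq.1 h2 with h3 | h3
          · exact i1 n h1 h3
          · rw [h3]; exact s1
        · rcases Nat.lt_succ_iff_lt_or_eq.1 hn with h3 | h3
          · exact i2 n h3
          · rw [h3]
            refine s2.trans ?_
            have : 80 * (40 * (A1 * B)) ≤ 80 * (40 * (1 / 10 ^ 20)) := by gcongr
            rw [← mul_assoc 40 A1 B] at this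
            exact this.trans (by norm_num)
  obtain ⟨e1, e2⟩ := claimA (n1 y' y) le_rfl
  have hw := win_D tp g (N := n1 y' y) le_rfl hB0 hDlowB e1 e2
  have hxlow : ∀ m < n1 y' y, |xx gs a0 y' y D m| * rh y ^ m ≤ 720 * (A1 * B) := by
    intro m hm
    have := x_low tp.tg g tp.lb0 hw m hm
    linarith
  have hn1 : y ≤ n1 y' y := by unfold n1; omega

  have claimC : ∀ j, TopEq gs a0 y' y (n1 y' y + j) D ∧
      ∀ m < n1 y' y + j, |xx gs a0 y' y D m| * rh y ^ m ≤ Z1 := by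
    intro j
    induction j with
    | zero =>
      refine ⟨e1, fun m hm => (hxlow m hm).trans ?_⟩
      rw [hZ1]
      have h2 : 720 * (A1 * B) ≤ 57600 * AS Lm * (A1 * B) := by
        apply mul_le_mul_of_nonneg_right _ hAB
        linarith
      linarith
    | succ j ih =>
      obtain ⟨i1, i2⟩ := ih
      set N := n1 y' y + j with hNdef
      have hDm : ∀ m < N, |D m| ≤ 2 * Z1 := by
        intro m hm
        rcases lt_or_ge m (n1 y' y) with h | h
        · have := hw m h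
          linarith
        · have := D_bd (n := m) (D := D) tp.tg g tp.lb0
            (fun m' hm' => i2 m' (lt_of_le_of_lt hm' hm)) h
          refine this.trans ?_
          have hth := th_bd tp.tg
          have h1 : th y ^ (m - n1 y' y) ≤ 1 := pow_le_one₀ (by linarith [hth.1]) hth.2.le
          have h2 : 0 ≤ 2 * Z1 := by positivity
          nlinarith
      obtain ⟨s1, s2⟩ := step N (2 * Z1) (by omega) (by positivity)
        (by
          have : 2 * Z1 ≤ 2 * (57600 / 10 ^ 20) := by gcongr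
          exact this.trans (by norm_num)) hDm
      have hEN : TopEq gs a0 y' y (N + 1) D := by
        intro n h1 h2
        rcases Nat.lt_succ_iff_lt_or_eq.1 h2 with h3 | h3
        · exact i1 n h1 h3
        · rw [h3]; exact s1
      have hDN : |D N| ≤ 1 / 10 := by
        refine s2.trans ?_
        have : 80 * (2 * Z1) ≤ 80 * (2 * (57600 / 10 ^ 20)) := by gcongr
        exact this.trans (by norm_num)
      have hst := top_step tp g (N := N) (by omega) i2 (hZ1s.trans (by norm_num)) hEN hDN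
      have hall : ∀ m < N + 1, |xx gs a0 y' y D m| * rh y ^ m ≤ 1 / (400 * AS Lm) := by
        intro m hm
        rcases Nat.lt_succ_iff_lt_or_eq.1 hm with h3 | h3
        · refine (i2 m h3).trans (le_trans ?_ hZ1a)
          linarith
        · rw [h3]
          exact hst.trans hZ1a
      have hap := top_apriori tp g (N := N + 1) (Z0 := 720 * (A1 * B)) hall
        (mul_nonneg (by norm_num) hAB)
        (fun m h1 _ => hxlow m h1) hEN
      refine ⟨hEN, fun m hm => (hap m hm).trans (le_of_eq ?_)⟩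
      rw [hZ1]; ring
  refine ⟨D, hDlow, fun N => ?_, hw, fun m => (claimC (m + 1)).2 m (by omega)⟩
  intro n h1 h2
  exact (claimC N).1 n h1 (by omega)

end MP18
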