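import Pool.Agent.Lib.MP_18566a_pr.T.M7

set_option autoImplicit false

namespace MP18

open Finset PowerSeries

theorem M8_aux_max (N : ℕ) (hN : 0 < N) (f : ℕ → ℝ) : ∃ m0 < N, ∀ m < N, f m ≤ f m0 := by
  obtain ⟨m0, hm0, h⟩ := Finset.exists_max_image (range N) f ⟨0, by simpa using hN⟩
  exact ⟨m0, by simpa using hm0, fun m hm => h m (by simpa using hm)⟩

/-- the difference of the nonlinear terms -/
theorem M8_aux_h {gs T y R D D' Z1 Z' : ℝ} (hgs : 0 ≤ gs) (hT : 0 ≤ T) (hy : 1 ≤ y)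
    (hR : 0 ≤ R) (hZ1 : 0 ≤ Z1) (hZ' : 0 ≤ Z') (hD : |D| ≤ 2 * Z1 * T) (hD' : |D'| ≤ 4 * Z1 * T)
    (hDD : |D - D'| ≤ 2 * Z' * T) (hTR : T ^ 2 * R ≤ 9) :
    |(2 * gs * (T * (1 - 1 / y)) * D + D ^ 2) - (2 * gs * T * D' + D' ^ 2)| * R ≤
      (36 * gs + 108 * Z1) * Z' + 72 * gs * Z1 / y := by
  have hy0 : 0 < y := by linarith
  have e : (2 * gs * (T * (1 - 1 / y)) * D + D ^ 2) - (2 * gs * T * D' + D' ^ 2)
      = 2 * gs * T * (1 - 1 / y) * (D - D') + (- (2 * (gs / y) * T * D'))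
        + (D + D') * (D - D') := by
    field_simp
    ring
  have hth0 : 0 ≤ 1 - 1 / y := by
    have : 1 / y ≤ 1 := by
      rw [div_le_one hy0]; exact hy
    linarith
  have hth1 : 1 - 1 / y ≤ 1 := by
    have : 0 ≤ 1 / y := by positivity
    linarith
  have h1 : |2 * gs * T * (1 - 1 / y) * (D - D')| ≤ T ^ 2 * (4 * gs * Z') := by
    rw [abs_mul, abs_of_nonneg (by positivity : 0 ≤ 2 * gs * T * (1 - 1 / y))]
    calc 2 * gs * T * (1 - 1 / y) * |D - D'| ≤ 2 * gs * T * 1 * (2 * Z' * T) := by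
          gcongr
      _ = T ^ 2 * (4 * gs * Z') := by ring
  have h2 : |(- (2 * (gs / y) * T * D'))| ≤ T ^ 2 * (8 * gs * Z1 / y) := by
    rw [abs_neg, abs_mul, abs_of_nonneg (by positivity : 0 ≤ 2 * (gs / y) * T)]
    calc 2 * (gs / y) * T * |D'| ≤ 2 * (gs / y) * T * (4 * Z1 * T) := by gcongr
      _ = T ^ 2 * (8 * gs * Z1 / y) := by ring
  have h3 : |(D + D') * (D - D')| ≤ T ^ 2 * (12 * Z1 * Z') := by
    rw [abs_mul]
    have : |D + D'| ≤ 6 * Z1 * T := by
      calc |D + D'| ≤ |D| + |D'| := abs_add_le _ _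
        _ ≤ 2 * Z1 * T + 4 * Z1 * T := add_le_add hD hD'
        _ = 6 * Z1 * T := by ring
    calc |D + D'| * |D - D'| ≤ (6 * Z1 * T) * (2 * Z' * T) := by gcongr
      _ = T ^ 2 * (12 * Z1 * Z') := by ring
  have h4 : |(2 * gs * (T * (1 - 1 / y)) * D + D ^ 2) - (2 * gs * T * D' + D' ^ 2)| ≤
      T ^ 2 * (4 * gs * Z' + 8 * gs * Z1 / y + 12 * Z1 * Z') := by
    rw [e]
    calc _ ≤ |2 * gs * T * (1 - 1 / y) * (D - D')| + |(- (2 * (gs / y) * T * D'))|
          + |(D + D') * (D - D')| := abs_add_three _ _ _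
      _ ≤ T ^ 2 * (4 * gs * Z') + T ^ 2 * (8 * gs * Z1 / y) + T ^ 2 * (12 * Z1 * Z') := by
          gcongr
      _ = _ := by ring
  have h5 : 0 ≤ 4 * gs * Z' + 8 * gs * Z1 / y + 12 * Z1 * Z' := by positivity
  calc |(2 * gs * (T * (1 - 1 / y)) * D + D ^ 2) - (2 * gs * T * D' + D' ^ 2)| * R
      ≤ (T ^ 2 * (4 * gs * Z' + 8 * gs * Z1 / y + 12 * Z1 * Z')) * R := by gcongr
    _ = (T ^ 2 * R) * (4 * gs * Z' + 8 * gs * Z1 / y + 12 * Z1 * Z') := by ring
    _ ≤ 9 * (4 * gs * Z' + 8 * gs * Z1 / y + 12 * Z1 * Z') := by gcongr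
    _ = (36 * gs + 108 * Z1) * Z' + 72 * gs * Z1 / y := by ring

/-- `th^(2k) rh^n <= 9` -/
theorem M8_aux_TR {Lm y' y n : ℕ} (t : TG Lm y' y) (hn : n1 y' y ≤ n) :
    (th y ^ (n - n1 y' y)) ^ 2 * rh y ^ n ≤ 9 := by
  obtain ⟨hr1, hr2⟩ := rh_bd t
  have h9 := (r_adm t hr1 hr2).2
  have hr0 : 0 ≤ rh y := by linarith
  obtain ⟨k, rfl⟩ := Nat.exists_eq_add_of_le hn
  have e : n1 y' y + k - n1 y' y = k := by omega
  rw [e]
  have h1 : rh y ^ n1 y' y ≤ 9 := by
    have : rh y ^ n1 y' y ≤ rh y ^ (n1 y' y + 1) := pow_le_pow_right₀ hr1 (by omega)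
    linarith
  have h2 : (th y ^ 2 * rh y) ^ k ≤ 1 := by
    apply pow_le_one₀
    · exact mul_nonneg (sq_nonneg _) hr0
    · have := (th_rh t).1
      have h3 : (0 : ℝ) ≤ 1 / (2 * y) := by positivity
      linarith
  have h0 : 0 ≤ (th y ^ 2 * rh y) ^ k := pow_nonneg (mul_nonneg (sq_nonneg _) hr0) _
  calc (th y ^ k) ^ 2 * rh y ^ (n1 y' y + k) = (th y ^ 2 * rh y) ^ k * rh y ^ n1 y' y := by ring
    _ ≤ 1 * 9 := by
        apply mul_le_mul h2 h1 (pow_nonneg hr0 _) (by norm_num)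
    _ = 9 := by norm_num

/-- the equation of the differences of `x` -/
theorem M8_aux_eq {Lm y' y n : ℕ} {gs : ℝ} {a0 : PS} {D : ℕ → ℝ} (t : TG Lm y' y)
    (g : GS Lm gs) (h : LB y' a0) (c : Cpl a0 y 1)
    (hE : ∀ N, TopEq gs a0 y' y N D) (hn : n1 y' y ≤ n) :
    2 * (1 / phs gs) * dd (xx gs a0 y' y D) n - cv (kx gs a0 y' y) (dd (xx gs a0 y' y D)) n
      = 1 / phs gs ^ 2 * ((2 * gs * (th y ^ (n - n1 y' y) * (1 - 1 / y)) * D n + D n ^ 2)
        - (2 * gs * th y ^ (n - n1 y' y) * D (n - 1) + D (n - 1) ^ 2)) := by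
  have hV : 0 < Vt y' := t.facts.2.2.2.1
  have hn0 : y + 2 * Vt y' ≤ n := hn
  obtain ⟨m, rfl⟩ : ∃ m, n = m + 1 := ⟨n - 1, by omega⟩
  have hm : m + 1 - 1 = m := by omega
  have E1 := hE (m + 2) (m + 1) (by omega) (by omega)
  have E0 := hE (m + 1) m (by omega) (by omega)
  have x1 := x_eq t g h c D (m + 1)
  have x0 := x_eq t g h c D m
  have F1 := Cum_aS_high (gs := gs) (a0 := a0) (n := m + 1) t c (by omega)
  have F0 := Cum_aS_high (gs := gs) (a0 := a0) (n := m) t c (by omega)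
  have hth : th y ^ (m + 1 + 1 - n1 y' y) = th y ^ (m + 1 - n1 y' y) * (1 - 1 / y) := by
    have : m + 1 + 1 - n1 y' y = (m + 1 - n1 y' y) + 1 := by omega
    rw [this, pow_succ]; rfl
  rw [hth] at F1
  have hd : cv (kx gs a0 y' y) (dd (xx gs a0 y' y D)) (m + 1)
      = cv (kx gs a0 y' y) (xx gs a0 y' y D) (m + 1) - cv (kx gs a0 y' y) (xx gs a0 y' y D) m := by
    rw [cv_diff]; rfl
  have hdx : dd (xx gs a0 y' y D) (m + 1)
      = xx gs a0 y' y D (m + 1) - xx gs a0 y' y D m := by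
    simp [dd]
  have hp : phs gs ≠ 0 := by
    have := (phs_bd g).1
    intro h0; rw [h0] at this; norm_num at this
  have hp2 : phs gs ^ 2 ≠ 0 := pow_ne_zero _ hp
  rw [hm, hd, hdx]
  rw [F1] at E1
  rw [F0] at E0
  rw [eq_comm, one_div, inv_mul_eq_iff_eq_mul₀ hp2]
  linear_combination x1 - x0 - E1 + E0

theorem top_diff {Lm y'' y' y : ℕ} {gs φ' B B1 : ℝ} {a00 a0 : PS} {D : ℕ → ℝ}
    (tp : TP Lm y'' y' y a00 a0 φ') (g : GS Lm gs) (hB0 : 0 ≤ B) (hB10 : 0 ≤ B1)
    (hB : ∀ n < y, |D n| ≤ B) (hB1 : ∀ n < y, |dd D n| ≤ B1)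
    (hBs : B * (10 ^ 10 * A1 * AS Lm ^ 2) ≤ 1)
    (hE : ∀ N, TopEq gs a0 y' y N D) (hw : ∀ n < n1 y' y, |D n| ≤ 40 * A1 * B)
    (hx : ∀ m, |xx gs a0 y' y D m| * rh y ^ m ≤ 57600 * AS Lm * A1 * B)
    (hlow : (2 * phs gs - D (y - 1)) * D (y - 1) = cv (kS gs a0 y' y) D (y - 1)) :
    (∀ n < n1 y' y, |dd D n| ≤ 40 * A1 * B1 + 500 * A1 ^ 2 * B / y') ∧
    (∀ n, n1 y' y ≤ n → |dd D n| ≤
      (1512 * AS Lm * (40 * A1 * B1 + 500 * A1 ^ 2 * B / y') + 1 / 1000 * gs / y)
        * th y ^ (n - n1 y' y)) := by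
  have t := tp.tg
  have h := tp.lb0
  have c := tp.cpl
  obtain ⟨hy'0, hy0, hLm, hV0, hV5, hV4, hyy, hybig⟩ := t.facts
  have hA1 : A1 = 10 ^ 47 := rfl
  have hA1pos : (0 : ℝ) < A1 := by rw [hA1]; positivity
  have hAS := AS_bd Lm
  have hAS1 : (1 : ℝ) ≤ AS Lm := le_trans (one_le_pow₀ (by norm_num)) hAS
  clear hAS hyy hybig hA1
  have hAS0 : (0 : ℝ) < AS Lm := by linarith
  set a := AS Lm with ha

  have hAB : 10 ^ 10 * (A1 * B) * a ^ 2 ≤ 1 := by
    calc 10 ^ 10 * (A1 * B) * a ^ 2 = B * (10 ^ 10 * A1 * a ^ 2) := by ring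
      _ ≤ 1 := hBs
  have hABn : 0 ≤ A1 * B := mul_nonneg hA1pos.le hB0
  have ha2 : a ≤ a ^ 2 := by
    calc a = a * 1 := by ring
      _ ≤ a * a := by gcongr
      _ = a ^ 2 := by ring
  have hAB1 : 10 ^ 10 * (A1 * B) * a ≤ 1 := by
    have h0 : 0 ≤ 10 ^ 10 * (A1 * B) := mul_nonneg (by norm_num) hABn
    have := mul_le_mul_of_nonneg_left ha2 h0
    linarith
  have hAB2 : 10 ^ 10 * (A1 * B) ≤ 1 := by
    have h0 : 0 ≤ 10 ^ 10 * (A1 * B) := mul_nonneg (by norm_num) hABn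
    have := mul_le_mul_of_nonneg_left hAS1 h0
    linarith
  set Z1 : ℝ := 57600 * a * A1 * B with hZ1
  have hZ1n : 0 ≤ Z1 := by rw [hZ1]; positivity
  have hZ1a : 10 ^ 10 * (a * Z1) ≤ 57600 := by
    have : 10 ^ 10 * (a * Z1) = 57600 * (10 ^ 10 * (A1 * B) * a ^ 2) := by rw [hZ1]; ring
    rw [this]; linarith
  have h40 : 40 * A1 * B ≤ Z1 := by
    rw [hZ1]
    have : 40 * A1 * B * 1 ≤ 57600 * A1 * B * a := by
      have e1 : 40 * A1 * B ≤ 57600 * A1 * B := by nlinarith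
      exact mul_le_mul e1 hAS1 (by norm_num) (by positivity)
    linarith
  have h10 : ∀ n < n1 y' y, |D n| ≤ 1 / 10 := by
    intro n hn
    have := hw n hn
    nlinarith
  have W := win_dD tp g hB0 hB10 hB hB1 (hE (n1 y' y)) h10 hlow
  refine ⟨W, ?_⟩
  set Bw : ℝ := 40 * A1 * B1 + 500 * A1 ^ 2 * B / y' with hBw
  have hBwn : 0 ≤ Bw := by rw [hBw]; positivity

  have hDhi : ∀ n, n1 y' y ≤ n → |D n| ≤ 2 * Z1 * th y ^ (n - n1 y' y) := by
    intro n hn
    exact D_bd t g h (fun m _ => hx m) hn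
  obtain ⟨hth1, hth2⟩ := th_bd t
  have hth0 : 0 < th y := by linarith
  have hDpr : ∀ n, n1 y' y ≤ n → |D (n - 1)| ≤ 4 * Z1 * th y ^ (n - n1 y' y) := by
    intro n hn
    rcases Nat.lt_or_ge (n - 1) (n1 y' y) with hlt | hge
    · have hn' : n = n1 y' y := by omega
      have e : n - n1 y' y = 0 := by omega
      rw [e, pow_zero, mul_one]
      have := hw (n - 1) hlt
      linarith
    · have h1 := hDhi (n - 1) hge
      have hpos : 0 < n := by
        have : 0 < n1 y' y := by unfold n1; omega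
        omega
      have e : n - n1 y' y = (n - 1 - n1 y' y) + 1 := by omega
      rw [e, pow_succ]
      have hp : 0 ≤ th y ^ (n - 1 - n1 y' y) := pow_nonneg hth0.le _
      calc |D (n - 1)| ≤ 2 * Z1 * th y ^ (n - 1 - n1 y' y) := h1
        _ = 2 * Z1 * (th y ^ (n - 1 - n1 y' y) * 1) := by ring
        _ ≤ 2 * Z1 * (th y ^ (n - 1 - n1 y' y) * (2 * th y)) := by
            gcongr
            linarith
        _ = 4 * Z1 * (th y ^ (n - 1 - n1 y' y) * th y) := by ring
  obtain ⟨hr1, hr2⟩ := rh_bd t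
  have hr0 : 0 < rh y := by linarith
  have hgs0 := g.pos
  have hga : gs * (10 ^ 9 * a) ≤ 1 := g.le
  have hy1 : (1 : ℝ) ≤ y := by exact_mod_cast hy0
  have hyp : (0 : ℝ) < y := by linarith
  obtain ⟨hp1, hp2, hp3, hp4⟩ := phs_bd g
  have hppos : 0 < phs gs := by linarith

  set u : ℕ → ℝ := fun m => rh y ^ m * dd (xx gs a0 y' y D) m with hu
  have huabs : ∀ m, |u m| = |xx gs a0 y' y (dd D) m| * rh y ^ m := by
    intro m
    rw [hu]
    simp only
    rw [abs_mul, abs_of_nonneg (pow_nonneg hr0.le _), xx_dd]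
    ring
  have hulow : ∀ m < n1 y' y, |u m| ≤ 18 * Bw := by
    intro m hm
    rw [huabs]
    exact x_low t g h (D := dd D) W m hm
  have hκ : Bd 1 (rescale (rh y) (kx gs a0 y' y)) 39 := (Bd_rescale_iff hr0.le).2 (Bd_kx t g h)

  set ZF : ℝ := 42 * a * (18 * Bw) + 76 * a * gs * Z1 / y with hZF
  have hZFn : 0 ≤ ZF := by rw [hZF]; positivity
  have main : ∀ N, ∀ m < N, |u m| ≤ ZF := by
    intro N
    rcases Nat.eq_zero_or_pos N with hN | hN
    · intro m hm; omega
    obtain ⟨m0, hm0, hmax⟩ := M8_aux_max N hN (fun m => |u m|)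
    set Z' : ℝ := |u m0| with hZ'
    have hZ'n : 0 ≤ Z' := abs_nonneg _
    have hdd : ∀ n, n1 y' y ≤ n → n < N → |dd D n| ≤ 2 * Z' * th y ^ (n - n1 y' y) := by
      intro n hn hnN
      apply D_bd t g h (D := dd D) (Z := Z') _ hn
      intro m hm
      rw [← huabs]
      exact hmax m (by omega)

    have hG : ∀ n, n1 y' y ≤ n → n < N →
        |2 * (1 / phs gs) * u n - ∑ l ∈ range (n - n1 y' y + 1),
          coeff l (rescale (rh y) (kx gs a0 y' y)) * u (n - l)| ≤
        (38 * gs + 112 * Z1) * Z' + 75 * gs * Z1 / y + 39 * (18 * Bw) := by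
      intro n hn hnN
      have heq := M8_aux_eq t g h c hE hn
      have hcv : cv (rescale (rh y) (kx gs a0 y' y)) u n
          = rh y ^ n * cv (kx gs a0 y' y) (dd (xx gs a0 y' y D)) n := by
        rw [hu]; exact cv_rescale _ _ _ _
      have hsplit : cv (rescale (rh y) (kx gs a0 y' y)) u n
          = ∑ l ∈ range (n - n1 y' y + 1), coeff l (rescale (rh y) (kx gs a0 y' y)) * u (n - l)
            + ∑ l ∈ Ico (n - n1 y' y + 1) (n + 1),
              coeff l (rescale (rh y) (kx gs a0 y' y)) * u (n - l) := by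
        unfold cv
        rw [Finset.sum_range_add_sum_Ico _ (by omega)]
      have hpast : |∑ l ∈ Ico (n - n1 y' y + 1) (n + 1),
              coeff l (rescale (rh y) (kx gs a0 y' y)) * u (n - l)| ≤ 39 * (18 * Bw) := by
        calc _ ≤ ∑ l ∈ Ico (n - n1 y' y + 1) (n + 1),
              |coeff l (rescale (rh y) (kx gs a0 y' y)) * u (n - l)| :=
              Finset.abs_sum_le_sum_abs _ _
          _ ≤ ∑ l ∈ Ico (n - n1 y' y + 1) (n + 1),
              |coeff l (rescale (rh y) (kx gs a0 y' y))| * (18 * Bw) := by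
              apply Finset.sum_le_sum
              intro l hl
              rw [Finset.mem_Ico] at hl
              rw [abs_mul]
              gcongr
              apply hulow
              omega
          _ = (∑ l ∈ Ico (n - n1 y' y + 1) (n + 1),
              |coeff l (rescale (rh y) (kx gs a0 y' y))|) * (18 * Bw) := by
              rw [Finset.sum_mul]
          _ ≤ (∑ l ∈ range (n + 1),
              |coeff l (rescale (rh y) (kx gs a0 y' y))|) * (18 * Bw) := by
              apply mul_le_mul_of_nonneg_right _ (by positivity)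
              apply Finset.sum_le_sum_of_subset_of_nonneg
              · intro l hl
                rw [Finset.mem_Ico] at hl
                rw [Finset.mem_range]; omega
              · intros; exact abs_nonneg _
          _ ≤ 39 * (18 * Bw) := by
              gcongr
              have := hκ (n + 1)
              simpa using this
      have hmainterm : |rh y ^ n * (1 / phs gs ^ 2 *
          ((2 * gs * (th y ^ (n - n1 y' y) * (1 - 1 / y)) * D n + D n ^ 2)
          - (2 * gs * th y ^ (n - n1 y' y) * D (n - 1) + D (n - 1) ^ 2)))| ≤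
          (38 * gs + 112 * Z1) * Z' + 75 * gs * Z1 / y := by
        have hDD : |D n - D (n - 1)| ≤ 2 * Z' * th y ^ (n - n1 y' y) := by
          have := hdd n hn hnN
          have hn0 : n ≠ 0 := by
            have : 0 < n1 y' y := by unfold n1; omega
            omega
          unfold dd at this
          rw [if_neg hn0] at this
          exact this
        have key := M8_aux_h (y := (y : ℝ)) (R := rh y ^ n) hgs0.le
          (pow_nonneg hth0.le (n - n1 y' y)) hy1 (pow_nonneg hr0.le n) hZ1n hZ'n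
          (hDhi n hn) (hDpr n hn) hDD (M8_aux_TR t hn)
        rw [abs_mul, abs_mul, abs_of_nonneg (pow_nonneg hr0.le n),
          abs_of_nonneg (by positivity : 0 ≤ 1 / phs gs ^ 2)]
        have hnn : 0 ≤ (36 * gs + 108 * Z1) * Z' + 72 * gs * Z1 / y := by positivity
        calc _ = 1 / phs gs ^ 2 * (|(2 * gs * (th y ^ (n - n1 y' y) * (1 - 1 / y)) * D n + D n ^ 2)
          - (2 * gs * th y ^ (n - n1 y' y) * D (n - 1) + D (n - 1) ^ 2)| * rh y ^ n) := by ring
          _ ≤ 103 / 100 * ((36 * gs + 108 * Z1) * Z' + 72 * gs * Z1 / y) := by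
              apply mul_le_mul hp4 key (by positivity) (by norm_num)
          _ ≤ (38 * gs + 112 * Z1) * Z' + 75 * gs * Z1 / y := by
              have e1 : 0 ≤ gs * Z' := by positivity
              have e2 : 0 ≤ Z1 * Z' := by positivity
              have e3 : 0 ≤ gs * Z1 / y := by positivity
              have e4 : 72 * gs * Z1 / y = 72 * (gs * Z1 / y) := by ring
              have e5 : 75 * gs * Z1 / y = 75 * (gs * Z1 / y) := by ring
              rw [e4, e5]
              nlinarith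
      have hfin : 2 * (1 / phs gs) * u n - ∑ l ∈ range (n - n1 y' y + 1),
          coeff l (rescale (rh y) (kx gs a0 y' y)) * u (n - l)
          = rh y ^ n * (1 / phs gs ^ 2 *
          ((2 * gs * (th y ^ (n - n1 y' y) * (1 - 1 / y)) * D n + D n ^ 2)
          - (2 * gs * th y ^ (n - n1 y' y) * D (n - 1) + D (n - 1) ^ 2)))
          + ∑ l ∈ Ico (n - n1 y' y + 1) (n + 1),
              coeff l (rescale (rh y) (kx gs a0 y' y)) * u (n - l) := by
        rw [← heq]
        have e1 : u n = rh y ^ n * dd (xx gs a0 y' y D) n := rfl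
        rw [hcv] at hsplit
        rw [e1]
        linear_combination hsplit
      rw [hfin]
      calc _ ≤ _ := abs_add_le _ _
        _ ≤ _ := add_le_add hmainterm hpast
    have hSP := SP_forward (SP_top t g h) (n1 := n1 y' y) (n2 := N)
      (cf := fun _ => 1 / phs gs) (u := u)
      (g := fun n => 2 * (1 / phs gs) * u n - ∑ l ∈ range (n - n1 y' y + 1),
          coeff l (rescale (rh y) (kx gs a0 y' y)) * u (n - l))
      (fun _ _ _ => hp3) (fun _ _ _ => rfl) hG
    have hZle : Z' ≤ 18 * Bw + a * ((38 * gs + 112 * Z1) * Z' + 75 * gs * Z1 / y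
        + 39 * (18 * Bw)) := by
      have hRn : 0 ≤ a * ((38 * gs + 112 * Z1) * Z' + 75 * gs * Z1 / y + 39 * (18 * Bw)) := by
        positivity
      rcases Nat.lt_or_ge m0 (n1 y' y) with hlt | hge
      · have := hulow m0 hlt
        linarith
      · have := hSP m0 hge hm0
        have h18 : 0 ≤ 18 * Bw := by positivity
        linarith
    have hZfin : Z' ≤ ZF := by
      have e1 : a * gs ≤ 1 / 10 ^ 9 := by
        rw [le_div_iff₀ (by norm_num)]
        calc a * gs * 10 ^ 9 = gs * (10 ^ 9 * a) := by ring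
          _ ≤ 1 := hga
      have e2 : a * Z1 ≤ 57600 / 10 ^ 10 := by
        rw [le_div_iff₀ (by norm_num)]
        linarith
      have e3 : a * (38 * gs + 112 * Z1) ≤ 1 / 1000 := by
        calc a * (38 * gs + 112 * Z1) = 38 * (a * gs) + 112 * (a * Z1) := by ring
          _ ≤ 38 * (1 / 10 ^ 9) + 112 * (57600 / 10 ^ 10) := by gcongr
          _ ≤ 1 / 1000 := by norm_num
      have e4 : a * (38 * gs + 112 * Z1) * Z' ≤ 1 / 1000 * Z' := by gcongr
      have e5 : 18 * Bw ≤ a * (18 * Bw) := by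
        have : 1 * (18 * Bw) ≤ a * (18 * Bw) := by gcongr
        linarith
      have e6 : 0 ≤ a * gs * Z1 / y := by positivity
      have e7 : a * ((38 * gs + 112 * Z1) * Z' + 75 * gs * Z1 / y + 39 * (18 * Bw))
          = a * (38 * gs + 112 * Z1) * Z' + 75 * (a * gs * Z1 / y) + 39 * (a * (18 * Bw)) := by
        ring
      have e8 : 0 ≤ a * (18 * Bw) := by positivity
      have e9 : ZF = 42 * (a * (18 * Bw)) + 76 * (a * gs * Z1 / y) := by rw [hZF]; ring
      rw [e9]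
      rw [e7] at hZle
      nlinarith
    intro m hm
    exact le_trans (hmax m hm) hZfin
  intro n hn
  have hD := D_bd t g h (D := dd D) (Z := ZF) (n := n)
    (fun m hm => by rw [← huabs]; exact main (m + 1) m (by omega)) hn
  refine le_trans hD ?_
  have hp : 0 ≤ th y ^ (n - n1 y' y) := pow_nonneg hth0.le _
  apply mul_le_mul_of_nonneg_right _ hp
  have e2 : 152 * (a * Z1) ≤ 1 / 1000 := by linarith
  have e3 : 152 * (a * Z1) * (gs / y) ≤ 1 / 1000 * (gs / y) := by gcongr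
  calc 2 * ZF = 1512 * a * Bw + 152 * (a * Z1) * (gs / y) := by rw [hZF]; ring
    _ ≤ 1512 * a * Bw + 1 / 1000 * (gs / y) := by linarith
    _ = 1512 * a * Bw + 1 / 1000 * gs / y := by ring

end MP18
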