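import Pool.Agent.Lib.MP_18566a_pr.T.L4

set_option autoImplicit false

namespace MP18

open Finset PowerSeries

/-- bookkeeping of a law complete before `y`, at the scales `y / L ^ i`, `i ≤ n` -/
structure Book (Λ Lm n : ℕ) (a : PS) (y : ℕ) : Prop where
  lo : ∀ i ≤ n, ∀ j, y ≤ Λ ^ i * j → (phi / 2) ^ i ≤ Cum a j
  hi : ∀ i ≤ n, ∀ j, Lm ^ i * j < y → Cum a j ≤ phi ^ i

theorem Book_mono {Λ Lm n m : ℕ} {a : PS} {y : ℕ} (h : Book Λ Lm n a y) (hm : m ≤ n) :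
    Book Λ Lm m a y :=
  ⟨fun i hi j hj => h.lo i (hi.trans hm) j hj, fun i hi j hj => h.hi i (hi.trans hm) j hj⟩

theorem P1_aux1 {a : PS} {y : ℕ} (hn : ∀ j, 0 ≤ coeff j a) (h : Cpl a y 1) (j : ℕ) :
    Cum a j ≤ 1 := by
  have h1 : Cum a (max j y) = 1 := Cum_of_Cpl h ((le_max_right j y).trans (Nat.le_succ _))
  rw [← h1]
  exact Cum_mono hn (le_max_left j y)

theorem P1_aux2 {a : PS} (hn : ∀ j, 0 ≤ coeff j a) (j : ℕ) : 0 ≤ Cum a j :=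
  Finset.sum_nonneg fun i _ => hn i

theorem P1_aux3 {a0 a1 : PS} {y : ℕ} {φ1 : ℝ} (he : ∀ j < y, coeff j a1 = φ1 * coeff j a0)
    {j : ℕ} (hj : j < y) : Cum a1 j = φ1 * Cum a0 j := by
  unfold Cum
  rw [Finset.mul_sum]
  refine Finset.sum_congr rfl fun i hi => he i ?_
  have := Finset.mem_range.1 hi
  omega

theorem Book_zero {Λ Lm : ℕ} {a : PS} {y : ℕ} (hn : ∀ j, 0 ≤ coeff j a) (h : Cpl a y 1) :
    Book Λ Lm 0 a y := by
  refine ⟨fun i hi j hj => ?_, fun i hi j hj => ?_⟩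
  · obtain rfl : i = 0 := by omega
    rw [pow_zero, one_mul] at hj
    rw [pow_zero, Cum_of_Cpl h (hj.trans (Nat.le_succ _))]
  · obtain rfl : i = 0 := by omega
    rw [pow_zero]
    exact P1_aux1 hn h j

theorem P1_phi0 : 0 ≤ phi := by
  have := phi_bd.1
  linarith

theorem P1_phi1 : phi / 2 ≤ 1 := by
  have := phi_bd.2
  linarith

theorem Book_step {Λ Lm n y Y : ℕ} {a0 a1 : PS} {φ1 : ℝ} (h : Book Λ Lm n a0 y)
    (h0 : ∀ j, 0 ≤ coeff j a0) (h1 : ∀ j, 0 ≤ coeff j a1) (c0 : Cpl a0 y 1) (c1 : Cpl a1 Y 1)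
    (hy : 0 < y) (hΛ : 1 ≤ Λ) (hL : 1 ≤ Lm) (hlo : Λ * y ≤ Y) (hhi : Y ≤ Lm * y)
    (p1 : phi / 2 ≤ φ1) (p2 : φ1 ≤ phi) (he : ∀ j < y, coeff j a1 = φ1 * coeff j a0) :
    Book Λ Lm (n + 1) a1 Y := by
  have hphi : 0 ≤ phi := P1_phi0
  have hphi2 : (0 : ℝ) ≤ phi / 2 := by linarith
  have hphi1 : phi / 2 ≤ 1 := P1_phi1
  refine ⟨fun i hi j hj => ?_, fun i hi j hj => ?_⟩
  · rcases i with _ | i
    · rw [pow_zero, one_mul] at hj
      rw [pow_zero, Cum_of_Cpl c1 (hj.trans (Nat.le_succ _))]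
    · have hy' : y ≤ Λ ^ i * j := by
        have h2 : Λ * y ≤ Λ * (Λ ^ i * j) := by
          calc Λ * y ≤ Y := hlo
            _ ≤ Λ ^ (i + 1) * j := hj
            _ = Λ * (Λ ^ i * j) := by ring
        exact Nat.le_of_mul_le_mul_left h2 hΛ
      by_cases hjy : j < y
      · rw [P1_aux3 he hjy, pow_succ, mul_comm]
        exact mul_le_mul p1 (h.lo i (by omega) j hy') (pow_nonneg hphi2 i) (hphi2.trans p1)
      · have h3 : Cum a1 (y - 1) ≤ Cum a1 j := Cum_mono h1 (by omega)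
        have h4 : Cum a1 (y - 1) = φ1 := by
          rw [P1_aux3 he (by omega), Cum_of_Cpl c0 (by omega), mul_one]
        have h5 : (phi / 2) ^ (i + 1) ≤ phi / 2 := by
          rw [pow_succ]
          exact mul_le_of_le_one_left hphi2 (pow_le_one₀ hphi2 hphi1)
        linarith
  · rcases i with _ | i
    · rw [pow_zero]
      exact P1_aux1 h1 c1 j
    · have hy' : Lm ^ i * j < y := by
        have h2 : Lm * (Lm ^ i * j) < Lm * y := by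
          calc Lm * (Lm ^ i * j) = Lm ^ (i + 1) * j := by ring
            _ < Y := hj
            _ ≤ Lm * y := hhi
        exact Nat.lt_of_mul_lt_mul_left h2
      have hjy : j < y := by
        have h2 : 1 * j ≤ Lm ^ i * j := Nat.mul_le_mul_right j (Nat.one_le_pow _ _ hL)
        omega
      rw [P1_aux3 he hjy, pow_succ, mul_comm]
      exact mul_le_mul (h.hi i (by omega) j hy') p2 (hphi2.trans p1) (pow_nonneg hphi i)

theorem St_step {K K2 Cg : ℝ} {δ κ1 : ℕ → ℝ} {ε : ℝ} {Λ Lm : ℕ} {κ Gm η1 η : ℝ}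
    {y'' y' y : ℕ} {a00 a0 : PS} {φ' : ℝ} {d : ℕ → ℝ} {S : ℝ}
    (u : UK K K2 Cg δ κ1) (c : Cst K K2 Cg (δ Lm) (κ1 Lm) ε Λ Lm κ Gm η1)
    (hG : 1 ≤ Gm) (h : St Λ Lm ε η y'' y' y a00 a0 φ' d S) (hη : 0 ≤ η)
    (hη1 : η ≤ η1) (hS : S ≤ η / Gm * y') :
    ∃ (Y : ℕ) (a1 : PS) (φ1 : ℝ) (d1 : ℕ → ℝ) (S1 : ℝ), St Λ Lm ε η y' y Y a0 a1 φ1 d1 S1 ∧
      2 * (S / y') ≤ S1 / y ∧ S1 / y ≤ Gm * (S / y') ∧ phi / 2 ≤ φ1 ∧ φ1 ≤ phi ∧
      (∀ j < y, coeff j a1 = φ1 * coeff j a0) ∧ res a1 d1 Y ≤ res a0 d y := by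
  have hsep : L0 * y' ≤ y := by
    have h2 : ((Λ * y' : ℕ) : ℝ) ≤ y := Nat.cast_le.2 h.sep2
    rw [Nat.cast_mul] at h2
    have h3 : L0 * (y' : ℝ) ≤ Λ * y' := mul_le_mul_of_nonneg_right c.cΛ (Nat.cast_nonneg _)
    linarith
  obtain ⟨W, W', V, g⟩ := Geo_exists h.big hsep
  obtain ⟨D, Y, S', sd⟩ := step_D u c hG h g hη hη1 hS
  obtain ⟨r1, r2, r3, r4, r5, r6, r7⟩ := St_new u c hG h g hη hη1 hS sd
  have hphi : 0 ≤ phi := P1_phi0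
  have hpos : 0 < 1 + kbY κ y Y := by linarith
  refine ⟨Y, _, _, _, _, r1, r2, r3, ?_, ?_, r6, r7⟩
  · rw [div_le_div_iff₀ two_pos hpos]
    nlinarith
  · rw [div_le_iff₀ hpos]
    nlinarith

end MP18
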