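import Pool.Agent.Lib.MP_18566a_pr.T.M8
import Pool.Agent.Lib.MP_18566a_pr.T.P1

set_option autoImplicit false

namespace MP18

open Finset PowerSeries

theorem St_TP {Λ Lm : ℕ} {ε η : ℝ} {y'' y' y : ℕ} {a00 a0 : PS} {φ' : ℝ} {d : ℕ → ℝ} {S : ℝ}
    (hΛ : L0 ≤ Λ) (h : St Λ Lm ε η y'' y' y a00 a0 φ' d S) : TP Lm y'' y' y a00 a0 φ' := by
  refine ⟨⟨?_, ?_, h.up2⟩, h.lb0, h.cpl, h.lb00, h.φ0, h.φ1, h.win⟩
  · exact le_trans (by norm_num) h.big
  · have h1 : ((Λ * y' : ℕ) : ℝ) ≤ y := by exact_mod_cast h.sep2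
    push_cast at h1
    exact le_trans (mul_le_mul_of_nonneg_right hΛ (Nat.cast_nonneg _)) h1

theorem M9_cv {Λ Lm : ℕ} {ε η gs : ℝ} {y'' y' y : ℕ} {a00 a0 : PS} {φ' : ℝ} {d : ℕ → ℝ} {S : ℝ}
    {D : ℕ → ℝ} (hΛ : L0 ≤ Λ) (h : St Λ Lm ε η y'' y' y a00 a0 φ' d S) (g : GS Lm gs)
    (hD : ∀ n < y, D n = phs gs * d n) {n : ℕ} (hn : n < y) :
    cv (kS gs a0 y' y) D n = phs gs ^ 2 * cv (ker a0) d n := by
  unfold cv
  rw [Finset.mul_sum]
  refine Finset.sum_congr rfl fun j hj => ?_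
  have hj' := Finset.mem_range.1 hj
  rw [kS_low (St_TP hΛ h).tg g h.lb0 (by omega), hD (n - j) (by omega)]
  ring

theorem top_E {Λ Lm : ℕ} {ε η gs : ℝ} {y'' y' y : ℕ} {a00 a0 : PS} {φ' : ℝ} {d : ℕ → ℝ} {S : ℝ}
    {D : ℕ → ℝ} (hΛ : L0 ≤ Λ) (h : St Λ Lm ε η y'' y' y a00 a0 φ' d S) (g : GS Lm gs)
    (hD : ∀ n < y, D n = phs gs * d n) {n : ℕ} (hn : n < y) :
    (2 * Cum (aS gs a0 y' y) n - D n) * D n - cv (kS gs a0 y' y) D n
      = phs gs ^ 2 * ((2 * Cum a0 n - d n) * d n - cv (ker a0) d n) := by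
  rw [M9_cv hΛ h g hD hn, Cum_aS_low gs a0 hn, hD n hn]
  ring

theorem M9_num {AS' Lm' η gs y' y B B1 : ℝ} (hAS : 1 ≤ AS') (hLm : 1 ≤ Lm') (hη0 : 0 ≤ η)
    (hη : η * (10 ^ 256 * AS' ^ 2 * Lm') ≤ gs) (hgs : gs ≤ 1) (hy' : 0 < y') (hy : 0 < y)
    (hup : y ≤ Lm' * y') (hB : B = 10 ^ 77 * η) (hB1 : B1 = 10 ^ 203 * η / y') :
    B * (10 ^ 10 * A1 * AS' ^ 2) ≤ 1 ∧
    40 * A1 * B1 + 500 * A1 ^ 2 * B / y' ≤ gs / y' ∧
    1512 * AS' * (40 * A1 * B1 + 500 * A1 ^ 2 * B / y') ≤ gs / (10 * y) := by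
  have hA1 : A1 = 10 ^ 47 := rfl
  have e1 : 0 ≤ η * AS' ^ 2 * Lm' := by positivity
  have e2 : η * AS' ≤ η * AS' ^ 2 := by
    have : AS' ≤ AS' ^ 2 := by nlinarith
    exact mul_le_mul_of_nonneg_left this hη0
  have e3 : η ≤ η * AS' := by nlinarith
  have e4 : η * AS' ^ 2 ≤ η * AS' ^ 2 * Lm' := by
    have : 0 ≤ η * AS' ^ 2 := by positivity
    nlinarith
  have e5 : η * AS' * Lm' ≤ η * AS' ^ 2 * Lm' :=
    mul_le_mul_of_nonneg_right e2 (by linarith)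
  have hη' : 10 ^ 256 * (η * AS' ^ 2 * Lm') ≤ gs := by
    calc 10 ^ 256 * (η * AS' ^ 2 * Lm') = η * (10 ^ 256 * AS' ^ 2 * Lm') := by ring
      _ ≤ gs := hη
  refine ⟨?_, ?_, ?_⟩
  · rw [hB, hA1]
    calc 10 ^ 77 * η * (10 ^ 10 * 10 ^ 47 * AS' ^ 2) = 10 ^ 134 * (η * AS' ^ 2) := by ring
      _ ≤ 10 ^ 134 * (η * AS' ^ 2 * Lm') := by gcongr
      _ ≤ 10 ^ 256 * (η * AS' ^ 2 * Lm') := by gcongr <;> norm_num
      _ ≤ 1 := hη'.trans hgs
  · have h1 : 40 * A1 * B1 + 500 * A1 ^ 2 * B / y' = (4 * 10 ^ 251 + 5 * 10 ^ 173) * η / y' := by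
      rw [hB, hB1, hA1]
      field_simp
      ring
    rw [h1]
    apply div_le_div_of_nonneg_right _ hy'.le
    calc (4 * 10 ^ 251 + 5 * 10 ^ 173) * η ≤ 10 ^ 256 * η := by
          apply mul_le_mul_of_nonneg_right _ hη0
          norm_num
      _ ≤ 10 ^ 256 * (η * AS' ^ 2 * Lm') := by
          apply mul_le_mul_of_nonneg_left _ (by positivity)
          linarith
      _ ≤ gs := hη'
  · have h1 : 40 * A1 * B1 + 500 * A1 ^ 2 * B / y' = (4 * 10 ^ 251 + 5 * 10 ^ 173) * η / y' := by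
      rw [hB, hB1, hA1]
      field_simp
      ring
    rw [h1]
    have h2 : 1512 * AS' * ((4 * 10 ^ 251 + 5 * 10 ^ 173) * η / y')
        = 1512 * (4 * 10 ^ 251 + 5 * 10 ^ 173) * (η * AS') / y' := by ring
    rw [h2, div_le_div_iff₀ hy' (by positivity)]
    calc 1512 * (4 * 10 ^ 251 + 5 * 10 ^ 173) * (η * AS') * (10 * y)
        ≤ 1512 * (4 * 10 ^ 251 + 5 * 10 ^ 173) * (η * AS') * (10 * (Lm' * y')) := by gcongr
      _ = 15120 * (4 * 10 ^ 251 + 5 * 10 ^ 173) * (η * AS' * Lm') * y' := by ring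
      _ ≤ 10 ^ 256 * (η * AS' * Lm') * y' := by
          apply mul_le_mul_of_nonneg_right _ hy'.le
          apply mul_le_mul_of_nonneg_right _ (by positivity)
          norm_num
      _ ≤ 10 ^ 256 * (η * AS' ^ 2 * Lm') * y' := by
          apply mul_le_mul_of_nonneg_right _ hy'.le
          apply mul_le_mul_of_nonneg_left e5 (by positivity)
      _ ≤ gs * y' := mul_le_mul_of_nonneg_right hη' hy'.le

theorem top_state {Λ Lm : ℕ} {ε η gs : ℝ} {y'' y' y : ℕ} {a00 a0 : PS} {φ' : ℝ} {d : ℕ → ℝ} {S : ℝ}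
    (hΛ : L0 ≤ Λ) (h : St Λ Lm ε η y'' y' y a00 a0 φ' d S) (g : GS Lm gs) (hη0 : 0 ≤ η)
    (hη : η * (10 ^ 256 * AS Lm ^ 2 * Lm) ≤ gs) :
    ∃ D : ℕ → ℝ, (∀ n < y, D n = phs gs * d n) ∧ (∀ N, TopEq gs a0 y' y N D) ∧
      (∀ n, |dd D n| ≤ coeff n (aS gs a0 y' y) / 2) ∧
      Filter.Tendsto D Filter.atTop (nhds 0) := by
  have tp := St_TP hΛ h
  obtain ⟨hy'0, hy0, hLm, hV0, hV1, hV2, -, -⟩ := tp.tg.facts
  obtain ⟨hp1, hp2, -, -⟩ := phs_bd g
  have hAS1 : (1 : ℝ) ≤ AS Lm :=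
    le_trans (one_le_pow₀ (by norm_num : (1 : ℝ) ≤ 10)) (AS_bd Lm)
  have hgs : gs ≤ 1 := (gs_bd g).trans (by
    rw [div_le_one (by positivity)]
    exact one_le_pow₀ (by norm_num))
  have hy'R : (0 : ℝ) < y' := by exact_mod_cast hy'0
  have hyR : (0 : ℝ) < y := by exact_mod_cast hy0
  have hLmR : (1 : ℝ) ≤ Lm := by exact_mod_cast hLm
  have hup : (y : ℝ) ≤ Lm * y' := by exact_mod_cast tp.tg.up
  have hVR : (0 : ℝ) < Vt y' := by exact_mod_cast hV0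
  obtain ⟨n1', n2', n3'⟩ := M9_num hAS1 hLmR hη0 hη hgs hy'R hyR hup rfl rfl
  set B : ℝ := 10 ^ 77 * η with hB
  set B1 : ℝ := 10 ^ 203 * η / y' with hB1
  have hB0 : 0 ≤ B := mul_nonneg (pow_nonneg (by norm_num) _) hη0
  have hB10 : 0 ≤ B1 := div_nonneg (mul_nonneg (pow_nonneg (by norm_num) _) hη0) hy'R.le
  have hph0 : 0 ≤ phs gs := by linarith

  have hdB : ∀ n < y, |phs gs * d n| ≤ B := by
    intro n hn
    rw [abs_mul, abs_of_nonneg hph0]
    have h1 := h.s2 n hn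
    have h2 : 10 ^ 4 * S / (ww * y') ≤ B := by
      rw [div_le_iff₀ (by unfold ww; positivity), hB]
      unfold ww
      have h3 := h.s7
      have h4 : (10 : ℝ) ^ 4 * S ≤ 10 ^ 4 * (η * y') := by gcongr
      refine h4.trans (le_of_eq ?_)
      ring
    calc phs gs * |d n| ≤ 1 * |d n| := mul_le_mul_of_nonneg_right hp2 (abs_nonneg _)
      _ = |d n| := one_mul _
      _ ≤ B := h1.trans h2
  have hddlow : ∀ D : ℕ → ℝ, (∀ n < y, D n = phs gs * d n) → ∀ n < y, dd D n = phs gs * dd d n := by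
    intro D hD n hn
    unfold dd
    split
    · exact hD 0 hy0
    · rw [hD n hn, hD (n - 1) (by omega)]
      ring
  have hdB1 : ∀ n < y, |phs gs * dd d n| ≤ B1 := by
    intro n hn
    rw [abs_mul, abs_of_nonneg hph0]
    have h1 := h.s3 n hn
    have h2 : 10 ^ 203 * S / (y' : ℝ) ^ 2 ≤ B1 := by
      rw [hB1, div_le_div_iff₀ (by positivity) hy'R]
      have h3 := h.s7
      calc 10 ^ 203 * S * y' ≤ 10 ^ 203 * (η * y') * y' := by gcongr
        _ = 10 ^ 203 * η * (y' : ℝ) ^ 2 := by ring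
    calc phs gs * |dd d n| ≤ 1 * |dd d n| := mul_le_mul_of_nonneg_right hp2 (abs_nonneg _)
      _ = |dd d n| := one_mul _
      _ ≤ B1 := h1.trans h2
  obtain ⟨D, hD, hE, hw, hx⟩ := top_exists (d := fun n => phs gs * d n) tp g hB0 hdB n1'
  have hlow : (2 * phs gs - D (y - 1)) * D (y - 1) = cv (kS gs a0 y' y) D (y - 1) := by
    rw [M9_cv hΛ h g hD (by omega), hD (y - 1) (by omega), ← h.s8]
    ring
  have hDB : ∀ n < y, |D n| ≤ B := fun n hn => by rw [hD n hn]; exact hdB n hn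
  have hDB1 : ∀ n < y, |dd D n| ≤ B1 := fun n hn => by
    rw [hddlow D hD n hn]; exact hdB1 n hn
  obtain ⟨d1, d2⟩ := top_diff tp g hB0 hB10 hDB hDB1 n1' hE hw hx hlow
  refine ⟨D, hD, hE, fun n => ?_, ?_⟩
  · rcases lt_or_ge n y with h1 | h1
    · rw [hddlow D hD n h1, aS_low gs a0 h1, abs_mul, abs_of_nonneg hph0]
      have := mul_le_mul_of_nonneg_left (h.s9 n h1) hph0
      linarith
    · rcases lt_or_ge n (n1 y' y) with h2 | h2
      · have h3 := (aS_mid tp.tg g h.cpl h1 h2).1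
        refine (d1 n h2).trans (n2'.trans ?_)
        have h4 : gs / y' ≤ gs / (2 * Vt y') / 2 := by
          rw [div_div]
          apply div_le_div_of_nonneg_left g.pos.le (by positivity)
          linarith
        linarith
      · rw [aS_high tp.tg h.cpl h2]
        refine (d2 n h2).trans ?_
        have hth := th_bd tp.tg
        have hthp : 0 ≤ th y ^ (n - n1 y' y) := pow_nonneg (by linarith [hth.1]) _
        have h4 : gs / y * th y ^ (n - n1 y' y) / 2 = gs / y / 2 * th y ^ (n - n1 y' y) := by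
          ring
        rw [h4]
        apply mul_le_mul_of_nonneg_right _ hthp
        have h5 : gs / (10 * y) = 1 / 10 * (gs / y) := by field_simp
        have h6 : 1 / 1000 * gs / y = 1 / 1000 * (gs / (y : ℝ)) := by ring
        have h7 : 0 ≤ gs / (y : ℝ) := div_nonneg g.pos.le hyR.le
        rw [h5] at n3'
        rw [h6]
        linarith
  · have hth := th_bd tp.tg
    have hth0 : 0 ≤ th y := by linarith [hth.1]
    set Z : ℝ := 57600 * AS Lm * A1 * B with hZ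
    have hA1p : 0 < A1 := by unfold A1; positivity
    have hZ0 : 0 ≤ Z := by
      have : 0 < AS Lm := by linarith
      rw [hZ]
      exact mul_nonneg (mul_nonneg (mul_nonneg (by norm_num) this.le) hA1p.le) hB0
    have hlim : Filter.Tendsto (fun n : ℕ => 2 * Z * th y ^ (n - n1 y' y)) Filter.atTop
        (nhds 0) := by
      have h1 : Filter.Tendsto (fun n : ℕ => th y ^ n) Filter.atTop (nhds 0) :=
        tendsto_pow_atTop_nhds_zero_of_lt_one hth0 hth.2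
      have h2 : Filter.Tendsto (fun n : ℕ => n - n1 y' y) Filter.atTop Filter.atTop :=
        Filter.tendsto_sub_atTop_nat _
      have h3 := (h1.comp h2).const_mul (2 * Z)
      simpa using h3
    refine squeeze_zero_norm' ?_ hlim
    filter_upwards [Filter.eventually_ge_atTop (n1 y' y)] with n hn
    rw [Real.norm_eq_abs]
    exact D_bd tp.tg g h.lb0 (fun m _ => hx m) hn

end MP18
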