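import Pool.Agent.Lib.MP_18566a_pr.T.A5
import Pool.Agent.Lib.MP_18566a_pr.T.C1c

set_option autoImplicit false

namespace MP18

open Finset PowerSeries

open MeasureTheory in
/-- the law `a` on the lattice of mesh `1 / y` -/
noncomputable def lw (a : PS) (y : ℕ) : Measure ℝ :=
  Measure.sum fun j : ℕ => ENNReal.ofReal (coeff j a) • Measure.dirac ((j : ℝ) / y)

structure Law (a : PS) : Prop where
  nn : ∀ j, 0 ≤ coeff j a
  sum : HasSum (fun j => coeff j a) 1

theorem N0_apply (a : PS) (y : ℕ) {S : Set ℝ} (hS : MeasurableSet S) :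
    lw a y S = ∑' j : ℕ, ENNReal.ofReal (coeff j a) * S.indicator 1 ((j : ℝ) / y) := by
  unfold lw
  rw [MeasureTheory.Measure.sum_apply _ hS]
  refine tsum_congr fun j => ?_
  rw [MeasureTheory.Measure.smul_apply, MeasureTheory.Measure.dirac_apply' _ hS, smul_eq_mul]

theorem N0_sum {a : PS} (h : Law a) (n : ℕ) :
    ∑ j ∈ range n, ENNReal.ofReal (coeff j a) = ENNReal.ofReal (∑ j ∈ range n, coeff j a) :=
  (ENNReal.ofReal_sum_of_nonneg fun j _ => h.nn j).symm

theorem lw_prob {a : PS} (h : Law a) (y : ℕ) : MeasureTheory.IsProbabilityMeasure (lw a y) := by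
  constructor
  rw [N0_apply a y MeasurableSet.univ]
  have h1 : ∀ j : ℕ, ENNReal.ofReal (coeff j a) * (Set.univ : Set ℝ).indicator 1 ((j : ℝ) / y) =
      ENNReal.ofReal (coeff j a) := by
    intro j
    simp
  rw [tsum_congr h1, ← ENNReal.ofReal_tsum_of_nonneg h.nn h.sum.summable, h.sum.tsum_eq,
    ENNReal.ofReal_one]

theorem lw_integral {a : PS} (h : Law a) (y : ℕ) {f : ℝ → ℝ} (hf : Measurable f) {C : ℝ}
    (hC : ∀ x, |f x| ≤ C) : ∫ x, f x ∂(lw a y) = ∑' j : ℕ, coeff j a * f ((j : ℝ) / y) := by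
  have hp := lw_prob h y
  have hint : MeasureTheory.Integrable f (lw a y) :=
    MeasureTheory.Integrable.of_bound hf.aestronglyMeasurable C
      (Filter.Eventually.of_forall fun x => by rw [Real.norm_eq_abs]; exact hC x)
  unfold lw at hint ⊢
  rw [MeasureTheory.integral_sum_measure hint]
  refine tsum_congr fun j => ?_
  rw [MeasureTheory.integral_smul_measure, MeasureTheory.integral_dirac' _ _ hf.stronglyMeasurable,
    ENNReal.toReal_ofReal (h.nn j), smul_eq_mul]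

theorem lw_Iio {a : PS} (h : Law a) {y : ℕ} (hy : 0 < y) {t δ : ℝ} (hδ : 0 ≤ δ)
    (hj : ∀ j : ℕ, (j : ℝ) < t * y → Cum a j ≤ δ) : lw a y (Set.Iio t) ≤ ENNReal.ofReal δ := by
  have hy' : (0 : ℝ) < y := by exact_mod_cast hy
  rw [N0_apply a y measurableSet_Iio]
  have hmem : ∀ j : ℕ, ((j : ℝ) / y ∈ Set.Iio t ↔ j ∈ range ⌈t * y⌉₊) := by
    intro j
    rw [Set.mem_Iio, div_lt_iff₀ hy', mem_range, Nat.lt_ceil]
  rw [tsum_eq_sum (s := range ⌈t * y⌉₊)]
  · have h1 : ∀ j ∈ range ⌈t * y⌉₊, ENNReal.ofReal (coeff j a) *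
        (Set.Iio t).indicator 1 ((j : ℝ) / y) = ENNReal.ofReal (coeff j a) := by
      intro j hj
      rw [Set.indicator_of_mem ((hmem j).2 hj)]
      simp
    rw [Finset.sum_congr rfl h1, N0_sum h]
    apply ENNReal.ofReal_le_ofReal
    rcases Nat.eq_zero_or_pos ⌈t * y⌉₊ with h0 | h0
    · rw [h0, Finset.sum_range_zero]
      exact hδ
    · obtain ⟨J, hJ⟩ : ∃ J, ⌈t * y⌉₊ = J + 1 := ⟨⌈t * y⌉₊ - 1, by omega⟩
      rw [hJ]
      exact hj J (Nat.lt_ceil.1 (by omega))
  · intro j hj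
    rw [Set.indicator_of_notMem (fun hc => hj ((hmem j).1 hc)), mul_zero]

theorem N0_ge {a : PS} (h : Law a) {y : ℕ} {S : Set ℝ} (hS : MeasurableSet S) {j : ℕ}
    (hj : ∀ i ≤ j, (i : ℝ) / y ∈ S) : ENNReal.ofReal (Cum a j) ≤ lw a y S := by
  rw [N0_apply a y hS]
  unfold Cum
  rw [← N0_sum h]
  refine le_trans (le_of_eq ?_) (ENNReal.sum_le_tsum (range (j + 1)))
  refine Finset.sum_congr rfl fun i hi => ?_
  rw [Set.indicator_of_mem (hj i (by have := mem_range.1 hi; omega))]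
  simp

theorem lw_Iic {a : PS} (h : Law a) {y : ℕ} (hy : 0 < y) {t δ : ℝ} {j : ℕ} (hj : (j : ℝ) ≤ t * y)
    (hc : δ ≤ Cum a j) : ENNReal.ofReal δ ≤ lw a y (Set.Iic t) := by
  have hy' : (0 : ℝ) < y := by exact_mod_cast hy
  refine (ENNReal.ofReal_le_ofReal hc).trans (N0_ge h measurableSet_Iic fun i hi => ?_)
  rw [Set.mem_Iic, div_le_iff₀ hy']
  have : (i : ℝ) ≤ j := by exact_mod_cast hi
  linarith

theorem lw_tail {a : PS} (h : Law a) {y : ℕ} (hy : 0 < y) {t δ : ℝ} {j : ℕ} (ht : (j : ℝ) ≤ t * y)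
    (hd : 1 - Cum a j ≤ δ) : lw a y (Set.Icc 0 t)ᶜ ≤ ENNReal.ofReal δ := by
  have hy' : (0 : ℝ) < y := by exact_mod_cast hy
  have hp := lw_prob h y
  rw [MeasureTheory.prob_compl_eq_one_sub measurableSet_Icc]
  have h1 : ENNReal.ofReal (Cum a j) ≤ lw a y (Set.Icc 0 t) := by
    refine N0_ge h measurableSet_Icc fun i hi => ?_
    rw [Set.mem_Icc, div_le_iff₀ hy']
    have : (i : ℝ) ≤ j := by exact_mod_cast hi
    exact ⟨by positivity, by linarith⟩
  have h2 : 0 ≤ Cum a j := Finset.sum_nonneg fun i _ => h.nn i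
  calc 1 - lw a y (Set.Icc 0 t) ≤ 1 - ENNReal.ofReal (Cum a j) := tsub_le_tsub_left h1 1
    _ = ENNReal.ofReal (1 - Cum a j) := by
        rw [ENNReal.ofReal_sub _ h2, ENNReal.ofReal_one]
    _ ≤ ENNReal.ofReal δ := ENNReal.ofReal_le_ofReal hd

theorem N0_swap (a : PS) (n : ℕ) :
    ∑ j ∈ range n, coeff j a * ((n : ℝ) - j) = ∑ j ∈ range n, Cum a j := by
  induction n with
  | zero => simp
  | succ n ih =>
    rw [Finset.sum_range_succ (fun j => Cum a j), ← ih]
    have h1 : ∀ j ∈ range (n + 1), coeff j a * (((n + 1 : ℕ) : ℝ) - j) =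
        coeff j a * ((n : ℝ) - j) + coeff j a := by
      intro j _
      push_cast
      ring
    rw [Finset.sum_congr rfl h1, Finset.sum_add_distrib,
      Finset.sum_range_succ (fun j => coeff j a * ((n : ℝ) - j))]
    unfold Cum
    ring

theorem lw_hat {a : PS} (h : Law a) {y : ℕ} (hy : 0 < y) :
    ∫ x, max 0 (1 - max x 0) ∂(lw a y) = (∑ j ∈ range y, Cum a j) / y := by
  have hy' : (0 : ℝ) < y := by exact_mod_cast hy
  have hb : ∀ x : ℝ, |max 0 (1 - max x 0)| ≤ 1 := by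
    intro x
    rw [abs_of_nonneg (le_max_left _ _)]
    refine max_le zero_le_one ?_
    linarith [le_max_right x 0]
  rw [lw_integral h y (by fun_prop) hb, tsum_eq_sum (s := range y)]
  · rw [← N0_swap, Finset.sum_div]
    refine Finset.sum_congr rfl fun j hj => ?_
    have h1 : (j : ℝ) < y := by exact_mod_cast mem_range.1 hj
    have h2 : (j : ℝ) / y ≤ 1 := by
      rw [div_le_one hy']
      exact h1.le
    have h3 : (0 : ℝ) ≤ (j : ℝ) / y := by positivity
    rw [max_eq_left h3, max_eq_right (by linarith)]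
    field_simp
  · intro j hj
    have h1 : (y : ℝ) ≤ j := by
      rw [mem_range, not_lt] at hj
      exact_mod_cast hj
    have h2 : 1 ≤ (j : ℝ) / y := by
      rw [le_div_iff₀ hy']
      linarith
    rw [max_eq_left (by linarith : (0 : ℝ) ≤ (j : ℝ) / y), max_eq_left (by linarith), mul_zero]

end MP18
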