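import Pool.Agent.Lib.MP_18566a_pr.T.N0

set_option autoImplicit false

namespace MP18

open Finset PowerSeries

/-- evaluation at a real point -/
noncomputable def evr (A : PS) (z : ℝ) : ℝ := ∑' n, coeff n A * z ^ n

theorem N1_aux1 {y : ℕ} {lam : ℝ} (j : ℕ) :
    Real.exp (-(lam * max ((j : ℝ) / y) 0)) = Real.exp (-(lam / y)) ^ j := by
  rw [← Real.exp_nat_mul, max_eq_left (by positivity)]
  congr 1
  ring

theorem evr_exp {a : PS} (h : Law a) {y : ℕ} (hy : 0 < y) {lam : ℝ} (hl : 0 ≤ lam) :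
    ∫ x, Real.exp (-(lam * max x 0)) ∂(lw a y) = evr a (Real.exp (-(lam / y))) := by
  rw [lw_integral h y (f := fun x => Real.exp (-(lam * max x 0))) (by fun_prop) (C := 1) ?_]
  · unfold evr
    refine tsum_congr fun j => ?_
    rw [N1_aux1]
  · intro x
    rw [abs_of_pos (Real.exp_pos _), Real.exp_le_one_iff]
    have := mul_nonneg hl (le_max_right x 0)
    linarith

theorem N1_aux2 {a : PS} (h : Law a) {z : ℝ} (hz : 0 ≤ z) (hz1 : z ≤ 1) :
    ∑' j : ℕ, coeff j a * ∑' k : ℕ, coeff k a * z ^ (max j k) = evr (sq a) z := by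
  have hs := h.sum.summable
  have hpair : Summable fun p : ℕ × ℕ => coeff p.1 a * coeff p.2 a :=
    hs.mul_of_nonneg hs h.nn h.nn
  have hpw : ∀ n : ℕ, z ^ n ≤ 1 := fun n => pow_le_one₀ hz hz1
  have hpw0 : ∀ n : ℕ, 0 ≤ z ^ n := fun n => pow_nonneg hz n
  set f1 : ℕ × ℕ → ℝ := fun p => if p.2 ≤ p.1 then coeff p.1 a * coeff p.2 a * z ^ p.1 else 0
    with hf1
  set f2 : ℕ × ℕ → ℝ := fun p => if p.1 < p.2 then coeff p.1 a * coeff p.2 a * z ^ p.2 else 0
    with hf2
  have hs1 : Summable f1 := by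
    refine Summable.of_nonneg_of_le (fun p => ?_) (fun p => ?_) hpair
    · simp only [hf1]
      split_ifs
      · exact mul_nonneg (mul_nonneg (h.nn _) (h.nn _)) (hpw0 _)
      · exact le_refl _
    · simp only [hf1]
      split_ifs
      · exact mul_le_of_le_one_right (mul_nonneg (h.nn _) (h.nn _)) (hpw _)
      · exact mul_nonneg (h.nn _) (h.nn _)
  have hs2 : Summable f2 := by
    refine Summable.of_nonneg_of_le (fun p => ?_) (fun p => ?_) hpair
    · simp only [hf2]
      split_ifs
      · exact mul_nonneg (mul_nonneg (h.nn _) (h.nn _)) (hpw0 _)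
      · exact le_refl _
    · simp only [hf2]
      split_ifs
      · exact mul_le_of_le_one_right (mul_nonneg (h.nn _) (h.nn _)) (hpw _)
      · exact mul_nonneg (h.nn _) (h.nn _)
  have hsum : ∀ p : ℕ × ℕ, coeff p.1 a * (coeff p.2 a * z ^ (max p.1 p.2)) = f1 p + f2 p := by
    intro p
    simp only [hf1, hf2]
    rcases le_or_gt p.2 p.1 with hle | hlt
    · rw [if_pos hle, if_neg (not_lt.2 hle), max_eq_left hle]; ring
    · rw [if_neg (not_le.2 hlt), if_pos hlt, max_eq_right hlt.le]; ring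
  have e0 : ∑' j : ℕ, coeff j a * ∑' k : ℕ, coeff k a * z ^ (max j k) =
      ∑' p : ℕ × ℕ, (f1 p + f2 p) := by
    rw [(hs1.add hs2).tsum_prod]
    refine tsum_congr fun j => ?_
    rw [← tsum_mul_left]
    exact tsum_congr fun k => hsum (j, k)
  have e1 : ∑' p : ℕ × ℕ, f1 p = ∑' j : ℕ, coeff j a * Cum a j * z ^ j := by
    rw [hs1.tsum_prod]
    refine tsum_congr fun j => ?_
    rw [tsum_eq_sum (s := range (j + 1))]
    · unfold Cum
      rw [Finset.mul_sum, Finset.sum_mul]
      refine Finset.sum_congr rfl fun k hk => ?_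
      simp only [hf1]
      rw [if_pos (by simpa using Nat.lt_succ_iff.1 (Finset.mem_range.1 hk))]
    · intro k hk
      simp only [hf1]
      rw [if_neg]
      simp only [Finset.mem_range] at hk
      omega
  have hs2' : Summable fun p : ℕ × ℕ => f2 p.swap := (Equiv.prodComm ℕ ℕ).summable_iff.2 hs2
  have e2 : ∑' p : ℕ × ℕ, f2 p = ∑' j : ℕ, coeff j a * (Cum a j - coeff j a) * z ^ j := by
    rw [← (Equiv.prodComm ℕ ℕ).tsum_eq f2]
    change ∑' p : ℕ × ℕ, f2 p.swap = _
    rw [hs2'.tsum_prod]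
    refine tsum_congr fun j => ?_
    rw [tsum_eq_sum (s := range j)]
    · unfold Cum
      rw [Finset.sum_range_succ, add_sub_cancel_right, Finset.mul_sum, Finset.sum_mul]
      refine Finset.sum_congr rfl fun k hk => ?_
      simp only [hf2, Prod.swap]
      rw [if_pos (Finset.mem_range.1 hk)]
      ring
    · intro k hk
      simp only [hf2, Prod.swap]
      rw [if_neg]
      simpa using hk
  have hC : ∀ j, Cum a j ≤ 1 := fun j => sum_le_hasSum _ (fun i _ => h.nn i) h.sum
  have hC0 : ∀ j, coeff j a ≤ Cum a j := by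
    intro j
    unfold Cum
    exact Finset.single_le_sum (f := fun i => coeff i a) (fun i _ => h.nn i) (by simp)
  have s1 : Summable fun j : ℕ => coeff j a * Cum a j * z ^ j := by
    refine Summable.of_nonneg_of_le (fun j => ?_) (fun j => ?_) hs
    · exact mul_nonneg (mul_nonneg (h.nn _) ((h.nn _).trans (hC0 _))) (hpw0 _)
    · have := mul_le_of_le_one_right (h.nn j) (hC j)
      exact (mul_le_of_le_one_right (mul_nonneg (h.nn _) ((h.nn _).trans (hC0 _)))
        (hpw _)).trans this
  have s2 : Summable fun j : ℕ => coeff j a * (Cum a j - coeff j a) * z ^ j := by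
    refine Summable.of_nonneg_of_le (fun j => ?_) (fun j => ?_) hs
    · exact mul_nonneg (mul_nonneg (h.nn _) (sub_nonneg.2 (hC0 _))) (hpw0 _)
    · have h1 : Cum a j - coeff j a ≤ 1 := by linarith [hC j, h.nn j]
      have := mul_le_of_le_one_right (h.nn j) h1
      exact (mul_le_of_le_one_right (mul_nonneg (h.nn _) (sub_nonneg.2 (hC0 _)))
        (hpw _)).trans this
  rw [e0, hs1.tsum_add hs2, e1, e2, ← s1.tsum_add s2]
  unfold evr
  refine tsum_congr fun j => ?_
  unfold sq
  rw [coeff_mk]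
  ring

theorem evr_max {a : PS} (h : Law a) {y : ℕ} (hy : 0 < y) {lam : ℝ} (hl : 0 ≤ lam) :
    ∫ p : ℝ × ℝ, Real.exp (-(lam * max (max p.1 p.2) 0)) ∂((lw a y).prod (lw a y))
      = evr (sq a) (Real.exp (-(lam / y))) := by
  have := lw_prob h y
  have hb : ∀ t : ℝ, |Real.exp (-(lam * max t 0))| ≤ 1 := by
    intro x
    rw [abs_of_pos (Real.exp_pos _), Real.exp_le_one_iff]
    have := mul_nonneg hl (le_max_right x 0)
    linarith
  have hm : Measurable fun p : ℝ × ℝ => Real.exp (-(lam * max (max p.1 p.2) 0)) := by fun_prop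
  have hint : MeasureTheory.Integrable (fun p : ℝ × ℝ =>
      Real.exp (-(lam * max (max p.1 p.2) 0))) ((lw a y).prod (lw a y)) :=
    MeasureTheory.Integrable.of_bound hm.aestronglyMeasurable 1
      (Filter.Eventually.of_forall fun p => by rw [Real.norm_eq_abs]; exact hb _)
  rw [MeasureTheory.integral_prod _ hint]
  have hG : Measurable fun x : ℝ => ∫ t, Real.exp (-(lam * max (max x t) 0)) ∂(lw a y) :=
    (MeasureTheory.StronglyMeasurable.integral_prod_right' (ν := lw a y)
      hm.stronglyMeasurable).measurable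
  have hGb : ∀ x : ℝ, |∫ t, Real.exp (-(lam * max (max x t) 0)) ∂(lw a y)| ≤ 1 := by
    intro x
    rw [← Real.norm_eq_abs]
    refine (MeasureTheory.norm_integral_le_of_norm_le_const (C := 1)
      (Filter.Eventually.of_forall fun t => by rw [Real.norm_eq_abs]; exact hb _)).trans ?_
    simp
  rw [lw_integral h y hG hGb, ← N1_aux2 h (Real.exp_pos _).le ?_]
  · refine tsum_congr fun j => ?_
    congr 1
    rw [lw_integral h y (f := fun t => Real.exp (-(lam * max (max ((j : ℝ) / y) t) 0)))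
      (by fun_prop) (C := 1) (fun t => hb _)]
    refine tsum_congr fun k => ?_
    congr 1
    have hyr : (0 : ℝ) < y := by exact_mod_cast hy
    have : max ((j : ℝ) / y) ((k : ℝ) / y) = ((max j k : ℕ) : ℝ) / y := by
      rw [Nat.cast_max]
      exact (max_div_div_right hyr.le _ _)
    rw [this, N1_aux1]
  · rw [Real.exp_le_one_iff]
    have : 0 ≤ lam / y := by positivity
    linarith

theorem evr_id {a b E : PS} {C z : ℝ} (ha : Law a) (hb : Law b) (hE : Bd 1 E C)
    (he : sq a * b - sq b * a = nab * (a * E)) (hz : 0 ≤ z) (hz1 : z ≤ 1) :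
    |evr (sq a) z * evr b z - evr (sq b) z * evr a z| ≤ (1 - z) * C := by
  have hev : ∀ A : PS, ev A (z : ℂ) = ((evr A z : ℝ) : ℂ) := by
    intro A
    unfold ev evr
    rw [Complex.ofReal_tsum]
    refine tsum_congr fun n => ?_
    push_cast
    rfl
  have hzn : ‖(z : ℂ)‖ ≤ 1 := by
    rw [Complex.norm_real, Real.norm_eq_abs, abs_of_nonneg hz]
    exact hz1
  have hBd : ∀ {A : PS}, Law A → Bd 1 A 1 := by
    intro A hA N
    have : ∑ n ∈ range N, |coeff n A| * (1 : ℝ) ^ n = ∑ n ∈ range N, coeff n A :=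
      Finset.sum_congr rfl fun n _ => by rw [one_pow, mul_one, abs_of_nonneg (hA.nn n)]
    rw [this]
    exact sum_le_hasSum _ (fun i _ => hA.nn i) hA.sum
  have hBa := hBd ha
  have hBb := hBd hb
  have hsa := Bd_sq zero_le_one hBa hBa
  have hsb := Bd_sq zero_le_one hBb hBb
  have hna := Bd_nab (r := 1) zero_le_one
  have key := congrArg (fun A => ev A (z : ℂ)) he
  rw [ev_sub (Bd_mul zero_le_one hsa hBb) (Bd_mul zero_le_one hsb hBa) hzn,
    ev_mul hsa hBb hzn, ev_mul hsb hBa hzn, ev_mul hna (Bd_mul zero_le_one hBa hE) hzn,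
    ev_mul hBa hE hzn, ev_nab, hev, hev, hev, hev, hev] at key
  have key2 : evr (sq a) z * evr b z - evr (sq b) z * evr a z = (1 - z) * (evr a z * evr E z) := by
    exact_mod_cast key
  have n1 : |evr a z| ≤ 1 := by
    have := ev_norm hBa hzn
    rwa [hev, Complex.norm_real, Real.norm_eq_abs] at this
  have n2 : |evr E z| ≤ C := by
    have := ev_norm hE hzn
    rwa [hev, Complex.norm_real, Real.norm_eq_abs] at this
  rw [key2, abs_mul, abs_mul, abs_of_nonneg (sub_nonneg.2 hz1)]
  refine mul_le_mul_of_nonneg_left ?_ (sub_nonneg.2 hz1)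
  calc |evr a z| * |evr E z| ≤ 1 * C := mul_le_mul n1 n2 (abs_nonneg _) zero_le_one
    _ = C := one_mul C

end MP18
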