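import Pool.Agent.Lib.MP_18566a_pr.T.N0

set_option autoImplicit false

namespace MP18

open Finset PowerSeries

open MeasureTheory Filter in
theorem ultra_lim (μ : ℕ → ProbabilityMeasure ℝ)
    (ht : ∀ ε : ℝ, 0 < ε → ∃ K : Set ℝ, IsCompact K ∧
      ∀ k, (μ k : Measure ℝ) Kᶜ ≤ ENNReal.ofReal ε) (U : Ultrafilter ℕ) :
    ∃ μ' : ProbabilityMeasure ℝ, Tendsto μ (U : Filter ℕ) (nhds μ') := by
  have hT : IsTightMeasureSet
      {((ν : ProbabilityMeasure ℝ) : Measure ℝ) | ν ∈ Set.range μ} := by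
    rw [isTightMeasureSet_iff_exists_isCompact_measure_compl_le]
    intro ε hε
    obtain ⟨δ, hδ, hδε⟩ : ∃ δ : ℝ, 0 < δ ∧ ENNReal.ofReal δ ≤ ε := by
      rcases eq_or_ne ε ⊤ with rfl | hne
      · exact ⟨1, one_pos, le_top⟩
      · exact ⟨ε.toReal, ENNReal.toReal_pos hε.ne' hne, (ENNReal.ofReal_toReal hne).le⟩
    obtain ⟨K, hK, h⟩ := ht δ hδ
    refine ⟨K, hK, ?_⟩
    rintro _ ⟨_, ⟨k, rfl⟩, rfl⟩
    exact (h k).trans hδε
  have hc := isCompact_closure_of_isTightMeasureSet hT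
  obtain ⟨μ', -, h⟩ := hc.ultrafilter_le_nhds (U.map μ) (by
    rw [le_principal_iff]
    have : Set.range μ ∈ Filter.map μ (U : Filter ℕ) := Filter.range_mem_map
    exact mem_of_superset this subset_closure)
  exact ⟨μ', h⟩

open MeasureTheory Filter in
theorem lim_zero {μ : ℕ → ProbabilityMeasure ℝ} {U : Ultrafilter ℕ} {μ' : ProbabilityMeasure ℝ}
    (h : Tendsto μ (U : Filter ℕ) (nhds μ')) {dl c : ℕ → ℝ} (hd : ∀ i, 0 < dl i)
    (hc : Tendsto c atTop (nhds 0))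
    (hb : ∀ i, ∀ᶠ k in (U : Filter ℕ), (μ k : Measure ℝ) (Set.Iio (dl i)) ≤ ENNReal.ofReal (c i)) :
    (μ' : Measure ℝ) (Set.Iic 0) = 0 := by
  have h1 : ∀ i, (μ' : Measure ℝ) (Set.Iic 0) ≤ ENNReal.ofReal (c i) := by
    intro i
    calc (μ' : Measure ℝ) (Set.Iic 0) ≤ (μ' : Measure ℝ) (Set.Iio (dl i)) :=
          measure_mono (Set.Iic_subset_Iio.2 (hd i))
      _ ≤ Filter.liminf (fun k => (μ k : Measure ℝ) (Set.Iio (dl i))) (U : Filter ℕ) :=
          ProbabilityMeasure.le_liminf_measure_open_of_tendsto h isOpen_Iio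
      _ ≤ Filter.liminf (fun k => ENNReal.ofReal (c i)) (U : Filter ℕ) :=
          Filter.liminf_le_liminf (hb i)
      _ = ENNReal.ofReal (c i) := Filter.liminf_const _
  have h2 : Tendsto (fun i => ENNReal.ofReal (c i)) atTop (nhds 0) := by
    have := ENNReal.tendsto_ofReal hc
    rwa [ENNReal.ofReal_zero] at this
  exact le_antisymm (ge_of_tendsto' h2 h1) bot_le

open MeasureTheory Filter in
theorem lim_pos {μ : ℕ → ProbabilityMeasure ℝ} {U : Ultrafilter ℕ} {μ' : ProbabilityMeasure ℝ}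
    (h : Tendsto μ (U : Filter ℕ) (nhds μ')) {x c : ℝ} (hc : 0 < c)
    (hb : ∀ᶠ k in (U : Filter ℕ), ENNReal.ofReal c ≤ (μ k : Measure ℝ) (Set.Iic x)) :
    0 < (μ' : Measure ℝ) (Set.Iic x) := by
  calc (0 : ENNReal) < ENNReal.ofReal c := ENNReal.ofReal_pos.2 hc
    _ = Filter.limsup (fun k => ENNReal.ofReal c) (U : Filter ℕ) := (Filter.limsup_const _).symm
    _ ≤ Filter.limsup (fun k => (μ k : Measure ℝ) (Set.Iic x)) (U : Filter ℕ) :=
        Filter.limsup_le_limsup hb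
    _ ≤ (μ' : Measure ℝ) (Set.Iic x) :=
        ProbabilityMeasure.limsup_measure_closed_le_of_tendsto h isClosed_Iic

open MeasureTheory Filter in
theorem lim_int {μ : ℕ → ProbabilityMeasure ℝ} {U : Ultrafilter ℕ} {μ' : ProbabilityMeasure ℝ}
    (h : Tendsto μ (U : Filter ℕ) (nhds μ')) {f : ℝ → ℝ} (hf : Continuous f) {C : ℝ}
    (hC : ∀ x, |f x| ≤ C) :
    Tendsto (fun k => ∫ x, f x ∂(μ k : Measure ℝ)) (U : Filter ℕ)
      (nhds (∫ x, f x ∂(μ' : Measure ℝ))) :=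
  ProbabilityMeasure.tendsto_iff_forall_integral_tendsto.1 h
    (BoundedContinuousFunction.ofNormedAddCommGroup f hf C fun x => by
      rw [Real.norm_eq_abs]; exact hC x)

open MeasureTheory Filter in
theorem lim_int2 {μ : ℕ → ProbabilityMeasure ℝ} {U : Ultrafilter ℕ} {μ' : ProbabilityMeasure ℝ}
    (h : Tendsto μ (U : Filter ℕ) (nhds μ')) {f : ℝ × ℝ → ℝ} (hf : Continuous f) {C : ℝ}
    (hC : ∀ x, |f x| ≤ C) :
    Tendsto (fun k => ∫ p, f p ∂((μ k : Measure ℝ).prod (μ k : Measure ℝ))) (U : Filter ℕ)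
      (nhds (∫ p, f p ∂((μ' : Measure ℝ).prod (μ' : Measure ℝ)))) := by
  have h2 : Tendsto (fun k => (μ k).prod (μ k)) (U : Filter ℕ) (nhds (μ'.prod μ')) :=
    (ProbabilityMeasure.continuous_prod.tendsto (μ', μ')).comp (h.prodMk_nhds h)
  exact ProbabilityMeasure.tendsto_iff_forall_integral_tendsto.1 h2
    (BoundedContinuousFunction.ofNormedAddCommGroup f hf C fun x => by
      rw [Real.norm_eq_abs]; exact hC x)

end MP18
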