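import Pool.Agent.Lib.MP_18566a_pr.T.N1
import Pool.Agent.Lib.MP_18566a_pr.T.N2
import Pool.Agent.Lib.MP_18566a_pr.T.M11

set_option autoImplicit false

namespace MP18

open Finset PowerSeries

theorem N3_aux_tail {a : PS} {y : ℕ} (hy : 0 < y) (h : Law a)
    (ht : ∀ j, 1 - Cum a (2 * y + j) ≤ 2 * th y ^ j) {t : ℝ} (h4 : 4 ≤ t) :
    lw a y (Set.Icc 0 t)ᶜ ≤ ENNReal.ofReal (2 * Real.exp (-(t - 4))) := by
  have hy1 : (1 : ℝ) ≤ y := by exact_mod_cast hy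
  have hy0 : (0 : ℝ) < y := by linarith
  set j : ℕ := ⌊(t - 3) * y⌋₊ with hj
  have hnn : 0 ≤ (t - 3) * (y : ℝ) := mul_nonneg (by linarith) hy0.le
  have hj1 : (j : ℝ) ≤ (t - 3) * y := Nat.floor_le hnn
  have hj2 : (t - 3) * (y : ℝ) < j + 1 := Nat.lt_floor_add_one _
  apply lw_tail h hy (j := 2 * y + j)
  · push_cast
    nlinarith
  · refine (ht j).trans ?_
    have hth0 : 0 ≤ th y := by
      unfold th
      have : 1 / (y : ℝ) ≤ 1 := by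
        rw [div_le_one hy0]
        exact hy1
      linarith
    have hth1 : th y ≤ Real.exp (-(1 / (y : ℝ))) := by
      unfold th
      have := Real.add_one_le_exp (-(1 / (y : ℝ)))
      linarith
    have h1 : th y ^ j ≤ Real.exp (-(1 / (y : ℝ))) ^ j := pow_le_pow_left₀ hth0 hth1 j
    rw [← Real.exp_nat_mul] at h1
    have h2 : Real.exp ((j : ℝ) * -(1 / (y : ℝ))) ≤ Real.exp (-(t - 4)) := by
      apply Real.exp_le_exp.mpr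
      have h3 : (t - 4) * (y : ℝ) ≤ j := by nlinarith
      have h4' : t - 4 ≤ (j : ℝ) / y := by
        rw [le_div_iff₀ hy0]
        exact h3
      have h5 : (j : ℝ) * -(1 / (y : ℝ)) = -((j : ℝ) / y) := by ring
      rw [h5]
      linarith
    linarith

theorem N3_aux_pos {a : PS} {y : ℕ} (hy : 0 < y) (h : Law a) {Λ i : ℕ} {δ : ℝ}
    (hΛ : 2 ≤ Λ) (hlo : ∀ j, y ≤ Λ ^ i * j → δ ≤ Cum a j) {x : ℝ}
    (hx : 2 / (Λ : ℝ) ^ i ≤ x) (hyi : Λ ^ i ≤ y) :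
    ENNReal.ofReal δ ≤ lw a y (Set.Iic x) := by
  have hy0 : (0 : ℝ) < y := by exact_mod_cast hy
  have hL0 : (0 : ℝ) < (Λ : ℝ) ^ i := by
    have : (0 : ℝ) < Λ := by
      have : 0 < Λ := by omega
      exact_mod_cast this
    positivity
  have hyi' : ((Λ : ℝ) ^ i) ≤ y := by exact_mod_cast hyi
  set j : ℕ := ⌈(y : ℝ) / (Λ : ℝ) ^ i⌉₊ with hj
  have hnn : 0 ≤ (y : ℝ) / (Λ : ℝ) ^ i := by positivity
  have hj1 : (j : ℝ) < (y : ℝ) / (Λ : ℝ) ^ i + 1 := Nat.ceil_lt_add_one hnn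
  have hj2 : (y : ℝ) / (Λ : ℝ) ^ i ≤ j := Nat.le_ceil _
  apply lw_Iic h hy (j := j)
  · have h1 : 1 ≤ (y : ℝ) / (Λ : ℝ) ^ i := by
      rw [le_div_iff₀ hL0]
      linarith
    have h2 : 2 / (Λ : ℝ) ^ i * y ≤ x * y := mul_le_mul_of_nonneg_right hx hy0.le
    have h3 : 2 / (Λ : ℝ) ^ i * y = (y : ℝ) / (Λ : ℝ) ^ i + (y : ℝ) / (Λ : ℝ) ^ i := by ring
    linarith
  · apply hlo
    have h1 : (y : ℝ) ≤ (Λ : ℝ) ^ i * j := by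
      have := (div_le_iff₀ hL0).mp hj2
      linarith
    exact_mod_cast h1

theorem N3_aux_zero {a : PS} {y : ℕ} (hy : 0 < y) (h : Law a) {Lm i : ℕ} (hL : 1 ≤ Lm)
    {δ : ℝ} (hδ : 0 ≤ δ) (hhi : ∀ j, Lm ^ i * j < y → Cum a j ≤ δ) :
    lw a y (Set.Iio (1 / (Lm : ℝ) ^ i)) ≤ ENNReal.ofReal δ := by
  have hL0 : (0 : ℝ) < (Lm : ℝ) ^ i := by
    have : (0 : ℝ) < Lm := by exact_mod_cast hL
    positivity
  apply lw_Iio h hy hδ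
  intro j hj
  apply hhi
  have h1 : (Lm : ℝ) ^ i * j < y := by
    have h2 : (Lm : ℝ) ^ i * j < (Lm : ℝ) ^ i * (1 / (Lm : ℝ) ^ i * y) :=
      mul_lt_mul_of_pos_left hj hL0
    have h3 : (Lm : ℝ) ^ i * (1 / (Lm : ℝ) ^ i * y) = y := by
      field_simp
    linarith
  exact_mod_cast h1

theorem AP_tight {Λ Lm : ℕ} {c : ℝ} {n : ℕ} {R : ℝ} {a b : PS} {y : ℕ} (h : AP Λ Lm c n R a b y)
    {t : ℝ} (ht : 4 ≤ t) :
    lw a y (Set.Icc 0 t)ᶜ ≤ ENNReal.ofReal (2 * Real.exp (-(t - 4))) ∧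
    lw b y (Set.Icc 0 t)ᶜ ≤ ENNReal.ofReal (2 * Real.exp (-(t - 4))) :=
  ⟨N3_aux_tail h.ypos ⟨h.ann, h.asum⟩ h.atail ht, N3_aux_tail h.ypos ⟨h.bnn, h.bsum⟩ h.btail ht⟩

theorem AP_zero {Λ Lm : ℕ} {c : ℝ} {n : ℕ} {R : ℝ} {a b : PS} {y : ℕ} (h : AP Λ Lm c n R a b y)
    (hL : 1 ≤ Lm) {i : ℕ} (hi : i ≤ n) :
    lw a y (Set.Iio (1 / (Lm : ℝ) ^ i)) ≤ ENNReal.ofReal (2 * phi ^ i) ∧
    lw b y (Set.Iio (1 / (Lm : ℝ) ^ i)) ≤ ENNReal.ofReal (2 * phi ^ i) := by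
  have hp : 0 ≤ 2 * phi ^ i := by
    have := phi_bd
    have h0 : 0 ≤ phi := by linarith [this.1]
    positivity
  exact ⟨N3_aux_zero h.ypos ⟨h.ann, h.asum⟩ hL hp (h.ahi i hi),
    N3_aux_zero h.ypos ⟨h.bnn, h.bsum⟩ hL hp (h.bhi i hi)⟩

theorem AP_pos {Λ Lm : ℕ} {c : ℝ} {n : ℕ} {R : ℝ} {a b : PS} {y : ℕ} (h : AP Λ Lm c n R a b y)
    (hΛ : 2 ≤ Λ) {i : ℕ} (hi : i ≤ n) {x : ℝ} (hx : 2 / (Λ : ℝ) ^ i ≤ x) (hy : Λ ^ i ≤ y) :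
    ENNReal.ofReal ((phi / 2) ^ i / 4) ≤ lw a y (Set.Iic x) ∧
    ENNReal.ofReal ((phi / 2) ^ i / 4) ≤ lw b y (Set.Iic x) :=
  ⟨N3_aux_pos h.ypos ⟨h.ann, h.asum⟩ hΛ (h.alo i hi) hx hy,
    N3_aux_pos h.ypos ⟨h.bnn, h.bsum⟩ hΛ (h.blo i hi) hx hy⟩

theorem AP_laplace {Λ Lm : ℕ} {c : ℝ} {n : ℕ} {R : ℝ} {a b : PS} {y : ℕ}
    (h : AP Λ Lm c n R a b y) (hR : 0 ≤ R) {lam : ℝ} (hl : 0 ≤ lam) :
    |(∫ p : ℝ × ℝ, Real.exp (-(lam * max (max p.1 p.2) 0)) ∂((lw a y).prod (lw a y)))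
        * (∫ x, Real.exp (-(lam * max x 0)) ∂(lw b y))
      - (∫ p : ℝ × ℝ, Real.exp (-(lam * max (max p.1 p.2) 0)) ∂((lw b y).prod (lw b y)))
        * (∫ x, Real.exp (-(lam * max x 0)) ∂(lw a y))| ≤ lam * R := by
  have ha : Law a := ⟨h.ann, h.asum⟩
  have hb : Law b := ⟨h.bnn, h.bsum⟩
  have hy0 : (0 : ℝ) < y := by exact_mod_cast h.ypos
  rw [evr_exp ha h.ypos hl, evr_exp hb h.ypos hl, evr_max ha h.ypos hl, evr_max hb h.ypos hl]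
  obtain ⟨E, hE, he⟩ := h.res
  have hz1 : Real.exp (-(lam / (y : ℝ))) ≤ 1 := by
    apply Real.exp_le_one_iff.mpr
    have : 0 ≤ lam / (y : ℝ) := by positivity
    linarith
  refine (evr_id ha hb hE he (Real.exp_pos _).le hz1).trans ?_
  have h1 : 1 - Real.exp (-(lam / (y : ℝ))) ≤ lam / y := by
    have := Real.add_one_le_exp (-(lam / (y : ℝ)))
    linarith
  have h2 : 0 ≤ R * (y : ℝ) := by positivity
  calc (1 - Real.exp (-(lam / (y : ℝ)))) * (R * y) ≤ lam / y * (R * y) :=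
        mul_le_mul_of_nonneg_right h1 h2
    _ = lam * R := by
        field_simp

theorem AP_hat {Λ Lm : ℕ} {c : ℝ} {n : ℕ} {R : ℝ} {a b : PS} {y : ℕ} (h : AP Λ Lm c n R a b y) :
    c ≤ |∫ x, max 0 (1 - max x 0) ∂(lw a y) - ∫ x, max 0 (1 - max x 0) ∂(lw b y)| := by
  have ha : Law a := ⟨h.ann, h.asum⟩
  have hb : Law b := ⟨h.bnn, h.bsum⟩
  have hy0 : (0 : ℝ) < y := by exact_mod_cast h.ypos
  have e1 := lw_hat ha h.ypos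
  have e2 := lw_hat hb h.ypos
  rw [e1, e2, ← sub_div, ← Finset.sum_sub_distrib, abs_div, abs_of_pos hy0, le_div_iff₀ hy0]
  exact h.diff

end MP18
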