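import Pool.Agent.Lib.MP_18566a_pr.T.N3

set_option autoImplicit false

namespace MP18

open Finset PowerSeries

open MeasureTheory Filter in
/-- a limit along the hyperfilter, with the properties of one of the two families -/
theorem N4_aux_lim (μ : ℕ → ProbabilityMeasure ℝ) {Λ Lm : ℕ} (hΛ : 2 ≤ Λ) (hL : 1 ≤ Lm)
    (y : ℕ → ℕ) (hy : ∀ k, k < y k)
    (ht : ∀ k (t : ℝ), 4 ≤ t → (μ k : Measure ℝ) (Set.Icc 0 t)ᶜ
      ≤ ENNReal.ofReal (2 * Real.exp (-(t - 4))))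
    (hz : ∀ k i, i ≤ k → (μ k : Measure ℝ) (Set.Iio (1 / (Lm : ℝ) ^ i))
      ≤ ENNReal.ofReal (2 * phi ^ i))
    (hp : ∀ k i, i ≤ k → ∀ x : ℝ, 2 / (Λ : ℝ) ^ i ≤ x → Λ ^ i ≤ y k →
      ENNReal.ofReal ((phi / 2) ^ i / 4) ≤ (μ k : Measure ℝ) (Set.Iic x)) :
    ∃ μ' : ProbabilityMeasure ℝ,
      Tendsto μ ((hyperfilter ℕ : Ultrafilter ℕ) : Filter ℕ) (nhds μ') ∧
      (μ' : Measure ℝ) (Set.Iic 0) = 0 ∧ ∀ x : ℝ, 0 < x → 0 < (μ' : Measure ℝ) (Set.Iic x) := by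
  have hphi := phi_bd
  have hphi0 : 0 < phi := by linarith [hphi.1]
  have hphi1 : phi < 1 := by linarith [hphi.2]
  have hU : ((hyperfilter ℕ : Ultrafilter ℕ) : Filter ℕ) ≤ atTop := Nat.hyperfilter_le_atTop
  obtain ⟨μ', hμ'⟩ := ultra_lim μ (by
    intro ε hε
    obtain ⟨t, ht4, hte⟩ : ∃ t : ℝ, 4 ≤ t ∧ 2 * Real.exp (-(t - 4)) ≤ ε := by
      refine ⟨max 4 (4 - Real.log (ε / 2)), le_max_left _ _, ?_⟩
      have h1 : 4 - Real.log (ε / 2) ≤ max 4 (4 - Real.log (ε / 2)) := le_max_right _ _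
      have h2 : Real.exp (-(max 4 (4 - Real.log (ε / 2)) - 4)) ≤ Real.exp (Real.log (ε / 2)) := by
        apply Real.exp_le_exp.mpr
        linarith
      rw [Real.exp_log (by linarith)] at h2
      linarith
    exact ⟨Set.Icc 0 t, isCompact_Icc, fun k => (ht k t ht4).trans
      (ENNReal.ofReal_le_ofReal hte)⟩) (hyperfilter ℕ)
  refine ⟨μ', hμ', ?_, ?_⟩
  · have hLp : ∀ i : ℕ, (0 : ℝ) < 1 / (Lm : ℝ) ^ i := by
      intro i
      have : (0 : ℝ) < Lm := by exact_mod_cast hL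
      positivity
    refine lim_zero hμ' (dl := fun i => 1 / (Lm : ℝ) ^ i) (c := fun i => 2 * phi ^ i) hLp ?_ ?_
    · have h1 : Tendsto (fun i : ℕ => 2 * phi ^ i) atTop (nhds (2 * 0)) :=
        (tendsto_pow_atTop_nhds_zero_of_lt_one hphi0.le hphi1).const_mul 2
      simpa using h1
    · intro i
      exact hU (by
        filter_upwards [eventually_ge_atTop i] with k hk
        exact hz k i hk)
  · intro x hx
    obtain ⟨i, hi⟩ : ∃ i : ℕ, 2 / (Λ : ℝ) ^ i ≤ x := by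
      have hΛ' : (2 : ℝ) ≤ Λ := by exact_mod_cast hΛ
      obtain ⟨i, hi⟩ := pow_unbounded_of_one_lt (2 / x) (show (1 : ℝ) < Λ by linarith)
      refine ⟨i, ?_⟩
      have h0 : (0 : ℝ) < (Λ : ℝ) ^ i := by positivity
      rw [div_lt_iff₀ hx] at hi
      rw [div_le_iff₀ h0]
      linarith
    refine lim_pos hμ' (x := x) (c := (phi / 2) ^ i / 4) (by positivity) ?_
    exact hU (by
      filter_upwards [eventually_ge_atTop i, eventually_ge_atTop (Λ ^ i)] with k hk hk2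
      exact hp k i hk x hi (hk2.trans (hy k).le))

open MeasureTheory in
/-- on a measure living on the positive half line, `max x 0` is `x` -/
theorem N4_aux_one {μ : Measure ℝ} [IsProbabilityMeasure μ] (h0 : μ (Set.Iic 0) = 0) (lam : ℝ) :
    ∫ x, Real.exp (-(lam * max x 0)) ∂μ = ∫ x, Real.exp (-(lam * x)) ∂μ := by
  apply integral_congr_ae
  have h1 : ∀ᵐ x ∂μ, x ∉ Set.Iic (0 : ℝ) := measure_eq_zero_iff_ae_notMem.mp h0
  filter_upwards [h1] with x hx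
  have hx' : 0 < x := by simpa using hx
  rw [max_eq_left hx'.le]

open MeasureTheory in
theorem N4_aux_two {μ : Measure ℝ} [IsProbabilityMeasure μ] (h0 : μ (Set.Iic 0) = 0) (lam : ℝ) :
    ∫ p : ℝ × ℝ, Real.exp (-(lam * max (max p.1 p.2) 0)) ∂(μ.prod μ)
      = ∫ p : ℝ × ℝ, Real.exp (-(lam * max p.1 p.2)) ∂(μ.prod μ) := by
  apply integral_congr_ae
  have h1 : ∀ᵐ x ∂μ, x ∉ Set.Iic (0 : ℝ) := measure_eq_zero_iff_ae_notMem.mp h0
  have h2 : ∀ᵐ p : ℝ × ℝ ∂(μ.prod μ), p.1 ∉ Set.Iic (0 : ℝ) :=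
    Measure.quasiMeasurePreserving_fst.ae h1
  filter_upwards [h2] with p hp
  have hx' : 0 < p.1 := by simpa using hp
  have : 0 ≤ max p.1 p.2 := le_max_of_le_left hx'.le
  rw [max_eq_left this]

open MeasureTheory Filter in
theorem N4_aux_ne {μ ν : ℕ → ProbabilityMeasure ℝ} {U : Ultrafilter ℕ}
    {μ' ν' : ProbabilityMeasure ℝ} (hμ : Tendsto μ (U : Filter ℕ) (nhds μ'))
    (hν : Tendsto ν (U : Filter ℕ) (nhds ν')) {c : ℝ} (hc : 0 < c)
    (h : ∀ k, c ≤ |∫ x, max 0 (1 - max x 0) ∂(μ k : Measure ℝ)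
      - ∫ x, max 0 (1 - max x 0) ∂(ν k : Measure ℝ)|) : (μ' : Measure ℝ) ≠ (ν' : Measure ℝ) := by
  intro he
  have hcont : Continuous (fun x : ℝ => max 0 (1 - max x 0)) := by fun_prop
  have hbd : ∀ x : ℝ, |max 0 (1 - max x 0)| ≤ 1 := by
    intro x
    rw [abs_of_nonneg (le_max_left _ _)]
    apply max_le
    · exact zero_le_one
    · have := le_max_right x 0
      linarith
  have h1 := lim_int hμ hcont hbd
  have h2 := lim_int hν hcont hbd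
  have h3 := (h1.sub h2).abs
  rw [he, sub_self, abs_zero] at h3
  have h4 : c ≤ 0 := ge_of_tendsto h3 (Eventually.of_forall h)
  linarith

open MeasureTheory Filter in
theorem N4_aux_lap {μ ν : ℕ → ProbabilityMeasure ℝ}
    {μ' ν' : ProbabilityMeasure ℝ}
    (hμ : Tendsto μ ((hyperfilter ℕ : Ultrafilter ℕ) : Filter ℕ) (nhds μ'))
    (hν : Tendsto ν ((hyperfilter ℕ : Ultrafilter ℕ) : Filter ℕ) (nhds ν')) {lam : ℝ}
    (hl : 0 < lam) (h : ∀ k : ℕ,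
      |(∫ p : ℝ × ℝ, Real.exp (-(lam * max (max p.1 p.2) 0))
          ∂((μ k : Measure ℝ).prod (μ k : Measure ℝ)))
        * (∫ x, Real.exp (-(lam * max x 0)) ∂(ν k : Measure ℝ))
      - (∫ p : ℝ × ℝ, Real.exp (-(lam * max (max p.1 p.2) 0))
          ∂((ν k : Measure ℝ).prod (ν k : Measure ℝ)))
        * (∫ x, Real.exp (-(lam * max x 0)) ∂(μ k : Measure ℝ))| ≤ lam * (1 / ((k : ℝ) + 1))) :
    (∫ p : ℝ × ℝ, Real.exp (-(lam * max (max p.1 p.2) 0))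
          ∂((μ' : Measure ℝ).prod (μ' : Measure ℝ)))
        * (∫ x, Real.exp (-(lam * max x 0)) ∂(ν' : Measure ℝ))
      = (∫ p : ℝ × ℝ, Real.exp (-(lam * max (max p.1 p.2) 0))
          ∂((ν' : Measure ℝ).prod (ν' : Measure ℝ)))
        * (∫ x, Real.exp (-(lam * max x 0)) ∂(μ' : Measure ℝ)) := by
  have hU : ((hyperfilter ℕ : Ultrafilter ℕ) : Filter ℕ) ≤ atTop := Nat.hyperfilter_le_atTop
  have hc1 : Continuous (fun x : ℝ => Real.exp (-(lam * max x 0))) := by fun_prop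
  have hc2 : Continuous (fun p : ℝ × ℝ => Real.exp (-(lam * max (max p.1 p.2) 0))) := by fun_prop
  have hb : ∀ s : ℝ, |Real.exp (-(lam * max s 0))| ≤ 1 := by
    intro s
    rw [abs_of_pos (Real.exp_pos _)]
    apply Real.exp_le_one_iff.mpr
    have : 0 ≤ lam * max s 0 := mul_nonneg hl.le (le_max_right _ _)
    linarith
  have m1 := lim_int hμ hc1 hb
  have n1 := lim_int hν hc1 hb
  have m2 := lim_int2 hμ hc2 (fun p => hb _)
  have n2 := lim_int2 hν hc2 (fun p => hb _)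
  have h1 := ((m2.mul n1).sub (n2.mul m1)).abs
  have h2 : Tendsto (fun k : ℕ => lam * (1 / ((k : ℝ) + 1)))
      ((hyperfilter ℕ : Ultrafilter ℕ) : Filter ℕ) (nhds (lam * 0)) :=
    (tendsto_one_div_add_atTop_nhds_zero_nat.const_mul lam).mono_left hU
  rw [mul_zero] at h2
  have h3 := le_of_tendsto_of_tendsto h1 h2 (Eventually.of_forall h)
  have h4 := abs_nonpos_iff.mp h3
  linarith

open MeasureTheory in
theorem limit_pair : ∃ μ ν : Measure ℝ, IsProbabilityMeasure μ ∧ IsProbabilityMeasure ν ∧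
    μ (Set.Iic 0) = 0 ∧ ν (Set.Iic 0) = 0 ∧ (∀ x : ℝ, 0 < x → 0 < μ (Set.Iic x)) ∧
    (∀ x : ℝ, 0 < x → 0 < ν (Set.Iic x)) ∧ μ ≠ ν ∧
    ∀ lam : ℝ, 0 < lam →
      (∫ p : ℝ × ℝ, Real.exp (-(lam * max p.1 p.2)) ∂(μ.prod μ)) * (∫ x, Real.exp (-(lam * x)) ∂ν)
      = (∫ p : ℝ × ℝ, Real.exp (-(lam * max p.1 p.2)) ∂(ν.prod ν))
        * (∫ x, Real.exp (-(lam * x)) ∂μ) := by
  obtain ⟨Λ, Lm, c, hΛ, hL, hc, H⟩ := AP_seq
  choose a b y hy hAP using H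
  let μ : ℕ → ProbabilityMeasure ℝ := fun k =>
    ⟨lw (a k) (y k), lw_prob ⟨(hAP k).ann, (hAP k).asum⟩ (y k)⟩
  let ν : ℕ → ProbabilityMeasure ℝ := fun k =>
    ⟨lw (b k) (y k), lw_prob ⟨(hAP k).bnn, (hAP k).bsum⟩ (y k)⟩
  obtain ⟨μ', hμ', hμ0, hμp⟩ := N4_aux_lim μ hΛ hL y hy
    (fun k t ht => (AP_tight (hAP k) ht).1)
    (fun k i hi => (AP_zero (hAP k) hL hi).1)
    (fun k i hi x hx hyi => (AP_pos (hAP k) hΛ hi hx hyi).1)
  obtain ⟨ν', hν', hν0, hνp⟩ := N4_aux_lim ν hΛ hL y hy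
    (fun k t ht => (AP_tight (hAP k) ht).2)
    (fun k i hi => (AP_zero (hAP k) hL hi).2)
    (fun k i hi x hx hyi => (AP_pos (hAP k) hΛ hi hx hyi).2)
  refine ⟨(μ' : Measure ℝ), (ν' : Measure ℝ), inferInstance, inferInstance, hμ0, hν0, hμp, hνp,
    ?_, ?_⟩
  · exact N4_aux_ne hμ' hν' hc (fun k => AP_hat (hAP k))
  · intro lam hl
    have h1 := N4_aux_lap hμ' hν' hl (fun k => AP_laplace (hAP k) (by positivity) hl.le)
    rw [N4_aux_one hμ0, N4_aux_one hν0, N4_aux_two hμ0, N4_aux_two hν0] at h1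
    exact h1

end MP18
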