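import Pool.Agent.Lib.MP_18566a_pr.T.N4
import Pool.Agent.Lib.MP_18566a_pr.Stmt

set_option autoImplicit false

namespace MP18

open Finset PowerSeries

open MeasureTheory

theorem ord_two (x : Fin 2 → ℝ) :
    ordStat x 0 = min (x 0) (x 1) ∧ ordStat x 1 = max (x 0) (x 1) := by
  have hm : x (Tuple.sort x 0) ≤ x (Tuple.sort x 1) :=
    Tuple.monotone_sort x (show (0 : Fin 2) ≤ 1 by decide)
  have hinj : Tuple.sort x 0 ≠ Tuple.sort x 1 := by
    intro h
    exact absurd ((Tuple.sort x).injective h) (by decide)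
  unfold ordStat
  generalize Tuple.sort x 0 = i at *
  generalize Tuple.sort x 1 = j at *
  fin_cases i <;> fin_cases j
  · exact absurd rfl hinj
  · exact ⟨(min_eq_left hm).symm, (max_eq_right hm).symm⟩
  · exact ⟨(min_eq_right hm).symm, (max_eq_left hm).symm⟩
  · exact absurd rfl hinj

theorem N5_aux_pos {μ : Measure ℝ} (hμ : μ (Set.Iic 0) = 0) : ∀ᵐ x ∂μ, 0 < x := by
  rw [ae_iff]
  have h : {a : ℝ | ¬ 0 < a} = Set.Iic 0 := by
    ext a
    simp
  rw [h]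
  exact hμ

theorem N5_aux_int {μ : Measure ℝ} [IsProbabilityMeasure μ] (hμ : μ (Set.Iic 0) = 0) {lam : ℝ}
    (hl : 0 < lam) : Integrable (fun x => Real.exp (-(lam * x))) μ := by
  refine Integrable.of_bound (by fun_prop) 1 ?_
  filter_upwards [N5_aux_pos hμ] with x hx
  rw [Real.norm_eq_abs, abs_of_pos (Real.exp_pos _), Real.exp_le_one_iff]
  have := mul_pos hl hx
  linarith

theorem N5_aux_int_max {μ : Measure ℝ} [IsProbabilityMeasure μ] (hμ : μ (Set.Iic 0) = 0) {lam : ℝ}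
    (hl : 0 < lam) :
    Integrable (fun p : ℝ × ℝ => Real.exp (-(lam * max p.1 p.2))) (μ.prod μ) := by
  refine Integrable.of_bound (by fun_prop) 1 ?_
  filter_upwards [Measure.quasiMeasurePreserving_fst.ae (N5_aux_pos hμ)] with p hp
  rw [Real.norm_eq_abs, abs_of_pos (Real.exp_pos _), Real.exp_le_one_iff]
  have h1 : 0 < max p.1 p.2 := lt_max_of_lt_left hp
  have := mul_pos hl h1
  linarith

theorem N5_aux_int_min {μ : Measure ℝ} [IsProbabilityMeasure μ] (hμ : μ (Set.Iic 0) = 0) {lam : ℝ}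
    (hl : 0 < lam) :
    Integrable (fun p : ℝ × ℝ => Real.exp (-(lam * min p.1 p.2))) (μ.prod μ) := by
  refine Integrable.of_bound (by fun_prop) 1 ?_
  filter_upwards [Measure.quasiMeasurePreserving_fst.ae (N5_aux_pos hμ),
    Measure.quasiMeasurePreserving_snd.ae (N5_aux_pos hμ)] with p hp hp'
  rw [Real.norm_eq_abs, abs_of_pos (Real.exp_pos _), Real.exp_le_one_iff]
  have h1 : 0 < min p.1 p.2 := lt_min hp hp'
  have := mul_pos hl h1
  linarith

theorem N5_aux_EL {π μ : Measure ℝ} [IsProbabilityMeasure π] [IsProbabilityMeasure μ] {lam : ℝ}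
    (k : Fin 2) (f : ℝ → ℝ → ℝ) (hf : ∀ x : Fin 2 → ℝ, ordStat x k = f (x 0) (x 1))
    (hadd : ∀ s x y, f (s + x) (s + y) = s + f x y) :
    EL (N := 2) π μ lam k = (∫ s, Real.exp (-(lam * s)) ∂π)
      * ∫ p : ℝ × ℝ, Real.exp (-(lam * f p.1 p.2)) ∂(μ.prod μ) := by
  have h1 : ∀ w : ℝ × (Fin 2 → ℝ), Real.exp (-(lam * ordStat (fun i => w.1 + w.2 i) k)) =
      Real.exp (-(lam * w.1)) * Real.exp (-(lam * f (w.2 0) (w.2 1))) := by
    intro w
    rw [hf, hadd, ← Real.exp_add]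
    congr 1
    ring
  unfold EL
  simp_rw [h1]
  rw [integral_prod_mul (fun s => Real.exp (-(lam * s)))
    (fun v : Fin 2 → ℝ => Real.exp (-(lam * f (v 0) (v 1))))]
  congr 1
  exact (measurePreserving_finTwoArrow μ).integral_comp'
    (fun p : ℝ × ℝ => Real.exp (-(lam * f p.1 p.2)))

theorem EL_max {π μ : Measure ℝ} [IsProbabilityMeasure π] [IsProbabilityMeasure μ]
    (hπ : π (Set.Iic 0) = 0) (hμ : μ (Set.Iic 0) = 0) {lam : ℝ} (hl : 0 < lam) :
    EL (N := 2) π μ lam 1 = (∫ s, Real.exp (-(lam * s)) ∂π)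
      * ∫ p : ℝ × ℝ, Real.exp (-(lam * max p.1 p.2)) ∂(μ.prod μ) :=
  N5_aux_EL 1 max (fun x => (ord_two x).2) (fun s x y => max_add_add_left s x y)

theorem N5_aux_EL_min {π μ : Measure ℝ} [IsProbabilityMeasure π] [IsProbabilityMeasure μ]
    {lam : ℝ} :
    EL (N := 2) π μ lam 0 = (∫ s, Real.exp (-(lam * s)) ∂π)
      * ∫ p : ℝ × ℝ, Real.exp (-(lam * min p.1 p.2)) ∂(μ.prod μ) :=
  N5_aux_EL 0 min (fun x => (ord_two x).1) (fun s x y => min_add_add_left s x y)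

theorem EL_min {π μ : Measure ℝ} [IsProbabilityMeasure π] [IsProbabilityMeasure μ]
    (hπ : π (Set.Iic 0) = 0) (hμ : μ (Set.Iic 0) = 0) {lam : ℝ} (hl : 0 < lam) :
    EL (N := 2) π μ lam 0 = (∫ s, Real.exp (-(lam * s)) ∂π)
      * (2 * (∫ x, Real.exp (-(lam * x)) ∂μ)
        - ∫ p : ℝ × ℝ, Real.exp (-(lam * max p.1 p.2)) ∂(μ.prod μ)) := by
  rw [N5_aux_EL_min]
  congr 1
  have h1 : ∀ p : ℝ × ℝ, Real.exp (-(lam * min p.1 p.2)) =
      (Real.exp (-(lam * p.1)) + Real.exp (-(lam * p.2))) - Real.exp (-(lam * max p.1 p.2)) := by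
    intro p
    rcases le_total p.1 p.2 with h | h
    · rw [min_eq_left h, max_eq_right h]
      ring
    · rw [min_eq_right h, max_eq_left h]
      ring
  simp_rw [h1]
  have i1 := (N5_aux_int hμ hl).comp_fst μ
  have i2 := (N5_aux_int hμ hl).comp_snd μ
  have i3 : Integrable (fun p : ℝ × ℝ => Real.exp (-(lam * p.1)) + Real.exp (-(lam * p.2)))
      (μ.prod μ) := i1.add i2
  rw [integral_sub i3 (N5_aux_int_max hμ hl), integral_add i1 i2,
    integral_fun_fst (fun x => Real.exp (-(lam * x))),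
    integral_fun_snd (fun x => Real.exp (-(lam * x)))]
  simp only [probReal_univ, one_smul]
  ring

theorem EL_min_pos {π μ : Measure ℝ} [IsProbabilityMeasure π] [IsProbabilityMeasure μ]
    (hπ : π (Set.Iic 0) = 0) (hμ : μ (Set.Iic 0) = 0) {lam : ℝ} (hl : 0 < lam) :
    0 < EL (N := 2) π μ lam 0 := by
  rw [N5_aux_EL_min]
  exact mul_pos (integral_exp_pos (N5_aux_int hπ hl)) (integral_exp_pos (N5_aux_int_min hμ hl))

theorem K_eq {μ ν : Measure ℝ} [IsProbabilityMeasure μ] [IsProbabilityMeasure ν]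
    (hμ : μ (Set.Iic 0) = 0) (hν : ν (Set.Iic 0) = 0) {lam : ℝ} (hl : 0 < lam)
    (h : (∫ p : ℝ × ℝ, Real.exp (-(lam * max p.1 p.2)) ∂(μ.prod μ))
        * (∫ x, Real.exp (-(lam * x)) ∂ν)
      = (∫ p : ℝ × ℝ, Real.exp (-(lam * max p.1 p.2)) ∂(ν.prod ν))
        * (∫ x, Real.exp (-(lam * x)) ∂μ)) (π : Measure ℝ) [IsProbabilityMeasure π]
    (hπ : π (Set.Iic 0) = 0) : KK 2 le_rfl π μ lam = KK 2 le_rfl π ν lam := by
  have e1 : KK 2 le_rfl π μ lam = EL (N := 2) π μ lam 1 / EL (N := 2) π μ lam 0 := rfl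
  have e2 : KK 2 le_rfl π ν lam = EL (N := 2) π ν lam 1 / EL (N := 2) π ν lam 0 := rfl
  rw [e1, e2, div_eq_div_iff (EL_min_pos hπ hμ hl).ne' (EL_min_pos hπ hν hl).ne',
    EL_max hπ hμ hl, EL_max hπ hν hl, EL_min hπ hμ hl, EL_min hπ hν hl]
  linear_combination (2 * (∫ s, Real.exp (-(lam * s)) ∂π) ^ 2) * h

theorem final_pair : ∃ μ ν : Measure ℝ, ClassC μ ∧ ClassC ν ∧
    ProbabilityTheory.cdf μ ≠ ProbabilityTheory.cdf ν ∧
    ∀ π : Measure ℝ, IsProbabilityMeasure π → ProbabilityTheory.cdf π 0 = 0 →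
      ∀ lam : ℝ, 0 < lam → KK 2 le_rfl π μ lam = KK 2 le_rfl π ν lam := by
  obtain ⟨μ, ν, hμp, hνp, hμ0, hν0, hμ1, hν1, hne, hK⟩ := limit_pair
  refine ⟨μ, ν, ⟨hμp, ?_, ?_⟩, ⟨hνp, ?_, ?_⟩, ?_, ?_⟩
  · rw [ProbabilityTheory.cdf_eq_real, Measure.real, hμ0, ENNReal.toReal_zero]
  · intro x hx
    rw [ProbabilityTheory.cdf_eq_real, Measure.real]
    exact ENNReal.toReal_pos (hμ1 x hx).ne' (measure_ne_top _ _)
  · rw [ProbabilityTheory.cdf_eq_real, Measure.real, hν0, ENNReal.toReal_zero]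
  · intro x hx
    rw [ProbabilityTheory.cdf_eq_real, Measure.real]
    exact ENNReal.toReal_pos (hν1 x hx).ne' (measure_ne_top _ _)
  · intro hc
    exact hne (Measure.eq_of_cdf μ ν hc)
  · intro π hπp hπ lam hl
    have hπ0 : π (Set.Iic 0) = 0 := by
      rw [← ProbabilityTheory.ofReal_cdf, hπ, ENNReal.ofReal_zero]
    exact K_eq hμ0 hν0 hl (hK lam hl) π hπ0

end MP18
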