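import Mathlib

set_option autoImplicit false

namespace MP18

noncomputable section

/-- mass of the trigger -/
def ff : ℝ := 1 / 10 ^ 140

def p0f (a : ℝ) : ℝ := 1 / (1 + a) ^ 3
def p1f (a : ℝ) : ℝ := 3 * a / (1 + a) ^ 3
def p2f (a : ℝ) : ℝ := 3 * a ^ 2 / (1 + a) ^ 3
def p3f (a : ℝ) : ℝ := a ^ 3 / (1 + a) ^ 3

/-- the tuning equation -/
def Tune (a : ℝ) : Prop :=
  1 - 2 * (1 - (1 - ff) * p0f a) ^ 2 + 2 * ((1 - ff) * p2f a + (1 - ff) * p3f a) ^ 2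
    - 2 * ((1 - ff) * p3f a) ^ 2 = - (ff / ((1 - ff) * p0f a)) * ((1 - a) / (1 + a)) ^ 3

/-- difference of the two sides of the tuning equation -/
def Tun_auxh (a : ℝ) : ℝ :=
  (1 - 2 * (1 - (1 - ff) * p0f a) ^ 2 + 2 * ((1 - ff) * p2f a + (1 - ff) * p3f a) ^ 2
    - 2 * ((1 - ff) * p3f a) ^ 2) + (ff / ((1 - ff) * p0f a)) * ((1 - a) / (1 + a)) ^ 3

theorem Tun_aux1 : ContinuousOn Tun_auxh (Set.Icc (0.6869582451 : ℝ) 0.6869582453) := by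
  have hff : (1 - ff) ≠ 0 := by unfold ff; norm_num
  intro a ha
  have ha1 : (1 + a) ≠ 0 := by have := ha.1; norm_num at this; positivity
  have ha3 : (1 + a) ^ 3 ≠ 0 := pow_ne_zero _ ha1
  have h0 : (1 - ff) * (1 / (1 + a) ^ 3) ≠ 0 := mul_ne_zero hff (one_div_ne_zero ha3)
  apply ContinuousAt.continuousWithinAt
  unfold Tun_auxh p0f p2f p3f
  fun_prop (disch := assumption)

theorem Tun_aux2 : 0 ≤ Tun_auxh 0.6869582451 := by
  unfold Tun_auxh p0f p2f p3f ff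
  norm_num

theorem Tun_aux3 : Tun_auxh 0.6869582453 ≤ 0 := by
  unfold Tun_auxh p0f p2f p3f ff
  norm_num

theorem exists_tuned :
    ∃ a : ℝ, 0.6869582451 ≤ a ∧ a ≤ 0.6869582453 ∧ Tune a := by
  have h := intermediate_value_Icc' (by norm_num : (0.6869582451 : ℝ) ≤ 0.6869582453) Tun_aux1
  obtain ⟨a, ha, h0⟩ := h ⟨Tun_aux3, Tun_aux2⟩
  refine ⟨a, ha.1, ha.2, ?_⟩
  unfold Tun_auxh at h0
  unfold Tune
  linarith

end

end MP18
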